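import Pool.Agent.X14.Base

set_option autoImplicit false

namespace Pool.Agent.X14.Bala

open Finset Pool.Agent.H434R2 Pool.Agent.H434R2.PO Pool.Agent.X14

/-- `x_j = n / (j+1)` -/
def xx (n j : ℕ) : ℚ := (n : ℚ) / ((j : ℚ) + 1)

/-- `W_j = ∏_{i<j} (1 - x_i^2)^2` -/
def WW (n j : ℕ) : ℚ := ∏ i ∈ range j, (1 - xx n i ^ 2) ^ 2

lemma choose_pred (n j : ℕ) (hn : 1 ≤ n) :
    ((n - 1).choose j : ℚ) = (-1) ^ j * ∏ i ∈ range j, (1 - xx n i) := by
  induction j with
  | zero => simp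
  | succ j ih =>
    have h := Nat.choose_succ_right_eq (n - 1) j
    have h2 : ((n - 1).choose (j + 1) : ℚ) * ((j : ℚ) + 1) = ((n - 1).choose j : ℚ) * ((n : ℚ) - 1 - j) := by
      rcases le_or_gt j (n - 1) with hj | hj
      · have e : ((n - 1 - j : ℕ) : ℚ) = (n : ℚ) - 1 - j := by
          rw [Nat.cast_sub hj, Nat.cast_sub hn]; push_cast; ring
        rw [← e]
        exact_mod_cast h
      · rw [Nat.choose_eq_zero_of_lt hj, Nat.choose_eq_zero_of_lt (by omega)]; simp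
    have hj0 : ((j : ℚ) + 1) ≠ 0 := by positivity
    have h3 : ((n - 1).choose (j + 1) : ℚ) = ((n - 1).choose j : ℚ) * (-(1 - xx n j)) := by
      apply mul_right_cancel₀ hj0
      rw [h2]
      unfold xx
      field_simp
      ring
    rw [h3, ih, prod_range_succ, pow_succ]
    ring

lemma choose_add (n j : ℕ) :
    ((n + j).choose j : ℚ) = ∏ i ∈ range j, (1 + xx n i) := by
  induction j with
  | zero => simp
  | succ j ih =>
    have h := Nat.add_one_mul_choose_eq (n + j) j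
    have hj0 : ((j : ℚ) + 1) ≠ 0 := by positivity
    have h2 : ((n + (j + 1)).choose (j + 1) : ℚ) * ((j : ℚ) + 1) = ((n : ℚ) + j + 1) * ((n + j).choose j : ℚ) := by
      have : (n + j + 1) * (n + j).choose j = (n + j + 1).choose (j + 1) * (j + 1) := h
      have h5 : ((n + j + 1 : ℕ) : ℚ) * ((n + j).choose j : ℚ) = ((n + (j + 1)).choose (j + 1) : ℚ) * ((j + 1 : ℕ) : ℚ) := by
        exact_mod_cast this
      push_cast at h5
      linarith
    apply mul_right_cancel₀ hj0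
    rw [h2, ih, prod_range_succ]
    unfold xx
    field_simp
    ring

lemma WW_eq (n j : ℕ) (hn : 1 ≤ n) :
    WW n j = (((n - 1).choose j : ℚ) * ((n + j).choose j : ℚ)) ^ 2 := by
  rw [choose_pred n j hn, choose_add]
  unfold WW
  have h : ∏ i ∈ range j, (1 - xx n i ^ 2) ^ 2 =
      ((∏ i ∈ range j, (1 - xx n i)) * ∏ i ∈ range j, (1 + xx n i)) ^ 2 := by
    rw [← prod_mul_distrib, ← prod_pow]
    apply prod_congr rfl
    intro i _
    ring
  rw [h]
  have h1 : ((-1 : ℚ) ^ j) ^ 2 = 1 := by rw [← pow_mul, mul_comm, pow_mul]; norm_num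
  rw [mul_assoc ((-1 : ℚ) ^ j), mul_pow ((-1 : ℚ) ^ j), h1, one_mul]

/-- The term of index `j+1`. -/
lemma term_eq (n j : ℕ) (hn : 1 ≤ n) :
    (n.choose (j + 1) : ℚ) * ((n - 1).choose (j + 1) : ℚ) * ((n + (j + 1) - 1).choose (j + 1) : ℚ) ^ 2 =
      -(xx n j ^ 3 * (1 - xx n j) * WW n j) := by
  have hj0 : ((j : ℚ) + 1) ≠ 0 := by positivity
  have a1 : (n.choose (j + 1) : ℚ) = xx n j * ((n - 1).choose j : ℚ) := by
    obtain ⟨m, rfl⟩ : ∃ m, n = m + 1 := ⟨n - 1, by omega⟩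
    have h := Nat.add_one_mul_choose_eq m j
    have h5 : ((m + 1 : ℕ) : ℚ) * (m.choose j : ℚ) = ((m + 1).choose (j + 1) : ℚ) * ((j + 1 : ℕ) : ℚ) := by
      exact_mod_cast h
    push_cast at h5
    unfold xx
    rw [Nat.add_sub_cancel]
    push_cast
    field_simp
    linarith
  have a2 : ((n - 1).choose (j + 1) : ℚ) = -((n - 1).choose j : ℚ) * (1 - xx n j) := by
    rw [choose_pred n _ hn, choose_pred n _ hn, prod_range_succ, pow_succ]; ring
  have a3 : ((n + (j + 1) - 1).choose (j + 1) : ℚ) = xx n j * ((n + j).choose j : ℚ) := by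
    have e : n + (j + 1) - 1 = n + j := by omega
    rw [e]
    have h := Nat.choose_succ_right_eq (n + j) j
    rw [Nat.add_sub_cancel] at h
    have h5 : ((n + j).choose (j + 1) : ℚ) * ((j + 1 : ℕ) : ℚ) = ((n + j).choose j : ℚ) * (n : ℚ) := by
      exact_mod_cast h
    push_cast at h5
    unfold xx
    field_simp
    linarith
  rw [a1, a2, a3, WW_eq n j hn]
  ring

/-- the sequence -/
def a (n : ℕ) : ℤ :=
  if n = 0 then 1 else ∑ j ∈ range n, (n.choose j : ℤ) * ((n - 1).choose j : ℤ) * ((n + j - 1).choose j : ℤ) ^ 2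

lemma a_eq (n : ℕ) (hn : 1 ≤ n) :
    (a n : ℚ) = 1 - ∑ j ∈ range (n - 1), xx n j ^ 3 * (1 - xx n j) * WW n j := by
  unfold a
  rw [if_neg (by omega)]
  have e : range n = range ((n - 1) + 1) := by rw [Nat.sub_add_cancel hn]
  rw [e, sum_range_succ']
  push_cast
  rw [← sub_eq_zero]
  have h : ∑ j ∈ range (n - 1), ((n.choose (j + 1) : ℚ) * ((n - 1).choose (j + 1) : ℚ) *
      ((n + (j + 1) - 1).choose (j + 1) : ℚ) ^ 2) =
      - ∑ j ∈ range (n - 1), xx n j ^ 3 * (1 - xx n j) * WW n j := by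
    rw [← sum_neg_distrib]
    apply sum_congr rfl
    intro j _
    exact term_eq n j hn
  rw [h]
  simp
  ring

end Pool.Agent.X14.Bala
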