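import Mathlib

set_option autoImplicit false

/-! An identity coming from `log (1+x) + log(1+ωx) + log(1+ω²x) = log(1+x³)`. -/

namespace Pool.Agent.X14.S3Log

open Finset PowerSeries

noncomputable section

/-- `1/(1-X)` -/
def w : ℚ⟦X⟧ := mk 1

lemma hw : w * (1 - X) = 1 := mk_one_mul_one_sub_eq_one ℚ

lemma dw : d⁄dX ℚ w = w ^ 2 := by
  have h := congrArg (d⁄dX ℚ) hw
  rw [Derivation.leibniz, map_sub, derivative_X, derivative_one, smul_eq_mul, smul_eq_mul, zero_sub] at h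
  have h1 : (1 - X : ℚ⟦X⟧) * d⁄dX ℚ w = w := by linear_combination h
  calc d⁄dX ℚ w = (w * (1 - X)) * d⁄dX ℚ w := by rw [hw, one_mul]
    _ = w * ((1 - X) * d⁄dX ℚ w) := by ring
    _ = w ^ 2 := by rw [h1]; ring

def y : ℚ⟦X⟧ := -(X * w ^ 2)
def z : ℚ⟦X⟧ := X ^ 2 * w

lemma dy : d⁄dX ℚ y = -(w ^ 2 + 2 * X * w ^ 3) := by
  unfold y
  rw [map_neg, Derivation.leibniz, derivative_X, derivative_pow, dw, smul_eq_mul, smul_eq_mul]
  push_cast
  ring

lemma dz : d⁄dX ℚ z = 2 * X * w + X ^ 2 * w ^ 2 := by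
  unfold z
  rw [Derivation.leibniz, derivative_pow, derivative_X, dw, smul_eq_mul, smul_eq_mul]
  push_cast
  ring

/-- the combination of truncated logarithms -/
def G (M : ℕ) : ℚ⟦X⟧ :=
  ∑ i ∈ range M, (1 / ((i : ℚ) + 1)) • y ^ (i + 1) + ∑ i ∈ range M, ((-1 : ℚ) ^ i / ((i : ℚ) + 1)) • z ^ (i + 1) +
    ∑ i ∈ range M, (1 / ((i : ℚ) + 1)) • (X : ℚ⟦X⟧) ^ (i + 1)

lemma d_term (c : ℚ) (f : ℚ⟦X⟧) (i : ℕ) :
    d⁄dX ℚ ((c / ((i : ℚ) + 1)) • f ^ (i + 1)) = c • (f ^ i * d⁄dX ℚ f) := by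
  rw [Derivation.map_smul, derivative_pow, Nat.add_sub_cancel]
  have hi : ((i : ℚ) + 1) ≠ 0 := by positivity
  have e : (((i + 1 : ℕ)) : ℚ⟦X⟧) * f ^ i * d⁄dX ℚ f = ((i : ℚ) + 1) • (f ^ i * d⁄dX ℚ f) := by
    rw [PowerSeries.smul_eq_C_mul]
    have : (C ((i : ℚ) + 1) : ℚ⟦X⟧) = (((i + 1 : ℕ)) : ℚ⟦X⟧) := by
      rw [← map_natCast (C (R := ℚ))]
      push_cast
      rfl
    rw [this]; ring
  rw [e, smul_smul, div_mul_cancel₀ _ hi]

lemma dG (M : ℕ) : d⁄dX ℚ (G M) = (∑ i ∈ range M, y ^ i) * d⁄dX ℚ y + (∑ i ∈ range M, (-z) ^ i) * d⁄dX ℚ z +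
    ∑ i ∈ range M, (X : ℚ⟦X⟧) ^ i := by
  unfold G
  rw [map_add, map_add, map_sum, map_sum, map_sum, sum_mul, sum_mul]
  congr 1
  · congr 1
    · apply sum_congr rfl
      intro i _
      rw [d_term, one_smul]
    · apply sum_congr rfl
      intro i _
      have h5 : (-z) ^ i = ((-1 : ℚ) ^ i) • z ^ i := by
        rw [neg_pow, PowerSeries.smul_eq_C_mul]; simp
      rw [d_term, h5, smul_mul_assoc]
  · apply sum_congr rfl
    intro i _
    rw [d_term, one_smul, derivative_X, mul_one]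

lemma dG_dvd (M : ℕ) : (X : ℚ⟦X⟧) ^ M ∣ d⁄dX ℚ (G M) := by
  have hU : IsUnit ((1 - y) * (1 + z) * (1 - X) : ℚ⟦X⟧) := by
    rw [PowerSeries.isUnit_iff_constantCoeff]
    unfold y z
    simp
  have h1 : (∑ i ∈ range M, y ^ i) * (1 - y) = 1 - y ^ M := geom_sum_mul_neg y M
  have h2 : (∑ i ∈ range M, (-z) ^ i) * (1 + z) = 1 - (-z) ^ M := by
    have := geom_sum_mul_neg (-z) M
    rwa [sub_neg_eq_add] at this
  have h3 : (∑ i ∈ range M, (X : ℚ⟦X⟧) ^ i) * (1 - X) = 1 - X ^ M := geom_sum_mul_neg X M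
  have hE : d⁄dX ℚ y * (1 + z) * (1 - X) + d⁄dX ℚ z * (1 - y) * (1 - X) + (1 - y) * (1 + z) = 0 := by
    rw [dy, dz]
    unfold y z
    linear_combination (-1 + (X ^ 2 - X - 1) * w + (X ^ 2 - 2 * X) * w ^ 2 - X ^ 3 * w ^ 3) * hw
  have h4 : d⁄dX ℚ (G M) * ((1 - y) * (1 + z) * (1 - X)) =
      -(y ^ M * (d⁄dX ℚ y * (1 + z) * (1 - X)) + (-z) ^ M * (d⁄dX ℚ z * (1 - y) * (1 - X)) + X ^ M * ((1 - y) * (1 + z))) := by
    rw [dG]
    linear_combination (d⁄dX ℚ y * (1 + z) * (1 - X)) * h1 + (d⁄dX ℚ z * (1 - y) * (1 - X)) * h2 + ((1 - y) * (1 + z)) * h3 + hE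
  rw [← hU.dvd_mul_right, h4, dvd_neg]
  refine dvd_add (dvd_add ?_ ?_) (dvd_mul_right _ _)
  · apply dvd_mul_of_dvd_left
    unfold y
    rw [neg_pow, mul_pow]
    exact dvd_mul_of_dvd_right (dvd_mul_right _ _) _
  · apply dvd_mul_of_dvd_left
    unfold z
    rw [neg_pow, mul_pow]
    apply dvd_mul_of_dvd_right
    apply dvd_mul_of_dvd_left
    rw [← pow_mul]
    exact pow_dvd_pow X (by omega)

lemma G_dvd (M : ℕ) : (X : ℚ⟦X⟧) ^ (M + 1) ∣ G M := by
  rw [PowerSeries.X_pow_dvd_iff]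
  intro m hm
  rcases m with _ | m
  · unfold G y z
    simp
  · have h := dG_dvd M
    rw [PowerSeries.X_pow_dvd_iff] at h
    have h1 := h m (by omega)
    rw [coeff_derivative] at h1
    have hm1 : ((m : ℚ) + 1) ≠ 0 := by positivity
    exact (mul_eq_zero.1 h1).resolve_right hm1

lemma coeff_w (M a d : ℕ) (h : a ≤ M) : coeff M ((X : ℚ⟦X⟧) ^ a * w ^ (d + 1)) = ((d + (M - a)).choose d : ℚ) := by
  rw [coeff_X_pow_mul', if_pos h]
  unfold w
  rw [mk_one_pow_eq_mk_choose_add, coeff_mk]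

lemma coeff_w0 (M a d : ℕ) (h : M < a) : coeff M ((X : ℚ⟦X⟧) ^ a * w ^ d) = 0 := by
  rw [coeff_X_pow_mul', if_neg (by omega)]

/-- the identity -/
theorem identity (M : ℕ) :
    ∑ i ∈ range M, ((-1 : ℚ) ^ (i + 1) / ((i : ℚ) + 1)) * ((2 * M + (i + 1)).choose (M + 2 * (i + 1)) : ℚ) +
    ∑ i ∈ range M, ((-1 : ℚ) ^ i / ((i : ℚ) + 1)) * ((2 * M - (i + 1)).choose (M + (i + 1)) : ℚ) +
    ∑ i ∈ range M, (1 / ((i : ℚ) + 1)) * ((2 * M - (i + 1)).choose M : ℚ) = 0 := by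
  have h0 : coeff M (w ^ (M + 1) * G M) = 0 := by
    have : (X : ℚ⟦X⟧) ^ (M + 1) ∣ w ^ (M + 1) * G M := dvd_mul_of_dvd_right (G_dvd M) _
    rw [PowerSeries.X_pow_dvd_iff] at this
    exact this M (by omega)
  rw [← h0]
  unfold G
  rw [mul_add, mul_add, mul_sum, mul_sum, mul_sum, map_add, map_add, map_sum, map_sum, map_sum]
  congr 1
  · congr 1
    · apply sum_congr rfl
      intro i hi
      have hi' := mem_range.1 hi
      have e : w ^ (M + 1) * ((1 / ((i : ℚ) + 1)) • y ^ (i + 1)) =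
          ((-1 : ℚ) ^ (i + 1) / ((i : ℚ) + 1)) • (X ^ (i + 1) * w ^ (M + 2 * (i + 1) + 1)) := by
        have h5 : y ^ (i + 1) = ((-1 : ℚ) ^ (i + 1)) • (X ^ (i + 1) * w ^ (2 * (i + 1))) := by
          unfold y
          rw [neg_pow, PowerSeries.smul_eq_C_mul, mul_pow, ← pow_mul]; simp
        rw [h5, mul_smul_comm, mul_smul_comm, smul_smul]
        congr 1
        · ring
        · ring
      rw [e, map_smul, smul_eq_mul, coeff_w _ _ _ (by omega)]
      congr 3
      omega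
    · apply sum_congr rfl
      intro i hi
      have hi' := mem_range.1 hi
      have e : w ^ (M + 1) * (((-1 : ℚ) ^ i / ((i : ℚ) + 1)) • z ^ (i + 1)) =
          ((-1 : ℚ) ^ i / ((i : ℚ) + 1)) • (X ^ (2 * (i + 1)) * w ^ (M + (i + 1) + 1)) := by
        unfold z
        rw [mul_smul_comm]
        congr 1
        ring
      rw [e, map_smul, smul_eq_mul]
      congr 1
      rcases Nat.lt_or_ge M (2 * (i + 1)) with h | h
      · rw [coeff_w0 _ _ _ h, Nat.choose_eq_zero_of_lt (by omega)]; simp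
      · rw [coeff_w _ _ _ h]
        congr 2
        omega
  · apply sum_congr rfl
    intro i hi
    have hi' := mem_range.1 hi
    have e : w ^ (M + 1) * ((1 / ((i : ℚ) + 1)) • (X : ℚ⟦X⟧) ^ (i + 1)) =
        (1 / ((i : ℚ) + 1)) • (X ^ (i + 1) * w ^ (M + 1)) := by
      rw [mul_smul_comm]
      congr 1
      ring
    rw [e, map_smul, smul_eq_mul, coeff_w _ _ _ (by omega)]
    congr 3
    omega

end

/-- `Σ_{i=1}^{N-m} C(N-i, m)/i = C(N,m) (H_N - H_m)` -/
theorem harmonic_identity (N m : ℕ) (h : m ≤ N) :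
    ∑ i ∈ range (N - m), (1 / ((i : ℚ) + 1)) * ((N - (i + 1)).choose m : ℚ) =
      (N.choose m : ℚ) * ∑ i ∈ range (N - m), 1 / ((m : ℚ) + i + 1) := by
  induction N generalizing m with
  | zero => simp
  | succ N ih =>
    rcases m with _ | m
    · simp
    · rcases Nat.lt_or_ge m N with hlt | hge
      · -- m + 1 ≤ N
        have h1 := ih m (by omega)
        have h2 := ih (m + 1) (by omega)
        have e1 : N + 1 - (m + 1) = (N - (m + 1)) + 1 := by omega
        have e2 : N - m = (N - (m + 1)) + 1 := by omega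
        rw [e2] at h1
        rw [e1, sum_range_succ]
        rw [sum_range_succ] at h1
        obtain ⟨l, rfl⟩ : ∃ l, N = m + 1 + l := ⟨N - (m + 1), by omega⟩
        have e3 : m + 1 + l - (m + 1) = l := by omega
        rw [e3] at h1 h2 ⊢
        have e4 : m + 1 + l + 1 - (l + 1) = m + 1 := by omega
        have e5 : m + 1 + l - (l + 1) = m := by omega
        rw [e4, Nat.choose_self]
        rw [e5, Nat.choose_self] at h1
        have e6 : ∑ i ∈ range l, (1 / ((i : ℚ) + 1)) * ((m + 1 + l + 1 - (i + 1)).choose (m + 1) : ℚ) =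
            ∑ i ∈ range l, (1 / ((i : ℚ) + 1)) * ((m + 1 + l - (i + 1)).choose m : ℚ) +
            ∑ i ∈ range l, (1 / ((i : ℚ) + 1)) * ((m + 1 + l - (i + 1)).choose (m + 1) : ℚ) := by
          rw [← sum_add_distrib]
          apply sum_congr rfl
          intro i hi
          have hi' := mem_range.1 hi
          rw [← mul_add]
          congr 1
          have : m + 1 + l + 1 - (i + 1) = (m + 1 + l - (i + 1)) + 1 := by omega
          rw [this, Nat.choose_succ_succ']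
          push_cast; rfl
        rw [e6, h2]
        have e7 : ∑ i ∈ range (l + 1), 1 / ((m : ℚ) + i + 1) = ∑ i ∈ range l, 1 / (((m + 1 : ℕ) : ℚ) + i + 1) + 1 / ((m : ℚ) + 1) := by
          rw [sum_range_succ']
          congr 1
          · apply sum_congr rfl
            intro i _
            push_cast; ring
          · simp
        rw [e7] at h1
        have e8 : ∑ i ∈ range (l + 1), 1 / (((m + 1 : ℕ) : ℚ) + i + 1) = ∑ i ∈ range l, 1 / (((m + 1 : ℕ) : ℚ) + i + 1) + 1 / ((m : ℚ) + 1 + l + 1) := by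
          rw [sum_range_succ]; push_cast; ring
        rw [e8]
        generalize ∑ i ∈ range l, 1 / (((m + 1 : ℕ) : ℚ) + i + 1) = Hs at *
        generalize ∑ i ∈ range l, (1 / ((i : ℚ) + 1)) * ((m + 1 + l - (i + 1)).choose m : ℚ) = As at *
        have h5 : ((m + 1 + l + 1).choose (m + 1) : ℚ) = ((m + 1 + l).choose m : ℚ) + ((m + 1 + l).choose (m + 1) : ℚ) := by
          rw [Nat.choose_succ_succ']; push_cast; rfl
        have h6 : ((m + 1 + l).choose m : ℚ) * ((m : ℚ) + 1 + l + 1) = ((m + 1 + l + 1).choose (m + 1) : ℚ) * ((m : ℚ) + 1) := by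
          have h7 := Nat.add_one_mul_choose_eq (m + 1 + l) m
          have h8 : (((m + 1 + l + 1) * (m + 1 + l).choose m : ℕ) : ℚ) = (((m + 1 + l + 1).choose (m + 1) * (m + 1) : ℕ) : ℚ) := by rw [h7]
          push_cast at h8
          linarith
        push_cast at h1
        have hm1 : (m : ℚ) + 1 ≠ 0 := by positivity
        have hl1 : (m : ℚ) + 1 + l + 1 ≠ 0 := by positivity
        have h9 : ((m + 1 + l).choose m : ℚ) / ((m : ℚ) + 1) = ((m + 1 + l + 1).choose (m + 1) : ℚ) / ((m : ℚ) + 1 + l + 1) := by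
          rw [div_eq_div_iff hm1 hl1]; linarith
        push_cast
        linear_combination h1 + h9 - Hs * h5
      · have : m = N := by omega
        subst this
        simp

end Pool.Agent.X14.S3Log
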