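import Pool.Agent.X14.QBlock

set_option autoImplicit false

/-! Second order expansions at `q = 1`. -/

namespace Pool.Agent.X14.QBlock

open Finset Polynomial Pool.Agent.X14.QL

noncomputable section

/-- `log q` to second order -/
def tau : RatFunc ℚ := (q - 1) - (q - 1) ^ 2 / 2

lemma q1_QO : QO (cyclotomic 1 ℚ) 1 (q - 1) := by
  have h := (x_props (n := 1) (s := 1) one_pos one_pos).1
  rwa [one_mul, pow_one] at h

lemma tau_QO : QO (cyclotomic 1 ℚ) 1 tau := by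
  have h1 := q1_QO
  have h2 := QO.mul_left ((Loc _).mul_mem (rat_mem (cyclotomic 1 ℚ) (1 / 2)) h1.mem) h1
  have h3 := h1.sub h2
  unfold tau
  convert h3 using 1
  push_cast
  ring

lemma tau_mem : tau ∈ Loc (cyclotomic 1 ℚ) := tau_QO.mem

/-- `x ≡ c exp(d τ + f τ²)` modulo `(q-1)^3` -/
def Ap3 (x : RatFunc ℚ) (c d f : ℚ) : Prop :=
  Eqm (cyclotomic 1 ℚ) 3 x ((c : RatFunc ℚ) * (1 + (d : RatFunc ℚ) * tau + ((f + d ^ 2 / 2 : ℚ) : RatFunc ℚ) * tau ^ 2))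

lemma Ap3_rhs_mem (c d f : ℚ) : (c : RatFunc ℚ) * (1 + (d : RatFunc ℚ) * tau + ((f + d ^ 2 / 2 : ℚ) : RatFunc ℚ) * tau ^ 2) ∈ Loc (cyclotomic 1 ℚ) :=
  (Loc _).mul_mem (rat_mem _ _) ((Loc _).add_mem ((Loc _).add_mem (Loc _).one_mem ((Loc _).mul_mem (rat_mem _ _) tau_mem))
    ((Loc _).mul_mem (rat_mem _ _) ((Loc _).pow_mem tau_mem 2)))

lemma Ap3.mul {x y : RatFunc ℚ} {c d f c' d' f' : ℚ} (hx : Ap3 x c d f) (hy : Ap3 y c' d' f') :
    Ap3 (x * y) (c * c') (d + d') (f + f') := by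
  have h1 := Eqm.mul hx hy (Ap3_rhs_mem _ _ _) (Ap3_rhs_mem _ _ _)
  unfold Ap3
  refine h1.trans ?_
  have h3 : QO (cyclotomic 1 ℚ) 3 (tau * tau * tau) := (tau_QO.mul tau_QO).mul tau_QO
  have h4 : ((c * c' * (d * (f' + d' ^ 2 / 2) + d' * (f + d ^ 2 / 2)) : ℚ) : RatFunc ℚ) +
      ((c * c' * ((f' + d' ^ 2 / 2) * (f + d ^ 2 / 2)) : ℚ) : RatFunc ℚ) * tau ∈ Loc (cyclotomic 1 ℚ) :=
    (Loc _).add_mem (rat_mem _ _) ((Loc _).mul_mem (rat_mem _ _) tau_mem)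
  have h5 := QO.mul_left h4 h3
  unfold Eqm
  convert h5 using 1
  push_cast
  ring

lemma Ap3.congr {x : RatFunc ℚ} {c d f c' d' f' : ℚ} (hx : Ap3 x c d f) (h1 : c = c') (h2 : d = d') (h3 : f = f') : Ap3 x c' d' f' := by
  subst h1 h2 h3; exact hx

lemma Ap3.inv {x : RatFunc ℚ} {c d f : ℚ} (hx : Ap3 x c d f) (hc : c ≠ 0) (hx0 : x ≠ 0) : Ap3 x⁻¹ c⁻¹ (-d) (-f) := by
  set y : RatFunc ℚ := ((c⁻¹ : ℚ) : RatFunc ℚ) * (1 + ((-d : ℚ) : RatFunc ℚ) * tau + ((-f + (-d) ^ 2 / 2 : ℚ) : RatFunc ℚ) * tau ^ 2) with hy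
  have h1 : Ap3 y c⁻¹ (-d) (-f) := Eqm.refl _
  have h2 := hx.mul h1
  have h3 : Eqm (cyclotomic 1 ℚ) 3 (x * y) 1 := by
    have := h2
    unfold Ap3 at this
    convert this using 1
    push_cast
    have : (c : RatFunc ℚ) ≠ 0 := by exact_mod_cast hc
    field_simp
    ring
  have hxc : Eqm (cyclotomic 1 ℚ) 1 x (c : RatFunc ℚ) := by
    have h4 : Eqm (cyclotomic 1 ℚ) 1 x _ := (show Eqm (cyclotomic 1 ℚ) 3 x _ from hx).le (by norm_num)
    refine h4.trans ?_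
    have h5 := QO.mul_left ((Loc (cyclotomic 1 ℚ)).mul_mem (rat_mem _ c) ((Loc _).add_mem (rat_mem _ d) ((Loc _).mul_mem (rat_mem _ (f + d ^ 2 / 2)) tau_mem))) tau_QO
    unfold Eqm
    convert h5 using 1
    push_cast
    ring
  have hxi : x⁻¹ ∈ Loc (cyclotomic 1 ℚ) := (hxc.inv hc (by norm_num)).mem (rat_mem _ _)
  have h6 := QO.mul_left hxi (show QO (cyclotomic 1 ℚ) 3 (1 - x * y) from h3.symm)
  unfold Ap3
  rw [← hy]
  unfold Eqm
  convert h6 using 1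
  field_simp

lemma Ap3.pow {x : RatFunc ℚ} {c d f : ℚ} (hx : Ap3 x c d f) (m : ℕ) : Ap3 (x ^ m) (c ^ m) (m * d) (m * f) := by
  induction m with
  | zero =>
    unfold Ap3
    simpa using Eqm.refl _
  | succ m ih =>
    rw [pow_succ]
    exact (ih.mul hx).congr (pow_succ _ _).symm (by push_cast; ring) (by push_cast; ring)

lemma Ap3_q : Ap3 q 1 1 0 := by
  unfold Ap3 Eqm
  have h1 : QO (cyclotomic 1 ℚ) 3 ((q - 1) * (q - 1) * (q - 1)) := (q1_QO.mul q1_QO).mul q1_QO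
  have h2 := QO.mul_left ((Loc (cyclotomic 1 ℚ)).add_mem (rat_mem _ (1 / 2)) ((Loc _).mul_mem (rat_mem _ (-1 / 8)) q1_QO.mem)) h1
  convert h2 using 1
  unfold tau
  push_cast
  ring

lemma Ap3_const (c : ℚ) : Ap3 (c : RatFunc ℚ) c 0 0 := by
  unfold Ap3
  simpa using Eqm.refl _

/-- `[z]` -/
lemma Ap3_Gz (z : ℕ) : Ap3 (Gz q z) z ((z - 1) / 2) ((z ^ 2 - 1) / 24) := by
  have h1 : (1 : RatFunc ℚ) - q ≠ 0 := by
    have := one_sub_ne (j := 1) one_pos; rwa [pow_one] at this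
  induction z with
  | zero =>
    unfold Ap3 Gz
    simpa using Eqm.refl _
  | succ z ih =>
    have e1 : Gz q ((z + 1 : ℕ) : ℤ) = Gz q (z : ℤ) + q ^ z := by
      unfold Gz
      rw [zpow_natCast, zpow_natCast, pow_succ]
      field_simp
      ring
    rw [e1]
    have h2 := Ap3_q.pow z
    have h3 := Eqm.add ih h2
    unfold Ap3
    convert h3 using 1
    push_cast
    ring

end

end Pool.Agent.X14.QBlock
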