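import Pool.Agent.X14.Base

set_option autoImplicit false

/-! Sums over integers prime to `p` in blocks. -/

namespace Pool.Agent.X14

open Finset Pool.Agent.H434R2 Pool.Agent.H434R2.PO

set_option linter.unusedSectionVars false

variable {p : ℕ} [hp : Fact p.Prime]

lemma sum_range_mul {M : Type*} [AddCommMonoid M] (a c : ℕ) (g : ℕ → M) :
    ∑ j ∈ range (a * c), g j = ∑ m ∈ range c, ∑ j ∈ range a, g (a * m + j) := by
  induction c with
  | zero => simp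
  | succ c ih =>
    rw [Nat.mul_succ, Finset.sum_range_add, ih, sum_range_succ]

lemma prod_range_mul {M : Type*} [CommMonoid M] (a c : ℕ) (g : ℕ → M) :
    ∏ j ∈ range (a * c), g j = ∏ m ∈ range c, ∏ j ∈ range a, g (a * m + j) := by
  induction c with
  | zero => simp
  | succ c ih =>
    rw [Nat.mul_succ, Finset.prod_range_add, ih, prod_range_succ]

lemma sum_split {M : Type*} [AddCommMonoid M] (hp1 : 1 ≤ p) (c : ℕ) (g : ℕ → M) :
    ∑ j ∈ range (p * c), g j = ∑ J ∈ range c, g (p * J) +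
      ∑ J ∈ range c, ∑ t ∈ range (p - 1), g (p * J + (t + 1)) := by
  rw [sum_range_mul, ← sum_add_distrib]
  apply sum_congr rfl
  intro J _
  obtain ⟨q, hq⟩ : ∃ q, p = q + 1 := ⟨p - 1, by omega⟩
  have e : range p = range (p - 1 + 1) := by rw [Nat.sub_add_cancel hp1]
  rw [e, sum_range_succ', add_comm]
  simp

lemma prod_split {M : Type*} [CommMonoid M] (hp1 : 1 ≤ p) (c : ℕ) (g : ℕ → M) :
    ∏ j ∈ range (p * c), g j = (∏ J ∈ range c, g (p * J)) *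
      ∏ J ∈ range c, ∏ t ∈ range (p - 1), g (p * J + (t + 1)) := by
  rw [prod_range_mul, ← prod_mul_distrib]
  apply prod_congr rfl
  intro J _
  have e : range p = range (p - 1 + 1) := by rw [Nat.sub_add_cancel hp1]
  rw [e, prod_range_succ', mul_comm]
  simp

lemma not_dvd_blk {t : ℕ} (J : ℕ) (ht : t < p - 1) : ¬ p ∣ p * J + (t + 1) := by
  intro h
  have := (Nat.dvd_add_right (dvd_mul_right p J)).1 h
  exact not_dvd_succ ht this

lemma inv_blk {t : ℕ} (J : ℕ) (ht : t < p - 1) : PO p 0 (((p * J + (t + 1) : ℕ) : ℚ)⁻¹) :=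
  inv_nat (not_dvd_blk J ht)

lemma inv_blk_pow {t : ℕ} (J : ℕ) (ht : t < p - 1) (e : ℕ) :
    PO p 0 (1 / ((p * J + (t + 1) : ℕ) : ℚ) ^ e) := by
  rw [one_div, ← inv_pow]
  exact (inv_blk J ht).pow0 e

/-- sum of the inverse `e`-th powers of the integers below `p M` prime to `p` -/
def hs (p e M : ℕ) : ℚ := ∑ J ∈ range M, ∑ t ∈ range (p - 1), 1 / ((p * J + (t + 1) : ℕ) : ℚ) ^ e

lemma hs_int (e M : ℕ) : PO p 0 (hs p e M) :=
  PO.sum _ _ (fun J _ => PO.sum _ _ (fun _ ht => inv_blk_pow J (mem_range.1 ht) e))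

/-- expansion of `1/(k+N)^e` -/
lemma inv_shift {s : ℕ} (hs1 : 1 ≤ s) {k N : ℚ} (hk : PO p 0 k⁻¹) (hk0 : k ≠ 0) (hN : PO p s N) (e : ℕ) :
    PO p (2 * s) (1 / (N + k) ^ e - (1 / k ^ e - e * N * (1 / k ^ (e + 1)))) := by
  have hy : PO p s (-(N * k⁻¹)) := (hN.mul0' hk).neg
  have h := one_sub_inv_pow (p := p) e hs1 hy
  have hne := one_sub_ne (hy.mono hs1)
  have e1 : N + k = k * (1 - -(N * k⁻¹)) := by field_simp; ring
  have e2 : 1 / (N + k) ^ e - (1 / k ^ e - e * N * (1 / k ^ (e + 1))) =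
      1 / k ^ e * ((1 - -(N * k⁻¹))⁻¹ ^ e - (1 + e * -(N * k⁻¹))) := by
    rw [e1, mul_pow, inv_pow]
    field_simp
    ring
  rw [e2]
  refine PO.mul0 ?_ h
  rw [one_div, ← inv_pow]
  exact hk.pow0 e

/-- `hs e (p^s c) ≡ c hs e (p^s) (mod p^{s+1})` -/
lemma hs_mul (e s c : ℕ) : PO p (s + 1) (hs p e (p ^ s * c) - c * hs p e (p ^ s)) := by
  have e0 : (c : ℚ) * hs p e (p ^ s) = ∑ m ∈ range c, hs p e (p ^ s) := by
    rw [sum_const, card_range, nsmul_eq_mul]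
  rw [e0]
  unfold hs
  rw [sum_range_mul]
  apply sum_sub
  intro m _
  apply sum_sub
  intro J _
  apply sum_sub
  intro t ht
  have ht' := mem_range.1 ht
  have hk : ((p * J + (t + 1) : ℕ) : ℚ) ≠ 0 := by positivity
  have hN : PO p (s + 1) ((p : ℚ) ^ (s + 1) * m) := (ppow (p := p) (s + 1)).mul0' (of_nat m)
  have h := inv_shift (p := p) (by omega) (inv_blk J ht') hk hN e
  have e1 : ((p * (p ^ s * m + J) + (t + 1) : ℕ) : ℚ) = (p : ℚ) ^ (s + 1) * m + ((p * J + (t + 1) : ℕ) : ℚ) := by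
    push_cast; ring
  rw [e1]
  have e2 : 1 / ((p : ℚ) ^ (s + 1) * m + ((p * J + (t + 1) : ℕ) : ℚ)) ^ e - 1 / ((p * J + (t + 1) : ℕ) : ℚ) ^ e =
      (1 / ((p : ℚ) ^ (s + 1) * m + ((p * J + (t + 1) : ℕ) : ℚ)) ^ e - (1 / ((p * J + (t + 1) : ℕ) : ℚ) ^ e -
        e * ((p : ℚ) ^ (s + 1) * m) * (1 / ((p * J + (t + 1) : ℕ) : ℚ) ^ (e + 1)))) -
      e * ((p : ℚ) ^ (s + 1) * m) * (1 / ((p * J + (t + 1) : ℕ) : ℚ) ^ (e + 1)) := by ring
  rw [e2]
  refine (h.mono (by omega)).sub ?_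
  exact (PO.mul0 (of_nat e) hN).mul0' (inv_blk_pow J ht' (e + 1))

lemma hs_one (e : ℕ) : hs p e 1 = ∑ b ∈ range (p - 1), 1 / ((b : ℚ) + 1) ^ e := by
  unfold hs
  rw [sum_range_one]
  apply sum_congr rfl
  intro b _
  push_cast
  ring

/-- if `p-1 ∤ e` then `hs e (p^s) ≡ 0 (mod p)` -/
lemma hs_one_dvd {e : ℕ} (he : ¬ p - 1 ∣ e) (M : ℕ) : PO p 1 (hs p e M) := by
  have h := hs_mul (p := p) e 0 M
  simp only [pow_zero, one_mul, zero_add] at h
  have h1 : PO p 1 (hs p e 1) := by rw [hs_one]; exact inv_pow_sum he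
  have e1 : hs p e M = (hs p e M - M * hs p e 1) + M * hs p e 1 := by ring
  rw [e1]
  exact h.add (PO.mul0 (of_nat M) h1)

/-- if `p ∣ M` then `hs e M ≡ 0 (mod p)` -/
lemma hs_dvd_of_dvd (e M : ℕ) : PO p 1 (hs p e (p * M)) := by
  have h := hs_mul (p := p) e 0 (p * M)
  simp only [pow_zero, one_mul, zero_add] at h
  have e1 : hs p e (p * M) = (hs p e (p * M) - ((p * M : ℕ) : ℚ) * hs p e 1) + ((p * M : ℕ) : ℚ) * hs p e 1 := by ring
  rw [e1]
  refine h.add (PO.mul0' ?_ (hs_int e 1))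
  push_cast
  exact p_PO.mul0' (of_nat M)

/-- refined multiplicativity: `hs e (p^s c) ≡ c hs e (p^s) (mod p^{s+2})` if `p-1 ∤ e+1` -/
lemma hs_mul2 (e s c : ℕ) (he : ¬ p - 1 ∣ e + 1) :
    PO p (s + 2) (hs p e (p ^ s * c) - c * hs p e (p ^ s)) := by
  have e0 : (c : ℚ) * hs p e (p ^ s) = ∑ m ∈ range c, hs p e (p ^ s) := by
    rw [sum_const, card_range, nsmul_eq_mul]
  rw [e0]
  have e3 : hs p e (p ^ s * c) = ∑ m ∈ range c, ∑ J ∈ range (p ^ s), ∑ t ∈ range (p - 1),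
      1 / ((p * (p ^ s * m + J) + (t + 1) : ℕ) : ℚ) ^ e := by
    unfold hs
    rw [sum_range_mul]
  rw [e3]
  apply sum_sub
  intro m _
  have e4 : ∑ J ∈ range (p ^ s), ∑ t ∈ range (p - 1), 1 / ((p * (p ^ s * m + J) + (t + 1) : ℕ) : ℚ) ^ e - hs p e (p ^ s) =
      (∑ J ∈ range (p ^ s), ∑ t ∈ range (p - 1), 1 / ((p * (p ^ s * m + J) + (t + 1) : ℕ) : ℚ) ^ e -
      ∑ J ∈ range (p ^ s), ∑ t ∈ range (p - 1), (1 / ((p * J + (t + 1) : ℕ) : ℚ) ^ e -
        e * ((p : ℚ) ^ (s + 1) * m) * (1 / ((p * J + (t + 1) : ℕ) : ℚ) ^ (e + 1)))) -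
      (p : ℚ) ^ (s + 1) * (e * m * hs p (e + 1) (p ^ s)) := by
    have e5 : ∑ J ∈ range (p ^ s), ∑ t ∈ range (p - 1), (1 / ((p * J + (t + 1) : ℕ) : ℚ) ^ e -
        e * ((p : ℚ) ^ (s + 1) * m) * (1 / ((p * J + (t + 1) : ℕ) : ℚ) ^ (e + 1))) =
        hs p e (p ^ s) - (p : ℚ) ^ (s + 1) * (e * m * hs p (e + 1) (p ^ s)) := by
      simp only [sum_sub_distrib, ← mul_sum]
      unfold hs
      ring
    rw [e5]; ring
  rw [e4]
  refine PO.sub ?_ ?_
  · apply sum_sub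
    intro J _
    apply sum_sub
    intro t ht
    have ht' := mem_range.1 ht
    have hk : ((p * J + (t + 1) : ℕ) : ℚ) ≠ 0 := by positivity
    have hN : PO p (s + 1) ((p : ℚ) ^ (s + 1) * m) := (ppow (p := p) (s + 1)).mul0' (of_nat m)
    have h := inv_shift (p := p) (by omega) (inv_blk J ht') hk hN e
    have e1 : ((p * (p ^ s * m + J) + (t + 1) : ℕ) : ℚ) = (p : ℚ) ^ (s + 1) * m + ((p * J + (t + 1) : ℕ) : ℚ) := by
      push_cast; ring
    rw [e1]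
    exact h.mono (by omega)
  · have h1 := hs_one_dvd (p := p) he (p ^ s)
    have h2 : PO p 1 (e * m * hs p (e + 1) (p ^ s)) := PO.mul0 ((of_nat e).mul0 (of_nat m)) h1
    exact (ppow (p := p) (s + 1)).mul (k := 1) h2

/-- `Σ_{k < p^{s+1}, p ∤ k} 1/k^e ≡ 0 (mod p^{s+1})` when `p - 1 ∤ e`, `e` even, `p` odd -/
lemma hs_pow_dvd (h2 : p ≠ 2) {e : ℕ} (he : ¬ p - 1 ∣ e) (s : ℕ) : PO p (s + 1) (hs p e (p ^ s)) := by
  induction s with
  | zero =>
    rw [pow_zero, hs_one]; exact inv_pow_sum he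
  | succ s ih =>
    -- blocks of length p^{s+1}
    have e3 : hs p e (p ^ (s + 1)) = ∑ m ∈ range p, ∑ J ∈ range (p ^ s), ∑ t ∈ range (p - 1),
        1 / ((p * (p ^ s * m + J) + (t + 1) : ℕ) : ℚ) ^ e := by
      unfold hs
      rw [pow_succ, sum_range_mul]
    have hsum : (∑ m ∈ range p, (m : ℚ)) = (p : ℚ) * (((p : ℚ) - 1) * (1 / 2)) := by
      have := Finset.sum_range_id_mul_two p
      have h3 : ((∑ m ∈ range p, m : ℕ) : ℚ) * 2 = (p : ℚ) * ((p - 1 : ℕ) : ℚ) := by exact_mod_cast this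
      rw [Nat.cast_sub hp.out.one_lt.le] at h3
      push_cast at h3
      linarith
    have e5 : hs p e (p ^ (s + 1)) =
        (hs p e (p ^ (s + 1)) - ∑ m ∈ range p, ∑ J ∈ range (p ^ s), ∑ t ∈ range (p - 1),
          (1 / ((p * J + (t + 1) : ℕ) : ℚ) ^ e -
          e * ((p : ℚ) ^ (s + 1) * m) * (1 / ((p * J + (t + 1) : ℕ) : ℚ) ^ (e + 1)))) +
        (p : ℚ) * hs p e (p ^ s) - (p : ℚ) ^ (s + 1) * ((p : ℚ) * ((((p : ℚ) - 1) * (1 / 2)) * (e * hs p (e + 1) (p ^ s)))) := by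
      have e6 : ∑ m ∈ range p, ∑ J ∈ range (p ^ s), ∑ t ∈ range (p - 1),
          (1 / ((p * J + (t + 1) : ℕ) : ℚ) ^ e -
          e * ((p : ℚ) ^ (s + 1) * m) * (1 / ((p * J + (t + 1) : ℕ) : ℚ) ^ (e + 1))) =
          ∑ m ∈ range p, (hs p e (p ^ s) - (m : ℚ) * ((p : ℚ) ^ (s + 1) * (e * hs p (e + 1) (p ^ s)))) := by
        apply sum_congr rfl
        intro m _
        simp only [sum_sub_distrib, ← mul_sum]
        unfold hs
        ring
      rw [e6, sum_sub_distrib, ← sum_mul, hsum, sum_const, card_range, nsmul_eq_mul]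
      ring
    rw [e5]
    refine PO.sub (PO.add ?_ ?_) ?_
    · rw [e3]
      apply sum_sub
      intro m _
      apply sum_sub
      intro J _
      apply sum_sub
      intro t ht
      have ht' := mem_range.1 ht
      have hk : ((p * J + (t + 1) : ℕ) : ℚ) ≠ 0 := by positivity
      have hN : PO p (s + 1) ((p : ℚ) ^ (s + 1) * m) := (ppow (p := p) (s + 1)).mul0' (of_nat m)
      have h := inv_shift (p := p) (by omega) (inv_blk J ht') hk hN e
      have e1 : ((p * (p ^ s * m + J) + (t + 1) : ℕ) : ℚ) = (p : ℚ) ^ (s + 1) * m + ((p * J + (t + 1) : ℕ) : ℚ) := by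
        push_cast; ring
      rw [e1]
      exact h.mono (by omega)
    · have := p_PO.mul ih
      rwa [show 1 + (s + 1) = s + 1 + 1 by ring] at this
    · have h3 : PO p 0 ((((p : ℚ) - 1) * (1 / 2)) * (e * hs p (e + 1) (p ^ s))) :=
        PO.mul0 (PO.mul0 ((of_nat p).sub PO.one) (half h2)) (PO.mul0 (of_nat e) (hs_int _ _))
      exact (ppow (p := p) (s + 1)).mul (k := 1) (p_PO.mul0' h3)

end Pool.Agent.X14
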