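import Mathlib

set_option autoImplicit false

/-! A terminating `4φ3` sum (a case of Andrews' `q`-analogue of Watson's sum). -/

namespace Pool.Agent.X14.QAndrews

open Finset

section
variable {K : Type*} [Field K] (Q : K)

/-- the terms -/
def F (m k : ℕ) : K :=
  ∏ j ∈ range k, ((Q ^ m - Q ^ j) * (1 - Q ^ (m + 1 + j)) * (1 - Q ^ (2 * j + 1)) * Q /
    (Q ^ m * (1 - Q ^ (j + 1)) ^ 2 * (1 - Q ^ (2 * j + 2))))

variable {Q}

lemma F_succ (m k : ℕ) : F Q m (k + 1) = F Q m k * ((Q ^ m - Q ^ k) * (1 - Q ^ (m + 1 + k)) * (1 - Q ^ (2 * k + 1)) * Q /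
    (Q ^ m * (1 - Q ^ (k + 1)) ^ 2 * (1 - Q ^ (2 * k + 2)))) := by
  unfold F; rw [prod_range_succ]

lemma F_zero_of_lt {m k : ℕ} (h : m < k) : F Q m k = 0 := by
  unfold F
  apply prod_eq_zero (mem_range.2 h)
  simp

lemma ne1 (hq1 : ∀ k : ℕ, 1 - Q ^ (k + 1) ≠ 0) {a : ℕ} (ha : 0 < a) : 1 - Q ^ a ≠ 0 := by
  obtain ⟨b, rfl⟩ : ∃ b, a = b + 1 := ⟨a - 1, by omega⟩
  exact hq1 b

lemma F_ratio (hq : Q ≠ 0) (hq1 : ∀ k : ℕ, 1 - Q ^ (k + 1) ≠ 0) (m k : ℕ) :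
    F Q (m + 2) k * ((Q ^ (m + 2) - Q ^ k) * (Q ^ (m + 1) - Q ^ k)) =
      F Q m k * ((1 - Q ^ (m + 1) * Q ^ k) * (1 - Q ^ (m + 2) * Q ^ k)) := by
  induction k with
  | zero => simp only [F, range_zero, prod_empty, one_mul, pow_zero, mul_one]; ring
  | succ k ih =>
    rw [F_succ, F_succ]
    have a1 : 1 - Q ^ (k + 1) ≠ 0 := ne1 hq1 (by omega)
    have a2 : 1 - Q ^ (2 * k + 2) ≠ 0 := ne1 hq1 (by omega)
    have e0 : Q ^ (m + 2) = Q ^ m * Q ^ 2 := pow_add _ _ _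
    have e1 : Q ^ (m + 1) = Q ^ m * Q := pow_succ _ _
    have e2 : Q ^ (m + 1 + k) = Q ^ m * Q * Q ^ k := by rw [pow_add, pow_succ]
    have e3 : Q ^ (m + 2 + 1 + k) = Q ^ m * Q ^ 3 * Q ^ k := by rw [← pow_add, ← pow_add]
    have e4 : Q ^ (k + 1) = Q ^ k * Q := pow_succ _ _
    have hy : Q ^ m ≠ 0 := pow_ne_zero _ hq
    rw [e4] at a1
    rw [e0, e1] at ih
    rw [e0, e1, e2, e3, e4]
    generalize 1 - Q ^ (2 * k + 2) = t2 at *
    generalize 1 - Q ^ (2 * k + 1) = t1 at *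
    generalize Q ^ m = y at *
    generalize Q ^ k = x at *
    generalize F Q (m + 2) k = A at *
    generalize F Q m k = B at *
    have e5 : (y * Q ^ 2 - x * Q) * (y * Q - x * Q) = Q ^ 2 * ((y * Q - x) * (y - x)) := by ring
    rw [e5]
    have e6 : (1 - y * Q * (x * Q)) * (1 - y * Q ^ 2 * (x * Q)) = (1 - y * Q ^ 2 * x) * (1 - y * Q ^ 3 * x) := by ring
    rw [e6]
    generalize 1 - x * Q = t3 at *
    field_simp
    linear_combination (t1 * (y - x) * (1 - y * Q ^ 3 * x)) * ih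

/-- the sum over a long enough range -/
def S (Q : K) (m : ℕ) : K := ∑ k ∈ range (m + 1), F Q m k

lemma S_eq {m N : ℕ} (h : m < N) : ∑ k ∈ range N, F Q m k = S Q m := by
  unfold S
  rw [← Finset.sum_subset (range_subset_range.2 (show m + 1 ≤ N by omega))]
  intro k _ hk
  rw [mem_range, not_lt] at hk
  exact F_zero_of_lt (by omega)

lemma S_rec (hq : Q ≠ 0) (hq1 : ∀ k : ℕ, 1 - Q ^ (k + 1) ≠ 0) (m : ℕ) :
    (1 - Q ^ (m + 2)) ^ 2 * S Q (m + 2) = Q * (1 - Q ^ (m + 1)) ^ 2 * S Q m := by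
  have tel : ∀ k : ℕ, ∑ i ∈ range k, ((1 - Q ^ (m + 2)) ^ 2 * F Q (m + 2) i - Q * (1 - Q ^ (m + 1)) ^ 2 * F Q m i) =
      -(Q ^ (m + 2) * (1 - Q ^ (m + 1) * Q ^ (m + 2)) * ((1 - Q ^ k) ^ 2 * (1 - Q ^ (2 * k)))) /
        (Q ^ k * (1 - Q ^ (m + 1) * Q ^ k) * (1 - Q ^ (m + 2) * Q ^ k)) * F Q (m + 2) k := by
    intro k
    induction k with
    | zero => simp
    | succ k ihk =>
      rw [sum_range_succ, ihk, F_succ (m + 2)]
      have hr := F_ratio hq hq1 m k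
      have a1 : 1 - Q ^ (k + 1) ≠ 0 := ne1 hq1 (by omega)
      have a2 : 1 - Q ^ (2 * k + 2) ≠ 0 := ne1 hq1 (by omega)
      have a3 : 1 - Q ^ (m + 1) * Q ^ k ≠ 0 := by rw [← pow_add]; exact ne1 hq1 (by omega)
      have a4 : 1 - Q ^ (m + 2) * Q ^ k ≠ 0 := by rw [← pow_add]; exact ne1 hq1 (by omega)
      have a5 : 1 - Q ^ (m + 2) * Q ^ (k + 1) ≠ 0 := by rw [← pow_add]; exact ne1 hq1 (by omega)
      have hx : Q ^ k ≠ 0 := pow_ne_zero _ hq
      have hy : Q ^ m ≠ 0 := pow_ne_zero _ hq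
      have hv : F Q m k = F Q (m + 2) k * ((Q ^ (m + 2) - Q ^ k) * (Q ^ (m + 1) - Q ^ k)) /
          ((1 - Q ^ (m + 1) * Q ^ k) * (1 - Q ^ (m + 2) * Q ^ k)) := by
        rw [eq_div_iff (mul_ne_zero a3 a4)]; exact hr.symm
      rw [hv]
      have e0 : Q ^ (m + 2) = Q ^ m * Q ^ 2 := pow_add _ _ _
      have e1 : Q ^ (m + 1) = Q ^ m * Q := pow_succ _ _
      have e3 : Q ^ (m + 2 + 1 + k) = Q ^ m * Q ^ 3 * Q ^ k := by rw [← pow_add, ← pow_add]
      have e4 : Q ^ (k + 1) = Q ^ k * Q := pow_succ _ _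
      have e5 : Q ^ (2 * k) = Q ^ k * Q ^ k := by rw [← pow_add]; congr 1; ring
      have e6 : Q ^ (2 * (k + 1)) = Q ^ k * Q ^ k * Q ^ 2 := by rw [← pow_add, ← pow_add]; congr 1; ring
      have e7 : Q ^ (2 * k + 1) = Q ^ k * Q ^ k * Q := by rw [← pow_add, ← pow_succ]; congr 1; ring
      have e8 : Q ^ (2 * k + 2) = Q ^ k * Q ^ k * Q ^ 2 := by rw [← pow_add, ← pow_add]; congr 1; ring
      rw [e4] at a1
      rw [e8] at a2
      rw [e1] at a3
      rw [e0] at a4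
      rw [e0, e4] at a5
      rw [e0, e1, e3, e4, e5, e6, e7, e8]
      clear hv hr ihk
      generalize F Q (m + 2) k = A at *
      generalize Q ^ m = y at *
      generalize Q ^ k = x at *
      clear e0 e1 e3 e4 e5 e6 e7 e8
      have c1 : 1 - y * Q ^ 3 * x = 1 - y * Q ^ 2 * (x * Q) := by ring
      have c2 : 1 - y * Q * (x * Q) = 1 - y * Q ^ 2 * x := by ring
      have key : -(y * Q ^ 2 * (1 - y * Q * (y * Q ^ 2)) * ((1 - x) ^ 2 * (1 - x * x))) + (1 - y * Q ^ 2) ^ 2 * x * (1 - y * Q * x) * (1 - y * Q ^ 2 * x) -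
          Q * (1 - y * Q) ^ 2 * (y * Q ^ 2 - x) * (y * Q - x) * x = -((1 - y * Q * (y * Q ^ 2)) * (y * Q ^ 2 - x) * (1 - x * x * Q) * (1 - y * Q * x)) := by ring
      rw [c1, c2]
      generalize (1 - y * Q * (y * Q ^ 2)) = b1 at *
      generalize (1 - y * Q ^ 2 * (x * Q)) = b2 at *
      generalize (1 - y * Q ^ 2 * x) = b3 at *
      generalize (1 - y * Q * x) = b4 at *
      generalize (1 - y * Q ^ 2) = b5 at *
      generalize (1 - y * Q) = b6 at *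
      generalize (1 - x * x * Q ^ 2) = b7 at *
      generalize (1 - x * x * Q) = b8 at *
      generalize (1 - x * x) = b9 at *
      generalize (1 - x * Q) = b10 at *
      generalize (1 - x) = b11 at *
      generalize (y * Q ^ 2 - x) = b12 at *
      generalize (y * Q - x) = b13 at *
      clear c1 c2
      field_simp
      linear_combination A * key
  have h := tel (m + 3)
  rw [F_zero_of_lt (by omega), mul_zero, sum_sub_distrib, ← mul_sum, ← mul_sum, S_eq (by omega), S_eq (by omega), sub_eq_zero] at h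
  exact h

theorem S_odd (hq : Q ≠ 0) (hq1 : ∀ k : ℕ, 1 - Q ^ (k + 1) ≠ 0) (m : ℕ) : S Q (2 * m + 1) = 0 := by
  induction m with
  | zero =>
    unfold S
    rw [show 2 * 0 + 1 + 1 = 2 by norm_num, sum_range_succ, sum_range_one]
    unfold F
    rw [prod_range_one, range_zero, prod_empty]
    have a1 := hq1 0
    have a2 := hq1 1
    norm_num at a1 a2 ⊢
    field_simp
    ring
  | succ m ih =>
    have h := S_rec hq hq1 (2 * m + 1)
    rw [ih, mul_zero] at h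
    have a := ne1 hq1 (show 0 < 2 * m + 1 + 2 by omega)
    rcases mul_eq_zero.1 h with h1 | h1
    · exact absurd h1 (pow_ne_zero 2 a)
    · exact h1

theorem S_even (hq : Q ≠ 0) (hq1 : ∀ k : ℕ, 1 - Q ^ (k + 1) ≠ 0) (m : ℕ) :
    S Q (2 * m) = Q ^ m * (∏ j ∈ range m, ((1 - Q ^ (2 * j + 1)) / (1 - Q ^ (2 * j + 2)))) ^ 2 := by
  induction m with
  | zero => simp [S, F]
  | succ m ih =>
    have h := S_rec hq hq1 (2 * m)
    rw [ih] at h
    have a := ne1 hq1 (show 0 < 2 * m + 2 by omega)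
    rw [prod_range_succ, show 2 * (m + 1) = 2 * m + 2 by ring]
    have h2 : S Q (2 * m + 2) = (Q * (1 - Q ^ (2 * m + 1)) ^ 2 * (Q ^ m * (∏ j ∈ range m, ((1 - Q ^ (2 * j + 1)) / (1 - Q ^ (2 * j + 2)))) ^ 2)) /
        (1 - Q ^ (2 * m + 2)) ^ 2 := by
      rw [eq_div_iff (pow_ne_zero 2 a), mul_comm]; exact h
    rw [h2, pow_succ Q m]
    generalize (∏ j ∈ range m, ((1 - Q ^ (2 * j + 1)) / (1 - Q ^ (2 * j + 2)))) = A
    field_simp

end

end Pool.Agent.X14.QAndrews
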