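import Mathlib

set_option autoImplicit false

/-! A terminating cubic-type `q`-sum with linear factor `1 - q^{3k+1}`. -/

namespace Pool.Agent.X14.QCubic

open Finset

section
variable {K : Type*} [Field K] (q : K)

/-- the products -/
def pp (Q : K) (k : ℕ) : K :=
  ∏ i ∈ range k, (-((1 - q ^ (2 * i + 1)) * (1 - Q * q ^ (2 * i + 1)) * (Q - q ^ (2 * i + 1))) /
    ((1 - q ^ (i + 1)) * (1 - Q * q ^ (i + 1)) * (Q - q ^ (i + 1))))

variable {q}

lemma pp_succ (Q : K) (k : ℕ) : pp q Q (k + 1) = pp q Q k *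
    (-((1 - q ^ (2 * k + 1)) * (1 - Q * q ^ (2 * k + 1)) * (Q - q ^ (2 * k + 1))) /
    ((1 - q ^ (k + 1)) * (1 - Q * q ^ (k + 1)) * (Q - q ^ (k + 1)))) := by
  unfold pp; rw [prod_range_succ]

lemma ne1 (hq1 : ∀ k : ℕ, 1 - q ^ (k + 1) ≠ 0) {a : ℕ} (ha : 0 < a) : 1 - q ^ a ≠ 0 := by
  obtain ⟨b, rfl⟩ : ∃ b, a = b + 1 := ⟨a - 1, by omega⟩
  exact hq1 b

lemma ne2 (hq : q ≠ 0) (hq1 : ∀ k : ℕ, 1 - q ^ (k + 1) ≠ 0) {a b : ℕ} (hab : a < b) : q ^ b - q ^ a ≠ 0 := by
  obtain ⟨c, rfl⟩ := Nat.exists_eq_add_of_lt hab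
  have : q ^ (a + c + 1) - q ^ a = -(q ^ a * (1 - q ^ (c + 1))) := by ring
  rw [this]
  exact neg_ne_zero.2 (mul_ne_zero (pow_ne_zero _ hq) (hq1 c))

lemma pp_ratio (hq : q ≠ 0) (hq1 : ∀ k : ℕ, 1 - q ^ (k + 1) ≠ 0) (m k : ℕ) (hk : k ≤ m) :
    pp q (q ^ (2 * m + 3)) k * ((q ^ (2 * m + 2) - q ^ (2 * k)) * (1 - q ^ (2 * m + 2) * q ^ k) *
      (1 - q ^ (2 * m + 3) * q ^ k) * (q ^ (2 * m + 1) - 1)) =
    pp q (q ^ (2 * m + 1)) k * ((1 - q ^ (2 * m + 2) * q ^ (2 * k)) * (1 - q ^ (2 * m + 3)) *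
      (q ^ (2 * m + 2) - q ^ k) * (q ^ (2 * m + 1) - q ^ k)) := by
  induction k with
  | zero =>
    simp only [pp, range_zero, prod_empty, one_mul, pow_zero, mul_zero, mul_one]
    ring
  | succ k ih =>
    have ih' := ih (by omega)
    rw [pp_succ, pp_succ]
    have a1 : 1 - q ^ (k + 1) ≠ 0 := ne1 hq1 (by omega)
    have a2 : 1 - q ^ (2 * m + 3) * q ^ (k + 1) ≠ 0 := by rw [← pow_add]; exact ne1 hq1 (by omega)
    have a3 : 1 - q ^ (2 * m + 1) * q ^ (k + 1) ≠ 0 := by rw [← pow_add]; exact ne1 hq1 (by omega)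
    have a4 : q ^ (2 * m + 3) - q ^ (k + 1) ≠ 0 := ne2 hq hq1 (by omega)
    have a5 : q ^ (2 * m + 1) - q ^ (k + 1) ≠ 0 := ne2 hq hq1 (by omega)
    have a6 : (q ^ (2 * m + 2) - q ^ (2 * k)) ≠ 0 := ne2 hq hq1 (by omega)
    have a7 : (1 - q ^ (2 * m + 2) * q ^ k) ≠ 0 := by rw [← pow_add]; exact ne1 hq1 (by omega)
    have a8 : (1 - q ^ (2 * m + 3) * q ^ k) ≠ 0 := by rw [← pow_add]; exact ne1 hq1 (by omega)
    have a9 : (q ^ (2 * m + 1) - 1) ≠ 0 := by
      have := ne1 hq1 (show 0 < 2 * m + 1 by omega)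
      intro h; apply this; rw [← neg_sub, h, neg_zero]
    have hv : pp q (q ^ (2 * m + 3)) k = pp q (q ^ (2 * m + 1)) k * ((1 - q ^ (2 * m + 2) * q ^ (2 * k)) * (1 - q ^ (2 * m + 3)) *
      (q ^ (2 * m + 2) - q ^ k) * (q ^ (2 * m + 1) - q ^ k)) / ((q ^ (2 * m + 2) - q ^ (2 * k)) * (1 - q ^ (2 * m + 2) * q ^ k) *
      (1 - q ^ (2 * m + 3) * q ^ k) * (q ^ (2 * m + 1) - 1)) := by
      rw [eq_div_iff (mul_ne_zero (mul_ne_zero (mul_ne_zero a6 a7) a8) a9)]; exact ih'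
    rw [hv]
    have e1 : q ^ (2 * m + 2) = q ^ (2 * m + 1) * q := by rw [← pow_succ]
    have e2 : q ^ (2 * m + 3) = q ^ (2 * m + 1) * q ^ 2 := by rw [← pow_add]
    have e3 : q ^ (2 * k) = q ^ k * q ^ k := by rw [← pow_add]; congr 1; ring
    have e4 : q ^ (2 * k + 1) = q ^ k * q ^ k * q := by rw [← pow_add, ← pow_succ]; congr 1; ring
    have e5 : q ^ (2 * (k + 1)) = q ^ k * q ^ k * q ^ 2 := by rw [← pow_add, ← pow_add]; congr 1; ring
    have e6 : q ^ (k + 1) = q ^ k * q := pow_succ _ _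
    rw [e1, e3] at a6
    rw [e1] at a7
    rw [e2] at a8
    rw [e6] at a1 a3 a5
    rw [e2, e6] at a2 a4
    rw [e1, e2, e3, e4, e5, e6]
    generalize q ^ (2 * m + 1) = Q at *
    generalize q ^ k = x at *
    generalize pp q Q k = v at *
    clear hv ih ih' e1 e2 e3 e4 e5 e6
    have r1 : Q * q - x * x * q ^ 2 = q * (Q - x * x * q) := by ring
    have r2 : Q * q ^ 2 - x * x * q = q * (Q * q - x * x) := by ring
    have r3 : Q * q ^ 2 - x * q = q * (Q * q - x) := by ring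
    have r4 : Q * q - x * q = q * (Q - x) := by ring
    have r5 : 1 - Q * q ^ 2 * (x * x * q) = 1 - Q * q * (x * x * q ^ 2) := by ring
    have r6 : 1 - Q * q ^ 2 * x = 1 - Q * q * (x * q) := by ring
    have r7 : 1 - Q * (x * q) = 1 - Q * q * x := by ring
    have r8 : 1 - Q * (x * x * q) = 1 - Q * q * (x * x) := by ring
    rw [r3] at a4
    rw [r6] at a8
    rw [r7] at a3
    rw [r1, r2, r3, r4, r5, r6, r7, r8]
    have b4 : Q * q - x ≠ 0 := right_ne_zero_of_mul a4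
    generalize Q - x * x * q = t1 at *
    generalize Q * q - x * x = t2 at *
    generalize Q * q - x = t3 at *
    generalize Q - x = t4 at *
    generalize 1 - Q * q * (x * x * q ^ 2) = t5 at *
    generalize 1 - Q * q * (x * q) = t6 at *
    generalize 1 - Q * q * x = t7 at *
    generalize 1 - Q * q * (x * x) = t8 at *
    generalize Q - 1 = t9 at *
    generalize Q - x * q = t10 at *
    generalize 1 - x * q = t11 at *
    generalize 1 - Q * q ^ 2 * (x * q) = t12 at *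
    generalize 1 - x * x * q = t13 at *
    generalize 1 - Q * q ^ 2 = t14 at *
    clear r1 r2 r3 r4 r5 r6 r7 r8 a4
    field_simp

theorem cubic_sum (hq : q ≠ 0) (hq1 : ∀ k : ℕ, 1 - q ^ (k + 1) ≠ 0) (m : ℕ) :
    ∑ k ∈ range (m + 1), (1 - q ^ (3 * k + 1)) * pp q (q ^ (2 * m + 1)) k =
      (-1) ^ m * q ^ (m ^ 2) * (1 - q ^ (2 * m + 1)) := by
  induction m with
  | zero => simp [pp]
  | succ m ih =>
    have b1 : (q ^ (2 * m + 1) - 1) ≠ 0 := by
      have := ne1 hq1 (show 0 < 2 * m + 1 by omega)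
      intro h; apply this; rw [← neg_sub, h, neg_zero]
    have b2 : 1 - q ^ (2 * m + 3) ≠ 0 := ne1 hq1 (by omega)
    -- telescoping
    have tel : ∀ k : ℕ, k ≤ m + 1 → ∑ i ∈ range k, ((1 - q ^ (3 * i + 1)) * pp q (q ^ (2 * m + 3)) i -
        (q ^ (2 * m + 1) * (1 - q ^ (2 * m + 3)) / (q ^ (2 * m + 1) - 1)) * ((1 - q ^ (3 * i + 1)) * pp q (q ^ (2 * m + 1)) i)) =
        (1 - q ^ (2 * m + 2) * q ^ (2 * m + 2)) * (q ^ k * (1 - q ^ k) * (1 - q ^ (2 * m + 3) * q ^ k)) /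
          ((1 - q ^ (2 * m + 2) * q ^ (2 * k)) * (q ^ (2 * m + 2) - q ^ k)) * pp q (q ^ (2 * m + 3)) k := by
      intro k
      induction k with
      | zero => intro _; simp
      | succ k ihk =>
        intro hk
        rw [sum_range_succ, ihk (by omega), pp_succ]
        have hr := pp_ratio hq hq1 m k (by omega)
        have a1 : 1 - q ^ (k + 1) ≠ 0 := ne1 hq1 (by omega)
        have a2 : 1 - q ^ (2 * m + 3) * q ^ (k + 1) ≠ 0 := by rw [← pow_add]; exact ne1 hq1 (by omega)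
        have a4 : q ^ (2 * m + 3) - q ^ (k + 1) ≠ 0 := ne2 hq hq1 (by omega)
        have a6 : (1 - q ^ (2 * m + 2) * q ^ (2 * k)) ≠ 0 := by rw [← pow_add]; exact ne1 hq1 (by omega)
        have a7 : (q ^ (2 * m + 2) - q ^ k) ≠ 0 := ne2 hq hq1 (by omega)
        have a8 : (q ^ (2 * m + 1) - q ^ k) ≠ 0 := ne2 hq hq1 (by omega)
        have a9 : (1 - q ^ (2 * m + 2) * q ^ (2 * (k + 1))) ≠ 0 := by rw [← pow_add]; exact ne1 hq1 (by omega)
        have a10 : (q ^ (2 * m + 2) - q ^ (k + 1)) ≠ 0 := ne2 hq hq1 (by omega)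
        have hv : pp q (q ^ (2 * m + 1)) k = pp q (q ^ (2 * m + 3)) k * ((q ^ (2 * m + 2) - q ^ (2 * k)) * (1 - q ^ (2 * m + 2) * q ^ k) *
          (1 - q ^ (2 * m + 3) * q ^ k) * (q ^ (2 * m + 1) - 1)) / ((1 - q ^ (2 * m + 2) * q ^ (2 * k)) * (1 - q ^ (2 * m + 3)) *
          (q ^ (2 * m + 2) - q ^ k) * (q ^ (2 * m + 1) - q ^ k)) := by
          rw [eq_div_iff (mul_ne_zero (mul_ne_zero (mul_ne_zero a6 b2) a7) a8)]; exact hr.symm
        rw [hv]
        have e1 : q ^ (2 * m + 2) = q ^ (2 * m + 1) * q := by rw [← pow_succ]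
        have e2 : q ^ (2 * m + 3) = q ^ (2 * m + 1) * q ^ 2 := by rw [← pow_add]
        have e3 : q ^ (2 * k) = q ^ k * q ^ k := by rw [← pow_add]; congr 1; ring
        have e4 : q ^ (2 * k + 1) = q ^ k * q ^ k * q := by rw [← pow_add, ← pow_succ]; congr 1; ring
        have e5 : q ^ (2 * (k + 1)) = q ^ k * q ^ k * q ^ 2 := by rw [← pow_add, ← pow_add]; congr 1; ring
        have e6 : q ^ (k + 1) = q ^ k * q := pow_succ _ _
        have e7 : q ^ (3 * k + 1) = q ^ k * q ^ k * q ^ k * q := by rw [← pow_add, ← pow_add, ← pow_succ]; congr 1; ring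
        rw [e2] at b2
        rw [e6] at a1
        rw [e2, e6] at a2 a4
        rw [e1, e3] at a6
        rw [e1] at a7
        rw [e1, e5] at a9
        rw [e1, e6] at a10
        rw [e1, e2, e3, e4, e5, e6, e7]
        clear hv hr ihk ih
        generalize pp q (q ^ (2 * m + 1) * q ^ 2) k = v at *
        generalize q ^ (2 * m + 1) = Q at *
        generalize q ^ k = x at *
        clear e1 e2 e3 e4 e5 e6 e7
        have r2 : Q * q ^ 2 - x * x * q = q * (Q * q - x * x) := by ring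
        have r3 : Q * q ^ 2 - x * q = q * (Q * q - x) := by ring
        have r4 : Q * q - x * q = q * (Q - x) := by ring
        have r5 : 1 - Q * q ^ 2 * (x * x * q) = 1 - Q * q * (x * x * q ^ 2) := by ring
        rw [r3] at a4
        rw [r4] at a10
        have key : (1 - Q * q * (Q * q)) * (x * (1 - x) * (1 - Q * q ^ 2 * x)) * (Q - x) +
            (1 - x * x * x * q) * ((1 - Q * q * (x * x)) * (Q * q - x) * (Q - x) - Q * (Q * q - x * x) * (1 - Q * q * x) * (1 - Q * q ^ 2 * x)) =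
            -((1 - Q * q * (Q * q)) * x * (1 - x * x * q) * (Q * q - x * x) * (1 - Q * q * (x * x))) := by ring
        rw [r2, r3, r4, r5]
        generalize 1 - Q * q * (Q * q) = t1 at *
        generalize (Q * q - x * x) = t2 at *
        generalize (Q * q - x) = t3 at *
        generalize (Q - x) = t4 at *
        generalize (1 - Q * q * (x * x * q ^ 2)) = t5 at *
        generalize (1 - Q * q ^ 2 * x) = t6 at *
        generalize (1 - Q * q * x) = t7 at *
        generalize (1 - Q * q * (x * x)) = t8 at *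
        generalize (Q - 1) = t9 at *
        generalize (1 - x * q) = t11 at *
        generalize (1 - Q * q ^ 2 * (x * q)) = t12 at *
        generalize (1 - x * x * q) = t13 at *
        generalize (1 - Q * q ^ 2) = t14 at *
        generalize (1 - x * x * x * q) = t15 at *
        generalize (1 - x) = t16 at *
        clear r2 r3 r4 r5 a4 a10
        field_simp
        linear_combination v * key
    have h := tel (m + 1) le_rfl
    rw [sum_sub_distrib, ← mul_sum, ih, sub_eq_iff_eq_add] at h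
    rw [show 2 * (m + 1) + 1 = 2 * m + 3 by ring, sum_range_succ, h]
    have a9 : (1 - q ^ (2 * m + 2) * q ^ (2 * (m + 1))) ≠ 0 := by rw [← pow_add]; exact ne1 hq1 (by omega)
    have a10 : (q ^ (2 * m + 2) - q ^ (m + 1)) ≠ 0 := ne2 hq hq1 (by omega)
    have a11 : (1 - q ^ (m + 1)) ≠ 0 := ne1 hq1 (by omega)
    have e1 : q ^ (2 * m + 2) = q ^ (m + 1) * q ^ (m + 1) := by rw [← pow_add]; congr 1; ring
    have e2 : q ^ (2 * (m + 1)) = q ^ (m + 1) * q ^ (m + 1) := by rw [← pow_add]; congr 1; ring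
    have e3 : q ^ (2 * m + 3) = q ^ (m + 1) * q ^ (m + 1) * q := by rw [← pow_add, ← pow_succ]; congr 1; ring
    have e4 : q ^ (3 * (m + 1) + 1) = q ^ (m + 1) * q ^ (m + 1) * q ^ (m + 1) * q := by
      rw [← pow_add, ← pow_add, ← pow_succ]; congr 1; ring
    have e5 : q ^ ((m + 1) ^ 2) = q ^ (m ^ 2) * q ^ (2 * m + 1) := by rw [← pow_add]; congr 1; ring
    have hz : (1 - q ^ (2 * m + 2) * q ^ (2 * m + 2)) * (q ^ (m + 1) * (1 - q ^ (m + 1)) * (1 - q ^ (2 * m + 3) * q ^ (m + 1))) /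
        ((1 - q ^ (2 * m + 2) * q ^ (2 * (m + 1))) * (q ^ (2 * m + 2) - q ^ (m + 1))) = -(1 - q ^ (3 * (m + 1) + 1)) := by
      rw [e1, e2] at a9
      rw [e1] at a10
      rw [e1, e2, e3, e4]
      generalize q ^ (m + 1) = x at *
      have hx : x * x - x = -(x * (1 - x)) := by ring
      rw [hx] at a10 ⊢
      have hx0 : x ≠ 0 := by
        intro h0; apply a10; rw [h0]; ring
      rw [div_eq_iff (mul_ne_zero a9 a10)]
      ring
    rw [hz, e5, pow_succ (-1 : K)]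
    field_simp
    ring

end

end Pool.Agent.X14.QCubic
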