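import Mathlib

set_option autoImplicit false

/-! The Chu–Vandermonde sum. -/

namespace Pool.Agent.X14

open Finset

section
set_option linter.unusedSectionVars false
variable {K : Type*} [Field K]

/-- `(-n)_k (b)_k / (k! (c)_k)` -/
def cv (b c : K) (n k : ℕ) : K :=
  ∏ j ∈ range k, (((j : K) - n) * (b + j)) / (((j : K) + 1) * (c + j))

variable [CharZero K] {b c : K}

lemma cv_succ (n k : ℕ) : cv b c n (k + 1) = cv b c n k * ((((k : K) - n) * (b + k)) / (((k : K) + 1) * (c + k))) := by
  unfold cv; rw [prod_range_succ]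

lemma cv_zero_of_lt {n k : ℕ} (h : n < k) : cv b c n k = 0 := by
  unfold cv
  apply prod_eq_zero (mem_range.2 h)
  simp

lemma cv_shift (n k : ℕ) : cv b c (n + 1) k * ((n : K) + 1 - k) = cv b c n k * ((n : K) + 1) := by
  induction k with
  | zero => simp [cv]
  | succ k ih =>
    rw [cv_succ, cv_succ]
    have e : cv b c n k * ((((k : K) - n) * (b + k)) / (((k : K) + 1) * (c + k))) * ((n : K) + 1) =
        (cv b c n k * ((n : K) + 1)) * ((((k : K) - n) * (b + k)) / (((k : K) + 1) * (c + k))) := by ring
    rw [e, ← ih]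
    push_cast
    have e2 : ∀ v x y : K, v * ((k - ((n : K) + 1)) * x / y) * ((n : K) + 1 - (k + 1)) = v * ((n : K) + 1 - k) * ((k - (n : K)) * x / y) := by
      intro v x y; ring
    rw [e2]

theorem cv_sum (hc : ∀ k : ℕ, c + k ≠ 0) (n : ℕ) :
    ∑ k ∈ range (n + 1), cv b c n k = ∏ j ∈ range n, (c - b + j) / (c + j) := by
  induction n with
  | zero => simp [cv]
  | succ n ih =>
    rw [prod_range_succ, ← ih]
    have hn : ((n : K) + 1) ≠ 0 := by exact_mod_cast Nat.succ_ne_zero n
    have hcn := hc n
    have tel : ∀ m : ℕ, ∑ k ∈ range m, (cv b c (n + 1) k - cv b c n k * ((c - b + n) / (c + n))) =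
        -(cv b c (n + 1) m * (m * (c + m - 1)) / (((n : K) + 1) * (c + n))) := by
      intro m
      induction m with
      | zero => simp
      | succ m ihm =>
        rw [sum_range_succ, ihm]
        have hs := cv_shift (b := b) (c := c) n m
        have hv : cv b c n m = cv b c (n + 1) m * ((n : K) + 1 - m) / ((n : K) + 1) := by
          rw [hs]; field_simp
        rw [hv, cv_succ]
        have hm : ((m : K) + 1) ≠ 0 := by exact_mod_cast Nat.succ_ne_zero m
        have hcm := hc m
        push_cast
        generalize cv b c (n + 1) m = v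
        field_simp
        ring
    have h := tel (n + 2)
    rw [cv_zero_of_lt (by omega), zero_mul, zero_div, neg_zero, sum_sub_distrib, ← sum_mul, sub_eq_zero] at h
    rw [h, sum_range_succ _ (n + 1), cv_zero_of_lt (by omega : n < n + 1), add_zero]

end

end Pool.Agent.X14
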