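import Pool.Agent.X14.QR9

set_option autoImplicit false

/-! The case `2n ≡ -s (mod d)`: the conclusion. -/

namespace Pool.Agent.X14.QR

open Finset Polynomial Pool.Agent.X14.QL Pool.Agent.X14.QBlock

noncomputable section

variable {d r K n l : ℕ} {s : ℤ}

/-- the terms of the exactly summable series -/
def ss (d r n k : ℕ) : RatFunc ℚ :=
  ∏ j ∈ range k, (e ((d : ℤ) * (r + 1 + j)) ^ (d - 1) * e ((d : ℤ) * (r + 1 + j) - d * n) *
    ((e ((d : ℤ) * (j + 1)))⁻¹ ^ (d - 1) * (e ((d : ℤ) * (j + 1) + d * n))⁻¹))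

def W1 (d r l k : ℕ) : RatFunc ℚ := e ((d : ℤ) * (r + 1) + 2 * d * k) * q ^ ((d : ℤ) * l * k)

def YY (d r k : ℕ) : RatFunc ℚ := ∑ j ∈ range k, (h3 ((d : ℤ) * (r + 1 + j)) + h3 ((d : ℤ) * (j + 1)))

/-- the ratios -/
def RR (d r n j : ℕ) : RatFunc ℚ := ps d n (-1) ((d : ℤ) * (r + 1 + j)) * (ps d n 1 ((d : ℤ) * (j + 1)))⁻¹

/-- the coefficients -/
def om (d n : ℕ) : RatFunc ℚ := (d * (d - 1) / 2) * (zd n 1 ^ 2 - zd n 1 ^ 3)

def ta (d n : ℕ) : RatFunc ℚ := ((d ^ 3 - d) / 6) * zd n 1 ^ 3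

lemma cm (P : ℚ[X]) (d : ℕ) : ((d * (d - 1) / 2) : RatFunc ℚ) ∈ Loc P := by
  have := rat_mem P ((d : ℚ) * (d - 1) / 2)
  push_cast at this
  exact this

lemma am (P : ℚ[X]) (d : ℕ) : (((d ^ 3 - d) / 6) : RatFunc ℚ) ∈ Loc P := by
  have := rat_mem P (((d : ℚ) ^ 3 - d) / 6)
  push_cast at this
  exact this

lemma om_QO (hn : 0 < n) : QO (cyclotomic n ℚ) 2 (om d n) := by
  have h1 := zd_QO (n := n) hn 1
  exact QO.mul_left (cm _ d) (QO.sub (QO.pow h1 2) ((QO.pow h1 3).le (by norm_num)))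

lemma ta_QO (hn : 0 < n) : QO (cyclotomic n ℚ) 3 (ta d n) := QO.mul_left (am _ d) (QO.pow (zd_QO (n := n) hn 1) 3)

lemma RR_eqm (H : Hyp2 d r K n l s) {j : ℕ} (hj : j < K) : Eqm (cyclotomic n ℚ) 4 (RR d r n j - 1)
    (om d n * (hh ((d : ℤ) * (r + 1 + j)) - hh ((d : ℤ) * (j + 1))) - ta d n * (h3 ((d : ℤ) * (r + 1 + j)) + h3 ((d : ℤ) * (j + 1)))) := by
  have hn := H.hn
  have hK := H.hK
  have hd := H.hd
  set z := (d : ℤ) * (r + 1 + j) with hz
  set w := (d : ℤ) * (j + 1) with hw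
  have hzn : ¬ (n : ℤ) ∣ z := nd H.hcop (by omega) (by omega)
  have hwn : ¬ (n : ℤ) ∣ w := nd H.hcop (by omega) (by omega)
  have hA := ps_eqm (a := -1) hn (show 1 ≤ d by omega) hzn
  have hB := ps_eqm (a := 1) hn (show 1 ≤ d by omega) hwn
  set u := zd n 1 with hu
  set v := zd n (-1) with hv
  have hu1 : QO (cyclotomic n ℚ) 1 u := zd_QO hn 1
  have hv1 : QO (cyclotomic n ℚ) 1 v := zd_QO hn (-1)
  have huv : v + u = -(u * v) := by
    have h1 : (1 + u) * (1 + v) = 1 := by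
      rw [hu, hv]
      unfold zd
      rw [add_sub_cancel, add_sub_cancel, ← zpow_add₀ q_ne]
      have : (1 : ℤ) * n + -1 * n = 0 := by ring
      rw [this, zpow_zero]
    linear_combination h1
  have hsum2 : QO (cyclotomic n ℚ) 2 (v + u) := by rw [huv]; exact (hu1.mul hv1).neg
  have hcube : QO (cyclotomic n ℚ) 4 (v ^ 3 + u ^ 3) := by
    have h1 := hsum2.mul (QO.add (QO.sub (QO.pow hv1 2) (hv1.mul hu1)) (QO.pow hu1 2))
    convert h1 using 1
    ring
  have hsq : QO (cyclotomic n ℚ) 4 (v ^ 2 - v ^ 3 - (u ^ 2 - u ^ 3)) := by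
    -- `v = -u (1 + v)`
    have h1 : v = -(u * (1 + v)) := by linear_combination huv
    have h2 : QO (cyclotomic n ℚ) 4 (u ^ 2 * (v + u) - u ^ 2 * v ^ 2 * (1 + v)) := by
      refine QO.sub ((QO.pow hu1 2).mul hsum2) (QO.mul_right ((QO.pow hu1 2).mul (QO.pow hv1 2)) ?_)
      exact (Loc _).add_mem (Loc _).one_mem hv1.mem
    convert h2 using 1
    have h3 : v ^ 2 = u ^ 2 * (1 + v) ^ 2 := by
      calc v ^ 2 = (-(u * (1 + v))) ^ 2 := by rw [← h1]
        _ = _ := by ring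
    have h4 : v ^ 2 - v ^ 3 = u ^ 2 * (1 + v) ^ 2 * (1 - v) := by
      rw [← h3]; ring
    rw [h4]; ring
  have hhz := hh_mem hn hzn
  have hhw := hh_mem hn hwn
  have h3z := h3_mem hn hzn
  have h3w := h3_mem hn hwn
  set α := om d n * hh z - ta d n * h3 z with hα
  set β := om d n * hh w + ta d n * h3 w with hβ
  have hA' : Eqm (cyclotomic n ℚ) 4 (ps d n (-1) z) (1 + α) := by
    refine hA.trans ?_
    have h1 := QO.add (QO.mul_right (QO.mul_left (cm (cyclotomic n ℚ) d) hsq) hhz) (QO.mul_right (QO.mul_left (am (cyclotomic n ℚ) d) hcube) h3z)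
    unfold Eqm
    convert h1 using 1
    rw [hα]
    unfold om ta
    rw [← hu]
    ring
  have hB' : Eqm (cyclotomic n ℚ) 4 (ps d n 1 w) (1 + β) := by
    unfold Eqm at hB ⊢
    convert hB using 1
    rw [hβ]
    unfold om ta
    rw [← hu]
    ring
  have hα2 : QO (cyclotomic n ℚ) 2 α := QO.sub (QO.mul_right (om_QO hn) hhz) ((QO.mul_right (ta_QO hn) h3z).le (by norm_num))
  have hβ2 : QO (cyclotomic n ℚ) 2 β := QO.add (QO.mul_right (om_QO hn) hhw) ((QO.mul_right (ta_QO hn) h3w).le (by norm_num))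
  have hBU : U (cyclotomic n ℚ) 2 (ps d n 1 w) := by
    have := QO.add (hB'.le (show 2 ≤ 4 by norm_num)) hβ2
    unfold U
    convert this using 1
    ring
  have hBi := (hBU.inv (by norm_num)).mem
  have hB0 : ps d n 1 w ≠ 0 := by
    unfold ps
    refine mul_ne_zero (mul_ne_zero (pow_ne_zero _ ?_) (pow_ne_zero _ (inv_ne_zero (ne_of_nd hwn)))) (inv_ne_zero ?_)
    · exact ne_of_nd (nd_shift hwn 1)
    · exact ne_of_nd (nd_shift hwn (1 * d))
  have h1 : QO (cyclotomic n ℚ) 4 (ps d n (-1) z - (1 + α - β) * ps d n 1 w) := by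
    have hm : (1 + α - β) ∈ Loc (cyclotomic n ℚ) := (Loc _).sub_mem ((Loc _).add_mem (Loc _).one_mem hα2.mem) hβ2.mem
    have h2 := QO.sub hA' (QO.mul_left hm hB')
    have h3 := QO.sub (QO.mul hβ2 hβ2) (QO.mul hα2 hβ2)
    have h4 := QO.add h2 h3
    convert h4 using 1
    ring
  have h2 := QO.mul_right h1 hBi
  unfold Eqm RR
  rw [← hz, ← hw]
  convert h2 using 1
  rw [sub_mul, mul_assoc, mul_inv_cancel₀ hB0, hα, hβ]
  ring

lemma sg_one (H : Hyp2 d r K n l s) {k : ℕ} (hk : k ≤ K) : sg d l s n 1 k = W1 d r l k * (ss d r n k * ∏ j ∈ range k, RR d r n j) := by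
  have hK := H.hK
  have hd := H.hd
  unfold sg W1
  have e1 : s + 2 * (d : ℤ) * k + 2 * 1 * n = (d : ℤ) * (r + 1) + 2 * d * k := by linear_combination -H.hr
  rw [e1]
  congr 1
  unfold rt ss
  rw [← prod_pow, ← prod_mul_distrib]
  apply prod_congr rfl
  intro j hj
  have hj' := mem_range.1 hj
  have e2 : s + (d : ℤ) * j + 1 * n = (d : ℤ) * (r + 1 + j) + -1 * n := by linear_combination -H.hr
  rw [e2]
  unfold RR ps
  set z := (d : ℤ) * (r + 1 + j) with hz
  set w := (d : ℤ) * (j + 1) with hw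
  have hzn : ¬ (n : ℤ) ∣ z := nd H.hcop (by omega) (by omega)
  have hwn : ¬ (n : ℤ) ∣ w := nd H.hcop (by omega) (by omega)
  have e3 : z + -1 * d * n = z - d * n := by ring
  have e4 : w + 1 * d * n = w + d * n := by ring
  rw [e3, e4]
  have n1 := ne_of_nd hzn
  have n2 := ne_of_nd hwn
  have n3 : e (z - d * n) ≠ 0 := by
    rw [← e3]; exact ne_of_nd (nd_shift hzn _)
  have n4 : e (w + d * n) ≠ 0 := ne_of_nd (nd_shift hwn _)
  have n5 : e (w + 1 * n) ≠ 0 := ne_of_nd (nd_shift hwn _)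
  rw [mul_inv, mul_inv, inv_inv, ← inv_pow, ← inv_pow, inv_inv, mul_pow]
  have p1 : e z ^ (d - 1) * (e z)⁻¹ ^ (d - 1) = 1 := by rw [← mul_pow, mul_inv_cancel₀ n1, one_pow]
  have p2 : (e w)⁻¹ ^ (d - 1) * e w ^ (d - 1) = 1 := by rw [← mul_pow, inv_mul_cancel₀ n2, one_pow]
  have p3 : e (z - d * n) * (e (z - d * n))⁻¹ = 1 := mul_inv_cancel₀ n3
  have p4 : (e (w + d * n))⁻¹ * e (w + d * n) = 1 := inv_mul_cancel₀ n4
  have key : ∀ A A' B B' C C' D D' x y : RatFunc ℚ, A * A' = 1 → B * B' = 1 → C * C' = 1 → D * D' = 1 →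
      x * y = A * B * (C * D) * (x * A' * B' * (y * C' * D')) := by
    intro A A' B B' C C' D D' x y hA hB hC hD
    calc x * y = (A * A') * (B * B') * (C * C') * (D * D') * (x * y) := by rw [hA, hB, hC, hD]; ring
      _ = _ := by ring
  exact key _ _ _ _ _ _ _ _ _ _ p1 p3 p2 p4

lemma ss_mem (H : Hyp2 d r K n l s) {k : ℕ} (hk : k < n) : ss d r n k ∈ Loc (cyclotomic n ℚ) := by
  apply (Loc _).prod_mem
  intro j hj
  have := mem_range.1 hj
  have h1 := nd H.hcop (a := (j : ℤ) + 1) (by omega) (by omega)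
  exact (Loc _).mul_mem ((Loc _).mul_mem ((Loc _).pow_mem (e_mem H.hn _) _) (e_mem H.hn _))
    ((Loc _).mul_mem ((Loc _).pow_mem (e_inv H.hn h1) _) (e_inv H.hn (nd_shift h1 _)))

lemma W1_mem (hn : 0 < n) (k : ℕ) : W1 d r l k ∈ Loc (cyclotomic n ℚ) := (Loc _).mul_mem (e_mem hn _) (zmem hn _)

lemma YY_mem (H : Hyp2 d r K n l s) {k : ℕ} (hk : k ≤ K) : YY d r k ∈ Loc (cyclotomic n ℚ) := by
  apply (Loc _).sum_mem
  intro j hj
  have := mem_range.1 hj
  have := H.hK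
  exact (Loc _).add_mem (h3_mem H.hn (nd H.hcop (by omega) (by omega))) (h3_mem H.hn (nd H.hcop (by omega) (by omega)))

/-- third order expansion of the terms -/
lemma sg_eqm (H : Hyp2 d r K n l s) {k : ℕ} (hk : k ≤ K) : Eqm (cyclotomic n ℚ) 4 (sg d l s n 1 k)
    (W1 d r l k * ss d r n k + om d n * (W1 d r l k * ss d r n k * (GG d r k - HS d k)) - ta d n * (W1 d r l k * ss d r n k * YY d r k)) := by
  have hn := H.hn
  have hK := H.hK
  have h1 : ∀ j ∈ range k, Eqm (cyclotomic n ℚ) 4 (RR d r n j - 1)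
      (om d n * (hh ((d : ℤ) * (r + 1 + j)) - hh ((d : ℤ) * (j + 1))) - ta d n * (h3 ((d : ℤ) * (r + 1 + j)) + h3 ((d : ℤ) * (j + 1)))) := by
    intro j hj
    have := mem_range.1 hj
    exact RR_eqm H (by omega)
  have h2 : ∀ j ∈ range k, QO (cyclotomic n ℚ) 2
      (om d n * (hh ((d : ℤ) * (r + 1 + j)) - hh ((d : ℤ) * (j + 1))) - ta d n * (h3 ((d : ℤ) * (r + 1 + j)) + h3 ((d : ℤ) * (j + 1)))) := by
    intro j hj
    have := mem_range.1 hj
    have hzn := nd H.hcop (a := (r : ℤ) + 1 + j) (by omega) (by omega)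
    have hwn := nd H.hcop (a := (j : ℤ) + 1) (by omega) (by omega)
    exact QO.sub (QO.mul_right (om_QO hn) ((Loc _).sub_mem (hh_mem hn hzn) (hh_mem hn hwn)))
      ((QO.mul_right (ta_QO hn) ((Loc _).add_mem (h3_mem hn hzn) (h3_mem hn hwn))).le (by norm_num))
  have h3' : ∀ j ∈ range k, QO (cyclotomic n ℚ) 2 (RR d r n j - 1) := by
    intro j hj
    have := QO.add ((h1 j hj).le (show 2 ≤ 4 by norm_num)) (h2 j hj)
    rwa [sub_add_cancel] at this
  have h4 := (prod_first (range k) (fun j => RR d r n j - 1) h3').le (show 4 ≤ 2 + 2 by norm_num)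
  simp only [add_sub_cancel] at h4
  have h5 := h4.trans ((Eqm.refl 1).add (Eqm.sum h1))
  have h6 := Eqm.mul_left ((Loc _).mul_mem (W1_mem (d := d) (r := r) (l := l) hn k) (ss_mem H (show k < n by omega))) h5
  rw [sg_one H hk]
  have hs : ∑ i ∈ range k, (om d n * (hh ((d : ℤ) * (r + 1 + i)) - hh ((d : ℤ) * (i + 1))) - ta d n * (h3 ((d : ℤ) * (r + 1 + i)) + h3 ((d : ℤ) * (i + 1)))) =
      om d n * (GG d r k - HS d k) - ta d n * YY d r k := by
    unfold GG HS YY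
    rw [sum_sub_distrib, ← mul_sum, ← mul_sum, sum_sub_distrib]
  rw [hs] at h6
  unfold Eqm at *
  convert h6 using 1
  ring

/-- relation with the two-window terms -/
lemma ss_TZ (H : Hyp2 d r K n l s) (k : ℕ) : W1 d r l k * ss d r n k * (cb (q ^ d) (n + K) n * PP d r 0 ^ (d - 1)) =
    TZ d r l n K (n + k) := by
  have hd := H.hd
  have hK := H.hK
  have e1 : cb (q ^ d) (n + K) (n + k) = cb (q ^ d) (n + K) n * ∏ j ∈ range k, (e ((d : ℤ) * (r + 1 + j) - d * n) * (e ((d : ℤ) * (j + 1) + d * n))⁻¹) := by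
    unfold cb
    rw [prod_range_add]
    congr 1
    apply prod_congr rfl
    intro j _
    have e2 : e ((d : ℤ) * (r + 1 + j) - d * n) = 1 - (q ^ d) ^ (((n + j : ℕ) : ℤ) - ((n + K : ℕ) : ℤ)) := by
      unfold e
      rw [← zpow_natCast q d, ← zpow_mul]
      congr 2
      have : (n : ℤ) = K + r + 1 := by exact_mod_cast hK.symm
      push_cast
      rw [this]; ring
    have e3 : e ((d : ℤ) * (j + 1) + d * n) = 1 - (q ^ d) ^ (n + j + 1) := by
      unfold e
      rw [← pow_mul, ← zpow_natCast]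
      congr 2
      push_cast; ring
    rw [e2, e3, div_eq_mul_inv]
  have e4 : ss d r n k * PP d r 0 ^ (d - 1) = PP d r k ^ (d - 1) * ∏ j ∈ range k, (e ((d : ℤ) * (r + 1 + j) - d * n) * (e ((d : ℤ) * (j + 1) + d * n))⁻¹) := by
    have h1 : ss d r n k = ((∏ j ∈ range k, e ((d : ℤ) * (r + 1 + j))) * (∏ j ∈ range k, e ((d : ℤ) * (j + 1)))⁻¹) ^ (d - 1) *
        ∏ j ∈ range k, (e ((d : ℤ) * (r + 1 + j) - d * n) * (e ((d : ℤ) * (j + 1) + d * n))⁻¹) := by
      unfold ss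
      rw [← prod_inv_distrib, ← prod_mul_distrib, ← prod_pow, ← prod_mul_distrib]
      apply prod_congr rfl
      intro j _
      rw [mul_pow]
      ring
    have h2 := prod_exch d r k
    have h3 := den_ne (show 0 < d by omega) k
    have h4 : ((∏ j ∈ range k, e ((d : ℤ) * (r + 1 + j))) * (∏ j ∈ range k, e ((d : ℤ) * (j + 1)))⁻¹) * PP d r 0 = PP d r k := by
      field_simp
      linear_combination h2
    rw [h1, ← h4, mul_pow (_ * _) (PP d r 0)]
    ring
  have e5 : FZ d r l (((n + k : ℕ) : ℤ) - n) = W1 d r l k * PP d r k ^ (d - 1) := by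
    have : ((n + k : ℕ) : ℤ) - n = k := by push_cast; ring
    rw [this]
    rfl
  unfold TZ
  rw [e1, e5]
  linear_combination (W1 d r l k * cb (q ^ d) (n + K) n) * e4

lemma const_ne (H : Hyp2 d r K n l s) : cb (q ^ d) (n + K) n * PP d r 0 ^ (d - 1) ≠ 0 := by
  have hd := H.hd
  have hK := H.hK
  refine mul_ne_zero ?_ (pow_ne_zero _ (PP0_ne (by omega) 0))
  unfold cb
  rw [prod_ne_zero_iff]
  intro j hj
  have hj' := mem_range.1 hj
  refine div_ne_zero ?_ (hp1 (by omega) j)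
  have h1 : (1 : RatFunc ℚ) - (q ^ d) ^ ((j : ℤ) - ((n + K : ℕ) : ℤ)) = e ((d : ℤ) * ((j : ℤ) - ((n + K : ℕ) : ℤ))) := by
    unfold e
    rw [← zpow_natCast q d, ← zpow_mul]
  rw [h1]
  apply e_ne
  apply mul_ne_zero
  · omega
  · have : 0 < n := H.hn
    push_cast
    rcases Nat.eq_zero_or_pos K with h0 | h0
    · subst h0; push_cast; omega
    · omega

lemma sumA1 (H : Hyp2 d r K n l s) : ∑ k ∈ range (K + 1), W1 d r l k * ss d r n k = 0 := by
  have h1 := exact1 H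
  simp only [← ss_TZ H] at h1
  rw [← sum_mul] at h1
  exact (mul_eq_zero.1 h1).resolve_right (const_ne H)

lemma sumA2 (H : Hyp2 d r K n l s) : ∑ k ∈ range (K + 1), W1 d r l k * ss d r n k * (GG d r k - HS d k) = 0 := by
  have h1 := exact2 H
  simp only [← ss_TZ H] at h1
  have h2 : (∑ k ∈ range (K + 1), W1 d r l k * ss d r n k * ∑ i ∈ range r, hh ((d : ℤ) * (k + i + 1))) * (cb (q ^ d) (n + K) n * PP d r 0 ^ (d - 1)) = 0 := by
    rw [← h1, sum_mul]
    apply sum_congr rfl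
    intro k _
    ring
  have h3 := (mul_eq_zero.1 h2).resolve_right (const_ne H)
  have h4 : ∑ k ∈ range (K + 1), W1 d r l k * ss d r n k * (GG d r k - HS d k) =
      ∑ k ∈ range (K + 1), W1 d r l k * ss d r n k * ∑ i ∈ range r, hh ((d : ℤ) * (k + i + 1)) - HS d r * ∑ k ∈ range (K + 1), W1 d r l k * ss d r n k := by
    rw [mul_sum, ← sum_sub_distrib]
    apply sum_congr rfl
    intro k _
    rw [← sum_exch]
    ring
  rw [h4, h3, sumA1 H]
  ring

/-- the terms modulo `Φ` -/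
lemma ss_eqm (H : Hyp2 d r K n l s) {k : ℕ} (hk : k < n) :
    Eqm (cyclotomic n ℚ) 1 (W1 d r l k * ss d r n k) ((PP d r 0)⁻¹ ^ d * FF d r l s k) := by
  have hd := H.hd
  have hn := H.hn
  have hK := H.hK
  have e1 : (PP d r 0)⁻¹ ^ d * PP d r k ^ d = ∏ j ∈ range k, (e ((d : ℤ) * (r + 1 + j)) ^ (d - 1) * e ((d : ℤ) * (r + 1 + j)) *
    ((e ((d : ℤ) * (j + 1)))⁻¹ ^ (d - 1) * (e ((d : ℤ) * (j + 1)))⁻¹)) := by
    have h1 := prod_exch d r k
    have h2 := den_ne (show 0 < d by omega) k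
    have h3 := PP0_ne (r := r) (show 0 < d by omega) 0
    have h4 : ∏ j ∈ range k, (e ((d : ℤ) * (r + 1 + j)) ^ (d - 1) * e ((d : ℤ) * (r + 1 + j)) *
        ((e ((d : ℤ) * (j + 1)))⁻¹ ^ (d - 1) * (e ((d : ℤ) * (j + 1)))⁻¹)) =
        ((∏ j ∈ range k, e ((d : ℤ) * (r + 1 + j))) * (∏ j ∈ range k, e ((d : ℤ) * (j + 1)))⁻¹) ^ d := by
      rw [← prod_inv_distrib, ← prod_mul_distrib, ← prod_pow]
      apply prod_congr rfl
      intro j _
      rw [mul_pow, ← pow_succ, ← pow_succ, Nat.sub_add_cancel (by omega)]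
    rw [h4, ← mul_pow]
    congr 1
    field_simp
    linear_combination -h1
  have h1 : Eqm (cyclotomic n ℚ) 1 (ss d r n k) ((PP d r 0)⁻¹ ^ d * PP d r k ^ d) := by
    rw [e1]
    unfold ss
    apply Eqm.prod
    · intro j hj
      have := mem_range.1 hj
      have h2 := e_shift hn ((d : ℤ) * (r + 1 + j)) (-(d : ℤ))
      rw [show (d : ℤ) * (r + 1 + j) + -(d : ℤ) * n = (d : ℤ) * (r + 1 + j) - d * n by ring] at h2
      have hnd := nd H.hcop (a := (j : ℤ) + 1) (by omega) (by omega)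
      have h3 := Eqm.inv_of (e_shift hn ((d : ℤ) * (j + 1)) d) (e_inv hn (nd_shift hnd d)) (e_inv hn hnd) (ne_of_nd (nd_shift hnd d)) (ne_of_nd hnd)
      have m1 := (Loc (cyclotomic n ℚ)).pow_mem (e_mem hn ((d : ℤ) * (r + 1 + j))) (d - 1)
      have m2 := (Loc (cyclotomic n ℚ)).pow_mem (e_inv hn hnd) (d - 1)
      exact ((Eqm.refl _).mul h2 m1 (e_mem hn _)).mul ((Eqm.refl _).mul h3 m2 (e_inv hn hnd)) ((Loc _).mul_mem m1 (e_mem hn _))
        ((Loc _).mul_mem m2 (e_inv hn hnd))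
    · intro j hj
      have := mem_range.1 hj
      have hnd := nd H.hcop (a := (j : ℤ) + 1) (by omega) (by omega)
      exact (Loc _).mul_mem ((Loc _).mul_mem ((Loc _).pow_mem (e_mem hn _) _) (e_mem hn _))
        ((Loc _).mul_mem ((Loc _).pow_mem (e_inv hn hnd) _) (e_inv hn hnd))
  have h2 : Eqm (cyclotomic n ℚ) 1 (W1 d r l k) (W d l s k) := by
    unfold W1 W
    have h3 := e_shift hn (s + 2 * (d : ℤ) * k) 2
    have : s + 2 * (d : ℤ) * k + 2 * n = (d : ℤ) * (r + 1) + 2 * d * k := by linear_combination -H.hr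
    rw [this] at h3
    exact h3.mul (Eqm.refl _) (e_mem hn _) (zmem hn _)
  have hPi : (PP d r 0)⁻¹ ∈ Loc (cyclotomic n ℚ) := by
    unfold PP
    rw [← prod_inv_distrib]
    apply (Loc _).prod_mem
    intro i hi
    have := mem_range.1 hi
    exact e_inv hn (nd H.hcop (by push_cast; omega) (by push_cast; omega))
  have h4 := h2.mul h1 (W_mem hn k) ((Loc _).mul_mem ((Loc _).pow_mem hPi _) ((Loc _).pow_mem (PP_mem hn k) _))
  convert h4 using 1
  unfold FF
  ring

/-- the antisymmetric harmonic sums -/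
lemma YY_reflect (H : Hyp2 d r K n l s) {k : ℕ} (hk : k ≤ K) : Eqm (cyclotomic n ℚ) 1 (YY d r (K - k)) (YY d r k) := by
  have hn := H.hn
  have hK := H.hK
  have hnZ : (n : ℤ) = K + r + 1 := by exact_mod_cast hK.symm
  set A : ℕ → RatFunc ℚ := fun k => ∑ j ∈ range k, h3 ((d : ℤ) * (r + 1 + j)) with hA
  set B : ℕ → RatFunc ℚ := fun k => ∑ j ∈ range k, h3 ((d : ℤ) * (j + 1)) with hB
  have hY : ∀ k, YY d r k = A k + B k := by
    intro k
    rw [hA, hB]
    unfold YY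
    rw [sum_add_distrib]
  have keyA : ∀ k, k ≤ K → Eqm (cyclotomic n ℚ) 1 (A (K - k)) (-(B K - B k)) := by
    intro k hk
    obtain ⟨m, hm⟩ := Nat.exists_eq_add_of_le hk
    have e0 : K - k = m := by omega
    have e1 : B K - B k = ∑ j ∈ range m, h3 ((d : ℤ) * (((k + (m - 1 - j) : ℕ) : ℤ) + 1)) := by
      rw [hB]
      simp only
      rw [hm, sum_range_add, add_sub_cancel_left, ← sum_range_reflect]
    rw [e0, e1, ← sum_neg_distrib]
    rw [hA]
    apply Eqm.sum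
    intro j hj
    have hj' := mem_range.1 hj
    have h1 := h3_reflect hn (z := (d : ℤ) * (((k + (m - 1 - j) : ℕ) : ℤ) + 1)) (nd H.hcop (by omega) (by omega)) d
    convert h1 using 2
    have h4 : ((k + (m - 1 - j) : ℕ) : ℤ) = K - 1 - j := by omega
    rw [h4, hnZ]; ring
  have keyB : ∀ k, k ≤ K → Eqm (cyclotomic n ℚ) 1 (B (K - k)) (-(A K - A k)) := by
    intro k hk
    obtain ⟨m, hm⟩ := Nat.exists_eq_add_of_le hk
    have e0 : K - k = m := by omega
    have e1 : A K - A k = ∑ j ∈ range m, h3 ((d : ℤ) * (r + 1 + ((k + (m - 1 - j) : ℕ) : ℤ))) := by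
      rw [hA]
      simp only
      rw [hm, sum_range_add, add_sub_cancel_left, ← sum_range_reflect]
    rw [e0, e1, ← sum_neg_distrib]
    rw [hB]
    apply Eqm.sum
    intro j hj
    have hj' := mem_range.1 hj
    have h1 := h3_reflect hn (z := (d : ℤ) * (r + 1 + ((k + (m - 1 - j) : ℕ) : ℤ))) (nd H.hcop (by omega) (by omega)) d
    convert h1 using 2
    have h4 : ((k + (m - 1 - j) : ℕ) : ℤ) = K - 1 - j := by omega
    rw [h4, hnZ]; ring
  have h0 : Eqm (cyclotomic n ℚ) 1 (A K + B K) 0 := by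
    have h1 := keyA 0 (Nat.zero_le _)
    rw [Nat.sub_zero] at h1
    have h2 : B 0 = 0 := by rw [hB]; simp
    rw [h2, sub_zero] at h1
    unfold Eqm at *
    rwa [sub_neg_eq_add, ← sub_zero (A K + B K)] at h1
  rw [hY, hY]
  have h1 := (keyA k hk).add (keyB k hk)
  unfold Eqm at *
  rw [sub_zero] at h0
  have h2 := QO.sub h1 h0
  convert h2 using 1
  ring

/-- the third order term vanishes modulo `Φ` -/
lemma sumA3 (H : Hyp2 d r K n l s) : QO (cyclotomic n ℚ) 1 (∑ k ∈ range (K + 1), W1 d r l k * ss d r n k * YY d r k) := by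
  have hn := H.hn
  have hK := H.hK
  have hPi : (PP d r 0)⁻¹ ∈ Loc (cyclotomic n ℚ) := by
    unfold PP
    rw [← prod_inv_distrib]
    apply (Loc _).prod_mem
    intro i hi
    have := mem_range.1 hi
    exact e_inv hn (nd H.hcop (by push_cast; omega) (by push_cast; omega))
  have h1 : Eqm (cyclotomic n ℚ) 1 (∑ k ∈ range (K + 1), W1 d r l k * ss d r n k * YY d r k)
      (∑ k ∈ range (K + 1), (PP d r 0)⁻¹ ^ d * (FF d r l s k * YY d r k)) := by
    apply Eqm.sum
    intro k hk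
    have hk' := mem_range.1 hk
    have h2 := (ss_eqm H (show k < n by omega)).mul (Eqm.refl (YY d r k)) ((Loc _).mul_mem ((Loc _).pow_mem hPi _) (FF_mem hn k)) (YY_mem H (by omega))
    convert h2 using 1
    ring
  have h2 : QO (cyclotomic n ℚ) 1 (∑ k ∈ range (K + 1), FF d r l s k * YY d r k) := by
    apply half_QO
    have h3 : Eqm (cyclotomic n ℚ) 1 (∑ k ∈ range (K + 1), FF d r l s k * YY d r k) (∑ k ∈ range (K + 1), -(FF d r l s k * YY d r k)) := by
      rw [← sum_range_reflect]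
      apply Eqm.sum
      intro k hk
      have hk' := mem_range.1 hk
      rw [Nat.add_sub_cancel]
      have h4 := (FF_reflect2 H (k := k) (by omega)).mul (YY_reflect H (k := k) (by omega)) ((Loc _).neg_mem (FF_mem hn k)) (YY_mem H (by omega))
      convert h4 using 1
      ring
    rw [sum_neg_distrib] at h3
    unfold Eqm at h3
    rwa [sub_neg_eq_add] at h3
  rw [← mul_sum] at h1
  have h3 := QO.add h1 (QO.mul_left ((Loc _).pow_mem hPi d) h2)
  rwa [sub_add_cancel] at h3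

/-- the value at `δ = 1` -/
lemma at_one (H : Hyp2 d r K n l s) : QO (cyclotomic n ℚ) 4 (GS d l s n 1) := by
  have hn := H.hn
  have h1 : Eqm (cyclotomic n ℚ) 4 (GK d l s n K 1) (∑ k ∈ range (K + 1), (W1 d r l k * ss d r n k +
      om d n * (W1 d r l k * ss d r n k * (GG d r k - HS d k)) - ta d n * (W1 d r l k * ss d r n k * YY d r k))) := by
    unfold GK
    apply Eqm.sum
    intro k hk
    have hk' := mem_range.1 hk
    exact sg_eqm H (by omega)
  rw [sum_sub_distrib, sum_add_distrib, ← mul_sum, ← mul_sum, sumA1 H, sumA2 H, mul_zero, add_zero, zero_sub] at h1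
  have h2 := (QO.mul (ta_QO (d := d) hn) (sumA3 H)).neg
  have h3 := QO.add (GS_GK H 1) (QO.add h1 h2)
  convert h3 using 1
  ring

/-- **divisibility by `Φ_n^4`** -/
theorem main2 (H : Hyp2 d r K n l s) : QO (cyclotomic n ℚ) 4 (∑ k ∈ range n, W d l s k * tt d s k ^ d) := by
  have h1 := step H (at_one H)
  have h2 : GS d l s n 0 = ∑ k ∈ range n, W d l s k * tt d s k ^ d := by
    unfold GS
    apply sum_congr rfl
    intro k _
    unfold sg W tt rt
    have e1 : s + 2 * (d : ℤ) * k + 2 * 0 * n = s + 2 * (d : ℤ) * k := by ring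
    rw [e1]
    simp
  rwa [h2] at h1

end

end Pool.Agent.X14.QR
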