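import Pool.Agent.H434R2.ElevenG

set_option autoImplicit false

namespace Pool.Agent.X14

open Finset Pool.Agent.H434R2 Pool.Agent.H434R2.PO

set_option linter.unusedSectionVars false

variable {p : ℕ} [hp : Fact p.Prime]

lemma inv_succ {b : ℕ} (hb : b < p - 1) : PO p 0 (((b : ℚ) + 1)⁻¹) := by
  have : PO p 0 (((b + 1 : ℕ) : ℚ)⁻¹) := by
    apply inv_nat
    intro hd
    have := Nat.le_of_dvd (by omega) hd
    omega
  push_cast at this
  exact this

lemma inv_succ_pow {b : ℕ} (hb : b < p - 1) (m : ℕ) : PO p 0 (1 / ((b : ℚ) + 1) ^ m) := by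
  rw [one_div, ← inv_pow]
  exact (inv_succ hb).pow0 m

lemma p_PO : PO p 1 (p : ℚ) := by simpa using ppow (p := p) 1

lemma not_dvd_succ {b : ℕ} (hb : b < p - 1) : ¬ p ∣ b + 1 := by
  intro hd
  have := Nat.le_of_dvd (by omega) hd
  omega

/-- the sum of the `e`-th powers of the inverses of `1, …, p-1` -/
lemma inv_pow_sum {e : ℕ} (he : ¬ p - 1 ∣ e) :
    PO p 1 (∑ b ∈ range (p - 1), 1 / ((b : ℚ) + 1) ^ e) := by
  have hp2 := hp.out.two_le
  have h1 := power_sum (p := p) ((p - 2) * e)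
  have hnd : ¬ p - 1 ∣ (p - 2) * e := by
    intro h
    apply he
    have hc : Nat.Coprime (p - 1) (p - 2) := by
      have : p - 1 = (p - 2) + 1 := by omega
      rw [this]
      exact (Nat.coprime_self_add_left.mpr (Nat.coprime_one_left _))
    exact hc.dvd_of_dvd_mul_left h
  rw [if_neg hnd, sub_zero] at h1
  have h2 : PO p 1 (∑ b ∈ range (p - 1), 1 / ((b : ℚ) + 1) ^ e -
      ∑ b ∈ range (p - 1), ((b : ℚ) + 1) ^ ((p - 2) * e)) := by
    apply sum_sub
    intro b hb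
    have hb' := mem_range.1 hb
    have hf := fermat (p := p) (b + 1) (not_dvd_succ hb')
    push_cast at hf
    have hx : ((b : ℚ) + 1) ≠ 0 := by positivity
    have hf2 : ∀ m : ℕ, PO p 1 ((((b : ℚ) + 1) ^ (p - 1)) ^ m - 1) := by
      intro m
      induction m with
      | zero => simpa using PO.zero (p := p) 1
      | succ m ih =>
        have e1 : (((b : ℚ) + 1) ^ (p - 1)) ^ (m + 1) - 1 =
            ((((b : ℚ) + 1) ^ (p - 1)) ^ m - 1) * ((b : ℚ) + 1) ^ (p - 1) + (((b : ℚ) + 1) ^ (p - 1) - 1) := by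
          ring
        rw [e1]
        refine (ih.mul0' ?_).add hf
        have := (of_nat (p := p) (b + 1)).pow0 (p - 1)
        push_cast at this
        exact this
    have e3 : 1 / ((b : ℚ) + 1) ^ e - ((b : ℚ) + 1) ^ ((p - 2) * e) =
        -(1 / ((b : ℚ) + 1) ^ e * ((((b : ℚ) + 1) ^ (p - 1)) ^ e - 1)) := by
      have h3 : (((b : ℚ) + 1) ^ (p - 1)) ^ e = ((b : ℚ) + 1) ^ ((p - 2) * e) * ((b : ℚ) + 1) ^ e := by
        rw [← pow_mul, ← pow_add]
        congr 1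
        have : p - 1 = (p - 2) + 1 := by omega
        rw [this]; ring
      rw [h3]
      field_simp
      ring
    rw [e3]
    exact (PO.mul0 (inv_succ_pow hb' e) (hf2 e)).neg
  have e4 : ∑ b ∈ range (p - 1), 1 / ((b : ℚ) + 1) ^ e =
      (∑ b ∈ range (p - 1), 1 / ((b : ℚ) + 1) ^ e - ∑ b ∈ range (p - 1), ((b : ℚ) + 1) ^ ((p - 2) * e)) +
      ∑ b ∈ range (p - 1), ((b : ℚ) + 1) ^ ((p - 2) * e) := by ring
  rw [e4]
  exact h2.add h1

/-- `(1-y)^{-m} ≡ 1 + m y (mod y^2)` -/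
lemma one_sub_inv_pow {k : ℕ} (m : ℕ) {y : ℚ} (hk : 1 ≤ k) (hy : PO p k y) :
    PO p (2 * k) (((1 - y)⁻¹) ^ m - (1 + m * y)) := by
  have hy1 : PO p 1 y := hy.mono hk
  have hne := one_sub_ne hy1
  have hinv := inv_one_sub hy1
  have hyy : PO p (2 * k) (y * y) := by
    have := hy.mul hy
    rwa [← two_mul] at this
  have h1 : PO p (2 * k) ((1 - y)⁻¹ - (1 + y)) := by
    have e : (1 - y)⁻¹ - (1 + y) = y * y * (1 - y)⁻¹ := by
      field_simp; ring
    rw [e]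
    exact hyy.mul0' hinv
  have hy0 : PO p 0 y := hy.mono (by omega)
  induction m with
  | zero => simpa using PO.zero (p := p) (2 * k)
  | succ m ih =>
    have e : ((1 - y)⁻¹) ^ (m + 1) - (1 + ((m + 1 : ℕ) : ℚ) * y) =
        (((1 - y)⁻¹) ^ m - (1 + m * y)) * (1 - y)⁻¹ + (1 + m * y) * ((1 - y)⁻¹ - (1 + y)) + m * (y * y) := by
      push_cast; ring
    rw [e]
    refine ((ih.mul0' hinv).add (PO.mul0 ?_ h1)).add (PO.mul0 (of_nat m) hyy)
    exact PO.one.add ((of_nat m).mul0 hy0)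

/-- reflection of a sum over `1, …, p-1` -/
lemma sum_refl {M : Type*} [AddCommMonoid M] (f : ℕ → M) :
    ∑ b ∈ range (p - 1), f (p - 2 - b) = ∑ b ∈ range (p - 1), f b := by
  have := Finset.sum_range_reflect f (p - 1)
  rw [← this]
  apply sum_congr rfl
  intro b hb
  congr 1

lemma cast_refl {b : ℕ} (hb : b < p - 1) : (((p - 2 - b : ℕ) : ℚ) + 1) = (p : ℚ) - ((b : ℚ) + 1) := by
  rw [Nat.cast_sub (by omega), Nat.cast_sub (by omega)]
  push_cast; ring

/-- for odd `m`: `2 Σ 1/x^m + m p Σ 1/x^(m+1) ≡ 0 (mod p^2)` -/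
lemma inv_pow_sum_odd {m : ℕ} (hm : Odd m) :
    PO p 2 (2 * ∑ b ∈ range (p - 1), 1 / ((b : ℚ) + 1) ^ m +
      m * p * ∑ b ∈ range (p - 1), 1 / ((b : ℚ) + 1) ^ (m + 1)) := by
  have e0 : 2 * ∑ b ∈ range (p - 1), 1 / ((b : ℚ) + 1) ^ m =
      ∑ b ∈ range (p - 1), (1 / ((b : ℚ) + 1) ^ m + 1 / (((p - 2 - b : ℕ) : ℚ) + 1) ^ m) := by
    rw [sum_add_distrib, sum_refl (p := p) (fun b => 1 / ((b : ℚ) + 1) ^ m), two_mul]
  rw [e0, mul_sum, ← sum_add_distrib]
  apply PO.sum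
  intro b hb
  have hb' := mem_range.1 hb
  rw [cast_refl hb']
  have hx : ((b : ℚ) + 1) ≠ 0 := by positivity
  set x : ℚ := (b : ℚ) + 1 with hxdef
  have hy : PO p 1 ((p : ℚ) * x⁻¹) := p_PO.mul0' (inv_succ hb')
  have h := one_sub_inv_pow (p := p) m le_rfl hy
  have hne := one_sub_ne hy
  have e : 1 / x ^ m + 1 / ((p : ℚ) - x) ^ m + m * p * (1 / x ^ (m + 1)) =
      -(1 / x ^ m) * ((1 - (p : ℚ) * x⁻¹)⁻¹ ^ m - (1 + m * ((p : ℚ) * x⁻¹))) := by
    have e1 : (p : ℚ) - x = -(x * (1 - (p : ℚ) * x⁻¹)) := by field_simp; ring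
    rw [e1, hm.neg_pow, mul_pow, inv_pow]
    field_simp
    ring
  rw [e]
  exact PO.mul0 (inv_succ_pow hb' m).neg h

/-- products of factors `1 + O(p^k)` -/
lemma prod_one {ι : Type*} {k : ℕ} (s : Finset ι) (f : ι → ℚ) (h : ∀ i ∈ s, PO p k (f i - 1)) :
    PO p k (∏ i ∈ s, f i - 1) := by
  classical
  induction s using Finset.induction_on with
  | empty => simpa using PO.zero (p := p) k
  | insert a s ha ih =>
    rw [prod_insert ha]
    have h1 := h a (mem_insert_self a s)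
    have h2 := ih (fun i hi => h i (mem_insert_of_mem hi))
    have e : f a * ∏ i ∈ s, f i - 1 = (f a - 1) * (∏ i ∈ s, f i - 1) + (f a - 1) + (∏ i ∈ s, f i - 1) := by ring
    rw [e]
    exact ((PO.mul0 (h1.mono (Nat.zero_le k)) h2).add h1).add h2

/-- descend from `PO` to divisibility of integers -/
lemma dvd_of_PO {k : ℕ} {z : ℤ} (h : PO p k (z : ℚ)) : (p : ℤ) ^ k ∣ z := by
  unfold PO at h
  have := (padicNorm.dvd_iff_norm_le (p := p) (n := k) (z := z)).2 h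
  exact_mod_cast this

end Pool.Agent.X14
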