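import Pool.Agent.X14.TK1

set_option autoImplicit false

/-! Quadratic transformations for Legendre-type polynomials over commutative rings. -/

namespace Pool.Agent.X14.CM

open Finset Polynomial Pool.Agent.X14.TK

section defs

variable {S : Type*} [CommRing S]

def dn (n : ℕ) (a b : S) : S := ∑ k ∈ range (n + 1), (((n + k).choose (2 * k) : S) * (k.centralBinom : S)) * a ^ k * b ^ (n - k)
def wn (n : ℕ) (a b : S) : S := ∑ k ∈ range (n + 1), (n.choose k : S) ^ 2 * a ^ k * b ^ (n - k)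
def cn (n : ℕ) (r : S) : S := ∑ j ∈ range (n + 1), ((j.centralBinom : S) * ((n - j).centralBinom : S)) * r ^ j
def un (n : ℕ) (z : S) : S := ∑ k ∈ range (n + 1), ((n.choose k : S) * (k.centralBinom : S) * 4 ^ (n - k)) * (-z) ^ k
def qn (n : ℕ) (x y : S) : S := ∑ k ∈ range (n + 1), (((n + k).choose (2 * k) : S) * (k.centralBinom : S) ^ 2) * x ^ k * y ^ (n - k)

variable {S' : Type*} [CommRing S'] (φ : S →+* S')

lemma map_dn (n : ℕ) (a b : S) : φ (dn n a b) = dn n (φ a) (φ b) := by simp [dn, map_sum]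
lemma map_wn (n : ℕ) (a b : S) : φ (wn n a b) = wn n (φ a) (φ b) := by simp [wn, map_sum]
lemma map_cn (n : ℕ) (a : S) : φ (cn n a) = cn n (φ a) := by simp [cn, map_sum]
lemma map_un (n : ℕ) (a : S) : φ (un n a) = un n (φ a) := by simp [un, map_sum, map_ofNat]
lemma map_qn (n : ℕ) (a b : S) : φ (qn n a b) = qn n (φ a) (φ b) := by simp [qn, map_sum]

lemma choose_id (n k : ℕ) : n.choose k * (n + k).choose k = (n + k).choose (2 * k) * k.centralBinom := by
  rw [Nat.centralBinom]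
  rcases le_or_gt k n with h | h
  · have := Nat.choose_mul (n := n + k) (k := 2 * k) (s := k) (by omega)
    rw [show n + k - k = n by omega, show 2 * k - k = k by omega] at this
    rw [this]; ring
  · rw [Nat.choose_eq_zero_of_lt h, Nat.choose_eq_zero_of_lt (show n + k < 2 * k by omega)]
    simp

/-- Pfaff's transformation -/
lemma wn_eq (n : ℕ) (a b : S) : wn n a (a + b) = dn n a b := by
  have h1 : ∀ k ∈ Ico 0 (n + 1), (n.choose k : S) ^ 2 * a ^ k * (a + b) ^ (n - k) =
      ∑ m ∈ Ico k (n + 1), (n.choose k : S) ^ 2 * (((n - k).choose (m - k) : ℕ) : S) * (a ^ m * b ^ (n - m)) := by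
    intro k hk
    have hk' := (mem_Ico.1 hk).2
    rw [sum_Ico_eq_sum_range, show n + 1 - k = (n - k) + 1 by omega, add_pow, mul_sum]
    apply sum_congr rfl
    intro i hi
    have hi' := mem_range.1 hi
    rw [show k + i - k = i by omega, show n - (k + i) = n - k - i by omega, pow_add]
    ring
  rw [wn, dn, range_eq_Ico, sum_congr rfl h1, sum_Ico_Ico_comm]
  apply sum_congr rfl
  intro m hm
  have hm' := (mem_Ico.1 hm).2
  rw [← sum_mul, mul_assoc]
  congr 1
  have h2 : ∀ k ∈ Ico 0 (m + 1), n.choose k ^ 2 * (n - k).choose (m - k) = n.choose m * (n.choose k * m.choose (m - k)) := by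
    intro k hk
    have hk' := (mem_Ico.1 hk).2
    have := Nat.choose_mul (n := n) (k := m) (s := k) (by omega)
    rw [Nat.choose_symm (by omega : k ≤ m)]
    calc n.choose k ^ 2 * (n - k).choose (m - k) = n.choose k * (n.choose k * (n - k).choose (m - k)) := by ring
      _ = n.choose k * (n.choose m * m.choose k) := by rw [this]
      _ = n.choose m * (n.choose k * m.choose k) := by ring
  have h3 : ∑ k ∈ Ico 0 (m + 1), n.choose k ^ 2 * (n - k).choose (m - k) = (n + m).choose (2 * m) * m.centralBinom := by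
    rw [sum_congr rfl h2, ← mul_sum, ← choose_id, Nat.add_choose_eq n m m, Nat.sum_antidiagonal_eq_sum_range_succ_mk, range_eq_Ico]
  have h4 := congrArg (fun t : ℕ => (t : S)) h3
  push_cast at h4
  exact h4

lemma wn_symm (n : ℕ) (a b : S) : wn n a b = wn n b a := by
  rw [wn, wn, ← sum_range_reflect]
  apply sum_congr rfl
  intro k hk
  have hk' := mem_range.1 hk
  rw [show n + 1 - 1 - k = n - k by omega, Nat.choose_symm (by omega), show n - (n - k) = k by omega]
  ring

lemma wn_mul (n : ℕ) (c a b : S) : wn n (c * a) (c * b) = c ^ n * wn n a b := by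
  rw [wn, wn, mul_sum]
  apply sum_congr rfl
  intro k hk
  have hk' := mem_range.1 hk
  have : c ^ n = c ^ k * c ^ (n - k) := by rw [← pow_add]; congr 1; omega
  rw [this, mul_pow, mul_pow]; ring

lemma dn_mul (n : ℕ) (c a b : S) : dn n (c * a) (c * b) = c ^ n * dn n a b := by
  rw [dn, dn, mul_sum]
  apply sum_congr rfl
  intro k hk
  have hk' := mem_range.1 hk
  have : c ^ n = c ^ k * c ^ (n - k) := by rw [← pow_add]; congr 1; omega
  rw [this, mul_pow, mul_pow]; ring

lemma qn_mul (n : ℕ) (c a b : S) : qn n (c * a) (c * b) = c ^ n * qn n a b := by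
  rw [qn, qn, mul_sum]
  apply sum_congr rfl
  intro k hk
  have hk' := mem_range.1 hk
  have : c ^ n = c ^ k * c ^ (n - k) := by rw [← pow_add]; congr 1; omega
  rw [this, mul_pow, mul_pow]; ring

/-- parity -/
lemma dn_parity (n : ℕ) (a b : S) : dn n (-(a + b)) b = (-1) ^ n * dn n a b := by
  rw [← wn_eq, ← wn_eq, show -(a + b) + b = (-1) * a by ring, show -(a + b) = (-1) * (a + b) by ring, wn_mul, wn_symm]

end defs

/-! ### rational coefficients -/

noncomputable section

def EE (n k : ℕ) : ℚ := ((n + k).choose (2 * k) : ℚ) * (k.centralBinom : ℚ)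

lemma EE_zero (n : ℕ) : EE n 0 = 1 := by simp [EE]

lemma EE_gt {n k : ℕ} (h : n < k) : EE n k = 0 := by
  rw [EE, Nat.choose_eq_zero_of_lt (by omega)]; simp

lemma EE_a (m k : ℕ) : ((k : ℚ) + 1) ^ 2 * EE m (k + 1) = EE m k * (((m : ℚ) + k + 1) * (m - k)) := by
  have h1 := ch2 (m + k) (2 * k)
  have h2 := cb_succ k
  rw [show m + k + 1 = m + (k + 1) by ring, show 2 * k + 2 = 2 * (k + 1) by ring] at h1
  have c : (2 * (k : ℚ) + 1) ≠ 0 := by positivity
  rw [EE, EE]
  apply mul_left_cancel₀ c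
  push_cast at h1
  linear_combination (((k + 1).centralBinom : ℚ) * (k + 1) / 2) * h1 + (((m + k).choose (2 * k) : ℚ) * ((m + k + 1) * (m - k)) / 2) * h2

lemma ch3 (N m : ℕ) : ((N + 2).choose (m + 2) : ℚ) * (((m : ℚ) + 2) * (m + 1)) = (N.choose m : ℚ) * (((N : ℚ) + 2) * (N + 1)) := by
  have h1 := Nat.add_one_mul_choose_eq (N + 1) (m + 1)
  have h2 := Nat.add_one_mul_choose_eq N m
  have h1' : (((N : ℚ) + 2) * ((N + 1).choose (m + 1) : ℚ)) = ((N + 2).choose (m + 2) : ℚ) * (m + 2) := by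
    have : (((N + 1 + 1) * (N + 1).choose (m + 1) : ℕ) : ℚ) = (((N + 1 + 1).choose (m + 1 + 1) * (m + 1 + 1) : ℕ) : ℚ) := by exact_mod_cast h1
    push_cast at this
    linear_combination this
  have h2' : (((N : ℚ) + 1) * (N.choose m : ℚ)) = ((N + 1).choose (m + 1) : ℚ) * (m + 1) := by
    have : (((N + 1) * N.choose m : ℕ) : ℚ) = (((N + 1).choose (m + 1) * (m + 1) : ℕ) : ℚ) := by exact_mod_cast h2
    push_cast at this
    linear_combination this
  linear_combination (-(m : ℚ) - 1) * h1' - (N + 2) * h2'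

lemma EE_b (m k : ℕ) : ((k : ℚ) + 1) ^ 2 * EE (m + 1) (k + 1) = EE m k * (((m : ℚ) + k + 2) * (m + k + 1)) := by
  have h1 := ch3 (m + k) (2 * k)
  have h2 := cb_succ k
  rw [show m + k + 2 = m + 1 + (k + 1) by ring, show 2 * k + 2 = 2 * (k + 1) by ring] at h1
  have c : (2 * (k : ℚ) + 1) ≠ 0 := by positivity
  rw [EE, EE]
  apply mul_left_cancel₀ c
  push_cast at h1
  linear_combination (((k + 1).centralBinom : ℚ) * (k + 1) / 2) * h1 + (((m + k).choose (2 * k) : ℚ) * ((m + k + 2) * (m + k + 1)) / 2) * h2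

lemma ch4 (N m : ℕ) : (N.choose (m + 2) : ℚ) * (((m : ℚ) + 2) * (m + 1)) = (N.choose m : ℚ) * (((N : ℚ) - m) * (N - m - 1)) := by
  have key : ∀ m : ℕ, (N.choose (m + 1) : ℚ) * (m + 1) = (N.choose m : ℚ) * (N - m) := by
    intro m
    rcases le_or_gt m N with h | h
    · have := Nat.choose_succ_right_eq N m
      have h3 : ((N.choose (m + 1) * (m + 1) : ℕ) : ℚ) = ((N.choose m * (N - m) : ℕ) : ℚ) := by exact_mod_cast this
      push_cast [Nat.cast_sub h] at h3
      exact h3
    · rw [Nat.choose_eq_zero_of_lt h, Nat.choose_eq_zero_of_lt (by omega : N < m + 1)]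
      simp
  have h1 := key (m + 1)
  have h2 := key m
  push_cast at h1
  linear_combination (m + 1) * h1 + (N - m - 1) * h2

lemma EE_c (m k : ℕ) : ((k : ℚ) + 1) ^ 2 * EE m (k + 1) = EE (m + 1) k * (((m : ℚ) + 1 - k) * (m - k)) := by
  have h1 := ch4 (m + 1 + k) (2 * k)
  have h2 := cb_succ k
  rw [show m + 1 + k = m + (k + 1) by ring, show 2 * k + 2 = 2 * (k + 1) by ring] at h1
  have c : (2 * (k : ℚ) + 1) ≠ 0 := by positivity
  rw [EE, EE, show m + 1 + k = m + (k + 1) by ring]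
  apply mul_left_cancel₀ c
  push_cast at h1
  linear_combination (((k + 1).centralBinom : ℚ) * (k + 1) / 2) * h1 + (((m + (k + 1)).choose (2 * k) : ℚ) * ((m + 1 - k) * (m - k)) / 2) * h2

lemma EE_rec (n k : ℕ) : ((n : ℚ) + 2) * EE (n + 2) (k + 1) = (2 * n + 3) * (2 * EE (n + 1) k + EE (n + 1) (k + 1)) - (n + 1) * EE n (k + 1) := by
  have h1 := EE_a (n + 1) k
  have h2 := EE_b (n + 1) k
  have h3 := EE_c n k
  push_cast at h1 h2
  have c : ((k : ℚ) + 1) ^ 2 ≠ 0 := by positivity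
  apply mul_left_cancel₀ c
  rw [show n + 1 + 1 = n + 2 by ring] at h2
  linear_combination (n + 2) * h2 - (2 * n + 3) * h1 + (n + 1) * h3

variable (a b : ℚ[X])

lemma dn_sum (n N : ℕ) (h : n + 1 ≤ N) (a b : ℚ[X]) :
    dn n a b = ∑ k ∈ range N, C (EE n k) * a ^ k * b ^ (n - k) := by
  rw [dn]
  have e : ∀ k, (((n + k).choose (2 * k) : ℚ[X]) * (k.centralBinom : ℚ[X])) = C (EE n k) := by
    intro k; rw [EE]; simp
  simp only [e]
  apply sum_subset
  · intro x hx; simp only [mem_range] at *; omega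
  · intro x _ hx
    simp only [mem_range, not_lt] at hx
    rw [EE_gt (by omega)]; simp

lemma dn_rec (n : ℕ) (a b : ℚ[X]) : C ((n : ℚ) + 2) * dn (n + 2) a b =
    C (2 * (n : ℚ) + 3) * (2 * a + b) * dn (n + 1) a b - C ((n : ℚ) + 1) * b ^ 2 * dn n a b := by
  have p2 : dn (n + 2) a b = C (EE (n + 2) 0) * b ^ (n + 2) + ∑ k ∈ range (n + 2), C (EE (n + 2) (k + 1)) * (a ^ (k + 1) * b ^ (n + 1 - k)) := by
    rw [dn_sum (n + 2) (n + 3) (by omega), sum_range_succ', add_comm]
    congr 1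
    · simp
    · apply sum_congr rfl
      intro k hk
      have hk' := mem_range.1 hk
      rw [show n + 2 - (k + 1) = n + 1 - k by omega]; ring
  have p1 : b * dn (n + 1) a b = C (EE (n + 1) 0) * b ^ (n + 2) + ∑ k ∈ range (n + 2), C (EE (n + 1) (k + 1)) * (a ^ (k + 1) * b ^ (n + 1 - k)) := by
    rw [dn_sum (n + 1) (n + 3) (by omega), sum_range_succ', mul_add, mul_sum, add_comm]
    congr 1
    · simp only [pow_zero, mul_one, tsub_zero]; rw [pow_succ b (n + 1)]; ring
    · apply sum_congr rfl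
      intro k hk
      have hk' := mem_range.1 hk
      rcases Nat.lt_or_ge k (n + 1) with h | h
      · rw [show n + 1 - k = (n + 1 - (k + 1)) + 1 by omega, pow_succ b]; ring
      · rw [EE_gt (by omega)]; simp
  have p1' : a * dn (n + 1) a b = ∑ k ∈ range (n + 2), C (EE (n + 1) k) * (a ^ (k + 1) * b ^ (n + 1 - k)) := by
    rw [dn_sum (n + 1) (n + 2) (by omega), mul_sum]
    apply sum_congr rfl
    intro k _
    rw [pow_succ]; ring
  have p0 : b ^ 2 * dn n a b = C (EE n 0) * b ^ (n + 2) + ∑ k ∈ range (n + 2), C (EE n (k + 1)) * (a ^ (k + 1) * b ^ (n + 1 - k)) := by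
    rw [dn_sum n (n + 3) (by omega), sum_range_succ', mul_add, mul_sum, add_comm]
    congr 1
    · simp only [pow_zero, mul_one, tsub_zero]; rw [pow_add b n 2]; ring
    · apply sum_congr rfl
      intro k hk
      have hk' := mem_range.1 hk
      rcases Nat.lt_or_ge k n with h | h
      · rw [show n + 1 - k = (n - (k + 1)) + 2 by omega, pow_add b _ 2]; ring
      · rw [EE_gt (by omega)]; simp
  have e : C (2 * (n : ℚ) + 3) * (2 * a + b) * dn (n + 1) a b - C ((n : ℚ) + 1) * b ^ 2 * dn n a b =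
      C (2 * (n : ℚ) + 3) * (2 * (a * dn (n + 1) a b) + b * dn (n + 1) a b) - C ((n : ℚ) + 1) * (b ^ 2 * dn n a b) := by ring
  rw [e, p2, p1, p1', p0, EE_zero, EE_zero, EE_zero]
  have key : ∀ k : ℕ, C ((n : ℚ) + 2) * (C (EE (n + 2) (k + 1)) * (a ^ (k + 1) * b ^ (n + 1 - k))) =
      C (2 * (n : ℚ) + 3) * (2 * (C (EE (n + 1) k) * (a ^ (k + 1) * b ^ (n + 1 - k))) + C (EE (n + 1) (k + 1)) * (a ^ (k + 1) * b ^ (n + 1 - k))) -
      C ((n : ℚ) + 1) * (C (EE n (k + 1)) * (a ^ (k + 1) * b ^ (n + 1 - k))) := by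
    intro k
    have h := congrArg (C : ℚ → ℚ[X]) (EE_rec n k)
    simp only [map_mul, map_add, map_sub] at h
    have c2 : (C (2 : ℚ) : ℚ[X]) = 2 := rfl
    have c3 : (C (3 : ℚ) : ℚ[X]) = 3 := rfl
    have c1 : (C (1 : ℚ) : ℚ[X]) = 1 := rfl
    rw [c1, c2, c3] at h
    simp only [map_mul, map_add]
    rw [c1, c2, c3]
    linear_combination (a ^ (k + 1) * b ^ (n + 1 - k)) * h
  have hs := Finset.sum_congr (rfl : range (n + 2) = range (n + 2)) (fun k (_ : k ∈ range (n + 2)) => key k)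
  simp only [sum_sub_distrib, sum_add_distrib, ← mul_sum] at hs
  have hc : (C ((n : ℚ) + 2) : ℚ[X]) = C (2 * (n : ℚ) + 3) - C ((n : ℚ) + 1) := by
    rw [← map_sub]; congr 1; ring
  clear key p2 p1 p1' p0 e
  generalize C ((n : ℚ) + 2) = u2 at *
  generalize C (2 * (n : ℚ) + 3) = u3 at *
  generalize C ((n : ℚ) + 1) = u1 at *
  have c1 : (C (1 : ℚ) : ℚ[X]) = 1 := rfl
  rw [c1]
  linear_combination hs + hc * b ^ (n + 2)

/-- coefficients of `cn` -/
def ff (n j : ℕ) : ℚ := if j ≤ n then (j.centralBinom : ℚ) * ((n - j).centralBinom : ℚ) else 0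

lemma ff_rec (n j : ℕ) : ((n : ℚ) + 2) * ff (n + 2) (j + 1) = (4 * n + 6) * (ff (n + 1) (j + 1) + ff (n + 1) j) - 16 * (n + 1) * ff n j := by
  rcases lt_trichotomy j (n + 1) with h | h | h
  · obtain ⟨i, rfl⟩ : ∃ i, n = j + i := ⟨n - j, by omega⟩
    have f1 : ff (j + i + 2) (j + 1) = ((j + 1).centralBinom : ℚ) * ((i + 1).centralBinom : ℚ) := by
      rw [ff, if_pos (by omega), show j + i + 2 - (j + 1) = i + 1 by omega]
    have f2 : ff (j + i + 1) (j + 1) = ((j + 1).centralBinom : ℚ) * (i.centralBinom : ℚ) := by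
      rw [ff, if_pos (by omega), show j + i + 1 - (j + 1) = i by omega]
    have f3 : ff (j + i + 1) j = (j.centralBinom : ℚ) * ((i + 1).centralBinom : ℚ) := by
      rw [ff, if_pos (by omega), show j + i + 1 - j = i + 1 by omega]
    have f4 : ff (j + i) j = (j.centralBinom : ℚ) * (i.centralBinom : ℚ) := by
      rw [ff, if_pos (by omega), show j + i - j = i by omega]
    rw [f1, f2, f3, f4]
    have h1 := cb_succ j
    have h2 := cb_succ i
    have c1 : ((j : ℚ) + 1) ≠ 0 := by positivity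
    have c2 : ((i : ℚ) + 1) ≠ 0 := by positivity
    have h1' : ((j + 1).centralBinom : ℚ) = 2 * (2 * j + 1) * (j.centralBinom : ℚ) / (j + 1) := by
      rw [eq_div_iff c1]; linear_combination h1
    have h2' : ((i + 1).centralBinom : ℚ) = 2 * (2 * i + 1) * (i.centralBinom : ℚ) / (i + 1) := by
      rw [eq_div_iff c2]; linear_combination h2
    rw [h1', h2']
    push_cast
    field_simp
    ring
  · subst h
    have f1 : ff (n + 2) (n + 1 + 1) = ((n + 2).centralBinom : ℚ) := by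
      rw [ff, if_pos (by omega), show n + 2 - (n + 1 + 1) = 0 by omega]; simp
    have f2 : ff (n + 1) (n + 1 + 1) = 0 := by rw [ff, if_neg (by omega)]
    have f3 : ff (n + 1) (n + 1) = ((n + 1).centralBinom : ℚ) := by
      rw [ff, if_pos (by omega), show n + 1 - (n + 1) = 0 by omega]; simp
    have f4 : ff n (n + 1) = 0 := by rw [ff, if_neg (by omega)]
    rw [f1, f2, f3, f4]
    have h1 := cb_succ (n + 1)
    push_cast at h1
    rw [show n + 1 + 1 = n + 2 by ring] at h1
    linear_combination h1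
  · have f1 : ff (n + 2) (j + 1) = 0 := by rw [ff, if_neg (by omega)]
    have f2 : ff (n + 1) (j + 1) = 0 := by rw [ff, if_neg (by omega)]
    have f3 : ff (n + 1) j = 0 := by rw [ff, if_neg (by omega)]
    have f4 : ff n j = 0 := by rw [ff, if_neg (by omega)]
    rw [f1, f2, f3, f4]; ring

lemma ff_rec0 (n : ℕ) : ((n : ℚ) + 2) * ff (n + 2) 0 = (4 * n + 6) * ff (n + 1) 0 := by
  have f1 : ff (n + 2) 0 = ((n + 2).centralBinom : ℚ) := by
    rw [ff, if_pos (by omega)]; simp
  have f3 : ff (n + 1) 0 = ((n + 1).centralBinom : ℚ) := by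
    rw [ff, if_pos (by omega)]; simp
  rw [f1, f3]
  have h1 := cb_succ (n + 1)
  push_cast at h1
  rw [show n + 1 + 1 = n + 2 by ring] at h1
  linear_combination h1

lemma cn_sum (n N : ℕ) (h : n + 1 ≤ N) (r : ℚ[X]) : cn n r = ∑ j ∈ range N, C (ff n j) * r ^ j := by
  have e : cn n r = ∑ j ∈ range (n + 1), C (ff n j) * r ^ j := by
    rw [cn]
    apply sum_congr rfl
    intro j hj
    have := mem_range.1 hj
    rw [ff, if_pos (by omega)]; simp
  rw [e]
  apply sum_subset
  · intro x hx; simp only [mem_range] at *; omega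
  · intro x _ hx
    simp only [mem_range, not_lt] at hx
    rw [ff, if_neg (by omega)]; simp

lemma cn_rec (n : ℕ) (r : ℚ[X]) : C ((n : ℚ) + 2) * cn (n + 2) r =
    C (4 * (n : ℚ) + 6) * (1 + r) * cn (n + 1) r - C (16 * ((n : ℚ) + 1)) * r * cn n r := by
  have p2 : cn (n + 2) r = C (ff (n + 2) 0) + ∑ j ∈ range (n + 2), C (ff (n + 2) (j + 1)) * r ^ (j + 1) := by
    rw [cn_sum (n + 2) (n + 3) (by omega), sum_range_succ', add_comm]; simp
  have p1 : cn (n + 1) r = C (ff (n + 1) 0) + ∑ j ∈ range (n + 2), C (ff (n + 1) (j + 1)) * r ^ (j + 1) := by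
    rw [cn_sum (n + 1) (n + 3) (by omega), sum_range_succ', add_comm]; simp
  have p1' : r * cn (n + 1) r = ∑ j ∈ range (n + 2), C (ff (n + 1) j) * r ^ (j + 1) := by
    rw [cn_sum (n + 1) (n + 2) (by omega), mul_sum]
    apply sum_congr rfl
    intro j _; rw [pow_succ]; ring
  have p0 : r * cn n r = ∑ j ∈ range (n + 2), C (ff n j) * r ^ (j + 1) := by
    rw [cn_sum n (n + 2) (by omega), mul_sum]
    apply sum_congr rfl
    intro j _; rw [pow_succ]; ring
  have e : C (4 * (n : ℚ) + 6) * (1 + r) * cn (n + 1) r - C (16 * ((n : ℚ) + 1)) * r * cn n r =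
      C (4 * (n : ℚ) + 6) * (cn (n + 1) r + r * cn (n + 1) r) - C (16 * ((n : ℚ) + 1)) * (r * cn n r) := by ring
  rw [e, p1', p0, p1, p2]
  have key : ∀ j : ℕ, C ((n : ℚ) + 2) * (C (ff (n + 2) (j + 1)) * r ^ (j + 1)) =
      C (4 * (n : ℚ) + 6) * (C (ff (n + 1) (j + 1)) * r ^ (j + 1) + C (ff (n + 1) j) * r ^ (j + 1)) -
      C (16 * ((n : ℚ) + 1)) * (C (ff n j) * r ^ (j + 1)) := by
    intro j
    have h := congrArg (C : ℚ → ℚ[X]) (ff_rec n j)
    rw [map_mul, map_sub, map_mul, map_add C (ff (n + 1) (j + 1)), map_mul] at h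
    linear_combination (r ^ (j + 1)) * h
  have hs := Finset.sum_congr (rfl : range (n + 2) = range (n + 2)) (fun k (_ : k ∈ range (n + 2)) => key k)
  simp only [sum_sub_distrib, sum_add_distrib, ← mul_sum] at hs
  have h0 := congrArg (C : ℚ → ℚ[X]) (ff_rec0 n)
  rw [map_mul, map_mul] at h0
  linear_combination hs + h0

/-- Landen's transformation, polynomial form -/
lemma landen_poly (n : ℕ) : cn n ((X : ℚ[X]) ^ 2) = dn n ((X - 1) ^ 2) (4 * X) := by
  have key : ∀ n, cn n ((X : ℚ[X]) ^ 2) = dn n ((X - 1) ^ 2) (4 * X) ∧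
      cn (n + 1) ((X : ℚ[X]) ^ 2) = dn (n + 1) ((X - 1) ^ 2) (4 * X) := by
    intro n
    induction n with
    | zero =>
      constructor
      · simp [cn, dn]
      · have h1 : Nat.centralBinom 1 = 2 := rfl
        simp [cn, dn, sum_range_succ, h1]; ring
    | succ n ih =>
      refine ⟨ih.2, ?_⟩
      have h1 := cn_rec n ((X : ℚ[X]) ^ 2)
      have h2 := dn_rec n ((X - 1 : ℚ[X]) ^ 2) (4 * X)
      rw [ih.1, ih.2] at h1
      have hne : (C ((n : ℚ) + 2) : ℚ[X]) ≠ 0 := by
        rw [Ne, C_eq_zero]; positivity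
      rw [show n + 1 + 1 = n + 2 by ring]
      apply mul_left_cancel₀ hne
      rw [h1, h2]
      have e1 : (C (4 * (n : ℚ) + 6) : ℚ[X]) = 2 * C (2 * (n : ℚ) + 3) := by
        have c2 : (C (2 : ℚ) : ℚ[X]) = 2 := rfl
        rw [← c2, ← map_mul]; congr 1; ring
      have e2 : (C (16 * ((n : ℚ) + 1)) : ℚ[X]) = 16 * C ((n : ℚ) + 1) := by
        have c2 : (C (16 : ℚ) : ℚ[X]) = 16 := rfl
        rw [← c2, ← map_mul]
      rw [e1, e2]
      ring
  exact (key n).1

end

end Pool.Agent.X14.CM
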