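import Pool.Agent.X14.CM1

set_option autoImplicit false

/-! The polynomial form of the quadratic transformation `1 - z`. -/

namespace Pool.Agent.X14.CM

open Finset Polynomial Pool.Agent.X14.TK

noncomputable section

def hh (n k : ℕ) : ℚ := (n.choose k : ℚ) * (k.centralBinom : ℚ)

lemma hh_zero (n : ℕ) : hh n 0 = 1 := by simp [hh]

lemma hh_gt {n k : ℕ} (h : n < k) : hh n k = 0 := by
  rw [hh, Nat.choose_eq_zero_of_lt h]; simp

lemma choose_r (N m : ℕ) : (N.choose (m + 1) : ℚ) * (m + 1) = (N.choose m : ℚ) * (N - m) := by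
  rcases le_or_gt m N with h | h
  · have := Nat.choose_succ_right_eq N m
    have h3 : ((N.choose (m + 1) * (m + 1) : ℕ) : ℚ) = ((N.choose m * (N - m) : ℕ) : ℚ) := by exact_mod_cast this
    push_cast [Nat.cast_sub h] at h3
    exact h3
  · rw [Nat.choose_eq_zero_of_lt h, Nat.choose_eq_zero_of_lt (by omega : N < m + 1)]
    simp

lemma hh_a (n k : ℕ) : ((k : ℚ) + 1) ^ 2 * hh n (k + 1) = 2 * (2 * k + 1) * (n - k) * hh n k := by
  have h1 := choose_r n k
  have h2 := cb_succ k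
  rw [hh, hh]
  linear_combination ((k : ℚ) + 1) * ((k + 1).centralBinom : ℚ) * h1 + (n.choose k : ℚ) * (n - k) * h2

lemma hh_b (n k : ℕ) : ((n : ℚ) + 1) * hh n k = (n + 1 - k) * hh (n + 1) k := by
  rw [hh, hh]
  have h1 := choose_r (n + 1) k
  have h2 := Nat.add_one_mul_choose_eq n k
  have h2' : (((n : ℚ) + 1) * (n.choose k : ℚ)) = ((n + 1).choose (k + 1) : ℚ) * (k + 1) := by
    have : (((n + 1) * n.choose k : ℕ) : ℚ) = (((n + 1).choose (k + 1) * (k + 1) : ℕ) : ℚ) := by exact_mod_cast h2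
    push_cast at this
    linear_combination this
  push_cast at h1
  linear_combination (k.centralBinom : ℚ) * (h1 + h2')

lemma hh_c (n k : ℕ) : ((k : ℚ) + 1) ^ 2 * hh (n + 1) (k + 1) = 2 * (2 * k + 1) * (n + 1) * hh n k := by
  have h1 := hh_a (n + 1) k
  have h2 := hh_b n k
  push_cast at h1
  linear_combination h1 - 2 * (2 * k + 1) * h2

lemma hh_rec (n k : ℕ) : ((n : ℚ) + 2) * hh (n + 2) (k + 1) =
    (2 * n + 3) * (hh (n + 1) (k + 1) + 2 * hh (n + 1) k) - (n + 1) * (hh n (k + 1) + 4 * hh n k) := by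
  have c : ((k : ℚ) + 1) ^ 2 ≠ 0 := by positivity
  apply mul_left_cancel₀ c
  have h1 := hh_c (n + 1) k
  have h2 := hh_a (n + 1) k
  have h3 := hh_a n k
  have h4 := hh_b n k
  push_cast at h1 h2
  rw [show n + 1 + 1 = n + 2 by ring] at h1
  linear_combination ((n : ℚ) + 2) * h1 - (2 * n + 3) * h2 + (n + 1) * h3 + (2 * (2 * k + 1) * (n - k) + 4 * (k + 1) ^ 2) * h4

lemma hh_rec0 (n : ℕ) : ((n : ℚ) + 2) * hh (n + 2) 0 = (2 * n + 3) * hh (n + 1) 0 - (n + 1) * hh n 0 := by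
  rw [hh_zero, hh_zero, hh_zero]; ring

/-- `U n w = Σ C(n,k) M_k w^k` -/
def U (n : ℕ) (w : ℚ[X]) : ℚ[X] := ∑ k ∈ range (n + 1), C (hh n k) * w ^ k

lemma U_sum (n N : ℕ) (h : n + 1 ≤ N) (w : ℚ[X]) : U n w = ∑ k ∈ range N, C (hh n k) * w ^ k := by
  rw [U]
  apply sum_subset
  · intro x hx; simp only [mem_range] at *; omega
  · intro x _ hx
    simp only [mem_range, not_lt] at hx
    rw [hh_gt (by omega)]; simp

lemma U_rec (n : ℕ) (w : ℚ[X]) : C ((n : ℚ) + 2) * U (n + 2) w =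
    C (2 * (n : ℚ) + 3) * (1 + 2 * w) * U (n + 1) w - C ((n : ℚ) + 1) * (1 + 4 * w) * U n w := by
  have p2 : U (n + 2) w = C (hh (n + 2) 0) + ∑ j ∈ range (n + 2), C (hh (n + 2) (j + 1)) * w ^ (j + 1) := by
    rw [U_sum (n + 2) (n + 3) (by omega), sum_range_succ', add_comm]; simp
  have p1 : U (n + 1) w = C (hh (n + 1) 0) + ∑ j ∈ range (n + 2), C (hh (n + 1) (j + 1)) * w ^ (j + 1) := by
    rw [U_sum (n + 1) (n + 3) (by omega), sum_range_succ', add_comm]; simp
  have p1' : w * U (n + 1) w = ∑ j ∈ range (n + 2), C (hh (n + 1) j) * w ^ (j + 1) := by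
    rw [U_sum (n + 1) (n + 2) (by omega), mul_sum]
    apply sum_congr rfl
    intro j _; rw [pow_succ]; ring
  have p0 : U n w = C (hh n 0) + ∑ j ∈ range (n + 2), C (hh n (j + 1)) * w ^ (j + 1) := by
    rw [U_sum n (n + 3) (by omega), sum_range_succ', add_comm]; simp
  have p0' : w * U n w = ∑ j ∈ range (n + 2), C (hh n j) * w ^ (j + 1) := by
    rw [U_sum n (n + 2) (by omega), mul_sum]
    apply sum_congr rfl
    intro j _; rw [pow_succ]; ring
  have e : C (2 * (n : ℚ) + 3) * (1 + 2 * w) * U (n + 1) w - C ((n : ℚ) + 1) * (1 + 4 * w) * U n w =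
      C (2 * (n : ℚ) + 3) * (U (n + 1) w + 2 * (w * U (n + 1) w)) - C ((n : ℚ) + 1) * (U n w + 4 * (w * U n w)) := by ring
  rw [e, p1', p0', p1, p2, p0]
  have c2 : (C (2 : ℚ) : ℚ[X]) = 2 := rfl
  have c4 : (C (4 : ℚ) : ℚ[X]) = 4 := rfl
  have key : ∀ j : ℕ, C ((n : ℚ) + 2) * (C (hh (n + 2) (j + 1)) * w ^ (j + 1)) =
      C (2 * (n : ℚ) + 3) * (C (hh (n + 1) (j + 1)) * w ^ (j + 1) + 2 * (C (hh (n + 1) j) * w ^ (j + 1))) -
      C ((n : ℚ) + 1) * (C (hh n (j + 1)) * w ^ (j + 1) + 4 * (C (hh n j) * w ^ (j + 1))) := by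
    intro j
    have h := congrArg (C : ℚ → ℚ[X]) (hh_rec n j)
    rw [map_mul, map_sub, map_mul, map_mul, map_add C (hh (n + 1) (j + 1)), map_add C (hh n (j + 1)), map_mul C (2 : ℚ) (hh _ _), map_mul C (4 : ℚ) (hh _ _), c2, c4] at h
    linear_combination (w ^ (j + 1)) * h
  have hs := Finset.sum_congr (rfl : range (n + 2) = range (n + 2)) (fun k (_ : k ∈ range (n + 2)) => key k)
  simp only [sum_sub_distrib, sum_add_distrib, ← mul_sum] at hs
  have h0 := congrArg (C : ℚ → ℚ[X]) (hh_rec0 n)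
  rw [map_mul, map_sub, map_mul, map_mul] at h0
  linear_combination hs + h0

lemma un_U (n : ℕ) (z : ℚ[X]) : un n z = C (4 ^ n) * U n (C (-1/4) * z) := by
  rw [un, U, mul_sum]
  apply sum_congr rfl
  intro k hk
  have hk' := mem_range.1 hk
  rw [hh]
  have e : (4 : ℚ) ^ n = 4 ^ (n - k) * 4 ^ k := by rw [← pow_add]; congr 1; omega
  have e2 : (4 : ℚ) ^ k * (-1/4) ^ k = (-1) ^ k := by rw [← mul_pow]; congr 1; norm_num
  have e3 : (C (4 : ℚ) : ℚ[X]) = 4 := rfl
  rw [e, map_mul, mul_pow, ← C_pow, neg_pow z]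
  have e4 : C ((4 : ℚ) ^ k) * C ((-1/4 : ℚ) ^ k) = (C ((-1) ^ k) : ℚ[X]) := by rw [← map_mul, e2]
  have e5 : (C ((-1 : ℚ) ^ k) : ℚ[X]) = (-1) ^ k := by simp
  have e6 : (C ((4 : ℚ) ^ (n - k)) : ℚ[X]) = 4 ^ (n - k) := by rw [C_pow, e3]
  rw [e5] at e4
  rw [← e4, ← e6]
  simp only [map_mul, map_natCast]
  ring

/-- the transformation `z ↦ 1 - z` -/
lemma un_poly (n : ℕ) : un n (1 - (X : ℚ[X])) = cn n X := by
  have key : ∀ n, un n (1 - (X : ℚ[X])) = cn n X ∧ un (n + 1) (1 - (X : ℚ[X])) = cn (n + 1) X := by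
    intro n
    induction n with
    | zero =>
      constructor
      · simp [un, cn]
      · have h1 : Nat.centralBinom 1 = 2 := rfl
        simp [un, cn, sum_range_succ, h1]; ring
    | succ n ih =>
      refine ⟨ih.2, ?_⟩
      have h1 := cn_rec n (X : ℚ[X])
      have h2 := U_rec n (C (-1/4) * (1 - X))
      have hne : (C ((n : ℚ) + 2) : ℚ[X]) ≠ 0 := by
        rw [Ne, C_eq_zero]; positivity
      rw [show n + 1 + 1 = n + 2 by ring]
      apply mul_left_cancel₀ hne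
      rw [h1, ← ih.1, ← ih.2, un_U, un_U, un_U]
      have e1 : (C (4 * (n : ℚ) + 6) : ℚ[X]) = 2 * C (2 * (n : ℚ) + 3) := by
        have c2 : (C (2 : ℚ) : ℚ[X]) = 2 := rfl
        rw [← c2, ← map_mul]; congr 1; ring
      have e2 : (C (16 * ((n : ℚ) + 1)) : ℚ[X]) = 16 * C ((n : ℚ) + 1) := by
        have c2 : (C (16 : ℚ) : ℚ[X]) = 16 := rfl
        rw [← c2, ← map_mul]
      have e3 : (4 : ℚ[X]) * C (-1/4) = -1 := by
        have c2 : (C (4 : ℚ) : ℚ[X]) = 4 := rfl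
        rw [← c2, ← map_mul]; norm_num
      have e4 : (C ((4 : ℚ) ^ (n + 1)) : ℚ[X]) = 4 * C (4 ^ n) := by
        have c2 : (C (4 : ℚ) : ℚ[X]) = 4 := rfl
        rw [← c2, ← map_mul, pow_succ, mul_comm]
      have e5 : (C ((4 : ℚ) ^ (n + 2)) : ℚ[X]) = 16 * C (4 ^ n) := by
        have c2 : (C (16 : ℚ) : ℚ[X]) = 16 := rfl
        rw [← c2, ← map_mul, pow_add, mul_comm]; norm_num
      rw [e1, e2, e4, e5]
      linear_combination 16 * C (4 ^ n) * h2 + (8 * C (2 * (n : ℚ) + 3) * C (4 ^ n) * (1 - X) * U (n + 1) (C (-1/4) * (1 - X)) - 16 * C (4 ^ n) * C ((n : ℚ) + 1) * (1 - X) * U n (C (-1/4) * (1 - X))) * e3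
  exact (key n).1

end

/-! ### transfer to arbitrary commutative rings -/

section transfer

variable {S : Type*} [CommRing S]

lemma castQ_inj : Function.Injective (Polynomial.mapRingHom (Int.castRingHom ℚ)) :=
  Polynomial.map_injective (Int.castRingHom ℚ) (RingHom.injective_int (Int.castRingHom ℚ))

/-- the transformation `z ↦ 1 - z` -/
lemma un_eq (n : ℕ) (r : S) : un n (1 - r) = cn n r := by
  have h : un n (1 - (X : ℤ[X])) = cn n X := by
    apply castQ_inj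
    rw [map_un, map_cn, map_sub, map_one]
    simpa using un_poly n
  have h2 := congrArg (Polynomial.eval₂RingHom (Int.castRingHom S) r) h
  rw [map_un, map_cn, map_sub, map_one] at h2
  simpa using h2

/-- Landen's transformation -/
lemma landen (n : ℕ) (r : S) : cn n (r ^ 2) = dn n ((r - 1) ^ 2) (4 * r) := by
  have h : cn n ((X : ℤ[X]) ^ 2) = dn n ((X - 1) ^ 2) (4 * X) := by
    apply castQ_inj
    rw [map_dn, map_cn, map_pow, map_pow, map_sub, map_one, map_mul, map_ofNat]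
    simpa using landen_poly n
  have h2 := congrArg (Polynomial.eval₂RingHom (Int.castRingHom S) r) h
  rw [map_dn, map_cn, map_pow, map_pow, map_sub, map_one, map_mul, map_ofNat] at h2
  simpa using h2

end transfer

end Pool.Agent.X14.CM
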