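import Pool.Agent.X14.CM2

set_option autoImplicit false

/-! Clausen's identity in polynomial form. -/

namespace Pool.Agent.X14.CM

open Finset Polynomial Pool.Agent.X14.TK

noncomputable section

/-- the polynomial `P = X + X^2` -/
def PP : ℚ[X] := X + X ^ 2

lemma coeff_XD (F : ℚ[X]) (k : ℕ) : (X * derivative F).coeff k = k * F.coeff k := by
  rcases k with _ | k
  · simp
  · rw [coeff_X_mul, coeff_derivative]; push_cast; ring

lemma coeff_PD_zero (F : ℚ[X]) : (PP * derivative F).coeff 0 = 0 := by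
  have e : PP * derivative F = X * ((1 + X) * derivative F) := by rw [PP]; ring
  rw [e]; simp

lemma coeff_PD (F : ℚ[X]) (k : ℕ) : (PP * derivative F).coeff (k + 1) = (k + 1) * F.coeff (k + 1) + k * F.coeff k := by
  have e : PP * derivative F = X * derivative F + X * (X * derivative F) := by rw [PP]; ring
  rw [e, coeff_add, coeff_XD, coeff_X_mul, coeff_XD]; push_cast; ring

lemma coeff_PD_low (F : ℚ[X]) (k : ℕ) (h : ∀ j ≤ k, F.coeff j = 0) : ∀ j ≤ k, (PP * derivative F).coeff j = 0 := by
  intro j hj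
  rcases j with _ | j
  · exact coeff_PD_zero F
  · rw [coeff_PD, h (j + 1) hj, h j (by omega)]; ring

/-- uniqueness for the symmetric square equation -/
lemma ode_unique (lam : ℚ) (g : ℚ[X]) (h0 : g.coeff 0 = 0)
    (h : derivative (PP * derivative (PP * derivative g)) = C (4 * lam) * (PP * derivative g) + C (2 * lam) * ((1 + 2 * X) * g)) : g = 0 := by
  have key : ∀ k, ∀ j ≤ k, g.coeff j = 0 := by
    intro k
    induction k with
    | zero => intro j hj; rw [Nat.le_zero.1 hj]; exact h0
    | succ k ih =>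
      intro j hj
      rcases Nat.lt_or_ge j (k + 1) with hj' | hj'
      · exact ih j (by omega)
      · have hjk : j = k + 1 := by omega
        subst hjk
        have h1 := coeff_PD_low g k ih
        have h3 := congrArg (fun F : ℚ[X] => F.coeff k) h
        simp only [coeff_derivative, coeff_add, coeff_C_mul] at h3
        rw [coeff_PD, coeff_PD, h1 k le_rfl, ih k le_rfl] at h3
        have h4 : ((1 + 2 * X) * g).coeff k = 0 := by
          have e : (1 + 2 * X) * g = g + C 2 * (X * g) := by
            have c2 : (C (2 : ℚ) : ℚ[X]) = 2 := rfl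
            rw [c2]; ring
          rw [e, coeff_add, coeff_C_mul, ih k le_rfl]
          rcases k with _ | k
          · simp
          · rw [coeff_X_mul, ih k (by omega)]; ring
        rw [h4] at h3
        have c1 : ((k : ℚ) + 1) ^ 3 ≠ 0 := by positivity
        have h5 : ((k : ℚ) + 1) ^ 3 * g.coeff (k + 1) = 0 := by linear_combination h3
        exact (mul_eq_zero.1 h5).resolve_left c1
  ext k
  rw [key k k le_rfl, coeff_zero]

/-- polynomials with the Legendre recursion -/
def dX (n : ℕ) : ℚ[X] := ∑ k ∈ range (n + 1), C (EE n k) * X ^ k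

lemma dX_coeff (n k : ℕ) : (dX n).coeff k = EE n k := by
  rw [dX, finsetSum_coeff]
  simp only [coeff_C_mul, coeff_X_pow]
  rcases Nat.lt_or_ge k (n + 1) with h | h
  · rw [sum_eq_single k]
    · simp
    · intro b _ hb; rw [if_neg (Ne.symm hb), mul_zero]
    · intro hk; exact absurd (mem_range.2 h) hk
  · rw [EE_gt (by omega)]
    apply sum_eq_zero
    intro b hb
    have := mem_range.1 hb
    rw [if_neg (by omega), mul_zero]

lemma dX_eq (n : ℕ) : dn n (X : ℚ[X]) 1 = dX n := by
  rw [dn_sum n (n + 1) le_rfl, dX]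
  apply sum_congr rfl
  intro k _; simp

/-- coefficients of the third order solution -/
def GG (n k : ℕ) : ℚ := ((n + k).choose (2 * k) : ℚ) * (k.centralBinom : ℚ) ^ 2

lemma GG_gt {n k : ℕ} (h : n < k) : GG n k = 0 := by
  rw [GG, Nat.choose_eq_zero_of_lt (by omega)]; simp

def gX (n : ℕ) : ℚ[X] := ∑ k ∈ range (n + 1), C (GG n k) * X ^ k

lemma gX_coeff (n k : ℕ) : (gX n).coeff k = GG n k := by
  rw [gX, finsetSum_coeff]
  simp only [coeff_C_mul, coeff_X_pow]
  rcases Nat.lt_or_ge k (n + 1) with h | h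
  · rw [sum_eq_single k]
    · simp
    · intro b _ hb; rw [if_neg (Ne.symm hb), mul_zero]
    · intro hk; exact absurd (mem_range.2 h) hk
  · rw [GG_gt (by omega)]
    apply sum_eq_zero
    intro b hb
    have := mem_range.1 hb
    rw [if_neg (by omega), mul_zero]

lemma GG_rec (n k : ℕ) : ((k : ℚ) + 1) ^ 3 * GG n (k + 1) = 2 * (2 * k + 1) * (((n : ℚ) * (n + 1)) - k * (k + 1)) * GG n k := by
  have h1 := EE_a n k
  have h2 := cb_succ k
  rw [EE, EE] at h1
  rw [GG, GG]
  linear_combination ((k : ℚ) + 1) * ((k + 1).centralBinom : ℚ) * h1 + ((n + k).choose (2 * k) : ℚ) * (k.centralBinom : ℚ) * (((n : ℚ) + k + 1) * (n - k)) * h2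

lemma dX_ode (n : ℕ) : derivative (PP * derivative (dX n)) = C ((n : ℚ) * (n + 1)) * dX n := by
  ext k
  rw [coeff_derivative, coeff_PD, coeff_C_mul, dX_coeff, dX_coeff]
  have := EE_a n k
  linear_combination this

lemma gX_ode (n : ℕ) : derivative ((1 + C 4 * X) * (X * derivative (X * derivative (gX n))) + C 2 * X * (X * derivative (gX n))) =
    C (4 * ((n : ℚ) * (n + 1))) * (X * derivative (gX n)) + C (2 * ((n : ℚ) * (n + 1))) * gX n := by
  ext k
  have e : (1 + C 4 * X) * (X * derivative (X * derivative (gX n))) + C 2 * X * (X * derivative (gX n)) =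
    X * derivative (X * derivative (gX n)) + C 4 * (X * (X * derivative (X * derivative (gX n)))) + C 2 * (X * (X * derivative (gX n))) := by ring
  rw [e, coeff_derivative]
  simp only [coeff_add, coeff_C_mul, coeff_XD]
  simp only [coeff_X_mul]
  simp only [coeff_XD, gX_coeff]
  have := GG_rec n k
  push_cast
  linear_combination this

lemma sq_ode (lam : ℚ) (f : ℚ[X]) (h : derivative (PP * derivative f) = C lam * f) :
    derivative (PP * derivative (PP * derivative (f ^ 2))) = C (4 * lam) * (PP * derivative (f ^ 2)) + C (2 * lam) * ((1 + 2 * X) * f ^ 2) := by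
  have hP : derivative PP = 1 + 2 * X := by
    rw [PP]; simp; norm_num
  have c4 : (C (4 * lam) : ℚ[X]) = 4 * C lam := by
    have c2 : (C (4 : ℚ) : ℚ[X]) = 4 := rfl
    rw [← c2, ← map_mul]
  have c2 : (C (2 * lam) : ℚ[X]) = 2 * C lam := by
    have c2 : (C (2 : ℚ) : ℚ[X]) = 2 := rfl
    rw [← c2, ← map_mul]
  set u := PP * derivative f with hu
  have e1 : PP * derivative (f ^ 2) = 2 * f * u := by
    rw [pow_two, derivative_mul, hu]; ring
  have e2 : PP * derivative (PP * derivative (f ^ 2)) = 2 * u ^ 2 + 2 * (PP * (C lam * f ^ 2)) := by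
    have h2 : derivative (2 : ℚ[X]) = 0 := derivative_ofNat 2
    rw [e1, derivative_mul, derivative_mul, h, h2, hu]; ring
  rw [e2]
  have h2 : derivative (2 : ℚ[X]) = 0 := derivative_ofNat 2
  have e3 : derivative (2 * u ^ 2 + 2 * (PP * (C lam * f ^ 2))) = 4 * u * (C lam * f) + 2 * ((1 + 2 * X) * (C lam * f ^ 2)) + 2 * C lam * (PP * derivative (f ^ 2)) := by
    rw [derivative_add, derivative_mul, derivative_mul, h2, derivative_mul, hP, pow_two u, derivative_mul, h, derivative_mul, derivative_C]; ring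
  rw [e3, e1, c4, c2]; ring

lemma comp_ode (lam : ℚ) (q : ℚ[X])
    (h : derivative ((1 + C 4 * X) * (X * derivative (X * derivative q)) + C 2 * X * (X * derivative q)) =
      C (4 * lam) * (X * derivative q) + C (2 * lam) * q) :
    derivative (PP * derivative (PP * derivative (q.comp PP))) = C (4 * lam) * (PP * derivative (q.comp PP)) + C (2 * lam) * ((1 + 2 * X) * q.comp PP) := by
  have hP : derivative PP = 1 + 2 * X := by
    rw [PP]; simp; norm_num
  have h2 : derivative (1 + 2 * X : ℚ[X]) = 2 := by simp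
  have e1 : PP * derivative (q.comp PP) = (X * derivative q).comp PP * (1 + 2 * X) := by
    rw [derivative_comp, hP, mul_comp, X_comp]; ring
  have e2 : PP * derivative (PP * derivative (q.comp PP)) =
      ((1 + C 4 * X) * (X * derivative (X * derivative q)) + C 2 * X * (X * derivative q)).comp PP := by
    rw [e1, derivative_mul, derivative_comp, hP, h2]
    simp only [mul_comp, add_comp, one_comp, C_comp, X_comp]
    have c4 : (C (4 : ℚ) : ℚ[X]) = 4 := rfl
    have c2 : (C (2 : ℚ) : ℚ[X]) = 2 := rfl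
    have e : (1 + 2 * X : ℚ[X]) * (1 + 2 * X) = 1 + 4 * PP := by rw [PP]; ring
    rw [c4, c2]
    linear_combination (PP * (derivative (X * derivative q)).comp PP) * e
  rw [e2, derivative_comp, h, hP, e1]
  simp only [mul_comp, add_comp, C_comp, X_comp]
  ring

/-- Clausen's identity for the Legendre polynomials -/
lemma clausen_poly (n : ℕ) : (dn n (X : ℚ[X]) 1) ^ 2 = qn n (X * (X + 1)) 1 := by
  have hq : qn n (X * (X + 1) : ℚ[X]) 1 = (gX n).comp PP := by
    rw [qn, gX, Polynomial.sum_comp]
    apply sum_congr rfl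
    intro k _
    rw [GG, PP]
    rw [show (X * (X + 1) : ℚ[X]) = X + X ^ 2 by ring, mul_comp, C_comp, pow_comp, X_comp]
    simp
  rw [dX_eq, hq]
  have h1 := sq_ode _ _ (dX_ode n)
  have h2 := comp_ode _ _ (gX_ode n)
  have h3 : (dX n) ^ 2 - (gX n).comp PP = 0 := by
    apply ode_unique ((n : ℚ) * (n + 1))
    · rw [coeff_sub, coeff_zero_eq_eval_zero, coeff_zero_eq_eval_zero, eval_pow, eval_comp]
      have e1 : PP.eval 0 = 0 := by rw [PP]; simp
      rw [e1, ← coeff_zero_eq_eval_zero, ← coeff_zero_eq_eval_zero, dX_coeff, gX_coeff, EE, GG]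
      simp
    · rw [derivative_sub, mul_sub, derivative_sub, mul_sub, derivative_sub, h1, h2]; ring
  exact sub_eq_zero.1 h3

end

section transfer

variable {S : Type*} [CommRing S]

/-- Clausen's identity -/
lemma dn_sq (n : ℕ) (r : S) : (dn n r 1) ^ 2 = qn n (r * (r + 1)) 1 := by
  have h : (dn n (X : ℤ[X]) 1) ^ 2 = qn n (X * (X + 1)) 1 := by
    apply castQ_inj
    rw [map_pow, map_dn, map_qn, map_mul, map_add, map_one]
    simpa using clausen_poly n
  have h2 := congrArg (Polynomial.eval₂RingHom (Int.castRingHom S) r) h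
  rw [map_pow, map_dn, map_qn, map_mul, map_add, map_one] at h2
  simpa using h2

lemma dn_sq_hom (n : ℕ) (a b : ℚ) (hb : b ≠ 0) : (dn n a b) ^ 2 = qn n (a * (a + b)) (b ^ 2) := by
  have e1 : dn n a b = b ^ n * dn n (a / b) 1 := by
    rw [← dn_mul]; congr 1
    · field_simp
    · ring
  have e2 : qn n (a * (a + b)) (b ^ 2) = (b ^ 2) ^ n * qn n ((a / b) * (a / b + 1)) 1 := by
    rw [← qn_mul]; congr 1
    · field_simp
    · ring
  rw [e1, e2, ← dn_sq]; ring

lemma cn_sq_poly (n : ℕ) : (cn n (X : ℚ[X])) ^ 2 = qn n ((X - 1) ^ 2) (16 * X) := by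
  have key : ∀ r : ℚ, eval (r) ((cn n (X : ℚ[X])) ^ 2) = (cn n r) ^ 2 := by
    intro r
    have := map_cn (Polynomial.evalRingHom r) n X
    simp only [coe_evalRingHom, eval_X] at this
    rw [eval_pow, this]
  have key2 : ∀ r : ℚ, eval r (qn n ((X - 1 : ℚ[X]) ^ 2) (16 * X)) = qn n ((r - 1) ^ 2) (16 * r) := by
    intro r
    have := map_qn (Polynomial.evalRingHom r) n ((X - 1 : ℚ[X]) ^ 2) (16 * X)
    simp only [coe_evalRingHom, eval_X, eval_pow, eval_sub, eval_one, eval_mul, eval_ofNat] at this
    exact this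
  apply Polynomial.eq_of_infinite_eval_eq
  apply Set.infinite_of_injective_forall_mem (f := fun m : ℕ => (((m : ℚ) + 1) ^ 2))
  · intro a b hab
    have h1 : ((a : ℚ) + 1) ^ 2 = ((b : ℚ) + 1) ^ 2 := hab
    have h2 : ((a : ℚ) - b) * ((a : ℚ) + b + 2) = 0 := by linear_combination h1
    have h4 : ((a : ℚ) + b + 2) ≠ 0 := by positivity
    have h3 : (a : ℚ) = b := by
      have := (mul_eq_zero.1 h2).resolve_right h4
      linarith
    exact_mod_cast h3
  · intro m
    show eval _ _ = eval _ _
    rw [key, key2, landen, dn_sq_hom n _ _ (by positivity)]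
    congr 1 <;> ring

/-- Clausen's identity after Landen's transformation -/
lemma cn_sq (n : ℕ) (r : S) : (cn n r) ^ 2 = qn n ((r - 1) ^ 2) (16 * r) := by
  have h : (cn n (X : ℤ[X])) ^ 2 = qn n ((X - 1) ^ 2) (16 * X) := by
    apply castQ_inj
    rw [map_pow, map_cn, map_qn, map_pow, map_sub, map_one, map_mul, map_ofNat]
    simpa using cn_sq_poly n
  have h2 := congrArg (Polynomial.eval₂RingHom (Int.castRingHom S) r) h
  rw [map_pow, map_cn, map_qn, map_pow, map_sub, map_one, map_mul, map_ofNat] at h2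
  simpa using h2

end transfer

end Pool.Agent.X14.CM
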