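import Pool.Agent.X14.CM3

set_option autoImplicit false

/-! The relations at the point with `x + y = 1`, `x y = 2`, over a ring in which `P ^ 2 = 0`. -/

namespace Pool.Agent.X14.CM

open Finset

section rel

variable {S : Type*} [CommRing S]

/-- the data coming from `p = 2 n + 1` -/
structure Dat (S : Type*) [CommRing S] where
  n : ℕ
  P : S
  P2 : P ^ 2 = 0
  hF : ∀ k ≤ n, (4 : S) ^ k * ((n.choose k : S) * (-1) ^ k + ((n + k).choose k : S)) = 2 * (k.centralBinom : S)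
  hF1 : ∀ k ≤ n, P * ((4 : S) ^ k * ((n.choose k : S) * (-1) ^ k)) = P * (k.centralBinom : S)
  hF2 : ∀ k ≤ n, P * ((4 : S) ^ k * ((n + k).choose k : S)) = P * (k.centralBinom : S)
  hA : ∀ k ≤ n, (k.centralBinom : S) = (-16) ^ k * ((n + k).choose (2 * k) : S)
  ann : ∀ z : S, P * z = 0 → ∃ w, z = P * w

variable (D : Dat S)

lemma two_un (z : S) : 2 * un D.n z = 4 ^ D.n * (wn D.n z 1 + dn D.n (-z) 1) := by
  rw [un, wn, dn, mul_sum, ← sum_add_distrib, mul_sum]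
  apply sum_congr rfl
  intro k hk
  have hk' := mem_range.1 hk
  have h1 := D.hF k (by omega)
  have e : (4 : S) ^ D.n = 4 ^ (D.n - k) * 4 ^ k := by rw [← pow_add]; congr 1; omega
  have h2 : ((D.n.choose k * (D.n + k).choose k : ℕ) : S) = (((D.n + k).choose (2 * k) * k.centralBinom : ℕ) : S) := by
    rw [choose_id]
  push_cast at h2
  have h3 : (-1 : S) ^ k * (-1) ^ k = 1 := by rw [← mul_pow]; simp
  rw [e, neg_pow z]
  simp only [one_pow]
  linear_combination (-((D.n.choose k : S) * 4 ^ (D.n - k) * (-1) ^ k * z ^ k)) * h1 + (4 ^ (D.n - k) * 4 ^ k * (-1) ^ k * z ^ k) * h2 +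
    (4 ^ (D.n - k) * 4 ^ k * (D.n.choose k : S) ^ 2 * z ^ k) * h3

lemma P_un1 (z : S) : D.P * un D.n z = D.P * (4 ^ D.n * wn D.n z 1) := by
  rw [un, wn, mul_sum, mul_sum, mul_sum]
  apply sum_congr rfl
  intro k hk
  have hk' := mem_range.1 hk
  have h1 := D.hF1 k (by omega)
  have e : (4 : S) ^ D.n = 4 ^ (D.n - k) * 4 ^ k := by rw [← pow_add]; congr 1; omega
  have h3 : (-1 : S) ^ k * (-1) ^ k = 1 := by rw [← mul_pow]; simp
  rw [e, neg_pow z, one_pow]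
  linear_combination (-((D.n.choose k : S) * 4 ^ (D.n - k) * (-1) ^ k * z ^ k)) * h1 +
    (D.P * (4 ^ (D.n - k) * 4 ^ k * (D.n.choose k : S) ^ 2 * z ^ k)) * h3

lemma P_un2 (z : S) : D.P * un D.n z = D.P * (4 ^ D.n * dn D.n (-z) 1) := by
  rw [un, dn, mul_sum, mul_sum, mul_sum]
  apply sum_congr rfl
  intro k hk
  have hk' := mem_range.1 hk
  have h1 := D.hF2 k (by omega)
  have e : (4 : S) ^ D.n = 4 ^ (D.n - k) * 4 ^ k := by rw [← pow_add]; congr 1; omega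
  have h2 : ((D.n.choose k * (D.n + k).choose k : ℕ) : S) = (((D.n + k).choose (2 * k) * k.centralBinom : ℕ) : S) := by
    rw [choose_id]
  push_cast at h2
  rw [e, neg_pow z, one_pow]
  linear_combination (-((D.n.choose k : S) * 4 ^ (D.n - k) * (-1) ^ k * z ^ k)) * h1 + (D.P * (4 ^ (D.n - k) * 4 ^ k * (-1) ^ k * z ^ k)) * h2

variable (x y h s : S)

lemma sq_of (hxy : x + y = 1) (hm : x * y = 2) : x ^ 2 = x - 2 := by
  linear_combination x * hxy - hm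

lemma four_of (hxy : x + y = 1) (hm : x * y = 2) : x ^ 4 + y ^ 4 = 1 := by
  have e : x ^ 4 + y ^ 4 = ((x + y) ^ 2 - 2 * (x * y)) ^ 2 - 2 * (x * y) ^ 2 := by ring
  rw [e, hxy, hm]; norm_num

lemma cube_of (hxy : x + y = 1) (hm : x * y = 2) : y ^ 2 - 1 = x ^ 3 := by
  have h1 := sq_of x y hxy hm
  have h2 := sq_of y x (by rw [add_comm]; exact hxy) (by rw [mul_comm]; exact hm)
  linear_combination h2 - (x + 1) * h1 + hxy

/-- the degree two relation -/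
lemma un_x (n : ℕ) (hxy : x + y = 1) (hm : x * y = 2) : un n (x ^ 4) = (x ^ 2) ^ n * wn n (x ^ 4) 1 := by
  have h4 := four_of x y hxy hm
  have h3 := cube_of x y hxy hm
  have e1 : x ^ 4 = 1 - (y ^ 2) ^ 2 := by linear_combination h4
  have e2 : un n (x ^ 4) = cn n ((y ^ 2) ^ 2) := by rw [e1, un_eq]
  rw [e2, landen, h3]
  have e3 : (x ^ 3) ^ 2 = x ^ 2 * x ^ 4 := by ring
  have e4 : 4 * y ^ 2 = x ^ 2 * y ^ 4 := by
    linear_combination (-(y ^ 2) * (x * y + 2)) * hm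
  rw [e3, e4, dn_mul, ← wn_eq, h4]

lemma V_sq (n : ℕ) (hxy : x + y = 1) (hm : x * y = 2) : (dn n (-x ^ 4) 1) ^ 2 = qn n (-16) 1 := by
  have h4 := four_of x y hxy hm
  rw [dn_sq]
  congr 1
  have e1 : -x ^ 4 + 1 = y ^ 4 := by linear_combination -h4
  have e2 : (x * y) ^ 4 = 16 := by rw [hm]; norm_num
  rw [e1]; linear_combination -e2

lemma V_swap (n : ℕ) (hxy : x + y = 1) (hm : x * y = 2) : dn n (-y ^ 4) 1 = (-1) ^ n * dn n (-x ^ 4) 1 := by
  have h4 := four_of x y hxy hm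
  rw [← dn_parity]
  congr 1
  linear_combination -h4

variable {x y h s}

/-- `2 W = y^(2n) (W + V)` -/
lemma rel1 (hxy : x + y = 1) (hm : x * y = 2) (hh : 2 * h = 1) :
    2 * wn D.n (x ^ 4) 1 = (y ^ 2) ^ D.n * (wn D.n (x ^ 4) 1 + dn D.n (-x ^ 4) 1) := by
  have h1 := two_un D (x ^ 4)
  rw [un_x x y D.n hxy hm] at h1
  have e4 : (4 : S) ^ D.n = (x ^ 2) ^ D.n * (y ^ 2) ^ D.n := by
    rw [← mul_pow]; congr 1; linear_combination (-(x * y) - 2) * hm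
  rw [e4] at h1
  have hu : ((y * h) ^ 2) ^ D.n * (x ^ 2) ^ D.n = 1 := by
    rw [← mul_pow]
    have : (y * h) ^ 2 * x ^ 2 = 1 := by
      have e : y * h * x = 1 := by linear_combination h * hm + hh
      linear_combination (y * h * x + 1) * e
    rw [this, one_pow]
  linear_combination ((y * h) ^ 2) ^ D.n * h1 + ((y ^ 2) ^ D.n * (wn D.n (x ^ 4) 1 + dn D.n (-x ^ 4) 1) - 2 * wn D.n (x ^ 4) 1) * hu

lemma inv_fact (hm : x * y = 2) (hh : 2 * h = 1) : (y * h) * x = 1 := by linear_combination h * hm + hh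

/-- the square of the transformed value -/
lemma rel2 (hxy : x + y = 1) (hm : x * y = 2) (hh : 2 * h = 1) :
    4 * ((-1) ^ D.n * 16 ^ D.n * qn D.n (-h ^ 8) 1) = (wn D.n (x ^ 4) 1 + (-1) ^ D.n * wn D.n (y ^ 4) 1) ^ 2 := by
  have hxi : (y * h) * x = 1 := inv_fact hm hh
  have hyi : (x * h) * y = 1 := inv_fact (x := y) (y := x) (by rw [mul_comm]; exact hm) hh
  set xi := y * h with hxidef
  set yi := x * h with hyidef
  have h4 := four_of x y hxy hm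
  have h16 : x ^ 4 * y ^ 4 = 16 := by
    have e2 : (x * y) ^ 4 = 16 := by rw [hm]; norm_num
    linear_combination e2
  have hxi4 : xi ^ 4 * x ^ 4 = 1 := by rw [← mul_pow, hxi, one_pow]
  have hyi4 : yi ^ 4 * y ^ 4 = 1 := by rw [← mul_pow, hyi, one_pow]
  have hxyh : xi * yi = h := by
    rw [hxidef, hyidef]; linear_combination (h ^ 2) * hm + h * hh
  have hh8 : xi ^ 8 * yi ^ 8 = h ^ 8 := by rw [← mul_pow, hxyh]
  -- left side
  have a1 : (un D.n (xi ^ 4)) ^ 2 = (-y ^ 8) ^ D.n * qn D.n (-h ^ 8) 1 := by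
    have e1 : un D.n (xi ^ 4) = cn D.n (1 - xi ^ 4) := by
      rw [← un_eq]; congr 1; ring
    rw [e1, cn_sq, ← qn_mul]
    congr 1
    · rw [hxidef]; ring
    · linear_combination (-(1 - xi ^ 4)) * h16 - y ^ 4 * hxi4 + y ^ 4 * h4
  have a2 : wn D.n (xi ^ 4) 1 = (xi ^ 4) ^ D.n * wn D.n (x ^ 4) 1 := by
    rw [wn_symm D.n (x ^ 4) 1, ← wn_mul, mul_one, hxi4]
  have a3 : dn D.n (-xi ^ 4) 1 = (xi ^ 4) ^ D.n * ((-1) ^ D.n * wn D.n (y ^ 4) 1) := by
    have e1 : dn D.n (-xi ^ 4) 1 = dn D.n (xi ^ 4 * (-1)) (xi ^ 4 * x ^ 4) := by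
      rw [hxi4]; congr 1; ring
    have e2 : dn D.n (-1 : S) (x ^ 4) = (-1) ^ D.n * wn D.n (y ^ 4) 1 := by
      rw [← wn_eq, wn_symm D.n (y ^ 4) 1, ← wn_mul]
      congr 1
      · ring
      · linear_combination h4
    rw [e1, dn_mul, e2]
  have a4 := two_un D (xi ^ 4)
  rw [a2, a3] at a4
  have e4 : (4 : S) ^ D.n = (x ^ 2) ^ D.n * (y ^ 2) ^ D.n := by
    rw [← mul_pow]; congr 1; linear_combination (-(x * y) - 2) * hm
  have e16 : (16 : S) ^ D.n = (x ^ 2) ^ D.n * (x ^ 2) ^ D.n * ((y ^ 2) ^ D.n * (y ^ 2) ^ D.n) := by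
    have t : (16 : S) = (x ^ 2 * x ^ 2) * (y ^ 2 * y ^ 2) := by linear_combination -h16
    rw [t, mul_pow, mul_pow, mul_pow]
  have ex : (xi ^ 4) ^ D.n * ((x ^ 2) ^ D.n * (x ^ 2) ^ D.n) = 1 := by
    rw [← mul_pow, ← mul_pow]
    have : xi ^ 4 * (x ^ 2 * x ^ 2) = 1 := by linear_combination hxi4
    rw [this, one_pow]
  have ey : (yi ^ 4) ^ D.n * ((y ^ 2) ^ D.n * (y ^ 2) ^ D.n) = 1 := by
    rw [← mul_pow, ← mul_pow]
    have : yi ^ 4 * (y ^ 2 * y ^ 2) = 1 := by linear_combination hyi4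
    rw [this, one_pow]
  have em : (-y ^ 8 : S) ^ D.n = (-1) ^ D.n * (((y ^ 2) ^ D.n * (y ^ 2) ^ D.n) * ((y ^ 2) ^ D.n * (y ^ 2) ^ D.n)) := by
    rw [← mul_pow, ← mul_pow, ← mul_pow]; congr 1; ring
  rw [em] at a1
  rw [e4] at a4
  rw [e16]
  generalize (x ^ 2) ^ D.n = X at *
  generalize (y ^ 2) ^ D.n = Y at *
  generalize (xi ^ 4) ^ D.n = Xi at *
  generalize (yi ^ 4) ^ D.n = Yi at *
  generalize ((-1 : S)) ^ D.n = E at *
  generalize qn D.n (-h ^ 8) 1 = Q at *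
  generalize wn D.n (x ^ 4) 1 = W at *
  generalize wn D.n (y ^ 4) 1 = W' at *
  generalize un D.n (xi ^ 4) = u at *
  -- a1 : u^2 = E*(Y*Y*(Y*Y)) * Q,  a4 : 2 u = X*Y*(Xi*W + Xi*(E*W'))
  have b1 : 4 * (E * (Y * Y * (Y * Y)) * Q) = (X * Y * (Xi * W + Xi * (E * W'))) ^ 2 := by
    rw [← a4, ← a1]; ring
  have b2 : X * X * Yi * (4 * (E * (Y * Y * (Y * Y)) * Q)) = X * X * Yi * (X * Y * (Xi * W + Xi * (E * W'))) ^ 2 := by rw [b1]
  have b3 : X * X * Yi * (4 * (E * (Y * Y * (Y * Y)) * Q)) = 4 * (E * (X * X * (Y * Y)) * Q) * (Yi * (Y * Y)) := by ring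
  have b4 : X * X * Yi * (X * Y * (Xi * W + Xi * (E * W'))) ^ 2 = (W + E * W') ^ 2 * (Xi * (X * X)) * (Xi * (X * X)) * (Yi * (Y * Y)) := by ring
  rw [b3, b4, ex, ey] at b2
  linear_combination b2

/-- the third value -/
lemma rel3 (n : ℕ) (hxy : x + y = 1) (hm : x * y = 2) (hh : 2 * h = 1) :
    qn n ((y * h) ^ 8 * y ^ 4) 1 = (((y * h) ^ 4) ^ n * wn n (y ^ 4) 1) ^ 2 := by
  have hxi : (y * h) * x = 1 := inv_fact hm hh
  set xi := y * h with hxidef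
  have h4 := four_of x y hxy hm
  have hxi4 : xi ^ 4 * x ^ 4 = 1 := by rw [← mul_pow, hxi, one_pow]
  have a3 : dn n (-xi ^ 4) 1 = (xi ^ 4) ^ n * ((-1) ^ n * wn n (y ^ 4) 1) := by
    have e1 : dn n (-xi ^ 4) 1 = dn n (xi ^ 4 * (-1)) (xi ^ 4 * x ^ 4) := by
      rw [hxi4]; congr 1; ring
    have e2 : dn n (-1 : S) (x ^ 4) = (-1) ^ n * wn n (y ^ 4) 1 := by
      rw [← wn_eq, wn_symm n (y ^ 4) 1, ← wn_mul]
      congr 1
      · ring
      · linear_combination h4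
    rw [e1, dn_mul, e2]
  have h1 := dn_sq n (-xi ^ 4)
  have e5 : -xi ^ 4 * (-xi ^ 4 + 1) = xi ^ 8 * y ^ 4 := by
    linear_combination (xi ^ 4) * hxi4 - (xi ^ 8) * h4
  rw [e5, a3] at h1
  rw [← h1]
  have h3 : (-1 : S) ^ n * (-1) ^ n = 1 := by rw [← mul_pow]; simp
  linear_combination ((xi ^ 4) ^ n) ^ 2 * (wn n (y ^ 4) 1) ^ 2 * h3

/-- case one: `x^(2n)` and `y^(2n)` are `1` plus a multiple of `P` -/
lemma case1 (hxy : x + y = 1) (hm : x * y = 2) (hh : 2 * h = 1)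
    (hx : ∃ u, (x ^ 2) ^ D.n = 1 + D.P * u) (hy : ∃ u, (y ^ 2) ^ D.n = 1 + D.P * u) :
    (-1) ^ D.n * qn D.n (-h ^ 8) 1 = qn D.n (-16) 1 ∧
    qn D.n ((y * h) ^ 8 * y ^ 4) 1 = qn D.n ((x * h) ^ 8 * x ^ 4) 1 := by
  have hyx : y + x = 1 := by rw [add_comm]; exact hxy
  have hm' : y * x = 2 := by rw [mul_comm]; exact hm
  have r1 := rel1 D hxy hm hh
  have r1' := rel1 D hyx hm' hh
  rw [V_swap x y D.n hxy hm] at r1'
  have r2 := rel2 D hxy hm hh
  have r3 := rel3 D.n hxy hm hh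
  have r3' := rel3 D.n hyx hm' hh
  have v2 := V_sq x y D.n hxy hm
  have hE : (-1 : S) ^ D.n * (-1) ^ D.n = 1 := by rw [← mul_pow]; simp
  have hxi : (y * h) * x = 1 := inv_fact hm hh
  have hyi : (x * h) * y = 1 := inv_fact hm' hh
  have ex : ((y * h) ^ 4) ^ D.n * ((x ^ 2) ^ D.n * (x ^ 2) ^ D.n) = 1 := by
    rw [← mul_pow, ← mul_pow]
    have : (y * h) ^ 4 * (x ^ 2 * x ^ 2) = 1 := by
      have := congrArg (fun t => t ^ 4) hxi
      simp only [one_pow] at this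
      linear_combination this
    rw [this, one_pow]
  have ey : ((x * h) ^ 4) ^ D.n * ((y ^ 2) ^ D.n * (y ^ 2) ^ D.n) = 1 := by
    rw [← mul_pow, ← mul_pow]
    have : (x * h) ^ 4 * (y ^ 2 * y ^ 2) = 1 := by
      have := congrArg (fun t => t ^ 4) hyi
      simp only [one_pow] at this
      linear_combination this
    rw [this, one_pow]
  have e16 : (16 : S) ^ D.n = (x ^ 2) ^ D.n * (x ^ 2) ^ D.n * ((y ^ 2) ^ D.n * (y ^ 2) ^ D.n) := by
    have e2 : (x * y) ^ 4 = 16 := by rw [hm]; norm_num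
    have t : (16 : S) = (x ^ 2 * x ^ 2) * (y ^ 2 * y ^ 2) := by linear_combination -e2
    rw [t, mul_pow, mul_pow, mul_pow]
  obtain ⟨u', hu'⟩ := hx
  obtain ⟨u, hu⟩ := hy
  have hP := D.P2
  have h16u : (h ^ 4) ^ D.n * 16 ^ D.n = 1 := by
    rw [← mul_pow]
    have : h ^ 4 * 16 = 1 := by
      have := congrArg (fun t => t ^ 4) hh
      simp only [one_pow] at this
      linear_combination this
    rw [this, one_pow]
  rw [e16] at r2 h16u
  generalize (h ^ 4) ^ D.n = H at *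
  generalize (x ^ 2) ^ D.n = a' at *
  generalize (y ^ 2) ^ D.n = a at *
  generalize ((y * h) ^ 4) ^ D.n = xi at *
  generalize ((x * h) ^ 4) ^ D.n = yi at *
  generalize ((-1 : S)) ^ D.n = E at *
  generalize qn D.n (-h ^ 8) 1 = Q at *
  generalize qn D.n (-16 : S) 1 = A at *
  generalize qn D.n ((y * h) ^ 8 * y ^ 4) 1 = B at *
  generalize qn D.n ((x * h) ^ 8 * x ^ 4) 1 = B' at *
  generalize dn D.n (-x ^ 4) 1 = V at *
  generalize wn D.n (x ^ 4) 1 = W at *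
  generalize wn D.n (y ^ 4) 1 = W' at *
  have ha : a * (2 - a) = 1 := by rw [hu]; linear_combination (-u ^ 2) * hP
  have ha' : a' * (2 - a') = 1 := by rw [hu']; linear_combination (-u' ^ 2) * hP
  have w1 : W = a ^ 2 * V := by linear_combination a * r1 - W * ha
  have w2 : W' = a' ^ 2 * (E * V) := by linear_combination a' * r1' - W' * ha'
  have hd : (a ^ 2 - a' ^ 2) ^ 2 = 0 := by
    rw [hu, hu']
    linear_combination ((2 * u + D.P * u ^ 2 - 2 * u' - D.P * u' ^ 2) ^ 2) * hP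
  constructor
  · have r2' : 4 * (E * (a' * a' * (a * a)) * Q) = 4 * ((a' * a' * (a * a)) * A) := by
      rw [r2, w1, w2, ← v2]
      linear_combination (a' ^ 2 * V * (2 * a ^ 2 * V + a' ^ 2 * V * (E * E + 1))) * hE + V ^ 2 * hd
    have h4 : 4 * h ^ 2 = 1 := by linear_combination (2 * h + 1) * hh
    have : (h ^ 2 * H) * (4 * (E * (a' * a' * (a * a)) * Q)) = (h ^ 2 * H) * (4 * ((a' * a' * (a * a)) * A)) := by rw [r2']
    have c1 : (h ^ 2 * H) * (4 * (E * (a' * a' * (a * a)) * Q)) = (4 * h ^ 2) * (H * (a' * a' * (a * a))) * (E * Q) := by ring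
    have c2 : (h ^ 2 * H) * (4 * ((a' * a' * (a * a)) * A)) = (4 * h ^ 2) * (H * (a' * a' * (a * a))) * A := by ring
    rw [c1, c2, h4, h16u] at this
    linear_combination this
  · rw [r3, r3', w1, w2]
    have c1 : (xi * (a' ^ 2 * (E * V))) ^ 2 = (xi * (a' * a')) ^ 2 * (E * E) * V ^ 2 := by ring
    have c2 : (yi * (a ^ 2 * V)) ^ 2 = (yi * (a * a)) ^ 2 * V ^ 2 := by ring
    rw [c1, c2, ex, ey, hE]; ring

lemma case2_aux (hxy : x + y = 1) (hm : x * y = 2) (hh : 2 * h = 1) (hs : 7 * s = 1)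
    (hy : ∃ u, y * (y ^ 2) ^ D.n = x + D.P * u) :
    D.P * wn D.n (x ^ 4) 1 = 0 ∧ D.P * dn D.n (-x ^ 4) 1 = 0 := by
  have hm' : y * x = 2 := by rw [mul_comm]; exact hm
  have q1 := P_un1 D (x ^ 4)
  have q2 := P_un2 D (x ^ 4)
  rw [un_x x y D.n hxy hm] at q1 q2
  have e4 : (4 : S) ^ D.n = (x ^ 2) ^ D.n * (y ^ 2) ^ D.n := by
    rw [← mul_pow]; congr 1; linear_combination (-(x * y) - 2) * hm
  rw [e4] at q1 q2
  have hxi : (y * h) * x = 1 := inv_fact hm hh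
  have hyi : (x * h) * y = 1 := inv_fact hm' hh
  have ex : ((y * h) ^ 2) ^ D.n * ((x ^ 2) ^ D.n) = 1 := by
    rw [← mul_pow]
    have : (y * h) ^ 2 * (x ^ 2) = 1 := by rw [← mul_pow, hxi, one_pow]
    rw [this, one_pow]
  have ey : ((x * h) ^ 2) ^ D.n * ((y ^ 2) ^ D.n) = 1 := by
    rw [← mul_pow]
    have : (x * h) ^ 2 * (y ^ 2) = 1 := by rw [← mul_pow, hyi, one_pow]
    rw [this, one_pow]
  obtain ⟨u, hu⟩ := hy
  have hP := D.P2
  generalize (x ^ 2) ^ D.n = a' at *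
  generalize (y ^ 2) ^ D.n = a at *
  generalize ((y * h) ^ 2) ^ D.n = xi at *
  generalize ((x * h) ^ 2) ^ D.n = yi at *
  generalize dn D.n (-x ^ 4) 1 = V at *
  generalize wn D.n (x ^ 4) 1 = W at *
  -- q1 : P * (a' * W) = P * (a' * a * W)
  have s1 : D.P * W = D.P * (a * W) := by
    linear_combination xi * q1 + (D.P * (a * W) - D.P * W) * ex
  have s2 : D.P * W = D.P * (a * V) := by
    linear_combination xi * q2 + (D.P * (a * V) - D.P * W) * ex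
  have s3 : D.P * ((y - x) * W) = 0 := by
    linear_combination y * s1 + D.P * W * hu + (W * u) * hP
  have s4 : D.P * W = 0 := by
    have d : (y - x) ^ 2 = -7 := by linear_combination (x + y + 1) * hxy - 4 * hm
    linear_combination (-(s * (y - x))) * s3 + s * D.P * W * d - D.P * W * hs
  refine ⟨s4, ?_⟩
  linear_combination (-yi) * s2 + yi * s4 - D.P * V * ey

/-- case two: `x^p ≡ y` and `y^p ≡ x` -/
lemma case2 (hxy : x + y = 1) (hm : x * y = 2) (hh : 2 * h = 1) (hs : 7 * s = 1)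
    (hy : ∃ u, y * (y ^ 2) ^ D.n = x + D.P * u) (hx : ∃ u, x * (x ^ 2) ^ D.n = y + D.P * u) :
    (-1) ^ D.n * qn D.n (-h ^ 8) 1 = qn D.n (-16) 1 ∧
    qn D.n ((y * h) ^ 8 * y ^ 4) 1 = qn D.n ((x * h) ^ 8 * x ^ 4) 1 := by
  have hyx : y + x = 1 := by rw [add_comm]; exact hxy
  have hm' : y * x = 2 := by rw [mul_comm]; exact hm
  obtain ⟨z1, z2⟩ := case2_aux D hxy hm hh hs hy
  obtain ⟨z3, _⟩ := case2_aux D hyx hm' hh hs hx
  obtain ⟨w, hw⟩ := D.ann _ z1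
  obtain ⟨v, hv⟩ := D.ann _ z2
  obtain ⟨w', hw'⟩ := D.ann _ z3
  have r2 := rel2 D hxy hm hh
  have r3 := rel3 D.n hxy hm hh
  have r3' := rel3 D.n hyx hm' hh
  have v2 := V_sq x y D.n hxy hm
  have hP := D.P2
  have h16u : (h ^ 4) ^ D.n * 16 ^ D.n = 1 := by
    rw [← mul_pow]
    have : h ^ 4 * 16 = 1 := by
      have := congrArg (fun t => t ^ 4) hh
      simp only [one_pow] at this
      linear_combination this
    rw [this, one_pow]
  rw [hw, hw'] at r2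
  rw [hw'] at r3
  rw [hw] at r3'
  rw [hv] at v2
  have t1 : qn D.n (-16) (1 : S) = 0 := by rw [← v2]; linear_combination v ^ 2 * hP
  have t2 : 4 * ((-1) ^ D.n * 16 ^ D.n * qn D.n (-h ^ 8) 1) = 0 := by
    rw [r2]; linear_combination (w + (-1) ^ D.n * w') ^ 2 * hP
  have h4 : 4 * h ^ 2 = 1 := by linear_combination (2 * h + 1) * hh
  constructor
  · rw [t1]
    linear_combination (h ^ 2 * (h ^ 4) ^ D.n) * t2 - ((-1) ^ D.n * qn D.n (-h ^ 8) 1) * ((h ^ 4) ^ D.n * 16 ^ D.n) * h4 - ((-1) ^ D.n * qn D.n (-h ^ 8) 1) * h16u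
  · rw [r3, r3']
    linear_combination ((((y * h) ^ 4) ^ D.n * w') ^ 2 - (((x * h) ^ 4) ^ D.n * w) ^ 2) * hP

end rel

end Pool.Agent.X14.CM
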