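import Pool.Agent.X14.CM4

set_option autoImplicit false

/-! Consequences for sums of cubes of central binomial coefficients modulo `p ^ 2`. -/

namespace Pool.Agent.X14.CM

open Finset Pool.Agent.X14.TK

section mk

variable {S : Type*} [CommRing S] {p n : ℕ}

lemma unit_of (hp : p.Prime) (hP : (p : S) ^ 2 = 0) {m : ℕ} (hm : ¬ p ∣ m) : ∃ r : S, (m : S) * r = 1 := by
  have hc : IsCoprime (m : ℤ) ((p : ℤ) ^ 2) := by
    apply IsCoprime.pow_right
    rw [Nat.isCoprime_iff_coprime]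
    exact ((Nat.Prime.coprime_iff_not_dvd hp).2 hm).symm
  obtain ⟨a, b, hab⟩ := hc
  refine ⟨(a : S), ?_⟩
  have := congrArg (fun t : ℤ => (t : S)) hab
  push_cast at this
  linear_combination this - (b : S) * hP

lemma stepA (k : ℕ) (hk : k ≤ n) : ((k : S) + 1) * ((4 : S) ^ (k + 1) * ((n.choose (k + 1) : S) * (-1) ^ (k + 1))) =
    2 * (2 * k + 1 - (2 * n + 1)) * ((4 : S) ^ k * ((n.choose k : S) * (-1) ^ k)) := by
  have := Nat.choose_succ_right_eq n k
  have h3 : ((n.choose (k + 1) * (k + 1) : ℕ) : S) = ((n.choose k * (n - k) : ℕ) : S) := by rw [this]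
  push_cast [Nat.cast_sub hk] at h3
  linear_combination (-(4 : S) ^ (k + 1) * (-1) ^ k) * h3

lemma stepB (k : ℕ) : ((k : S) + 1) * ((4 : S) ^ (k + 1) * ((n + (k + 1)).choose (k + 1) : S)) =
    2 * (2 * k + 1 + (2 * n + 1)) * ((4 : S) ^ k * ((n + k).choose k : S)) := by
  have := Nat.add_one_mul_choose_eq (n + k) k
  have h3 : (((n + k + 1) * (n + k).choose k : ℕ) : S) = (((n + k + 1).choose (k + 1) * (k + 1) : ℕ) : S) := by rw [this]
  push_cast at h3
  rw [show n + (k + 1) = n + k + 1 by ring]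
  linear_combination (-(4 : S) ^ (k + 1)) * h3

lemma stepM (k : ℕ) : ((k : S) + 1) * ((k + 1).centralBinom : S) = 2 * (2 * k + 1) * (k.centralBinom : S) := by
  have := Nat.succ_mul_centralBinom_succ k
  have h3 : (((k + 1) * (k + 1).centralBinom : ℕ) : S) = ((2 * (2 * k + 1) * k.centralBinom : ℕ) : S) := by rw [this]
  push_cast at h3
  exact h3

lemma stepD (k : ℕ) : 4 * ((2 * (k : S) + 2) * (2 * k + 1)) * (((-16) ^ (k + 1)) * ((n + (k + 1)).choose (2 * (k + 1)) : S)) =
    -16 * (((2 * (n : S) + 1) ^ 2 - (2 * k + 1) ^ 2)) * ((-16) ^ k * ((n + k).choose (2 * k) : S)) := by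
  have h1 := ch2 (n + k) (2 * k)
  rw [show n + k + 1 = n + (k + 1) by ring, show 2 * k + 2 = 2 * (k + 1) by ring] at h1
  push_cast at h1
  have h2 : (((n + (k + 1)).choose (2 * (k + 1)) : ℤ) * ((2 * (k : ℤ) + 2) * (2 * k + 1))) = ((n + k).choose (2 * k) : ℤ) * (((n : ℤ) + k + 1) * (n + k - 2 * k)) := by
    have : ((((n + (k + 1)).choose (2 * (k + 1)) : ℤ) * ((2 * (k : ℤ) + 2) * (2 * k + 1)) : ℤ) : ℚ) = ((((n + k).choose (2 * k) : ℤ) * (((n : ℤ) + k + 1) * (n + k - 2 * k)) : ℤ) : ℚ) := by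
      push_cast
      linear_combination h1
    exact_mod_cast this
  have h3 := congrArg (fun t : ℤ => (t : S)) h2
  push_cast at h3
  linear_combination (4 * (-16) ^ (k + 1)) * h3

lemma ABM (hp : p.Prime) (hn : p = 2 * n + 1) (hP : (p : S) ^ 2 = 0) : ∀ k ≤ n,
    (4 : S) ^ k * ((n.choose k : S) * (-1) ^ k) + (4 : S) ^ k * ((n + k).choose k : S) = 2 * (k.centralBinom : S) ∧
    (p : S) * ((4 : S) ^ k * ((n.choose k : S) * (-1) ^ k)) = (p : S) * (k.centralBinom : S) ∧
    (p : S) * ((4 : S) ^ k * ((n + k).choose k : S)) = (p : S) * (k.centralBinom : S) := by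
  intro k
  induction k with
  | zero => intro _; simp; norm_num
  | succ k ih =>
    intro hk
    obtain ⟨i1, i2, i3⟩ := ih (by omega)
    have a1 := stepA (S := S) (n := n) k (by omega)
    have b1 := stepB (S := S) (n := n) k
    have m1 := stepM (S := S) k
    have hpn : (p : S) = 2 * n + 1 := by rw [hn]; push_cast; ring
    rw [← hpn] at a1 b1
    obtain ⟨r, hr⟩ := unit_of (S := S) hp hP (m := k + 1) (by
      intro hd
      have := Nat.le_of_dvd (by omega) hd
      omega)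
    push_cast at hr
    generalize (4 : S) ^ (k + 1) * ((n.choose (k + 1) : S) * (-1) ^ (k + 1)) = A' at *
    generalize (4 : S) ^ k * ((n.choose k : S) * (-1) ^ k) = A at *
    generalize (4 : S) ^ (k + 1) * ((n + (k + 1)).choose (k + 1) : S) = B' at *
    generalize (4 : S) ^ k * ((n + k).choose k : S) = B at *
    generalize ((k + 1).centralBinom : S) = M' at *
    generalize ((k).centralBinom : S) = M at *
    refine ⟨?_, ?_, ?_⟩
    · linear_combination r * (a1 + b1 - 2 * m1) + r * (2 * (2 * (k : S) + 1)) * i1 - 2 * r * (i2 - i3) - (A' + B' - 2 * M') * hr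
    · linear_combination r * (p : S) * (a1 - m1) + r * (2 * (2 * (k : S) + 1)) * i2 - 2 * r * A * hP - (p : S) * (A' - M') * hr
    · linear_combination r * (p : S) * (b1 - m1) + r * (2 * (2 * (k : S) + 1)) * i3 + 2 * r * B * hP - (p : S) * (B' - M') * hr

lemma MD (hp : p.Prime) (hn : p = 2 * n + 1) (hP : (p : S) ^ 2 = 0) : ∀ k ≤ n,
    (k.centralBinom : S) = (-16) ^ k * ((n + k).choose (2 * k) : S) := by
  intro k
  induction k with
  | zero => intro _; simp
  | succ k ih =>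
    intro hk
    have i1 := ih (by omega)
    have d1 := stepD (S := S) (n := n) k
    have m1 := stepM (S := S) k
    have hpn : (p : S) = 2 * n + 1 := by rw [hn]; push_cast; ring
    rw [← hpn] at d1
    obtain ⟨r, hr⟩ := unit_of (S := S) hp hP (m := k + 1) (by
      intro hd
      have := Nat.le_of_dvd (by omega) hd
      omega)
    obtain ⟨t, ht⟩ := unit_of (S := S) hp hP (m := 2 * k + 1) (by
      intro hd
      have := Nat.le_of_dvd (by omega) hd
      omega)
    obtain ⟨h, hh⟩ := unit_of (S := S) hp hP (m := 2) (by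
      intro hd
      have := Nat.le_of_dvd (by omega) hd
      have := hp.two_le
      omega)
    push_cast at hr ht hh
    generalize (-16 : S) ^ (k + 1) * ((n + (k + 1)).choose (2 * (k + 1)) : S) = D' at *
    generalize (-16 : S) ^ k * ((n + k).choose (2 * k) : S) = D at *
    generalize ((k + 1).centralBinom : S) = M' at *
    generalize ((k).centralBinom : S) = M at *
    have e8 : 8 * h ^ 3 = 1 := by linear_combination (4 * h ^ 2 + 2 * h + 1) * hh
    have key : 8 * (((k : S) + 1) * (2 * k + 1)) * (M' - D') = 0 := by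
      linear_combination 8 * (2 * (k : S) + 1) * m1 - d1 + 16 * (2 * (k : S) + 1) ^ 2 * i1 + 16 * D * hP
    have k2 : (h ^ 3 * r * t) * (8 * (((k : S) + 1) * (2 * k + 1)) * (M' - D')) = (8 * h ^ 3) * (((k : S) + 1) * r) * ((2 * k + 1) * t) * (M' - D') := by ring
    rw [key, e8, hr, ht] at k2
    linear_combination -k2

/-- the data attached to `p = 2 n + 1` -/
def mkDat (hp : p.Prime) (hn : p = 2 * n + 1) (hP : (p : S) ^ 2 = 0) (ann : ∀ z : S, (p : S) * z = 0 → ∃ w, z = (p : S) * w) : Dat S where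
  n := n
  P := p
  P2 := hP
  hF := by
    intro k hk
    have := (ABM (S := S) hp hn hP k hk).1
    linear_combination this
  hF1 := fun k hk => (ABM (S := S) hp hn hP k hk).2.1
  hF2 := fun k hk => (ABM (S := S) hp hn hP k hk).2.2
  hA := fun k hk => MD (S := S) hp hn hP k hk
  ann := ann

lemma fermat_half (hp : p.Prime) (hn : p = 2 * n + 1) (h7 : p ≠ 7) : (p : ℤ) ∣ (-7) ^ n - 1 ∨ (p : ℤ) ∣ (-7) ^ n + 1 := by
  have hc : IsCoprime (-7 : ℤ) (p : ℤ) := by
    rw [IsCoprime.neg_left_iff]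
    have : Nat.Coprime 7 p := (Nat.coprime_primes (by norm_num) hp).2 (Ne.symm h7)
    exact_mod_cast Nat.isCoprime_iff_coprime.2 this
  have h := Int.ModEq.pow_card_sub_one_eq_one hp hc
  have hd := h.symm.dvd
  have e : (-7 : ℤ) ^ (p - 1) - 1 = ((-7) ^ n - 1) * ((-7) ^ n + 1) := by
    rw [show p - 1 = n * 2 by omega, pow_mul]; ring
  rw [e] at hd
  exact (Nat.prime_iff_prime_int.1 hp).dvd_or_dvd hd

lemma fermat_two (hp : p.Prime) (h2 : p ≠ 2) : (p : ℤ) ∣ 2 ^ p - 2 := by
  have hc : IsCoprime (2 : ℤ) (p : ℤ) := by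
    have : Nat.Coprime 2 p := (Nat.coprime_primes (by norm_num) hp).2 (Ne.symm h2)
    exact_mod_cast Nat.isCoprime_iff_coprime.2 this
  have h := Int.ModEq.pow_card_sub_one_eq_one hp hc
  have hd := h.symm.dvd
  have e : (2 : ℤ) ^ p - 2 = 2 * (2 ^ (p - 1) - 1) := by
    have : p = (p - 1) + 1 := by have := hp.two_le; omega
    conv_lhs => rw [this, pow_succ]
    ring
  rw [e]
  exact Dvd.dvd.mul_left hd 2

/-- the Frobenius map on `x` -/
lemma frob (hp : p.Prime) (hn : p = 2 * n + 1) {x y h : S} (hxy : x + y = 1) (hm : x * y = 2) (hh : 2 * h = 1) (e : ℤ)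
    (he : (p : ℤ) ∣ (-7) ^ n - e) : ∃ u, x * (x ^ 2) ^ n = h * (1 + e * (x - y)) + (p : S) * u := by
  obtain ⟨c, hc⟩ := he
  have h2 : p ≠ 2 := by omega
  obtain ⟨d, hd⟩ := fermat_two hp h2
  have hc' := congrArg (fun t : ℤ => (t : S)) hc
  have hd' := congrArg (fun t : ℤ => (t : S)) hd
  push_cast at hc' hd'
  obtain ⟨r, hr⟩ := exists_add_pow_prime_eq hp (1 : S) (x - y)
  have e1 : 1 + (x - y) = 2 * x := by linear_combination -hxy
  have e2 : (x - y) ^ p = (x - y) * (-7) ^ n := by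
    rw [hn, pow_succ, pow_mul]
    have : (x - y) ^ 2 = -7 := by linear_combination (x + y + 1) * hxy - 4 * hm
    rw [this]; ring
  have e3 : x ^ p = x * (x ^ 2) ^ n := by rw [hn, pow_succ, pow_mul]; ring
  rw [e1, e2, one_pow, mul_pow, e3] at hr
  refine ⟨h * ((x - y) * c + (x - y) * r - d * (x * (x ^ 2) ^ n)), ?_⟩
  linear_combination h * hr + h * (x - y) * hc' - h * (x * (x ^ 2) ^ n) * hd' - (x * (x ^ 2) ^ n) * hh

theorem main_S (hp : p.Prime) (hn : p = 2 * n + 1) (h7 : p ≠ 7) (hP : (p : S) ^ 2 = 0)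
    (ann : ∀ z : S, (p : S) * z = 0 → ∃ w, z = (p : S) * w) {x y h : S} (hxy : x + y = 1) (hm : x * y = 2) (hh : 2 * h = 1) :
    (-1) ^ n * qn n (-h ^ 8) 1 = qn n (-16 : S) 1 ∧
    qn n ((y * h) ^ 8 * y ^ 4) 1 = qn n ((x * h) ^ 8 * x ^ 4) 1 := by
  have hyx : y + x = 1 := by rw [add_comm]; exact hxy
  have hm' : y * x = 2 := by rw [mul_comm]; exact hm
  have hxi : (y * h) * x = 1 := inv_fact hm hh
  have hyi : (x * h) * y = 1 := inv_fact hm' hh
  rcases fermat_half hp hn h7 with he | he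
  · obtain ⟨u, hu⟩ := frob (S := S) hp hn hxy hm hh 1 he
    obtain ⟨v, hv⟩ := frob (S := S) hp hn hyx hm' hh 1 he
    push_cast at hu hv
    apply case1 (mkDat hp hn hP ann) hxy hm hh
    · refine ⟨y * h * u, ?_⟩
      show (x ^ 2) ^ n = 1 + (p : S) * (y * h * u)
      linear_combination (y * h) * hu + (1 - (x ^ 2) ^ n) * hxi + y * h * x * hh - y * h ^ 2 * hxy
    · refine ⟨x * h * v, ?_⟩
      show (y ^ 2) ^ n = 1 + (p : S) * (x * h * v)
      linear_combination (x * h) * hv + (1 - (y ^ 2) ^ n) * hyi + x * h * y * hh - x * h ^ 2 * hyx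
  · have he' : (p : ℤ) ∣ (-7) ^ n - (-1) := by simpa using he
    obtain ⟨u, hu⟩ := frob (S := S) hp hn hxy hm hh (-1) he'
    obtain ⟨v, hv⟩ := frob (S := S) hp hn hyx hm' hh (-1) he'
    push_cast at hu hv
    obtain ⟨s, hs⟩ := unit_of (S := S) hp hP (m := 7) (by
      intro hd
      exact h7 ((Nat.prime_dvd_prime_iff_eq hp (by norm_num)).1 hd))
    push_cast at hs
    apply case2 (mkDat hp hn hP ann) hxy hm hh hs
    · refine ⟨v, ?_⟩
      show y * (y ^ 2) ^ n = x + (p : S) * v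
      linear_combination hv + x * hh - h * hxy
    · refine ⟨u, ?_⟩
      show x * (x ^ 2) ^ n = y + (p : S) * u
      linear_combination hu + y * hh - h * hxy

lemma qn_val (hp : p.Prime) (hn : p = 2 * n + 1) (hP : (p : S) ^ 2 = 0) {h : S} (hh : 2 * h = 1) (z : S) :
    qn n z 1 = ∑ k ∈ range (n + 1), (k.centralBinom : S) ^ 3 * (-h ^ 4 * z) ^ k := by
  rw [qn]
  apply sum_congr rfl
  intro k hk
  have hk' := mem_range.1 hk
  have h1 := MD (S := S) hp hn hP k (by omega)
  have h2 : ((n + k).choose (2 * k) : S) = (-h ^ 4) ^ k * (k.centralBinom : S) := by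
    rw [h1, ← mul_assoc, ← mul_pow]
    have : -h ^ 4 * -16 = 1 := by linear_combination (2 * h + 1) * (4 * h ^ 2 + 1) * hh
    rw [this]; simp
  rw [h2, one_pow, mul_pow]; ring

end mk

/-- the coefficient ring -/
abbrev QR (p : ℕ) := QuadraticAlgebra (ZMod (p ^ 2)) (-2) 1

section QR

variable {p n : ℕ}

lemma QR_P2 : ((p : QR p)) ^ 2 = 0 := by
  have h : ((p : ZMod (p ^ 2))) ^ 2 = 0 := by
    have := ZMod.natCast_self (p ^ 2)
    push_cast at this
    exact this
  have e : (p : QR p) = QuadraticAlgebra.C (p : ZMod (p ^ 2)) := (QuadraticAlgebra.C_natCast p).symm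
  rw [e, ← QuadraticAlgebra.C_pow, h, QuadraticAlgebra.C_zero]

lemma QR_int {z : ℤ} (h : (z : QR p) = 0) : (p : ℤ) ^ 2 ∣ z := by
  have h1 := congrArg QuadraticAlgebra.re h
  rw [QuadraticAlgebra.re_intCast, QuadraticAlgebra.re_zero] at h1
  have := (ZMod.intCast_zmod_eq_zero_iff_dvd z (p ^ 2)).1 h1
  exact_mod_cast this

lemma QR_ann (hp : p.Prime) (z : QR p) (hz : (p : QR p) * z = 0) : ∃ w, z = (p : QR p) * w := by
  have key : ∀ a : ZMod (p ^ 2), (p : ZMod (p ^ 2)) * a = 0 → ∃ b, a = (p : ZMod (p ^ 2)) * b := by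
    intro a ha
    obtain ⟨t, rfl⟩ := ZMod.intCast_surjective a
    have h1 : (((p : ℤ) * t : ℤ) : ZMod (p ^ 2)) = 0 := by push_cast; exact ha
    have h2 := (ZMod.intCast_zmod_eq_zero_iff_dvd _ (p ^ 2)).1 h1
    obtain ⟨c, hc⟩ := h2
    have hp0 : (p : ℤ) ≠ 0 := by exact_mod_cast hp.ne_zero
    push_cast at hc
    have h3 : t = p * c := by
      apply mul_left_cancel₀ hp0
      linear_combination hc
    refine ⟨(c : ZMod (p ^ 2)), ?_⟩
    rw [h3]; push_cast; ring
  have hre := congrArg QuadraticAlgebra.re hz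
  have him := congrArg QuadraticAlgebra.im hz
  rw [QuadraticAlgebra.re_mul, QuadraticAlgebra.re_natCast, QuadraticAlgebra.im_natCast, QuadraticAlgebra.re_zero] at hre
  rw [QuadraticAlgebra.im_mul, QuadraticAlgebra.re_natCast, QuadraticAlgebra.im_natCast, QuadraticAlgebra.im_zero] at him
  obtain ⟨a, ha⟩ := key z.re (by linear_combination hre)
  obtain ⟨b, hb⟩ := key z.im (by linear_combination him)
  refine ⟨⟨a, b⟩, ?_⟩
  ext
  · rw [QuadraticAlgebra.re_mul, QuadraticAlgebra.re_natCast, QuadraticAlgebra.im_natCast, ha]; ring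
  · rw [QuadraticAlgebra.im_mul, QuadraticAlgebra.re_natCast, QuadraticAlgebra.im_natCast, hb]; ring

lemma QR_xy (p : ℕ) : ∃ x y : QR p, x + y = 1 ∧ x * y = 2 := by
  refine ⟨⟨0, 1⟩, ⟨1, -1⟩, ?_, ?_⟩
  · ext
    · simp [QuadraticAlgebra.re_one]
    · simp [QuadraticAlgebra.im_one]
  · ext
    · rw [QuadraticAlgebra.re_mul, QuadraticAlgebra.re_ofNat]; ring
    · rw [QuadraticAlgebra.im_mul, QuadraticAlgebra.im_ofNat]; ring

lemma QR_h (hp : p.Prime) (h2 : p ≠ 2) : ∃ h : QR p, 2 * h = 1 := by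
  obtain ⟨h, hh⟩ := unit_of (S := QR p) hp QR_P2 (m := 2) (by
    intro hd
    exact h2 ((Nat.prime_dvd_prime_iff_eq hp (by norm_num)).1 hd))
  push_cast at hh
  exact ⟨h, hh⟩

/-- the first congruence -/
theorem Z1 (hp : p.Prime) (hn : p = 2 * n + 1) : (p : ℤ) ^ 2 ∣
    (-1) ^ n * ∑ k ∈ range (n + 1), (k.centralBinom : ℤ) ^ 3 * 4096 ^ (n - k) - 4096 ^ n * ∑ k ∈ range (n + 1), (k.centralBinom : ℤ) ^ 3 := by
  by_cases h7 : p = 7
  · have hn3 : n = 3 := by omega
    subst hn3; subst h7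
    have c1 : Nat.centralBinom 1 = 2 := rfl
    have c2 : Nat.centralBinom 2 = 6 := rfl
    have c3 : Nat.centralBinom 3 = 20 := rfl
    norm_num [sum_range_succ, c1, c2, c3]
  · apply QR_int
    have h2 : p ≠ 2 := by omega
    obtain ⟨x, y, hxy, hm⟩ := QR_xy p
    obtain ⟨h, hh⟩ := QR_h hp h2
    have m1 := (main_S (S := QR p) hp hn h7 QR_P2 (QR_ann hp) hxy hm hh).1
    rw [qn_val (S := QR p) hp hn QR_P2 hh, qn_val (S := QR p) hp hn QR_P2 hh] at m1
    have h16 : h ^ 4 * 16 = 1 := by linear_combination (2 * h + 1) * (4 * h ^ 2 + 1) * hh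
    have e1 : -h ^ 4 * -16 = 1 := by linear_combination h16
    rw [e1] at m1
    simp only [one_pow, mul_one] at m1
    push_cast
    rw [← m1, mul_sum, mul_sum, mul_sum, ← sum_sub_distrib]
    apply sum_eq_zero
    intro k hk
    have hk' := mem_range.1 hk
    have e2 : (4096 : QR p) ^ n = 4096 ^ (n - k) * 4096 ^ k := by rw [← pow_add]; congr 1; omega
    have e3 : (4096 : QR p) ^ k * (-h ^ 4 * -h ^ 8) ^ k = 1 := by
      rw [← mul_pow]
      have : (4096 : QR p) * (-h ^ 4 * -h ^ 8) = 1 := by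
        have := congrArg (fun t => t ^ 3) h16
        simp only [one_pow] at this
        linear_combination this
      rw [this, one_pow]
    rw [e2]
    linear_combination (-((-1) ^ n * (k.centralBinom : QR p) ^ 3 * 4096 ^ (n - k))) * e3

/-- the sequence with `a(n+2) = 5 a(n+1) - 8 a(n)` -/
def aseq : ℕ → ℤ
  | 0 => 0
  | 1 => 1
  | n + 2 => 5 * aseq (n + 1) - 8 * aseq n

lemma aseq_val {S : Type*} [CommRing S] {x y : S} (hxy : x + y = 1) (hm : x * y = 2) (m : ℕ) :
    (x - y) * (aseq m : S) = (-x ^ 3) ^ m - (-y ^ 3) ^ m := by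
  have h1 := sq_of x y hxy hm
  have h2 := sq_of y x (by rw [add_comm]; exact hxy) (by rw [mul_comm]; exact hm)
  have c1 : -x ^ 3 = x + 2 := by linear_combination (-(x + 1)) * h1
  have c2 : -y ^ 3 = y + 2 := by linear_combination (-(y + 1)) * h2
  rw [c1, c2]
  have key : ∀ m : ℕ, (x - y) * (aseq m : S) = (x + 2) ^ m - (y + 2) ^ m ∧ (x - y) * (aseq (m + 1) : S) = (x + 2) ^ (m + 1) - (y + 2) ^ (m + 1) := by
    intro m
    induction m with
    | zero =>
      constructor
      · simp [aseq]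
      · simp [aseq]
    | succ m ih =>
      refine ⟨ih.2, ?_⟩
      rw [show m + 1 + 1 = m + 2 by ring, aseq]
      push_cast
      linear_combination 5 * ih.2 - 8 * ih.1 - (x + 2) ^ m * h1 + (y + 2) ^ m * h2
  exact (key m).1

/-- the second congruence -/
theorem Z2 (hp : p.Prime) (hn : p = 2 * n + 1) : (p : ℤ) ^ 2 ∣
    ∑ k ∈ range (n + 1), aseq (4 * k) * (k.centralBinom : ℤ) ^ 3 * ((-1) ^ k * 4096 ^ (n - k)) := by
  by_cases h7 : p = 7
  · have hn3 : n = 3 := by omega
    subst hn3; subst h7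
    have c1 : Nat.centralBinom 1 = 2 := rfl
    have c2 : Nat.centralBinom 2 = 6 := rfl
    have c3 : Nat.centralBinom 3 = 20 := rfl
    have a0 : aseq 0 = 0 := rfl
    have a4 : aseq 4 = 45 := by decide
    have a8 : aseq 8 = -2115 := by decide
    have a12 : aseq 12 = -84915 := by decide
    norm_num [sum_range_succ, c1, c2, c3, a0, a4, a8, a12]
  · apply QR_int
    have h2 : p ≠ 2 := by omega
    obtain ⟨x, y, hxy, hm⟩ := QR_xy p
    obtain ⟨h, hh⟩ := QR_h hp h2
    have m1 := (main_S (S := QR p) hp hn h7 QR_P2 (QR_ann hp) hxy hm hh).2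
    rw [qn_val (S := QR p) hp hn QR_P2 hh, qn_val (S := QR p) hp hn QR_P2 hh] at m1
    have h16 : h ^ 4 * 16 = 1 := by linear_combination (2 * h + 1) * (4 * h ^ 2 + 1) * hh
    have key : (x - y) * ((∑ k ∈ range (n + 1), aseq (4 * k) * (k.centralBinom : ℤ) ^ 3 * ((-1) ^ k * 4096 ^ (n - k)) : ℤ) : QR p) = 0 := by
      push_cast
      have e0 : (x - y) * ∑ k ∈ range (n + 1), (aseq (4 * k) : QR p) * (k.centralBinom : QR p) ^ 3 * ((-1) ^ k * 4096 ^ (n - k)) =
          4096 ^ n * (∑ k ∈ range (n + 1), (k.centralBinom : QR p) ^ 3 * (-h ^ 4 * ((x * h) ^ 8 * x ^ 4)) ^ k -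
          ∑ k ∈ range (n + 1), (k.centralBinom : QR p) ^ 3 * (-h ^ 4 * ((y * h) ^ 8 * y ^ 4)) ^ k) := by
        rw [← sum_sub_distrib, mul_sum, mul_sum]
        apply sum_congr rfl
        intro k hk
        have hk' := mem_range.1 hk
        have e2 : (4096 : QR p) ^ n = 4096 ^ (n - k) * 4096 ^ k := by rw [← pow_add]; congr 1; omega
        have e3 : (4096 : QR p) * (-h ^ 4 * ((x * h) ^ 8 * x ^ 4)) = (-1) * (-x ^ 3) ^ 4 := by
          have := congrArg (fun t => t ^ 3) h16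
          simp only [one_pow] at this
          linear_combination (-x ^ 12) * this
        have e4 : (4096 : QR p) * (-h ^ 4 * ((y * h) ^ 8 * y ^ 4)) = (-1) * (-y ^ 3) ^ 4 := by
          have := congrArg (fun t => t ^ 3) h16
          simp only [one_pow] at this
          linear_combination (-y ^ 12) * this
        have e5 := aseq_val hxy hm (4 * k)
        have e6 : (4096 : QR p) ^ k * (-h ^ 4 * ((x * h) ^ 8 * x ^ 4)) ^ k = (-1) ^ k * (-x ^ 3) ^ (4 * k) := by
          rw [← mul_pow, e3, mul_pow, pow_mul]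
        have e7 : (4096 : QR p) ^ k * (-h ^ 4 * ((y * h) ^ 8 * y ^ 4)) ^ k = (-1) ^ k * (-y ^ 3) ^ (4 * k) := by
          rw [← mul_pow, e4, mul_pow, pow_mul]
        rw [e2]
        linear_combination ((k.centralBinom : QR p) ^ 3 * ((-1) ^ k * 4096 ^ (n - k))) * e5 - ((k.centralBinom : QR p) ^ 3 * 4096 ^ (n - k)) * (e6 - e7)
      rw [e0, m1]; ring
    have d : (x - y) ^ 2 = -7 := by linear_combination (x + y + 1) * hxy - 4 * hm
    obtain ⟨s, hs⟩ := unit_of (S := QR p) hp QR_P2 (m := 7) (by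
      intro hd
      exact h7 ((Nat.prime_dvd_prime_iff_eq hp (by norm_num)).1 hd))
    push_cast at hs
    generalize ((∑ k ∈ range (n + 1), aseq (4 * k) * (k.centralBinom : ℤ) ^ 3 * ((-1) ^ k * 4096 ^ (n - k)) : ℤ) : QR p) = T at *
    linear_combination (-(s * (x - y))) * key + s * T * d - T * hs

end QR

end Pool.Agent.X14.CM
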