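import Pool.Agent.X14.Base

set_option autoImplicit false

/-! Sums over the integers prime to `p` in blocks, and binomial coefficients `C(2p^r, m)`. -/

namespace Pool.Agent.X14.DW

open Finset Pool.Agent.H434R2 Pool.Agent.H434R2.PO

set_option linter.unusedSectionVars false

variable {p : ℕ} [hp : Fact p.Prime]

lemma cast_ne : (p : ℚ) ≠ 0 := by exact_mod_cast hp.out.ne_zero

lemma PO_ppow (k : ℕ) : PO p k ((p : ℚ) ^ k) := by unfold PO; rw [norm_ppow]

/-- trading powers of `p` between two factors -/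
lemma PO_trade {r s : ℕ} {C y : ℚ} (hC : PO p r (C * (p : ℚ) ^ s)) (hy : PO p s y) : PO p r (C * y) := by
  unfold PO at *
  rw [padicNorm.mul, norm_ppow] at hC
  rw [padicNorm.mul]
  exact le_trans (mul_le_mul_of_nonneg_left hy (padicNorm.nonneg _)) hC

lemma PO_cancel {k s : ℕ} {y : ℚ} (h : PO p (k + s) (y * (p : ℚ) ^ s)) : PO p k y := by
  unfold PO at *
  rw [padicNorm.mul, norm_ppow] at h
  have h2 : ((p : ℚ) ^ (-((k + s : ℕ) : ℤ))) = (p : ℚ) ^ (-(k : ℤ)) * (p : ℚ) ^ (-(s : ℤ)) := by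
    rw [← zpow_add₀ cast_ne]; congr 1; push_cast; ring
  rw [h2] at h
  exact le_of_mul_le_mul_right h (pos s)

lemma PO_of_dvd {k a : ℕ} (h : p ^ k ∣ a) : PO p k (a : ℚ) := by
  obtain ⟨c, rfl⟩ := h
  push_cast
  exact (PO_ppow k).mul0' (of_nat c)

/-- `1/m` if `p ∤ m`, and `0` otherwise -/
def θ (p m : ℕ) : ℚ := if p ∣ m then 0 else (m : ℚ)⁻¹

lemma θ_PO (m : ℕ) : PO p 0 (θ p m) := by
  unfold θ
  split_ifs with h
  · exact zero 0
  · exact inv_nat h

lemma θ_add {s a : ℕ} (ha : p ^ s ∣ a) (m : ℕ) : PO p s (θ p (a + m) - θ p m) := by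
  rcases Nat.eq_zero_or_pos s with rfl | hs
  · exact (θ_PO _).sub (θ_PO _)
  have hpa : p ∣ a := (dvd_pow_self p (by omega)).trans ha
  unfold θ
  by_cases h : p ∣ m
  · rw [if_pos h, if_pos ((Nat.dvd_add_right hpa).2 h), sub_zero]; exact zero s
  · have h' : ¬ p ∣ a + m := fun h1 => h ((Nat.dvd_add_right hpa).1 h1)
    rw [if_neg h, if_neg h']
    have n1 : (m : ℚ) ≠ 0 := by
      intro h0; apply h; rw [show m = 0 by exact_mod_cast h0]; exact dvd_zero p
    have n2 : ((a + m : ℕ) : ℚ) ≠ 0 := by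
      intro h0; apply h'; rw [show a + m = 0 by exact_mod_cast h0]; exact dvd_zero p
    have h1 := ((PO_of_dvd ha).mul0' ((inv_nat h').mul0 (inv_nat h))).neg
    convert h1 using 1
    push_cast at n2 ⊢
    field_simp
    ring

lemma θ_refl {s a m : ℕ} (ha : p ^ s ∣ a) (hm : m ≤ a) : PO p s (θ p (a - m) + θ p m) := by
  rcases Nat.eq_zero_or_pos s with rfl | hs
  · exact (θ_PO _).add (θ_PO _)
  have hpa : p ∣ a := (dvd_pow_self p (by omega)).trans ha
  unfold θ
  by_cases h : p ∣ m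
  · rw [if_pos h, if_pos (Nat.dvd_sub hpa h), add_zero]; exact zero s
  · have h' : ¬ p ∣ a - m := by
      intro h1
      apply h
      have : a = (a - m) + m := by omega
      rw [this] at hpa
      exact (Nat.dvd_add_right h1).1 hpa
    rw [if_neg h, if_neg h']
    have n1 : (m : ℚ) ≠ 0 := by
      intro h0; apply h; rw [show m = 0 by exact_mod_cast h0]; exact dvd_zero p
    have n2 : ((a - m : ℕ) : ℚ) ≠ 0 := by
      intro h0; apply h'; rw [show a - m = 0 by exact_mod_cast h0]; exact dvd_zero p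
    have h1 := (PO_of_dvd ha).mul0' ((inv_nat h').mul0 (inv_nat h))
    convert h1 using 1
    rw [Nat.cast_sub hm] at n2 ⊢
    field_simp
    ring

/-- reflection of a sum -/
lemma sum_flip (q : ℕ) (f : ℕ → ℚ) (h0 : f 0 = 0) (hq : f q = 0) :
    ∑ m ∈ range q, f (q - m) = ∑ m ∈ range q, f m := by
  have h1 := Finset.sum_range_reflect f (q + 1)
  have h2 : ∑ j ∈ range (q + 1), f (q + 1 - 1 - j) = ∑ j ∈ range q, f (q - j) + f 0 := by
    rw [sum_range_succ]
    congr 1
    simp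
  rw [h2, sum_range_succ, h0, hq, add_zero, add_zero] at h1
  exact h1

lemma θ_zero : θ p 0 = 0 := by unfold θ; simp

lemma θ_dvd {m : ℕ} (h : p ∣ m) : θ p m = 0 := by unfold θ; rw [if_pos h]

/-- symmetric weights, odd `p` -/
lemma sym_zero (h2 : p ≠ 2) {s a : ℕ} (ha : p ^ s ∣ a) (hpa : p ∣ a) (k : ℤ → ℤ) (hk : ∀ m, k ((a : ℤ) - m) = k m) :
    PO p s (∑ m ∈ range a, (k m : ℚ) * θ p m) := by
  have h1 := sum_flip a (fun m => (k m : ℚ) * θ p m) (by simp [θ_zero]) (by rw [θ_dvd hpa, mul_zero])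
  have h3 : 2 * ∑ m ∈ range a, (k m : ℚ) * θ p m = ∑ m ∈ range a, (k m : ℚ) * (θ p (a - m) + θ p m) := by
    rw [two_mul]
    nth_rewrite 1 [← h1]
    rw [← sum_add_distrib]
    apply sum_congr rfl
    intro m hm
    have hm' := mem_range.1 hm
    have : k ((a - m : ℕ) : ℤ) = k m := by rw [Nat.cast_sub hm'.le]; exact hk m
    rw [this]; ring
  have h4 : PO p s (2 * ∑ m ∈ range a, (k m : ℚ) * θ p m) := by
    rw [h3]
    apply PO.sum
    intro m hm
    exact PO.mul0 (of_int _) (θ_refl ha (mem_range.1 hm).le)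
  have h5 := PO.mul0 (half h2) h4
  convert h5 using 1
  ring

/-- products of factors `1 + O(p^k)`, first order -/
lemma prod_first {k : ℕ} {y : ℚ} (hy : PO p k y) (t : ℕ → ℚ) (ht : ∀ i, PO p 0 (t i)) (m : ℕ) :
    PO p (2 * k) (∏ i ∈ range m, (1 - y * t i) - (1 - y * ∑ i ∈ range m, t i)) := by
  induction m with
  | zero => simpa using zero (p := p) (2 * k)
  | succ m ih =>
    rw [prod_range_succ, sum_range_succ]
    have hy2 : PO p (2 * k) (y * y) := by rw [two_mul]; exact hy.mul hy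
    have hy0 : PO p 0 y := hy.mono (Nat.zero_le _)
    have hs : PO p 0 (∑ i ∈ range m, t i) := PO.sum _ _ (fun i _ => ht i)
    have e1 : PO p 0 (1 - y * t m) := PO.one.sub (hy0.mul0 (ht m))
    have h1 := (ih.mul0' e1).add (hy2.mul0' (hs.mul0 (ht m)))
    convert h1 using 1
    ring

/-! ### binomial coefficients -/

/-- `(-1)^m C(K, m)` -/
def F (K m : ℕ) : ℚ := (-1) ^ m * (K.choose m : ℚ)

lemma F_PO (K m : ℕ) : PO p 0 (F K m) := by
  unfold F
  have : PO p 0 ((-1 : ℚ)) := by simpa using of_int (p := p) (-1)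
  exact (this.pow0 m).mul0 (of_nat _)

lemma F_zero (K : ℕ) : F K 0 = 1 := by simp [F]

lemma F_succ (K m : ℕ) : F K (m + 1) = F K m * (1 - (K + 1) / (m + 1)) := by
  unfold F
  have h1 := Nat.choose_succ_right_eq K m
  have h2 : (K.choose (m + 1) : ℚ) * (m + 1) = K.choose m * (K - m) := by
    rcases Nat.lt_or_ge K m with h | h
    · have e1 : K.choose m = 0 := Nat.choose_eq_zero_of_lt h
      have e2 : K.choose (m + 1) = 0 := Nat.choose_eq_zero_of_lt (by omega)
      rw [e1, e2]; simp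
    · have := congrArg (fun z : ℕ => (z : ℚ)) h1
      push_cast [Nat.cast_sub h] at this
      exact this
  have h3 : ((m : ℚ) + 1) ≠ 0 := by positivity
  rw [pow_succ]
  field_simp
  linear_combination -h2

/-- the part of the product over the integers prime to `p` -/
def Qp (p : ℕ) (y : ℚ) (m : ℕ) : ℚ := ∏ i ∈ range m, (1 - y * θ p (i + 1))

lemma Qp_one {k : ℕ} {y : ℚ} (hy : PO p k y) (m : ℕ) : PO p k (Qp p y m - 1) := by
  unfold Qp
  apply prod_one
  intro i _
  have := (hy.mul0' (θ_PO (i + 1))).neg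
  convert this using 1
  ring

lemma F_split {n : ℕ} (hn : 0 < n) (m : ℕ) : F (2 * (p * n) - 1) m = Qp p (2 * (p * n : ℕ)) m * F (2 * n - 1) (m / p) := by
  have hp0 := hp.out.pos
  have hK : ((2 * (p * n) - 1 : ℕ) : ℚ) + 1 = 2 * (p * n : ℕ) := by
    rw [Nat.cast_sub (by have := Nat.mul_pos hp0 hn; omega)]; push_cast; ring
  have hk : ((2 * n - 1 : ℕ) : ℚ) + 1 = 2 * n := by
    rw [Nat.cast_sub (by omega)]; push_cast; ring
  induction m with
  | zero => simp [F, Qp]
  | succ m ih =>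
    have h1 : Qp p (2 * (p * n : ℕ)) (m + 1) = Qp p (2 * (p * n : ℕ)) m * (1 - 2 * (p * n : ℕ) * θ p (m + 1)) := by
      unfold Qp; rw [prod_range_succ]
    rw [F_succ, ih, h1, hK]
    by_cases h : p ∣ m + 1
    · have h2 : (m + 1) / p = m / p + 1 := by rw [Nat.succ_div, if_pos h]
      rw [h2, F_succ, hk, θ_dvd h]
      obtain ⟨c, hc⟩ := h
      have h3 : m / p + 1 = c := by rw [← h2, hc, Nat.mul_div_cancel_left c hp0]
      have h4 : ((m / p : ℕ) : ℚ) + 1 = c := by exact_mod_cast h3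
      have h5 : (m : ℚ) + 1 = p * c := by exact_mod_cast hc
      have hc0 : (c : ℚ) ≠ 0 := by rw [← h4]; positivity
      have hpp : (p : ℚ) ≠ 0 := cast_ne
      rw [h4, h5]
      push_cast
      field_simp
      ring
    · have h2 : (m + 1) / p = m / p := by rw [Nat.succ_div, if_neg h, add_zero]
      rw [h2]
      unfold θ
      rw [if_neg h]
      push_cast
      ring

/-- alternating sums -/
lemma F_sum {K : ℕ} (a : ℕ) : F K a = ∑ c ∈ range (a + 1), F (K + 1) c := by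
  induction a with
  | zero => simp [F]
  | succ a ih =>
    rw [sum_range_succ, ← ih]
    unfold F
    rw [Nat.choose_succ_succ, pow_succ]
    push_cast
    ring

/-- the terms prime to `p` -/
lemma term_prime {n : ℕ} (hn : 0 < n) {m : ℕ} (hm : ¬ p ∣ m) :
    F (2 * (p * n)) m = -(2 * (p * n : ℕ)) * θ p m * (Qp p (2 * (p * n : ℕ)) (m - 1) * F (2 * n - 1) (m / p)) := by
  have hp0 := hp.out.pos
  have hpn := Nat.mul_pos hp0 hn
  obtain ⟨k, rfl⟩ : ∃ k, m = k + 1 := ⟨m - 1, by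
    have : m ≠ 0 := by rintro rfl; exact hm (dvd_zero p)
    omega⟩
  have h2 : (k + 1) / p = k / p := by rw [Nat.succ_div, if_neg hm, add_zero]
  rw [h2, Nat.add_sub_cancel, ← F_split hn]
  have h3 := Nat.add_one_mul_choose_eq (2 * (p * n) - 1) k
  rw [Nat.sub_add_cancel (by omega)] at h3
  have h4 : ((2 * (p * n) : ℕ) : ℚ) * (Nat.choose (2 * (p * n) - 1) k : ℚ) = (Nat.choose (2 * (p * n)) (k + 1) : ℚ) * (k + 1) := by
    exact_mod_cast h3
  unfold F θ
  rw [if_neg hm, pow_succ]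
  have h5 : ((k : ℚ) + 1) ≠ 0 := by positivity
  push_cast at h4 ⊢
  field_simp
  linear_combination h4

/-- the terms divisible by `p` -/
lemma term_mult {n : ℕ} (hn : 0 < n) {c : ℕ} (hc : 0 < c) :
    F (2 * (p * n)) (p * c) = Qp p (2 * (p * n : ℕ)) (p * c - 1) * F (2 * n) c := by
  have hp0 := hp.out.pos
  have hpn := Nat.mul_pos hp0 hn
  have hpc := Nat.mul_pos hp0 hc
  have h3 := Nat.add_one_mul_choose_eq (2 * (p * n) - 1) (p * c - 1)
  rw [Nat.sub_add_cancel (by omega), Nat.sub_add_cancel (by omega)] at h3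
  have h3' := Nat.add_one_mul_choose_eq (2 * n - 1) (c - 1)
  rw [Nat.sub_add_cancel (by omega), Nat.sub_add_cancel (by omega)] at h3'
  have h4 : 2 * ((p : ℚ) * n) * (Nat.choose (2 * (p * n) - 1) (p * c - 1) : ℚ) = (Nat.choose (2 * (p * n)) (p * c) : ℚ) * (p * c) := by
    exact_mod_cast h3
  have h4' : 2 * (n : ℚ) * (Nat.choose (2 * n - 1) (c - 1) : ℚ) = (Nat.choose (2 * n) c : ℚ) * c := by
    exact_mod_cast h3'
  have h5 := F_split (p := p) hn (p * c - 1)
  have h6 : (p * c - 1) / p = c - 1 := by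
    obtain ⟨d, rfl⟩ : ∃ d, c = d + 1 := ⟨c - 1, by omega⟩
    rw [Nat.add_sub_cancel, Nat.mul_succ]
    have : p * d + p - 1 = p - 1 + p * d := by omega
    rw [this, Nat.add_mul_div_left _ _ hp0, Nat.div_eq_of_lt (by omega), zero_add]
  rw [h6] at h5
  have hs : ∀ k, 0 < k → (-1 : ℚ) ^ k = -(-1) ^ (k - 1) := by
    intro k hk
    obtain ⟨d, rfl⟩ : ∃ d, k = d + 1 := ⟨k - 1, by omega⟩
    rw [Nat.add_sub_cancel, pow_succ]; ring
  unfold F at *
  rw [hs _ hpc, hs _ hc]
  have hc0 : (c : ℚ) ≠ 0 := by positivity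
  have hpp : (p : ℚ) ≠ 0 := cast_ne
  have h7 : (Nat.choose (2 * (p * n)) (p * c) : ℚ) = 2 * n * (Nat.choose (2 * (p * n) - 1) (p * c - 1) : ℚ) / c := by
    field_simp
    have : (p : ℚ) * ((Nat.choose (2 * (p * n)) (p * c) : ℚ) * c) = p * (2 * n * (Nat.choose (2 * (p * n) - 1) (p * c - 1) : ℚ)) := by
      linear_combination -h4
    exact mul_left_cancel₀ hpp this
  have h8 : (Nat.choose (2 * n) c : ℚ) = 2 * n * (Nat.choose (2 * n - 1) (c - 1) : ℚ) / c := by
    field_simp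
    linear_combination -h4'
  rw [h7, h8]
  field_simp
  linear_combination -h5

end Pool.Agent.X14.DW
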