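import Pool.Agent.X14.CM5
import Pool.Agent.X14.DW1

set_option autoImplicit false

/-! The harmonic sum attached to the reflection of central binomial coefficients. -/

namespace Pool.Agent.X14.CM

open Finset Pool.Agent.H434R2 Pool.Agent.H434R2.PO Pool.Agent.X14.TK

set_option linter.unusedSectionVars false

variable {p : ℕ} [hp : Fact p.Prime]

lemma harm_PO (N : ℕ) (h : N < p) : PO p 0 (harmonic N) := by
  rw [harmonic]
  apply PO.sum
  intro i hi
  have := mem_range.1 hi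
  apply inv_nat
  intro hd
  have := Nat.le_of_dvd (by omega) hd
  omega

/-- `H_{2k} - H_k` -/
def hk (k : ℕ) : ℚ := harmonic (2 * k) - harmonic k

lemma hk_succ (k : ℕ) : hk (k + 1) = hk k + 1 / ((2 * k + 1) * (2 * k + 2)) := by
  rw [hk, hk, show 2 * (k + 1) = 2 * k + 1 + 1 by ring, harmonic_succ, harmonic_succ, harmonic_succ]
  push_cast
  have c1 : (2 * (k : ℚ) + 1) ≠ 0 := by positivity
  have c2 : (2 * (k : ℚ) + 1 + 1) ≠ 0 := by positivity
  have c3 : ((k : ℚ) + 1) ≠ 0 := by positivity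
  have c4 : (2 * (k : ℚ) + 2) ≠ 0 := by positivity
  field_simp
  ring

lemma hk_PO {k : ℕ} (h : 2 * k < p) : PO p 0 (hk k) := (harm_PO _ h).sub (harm_PO _ (by omega))

lemma refl_step {n : ℕ} (hn : p = 2 * n + 1) {k : ℕ} (hk' : k + 1 ≤ n) :
    (2 * (k : ℚ) + 2 - p) * (16 ^ (k + 1) * ((n - (k + 1)).centralBinom : ℚ)) = 4 * (2 * k + 1 - p) * (16 ^ k * ((n - k).centralBinom : ℚ)) := by
  obtain ⟨m, hm⟩ : ∃ m, n = m + (k + 1) := ⟨n - (k + 1), by omega⟩
  subst hm
  have e1 : m + (k + 1) - (k + 1) = m := by omega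
  have e2 : m + (k + 1) - k = m + 1 := by omega
  rw [e1, e2]
  have h1 := cb_succ m
  have hpn : (p : ℚ) = 2 * ((m : ℚ) + (k + 1)) + 1 := by rw [hn]; push_cast; ring
  rw [hpn]
  linear_combination (8 * (16 : ℚ) ^ k) * h1

lemma refl {n : ℕ} (hn : p = 2 * n + 1) : ∀ k ≤ n,
    PO p 2 (16 ^ k * ((n - k).centralBinom : ℚ) - (n.centralBinom : ℚ) * ((k.centralBinom : ℚ) * (1 - p * hk k))) := by
  intro k
  induction k with
  | zero =>
    intro _
    have : hk 0 = 0 := by simp [hk]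
    rw [this]
    simpa using PO.zero (p := p) 2
  | succ k ih =>
    intro hkn
    have i1 := ih (by omega)
    have s1 := refl_step hn hkn
    have s2 := cb_succ k
    have s3 := hk_succ k
    have hnd : ¬ p ∣ k + 1 := by
      intro hd
      have := Nat.le_of_dvd (by omega) hd
      omega
    have hnd2 : ¬ p ∣ 2 * k + 2 := by
      intro hd
      rw [show 2 * k + 2 = 2 * (k + 1) by ring] at hd
      rcases (Nat.Prime.dvd_mul hp.out).1 hd with h | h
      · have := Nat.le_of_dvd (by omega) h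
        omega
      · exact hnd h
    have u2 : PO p 0 (((2 * k + 2 : ℕ) : ℚ)⁻¹) := inv_nat hnd2
    -- the unit 2k+2-p
    have hpu : PO p 1 ((p : ℚ) * ((2 * k + 2 : ℕ) : ℚ)⁻¹) := p_PO.mul0' u2
    have u3 := inv_one_sub hpu
    have n3 := one_sub_ne hpu
    have c2 : ((2 * k + 2 : ℕ) : ℚ) ≠ 0 := by positivity
    have ec : (2 * (k : ℚ) + 2 - p) = ((2 * k + 2 : ℕ) : ℚ) * (1 - (p : ℚ) * ((2 * k + 2 : ℕ) : ℚ)⁻¹) := by
      push_cast at c2 ⊢
      field_simp
    have cne : (2 * (k : ℚ) + 2 - p) ≠ 0 := by rw [ec]; exact mul_ne_zero c2 n3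
    have cinv : PO p 0 ((2 * (k : ℚ) + 2 - p)⁻¹) := by
      rw [ec, mul_inv]; exact u2.mul0 u3
    have key : PO p 2 ((2 * (k : ℚ) + 2 - p) * (16 ^ (k + 1) * ((n - (k + 1)).centralBinom : ℚ) -
        (n.centralBinom : ℚ) * (((k + 1).centralBinom : ℚ) * (1 - p * hk (k + 1))))) := by
      have e : (2 * (k : ℚ) + 2 - p) * (16 ^ (k + 1) * ((n - (k + 1)).centralBinom : ℚ) -
        (n.centralBinom : ℚ) * (((k + 1).centralBinom : ℚ) * (1 - p * hk (k + 1)))) =
        4 * (2 * k + 1 - p) * (16 ^ k * ((n - k).centralBinom : ℚ) - (n.centralBinom : ℚ) * ((k.centralBinom : ℚ) * (1 - p * hk k))) +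
        (p : ℚ) ^ 2 * (4 * (n.centralBinom : ℚ) * (k.centralBinom : ℚ) * (hk k - (2 * k + 1) * ((2 * k + 2 : ℕ) : ℚ)⁻¹ * hk (k + 1))) := by
        have c1 : (2 * (k : ℚ) + 1) ≠ 0 := by positivity
        have c4 : (2 * (k : ℚ) + 2) ≠ 0 := by positivity
        have c5 : ((k : ℚ) + 1) ≠ 0 := by positivity
        have s2' : ((k + 1).centralBinom : ℚ) = 2 * (2 * k + 1) * (k.centralBinom : ℚ) / (k + 1) := by
          rw [eq_div_iff c5]; linear_combination s2
        rw [mul_sub, s1, s2', s3]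
        push_cast
        field_simp
        ring
      rw [e]
      apply PO.add
      · apply PO.mul0 _ i1
        apply PO.mul0
        · exact_mod_cast of_nat (p := p) 4
        · apply PO.sub
          · exact_mod_cast of_nat (p := p) (2 * k + 1)
          · exact of_nat p
      · apply PO.mul0' (ppow 2)
        apply PO.mul0
        · apply PO.mul0
          · apply PO.mul0
            · exact_mod_cast of_nat (p := p) 4
            · exact of_nat _
          · exact of_nat _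
        · apply PO.sub (hk_PO (by omega))
          apply PO.mul0
          · apply PO.mul0 _ u2
            exact_mod_cast of_nat (p := p) (2 * k + 1)
          · exact hk_PO (by omega)
    have e2 : 16 ^ (k + 1) * ((n - (k + 1)).centralBinom : ℚ) -
        (n.centralBinom : ℚ) * (((k + 1).centralBinom : ℚ) * (1 - p * hk (k + 1))) =
        (2 * (k : ℚ) + 2 - p)⁻¹ * ((2 * (k : ℚ) + 2 - p) * (16 ^ (k + 1) * ((n - (k + 1)).centralBinom : ℚ) -
        (n.centralBinom : ℚ) * (((k + 1).centralBinom : ℚ) * (1 - p * hk (k + 1))))) :=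
      (inv_mul_cancel_left₀ cne _).symm
    rw [e2]
    exact PO.mul0 cinv key

lemma cube_cong {k : ℕ} {a b : ℚ} (ha : PO p 0 a) (hb : PO p 0 b) (h : PO p k (a - b)) : PO p k (a ^ 3 - b ^ 3) := by
  have e : a ^ 3 - b ^ 3 = (a ^ 2 + a * b + b ^ 2) * (a - b) := by ring
  rw [e]
  exact PO.mul0 (((ha.pow0 2).add (ha.mul0 hb)).add (hb.pow0 2)) h

/-- the sum of the problem -/
def SS (n : ℕ) : ℚ := ∑ k ∈ range (n + 1), (k.centralBinom : ℚ) ^ 3 * hk k

lemma pow_int_cong {n : ℕ} (hn : p = 2 * n + 1) : PO p 2 ((n.centralBinom : ℚ) - (-16) ^ n) := by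
  have hP : (p : ZMod (p ^ 2)) ^ 2 = 0 := by
    have := ZMod.natCast_self (p ^ 2)
    push_cast at this
    exact this
  have h := MD (S := ZMod (p ^ 2)) hp.out hn hP n le_rfl
  have h1 : ((n + n).choose (2 * n)) = 1 := by rw [← two_mul, Nat.choose_self]
  rw [h1] at h
  have h2 : ((((n.centralBinom : ℤ) - (-16) ^ n : ℤ)) : ZMod (p ^ 2)) = 0 := by
    push_cast
    rw [h]; simp
  rw [ZMod.intCast_zmod_eq_zero_iff_dvd] at h2
  obtain ⟨c, hc⟩ := h2
  have e : ((n.centralBinom : ℚ) - (-16) ^ n) = (p : ℚ) ^ 2 * (c : ℚ) := by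
    have := congrArg (fun t : ℤ => (t : ℚ)) hc
    push_cast at this
    exact this
  rw [e]
  exact (ppow 2).mul0' (of_int c)

theorem SS_cong (h3 : 3 < p) {n : ℕ} (hn : p = 2 * n + 1) : PO p 1 (SS n) := by
  set Z : ℚ := ∑ k ∈ range (n + 1), (k.centralBinom : ℚ) ^ 3 * 4096 ^ (n - k) with hZ
  set A : ℚ := ∑ k ∈ range (n + 1), (k.centralBinom : ℚ) ^ 3 with hA
  have z1 : PO p 2 ((-1) ^ n * Z - 4096 ^ n * A) := by
    obtain ⟨c, hc⟩ := Z1 hp.out hn
    have e : ((-1) ^ n * Z - 4096 ^ n * A) = (p : ℚ) ^ 2 * (c : ℚ) := by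
      have := congrArg (fun t : ℤ => (t : ℚ)) hc
      push_cast at this
      rw [hZ, hA]
      exact this
    rw [e]
    exact (ppow 2).mul0' (of_int c)
  have z2 : PO p 2 (Z - (n.centralBinom : ℚ) ^ 3 * (A - 3 * p * SS n)) := by
    have e1 : Z = ∑ k ∈ range (n + 1), (16 ^ k * ((n - k).centralBinom : ℚ)) ^ 3 := by
      rw [hZ, ← sum_range_reflect]
      apply sum_congr rfl
      intro k hk'
      have := mem_range.1 hk'
      rw [show n + 1 - 1 - k = n - k by omega, show n - (n - k) = k by omega, mul_pow, ← pow_mul, mul_comm k 3, pow_mul]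
      norm_num [mul_comm]
    have e2 : (n.centralBinom : ℚ) ^ 3 * (A - 3 * p * SS n) = ∑ k ∈ range (n + 1), (n.centralBinom : ℚ) ^ 3 * ((k.centralBinom : ℚ) ^ 3 * (1 - 3 * p * hk k)) := by
      rw [← mul_sum, hA, SS, mul_sum, ← sum_sub_distrib]
      congr 1
      apply sum_congr rfl
      intro k _; ring
    rw [e1, e2]
    apply sum_sub
    intro k hk'
    have hk2 := mem_range.1 hk'
    have r := refl hn k (by omega)
    have hh := hk_PO (p := p) (k := k) (by omega)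
    have hb : PO p 0 ((n.centralBinom : ℚ) * ((k.centralBinom : ℚ) * (1 - p * hk k))) := by
      apply PO.mul0 (of_nat _)
      apply PO.mul0 (of_nat _)
      exact PO.one.sub ((of_nat p).mul0 hh)
    have ha : PO p 0 (16 ^ k * ((n - k).centralBinom : ℚ)) := by
      apply PO.mul0 _ (of_nat _)
      exact_mod_cast of_nat (p := p) (16 ^ k)
    have c1 := cube_cong ha hb r
    have c2 : PO p 2 (((n.centralBinom : ℚ) * ((k.centralBinom : ℚ) * (1 - p * hk k))) ^ 3 - (n.centralBinom : ℚ) ^ 3 * ((k.centralBinom : ℚ) ^ 3 * (1 - 3 * p * hk k))) := by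
      have e : ((n.centralBinom : ℚ) * ((k.centralBinom : ℚ) * (1 - p * hk k))) ^ 3 - (n.centralBinom : ℚ) ^ 3 * ((k.centralBinom : ℚ) ^ 3 * (1 - 3 * p * hk k)) =
        (p : ℚ) ^ 2 * ((n.centralBinom : ℚ) ^ 3 * (k.centralBinom : ℚ) ^ 3 * (hk k ^ 2 * (3 - p * hk k))) := by ring
      rw [e]
      apply (ppow 2).mul0'
      apply PO.mul0
      · exact ((of_nat _).pow0 3).mul0 ((of_nat _).pow0 3)
      · apply (hh.pow0 2).mul0
        apply PO.sub
        · exact_mod_cast of_nat (p := p) 3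
        · exact (of_nat p).mul0 hh
    have := c1.add c2
    have e : (16 ^ k * ((n - k).centralBinom : ℚ)) ^ 3 - ((n.centralBinom : ℚ) * ((k.centralBinom : ℚ) * (1 - p * hk k))) ^ 3 +
        (((n.centralBinom : ℚ) * ((k.centralBinom : ℚ) * (1 - p * hk k))) ^ 3 - (n.centralBinom : ℚ) ^ 3 * ((k.centralBinom : ℚ) ^ 3 * (1 - 3 * p * hk k))) =
        (16 ^ k * ((n - k).centralBinom : ℚ)) ^ 3 - (n.centralBinom : ℚ) ^ 3 * ((k.centralBinom : ℚ) ^ 3 * (1 - 3 * p * hk k)) := by ring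
    rwa [e] at this
  have sPO : PO p 0 (SS n) := by
    apply PO.sum
    intro k hk'
    have hk2 := mem_range.1 hk'
    exact ((of_nat _).pow0 3).mul0 (hk_PO (by omega))
  have aPO : PO p 0 A := by
    apply PO.sum
    intro k _
    exact (of_nat _).pow0 3
  have z3 : PO p 2 ((n.centralBinom : ℚ) ^ 3 - ((-16) ^ n) ^ 3) := by
    apply cube_cong (of_nat _) _ (pow_int_cong hn)
    exact_mod_cast of_int (p := p) ((-16) ^ n)
  have e16 : ((-16 : ℚ) ^ n) ^ 3 = (-1) ^ n * 4096 ^ n := by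
    rw [← pow_mul, mul_comm n 3, pow_mul, ← mul_pow]; norm_num
  rw [e16] at z3
  have hsq : ((-1 : ℚ) ^ n) * (-1) ^ n = 1 := by rw [← mul_pow]; simp
  have m1 : PO p 0 ((-1 : ℚ) ^ n) := by exact_mod_cast of_int (p := p) ((-1) ^ n)
  have tPO : PO p 0 (A - 3 * p * SS n) := by
    apply aPO.sub
    apply PO.mul0 _ sPO
    exact_mod_cast of_nat (p := p) (3 * p)
  have z4 : PO p 2 (4096 ^ n * (3 * p * SS n)) := by
    have e : (4096 : ℚ) ^ n * (3 * p * SS n) = ((-1) ^ n * Z - 4096 ^ n * A) * (-1) - (-1) ^ n * (-1) * (Z - (n.centralBinom : ℚ) ^ 3 * (A - 3 * p * SS n)) -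
        (-1) ^ n * (-1) * (((n.centralBinom : ℚ) ^ 3 - (-1) ^ n * 4096 ^ n) * (A - 3 * p * SS n)) := by
      linear_combination (4096 ^ n * (A - 3 * p * SS n)) * hsq
    rw [e]
    have mm : PO p 0 ((-1 : ℚ) ^ n * (-1)) := m1.mul0 (PO.one.neg)
    apply PO.sub
    · apply PO.sub
      · exact z1.mul0' (PO.one.neg)
      · exact PO.mul0 mm z2
    · exact PO.mul0 mm (z3.mul0' tPO)
  have hnd : ¬ p ∣ 4096 ^ n * 3 := by
    intro hd
    rcases (Nat.Prime.dvd_mul hp.out).1 hd with h | h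
    · have h1 := hp.out.dvd_of_dvd_pow h
      have h2 : p ∣ 2 ^ 12 := by norm_num; exact h1
      have h4 := hp.out.dvd_of_dvd_pow h2
      have := Nat.le_of_dvd (by norm_num) h4
      omega
    · have := Nat.le_of_dvd (by norm_num) h
      omega
  have hne : ((4096 ^ n * 3 : ℕ) : ℚ) ≠ 0 := by positivity
  have z5 : PO p (1 + 1) (SS n * (p : ℚ) ^ 1) := by
    have e : SS n * (p : ℚ) ^ 1 = ((4096 ^ n * 3 : ℕ) : ℚ)⁻¹ * (4096 ^ n * (3 * p * SS n)) := by
      push_cast at hne ⊢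
      field_simp
    rw [e]
    exact PO.mul0 (inv_nat hnd) z4
  exact DW.PO_cancel z5

end Pool.Agent.X14.CM
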