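import Pool.Agent.X14.DW1

set_option autoImplicit false

/-! Decomposition of sums of binomial coefficients `C(2p^r, m)` modulo `p^(2r)`. -/

namespace Pool.Agent.X14.DW

open Finset Pool.Agent.H434R2 Pool.Agent.H434R2.PO

set_option linter.unusedSectionVars false

variable {p : ℕ} [hp : Fact p.Prime]

/-- the sum of `g(m)/m` over the integers `a ≤ m < b` prime to `p` -/
def HH (p : ℕ) (g : ℤ → ℤ) (a b : ℕ) : ℚ := ∑ m ∈ Ico a b, (g m : ℚ) * θ p m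

lemma HH_PO (g : ℤ → ℤ) (a b : ℕ) : PO p 0 (HH p g a b) :=
  PO.sum _ _ (fun _ _ => (of_int _).mul0 (θ_PO _))

/-- for every `c`, the factor `C(2 p^ρ, c)` compensates the precision lost at `p c` -/
lemma trade (ρ c : ℕ) : ∃ s : ℕ, s ≤ ρ + 1 ∧ p ^ s ∣ p * c ∧ PO p (ρ + 1) (F (2 * p ^ ρ) c * (p : ℚ) ^ s) := by
  have hp0 := hp.out.pos
  rcases Nat.eq_zero_or_pos c with rfl | hc
  · exact ⟨ρ + 1, le_rfl, by simp, (F_PO _ _).mul0 (PO_ppow _)⟩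
  obtain ⟨e, c', hc', he⟩ := Nat.exists_eq_pow_mul_and_not_dvd (Nat.mul_pos hp0 hc).ne' p hp.out.ne_one
  by_cases h : ρ + 1 ≤ e
  · refine ⟨ρ + 1, le_rfl, ?_, (F_PO _ _).mul0 (PO_ppow _)⟩
    rw [he]
    exact (pow_dvd_pow p h).mul_right _
  · refine ⟨e, by omega, ⟨c', he⟩, ?_⟩
    have h3 := Nat.add_one_mul_choose_eq (2 * p ^ ρ - 1) (c - 1)
    have hpρ : 0 < p ^ ρ := pow_pos hp0 _
    rw [Nat.sub_add_cancel (by omega), Nat.sub_add_cancel (by omega)] at h3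
    have h4 : 2 * (p : ℚ) ^ ρ * (Nat.choose (2 * p ^ ρ - 1) (c - 1) : ℚ) = (Nat.choose (2 * p ^ ρ) c : ℚ) * c := by
      exact_mod_cast h3
    have h5 : (p : ℚ) * c = (p : ℚ) ^ e * c' := by exact_mod_cast he
    have hc0 : (c' : ℚ) ≠ 0 := by
      intro h0; apply hc'; rw [show c' = 0 by exact_mod_cast h0]; exact dvd_zero p
    have h6 : F (2 * p ^ ρ) c * (p : ℚ) ^ e = (p : ℚ) ^ (ρ + 1) * (2 * ((-1) ^ c * (Nat.choose (2 * p ^ ρ - 1) (c - 1) : ℚ)) * (c' : ℚ)⁻¹) := by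
      unfold F
      field_simp
      rw [pow_succ]
      linear_combination (-(Nat.choose (2 * p ^ ρ) c : ℚ)) * h5 - (p : ℚ) * h4
    rw [h6]
    have hm1 : PO p 0 ((-1 : ℚ)) := by simpa using of_int (p := p) (-1)
    exact (PO_ppow _).mul0' (((by exact_mod_cast of_nat (p := p) 2 : PO p 0 (2 : ℚ)).mul0 ((hm1.pow0 c).mul0 (of_nat _))).mul0 (inv_nat hc'))

lemma two_PO : PO p 0 (2 : ℚ) := by exact_mod_cast of_nat (p := p) 2

lemma N_PO (ρ : ℕ) : PO p (ρ + 1) (2 * ((p * p ^ ρ : ℕ) : ℚ)) := by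
  have : ((p * p ^ ρ : ℕ) : ℚ) = (p : ℚ) ^ (ρ + 1) := by push_cast; rw [pow_succ]; ring
  rw [this]
  exact two_PO.mul0 (PO_ppow _)

/-- sums over `p ∣ m` -/
lemma sum_mult (μ : ℕ) (f : ℕ → ℚ) : ∑ m ∈ range (p * μ), (if p ∣ m then f m else 0) = ∑ c ∈ range μ, f (p * c) := by
  have hp0 := hp.out.pos
  induction μ with
  | zero => simp
  | succ μ ih =>
    rw [Nat.mul_succ, sum_range_add, ih, sum_range_succ]
    congr 1
    obtain ⟨d, hd⟩ : ∃ d, p = d + 1 := ⟨p - 1, by omega⟩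
    have h1 : ∑ x ∈ range p, (if p ∣ p * μ + x then f (p * μ + x) else 0) = ∑ x ∈ range p, (if x = 0 then f (p * μ) else 0) := by
      apply sum_congr rfl
      intro x hx
      have hx' := mem_range.1 hx
      rcases Nat.eq_zero_or_pos x with rfl | h0
      · simp
      · have h9 : ¬ p ∣ p * μ + x := by
          intro h
          have := (Nat.dvd_add_right (dvd_mul_right p μ)).1 h
          exact absurd (Nat.le_of_dvd h0 this) (by omega)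
        rw [if_neg h9, if_neg (by omega)]
    rw [h1, Finset.sum_ite_eq' (range p) 0]
    rw [if_pos (mem_range.2 hp0)]

/-- interchange of summations -/
lemma sum_swap (μ : ℕ) (w v : ℕ → ℚ) :
    ∑ m ∈ range (p * μ), w m * ∑ c ∈ range (m / p + 1), v c = ∑ c ∈ range μ, v c * ∑ m ∈ Ico (p * c) (p * μ), w m := by
  have hp0 := hp.out.pos
  simp only [mul_sum]
  rw [Finset.sum_comm' (s' := fun c => Ico (p * c) (p * μ)) (t' := range μ)]
  · apply sum_congr rfl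
    intro c _
    apply sum_congr rfl
    intro m _
    ring
  · intro m c
    rw [mem_range, mem_range, mem_Ico, mem_range, Nat.lt_succ_iff, Nat.le_div_iff_mul_le hp0, mul_comm c p]
    constructor
    · rintro ⟨h1, h2⟩
      refine ⟨⟨h2, h1⟩, ?_⟩
      have : p * c < p * μ := lt_of_le_of_lt h2 h1
      exact lt_of_mul_lt_mul_left this (Nat.zero_le _)
    · rintro ⟨⟨h1, h2⟩, _⟩
      exact ⟨h2, h1⟩

/-- the sum of `θ` up to `p c` -/
lemma θ_sum (h2 : p ≠ 2) {s c : ℕ} (hs : p ^ s ∣ p * c) (hc : 0 < c) : PO p s (∑ i ∈ range (p * c - 1), θ p (i + 1)) := by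
  have hp0 := hp.out.pos
  have hpc := Nat.mul_pos hp0 hc
  have h1 := sym_zero (p := p) h2 hs (dvd_mul_right p c) (fun _ => 1) (fun _ => rfl)
  have h3 : ∑ m ∈ range (p * c), (((1 : ℤ)) : ℚ) * θ p m = ∑ i ∈ range (p * c - 1), θ p (i + 1) := by
    obtain ⟨d, hd⟩ : ∃ d, p * c = d + 1 := ⟨p * c - 1, by omega⟩
    rw [hd, Nat.add_sub_cancel, sum_range_succ', θ_zero]
    simp
  rwa [h3] at h1

lemma mult_eqm (h2 : p ≠ 2) (ρ c : ℕ) : PO p (2 * (ρ + 1)) (F (2 * (p * p ^ ρ)) (p * c) - F (2 * p ^ ρ) c) := by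
  have hp0 := hp.out.pos
  rcases Nat.eq_zero_or_pos c with rfl | hc
  · rw [mul_zero, F_zero, F_zero, sub_self]; exact zero _
  obtain ⟨s, hs, hd, ht⟩ := trade (p := p) ρ c
  rw [term_mult (pow_pos hp0 ρ) hc]
  have h3 := prod_first (N_PO (p := p) ρ) (fun i => θ p (i + 1)) (fun i => θ_PO _) (p * c - 1)
  have h4 := PO_trade ht (θ_sum h2 hd hc)
  have h5 := (N_PO (p := p) ρ).mul h4
  rw [← two_mul] at h5
  have h6 := (h3.mul0' (F_PO (2 * p ^ ρ) c)).sub h5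
  unfold Qp
  convert h6 using 1
  ring

/-- **Decomposition.** -/
theorem decomp (h2 : p ≠ 2) (ρ μ : ℕ) (g : ℤ → ℤ) :
    PO p (2 * (ρ + 1)) (∑ m ∈ range (p * μ), (g m : ℚ) * F (2 * (p * p ^ ρ)) m -
      (∑ c ∈ range μ, (g ((p * c : ℕ) : ℤ) : ℚ) * F (2 * p ^ ρ) c -
        2 * ((p * p ^ ρ : ℕ) : ℚ) * ∑ c ∈ range μ, F (2 * p ^ ρ) c * HH p g (p * c) (p * μ))) := by
  have hp0 := hp.out.pos
  have hpρ : 0 < p ^ ρ := pow_pos hp0 _
  have e1 : ∑ m ∈ range (p * μ), (g m : ℚ) * F (2 * (p * p ^ ρ)) m =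
      ∑ m ∈ range (p * μ), (if p ∣ m then (g m : ℚ) * F (2 * (p * p ^ ρ)) m else 0) +
      ∑ m ∈ range (p * μ), (if p ∣ m then 0 else (g m : ℚ) * F (2 * (p * p ^ ρ)) m) := by
    rw [← sum_add_distrib]
    apply sum_congr rfl
    intro m _
    split_ifs <;> simp
  rw [e1, sum_mult μ (fun m => (g m : ℚ) * F (2 * (p * p ^ ρ)) m)]
  have a1 : PO p (2 * (ρ + 1)) (∑ c ∈ range μ, (g ((p * c : ℕ) : ℤ) : ℚ) * F (2 * (p * p ^ ρ)) (p * c) -
      ∑ c ∈ range μ, (g ((p * c : ℕ) : ℤ) : ℚ) * F (2 * p ^ ρ) c) := by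
    apply PO.sum_sub
    intro c _
    rw [← mul_sub]
    exact PO.mul0 (of_int _) (mult_eqm h2 ρ c)
  have a2 : PO p (2 * (ρ + 1)) (∑ m ∈ range (p * μ), (if p ∣ m then 0 else (g m : ℚ) * F (2 * (p * p ^ ρ)) m) -
      ∑ m ∈ range (p * μ), (-(2 * ((p * p ^ ρ : ℕ) : ℚ)) * ((g m : ℚ) * θ p m)) * F (2 * p ^ ρ - 1) (m / p)) := by
    apply PO.sum_sub
    intro m _
    split_ifs with h
    · rw [θ_dvd h]; simpa using zero (p := p) (2 * (ρ + 1))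
    · rw [term_prime hpρ h]
      have h3 := Qp_one (N_PO (p := p) ρ) (m - 1)
      have h4 := ((N_PO (p := p) ρ).mul h3).neg
      rw [← two_mul] at h4
      have h5 := h4.mul0' (((of_int (g m)).mul0 (θ_PO (p := p) m)).mul0 (F_PO (2 * p ^ ρ - 1) (m / p)))
      convert h5 using 1
      ring
  have e2 : ∑ m ∈ range (p * μ), (-(2 * ((p * p ^ ρ : ℕ) : ℚ)) * ((g m : ℚ) * θ p m)) * F (2 * p ^ ρ - 1) (m / p) =
      -(2 * ((p * p ^ ρ : ℕ) : ℚ) * ∑ c ∈ range μ, F (2 * p ^ ρ) c * HH p g (p * c) (p * μ)) := by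
    have h3 : ∀ a, F (2 * p ^ ρ - 1) a = ∑ c ∈ range (a + 1), F (2 * p ^ ρ) c := by
      intro a
      have := F_sum (K := 2 * p ^ ρ - 1) a
      rwa [Nat.sub_add_cancel (by omega)] at this
    unfold HH
    rw [← sum_swap μ (fun m => (g m : ℚ) * θ p m) (fun c => F (2 * p ^ ρ) c), mul_sum, ← sum_neg_distrib]
    apply sum_congr rfl
    intro m _
    rw [h3]; ring
  rw [e2] at a2
  have h3 := a1.add a2
  convert h3 using 1
  ring

/-- the hypothesis on block sums -/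
def Blk (p r : ℕ) (lam : ℚ) (g : ℤ → ℤ) : Prop :=
  ∀ s ≤ r, ∀ a b : ℕ, a ≤ b → p ^ s ∣ a → p ^ s ∣ b → PO p s (HH p g a b - lam * (g a - g b))

/-- **The evaluation.** -/
theorem eval (h2 : p ≠ 2) (ρ μ : ℕ) (hμ : p ^ ρ ∣ μ) (g : ℤ → ℤ) {lam : ℚ} (hB : Blk p (ρ + 1) lam g) :
    PO p (2 * (ρ + 1)) (∑ m ∈ range (p * μ), (g m : ℚ) * F (2 * (p * p ^ ρ)) m -
      ((1 - 2 * ((p * p ^ ρ : ℕ) : ℚ) * lam) * ∑ c ∈ range μ, (g ((p * c : ℕ) : ℤ) : ℚ) * F (2 * p ^ ρ) c +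
        2 * ((p * p ^ ρ : ℕ) : ℚ) * lam * (g ((p * μ : ℕ) : ℤ)) * ∑ c ∈ range μ, F (2 * p ^ ρ) c)) := by
  have h1 := decomp h2 ρ μ g
  have h3 : PO p (ρ + 1) (∑ c ∈ range μ, F (2 * p ^ ρ) c * HH p g (p * c) (p * μ) -
      ∑ c ∈ range μ, F (2 * p ^ ρ) c * (lam * ((g ((p * c : ℕ) : ℤ) : ℚ) - (g ((p * μ : ℕ) : ℤ) : ℚ)))) := by
    apply PO.sum_sub
    intro c hc
    have hc' := mem_range.1 hc
    rw [← mul_sub]
    obtain ⟨s, hs, hd, ht⟩ := trade (p := p) ρ c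
    refine PO_trade ht (hB s hs _ _ (Nat.mul_le_mul_left p hc'.le) hd ?_)
    refine (pow_dvd_pow p hs).trans ?_
    rw [pow_succ, mul_comm]
    exact mul_dvd_mul_left p hμ
  have h4 := (N_PO (p := p) ρ).mul h3
  rw [← two_mul] at h4
  have h5 := h1.sub h4
  convert h5 using 1
  have e1 : ∑ c ∈ range μ, F (2 * p ^ ρ) c * (lam * ((g ((p * c : ℕ) : ℤ) : ℚ) - (g ((p * μ : ℕ) : ℤ) : ℚ))) =
      lam * ∑ c ∈ range μ, (g ((p * c : ℕ) : ℤ) : ℚ) * F (2 * p ^ ρ) c - lam * (g ((p * μ : ℕ) : ℤ)) * ∑ c ∈ range μ, F (2 * p ^ ρ) c := by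
    rw [mul_sum, mul_sum, ← sum_sub_distrib]
    apply sum_congr rfl
    intro c _
    ring
  rw [e1]
  ring

end Pool.Agent.X14.DW
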