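import Pool.Agent.X14.DW2

set_option autoImplicit false

/-! Block sums of `g(m)/m` for sequences `g` with `g(j+1) + (x-2) g(j) + g(j-1) = 0`. -/

namespace Pool.Agent.X14.DW

open Finset Pool.Agent.H434R2 Pool.Agent.H434R2.PO

set_option linter.unusedSectionVars false

variable {p : ℕ} [hp : Fact p.Prime]

/-- the recurrence -/
def W (x : ℤ) (g : ℤ → ℤ) : Prop := ∀ j, g (j + 1) = -(x - 2) * g j - g (j - 1)

lemma W.shift {x : ℤ} {g : ℤ → ℤ} (h : W x g) (a : ℤ) : W x (fun m => g (a + m)) := by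
  intro j
  have := h (a + j)
  show g (a + (j + 1)) = -(x - 2) * g (a + j) - g (a + (j - 1))
  rw [show a + (j + 1) = a + j + 1 by ring, show a + (j - 1) = a + j - 1 by ring]
  exact this

/-- the property of the powers of `p` that is used: `q` is prime to the period -/
def Good (x : ℤ) (b : ℤ → ℤ) (q : ℤ) : Prop :=
  b q ^ 2 = 1 ∧ ∀ g, W x g → ∀ m, g m - g (q - m) = (g 0 - g q) * (b q * (b (q - m) - b m))

/-- the constant for blocks of length `p^s` -/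
def lam (p : ℕ) (b : ℤ → ℤ) (s : ℕ) : ℚ :=
  ∑ m ∈ range (p ^ s), ((b ((p ^ s : ℕ) : ℤ) * b (((p ^ s : ℕ) : ℤ) - m) : ℤ) : ℚ) * θ p m

lemma lam_PO (b : ℤ → ℤ) (s : ℕ) : PO p 0 (lam p b s) :=
  PO.sum _ _ (fun _ _ => (of_int _).mul0 (θ_PO _))

lemma HH_range (g : ℤ → ℤ) (a l : ℕ) : HH p g a (a + l) = ∑ m ∈ range l, (g ((a : ℤ) + m) : ℚ) * θ p (a + m) := by
  unfold HH
  rw [Finset.sum_Ico_eq_sum_range, Nat.add_sub_cancel_left]
  apply sum_congr rfl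
  intro m _
  push_cast
  rfl

/-- one block -/
lemma one_block (h2 : p ≠ 2) {x : ℤ} {b : ℤ → ℤ} {s : ℕ} (hG : Good x b ((p ^ s : ℕ) : ℤ)) {g : ℤ → ℤ} (hg : W x g)
    {a : ℕ} (ha : p ^ s ∣ a) :
    PO p s (HH p g a (a + p ^ s) - lam p b s * ((g a : ℚ) - (g ((a : ℤ) + (p ^ s : ℕ)) : ℚ))) := by
  rcases Nat.eq_zero_or_pos s with rfl | hs
  · exact (HH_PO _ _ _).sub ((lam_PO _ _).mul0 ((of_int _).sub (of_int _)))
  have hpq : p ∣ p ^ s := dvd_pow_self p (by omega)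
  rw [HH_range]
  have h1 : PO p s (∑ m ∈ range (p ^ s), (g ((a : ℤ) + m) : ℚ) * θ p (a + m) - ∑ m ∈ range (p ^ s), (g ((a : ℤ) + m) : ℚ) * θ p m) := by
    apply PO.sum_sub
    intro m _
    rw [← mul_sub]
    exact PO.mul0 (of_int _) (θ_add ha m)
  set q : ℤ := ((p ^ s : ℕ) : ℤ) with hq
  have hg' := hg.shift a
  have h3 := sym_zero (p := p) h2 (dvd_refl (p ^ s)) hpq
    (fun m => g ((a : ℤ) + m) - (g ((a : ℤ) + 0) - g ((a : ℤ) + q)) * (b q * b (q - m))) (by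
      intro m
      have := hG.2 _ hg' m
      try simp only at this ⊢
      rw [← hq, sub_sub_cancel]
      linear_combination -this)
  have h4 := h1.add h3
  convert h4 using 1
  unfold lam
  rw [← hq, add_zero]
  have e : ∑ m ∈ range (p ^ s), (((g ((a : ℤ) + m) - (g (a : ℤ) - g ((a : ℤ) + q)) * (b q * b (q - m)) : ℤ)) : ℚ) * θ p m =
      ∑ m ∈ range (p ^ s), (g ((a : ℤ) + m) : ℚ) * θ p m -
        (∑ m ∈ range (p ^ s), ((b q * b (q - m) : ℤ) : ℚ) * θ p m) * ((g a : ℚ) - (g ((a : ℤ) + q) : ℚ)) := by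
    rw [sum_mul, ← sum_sub_distrib]
    apply sum_congr rfl
    intro m _
    push_cast
    ring
  rw [e]
  ring

/-- several blocks -/
lemma blocks (h2 : p ≠ 2) {x : ℤ} {b : ℤ → ℤ} {s : ℕ} (hG : Good x b ((p ^ s : ℕ) : ℤ)) {g : ℤ → ℤ} (hg : W x g)
    {a c : ℕ} (hac : a ≤ c) (ha : p ^ s ∣ a) (hc : p ^ s ∣ c) :
    PO p s (HH p g a c - lam p b s * ((g a : ℚ) - (g c : ℚ))) := by
  obtain ⟨t, ht⟩ : ∃ t, c = a + p ^ s * t := by
    obtain ⟨d, hd⟩ := Nat.dvd_sub hc ha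
    exact ⟨d, by omega⟩
  subst ht
  clear hac hc
  induction t with
  | zero =>
    rw [mul_zero, add_zero, sub_self, mul_zero, sub_zero]
    unfold HH
    rw [Ico_self, sum_empty]
    exact zero s
  | succ t ih =>
    have h1 := one_block h2 hG hg (a := a + p ^ s * t) (Dvd.dvd.add ha (dvd_mul_right _ _))
    have h3 := ih.add h1
    have e1 : HH p g a (a + p ^ s * (t + 1)) = HH p g a (a + p ^ s * t) + HH p g (a + p ^ s * t) (a + p ^ s * t + p ^ s) := by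
      unfold HH
      rw [Nat.mul_succ, ← add_assoc, Finset.sum_Ico_consecutive _ (Nat.le_add_right _ _) (Nat.le_add_right _ _)]
    rw [e1]
    convert h3 using 1
    have e2 : ((a + p ^ s * (t + 1) : ℕ) : ℤ) = ((a + p ^ s * t : ℕ) : ℤ) + (p ^ s : ℕ) := by push_cast; ring
    rw [e2]
    ring

/-- the constants are compatible -/
lemma lam_compat (h2 : p ≠ 2) {x : ℤ} {b : ℤ → ℤ} (hb : W x b) (hb0 : b 0 = 0) {r s : ℕ} (hsr : s ≤ r)
    (hGr : Good x b ((p ^ r : ℕ) : ℤ)) (hGs : Good x b ((p ^ s : ℕ) : ℤ)) : PO p s (lam p b r - lam p b s) := by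
  have h1 := (blocks h2 hGr hb (Nat.zero_le _) (dvd_zero _) (dvd_refl (p ^ r))).mono hsr
  have h3 := blocks h2 hGs hb (Nat.zero_le _) (dvd_zero _) (pow_dvd_pow p hsr)
  have h4 := PO.mul0' (h1.sub h3) (of_int (p := p) (b ((p ^ r : ℕ) : ℤ)))
  have h5 : ((b ((p ^ r : ℕ) : ℤ) : ℤ) : ℚ) ^ 2 = 1 := by exact_mod_cast hGr.1
  convert h4 using 1
  have h6 : ((b ((0 : ℕ) : ℤ) : ℤ) : ℚ) = 0 := by exact_mod_cast hb0
  rw [h6]
  linear_combination -(lam p b r - lam p b s) * h5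

/-- **block sums** -/
theorem blk (h2 : p ≠ 2) {x : ℤ} {b : ℤ → ℤ} (hb : W x b) (hb0 : b 0 = 0) (r : ℕ)
    (hG : ∀ s, s ≤ r → Good x b ((p ^ s : ℕ) : ℤ)) {g : ℤ → ℤ} (hg : W x g) : Blk p r (lam p b r) g := by
  intro s hs a c hac ha hc
  have h1 := blocks h2 (hG s hs) hg hac ha hc
  have h3 := lam_compat h2 hb hb0 hs (hG r le_rfl) (hG s hs)
  have h4 := h1.sub (h3.mul0' ((of_int (p := p) (g a)).sub (of_int (g c))))
  convert h4 using 1
  ring

end Pool.Agent.X14.DW
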