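import Pool.Agent.X14.DW3

set_option autoImplicit false

/-! Sums of binomial coefficients against linear recurrences, and the congruence of Dwork type. -/

namespace Pool.Agent.X14.DW

open Finset Pool.Agent.H434R2 Pool.Agent.H434R2.PO

set_option linter.unusedSectionVars false

variable {p : ℕ} [hp : Fact p.Prime]

/-- the other recurrence -/
def V (x : ℤ) (f : ℤ → ℤ) : Prop := ∀ j, f (j + 1) = (x - 2) * f j - f (j - 1)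

lemma pascal (K a : ℕ) (h : ℕ → ℚ) : ∑ m ∈ range (K + 1), h m * ((a + 1).choose m : ℚ) =
    ∑ m ∈ range (K + 1), h m * (a.choose m : ℚ) + ∑ m ∈ range K, h (m + 1) * (a.choose m : ℚ) := by
  rw [sum_range_succ', sum_range_succ']
  have : ∀ m, h (m + 1) * ((a + 1).choose (m + 1) : ℚ) = h (m + 1) * (a.choose m : ℚ) + h (m + 1) * (a.choose (m + 1) : ℚ) := by
    intro m
    rw [Nat.choose_succ_succ]; push_cast; ring
  simp only [this, sum_add_distrib, Nat.choose_zero_right]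
  ring

/-- the half sum -/
def D (u : ℤ → ℤ) (n : ℕ) : ℚ := ∑ m ∈ range n, (u ((n : ℤ) - m) : ℚ) * ((2 * n).choose m : ℚ)

lemma D_succ {x : ℤ} {u : ℤ → ℤ} (hu : V x u) (u0 : u 0 = 0) (u1 : u 1 = 1) (n : ℕ) :
    D u (n + 1) = x * D u n + ((2 * n).choose n : ℚ) := by
  rcases n with _ | k
  · simp [D, u1]
  · set n := k + 1 with hn
    unfold D
    have e0 : 2 * (n + 1) = 2 * n + 1 + 1 := by ring
    rw [e0]
    have h1 := pascal n (2 * n + 1) (fun m => (u (((n + 1 : ℕ) : ℤ) - m) : ℚ))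
    rw [h1]
    have h2 := pascal n (2 * n) (fun m => (u (((n + 1 : ℕ) : ℤ) - m) : ℚ))
    have h3 := pascal k (2 * n) (fun m => (u (((n + 1 : ℕ) : ℤ) - ((m + 1 : ℕ) : ℤ)) : ℚ))
    rw [h2, ← hn] at *
    rw [h3, sum_range_succ (fun m => (u (((n + 1 : ℕ) : ℤ) - m) : ℚ) * ((2 * n).choose m : ℚ))]
    have e1 : (((n + 1 : ℕ) : ℤ) - (n : ℤ)) = 1 := by push_cast; ring
    rw [e1, u1]
    have h4 : ∑ m ∈ range k, (u (((n + 1 : ℕ) : ℤ) - ((m + 1 + 1 : ℕ) : ℤ)) : ℚ) * ((2 * n).choose m : ℚ) =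
        ∑ m ∈ range n, (u (((n + 1 : ℕ) : ℤ) - ((m + 1 + 1 : ℕ) : ℤ)) : ℚ) * ((2 * n).choose m : ℚ) := by
      rw [hn, sum_range_succ]
      have : (((k + 1 + 1 : ℕ) : ℤ) - ((k + 1 + 1 : ℕ) : ℤ)) = 0 := by ring
      rw [this, u0]; simp
    rw [h4, mul_sum]
    have h5 : ∑ m ∈ range n, (x : ℚ) * ((u ((n : ℤ) - m) : ℚ) * ((2 * n).choose m : ℚ)) =
        ∑ m ∈ range n, (u (((n + 1 : ℕ) : ℤ) - m) : ℚ) * ((2 * n).choose m : ℚ) +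
        ∑ m ∈ range n, (u (((n + 1 : ℕ) : ℤ) - ((m + 1 : ℕ) : ℤ)) : ℚ) * ((2 * n).choose m : ℚ) +
        (∑ m ∈ range n, (u (((n + 1 : ℕ) : ℤ) - ((m + 1 : ℕ) : ℤ)) : ℚ) * ((2 * n).choose m : ℚ) +
        ∑ m ∈ range n, (u (((n + 1 : ℕ) : ℤ) - ((m + 1 + 1 : ℕ) : ℤ)) : ℚ) * ((2 * n).choose m : ℚ)) := by
      rw [← sum_add_distrib, ← sum_add_distrib, ← sum_add_distrib]
      apply sum_congr rfl
      intro m _
      have h6 := hu ((n : ℤ) - m)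
      have c1 : (((n + 1 : ℕ) : ℤ) - (m : ℤ)) = (n : ℤ) - m + 1 := by push_cast; ring
      have c2 : (((n + 1 : ℕ) : ℤ) - ((m + 1 : ℕ) : ℤ)) = (n : ℤ) - m := by push_cast; ring
      have c3 : (((n + 1 : ℕ) : ℤ) - ((m + 1 + 1 : ℕ) : ℤ)) = (n : ℤ) - m - 1 := by push_cast; ring
      rw [c1, c2, c3, h6]
      push_cast
      ring
    rw [h5]
    push_cast
    ring

lemma full_sum {x : ℤ} {f : ℤ → ℤ} (hf : V x f) (n : ℕ) :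
    ∑ m ∈ range (2 * n + 1), (f ((n : ℤ) - m) : ℚ) * ((2 * n).choose m : ℚ) = x ^ n * f 0 := by
  induction n with
  | zero => simp
  | succ n ih =>
    have e0 : 2 * (n + 1) = 2 * n + 1 + 1 := by ring
    rw [e0]
    have h1 := pascal (2 * n + 1 + 1) (2 * n + 1) (fun m => (f (((n + 1 : ℕ) : ℤ) - m) : ℚ))
    have h2 := pascal (2 * n + 1 + 1) (2 * n) (fun m => (f (((n + 1 : ℕ) : ℤ) - m) : ℚ))
    have h3 := pascal (2 * n + 1) (2 * n) (fun m => (f (((n + 1 : ℕ) : ℤ) - ((m + 1 : ℕ) : ℤ)) : ℚ))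
    rw [h1, h2, h3]
    have z1 : (2 * n).choose (2 * n + 1) = 0 := Nat.choose_eq_zero_of_lt (by omega)
    have z2 : (2 * n).choose (2 * n + 1 + 1) = 0 := Nat.choose_eq_zero_of_lt (by omega)
    rw [sum_range_succ (fun m => (f (((n + 1 : ℕ) : ℤ) - m) : ℚ) * ((2 * n).choose m : ℚ)) (2 * n + 1 + 1),
      sum_range_succ (fun m => (f (((n + 1 : ℕ) : ℤ) - m) : ℚ) * ((2 * n).choose m : ℚ)) (2 * n + 1), z1, z2]
    rw [sum_range_succ (fun m => (f (((n + 1 : ℕ) : ℤ) - ((m + 1 : ℕ) : ℤ)) : ℚ) * ((2 * n).choose m : ℚ)) (2 * n + 1), z1]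
    have h5 : ∑ m ∈ range (2 * n + 1), (x : ℚ) * ((f ((n : ℤ) - m) : ℚ) * ((2 * n).choose m : ℚ)) =
        ∑ m ∈ range (2 * n + 1), (f (((n + 1 : ℕ) : ℤ) - m) : ℚ) * ((2 * n).choose m : ℚ) +
        ∑ m ∈ range (2 * n + 1), (f (((n + 1 : ℕ) : ℤ) - ((m + 1 : ℕ) : ℤ)) : ℚ) * ((2 * n).choose m : ℚ) +
        (∑ m ∈ range (2 * n + 1), (f (((n + 1 : ℕ) : ℤ) - ((m + 1 : ℕ) : ℤ)) : ℚ) * ((2 * n).choose m : ℚ) +
        ∑ m ∈ range (2 * n + 1), (f (((n + 1 : ℕ) : ℤ) - ((m + 1 + 1 : ℕ) : ℤ)) : ℚ) * ((2 * n).choose m : ℚ)) := by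
      rw [← sum_add_distrib, ← sum_add_distrib, ← sum_add_distrib]
      apply sum_congr rfl
      intro m _
      have h6 := hf ((n : ℤ) - m)
      have c1 : (((n + 1 : ℕ) : ℤ) - (m : ℤ)) = (n : ℤ) - m + 1 := by push_cast; ring
      have c2 : (((n + 1 : ℕ) : ℤ) - ((m + 1 : ℕ) : ℤ)) = (n : ℤ) - m := by push_cast; ring
      have c3 : (((n + 1 : ℕ) : ℤ) - ((m + 1 + 1 : ℕ) : ℤ)) = (n : ℤ) - m - 1 := by push_cast; ring
      rw [c1, c2, c3, h6]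
      push_cast
      ring
    rw [← mul_sum, ih] at h5
    rw [pow_succ]
    linear_combination -h5

/-- the sign `(-1)^m` of an integer -/
def sg (m : ℤ) : ℤ := if m % 2 = 0 then 1 else -1

lemma sg_succ (m : ℤ) : sg (m + 1) = -sg m := by
  unfold sg; split_ifs <;> omega

lemma sg_pred (m : ℤ) : sg (m - 1) = -sg m := by
  unfold sg; split_ifs <;> omega

lemma sg_nat (m : ℕ) : sg m = (-1) ^ m := by
  induction m with
  | zero => simp [sg]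
  | succ m ih => rw [Nat.cast_succ, sg_succ, ih, pow_succ]; ring

lemma W_of_V {x : ℤ} {f : ℤ → ℤ} (hf : V x f) (N : ℤ) : W x (fun m => sg m * f (N - m)) := by
  intro j
  have h1 := hf (N - j)
  show sg (j + 1) * f (N - (j + 1)) = -(x - 2) * (sg j * f (N - j)) - sg (j - 1) * f (N - (j - 1))
  rw [sg_succ, sg_pred, show N - (j + 1) = N - j - 1 by ring, show N - (j - 1) = N - j + 1 by ring, h1]
  ring

lemma sgF (K m : ℕ) : ((sg m : ℤ) : ℚ) * F K m = (K.choose m : ℚ) := by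
  rw [sg_nat]; unfold F
  push_cast
  rw [← mul_assoc, ← mul_pow]
  norm_num

lemma sg_mul (h2 : p ≠ 2) (c : ℕ) : sg ((p * c : ℕ) : ℤ) = sg c := by
  rw [sg_nat, sg_nat, pow_mul, (hp.out.odd_of_ne_two h2).neg_one_pow]

/-- the data -/
structure Data (p : ℕ) (x : ℤ) (u : ℤ → ℤ) : Prop where
  V : V x u
  u0 : u 0 = 0
  u1 : u 1 = 1
  mul : ∀ k, u (p * k) = u p * u k
  Vp : DW.V x (fun j => u (p * j + 1))

/-- first evaluation -/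
lemma half_eval (h2 : p ≠ 2) {x : ℤ} {u : ℤ → ℤ} (hd : Data p x u) (ρ : ℕ) {lm : ℚ}
    (hB : ∀ g, W x g → Blk p (ρ + 1) lm g) :
    PO p (2 * (ρ + 1)) (D u (p * p ^ ρ) - (1 - 2 * ((p * p ^ ρ : ℕ) : ℚ) * lm) * (u p * D u (p ^ ρ))) := by
  have h1 := eval h2 ρ (p ^ ρ) dvd_rfl _ (hB _ (W_of_V hd.V ((p * p ^ ρ : ℕ) : ℤ)))
  convert h1 using 2
  · unfold D
    apply sum_congr rfl
    intro m _
    rw [← sgF]; push_cast; ring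
  · have e1 : ((sg ((p * p ^ ρ : ℕ) : ℤ) * u (((p * p ^ ρ : ℕ) : ℤ) - ((p * p ^ ρ : ℕ) : ℤ)) : ℤ) : ℚ) = 0 := by
      rw [sub_self, hd.u0]; simp
    rw [e1, mul_zero, zero_mul, add_zero]
    congr 1
    unfold D
    rw [mul_sum]
    apply sum_congr rfl
    intro c _
    have e2 : (((p * p ^ ρ : ℕ) : ℤ) - ((p * c : ℕ) : ℤ)) = p * (((p ^ ρ : ℕ) : ℤ) - c) := by push_cast; ring
    rw [e2, hd.mul, sg_mul h2, ← sgF]
    push_cast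
    ring

lemma F_total {n : ℕ} (hn : 0 < n) : ∑ c ∈ range (2 * n), F (2 * n) c = -1 := by
  have h1 := F_sum (K := 2 * n - 1) (2 * n - 1)
  rw [Nat.sub_add_cancel (by omega)] at h1
  rw [← h1]
  unfold F
  rw [Nat.choose_self, Odd.neg_one_pow ⟨n - 1, by omega⟩]
  norm_num

/-- second evaluation -/
lemma full_eval (h2 : p ≠ 2) {x : ℤ} {u : ℤ → ℤ} (hd : Data p x u) (ρ : ℕ) {lm : ℚ}
    (hB : ∀ g, W x g → Blk p (ρ + 1) lm g) :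
    PO p (2 * (ρ + 1)) ((x : ℚ) ^ (p * p ^ ρ) - (1 - 2 * ((p * p ^ ρ : ℕ) : ℚ) * lm) * (x : ℚ) ^ (p ^ ρ)) := by
  have hp0 := hp.out.pos
  have hn0 : 0 < p ^ ρ := pow_pos hp0 _
  have hf : V x (fun j => u (j + 1)) := by
    intro j
    have := hd.V (j + 1)
    show u (j + 1 + 1) = (x - 2) * u (j + 1) - u (j - 1 + 1)
    rw [this]; congr 2; ring
  have h1 := eval h2 ρ (2 * p ^ ρ) (dvd_mul_left _ _) _ (hB _ (W_of_V hf ((p * p ^ ρ : ℕ) : ℤ)))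
  rw [F_total hn0] at h1
  have s1 : ∑ m ∈ range (p * (2 * p ^ ρ)), ((sg (m : ℤ) * u (((p * p ^ ρ : ℕ) : ℤ) - (m : ℤ) + 1) : ℤ) : ℚ) * F (2 * (p * p ^ ρ)) m =
      (x : ℚ) ^ (p * p ^ ρ) - (u (-((p * p ^ ρ : ℕ) : ℤ) + 1) : ℚ) := by
    have h3 := full_sum hf (p * p ^ ρ)
    rw [sum_range_succ, Nat.choose_self] at h3
    have e1 : (((p * p ^ ρ : ℕ) : ℤ) - ((2 * (p * p ^ ρ) : ℕ) : ℤ)) + 1 = -((p * p ^ ρ : ℕ) : ℤ) + 1 := by push_cast; ring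
    rw [e1, zero_add, hd.u1] at h3
    push_cast at h3 ⊢
    have e2 : p * (2 * p ^ ρ) = 2 * (p * p ^ ρ) := by ring
    rw [e2]
    have h4 : ∑ m ∈ range (2 * (p * p ^ ρ)), ((sg (m : ℤ) : ℚ) * (u ((p : ℤ) * p ^ ρ - m + 1) : ℚ)) * F (2 * (p * p ^ ρ)) m =
        ∑ m ∈ range (2 * (p * p ^ ρ)), (u ((p : ℤ) * p ^ ρ - m + 1) : ℚ) * ((2 * (p * p ^ ρ)).choose m : ℚ) := by
      apply sum_congr rfl
      intro m _
      rw [← sgF]; ring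
    rw [h4]
    linear_combination h3
  have s2 : ∑ c ∈ range (2 * p ^ ρ), ((sg ((p * c : ℕ) : ℤ) * u (((p * p ^ ρ : ℕ) : ℤ) - ((p * c : ℕ) : ℤ) + 1) : ℤ) : ℚ) * F (2 * p ^ ρ) c =
      (x : ℚ) ^ (p ^ ρ) - (u (-((p * p ^ ρ : ℕ) : ℤ) + 1) : ℚ) := by
    have h3 := full_sum hd.Vp (p ^ ρ)
    rw [sum_range_succ, Nat.choose_self] at h3
    have e1 : (p : ℤ) * (((p ^ ρ : ℕ) : ℤ) - ((2 * (p ^ ρ) : ℕ) : ℤ)) + 1 = -((p * p ^ ρ : ℕ) : ℤ) + 1 := by push_cast; ring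
    rw [e1, mul_zero, zero_add, hd.u1] at h3
    have h4 : ∑ c ∈ range (2 * p ^ ρ), ((sg ((p * c : ℕ) : ℤ) * u (((p * p ^ ρ : ℕ) : ℤ) - ((p * c : ℕ) : ℤ) + 1) : ℤ) : ℚ) * F (2 * p ^ ρ) c =
        ∑ c ∈ range (2 * p ^ ρ), (u ((p : ℤ) * (((p ^ ρ : ℕ) : ℤ) - c) + 1) : ℚ) * ((2 * p ^ ρ).choose c : ℚ) := by
      apply sum_congr rfl
      intro c _
      have e2 : (((p * p ^ ρ : ℕ) : ℤ) - ((p * c : ℕ) : ℤ)) = p * (((p ^ ρ : ℕ) : ℤ) - c) := by push_cast; ring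
      rw [e2, sg_mul h2, ← sgF]
      push_cast
      ring
    rw [h4]
    push_cast at h3 ⊢
    linear_combination h3
  have s3 : ((sg ((p * (2 * p ^ ρ) : ℕ) : ℤ) * u (((p * p ^ ρ : ℕ) : ℤ) - ((p * (2 * p ^ ρ) : ℕ) : ℤ) + 1) : ℤ) : ℚ) =
      (u (-((p * p ^ ρ : ℕ) : ℤ) + 1) : ℚ) := by
    have e1 : (((p * p ^ ρ : ℕ) : ℤ) - ((p * (2 * p ^ ρ) : ℕ) : ℤ)) + 1 = -((p * p ^ ρ : ℕ) : ℤ) + 1 := by push_cast; ring
    rw [e1, sg_nat, Even.neg_one_pow ⟨p * p ^ ρ, by ring⟩, one_mul]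
  rw [s1, s2, s3] at h1
  convert h1 using 1
  ring

/-- the sum of `C(2k,k)/x^k` -/
def A (x : ℤ) (n : ℕ) : ℚ := ∑ k ∈ range n, ((2 * k).choose k : ℚ) / (x : ℚ) ^ k

lemma A_eq {x : ℤ} (hx : x ≠ 0) {u : ℤ → ℤ} (hu : V x u) (u0 : u 0 = 0) (u1 : u 1 = 1) (n : ℕ) :
    x * D u n = x ^ n * A x n := by
  have hx' : (x : ℚ) ≠ 0 := by exact_mod_cast hx
  induction n with
  | zero => simp [D, A]
  | succ n ih =>
    rw [D_succ hu u0 u1]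
    unfold A at *
    rw [sum_range_succ, mul_add, mul_add, ih, pow_succ]
    field_simp

/-- **The congruence of Dwork type.** -/
theorem dwork (h2 : p ≠ 2) {x : ℤ} (hx : ¬ (p : ℤ) ∣ x) {u : ℤ → ℤ} (hd : Data p x u) {b : ℤ → ℤ} (hb : W x b) (hb0 : b 0 = 0)
    (hG : ∀ s, Good x b ((p ^ s : ℕ) : ℤ)) (ρ : ℕ) :
    PO p (2 * (ρ + 1)) (A x (p ^ (ρ + 1)) - u p * A x (p ^ ρ)) := by
  have hx0 : x ≠ 0 := by rintro rfl; exact hx (dvd_zero _)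
  have hx' : (x : ℚ) ≠ 0 := by exact_mod_cast hx0
  have hB : ∀ g, W x g → Blk p (ρ + 1) (lam p b (ρ + 1)) g := fun g hg => blk h2 hb hb0 (ρ + 1) (fun s _ => hG s) hg
  have h1 := half_eval h2 hd ρ hB
  have h3 := full_eval h2 hd ρ hB
  have hxi : PO p 0 ((x : ℚ)⁻¹) := by
    apply inv_of_norm
    exact padicNorm.int_eq_one_iff x |>.2 hx
  have hDn : PO p 0 (D u (p ^ ρ)) := PO.sum _ _ (fun _ _ => (of_int _).mul0 (of_nat _))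
  have h4 := (h1.mul0' ((of_int x).pow0 (p ^ ρ))).sub (h3.mul0' ((of_int (p := p) (u p)).mul0 hDn))
  have h5 := PO.mul0 (of_int x) (PO.mul0 (hxi.pow0 (p * p ^ ρ + p ^ ρ)) h4)
  convert h5 using 1
  have e1 := A_eq hx0 hd.V hd.u0 hd.u1 (p * p ^ ρ)
  have e2 := A_eq hx0 hd.V hd.u0 hd.u1 (p ^ ρ)
  have e3 : p ^ (ρ + 1) = p * p ^ ρ := by ring
  rw [e3]
  have e4 : A x (p * p ^ ρ) = (x : ℚ)⁻¹ ^ (p * p ^ ρ) * (x * D u (p * p ^ ρ)) := by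
    rw [e1, ← mul_assoc, ← mul_pow, inv_mul_cancel₀ hx', one_pow, one_mul]
  have e5 : A x (p ^ ρ) = (x : ℚ)⁻¹ ^ (p ^ ρ) * (x * D u (p ^ ρ)) := by
    rw [e2, ← mul_assoc, ← mul_pow, inv_mul_cancel₀ hx', one_pow, one_mul]
  have e6 : (x : ℚ)⁻¹ ^ (p ^ ρ) * (x : ℚ) ^ (p ^ ρ) = 1 := by rw [← mul_pow, inv_mul_cancel₀ hx', one_pow]
  have e7 : (x : ℚ)⁻¹ ^ (p * p ^ ρ) * (x : ℚ) ^ (p * p ^ ρ) = 1 := by rw [← mul_pow, inv_mul_cancel₀ hx', one_pow]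
  rw [e4, e5, pow_add]
  linear_combination (-(x : ℚ)⁻¹ ^ (p * p ^ ρ) * x * D u (p * p ^ ρ)) * e6 + ((x : ℚ)⁻¹ ^ (p ^ ρ) * x * u p * D u (p ^ ρ)) * e7

end Pool.Agent.X14.DW
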