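import Pool.Agent.X14.DW4

set_option autoImplicit false

/-! The recurrences for `x = 2` and `x = 1`. -/

namespace Pool.Agent.X14.DW

open Finset Pool.Agent.H434R2 Pool.Agent.H434R2.PO

set_option linter.unusedSectionVars false

variable {p : ℕ} [hp : Fact p.Prime]

/-- every solution of the recurrence in terms of the fundamental one -/
lemma W_basis {x : ℤ} {b g : ℤ → ℤ} (hb : W x b) (b0 : b 0 = 0) (b1 : b 1 = 1) (hg : W x g) (m : ℤ) :
    g m = g 1 * b m - g 0 * b (m - 1) := by
  have hb1 : b (-1) = -1 := by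
    have := hb 0
    rw [zero_add, b0, b1, zero_sub] at this
    linarith
  have key : ∀ m : ℤ, g m = g 1 * b m - g 0 * b (m - 1) ∧ g (m + 1) = g 1 * b (m + 1) - g 0 * b m := by
    intro m
    induction m using Int.induction_on with
    | zero =>
      constructor
      · rw [b0, zero_sub, hb1]; ring
      · rw [zero_add, b0, b1]; ring
    | succ i ih =>
      obtain ⟨h1, h2⟩ := ih
      refine ⟨?_, ?_⟩
      · rw [h2, add_sub_cancel_right]
      · have h3 := hg ((i : ℤ) + 1)
        have h4 := hb ((i : ℤ) + 1)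
        rw [add_sub_cancel_right] at h3 h4
        have h5 := hb (i : ℤ)
        rw [h3, h4, h2, h1, h5]
        ring
    | pred i ih =>
      obtain ⟨h1, h2⟩ := ih
      have h3 := hg (-(i : ℤ))
      have h4 := hb (-(i : ℤ))
      have h5 := hb (-(i : ℤ) - 1)
      rw [sub_add_cancel] at h5
      refine ⟨?_, ?_⟩
      · have e1 : g (-(i : ℤ) - 1) = -(x - 2) * g (-(i : ℤ)) - g (-(i : ℤ) + 1) := by rw [h3]; ring
        have e2 : b (-(i : ℤ) - 1) = -(x - 2) * b (-(i : ℤ)) - b (-(i : ℤ) + 1) := by rw [h4]; ring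
        have e3 : b (-(i : ℤ) - 1 - 1) = -(x - 2) * b (-(i : ℤ) - 1) - b (-(i : ℤ)) := by rw [h5]; ring
        rw [e1, e3, h1, h2, e2]
        rw [e2] at *
        ring
      · rw [sub_add_cancel, h1]
  exact (key m).1

/-- reduction of the property `Good` to the fundamental solution -/
lemma good_of {x : ℤ} {b : ℤ → ℤ} (hb : W x b) (b0 : b 0 = 0) (b1 : b 1 = 1) {q : ℤ} (hq : b q ^ 2 = 1)
    (h : ∀ m, -(b (m - 1) - b (q - m - 1)) = (1 + b (q - 1)) * (b q * (b (q - m) - b m))) : Good x b q := by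
  refine ⟨hq, fun g hg m => ?_⟩
  have hb1 : b (-1) = -1 := by
    have := hb 0
    rw [zero_add, b0, b1, zero_sub] at this
    linarith
  rw [W_basis hb b0 b1 hg m, W_basis hb b0 b1 hg (q - m), W_basis hb b0 b1 hg q]
  linear_combination (g 0) * h m + (g 1 * (b (q - m) - b m)) * hq

/-- the sequence `0, 1, 0, -1` -/
def t4 (a : ZMod 4) : ℤ := if a = 1 then 1 else if a = 3 then -1 else 0

/-- the sequence of period four -/
def u4 (m : ℤ) : ℤ := t4 (m : ZMod 4)

lemma u4_V : V 2 u4 := by
  intro j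
  unfold u4
  push_cast
  generalize (j : ZMod 4) = a
  revert a; decide

lemma u4_W : W 2 u4 := by
  intro j
  unfold u4
  push_cast
  generalize (j : ZMod 4) = a
  revert a; decide

lemma odd_cast {q : ℕ} (h : q % 2 = 1) : ((q : ℕ) : ZMod 4) = 1 ∨ ((q : ℕ) : ZMod 4) = 3 := by
  have : q % 4 = 1 ∨ q % 4 = 3 := by omega
  rcases this with h1 | h1
  · left; have := ZMod.natCast_mod q 4; rw [h1] at this; rw [← this]; rfl
  · right; have := ZMod.natCast_mod q 4; rw [h1] at this; rw [← this]; rfl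

lemma u4_good {q : ℕ} (h : q % 2 = 1) : Good 2 u4 (q : ℤ) := by
  have hq := odd_cast h
  apply good_of u4_W (by decide) (by decide)
  · unfold u4
    push_cast
    generalize ((q : ℕ) : ZMod 4) = a at *
    revert a; decide
  · intro m
    unfold u4
    push_cast
    generalize ((q : ℕ) : ZMod 4) = a at *
    generalize (m : ZMod 4) = c
    revert a c; decide

lemma u4_mul (a b : ℤ) : u4 (a * b) = u4 a * u4 b := by
  unfold u4
  push_cast
  generalize (a : ZMod 4) = c
  generalize (b : ZMod 4) = d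
  revert c d; decide

lemma u4_data (h2 : p ≠ 2) : Data p 2 u4 where
  V := u4_V
  u0 := by decide
  u1 := by decide
  mul := fun k => u4_mul _ _
  Vp := by
    intro j
    have hq := odd_cast (q := p) (by have := hp.out.odd_of_ne_two h2; exact Nat.odd_iff.1 this)
    unfold u4
    push_cast
    generalize ((p : ℕ) : ZMod 4) = a at *
    generalize (j : ZMod 4) = c
    revert a c; decide

/-- `x = 2` -/
theorem dwork_two (h2 : p ≠ 2) (ρ : ℕ) : PO p (2 * (ρ + 1)) (A 2 (p ^ (ρ + 1)) - u4 p * A 2 (p ^ ρ)) := by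
  have ho : p % 2 = 1 := Nat.odd_iff.1 (hp.out.odd_of_ne_two h2)
  apply dwork h2 _ (u4_data h2) u4_W (by decide)
  · intro s
    apply u4_good
    rw [Nat.pow_mod, ho]; simp
  · intro h
    have h3 : p ∣ 2 := by exact_mod_cast h
    exact h2 ((Nat.prime_dvd_prime_iff_eq hp.out Nat.prime_two).1 h3)

end Pool.Agent.X14.DW
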