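import Pool.Agent.X14.DW5

set_option autoImplicit false

/-! The case `x = 1`. -/

namespace Pool.Agent.X14.DW

open Finset Pool.Agent.H434R2 Pool.Agent.H434R2.PO

set_option linter.unusedSectionVars false

variable {p : ℕ} [hp : Fact p.Prime]

/-- the sequence `0, 1, -1` -/
def t3 (a : ZMod 3) : ℤ := if a = 1 then 1 else if a = 2 then -1 else 0

/-- the sequence of period three -/
def u3 (m : ℤ) : ℤ := t3 (m : ZMod 3)

lemma u3_V : V 1 u3 := by
  intro j
  unfold u3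
  push_cast
  generalize (j : ZMod 3) = a
  revert a; decide

lemma u3_mul (a b : ℤ) : u3 (a * b) = u3 a * u3 b := by
  unfold u3
  push_cast
  generalize (a : ZMod 3) = c
  generalize (b : ZMod 3) = d
  revert c d; decide

/-- the sequence `0, 1, 1, 0, -1, -1` -/
def t6 (a : ZMod 6) : ℤ := if a = 1 ∨ a = 2 then 1 else if a = 4 ∨ a = 5 then -1 else 0

/-- the sequence of period six -/
def b6 (m : ℤ) : ℤ := t6 (m : ZMod 6)

lemma b6_W : W 1 b6 := by
  intro j
  unfold b6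
  push_cast
  generalize (j : ZMod 6) = a
  revert a; decide

lemma cast_six {q : ℕ} (h2 : q % 2 = 1) (h3 : q % 3 ≠ 0) : ((q : ℕ) : ZMod 6) = 1 ∨ ((q : ℕ) : ZMod 6) = 5 := by
  have : q % 6 = 1 ∨ q % 6 = 5 := by omega
  rcases this with h1 | h1
  · left; have := ZMod.natCast_mod q 6; rw [h1] at this; rw [← this]; rfl
  · right; have := ZMod.natCast_mod q 6; rw [h1] at this; rw [← this]; rfl

lemma cast_three {q : ℕ} (h3 : q % 3 ≠ 0) : ((q : ℕ) : ZMod 3) = 1 ∨ ((q : ℕ) : ZMod 3) = 2 := by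
  have : q % 3 = 1 ∨ q % 3 = 2 := by omega
  rcases this with h1 | h1
  · left; have := ZMod.natCast_mod q 3; rw [h1] at this; rw [← this]; rfl
  · right; have := ZMod.natCast_mod q 3; rw [h1] at this; rw [← this]; rfl

lemma b6_good {q : ℕ} (h2 : q % 2 = 1) (h3 : q % 3 ≠ 0) : Good 1 b6 (q : ℤ) := by
  have hq := cast_six h2 h3
  apply good_of b6_W (by decide) (by decide)
  · unfold b6
    push_cast
    generalize ((q : ℕ) : ZMod 6) = a at *
    revert a; decide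
  · intro m
    unfold b6
    push_cast
    generalize ((q : ℕ) : ZMod 6) = a at *
    generalize (m : ZMod 6) = c
    revert a c; decide

lemma u3_data (h3 : p % 3 ≠ 0) : Data p 1 u3 where
  V := u3_V
  u0 := by decide
  u1 := by decide
  mul := fun k => u3_mul _ _
  Vp := by
    intro j
    have hq := cast_three (q := p) h3
    unfold u3
    push_cast
    generalize ((p : ℕ) : ZMod 3) = a at *
    generalize (j : ZMod 3) = c
    revert a c; decide

lemma mod_three_ne (h3 : p ≠ 3) : p % 3 ≠ 0 := by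
  intro h
  exact h3 (((Nat.prime_dvd_prime_iff_eq Nat.prime_three hp.out).1 (Nat.dvd_of_mod_eq_zero h)).symm)

/-- `x = 1`, `p ≥ 5` -/
theorem dwork_one (h2 : p ≠ 2) (h3 : p ≠ 3) (ρ : ℕ) : PO p (2 * (ρ + 1)) (A 1 (p ^ (ρ + 1)) - u3 p * A 1 (p ^ ρ)) := by
  have ho : p % 2 = 1 := Nat.odd_iff.1 (hp.out.odd_of_ne_two h2)
  have h3' := mod_three_ne h3
  apply dwork h2 _ (u3_data h3') b6_W (by decide)
  · intro s
    apply b6_good
    · rw [Nat.pow_mod, ho]; simp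
    · intro h
      have := Nat.prime_three.dvd_of_dvd_pow (Nat.dvd_of_mod_eq_zero h)
      exact h3' (Nat.mod_eq_zero_of_dvd this)
  · intro h
    have h4 : p ∣ 1 := by exact_mod_cast h
    exact hp.out.one_lt.ne' (Nat.dvd_one.1 h4)

lemma sg_add (a b : ℤ) : sg (a + b) = sg a * sg b := by
  unfold sg; split_ifs <;> omega

lemma t3_aux : ∀ c : ZMod 3, t3 (0 - (0 + (0 - c))) = -t3 (0 - (0 + c)) := by decide

/-- `x = 1`, `p = 3` -/
theorem dwork_three (ρ : ℕ) : PO 3 (2 * (ρ + 1)) (A 1 (3 ^ (ρ + 1))) := by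
  have : Fact (Nat.Prime 3) := ⟨Nat.prime_three⟩
  have hB : Blk 3 (ρ + 1) 0 (fun m => sg m * u3 (((3 * 3 ^ ρ : ℕ) : ℤ) - m)) := by
    intro s hs a c hac ha hc
    rw [zero_mul, sub_zero]
    rcases Nat.eq_zero_or_pos s with rfl | hs0
    · exact HH_PO _ _ _
    obtain ⟨t, ht⟩ : ∃ t, c = a + 3 ^ s * t := by
      obtain ⟨d, hd⟩ := Nat.dvd_sub hc ha
      exact ⟨d, by omega⟩
    subst ht
    clear hac hc
    have hone : ∀ a, 3 ^ s ∣ a → PO 3 s (HH 3 (fun m => sg m * u3 (((3 * 3 ^ ρ : ℕ) : ℤ) - m)) a (a + 3 ^ s)) := by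
      intro a ha
      rw [HH_range]
      have h1 : PO 3 s (∑ m ∈ range (3 ^ s), ((sg ((a : ℤ) + m) * u3 (((3 * 3 ^ ρ : ℕ) : ℤ) - ((a : ℤ) + m)) : ℤ) : ℚ) * θ 3 (a + m) -
          ∑ m ∈ range (3 ^ s), ((sg ((a : ℤ) + m) * u3 (((3 * 3 ^ ρ : ℕ) : ℤ) - ((a : ℤ) + m)) : ℤ) : ℚ) * θ 3 m) := by
        apply PO.sum_sub
        intro m _
        rw [← mul_sub]
        exact PO.mul0 (of_int _) (θ_add ha m)
      have hpq : 3 ∣ 3 ^ s := dvd_pow_self 3 (by omega)
      have h3 := sym_zero (p := 3) (by norm_num) (dvd_refl (3 ^ s)) hpq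
        (fun m => sg ((a : ℤ) + m) * u3 (((3 * 3 ^ ρ : ℕ) : ℤ) - ((a : ℤ) + m))) (by
          intro m
          have ea : ((a : ℤ) : ZMod 3) = 0 := by
            have := (ZMod.natCast_eq_zero_iff a 3).2 (hpq.trans ha)
            exact_mod_cast this
          have eq : (((3 ^ s : ℕ) : ℤ) : ZMod 3) = 0 := by
            have := (ZMod.natCast_eq_zero_iff (3 ^ s) 3).2 hpq
            exact_mod_cast this
          have eN : (((3 * 3 ^ ρ : ℕ) : ℤ) : ZMod 3) = 0 := by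
            have := (ZMod.natCast_eq_zero_iff (3 * 3 ^ ρ) 3).2 (dvd_mul_right _ _)
            exact_mod_cast this
          have s1 : sg (((a : ℤ)) + (((3 ^ s : ℕ) : ℤ) - m)) = -sg ((a : ℤ) + m) := by
            have h9 : (((3 ^ s : ℕ) : ℤ)) % 2 = 1 := by
              have : (3 ^ s) % 2 = 1 := by rw [Nat.pow_mod]; norm_num
              omega
            unfold sg
            split_ifs <;> omega
          show sg (((a : ℤ)) + (((3 ^ s : ℕ) : ℤ) - m)) * u3 (((3 * 3 ^ ρ : ℕ) : ℤ) - ((a : ℤ) + (((3 ^ s : ℕ) : ℤ) - m))) =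
            sg ((a : ℤ) + m) * u3 (((3 * 3 ^ ρ : ℕ) : ℤ) - ((a : ℤ) + m))
          rw [s1]
          have s2 : u3 (((3 * 3 ^ ρ : ℕ) : ℤ) - ((a : ℤ) + (((3 ^ s : ℕ) : ℤ) - m))) = -u3 (((3 * 3 ^ ρ : ℕ) : ℤ) - ((a : ℤ) + m)) := by
            unfold u3
            rw [Int.cast_sub, Int.cast_add, Int.cast_sub, Int.cast_sub, Int.cast_add, ea, eq, eN]
            exact t3_aux _
          rw [s2]; ring)
      have h4 := h1.add h3
      convert h4 using 1
      ring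
    induction t with
    | zero =>
      rw [mul_zero, add_zero]
      unfold HH
      rw [Ico_self, sum_empty]
      exact zero s
    | succ t ih =>
      have h1 := hone (a + 3 ^ s * t) (Dvd.dvd.add ha (dvd_mul_right _ _))
      have h3 := ih.add h1
      have e1 : HH 3 (fun m => sg m * u3 (((3 * 3 ^ ρ : ℕ) : ℤ) - m)) a (a + 3 ^ s * (t + 1)) =
          HH 3 (fun m => sg m * u3 (((3 * 3 ^ ρ : ℕ) : ℤ) - m)) a (a + 3 ^ s * t) +
          HH 3 (fun m => sg m * u3 (((3 * 3 ^ ρ : ℕ) : ℤ) - m)) (a + 3 ^ s * t) (a + 3 ^ s * t + 3 ^ s) := by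
        unfold HH
        rw [Nat.mul_succ, ← add_assoc, Finset.sum_Ico_consecutive _ (Nat.le_add_right _ _) (Nat.le_add_right _ _)]
      rw [e1]
      exact h3
  have h1 := eval (p := 3) (by norm_num) ρ (3 ^ ρ) dvd_rfl _ hB
  have e1 := A_eq (x := 1) (by norm_num) u3_V (by decide) (by decide) (3 * 3 ^ ρ)
  rw [show 3 ^ (ρ + 1) = 3 * 3 ^ ρ by ring]
  rw [Int.cast_one, one_mul, one_pow, one_mul] at e1
  rw [← e1]
  convert h1 using 1
  have e2 : ∑ c ∈ range (3 ^ ρ), ((sg ((3 * c : ℕ) : ℤ) * u3 (((3 * 3 ^ ρ : ℕ) : ℤ) - ((3 * c : ℕ) : ℤ)) : ℤ) : ℚ) * F (2 * 3 ^ ρ) c = 0 := by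
    apply sum_eq_zero
    intro c _
    have : u3 (((3 * 3 ^ ρ : ℕ) : ℤ) - ((3 * c : ℕ) : ℤ)) = 0 := by
      rw [show (((3 * 3 ^ ρ : ℕ) : ℤ) - ((3 * c : ℕ) : ℤ)) = 3 * (((3 ^ ρ : ℕ) : ℤ) - c) by push_cast; ring, u3_mul]
      have : u3 3 = 0 := by decide
      rw [this, zero_mul]
    rw [this]; simp
  rw [e2]
  simp only [mul_zero, zero_mul, add_zero, sub_zero]
  unfold D
  apply sum_congr rfl
  intro m _
  rw [← sgF]; push_cast; ring

end Pool.Agent.X14.DW
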