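import Pool.Agent.X14.DW6

set_option autoImplicit false

/-! The case `x = 1`, `p = 2`. -/

namespace Pool.Agent.X14.DW

open Finset Pool.Agent.H434R2 Pool.Agent.H434R2.PO

set_option linter.unusedSectionVars false

lemma u3_W : W 3 u3 := by
  intro j
  unfold u3
  push_cast
  generalize (j : ZMod 3) = a
  revert a; decide

lemma u3_good {q : ℕ} (h3 : q % 3 ≠ 0) : Good 3 u3 (q : ℤ) := by
  have hq := cast_three h3
  apply good_of u3_W (by decide) (by decide)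
  · unfold u3
    push_cast
    generalize ((q : ℕ) : ZMod 3) = a at *
    revert a; decide
  · intro m
    unfold u3
    push_cast
    generalize ((q : ℕ) : ZMod 3) = a at *
    generalize (m : ZMod 3) = c
    revert a c; decide

lemma pow_two_mod (s : ℕ) : 2 ^ s % 3 ≠ 0 := by
  intro h
  have := Nat.prime_three.dvd_of_dvd_pow (Nat.dvd_of_mod_eq_zero h)
  omega

/-- symmetric weights, `p = 2` -/
lemma sym_two {s : ℕ} (hs : 2 ≤ s) (k : ℤ → ℤ) (hk : ∀ m, k (((2 ^ s : ℕ) : ℤ) - m) = k m) :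
    PO 2 s (∑ m ∈ range (2 ^ s), (k m : ℚ) * θ 2 m) := by
  obtain ⟨t, rfl⟩ : ∃ t, s = t + 2 := ⟨s - 2, by omega⟩
  have hQ : 2 ^ (t + 2) = 2 ^ (t + 1) + 2 ^ (t + 1) := by rw [pow_succ 2 (t + 1)]; ring
  have h1 : ∑ m ∈ range (2 ^ (t + 2)), (k m : ℚ) * θ 2 m =
      ∑ m ∈ range (2 ^ (t + 1)), (k m : ℚ) * (θ 2 (2 ^ (t + 2) - m) + θ 2 m) := by
    rw [hQ, sum_range_add]
    have h2 := sum_flip (2 ^ (t + 1)) (fun m => (k ((2 ^ (t + 1) + m : ℕ) : ℤ) : ℚ) * θ 2 (2 ^ (t + 1) + m))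
      (by rw [add_zero, θ_dvd (dvd_pow_self 2 (by omega)), mul_zero])
      (by rw [← hQ, θ_dvd (dvd_pow_self 2 (by omega)), mul_zero])
    rw [← h2, ← sum_add_distrib]
    apply sum_congr rfl
    intro m hm
    have hm' := mem_range.1 hm
    have e1 : 2 ^ (t + 1) + (2 ^ (t + 1) - m) = 2 ^ (t + 2) - m := by omega
    have e2 : k ((2 ^ (t + 2) - m : ℕ) : ℤ) = k m := by
      rw [Nat.cast_sub (by omega)]; exact hk m
    rw [e1, e2, ← hQ]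
    ring
  rw [h1]
  apply PO.sum
  intro m hm
  have hm' := mem_range.1 hm
  exact PO.mul0 (of_int _) (θ_refl dvd_rfl (by omega))

lemma θ_two_one : θ 2 1 = 1 := by unfold θ; norm_num

/-- one block -/
lemma one_block_two {s : ℕ} {g : ℤ → ℤ} (hg : W 3 g) {a : ℕ} (ha : 2 ^ s ∣ a) :
    PO 2 s (HH 2 g a (a + 2 ^ s) - lam 2 u3 s * ((g a : ℚ) - (g ((a : ℤ) + (2 ^ s : ℕ)) : ℚ))) := by
  have hG := u3_good (pow_two_mod s)
  rcases Nat.eq_zero_or_pos s with rfl | hs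
  · exact (HH_PO _ _ _).sub ((lam_PO _ _).mul0 ((of_int _).sub (of_int _)))
  rw [HH_range]
  have h1 : PO 2 s (∑ m ∈ range (2 ^ s), (g ((a : ℤ) + m) : ℚ) * θ 2 (a + m) - ∑ m ∈ range (2 ^ s), (g ((a : ℤ) + m) : ℚ) * θ 2 m) := by
    apply PO.sum_sub
    intro m _
    rw [← mul_sub]
    exact PO.mul0 (of_int _) (θ_add ha m)
  have hg' := hg.shift a
  have h3 : PO 2 s (∑ m ∈ range (2 ^ s), (((g ((a : ℤ) + m) - (g ((a : ℤ) + 0) - g ((a : ℤ) + ((2 ^ s : ℕ) : ℤ))) *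
      (u3 ((2 ^ s : ℕ) : ℤ) * u3 (((2 ^ s : ℕ) : ℤ) - m)) : ℤ)) : ℚ) * θ 2 m) := by
    rcases Nat.lt_or_ge s 2 with h2 | h2
    · obtain rfl : s = 1 := by omega
      have e1 : g ((a : ℤ) + 2) = -g ((a : ℤ) + 1) - g (a : ℤ) := by
        have := hg ((a : ℤ) + 1)
        rw [add_sub_cancel_right, show (a : ℤ) + 1 + 1 = a + 2 by ring] at this
        rw [this]; ring
      have e2 : ∑ m ∈ range (2 ^ 1), (((g ((a : ℤ) + m) - (g ((a : ℤ) + 0) - g ((a : ℤ) + ((2 ^ 1 : ℕ) : ℤ))) *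
          (u3 ((2 ^ 1 : ℕ) : ℤ) * u3 (((2 ^ 1 : ℕ) : ℤ) - m)) : ℤ)) : ℚ) * θ 2 m =
          ((2 : ℚ)) ^ 1 * ((g ((a : ℤ) + 1) + g (a : ℤ) : ℤ) : ℚ) := by
        have c1 : u3 2 = -1 := by decide
        have c2 : u3 (2 - 1) = 1 := by decide
        norm_num [sum_range_succ, θ_zero, θ_two_one, e1, c1, c2]
        have c3 : u3 1 = 1 := by decide
        rw [c3]
        push_cast
        ring
      rw [e2]
      have := PO_ppow (p := 2) 1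
      push_cast at this
      exact this.mul0' (of_int _)
    · refine sym_two h2 (fun m => g ((a : ℤ) + m) - (g ((a : ℤ) + 0) - g ((a : ℤ) + ((2 ^ s : ℕ) : ℤ))) * (u3 ((2 ^ s : ℕ) : ℤ) * u3 (((2 ^ s : ℕ) : ℤ) - m))) ?_
      intro m
      have := hG.2 _ hg' m
      try simp only at this ⊢
      rw [sub_sub_cancel]
      linear_combination -this
  have h4 := h1.add h3
  convert h4 using 1
  unfold lam
  rw [add_zero]
  have e : ∑ m ∈ range (2 ^ s), (((g ((a : ℤ) + m) - (g (a : ℤ) - g ((a : ℤ) + ((2 ^ s : ℕ) : ℤ))) * (u3 ((2 ^ s : ℕ) : ℤ) * u3 (((2 ^ s : ℕ) : ℤ) - m)) : ℤ)) : ℚ) * θ 2 m =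
      ∑ m ∈ range (2 ^ s), (g ((a : ℤ) + m) : ℚ) * θ 2 m -
        (∑ m ∈ range (2 ^ s), ((u3 ((2 ^ s : ℕ) : ℤ) * u3 (((2 ^ s : ℕ) : ℤ) - m) : ℤ) : ℚ) * θ 2 m) * ((g a : ℚ) - (g ((a : ℤ) + ((2 ^ s : ℕ) : ℤ)) : ℚ)) := by
    rw [sum_mul, ← sum_sub_distrib]
    apply sum_congr rfl
    intro m _
    push_cast
    ring
  rw [e]
  ring

/-- several blocks -/
lemma blocks_two {s : ℕ} {g : ℤ → ℤ} (hg : W 3 g) {a c : ℕ} (hac : a ≤ c) (ha : 2 ^ s ∣ a) (hc : 2 ^ s ∣ c) :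
    PO 2 s (HH 2 g a c - lam 2 u3 s * ((g a : ℚ) - (g c : ℚ))) := by
  obtain ⟨t, ht⟩ : ∃ t, c = a + 2 ^ s * t := by
    obtain ⟨d, hd⟩ := Nat.dvd_sub hc ha
    exact ⟨d, by omega⟩
  subst ht
  clear hac hc
  induction t with
  | zero =>
    rw [mul_zero, add_zero, sub_self, mul_zero, sub_zero]
    unfold HH
    rw [Ico_self, sum_empty]
    exact zero s
  | succ t ih =>
    have h1 := one_block_two hg (s := s) (a := a + 2 ^ s * t) (Dvd.dvd.add ha (dvd_mul_right _ _))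
    have h3 := ih.add h1
    have e1 : HH 2 g a (a + 2 ^ s * (t + 1)) = HH 2 g a (a + 2 ^ s * t) + HH 2 g (a + 2 ^ s * t) (a + 2 ^ s * t + 2 ^ s) := by
      unfold HH
      rw [Nat.mul_succ, ← add_assoc, Finset.sum_Ico_consecutive _ (Nat.le_add_right _ _) (Nat.le_add_right _ _)]
    rw [e1]
    convert h3 using 1
    have e2 : ((a + 2 ^ s * (t + 1) : ℕ) : ℤ) = ((a + 2 ^ s * t : ℕ) : ℤ) + (2 ^ s : ℕ) := by push_cast; ring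
    rw [e2]
    ring

lemma lam_compat_two {r s : ℕ} (hsr : s ≤ r) : PO 2 s (lam 2 u3 r - lam 2 u3 s) := by
  have h1 := (blocks_two u3_W (s := r) (Nat.zero_le _) (dvd_zero _) (dvd_refl (2 ^ r))).mono hsr
  have h3 := blocks_two u3_W (s := s) (Nat.zero_le _) (dvd_zero _) (pow_dvd_pow 2 hsr)
  have h4 := PO.mul0' (h1.sub h3) (of_int (p := 2) (u3 ((2 ^ r : ℕ) : ℤ)))
  have h5 : ((u3 ((2 ^ r : ℕ) : ℤ) : ℤ) : ℚ) ^ 2 = 1 := by exact_mod_cast (u3_good (pow_two_mod r)).1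
  convert h4 using 1
  have h6 : ((u3 ((0 : ℕ) : ℤ) : ℤ) : ℚ) = 0 := by
    have : u3 ((0 : ℕ) : ℤ) = 0 := by decide
    exact_mod_cast this
  rw [h6]
  linear_combination -(lam 2 u3 r - lam 2 u3 s) * h5

theorem blk_two (r : ℕ) {g : ℤ → ℤ} (hg : W 3 g) : Blk 2 r (lam 2 u3 r) g := by
  intro s hs a c hac ha hc
  have h1 := blocks_two hg hac ha hc
  have h3 := lam_compat_two hs
  have h4 := h1.sub (h3.mul0' ((of_int (p := 2) (g a)).sub (of_int (g c))))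
  convert h4 using 1
  ring

/-! ### the binomial part -/

lemma θ_sum_two {s c : ℕ} (hs : 2 ^ s ∣ 2 * c) (hc : 0 < c) : PO 2 s (2 * ∑ i ∈ range (2 * c - 1), θ 2 (i + 1)) := by
  have h1 := sum_flip (2 * c) (fun m => θ 2 m) θ_zero (θ_dvd (dvd_mul_right 2 c))
  have h3 : ∑ m ∈ range (2 * c), θ 2 m = ∑ i ∈ range (2 * c - 1), θ 2 (i + 1) := by
    obtain ⟨d, hd⟩ : ∃ d, 2 * c = d + 1 := ⟨2 * c - 1, by omega⟩
    rw [hd, Nat.add_sub_cancel, sum_range_succ', θ_zero]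
    simp
  rw [← h3, two_mul]
  nth_rewrite 1 [← h1]
  rw [← sum_add_distrib]
  apply PO.sum
  intro m hm
  exact θ_refl hs (mem_range.1 hm).le

lemma mult_eqm_two (ρ c : ℕ) : PO 2 (2 * (ρ + 1)) (F (2 * (2 * 2 ^ ρ)) (2 * c) - F (2 * 2 ^ ρ) c) := by
  rcases Nat.eq_zero_or_pos c with rfl | hc
  · rw [mul_zero, F_zero, F_zero, sub_self]; exact zero _
  obtain ⟨s, hs, hd, ht⟩ := trade (p := 2) ρ c
  rw [term_mult (p := 2) (pow_pos two_pos ρ) hc]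
  have h3 := prod_first (N_PO (p := 2) ρ) (fun i => θ 2 (i + 1)) (fun i => θ_PO _) (2 * c - 1)
  have h4 := PO_trade ht (θ_sum_two hd hc)
  have hN : PO 2 (ρ + 1) (((2 * 2 ^ ρ : ℕ) : ℚ)) := PO_of_dvd (by rw [pow_succ, mul_comm])
  have h5 := hN.mul h4
  rw [← two_mul] at h5
  have h6 := (h3.mul0' (F_PO (2 * 2 ^ ρ) c)).sub h5
  unfold Qp
  convert h6 using 1
  ring

/-- the odd part -/
def To (ρ : ℕ) : ℚ := ∑ m ∈ range (2 * 2 ^ ρ), (if 2 ∣ m then 0 else (u3 (((2 * 2 ^ ρ : ℕ) : ℤ) - m) : ℚ) * ((2 * (2 * 2 ^ ρ)).choose m : ℚ))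

/-- the alternating sum -/
def Dm (n : ℕ) : ℚ := ∑ c ∈ range n, (u3 ((n : ℤ) - c) : ℚ) * F (2 * n) c

lemma Dm_PO (n : ℕ) : PO 2 0 (Dm n) := PO.sum _ _ (fun _ _ => (of_int _).mul0 (F_PO _ _))

lemma N_PO_two (ρ : ℕ) : PO 2 (ρ + 2) (2 * ((2 * 2 ^ ρ : ℕ) : ℚ)) := by
  have : 2 * ((2 * 2 ^ ρ : ℕ) : ℚ) = ((2 ^ (ρ + 2) : ℕ) : ℚ) := by push_cast; rw [pow_add]; ring
  rw [this]
  exact PO_of_dvd dvd_rfl

lemma u3_two (k : ℤ) : u3 (2 * k) = -u3 k := by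
  rw [u3_mul]
  have : u3 2 = -1 := by decide
  rw [this]; ring

lemma V3_W (N : ℤ) : W 3 (fun m => u3 (N - m)) := by
  intro j
  show u3 (N - (j + 1)) = -(3 - 2) * u3 (N - j) - u3 (N - (j - 1))
  unfold u3
  push_cast
  generalize (N : ZMod 3) = a
  generalize (j : ZMod 3) = c
  revert a c; decide

lemma To_eqm (ρ : ℕ) : PO 2 (2 * ρ + 3) (To ρ + 2 * ((2 * 2 ^ ρ : ℕ) : ℚ) * lam 2 u3 (ρ + 1) * Dm (2 ^ ρ)) := by
  have hρ : 0 < 2 ^ ρ := pow_pos two_pos _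
  set N : ℤ := ((2 * 2 ^ ρ : ℕ) : ℤ) with hN
  have a2 : PO 2 (2 * ρ + 3) (To ρ -
      ∑ m ∈ range (2 * 2 ^ ρ), (2 * ((2 * 2 ^ ρ : ℕ) : ℚ) * ((u3 (N - m) : ℚ) * θ 2 m)) * F (2 * 2 ^ ρ - 1) (m / 2)) := by
    unfold To
    apply PO.sum_sub
    intro m _
    split_ifs with h
    · rw [θ_dvd h]; simpa using zero (p := 2) (2 * ρ + 3)
    · have h0 := term_prime (p := 2) hρ h
      have h9 : ((2 * (2 * 2 ^ ρ)).choose m : ℚ) = -F (2 * (2 * 2 ^ ρ)) m := by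
        unfold F
        rw [Odd.neg_one_pow (Nat.odd_iff.2 (by omega))]; ring
      rw [h9, h0]
      have h3 := Qp_one (N_PO_two ρ) (m - 1)
      have h4 := ((N_PO_two ρ).mul h3)
      have h5 := (h4.mul0' (((of_int (u3 (N - m))).mul0 (θ_PO (p := 2) m)).mul0 (F_PO (2 * 2 ^ ρ - 1) (m / 2)))).mono (show 2 * ρ + 3 ≤ ρ + 2 + (ρ + 2) by omega)
      convert h5 using 1
      ring
  have e2 : ∑ m ∈ range (2 * 2 ^ ρ), (2 * ((2 * 2 ^ ρ : ℕ) : ℚ) * ((u3 (N - m) : ℚ) * θ 2 m)) * F (2 * 2 ^ ρ - 1) (m / 2) =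
      (2 * ((2 * 2 ^ ρ : ℕ) : ℚ) * ∑ c ∈ range (2 ^ ρ), F (2 * 2 ^ ρ) c * HH 2 (fun m => u3 (N - m)) (2 * c) (2 * 2 ^ ρ)) := by
    have h3 : ∀ a, F (2 * 2 ^ ρ - 1) a = ∑ c ∈ range (a + 1), F (2 * 2 ^ ρ) c := by
      intro a
      have := F_sum (K := 2 * 2 ^ ρ - 1) a
      rwa [Nat.sub_add_cancel (by omega)] at this
    unfold HH
    rw [← sum_swap (p := 2) (2 ^ ρ) (fun m => (u3 (N - m) : ℚ) * θ 2 m) (fun c => F (2 * 2 ^ ρ) c), mul_sum]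
    apply sum_congr rfl
    intro m _
    rw [h3]; ring
  rw [e2] at a2
  have h3 : PO 2 (ρ + 1) (∑ c ∈ range (2 ^ ρ), F (2 * 2 ^ ρ) c * HH 2 (fun m => u3 (N - m)) (2 * c) (2 * 2 ^ ρ) -
      ∑ c ∈ range (2 ^ ρ), F (2 * 2 ^ ρ) c * (lam 2 u3 (ρ + 1) * ((u3 (N - ((2 * c : ℕ) : ℤ)) : ℚ) - (u3 (N - ((2 * 2 ^ ρ : ℕ) : ℤ)) : ℚ)))) := by
    apply PO.sum_sub
    intro c hc
    have hc' := mem_range.1 hc
    rw [← mul_sub]
    obtain ⟨s, hs, hd, ht⟩ := trade (p := 2) ρ c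
    refine PO_trade ht (blk_two (ρ + 1) (V3_W N) s hs _ _ (by omega) hd ?_)
    refine (pow_dvd_pow 2 hs).trans ?_
    rw [pow_succ, mul_comm]
  have h4 := ((N_PO_two ρ).mul h3).mono (show 2 * ρ + 3 ≤ ρ + 2 + (ρ + 1) by omega)
  have h5 := a2.add h4
  convert h5 using 1
  have e1 : ∑ c ∈ range (2 ^ ρ), F (2 * 2 ^ ρ) c * (lam 2 u3 (ρ + 1) * ((u3 (N - ((2 * c : ℕ) : ℤ)) : ℚ) - (u3 (N - ((2 * 2 ^ ρ : ℕ) : ℤ)) : ℚ))) =
      -(lam 2 u3 (ρ + 1) * Dm (2 ^ ρ)) := by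
    unfold Dm
    rw [mul_sum, ← sum_neg_distrib]
    apply sum_congr rfl
    intro c _
    have e3 : N - ((2 * c : ℕ) : ℤ) = 2 * (((2 ^ ρ : ℕ) : ℤ) - c) := by rw [hN]; push_cast; ring
    have e4 : u3 (N - ((2 * 2 ^ ρ : ℕ) : ℤ)) = 0 := by rw [← hN, sub_self]; decide
    rw [e3, e4, u3_two]
    push_cast
    ring
  rw [e1]
  ring

lemma split_sum (ρ : ℕ) (f : ℕ → ℚ) : ∑ m ∈ range (2 * 2 ^ ρ), f m =
    ∑ c ∈ range (2 ^ ρ), f (2 * c) + ∑ m ∈ range (2 * 2 ^ ρ), (if 2 ∣ m then 0 else f m) := by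
  rw [← sum_mult (p := 2) (2 ^ ρ) f, ← sum_add_distrib]
  apply sum_congr rfl
  intro m _
  split_ifs <;> simp

lemma even_part (ρ : ℕ) : PO 2 (2 * (ρ + 1)) (∑ c ∈ range (2 ^ ρ), (u3 (((2 * 2 ^ ρ : ℕ) : ℤ) - ((2 * c : ℕ) : ℤ)) : ℚ) * F (2 * (2 * 2 ^ ρ)) (2 * c) + Dm (2 ^ ρ)) := by
  unfold Dm
  rw [← sum_add_distrib]
  apply PO.sum
  intro c _
  have h1 := PO.mul0 (of_int (p := 2) (u3 (((2 * 2 ^ ρ : ℕ) : ℤ) - ((2 * c : ℕ) : ℤ)))) (mult_eqm_two ρ c)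
  convert h1 using 1
  have e3 : ((2 * 2 ^ ρ : ℕ) : ℤ) - ((2 * c : ℕ) : ℤ) = 2 * (((2 ^ ρ : ℕ) : ℤ) - c) := by push_cast; ring
  rw [e3, u3_two]
  push_cast
  ring

lemma F_even (K c : ℕ) : F K (2 * c) = (K.choose (2 * c) : ℚ) := by
  unfold F; rw [pow_mul]; norm_num

lemma F_odd {K m : ℕ} (h : ¬ 2 ∣ m) : F K m = -(K.choose m : ℚ) := by
  unfold F; rw [Odd.neg_one_pow (Nat.odd_iff.2 (by omega))]; ring

/-- `B(N) ≡ T - D_-` -/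
lemma D_eq (ρ : ℕ) : PO 2 (2 * (ρ + 1)) (D u3 (2 * 2 ^ ρ) - (To ρ - Dm (2 ^ ρ))) := by
  have h1 := even_part ρ
  have h2 : D u3 (2 * 2 ^ ρ) = ∑ c ∈ range (2 ^ ρ), (u3 (((2 * 2 ^ ρ : ℕ) : ℤ) - ((2 * c : ℕ) : ℤ)) : ℚ) * F (2 * (2 * 2 ^ ρ)) (2 * c) + To ρ := by
    unfold D To
    rw [split_sum]
    congr 1
    apply sum_congr rfl
    intro c _
    rw [F_even]
  rw [h2]
  convert h1 using 1
  ring

/-- `B(N) = D_-(N) + 2 T` -/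
lemma D_exact (ρ : ℕ) : D u3 (2 * 2 ^ ρ) = Dm (2 * 2 ^ ρ) + 2 * To ρ := by
  unfold D Dm To
  rw [mul_sum, ← sum_add_distrib]
  apply sum_congr rfl
  intro m _
  split_ifs with h
  · obtain ⟨c, rfl⟩ := h
    rw [F_even]; ring
  · rw [F_odd h]; ring

lemma Dm_rec (ρ : ℕ) : PO 2 (ρ + 1) (Dm (2 * 2 ^ ρ) + Dm (2 ^ ρ)) := by
  have h1 := (D_eq ρ).mono (show ρ + 1 ≤ 2 * (ρ + 1) by omega)
  rw [D_exact] at h1
  have h2 := (To_eqm ρ).mono (show ρ + 1 ≤ 2 * ρ + 3 by omega)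
  have h3 : PO 2 (ρ + 1) (2 * ((2 * 2 ^ ρ : ℕ) : ℚ) * lam 2 u3 (ρ + 1) * Dm (2 ^ ρ)) :=
    ((N_PO (p := 2) ρ).mul0' (lam_PO _ _)).mul0' (Dm_PO _)
  have h4 := h1.sub (h2.sub h3)
  convert h4 using 1
  ring

/-- `x = 1`, `p = 2` -/
theorem dwork_one_two (ρ : ℕ) : PO 2 (2 * (ρ + 1)) (A 1 (2 ^ (ρ + 1)) + A 1 (2 ^ ρ)) := by
  have eA : ∀ n, A 1 n = D u3 n := by
    intro n
    have e1 := A_eq (x := 1) (by norm_num) u3_V (by decide) (by decide) n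
    rw [Int.cast_one, one_mul, one_pow, one_mul] at e1
    exact e1.symm
  rcases Nat.eq_zero_or_pos ρ with rfl | hρ
  · have : A 1 (2 ^ (0 + 1)) + A 1 (2 ^ 0) = ((2 : ℕ) : ℚ) ^ 2 := by
      unfold A; norm_num [sum_range_succ, Nat.choose]
    rw [this]
    exact PO_ppow 2
  · obtain ⟨σ, rfl⟩ : ∃ σ, ρ = σ + 1 := ⟨ρ - 1, by omega⟩
    rw [eA, eA]
    have e0 : 2 ^ (σ + 1 + 1) = 2 * 2 ^ (σ + 1) := by ring
    have e1 : 2 ^ (σ + 1) = 2 * 2 ^ σ := by ring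
    have h1 := D_eq (σ + 1)
    have h2 := D_exact σ
    have h3 := (To_eqm (σ + 1)).mono (show 2 * (σ + 1 + 1) ≤ 2 * (σ + 1) + 3 by omega)
    have h4 := (two_PO (p := 2))
    have h5 := (((PO_ppow (p := 2) 1).mul (To_eqm σ)).mono (show 2 * (σ + 1 + 1) ≤ 1 + (2 * σ + 3) by omega))
    have h6 := Dm_rec σ
    have h7 := lam_compat_two (show σ + 1 ≤ σ + 1 + 1 by omega)
    -- lam_{σ+2} Dm(n) + lam_{σ+1} Dm(n/2)
    have h8 := (h7.mul0' (Dm_PO (2 * 2 ^ σ))).add (PO.mul0 (lam_PO (p := 2) u3 (σ + 1)) h6)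
    have h9 := ((N_PO_two (σ + 1)).mul h8).mono (show 2 * (σ + 1 + 1) ≤ σ + 1 + 2 + (σ + 1) by omega)
    have h10 := ((h1.add h3).add h5).sub h9
    rw [e0]
    convert h10 using 1
    rw [e1, h2]
    push_cast
    ring

end Pool.Agent.X14.DW
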