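import Mathlib

set_option autoImplicit false

/-! The Domb numbers: recurrence, parity, residues mod 3. -/

namespace Pool.Agent.X14.Domb

open Finset

/-- summand -/
def u (a b : ℕ) : ℚ := ((a + b).choose a : ℚ) ^ 2 * ((2 * a).choose a : ℚ) * ((2 * b).choose b : ℚ)

/-- Domb numbers -/
def s (n : ℕ) : ℕ := ∑ k ∈ range (n + 1), n.choose k ^ 2 * (2 * k).choose k * (2 * (n - k)).choose (n - k)

lemma s_eq (n : ℕ) : (s n : ℚ) = ∑ k ∈ range (n + 1), u k (n - k) := by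
  unfold s u
  push_cast
  apply sum_congr rfl
  intro k hk
  have : k + (n - k) = n := by have := mem_range.1 hk; omega
  rw [this]

lemma central_succ (b : ℕ) : ((2 * (b + 1)).choose (b + 1) : ℚ) = ((2 * b).choose b : ℚ) * (2 * (2 * b + 1)) / (b + 1) := by
  have h := Nat.succ_mul_centralBinom_succ b
  unfold Nat.centralBinom at h
  have hb : (b : ℚ) + 1 ≠ 0 := by positivity
  rw [eq_div_iff hb]
  have h2 : (((b + 1) * (2 * (b + 1)).choose (b + 1) : ℕ) : ℚ) = ((2 * (2 * b + 1) * (2 * b).choose b : ℕ) : ℚ) := by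
    rw [h]
  push_cast at h2
  linarith

lemma choose_succ_b (a b : ℕ) : ((a + (b + 1)).choose a : ℚ) = ((a + b).choose a : ℚ) * (a + b + 1) / (b + 1) := by
  have h := Nat.choose_mul_succ_eq (a + b) a
  have hb : (b : ℚ) + 1 ≠ 0 := by positivity
  rw [eq_div_iff hb]
  have e : a + b + 1 - a = b + 1 := by omega
  rw [e] at h
  have h2 : (((a + b).choose a * (a + b + 1) : ℕ) : ℚ) = (((a + b + 1).choose a * (b + 1) : ℕ) : ℚ) := by
    rw [h]
  push_cast at h2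
  rw [← add_assoc]
  linarith

lemma choose_succ_a (a b : ℕ) : ((a + 1 + b).choose (a + 1) : ℚ) = ((a + b).choose a : ℚ) * (a + b + 1) / (a + 1) := by
  have h := Nat.add_one_mul_choose_eq (a + b) a
  have hb : (a : ℚ) + 1 ≠ 0 := by positivity
  rw [eq_div_iff hb]
  have h2 : (((a + b + 1) * (a + b).choose a : ℕ) : ℚ) = (((a + b + 1).choose (a + 1) * (a + 1) : ℕ) : ℚ) := by
    rw [h]
  push_cast at h2
  rw [show a + 1 + b = a + b + 1 by ring]
  linarith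

lemma u_succ_b (a b : ℕ) : u a (b + 1) = u a b * (2 * ((a : ℚ) + b + 1) ^ 2 * (2 * b + 1)) / (b + 1) ^ 3 := by
  unfold u
  rw [choose_succ_b, central_succ]
  have hb : (b : ℚ) + 1 ≠ 0 := by positivity
  field_simp

lemma u_succ_a (a b : ℕ) : u (a + 1) b = u a b * (2 * ((a : ℚ) + b + 1) ^ 2 * (2 * a + 1)) / (a + 1) ^ 3 := by
  unfold u
  rw [choose_succ_a, central_succ]
  have hb : (a : ℚ) + 1 ≠ 0 := by positivity
  field_simp

/-- the polynomial of the certificate, with `n = N + 1` -/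
def q (n k : ℚ) : ℚ := n ^ 2 * (16 * k ^ 3 - (72 * n + 48) * k ^ 2 + (104 * n ^ 2 + 148 * n + 44) * k -
  (48 * n ^ 3 + 104 * n ^ 2 + 64 * n + 8))

lemma tel (N m : ℕ) (hm : m ≤ N) :
    ∑ a ∈ range m, (((N : ℚ) + 2) ^ 3 * u a (N + 2 - a) -
      2 * (2 * N + 3) * (5 * ((N : ℚ) + 1) ^ 2 + 5 * (N + 1) + 2) * u a (N + 1 - a) + 64 * ((N : ℚ) + 1) ^ 3 * u a (N - a)) =
    (m : ℚ) ^ 3 * (2 * ((N - m : ℕ) : ℚ) + 1) * q (N + 1) m / ((((N - m : ℕ) : ℚ) + 2) ^ 3 * (((N - m : ℕ) : ℚ) + 1) ^ 3) *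
      u m (N - m) := by
  induction m with
  | zero => simp
  | succ m ih =>
    rw [sum_range_succ, ih (by omega)]
    obtain ⟨b, rfl⟩ : ∃ b, N = m + 1 + b := ⟨N - (m + 1), by omega⟩
    have e1 : m + 1 + b - m = b + 1 := by omega
    have e2 : m + 1 + b + 2 - m = b + 3 := by omega
    have e3 : m + 1 + b + 1 - m = b + 2 := by omega
    have e4 : m + 1 + b - (m + 1) = b := by omega
    rw [e1, e2, e3, e4]
    rw [u_succ_a, show b + 3 = b + 1 + 1 + 1 by ring, show b + 2 = b + 1 + 1 by ring, u_succ_b m (b + 1 + 1), u_succ_b m (b + 1),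
      u_succ_b m b]
    unfold q
    have h1 : (b : ℚ) + 1 ≠ 0 := by positivity
    have h2 : (b : ℚ) + 2 ≠ 0 := by positivity
    have h3 : (b : ℚ) + 3 ≠ 0 := by positivity
    have h4 : (m : ℚ) + 1 ≠ 0 := by positivity
    push_cast
    have h5 : (b : ℚ) + 1 + 1 ≠ 0 := by positivity
    have h6 : (b : ℚ) + 1 + 2 ≠ 0 := by positivity
    have h7 : (b : ℚ) + 1 + 1 + 1 ≠ 0 := by positivity
    generalize u m b = U
    field_simp
    ring

/-- the recurrence of the Domb numbers -/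
theorem rec (N : ℕ) : ((N : ℚ) + 2) ^ 3 * s (N + 2) -
    2 * (2 * N + 3) * (5 * ((N : ℚ) + 1) ^ 2 + 5 * (N + 1) + 2) * s (N + 1) + 64 * ((N : ℚ) + 1) ^ 3 * s N = 0 := by
  rw [s_eq, s_eq, s_eq]
  rw [sum_range_succ _ (N + 2), sum_range_succ _ (N + 1), sum_range_succ (fun k => u k (N + 1 - k)) (N + 1)]
  have h := tel N N le_rfl
  have e : ∑ a ∈ range (N + 1), (((N : ℚ) + 2) ^ 3 * u a (N + 2 - a) -
      2 * (2 * N + 3) * (5 * ((N : ℚ) + 1) ^ 2 + 5 * (N + 1) + 2) * u a (N + 1 - a) + 64 * ((N : ℚ) + 1) ^ 3 * u a (N - a)) =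
      ((N : ℚ) + 2) ^ 3 * ∑ a ∈ range (N + 1), u a (N + 2 - a) -
      2 * (2 * N + 3) * (5 * ((N : ℚ) + 1) ^ 2 + 5 * (N + 1) + 2) * ∑ a ∈ range (N + 1), u a (N + 1 - a) +
      64 * ((N : ℚ) + 1) ^ 3 * ∑ a ∈ range (N + 1), u a (N - a) := by
    rw [sum_add_distrib, sum_sub_distrib, ← mul_sum, ← mul_sum, ← mul_sum]
  rw [sum_range_succ, h] at e
  have e1 : N + 2 - (N + 1) = 1 := by omega
  have e2 : N + 2 - (N + 2) = 0 := by omega
  have e3 : N + 1 - (N + 1) = 0 := by omega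
  have e4 : N + 2 - N = 2 := by omega
  have e5 : N + 1 - N = 1 := by omega
  have e6 : N - N = 0 := by omega
  rw [e1, e2, e3]
  rw [e4, e5, e6] at e
  have f1 : u N 1 = _ := u_succ_b N 0
  have f2 : u N 2 = _ := u_succ_b N 1
  have f3 : u (N + 1) 0 = _ := u_succ_a N 0
  have f4 : u (N + 1) 1 = _ := u_succ_b (N + 1) 0
  have f5 : u (N + 2) 0 = _ := u_succ_a (N + 1) 0
  rw [f5, f4, f3]
  rw [f2, f1] at e
  have h4 : (N : ℚ) + 1 ≠ 0 := by positivity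
  have h5 : (N : ℚ) + 2 ≠ 0 := by positivity
  have h6 : (N : ℚ) + 1 + 1 ≠ 0 := by positivity
  unfold q at e
  push_cast at e ⊢
  generalize u N 0 = U at *
  rw [mul_add, mul_add, mul_add]
  have key : ((N : ℚ) + 2) ^ 3 * ∑ a ∈ range (N + 1), u a (N + 2 - a) =
      2 * (2 * N + 3) * (5 * ((N : ℚ) + 1) ^ 2 + 5 * (N + 1) + 2) * ∑ a ∈ range (N + 1), u a (N + 1 - a) -
      64 * ((N : ℚ) + 1) ^ 3 * ∑ a ∈ range (N + 1), u a (N - a) +
      (((N : ℚ) + 2) ^ 3 * ∑ a ∈ range (N + 1), u a (N + 2 - a) -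
      2 * (2 * N + 3) * (5 * ((N : ℚ) + 1) ^ 2 + 5 * (N + 1) + 2) * ∑ a ∈ range (N + 1), u a (N + 1 - a) +
      64 * ((N : ℚ) + 1) ^ 3 * ∑ a ∈ range (N + 1), u a (N - a)) := by ring
  rw [key, ← e]
  field_simp
  ring

end Pool.Agent.X14.Domb
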