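import Pool.Agent.X14.Domb

set_option autoImplicit false

namespace Pool.Agent.X14.Domb

open Finset

/-- the summands -/
def t (n k : ℕ) : ℕ := n.choose k ^ 2 * (2 * k).choose k * (2 * (n - k)).choose (n - k)

lemma s_t (n : ℕ) : s n = ∑ k ∈ range (n + 1), t n k := rfl

lemma two_dvd_cb {k : ℕ} (hk : 0 < k) : 2 ∣ (2 * k).choose k := Nat.two_dvd_centralBinom_of_one_le hk

lemma t_symm {n k : ℕ} (hk : k ≤ n) : t n (n - k) = t n k := by
  unfold t
  rw [Nat.choose_symm hk, Nat.sub_sub_self hk]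
  ring

lemma cb_half {m : ℕ} (hm : 0 < m) : (2 * m).choose m = 2 * (2 * m - 1).choose m := by
  obtain ⟨n, rfl⟩ : ∃ n, m = n + 1 := ⟨m - 1, by omega⟩
  have h : 2 * (n + 1) = (2 * n + 1) + 1 := by ring
  have h2 : 2 * (n + 1) - 1 = 2 * n + 1 := by omega
  rw [h2, h, Nat.choose_succ_succ' (2 * n + 1) n]
  have h3 : (2 * n + 1).choose n = (2 * n + 1).choose (n + 1) := by
    have := Nat.choose_symm_of_eq_add (n := 2 * n + 1) (a := n) (b := n + 1) (by ring)
    exact this
  rw [h3]; ring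

/-- `s_m ≡ 4 C(2m-1, m) (mod 8)` -/
lemma s_mod8 {m : ℕ} (hm : 0 < m) : ((s m : ℕ) : ZMod 8) = 4 * (((2 * m - 1).choose m : ℕ) : ZMod 8) := by
  rw [s_t, sum_range_succ]
  obtain ⟨n, rfl⟩ : ∃ n, m = n + 1 := ⟨m - 1, by omega⟩
  rw [sum_range_succ']
  have e0 : t (n + 1) 0 = (2 * (n + 1)).choose (n + 1) := by unfold t; simp
  have e1 : t (n + 1) (n + 1) = (2 * (n + 1)).choose (n + 1) := by unfold t; simp
  rw [e0, e1, cb_half hm]
  push_cast
  have h4 : ∀ k ∈ range n, (4 : ZMod 8) * (((t (n + 1) (k + 1) / 4 : ℕ)) : ZMod 8) = ((t (n + 1) (k + 1) : ℕ) : ZMod 8) := by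
    intro k hk
    have hk' := mem_range.1 hk
    have hd : 4 ∣ t (n + 1) (k + 1) := by
      unfold t
      have h1 : 2 ∣ (2 * (k + 1)).choose (k + 1) := two_dvd_cb (by omega)
      have h2 : 2 ∣ (2 * (n + 1 - (k + 1))).choose (n + 1 - (k + 1)) := two_dvd_cb (by omega)
      obtain ⟨x, hx⟩ := h1
      obtain ⟨y, hy⟩ := h2
      rw [hx, hy]
      exact ⟨(n + 1).choose (k + 1) ^ 2 * x * y, by ring⟩
    have : t (n + 1) (k + 1) = 4 * (t (n + 1) (k + 1) / 4) := (Nat.mul_div_cancel' hd).symm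
    conv_rhs => rw [this]
    push_cast
    ring
  have hsum : ∑ k ∈ range n, ((t (n + 1) (k + 1) : ℕ) : ZMod 8) = 0 := by
    refine Finset.sum_involution (fun k _ => n - 1 - k) ?_ ?_ ?_ ?_
    · intro k hk
      have hk' := mem_range.1 hk
      have e : t (n + 1) (n - 1 - k + 1) = t (n + 1) (k + 1) := by
        have := t_symm (n := n + 1) (k := k + 1) (by omega)
        rw [← this]; congr 1; omega
      rw [e, ← h4 k hk]
      have h8 : (8 : ZMod 8) = 0 := by decide
      linear_combination (((t (n + 1) (k + 1) / 4 : ℕ)) : ZMod 8) * h8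
    · intro k hk hne heq
      have hk' := mem_range.1 hk
      apply hne
      have hn : n + 1 = 2 * (k + 1) := by omega
      have h1 : 2 ∣ (2 * (k + 1)).choose (k + 1) := two_dvd_cb (by omega)
      obtain ⟨x, hx⟩ := h1
      have e : t (n + 1) (k + 1) = 8 * (2 * x ^ 4) := by
        unfold t
        rw [hn, show 2 * (k + 1) - (k + 1) = k + 1 by omega, hx]
        ring
      rw [e]
      push_cast
      have h8 : (8 : ZMod 8) = 0 := by decide
      rw [h8]; ring
    · intro k hk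
      have hk' := mem_range.1 hk
      exact mem_range.2 (by omega)
    · intro k hk
      have hk' := mem_range.1 hk
      show n - 1 - (n - 1 - k) = k
      omega
  rw [hsum]
  ring

/-- `C(2m-1, m)` is odd exactly when `m` is a power of two -/
lemma odd_iff : ∀ m : ℕ, 0 < m → (Odd ((2 * m - 1).choose m) ↔ ∃ k, m = 2 ^ k) := by
  intro m
  induction m using Nat.strong_induction_on with
  | _ m ih =>
    intro hm
    have : Fact (Nat.Prime 2) := ⟨Nat.prime_two⟩
    have hL := Choose.choose_modEq_choose_mod_mul_choose_div_nat (n := 2 * m - 1) (k := m) (p := 2)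
    rcases Nat.even_or_odd' m with ⟨j, hj | hj⟩
    · have e1 : (2 * m - 1) % 2 = 1 := by omega
      have e2 : (2 * m - 1) / 2 = 2 * j - 1 := by omega
      have e3 : m % 2 = 0 := by omega
      have e4 : m / 2 = j := by omega
      rw [e1, e2, e3, e4, Nat.choose_zero_right, one_mul] at hL
      have h5 : Odd ((2 * m - 1).choose m) ↔ Odd ((2 * j - 1).choose j) := by
        rw [Nat.odd_iff, Nat.odd_iff]
        unfold Nat.ModEq at hL
        rw [hL]
      rw [h5, ih j (by omega) (by omega)]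
      constructor
      · rintro ⟨k, hk⟩
        exact ⟨k + 1, by rw [hj, hk]; ring⟩
      · rintro ⟨k, hk⟩
        rcases k with _ | k
        · rw [pow_zero] at hk; omega
        · exact ⟨k, by rw [pow_succ] at hk; omega⟩
    · rcases Nat.eq_zero_or_pos j with h0 | h0
      · subst h0
        have : m = 1 := by omega
        subst this
        simp only [Nat.mul_one]
        constructor
        · intro _; exact ⟨0, rfl⟩
        · intro _; decide
      · have e1 : (2 * m - 1) % 2 = 1 := by omega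
        have e2 : (2 * m - 1) / 2 = 2 * j := by omega
        have e3 : m % 2 = 1 := by omega
        have e4 : m / 2 = j := by omega
        rw [e1, e2, e3, e4, Nat.choose_self, one_mul] at hL
        constructor
        · intro h
          rw [Nat.odd_iff] at h
          unfold Nat.ModEq at hL
          rw [h] at hL
          have := two_dvd_cb h0
          omega
        · rintro ⟨k, hk⟩
          rcases k with _ | k
          · rw [pow_zero] at hk; omega
          · rw [pow_succ] at hk; omega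

lemma choose3 (N k : ℕ) : ((N.choose k : ℕ) : ZMod 3) = (((N % 3).choose (k % 3) : ℕ) : ZMod 3) * (((N / 3).choose (k / 3) : ℕ) : ZMod 3) := by
  have : Fact (Nat.Prime 3) := ⟨Nat.prime_three⟩
  have hL := Choose.choose_modEq_choose_mod_mul_choose_div_nat (n := N) (k := k) (p := 3)
  have := (ZMod.natCast_eq_natCast_iff _ _ _).2 hL
  rw [this]; push_cast; rfl

lemma cb3 (K i : ℕ) (hi : i < 3) : (((2 * (3 * K + i)).choose (3 * K + i) : ℕ) : ZMod 3) =
    (((2 * K).choose K : ℕ) : ZMod 3) * (((2 * i).choose i : ℕ) : ZMod 3) := by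
  rw [choose3]
  have h3 : (3 : ZMod 3) = 0 := by decide
  interval_cases i
  · have e1 : 2 * (3 * K + 0) % 3 = 0 := by omega
    have e2 : (3 * K + 0) % 3 = 0 := by omega
    have e3 : 2 * (3 * K + 0) / 3 = 2 * K := by omega
    have e4 : (3 * K + 0) / 3 = K := by omega
    rw [e1, e2, e3, e4]; simp
  · have e1 : 2 * (3 * K + 1) % 3 = 2 := by omega
    have e2 : (3 * K + 1) % 3 = 1 := by omega
    have e3 : 2 * (3 * K + 1) / 3 = 2 * K := by omega
    have e4 : (3 * K + 1) / 3 = K := by omega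
    rw [e1, e2, e3, e4, mul_comm]
  · have e1 : 2 * (3 * K + 2) % 3 = 1 := by omega
    have e2 : (3 * K + 2) % 3 = 2 := by omega
    rw [e1, e2]
    have e5 : ((((2 * 2).choose 2 : ℕ)) : ZMod 3) = 0 := by decide
    have e6 : (((1 : ℕ).choose 2 : ℕ) : ZMod 3) = 0 := by decide
    rw [e5, e6]; ring

lemma s_lucas (n j : ℕ) (hj : j < 3) : ((s (3 * n + j) : ℕ) : ZMod 3) = ((s n : ℕ) : ZMod 3) * ((s j : ℕ) : ZMod 3) := by
  have e0 : ((s (3 * n + j) : ℕ) : ZMod 3) = ∑ k ∈ range (3 * (n + 1)), ((t (3 * n + j) k : ℕ) : ZMod 3) := by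
    rw [s_t]
    push_cast
    apply Finset.sum_subset
    · intro x hx
      rw [mem_range] at *; omega
    · intro x _ hx
      rw [mem_range, not_lt] at hx
      unfold t
      rw [Nat.choose_eq_zero_of_lt (by omega)]; simp
  have e1 : ∑ k ∈ range (3 * (n + 1)), ((t (3 * n + j) k : ℕ) : ZMod 3) =
      ∑ K ∈ range (n + 1), ∑ i ∈ range 3, ((t (3 * n + j) (3 * K + i) : ℕ) : ZMod 3) := by
    induction (n + 1) with
    | zero => simp
    | succ c ih => rw [Nat.mul_succ, Finset.sum_range_add, ih, sum_range_succ (fun K => ∑ i ∈ range 3, ((t (3 * n + j) (3 * K + i) : ℕ) : ZMod 3))]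
  have e2 : ((s n : ℕ) : ZMod 3) * ((s j : ℕ) : ZMod 3) = ∑ K ∈ range (n + 1), ∑ i ∈ range 3,
      ((t n K : ℕ) : ZMod 3) * ((t j i : ℕ) : ZMod 3) := by
    rw [s_t n, s_t j]
    push_cast
    rw [sum_mul]
    apply sum_congr rfl
    intro K _
    rw [mul_sum]
    apply Finset.sum_subset
    · intro x hx
      rw [mem_range] at *; omega
    · intro x _ hx
      rw [mem_range, not_lt] at hx
      unfold t
      rw [Nat.choose_eq_zero_of_lt (by omega : j < x)]; simp
  rw [e0, e1, e2]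
  apply sum_congr rfl
  intro K hK
  apply sum_congr rfl
  intro i hi
  have hK' : K ≤ n := by have := mem_range.1 hK; omega
  have hi' := mem_range.1 hi
  unfold t
  push_cast
  have c1 : (((3 * n + j).choose (3 * K + i) : ℕ) : ZMod 3) = ((j.choose i : ℕ) : ZMod 3) * ((n.choose K : ℕ) : ZMod 3) := by
    rw [choose3]
    have e1 : (3 * n + j) % 3 = j := by omega
    have e2 : (3 * K + i) % 3 = i := by omega
    have e3 : (3 * n + j) / 3 = n := by omega
    have e4 : (3 * K + i) / 3 = K := by omega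
    rw [e1, e2, e3, e4]
  rw [c1, cb3 K i hi']
  rcases Nat.lt_or_ge j i with h | h
  · rw [Nat.choose_eq_zero_of_lt h]; simp
  · have e5 : 3 * n + j - (3 * K + i) = 3 * (n - K) + (j - i) := by omega
    rw [e5, cb3 (n - K) (j - i) (by omega)]
    ring

lemma s_mod3 : ∀ n : ℕ, ((s n : ℕ) : ZMod 3) = 1 := by
  intro n
  induction n using Nat.strong_induction_on with
  | _ n ih =>
    rcases Nat.lt_or_ge n 3 with h | h
    · interval_cases n <;> decide
    · have e : n = 3 * (n / 3) + n % 3 := by omega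
      rw [e, s_lucas _ _ (Nat.mod_lt _ (by norm_num)), ih (n / 3) (by omega), ih (n % 3) (by omega), one_mul]

/-- the recurrence over the integers -/
lemma rec_int (N : ℕ) : ((N : ℤ) + 2) ^ 3 * s (N + 2) =
    2 * (2 * N + 3) * (5 * ((N : ℤ) + 1) ^ 2 + 5 * (N + 1) + 2) * s (N + 1) - 64 * ((N : ℤ) + 1) ^ 3 * s N := by
  have h := rec N
  have h2 : (((N : ℤ) + 2) ^ 3 * s (N + 2) - (2 * (2 * N + 3) * (5 * ((N : ℤ) + 1) ^ 2 + 5 * (N + 1) + 2) * s (N + 1) -
      64 * ((N : ℤ) + 1) ^ 3 * s N) : ℤ) = 0 := by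
    have : (((((N : ℤ) + 2) ^ 3 * s (N + 2) - (2 * (2 * N + 3) * (5 * ((N : ℤ) + 1) ^ 2 + 5 * (N + 1) + 2) * s (N + 1) -
      64 * ((N : ℤ) + 1) ^ 3 * s N)) : ℤ) : ℚ) = 0 := by
      push_cast; linarith
    exact_mod_cast this
  linarith

/-- telescoping -/
lemma tele (m : ℕ) : 6 * ∑ n ∈ range (m + 1), (3 * (n : ℤ) ^ 2 + n) * 16 ^ (m - n) * s n =
    ((m : ℤ) + 1) ^ 3 * ((s (m + 1) : ℤ) - 4 * s m) := by
  induction m with
  | zero => simp [s, sum_range_succ]
  | succ m ih =>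
    rw [sum_range_succ]
    have e : ∑ n ∈ range (m + 1), (3 * (n : ℤ) ^ 2 + n) * 16 ^ (m + 1 - n) * s n =
        16 * ∑ n ∈ range (m + 1), (3 * (n : ℤ) ^ 2 + n) * 16 ^ (m - n) * s n := by
      rw [mul_sum]
      apply sum_congr rfl
      intro n hn
      have := mem_range.1 hn
      rw [show m + 1 - n = (m - n) + 1 by omega, pow_succ]; ring
    rw [e, Nat.sub_self, pow_zero, mul_add, show (6 : ℤ) * (16 * ∑ n ∈ range (m + 1), (3 * (n : ℤ) ^ 2 + n) * 16 ^ (m - n) * s n) =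
      16 * (6 * ∑ n ∈ range (m + 1), (3 * (n : ℤ) ^ 2 + n) * 16 ^ (m - n) * s n) by ring, ih]
    have h := rec_int m
    push_cast
    linear_combination -h

/-- the arithmetic of `s_{n+1} - 4 s_n` -/
theorem main (n : ℕ) (hn : 0 < n) : ∃ z : ℤ, (s (n + 1) : ℤ) - 4 * s n = 12 * n * z ∧ (Odd z ↔ ∃ k, n + 1 = 2 ^ k) := by
  obtain ⟨N, rfl⟩ : ∃ N, n = N + 1 := ⟨n - 1, by omega⟩
  have h := rec_int N
  set D : ℤ := (s (N + 1 + 1) : ℤ) - 4 * s (N + 1) with hD
  have hrec : ((N : ℤ) + 2) ^ 3 * D = ((N : ℤ) + 1) * ((16 * ((N : ℤ) + 1) ^ 2 + 18 * (N + 1) + 6) * s (N + 1) -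
      64 * ((N : ℤ) + 1) ^ 2 * s N) := by
    rw [hD]; linear_combination h
  -- divisibility by n
  have hcop : IsCoprime ((N : ℤ) + 1) (((N : ℤ) + 2) ^ 3) := by
    apply IsCoprime.pow_right
    exact ⟨-1, 1, by ring⟩
  obtain ⟨E, hE⟩ : ((N : ℤ) + 1) ∣ D := by
    apply hcop.dvd_of_dvd_mul_left
    rw [hrec]; exact dvd_mul_right _ _
  have hn0 : ((N : ℤ) + 1) ≠ 0 := by positivity
  have hrecE : ((N : ℤ) + 2) ^ 3 * E = (16 * ((N : ℤ) + 1) ^ 2 + 18 * (N + 1) + 6) * s (N + 1) -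
      64 * ((N : ℤ) + 1) ^ 2 * s N := by
    apply mul_left_cancel₀ hn0
    rw [← hrec, hE]; ring
  -- divisibility by 3
  have h3 : (3 : ℤ) ∣ E := by
    have p3 : Prime (3 : ℤ) := Int.prime_three
    by_cases hd : (3 : ℤ) ∣ (N : ℤ) + 1
    · have h5 : (3 : ℤ) ∣ ((N : ℤ) + 2) ^ 3 * E := by
        rw [hrecE]
        obtain ⟨c, hc⟩ := hd
        rw [hc]
        exact ⟨(48 * c ^ 2 + 18 * c + 2) * s (N + 1) - 64 * 3 * c ^ 2 * s N, by ring⟩
      rcases p3.dvd_or_dvd h5 with h6 | h6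
      · have h7 := p3.dvd_of_dvd_pow h6
        exfalso; omega
      · exact h6
    · have h5 : (3 : ℤ) ∣ ((N : ℤ) + 1) * E := by
        rw [← hE, hD]
        apply (ZMod.intCast_zmod_eq_zero_iff_dvd _ 3).1
        push_cast
        rw [s_mod3, s_mod3]
        decide
      exact (p3.dvd_or_dvd h5).resolve_left hd
  -- residues mod 8
  have hs8 : ∀ m : ℕ, 0 < m → (8 : ℤ) ∣ (s m : ℤ) - 4 * ((2 * m - 1).choose m : ℤ) := by
    intro m hm
    apply (ZMod.intCast_zmod_eq_zero_iff_dvd _ 8).1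
    push_cast
    rw [s_mod8 hm]; ring
  have hs4 : ∀ m : ℕ, 0 < m → (4 : ℤ) ∣ (s m : ℤ) := by
    intro m hm
    have := hs8 m hm
    omega
  rcases Nat.even_or_odd N with hev | hodd
  · -- n odd
    obtain ⟨j, hj⟩ := hev
    have h1 : (8 : ℤ) ∣ ((N : ℤ) + 1) * E - 4 * ((2 * (N + 1 + 1) - 1).choose (N + 1 + 1) : ℤ) := by
      rw [← hE, hD]
      have h5 := hs8 (N + 1 + 1) (by omega)
      have h6 := hs4 (N + 1) (by omega)
      omega
    have h2 : ((N : ℤ) + 1) * E = E + 2 * ((j : ℤ) * E) := by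
      have : (N : ℤ) = j + j := by exact_mod_cast hj
      rw [this]; ring
    have h4E : (4 : ℤ) ∣ E := by
      have h6 : (4 : ℤ) ∣ ((N : ℤ) + 1) * E := by omega
      have hc : IsCoprime (4 : ℤ) ((N : ℤ) + 1) := by
        have hNj : (N : ℤ) = j + j := by exact_mod_cast hj
        have : IsCoprime (2 : ℤ) ((N : ℤ) + 1) := ⟨-(j : ℤ), 1, by rw [hNj]; ring⟩
        have h8 := this.pow_left (m := 2)
        norm_num at h8
        exact h8
      exact hc.dvd_of_dvd_mul_left h6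
    obtain ⟨z, hz⟩ : (12 : ℤ) ∣ E := by omega
    refine ⟨z, ?_, ?_⟩
    · rw [hE, hz]; push_cast; ring
    · rw [← odd_iff (N + 1 + 1) (by omega)]
      have h7 : (8 : ℤ) ∣ E - 4 * ((2 * (N + 1 + 1) - 1).choose (N + 1 + 1) : ℤ) := by
        obtain ⟨w, hw⟩ := h4E
        rw [h2, hw] at h1
        rw [hw]
        have : (8 : ℤ) ∣ 2 * ((j : ℤ) * (4 * w)) := ⟨(j : ℤ) * w, by ring⟩
        omega
      rw [hz] at h7
      generalize (2 * (N + 1 + 1) - 1).choose (N + 1 + 1) = c at h7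
      rw [Int.odd_iff, Nat.odd_iff]
      omega
  · -- n even
    obtain ⟨j, hj⟩ := hodd
    have h8 : (8 : ℤ) ∣ ((N : ℤ) + 2) ^ 3 * E := by
      rw [hrecE]
      obtain ⟨c, hc⟩ := hs4 (N + 1) (by omega)
      rw [hc]
      exact ⟨(8 * ((N : ℤ) + 1) ^ 2 + 9 * (N + 1) + 3) * c - 8 * ((N : ℤ) + 1) ^ 2 * s N, by ring⟩
    have hc : IsCoprime (8 : ℤ) (((N : ℤ) + 2) ^ 3) := by
      have hNj : (N : ℤ) = 2 * j + 1 := by exact_mod_cast hj
      have : IsCoprime (2 : ℤ) ((N : ℤ) + 2) := ⟨-((j : ℤ) + 1), 1, by rw [hNj]; ring⟩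
      have h9 := (this.pow_left (m := 3)).pow_right (n := 3)
      norm_num at h9
      exact h9
    have h8E : (8 : ℤ) ∣ E := hc.dvd_of_dvd_mul_left h8
    obtain ⟨z, hz⟩ : (24 : ℤ) ∣ E := by omega
    refine ⟨2 * z, ?_, ?_⟩
    · rw [hE, hz]; push_cast; ring
    · constructor
      · intro h
        rw [Int.odd_iff] at h; omega
      · rintro ⟨k, hk⟩
        rcases k with _ | k
        · rw [pow_zero] at hk; omega
        · rw [pow_succ] at hk; omega

end Pool.Agent.X14.Domb
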