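import Mathlib

set_option autoImplicit false

/-! Chebyshev-type sums of Fibonacci-type sequences. -/

namespace Pool.Agent.X14.FL

open Finset

noncomputable section

/-- coefficients of `2 cos 2Nθ` in powers of `(2 sin θ)^2` -/
def dd (N : ℚ) (k : ℕ) : ℚ := 2 * ∏ j ∈ range k, (-((N - j) * (N + j)) / ((2 * j + 1) * (2 * j + 2)))

/-- coefficients of `2 sin (2n+1)θ` in powers of `2 sin θ` -/
def ee (n : ℚ) (k : ℕ) : ℚ := (2 * n + 1) * ∏ j ∈ range k, (-((n - j) * (n + j + 1)) / ((2 * j + 2) * (2 * j + 3)))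

lemma dd_succ (N : ℚ) (k : ℕ) : dd N (k + 1) = dd N k * (-((N - k) * (N + k)) / ((2 * k + 1) * (2 * k + 2))) := by
  rw [dd, prod_range_succ, ← mul_assoc, ← dd]

lemma ee_succ (n : ℚ) (k : ℕ) : ee n (k + 1) = ee n k * (-((n - k) * (n + k + 1)) / ((2 * k + 2) * (2 * k + 3))) := by
  rw [ee, prod_range_succ, ← mul_assoc, ← ee]

lemma dd_L1 (N : ℚ) (k : ℕ) : N * dd (N + 1) (k + 1) * ((2 * k + 1) * (2 * k + 2)) = -((N + 1) * (N + k) * (N + k + 1)) * dd N k := by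
  induction k with
  | zero => simp [dd]; ring
  | succ k ih =>
    rw [dd_succ (N + 1) (k + 1), dd_succ N k]
    have h1 : (2 * (k : ℚ) + 1) ≠ 0 := by positivity
    have h2 : (2 * (k : ℚ) + 2) ≠ 0 := by positivity
    have ih' : N * dd (N + 1) (k + 1) = -((N + 1) * (N + k) * (N + k + 1)) * dd N k / ((2 * k + 1) * (2 * k + 2)) := by
      rw [eq_div_iff (mul_ne_zero h1 h2)]; exact ih
    have e : N * (dd (N + 1) (k + 1) * (-((N + 1 - ((k + 1 : ℕ) : ℚ)) * (N + 1 + ((k + 1 : ℕ) : ℚ))) / ((2 * ((k + 1 : ℕ) : ℚ) + 1) * (2 * ((k + 1 : ℕ) : ℚ) + 2)))) *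
        ((2 * ((k + 1 : ℕ) : ℚ) + 1) * (2 * ((k + 1 : ℕ) : ℚ) + 2)) = (N * dd (N + 1) (k + 1)) * (-((N + 1 - ((k + 1 : ℕ) : ℚ)) * (N + 1 + ((k + 1 : ℕ) : ℚ)))) := by
      field_simp
    rw [e, ih']
    push_cast
    field_simp
    ring

lemma dd_L2 (N : ℚ) (k : ℕ) : N * dd (N - 1) (k + 1) * ((2 * k + 1) * (2 * k + 2)) = -((N - 1) * (N - k) * (N - k - 1)) * dd N k := by
  induction k with
  | zero => simp [dd]; ring
  | succ k ih =>
    rw [dd_succ (N - 1) (k + 1), dd_succ N k]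
    have h1 : (2 * (k : ℚ) + 1) ≠ 0 := by positivity
    have h2 : (2 * (k : ℚ) + 2) ≠ 0 := by positivity
    have ih' : N * dd (N - 1) (k + 1) = -((N - 1) * (N - k) * (N - k - 1)) * dd N k / ((2 * k + 1) * (2 * k + 2)) := by
      rw [eq_div_iff (mul_ne_zero h1 h2)]; exact ih
    have e : N * (dd (N - 1) (k + 1) * (-((N - 1 - ((k + 1 : ℕ) : ℚ)) * (N - 1 + ((k + 1 : ℕ) : ℚ))) / ((2 * ((k + 1 : ℕ) : ℚ) + 1) * (2 * ((k + 1 : ℕ) : ℚ) + 2)))) *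
        ((2 * ((k + 1 : ℕ) : ℚ) + 1) * (2 * ((k + 1 : ℕ) : ℚ) + 2)) = (N * dd (N - 1) (k + 1)) * (-((N - 1 - ((k + 1 : ℕ) : ℚ)) * (N - 1 + ((k + 1 : ℕ) : ℚ)))) := by
      field_simp
    rw [e, ih']
    push_cast
    field_simp
    ring

lemma dd_rec {N : ℚ} (hN : N ≠ 0) (k : ℕ) : dd (N + 1) (k + 1) + dd (N - 1) (k + 1) - 2 * dd N (k + 1) + dd N k = 0 := by
  have h1 := dd_L1 N k
  have h2 := dd_L2 N k
  have h3 := dd_succ N k
  have c1 : (2 * (k : ℚ) + 1) ≠ 0 := by positivity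
  have c2 : (2 * (k : ℚ) + 2) ≠ 0 := by positivity
  have h4 : dd N (k + 1) * ((2 * k + 1) * (2 * k + 2)) = dd N k * (-((N - k) * (N + k))) := by
    rw [h3]; field_simp
  have h5 : N * ((2 * k + 1) * (2 * k + 2)) ≠ 0 := mul_ne_zero hN (mul_ne_zero c1 c2)
  apply mul_left_cancel₀ h5
  linear_combination h1 + h2 - 2 * N * h4

lemma ee_L1 (n : ℚ) (k : ℕ) : (2 * n + 1) * ee (n + 1) (k + 1) * ((2 * k + 2) * (2 * k + 3)) = -((2 * n + 3) * (n + k + 1) * (n + k + 2)) * ee n k := by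
  induction k with
  | zero => simp [ee]; ring
  | succ k ih =>
    rw [ee_succ (n + 1) (k + 1), ee_succ n k]
    have h1 : (2 * (k : ℚ) + 2) ≠ 0 := by positivity
    have h2 : (2 * (k : ℚ) + 3) ≠ 0 := by positivity
    have ih' : (2 * n + 1) * ee (n + 1) (k + 1) = -((2 * n + 3) * (n + k + 1) * (n + k + 2)) * ee n k / ((2 * k + 2) * (2 * k + 3)) := by
      rw [eq_div_iff (mul_ne_zero h1 h2)]; exact ih
    have e : (2 * n + 1) * (ee (n + 1) (k + 1) * (-((n + 1 - ((k + 1 : ℕ) : ℚ)) * (n + 1 + ((k + 1 : ℕ) : ℚ) + 1)) / ((2 * ((k + 1 : ℕ) : ℚ) + 2) * (2 * ((k + 1 : ℕ) : ℚ) + 3)))) *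
        ((2 * ((k + 1 : ℕ) : ℚ) + 2) * (2 * ((k + 1 : ℕ) : ℚ) + 3)) = ((2 * n + 1) * ee (n + 1) (k + 1)) * (-((n + 1 - ((k + 1 : ℕ) : ℚ)) * (n + 1 + ((k + 1 : ℕ) : ℚ) + 1))) := by
      field_simp
    rw [e, ih']
    push_cast
    field_simp
    ring

lemma ee_L2 (n : ℚ) (k : ℕ) : (2 * n + 1) * ee (n - 1) (k + 1) * ((2 * k + 2) * (2 * k + 3)) = -((2 * n - 1) * (n - k) * (n - k - 1)) * ee n k := by
  induction k with
  | zero => simp [ee]; ring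
  | succ k ih =>
    rw [ee_succ (n - 1) (k + 1), ee_succ n k]
    have h1 : (2 * (k : ℚ) + 2) ≠ 0 := by positivity
    have h2 : (2 * (k : ℚ) + 3) ≠ 0 := by positivity
    have ih' : (2 * n + 1) * ee (n - 1) (k + 1) = -((2 * n - 1) * (n - k) * (n - k - 1)) * ee n k / ((2 * k + 2) * (2 * k + 3)) := by
      rw [eq_div_iff (mul_ne_zero h1 h2)]; exact ih
    have e : (2 * n + 1) * (ee (n - 1) (k + 1) * (-((n - 1 - ((k + 1 : ℕ) : ℚ)) * (n - 1 + ((k + 1 : ℕ) : ℚ) + 1)) / ((2 * ((k + 1 : ℕ) : ℚ) + 2) * (2 * ((k + 1 : ℕ) : ℚ) + 3)))) *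
        ((2 * ((k + 1 : ℕ) : ℚ) + 2) * (2 * ((k + 1 : ℕ) : ℚ) + 3)) = ((2 * n + 1) * ee (n - 1) (k + 1)) * (-((n - 1 - ((k + 1 : ℕ) : ℚ)) * (n - 1 + ((k + 1 : ℕ) : ℚ) + 1))) := by
      field_simp
    rw [e, ih']
    push_cast
    field_simp
    ring

lemma ee_rec {n : ℚ} (hn : 2 * n + 1 ≠ 0) (k : ℕ) : ee (n + 1) (k + 1) + ee (n - 1) (k + 1) - 2 * ee n (k + 1) + ee n k = 0 := by
  have h1 := ee_L1 n k
  have h2 := ee_L2 n k
  have h3 := ee_succ n k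
  have c1 : (2 * (k : ℚ) + 2) ≠ 0 := by positivity
  have c2 : (2 * (k : ℚ) + 3) ≠ 0 := by positivity
  have h4 : ee n (k + 1) * ((2 * k + 2) * (2 * k + 3)) = ee n k * (-((n - k) * (n + k + 1))) := by
    rw [h3]; field_simp
  have h5 : (2 * n + 1) * ((2 * k + 2) * (2 * k + 3)) ≠ 0 := mul_ne_zero hn (mul_ne_zero c1 c2)
  apply mul_left_cancel₀ h5
  linear_combination h1 + h2 - 2 * (2 * n + 1) * h4

lemma dd_zero {N k : ℕ} (h : N < k) : dd N k = 0 := by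
  rw [dd, prod_eq_zero (mem_range.2 h) (by simp), mul_zero]

lemma ee_zero {n k : ℕ} (h : n < k) : ee n k = 0 := by
  rw [ee, prod_eq_zero (mem_range.2 h) (by simp), mul_zero]

/-- the sums -/
def U (c : ℕ → ℕ → ℚ) (g : ℕ → ℚ) (N s : ℕ) : ℚ := ∑ k ∈ range (N + 1), c N k * g (2 * k + s)

lemma U_eq {c : ℕ → ℕ → ℚ} (hz : ∀ N k, N < k → c N k = 0) (g : ℕ → ℚ) {N K : ℕ} (s : ℕ) (h : N < K) :
    U c g N s = ∑ k ∈ range K, c N k * g (2 * k + s) := by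
  rw [U]
  apply sum_subset (by intro x; simp; omega)
  intro k _ hk
  rw [hz N k (by simp at hk; omega), zero_mul]

lemma U_rec {c : ℕ → ℕ → ℚ} (hz : ∀ N k, N < k → c N k = 0) (h0 : ∀ N, c (N + 2) 0 + c N 0 = 2 * c (N + 1) 0)
    (h1 : ∀ N k, c (N + 2) (k + 1) + c N (k + 1) - 2 * c (N + 1) (k + 1) + c (N + 1) k = 0) (g : ℕ → ℚ) (N s : ℕ) :
    U c g (N + 2) s + U c g N s = 2 * U c g (N + 1) s - U c g (N + 1) (s + 2) := by
  rw [U_eq hz g s (show N + 2 < N + 3 by omega), U_eq hz g s (show N < N + 3 by omega), U_eq hz g s (show N + 1 < N + 3 by omega),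
    U_eq hz g (s + 2) (show N + 1 < N + 2 by omega), sum_range_succ' (fun k => c (N + 2) k * g (2 * k + s)) (N + 2),
    sum_range_succ' (fun k => c N k * g (2 * k + s)) (N + 2), sum_range_succ' (fun k => c (N + 1) k * g (2 * k + s)) (N + 2)]
  have e : ∑ k ∈ range (N + 2), c (N + 1) k * g (2 * k + (s + 2)) =
      ∑ k ∈ range (N + 2), (2 * (c (N + 1) (k + 1) * g (2 * (k + 1) + s)) - c (N + 2) (k + 1) * g (2 * (k + 1) + s) - c N (k + 1) * g (2 * (k + 1) + s)) := by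
    apply sum_congr rfl
    intro k _
    rw [show 2 * k + (s + 2) = 2 * (k + 1) + s by ring]
    linear_combination g (2 * (k + 1) + s) * h1 N k
  rw [e, sum_sub_distrib, sum_sub_distrib, ← mul_sum]
  linear_combination g (2 * 0 + s) * h0 N

lemma U_fib {c : ℕ → ℕ → ℚ} {g : ℕ → ℚ} (hg : ∀ m, g (m + 2) = g (m + 1) + g m) (N s : ℕ) :
    U c g N (s + 2) = U c g N (s + 1) + U c g N s := by
  unfold U
  rw [← sum_add_distrib]
  apply sum_congr rfl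
  intro k _
  rw [← add_assoc, hg, ← add_assoc]; ring

lemma U_step {c : ℕ → ℕ → ℚ} (hz : ∀ N k, N < k → c N k = 0) (h0 : ∀ N, c (N + 2) 0 + c N 0 = 2 * c (N + 1) 0)
    (h1 : ∀ N k, c (N + 2) (k + 1) + c N (k + 1) - 2 * c (N + 1) (k + 1) + c (N + 1) k = 0) {g : ℕ → ℚ}
    (hg : ∀ m, g (m + 2) = g (m + 1) + g m) (s N : ℕ) :
    U c g (N + 2) s = U c g (N + 1) s - U c g (N + 1) (s + 1) - U c g N s ∧
    U c g (N + 2) (s + 1) = -U c g (N + 1) s - U c g N (s + 1) := by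
  have a1 := U_rec hz h0 h1 g N s
  have a2 := U_rec hz h0 h1 g N (s + 1)
  have b1 := U_fib (c := c) hg (N + 1) s
  have b2 := U_fib (c := c) hg (N + 1) (s + 1)
  constructor
  · linear_combination a1 - b1
  · linear_combination a2 - b2 - b1

lemma U_anti {c : ℕ → ℕ → ℚ} (hz : ∀ N k, N < k → c N k = 0) (h0 : ∀ N, c (N + 2) 0 + c N 0 = 2 * c (N + 1) 0)
    (h1 : ∀ N k, c (N + 2) (k + 1) + c N (k + 1) - 2 * c (N + 1) (k + 1) + c (N + 1) k = 0) {g : ℕ → ℚ}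
    (hg : ∀ m, g (m + 2) = g (m + 1) + g m) (s N : ℕ) : U c g (N + 5) s = -U c g N s := by
  obtain ⟨a2, b2⟩ := U_step hz h0 h1 hg s N
  obtain ⟨a3, b3⟩ := U_step hz h0 h1 hg s (N + 1)
  obtain ⟨a4, b4⟩ := U_step hz h0 h1 hg s (N + 2)
  obtain ⟨a5, b5⟩ := U_step hz h0 h1 hg s (N + 3)
  simp only [add_assoc, Nat.reduceAdd] at *
  rw [a5, a4, b4, a3, b3, a2, b2]
  ring

lemma U_even {c : ℕ → ℕ → ℚ} (hz : ∀ N k, N < k → c N k = 0) (h0 : ∀ N, c (N + 2) 0 + c N 0 = 2 * c (N + 1) 0)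
    (h1 : ∀ N k, c (N + 2) (k + 1) + c N (k + 1) - 2 * c (N + 1) (k + 1) + c (N + 1) k = 0) {g : ℕ → ℚ}
    (hg : ∀ m, g (m + 2) = g (m + 1) + g m) (s m i : ℕ) : U c g (5 * m + i) s = (-1) ^ m * U c g i s := by
  induction m with
  | zero => simp
  | succ m ih =>
    rw [show 5 * (m + 1) + i = (5 * m + i) + 5 by ring, U_anti hz h0 h1 hg, ih, pow_succ]
    ring

/-- the family for even multiples -/
def cd (N k : ℕ) : ℚ := dd N k
/-- the family for odd multiples -/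
def ce (N k : ℕ) : ℚ := ee N k

lemma cd_zero (N k : ℕ) (h : N < k) : cd N k = 0 := dd_zero h
lemma ce_zero (N k : ℕ) (h : N < k) : ce N k = 0 := ee_zero h
lemma cd_h0 (N : ℕ) : cd (N + 2) 0 + cd N 0 = 2 * cd (N + 1) 0 := by simp [cd, dd]; norm_num
lemma ce_h0 (N : ℕ) : ce (N + 2) 0 + ce N 0 = 2 * ce (N + 1) 0 := by simp [ce, ee]; ring
lemma cd_h1 (N k : ℕ) : cd (N + 2) (k + 1) + cd N (k + 1) - 2 * cd (N + 1) (k + 1) + cd (N + 1) k = 0 := by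
  have h := dd_rec (N := (N : ℚ) + 1) (by positivity) k
  unfold cd
  push_cast
  rw [show (N : ℚ) + 2 = N + 1 + 1 by ring]
  rw [show (N : ℚ) + 1 - 1 = N by ring] at h
  exact h
lemma ce_h1 (N k : ℕ) : ce (N + 2) (k + 1) + ce N (k + 1) - 2 * ce (N + 1) (k + 1) + ce (N + 1) k = 0 := by
  have h := ee_rec (n := (N : ℚ) + 1) (by positivity) k
  unfold ce
  push_cast
  rw [show (N : ℚ) + 2 = N + 1 + 1 by ring]
  rw [show (N : ℚ) + 1 - 1 = N by ring] at h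
  exact h

/-- the values, even multiples -/
lemma valD {g : ℕ → ℚ} (hg : ∀ m, g (m + 2) = g (m + 1) + g m) (m : ℕ) :
    U cd g (10 * m + 1) 0 = g 0 - g 1 ∧ U cd g (10 * m + 3) 0 = g 1 ∧ U cd g (10 * m + 7) 0 = g 1 ∧
    U cd g (10 * m + 9) 0 = g 0 - g 1 := by
  have key : ∀ i, U cd g (10 * m + i) 0 = U cd g i 0 := by
    intro i
    rw [show 10 * m + i = 5 * (2 * m) + i by ring, U_even cd_zero cd_h0 cd_h1 hg, pow_mul]
    norm_num
  have a0 : U cd g 0 0 = 2 * g 0 := by simp [U, cd, dd]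
  have b0 : U cd g 0 1 = 2 * g 1 := by simp [U, cd, dd]
  have a1 : U cd g 1 0 = g 0 - g 1 := by
    simp [U, cd, dd, sum_range_succ]; rw [hg 0]; norm_num; ring
  have b1 : U cd g 1 1 = -g 0 := by
    simp [U, cd, dd, sum_range_succ]; rw [hg 1, hg 0]; norm_num; ring
  obtain ⟨a2, b2⟩ := U_step cd_zero cd_h0 cd_h1 hg 0 0
  obtain ⟨a3, b3⟩ := U_step cd_zero cd_h0 cd_h1 hg 0 1
  obtain ⟨a4, b4⟩ := U_step cd_zero cd_h0 cd_h1 hg 0 2
  have a7 := U_anti cd_zero cd_h0 cd_h1 hg 0 2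
  have a9 := U_anti cd_zero cd_h0 cd_h1 hg 0 4
  simp only [zero_add, Nat.reduceAdd] at *
  refine ⟨?_, ?_, ?_, ?_⟩
  · rw [key, a1]
  · rw [key, a3, a2, b2, a1, b1, a0, b0]; ring
  · rw [key, a7, a2, a1, b1, a0]; ring
  · rw [key, a9, a4, a3, b3, a2, b2, a1, b1, a0, b0]; ring

/-- the values, odd multiples -/
lemma valE {g : ℕ → ℚ} (hg : ∀ m, g (m + 2) = g (m + 1) + g m) (m : ℕ) :
    (-1) ^ (5 * m) * U ce g (5 * m) 1 = g 1 ∧ (-1) ^ (5 * m + 1) * U ce g (5 * m + 1) 1 = g 0 - g 1 ∧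
    (-1) ^ (5 * m + 3) * U ce g (5 * m + 3) 1 = g 0 - g 1 ∧ (-1) ^ (5 * m + 4) * U ce g (5 * m + 4) 1 = g 1 := by
  have key : ∀ i, (-1) ^ (5 * m + i) * U ce g (5 * m + i) 1 = (-1) ^ i * U ce g i 1 := by
    intro i
    rw [U_even ce_zero ce_h0 ce_h1 hg, pow_add, pow_mul]
    have h : ((-1 : ℚ) ^ 5) ^ m * (-1) ^ m = 1 := by
      rw [← mul_pow]; norm_num
    linear_combination ((-1) ^ i * U ce g i 1) * h
  have a0 : U ce g 0 1 = g 1 := by simp [U, ce, ee]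
  have b0 : U ce g 0 2 = g 1 + g 0 := by simp [U, ce, ee]; rw [hg 0]
  have a1 : U ce g 1 1 = g 1 - g 0 := by
    simp [U, ce, ee, sum_range_succ]; rw [hg 1, hg 0]; norm_num; ring
  have b1 : U ce g 1 2 = g 0 := by
    simp [U, ce, ee, sum_range_succ]; rw [hg 2, hg 1, hg 0]; norm_num; ring
  obtain ⟨a2, b2⟩ := U_step ce_zero ce_h0 ce_h1 hg 1 0
  obtain ⟨a3, b3⟩ := U_step ce_zero ce_h0 ce_h1 hg 1 1
  obtain ⟨a4, b4⟩ := U_step ce_zero ce_h0 ce_h1 hg 1 2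
  have k0 := key 0
  have k1 := key 1
  have k3 := key 3
  have k4 := key 4
  simp only [zero_add, Nat.reduceAdd, add_zero, pow_zero, one_mul, pow_one] at *
  refine ⟨?_, ?_, ?_, ?_⟩
  · rw [k0, a0]
  · rw [k1, a1]; ring
  · rw [k3, a3, a2, b2, a1, b1, a0, b0]; ring
  · rw [k4, a4, a3, b3, a2, b2, a1, b1, a0, b0]; ring

end

end Pool.Agent.X14.FL
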