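import Mathlib
import Pool.Agent.X14.FL1
import Pool.Agent.X14.Base

set_option autoImplicit false
set_option linter.unusedSectionVars false

/-! Sums of Fibonacci-type sequences with central binomial coefficients modulo `p^2`. -/

namespace Pool.Agent.X14.FL

open Finset Pool.Agent.H434R2 Pool.Agent.H434R2.PO

noncomputable section

lemma cb_succ (k : ℕ) : ((k : ℚ) + 1) * ((k + 1).centralBinom : ℚ) = 2 * (2 * k + 1) * (k.centralBinom : ℚ) := by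
  exact_mod_cast Nat.succ_mul_centralBinom_succ k

lemma cb_pos (k : ℕ) : (0 : ℚ) < (k.centralBinom : ℚ) := by exact_mod_cast Nat.centralBinom_pos k

lemma ee_eq (n : ℚ) (k : ℕ) : ee n k = (2 * n + 1) * (((k.centralBinom : ℚ) / 16 ^ k / (2 * k + 1)) *
    ∏ j ∈ range k, (1 - (2 * n + 1) ^ 2 / (2 * (j : ℚ) + 1) ^ 2)) := by
  induction k with
  | zero => simp [ee]
  | succ k ih =>
    rw [ee_succ, ih, prod_range_succ]
    have h1 : ((k : ℚ) + 1) ≠ 0 := by positivity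
    have h2 : (2 * (k : ℚ) + 1) ≠ 0 := by positivity
    have h3 : (2 * (k : ℚ) + 3) ≠ 0 := by positivity
    have h4 : ((k + 1).centralBinom : ℚ) = 2 * (2 * k + 1) * (k.centralBinom : ℚ) / (k + 1) := by
      rw [eq_div_iff h1, ← cb_succ]; ring
    rw [h4, pow_succ (16 : ℚ)]
    generalize ∏ j ∈ range k, (1 - (2 * n + 1) ^ 2 / (2 * (j : ℚ) + 1) ^ 2) = P
    push_cast
    have h5 : (2 * ((k : ℚ) + 1) + 1) = 2 * k + 3 := by ring
    rw [h5]
    field_simp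
    ring

lemma dd_eq (N : ℚ) (k : ℕ) : dd N (k + 1) = -(2 * N ^ 2) * ((1 / (((k : ℚ) + 1) ^ 2 * ((k + 1).centralBinom : ℚ))) *
    ∏ j ∈ range k, (1 - N ^ 2 / ((j : ℚ) + 1) ^ 2)) := by
  induction k with
  | zero => simp [dd, Nat.centralBinom]; ring
  | succ k ih =>
    rw [dd_succ, ih, prod_range_succ]
    have h1 : ((k : ℚ) + 1) ≠ 0 := by positivity
    have h2 : ((k : ℚ) + 2) ≠ 0 := by positivity
    have h3 : (2 * (k : ℚ) + 3) ≠ 0 := by positivity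
    have hc := (cb_pos (k + 1)).ne'
    have h4 : ((k + 1 + 1).centralBinom : ℚ) = 2 * (2 * k + 3) * ((k + 1).centralBinom : ℚ) / (k + 2) := by
      have := cb_succ (k + 1)
      push_cast at this
      rw [eq_div_iff h2]; linear_combination this
    rw [h4]
    generalize ∏ j ∈ range k, (1 - N ^ 2 / ((j : ℚ) + 1) ^ 2) = P
    push_cast
    rw [show (2 * ((k : ℚ) + 1) + 1) = 2 * k + 3 by ring, show (2 * ((k : ℚ) + 1) + 2) = 2 * (k + 2) by ring,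
      show ((k : ℚ) + 1 + 1) = k + 2 by ring]
    field_simp
    ring

lemma ce_diag (n : ℕ) : ce n n = (-1) ^ n := by
  have key : ∀ n, ce n n = (-1) ^ n ∧ ce (n + 1) (n + 1) = (-1) ^ (n + 1) := by
    intro n
    induction n with
    | zero =>
      constructor
      · simp [ce, ee]
      · simp [ce, ee]; norm_num
    | succ n ih =>
      refine ⟨ih.2, ?_⟩
      have h := ce_h1 n (n + 1)
      rw [ce_zero n (n + 1 + 1) (by omega), ce_zero (n + 1) (n + 1 + 1) (by omega), ih.2] at h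
      rw [pow_succ (-1 : ℚ) (n + 1)]
      linear_combination h
  exact (key n).1

lemma cd_diag (n : ℕ) : cd (n + 1) (n + 1) = (-1) ^ (n + 1) := by
  induction n with
  | zero => simp [cd, dd]; norm_num
  | succ n ih =>
    have h := cd_h1 n (n + 1)
    rw [cd_zero n (n + 1 + 1) (by omega), cd_zero (n + 1) (n + 1 + 1) (by omega), ih] at h
    rw [pow_succ (-1 : ℚ) (n + 1)]
    linear_combination h

variable {p : ℕ} [hp : Fact p.Prime]

lemma p_div_cb {k : ℕ} (hk : k < p) : PO p 0 ((p : ℚ) / (k.centralBinom : ℚ)) := by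
  set c := k.centralBinom with hc
  have hc0 : c ≠ 0 := (Nat.centralBinom_pos k).ne'
  have h1 : c.factorization p ≤ 1 := by
    rw [hc, Nat.centralBinom]
    apply Nat.factorization_choose_le_one
    have := hp.out.two_le
    nlinarith
  have h2 := Nat.ordProj_mul_ordCompl_eq_self c p
  have h3 := Nat.not_dvd_ordCompl hp.out hc0
  set u := c / p ^ c.factorization p with hu
  have hp0 : (p : ℚ) ≠ 0 := by exact_mod_cast hp.out.ne_zero
  have h4 : (c : ℚ) = (p : ℚ) ^ (c.factorization p) * u := by exact_mod_cast h2.symm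
  rw [h4]
  rcases Nat.le_one_iff_eq_zero_or_eq_one.1 h1 with h | h
  · rw [h, pow_zero, one_mul, div_eq_mul_inv]
    exact (of_nat p).mul0 (inv_nat h3)
  · rw [h, pow_one, mul_comm, div_mul_cancel_right₀ hp0]
    exact inv_nat h3

lemma odd_main {n : ℕ} (hn : p = 2 * n + 1) {g : ℕ → ℚ} (hg : ∀ m, PO p 0 (g m)) :
    PO p 2 (∑ k ∈ range n, ((k.centralBinom : ℚ) * g (2 * k + 1)) / ((2 * k + 1) * 16 ^ k) -
      (U ce g n 1 - (-1) ^ n * g p) / p) ∧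
    PO p 1 (U ce g n 1 - (-1) ^ n * g p) := by
  have hp0 : (p : ℚ) ≠ 0 := by exact_mod_cast hp.out.ne_zero
  have hpq : (2 * (n : ℚ) + 1) = p := by rw [hn]; push_cast; ring
  have h2 : p ≠ 2 := by omega
  have hodd : ∀ k : ℕ, k < n → PO p 0 ((2 * (k : ℚ) + 1)⁻¹) := by
    intro k hk
    have : ((2 * (k : ℚ) + 1)⁻¹) = ((((2 * k : ℕ) : ℚ) + 1)⁻¹) := by push_cast; ring
    rw [this]
    exact inv_succ (by omega)
  have h16 : ∀ k : ℕ, PO p 0 (((16 : ℚ) ^ k)⁻¹) := by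
    intro k
    have : ((16 : ℚ) ^ k)⁻¹ = ((2 : ℚ)⁻¹ ^ 4) ^ k := by rw [← inv_pow]; norm_num
    rw [this]
    exact ((inv_two h2).pow0 4).pow0 k
  have hA : U ce g n 1 - (-1) ^ n * g p = p * ∑ k ∈ range n, ((k.centralBinom : ℚ) / 16 ^ k / (2 * k + 1)) *
      (∏ j ∈ range k, (1 - (p : ℚ) ^ 2 / (2 * (j : ℚ) + 1) ^ 2)) * g (2 * k + 1) := by
    rw [U, sum_range_succ, ce_diag, ← hn, add_sub_cancel_right, mul_sum]
    apply sum_congr rfl
    intro k _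
    rw [ce, ee_eq, hpq]
    ring
  have hterm : ∀ k ∈ range n, PO p 0 ((k.centralBinom : ℚ) / 16 ^ k / (2 * k + 1)) := by
    intro k hk
    rw [div_eq_mul_inv, div_eq_mul_inv]
    exact ((of_nat _).mul0 (h16 k)).mul0 (hodd k (mem_range.1 hk))
  have hprod : ∀ k ∈ range n, PO p 2 (∏ j ∈ range k, (1 - (p : ℚ) ^ 2 / (2 * (j : ℚ) + 1) ^ 2) - 1) := by
    intro k hk
    apply prod_one
    intro j hj
    have hj' : j < n := by have := mem_range.1 hj; have := mem_range.1 hk; omega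
    have e : (1 - (p : ℚ) ^ 2 / (2 * (j : ℚ) + 1) ^ 2) - 1 = -((p : ℚ) ^ 2 * ((2 * (j : ℚ) + 1)⁻¹) ^ 2) := by
      rw [inv_pow, div_eq_mul_inv]; ring
    rw [e]
    exact ((ppow 2).mul0' ((hodd j hj').pow0 2)).neg
  constructor
  · rw [hA, mul_div_cancel_left₀ _ hp0]
    apply PO.sum_sub
    intro k hk
    have e : ((k.centralBinom : ℚ) * g (2 * k + 1)) / ((2 * k + 1) * 16 ^ k) - (k.centralBinom : ℚ) / 16 ^ k / (2 * k + 1) *
      (∏ j ∈ range k, (1 - (p : ℚ) ^ 2 / (2 * (j : ℚ) + 1) ^ 2)) * g (2 * k + 1) =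
      -((k.centralBinom : ℚ) / 16 ^ k / (2 * k + 1) * g (2 * k + 1) * (∏ j ∈ range k, (1 - (p : ℚ) ^ 2 / (2 * (j : ℚ) + 1) ^ 2) - 1)) := by
      rw [div_div]
      ring
    rw [e]
    exact (((hterm k hk).mul0 (hg _)).mul0 (hprod k hk)).neg
  · rw [hA]
    have h1 : PO p 1 (p : ℚ) := p_PO
    refine h1.mul0' (PO.sum _ _ ?_)
    intro k hk
    have h3 : PO p 0 (∏ j ∈ range k, (1 - (p : ℚ) ^ 2 / (2 * (j : ℚ) + 1) ^ 2)) := by
      have := ((hprod k hk).mono (Nat.zero_le 2)).add (one (p := p))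
      rwa [sub_add_cancel] at this
    exact ((hterm k hk).mul0 h3).mul0 (hg _)

lemma even_main (h2 : p ≠ 2) {g : ℕ → ℚ} (hg : ∀ m, PO p 0 (g m)) :
    PO p 2 ((p : ℚ) * ∑ k ∈ Ico 1 p, g (2 * k) / ((k : ℚ) ^ 2 * (k.centralBinom : ℚ)) -
      (2 * g 0 - g (2 * p) - U cd g p 0) / (2 * p)) := by
  have hp0 : (p : ℚ) ≠ 0 := by exact_mod_cast hp.out.ne_zero
  obtain ⟨m, hm⟩ : ∃ m, p = m + 1 := ⟨p - 1, by have := hp.out.pos; omega⟩
  have hodd : Odd p := hp.out.odd_of_ne_two h2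
  have hA : 2 * g 0 - g (2 * p) - U cd g p 0 = 2 * p ^ 2 * ∑ k ∈ range m, ((1 / (((k : ℚ) + 1) ^ 2 * ((k + 1).centralBinom : ℚ))) *
      ∏ j ∈ range k, (1 - (p : ℚ) ^ 2 / ((j : ℚ) + 1) ^ 2)) * g (2 * (k + 1)) := by
    have h1 : cd p p = -1 := by
      have := cd_diag m
      rw [← hm] at this
      rw [this, hodd.neg_one_pow]
    have h0 : cd p 0 = 2 := by simp [cd, dd]
    rw [U, sum_range_succ, h1]
    have h3 : ∑ k ∈ range p, cd p k * g (2 * k + 0) = ∑ k ∈ range (m + 1), cd p k * g (2 * k + 0) := by rw [← hm]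
    rw [h3, sum_range_succ', h0, mul_sum]
    have h4 : ∑ k ∈ range m, cd p (k + 1) * g (2 * (k + 1) + 0) = -∑ k ∈ range m, 2 * (p : ℚ) ^ 2 * ((1 / (((k : ℚ) + 1) ^ 2 * ((k + 1).centralBinom : ℚ))) *
      (∏ j ∈ range k, (1 - (p : ℚ) ^ 2 / ((j : ℚ) + 1) ^ 2)) * g (2 * (k + 1))) := by
      rw [← sum_neg_distrib]
      apply sum_congr rfl
      intro k _
      rw [cd, dd_eq, add_zero]
      ring
    rw [h4, add_zero, mul_zero, add_zero]
    ring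
  have hB : ∑ k ∈ Ico 1 p, g (2 * k) / ((k : ℚ) ^ 2 * (k.centralBinom : ℚ)) =
      ∑ k ∈ range m, g (2 * (k + 1)) / (((k : ℚ) + 1) ^ 2 * ((k + 1).centralBinom : ℚ)) := by
    rw [sum_Ico_eq_sum_range, show p - 1 = m by omega]
    apply sum_congr rfl
    intro k _
    rw [add_comm 1 k]
    push_cast
    rfl
  have hC : (2 * g 0 - g (2 * p) - U cd g p 0) / (2 * p) = p * ∑ k ∈ range m, ((1 / (((k : ℚ) + 1) ^ 2 * ((k + 1).centralBinom : ℚ))) *
      ∏ j ∈ range k, (1 - (p : ℚ) ^ 2 / ((j : ℚ) + 1) ^ 2)) * g (2 * (k + 1)) := by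
    rw [hA]; field_simp
  rw [hC, hB, ← mul_sub, ← sum_sub_distrib, mul_sum]
  apply PO.sum
  intro k hk
  have hk' := mem_range.1 hk
  have h1 := p_div_cb (p := p) (k := k + 1) (by omega)
  have h3 := inv_succ (p := p) (b := k) (by omega)
  have h4 : PO p 2 (∏ j ∈ range k, (1 - (p : ℚ) ^ 2 / ((j : ℚ) + 1) ^ 2) - 1) := by
    apply prod_one
    intro j hj
    have hj' : j < p - 1 := by have := mem_range.1 hj; omega
    have e : (1 - (p : ℚ) ^ 2 / ((j : ℚ) + 1) ^ 2) - 1 = -((p : ℚ) ^ 2 * (((j : ℚ) + 1)⁻¹) ^ 2) := by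
      rw [inv_pow, div_eq_mul_inv]; ring
    rw [e]
    exact ((ppow 2).mul0' ((inv_succ hj').pow0 2)).neg
  have e : (p : ℚ) * (g (2 * (k + 1)) / (((k : ℚ) + 1) ^ 2 * ((k + 1).centralBinom : ℚ)) -
      1 / (((k : ℚ) + 1) ^ 2 * ((k + 1).centralBinom : ℚ)) * (∏ j ∈ range k, (1 - (p : ℚ) ^ 2 / ((j : ℚ) + 1) ^ 2)) * g (2 * (k + 1))) =
      -(((p : ℚ) / ((k + 1).centralBinom : ℚ)) * (((k : ℚ) + 1)⁻¹) ^ 2 * g (2 * (k + 1)) * (∏ j ∈ range k, (1 - (p : ℚ) ^ 2 / ((j : ℚ) + 1) ^ 2) - 1)) := by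
    have hc := (cb_pos (k + 1)).ne'
    have hk1 : ((k : ℚ) + 1) ≠ 0 := by positivity
    generalize ∏ j ∈ range k, (1 - (p : ℚ) ^ 2 / ((j : ℚ) + 1) ^ 2) = P
    field_simp
    ring
  rw [e]
  exact (((h1.mul0 (h3.pow0 2)).mul0 (hg _)).mul0 h4).neg

/-- the quadratic relation -/
lemma quad (h2 : p ≠ 2) {f Q : ℚ} (h : f ^ 2 - Q * f - Q ^ 2 - 1 = 0) (hf : PO p 1 (f - 1)) (hQ : PO p 1 Q) :
    PO p 3 (f - 1 - Q / 2 - 5 * Q ^ 2 / 8) := by
  have hh := half (p := p) h2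
  obtain ⟨δ, hδ⟩ : ∃ δ : ℚ, δ = f - 1 - Q / 2 - 5 * Q ^ 2 / 8 := ⟨_, rfl⟩
  have hQ2 : PO p 2 (Q ^ 2) := hQ.pow 2
  have hδ1 : PO p 1 δ := by
    have e : δ = (f - 1) - 1 / 2 * Q - 5 * (1 / 2 * (1 / 2 * (1 / 2))) * Q ^ 2 := by rw [hδ]; ring
    rw [e]
    exact (hf.sub (hh.mul0 hQ)).sub (((of_ofNat 5).mul0 (hh.mul0 (hh.mul0 hh))).mul0 (hQ2.mono (by norm_num)))
  have hu : PO p 1 (5 * (1 / 2 * (1 / 2 * (1 / 2))) * Q ^ 2 + 1 / 2 * δ) :=
    (((of_ofNat 5).mul0 (hh.mul0 (hh.mul0 hh))).mul0 (hQ2.mono (by norm_num))).add (hh.mul0 hδ1)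
  have hne := one_add_ne hu
  have hinv := inv_one_add hu
  have key : δ = -(25 * (1 / 2) ^ 7 * Q ^ 4) * (1 + (5 * (1 / 2 * (1 / 2 * (1 / 2))) * Q ^ 2 + 1 / 2 * δ))⁻¹ := by
    rw [eq_mul_inv_iff_mul_eq₀ hne]
    have hf' : f = 1 + Q / 2 + 5 * Q ^ 2 / 8 + δ := by rw [hδ]; ring
    rw [hf'] at h
    linear_combination (1 / 2) * h
  rw [← hδ, key]
  have hQ4 : PO p 4 (Q ^ 4) := hQ.pow 4
  exact (((((of_ofNat 25).mul0 (hh.pow0 7)).mul0 (hQ4.mono (by norm_num))).neg).mul0' hinv)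

end

end Pool.Agent.X14.FL
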