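import Mathlib
import Pool.Agent.H434R2.PO

set_option autoImplicit false

/-! Integrality of quotients of factorials through Legendre's formula. -/

namespace Pool.Agent.X14.LG

open Finset Pool.Agent.H434R2

noncomputable section

/-- product of factorials -/
def fprod (l : List ℕ) : ℚ := (l.map (fun x => (x.factorial : ℚ))).prod

def fl (q : ℕ) (l : List ℕ) : ℕ := (l.map (fun x => x / q)).sum

lemma fprod_ne (l : List ℕ) : fprod l ≠ 0 := by
  unfold fprod
  rw [Ne, List.prod_eq_zero_iff]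
  simp only [List.mem_map, not_exists, not_and]
  intro x _
  exact_mod_cast Nat.factorial_ne_zero x

lemma val_fprod (p : ℕ) [hp : Fact p.Prime] (l : List ℕ) (b : ℕ) (hb : ∀ x ∈ l, Nat.log p x < b) :
    padicValRat p (fprod l) = ((∑ i ∈ Ico 1 b, fl (p ^ i) l : ℕ) : ℤ) := by
  induction l with
  | nil => simp [fprod, fl]
  | cons a l ih =>
    have h1 : fprod (a :: l) = (a.factorial : ℚ) * fprod l := by simp [fprod]
    have h2 : ∀ q, fl q (a :: l) = a / q + fl q l := by intro q; simp [fl]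
    rw [h1, padicValRat.mul (by exact_mod_cast Nat.factorial_ne_zero a) (fprod_ne l),
      ih (fun x hx => hb x (List.mem_cons_of_mem _ hx))]
    rw [sum_congr rfl (fun i _ => h2 (p ^ i)), sum_add_distrib]
    have h3 : padicValRat p (a.factorial : ℚ) = ((∑ i ∈ Ico 1 b, a / p ^ i : ℕ) : ℤ) := by
      rw [padicValRat.of_nat, padicValNat_factorial (hb a List.mem_cons_self)]
    rw [h3]
    push_cast
    ring

lemma ratio_val (p : ℕ) [hp : Fact p.Prime] (num den : List ℕ) (k i0 : ℕ)
    (h : ∀ i, 1 ≤ i → fl (p ^ i) den ≤ fl (p ^ i) num)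
    (h0 : k = 0 ∨ (1 ≤ i0 ∧ fl (p ^ i0) den + k ≤ fl (p ^ i0) num)) :
    (k : ℤ) ≤ padicValRat p (fprod num / fprod den) := by
  obtain ⟨b, hb⟩ : ∃ b, (∀ x ∈ num ++ den, Nat.log p x < b) ∧ i0 < b := by
    refine ⟨((num ++ den).map (Nat.log p)).sum + i0 + 1, ?_, by omega⟩
    intro x hx
    have : Nat.log p x ≤ ((num ++ den).map (Nat.log p)).sum :=
      List.single_le_sum (by simp) _ (List.mem_map_of_mem hx)
    omega
  rw [padicValRat.div (fprod_ne _) (fprod_ne _),
    val_fprod p num b (fun x hx => hb.1 x (List.mem_append_left _ hx)),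
    val_fprod p den b (fun x hx => hb.1 x (List.mem_append_right _ hx))]
  have key : k + ∑ i ∈ Ico 1 b, fl (p ^ i) den ≤ ∑ i ∈ Ico 1 b, fl (p ^ i) num := by
    rcases h0 with h0 | ⟨h1, h2⟩
    · subst h0
      rw [zero_add]
      exact sum_le_sum (fun i hi => h i (mem_Ico.1 hi).1)
    · have hm : i0 ∈ Ico 1 b := mem_Ico.2 ⟨h1, hb.2⟩
      rw [← add_sum_erase _ _ hm, ← add_sum_erase _ _ hm]
      have := sum_le_sum (s := (Ico 1 b).erase i0) (fun i hi => h i (mem_Ico.1 (mem_of_mem_erase hi)).1)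
      omega
  have := (Int.ofNat_le.2 key)
  push_cast at this ⊢
  linarith

lemma PO_of_val {p k : ℕ} [hp : Fact p.Prime] {x : ℚ} (hx : x = 0 ∨ (k : ℤ) ≤ padicValRat p x) : PO p k x := by
  rcases hx with hx | hx
  · rw [hx]; exact PO.zero k
  · by_cases h0 : x = 0
    · rw [h0]; exact PO.zero k
    · unfold PO
      rw [padicNorm.eq_zpow_of_nonzero h0]
      apply zpow_le_zpow_right₀
      · exact_mod_cast hp.out.one_lt.le
      · linarith

/-- `p`-adic divisibility of a quotient of factorials -/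
lemma ratio_PO (p : ℕ) [hp : Fact p.Prime] (num den : List ℕ) (k i0 : ℕ)
    (h : ∀ i, 1 ≤ i → fl (p ^ i) den ≤ fl (p ^ i) num)
    (h0 : k = 0 ∨ (1 ≤ i0 ∧ fl (p ^ i0) den + k ≤ fl (p ^ i0) num)) :
    PO p k (fprod num / fprod den) :=
  PO_of_val (Or.inr (ratio_val p num den k i0 h h0))

/-- a rational number that is integral at every prime is an integer -/
lemma int_of_PO {x : ℚ} (h : ∀ p : ℕ, p.Prime → PO p 0 x) : ∃ z : ℤ, x = z := by
  have hd : x.den = 1 := by
    by_contra hne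
    obtain ⟨p, hp, hpd⟩ := Nat.exists_prime_and_dvd hne
    haveI : Fact p.Prime := ⟨hp⟩
    have h1 := h p hp
    unfold PO at h1
    have h2 : padicNorm p x ≤ 1 := by simpa using h1
    have h3 := PO.den_of_norm h2
    exact hp.one_lt.ne' (Nat.Coprime.eq_one_of_dvd h3.symm hpd)
  exact ⟨x.num, ((Rat.den_eq_one_iff x).1 hd).symm⟩

end

end Pool.Agent.X14.LG
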