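import Mathlib
import Pool.Agent.X14.LG1

set_option autoImplicit false

/-! Lucas type facts modulo 3 and the prime 2. -/

namespace Pool.Agent.X14.LG

open Finset Pool.Agent.H434R2

lemma lucas3 (n k : ℕ) : 3 ∣ n.choose k ↔ 3 ∣ (n % 3).choose (k % 3) * (n / 3).choose (k / 3) := by
  haveI : Fact (Nat.Prime 3) := ⟨Nat.prime_three⟩
  have h := Choose.choose_modEq_choose_mod_mul_choose_div_nat (n := n) (k := k) (p := 3)
  rw [Nat.dvd_iff_mod_eq_zero, Nat.dvd_iff_mod_eq_zero]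
  unfold Nat.ModEq at h
  rw [h]

lemma T1 : ∀ t : ℕ, 0 < t → 3 ∣ (3 * t).choose t := by
  intro t
  induction t using Nat.strong_induction_on with
  | _ t ih =>
    intro ht
    rw [lucas3]
    have h0 : (3 * t) % 3 = 0 := by omega
    have h1 : (3 * t) / 3 = t := by omega
    rw [h0, h1]
    by_cases hm : t % 3 = 0
    · obtain ⟨u, rfl⟩ : ∃ u, t = 3 * u := ⟨t / 3, by omega⟩
      have h2 : (3 * u) / 3 = u := by omega
      rw [hm, h2]
      have := ih u (by omega) (by omega)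
      simpa using this
    · have : (0 : ℕ).choose (t % 3) = 0 := Nat.choose_eq_zero_of_lt (by omega)
      rw [this, zero_mul]; exact dvd_zero 3

lemma T2 : ∀ s : ℕ, 3 ∣ (3 * s + 1).choose s ∨ ∃ m, 2 * s + 1 = 3 ^ m := by
  intro s
  induction s using Nat.strong_induction_on with
  | _ s ih =>
    have h0 : (3 * s + 1) % 3 = 1 := by omega
    have h1 : (3 * s + 1) / 3 = s := by omega
    rw [lucas3, h0, h1]
    have hm : s % 3 = 0 ∨ s % 3 = 1 ∨ s % 3 = 2 := by omega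
    rcases hm with hm | hm | hm
    · obtain ⟨u, rfl⟩ : ∃ u, s = 3 * u := ⟨s / 3, by omega⟩
      have h2 : (3 * u) / 3 = u := by omega
      rw [hm, h2]
      rcases Nat.eq_zero_or_pos u with hu | hu
      · right; exact ⟨0, by rw [hu]; rfl⟩
      · left; simpa using T1 u hu
    · obtain ⟨u, rfl⟩ : ∃ u, s = 3 * u + 1 := ⟨s / 3, by omega⟩
      have h2 : (3 * u + 1) / 3 = u := by omega
      rw [hm, h2]
      rcases ih u (by omega) with h | ⟨m, h⟩
      · left; simpa using h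
      · right; exact ⟨m + 1, by rw [pow_succ, ← h]; ring⟩
    · left
      rw [hm]
      simp

lemma T2' : ∀ m s : ℕ, 2 * s + 1 = 3 ^ m → ¬ 3 ∣ (3 * s + 1).choose s ∧ ¬ 3 ∣ (2 * s).choose s := by
  intro m
  induction m with
  | zero =>
    intro s hs
    have : s = 0 := by simpa using hs
    subst this; simp
  | succ m ih =>
    intro s hs
    rw [pow_succ] at hs
    obtain ⟨u, rfl⟩ : ∃ u, s = 3 * u + 1 := ⟨s / 3, by omega⟩
    have hu : 2 * u + 1 = 3 ^ m := by omega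
    obtain ⟨i1, i2⟩ := ih u hu
    constructor
    · rw [lucas3]
      have h0 : (3 * (3 * u + 1) + 1) % 3 = 1 := by omega
      have h1 : (3 * (3 * u + 1) + 1) / 3 = 3 * u + 1 := by omega
      have h2 : (3 * u + 1) % 3 = 1 := by omega
      have h3 : (3 * u + 1) / 3 = u := by omega
      rw [h0, h1, h2, h3]
      simpa using i1
    · rw [lucas3]
      have h0 : (2 * (3 * u + 1)) % 3 = 2 := by omega
      have h1 : (2 * (3 * u + 1)) / 3 = 2 * u := by omega
      have h2 : (3 * u + 1) % 3 = 1 := by omega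
      have h3 : (3 * u + 1) / 3 = u := by omega
      rw [h0, h1, h2, h3]
      intro hd
      have : (2 : ℕ).choose 1 = 2 := by decide
      rw [this] at hd
      rcases (Nat.Prime.dvd_mul Nat.prime_three).1 hd with h | h
      · omega
      · exact i2 h

lemma T3 (r : ℕ) : 3 ∣ (3 * r + 3).choose r ∨ ∃ m, 2 * r + 3 = 3 ^ m := by
  have h0 : (3 * r + 3) % 3 = 0 := by omega
  have h1 : (3 * r + 3) / 3 = r + 1 := by omega
  rw [lucas3, h0, h1]
  by_cases hm : r % 3 = 0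
  · obtain ⟨s, rfl⟩ : ∃ s, r = 3 * s := ⟨r / 3, by omega⟩
    have h2 : (3 * s) / 3 = s := by omega
    rw [hm, h2]
    rcases T2 s with h | ⟨m, h⟩
    · left; simpa using h
    · right; exact ⟨m + 1, by rw [pow_succ, ← h]; ring⟩
  · left
    have : (0 : ℕ).choose (r % 3) = 0 := Nat.choose_eq_zero_of_lt (by omega)
    rw [this, zero_mul]; exact dvd_zero 3

lemma T3' {r m : ℕ} (h : 2 * r + 3 = 3 ^ m) : ¬ 3 ∣ (3 * r + 3).choose r ∧ ¬ 3 ∣ (2 * r).choose r ∧ r % 3 = 0 := by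
  obtain ⟨m, rfl⟩ : ∃ m', m = m' + 1 := by
    rcases m with _ | m
    · simp at h
    · exact ⟨m, rfl⟩
  rw [pow_succ] at h
  obtain ⟨s, rfl⟩ : ∃ s, r = 3 * s := ⟨r / 3, by omega⟩
  have hs : 2 * s + 1 = 3 ^ m := by omega
  obtain ⟨i1, i2⟩ := T2' m s hs
  refine ⟨?_, ?_, by omega⟩
  · rw [lucas3]
    have h0 : (3 * (3 * s) + 3) % 3 = 0 := by omega
    have h1 : (3 * (3 * s) + 3) / 3 = 3 * s + 1 := by omega
    have h2 : (3 * s) % 3 = 0 := by omega
    have h3 : (3 * s) / 3 = s := by omega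
    rw [h0, h1, h2, h3]
    simpa using i1
  · rw [lucas3]
    have h0 : (2 * (3 * s)) % 3 = 0 := by omega
    have h1 : (2 * (3 * s)) / 3 = 2 * s := by omega
    have h2 : (3 * s) % 3 = 0 := by omega
    have h3 : (3 * s) / 3 = s := by omega
    rw [h0, h1, h2, h3]
    simpa using i2

/-! the prime 2 -/

lemma two_cb (j d : ℕ) : haveI : Fact (Nat.Prime 2) := ⟨Nat.prime_two⟩
    PO 2 0 ((2 : ℚ) ^ d * (j.centralBinom : ℚ) / ((j + d).centralBinom : ℚ)) := by
  haveI : Fact (Nat.Prime 2) := ⟨Nat.prime_two⟩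
  induction d with
  | zero =>
    have : (j.centralBinom : ℚ) ≠ 0 := by exact_mod_cast j.centralBinom_ne_zero
    simp only [pow_zero, one_mul, Nat.add_zero]
    rw [div_self this]
    exact PO.one
  | succ d ih =>
    have h := Nat.succ_mul_centralBinom_succ (j + d)
    have h2 := congrArg (Nat.cast : ℕ → ℚ) h
    push_cast at h2
    have h3 : ((j + d).centralBinom : ℚ) ≠ 0 := by exact_mod_cast (j + d).centralBinom_ne_zero
    have h4 : ((j + d + 1).centralBinom : ℚ) ≠ 0 := by exact_mod_cast (j + d + 1).centralBinom_ne_zero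
    have h5 : (2 * ((j : ℚ) + d) + 1) ≠ 0 := by positivity
    have e : (2 : ℚ) ^ (d + 1) * (j.centralBinom : ℚ) / ((j + (d + 1)).centralBinom : ℚ) =
        ((2 : ℚ) ^ d * (j.centralBinom : ℚ) / ((j + d).centralBinom : ℚ)) * (((j + d + 1 : ℕ) : ℚ) * (((2 * (j + d) + 1 : ℕ) : ℚ))⁻¹) := by
      rw [show j + (d + 1) = j + d + 1 by ring, pow_succ]
      push_cast
      field_simp
      linear_combination (-(j.centralBinom : ℚ)) * h2
    rw [e]
    refine ih.mul0' ?_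
    have : ¬ 2 ∣ (2 * (j + d) + 1) := by omega
    exact (PO.of_nat _).mul0 (PO.inv_nat this)

/-- the 2-adic part: sums of `M^(r-j) * c_j * C(2j,j)^2` with `4 ∣ M` are divisible by `2 C(2r,r)` -/
lemma two_part (M : ℤ) (hM : (4 : ℤ) ∣ M) (r : ℕ) (hr : 1 ≤ r) (c : ℕ → ℤ) :
    haveI : Fact (Nat.Prime 2) := ⟨Nat.prime_two⟩
    PO 2 0 ((∑ j ∈ range (r + 1), (M : ℚ) ^ (r - j) * (c j : ℚ) * (j.centralBinom : ℚ) ^ 2) / (2 * (r.centralBinom : ℚ))) := by
  haveI : Fact (Nat.Prime 2) := ⟨Nat.prime_two⟩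
  rw [sum_div]
  apply PO.sum
  intro j hj
  obtain ⟨d, rfl⟩ : ∃ d, r = j + d := ⟨r - j, by have := mem_range.1 hj; omega⟩
  rw [show j + d - j = d by omega]
  have h3 : ((j + d).centralBinom : ℚ) ≠ 0 := by exact_mod_cast (j + d).centralBinom_ne_zero
  rcases Nat.eq_zero_or_pos d with hd | hd
  · subst hd
    simp only [Nat.add_zero] at hr h3 ⊢
    obtain ⟨w, hw⟩ := Nat.two_dvd_centralBinom_of_one_le hr
    have e : (M : ℚ) ^ 0 * (c j : ℚ) * (j.centralBinom : ℚ) ^ 2 / (2 * (j.centralBinom : ℚ)) = (c j : ℚ) * ((w : ℕ) : ℚ) := by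
      have hw2 : (j.centralBinom : ℚ) = 2 * w := by exact_mod_cast hw
      rw [hw2] at h3 ⊢
      have h5 : (w : ℚ) ≠ 0 := by
        intro h; apply h3; rw [h]; ring
      field_simp
    rw [e]
    exact (PO.of_int _).mul0 (PO.of_nat _)
  · obtain ⟨m, hm⟩ := hM
    obtain ⟨d', rfl⟩ : ∃ d', d = d' + 1 := ⟨d - 1, by omega⟩
    have e : (M : ℚ) ^ (d' + 1) * (c j : ℚ) * (j.centralBinom : ℚ) ^ 2 / (2 * ((j + (d' + 1)).centralBinom : ℚ)) =
        (((2 : ℤ) ^ d' * m ^ (d' + 1) * c j * (j.centralBinom : ℤ) : ℤ) : ℚ) *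
        ((2 : ℚ) ^ (d' + 1) * (j.centralBinom : ℚ) / ((j + (d' + 1)).centralBinom : ℚ)) := by
      rw [hm]
      push_cast
      have e4 : ((4 : ℚ) * m) ^ (d' + 1) = 2 ^ (d' + 1) * (2 * 2 ^ d') * m ^ (d' + 1) := by
        rw [mul_pow, show (4 : ℚ) = 2 * 2 by norm_num, mul_pow]; ring
      rw [e4]
      field_simp
    rw [e]
    exact (PO.of_int _).mul0 (two_cb j (d' + 1))

end Pool.Agent.X14.LG
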