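import Mathlib
import Pool.Agent.X14.LG2
import Pool.Agent.Helper857.X1

set_option autoImplicit false

/-! The series with `(5k+1)` and ratio `-192`: the partial sums as sums of factorial quotients. -/

namespace Pool.Agent.X14.LG

open Finset Pool.Agent.H434R2

lemma cell {X q : ℕ} (hq : 0 < q) : (X / q) * q ≤ X ∧ X < (X / q + 1) * q := by
  constructor
  · exact Nat.div_mul_le_self X q
  · rw [Nat.add_mul, one_mul]; exact Nat.lt_div_mul_add hq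

lemma D5small (q x y : ℕ) (hq2 : 2 ≤ q) (hx : x < q) (hy : y < q) :
    (2*x+2*y+3)/q + (2*x+3*y+2)/q + (x+2*y+1)/q ≤ (3*x+3*y+3)/q + (2*x+4*y+2)/q + (2*x)/q := by
  have hq : 0 < q := by omega
  obtain ⟨l1, h1⟩ : ∃ l, l = (2*x+2*y+3)/q := ⟨_, rfl⟩
  obtain ⟨l2, h2⟩ : ∃ l, l = (2*x+3*y+2)/q := ⟨_, rfl⟩
  obtain ⟨l3, h3⟩ : ∃ l, l = (x+2*y+1)/q := ⟨_, rfl⟩
  obtain ⟨r1, h4⟩ : ∃ l, l = (3*x+3*y+3)/q := ⟨_, rfl⟩
  obtain ⟨r2, h5⟩ : ∃ l, l = (2*x+4*y+2)/q := ⟨_, rfl⟩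
  obtain ⟨r3, h6⟩ : ∃ l, l = (2*x)/q := ⟨_, rfl⟩
  rw [← h1, ← h2, ← h3, ← h4, ← h5, ← h6]
  have k1 := cell (X := 2*x+2*y+3) hq
  have k2 := cell (X := 2*x+3*y+2) hq
  have k3 := cell (X := x+2*y+1) hq
  have k4 := cell (X := 3*x+3*y+3) hq
  have k5 := cell (X := 2*x+4*y+2) hq
  have k6 := cell (X := 2*x) hq
  rw [← h1] at k1; rw [← h2] at k2; rw [← h3] at k3; rw [← h4] at k4; rw [← h5] at k5; rw [← h6] at k6
  clear h1 h2 h3 h4 h5 h6
  have b1 : l1 ≤ 3 := by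
    by_contra h; have : 4 * q ≤ l1 * q := Nat.mul_le_mul_right _ (by omega); omega
  have b2 : l2 ≤ 4 := by
    by_contra h; have : 5 * q ≤ l2 * q := Nat.mul_le_mul_right _ (by omega); omega
  have b3 : l3 ≤ 2 := by
    by_contra h; have : 3 * q ≤ l3 * q := Nat.mul_le_mul_right _ (by omega); omega
  have b4 : r1 ≤ 5 := by
    by_contra h; have : 6 * q ≤ r1 * q := Nat.mul_le_mul_right _ (by omega); omega
  have b5 : r2 ≤ 5 := by
    by_contra h; have : 6 * q ≤ r2 * q := Nat.mul_le_mul_right _ (by omega); omega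
  have b6 : r3 ≤ 1 := by
    by_contra h; have : 2 * q ≤ r3 * q := Nat.mul_le_mul_right _ (by omega); omega
  interval_cases r3 <;> interval_cases l3 <;> (try omega) <;> interval_cases l1 <;> (try omega) <;>
    interval_cases l2 <;> interval_cases r1 <;> (try omega) <;> interval_cases r2 <;> omega

noncomputable section

/-- the factorial quotient for `(5k+1)`; `N = a + K + 1` -/
def W5 (a K : ℕ) : ℚ := fprod [3*(a+K+1), 2*(a+K+1)+2*K, 2*a] / fprod [2*(a+K+1)+1, 2*(a+K+1)+K, (a+K+1)+K, a, a]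

lemma W5_PO (p : ℕ) [hp : Fact p.Prime] (a K : ℕ) : PO p 0 (W5 a K) := by
  unfold W5
  apply ratio_PO p _ _ 0 0 _ (Or.inl rfl)
  intro i hi
  have hq2 : 2 ≤ p ^ i := le_trans hp.out.two_le (Nat.le_self_pow (by omega) p)
  generalize p ^ i = q at hq2 ⊢
  have hq : 0 < q := by omega
  obtain ⟨A, x, hx, rfl⟩ : ∃ A x, x < q ∧ a = q * A + x := ⟨a / q, a % q, Nat.mod_lt _ hq, (Nat.div_add_mod a q).symm⟩
  obtain ⟨B, y, hy, rfl⟩ : ∃ B y, y < q ∧ K = q * B + y := ⟨K / q, K % q, Nat.mod_lt _ hq, (Nat.div_add_mod K q).symm⟩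
  have h := D5small q x y hq2 hx hy
  have e1 : 3*(q*A+x+(q*B+y)+1) = q*(3*A+3*B) + (3*x+3*y+3) := by ring
  have e2 : 2*(q*A+x+(q*B+y)+1)+2*(q*B+y) = q*(2*A+4*B) + (2*x+4*y+2) := by ring
  have e3 : 2*(q*A+x) = q*(2*A) + 2*x := by ring
  have e4 : 2*(q*A+x+(q*B+y)+1)+1 = q*(2*A+2*B) + (2*x+2*y+3) := by ring
  have e5 : 2*(q*A+x+(q*B+y)+1)+(q*B+y) = q*(2*A+3*B) + (2*x+3*y+2) := by ring
  have e6 : (q*A+x+(q*B+y)+1)+(q*B+y) = q*(A+2*B) + (x+2*y+1) := by ring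
  simp only [fl, List.map_cons, List.map_nil, List.sum_cons, List.sum_nil]
  rw [e1, e2, e3, e4, e5, e6]
  rw [Nat.mul_add_div hq, Nat.mul_add_div hq, Nat.mul_add_div hq, Nat.mul_add_div hq, Nat.mul_add_div hq,
    Nat.mul_add_div hq, Nat.mul_add_div hq, Nat.div_eq_of_lt hx]
  omega

lemma G_W5 (K : ℕ) : ∀ a : ℕ, -Helper857.X.G (a+K+1) K * (-192)^(a+K) =
    ((a+K+1 : ℕ) : ℚ) * (2*((a+K+1 : ℕ) : ℚ)+1) * ((a+K+1).centralBinom : ℚ) * ((-3)^K / 6 * W5 a K) := by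
  induction K with
  | zero =>
    intro a
    unfold Helper857.X.G Helper857.X.h W5 fprod
    rw [Helper857.X.t_eq]
    simp only [List.map_cons, List.map_nil, List.prod_cons, List.prod_nil, prod_range_zero]
    rw [Nat.centralBinom_eq_two_mul_choose, Nat.cast_choose ℚ (show a+0+1 ≤ 2*(a+0+1) by omega)]
    rw [show 2*(a+0+1) - (a+0+1) = a+1 by omega]
    simp only [Nat.add_zero, Nat.mul_zero]
    rw [show 2*(a+1)+1 = (2*a+2)+1 by ring, show 2*(a+1) = (2*a+1)+1 by ring]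
    rw [Nat.factorial_succ (2*a+2), show 2*a+2 = (2*a+1)+1 by ring, Nat.factorial_succ (2*a+1), Nat.factorial_succ (2*a), Nat.factorial_succ a]
    have h1 : (a.factorial:ℚ) ≠ 0 := by exact_mod_cast a.factorial_ne_zero
    have h2 : ((2*a).factorial:ℚ) ≠ 0 := by exact_mod_cast (2*a).factorial_ne_zero
    have h3 : ((3*(a+1)).factorial:ℚ) ≠ 0 := by exact_mod_cast (3*(a+1)).factorial_ne_zero
    have h4 : (a:ℚ)+1 ≠ 0 := by positivity
    have h5 : 2*(a:ℚ)+1 ≠ 0 := by positivity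
    have h6 : 2*(a:ℚ)+3 ≠ 0 := by positivity
    push_cast
    rw [show 2*((a:ℚ)+1) - 2*0 - 1 = 2*a+1 by ring, pow_succ (-192:ℚ) a]
    have h7 : (-192:ℚ)^a ≠ 0 := pow_ne_zero _ (by norm_num)
    have h8 : 2 * ((a:ℚ)+1)+1 ≠ 0 := by positivity
    have h9 : 2 * (a:ℚ)+1+1 ≠ 0 := by positivity
    have h10 : 2 * (a:ℚ)+1+1+1 ≠ 0 := by positivity
    field_simp
    ring
  | succ K ih =>
    intro a
    have h := ih (a+1)
    have hs := Helper857.X.G_step (a+1+K+1) K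
    rw [show a+1+K+1 = a+(K+1)+1 by ring] at h hs
    rw [show a+1+K = a+(K+1) by ring] at h
    have e1 : (2*(((a+(K+1)+1 : ℕ)):ℚ) - 2*K - 3) = 2*a+1 := by push_cast; ring
    have e2 : (((a+(K+1)+1 : ℕ):ℚ) - K - 1) = a+1 := by push_cast; ring
    rw [e1, e2] at hs
    have h5 : 2*(a:ℚ)+1 ≠ 0 := by positivity
    have h6 : (2*(((a+(K+1)+1 : ℕ)):ℚ) + K + 1) ≠ 0 := by positivity
    have hG : Helper857.X.G (a+(K+1)+1) (K+1) = -3 * ((2*(((a+(K+1)+1 : ℕ)):ℚ) + 2*K + 1) * (a+1)) * Helper857.X.G (a+(K+1)+1) K /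
        ((2*(((a+(K+1)+1 : ℕ)):ℚ) + K + 1) * (2*a+1)) := by
      rw [eq_div_iff (mul_ne_zero h6 h5)]; exact hs
    have hW : W5 a (K+1) = W5 (a+1) K * ((2*(((a+(K+1)+1 : ℕ)):ℚ) + 2*K + 1) * (a+1) / ((2*(((a+(K+1)+1 : ℕ)):ℚ) + K + 1) * (2*a+1))) := by
      unfold W5 fprod
      simp only [List.map_cons, List.map_nil, List.prod_cons, List.prod_nil]
      rw [show a+1+K+1 = a+(K+1)+1 by ring]
      generalize hN : a+(K+1)+1 = N
      rw [show 2*N+2*(K+1) = (2*N+2*K+1)+1 by ring, show 2*N+(K+1) = 2*N+K+1 by ring, show N+(K+1) = N+K+1 by ring,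
        show 2*(a+1) = (2*a+1)+1 by ring]
      rw [Nat.factorial_succ (2*N+2*K+1), Nat.factorial_succ (2*N+2*K), Nat.factorial_succ (2*N+K), Nat.factorial_succ (N+K),
        Nat.factorial_succ (2*a+1), Nat.factorial_succ (2*a), Nat.factorial_succ a]
      have g1 : (a.factorial:ℚ) ≠ 0 := by exact_mod_cast a.factorial_ne_zero
      have g2 : ((2*a).factorial:ℚ) ≠ 0 := by exact_mod_cast (2*a).factorial_ne_zero
      have g3 : ((2*N+K).factorial:ℚ) ≠ 0 := by exact_mod_cast (2*N+K).factorial_ne_zero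
      have g4 : ((N+K).factorial:ℚ) ≠ 0 := by exact_mod_cast (N+K).factorial_ne_zero
      have g5 : ((2*N+1).factorial:ℚ) ≠ 0 := by exact_mod_cast (2*N+1).factorial_ne_zero
      have g6 : (a:ℚ)+1 ≠ 0 := by positivity
      have g7 : (N:ℚ)+K+1 ≠ 0 := by positivity
      have g8 : 2*(N:ℚ)+K+1 ≠ 0 := by positivity
      push_cast
      field_simp
      ring
    rw [hG, hW, pow_succ (-3:ℚ) K]
    generalize hN : a+(K+1)+1 = N at *
    linear_combination (-3 * ((2 * (N:ℚ) + 2 * K + 1) * (a + 1)) / ((2*(N:ℚ) + K + 1) * (2*a+1))) * h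

end

end Pool.Agent.X14.LG
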