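import Mathlib
import Pool.Agent.X14.LG3

set_option autoImplicit false

/-! Integrality of the normalised partial sums with `(5k+1)`. -/

namespace Pool.Agent.X14.LG

open Finset Pool.Agent.H434R2

noncomputable section

/-- normalised sum for `(5k+1)` -/
def a5 (n : ℕ) : ℚ := (∑ k ∈ range n, (5 * (k : ℚ) + 1) * ((2 * k).choose k : ℚ) ^ 2 * ((3 * k).choose k : ℚ) * (-192) ^ (n - 1 - k)) /
  ((n : ℚ) * (2 * n + 1) * ((2 * n).choose n : ℚ))

lemma a5_eq (r : ℕ) : a5 (r + 1) = ∑ K ∈ range (r + 1), (-3) ^ K / 6 * W5 (r - K) K := by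
  have h := Helper857.X.sum_G (r + 1) (r + 1) le_rfl
  have h1 : ∑ k ∈ range (r + 1), (5 * (k : ℚ) + 1) * ((2 * k).choose k : ℚ) ^ 2 * ((3 * k).choose k : ℚ) * (-192) ^ (r + 1 - 1 - k) =
      (∑ n ∈ range (r + 1), (5 * (n : ℚ) + 1) * Helper857.X.t n) * (-192) ^ r := by
    rw [sum_mul]
    apply sum_congr rfl
    intro k hk
    have hk' := mem_range.1 hk
    obtain ⟨d, rfl⟩ : ∃ d, r = k + d := ⟨r - k, by omega⟩
    unfold Helper857.X.t
    rw [show k + d + 1 - 1 - k = d by omega, pow_add]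
    have : (-192 : ℚ) ^ k ≠ 0 := pow_ne_zero _ (by norm_num)
    field_simp
  unfold a5
  rw [h1, h]
  have hc : ((2 * (r + 1)).choose (r + 1) : ℚ) = ((r + 1).centralBinom : ℚ) := by rw [Nat.centralBinom_eq_two_mul_choose]
  rw [hc]
  have hne : ((r + 1 : ℕ) : ℚ) * (2 * ((r + 1 : ℕ) : ℚ) + 1) * ((r + 1).centralBinom : ℚ) ≠ 0 := by
    have : ((r + 1).centralBinom : ℚ) ≠ 0 := by exact_mod_cast (r + 1).centralBinom_ne_zero
    positivity
  rw [div_eq_iff hne, ← sum_neg_distrib, sum_mul, sum_mul]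
  apply sum_congr rfl
  intro K hK
  have hK' := mem_range.1 hK
  obtain ⟨a, rfl⟩ : ∃ a, r = a + K := ⟨r - K, by omega⟩
  rw [G_W5 K a, show a + K - K = a by omega]
  ring

lemma W5_zero (r : ℕ) : W5 r 0 = (catalan r : ℚ) * ((3 * r + 3).choose r : ℚ) := by
  have hc := succ_mul_catalan_eq_centralBinom r
  have hc2 : ((r : ℚ) + 1) * (catalan r : ℚ) = (r.centralBinom : ℚ) := by exact_mod_cast hc
  have h4 : (r : ℚ) + 1 ≠ 0 := by positivity
  have hc3 : (catalan r : ℚ) = (r.centralBinom : ℚ) / (r + 1) := by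
    rw [eq_div_iff h4]; linarith
  rw [hc3, Nat.centralBinom_eq_two_mul_choose, Nat.cast_choose ℚ (show r ≤ 2 * r by omega), Nat.cast_choose ℚ (show r ≤ 3 * r + 3 by omega)]
  unfold W5 fprod
  simp only [List.map_cons, List.map_nil, List.prod_cons, List.prod_nil, Nat.add_zero, Nat.mul_zero]
  rw [show 2 * r - r = r by omega, show 3 * r + 3 - r = 2 * (r + 1) + 1 by omega, show 3 * (r + 1) = 3 * r + 3 by ring]
  rw [Nat.factorial_succ r]
  have h1 : (r.factorial:ℚ) ≠ 0 := by exact_mod_cast r.factorial_ne_zero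
  have h2 : ((2*(r+1)).factorial:ℚ) ≠ 0 := by exact_mod_cast (2*(r+1)).factorial_ne_zero
  have h3 : ((2*(r+1)+1).factorial:ℚ) ≠ 0 := by exact_mod_cast (2*(r+1)+1).factorial_ne_zero
  push_cast
  field_simp

lemma a5_two (r : ℕ) (hr : 1 ≤ r) : haveI : Fact (Nat.Prime 2) := ⟨Nat.prime_two⟩
    PO 2 0 (a5 (r + 1)) := by
  haveI : Fact (Nat.Prime 2) := ⟨Nat.prime_two⟩
  have h := two_part (-192) (by norm_num) r hr (fun j => (5 * (j : ℤ) + 1) * ((3 * j).choose j : ℤ))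
  have hc := Nat.succ_mul_centralBinom_succ r
  have hc2 := congrArg (Nat.cast : ℕ → ℚ) hc
  push_cast at hc2
  have h3 : (r.centralBinom : ℚ) ≠ 0 := by exact_mod_cast r.centralBinom_ne_zero
  have h5 : (2 * (r : ℚ) + 1) ≠ 0 := by positivity
  have h6 : (2 * (r : ℚ) + 3) ≠ 0 := by positivity
  have e : a5 (r + 1) = ((∑ j ∈ range (r + 1), ((-192 : ℤ) : ℚ) ^ (r - j) * (((fun j : ℕ => (5 * (j : ℤ) + 1) * ((3 * j).choose j : ℤ)) j : ℤ) : ℚ) * (j.centralBinom : ℚ) ^ 2) /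
      (2 * (r.centralBinom : ℚ))) * ((((2 * r + 1 : ℕ)) : ℚ)⁻¹ * (((2 * r + 3 : ℕ)) : ℚ)⁻¹) := by
    unfold a5
    have hs : ∑ k ∈ range (r + 1), (5 * (k : ℚ) + 1) * ((2 * k).choose k : ℚ) ^ 2 * ((3 * k).choose k : ℚ) * (-192) ^ (r + 1 - 1 - k) =
        ∑ j ∈ range (r + 1), ((-192 : ℤ) : ℚ) ^ (r - j) * (((fun j : ℕ => (5 * (j : ℤ) + 1) * ((3 * j).choose j : ℤ)) j : ℤ) : ℚ) * (j.centralBinom : ℚ) ^ 2 := by
      apply sum_congr rfl
      intro k _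
      rw [Nat.add_sub_cancel, Nat.centralBinom_eq_two_mul_choose]
      push_cast
      ring
    rw [hs]
    have hd : ((r + 1 : ℕ) : ℚ) * (2 * ((r + 1 : ℕ) : ℚ) + 1) * ((2 * (r + 1)).choose (r + 1) : ℚ) =
        (2 * (r.centralBinom : ℚ)) * ((2 * r + 1) * (2 * r + 3)) := by
      rw [← Nat.centralBinom_eq_two_mul_choose]
      push_cast
      linear_combination (2 * (r : ℚ) + 3) * hc2
    rw [hd]
    push_cast
    rw [div_mul_eq_div_div, div_eq_mul_inv _ ((2 * (r : ℚ) + 1) * (2 * r + 3)), mul_inv]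
  rw [e]
  exact h.mul0' ((PO.inv_nat (by omega)).mul0 (PO.inv_nat (by omega)))

lemma six_PO {p : ℕ} [hp : Fact p.Prime] (h2 : p ≠ 2) (h3 : p ≠ 3) : PO p 0 ((6 : ℚ)⁻¹) := by
  have h : ¬ p ∣ 6 := by
    intro h
    rcases (Nat.Prime.dvd_mul hp.out).1 (show p ∣ 2 * 3 from h) with h | h
    · exact h2 ((Nat.prime_dvd_prime_iff_eq hp.out Nat.prime_two).1 h)
    · exact h3 ((Nat.prime_dvd_prime_iff_eq hp.out Nat.prime_three).1 h)
  have := PO.inv_nat h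
  exact_mod_cast this

lemma a5_other {p : ℕ} [hp : Fact p.Prime] (h2 : p ≠ 2) (h3 : p ≠ 3) (r : ℕ) : PO p 0 (a5 (r + 1)) := by
  rw [a5_eq]
  apply PO.sum
  intro K _
  rw [div_eq_mul_inv]
  have e : (-3 : ℚ) ^ K = (((-3 : ℤ) ^ K : ℤ) : ℚ) := by push_cast; rfl
  rw [e]
  exact ((PO.of_int _).mul0 (six_PO h2 h3)).mul0 (W5_PO p _ _)

/-- the 3-adic part of all terms but the first -/
lemma a5_tail (r : ℕ) : haveI : Fact (Nat.Prime 3) := ⟨Nat.prime_three⟩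
    PO 3 0 (a5 (r + 1) - W5 r 0 / 6) := by
  haveI : Fact (Nat.Prime 3) := ⟨Nat.prime_three⟩
  rw [a5_eq, sum_range_succ']
  have e : ∑ K ∈ range r, (-3 : ℚ) ^ (K + 1) / 6 * W5 (r - (K + 1)) (K + 1) + (-3) ^ 0 / 6 * W5 (r - 0) 0 - W5 r 0 / 6 =
      ∑ K ∈ range r, (((-1) * (-3) ^ K : ℤ) : ℚ) * ((2 : ℚ)⁻¹ * W5 (r - (K + 1)) (K + 1)) := by
    rw [Nat.sub_zero]
    have : ∑ K ∈ range r, (-3 : ℚ) ^ (K + 1) / 6 * W5 (r - (K + 1)) (K + 1) = ∑ K ∈ range r, (((-1) * (-3) ^ K : ℤ) : ℚ) * ((2 : ℚ)⁻¹ * W5 (r - (K + 1)) (K + 1)) := by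
      apply sum_congr rfl
      intro K _
      push_cast
      rw [pow_succ]; ring
    rw [this]; ring
  rw [e]
  apply PO.sum
  intro K _
  refine (PO.of_int _).mul0 (PO.mul0 ?_ (W5_PO 3 _ _))
  have : ¬ 3 ∣ 2 := by norm_num
  have := PO.inv_nat this
  exact_mod_cast this

lemma a5_three (r : ℕ) (h : 3 ∣ (3 * r + 3).choose r) : haveI : Fact (Nat.Prime 3) := ⟨Nat.prime_three⟩
    PO 3 0 (a5 (r + 1)) := by
  haveI : Fact (Nat.Prime 3) := ⟨Nat.prime_three⟩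
  obtain ⟨w, hw⟩ := h
  have h1 := a5_tail r
  have h2 : PO 3 0 (W5 r 0 / 6) := by
    rw [W5_zero, hw]
    have e : (catalan r : ℚ) * (((3 * w : ℕ)) : ℚ) / 6 = ((catalan r * w : ℕ) : ℚ) * (2 : ℚ)⁻¹ := by
      push_cast; ring
    rw [e]
    refine (PO.of_nat _).mul0 ?_
    have : ¬ 3 ∣ 2 := by norm_num
    have := PO.inv_nat this
    exact_mod_cast this
  have e : a5 (r + 1) = (a5 (r + 1) - W5 r 0 / 6) + W5 r 0 / 6 := by ring
  rw [e]
  exact h1.add h2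

theorem a5_int (r : ℕ) (hr : 1 ≤ r) (h : ¬ ∃ m, 2 * r + 3 = 3 ^ m) : ∃ z : ℤ, a5 (r + 1) = z := by
  apply int_of_PO
  intro p hp
  haveI : Fact p.Prime := ⟨hp⟩
  by_cases h2 : p = 2
  · subst h2; exact a5_two r hr
  · by_cases h3 : p = 3
    · subst h3
      rcases T3 r with h' | h'
      · exact a5_three r h'
      · exact absurd h' h
    · exact a5_other h2 h3 r

/-- general end of the argument at a power of 3 -/
lemma special {x c : ℚ} (u : ℕ) (hu : ¬ 3 ∣ u) (v : ℕ) (hv : ¬ 3 ∣ v) (hc : c = (u : ℚ) / v)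
    (hx2 : haveI : Fact (Nat.Prime 3) := ⟨Nat.prime_three⟩
      PO 3 0 (x - c / 3))
    (hx : ∀ p : ℕ, p.Prime → p ≠ 3 → PO p 0 x) : ∃ z : ℤ, 3 * x = z ∧ ¬ (3 : ℤ) ∣ z := by
  haveI f3 : Fact (Nat.Prime 3) := ⟨Nat.prime_three⟩
  have h3 : PO 3 0 (3 : ℚ) := by exact_mod_cast PO.of_nat (p := 3) 3
  have hcn : padicNorm 3 c = 1 := by
    rw [hc, padicNorm.div, PO.norm_nat_of_not_dvd hu, PO.norm_nat_of_not_dvd hv]; norm_num
  have hc0 : PO 3 0 c := by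
    unfold PO; rw [hcn]; norm_num
  have hint : ∃ z : ℤ, 3 * x = z := by
    apply int_of_PO
    intro p hp
    haveI : Fact p.Prime := ⟨hp⟩
    by_cases hp3 : p = 3
    · subst hp3
      have e : 3 * x = 3 * (x - c / 3) + c := by ring
      rw [e]
      exact (h3.mul0 hx2).add hc0
    · exact (show PO p 0 (3 : ℚ) by exact_mod_cast PO.of_nat (p := p) 3).mul0 (hx p hp hp3)
  obtain ⟨z, hz⟩ := hint
  refine ⟨z, hz, ?_⟩
  rintro ⟨w, hw⟩
  have e : c = (3 : ℚ) ^ 1 * (w - (x - c / 3)) := by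
    have : (z : ℚ) = 3 * w := by rw [hw]; push_cast; ring
    rw [this] at hz
    linear_combination hz
  have h1 : PO 3 1 c := by
    rw [e]
    have := (PO.ppow (p := 3) 1).mul0' ((PO.of_int (p := 3) w).sub hx2)
    exact_mod_cast this
  unfold PO at h1
  rw [hcn] at h1
  norm_num at h1

theorem a5_special (r : ℕ) (hr : 1 ≤ r) (h : ∃ m, 2 * r + 3 = 3 ^ m) : ∃ z : ℤ, 3 * a5 (r + 1) = z ∧ ¬ (3 : ℤ) ∣ z := by
  obtain ⟨m, hm⟩ := h
  obtain ⟨t1, t2, t3⟩ := T3' hm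
  haveI f3 : Fact (Nat.Prime 3) := ⟨Nat.prime_three⟩
  refine special (x := a5 (r + 1)) (c := W5 r 0 / 2) (catalan r * (3 * r + 3).choose r) ?_ 2 (by norm_num) ?_ ?_ ?_
  · intro hd
    rcases (Nat.Prime.dvd_mul Nat.prime_three).1 hd with h | h
    · apply t2
      have := succ_mul_catalan_eq_centralBinom r
      rw [← Nat.centralBinom_eq_two_mul_choose, ← this]
      exact dvd_mul_of_dvd_right h _
    · exact t1 h
  · rw [W5_zero]; push_cast; ring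
  · have := a5_tail r
    have e : a5 (r + 1) - W5 r 0 / 2 / 3 = a5 (r + 1) - W5 r 0 / 6 := by ring
    rw [e]; exact this
  · intro p hp hp3
    haveI : Fact p.Prime := ⟨hp⟩
    by_cases h2 : p = 2
    · subst h2; exact a5_two r hr
    · exact a5_other h2 hp3 r

end

end Pool.Agent.X14.LG
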