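import Mathlib
import Pool.Agent.X14.LG4

set_option autoImplicit false

/-! The series with `(51k+7)` and ratio `-1728`: the partial sums as sums of factorial quotients. -/

namespace Pool.Agent.X14.LG

open Finset Pool.Agent.H434R2

noncomputable section

/-- the gamma quotient in the variables `l`, `d` (with `m = l + d`) -/
def Hf (l d : ℕ) : ℚ := (-1) ^ l / (64 ^ (l + d) * 27 ^ l) *
  (((3 * (l + d)).factorial : ℚ) * ((2 * (l + 2 * d)).factorial : ℚ) * ((2 * l).factorial : ℚ) * (d.factorial : ℚ) /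
  (((l + d).factorial : ℚ) ^ 2 * ((l + 2 * d).factorial : ℚ) * (l.factorial : ℚ) ^ 2 * ((3 * d).factorial : ℚ) * ((2 * l + d + 1).factorial : ℚ)))

def Tf (l d : ℕ) : ℚ := 16 * (l + d) * (2 * l + d + 1) * (6 * l + 9 * d - 2) / (2 * l + 4 * d - 1) * Hf l d

def Ff (l d : ℕ) : ℚ := ((102 * l + 63 * d + 14) * (2 * l + d + 1) - 3 * d + 9 * d ^ 2) / 2 * Hf l d

lemma fne (n : ℕ) : (n.factorial : ℚ) ≠ 0 := by exact_mod_cast n.factorial_ne_zero

lemma Hf_R1 (l e : ℕ) : Hf (l + 1) e = Hf l (e + 1) *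
    (-((2 * l + 1) * (3 * e + 1) * (3 * e + 2)) / (9 * (l + 1) * (2 * l + 4 * e + 3) * (2 * l + e + 3))) := by
  unfold Hf
  rw [show l + 1 + e = l + (e + 1) by ring, show 2 * (l + 2 * (e + 1)) = 2 * (l + 1 + 2 * e) + 1 + 1 by ring,
    show 2 * (l + 1) + e + 1 = 2 * l + (e + 1) + 1 + 1 by ring, show 2 * (l + 1) = 2 * l + 1 + 1 by ring,
    show 3 * (e + 1) = 3 * e + 1 + 1 + 1 by ring, show l + 2 * (e + 1) = l + 1 + 2 * e + 1 by ring]
  rw [Nat.factorial_succ (2 * (l + 1 + 2 * e) + 1), Nat.factorial_succ (2 * (l + 1 + 2 * e)),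
    Nat.factorial_succ (2 * l + (e + 1) + 1), Nat.factorial_succ (2 * l + 1), Nat.factorial_succ (2 * l),
    Nat.factorial_succ (3 * e + 1 + 1), Nat.factorial_succ (3 * e + 1), Nat.factorial_succ (3 * e),
    Nat.factorial_succ (l + 1 + 2 * e), Nat.factorial_succ l, Nat.factorial_succ e]
  have h1 := fne (2 * (l + 1 + 2 * e))
  have h2 := fne (2 * l + (e + 1) + 1)
  have h3 := fne (2 * l)
  have h4 := fne (3 * e)
  have h5 := fne (l + 1 + 2 * e)
  have h6 := fne l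
  have h7 := fne e
  have h8 := fne (l + (e + 1))
  have h9 := fne (3 * (l + (e + 1)))
  push_cast
  have g1 : (l : ℚ) + 1 ≠ 0 := by positivity
  have g2 : 2 * (l : ℚ) + 4 * e + 3 ≠ 0 := by positivity
  have g3 : 2 * (l : ℚ) + e + 3 ≠ 0 := by positivity
  have g4 : (e : ℚ) + 1 ≠ 0 := by positivity
  have g5 : (l : ℚ) + 1 + 2 * e + 1 ≠ 0 := by positivity
  have g6 : 2 * ((l : ℚ) + 1 + 2 * e) + 1 ≠ 0 := by positivity
  have g7 : 2 * ((l : ℚ) + 1 + 2 * e) + 1 + 1 ≠ 0 := by positivity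
  have g8 : 2 * (l : ℚ) + (e + 1) + 1 + 1 ≠ 0 := by positivity
  rw [pow_succ (-1 : ℚ) l, pow_succ (27 : ℚ) l]
  field_simp
  ring

lemma Hf_R2 (l d : ℕ) : Hf (l + 1) d = Hf l d *
    (-((3 * (l + d) + 1) * (3 * (l + d) + 2) * (2 * l + 4 * d + 1) * (2 * l + 1)) /
      (144 * (l + d + 1) * (l + 1) * (2 * l + d + 2) * (2 * l + d + 3))) := by
  unfold Hf
  rw [show 3 * (l + 1 + d) = 3 * (l + d) + 1 + 1 + 1 by ring, show 2 * (l + 1 + 2 * d) = 2 * (l + 2 * d) + 1 + 1 by ring,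
    show 2 * (l + 1) + d + 1 = 2 * l + d + 1 + 1 + 1 by ring, show 2 * (l + 1) = 2 * l + 1 + 1 by ring,
    show l + 1 + d = l + d + 1 by ring, show l + 1 + 2 * d = l + 2 * d + 1 by ring]
  rw [Nat.factorial_succ (3 * (l + d) + 1 + 1), Nat.factorial_succ (3 * (l + d) + 1), Nat.factorial_succ (3 * (l + d)),
    Nat.factorial_succ (2 * (l + 2 * d) + 1), Nat.factorial_succ (2 * (l + 2 * d)),
    Nat.factorial_succ (2 * l + d + 1 + 1), Nat.factorial_succ (2 * l + d + 1), Nat.factorial_succ (2 * l + 1), Nat.factorial_succ (2 * l),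
    Nat.factorial_succ (l + d), Nat.factorial_succ (l + 2 * d), Nat.factorial_succ l]
  have h1 := fne (2 * (l + 2 * d))
  have h2 := fne (2 * l + d + 1)
  have h3 := fne (2 * l)
  have h4 := fne (3 * d)
  have h5 := fne (l + 2 * d)
  have h6 := fne l
  have h7 := fne d
  have h8 := fne (l + d)
  have h9 := fne (3 * (l + d))
  push_cast
  have g1 : (l : ℚ) + 1 ≠ 0 := by positivity
  have g2 : (l : ℚ) + d + 1 ≠ 0 := by positivity
  have g3 : 2 * (l : ℚ) + d + 2 ≠ 0 := by positivity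
  have g4 : 2 * (l : ℚ) + d + 3 ≠ 0 := by positivity
  have g5 : (l : ℚ) + 2 * d + 1 ≠ 0 := by positivity
  have g6 : 2 * (l : ℚ) + d + 1 + 1 ≠ 0 := by positivity
  have g7 : 2 * (l : ℚ) + d + 1 + 1 + 1 ≠ 0 := by positivity
  rw [pow_succ (-1 : ℚ) l, pow_succ (27 : ℚ) l, show l + d + 1 = (l + d) + 1 by ring, pow_succ (64 : ℚ) (l + d)]
  field_simp
  ring

lemma I1 (l e : ℕ) : Tf (l + 1) (e + 1) - Tf l (e + 1) = Ff (l + 1) e - Ff l (e + 1) := by
  unfold Tf Ff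
  rw [Hf_R1 l e, Hf_R2 l (e + 1)]
  generalize Hf l (e + 1) = X
  push_cast
  have g1 : (l : ℚ) + 1 ≠ 0 := by positivity
  have g2 : 2 * (l : ℚ) + 4 * e + 3 ≠ 0 := by positivity
  have g3 : 2 * (l : ℚ) + e + 3 ≠ 0 := by positivity
  have g4 : (l : ℚ) + e + 2 ≠ 0 := by positivity
  have g5 : 2 * (l : ℚ) + e + 4 ≠ 0 := by positivity
  have g6 : 2 * (l : ℚ) + 4 * e + 5 ≠ 0 := by positivity
  have e1 : 2 * ((l : ℚ) + 1) + 4 * (e + 1) - 1 = 2 * l + 4 * e + 5 := by ring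
  have e2 : 2 * (l : ℚ) + 4 * (e + 1) - 1 = 2 * l + 4 * e + 3 := by ring
  have e3 : (l : ℚ) + (e + 1) + 1 = l + e + 2 := by ring
  have e4 : 2 * (l : ℚ) + (e + 1) + 2 = 2 * l + e + 3 := by ring
  have e5 : 2 * (l : ℚ) + (e + 1) + 3 = 2 * l + e + 4 := by ring
  rw [e1, e2, e3, e4, e5]
  field_simp
  ring

lemma Hf_zero (n : ℕ) : Hf 0 (n + 1) = Hf 0 n * ((4 * n + 1) * (4 * n + 3) / (16 * (n + 1) * (n + 2))) := by
  unfold Hf
  simp only [Nat.zero_add, Nat.mul_zero, pow_zero, Nat.factorial_zero]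
  rw [show 2 * (2 * (n + 1)) = 2 * (2 * n) + 1 + 1 + 1 + 1 by ring, show 2 * (n + 1) = 2 * n + 1 + 1 by ring]
  rw [Nat.factorial_succ (2 * (2 * n) + 1 + 1 + 1), Nat.factorial_succ (2 * (2 * n) + 1 + 1), Nat.factorial_succ (2 * (2 * n) + 1),
    Nat.factorial_succ (2 * (2 * n)), Nat.factorial_succ (2 * n + 1), Nat.factorial_succ (2 * n), Nat.factorial_succ (n + 1), Nat.factorial_succ n]
  have h1 := fne (2 * (2 * n))
  have h2 := fne (2 * n)
  have h3 := fne n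
  have h4 := fne (3 * n)
  have h5 := fne (3 * (n + 1))
  push_cast
  have g1 : (n : ℚ) + 1 ≠ 0 := by positivity
  have g2 : (n : ℚ) + 2 ≠ 0 := by positivity
  have g3 : 2 * (n : ℚ) + 1 ≠ 0 := by positivity
  have g4 : (n : ℚ) + 1 + 1 ≠ 0 := by positivity
  have g5 : 2 * (n : ℚ) + 1 + 1 ≠ 0 := by positivity
  rw [pow_succ (64 : ℚ) n]
  field_simp
  ring

lemma I2 (n : ℕ) : Tf 0 (n + 1) = Ff 0 n := by
  unfold Tf Ff
  rw [Hf_zero]
  generalize Hf 0 n = X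
  push_cast
  have g1 : (n : ℚ) + 1 ≠ 0 := by positivity
  have g2 : (n : ℚ) + 2 ≠ 0 := by positivity
  have g3 : 4 * (n : ℚ) + 3 ≠ 0 := by positivity
  have e1 : 2 * (0 : ℚ) + 4 * (n + 1) - 1 = 4 * n + 3 := by ring
  rw [e1]
  field_simp
  ring

/-- the summand of the series -/
def t51 (n : ℕ) : ℚ := ((2 * n).choose n : ℚ) ^ 2 * ((3 * n).choose n : ℚ) / (-1728) ^ n

lemma Ff_diag (n : ℕ) : Ff n 0 = (51 * n + 7) * t51 n := by
  unfold Ff Hf t51
  rw [Nat.cast_choose ℚ (show n ≤ 2 * n by omega), Nat.cast_choose ℚ (show n ≤ 3 * n by omega)]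
  rw [show 2 * n - n = n by omega, show 3 * n - n = 2 * n by omega]
  simp only [Nat.mul_zero, Nat.add_zero, Nat.factorial_zero]
  rw [Nat.factorial_succ (2 * n)]
  have h1 := fne n
  have h2 := fne (2 * n)
  have h3 := fne (3 * n)
  have g1 : 2 * (n : ℚ) + 1 ≠ 0 := by positivity
  have e : (-1728 : ℚ) ^ n = (-1) ^ n * 64 ^ n * 27 ^ n := by rw [← mul_pow, ← mul_pow]; norm_num
  have e2 : (-1 : ℚ) ^ n * (-1) ^ n = 1 := by rw [← mul_pow]; norm_num
  rw [e]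
  have g2 : (-1 : ℚ) ^ n ≠ 0 := pow_ne_zero _ (by norm_num)
  push_cast
  have e5 : (-1 : ℚ) ^ (n * 2) = 1 := by rw [pow_mul, sq]; exact e2
  field_simp
  ring_nf
  simp only [e5]
  ring

theorem sum51 (n : ℕ) : ∑ k ∈ range n, (51 * (k : ℚ) + 7) * t51 k = ∑ l ∈ range n, Tf l (n - l) := by
  induction n with
  | zero => simp
  | succ n ih =>
    rw [sum_range_succ, ih, sum_range_succ' (fun l => Tf l (n + 1 - l))]
    have h1 : ∑ l ∈ range n, Tf (l + 1) (n + 1 - (l + 1)) = ∑ l ∈ range n, (Tf l (n - l) + (Ff (l + 1) (n - (l + 1)) - Ff l (n - l))) := by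
      apply sum_congr rfl
      intro l hl
      have hl' := mem_range.1 hl
      obtain ⟨e, rfl⟩ : ∃ e, n = l + e + 1 := ⟨n - l - 1, by omega⟩
      rw [show l + e + 1 + 1 - (l + 1) = e + 1 by omega, show l + e + 1 - l = e + 1 by omega, show l + e + 1 - (l + 1) = e by omega]
      linear_combination I1 l e
    rw [h1, sum_add_distrib, sum_range_sub (fun l => Ff l (n - l))]
    rw [Nat.sub_self, Nat.sub_zero, Nat.sub_zero, I2, Ff_diag]
    ring

/-- the factorial quotient for `(51k+7)` -/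
def W51 (a s : ℕ) : ℚ := fprod [6*a+9*s+7, 3*(a+s+1), 2*a+4*s+2, s+1, 2*a] /
  fprod [6*a+9*s+6, 2*(a+s+1)+1, a+2*s+1, 3*s+3, 2*a+s+1, a, a]

lemma Tf_W51 (a s : ℕ) : Tf a (s + 1) * (-1728) ^ (a + s) =
    ((a + s + 1 : ℕ) : ℚ) * (2 * ((a + s + 1 : ℕ) : ℚ) + 1) * ((a + s + 1).centralBinom : ℚ) * (((-27) ^ s : ℚ) / 2 * W51 a s) := by
  unfold Tf Hf W51 fprod
  simp only [List.map_cons, List.map_nil, List.prod_cons, List.prod_nil]
  rw [Nat.centralBinom_eq_two_mul_choose, Nat.cast_choose ℚ (show a + s + 1 ≤ 2 * (a + s + 1) by omega)]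
  rw [show 2 * (a + s + 1) - (a + s + 1) = a + s + 1 by omega, show a + (s + 1) = a + s + 1 by ring,
    show 2 * (a + 2 * (s + 1)) = 2 * a + 4 * s + 2 + 1 + 1 by ring, show a + 2 * (s + 1) = a + 2 * s + 1 + 1 by ring,
    show 2 * a + (s + 1) + 1 = 2 * a + s + 1 + 1 by ring, show 3 * (s + 1) = 3 * s + 3 by ring,
    show 6 * a + 9 * s + 7 = 6 * a + 9 * s + 6 + 1 by ring]
  rw [Nat.factorial_succ (2 * a + 4 * s + 2 + 1), Nat.factorial_succ (2 * a + 4 * s + 2), Nat.factorial_succ (a + 2 * s + 1),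
    Nat.factorial_succ (2 * a + s + 1), Nat.factorial_succ (6 * a + 9 * s + 6), Nat.factorial_succ (2 * (a + s + 1))]
  have h1 := fne (2 * a + 4 * s + 2)
  have h2 := fne (a + 2 * s + 1)
  have h3 := fne (2 * a + s + 1)
  have h4 := fne (6 * a + 9 * s + 6)
  have h5 := fne (2 * (a + s + 1))
  have h6 := fne (a + s + 1)
  have h7 := fne a
  have h8 := fne (3 * s + 3)
  have h9 := fne (3 * (a + s + 1))
  have h10 := fne (2 * a)
  have h11 := fne (s + 1)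
  have e : (-1728 : ℚ) ^ (a + s) = (-1) ^ a * (64 ^ (a + s) * 27 ^ a * (-27) ^ s) := by
    rw [pow_add, pow_add]
    have e1 : (-1728 : ℚ) ^ a = (-1) ^ a * (64 ^ a * 27 ^ a) := by rw [← mul_pow, ← mul_pow]; norm_num
    have e2 : (-1728 : ℚ) ^ s = 64 ^ s * (-27) ^ s := by rw [← mul_pow]; norm_num
    rw [e1, e2]; ring
  have e2 : (-1 : ℚ) ^ a * (-1) ^ a = 1 := by rw [← mul_pow]; norm_num
  rw [e, pow_succ (64 : ℚ) (a + s)]
  have g1 : (a : ℚ) + s + 1 ≠ 0 := by positivity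
  have g2 : 2 * (a : ℚ) + s + 2 ≠ 0 := by positivity
  have g3 : 2 * (a : ℚ) + 4 * s + 3 ≠ 0 := by positivity
  have g4 : 2 * ((a : ℚ) + s + 1) + 1 ≠ 0 := by positivity
  have g5 : 2 * (a : ℚ) + s + 1 + 1 ≠ 0 := by positivity
  have g6 : (a : ℚ) + 2 * s + 1 + 1 ≠ 0 := by positivity
  push_cast
  have e3 : 2 * (a : ℚ) + 4 * (s + 1) - 1 = 2 * a + 4 * s + 3 := by ring
  have e4 : 6 * (a : ℚ) + 9 * (s + 1) - 2 = 6 * a + 9 * s + 7 := by ring
  rw [e3, e4]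
  have e5 : (-1 : ℚ) ^ (a * 2) = 1 := by rw [pow_mul, sq]; exact e2
  field_simp
  ring_nf
  simp only [e5]
  ring

end

end Pool.Agent.X14.LG
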