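import Mathlib
import Pool.Agent.X14.LG5

set_option autoImplicit false

/-! Floor inequalities and integrality for `(51k+7)`. -/

namespace Pool.Agent.X14.LG

open Finset Pool.Agent.H434R2

lemma D51small (q x y : ℕ) (hq2 : 2 ≤ q) (h3 : q % 3 ≠ 0) (hx : x < q) (hy : y < q) :
    (2*x+2*y+3)/q + (x+2*y+1)/q + (3*y+3)/q + (2*x+y+1)/q ≤ (3*x+3*y+3)/q + (2*x+4*y+2)/q + (y+1)/q + (2*x)/q ∨
    ((2*x+2*y+3)/q + (x+2*y+1)/q + (3*y+3)/q + (2*x+y+1)/q ≤ (3*x+3*y+3)/q + (2*x+4*y+2)/q + (y+1)/q + (2*x)/q + 1 ∧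
      6*x+9*y+7 = 7*q) := by
  have hq : 0 < q := by omega
  obtain ⟨l1, h1⟩ : ∃ l, l = (2*x+2*y+3)/q := ⟨_, rfl⟩
  obtain ⟨l2, h2⟩ : ∃ l, l = (x+2*y+1)/q := ⟨_, rfl⟩
  obtain ⟨l3, h3'⟩ : ∃ l, l = (3*y+3)/q := ⟨_, rfl⟩
  obtain ⟨l4, h4⟩ : ∃ l, l = (2*x+y+1)/q := ⟨_, rfl⟩
  obtain ⟨r1, h5⟩ : ∃ l, l = (3*x+3*y+3)/q := ⟨_, rfl⟩
  obtain ⟨r2, h6⟩ : ∃ l, l = (2*x+4*y+2)/q := ⟨_, rfl⟩
  obtain ⟨r3, h7⟩ : ∃ l, l = (y+1)/q := ⟨_, rfl⟩
  obtain ⟨r4, h8⟩ : ∃ l, l = (2*x)/q := ⟨_, rfl⟩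
  rw [← h1, ← h2, ← h3', ← h4, ← h5, ← h6, ← h7, ← h8]
  have k1 := cell (X := 2*x+2*y+3) hq
  have k2 := cell (X := x+2*y+1) hq
  have k3 := cell (X := 3*y+3) hq
  have k4 := cell (X := 2*x+y+1) hq
  have k5 := cell (X := 3*x+3*y+3) hq
  have k6 := cell (X := 2*x+4*y+2) hq
  have k7 := cell (X := y+1) hq
  have k8 := cell (X := 2*x) hq
  rw [← h1] at k1; rw [← h2] at k2; rw [← h3'] at k3; rw [← h4] at k4; rw [← h5] at k5; rw [← h6] at k6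
  rw [← h7] at k7; rw [← h8] at k8
  clear h1 h2 h3' h4 h5 h6 h7 h8
  have b1 : l1 ≤ 3 := by
    by_contra h; have : 4 * q ≤ l1 * q := Nat.mul_le_mul_right _ (by omega); omega
  have b2 : l2 ≤ 2 := by
    by_contra h; have : 3 * q ≤ l2 * q := Nat.mul_le_mul_right _ (by omega); omega
  have b3 : l3 ≤ 3 := by
    by_contra h; have : 4 * q ≤ l3 * q := Nat.mul_le_mul_right _ (by omega); omega
  have b4 : l4 ≤ 2 := by
    by_contra h; have : 3 * q ≤ l4 * q := Nat.mul_le_mul_right _ (by omega); omega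
  have b5 : r1 ≤ 5 := by
    by_contra h; have : 6 * q ≤ r1 * q := Nat.mul_le_mul_right _ (by omega); omega
  have b6 : r2 ≤ 5 := by
    by_contra h; have : 6 * q ≤ r2 * q := Nat.mul_le_mul_right _ (by omega); omega
  have b7 : r3 ≤ 1 := by
    by_contra h; have : 2 * q ≤ r3 * q := Nat.mul_le_mul_right _ (by omega); omega
  have b8 : r4 ≤ 1 := by
    by_contra h; have : 2 * q ≤ r4 * q := Nat.mul_le_mul_right _ (by omega); omega
  obtain ⟨t, ht⟩ : ∃ t, q = 3 * t + 1 ∨ q = 3 * t + 2 := ⟨q / 3, by omega⟩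
  interval_cases r4 <;> interval_cases r3 <;> interval_cases l3 <;> (try omega) <;> interval_cases l2 <;> (try omega) <;>
    interval_cases l4 <;> (try omega) <;> interval_cases l1 <;> (try omega) <;> interval_cases r2 <;> (try omega) <;>
    interval_cases r1 <;> first
      | omega
      | (have h9 : 3*y+1 < 2*q := by omega
         rcases ht with ht | ht
         · have h10 : y = 2 * t := by omega
           subst h10
           omega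
         · omega)

lemma R51small (q x y : ℕ) (hq2 : 2 ≤ q) (hx : x < q) (hy : y < q) :
    (2*x+2*y+3)/q + (x+2*y+1)/q + (2*x+y+1)/q ≤ (3*x+3*y+3)/q + (2*x+4*y+2)/q + (2*x)/q := by
  have hq : 0 < q := by omega
  obtain ⟨l1, h1⟩ : ∃ l, l = (2*x+2*y+3)/q := ⟨_, rfl⟩
  obtain ⟨l2, h2⟩ : ∃ l, l = (x+2*y+1)/q := ⟨_, rfl⟩
  obtain ⟨l4, h4⟩ : ∃ l, l = (2*x+y+1)/q := ⟨_, rfl⟩
  obtain ⟨r1, h5⟩ : ∃ l, l = (3*x+3*y+3)/q := ⟨_, rfl⟩
  obtain ⟨r2, h6⟩ : ∃ l, l = (2*x+4*y+2)/q := ⟨_, rfl⟩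
  obtain ⟨r4, h8⟩ : ∃ l, l = (2*x)/q := ⟨_, rfl⟩
  rw [← h1, ← h2, ← h4, ← h5, ← h6, ← h8]
  have k1 := cell (X := 2*x+2*y+3) hq
  have k2 := cell (X := x+2*y+1) hq
  have k4 := cell (X := 2*x+y+1) hq
  have k5 := cell (X := 3*x+3*y+3) hq
  have k6 := cell (X := 2*x+4*y+2) hq
  have k8 := cell (X := 2*x) hq
  rw [← h1] at k1; rw [← h2] at k2; rw [← h4] at k4; rw [← h5] at k5; rw [← h6] at k6
  rw [← h8] at k8
  clear h1 h2 h4 h5 h6 h8
  have b1 : l1 ≤ 3 := by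
    by_contra h; have : 4 * q ≤ l1 * q := Nat.mul_le_mul_right _ (by omega); omega
  have b2 : l2 ≤ 2 := by
    by_contra h; have : 3 * q ≤ l2 * q := Nat.mul_le_mul_right _ (by omega); omega
  have b4 : l4 ≤ 2 := by
    by_contra h; have : 3 * q ≤ l4 * q := Nat.mul_le_mul_right _ (by omega); omega
  have b5 : r1 ≤ 5 := by
    by_contra h; have : 6 * q ≤ r1 * q := Nat.mul_le_mul_right _ (by omega); omega
  have b6 : r2 ≤ 5 := by
    by_contra h; have : 6 * q ≤ r2 * q := Nat.mul_le_mul_right _ (by omega); omega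
  have b8 : r4 ≤ 1 := by
    by_contra h; have : 2 * q ≤ r4 * q := Nat.mul_le_mul_right _ (by omega); omega
  interval_cases r4 <;> interval_cases l2 <;> (try omega) <;>
    interval_cases l4 <;> (try omega) <;> interval_cases l1 <;> (try omega) <;> interval_cases r2 <;> (try omega) <;>
    interval_cases r1 <;> omega

noncomputable section

lemma W51_PO (p : ℕ) [hp : Fact p.Prime] (h3 : p ≠ 3) (a s : ℕ) : PO p 0 (W51 a s) := by
  unfold W51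
  apply ratio_PO p _ _ 0 0 _ (Or.inl rfl)
  intro i hi
  have hq2 : 2 ≤ p ^ i := le_trans hp.out.two_le (Nat.le_self_pow (by omega) p)
  have hq3 : p ^ i % 3 ≠ 0 := by
    intro h
    have h1 : 3 ∣ p ^ i := Nat.dvd_of_mod_eq_zero h
    have h2 := (Nat.prime_three.dvd_of_dvd_pow h1)
    exact h3 ((Nat.prime_dvd_prime_iff_eq Nat.prime_three hp.out).1 h2).symm
  generalize p ^ i = q at hq2 hq3 ⊢
  have hq : 0 < q := by omega
  obtain ⟨A, x, hx, rfl⟩ : ∃ A x, x < q ∧ a = q * A + x := ⟨a / q, a % q, Nat.mod_lt _ hq, (Nat.div_add_mod a q).symm⟩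
  obtain ⟨B, y, hy, rfl⟩ : ∃ B y, y < q ∧ s = q * B + y := ⟨s / q, s % q, Nat.mod_lt _ hq, (Nat.div_add_mod s q).symm⟩
  have h := D51small q x y hq2 hq3 hx hy
  have e1 : 6*(q*A+x)+9*(q*B+y)+7 = q*(6*A+9*B) + (6*x+9*y+7) := by ring
  have e2 : 3*(q*A+x+(q*B+y)+1) = q*(3*A+3*B) + (3*x+3*y+3) := by ring
  have e3 : 2*(q*A+x)+4*(q*B+y)+2 = q*(2*A+4*B) + (2*x+4*y+2) := by ring
  have e4 : q*B+y+1 = q*B + (y+1) := by ring
  have e5 : 2*(q*A+x) = q*(2*A) + 2*x := by ring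
  have e6 : 6*(q*A+x)+9*(q*B+y)+6 = q*(6*A+9*B) + (6*x+9*y+6) := by ring
  have e7 : 2*(q*A+x+(q*B+y)+1)+1 = q*(2*A+2*B) + (2*x+2*y+3) := by ring
  have e8 : q*A+x+2*(q*B+y)+1 = q*(A+2*B) + (x+2*y+1) := by ring
  have e9 : 3*(q*B+y)+3 = q*(3*B) + (3*y+3) := by ring
  have e10 : 2*(q*A+x)+(q*B+y)+1 = q*(2*A+B) + (2*x+y+1) := by ring
  simp only [fl, List.map_cons, List.map_nil, List.sum_cons, List.sum_nil]
  rw [e1, e2, e3, e4, e6, e7, e8, e9, e10, e5]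
  rw [Nat.mul_add_div hq, Nat.mul_add_div hq, Nat.mul_add_div hq, Nat.mul_add_div hq, Nat.mul_add_div hq,
    Nat.mul_add_div hq, Nat.mul_add_div hq, Nat.mul_add_div hq, Nat.mul_add_div hq, Nat.mul_add_div hq,
    Nat.mul_add_div hq, Nat.div_eq_of_lt hx]
  have m1 : (6*x+9*y+6)/q ≤ (6*x+9*y+7)/q := Nat.div_le_div_right (by omega)
  rcases h with h | ⟨h, h'⟩
  · omega
  · have m2 : (6*x+9*y+7)/q = 7 := by rw [h']; exact Nat.mul_div_cancel _ hq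
    have m3 : (6*x+9*y+6)/q < 7 := by
      rw [Nat.div_lt_iff_lt_mul hq]; omega
    omega

/-- the 3-adic unit part of `(3n)!/n!` -/
lemma three_fact (n : ℕ) : haveI : Fact (Nat.Prime 3) := ⟨Nat.prime_three⟩
    PO 3 0 ((3 : ℚ) ^ n * ((n.factorial : ℚ) / ((3 * n).factorial : ℚ))) := by
  haveI : Fact (Nat.Prime 3) := ⟨Nat.prime_three⟩
  apply PO_of_val
  right
  have h1 : (3 : ℚ) ^ n ≠ 0 := by positivity
  have h2 : ((n.factorial : ℚ) / ((3 * n).factorial : ℚ)) ≠ 0 := div_ne_zero (fne _) (fne _)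
  have h3 : padicValRat 3 ((3 : ℚ) ^ n) = n := by
    have : (3 : ℚ) ^ n = ((3 ^ n : ℕ) : ℚ) := by push_cast; rfl
    rw [this, padicValRat.of_nat, padicValNat.prime_pow]
  rw [padicValRat.mul h1 h2, padicValRat.div (fne _) (fne _), h3, padicValRat.of_nat, padicValRat.of_nat,
    padicValNat_factorial_mul]
  push_cast
  linarith

/-- `27^s W51 a s` is divisible by 3 for `s > 0` -/
lemma W51_three (a s : ℕ) : haveI : Fact (Nat.Prime 3) := ⟨Nat.prime_three⟩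
    PO 3 0 ((3 : ℚ) ^ (s + 1) * W51 a s) := by
  haveI : Fact (Nat.Prime 3) := ⟨Nat.prime_three⟩
  have e : (3 : ℚ) ^ (s + 1) * W51 a s = ((6 * a + 9 * s + 7 : ℕ) : ℚ) *
      ((3 : ℚ) ^ (s + 1) * (((s + 1).factorial : ℚ) / ((3 * (s + 1)).factorial : ℚ))) *
      (fprod [3*(a+s+1), 2*a+4*s+2, 2*a] / fprod [2*(a+s+1)+1, a+2*s+1, 2*a+s+1, a, a]) := by
    unfold W51 fprod
    simp only [List.map_cons, List.map_nil, List.prod_cons, List.prod_nil]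
    rw [show 6 * a + 9 * s + 7 = 6 * a + 9 * s + 6 + 1 by ring, Nat.factorial_succ (6 * a + 9 * s + 6), show 3 * (s + 1) = 3 * s + 3 by ring]
    have h1 := fne (2 * a + 4 * s + 2)
    have h2 := fne (a + 2 * s + 1)
    have h3 := fne (2 * a + s + 1)
    have h4 := fne (6 * a + 9 * s + 6)
    have h5 := fne (2 * (a + s + 1) + 1)
    have h7 := fne a
    have h8 := fne (3 * s + 3)
    push_cast
    field_simp
  rw [e]
  refine ((PO.of_nat _).mul0 (three_fact (s + 1))).mul0 ?_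
  apply ratio_PO 3 _ _ 0 0 _ (Or.inl rfl)
  intro i hi
  have hq2 : 2 ≤ 3 ^ i := le_trans (by norm_num) (Nat.le_self_pow (by omega) 3)
  generalize 3 ^ i = q at hq2 ⊢
  have hq : 0 < q := by omega
  obtain ⟨A, x, hx, rfl⟩ : ∃ A x, x < q ∧ a = q * A + x := ⟨a / q, a % q, Nat.mod_lt _ hq, (Nat.div_add_mod a q).symm⟩
  obtain ⟨B, y, hy, rfl⟩ : ∃ B y, y < q ∧ s = q * B + y := ⟨s / q, s % q, Nat.mod_lt _ hq, (Nat.div_add_mod s q).symm⟩
  have h := R51small q x y hq2 hx hy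
  have e2 : 3*(q*A+x+(q*B+y)+1) = q*(3*A+3*B) + (3*x+3*y+3) := by ring
  have e3 : 2*(q*A+x)+4*(q*B+y)+2 = q*(2*A+4*B) + (2*x+4*y+2) := by ring
  have e5 : 2*(q*A+x) = q*(2*A) + 2*x := by ring
  have e7 : 2*(q*A+x+(q*B+y)+1)+1 = q*(2*A+2*B) + (2*x+2*y+3) := by ring
  have e8 : q*A+x+2*(q*B+y)+1 = q*(A+2*B) + (x+2*y+1) := by ring
  have e10 : 2*(q*A+x)+(q*B+y)+1 = q*(2*A+B) + (2*x+y+1) := by ring
  simp only [fl, List.map_cons, List.map_nil, List.sum_cons, List.sum_nil]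
  rw [e2, e3, e7, e8, e10, e5]
  rw [Nat.mul_add_div hq, Nat.mul_add_div hq, Nat.mul_add_div hq, Nat.mul_add_div hq, Nat.mul_add_div hq,
    Nat.mul_add_div hq, Nat.mul_add_div hq, Nat.div_eq_of_lt hx]
  omega

end

end Pool.Agent.X14.LG
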