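import Mathlib
import Pool.Agent.X14.LG6

set_option autoImplicit false

/-! Integrality of the normalised partial sums with `(51k+7)`. -/

namespace Pool.Agent.X14.LG

open Finset Pool.Agent.H434R2

noncomputable section

/-- normalised sum for `(51k+7)` -/
def a51 (n : ℕ) : ℚ := (∑ k ∈ range n, (51 * (k : ℚ) + 7) * ((2 * k).choose k : ℚ) ^ 2 * ((3 * k).choose k : ℚ) * (-1728) ^ (n - 1 - k)) /
  ((n : ℚ) * (2 * n + 1) * ((2 * n).choose n : ℚ))

lemma a51_num (r : ℕ) : ∑ k ∈ range (r + 1), (51 * (k : ℚ) + 7) * ((2 * k).choose k : ℚ) ^ 2 * ((3 * k).choose k : ℚ) * (-1728) ^ (r + 1 - 1 - k) =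
      (∑ n ∈ range (r + 1), (51 * (n : ℚ) + 7) * t51 n) * (-1728) ^ r := by
  rw [sum_mul]
  apply sum_congr rfl
  intro k hk
  have hk' := mem_range.1 hk
  obtain ⟨d, rfl⟩ : ∃ d, r = k + d := ⟨r - k, by omega⟩
  unfold t51
  rw [show k + d + 1 - 1 - k = d by omega, pow_add]
  have : (-1728 : ℚ) ^ k ≠ 0 := pow_ne_zero _ (by norm_num)
  field_simp

lemma a51_den (r : ℕ) : 0 < ((r + 1 : ℕ) : ℚ) * (2 * ((r + 1 : ℕ) : ℚ) + 1) * ((2 * (r + 1)).choose (r + 1) : ℚ) := by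
  have : (0 : ℚ) < ((2 * (r + 1)).choose (r + 1) : ℚ) := by exact_mod_cast Nat.choose_pos (by omega)
  positivity

lemma a51_eq (r : ℕ) : a51 (r + 1) = ∑ s ∈ range (r + 1), (-27) ^ s / 2 * W51 (r - s) s := by
  unfold a51
  rw [a51_num, sum51]
  have hc : ((2 * (r + 1)).choose (r + 1) : ℚ) = ((r + 1).centralBinom : ℚ) := by rw [Nat.centralBinom_eq_two_mul_choose]
  have hne := (a51_den r).ne'
  rw [div_eq_iff hne, sum_mul, sum_mul, ← sum_range_reflect]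
  apply sum_congr rfl
  intro s hs
  have hs' := mem_range.1 hs
  obtain ⟨a, rfl⟩ : ∃ a, r = a + s := ⟨r - s, by omega⟩
  rw [hc, show a + s + 1 - 1 - s = a by omega, show a + s + 1 - a = s + 1 by omega, show a + s - s = a by omega, Tf_W51]
  ring

lemma W51_zero (r : ℕ) : W51 r 0 = ((6 * r + 7 : ℕ) : ℚ) * ((2 * r).choose r : ℚ) * ((3 * r + 3).choose r : ℚ) / 3 := by
  rw [Nat.cast_choose ℚ (show r ≤ 2 * r by omega), Nat.cast_choose ℚ (show r ≤ 3 * r + 3 by omega)]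
  unfold W51 fprod
  simp only [List.map_cons, List.map_nil, List.prod_cons, List.prod_nil, Nat.add_zero, Nat.mul_zero, Nat.zero_add]
  rw [show 2 * r - r = r by omega, show 3 * r + 3 - r = 2 * (r + 1) + 1 by omega, show 3 * (r + 1) = 3 * r + 3 by ring,
    show 6 * r + 7 = 6 * r + 6 + 1 by ring, Nat.factorial_succ (6 * r + 6)]
  rw [show 2 * r + 2 = 2 * r + 1 + 1 by ring, Nat.factorial_succ (2 * r + 1), Nat.factorial_succ r]
  have h1 := fne r
  have h2 := fne (2 * r + 1)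
  have h3 := fne (2 * (r + 1) + 1)
  have h4 := fne (6 * r + 6)
  have f1 : (Nat.factorial 1 : ℚ) = 1 := by norm_num
  have f3 : (Nat.factorial 3 : ℚ) = 6 := by norm_num [Nat.factorial]
  rw [f1, f3]
  have g1 : (r : ℚ) + 1 ≠ 0 := by positivity
  push_cast
  field_simp
  ring

lemma a51_two (r : ℕ) (hr : 1 ≤ r) : haveI : Fact (Nat.Prime 2) := ⟨Nat.prime_two⟩
    PO 2 0 (a51 (r + 1)) := by
  haveI : Fact (Nat.Prime 2) := ⟨Nat.prime_two⟩
  have h := two_part (-1728) (by norm_num) r hr (fun j => (51 * (j : ℤ) + 7) * ((3 * j).choose j : ℤ))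
  have hc := Nat.succ_mul_centralBinom_succ r
  have hc2 := congrArg (Nat.cast : ℕ → ℚ) hc
  push_cast at hc2
  have h3 : (r.centralBinom : ℚ) ≠ 0 := by exact_mod_cast r.centralBinom_ne_zero
  have e : a51 (r + 1) = ((∑ j ∈ range (r + 1), ((-1728 : ℤ) : ℚ) ^ (r - j) * (((fun j : ℕ => (51 * (j : ℤ) + 7) * ((3 * j).choose j : ℤ)) j : ℤ) : ℚ) * (j.centralBinom : ℚ) ^ 2) /
      (2 * (r.centralBinom : ℚ))) * ((((2 * r + 1 : ℕ)) : ℚ)⁻¹ * (((2 * r + 3 : ℕ)) : ℚ)⁻¹) := by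
    unfold a51
    have hs : ∑ k ∈ range (r + 1), (51 * (k : ℚ) + 7) * ((2 * k).choose k : ℚ) ^ 2 * ((3 * k).choose k : ℚ) * (-1728) ^ (r + 1 - 1 - k) =
        ∑ j ∈ range (r + 1), ((-1728 : ℤ) : ℚ) ^ (r - j) * (((fun j : ℕ => (51 * (j : ℤ) + 7) * ((3 * j).choose j : ℤ)) j : ℤ) : ℚ) * (j.centralBinom : ℚ) ^ 2 := by
      apply sum_congr rfl
      intro k _
      rw [Nat.add_sub_cancel, Nat.centralBinom_eq_two_mul_choose]
      push_cast
      ring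
    rw [hs]
    have hd : ((r + 1 : ℕ) : ℚ) * (2 * ((r + 1 : ℕ) : ℚ) + 1) * ((2 * (r + 1)).choose (r + 1) : ℚ) =
        (2 * (r.centralBinom : ℚ)) * ((2 * r + 1) * (2 * r + 3)) := by
      rw [← Nat.centralBinom_eq_two_mul_choose]
      push_cast
      linear_combination (2 * (r : ℚ) + 3) * hc2
    rw [hd]
    push_cast
    rw [div_mul_eq_div_div, div_eq_mul_inv _ ((2 * (r : ℚ) + 1) * (2 * r + 3)), mul_inv]
  rw [e]
  exact h.mul0' ((PO.inv_nat (by omega)).mul0 (PO.inv_nat (by omega)))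

lemma half_PO {p : ℕ} [hp : Fact p.Prime] (h2 : p ≠ 2) : PO p 0 ((2 : ℚ)⁻¹) := by
  have h : ¬ p ∣ 2 := fun h => h2 ((Nat.prime_dvd_prime_iff_eq hp.out Nat.prime_two).1 h)
  have := PO.inv_nat h
  exact_mod_cast this

lemma a51_other {p : ℕ} [hp : Fact p.Prime] (h2 : p ≠ 2) (h3 : p ≠ 3) (r : ℕ) : PO p 0 (a51 (r + 1)) := by
  rw [a51_eq]
  apply PO.sum
  intro K _
  rw [div_eq_mul_inv]
  have e : (-27 : ℚ) ^ K = (((-27 : ℤ) ^ K : ℤ) : ℚ) := by push_cast; rfl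
  rw [e]
  exact ((PO.of_int _).mul0 (half_PO h2)).mul0 (W51_PO p h3 _ _)

lemma a51_tail (r : ℕ) : haveI : Fact (Nat.Prime 3) := ⟨Nat.prime_three⟩
    PO 3 0 (a51 (r + 1) - W51 r 0 / 2) := by
  haveI : Fact (Nat.Prime 3) := ⟨Nat.prime_three⟩
  rw [a51_eq, sum_range_succ']
  have e : ∑ s ∈ range r, (-27 : ℚ) ^ (s + 1) / 2 * W51 (r - (s + 1)) (s + 1) + (-27) ^ 0 / 2 * W51 (r - 0) 0 - W51 r 0 / 2 =
      ∑ s ∈ range r, (((-1) ^ (s + 1) * 3 ^ (2 * s + 1) : ℤ) : ℚ) * ((2 : ℚ)⁻¹ * ((3 : ℚ) ^ (s + 1 + 1) * W51 (r - (s + 1)) (s + 1))) := by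
    rw [Nat.sub_zero]
    have : ∑ s ∈ range r, (-27 : ℚ) ^ (s + 1) / 2 * W51 (r - (s + 1)) (s + 1) =
        ∑ s ∈ range r, (((-1) ^ (s + 1) * 3 ^ (2 * s + 1) : ℤ) : ℚ) * ((2 : ℚ)⁻¹ * ((3 : ℚ) ^ (s + 1 + 1) * W51 (r - (s + 1)) (s + 1))) := by
      apply sum_congr rfl
      intro s _
      have e1 : (-27 : ℚ) ^ (s + 1) = (-1) ^ (s + 1) * (3 ^ (2 * s + 1) * 3 ^ (s + 1 + 1)) := by
        rw [← pow_add, show 2 * s + 1 + (s + 1 + 1) = 3 * (s + 1) by ring, pow_mul, ← mul_pow]; norm_num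
      rw [e1]
      push_cast
      ring
    rw [this]; ring
  rw [e]
  apply PO.sum
  intro s _
  exact (PO.of_int _).mul0 ((half_PO (by norm_num)).mul0 (W51_three _ _))

lemma a51_three (r : ℕ) (h : 3 ∣ (3 * r + 3).choose r) : haveI : Fact (Nat.Prime 3) := ⟨Nat.prime_three⟩
    PO 3 0 (a51 (r + 1)) := by
  haveI : Fact (Nat.Prime 3) := ⟨Nat.prime_three⟩
  obtain ⟨w, hw⟩ := h
  have h1 := a51_tail r
  have h2 : PO 3 0 (W51 r 0 / 2) := by
    rw [W51_zero, hw]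
    have e : ((6 * r + 7 : ℕ) : ℚ) * ((2 * r).choose r : ℚ) * (((3 * w : ℕ)) : ℚ) / 3 / 2 = (((6 * r + 7) * (2 * r).choose r * w : ℕ) : ℚ) * (2 : ℚ)⁻¹ := by
      push_cast; ring
    rw [e]
    exact (PO.of_nat _).mul0 (half_PO (by norm_num))
  have e : a51 (r + 1) = (a51 (r + 1) - W51 r 0 / 2) + W51 r 0 / 2 := by ring
  rw [e]
  exact h1.add h2

theorem a51_int (r : ℕ) (hr : 1 ≤ r) (h : ¬ ∃ m, 2 * r + 3 = 3 ^ m) : ∃ z : ℤ, a51 (r + 1) = z := by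
  apply int_of_PO
  intro p hp
  haveI : Fact p.Prime := ⟨hp⟩
  by_cases h2 : p = 2
  · subst h2; exact a51_two r hr
  · by_cases h3 : p = 3
    · subst h3
      rcases T3 r with h' | h'
      · exact a51_three r h'
      · exact absurd h' h
    · exact a51_other h2 h3 r

theorem a51_special (r : ℕ) (hr : 1 ≤ r) (h : ∃ m, 2 * r + 3 = 3 ^ m) : ∃ z : ℤ, 3 * a51 (r + 1) = z ∧ ¬ (3 : ℤ) ∣ z := by
  obtain ⟨m, hm⟩ := h
  obtain ⟨t1, t2, t3⟩ := T3' hm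
  haveI f3 : Fact (Nat.Prime 3) := ⟨Nat.prime_three⟩
  refine special (x := a51 (r + 1)) (c := 3 * (W51 r 0 / 2)) ((6 * r + 7) * (2 * r).choose r * (3 * r + 3).choose r) ?_ 2 (by norm_num) ?_ ?_ ?_
  · intro hd
    rcases (Nat.Prime.dvd_mul Nat.prime_three).1 hd with h | h
    · rcases (Nat.Prime.dvd_mul Nat.prime_three).1 h with h | h
      · omega
      · exact t2 h
    · exact t1 h
  · rw [W51_zero]; push_cast; ring
  · have := a51_tail r
    have e : a51 (r + 1) - 3 * (W51 r 0 / 2) / 3 = a51 (r + 1) - W51 r 0 / 2 := by ring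
    rw [e]; exact this
  · intro p hp hp3
    haveI : Fact p.Prime := ⟨hp⟩
    by_cases h2 : p = 2
    · subst h2; exact a51_two r hr
    · exact a51_other h2 hp3 r

/-! the sign -/

def u51 (k : ℕ) : ℚ := (51 * (k : ℚ) + 7) * ((2 * k).choose k : ℚ) ^ 2 * ((3 * k).choose k : ℚ) / 1728 ^ k

lemma u51_pos (k : ℕ) : 0 < u51 k := by
  unfold u51
  have h1 : (0 : ℚ) < ((2 * k).choose k : ℚ) := by exact_mod_cast Nat.choose_pos (by omega)
  have h2 : (0 : ℚ) < ((3 * k).choose k : ℚ) := by exact_mod_cast Nat.choose_pos (by omega)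
  positivity

lemma u51_succ (k : ℕ) : u51 (k + 1) ≤ u51 k / 8 := by
  have e : u51 (k + 1) = u51 k * ((51 * k + 58) * (2 * k + 1) * (3 * k + 1) * (3 * k + 2) / (288 * (51 * k + 7) * (k + 1) ^ 3)) := by
    unfold u51
    rw [Nat.cast_choose ℚ (show k ≤ 2 * k by omega), Nat.cast_choose ℚ (show k ≤ 3 * k by omega),
      Nat.cast_choose ℚ (show k + 1 ≤ 2 * (k + 1) by omega), Nat.cast_choose ℚ (show k + 1 ≤ 3 * (k + 1) by omega)]
    rw [show 2 * k - k = k by omega, show 3 * k - k = 2 * k by omega, show 2 * (k + 1) - (k + 1) = k + 1 by omega,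
      show 3 * (k + 1) - (k + 1) = 2 * k + 1 + 1 by omega, show 2 * (k + 1) = 2 * k + 1 + 1 by ring, show 3 * (k + 1) = 3 * k + 1 + 1 + 1 by ring]
    rw [Nat.factorial_succ (2 * k + 1), Nat.factorial_succ (2 * k), Nat.factorial_succ (3 * k + 1 + 1), Nat.factorial_succ (3 * k + 1),
      Nat.factorial_succ (3 * k), Nat.factorial_succ k]
    have h1 := fne k
    have h2 := fne (2 * k)
    have h3 := fne (3 * k)
    have g1 : (k : ℚ) + 1 ≠ 0 := by positivity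
    have g2 : 51 * (k : ℚ) + 7 ≠ 0 := by positivity
    have g3 : 2 * (k : ℚ) + 1 ≠ 0 := by positivity
    push_cast
    have g4 : 2 * (k : ℚ) + 1 + 1 ≠ 0 := by positivity
    rw [pow_succ (1728 : ℚ) k]
    field_simp
    ring
  rw [e, div_eq_mul_inv (u51 k) 8]
  apply mul_le_mul_of_nonneg_left _ (u51_pos k).le
  have hk : (0 : ℚ) ≤ k := by positivity
  rw [div_le_iff₀ (by positivity)]
  have : (8 : ℚ)⁻¹ * (288 * (51 * k + 7) * (k + 1) ^ 3) - (51 * k + 58) * (2 * k + 1) * (3 * k + 1) * (3 * k + 2) =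
      918 * k ^ 4 + 3339 * k ^ 3 + 4035 * k ^ 2 + 1736 * k + 136 := by ring
  have h2 : (0 : ℚ) ≤ 918 * k ^ 4 + 3339 * k ^ 3 + 4035 * k ^ 2 + 1736 * k + 136 := by positivity
  linarith

lemma u51_le (k : ℕ) : u51 k ≤ 7 / 8 ^ k := by
  induction k with
  | zero => simp [u51]
  | succ k ih =>
    have := u51_succ k
    rw [pow_succ, ← div_div]
    linarith

lemma S51_lower (n : ℕ) : 6 + 1 / 8 ^ n ≤ ∑ k ∈ range (n + 1), (-1) ^ k * u51 k := by
  induction n with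
  | zero => simp [u51]; norm_num
  | succ n ih =>
    rw [sum_range_succ]
    have h1 := u51_le (n + 1)
    have h2 := u51_pos (n + 1)
    have h3 : -u51 (n + 1) ≤ (-1) ^ (n + 1) * u51 (n + 1) := by
      rcases neg_one_pow_eq_or ℚ (n + 1) with h | h
      · rw [h]; linarith
      · rw [h]; linarith
    have h4 : (1 : ℚ) / 8 ^ n = 8 / 8 ^ (n + 1) := by rw [pow_succ]; field_simp
    have h5 : (7 : ℚ) / 8 ^ (n + 1) = 8 / 8 ^ (n + 1) - 1 / 8 ^ (n + 1) := by ring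
    linarith

theorem a51_sign (r : ℕ) : 0 < (-1) ^ r * a51 (r + 1) := by
  unfold a51
  have e : (-1 : ℚ) ^ r * ((∑ k ∈ range (r + 1), (51 * (k : ℚ) + 7) * ((2 * k).choose k : ℚ) ^ 2 * ((3 * k).choose k : ℚ) * (-1728) ^ (r + 1 - 1 - k)) /
      (((r + 1 : ℕ) : ℚ) * (2 * ((r + 1 : ℕ) : ℚ) + 1) * ((2 * (r + 1)).choose (r + 1) : ℚ))) =
      1728 ^ r * (∑ k ∈ range (r + 1), (-1) ^ k * u51 k) / (((r + 1 : ℕ) : ℚ) * (2 * ((r + 1 : ℕ) : ℚ) + 1) * ((2 * (r + 1)).choose (r + 1) : ℚ)) := by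
    rw [← mul_div_assoc]
    congr 1
    rw [mul_sum, mul_sum]
    apply sum_congr rfl
    intro k hk
    have hk' := mem_range.1 hk
    obtain ⟨d, rfl⟩ : ∃ d, r = k + d := ⟨r - k, by omega⟩
    rw [show k + d + 1 - 1 - k = d by omega]
    unfold u51
    have e1 : (-1728 : ℚ) ^ d = (-1) ^ d * 1728 ^ d := by rw [← mul_pow]; norm_num
    have e2 : (-1 : ℚ) ^ d * (-1) ^ d = 1 := by rw [← mul_pow]; norm_num
    have h1728 : (1728 : ℚ) ^ k ≠ 0 := by positivity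
    rw [e1, pow_add, pow_add]
    have e5 : (-1 : ℚ) ^ (d * 2) = 1 := by rw [pow_mul, sq]; exact e2
    field_simp
    ring_nf
    simp only [e5, one_mul, mul_one]
  rw [e]
  have h1 := S51_lower r
  have h2 : (0 : ℚ) < 1 / 8 ^ r := by positivity
  have h3 : 0 < ∑ k ∈ range (r + 1), (-1) ^ k * u51 k := by linarith
  exact div_pos (mul_pos (by positivity) h3) (a51_den r)

end

end Pool.Agent.X14.LG
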