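import Mathlib
import Pool.Agent.X14.LG7

set_option autoImplicit false

/-! Half-integer Pochhammer symbols with integer index, and the two closed forms for `(28k+3)`. -/

namespace Pool.Agent.X14.LG

open Finset Pool.Agent.H434R2

noncomputable section

/-- `(1/2)_n` for natural `n` -/
def pn (n : ℕ) : ℚ := ∏ i ∈ range n, ((i : ℚ) + 1 / 2)

/-- `(1/2)_m` for integer `m` -/
def hp : ℤ → ℚ
  | Int.ofNat n => pn n
  | Int.negSucc n => (-1) ^ (n + 1) / pn (n + 1)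

lemma pn_succ (n : ℕ) : pn (n + 1) = pn n * ((n : ℚ) + 1 / 2) := prod_range_succ _ _

lemma pn_pos (n : ℕ) : 0 < pn n := prod_pos (fun i _ => by positivity)

lemma hp_nat (n : ℕ) : hp (n : ℤ) = pn n := rfl

lemma hp_neg (n : ℕ) : hp (-(n : ℤ)) = (-1) ^ n / pn n := by
  rcases n with _ | n
  · simp [hp_nat, pn]
    have : hp 0 = pn 0 := rfl
    rw [this]; simp [pn]
  · rfl

lemma hp_succ (m : ℤ) : hp (m + 1) = hp m * ((m : ℚ) + 1 / 2) := by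
  rcases lt_or_ge m 0 with h | h
  · obtain ⟨n, rfl⟩ : ∃ n : ℕ, m = -((n + 1 : ℕ) : ℤ) := ⟨(-m - 1).toNat, by omega⟩
    have e : -((n + 1 : ℕ) : ℤ) + 1 = -(n : ℤ) := by push_cast; ring
    rw [e, hp_neg, hp_neg, pn_succ]
    have h1 := (pn_pos n).ne'
    have h2 : (n : ℚ) + 1 / 2 ≠ 0 := by positivity
    push_cast
    field_simp
    ring
  · obtain ⟨n, rfl⟩ : ∃ n : ℕ, m = (n : ℤ) := ⟨m.toNat, by omega⟩
    have e : (n : ℤ) + 1 = ((n + 1 : ℕ) : ℤ) := by push_cast; rfl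
    rw [e, hp_nat, hp_nat, pn_succ]
    push_cast; ring

/-- `1/m!` for integer `m` -/
def rf : ℤ → ℚ
  | Int.ofNat n => 1 / (n.factorial : ℚ)
  | Int.negSucc _ => 0

lemma rf_nat (n : ℕ) : rf (n : ℤ) = 1 / (n.factorial : ℚ) := rfl

lemma rf_neg {m : ℤ} (h : m < 0) : rf m = 0 := by
  obtain ⟨n, rfl⟩ : ∃ n : ℕ, m = Int.negSucc n := ⟨(-m - 1).toNat, by omega⟩
  rfl

lemma rf_succ (m : ℤ) : rf m = ((m : ℚ) + 1) * rf (m + 1) := by
  rcases lt_or_ge m 0 with h | h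
  · rw [rf_neg h]
    rcases lt_or_ge (m + 1) 0 with h1 | h1
    · rw [rf_neg h1]; ring
    · have : m = -1 := by omega
      subst this
      push_cast; ring
  · obtain ⟨n, rfl⟩ : ∃ n : ℕ, m = (n : ℤ) := ⟨m.toNat, by omega⟩
    have e : (n : ℤ) + 1 = ((n + 1 : ℕ) : ℤ) := by push_cast; rfl
    rw [e, rf_nat, rf_nat, Nat.factorial_succ]
    have h1 := fne n
    have h2 : (n : ℚ) + 1 ≠ 0 := by positivity
    push_cast
    field_simp

/-- coefficient function, first factor -/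
def F28 (n : ℕ) (b : ℤ) : ℚ := ((28 * n + 3 + 4 * b) * (2 * n + 1 + b) + b) *
  (hp (2 * n + b) * hp (n + b) * hp (n - b) * rf (2 * n + b + 1) / (n.factorial : ℚ) ^ 2 * (-1 / 48) ^ n * (-3 / 4) ^ b)

def Om (n : ℕ) (b : ℤ) : ℚ := 48 * n ^ 2 *
  (hp (2 * n + b) * hp (n + b) * hp (n - b - 1) * rf (2 * n + b) / (n.factorial : ℚ) ^ 2 * (-1 / 48) ^ n * (-3 / 4) ^ b)

def D28 (n : ℕ) (b : ℤ) : ℚ := 32 / 9 * (2 * (2 * n + b) - 1) *
  (hp (2 * n + b) * hp (n + b - 1) * hp (n - b) * rf (2 * n + b - 1) / (n.factorial : ℚ) ^ 2 * (-1 / 48) ^ n * (-3 / 4) ^ b)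

lemma Om_zero (b : ℤ) : Om 0 b = 0 := by unfold Om; simp

lemma zp1 (b : ℤ) : ((-3 / 4 : ℚ)) ^ (b + 1) = (-3 / 4) ^ b * (-3 / 4) := zpow_add_one₀ (by norm_num) b

lemma F28_a (n : ℕ) (b : ℤ) : F28 n b = ((28 * n + 3 + 4 * b) * (2 * n + 1 + b) + b) * ((n - b - 1 / 2) * (2 * n + b + 2)) *
    (hp (2 * n + b) * hp (n + b) * hp (n - b - 1) * rf (2 * n + b + 2) / (n.factorial : ℚ) ^ 2 * (-1 / 48) ^ n * (-3 / 4) ^ b) := by
  unfold F28
  have e1 : hp ((n : ℤ) - b) = hp (n - b - 1) * (((n - b - 1 : ℤ) : ℚ) + 1 / 2) := by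
    rw [← hp_succ]; congr 1; ring
  have e2 : rf (2 * (n : ℤ) + b + 1) = (((2 * n + b + 1 : ℤ) : ℚ) + 1) * rf (2 * n + b + 2) := by
    rw [rf_succ]; congr 2; ring
  rw [e1, e2]
  push_cast
  ring

lemma F28_b (n : ℕ) (b : ℤ) : F28 n (b + 1) = ((28 * n + 7 + 4 * b) * (2 * n + 2 + b) + b + 1) * (-3 / 4 * (2 * n + b + 1 / 2) * (n + b + 1 / 2)) *
    (hp (2 * n + b) * hp (n + b) * hp (n - b - 1) * rf (2 * n + b + 2) / (n.factorial : ℚ) ^ 2 * (-1 / 48) ^ n * (-3 / 4) ^ b) := by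
  unfold F28
  have e1 : hp (2 * (n : ℤ) + (b + 1)) = hp (2 * n + b) * (((2 * n + b : ℤ) : ℚ) + 1 / 2) := by
    rw [← hp_succ]; congr 1; ring
  have e2 : hp ((n : ℤ) + (b + 1)) = hp (n + b) * (((n + b : ℤ) : ℚ) + 1 / 2) := by
    rw [← hp_succ]; congr 1; ring
  have e3 : (n : ℤ) - (b + 1) = n - b - 1 := by ring
  have e4 : 2 * (n : ℤ) + (b + 1) + 1 = 2 * n + b + 2 := by ring
  rw [e1, e2, e3, e4, zp1]
  push_cast
  ring

lemma Om_a (n : ℕ) (b : ℤ) : Om n b = 48 * n ^ 2 * ((2 * n + b + 1) * (2 * n + b + 2)) *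
    (hp (2 * n + b) * hp (n + b) * hp (n - b - 1) * rf (2 * n + b + 2) / (n.factorial : ℚ) ^ 2 * (-1 / 48) ^ n * (-3 / 4) ^ b) := by
  unfold Om
  have e2 : rf (2 * (n : ℤ) + b + 1) = (((2 * n + b + 1 : ℤ) : ℚ) + 1) * rf (2 * n + b + 2) := by
    rw [rf_succ]; congr 2; ring
  rw [rf_succ (2 * (n : ℤ) + b), e2]
  push_cast
  ring

lemma Om_b (n : ℕ) (b : ℤ) : Om (n + 1) b = -((2 * n + b + 1 / 2) * (2 * n + b + 3 / 2) * (n + b + 1 / 2) * (n - b - 1 / 2)) *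
    (hp (2 * n + b) * hp (n + b) * hp (n - b - 1) * rf (2 * n + b + 2) / (n.factorial : ℚ) ^ 2 * (-1 / 48) ^ n * (-3 / 4) ^ b) := by
  unfold Om
  have e1 : hp (2 * ((n + 1 : ℕ) : ℤ) + b) = hp (2 * n + b) * (((2 * n + b : ℤ) : ℚ) + 1 / 2) * (((2 * n + b + 1 : ℤ) : ℚ) + 1 / 2) := by
    rw [← hp_succ, ← hp_succ]; congr 1; push_cast; ring
  have e2 : hp (((n + 1 : ℕ) : ℤ) + b) = hp (n + b) * (((n + b : ℤ) : ℚ) + 1 / 2) := by
    rw [← hp_succ]; congr 1; push_cast; ring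
  have e3 : hp (((n + 1 : ℕ) : ℤ) - b - 1) = hp (n - b - 1) * (((n - b - 1 : ℤ) : ℚ) + 1 / 2) := by
    rw [← hp_succ]; congr 1; push_cast; ring
  have e4 : 2 * ((n + 1 : ℕ) : ℤ) + b = 2 * n + b + 2 := by push_cast; ring
  rw [e1, e2, e3, e4, Nat.factorial_succ, pow_succ (-1 / 48 : ℚ) n]
  have h1 := fne n
  have h2 : (n : ℚ) + 1 ≠ 0 := by positivity
  push_cast
  field_simp
  ring

/-- the closedness relation -/
lemma clo (n : ℕ) (b : ℤ) : Om (n + 1) b - Om n b = F28 n (b + 1) - F28 n b := by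
  rw [Om_b, Om_a n b, F28_b, F28_a n b]
  ring

lemma D28_eq (n : ℕ) (b : ℤ) : D28 n b = F28 n b - Om (n + 1) (b - 1) - Om (n + 1) (b - 2) := by
  unfold D28 F28 Om
  have e1 : hp (2 * ((n + 1 : ℕ) : ℤ) + (b - 1)) = hp (2 * n + b) * (((2 * n + b : ℤ) : ℚ) + 1 / 2) := by
    rw [← hp_succ]; congr 1; push_cast; ring
  have e2 : hp (((n + 1 : ℕ) : ℤ) + (b - 1)) = hp (n + b - 1) * (((n + b - 1 : ℤ) : ℚ) + 1 / 2) := by
    rw [← hp_succ]; congr 1; push_cast; ring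
  have e2' : hp ((n : ℤ) + b) = hp (n + b - 1) * (((n + b - 1 : ℤ) : ℚ) + 1 / 2) := by
    rw [← hp_succ]; congr 1; ring
  have e3 : hp (((n + 1 : ℕ) : ℤ) - (b - 1) - 1) = hp (n - b) * (((n - b : ℤ) : ℚ) + 1 / 2) := by
    rw [← hp_succ]; congr 1; push_cast; ring
  have e4 : hp (((n + 1 : ℕ) : ℤ) - (b - 2) - 1) = hp (n - b) * (((n - b : ℤ) : ℚ) + 1 / 2) * (((n - b + 1 : ℤ) : ℚ) + 1 / 2) := by
    rw [← hp_succ, ← hp_succ]; congr 1; push_cast; ring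
  have e5 : 2 * ((n + 1 : ℕ) : ℤ) + (b - 1) = 2 * n + b + 1 := by push_cast; ring
  have e6 : 2 * ((n + 1 : ℕ) : ℤ) + (b - 2) = 2 * n + b := by push_cast; ring
  have e7 : ((n + 1 : ℕ) : ℤ) + (b - 2) = n + b - 1 := by push_cast; ring
  have e8 : rf (2 * (n : ℤ) + b) = (((2 * n + b : ℤ) : ℚ) + 1) * rf (2 * n + b + 1) := by
    rw [rf_succ]
  have e9 : rf (2 * (n : ℤ) + b - 1) = (((2 * n + b - 1 : ℤ) : ℚ) + 1) * rf (2 * n + b) := by
    rw [rf_succ]; congr 2; ring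
  have z1 : ((-3 / 4 : ℚ)) ^ (b - 1) = (-3 / 4) ^ b * (-4 / 3) := by
    rw [zpow_sub_one₀ (by norm_num)]; norm_num
  have z2 : ((-3 / 4 : ℚ)) ^ (b - 2) = (-3 / 4) ^ b * (16 / 9) := by
    rw [show b - 2 = b - 1 - 1 by ring, zpow_sub_one₀ (by norm_num), z1]; ring
  rw [e1, e2, e3, e4, e6, e7, e5, e9, e8, e2', z1, z2, Nat.factorial_succ, pow_succ (-1 / 48 : ℚ) n]
  have h1 := fne n
  have h2 : (n : ℚ) + 1 ≠ 0 := by positivity
  push_cast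
  field_simp
  ring

/-- first closed form -/
theorem path1 (N : ℕ) : ∑ n ∈ range N, F28 n 0 = ∑ j ∈ range N, D28 j (2 * N - 2 * j) := by
  induction N with
  | zero => simp
  | succ N ih =>
    rw [sum_range_succ, ih, sum_range_succ]
    have key : ∀ j : ℕ, D28 j (2 * ((N + 1 : ℕ) : ℤ) - 2 * j) = D28 j (2 * N - 2 * j) +
        ((Om (j + 1) (2 * N - 2 * ((j + 1 : ℕ) : ℤ)) + Om (j + 1) (2 * N - 2 * ((j + 1 : ℕ) : ℤ) + 1)) - (Om j (2 * N - 2 * (j : ℤ)) + Om j (2 * N - 2 * (j : ℤ) + 1))) := by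
      intro j
      have a1 := clo j (2 * N - 2 * j)
      have a2 := clo j (2 * N - 2 * j + 1)
      have a3 := D28_eq j (2 * N - 2 * j)
      have a4 := D28_eq j (2 * ((N + 1 : ℕ) : ℤ) - 2 * j)
      have e1 : 2 * ((N + 1 : ℕ) : ℤ) - 2 * j - 1 = 2 * N - 2 * j + 1 := by push_cast; ring
      have e2 : 2 * ((N + 1 : ℕ) : ℤ) - 2 * j - 2 = 2 * N - 2 * j := by push_cast; ring
      have e3 : 2 * (N : ℤ) - 2 * ((j + 1 : ℕ) : ℤ) = 2 * N - 2 * j - 2 := by push_cast; ring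
      have e4 : 2 * (N : ℤ) - 2 * j - 2 + 1 = 2 * N - 2 * j - 1 := by ring
      have e5 : 2 * ((N + 1 : ℕ) : ℤ) - 2 * j = 2 * N - 2 * j + 1 + 1 := by push_cast; ring
      rw [e1, e2] at a4
      rw [e3, e4]
      rw [e5] at a4 ⊢
      linarith
    rw [sum_congr rfl (fun j _ => key j), sum_add_distrib,
      sum_range_sub (fun j : ℕ => Om j (2 * N - 2 * (j : ℤ)) + Om j (2 * N - 2 * (j : ℤ) + 1))]
    have b1 := clo N 0
    have b2 := clo N 1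
    have b3 := D28_eq N (2 * ((N + 1 : ℕ) : ℤ) - 2 * N)
    have f1 : 2 * ((N + 1 : ℕ) : ℤ) - 2 * N = 2 := by push_cast; ring
    have f2 : 2 * (N : ℤ) - 2 * N = 0 := by ring
    rw [f1] at b3
    rw [f1, f2, Om_zero, Om_zero]
    norm_num at b1 b2 b3 ⊢
    linarith

/-- second closed form -/
theorem path2 (N : ℕ) : ∑ n ∈ range N, F28 n 0 = ∑ k ∈ range (2 * N), Om N (-((k : ℤ) + 1)) := by
  induction N with
  | zero => simp
  | succ N ih =>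
    rw [sum_range_succ, ih]
    have h0 : ∀ b : ℤ, 2 * (N : ℤ) + b < 0 → Om N b = 0 := by
      intro b hb
      unfold Om; rw [rf_neg hb]; ring
    have e1 : ∑ k ∈ range (2 * N), Om N (-((k : ℤ) + 1)) = ∑ k ∈ range (2 * (N + 1)), Om N (-((k : ℤ) + 1)) := by
      rw [show 2 * (N + 1) = 2 * N + 1 + 1 by ring, sum_range_succ, sum_range_succ, h0, h0]
      · ring
      · push_cast; omega
      · push_cast; omega
    have e2 : ∑ k ∈ range (2 * (N + 1)), Om (N + 1) (-((k : ℤ) + 1)) - ∑ k ∈ range (2 * (N + 1)), Om N (-((k : ℤ) + 1)) = F28 N 0 := by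
      rw [← sum_sub_distrib]
      have : ∀ k : ℕ, Om (N + 1) (-((k : ℤ) + 1)) - Om N (-((k : ℤ) + 1)) = F28 N (-(k : ℤ)) - F28 N (-((k + 1 : ℕ) : ℤ)) := by
        intro k
        rw [clo]
        have g1 : -((k : ℤ) + 1) + 1 = -(k : ℤ) := by ring
        have g2 : -((k : ℤ) + 1) = -((k + 1 : ℕ) : ℤ) := by push_cast; ring
        rw [g1, g2]
      rw [sum_congr rfl (fun k _ => this k), sum_range_sub' (fun k : ℕ => F28 N (-(k : ℤ)))]
      have h3 : F28 N (-((2 * (N + 1) : ℕ) : ℤ)) = 0 := by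
        unfold F28
        rw [rf_neg (m := 2 * (N : ℤ) + -((2 * (N + 1) : ℕ) : ℤ) + 1) (by push_cast; omega)]
        ring
      rw [h3]
      simp
    rw [e1]
    linarith

end

end Pool.Agent.X14.LG
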