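import Mathlib
import Pool.Agent.X14.LG8

set_option autoImplicit false

/-! Valuations of half-integer Pochhammer symbols and floor inequalities for `(28k+3)`. -/

namespace Pool.Agent.X14.LG

open Finset Pool.Agent.H434R2

noncomputable section

lemma pn_eq (n : ℕ) : pn n = ((2 * n).factorial : ℚ) / (4 ^ n * (n.factorial : ℚ)) := by
  induction n with
  | zero => simp [pn]
  | succ n ih =>
    rw [pn_succ, ih, show 2 * (n + 1) = 2 * n + 1 + 1 by ring, Nat.factorial_succ (2 * n + 1), Nat.factorial_succ (2 * n),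
      Nat.factorial_succ n, pow_succ (4 : ℚ) n]
    have h1 := fne n
    have h2 : (n : ℚ) + 1 ≠ 0 := by positivity
    push_cast
    field_simp
    ring

lemma hp_ne (m : ℤ) : hp m ≠ 0 := by
  rcases lt_or_ge m 0 with h | h
  · obtain ⟨n, rfl⟩ : ∃ n : ℕ, m = -(n : ℤ) := ⟨(-m).toNat, by omega⟩
    rw [hp_neg]
    exact div_ne_zero (pow_ne_zero _ (by norm_num)) (pn_pos n).ne'
  · obtain ⟨n, rfl⟩ : ∃ n : ℕ, m = (n : ℤ) := ⟨m.toNat, by omega⟩
    rw [hp_nat]; exact (pn_pos n).ne'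

lemma pn_val (p : ℕ) [hpp : Fact p.Prime] (h2 : p ≠ 2) (n b : ℕ) (hb : Nat.log p (2 * n) < b) :
    padicValRat p (pn n) = ∑ i ∈ Ico 1 b, ((2 * (n : ℤ)) / ((p : ℤ) ^ i) - (n : ℤ) / ((p : ℤ) ^ i)) := by
  have h4 : padicValRat p ((4 : ℚ) ^ n) = 0 := by
    have e : (4 : ℚ) ^ n = ((4 ^ n : ℕ) : ℚ) := by push_cast; rfl
    rw [e, padicValRat.of_nat]
    have : ¬ p ∣ 4 ^ n := by
      intro h
      have h3 := hpp.out.dvd_of_dvd_pow h
      have h5 : p ∣ 2 ^ 2 := h3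
      exact h2 ((Nat.prime_dvd_prime_iff_eq hpp.out Nat.prime_two).1 (hpp.out.dvd_of_dvd_pow h5))
    rw [padicValNat.eq_zero_of_not_dvd this]; rfl
  have hb2 : Nat.log p n < b := lt_of_le_of_lt (Nat.log_mono_right (by omega)) hb
  rw [pn_eq, padicValRat.div (fne _) (mul_ne_zero (by positivity) (fne _)), padicValRat.mul (by positivity) (fne _), h4,
    padicValRat.of_nat, padicValRat.of_nat, padicValNat_factorial hb, padicValNat_factorial hb2, sum_sub_distrib]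
  push_cast
  ring

lemma zdiv {q X t : ℤ} (hq : 0 < q) (h1 : t * q ≤ X) (h2 : X < (t + 1) * q) : X / q = t := by
  have a := (Int.le_ediv_iff_mul_le hq).2 h1
  have b := Int.ediv_lt_of_lt_mul hq h2
  omega

lemma neg_floor (q n : ℤ) (hq : 0 < q) (ho : q % 2 = 1) : (2 * (-n)) / q - (-n) / q = n / q - (2 * n) / q := by
  obtain ⟨A, hA⟩ : ∃ A, A = n / q := ⟨_, rfl⟩
  obtain ⟨x, hx⟩ : ∃ x, x = n % q := ⟨_, rfl⟩
  have h0 : 0 ≤ x := by rw [hx]; exact Int.emod_nonneg _ hq.ne'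
  have h1 : x < q := by rw [hx]; exact Int.emod_lt_of_pos _ hq
  have h2 : n = A * q + x := by rw [hA, hx]; linarith [Int.mul_ediv_add_emod n q, mul_comm q (n / q)]
  rcases eq_or_lt_of_le h0 with h3 | h3
  · rw [← hA, zdiv (t := -2 * A) hq (by rw [h2]; nlinarith) (by rw [h2]; nlinarith),
      zdiv (t := -A) hq (by rw [h2]; nlinarith) (by rw [h2]; nlinarith),
      zdiv (t := 2 * A) (X := 2 * n) hq (by rw [h2]; nlinarith) (by rw [h2]; nlinarith)]
    ring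
  · rcases lt_or_ge (2 * x) q with h4 | h4
    · rw [← hA, zdiv (t := -2 * A - 1) hq (by rw [h2]; nlinarith) (by rw [h2]; nlinarith),
        zdiv (t := -A - 1) hq (by rw [h2]; nlinarith) (by rw [h2]; nlinarith),
        zdiv (t := 2 * A) (X := 2 * n) hq (by rw [h2]; nlinarith) (by rw [h2]; nlinarith)]
      ring
    · have h5 : q < 2 * x := by omega
      rw [← hA, zdiv (t := -2 * A - 2) hq (by rw [h2]; nlinarith) (by rw [h2]; nlinarith),
        zdiv (t := -A - 1) hq (by rw [h2]; nlinarith) (by rw [h2]; nlinarith),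
        zdiv (t := 2 * A + 1) (X := 2 * n) hq (by rw [h2]; nlinarith) (by rw [h2]; nlinarith)]
      ring

lemma hp_val (p : ℕ) [hpp : Fact p.Prime] (h2 : p ≠ 2) (m : ℤ) (b : ℕ) (hb : Nat.log p (2 * m.natAbs) < b) :
    padicValRat p (hp m) = ∑ i ∈ Ico 1 b, ((2 * m) / ((p : ℤ) ^ i) - m / ((p : ℤ) ^ i)) := by
  rcases lt_or_ge m 0 with h | h
  · obtain ⟨n, rfl⟩ : ∃ n : ℕ, m = -(n : ℤ) := ⟨(-m).toNat, by omega⟩
    have e : ((-(n : ℤ)).natAbs) = n := by simp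
    rw [e] at hb
    have e1 : padicValRat p ((-1 : ℚ) ^ n) = 0 := by
      rcases neg_one_pow_eq_or ℚ n with h | h
      · rw [h]; simp
      · rw [h, padicValRat.neg]; simp
    rw [hp_neg, padicValRat.div (pow_ne_zero _ (by norm_num)) (pn_pos n).ne', e1, pn_val p h2 n b hb, zero_sub, ← sum_neg_distrib]
    apply sum_congr rfl
    intro i _
    have ho : ((p : ℤ) ^ i) % 2 = 1 := by
      have h5 : p % 2 = 1 := hpp.out.eq_two_or_odd.resolve_left h2
      have h6 : (p : ℤ) % 2 = 1 := by omega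
      have h7 : Odd ((p : ℤ)) := Int.odd_iff.2 h6
      exact Int.odd_iff.1 (h7.pow)
    rw [neg_floor _ _ (by have := hpp.out.pos; positivity) ho]
    ring
  · obtain ⟨n, rfl⟩ : ∃ n : ℕ, m = (n : ℤ) := ⟨m.toNat, by omega⟩
    rw [hp_nat]
    exact pn_val p h2 n b (by simpa using hb)

/-- product of half-integer Pochhammer symbols -/
def hprod (l : List ℤ) : ℚ := (l.map hp).prod

def hfl (q : ℤ) (l : List ℤ) : ℤ := (l.map (fun m => 2 * m / q - m / q)).sum

lemma hprod_ne (l : List ℤ) : hprod l ≠ 0 := by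
  unfold hprod
  rw [Ne, List.prod_eq_zero_iff]
  simp only [List.mem_map, not_exists, not_and]
  intro x _
  exact hp_ne x

lemma val_hprod (p : ℕ) [hpp : Fact p.Prime] (h2 : p ≠ 2) (l : List ℤ) (b : ℕ) (hb : ∀ x ∈ l, Nat.log p (2 * x.natAbs) < b) :
    padicValRat p (hprod l) = ∑ i ∈ Ico 1 b, hfl ((p : ℤ) ^ i) l := by
  induction l with
  | nil => simp [hprod, hfl]
  | cons a l ih =>
    have h1 : hprod (a :: l) = hp a * hprod l := by simp [hprod]
    have h3 : ∀ q, hfl q (a :: l) = (2 * a / q - a / q) + hfl q l := by intro q; simp [hfl]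
    rw [h1, padicValRat.mul (hp_ne a) (hprod_ne l), ih (fun x hx => hb x (List.mem_cons_of_mem _ hx)),
      sum_congr rfl (fun i _ => h3 ((p : ℤ) ^ i)), sum_add_distrib, hp_val p h2 a b (hb a List.mem_cons_self)]

lemma ratio_PO_h (p : ℕ) [hpp : Fact p.Prime] (h2 : p ≠ 2) (num den : List ℕ) (hs : List ℤ)
    (h : ∀ i, 1 ≤ i → (fl (p ^ i) den : ℤ) ≤ fl (p ^ i) num + hfl ((p : ℤ) ^ i) hs) :
    PO p 0 (fprod num / fprod den * hprod hs) := by
  apply PO_of_val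
  right
  obtain ⟨b, hb1, hb2⟩ : ∃ b, (∀ x ∈ num ++ den, Nat.log p x < b) ∧ (∀ x ∈ hs, Nat.log p (2 * x.natAbs) < b) := by
    refine ⟨((num ++ den).map (Nat.log p)).sum + (hs.map (fun x => Nat.log p (2 * x.natAbs))).sum + 1, ?_, ?_⟩
    · intro x hx
      have : Nat.log p x ≤ ((num ++ den).map (Nat.log p)).sum :=
        List.single_le_sum (by simp) _ (List.mem_map_of_mem hx)
      omega
    · intro x hx
      have : Nat.log p (2 * x.natAbs) ≤ (hs.map (fun x => Nat.log p (2 * x.natAbs))).sum :=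
        List.single_le_sum (by simp) _ (List.mem_map_of_mem (f := fun x : ℤ => Nat.log p (2 * x.natAbs)) hx)
      omega
  rw [padicValRat.mul (div_ne_zero (fprod_ne _) (fprod_ne _)) (hprod_ne _), padicValRat.div (fprod_ne _) (fprod_ne _),
    val_fprod p num b (fun x hx => hb1 x (List.mem_append_left _ hx)),
    val_fprod p den b (fun x hx => hb1 x (List.mem_append_right _ hx)), val_hprod p h2 hs b hb2]
  have key := sum_le_sum (s := Ico 1 b) (fun i hi => h i (mem_Ico.1 hi).1)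
  rw [sum_add_distrib] at key
  push_cast at key ⊢
  linarith

lemma zc {q X : ℤ} (lo hi : ℤ) (hq : 0 < q) (h1 : lo * q ≤ X) (h2 : X < (hi + 1) * q) :
    ∃ l, X / q = l ∧ l * q ≤ X ∧ X < (l + 1) * q ∧ lo ≤ l ∧ l ≤ hi := by
  refine ⟨X / q, rfl, Int.ediv_mul_le X hq.ne', ?_, (Int.le_ediv_iff_mul_le hq).2 h1, ?_⟩
  · exact Int.lt_ediv_add_one_mul_self X hq
  · have := Int.ediv_lt_of_lt_mul hq h2
    omega

lemma P2small (q x y : ℤ) (hq5 : 5 ≤ q) (hx0 : 0 ≤ x) (hx : x < q) (hy0 : 0 ≤ y) (hy : y < q) :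
    (2*x+1-y)/q + (2*x+3)/q ≤ (x+1)/q + ((2*(2*x+1-y))/q - (2*x+1-y)/q) + ((2*(x-y))/q - (x-y)/q) +
      ((2*(x+y+1))/q - (x+y+1)/q) := by
  have hq : 0 < q := by omega
  obtain ⟨g, e1, g1, g2, g3, g4⟩ := zc (q := q) (X := 2*x+1-y) (-1) 1 hq (by omega) (by omega)
  obtain ⟨f, e2, f1, f2, f3, f4⟩ := zc (q := q) (X := 2*x+3) 0 2 hq (by omega) (by omega)
  obtain ⟨n, e3, n1, n2, n3, n4⟩ := zc (q := q) (X := x+1) 0 1 hq (by omega) (by omega)
  obtain ⟨G, e4, G1, G2, G3, G4⟩ := zc (q := q) (X := 2*(2*x+1-y)) (-2) 3 hq (by omega) (by omega)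
  obtain ⟨d, e5, d1, d2, d3, d4⟩ := zc (q := q) (X := x-y) (-1) 0 hq (by omega) (by omega)
  obtain ⟨D, e6, D1, D2, D3, D4⟩ := zc (q := q) (X := 2*(x-y)) (-2) 1 hq (by omega) (by omega)
  obtain ⟨e, e7, k1, k2, k3, k4⟩ := zc (q := q) (X := x+y+1) 0 1 hq (by omega) (by omega)
  obtain ⟨E, e8, E1, E2, E3, E4⟩ := zc (q := q) (X := 2*(x+y+1)) 0 3 hq (by omega) (by omega)
  rw [e1, e2, e3, e4, e5, e6, e7, e8]
  clear e1 e2 e3 e4 e5 e6 e7 e8
  interval_cases d <;> interval_cases D <;> (try omega) <;> interval_cases g <;> (try omega) <;> interval_cases G <;> (try omega) <;>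
    interval_cases e <;> (try omega) <;> interval_cases E <;> (try omega) <;> interval_cases f <;> (try omega) <;>
    interval_cases n <;> omega

lemma P1small (q x y t : ℤ) (ht : q = 3 * t) (ht1 : 1 ≤ t) (hx0 : 0 ≤ x) (hx : x < q) (hy0 : 0 ≤ y) (hy : y < q) :
    (4*(x+y+1)-2)/q + 2*((2*(x+y+1))/q) + (2*(x+y+1)+1)/q ≤ (4*(x+y+1)-1)/q + (4*(x+y+1))/q + 2*((x+y+1)/q) + (3*x)/q +
      ((2*(y+2*x+1))/q - (y+2*x+1)/q) + ((2*(y-2*x-2))/q - (y-2*x-2)/q) := by
  have hq : 0 < q := by omega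
  obtain ⟨a0, e1, a01, a02, a03, a04⟩ := zc (q := q) (X := 4*(x+y+1)-2) 0 7 hq (by omega) (by omega)
  obtain ⟨m, e2, m1, m2, m3, m4⟩ := zc (q := q) (X := 2*(x+y+1)) 0 3 hq (by omega) (by omega)
  obtain ⟨m', e3, m'1, m'2, m'3, m'4⟩ := zc (q := q) (X := 2*(x+y+1)+1) 0 3 hq (by omega) (by omega)
  obtain ⟨a1, e4, a11, a12, a13, a14⟩ := zc (q := q) (X := 4*(x+y+1)-1) 0 7 hq (by omega) (by omega)
  obtain ⟨a2, e5, a21, a22, a23, a24⟩ := zc (q := q) (X := 4*(x+y+1)) 0 7 hq (by omega) (by omega)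
  obtain ⟨n, e6, n1, n2, n3, n4⟩ := zc (q := q) (X := x+y+1) 0 1 hq (by omega) (by omega)
  obtain ⟨c, e7, c1, c2, c3, c4⟩ := zc (q := q) (X := 3*x) 0 2 hq (by omega) (by omega)
  obtain ⟨H, e8, H1, H2, H3, H4⟩ := zc (q := q) (X := 2*(y+2*x+1)) 0 5 hq (by omega) (by omega)
  obtain ⟨h, e9, h1, h2, h3, h4⟩ := zc (q := q) (X := y+2*x+1) 0 2 hq (by omega) (by omega)
  obtain ⟨K, e10, K1, K2, K3, K4⟩ := zc (q := q) (X := 2*(y-2*x-2)) (-4) 1 hq (by omega) (by omega)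
  obtain ⟨k, e11, k1, k2, k3, k4⟩ := zc (q := q) (X := y-2*x-2) (-2) 0 hq (by omega) (by omega)
  rw [e1, e2, e3, e4, e5, e6, e7, e8, e9, e10, e11]
  clear e1 e2 e3 e4 e5 e6 e7 e8 e9 e10 e11
  subst ht
  interval_cases n <;> interval_cases m <;> (try omega) <;> interval_cases c <;> (try omega) <;> interval_cases h <;> (try omega) <;>
    interval_cases H <;> (try omega) <;> interval_cases k <;> (try omega) <;> interval_cases K <;> (try omega) <;>
    interval_cases a2 <;> (try omega) <;> interval_cases a1 <;> (try omega) <;> interval_cases a0 <;> (try omega) <;>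
    interval_cases m' <;> omega

end

end Pool.Agent.X14.LG
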