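import Mathlib
import Pool.Agent.X14.LG9

set_option autoImplicit false

/-! Integrality and sign of the normalised partial sums with `(28k+3)`. -/

namespace Pool.Agent.X14.LG

open Finset Pool.Agent.H434R2

noncomputable section

/-- the summand of the series -/
def t28 (k : ℕ) : ℚ := ((4 * k).factorial : ℚ) / (k.factorial : ℚ) ^ 4 / (-12288) ^ k

lemma F28_zero (n : ℕ) : F28 n 0 = (28 * n + 3) * t28 n := by
  unfold F28 t28
  have e1 : 2 * (n : ℤ) + 0 = ((2 * n : ℕ) : ℤ) := by push_cast; ring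
  have e2 : (n : ℤ) + 0 = ((n : ℕ) : ℤ) := by ring
  have e3 : (n : ℤ) - 0 = ((n : ℕ) : ℤ) := by ring
  have e4 : ((2 * n : ℕ) : ℤ) + 1 = ((2 * n + 1 : ℕ) : ℤ) := by push_cast; ring
  rw [e1, e2, e3, e4, hp_nat, hp_nat, rf_nat, pn_eq, pn_eq, Nat.factorial_succ, zpow_zero]
  rw [show 2 * (2 * n) = 4 * n by ring]
  have h1 := fne n
  have h2 := fne (2 * n)
  have h3 := fne (4 * n)
  have g1 : 2 * (n : ℚ) + 1 ≠ 0 := by positivity
  have e : (-1 / 48 : ℚ) ^ n = 256 ^ n / (-12288) ^ n := by rw [← div_pow]; norm_num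
  have e5 : (256 : ℚ) ^ n = 4 ^ (2 * n) * 4 ^ n * 4 ^ n := by
    rw [pow_mul, ← mul_pow, ← mul_pow]; norm_num
  have g2 : (-12288 : ℚ) ^ n ≠ 0 := pow_ne_zero _ (by norm_num)
  have g3 : (4 : ℚ) ^ n ≠ 0 := by positivity
  have g4 : (4 : ℚ) ^ (2 * n) ≠ 0 := by positivity
  rw [e, e5]
  push_cast
  field_simp
  ring

/-- normalised sum for `(28k+3)` -/
def a28 (n : ℕ) : ℚ := (∑ k ∈ range n, (28 * (k : ℚ) + 3) * (((4 * k).factorial : ℚ) / (k.factorial : ℚ) ^ 4) * (-12288) ^ (n - 1 - k)) /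
  (2 * (n : ℚ) * (2 * n + 1) * ((2 * n).choose n : ℚ))

lemma a28_num (r : ℕ) : ∑ k ∈ range (r + 1), (28 * (k : ℚ) + 3) * (((4 * k).factorial : ℚ) / (k.factorial : ℚ) ^ 4) * (-12288) ^ (r + 1 - 1 - k) =
      (∑ n ∈ range (r + 1), F28 n 0) * (-12288) ^ r := by
  rw [sum_mul]
  apply sum_congr rfl
  intro k hk
  have hk' := mem_range.1 hk
  obtain ⟨d, rfl⟩ : ∃ d, r = k + d := ⟨r - k, by omega⟩
  rw [F28_zero]
  unfold t28
  rw [show k + d + 1 - 1 - k = d by omega, pow_add]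
  have : (-12288 : ℚ) ^ k ≠ 0 := pow_ne_zero _ (by norm_num)
  field_simp

lemma a28_den (r : ℕ) : 0 < 2 * ((r + 1 : ℕ) : ℚ) * (2 * ((r + 1 : ℕ) : ℚ) + 1) * ((2 * (r + 1)).choose (r + 1) : ℚ) := by
  have : (0 : ℚ) < ((2 * (r + 1)).choose (r + 1) : ℚ) := by exact_mod_cast Nat.choose_pos (by omega)
  positivity

/-- term of the second closed form -/
def W2 (r e : ℕ) (k : ℕ) : ℚ := fprod [r + 1] / fprod [r, e, 2 * r + 3] * hprod [(e : ℤ), (r : ℤ) - k, (r : ℤ) + k + 1]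

lemma Om_W2 (r k e : ℕ) (he : e + k = 2 * r + 1) : Om (r + 1) (-((k : ℤ) + 1)) * (-12288) ^ r =
    2 * ((r + 1 : ℕ) : ℚ) * (2 * ((r + 1 : ℕ) : ℚ) + 1) * ((2 * (r + 1)).choose (r + 1) : ℚ) *
      (-(256 ^ r * (-4) ^ (k + 1)) / 2 / 3 ^ (k + 1) * W2 r e k) := by
  unfold Om W2 fprod hprod
  simp only [List.map_cons, List.map_nil, List.prod_cons, List.prod_nil]
  have i1 : 2 * ((r + 1 : ℕ) : ℤ) + -((k : ℤ) + 1) = (e : ℤ) := by push_cast; omega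
  have i2 : ((r + 1 : ℕ) : ℤ) + -((k : ℤ) + 1) = (r : ℤ) - k := by push_cast; ring
  have i3 : ((r + 1 : ℕ) : ℤ) - -((k : ℤ) + 1) - 1 = (r : ℤ) + k + 1 := by push_cast; ring
  rw [i1, i2, i3, rf_nat, Nat.cast_choose ℚ (show r + 1 ≤ 2 * (r + 1) by omega), show 2 * (r + 1) - (r + 1) = r + 1 by omega]
  generalize hp (e : ℤ) = X1
  generalize hp ((r : ℤ) - k) = X2
  generalize hp ((r : ℤ) + k + 1) = X3
  have z : (-3 / 4 : ℚ) ^ (-((k : ℤ) + 1)) = (-4) ^ (k + 1) / 3 ^ (k + 1) := by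
    rw [← div_pow, zpow_neg, ← inv_zpow]
    have : ((k : ℤ) + 1) = ((k + 1 : ℕ) : ℤ) := by push_cast; rfl
    rw [this, zpow_natCast]
    norm_num
  have w : (-1 / 48 : ℚ) ^ (r + 1) * (-12288) ^ r = 256 ^ r * (-1 / 48) := by
    rw [pow_succ, mul_right_comm, ← mul_pow]; norm_num
  rw [z, show 2 * r + 3 = 2 * (r + 1) + 1 by ring, Nat.factorial_succ (2 * (r + 1)), Nat.factorial_succ r]
  have h1 := fne r
  have h2 := fne (2 * (r + 1))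
  have h3 := fne e
  have g1 : (r : ℚ) + 1 ≠ 0 := by positivity
  have g2 : 2 * ((r : ℚ) + 1) + 1 ≠ 0 := by positivity
  have g3 : (3 : ℚ) ^ (k + 1) ≠ 0 := by positivity
  push_cast
  have : ∀ A B C : ℚ, A * (B * (-1 / 48) ^ (r + 1) * C) * (-12288) ^ r = A * B * C * (256 ^ r * (-1 / 48)) := by
    intro A B C
    rw [← w]; ring
  rw [this]
  field_simp

/-- term of the first closed form -/
def W1 (j u : ℕ) : ℚ := fprod [4 * (j + u) + 3, 4 * (j + u) + 4, j + u + 1, j + u + 1, 3 * u] /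
  fprod [4 * (j + u) + 2, 2 * (j + u) + 2, 2 * (j + u) + 2, 2 * (j + u) + 3, j, j, u] * hprod [(j : ℤ) + 2 * u + 1, (j : ℤ) - 2 * u - 2]

lemma D_W1 (j u : ℕ) : D28 j (2 * ((j + u + 1 : ℕ) : ℤ) - 2 * j) * (-12288) ^ (j + u) =
    2 * ((j + u + 1 : ℕ) : ℚ) * (2 * ((j + u + 1 : ℕ) : ℚ) + 1) * ((2 * (j + u + 1)).choose (j + u + 1) : ℚ) *
      ((-1) ^ u * 16 ^ (j + u) * 9 ^ u / 8 * (3 ^ u * ((u.factorial : ℚ) / ((3 * u).factorial : ℚ))) * W1 j u) := by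
  unfold D28 W1 fprod hprod
  simp only [List.map_cons, List.map_nil, List.prod_cons, List.prod_nil]
  have i1 : 2 * (j : ℤ) + (2 * ((j + u + 1 : ℕ) : ℤ) - 2 * j) = ((2 * (j + u) + 2 : ℕ) : ℤ) := by push_cast; ring
  have i1' : ((2 * (j + u) + 2 : ℕ) : ℤ) - 1 = ((2 * (j + u) + 1 : ℕ) : ℤ) := by push_cast; ring
  have i2 : (j : ℤ) + (2 * ((j + u + 1 : ℕ) : ℤ) - 2 * j) - 1 = (j : ℤ) + 2 * u + 1 := by push_cast; ring
  have i3 : (j : ℤ) - (2 * ((j + u + 1 : ℕ) : ℤ) - 2 * j) = (j : ℤ) - 2 * u - 2 + 2 * j - 2 * j + (2 * j - 2 * j) := by push_cast; ring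
  have i4 : ((2 * ((j + u + 1 : ℕ) : ℤ) - 2 * j : ℤ)) = ((2 * u + 2 : ℕ) : ℤ) := by push_cast; ring
  have i5 : 2 * (j : ℤ) + ((2 * u + 2 : ℕ) : ℤ) = ((2 * (j + u) + 2 : ℕ) : ℤ) := by push_cast; ring
  have i6 : (j : ℤ) + ((2 * u + 2 : ℕ) : ℤ) - 1 = (j : ℤ) + 2 * u + 1 := by push_cast; ring
  have i7 : (j : ℤ) - ((2 * u + 2 : ℕ) : ℤ) = (j : ℤ) - 2 * u - 2 := by push_cast; ring
  rw [i4, i5, i1', i6, i7, rf_nat, hp_nat, pn_eq, Nat.cast_choose ℚ (show j + u + 1 ≤ 2 * (j + u + 1) by omega),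
    show 2 * (j + u + 1) - (j + u + 1) = j + u + 1 by omega, zpow_natCast]
  generalize hp ((j : ℤ) + 2 * u + 1) = X1
  generalize hp ((j : ℤ) - 2 * u - 2) = X2
  have w : (-1 / 48 : ℚ) ^ j * (-3 / 4) ^ (2 * u + 2) * (-12288) ^ (j + u) = 9 / 16 * ((-1) ^ u * 27 ^ u * 256 ^ (j + u)) := by
    rw [pow_add (-12288 : ℚ) j u, pow_add (-3 / 4 : ℚ) (2 * u) 2, pow_mul, pow_add (256 : ℚ) j u]
    have a1 : (-1 / 48 : ℚ) ^ j * (-12288) ^ j = 256 ^ j := by rw [← mul_pow]; norm_num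
    have a2 : ((-3 / 4 : ℚ) ^ 2) ^ u * (-12288) ^ u = (-1) ^ u * 27 ^ u * 256 ^ u := by rw [← mul_pow, ← mul_pow, ← mul_pow]; norm_num
    have a3 : (-3 / 4 : ℚ) ^ 2 = 9 / 16 := by norm_num
    linear_combination ((-3 / 4 : ℚ) ^ 2) ^ u * (-3 / 4) ^ 2 * (-12288) ^ u * a1 + 256 ^ j * (-3 / 4) ^ 2 * a2 + 256 ^ j * ((-1) ^ u * 27 ^ u * 256 ^ u) * a3
  have w2 : (27 : ℚ) ^ u = 9 ^ u * 3 ^ u := by rw [← mul_pow]; norm_num
  have w3 : (256 : ℚ) ^ (j + u) = 16 ^ (j + u) * 16 ^ (j + u) := by rw [← mul_pow]; norm_num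
  have w4 : (4 : ℚ) ^ (2 * (j + u) + 2) = 16 ^ (j + u) * 16 := by rw [pow_add, pow_mul]; norm_num
  rw [show 2 * (2 * (j + u) + 2) = 4 * (j + u) + 4 by ring, show 4 * (j + u) + 3 = 4 * (j + u) + 2 + 1 by ring, Nat.factorial_succ (4 * (j + u) + 2),
    show 2 * (j + u) + 3 = 2 * (j + u) + 2 + 1 by ring, Nat.factorial_succ (2 * (j + u) + 2), show 2 * (j + u + 1) = 2 * (j + u) + 1 + 1 by ring,
    show 2 * (j + u) + 2 = 2 * (j + u) + 1 + 1 by ring, Nat.factorial_succ (2 * (j + u) + 1)]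
  rw [show 2 * (j + u) + 1 + 1 = 2 * (j + u) + 2 by ring, w4]
  have h1 := fne j
  have h2 := fne u
  have h3 := fne (3 * u)
  have h4 := fne (2 * (j + u) + 1)
  have h5 := fne (j + u + 1)
  have h6 := fne (4 * (j + u) + 2)
  have h7 := fne (4 * (j + u) + 4)
  have g1 : (j : ℚ) + u + 1 ≠ 0 := by positivity
  have g2 : 2 * ((j : ℚ) + u) + 1 + 1 ≠ 0 := by positivity
  have g3 : 2 * ((j : ℚ) + u) + 2 + 1 ≠ 0 := by positivity
  have g4 : (16 : ℚ) ^ (j + u) ≠ 0 := by positivity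
  have : ∀ A B : ℚ, A * (B * (-1 / 48) ^ j * (-3 / 4) ^ (2 * u + 2)) * (-12288) ^ (j + u) = A * B * (9 / 16 * ((-1) ^ u * 27 ^ u * 256 ^ (j + u))) := by
    intro A B
    rw [← w]; ring
  rw [this, w2, w3]
  push_cast
  field_simp
  ring

end

end Pool.Agent.X14.LG
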