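import Mathlib
import Pool.Agent.X14.LG10

set_option autoImplicit false

/-! Integrality and sign of the normalised partial sums with `(28k+3)`, continued. -/

namespace Pool.Agent.X14.LG

open Finset Pool.Agent.H434R2

noncomputable section

lemma pz (p i : ℕ) : (((p ^ i : ℕ)) : ℤ) = (p : ℤ) ^ i := by push_cast; rfl

lemma W2_PO (p : ℕ) [hp : Fact p.Prime] (h5 : 5 ≤ p) (r k e : ℕ) (he : e + k = 2 * r + 1) : PO p 0 (W2 r e k) := by
  unfold W2
  apply ratio_PO_h p (by omega)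
  intro i hi
  have hq5 : 5 ≤ p ^ i := le_trans h5 (Nat.le_self_pow (by omega) p)
  rw [← pz]
  generalize p ^ i = q at hq5 ⊢
  have hq : 0 < q := by omega
  obtain ⟨A, x, hx, rfl⟩ : ∃ A x, x < q ∧ r = q * A + x := ⟨r / q, r % q, Nat.mod_lt _ hq, (Nat.div_add_mod r q).symm⟩
  obtain ⟨B, y, hy, rfl⟩ : ∃ B y, y < q ∧ k = q * B + y := ⟨k / q, k % q, Nat.mod_lt _ hq, (Nat.div_add_mod k q).symm⟩
  have h := P2small q x y (by omega) (by omega) (by omega) (by omega) (by omega)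
  have hqz : (q : ℤ) ≠ 0 := by omega
  simp only [fl, hfl, List.map_cons, List.map_nil, List.sum_cons, List.sum_nil]
  push_cast
  have he' : (e : ℤ) = q * (2 * A - B) + (2 * x + 1 - y) := by
    have := congrArg (Nat.cast : ℕ → ℤ) he
    push_cast at this
    linarith
  have e1 : (e : ℤ) / q = (2 * A - B) + (2 * x + 1 - y) / q := by rw [he', Int.mul_add_ediv_left _ _ hqz]
  have e2 : (2 * (e : ℤ)) / q = 2 * (2 * A - B) + (2 * (2 * x + 1 - y)) / q := by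
    rw [he', show 2 * ((q : ℤ) * (2 * A - B) + (2 * x + 1 - y)) = q * (2 * (2 * A - B)) + 2 * (2 * x + 1 - y) by ring, Int.mul_add_ediv_left _ _ hqz]
  have e3 : ((q : ℤ) * A + x + 1) / q = A + (x + 1) / q := by
    rw [show (q : ℤ) * A + x + 1 = q * A + (x + 1) by ring, Int.mul_add_ediv_left _ _ hqz]
  have e4 : ((q : ℤ) * A + x) / q = A := by
    rw [Int.mul_add_ediv_left _ _ hqz, Int.ediv_eq_zero_of_lt (by omega) (by omega), add_zero]
  have e5 : (2 * ((q : ℤ) * A + x) + 3) / q = 2 * A + (2 * x + 3) / q := by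
    rw [show 2 * ((q : ℤ) * A + x) + 3 = q * (2 * A) + (2 * x + 3) by ring, Int.mul_add_ediv_left _ _ hqz]
  have e6 : ((q : ℤ) * A + x - (q * B + y)) / q = (A - B) + (x - y) / q := by
    rw [show (q : ℤ) * A + x - (q * B + y) = q * (A - B) + (x - y) by ring, Int.mul_add_ediv_left _ _ hqz]
  have e7 : (2 * ((q : ℤ) * A + x - (q * B + y))) / q = 2 * (A - B) + (2 * (x - y)) / q := by
    rw [show 2 * ((q : ℤ) * A + x - (q * B + y)) = q * (2 * (A - B)) + 2 * (x - y) by ring, Int.mul_add_ediv_left _ _ hqz]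
  have e8 : ((q : ℤ) * A + x + (q * B + y) + 1) / q = (A + B) + (x + y + 1) / q := by
    rw [show (q : ℤ) * A + x + (q * B + y) + 1 = q * (A + B) + (x + y + 1) by ring, Int.mul_add_ediv_left _ _ hqz]
  have e9 : (2 * ((q : ℤ) * A + x + (q * B + y) + 1)) / q = 2 * (A + B) + (2 * (x + y + 1)) / q := by
    rw [show 2 * ((q : ℤ) * A + x + (q * B + y) + 1) = q * (2 * (A + B)) + 2 * (x + y + 1) by ring, Int.mul_add_ediv_left _ _ hqz]
  rw [e1, e2, e3, e4, e5, e6, e7, e8, e9]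
  linarith

lemma W1_PO (j u : ℕ) : haveI : Fact (Nat.Prime 3) := ⟨Nat.prime_three⟩
    PO 3 0 (W1 j u) := by
  haveI : Fact (Nat.Prime 3) := ⟨Nat.prime_three⟩
  unfold W1
  apply ratio_PO_h 3 (by norm_num)
  intro i hi
  obtain ⟨t, ht⟩ : ∃ t : ℕ, 3 ^ i = 3 * t := ⟨3 ^ (i - 1), by rw [← pow_succ']; congr 1; omega⟩
  rw [← pz, ht]
  have ht1 : 1 ≤ t := by
    have : 0 < 3 ^ i := by positivity
    omega
  obtain ⟨q, hqt⟩ : ∃ q, q = 3 * t := ⟨_, rfl⟩
  rw [← hqt]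
  have hq : 0 < q := by omega
  obtain ⟨A, x, hx, rfl⟩ : ∃ A x, x < q ∧ u = q * A + x := ⟨u / q, u % q, Nat.mod_lt _ hq, (Nat.div_add_mod u q).symm⟩
  obtain ⟨B, y, hy, rfl⟩ : ∃ B y, y < q ∧ j = q * B + y := ⟨j / q, j % q, Nat.mod_lt _ hq, (Nat.div_add_mod j q).symm⟩
  have h := P1small q x y t (by omega) (by omega) (by omega) (by omega) (by omega) (by omega)
  have hqz : (q : ℤ) ≠ 0 := by omega
  simp only [fl, hfl, List.map_cons, List.map_nil, List.sum_cons, List.sum_nil]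
  push_cast
  have e1 : (4 * ((q : ℤ) * B + y + (q * A + x)) + 3) / q = 4 * (A + B) + (4 * (x + y + 1) - 1) / q := by
    rw [show 4 * ((q : ℤ) * B + y + (q * A + x)) + 3 = q * (4 * (A + B)) + (4 * (x + y + 1) - 1) by ring, Int.mul_add_ediv_left _ _ hqz]
  have e2 : (4 * ((q : ℤ) * B + y + (q * A + x)) + 4) / q = 4 * (A + B) + (4 * (x + y + 1)) / q := by
    rw [show 4 * ((q : ℤ) * B + y + (q * A + x)) + 4 = q * (4 * (A + B)) + (4 * (x + y + 1)) by ring, Int.mul_add_ediv_left _ _ hqz]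
  have e3 : (4 * ((q : ℤ) * B + y + (q * A + x)) + 2) / q = 4 * (A + B) + (4 * (x + y + 1) - 2) / q := by
    rw [show 4 * ((q : ℤ) * B + y + (q * A + x)) + 2 = q * (4 * (A + B)) + (4 * (x + y + 1) - 2) by ring, Int.mul_add_ediv_left _ _ hqz]
  have e4 : ((q : ℤ) * B + y + (q * A + x) + 1) / q = (A + B) + (x + y + 1) / q := by
    rw [show (q : ℤ) * B + y + (q * A + x) + 1 = q * (A + B) + (x + y + 1) by ring, Int.mul_add_ediv_left _ _ hqz]
  have e5 : (2 * ((q : ℤ) * B + y + (q * A + x)) + 2) / q = 2 * (A + B) + (2 * (x + y + 1)) / q := by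
    rw [show 2 * ((q : ℤ) * B + y + (q * A + x)) + 2 = q * (2 * (A + B)) + (2 * (x + y + 1)) by ring, Int.mul_add_ediv_left _ _ hqz]
  have e6 : (2 * ((q : ℤ) * B + y + (q * A + x)) + 3) / q = 2 * (A + B) + (2 * (x + y + 1) + 1) / q := by
    rw [show 2 * ((q : ℤ) * B + y + (q * A + x)) + 3 = q * (2 * (A + B)) + (2 * (x + y + 1) + 1) by ring, Int.mul_add_ediv_left _ _ hqz]
  have e7 : (3 * ((q : ℤ) * A + x)) / q = 3 * A + (3 * x) / q := by
    rw [show 3 * ((q : ℤ) * A + x) = q * (3 * A) + 3 * x by ring, Int.mul_add_ediv_left _ _ hqz]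
  have e8 : ((q : ℤ) * A + x) / q = A := by
    rw [Int.mul_add_ediv_left _ _ hqz, Int.ediv_eq_zero_of_lt (by omega) (by omega), add_zero]
  have e9 : ((q : ℤ) * B + y) / q = B := by
    rw [Int.mul_add_ediv_left _ _ hqz, Int.ediv_eq_zero_of_lt (by omega) (by omega), add_zero]
  have e10 : ((q : ℤ) * B + y + 2 * (q * A + x) + 1) / q = (B + 2 * A) + (y + 2 * x + 1) / q := by
    rw [show (q : ℤ) * B + y + 2 * (q * A + x) + 1 = q * (B + 2 * A) + (y + 2 * x + 1) by ring, Int.mul_add_ediv_left _ _ hqz]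
  have e11 : (2 * ((q : ℤ) * B + y + 2 * (q * A + x) + 1)) / q = 2 * (B + 2 * A) + (2 * (y + 2 * x + 1)) / q := by
    rw [show 2 * ((q : ℤ) * B + y + 2 * (q * A + x) + 1) = q * (2 * (B + 2 * A)) + 2 * (y + 2 * x + 1) by ring, Int.mul_add_ediv_left _ _ hqz]
  have e12 : ((q : ℤ) * B + y - 2 * (q * A + x) - 2) / q = (B - 2 * A) + (y - 2 * x - 2) / q := by
    rw [show (q : ℤ) * B + y - 2 * (q * A + x) - 2 = q * (B - 2 * A) + (y - 2 * x - 2) by ring, Int.mul_add_ediv_left _ _ hqz]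
  have e13 : (2 * ((q : ℤ) * B + y - 2 * (q * A + x) - 2)) / q = 2 * (B - 2 * A) + (2 * (y - 2 * x - 2)) / q := by
    rw [show 2 * ((q : ℤ) * B + y - 2 * (q * A + x) - 2) = q * (2 * (B - 2 * A)) + 2 * (y - 2 * x - 2) by ring, Int.mul_add_ediv_left _ _ hqz]
  rw [e1, e2, e3, e4, e5, e6, e7, e8, e9, e10, e11, e12, e13]
  have hA : (0 : ℤ) ≤ A := by positivity
  linarith

lemma a28_eq2 (r : ℕ) : a28 (r + 1) = ∑ k ∈ range (2 * (r + 1)), (-(256 ^ r * (-4) ^ (k + 1)) / 2 / 3 ^ (k + 1) * W2 r (2 * r + 1 - k) k) := by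
  unfold a28
  rw [a28_num, path2, div_eq_iff (a28_den r).ne', sum_mul, sum_mul]
  apply sum_congr rfl
  intro k hk
  have hk' := mem_range.1 hk
  rw [Om_W2 r k (2 * r + 1 - k) (by omega)]
  ring

lemma a28_eq1 (r : ℕ) : a28 (r + 1) = ∑ j ∈ range (r + 1), ((-1) ^ (r - j) * 16 ^ r * 9 ^ (r - j) / 8 * (3 ^ (r - j) * (((r - j).factorial : ℚ) / ((3 * (r - j)).factorial : ℚ))) * W1 j (r - j)) := by
  unfold a28
  rw [a28_num, path1, div_eq_iff (a28_den r).ne', sum_mul, sum_mul]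
  apply sum_congr rfl
  intro j hj
  obtain ⟨u, rfl⟩ : ∃ u, r = j + u := ⟨r - j, by have := mem_range.1 hj; omega⟩
  rw [show j + u - j = u by omega, D_W1 j u]
  ring

lemma a28_other {p : ℕ} [hp : Fact p.Prime] (h5 : 5 ≤ p) (r : ℕ) : PO p 0 (a28 (r + 1)) := by
  rw [a28_eq2]
  apply PO.sum
  intro k hk
  have hk' := mem_range.1 hk
  have e : -(256 ^ r * (-4) ^ (k + 1)) / 2 / 3 ^ (k + 1) * W2 r (2 * r + 1 - k) k =
      ((-(256 ^ r * (-4) ^ (k + 1)) : ℤ) : ℚ) * ((2 : ℚ)⁻¹ * (((3 ^ (k + 1) : ℕ)) : ℚ)⁻¹) * W2 r (2 * r + 1 - k) k := by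
    push_cast; ring
  rw [e]
  have h3 : ¬ p ∣ 3 ^ (k + 1) := by
    intro h
    have := Nat.le_of_dvd (by norm_num) (hp.out.dvd_of_dvd_pow h)
    omega
  exact ((PO.of_int _).mul0 ((half_PO (by omega)).mul0 (PO.inv_nat h3))).mul0 (W2_PO p h5 r k _ (by omega))

lemma a28_three (r : ℕ) : haveI : Fact (Nat.Prime 3) := ⟨Nat.prime_three⟩
    PO 3 0 (a28 (r + 1)) := by
  haveI : Fact (Nat.Prime 3) := ⟨Nat.prime_three⟩
  rw [a28_eq1]
  apply PO.sum
  intro j hj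
  generalize r - j = u
  have e : (-1 : ℚ) ^ u * 16 ^ r * 9 ^ u / 8 * (3 ^ u * ((u.factorial : ℚ) / ((3 * u).factorial : ℚ))) * W1 j u =
      (((-1) ^ u * 16 ^ r * 9 ^ u : ℤ) : ℚ) * (((8 : ℕ) : ℚ)⁻¹) * (3 ^ u * ((u.factorial : ℚ) / ((3 * u).factorial : ℚ))) * W1 j u := by
    push_cast; ring
  rw [e]
  exact (((PO.of_int _).mul0 (PO.inv_nat (by norm_num))).mul0 (three_fact u)).mul0 (W1_PO j u)

/-- the 2-adic part with `8 ∣ M` -/
lemma two_part4 (M : ℤ) (hM : (8 : ℤ) ∣ M) (r : ℕ) (hr : 1 ≤ r) (c : ℕ → ℤ) (hc : ∀ j, 1 ≤ j → (2 : ℤ) ∣ c j) :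
    haveI : Fact (Nat.Prime 2) := ⟨Nat.prime_two⟩
    PO 2 0 ((∑ j ∈ range (r + 1), (M : ℚ) ^ (r - j) * (c j : ℚ) * (j.centralBinom : ℚ) ^ 2) / (4 * (r.centralBinom : ℚ))) := by
  haveI : Fact (Nat.Prime 2) := ⟨Nat.prime_two⟩
  rw [sum_div]
  apply PO.sum
  intro j hj
  obtain ⟨d, rfl⟩ : ∃ d, r = j + d := ⟨r - j, by have := mem_range.1 hj; omega⟩
  rw [show j + d - j = d by omega]
  have h3 : ((j + d).centralBinom : ℚ) ≠ 0 := by exact_mod_cast (j + d).centralBinom_ne_zero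
  rcases Nat.eq_zero_or_pos d with hd | hd
  · subst hd
    simp only [Nat.add_zero] at hr h3 ⊢
    obtain ⟨w, hw⟩ := Nat.two_dvd_centralBinom_of_one_le hr
    obtain ⟨v, hv⟩ := hc j hr
    have e : (M : ℚ) ^ 0 * (c j : ℚ) * (j.centralBinom : ℚ) ^ 2 / (4 * (j.centralBinom : ℚ)) = (v : ℚ) * ((w : ℕ) : ℚ) := by
      have hw2 : (j.centralBinom : ℚ) = 2 * w := by exact_mod_cast hw
      rw [hw2] at h3 ⊢
      rw [hv]
      have h5 : (w : ℚ) ≠ 0 := by
        intro h; apply h3; rw [h]; ring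
      push_cast
      field_simp
      ring
    rw [e]
    exact (PO.of_int _).mul0 (PO.of_nat _)
  · obtain ⟨m, hm⟩ := hM
    obtain ⟨d', rfl⟩ : ∃ d', d = d' + 1 := ⟨d - 1, by omega⟩
    have e : (M : ℚ) ^ (d' + 1) * (c j : ℚ) * (j.centralBinom : ℚ) ^ 2 / (4 * ((j + (d' + 1)).centralBinom : ℚ)) =
        (((4 : ℤ) ^ d' * m ^ (d' + 1) * c j * (j.centralBinom : ℤ) : ℤ) : ℚ) *
        ((2 : ℚ) ^ (d' + 1) * (j.centralBinom : ℚ) / ((j + (d' + 1)).centralBinom : ℚ)) := by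
      rw [hm]
      push_cast
      have e4 : ((8 : ℚ) * m) ^ (d' + 1) = 2 ^ (d' + 1) * (4 * 4 ^ d') * m ^ (d' + 1) := by
        rw [mul_pow, show (8 : ℚ) = 2 * 4 by norm_num, mul_pow]; ring
      rw [e4]
      field_simp
    rw [e]
    exact (PO.of_int _).mul0 (two_cb j (d' + 1))

lemma mult4 (k : ℕ) : ((4 * k).factorial : ℚ) / (k.factorial : ℚ) ^ 4 = ((2 * k).centralBinom : ℚ) * (k.centralBinom : ℚ) ^ 2 := by
  rw [Nat.centralBinom_eq_two_mul_choose, Nat.centralBinom_eq_two_mul_choose, Nat.cast_choose ℚ (show 2 * k ≤ 2 * (2 * k) by omega),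
    Nat.cast_choose ℚ (show k ≤ 2 * k by omega), show 2 * (2 * k) - 2 * k = 2 * k by omega, show 2 * k - k = k by omega,
    show 2 * (2 * k) = 4 * k by ring]
  have h1 := fne k
  have h2 := fne (2 * k)
  field_simp

lemma a28_two (r : ℕ) (hr : 1 ≤ r) : haveI : Fact (Nat.Prime 2) := ⟨Nat.prime_two⟩
    PO 2 0 (a28 (r + 1)) := by
  haveI : Fact (Nat.Prime 2) := ⟨Nat.prime_two⟩
  have h := two_part4 (-12288) (by norm_num) r hr (fun j => (28 * (j : ℤ) + 3) * ((2 * j).centralBinom : ℤ)) (by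
    intro j hj
    obtain ⟨w, hw⟩ := Nat.two_dvd_centralBinom_of_one_le (show 1 ≤ 2 * j by omega)
    refine ⟨(28 * (j : ℤ) + 3) * w, ?_⟩
    rw [hw]; push_cast; ring)
  have hc := Nat.succ_mul_centralBinom_succ r
  have hc2 := congrArg (Nat.cast : ℕ → ℚ) hc
  push_cast at hc2
  have h3 : (r.centralBinom : ℚ) ≠ 0 := by exact_mod_cast r.centralBinom_ne_zero
  have e : a28 (r + 1) = ((∑ j ∈ range (r + 1), ((-12288 : ℤ) : ℚ) ^ (r - j) * (((fun j : ℕ => (28 * (j : ℤ) + 3) * ((2 * j).centralBinom : ℤ)) j : ℤ) : ℚ) * (j.centralBinom : ℚ) ^ 2) /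
      (4 * (r.centralBinom : ℚ))) * ((((2 * r + 1 : ℕ)) : ℚ)⁻¹ * (((2 * r + 3 : ℕ)) : ℚ)⁻¹) := by
    unfold a28
    have hs : ∑ k ∈ range (r + 1), (28 * (k : ℚ) + 3) * (((4 * k).factorial : ℚ) / (k.factorial : ℚ) ^ 4) * (-12288) ^ (r + 1 - 1 - k) =
        ∑ j ∈ range (r + 1), ((-12288 : ℤ) : ℚ) ^ (r - j) * (((fun j : ℕ => (28 * (j : ℤ) + 3) * ((2 * j).centralBinom : ℤ)) j : ℤ) : ℚ) * (j.centralBinom : ℚ) ^ 2 := by
      apply sum_congr rfl
      intro k _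
      rw [Nat.add_sub_cancel, mult4]
      push_cast
      ring
    rw [hs]
    have hd : 2 * ((r + 1 : ℕ) : ℚ) * (2 * ((r + 1 : ℕ) : ℚ) + 1) * ((2 * (r + 1)).choose (r + 1) : ℚ) =
        (4 * (r.centralBinom : ℚ)) * ((2 * r + 1) * (2 * r + 3)) := by
      rw [← Nat.centralBinom_eq_two_mul_choose]
      push_cast
      linear_combination (2 * (2 * (r : ℚ) + 3)) * hc2
    rw [hd]
    push_cast
    rw [div_mul_eq_div_div, div_eq_mul_inv _ ((2 * (r : ℚ) + 1) * (2 * r + 3)), mul_inv]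
  rw [e]
  exact h.mul0' ((PO.inv_nat (by omega)).mul0 (PO.inv_nat (by omega)))

theorem a28_int (r : ℕ) (hr : 1 ≤ r) : ∃ z : ℤ, a28 (r + 1) = z := by
  apply int_of_PO
  intro p hp
  haveI : Fact p.Prime := ⟨hp⟩
  by_cases h2 : p = 2
  · subst h2; exact a28_two r hr
  · by_cases h3 : p = 3
    · subst h3; exact a28_three r
    · have h4 : p ≠ 4 := by rintro rfl; exact absurd hp (by norm_num)
      have h5 := hp.two_le
      exact a28_other (by omega) r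

/-! the sign -/

def u28 (k : ℕ) : ℚ := (28 * (k : ℚ) + 3) * (((4 * k).factorial : ℚ) / (k.factorial : ℚ) ^ 4) / 12288 ^ k

lemma u28_pos (k : ℕ) : 0 < u28 k := by
  unfold u28
  have h1 : (0 : ℚ) < ((4 * k).factorial : ℚ) := by exact_mod_cast Nat.factorial_pos _
  have h2 : (0 : ℚ) < (k.factorial : ℚ) := by exact_mod_cast Nat.factorial_pos _
  positivity

lemma u28_succ (k : ℕ) : u28 (k + 1) ≤ u28 k / 8 := by
  have e : u28 (k + 1) = u28 k * ((28 * k + 31) * (2 * k + 1) * (4 * k + 1) * (4 * k + 3) / (1536 * (28 * k + 3) * (k + 1) ^ 3)) := by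
    unfold u28
    rw [show 4 * (k + 1) = 4 * k + 1 + 1 + 1 + 1 by ring]
    rw [Nat.factorial_succ (4 * k + 1 + 1 + 1), Nat.factorial_succ (4 * k + 1 + 1), Nat.factorial_succ (4 * k + 1), Nat.factorial_succ (4 * k),
      Nat.factorial_succ k]
    have h1 := fne k
    have h3 := fne (4 * k)
    have g1 : (k : ℚ) + 1 ≠ 0 := by positivity
    have g2 : 28 * (k : ℚ) + 3 ≠ 0 := by positivity
    push_cast
    rw [pow_succ (12288 : ℚ) k]
    field_simp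
    ring
  rw [e, div_eq_mul_inv (u28 k) 8]
  apply mul_le_mul_of_nonneg_left _ (u28_pos k).le
  have hk : (0 : ℚ) ≤ k := by positivity
  rw [div_le_iff₀ (by positivity)]
  have h2 : (0 : ℚ) ≤ (8 : ℚ)⁻¹ * (1536 * (28 * k + 3) * (k + 1) ^ 3) - (28 * k + 31) * (2 * k + 1) * (4 * k + 1) * (4 * k + 3) := by
    ring_nf
    positivity
  linarith

lemma u28_le (k : ℕ) : u28 k ≤ 3 / 8 ^ k := by
  induction k with
  | zero => simp [u28]
  | succ k ih =>
    have := u28_succ k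
    rw [pow_succ, ← div_div]
    linarith

lemma S28_lower (n : ℕ) : 2 + 1 / 8 ^ n ≤ ∑ k ∈ range (n + 1), (-1) ^ k * u28 k := by
  induction n with
  | zero => simp [u28]; norm_num
  | succ n ih =>
    rw [sum_range_succ]
    have h1 := u28_le (n + 1)
    have h2 := u28_pos (n + 1)
    have h3 : -u28 (n + 1) ≤ (-1) ^ (n + 1) * u28 (n + 1) := by
      rcases neg_one_pow_eq_or ℚ (n + 1) with h | h
      · rw [h]; linarith
      · rw [h]; linarith
    have h4 : (1 : ℚ) / 8 ^ n = 8 / 8 ^ (n + 1) := by rw [pow_succ]; field_simp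
    have h5 : (3 : ℚ) / 8 ^ (n + 1) = 3 * (1 / 8 ^ (n + 1)) := by ring
    have h6 : (8 : ℚ) / 8 ^ (n + 1) = 8 * (1 / 8 ^ (n + 1)) := by ring
    have h7 : (0 : ℚ) < 1 / 8 ^ (n + 1) := by positivity
    linarith

theorem a28_sign (r : ℕ) : 0 < (-1) ^ r * a28 (r + 1) := by
  unfold a28
  have e : (-1 : ℚ) ^ r * ((∑ k ∈ range (r + 1), (28 * (k : ℚ) + 3) * (((4 * k).factorial : ℚ) / (k.factorial : ℚ) ^ 4) * (-12288) ^ (r + 1 - 1 - k)) /
      (2 * ((r + 1 : ℕ) : ℚ) * (2 * ((r + 1 : ℕ) : ℚ) + 1) * ((2 * (r + 1)).choose (r + 1) : ℚ))) =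
      12288 ^ r * (∑ k ∈ range (r + 1), (-1) ^ k * u28 k) / (2 * ((r + 1 : ℕ) : ℚ) * (2 * ((r + 1 : ℕ) : ℚ) + 1) * ((2 * (r + 1)).choose (r + 1) : ℚ)) := by
    rw [← mul_div_assoc]
    congr 1
    rw [mul_sum, mul_sum]
    apply sum_congr rfl
    intro k hk
    have hk' := mem_range.1 hk
    obtain ⟨d, rfl⟩ : ∃ d, r = k + d := ⟨r - k, by omega⟩
    rw [show k + d + 1 - 1 - k = d by omega]
    unfold u28
    have e1 : (-12288 : ℚ) ^ d = (-1) ^ d * 12288 ^ d := by rw [← mul_pow]; norm_num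
    have e2 : (-1 : ℚ) ^ d * (-1) ^ d = 1 := by rw [← mul_pow]; norm_num
    have h12 : (12288 : ℚ) ^ k ≠ 0 := by positivity
    rw [e1, pow_add, pow_add]
    generalize ((4 * k).factorial : ℚ) / (k.factorial : ℚ) ^ 4 = X
    have e6 : (12288 : ℚ) ^ k * 12288 ^ d * ((-1) ^ k * ((28 * (k : ℚ) + 3) * X / 12288 ^ k)) = 12288 ^ d * (-1) ^ k * ((28 * k + 3) * X) := by
      field_simp
    rw [e6]
    linear_combination ((-1) ^ k * (28 * (k : ℚ) + 3) * X * 12288 ^ d) * e2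
  rw [e]
  have h1 := S28_lower r
  have h2 : (0 : ℚ) < 1 / 8 ^ r := by positivity
  have h3 : 0 < ∑ k ∈ range (r + 1), (-1) ^ k * u28 k := by linarith
  exact div_pos (mul_pos (by positivity) h3) (a28_den r)

end

end Pool.Agent.X14.LG
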