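import Mathlib
import Pool.Agent.X14.LG11

set_option autoImplicit false

/-! The series with `(8k+1)` and ratio `2304`: two closed forms. -/

namespace Pool.Agent.X14.LG

open Finset Pool.Agent.H434R2

noncomputable section

def F8 (m l : ℕ) : ℚ := (6 * m + 2 * l + 1) *
  (hp (3 * m - l) * hp l * hp (l - m) * ((-1 / 27) ^ m * (-3 / 4) ^ l) / ((m.factorial : ℚ) ^ 2 * (l.factorial : ℚ)))

def Ol (m l : ℕ) : ℚ := 18 * m ^ 2 *
  (hp (3 * m - l - 1) * hp l * hp (l - m) * ((-1 / 27) ^ m * (-3 / 4) ^ l) / ((m.factorial : ℚ) ^ 2 * (l.factorial : ℚ)))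

def Mo (m l : ℕ) : ℚ := 4 / 3 * l * (2 * l - 1) *
  (hp (3 * m - l) * hp l * hp (l - m - 1) * ((-1 / 27) ^ m * (-3 / 4) ^ l) / ((m.factorial : ℚ) ^ 2 * (l.factorial : ℚ)))

lemma Ol_zero (l : ℕ) : Ol 0 l = 0 := by unfold Ol; simp
lemma Mo_zero (m : ℕ) : Mo m 0 = 0 := by unfold Mo; simp

lemma F8_a (m l : ℕ) : F8 m l = Ol m l + Mo m (l + 1) := by
  unfold F8 Ol Mo
  have e1 : hp (3 * (m : ℤ) - l) = hp (3 * m - l - 1) * (((3 * m - l - 1 : ℤ) : ℚ) + 1 / 2) := by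
    rw [← hp_succ]; congr 1; ring
  have e2 : hp ((l + 1 : ℕ) : ℤ) = hp l * (((l : ℤ) : ℚ) + 1 / 2) := by
    rw [← hp_succ]; congr 1
  have e3 : 3 * (m : ℤ) - ((l + 1 : ℕ) : ℤ) = 3 * m - l - 1 := by push_cast; ring
  have e4 : ((l + 1 : ℕ) : ℤ) - m - 1 = l - m := by push_cast; ring
  rw [e3, e4, e2, e1, Nat.factorial_succ, pow_succ (-3 / 4 : ℚ) l]
  have h1 := fne m
  have h2 := fne l
  have h3 : (l : ℚ) + 1 ≠ 0 := by positivity
  push_cast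
  field_simp
  ring

lemma F8_b (m l : ℕ) : F8 m l = Mo m l + Ol (m + 1) l := by
  unfold F8 Ol Mo
  have e1 : hp ((l : ℤ) - m) = hp (l - m - 1) * (((l - m - 1 : ℤ) : ℚ) + 1 / 2) := by
    rw [← hp_succ]; congr 1; ring
  have e2 : hp (3 * ((m + 1 : ℕ) : ℤ) - l - 1) = hp (3 * m - l) * (((3 * m - l : ℤ) : ℚ) + 1 / 2) * (((3 * m - l + 1 : ℤ) : ℚ) + 1 / 2) := by
    rw [← hp_succ, ← hp_succ]; congr 1; push_cast; ring
  have e4 : (l : ℤ) - ((m + 1 : ℕ) : ℤ) = l - m - 1 := by push_cast; ring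
  rw [e4, e2, e1, Nat.factorial_succ, pow_succ (-1 / 27 : ℚ) m]
  have h1 := fne m
  have h2 := fne l
  have h3 : (m : ℚ) + 1 ≠ 0 := by positivity
  push_cast
  field_simp
  ring

theorem path8L (N : ℕ) : ∑ n ∈ range N, F8 n n = ∑ l ∈ range N, Ol N l := by
  induction N with
  | zero => simp
  | succ N ih =>
    rw [sum_range_succ, ih, sum_range_succ]
    have key : ∀ l : ℕ, Ol (N + 1) l = Ol N l + (Mo N (l + 1) - Mo N l) := by
      intro l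
      have a1 := F8_a N l
      have a2 := F8_b N l
      linarith
    rw [sum_congr rfl (fun l _ => key l), sum_add_distrib, sum_range_sub (fun l => Mo N l), Mo_zero]
    have := F8_b N N
    linarith

theorem path8M (N : ℕ) : ∑ n ∈ range N, F8 n n = ∑ m ∈ range N, Mo m N := by
  induction N with
  | zero => simp
  | succ N ih =>
    rw [sum_range_succ, ih, sum_range_succ]
    have key : ∀ m : ℕ, Mo m (N + 1) = Mo m N + (Ol (m + 1) N - Ol m N) := by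
      intro m
      have a1 := F8_a m N
      have a2 := F8_b m N
      linarith
    rw [sum_congr rfl (fun m _ => key m), sum_add_distrib, sum_range_sub (fun m => Ol m N), Ol_zero]
    have := F8_a N N
    linarith

lemma F8_diag (n : ℕ) : F8 n n = (8 * n + 1) * (((4 * n).factorial : ℚ) / (n.factorial : ℚ) ^ 4 / 2304 ^ n) := by
  unfold F8
  have e1 : 3 * (n : ℤ) - n = ((2 * n : ℕ) : ℤ) := by push_cast; ring
  have e3 : (n : ℤ) - n = ((0 : ℕ) : ℤ) := by push_cast; ring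
  rw [e1, e3, hp_nat, hp_nat, hp_nat, pn_eq, pn_eq, pn_eq]
  rw [show 2 * (2 * n) = 4 * n by ring]
  have h1 := fne n
  have h2 := fne (2 * n)
  have h3 := fne (4 * n)
  have e : (-1 / 27 : ℚ) ^ n * (-3 / 4) ^ n = 64 ^ n / 2304 ^ n := by rw [← mul_pow, ← div_pow]; norm_num
  have e5 : (64 : ℚ) ^ n = 4 ^ (2 * n) * 4 ^ n := by
    rw [pow_mul, ← mul_pow]; norm_num
  have g2 : (2304 : ℚ) ^ n ≠ 0 := pow_ne_zero _ (by norm_num)
  have g3 : (4 : ℚ) ^ n ≠ 0 := by positivity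
  have g4 : (4 : ℚ) ^ (2 * n) ≠ 0 := by positivity
  rw [e, e5]
  simp only [Nat.mul_zero, pow_zero, Nat.factorial_zero]
  push_cast
  field_simp
  ring

/-- normalised sum for `(8k+1)` -/
def b8 (n : ℕ) : ℚ := (∑ k ∈ range n, 2304 ^ (n - 1 - k) * (8 * (k : ℚ) + 1) * (((4 * k).factorial : ℚ) / (k.factorial : ℚ) ^ 4)) /
  (2 * (n : ℚ) * (2 * n + 1) * ((2 * n).choose n : ℚ))

lemma b8_num (r : ℕ) : ∑ k ∈ range (r + 1), 2304 ^ (r + 1 - 1 - k) * (8 * (k : ℚ) + 1) * (((4 * k).factorial : ℚ) / (k.factorial : ℚ) ^ 4) =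
      (∑ n ∈ range (r + 1), F8 n n) * 2304 ^ r := by
  rw [sum_mul]
  apply sum_congr rfl
  intro k hk
  have hk' := mem_range.1 hk
  obtain ⟨d, rfl⟩ : ∃ d, r = k + d := ⟨r - k, by omega⟩
  rw [F8_diag]
  rw [show k + d + 1 - 1 - k = d by omega, pow_add]
  have : (2304 : ℚ) ^ k ≠ 0 := pow_ne_zero _ (by norm_num)
  field_simp

lemma Ol_W2 (r l k : ℕ) (he : l + k = 2 * r + 1) : Ol (r + 1) l * 2304 ^ r =
    2 * ((r + 1 : ℕ) : ℚ) * (2 * ((r + 1 : ℕ) : ℚ) + 1) * ((2 * (r + 1)).choose (r + 1) : ℚ) *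
      (-((-256) ^ r * (-3) ^ l) * (1 / 3 ^ (r + 1) * (1 / 4 ^ l)) * W2 r l k) := by
  unfold Ol W2 fprod hprod
  simp only [List.map_cons, List.map_nil, List.prod_cons, List.prod_nil]
  have i1 : 3 * ((r + 1 : ℕ) : ℤ) - l - 1 = (r : ℤ) + k + 1 := by push_cast; omega
  have i2 : (l : ℤ) - ((r + 1 : ℕ) : ℤ) = (r : ℤ) - k := by push_cast; omega
  rw [i1, i2, Nat.cast_choose ℚ (show r + 1 ≤ 2 * (r + 1) by omega), show 2 * (r + 1) - (r + 1) = r + 1 by omega]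
  generalize hp (l : ℤ) = X1
  generalize hp ((r : ℤ) - k) = X2
  generalize hp ((r : ℤ) + k + 1) = X3
  have z : (-3 / 4 : ℚ) ^ l = (-3) ^ l * (1 / 4 ^ l) := by
    rw [← one_div_pow, ← mul_pow]; norm_num
  have w : (-1 / 27 : ℚ) ^ (r + 1) * 2304 ^ r = (-256) ^ r * (1 / 3 ^ (r + 1)) * (-1 / 9) := by
    rw [pow_succ, mul_right_comm, ← mul_pow, pow_succ (3 : ℚ) r]
    have : ((-1 / 27 : ℚ) * 2304) ^ r = (-256) ^ r * (1 / 3 ^ r) := by
      rw [← one_div_pow, ← mul_pow]; norm_num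
    rw [this]
    have : (3 : ℚ) ^ r ≠ 0 := by positivity
    field_simp
    norm_num
  rw [z, show 2 * r + 3 = 2 * (r + 1) + 1 by ring, Nat.factorial_succ (2 * (r + 1)), Nat.factorial_succ r]
  have h1 := fne r
  have h2 := fne (2 * (r + 1))
  have h3 := fne l
  have g1 : (r : ℚ) + 1 ≠ 0 := by positivity
  have g2 : 2 * ((r : ℚ) + 1) + 1 ≠ 0 := by positivity
  have : ∀ A B C D : ℚ, A * (B * ((-1 / 27) ^ (r + 1) * C) / D) * 2304 ^ r = A * B * C / D * ((-256) ^ r * (1 / 3 ^ (r + 1)) * (-1 / 9)) := by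
    intro A B C D
    rw [← w]; ring
  rw [this]
  generalize (1 : ℚ) / 3 ^ (r + 1) = Y1
  generalize (1 : ℚ) / 4 ^ l = Y2
  push_cast
  field_simp
  ring

/-- terms of the second closed form -/
def V8 (m w : ℕ) : ℚ := fprod [2 * (m + w) + 1, 2 * (m + w) + 2] / fprod [2 * (m + w), 2 * (m + w) + 3, m, m] *
  hprod [2 * (m : ℤ) - w - 1, (w : ℤ)]

lemma Mo_V8 (m w : ℕ) : Mo m (m + w + 1) * 2304 ^ (m + w) =
    2 * ((m + w + 1 : ℕ) : ℚ) * (2 * ((m + w + 1 : ℕ) : ℚ) + 1) * ((2 * (m + w + 1)).choose (m + w + 1) : ℚ) *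
      (-(16 ^ m * (-16) ^ w) / 8 * (27 ^ w * V8 m w)) := by
  unfold Mo V8 fprod hprod
  simp only [List.map_cons, List.map_nil, List.prod_cons, List.prod_nil]
  have i1 : 3 * (m : ℤ) - ((m + w + 1 : ℕ) : ℤ) = 2 * (m : ℤ) - w - 1 := by push_cast; ring
  have i2 : ((m + w + 1 : ℕ) : ℤ) - m - 1 = (w : ℤ) := by push_cast; ring
  rw [i1, i2, hp_nat (m + w + 1), pn_eq (m + w + 1), Nat.cast_choose ℚ (show m + w + 1 ≤ 2 * (m + w + 1) by omega),
    show 2 * (m + w + 1) - (m + w + 1) = m + w + 1 by omega]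
  generalize hp (w : ℤ) = X1
  generalize hp (2 * (m : ℤ) - w - 1) = X2
  have w1 : (-1 / 27 : ℚ) ^ m * (-3 / 4) ^ (m + w + 1) * 2304 ^ (m + w) = -3 / 4 * (64 ^ m * (-64) ^ w * 27 ^ w) := by
    rw [pow_add (2304 : ℚ) m w, pow_succ, pow_add (-3 / 4 : ℚ) m w]
    have a1 : (-1 / 27 : ℚ) ^ m * (-3 / 4) ^ m * 2304 ^ m = 64 ^ m := by rw [← mul_pow, ← mul_pow]; norm_num
    have a2 : (-3 / 4 : ℚ) ^ w * 2304 ^ w = (-64) ^ w * 27 ^ w := by rw [← mul_pow, ← mul_pow]; norm_num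
    linear_combination ((-3 / 4 : ℚ) ^ w * (-3 / 4) * 2304 ^ w) * a1 + 64 ^ m * (-3 / 4) * a2
  have w3 : (64 : ℚ) ^ m = 4 ^ m * 16 ^ m := by rw [← mul_pow]; norm_num
  have w4 : (-64 : ℚ) ^ w = 4 ^ w * (-16) ^ w := by rw [← mul_pow]; norm_num
  have w5 : (4 : ℚ) ^ (m + w + 1) = 4 ^ m * 4 ^ w * 4 := by rw [pow_succ, pow_add]
  rw [show 2 * (m + w + 1) = 2 * (m + w) + 1 + 1 by ring, show 2 * (m + w) + 3 = 2 * (m + w) + 1 + 1 + 1 by ring,
    show 2 * (m + w) + 2 = 2 * (m + w) + 1 + 1 by ring, Nat.factorial_succ (2 * (m + w) + 1 + 1), Nat.factorial_succ (2 * (m + w) + 1),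
    Nat.factorial_succ (2 * (m + w))]
  have h1 := fne m
  have h4 := fne (2 * (m + w))
  have h5 := fne (m + w + 1)
  have g1 : (m : ℚ) + w + 1 ≠ 0 := by positivity
  have g2 : 2 * ((m : ℚ) + w) + 1 ≠ 0 := by positivity
  have g3 : 2 * ((m : ℚ) + w) + 1 + 1 ≠ 0 := by positivity
  have g4 : 2 * ((m : ℚ) + w) + 1 + 1 + 1 ≠ 0 := by positivity
  have g5 : (4 : ℚ) ^ m ≠ 0 := by positivity
  have g6 : (4 : ℚ) ^ w ≠ 0 := by positivity
  have : ∀ A B C : ℚ, A * (B * ((-1 / 27) ^ m * (-3 / 4) ^ (m + w + 1)) / C) * 2304 ^ (m + w) = A * B / C * (-3 / 4 * (64 ^ m * (-64) ^ w * 27 ^ w)) := by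
    intro A B C
    rw [← w1]; ring
  rw [this, w3, w4, w5]
  push_cast
  field_simp
  ring

end

end Pool.Agent.X14.LG
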