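import Mathlib
import Pool.Agent.X14.LG12

set_option autoImplicit false

/-! The prime 3 for `(8k+1)`. -/

namespace Pool.Agent.X14.LG

open Finset Pool.Agent.H434R2

noncomputable section

lemma ratio_PO_hg (p : ℕ) [hpp : Fact p.Prime] (h2 : p ≠ 2) (K : ℕ) (g : ℕ → ℤ) (b0 : ℕ)
    (hg : ∀ b, b0 ≤ b → ∑ i ∈ Ico 1 b, g i ≤ K) (num den : List ℕ) (hs : List ℤ)
    (h : ∀ i, 1 ≤ i → (fl (p ^ i) den : ℤ) ≤ fl (p ^ i) num + hfl ((p : ℤ) ^ i) hs + g i) :
    PO p 0 ((p : ℚ) ^ K * (fprod num / fprod den * hprod hs)) := by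
  apply PO_of_val
  right
  obtain ⟨b, hb0, hb1, hb2⟩ : ∃ b, b0 ≤ b ∧ (∀ x ∈ num ++ den, Nat.log p x < b) ∧ (∀ x ∈ hs, Nat.log p (2 * x.natAbs) < b) := by
    refine ⟨b0 + ((num ++ den).map (Nat.log p)).sum + (hs.map (fun x => Nat.log p (2 * x.natAbs))).sum + 1, by omega, ?_, ?_⟩
    · intro x hx
      have : Nat.log p x ≤ ((num ++ den).map (Nat.log p)).sum :=
        List.single_le_sum (by simp) _ (List.mem_map_of_mem hx)
      omega
    · intro x hx
      have : Nat.log p (2 * x.natAbs) ≤ (hs.map (fun x => Nat.log p (2 * x.natAbs))).sum :=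
        List.single_le_sum (by simp) _ (List.mem_map_of_mem (f := fun x : ℤ => Nat.log p (2 * x.natAbs)) hx)
      omega
  have hp0 : (p : ℚ) ^ K ≠ 0 := pow_ne_zero _ (by exact_mod_cast hpp.out.ne_zero)
  have hpv : padicValRat p ((p : ℚ) ^ K) = K := by
    have : (p : ℚ) ^ K = ((p ^ K : ℕ) : ℚ) := by push_cast; rfl
    rw [this, padicValRat.of_nat, padicValNat.prime_pow]
  rw [padicValRat.mul hp0 (mul_ne_zero (div_ne_zero (fprod_ne _) (fprod_ne _)) (hprod_ne _)), hpv,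
    padicValRat.mul (div_ne_zero (fprod_ne _) (fprod_ne _)) (hprod_ne _), padicValRat.div (fprod_ne _) (fprod_ne _),
    val_fprod p num b (fun x hx => hb1 x (List.mem_append_left _ hx)),
    val_fprod p den b (fun x hx => hb1 x (List.mem_append_right _ hx)), val_hprod p h2 hs b hb2]
  have key := sum_le_sum (s := Ico 1 b) (fun i hi => h i (mem_Ico.1 hi).1)
  rw [sum_add_distrib, sum_add_distrib] at key
  have := hg b hb0
  push_cast at key ⊢
  linarith

lemma E8small (q x y t : ℤ) (ht : q = 3 * t) (ht1 : 1 ≤ t) (hto : t % 2 = 1) (hx0 : 0 ≤ x) (hx : x < q) (hy0 : 0 ≤ y) (hy : y < q) :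
    (2*(x+y))/q + (2*(x+y)+3)/q ≤ (2*(x+y)+1)/q + (2*(x+y)+2)/q + ((2*(2*x-y-1))/q - (2*x-y-1)/q) + (2*y)/q ∨
    ((2*(x+y))/q + (2*(x+y)+3)/q ≤ (2*(x+y)+1)/q + (2*(x+y)+2)/q + ((2*(2*x-y-1))/q - (2*x-y-1)/q) + (2*y)/q + 1 ∧ q ≤ 6*y+3) := by
  have hq : 0 < q := by omega
  obtain ⟨n0, e1, a1, a2, a3, a4⟩ := zc (q := q) (X := 2*(x+y)) 0 3 hq (by omega) (by omega)
  obtain ⟨n3, e2, b1, b2, b3, b4⟩ := zc (q := q) (X := 2*(x+y)+3) 0 3 hq (by omega) (by omega)
  obtain ⟨n1, e3, c1, c2, c3, c4⟩ := zc (q := q) (X := 2*(x+y)+1) 0 3 hq (by omega) (by omega)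
  obtain ⟨n2, e4, d1, d2, d3, d4⟩ := zc (q := q) (X := 2*(x+y)+2) 0 3 hq (by omega) (by omega)
  obtain ⟨G, e5, G1, G2, G3, G4⟩ := zc (q := q) (X := 2*(2*x-y-1)) (-2) 3 hq (by omega) (by omega)
  obtain ⟨g, e6, g1, g2, g3, g4⟩ := zc (q := q) (X := 2*x-y-1) (-1) 1 hq (by omega) (by omega)
  obtain ⟨h, e7, h1, h2, h3, h4⟩ := zc (q := q) (X := 2*y) 0 1 hq (by omega) (by omega)
  rw [e1, e2, e3, e4, e5, e6, e7]
  clear e1 e2 e3 e4 e5 e6 e7
  subst ht
  interval_cases h <;> interval_cases g <;> (try omega) <;> interval_cases G <;> (try omega) <;> interval_cases n0 <;> (try omega) <;>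
    interval_cases n3 <;> (try omega) <;> interval_cases n1 <;> (try omega) <;> interval_cases n2 <;> omega

/-- lower bound for the floor sums of `V8` -/
lemma V8_fl (m w i : ℕ) (hi : 1 ≤ i) :
    (fl (3 ^ i) [2 * (m + w), 2 * (m + w) + 3, m, m] : ℤ) ≤ fl (3 ^ i) [2 * (m + w) + 1, 2 * (m + w) + 2] + hfl (((3 : ℕ) : ℤ) ^ i) [2 * (m : ℤ) - w - 1, (w : ℤ)] ∨
    ((fl (3 ^ i) [2 * (m + w), 2 * (m + w) + 3, m, m] : ℤ) ≤ fl (3 ^ i) [2 * (m + w) + 1, 2 * (m + w) + 2] + hfl (((3 : ℕ) : ℤ) ^ i) [2 * (m : ℤ) - w - 1, (w : ℤ)] + 1 ∧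
      3 ^ i ≤ 6 * w + 3) := by
  obtain ⟨t, ht⟩ : ∃ t : ℕ, 3 ^ i = 3 * t := ⟨3 ^ (i - 1), by rw [← pow_succ']; congr 1; omega⟩
  have hodd : (3 ^ i) % 2 = 1 := by
    have : Odd (3 ^ i) := Odd.pow (by decide)
    exact Nat.odd_iff.1 this
  rw [← pz, ht]
  rw [ht] at hodd
  have ht1 : 1 ≤ t := by
    have : 0 < 3 ^ i := by positivity
    omega
  obtain ⟨q, hqt⟩ : ∃ q, q = 3 * t := ⟨_, rfl⟩
  rw [← hqt]
  rw [← hqt] at hodd
  have hq : 0 < q := by omega
  obtain ⟨A, x, hx, rfl⟩ : ∃ A x, x < q ∧ m = q * A + x := ⟨m / q, m % q, Nat.mod_lt _ hq, (Nat.div_add_mod m q).symm⟩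
  obtain ⟨B, y, hy, rfl⟩ : ∃ B y, y < q ∧ w = q * B + y := ⟨w / q, w % q, Nat.mod_lt _ hq, (Nat.div_add_mod w q).symm⟩
  have h := E8small q x y t (by omega) (by omega) (by omega) (by omega) (by omega) (by omega) (by omega)
  have hqz : (q : ℤ) ≠ 0 := by omega
  simp only [fl, hfl, List.map_cons, List.map_nil, List.sum_cons, List.sum_nil]
  push_cast
  have e1 : (2 * ((q : ℤ) * A + x + (q * B + y))) / q = 2 * (A + B) + (2 * (x + y)) / q := by
    rw [show 2 * ((q : ℤ) * A + x + (q * B + y)) = q * (2 * (A + B)) + 2 * (x + y) by ring, Int.mul_add_ediv_left _ _ hqz]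
  have e2 : (2 * ((q : ℤ) * A + x + (q * B + y)) + 3) / q = 2 * (A + B) + (2 * (x + y) + 3) / q := by
    rw [show 2 * ((q : ℤ) * A + x + (q * B + y)) + 3 = q * (2 * (A + B)) + (2 * (x + y) + 3) by ring, Int.mul_add_ediv_left _ _ hqz]
  have e3 : (2 * ((q : ℤ) * A + x + (q * B + y)) + 1) / q = 2 * (A + B) + (2 * (x + y) + 1) / q := by
    rw [show 2 * ((q : ℤ) * A + x + (q * B + y)) + 1 = q * (2 * (A + B)) + (2 * (x + y) + 1) by ring, Int.mul_add_ediv_left _ _ hqz]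
  have e4 : (2 * ((q : ℤ) * A + x + (q * B + y)) + 2) / q = 2 * (A + B) + (2 * (x + y) + 2) / q := by
    rw [show 2 * ((q : ℤ) * A + x + (q * B + y)) + 2 = q * (2 * (A + B)) + (2 * (x + y) + 2) by ring, Int.mul_add_ediv_left _ _ hqz]
  have e5 : ((q : ℤ) * A + x) / q = A := by
    rw [Int.mul_add_ediv_left _ _ hqz, Int.ediv_eq_zero_of_lt (by omega) (by omega), add_zero]
  have e6 : ((q : ℤ) * B + y) / q = B := by
    rw [Int.mul_add_ediv_left _ _ hqz, Int.ediv_eq_zero_of_lt (by omega) (by omega), add_zero]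
  have e7 : (2 * ((q : ℤ) * A + x) - (q * B + y) - 1) / q = (2 * A - B) + (2 * x - y - 1) / q := by
    rw [show 2 * ((q : ℤ) * A + x) - (q * B + y) - 1 = q * (2 * A - B) + (2 * x - y - 1) by ring, Int.mul_add_ediv_left _ _ hqz]
  have e8 : (2 * (2 * ((q : ℤ) * A + x) - (q * B + y) - 1)) / q = 2 * (2 * A - B) + (2 * (2 * x - y - 1)) / q := by
    rw [show 2 * (2 * ((q : ℤ) * A + x) - (q * B + y) - 1) = q * (2 * (2 * A - B)) + 2 * (2 * x - y - 1) by ring, Int.mul_add_ediv_left _ _ hqz]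
  have e9 : (2 * ((q : ℤ) * B + y)) / q = 2 * B + (2 * y) / q := by
    rw [show 2 * ((q : ℤ) * B + y) = q * (2 * B) + 2 * y by ring, Int.mul_add_ediv_left _ _ hqz]
  rw [e1, e2, e3, e4, e5, e6, e7, e8, e9]
  rcases h with h | ⟨h, h'⟩
  · left; linarith
  · right
    refine ⟨by linarith, ?_⟩
    have : 0 ≤ q * B := Nat.zero_le _
    omega

lemma V8_pos (m w : ℕ) (hw : 1 ≤ w) : haveI : Fact (Nat.Prime 3) := ⟨Nat.prime_three⟩
    PO 3 0 (27 ^ w * V8 m w) := by
  haveI : Fact (Nat.Prime 3) := ⟨Nat.prime_three⟩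
  have e : (27 : ℚ) ^ w = (((3 : ℕ) : ℚ)) ^ (3 * w) := by rw [pow_mul]; norm_num
  rw [e]
  unfold V8
  apply ratio_PO_hg 3 (by norm_num) (3 * w) (fun i => if i ≤ 3 * w then 1 else 0) 0
  · intro b _
    rw [sum_boole]
    have : (filter (fun x => x ≤ 3 * w) (Ico 1 b)).card ≤ (Ico 1 (3 * w + 1)).card := by
      apply card_le_card
      intro i hi
      rw [mem_filter, mem_Ico] at hi
      rw [mem_Ico]; omega
    rw [Nat.card_Ico] at this
    simp only [Nat.add_sub_cancel] at this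
    exact_mod_cast this
  · intro i hi
    rcases V8_fl m w i hi with h | ⟨h, h'⟩
    · split_ifs <;> linarith
    · have hiw : i ≤ 3 * w := by
        by_contra hcon
        have h5 : 3 ^ (3 * w + 1) ≤ 3 ^ i := Nat.pow_le_pow_right (by norm_num) (by omega)
        have h6 : 27 * w ≤ 27 ^ w := by
          obtain ⟨v, rfl⟩ : ∃ v, w = v + 1 := ⟨w - 1, by omega⟩
          have h7 : v < 27 ^ v := Nat.lt_pow_self (by norm_num)
          rw [pow_succ]
          omega
        rw [pow_succ, pow_mul] at h5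
        norm_num at h5
        omega
      simp only [hiw, if_true]
      exact h

lemma V8_zero_ndvd (r : ℕ) (hr : r % 3 ≠ 0) : haveI : Fact (Nat.Prime 3) := ⟨Nat.prime_three⟩
    PO 3 0 (V8 r 0) := by
  haveI : Fact (Nat.Prime 3) := ⟨Nat.prime_three⟩
  unfold V8
  apply ratio_PO_h 3 (by norm_num)
  intro i hi
  rcases V8_fl r 0 i hi with h | ⟨_, h'⟩
  · exact h
  · have hi1 : i = 1 := by
      by_contra hcon
      have h5 : 3 ^ 2 ≤ 3 ^ i := Nat.pow_le_pow_right (by norm_num) (by omega)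
      omega
    subst hi1
    simp only [fl, hfl, List.map_cons, List.map_nil, List.sum_cons, List.sum_nil, pow_one]
    obtain ⟨s, hs⟩ : ∃ s, r = 3 * s + 1 ∨ r = 3 * s + 2 := ⟨r / 3, by omega⟩
    rcases hs with rfl | rfl
    · push_cast; omega
    · push_cast; omega

lemma V8_zero_dvd (r : ℕ) (hr : 1 ≤ r) (hr3 : r % 3 = 0) (hnp : ¬ ∃ m, 2 * r + 3 = 3 ^ m) : haveI : Fact (Nat.Prime 3) := ⟨Nat.prime_three⟩
    PO 3 0 (V8 r 0) := by
  haveI : Fact (Nat.Prime 3) := ⟨Nat.prime_three⟩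
  obtain ⟨j, hj1, hj2⟩ : ∃ j, 3 ^ j ≤ r ∧ r < 3 ^ (j + 1) := ⟨Nat.log 3 r, Nat.pow_log_le_self 3 (by omega), Nat.lt_pow_succ_log_self (by norm_num) r⟩
  have hj : 1 ≤ j := by
    by_contra hcon
    have : j = 0 := by omega
    subst this
    norm_num at hj2
    omega
  have key := ratio_PO_hg 3 (by norm_num) 0 (fun i => if i = 1 then 1 else if i = j + 1 then -1 else 0) (j + 2) ?_
    [2 * (r + 0) + 1, 2 * (r + 0) + 2] [2 * (r + 0), 2 * (r + 0) + 3, r, r] [2 * (r : ℤ) - (0 : ℕ) - 1, ((0 : ℕ) : ℤ)] ?_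
  · unfold V8
    rw [pow_zero, one_mul] at key
    exact key
  · intro b hb
    have h1 : ∑ i ∈ Ico 1 b, (if i = 1 then (1 : ℤ) else if i = j + 1 then -1 else 0) =
        ∑ i ∈ Ico 1 b, ((if i = 1 then (1 : ℤ) else 0) + (if i = j + 1 then -1 else 0)) := by
      apply sum_congr rfl
      intro i _
      split_ifs <;> first | omega | rfl
    rw [h1, sum_add_distrib, sum_ite_eq', sum_ite_eq', if_pos (mem_Ico.2 (by omega)), if_pos (mem_Ico.2 (by omega))]
    norm_num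
  · intro i hi
    by_cases h1 : i = 1
    · subst h1
      rcases V8_fl r 0 1 (le_refl _) with h | ⟨h, _⟩
      · simp only [if_true]
        have := h
        simp only [CharP.cast_eq_zero] at this ⊢
        linarith
      · simp only [if_true]
        simp only [CharP.cast_eq_zero] at h ⊢
        linarith
    · by_cases h2 : i = j + 1
      · subst h2
        simp only [h1, if_false, if_true]
        have hodd : (3 ^ (j + 1)) % 2 = 1 := by
          have : Odd (3 ^ (j + 1)) := Odd.pow (by decide)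
          exact Nat.odd_iff.1 this
        have hne : 2 * r + 3 ≠ 3 ^ (j + 1) := fun h => hnp ⟨_, h⟩
        have hq9 : 9 ≤ 3 ^ (j + 1) := by
          have : 3 ^ 2 ≤ 3 ^ (j + 1) := Nat.pow_le_pow_right (by norm_num) (by omega)
          omega
        have hq3 : 3 ^ (j + 1) = 3 * 3 ^ j := by rw [pow_succ]; ring
        have hj9 : 3 ^ j % 3 = 0 := by
          obtain ⟨k, rfl⟩ : ∃ k, j = k + 1 := ⟨j - 1, by omega⟩
          rw [pow_succ]; omega
        rw [← pz]
        generalize 3 ^ (j + 1) = q at *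
        have hq : 0 < (q : ℤ) := by omega
        simp only [fl, hfl, List.map_cons, List.map_nil, List.sum_cons, List.sum_nil]
        push_cast
        simp only [add_zero, sub_zero, mul_zero, Int.zero_ediv]
        rw [zdiv (t := 0) (X := (r : ℤ)) hq (by omega) (by omega)]
        rcases lt_or_ge (2 * r + 3) q with h3 | h3
        · rw [zdiv (t := 0) (X := 2 * (r : ℤ)) hq (by omega) (by omega), zdiv (t := 0) (X := 2 * (r : ℤ) + 3) hq (by omega) (by omega),
            zdiv (t := 0) (X := 2 * (r : ℤ) + 1) hq (by omega) (by omega), zdiv (t := 0) (X := 2 * (r : ℤ) + 2) hq (by omega) (by omega),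
            zdiv (t := 0) (X := 2 * (r : ℤ) - 1) hq (by omega) (by omega), zdiv (t := 1) (X := 2 * (2 * (r : ℤ) - 1)) hq (by omega) (by omega)]
          norm_num
        · rw [zdiv (t := 1) (X := 2 * (r : ℤ)) hq (by omega) (by omega), zdiv (t := 1) (X := 2 * (r : ℤ) + 3) hq (by omega) (by omega),
            zdiv (t := 1) (X := 2 * (r : ℤ) + 1) hq (by omega) (by omega), zdiv (t := 1) (X := 2 * (r : ℤ) + 2) hq (by omega) (by omega),
            zdiv (t := 1) (X := 2 * (r : ℤ) - 1) hq (by omega) (by omega), zdiv (t := 2 + (2 * (2 * (r : ℤ) - 1) - 2 * q) / q) (X := 2 * (2 * (r : ℤ) - 1)) hq ?_ ?_]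
          · have : 0 ≤ (2 * (2 * (r : ℤ) - 1) - 2 * q) / q := Int.ediv_nonneg (by omega) (by omega)
            linarith
          · have := Int.ediv_mul_le (2 * (2 * (r : ℤ) - 1) - 2 * q) hq.ne'
            linarith
          · have := Int.lt_ediv_add_one_mul_self (2 * (2 * (r : ℤ) - 1) - 2 * q) hq
            linarith
      · simp only [h1, h2, if_false]
        rcases V8_fl r 0 i hi with h | ⟨_, h'⟩
        · simp only [CharP.cast_eq_zero] at h ⊢
          linarith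
        · exfalso
          have h5 : 3 ^ 2 ≤ 3 ^ i := Nat.pow_le_pow_right (by norm_num) (by omega)
          omega

end

end Pool.Agent.X14.LG
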