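import Mathlib
import Pool.Agent.X14.LG13

set_option autoImplicit false

/-! Integrality for `(8k+1)`. -/

namespace Pool.Agent.X14.LG

open Finset Pool.Agent.H434R2

noncomputable section

lemma V8_sp1 (r : ℕ) : haveI : Fact (Nat.Prime 3) := ⟨Nat.prime_three⟩
    PO 3 0 (3 * V8 r 0) := by
  haveI : Fact (Nat.Prime 3) := ⟨Nat.prime_three⟩
  have key := ratio_PO_hg 3 (by norm_num) 1 (fun i => if i = 1 then 1 else 0) 0 ?_
    [2 * (r + 0) + 1, 2 * (r + 0) + 2] [2 * (r + 0), 2 * (r + 0) + 3, r, r] [2 * (r : ℤ) - (0 : ℕ) - 1, ((0 : ℕ) : ℤ)] ?_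
  · unfold V8
    rw [pow_one] at key
    exact_mod_cast key
  · intro b _
    rw [sum_ite_eq']
    split_ifs <;> norm_num
  · intro i hi
    rcases V8_fl r 0 i hi with h | ⟨h, h'⟩
    · simp only [CharP.cast_eq_zero] at h ⊢
      split_ifs <;> linarith
    · have hi1 : i = 1 := by
        by_contra hcon
        have h5 : 3 ^ 2 ≤ 3 ^ i := Nat.pow_le_pow_right (by norm_num) (by omega)
        omega
      simp only [CharP.cast_eq_zero, hi1, if_true] at h ⊢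
      exact h

lemma V8_zero_eq (s : ℕ) : 1 / (3 * V8 (s + 1) 0) = 4 ^ (2 * s + 1) *
    (fprod [2, 2 * s + 2, 2 * s + 5, s + 1, s + 1, 2 * s + 1] / fprod [3, 2 * s + 3, 2 * s + 4, 4 * s + 2]) := by
  unfold V8 fprod hprod
  simp only [List.map_cons, List.map_nil, List.prod_cons, List.prod_nil]
  have i1 : 2 * ((s + 1 : ℕ) : ℤ) - ((0 : ℕ) : ℤ) - 1 = ((2 * s + 1 : ℕ) : ℤ) := by push_cast; ring
  rw [i1, hp_nat, hp_nat, pn_eq, pn_eq]
  rw [show 2 * (2 * s + 1) = 4 * s + 2 by ring, show 2 * (s + 1 + 0) + 1 = 2 * s + 3 by ring, show 2 * (s + 1 + 0) + 2 = 2 * s + 4 by ring,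
    show 2 * (s + 1 + 0) + 3 = 2 * s + 5 by ring, show 2 * (s + 1 + 0) = 2 * s + 2 by ring]
  have h1 := fne (s + 1)
  have h2 := fne (2 * s + 1)
  have h3 := fne (2 * s + 2)
  have h4 := fne (2 * s + 3)
  have h5 := fne (2 * s + 4)
  have h6 := fne (2 * s + 5)
  have h7 := fne (4 * s + 2)
  have f2 : (Nat.factorial 2 : ℚ) = 2 := by norm_num [Nat.factorial]
  have f3 : (Nat.factorial 3 : ℚ) = 6 := by norm_num [Nat.factorial]
  rw [f2, f3]
  simp only [Nat.mul_zero, pow_zero, Nat.factorial_zero, Nat.cast_one]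
  field_simp
  norm_num

lemma V8_sp2 (r j : ℕ) (hr : 1 ≤ r) (hj : 2 * r + 3 = 3 ^ j) : haveI : Fact (Nat.Prime 3) := ⟨Nat.prime_three⟩
    PO 3 0 (1 / (3 * V8 r 0)) := by
  haveI : Fact (Nat.Prime 3) := ⟨Nat.prime_three⟩
  obtain ⟨s, rfl⟩ : ∃ s, r = s + 1 := ⟨r - 1, by omega⟩
  rw [V8_zero_eq]
  have e4 : (4 : ℚ) ^ (2 * s + 1) = ((4 ^ (2 * s + 1) : ℕ) : ℚ) := by push_cast; rfl
  rw [e4]
  refine (PO.of_nat _).mul0 (ratio_PO 3 _ _ 0 0 ?_ (Or.inl rfl))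
  intro i hi
  simp only [fl, List.map_cons, List.map_nil, List.sum_cons, List.sum_nil]
  rcases Nat.lt_or_ge j i with h | h
  · -- large powers
    have h5 : 3 ^ (j + 1) ≤ 3 ^ i := Nat.pow_le_pow_right (by norm_num) (by omega)
    rw [pow_succ, ← hj] at h5
    rw [Nat.div_eq_of_lt (show 3 < 3 ^ i by omega), Nat.div_eq_of_lt (show 2 * s + 3 < 3 ^ i by omega),
      Nat.div_eq_of_lt (show 2 * s + 4 < 3 ^ i by omega), Nat.div_eq_of_lt (show 4 * s + 2 < 3 ^ i by omega)]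
    exact Nat.zero_le _
  · obtain ⟨d, rfl⟩ : ∃ d, j = i + d := ⟨j - i, by omega⟩
    have hodd : (3 ^ d) % 2 = 1 := by
      have : Odd (3 ^ d) := Odd.pow (by decide)
      exact Nat.odd_iff.1 this
    have hodd2 : (3 ^ i) % 2 = 1 := by
      have : Odd (3 ^ i) := Odd.pow (by decide)
      exact Nat.odd_iff.1 this
    rw [pow_add] at hj
    obtain ⟨Q, hQ⟩ : ∃ Q, 3 ^ d = 2 * Q + 1 := ⟨3 ^ d / 2, by omega⟩
    rw [hQ] at hj
    rcases Nat.lt_or_ge i 2 with h1 | h1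
    · have hi1 : i = 1 := by omega
      subst hi1
      rw [pow_one] at hj ⊢
      omega
    · have h9 : 3 ^ 2 ≤ 3 ^ i := Nat.pow_le_pow_right (by norm_num) h1
      generalize 3 ^ i = q at *
      have hqz : (0 : ℤ) < q := by omega
      have hjz : 2 * (s : ℤ) + 5 = q * (2 * Q + 1) := by
        have := congrArg (Nat.cast : ℕ → ℤ) hj
        push_cast at this
        linarith
      have h9z : (9 : ℤ) ≤ q := by omega
      apply Int.ofNat_le.1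
      push_cast
      rw [zdiv (t := 0) (X := (3 : ℤ)) hqz (by linarith) (by linarith),
        zdiv (t := 2 * Q) (X := 2 * (s : ℤ) + 3) hqz (by linarith) (by linarith),
        zdiv (t := 2 * Q) (X := 2 * (s : ℤ) + 4) hqz (by linarith) (by linarith),
        zdiv (t := 4 * Q + 1) (X := 4 * (s : ℤ) + 2) hqz (by linarith) (by linarith),
        zdiv (t := 0) (X := (2 : ℤ)) hqz (by linarith) (by linarith),
        zdiv (t := 2 * Q) (X := 2 * (s : ℤ) + 2) hqz (by linarith) (by linarith),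
        zdiv (t := 2 * Q + 1) (X := 2 * (s : ℤ) + 5) hqz (by linarith) (by linarith),
        zdiv (t := Q) (X := (s : ℤ) + 1) hqz (by linarith) (by linarith),
        zdiv (t := 2 * Q) (X := 2 * (s : ℤ) + 1) hqz (by linarith) (by linarith)]
      linarith

/-- power-of-3 conclusion -/
lemma special2 {x y : ℚ} (hy : y ≠ 0)
    (h1 : haveI : Fact (Nat.Prime 3) := ⟨Nat.prime_three⟩
      PO 3 0 (x - y))
    (h2 : haveI : Fact (Nat.Prime 3) := ⟨Nat.prime_three⟩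
      PO 3 0 (3 * y))
    (h3 : haveI : Fact (Nat.Prime 3) := ⟨Nat.prime_three⟩
      PO 3 0 (1 / (3 * y)))
    (hx : ∀ p : ℕ, p.Prime → p ≠ 3 → PO p 0 x) : ∃ z : ℤ, 3 * x = z ∧ ¬ (3 : ℤ) ∣ z := by
  haveI f3 : Fact (Nat.Prime 3) := ⟨Nat.prime_three⟩
  have h30 : PO 3 0 (3 : ℚ) := by exact_mod_cast PO.of_nat (p := 3) 3
  have hint : ∃ z : ℤ, 3 * x = z := by
    apply int_of_PO
    intro p hp
    haveI : Fact p.Prime := ⟨hp⟩
    by_cases hp3 : p = 3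
    · subst hp3
      have e : 3 * x = 3 * (x - y) + 3 * y := by ring
      rw [e]
      exact (h30.mul0 h1).add h2
    · exact (show PO p 0 (3 : ℚ) by exact_mod_cast PO.of_nat (p := p) 3).mul0 (hx p hp hp3)
  obtain ⟨z, hz⟩ := hint
  refine ⟨z, hz, ?_⟩
  rintro ⟨w, hw⟩
  have e : (1 : ℚ) = (3 : ℚ) ^ 1 * ((w - (x - y)) * (1 / (3 * y))) := by
    have : (z : ℚ) = 3 * w := by rw [hw]; push_cast; ring
    rw [this] at hz
    have hw' : (w : ℚ) = x := by linarith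
    rw [hw']
    field_simp
    ring
  have h4 : PO 3 1 (1 : ℚ) := by
    rw [e]
    have := (PO.ppow (p := 3) 1).mul0' (((PO.of_int (p := 3) w).sub h1).mul0 h3)
    exact_mod_cast this
  unfold PO at h4
  norm_num at h4

lemma b8_den (r : ℕ) : 0 < 2 * ((r + 1 : ℕ) : ℚ) * (2 * ((r + 1 : ℕ) : ℚ) + 1) * ((2 * (r + 1)).choose (r + 1) : ℚ) := a28_den r

lemma b8_eqL (r : ℕ) : b8 (r + 1) = ∑ l ∈ range (r + 1), (-((-256) ^ r * (-3) ^ l) * (1 / 3 ^ (r + 1) * (1 / 4 ^ l)) * W2 r l (2 * r + 1 - l)) := by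
  unfold b8
  rw [b8_num, path8L, div_eq_iff (b8_den r).ne', sum_mul, sum_mul]
  apply sum_congr rfl
  intro l hl
  have hl' := mem_range.1 hl
  rw [Ol_W2 r l (2 * r + 1 - l) (by omega)]
  ring

lemma b8_eqM (r : ℕ) : b8 (r + 1) = ∑ m ∈ range (r + 1), (-(16 ^ m * (-16) ^ (r - m)) / 8 * (27 ^ (r - m) * V8 m (r - m))) := by
  unfold b8
  rw [b8_num, path8M, div_eq_iff (b8_den r).ne', sum_mul, sum_mul]
  apply sum_congr rfl
  intro m hm
  obtain ⟨w, rfl⟩ : ∃ w, r = m + w := ⟨r - m, by have := mem_range.1 hm; omega⟩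
  rw [show m + w - m = w by omega, Mo_V8 m w]
  ring

lemma b8_other {p : ℕ} [hp : Fact p.Prime] (h5 : 5 ≤ p) (r : ℕ) : PO p 0 (b8 (r + 1)) := by
  rw [b8_eqL]
  apply PO.sum
  intro l hl
  have hl' := mem_range.1 hl
  have h3 : ¬ p ∣ 3 ^ (r + 1) := by
    intro h
    have := Nat.le_of_dvd (by norm_num) (hp.out.dvd_of_dvd_pow h)
    omega
  have h4 : ¬ p ∣ 4 ^ l := by
    intro h
    have := Nat.le_of_dvd (by norm_num) (hp.out.dvd_of_dvd_pow h)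
    omega
  have e : -((-256) ^ r * (-3) ^ l) * (1 / 3 ^ (r + 1) * (1 / 4 ^ l)) * W2 r l (2 * r + 1 - l) =
      ((-((-256) ^ r * (-3) ^ l) : ℤ) : ℚ) * ((((3 ^ (r + 1) : ℕ)) : ℚ)⁻¹ * (((4 ^ l : ℕ)) : ℚ)⁻¹) * W2 r l (2 * r + 1 - l) := by
    push_cast
    rw [one_div, one_div]
  rw [e]
  exact ((PO.of_int _).mul0 ((PO.inv_nat h3).mul0 (PO.inv_nat h4))).mul0 (W2_PO p h5 r _ l (by omega))

lemma b8_tail (r : ℕ) : haveI : Fact (Nat.Prime 3) := ⟨Nat.prime_three⟩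
    PO 3 0 (b8 (r + 1) - (-(16 ^ r) / 8 * V8 r 0)) := by
  haveI : Fact (Nat.Prime 3) := ⟨Nat.prime_three⟩
  rw [b8_eqM, sum_range_succ, Nat.sub_self, pow_zero, pow_zero, one_mul, mul_one, add_sub_cancel_right]
  apply PO.sum
  intro m hm
  have hm' := mem_range.1 hm
  have e : -(16 ^ m * (-16) ^ (r - m)) / 8 * (27 ^ (r - m) * V8 m (r - m)) =
      ((-(16 ^ m * (-16) ^ (r - m)) : ℤ) : ℚ) * (((8 : ℕ) : ℚ)⁻¹) * (27 ^ (r - m) * V8 m (r - m)) := by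
    push_cast; ring
  rw [e]
  exact ((PO.of_int _).mul0 (PO.inv_nat (by norm_num))).mul0 (V8_pos m (r - m) (by omega))

lemma b8_three (r : ℕ) (hr : 1 ≤ r) (h : ¬ ∃ m, 2 * r + 3 = 3 ^ m) : haveI : Fact (Nat.Prime 3) := ⟨Nat.prime_three⟩
    PO 3 0 (b8 (r + 1)) := by
  haveI : Fact (Nat.Prime 3) := ⟨Nat.prime_three⟩
  have h1 := b8_tail r
  have h2 : PO 3 0 (V8 r 0) := by
    by_cases h3 : r % 3 = 0
    · exact V8_zero_dvd r hr h3 h
    · exact V8_zero_ndvd r h3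
  have e : b8 (r + 1) = (b8 (r + 1) - (-(16 ^ r) / 8 * V8 r 0)) + ((-(16 ^ r) : ℤ) : ℚ) * (((8 : ℕ) : ℚ)⁻¹) * V8 r 0 := by
    push_cast; ring
  rw [e]
  exact h1.add (((PO.of_int _).mul0 (PO.inv_nat (by norm_num))).mul0 h2)

lemma b8_two (r : ℕ) (hr : 1 ≤ r) : haveI : Fact (Nat.Prime 2) := ⟨Nat.prime_two⟩
    PO 2 0 (b8 (r + 1)) := by
  haveI : Fact (Nat.Prime 2) := ⟨Nat.prime_two⟩
  have h := two_part4 2304 (by norm_num) r hr (fun j => (8 * (j : ℤ) + 1) * ((2 * j).centralBinom : ℤ)) (by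
    intro j hj
    obtain ⟨w, hw⟩ := Nat.two_dvd_centralBinom_of_one_le (show 1 ≤ 2 * j by omega)
    refine ⟨(8 * (j : ℤ) + 1) * w, ?_⟩
    rw [hw]; push_cast; ring)
  have hc := Nat.succ_mul_centralBinom_succ r
  have hc2 := congrArg (Nat.cast : ℕ → ℚ) hc
  push_cast at hc2
  have h3 : (r.centralBinom : ℚ) ≠ 0 := by exact_mod_cast r.centralBinom_ne_zero
  have e : b8 (r + 1) = ((∑ j ∈ range (r + 1), ((2304 : ℤ) : ℚ) ^ (r - j) * (((fun j : ℕ => (8 * (j : ℤ) + 1) * ((2 * j).centralBinom : ℤ)) j : ℤ) : ℚ) * (j.centralBinom : ℚ) ^ 2) /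
      (4 * (r.centralBinom : ℚ))) * ((((2 * r + 1 : ℕ)) : ℚ)⁻¹ * (((2 * r + 3 : ℕ)) : ℚ)⁻¹) := by
    unfold b8
    have hs : ∑ k ∈ range (r + 1), 2304 ^ (r + 1 - 1 - k) * (8 * (k : ℚ) + 1) * (((4 * k).factorial : ℚ) / (k.factorial : ℚ) ^ 4) =
        ∑ j ∈ range (r + 1), ((2304 : ℤ) : ℚ) ^ (r - j) * (((fun j : ℕ => (8 * (j : ℤ) + 1) * ((2 * j).centralBinom : ℤ)) j : ℤ) : ℚ) * (j.centralBinom : ℚ) ^ 2 := by
      apply sum_congr rfl
      intro k _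
      rw [Nat.add_sub_cancel, mult4]
      push_cast
      ring
    rw [hs]
    have hd : 2 * ((r + 1 : ℕ) : ℚ) * (2 * ((r + 1 : ℕ) : ℚ) + 1) * ((2 * (r + 1)).choose (r + 1) : ℚ) =
        (4 * (r.centralBinom : ℚ)) * ((2 * r + 1) * (2 * r + 3)) := by
      rw [← Nat.centralBinom_eq_two_mul_choose]
      push_cast
      linear_combination (2 * (2 * (r : ℚ) + 3)) * hc2
    rw [hd]
    push_cast
    rw [div_mul_eq_div_div, div_eq_mul_inv _ ((2 * (r : ℚ) + 1) * (2 * r + 3)), mul_inv]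
  rw [e]
  exact h.mul0' ((PO.inv_nat (by omega)).mul0 (PO.inv_nat (by omega)))

lemma b8_not3 (r : ℕ) (hr : 1 ≤ r) (p : ℕ) (hp : p.Prime) (hp3 : p ≠ 3) : PO p 0 (b8 (r + 1)) := by
  haveI : Fact p.Prime := ⟨hp⟩
  by_cases h2 : p = 2
  · subst h2; exact b8_two r hr
  · have h4 : p ≠ 4 := by rintro rfl; exact absurd hp (by norm_num)
    have h5 := hp.two_le
    exact b8_other (by omega) r

theorem b8_int (r : ℕ) (hr : 1 ≤ r) (h : ¬ ∃ m, 2 * r + 3 = 3 ^ m) : ∃ z : ℤ, b8 (r + 1) = z := by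
  apply int_of_PO
  intro p hp
  by_cases h3 : p = 3
  · subst h3; exact b8_three r hr h
  · exact b8_not3 r hr p hp h3

theorem b8_special (r : ℕ) (hr : 1 ≤ r) (h : ∃ m, 2 * r + 3 = 3 ^ m) : ∃ z : ℤ, 3 * b8 (r + 1) = z ∧ ¬ (3 : ℤ) ∣ z := by
  haveI : Fact (Nat.Prime 3) := ⟨Nat.prime_three⟩
  obtain ⟨j, hj⟩ := h
  have hV : V8 r 0 ≠ 0 := by
    unfold V8
    exact mul_ne_zero (div_ne_zero (fprod_ne _) (fprod_ne _)) (hprod_ne _)
  refine special2 (x := b8 (r + 1)) (y := -(16 ^ r) / 8 * V8 r 0) ?_ (b8_tail r) ?_ ?_ (b8_not3 r hr)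
  · exact mul_ne_zero (by
      have : (16 : ℚ) ^ r ≠ 0 := by positivity
      exact div_ne_zero (neg_ne_zero.2 this) (by norm_num)) hV
  · have e : 3 * (-(16 ^ r) / 8 * V8 r 0) = ((-(16 ^ r) : ℤ) : ℚ) * (((8 : ℕ) : ℚ)⁻¹) * (3 * V8 r 0) := by
      push_cast; ring
    rw [e]
    exact ((PO.of_int _).mul0 (PO.inv_nat (by norm_num))).mul0 (V8_sp1 r)
  · have e : 1 / (3 * (-(16 ^ r) / 8 * V8 r 0)) = ((-8 : ℤ) : ℚ) * (((16 ^ r : ℕ) : ℚ)⁻¹) * (1 / (3 * V8 r 0)) := by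
      have : (16 : ℚ) ^ r ≠ 0 := by positivity
      push_cast
      field_simp
    rw [e]
    have h16 : ¬ 3 ∣ 16 ^ r := by
      intro h
      have := Nat.prime_three.dvd_of_dvd_pow h
      omega
    exact ((PO.of_int _).mul0 (PO.inv_nat h16)).mul0 (V8_sp2 r j hr hj)

end

end Pool.Agent.X14.LG
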