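import Mathlib
import Pool.Agent.X14.LG14

set_option autoImplicit false

/-! The series with `(6k+1)` and ratio `216`. -/

namespace Pool.Agent.X14.LG

open Finset Pool.Agent.H434R2

noncomputable section

def F6 (n k : ℕ) : ℚ := (6 * n + 1) *
  (((2 * n).factorial : ℚ) * ((3 * (n + k)).factorial : ℚ) * (k.factorial : ℚ) /
    (8 ^ (n + k) * 27 ^ n * (n.factorial : ℚ) ^ 2 * ((n + k).factorial : ℚ) ^ 2 * ((3 * k).factorial : ℚ)) * rf ((n : ℤ) - k))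

def D6 (n k : ℕ) : ℚ := 4 * (3 * n + 2) * (n + k) *
  (((2 * n).factorial : ℚ) * ((3 * (n + k)).factorial : ℚ) * (k.factorial : ℚ) /
    (8 ^ (n + k) * 27 ^ n * (n.factorial : ℚ) ^ 2 * ((n + k).factorial : ℚ) ^ 2 * ((3 * k).factorial : ℚ)) * rf ((n : ℤ) - k + 1))

lemma rel6 (n k : ℕ) : D6 (n + 1) (k + 1) - D6 n (k + 1) = F6 (n + 1) k - F6 n (k + 1) := by
  unfold D6 F6
  have i1 : ((n + 1 : ℕ) : ℤ) - ((k + 1 : ℕ) : ℤ) + 1 = n - k + 1 := by push_cast; ring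
  have i2 : (n : ℤ) - ((k + 1 : ℕ) : ℤ) + 1 = n - k := by push_cast; ring
  have i3 : ((n + 1 : ℕ) : ℤ) - (k : ℤ) = n - k + 1 := by push_cast; ring
  have i4 : (n : ℤ) - ((k + 1 : ℕ) : ℤ) = n - k - 1 := by push_cast; ring
  have r1 : rf ((n : ℤ) - k) = (((n - k : ℤ) : ℚ) + 1) * rf (n - k + 1) := rf_succ _
  have r2 : rf ((n : ℤ) - k - 1) = (((n - k - 1 : ℤ) : ℚ) + 1) * rf (n - k) := by
    rw [rf_succ]; congr 2; ring
  rw [i1, i2, i3, i4, r2, r1]
  generalize rf ((n : ℤ) - k + 1) = X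
  rw [show 3 * (n + 1 + (k + 1)) = 3 * (n + k + 1) + 1 + 1 + 1 by ring, show 3 * (n + (k + 1)) = 3 * (n + k + 1) by ring,
    show 3 * (n + 1 + k) = 3 * (n + k + 1) by ring, show n + 1 + (k + 1) = n + k + 1 + 1 by ring, show n + (k + 1) = n + k + 1 by ring,
    show n + 1 + k = n + k + 1 by ring, show 2 * (n + 1) = 2 * n + 1 + 1 by ring, show 3 * (k + 1) = 3 * k + 1 + 1 + 1 by ring]
  rw [Nat.factorial_succ (3 * (n + k + 1) + 1 + 1), Nat.factorial_succ (3 * (n + k + 1) + 1), Nat.factorial_succ (3 * (n + k + 1)),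
    Nat.factorial_succ (n + k + 1), Nat.factorial_succ (2 * n + 1), Nat.factorial_succ (2 * n), Nat.factorial_succ (3 * k + 1 + 1),
    Nat.factorial_succ (3 * k + 1), Nat.factorial_succ (3 * k), Nat.factorial_succ n, Nat.factorial_succ k,
    pow_succ (8 : ℚ) (n + k + 1), pow_succ (27 : ℚ) n]
  have h1 := fne (3 * (n + k + 1))
  have h2 := fne (n + k + 1)
  have h3 := fne (2 * n)
  have h4 := fne (3 * k)
  have h5 := fne n
  have h6 := fne k
  have g1 : (n : ℚ) + 1 ≠ 0 := by positivity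
  have g2 : (k : ℚ) + 1 ≠ 0 := by positivity
  have g3 : (n : ℚ) + k + 1 + 1 ≠ 0 := by positivity
  have g4 : 3 * (k : ℚ) + 1 ≠ 0 := by positivity
  have g5 : 3 * (k : ℚ) + 1 + 1 ≠ 0 := by positivity
  have g6 : 3 * (k : ℚ) + 1 + 1 + 1 ≠ 0 := by positivity
  push_cast
  field_simp
  ring

lemma bd6 (N : ℕ) : D6 0 (N + 1) = F6 0 N := by
  unfold D6 F6
  have i1 : ((0 : ℕ) : ℤ) - ((N + 1 : ℕ) : ℤ) + 1 = ((0 : ℕ) : ℤ) - N := by push_cast; ring
  rw [i1]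
  generalize rf (((0 : ℕ) : ℤ) - N) = X
  simp only [Nat.zero_add, Nat.mul_zero, pow_zero, Nat.factorial_zero]
  rw [Nat.factorial_succ, pow_succ (8 : ℚ) N]
  have h1 := fne N
  have h2 := fne (3 * N)
  have h3 := fne (3 * (N + 1))
  have g1 : (N : ℚ) + 1 ≠ 0 := by positivity
  push_cast
  field_simp
  ring

theorem path6 (N : ℕ) : ∑ n ∈ range N, F6 n 0 = ∑ k ∈ range N, D6 (N - 1 - k) (k + 1) := by
  induction N with
  | zero => simp
  | succ N ih =>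
    rw [sum_range_succ, ih, sum_range_succ (fun k => D6 (N + 1 - 1 - k) (k + 1))]
    have h1 : ∑ k ∈ range N, D6 (N + 1 - 1 - k) (k + 1) = ∑ k ∈ range N, (D6 (N - 1 - k) (k + 1) + (F6 (N - k) k - F6 (N - (k + 1)) (k + 1))) := by
      apply sum_congr rfl
      intro k hk
      have hk' := mem_range.1 hk
      obtain ⟨d, rfl⟩ : ∃ d, N = k + d + 1 := ⟨N - k - 1, by omega⟩
      rw [show k + d + 1 + 1 - 1 - k = d + 1 by omega, show k + d + 1 - 1 - k = d by omega, show k + d + 1 - k = d + 1 by omega,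
        show k + d + 1 - (k + 1) = d by omega]
      linarith [rel6 d k]
    rw [h1, sum_add_distrib, sum_range_sub' (fun k => F6 (N - k) k), Nat.sub_self, Nat.sub_zero, show N + 1 - 1 - N = 0 by omega, bd6]
    ring

/-- normalised sum for `(6k+1)` -/
def a6 (n : ℕ) : ℚ := (∑ k ∈ range n, 216 ^ (n - 1 - k) * (6 * (k : ℚ) + 1) * ((2 * k).choose k : ℚ) ^ 2 * ((3 * k).choose k : ℚ)) /
  ((n : ℚ) * (2 * n + 1) * ((2 * n).choose n : ℚ))

lemma F6_zero (n : ℕ) : F6 n 0 = (6 * n + 1) * (((2 * n).choose n : ℚ) ^ 2 * ((3 * n).choose n : ℚ) / 216 ^ n) := by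
  unfold F6
  rw [Nat.cast_choose ℚ (show n ≤ 2 * n by omega), Nat.cast_choose ℚ (show n ≤ 3 * n by omega)]
  rw [show 2 * n - n = n by omega, show 3 * n - n = 2 * n by omega]
  have i1 : (n : ℤ) - ((0 : ℕ) : ℤ) = (n : ℤ) := by push_cast; ring
  rw [i1, rf_nat]
  simp only [Nat.mul_zero, Nat.add_zero, Nat.factorial_zero]
  have h1 := fne n
  have h2 := fne (2 * n)
  have h3 := fne (3 * n)
  have e : (216 : ℚ) ^ n = 8 ^ n * 27 ^ n := by rw [← mul_pow]; norm_num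
  rw [e]
  push_cast
  field_simp

lemma a6_num (r : ℕ) : ∑ k ∈ range (r + 1), 216 ^ (r + 1 - 1 - k) * (6 * (k : ℚ) + 1) * ((2 * k).choose k : ℚ) ^ 2 * ((3 * k).choose k : ℚ) =
      (∑ n ∈ range (r + 1), F6 n 0) * 216 ^ r := by
  rw [sum_mul]
  apply sum_congr rfl
  intro k hk
  have hk' := mem_range.1 hk
  obtain ⟨d, rfl⟩ : ∃ d, r = k + d := ⟨r - k, by omega⟩
  rw [F6_zero, show k + d + 1 - 1 - k = d by omega, pow_add]
  have : (216 : ℚ) ^ k ≠ 0 := pow_ne_zero _ (by norm_num)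
  field_simp

/-- the factorial quotient for `(6k+1)`, `n = e + k` -/
def W6 (e k : ℕ) : ℚ := fprod [3 * (e + k) + 2, 2 * (e + k), 3 * (e + 2 * k + 1), k + 1] /
  fprod [3 * (e + k) + 1, e + k, e + k, 2 * (e + 2 * k + 1) + 1, e, 3 * (k + 1)]

lemma D6_W6 (e k : ℕ) : D6 (e + k) (k + 1) * 216 ^ (e + 2 * k) =
    ((e + 2 * k + 1 : ℕ) : ℚ) * (2 * ((e + 2 * k + 1 : ℕ) : ℚ) + 1) * ((2 * (e + 2 * k + 1)).choose (e + 2 * k + 1) : ℚ) * (27 ^ k / 2 * W6 e k) := by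
  unfold D6 W6 fprod
  simp only [List.map_cons, List.map_nil, List.prod_cons, List.prod_nil]
  have i1 : ((e + k : ℕ) : ℤ) - ((k + 1 : ℕ) : ℤ) + 1 = (e : ℤ) := by push_cast; ring
  rw [i1, rf_nat, show e + k + (k + 1) = e + 2 * k + 1 by ring, Nat.cast_choose ℚ (show e + 2 * k + 1 ≤ 2 * (e + 2 * k + 1) by omega),
    show 2 * (e + 2 * k + 1) - (e + 2 * k + 1) = e + 2 * k + 1 by omega]
  rw [show 3 * (e + k) + 2 = 3 * (e + k) + 1 + 1 by ring, Nat.factorial_succ (3 * (e + k) + 1), Nat.factorial_succ (2 * (e + 2 * k + 1))]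
  have h1 := fne (3 * (e + k) + 1)
  have h2 := fne (2 * (e + 2 * k + 1))
  have h3 := fne (e + k)
  have h4 := fne (e + 2 * k + 1)
  have h5 := fne e
  have h6 := fne (3 * (k + 1))
  have w : (216 : ℚ) ^ (e + 2 * k) = 8 ^ (e + 2 * k) * (27 ^ (e + k) * 27 ^ k) := by
    rw [← pow_add, show e + k + k = e + 2 * k by ring, ← mul_pow]; norm_num
  have g1 : 2 * ((e : ℚ) + 2 * k + 1) + 1 ≠ 0 := by positivity
  rw [w, pow_succ (8 : ℚ) (e + 2 * k)]
  push_cast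
  field_simp
  ring

lemma D6_vanish (n k : ℕ) (h : n < k) : D6 n (k + 1) = 0 := by
  unfold D6
  rw [rf_neg (by push_cast; omega)]
  ring

end

end Pool.Agent.X14.LG
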