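import Mathlib
import Pool.Agent.X14.LG15

set_option autoImplicit false

/-! Integrality for `(6k+1)`. -/

namespace Pool.Agent.X14.LG

open Finset Pool.Agent.H434R2

noncomputable section

lemma D6small (q x y t : ℤ) (hq2 : 2 ≤ q) (ht : q = 3 * t + 1 ∨ q = 3 * t + 2) (hx0 : 0 ≤ x) (hx : x < q) (hy0 : 0 ≤ y) (hy : y < q) :
    (3*x+3*y+1)/q + 2*((x+y)/q) + (2*x+4*y+3)/q + (3*y+3)/q ≤ (3*x+3*y+2)/q + (2*x+2*y)/q + (3*x+6*y+3)/q + (y+1)/q := by
  have hq : 0 < q := by omega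
  obtain ⟨a, e1, a1, a2, a3, a4⟩ := zc (q := q) (X := 3*x+3*y+1) 0 5 hq (by omega) (by omega)
  obtain ⟨b, e2, b1, b2, b3, b4⟩ := zc (q := q) (X := x+y) 0 1 hq (by omega) (by omega)
  obtain ⟨c, e3, c1, c2, c3, c4⟩ := zc (q := q) (X := 2*x+4*y+3) 0 5 hq (by omega) (by omega)
  obtain ⟨d, e4, d1, d2, d3, d4⟩ := zc (q := q) (X := 3*y+3) 0 3 hq (by omega) (by omega)
  obtain ⟨A, e5, A1, A2, A3, A4⟩ := zc (q := q) (X := 3*x+3*y+2) 0 5 hq (by omega) (by omega)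
  obtain ⟨B, e6, B1, B2, B3, B4⟩ := zc (q := q) (X := 2*x+2*y) 0 3 hq (by omega) (by omega)
  obtain ⟨C, e7, C1, C2, C3, C4⟩ := zc (q := q) (X := 3*x+6*y+3) 0 8 hq (by omega) (by omega)
  obtain ⟨D, e8, D1, D2, D3, D4⟩ := zc (q := q) (X := y+1) 0 1 hq (by omega) (by omega)
  rw [e1, e2, e3, e4, e5, e6, e7, e8]
  clear e1 e2 e3 e4 e5 e6 e7 e8
  interval_cases D <;> interval_cases d <;> (try omega) <;> interval_cases b <;> (try omega) <;> interval_cases B <;> (try omega) <;>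
    interval_cases c <;> (try omega) <;> interval_cases C <;> (try omega) <;> interval_cases a <;> (try omega) <;>
    interval_cases A <;> first | omega | (rcases ht with ht | ht <;> omega)

lemma R6small (q x y : ℤ) (hq2 : 2 ≤ q) (hx0 : 0 ≤ x) (hx : x < q) (hy0 : 0 ≤ y) (hy : y < q) :
    2*((x+y)/q) + (2*x+4*y+3)/q ≤ (2*x+2*y)/q + (3*x+6*y+3)/q := by
  have hq : 0 < q := by omega
  obtain ⟨b, e2, b1, b2, b3, b4⟩ := zc (q := q) (X := x+y) 0 1 hq (by omega) (by omega)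
  obtain ⟨c, e3, c1, c2, c3, c4⟩ := zc (q := q) (X := 2*x+4*y+3) 0 6 hq (by omega) (by omega)
  obtain ⟨B, e6, B1, B2, B3, B4⟩ := zc (q := q) (X := 2*x+2*y) 0 3 hq (by omega) (by omega)
  obtain ⟨C, e7, C1, C2, C3, C4⟩ := zc (q := q) (X := 3*x+6*y+3) 0 9 hq (by omega) (by omega)
  rw [e2, e3, e6, e7]
  clear e2 e3 e6 e7
  interval_cases b <;> interval_cases B <;> (try omega) <;> interval_cases c <;> (try omega) <;> interval_cases C <;> omega

lemma W6_PO (p : ℕ) [hp : Fact p.Prime] (h3 : p ≠ 3) (e k : ℕ) : PO p 0 (W6 e k) := by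
  unfold W6
  apply ratio_PO p _ _ 0 0 _ (Or.inl rfl)
  intro i hi
  have hq2 : 2 ≤ p ^ i := le_trans hp.out.two_le (Nat.le_self_pow (by omega) p)
  have hq3 : p ^ i % 3 ≠ 0 := by
    intro h
    have h1 : 3 ∣ p ^ i := Nat.dvd_of_mod_eq_zero h
    have h2 := (Nat.prime_three.dvd_of_dvd_pow h1)
    exact h3 ((Nat.prime_dvd_prime_iff_eq Nat.prime_three hp.out).1 h2).symm
  generalize p ^ i = q at hq2 hq3 ⊢
  have hq : 0 < q := by omega
  obtain ⟨A, x, hx, rfl⟩ : ∃ A x, x < q ∧ e = q * A + x := ⟨e / q, e % q, Nat.mod_lt _ hq, (Nat.div_add_mod e q).symm⟩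
  obtain ⟨B, y, hy, rfl⟩ : ∃ B y, y < q ∧ k = q * B + y := ⟨k / q, k % q, Nat.mod_lt _ hq, (Nat.div_add_mod k q).symm⟩
  have h := D6small q x y ((q / 3 : ℕ) : ℤ) (by omega) (by omega) (by omega) (by omega) (by omega) (by omega)
  have hqz : (q : ℤ) ≠ 0 := by omega
  simp only [fl, List.map_cons, List.map_nil, List.sum_cons, List.sum_nil]
  apply Int.ofNat_le.1
  push_cast
  have e1 : (3 * ((q : ℤ) * A + x + (q * B + y)) + 1) / q = 3 * (A + B) + (3 * x + 3 * y + 1) / q := by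
    rw [show 3 * ((q : ℤ) * A + x + (q * B + y)) + 1 = q * (3 * (A + B)) + (3 * x + 3 * y + 1) by ring, Int.mul_add_ediv_left _ _ hqz]
  have e2 : (3 * ((q : ℤ) * A + x + (q * B + y)) + 2) / q = 3 * (A + B) + (3 * x + 3 * y + 2) / q := by
    rw [show 3 * ((q : ℤ) * A + x + (q * B + y)) + 2 = q * (3 * (A + B)) + (3 * x + 3 * y + 2) by ring, Int.mul_add_ediv_left _ _ hqz]
  have e3 : ((q : ℤ) * A + x + (q * B + y)) / q = (A + B) + (x + y) / q := by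
    rw [show (q : ℤ) * A + x + (q * B + y) = q * (A + B) + (x + y) by ring, Int.mul_add_ediv_left _ _ hqz]
  have e4 : (2 * ((q : ℤ) * A + x + (q * B + y))) / q = 2 * (A + B) + (2 * x + 2 * y) / q := by
    rw [show 2 * ((q : ℤ) * A + x + (q * B + y)) = q * (2 * (A + B)) + (2 * x + 2 * y) by ring, Int.mul_add_ediv_left _ _ hqz]
  have e5 : (2 * ((q : ℤ) * A + x + 2 * (q * B + y) + 1) + 1) / q = 2 * (A + 2 * B) + (2 * x + 4 * y + 3) / q := by
    rw [show 2 * ((q : ℤ) * A + x + 2 * (q * B + y) + 1) + 1 = q * (2 * (A + 2 * B)) + (2 * x + 4 * y + 3) by ring, Int.mul_add_ediv_left _ _ hqz]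
  have e6 : (3 * ((q : ℤ) * A + x + 2 * (q * B + y) + 1)) / q = 3 * (A + 2 * B) + (3 * x + 6 * y + 3) / q := by
    rw [show 3 * ((q : ℤ) * A + x + 2 * (q * B + y) + 1) = q * (3 * (A + 2 * B)) + (3 * x + 6 * y + 3) by ring, Int.mul_add_ediv_left _ _ hqz]
  have e7 : ((q : ℤ) * B + y + 1) / q = B + (y + 1) / q := by
    rw [show (q : ℤ) * B + y + 1 = q * B + (y + 1) by ring, Int.mul_add_ediv_left _ _ hqz]
  have e8 : (3 * ((q : ℤ) * B + y + 1)) / q = 3 * B + (3 * y + 3) / q := by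
    rw [show 3 * ((q : ℤ) * B + y + 1) = q * (3 * B) + (3 * y + 3) by ring, Int.mul_add_ediv_left _ _ hqz]
  have e9 : ((q : ℤ) * A + x) / q = A := by
    rw [Int.mul_add_ediv_left _ _ hqz, Int.ediv_eq_zero_of_lt (by omega) (by omega), add_zero]
  rw [e1, e2, e3, e4, e5, e6, e7, e8, e9]
  linarith

lemma W6_three (e k : ℕ) : haveI : Fact (Nat.Prime 3) := ⟨Nat.prime_three⟩
    PO 3 0 ((3 : ℚ) ^ (k + 1) * W6 e k) := by
  haveI : Fact (Nat.Prime 3) := ⟨Nat.prime_three⟩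
  have e0 : (3 : ℚ) ^ (k + 1) * W6 e k = ((3 * (e + k) + 2 : ℕ) : ℚ) *
      ((3 : ℚ) ^ (k + 1) * (((k + 1).factorial : ℚ) / ((3 * (k + 1)).factorial : ℚ))) *
      (fprod [2 * (e + k), 3 * (e + 2 * k + 1)] / fprod [e + k, e + k, 2 * (e + 2 * k + 1) + 1, e]) := by
    unfold W6 fprod
    simp only [List.map_cons, List.map_nil, List.prod_cons, List.prod_nil]
    rw [show 3 * (e + k) + 2 = 3 * (e + k) + 1 + 1 by ring, Nat.factorial_succ (3 * (e + k) + 1)]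
    have h1 := fne (3 * (e + k) + 1)
    have h2 := fne (e + k)
    have h3 := fne (2 * (e + 2 * k + 1) + 1)
    have h4 := fne e
    have h5 := fne (3 * (k + 1))
    push_cast
    field_simp
  rw [e0]
  refine ((PO.of_nat _).mul0 (three_fact (k + 1))).mul0 ?_
  apply ratio_PO 3 _ _ 0 0 _ (Or.inl rfl)
  intro i hi
  have hq2 : 2 ≤ 3 ^ i := le_trans (by norm_num) (Nat.le_self_pow (by omega) 3)
  generalize 3 ^ i = q at hq2 ⊢
  have hq : 0 < q := by omega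
  obtain ⟨A, x, hx, rfl⟩ : ∃ A x, x < q ∧ e = q * A + x := ⟨e / q, e % q, Nat.mod_lt _ hq, (Nat.div_add_mod e q).symm⟩
  obtain ⟨B, y, hy, rfl⟩ : ∃ B y, y < q ∧ k = q * B + y := ⟨k / q, k % q, Nat.mod_lt _ hq, (Nat.div_add_mod k q).symm⟩
  have h := R6small q x y (by omega) (by omega) (by omega) (by omega) (by omega)
  have hqz : (q : ℤ) ≠ 0 := by omega
  simp only [fl, List.map_cons, List.map_nil, List.sum_cons, List.sum_nil]
  apply Int.ofNat_le.1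
  push_cast
  have e3 : ((q : ℤ) * A + x + (q * B + y)) / q = (A + B) + (x + y) / q := by
    rw [show (q : ℤ) * A + x + (q * B + y) = q * (A + B) + (x + y) by ring, Int.mul_add_ediv_left _ _ hqz]
  have e4 : (2 * ((q : ℤ) * A + x + (q * B + y))) / q = 2 * (A + B) + (2 * x + 2 * y) / q := by
    rw [show 2 * ((q : ℤ) * A + x + (q * B + y)) = q * (2 * (A + B)) + (2 * x + 2 * y) by ring, Int.mul_add_ediv_left _ _ hqz]
  have e5 : (2 * ((q : ℤ) * A + x + 2 * (q * B + y) + 1) + 1) / q = 2 * (A + 2 * B) + (2 * x + 4 * y + 3) / q := by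
    rw [show 2 * ((q : ℤ) * A + x + 2 * (q * B + y) + 1) + 1 = q * (2 * (A + 2 * B)) + (2 * x + 4 * y + 3) by ring, Int.mul_add_ediv_left _ _ hqz]
  have e6 : (3 * ((q : ℤ) * A + x + 2 * (q * B + y) + 1)) / q = 3 * (A + 2 * B) + (3 * x + 6 * y + 3) / q := by
    rw [show 3 * ((q : ℤ) * A + x + 2 * (q * B + y) + 1) = q * (3 * (A + 2 * B)) + (3 * x + 6 * y + 3) by ring, Int.mul_add_ediv_left _ _ hqz]
  have e9 : ((q : ℤ) * A + x) / q = A := by
    rw [Int.mul_add_ediv_left _ _ hqz, Int.ediv_eq_zero_of_lt (by omega) (by omega), add_zero]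
  rw [e3, e4, e5, e6, e9]
  linarith

lemma a6_eq (r : ℕ) : a6 (r + 1) = ∑ k ∈ range (r + 1), (if 2 * k ≤ r then 27 ^ k / 2 * W6 (r - 2 * k) k else 0) := by
  unfold a6
  rw [a6_num, path6, div_eq_iff (a51_den r).ne', sum_mul, sum_mul]
  apply sum_congr rfl
  intro k hk
  have hk' := mem_range.1 hk
  split_ifs with h
  · obtain ⟨e, rfl⟩ : ∃ e, r = e + 2 * k := ⟨r - 2 * k, by omega⟩
    rw [show e + 2 * k + 1 - 1 - k = e + k by omega, show e + 2 * k - 2 * k = e by omega, D6_W6 e k]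
    ring
  · rw [D6_vanish _ _ (by omega)]
    ring

lemma W6_zero (r : ℕ) : W6 r 0 = ((3 * r + 2 : ℕ) : ℚ) * ((2 * r).choose r : ℚ) * ((3 * r + 3).choose r : ℚ) / 6 := by
  rw [Nat.cast_choose ℚ (show r ≤ 2 * r by omega), Nat.cast_choose ℚ (show r ≤ 3 * r + 3 by omega)]
  unfold W6 fprod
  simp only [List.map_cons, List.map_nil, List.prod_cons, List.prod_nil, Nat.add_zero, Nat.mul_zero, Nat.zero_add]
  rw [show 2 * r - r = r by omega, show 3 * r + 3 - r = 2 * (r + 1) + 1 by omega, show 3 * (r + 1) = 3 * r + 3 by ring,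
    show 3 * r + 2 = 3 * r + 1 + 1 by ring, Nat.factorial_succ (3 * r + 1)]
  have h1 := fne r
  have h3 := fne (2 * (r + 1) + 1)
  have h4 := fne (3 * r + 1)
  have f1 : (Nat.factorial 1 : ℚ) = 1 := by norm_num
  have f3 : (Nat.factorial (3 * 1) : ℚ) = 6 := by norm_num [Nat.factorial]
  rw [f1, f3]
  push_cast
  field_simp

lemma a6_two (r : ℕ) (hr : 1 ≤ r) : haveI : Fact (Nat.Prime 2) := ⟨Nat.prime_two⟩
    PO 2 0 (a6 (r + 1)) := by
  haveI : Fact (Nat.Prime 2) := ⟨Nat.prime_two⟩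
  have h := two_part 216 (by norm_num) r hr (fun j => (6 * (j : ℤ) + 1) * ((3 * j).choose j : ℤ))
  have hc := Nat.succ_mul_centralBinom_succ r
  have hc2 := congrArg (Nat.cast : ℕ → ℚ) hc
  push_cast at hc2
  have h3 : (r.centralBinom : ℚ) ≠ 0 := by exact_mod_cast r.centralBinom_ne_zero
  have e : a6 (r + 1) = ((∑ j ∈ range (r + 1), ((216 : ℤ) : ℚ) ^ (r - j) * (((fun j : ℕ => (6 * (j : ℤ) + 1) * ((3 * j).choose j : ℤ)) j : ℤ) : ℚ) * (j.centralBinom : ℚ) ^ 2) /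
      (2 * (r.centralBinom : ℚ))) * ((((2 * r + 1 : ℕ)) : ℚ)⁻¹ * (((2 * r + 3 : ℕ)) : ℚ)⁻¹) := by
    unfold a6
    have hs : ∑ k ∈ range (r + 1), 216 ^ (r + 1 - 1 - k) * (6 * (k : ℚ) + 1) * ((2 * k).choose k : ℚ) ^ 2 * ((3 * k).choose k : ℚ) =
        ∑ j ∈ range (r + 1), ((216 : ℤ) : ℚ) ^ (r - j) * (((fun j : ℕ => (6 * (j : ℤ) + 1) * ((3 * j).choose j : ℤ)) j : ℤ) : ℚ) * (j.centralBinom : ℚ) ^ 2 := by
      apply sum_congr rfl
      intro k _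
      rw [Nat.add_sub_cancel, Nat.centralBinom_eq_two_mul_choose]
      push_cast
      ring
    rw [hs]
    have hd : ((r + 1 : ℕ) : ℚ) * (2 * ((r + 1 : ℕ) : ℚ) + 1) * ((2 * (r + 1)).choose (r + 1) : ℚ) =
        (2 * (r.centralBinom : ℚ)) * ((2 * r + 1) * (2 * r + 3)) := by
      rw [← Nat.centralBinom_eq_two_mul_choose]
      push_cast
      linear_combination (2 * (r : ℚ) + 3) * hc2
    rw [hd]
    push_cast
    rw [div_mul_eq_div_div, div_eq_mul_inv _ ((2 * (r : ℚ) + 1) * (2 * r + 3)), mul_inv]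
  rw [e]
  exact h.mul0' ((PO.inv_nat (by omega)).mul0 (PO.inv_nat (by omega)))

lemma a6_other {p : ℕ} [hp : Fact p.Prime] (h2 : p ≠ 2) (h3 : p ≠ 3) (r : ℕ) : PO p 0 (a6 (r + 1)) := by
  rw [a6_eq]
  apply PO.sum
  intro k _
  split_ifs
  · have e : (27 : ℚ) ^ k / 2 * W6 (r - 2 * k) k = ((27 ^ k : ℕ) : ℚ) * (2 : ℚ)⁻¹ * W6 (r - 2 * k) k := by push_cast; ring
    rw [e]
    exact ((PO.of_nat _).mul0 (half_PO h2)).mul0 (W6_PO p h3 _ _)
  · exact PO.zero 0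

lemma a6_tail (r : ℕ) : haveI : Fact (Nat.Prime 3) := ⟨Nat.prime_three⟩
    PO 3 0 (a6 (r + 1) - W6 r 0 / 2) := by
  haveI : Fact (Nat.Prime 3) := ⟨Nat.prime_three⟩
  rw [a6_eq, sum_range_succ']
  rw [if_pos (by omega : 2 * 0 ≤ r), show r - 2 * 0 = r by omega]
  have e : ∑ k ∈ range r, (if 2 * (k + 1) ≤ r then (27 : ℚ) ^ (k + 1) / 2 * W6 (r - 2 * (k + 1)) (k + 1) else 0) + 27 ^ 0 / 2 * W6 r 0 - W6 r 0 / 2 =
      ∑ k ∈ range r, (if 2 * (k + 1) ≤ r then (27 : ℚ) ^ (k + 1) / 2 * W6 (r - 2 * (k + 1)) (k + 1) else 0) := by ring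
  rw [e]
  apply PO.sum
  intro k _
  split_ifs
  · have e1 : (27 : ℚ) ^ (k + 1) / 2 * W6 (r - 2 * (k + 1)) (k + 1) = ((3 ^ (2 * k + 1) : ℕ) : ℚ) * ((2 : ℚ)⁻¹ * ((3 : ℚ) ^ (k + 1 + 1) * W6 (r - 2 * (k + 1)) (k + 1))) := by
      have e2 : (27 : ℚ) ^ (k + 1) = 3 ^ (2 * k + 1) * 3 ^ (k + 1 + 1) := by
        rw [← pow_add, show 2 * k + 1 + (k + 1 + 1) = 3 * (k + 1) by ring, pow_mul]; norm_num
      rw [e2]
      push_cast
      ring
    rw [e1]
    exact (PO.of_nat _).mul0 ((half_PO (by norm_num)).mul0 (W6_three _ _))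
  · exact PO.zero 0

lemma a6_three (r : ℕ) (h : 3 ∣ (3 * r + 3).choose r) : haveI : Fact (Nat.Prime 3) := ⟨Nat.prime_three⟩
    PO 3 0 (a6 (r + 1)) := by
  haveI : Fact (Nat.Prime 3) := ⟨Nat.prime_three⟩
  obtain ⟨w, hw⟩ := h
  have h1 := a6_tail r
  have h2 : PO 3 0 (W6 r 0 / 2) := by
    rw [W6_zero, hw]
    have e : ((3 * r + 2 : ℕ) : ℚ) * ((2 * r).choose r : ℚ) * (((3 * w : ℕ)) : ℚ) / 6 / 2 = (((3 * r + 2) * (2 * r).choose r * w : ℕ) : ℚ) * (((4 : ℕ) : ℚ)⁻¹) := by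
      push_cast; ring
    rw [e]
    exact (PO.of_nat _).mul0 (PO.inv_nat (by norm_num))
  have e : a6 (r + 1) = (a6 (r + 1) - W6 r 0 / 2) + W6 r 0 / 2 := by ring
  rw [e]
  exact h1.add h2

theorem a6_int (r : ℕ) (hr : 1 ≤ r) (h : ¬ ∃ m, 2 * r + 3 = 3 ^ m) : ∃ z : ℤ, a6 (r + 1) = z := by
  apply int_of_PO
  intro p hp
  haveI : Fact p.Prime := ⟨hp⟩
  by_cases h2 : p = 2
  · subst h2; exact a6_two r hr
  · by_cases h3 : p = 3
    · subst h3
      rcases T3 r with h' | h'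
      · exact a6_three r h'
      · exact absurd h' h
    · exact a6_other h2 h3 r

theorem a6_special (r : ℕ) (hr : 1 ≤ r) (h : ∃ m, 2 * r + 3 = 3 ^ m) : ∃ z : ℤ, 3 * a6 (r + 1) = z ∧ ¬ (3 : ℤ) ∣ z := by
  obtain ⟨m, hm⟩ := h
  obtain ⟨t1, t2, t3⟩ := T3' hm
  haveI f3 : Fact (Nat.Prime 3) := ⟨Nat.prime_three⟩
  refine special (x := a6 (r + 1)) (c := 3 * (W6 r 0 / 2)) ((3 * r + 2) * (2 * r).choose r * (3 * r + 3).choose r) ?_ 4 (by norm_num) ?_ ?_ ?_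
  · intro hd
    rcases (Nat.Prime.dvd_mul Nat.prime_three).1 hd with h | h
    · rcases (Nat.Prime.dvd_mul Nat.prime_three).1 h with h | h
      · omega
      · exact t2 h
    · exact t1 h
  · rw [W6_zero]; push_cast; ring
  · have := a6_tail r
    have e : a6 (r + 1) - 3 * (W6 r 0 / 2) / 3 = a6 (r + 1) - W6 r 0 / 2 := by ring
    rw [e]; exact this
  · intro p hp hp3
    haveI : Fact p.Prime := ⟨hp⟩
    by_cases h2 : p = 2
    · subst h2; exact a6_two r hr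
    · exact a6_other h2 hp3 r

end

end Pool.Agent.X14.LG
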