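import Mathlib
import Pool.Agent.X14.LG16

set_option autoImplicit false

/-! The series with `(154k+15)` and ratio `-32768`: closed form. -/

namespace Pool.Agent.X14.LG

open Finset Pool.Agent.H434R2

noncomputable section

def F15 (n : ℕ) (b : ℤ) : ℚ := ((154 * n + 15 + 55 * b) * (2 * n + 1 + b) + 6 * b + 9 * b ^ 2) *
  (hp (3 * n) * hp (n + 2 * b) * rf (2 * n + b + 1) * rf (n + b) / (n.factorial : ℚ) * (-1 / 128) ^ n * (1 / 4) ^ b)

def Om15 (n : ℕ) (b : ℤ) : ℚ := 128 * n *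
  (hp (3 * n) * hp (n + 2 * b) * rf (2 * n + b) * rf (n + b) / (n.factorial : ℚ) * (-1 / 128) ^ n * (1 / 4) ^ b)

lemma clo15 (n : ℕ) (b : ℤ) : Om15 (n + 1) b - Om15 n b = F15 n (b + 1) - F15 n b := by
  unfold Om15 F15
  have e1 : hp (3 * ((n + 1 : ℕ) : ℤ)) = hp (3 * n) * (((3 * n : ℤ) : ℚ) + 1 / 2) * (((3 * n + 1 : ℤ) : ℚ) + 1 / 2) * (((3 * n + 1 + 1 : ℤ) : ℚ) + 1 / 2) := by
    rw [← hp_succ, ← hp_succ, ← hp_succ]; congr 1
  have e2 : hp (((n + 1 : ℕ) : ℤ) + 2 * b) = hp (n + 2 * b) * (((n + 2 * b : ℤ) : ℚ) + 1 / 2) := by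
    rw [← hp_succ]; congr 1; push_cast; ring
  have e3 : hp ((n : ℤ) + 2 * (b + 1)) = hp (n + 2 * b) * (((n + 2 * b : ℤ) : ℚ) + 1 / 2) * (((n + 2 * b + 1 : ℤ) : ℚ) + 1 / 2) := by
    rw [← hp_succ, ← hp_succ]; congr 1; ring
  have e4 : 2 * ((n + 1 : ℕ) : ℤ) + b = 2 * n + b + 2 := by push_cast; ring
  have e5 : ((n + 1 : ℕ) : ℤ) + b = n + b + 1 := by push_cast; ring
  have e6 : 2 * (n : ℤ) + (b + 1) + 1 = 2 * n + b + 2 := by ring
  have e7 : (n : ℤ) + (b + 1) = n + b + 1 := by ring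
  have r1 : rf (2 * (n : ℤ) + b + 1) = (((2 * n + b + 1 : ℤ) : ℚ) + 1) * rf (2 * n + b + 2) := by
    rw [rf_succ]; congr 2; ring
  have r2 : rf (2 * (n : ℤ) + b) = (((2 * n + b : ℤ) : ℚ) + 1) * rf (2 * n + b + 1) := rf_succ _
  have r3 : rf ((n : ℤ) + b) = (((n + b : ℤ) : ℚ) + 1) * rf (n + b + 1) := rf_succ _
  have z1 : ((1 / 4 : ℚ)) ^ (b + 1) = (1 / 4) ^ b * (1 / 4) := zpow_add_one₀ (by norm_num) b
  rw [e1, e2, e3, e4, e5, e6, e7, r3, r2, r1, z1, Nat.factorial_succ, pow_succ (-1 / 128 : ℚ) n]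
  have h1 := fne n
  have h2 : (n : ℚ) + 1 ≠ 0 := by positivity
  push_cast
  field_simp
  ring

theorem path15 (N : ℕ) : ∑ n ∈ range N, F15 n 0 = ∑ k ∈ range N, Om15 N (-((k : ℤ) + 1)) := by
  induction N with
  | zero => simp
  | succ N ih =>
    rw [sum_range_succ, ih]
    have e1 : ∑ k ∈ range N, Om15 N (-((k : ℤ) + 1)) = ∑ k ∈ range (N + 1), Om15 N (-((k : ℤ) + 1)) := by
      rw [sum_range_succ]
      have : Om15 N (-((N : ℤ) + 1)) = 0 := by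
        unfold Om15
        rw [rf_neg (m := (N : ℤ) + -((N : ℤ) + 1)) (by omega)]
        ring
      rw [this, add_zero]
    have e2 : ∑ k ∈ range (N + 1), Om15 (N + 1) (-((k : ℤ) + 1)) - ∑ k ∈ range (N + 1), Om15 N (-((k : ℤ) + 1)) = F15 N 0 := by
      rw [← sum_sub_distrib]
      have : ∀ k : ℕ, Om15 (N + 1) (-((k : ℤ) + 1)) - Om15 N (-((k : ℤ) + 1)) = F15 N (-(k : ℤ)) - F15 N (-((k + 1 : ℕ) : ℤ)) := by
        intro k
        rw [clo15]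
        have g1 : -((k : ℤ) + 1) + 1 = -(k : ℤ) := by ring
        have g2 : -((k : ℤ) + 1) = -((k + 1 : ℕ) : ℤ) := by push_cast; ring
        rw [g1, g2]
      rw [sum_congr rfl (fun k _ => this k), sum_range_sub' (fun k : ℕ => F15 N (-(k : ℤ)))]
      have h3 : F15 N (-((N + 1 : ℕ) : ℤ)) = 0 := by
        unfold F15
        rw [rf_neg (m := (N : ℤ) + -((N + 1 : ℕ) : ℤ)) (by push_cast; omega)]
        ring
      rw [h3]
      simp
    rw [e1]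
    linarith

lemma F15_zero (n : ℕ) : F15 n 0 = (154 * n + 15) * (((6 * n).factorial : ℚ) / (((3 * n).factorial : ℚ) * (n.factorial : ℚ) ^ 3) / (-32768) ^ n) := by
  unfold F15
  have e1 : 3 * (n : ℤ) = ((3 * n : ℕ) : ℤ) := by push_cast; ring
  have e2 : (n : ℤ) + 2 * 0 = ((n : ℕ) : ℤ) := by ring
  have e3 : 2 * (n : ℤ) + 0 + 1 = ((2 * n + 1 : ℕ) : ℤ) := by push_cast; ring
  have e4 : (n : ℤ) + 0 = ((n : ℕ) : ℤ) := by ring
  rw [e1, e2, e3, e4, hp_nat, hp_nat, rf_nat, rf_nat, pn_eq, pn_eq, Nat.factorial_succ, zpow_zero]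
  rw [show 2 * (3 * n) = 6 * n by ring]
  have h1 := fne n
  have h2 := fne (2 * n)
  have h3 := fne (3 * n)
  have h4 := fne (6 * n)
  have g1 : 2 * (n : ℚ) + 1 ≠ 0 := by positivity
  have e : (-1 / 128 : ℚ) ^ n = 256 ^ n / (-32768) ^ n := by rw [← div_pow]; norm_num
  have e5 : (256 : ℚ) ^ n = 4 ^ (3 * n) * 4 ^ n := by
    rw [pow_mul, ← mul_pow]; norm_num
  have g2 : (-32768 : ℚ) ^ n ≠ 0 := pow_ne_zero _ (by norm_num)
  have g3 : (4 : ℚ) ^ n ≠ 0 := by positivity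
  have g4 : (4 : ℚ) ^ (3 * n) ≠ 0 := by positivity
  rw [e, e5]
  push_cast
  field_simp
  ring

/-- normalised sum for `(154k+15)` -/
def a15 (n : ℕ) : ℚ := (∑ j ∈ range n, (154 * (j : ℚ) + 15) * (((6 * j).factorial : ℚ) / (((3 * j).factorial : ℚ) * (j.factorial : ℚ) ^ 3)) * (-32768) ^ (n - 1 - j)) /
  (2 * (n : ℚ) * (2 * n + 1) * ((2 * n).choose n : ℚ))

lemma a15_num (r : ℕ) : ∑ j ∈ range (r + 1), (154 * (j : ℚ) + 15) * (((6 * j).factorial : ℚ) / (((3 * j).factorial : ℚ) * (j.factorial : ℚ) ^ 3)) * (-32768) ^ (r + 1 - 1 - j) =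
      (∑ n ∈ range (r + 1), F15 n 0) * (-32768) ^ r := by
  rw [sum_mul]
  apply sum_congr rfl
  intro k hk
  have hk' := mem_range.1 hk
  obtain ⟨d, rfl⟩ : ∃ d, r = k + d := ⟨r - k, by omega⟩
  rw [F15_zero, show k + d + 1 - 1 - k = d by omega, pow_add]
  have : (-32768 : ℚ) ^ k ≠ 0 := pow_ne_zero _ (by norm_num)
  field_simp

/-- the terms of the closed form -/
def tt (N : ℕ) (k : ℤ) : ℚ := hp (3 * N) * hp (N - 2 * k) * (N.factorial : ℚ) / ((2 * N + 1).factorial : ℚ) * 4 ^ k * rf (2 * N - k) * rf (N - k)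

lemma Om15_tt (r k : ℕ) : Om15 (r + 1) (-((k : ℤ) + 1)) * (-32768) ^ r =
    2 * ((r + 1 : ℕ) : ℚ) * (2 * ((r + 1 : ℕ) : ℚ) + 1) * ((2 * (r + 1)).choose (r + 1) : ℚ) *
      (-(256 ^ r) / 2 * tt (r + 1) ((k : ℤ) + 1)) := by
  unfold Om15 tt
  have i1 : ((r + 1 : ℕ) : ℤ) + 2 * -((k : ℤ) + 1) = ((r + 1 : ℕ) : ℤ) - 2 * ((k : ℤ) + 1) := by ring
  have i2 : 2 * ((r + 1 : ℕ) : ℤ) + -((k : ℤ) + 1) = 2 * ((r + 1 : ℕ) : ℤ) - ((k : ℤ) + 1) := by ring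
  have i3 : ((r + 1 : ℕ) : ℤ) + -((k : ℤ) + 1) = ((r + 1 : ℕ) : ℤ) - ((k : ℤ) + 1) := by ring
  rw [i1, i2, i3, Nat.cast_choose ℚ (show r + 1 ≤ 2 * (r + 1) by omega), show 2 * (r + 1) - (r + 1) = r + 1 by omega]
  generalize hp (3 * ((r + 1 : ℕ) : ℤ)) = X1
  generalize hp (((r + 1 : ℕ) : ℤ) - 2 * ((k : ℤ) + 1)) = X2
  generalize rf (2 * ((r + 1 : ℕ) : ℤ) - ((k : ℤ) + 1)) = X3
  generalize rf (((r + 1 : ℕ) : ℤ) - ((k : ℤ) + 1)) = X4
  have z : (1 / 4 : ℚ) ^ (-((k : ℤ) + 1)) = 4 ^ ((k : ℤ) + 1) := by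
    rw [zpow_neg, ← inv_zpow]; norm_num
  have w : (-1 / 128 : ℚ) ^ (r + 1) * (-32768) ^ r = 256 ^ r * (-1 / 128) := by
    rw [pow_succ, mul_right_comm, ← mul_pow]; norm_num
  rw [z, Nat.factorial_succ (2 * (r + 1))]
  generalize (4 : ℚ) ^ ((k : ℤ) + 1) = X5
  have h1 := fne (r + 1)
  have h2 := fne (2 * (r + 1))
  have g1 : (r : ℚ) + 1 ≠ 0 := by positivity
  have g2 : 2 * ((r : ℚ) + 1) + 1 ≠ 0 := by positivity
  have : ∀ A B C : ℚ, A * (B * (-1 / 128) ^ (r + 1) * C) * (-32768) ^ r = A * B * C * (256 ^ r * (-1 / 128)) := by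
    intro A B C
    rw [← w]; ring
  rw [this]
  push_cast
  field_simp

lemma a15_eq (r : ℕ) : a15 (r + 1) = -(256 ^ r) / 2 * ∑ k ∈ range (r + 1), tt (r + 1) ((k : ℤ) + 1) := by
  unfold a15
  rw [a15_num, path15, div_eq_iff (a28_den r).ne', sum_mul, mul_sum, sum_mul]
  apply sum_congr rfl
  intro k _
  rw [Om15_tt r k]
  ring

lemma tt_prod (a k : ℕ) : tt (a + k + 1) ((k : ℤ) + 1) = 4 ^ (k + 1) * (fprod [a + k + 1] / fprod [2 * a + 2 * k + 3, 2 * a + k + 1, a] *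
    hprod [3 * ((a : ℤ) + k + 1), (a : ℤ) - k - 1]) := by
  unfold tt fprod hprod
  simp only [List.map_cons, List.map_nil, List.prod_cons, List.prod_nil]
  have i1 : 3 * ((a + k + 1 : ℕ) : ℤ) = 3 * ((a : ℤ) + k + 1) := by push_cast; ring
  have i2 : ((a + k + 1 : ℕ) : ℤ) - 2 * ((k : ℤ) + 1) = (a : ℤ) - k - 1 := by push_cast; ring
  have i3 : 2 * ((a + k + 1 : ℕ) : ℤ) - ((k : ℤ) + 1) = ((2 * a + k + 1 : ℕ) : ℤ) := by push_cast; ring
  have i4 : ((a + k + 1 : ℕ) : ℤ) - ((k : ℤ) + 1) = (a : ℤ) := by push_cast; ring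
  have i5 : (4 : ℚ) ^ ((k : ℤ) + 1) = 4 ^ (k + 1) := by
    have : ((k : ℤ) + 1) = ((k + 1 : ℕ) : ℤ) := by push_cast; rfl
    rw [this, zpow_natCast]
  rw [i1, i2, i3, i4, i5, rf_nat, rf_nat, show 2 * (a + k + 1) + 1 = 2 * a + 2 * k + 3 by ring]
  have h1 := fne (2 * a + 2 * k + 3)
  have h2 := fne (2 * a + k + 1)
  have h3 := fne a
  field_simp

lemma P15small (q x y : ℤ) (hq3 : 3 ≤ q) (ho : q % 2 = 1) (hx0 : 0 ≤ x) (hx : x < q) (hy0 : 0 ≤ y) (hy : y < q) :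
    (2*(x+y+1)+1)/q + (2*x+y+1)/q ≤ (x+y+1)/q + ((2*(3*(x+y+1)))/q - (3*(x+y+1))/q) + ((2*(x-y-1))/q - (x-y-1)/q) := by
  have hq : 0 < q := by omega
  obtain ⟨a, e1, a1, a2, a3, a4⟩ := zc (q := q) (X := 2*(x+y+1)+1) 0 4 hq (by omega) (by omega)
  obtain ⟨b, e2, b1, b2, b3, b4⟩ := zc (q := q) (X := 2*x+y+1) 0 2 hq (by omega) (by omega)
  obtain ⟨c, e3, c1, c2, c3, c4⟩ := zc (q := q) (X := x+y+1) 0 1 hq (by omega) (by omega)
  obtain ⟨G, e4, G1, G2, G3, G4⟩ := zc (q := q) (X := 2*(3*(x+y+1))) 0 11 hq (by omega) (by omega)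
  obtain ⟨g, e5, g1, g2, g3, g4⟩ := zc (q := q) (X := 3*(x+y+1)) 0 5 hq (by omega) (by omega)
  obtain ⟨D, e6, D1, D2, D3, D4⟩ := zc (q := q) (X := 2*(x-y-1)) (-2) 1 hq (by omega) (by omega)
  obtain ⟨d, e7, d1, d2, d3, d4⟩ := zc (q := q) (X := x-y-1) (-1) 0 hq (by omega) (by omega)
  rw [e1, e2, e3, e4, e5, e6, e7]
  clear e1 e2 e3 e4 e5 e6 e7
  interval_cases d <;> interval_cases D <;> (try omega) <;> interval_cases c <;> (try omega) <;> interval_cases a <;> (try omega) <;>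
    interval_cases b <;> (try omega) <;> interval_cases g <;> (try omega) <;> interval_cases G <;> omega

lemma tt_PO (p : ℕ) [hpp : Fact p.Prime] (h2 : p ≠ 2) (a k : ℕ) : PO p 0 (tt (a + k + 1) ((k : ℤ) + 1)) := by
  rw [tt_prod]
  have e4 : (4 : ℚ) ^ (k + 1) = ((4 ^ (k + 1) : ℕ) : ℚ) := by push_cast; rfl
  rw [e4]
  refine (PO.of_nat _).mul0 (ratio_PO_h p h2 _ _ _ ?_)
  intro i hi
  have hp3 : 3 ≤ p := by
    have := hpp.out.two_le
    omega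
  have hq3 : 3 ≤ p ^ i := le_trans hp3 (Nat.le_self_pow (by omega) p)
  have hodd : (p ^ i) % 2 = 1 := by
    have h5 : p % 2 = 1 := hpp.out.eq_two_or_odd.resolve_left h2
    have : Odd (p ^ i) := Odd.pow (Nat.odd_iff.2 h5)
    exact Nat.odd_iff.1 this
  rw [← pz]
  generalize p ^ i = q at hq3 hodd ⊢
  have hq : 0 < q := by omega
  obtain ⟨A, x, hx, rfl⟩ : ∃ A x, x < q ∧ a = q * A + x := ⟨a / q, a % q, Nat.mod_lt _ hq, (Nat.div_add_mod a q).symm⟩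
  obtain ⟨B, y, hy, rfl⟩ : ∃ B y, y < q ∧ k = q * B + y := ⟨k / q, k % q, Nat.mod_lt _ hq, (Nat.div_add_mod k q).symm⟩
  have h := P15small q x y (by omega) (by omega) (by omega) (by omega) (by omega) (by omega)
  have hqz : (q : ℤ) ≠ 0 := by omega
  simp only [fl, hfl, List.map_cons, List.map_nil, List.sum_cons, List.sum_nil]
  push_cast
  have e1 : (2 * ((q : ℤ) * A + x) + 2 * (q * B + y) + 3) / q = 2 * (A + B) + (2 * (x + y + 1) + 1) / q := by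
    rw [show 2 * ((q : ℤ) * A + x) + 2 * (q * B + y) + 3 = q * (2 * (A + B)) + (2 * (x + y + 1) + 1) by ring, Int.mul_add_ediv_left _ _ hqz]
  have e2 : (2 * ((q : ℤ) * A + x) + (q * B + y) + 1) / q = (2 * A + B) + (2 * x + y + 1) / q := by
    rw [show 2 * ((q : ℤ) * A + x) + (q * B + y) + 1 = q * (2 * A + B) + (2 * x + y + 1) by ring, Int.mul_add_ediv_left _ _ hqz]
  have e3 : ((q : ℤ) * A + x + (q * B + y) + 1) / q = (A + B) + (x + y + 1) / q := by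
    rw [show (q : ℤ) * A + x + (q * B + y) + 1 = q * (A + B) + (x + y + 1) by ring, Int.mul_add_ediv_left _ _ hqz]
  have e4 : ((q : ℤ) * A + x) / q = A := by
    rw [Int.mul_add_ediv_left _ _ hqz, Int.ediv_eq_zero_of_lt (by omega) (by omega), add_zero]
  have e5 : (3 * ((q : ℤ) * A + x + (q * B + y) + 1)) / q = 3 * (A + B) + (3 * (x + y + 1)) / q := by
    rw [show 3 * ((q : ℤ) * A + x + (q * B + y) + 1) = q * (3 * (A + B)) + 3 * (x + y + 1) by ring, Int.mul_add_ediv_left _ _ hqz]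
  have e6 : (2 * (3 * ((q : ℤ) * A + x + (q * B + y) + 1))) / q = 6 * (A + B) + (2 * (3 * (x + y + 1))) / q := by
    rw [show 2 * (3 * ((q : ℤ) * A + x + (q * B + y) + 1)) = q * (6 * (A + B)) + 2 * (3 * (x + y + 1)) by ring, Int.mul_add_ediv_left _ _ hqz]
  have e7 : ((q : ℤ) * A + x - (q * B + y) - 1) / q = (A - B) + (x - y - 1) / q := by
    rw [show (q : ℤ) * A + x - (q * B + y) - 1 = q * (A - B) + (x - y - 1) by ring, Int.mul_add_ediv_left _ _ hqz]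
  have e8 : (2 * ((q : ℤ) * A + x - (q * B + y) - 1)) / q = 2 * (A - B) + (2 * (x - y - 1)) / q := by
    rw [show 2 * ((q : ℤ) * A + x - (q * B + y) - 1) = q * (2 * (A - B)) + 2 * (x - y - 1) by ring, Int.mul_add_ediv_left _ _ hqz]
  rw [e1, e2, e3, e4, e5, e6, e7, e8]
  linarith

end

end Pool.Agent.X14.LG
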