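import Mathlib
import Pool.Agent.X14.LG17

set_option autoImplicit false

/-! The prime 5 for `(154k+15)`: the values at `5 j`. -/

namespace Pool.Agent.X14.LG

open Finset Pool.Agent.H434R2

noncomputable section

instance fact5 : Fact (Nat.Prime 5) := ⟨Nat.prime_five⟩

/-- one-units at 5 -/
def U5 (x : ℚ) : Prop := PO 5 1 (x - 1)

lemma PO5w {x : ℚ} (h : PO 5 1 x) : PO 5 0 x := PO.mono (by norm_num) h

lemma U5.int {x : ℚ} (h : U5 x) : PO 5 0 x := by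
  have := (PO5w h).add (PO.one (p := 5))
  have e : x - 1 + 1 = x := by ring
  rwa [e] at this

lemma U5.mul {x y : ℚ} (hx : U5 x) (hy : U5 y) : U5 (x * y) := by
  unfold U5
  have e : x * y - 1 = x * (y - 1) + (x - 1) := by ring
  rw [e]
  exact (hx.int.mul0 hy).add hx

lemma U5.ne {x : ℚ} (h : U5 x) : x ≠ 0 := by
  have := PO.one_add_ne h
  have e : 1 + (x - 1) = x := by ring
  rwa [e] at this

lemma U5.inv {x : ℚ} (h : U5 x) : U5 x⁻¹ := by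
  unfold U5
  have h1 := PO.inv_one_add h
  have e : 1 + (x - 1) = x := by ring
  rw [e] at h1
  have e2 : x⁻¹ - 1 = x⁻¹ * (-(x - 1)) := by
    have := h.ne
    field_simp
    ring
  rw [e2]
  exact h1.mul0 (PO.neg h)

lemma U5.one : U5 1 := by
  unfold U5; rw [sub_self]; exact PO.zero 1

lemma U5.pow {x : ℚ} (h : U5 x) (n : ℕ) : U5 (x ^ n) := by
  induction n with
  | zero => rw [pow_zero]; exact U5.one
  | succ n ih => rw [pow_succ]; exact ih.mul h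

lemma U5.of_int {z : ℤ} (h : (5 : ℤ) ∣ z - 1) : U5 (z : ℚ) := by
  obtain ⟨w, hw⟩ := h
  unfold U5
  have e : (z : ℚ) - 1 = (5 : ℚ) ^ 1 * (w : ℚ) := by
    have := congrArg (Int.cast : ℤ → ℚ) hw
    push_cast at this
    linarith
  rw [e]
  have := (PO.ppow (p := 5) 1).mul0' (PO.of_int (p := 5) w)
  exact_mod_cast this

/-- `(-1)^n (5n)!/(5^n n!)` -/
def al5 (n : ℕ) : ℚ := (-1) ^ n * ((5 * n).factorial : ℚ) / (5 ^ n * (n.factorial : ℚ))

lemma al5_U (n : ℕ) : U5 (al5 n) := by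
  induction n with
  | zero => unfold al5; simp only [Nat.mul_zero, Nat.factorial_zero, pow_zero]; norm_num; exact U5.one
  | succ n ih =>
    have e : al5 (n + 1) = al5 n * ((-((5 * n + 1) * (5 * n + 2) * (5 * n + 3) * (5 * n + 4)) : ℤ) : ℚ) := by
      unfold al5
      rw [show 5 * (n + 1) = 5 * n + 1 + 1 + 1 + 1 + 1 by ring, Nat.factorial_succ (5 * n + 1 + 1 + 1 + 1), Nat.factorial_succ (5 * n + 1 + 1 + 1),
        Nat.factorial_succ (5 * n + 1 + 1), Nat.factorial_succ (5 * n + 1), Nat.factorial_succ (5 * n), Nat.factorial_succ n,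
        pow_succ (-1 : ℚ) n, pow_succ (5 : ℚ) n]
      have h1 := fne n
      have h2 : (n : ℚ) + 1 ≠ 0 := by positivity
      push_cast
      field_simp
      ring
    rw [e]
    refine ih.mul (U5.of_int ?_)
    refine ⟨-((n : ℤ) * (125 * n ^ 3 + 250 * n ^ 2 + 175 * n + 50) + 5), ?_⟩
    ring

lemma half5 (z : ℤ) (h : (5 : ℤ) ∣ z - 16) : U5 ((z : ℚ) / 16) := by
  have h1 : U5 ((16 : ℤ) : ℚ) := U5.of_int (by norm_num)
  have h2 : U5 (z : ℚ) := U5.of_int (by omega)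
  have := h2.mul h1.inv
  rw [div_eq_mul_inv]
  exact_mod_cast this

/-- `(-1)^n hp(5n)/(5^n hp(n))` -/
def be5 (n : ℤ) : ℚ := (-1) ^ n * hp (5 * n) / (5 ^ n * hp n)

lemma be5_succ (n : ℤ) : be5 (n + 1) = be5 n * (((-((10 * n + 1) * (10 * n + 3) * (10 * n + 7) * (10 * n + 9)) : ℤ) : ℚ) / 16) := by
  unfold be5
  have e : hp (5 * (n + 1)) = hp (5 * n) * (((5 * n : ℤ) : ℚ) + 1 / 2) * (((5 * n + 1 : ℤ) : ℚ) + 1 / 2) * (((5 * n + 1 + 1 : ℤ) : ℚ) + 1 / 2) *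
      (((5 * n + 1 + 1 + 1 : ℤ) : ℚ) + 1 / 2) * (((5 * n + 1 + 1 + 1 + 1 : ℤ) : ℚ) + 1 / 2) := by
    rw [← hp_succ, ← hp_succ, ← hp_succ, ← hp_succ, ← hp_succ]; congr 1; ring
  rw [e, hp_succ n, zpow_add_one₀ (by norm_num) n, zpow_add_one₀ (by norm_num) n]
  have h1 := hp_ne n
  have h2 : (5 : ℚ) ^ n ≠ 0 := zpow_ne_zero _ (by norm_num)
  have h3 : (n : ℚ) + 1 / 2 ≠ 0 := by
    intro h
    have : (2 * n + 1 : ℚ) = 0 := by linarith
    have h4 : (2 * n + 1 : ℤ) = 0 := by exact_mod_cast this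
    omega
  have e5 : ((5 * n + 1 + 1 : ℤ) : ℚ) + 1 / 2 = 5 * ((n : ℚ) + 1 / 2) := by push_cast; ring
  rw [e5]
  generalize (n : ℚ) + 1 / 2 = Y at h3
  push_cast
  field_simp
  ring

lemma be5_step (n : ℤ) : U5 (((-((10 * n + 1) * (10 * n + 3) * (10 * n + 7) * (10 * n + 9)) : ℤ) : ℚ) / 16) := by
  apply half5
  refine ⟨-(n * (2000 * n ^ 3 + 4000 * n ^ 2 + 2600 * n + 600) + 41), ?_⟩
  ring

lemma be5_zero : be5 0 = 1 := by
  unfold be5
  have := hp_ne 0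
  simp only [mul_zero, zpow_zero, one_mul]
  exact div_self this

lemma be5_U (n : ℤ) : U5 (be5 n) := by
  induction n using Int.induction_on with
  | zero => rw [be5_zero]; exact U5.one
  | succ n ih => rw [be5_succ]; exact ih.mul (be5_step _)
  | pred n ih =>
    have h := be5_succ (-(n : ℤ) - 1)
    have hs := be5_step (-(n : ℤ) - 1)
    rw [show -(n : ℤ) - 1 + 1 = -(n : ℤ) by ring] at h
    have e : be5 (-(n : ℤ) - 1) = be5 (-(n : ℤ)) * (((-((10 * (-(n : ℤ) - 1) + 1) * (10 * (-(n : ℤ) - 1) + 3) * (10 * (-(n : ℤ) - 1) + 7) * (10 * (-(n : ℤ) - 1) + 9)) : ℤ) : ℚ) / 16)⁻¹ := by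
      rw [h, mul_assoc, mul_inv_cancel₀ hs.ne, mul_one]
    rw [e]
    exact ih.mul hs.inv

lemma fact5n (n : ℕ) : ((5 * n).factorial : ℚ) = (-1) ^ n * 5 ^ n * (n.factorial : ℚ) * al5 n := by
  unfold al5
  have h1 := fne n
  have h2 : (5 : ℚ) ^ n ≠ 0 := by positivity
  have e2 : (-1 : ℚ) ^ n * (-1) ^ n = 1 := by rw [← mul_pow]; norm_num
  have : (-1 : ℚ) ^ n * 5 ^ n * (n.factorial : ℚ) * ((-1) ^ n * ((5 * n).factorial : ℚ) / (5 ^ n * (n.factorial : ℚ))) =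
      ((-1 : ℚ) ^ n * (-1) ^ n) * ((5 * n).factorial : ℚ) := by
    field_simp
  rw [this, e2, one_mul]

lemma hp5n (n : ℤ) : hp (5 * n) = (-1) ^ n * 5 ^ n * hp n * be5 n := by
  unfold be5
  have h1 := hp_ne n
  have h2 : (5 : ℚ) ^ n ≠ 0 := zpow_ne_zero _ (by norm_num)
  have e2 : (-1 : ℚ) ^ n * (-1) ^ n = 1 := by rw [← mul_zpow]; norm_num
  have : (-1 : ℚ) ^ n * 5 ^ n * hp n * ((-1) ^ n * hp (5 * n) / (5 ^ n * hp n)) = ((-1 : ℚ) ^ n * (-1) ^ n) * hp (5 * n) := by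
    field_simp
  rw [this, e2, one_mul]

/-- the multiples of 5 -/
lemma tt5 (a m : ℕ) : ∃ u, U5 u ∧ tt (5 * (a + m)) (5 * (m : ℤ)) = (2 * ((a + m : ℕ) : ℚ) + 1) * tt (a + m) m * u := by
  refine ⟨be5 (3 * ((a + m : ℕ) : ℤ)) * be5 ((a : ℤ) - m) * al5 (a + m) * (al5 (2 * (a + m)))⁻¹ * (al5 (2 * a + m))⁻¹ * (al5 a)⁻¹ *
      ((256 : ℤ) : ℚ) ^ m * (((10 * ((a + m : ℕ) : ℤ) + 1 : ℤ) : ℚ))⁻¹, ?_, ?_⟩
  · exact (((((((be5_U _).mul (be5_U _)).mul (al5_U _)).mul (al5_U _).inv).mul (al5_U _).inv).mul (al5_U _).inv).mul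
      ((U5.of_int (by norm_num)).pow m)).mul (U5.of_int (by omega)).inv
  · unfold tt
    have i1 : 3 * ((5 * (a + m) : ℕ) : ℤ) = 5 * (3 * ((a + m : ℕ) : ℤ)) := by push_cast; ring
    have i2 : ((5 * (a + m) : ℕ) : ℤ) - 2 * (5 * (m : ℤ)) = 5 * ((a : ℤ) - m) := by push_cast; ring
    have i3 : 2 * ((5 * (a + m) : ℕ) : ℤ) - 5 * (m : ℤ) = ((5 * (2 * a + m) : ℕ) : ℤ) := by push_cast; ring
    have i4 : ((5 * (a + m) : ℕ) : ℤ) - 5 * (m : ℤ) = ((5 * a : ℕ) : ℤ) := by push_cast; ring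
    have i5 : ((a + m : ℕ) : ℤ) - 2 * (m : ℤ) = (a : ℤ) - m := by push_cast; ring
    have i6 : 2 * ((a + m : ℕ) : ℤ) - (m : ℤ) = ((2 * a + m : ℕ) : ℤ) := by push_cast; ring
    have i7 : ((a + m : ℕ) : ℤ) - (m : ℤ) = ((a : ℕ) : ℤ) := by push_cast; ring
    have i8 : (4 : ℚ) ^ (5 * (m : ℤ)) = 4 ^ m * 256 ^ m := by
      have : (5 * (m : ℤ)) = ((5 * m : ℕ) : ℤ) := by push_cast; rfl
      rw [this, zpow_natCast, pow_mul, ← mul_pow]; norm_num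
    rw [i1, i2, i3, i4, i5, i6, i7, i8, rf_nat, rf_nat, rf_nat, rf_nat, hp5n, hp5n, fact5n, fact5n, fact5n, zpow_natCast,
      show 2 * (5 * (a + m)) + 1 = 5 * (2 * (a + m)) + 1 by ring, Nat.factorial_succ (5 * (2 * (a + m))), Nat.factorial_succ (2 * (a + m))]
    push_cast
    rw [fact5n (2 * (a + m))]
    have u1 := (al5_U (a + m)).ne
    have u2 := (al5_U (2 * (a + m))).ne
    have u3 := (al5_U (2 * a + m)).ne
    have u4 := (al5_U a).ne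
    generalize al5 (a + m) = A1 at *
    generalize al5 (2 * (a + m)) = A2 at *
    generalize al5 (2 * a + m) = A3 at *
    generalize al5 a = A4 at *
    have v1 := fne (a + m)
    have v2 := fne (2 * (a + m))
    have v3 := fne (2 * a + m)
    have v4 := fne a
    have g1 : 2 * ((a : ℚ) + m) + 1 ≠ 0 := by positivity
    have g2 : 10 * ((a : ℚ) + m) + 1 ≠ 0 := by positivity
    have g3 : 5 * (2 * ((a : ℚ) + m)) + 1 ≠ 0 := by positivity
    have z1 : (5 : ℚ) ^ (3 * ((a : ℤ) + m)) = 5 ^ (3 * (a + m)) := by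
      have : 3 * ((a : ℤ) + m) = ((3 * (a + m) : ℕ) : ℤ) := by push_cast; rfl
      rw [this, zpow_natCast]
    have z2 : (-1 : ℚ) ^ (3 * ((a : ℤ) + m)) = (-1) ^ (3 * (a + m)) := by
      have : 3 * ((a : ℤ) + m) = ((3 * (a + m) : ℕ) : ℤ) := by push_cast; rfl
      rw [this, zpow_natCast]
    have z3 : (5 : ℚ) ^ ((a : ℤ) - m) = 5 ^ a / 5 ^ m := by
      rw [zpow_sub₀ (by norm_num), zpow_natCast, zpow_natCast]
    have z4 : (-1 : ℚ) ^ ((a : ℤ) - m) = (-1) ^ a * (-1) ^ m := by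
      rw [zpow_sub₀ (by norm_num), zpow_natCast, zpow_natCast]
      rcases neg_one_pow_eq_or ℚ m with h | h <;> rw [h] <;> ring
    rw [z1, z2, z3, z4]
    generalize hp (3 * ((a : ℤ) + m)) = H1
    generalize hp ((a : ℤ) - m) = H2
    generalize be5 (3 * ((a : ℤ) + m)) = B1
    generalize be5 ((a : ℤ) - m) = B2
    have p1 : (5 : ℚ) ^ (3 * (a + m)) = 5 ^ a * 5 ^ a * 5 ^ a * (5 ^ m * 5 ^ m * 5 ^ m) := by rw [← pow_add, ← pow_add, ← pow_add, ← pow_add, ← pow_add]; congr 1; ring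
    have p2 : (5 : ℚ) ^ (2 * (a + m)) = 5 ^ a * 5 ^ a * (5 ^ m * 5 ^ m) := by rw [← pow_add, ← pow_add, ← pow_add]; congr 1; ring
    have p3 : (5 : ℚ) ^ (2 * a + m) = 5 ^ a * 5 ^ a * 5 ^ m := by rw [← pow_add, ← pow_add]; congr 1; ring
    have p4 : (5 : ℚ) ^ (a + m) = 5 ^ a * 5 ^ m := pow_add _ _ _
    have q2 : (-1 : ℚ) ^ (2 * (a + m)) = 1 := by rw [pow_mul]; norm_num
    have q1 : (-1 : ℚ) ^ (3 * (a + m)) = (-1) ^ a * (-1) ^ m := by
      rw [show 3 * (a + m) = 2 * (a + m) + (a + m) by ring, pow_add, q2, one_mul, pow_add]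
    have q3 : (-1 : ℚ) ^ (2 * a + m) = (-1) ^ m := by rw [pow_add, pow_mul]; norm_num
    have q4 : (-1 : ℚ) ^ (a + m) = (-1) ^ a * (-1) ^ m := pow_add _ _ _
    rw [p1, p2, p3, p4, q1, q2, q3, q4]
    have w1 : (5 : ℚ) ^ a ≠ 0 := by positivity
    have w2 : (5 : ℚ) ^ m ≠ 0 := by positivity
    have s1 : (-1 : ℚ) ^ a = 1 ∨ (-1 : ℚ) ^ a = -1 := neg_one_pow_eq_or ℚ a
    have s2 : (-1 : ℚ) ^ m = 1 ∨ (-1 : ℚ) ^ m = -1 := neg_one_pow_eq_or ℚ m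
    rcases s1 with s1 | s1 <;> rcases s2 with s2 | s2 <;> rw [s1, s2] <;> field_simp <;> ring

end

end Pool.Agent.X14.LG
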