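import Mathlib
import Pool.Agent.X14.LG18

set_option autoImplicit false

/-! The prime 5 for `(154k+15)`: recursion and induction. -/

namespace Pool.Agent.X14.LG

open Finset Pool.Agent.H434R2

noncomputable section

lemma inv5 {z : ℤ} (h : ¬ (5 : ℤ) ∣ z) : PO 5 0 ((z : ℚ)⁻¹) :=
  PO.inv_of_norm ((padicNorm.int_eq_one_iff z).2 h)

lemma udiv5 {z : ℤ} {x : ℚ} {k : ℕ} (h : ¬ (5 : ℤ) ∣ z) (hx : PO 5 k ((z : ℚ) * x)) : PO 5 k x := by
  have hz : (z : ℚ) ≠ 0 := by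
    intro h0
    apply h
    have : z = 0 := by exact_mod_cast h0
    rw [this]; exact dvd_zero 5
  have e : x = (z : ℚ)⁻¹ * ((z : ℚ) * x) := by field_simp
  rw [e]
  exact (inv5 h).mul0 hx

lemma dvd5 {z : ℤ} {x : ℚ} (h : (5 : ℤ) ∣ z) (hx : PO 5 0 x) : PO 5 1 ((z : ℚ) * x) := by
  obtain ⟨w, rfl⟩ := h
  have := (PO.ppow (p := 5) 1).mul0' ((PO.of_int (p := 5) w).mul0 hx)
  have e : (((5 * w : ℤ)) : ℚ) * x = ((5 : ℕ) : ℚ) ^ 1 * ((w : ℚ) * x) := by push_cast; ring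
  rw [e]; exact this

lemma tt_rel (N : ℕ) (k : ℤ) : tt N k * (((2 * N - 4 * k + 3 : ℤ) : ℚ) * ((2 * N - 4 * k + 1 : ℤ) : ℚ)) =
    16 * ((2 * N - k + 1 : ℤ) : ℚ) * ((N - k + 1 : ℤ) : ℚ) * tt N (k - 1) := by
  unfold tt
  have e1 : hp ((N : ℤ) - 2 * (k - 1)) = hp (N - 2 * k) * (((N - 2 * k : ℤ) : ℚ) + 1 / 2) * (((N - 2 * k + 1 : ℤ) : ℚ) + 1 / 2) := by
    rw [← hp_succ, ← hp_succ]; congr 1; ring
  have e2 : rf (2 * (N : ℤ) - k) = (((2 * N - k : ℤ) : ℚ) + 1) * rf (2 * N - (k - 1)) := by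
    rw [rf_succ]; congr 2; ring
  have e3 : rf ((N : ℤ) - k) = (((N - k : ℤ) : ℚ) + 1) * rf (N - (k - 1)) := by
    rw [rf_succ]; congr 2; ring
  have z : (4 : ℚ) ^ k = 4 ^ (k - 1) * 4 := by
    rw [← zpow_add_one₀ (by norm_num)]; congr 1; ring
  rw [e1, e2, e3, z]
  push_cast
  ring

lemma tt_int5 (N : ℕ) (k : ℤ) (h1 : 1 ≤ k) (h2 : k ≤ N) : PO 5 0 (tt N k) := by
  obtain ⟨a, ha⟩ : ∃ a : ℕ, (a : ℤ) = N - k := ⟨(N - k).toNat, by omega⟩
  obtain ⟨c, hc⟩ : ∃ c : ℕ, (c : ℤ) = k - 1 := ⟨(k - 1).toNat, by omega⟩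
  have := tt_PO 5 (by norm_num) a c
  have e1 : a + c + 1 = N := by omega
  have e2 : (c : ℤ) + 1 = k := by omega
  rw [e1, e2] at this
  exact this

lemma block5 (j m : ℕ) (h1 : 1 ≤ m) (h2 : m ≤ j) :
    PO 5 1 (tt (5 * j) (5 * m - 4) + tt (5 * j) (5 * m - 3) + tt (5 * j) (5 * m - 2) + tt (5 * j) (5 * m - 1) + tt (5 * j) (5 * m) +
      (2 * (j : ℚ) + 1) * tt j m) := by
  have i0 := tt_int5 (5 * j) (5 * m) (by omega) (by push_cast; omega)
  have i1 := tt_int5 (5 * j) (5 * m - 1) (by omega) (by push_cast; omega)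
  have r1 := tt_rel (5 * j) (5 * m)
  have r2 := tt_rel (5 * j) (5 * m - 1)
  have r3 := tt_rel (5 * j) (5 * m - 2)
  have r4 := tt_rel (5 * j) (5 * m - 3)
  have g1 : 5 * (m : ℤ) - 1 - 1 = 5 * m - 2 := by ring
  have g2 : 5 * (m : ℤ) - 2 - 1 = 5 * m - 3 := by ring
  have g3 : 5 * (m : ℤ) - 3 - 1 = 5 * m - 4 := by ring
  rw [g1] at r2
  rw [g2] at r3
  rw [g3] at r4
  have t2 : PO 5 1 (tt (5 * j) (5 * m - 2)) := by
    apply udiv5 (z := 5 * j - 5 * m + 2) (by omega)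
    apply udiv5 (z := 10 * j - 5 * m + 2) (by omega)
    apply udiv5 (z := 16) (by omega)
    have h := dvd5 (z := 10 * j - 20 * m + 5) (x := ((10 * j - 20 * m + 7 : ℤ) : ℚ) * tt (5 * j) (5 * m - 1)) (by omega) ((PO.of_int _).mul0 i1)
    have e : ((16 : ℤ) : ℚ) * (((10 * j - 5 * m + 2 : ℤ) : ℚ) * (((5 * j - 5 * m + 2 : ℤ) : ℚ) * tt (5 * j) (5 * m - 2))) =
        ((10 * j - 20 * m + 5 : ℤ) : ℚ) * (((10 * j - 20 * m + 7 : ℤ) : ℚ) * tt (5 * j) (5 * m - 1)) := by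
      push_cast at r2 ⊢
      linear_combination -r2
    rw [e]; exact h
  have t3 : PO 5 1 (tt (5 * j) (5 * m - 3)) := by
    apply udiv5 (z := 5 * j - 5 * m + 3) (by omega)
    apply udiv5 (z := 10 * j - 5 * m + 3) (by omega)
    apply udiv5 (z := 16) (by omega)
    have h := (PO.of_int (p := 5) (10 * j - 20 * m + 9)).mul0 ((PO.of_int (p := 5) (10 * j - 20 * m + 11)).mul0 t2)
    have e : ((16 : ℤ) : ℚ) * (((10 * j - 5 * m + 3 : ℤ) : ℚ) * (((5 * j - 5 * m + 3 : ℤ) : ℚ) * tt (5 * j) (5 * m - 3))) =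
        ((10 * j - 20 * m + 9 : ℤ) : ℚ) * (((10 * j - 20 * m + 11 : ℤ) : ℚ) * tt (5 * j) (5 * m - 2)) := by
      push_cast at r3 ⊢
      linear_combination -r3
    rw [e]; exact h
  have t4 : PO 5 1 (tt (5 * j) (5 * m - 4)) := by
    apply udiv5 (z := 5 * j - 5 * m + 4) (by omega)
    apply udiv5 (z := 10 * j - 5 * m + 4) (by omega)
    apply udiv5 (z := 16) (by omega)
    have h := (PO.of_int (p := 5) (10 * j - 20 * m + 13)).mul0 ((PO.of_int (p := 5) (10 * j - 20 * m + 15)).mul0 t3)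
    have e : ((16 : ℤ) : ℚ) * (((10 * j - 5 * m + 4 : ℤ) : ℚ) * (((5 * j - 5 * m + 4 : ℤ) : ℚ) * tt (5 * j) (5 * m - 4))) =
        ((10 * j - 20 * m + 13 : ℤ) : ℚ) * (((10 * j - 20 * m + 15 : ℤ) : ℚ) * tt (5 * j) (5 * m - 3)) := by
      push_cast at r4 ⊢
      linear_combination -r4
    rw [e]; exact h
  have t01 : PO 5 1 (2 * tt (5 * j) (5 * m) + tt (5 * j) (5 * m - 1)) := by
    apply udiv5 (z := 5 * j - 5 * m + 1) (by omega)
    apply udiv5 (z := 10 * j - 5 * m + 1) (by omega)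
    apply udiv5 (z := 16) (by omega)
    have h := dvd5 (z := 32 * (10 * j - 5 * m + 1) * (5 * j - 5 * m + 1) + (10 * j - 20 * m + 3) * (10 * j - 20 * m + 1)) (x := tt (5 * j) (5 * m))
      ⟨160 * (2 * j - m) * (j - m) + 32 * (2 * j - m) + 32 * (j - m) + 5 * (2 * j - 4 * m) ^ 2 + 4 * (2 * j - 4 * m) + 7, by ring⟩ i0
    have e : ((16 : ℤ) : ℚ) * (((10 * j - 5 * m + 1 : ℤ) : ℚ) * (((5 * j - 5 * m + 1 : ℤ) : ℚ) * (2 * tt (5 * j) (5 * m) + tt (5 * j) (5 * m - 1)))) =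
        ((32 * (10 * j - 5 * m + 1) * (5 * j - 5 * m + 1) + (10 * j - 20 * m + 3) * (10 * j - 20 * m + 1) : ℤ) : ℚ) * tt (5 * j) (5 * m) := by
      push_cast at r1 ⊢
      linear_combination -r1
    rw [e]; exact h
  obtain ⟨a, rfl⟩ : ∃ a, j = a + m := ⟨j - m, by omega⟩
  obtain ⟨u, hu, hu2⟩ := tt5 a m
  have hd : PO 5 1 (tt (5 * (a + m)) (5 * (m : ℤ)) - (2 * ((a + m : ℕ) : ℚ) + 1) * tt (a + m) m) := by
    have e : tt (5 * (a + m)) (5 * (m : ℤ)) - (2 * ((a + m : ℕ) : ℚ) + 1) * tt (a + m) m = (((2 * (a + m) + 1 : ℕ) : ℚ) * tt (a + m) m) * (u - 1) := by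
      rw [hu2]; push_cast; ring
    rw [e]
    exact ((PO.of_nat _).mul0 (tt_int5 (a + m) m (by omega) (by push_cast; omega))).mul0 hu
  have key := (((t4.add t3).add t2).add t01).sub hd
  have e : ∀ x4 x3 x2 x1 x0 y : ℚ, x4 + x3 + x2 + x1 + x0 + y = x4 + x3 + x2 + (2 * x0 + x1) - (x0 - y) := by
    intro x4 x3 x2 x1 x0 y; ring
  rw [e]
  exact key

/-- the sum of the terms -/
def sN (N : ℕ) : ℚ := ∑ k ∈ range N, tt N ((k : ℤ) + 1)

lemma sum_block5 (f : ℕ → ℚ) (j : ℕ) : ∑ k ∈ range (5 * j), f k = ∑ m ∈ range j, (f (5 * m) + f (5 * m + 1) + f (5 * m + 2) + f (5 * m + 3) + f (5 * m + 4)) := by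
  induction j with
  | zero => simp
  | succ j ih =>
    rw [show 5 * (j + 1) = 5 * j + 1 + 1 + 1 + 1 + 1 by ring, sum_range_succ, sum_range_succ, sum_range_succ, sum_range_succ, sum_range_succ, ih,
      sum_range_succ]
    ring

lemma sN5 (j : ℕ) : PO 5 1 (sN (5 * j) + (2 * (j : ℚ) + 1) * sN j) := by
  unfold sN
  rw [sum_block5, mul_sum, ← sum_add_distrib]
  apply PO.sum
  intro m hm
  have hm' := mem_range.1 hm
  have h := block5 j (m + 1) (by omega) (by omega)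
  have g0 : ((5 * m : ℕ) : ℤ) + 1 = 5 * ((m + 1 : ℕ) : ℤ) - 4 := by push_cast; ring
  have g1 : ((5 * m + 1 : ℕ) : ℤ) + 1 = 5 * ((m + 1 : ℕ) : ℤ) - 3 := by push_cast; ring
  have g2 : ((5 * m + 2 : ℕ) : ℤ) + 1 = 5 * ((m + 1 : ℕ) : ℤ) - 2 := by push_cast; ring
  have g3 : ((5 * m + 3 : ℕ) : ℤ) + 1 = 5 * ((m + 1 : ℕ) : ℤ) - 1 := by push_cast; ring
  have g4 : ((5 * m + 4 : ℕ) : ℤ) + 1 = 5 * ((m + 1 : ℕ) : ℤ) := by push_cast; ring
  have g5 : (m : ℤ) + 1 = ((m + 1 : ℕ) : ℤ) := by push_cast; ring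
  rw [g0, g1, g2, g3, g4, g5]
  exact h

lemma a15_sN (N : ℕ) (hN : 1 ≤ N) : a15 N = -(256 ^ (N - 1)) / 2 * sN N := by
  obtain ⟨r, rfl⟩ : ∃ r, N = r + 1 := ⟨N - 1, by omega⟩
  rw [a15_eq, Nat.add_sub_cancel]
  rfl

lemma u256 (n : ℕ) : ¬ (5 : ℤ) ∣ 256 ^ n := by
  intro h
  have := Int.Prime.dvd_pow' Nat.prime_five h
  omega

lemma a15_to {k N : ℕ} (hN : 1 ≤ N) (h : PO 5 k (sN N)) : PO 5 k (a15 N) := by
  rw [a15_sN N hN]
  apply udiv5 (z := -2) (by omega)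
  have e : ((-2 : ℤ) : ℚ) * (-(256 ^ (N - 1)) / 2 * sN N) = ((256 ^ (N - 1) : ℤ) : ℚ) * sN N := by push_cast; ring
  rw [e]
  exact (PO.of_int _).mul0 h

lemma a15_from {k N : ℕ} (hN : 1 ≤ N) (h : PO 5 k (a15 N)) : PO 5 k (sN N) := by
  apply udiv5 (z := 256 ^ (N - 1)) (u256 _)
  have e : ((256 ^ (N - 1) : ℤ) : ℚ) * sN N = ((-2 : ℤ) : ℚ) * a15 N := by rw [a15_sN N hN]; push_cast; ring
  rw [e]
  exact (PO.of_int _).mul0 h

lemma a15_int5 (N : ℕ) (hN : 1 ≤ N) : PO 5 0 (a15 N) := by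
  apply a15_to hN
  unfold sN
  apply PO.sum
  intro k hk
  have := mem_range.1 hk
  exact tt_int5 N _ (by omega) (by omega)

lemma C5 (j : ℕ) (hj : 1 ≤ j) (h : PO 5 1 (a15 j) ∨ (5 : ℤ) ∣ 2 * j + 1) : PO 5 1 (a15 (5 * j)) := by
  apply a15_to (by omega)
  have h1 := sN5 j
  have h2 : PO 5 1 ((2 * (j : ℚ) + 1) * sN j) := by
    have e : (2 * (j : ℚ) + 1) * sN j = ((2 * j + 1 : ℤ) : ℚ) * sN j := by push_cast; ring
    rw [e]
    rcases h with h | h
    · exact (PO.of_int _).mul0 (a15_from hj h)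
    · exact dvd5 h (a15_from hj (a15_int5 j hj))
  have e : sN (5 * j) = (sN (5 * j) + (2 * (j : ℚ) + 1) * sN j) - (2 * (j : ℚ) + 1) * sN j := by ring
  rw [e]
  exact h1.sub h2

def B15 (N : ℕ) : ℚ := fprod [6 * N] / fprod [3 * N, N, 2 * N + 1]

lemma rec15 (N : ℕ) (hN : 1 ≤ N) : 2 * (2 * (N : ℚ) + 3) * a15 (N + 1) = -32768 * N * a15 N + (154 * N + 15) * (B15 N / 2) := by
  unfold a15 B15 fprod
  simp only [List.map_cons, List.map_nil, List.prod_cons, List.prod_nil]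
  have h1 : ∑ j ∈ range (N + 1), (154 * (j : ℚ) + 15) * (((6 * j).factorial : ℚ) / (((3 * j).factorial : ℚ) * (j.factorial : ℚ) ^ 3)) * (-32768) ^ (N + 1 - 1 - j) =
      -32768 * (∑ j ∈ range N, (154 * (j : ℚ) + 15) * (((6 * j).factorial : ℚ) / (((3 * j).factorial : ℚ) * (j.factorial : ℚ) ^ 3)) * (-32768) ^ (N - 1 - j)) +
        (154 * (N : ℚ) + 15) * (((6 * N).factorial : ℚ) / (((3 * N).factorial : ℚ) * (N.factorial : ℚ) ^ 3)) := by
    rw [sum_range_succ, mul_sum]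
    congr 1
    · apply sum_congr rfl
      intro j hj
      have := mem_range.1 hj
      rw [show N + 1 - 1 - j = (N - 1 - j) + 1 by omega, pow_succ]
      ring
    · rw [show N + 1 - 1 - N = 0 by omega, pow_zero, mul_one]
  rw [h1]
  generalize ∑ j ∈ range N, (154 * (j : ℚ) + 15) * (((6 * j).factorial : ℚ) / (((3 * j).factorial : ℚ) * (j.factorial : ℚ) ^ 3)) * (-32768) ^ (N - 1 - j) = S
  rw [Nat.cast_choose ℚ (show N + 1 ≤ 2 * (N + 1) by omega), show 2 * (N + 1) - (N + 1) = N + 1 by omega,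
    Nat.cast_choose ℚ (show N ≤ 2 * N by omega), show 2 * N - N = N by omega, show 2 * (N + 1) = 2 * N + 1 + 1 by ring,
    Nat.factorial_succ (2 * N + 1), Nat.factorial_succ (2 * N), Nat.factorial_succ N]
  have f1 := fne N
  have f2 := fne (2 * N)
  have f3 := fne (3 * N)
  have f4 := fne (6 * N)
  have g0 : (N : ℚ) ≠ 0 := by
    have : N ≠ 0 := by omega
    exact_mod_cast this
  have g1 : (N : ℚ) + 1 ≠ 0 := by positivity
  have g2 : 2 * (N : ℚ) + 1 ≠ 0 := by positivity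
  have g3 : 2 * (N : ℚ) + 1 + 1 ≠ 0 := by positivity
  have g4 : 2 * ((N : ℚ) + 1) + 1 ≠ 0 := by positivity
  push_cast
  field_simp
  ring

lemma B15_fl (N q : ℕ) (hq : 5 ≤ q) (ho : q % 2 = 1) : (3 * N) / q + (N / q + (2 * N + 1) / q) ≤ (6 * N) / q := by
  obtain ⟨A, x, hx, rfl⟩ : ∃ A x, x < q ∧ N = q * A + x := ⟨N / q, N % q, Nat.mod_lt _ (by omega), (Nat.div_add_mod N q).symm⟩
  have h0 : 0 < q := by omega
  rw [show 3 * (q * A + x) = q * (3 * A) + 3 * x by ring, show 2 * (q * A + x) + 1 = q * (2 * A) + (2 * x + 1) by ring,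
    show 6 * (q * A + x) = q * (6 * A) + 6 * x by ring, Nat.mul_add_div h0, Nat.mul_add_div h0, Nat.mul_add_div h0, Nat.mul_add_div h0,
    Nat.div_eq_of_lt hx]
  have : 3 * x / q + (2 * x + 1) / q ≤ 6 * x / q := by
    apply Int.ofNat_le.1
    push_cast
    obtain ⟨a, e1, a1, a2, a3, a4⟩ := zc (q := (q : ℤ)) (X := 3 * x) 0 2 (by omega) (by omega) (by omega)
    obtain ⟨b, e2, b1, b2, b3, b4⟩ := zc (q := (q : ℤ)) (X := 2 * x + 1) 0 1 (by omega) (by omega) (by omega)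
    obtain ⟨c, e3, c1, c2, c3, c4⟩ := zc (q := (q : ℤ)) (X := 6 * x) 0 5 (by omega) (by omega) (by omega)
    rw [e1, e2, e3]
    clear e1 e2 e3
    interval_cases a <;> interval_cases b <;> (try omega) <;> interval_cases c <;> omega
  omega

lemma odd5 (i : ℕ) : (5 ^ i) % 2 = 1 := by
  have : Odd (5 ^ i) := Odd.pow (by decide)
  exact Nat.odd_iff.1 this

lemma B15_one (N : ℕ) (hN : 1 ≤ N) (hnp : ¬ ∃ m, 2 * N + 1 = 5 ^ m) : PO 5 1 (B15 N) := by
  unfold B15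
  obtain ⟨j, hj1, hj2⟩ : ∃ j, 5 ^ j ≤ N ∧ N < 5 ^ (j + 1) := ⟨Nat.log 5 N, Nat.pow_log_le_self 5 (by omega), Nat.lt_pow_succ_log_self (by norm_num) N⟩
  apply ratio_PO 5 _ _ 1 (j + 1)
  · intro i hi
    simp only [fl, List.map_cons, List.map_nil, List.sum_cons, List.sum_nil]
    have := B15_fl N (5 ^ i) (Nat.le_self_pow (by omega) 5) (odd5 i)
    omega
  · right
    refine ⟨by omega, ?_⟩
    simp only [fl, List.map_cons, List.map_nil, List.sum_cons, List.sum_nil]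
    have hne : 2 * N + 1 ≠ 5 ^ (j + 1) := fun h => hnp ⟨_, h⟩
    have ho := odd5 (j + 1)
    have h5 : 5 ^ (j + 1) = 5 * 5 ^ j := by rw [pow_succ]; ring
    generalize 5 ^ (j + 1) = q at *
    have hq : 5 ≤ q := by
      have : 0 < 5 ^ j := by positivity
      omega
    apply Int.ofNat_le.1
    push_cast
    obtain ⟨a, e1, a1, a2, a3, a4⟩ := zc (q := (q : ℤ)) (X := 3 * N) 0 2 (by omega) (by omega) (by omega)
    obtain ⟨b, e2, b1, b2, b3, b4⟩ := zc (q := (q : ℤ)) (X := 2 * N + 1) 0 1 (by omega) (by omega) (by omega)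
    obtain ⟨c, e3, c1, c2, c3, c4⟩ := zc (q := (q : ℤ)) (X := 6 * N) 0 5 (by omega) (by omega) (by omega)
    rw [e1, e2, e3, Int.ediv_eq_zero_of_lt (show (0 : ℤ) ≤ N by omega) (by omega)]
    clear e1 e2 e3
    interval_cases a <;> interval_cases b <;> (try omega) <;> interval_cases c <;> omega

lemma B15_int (N : ℕ) : PO 5 0 (B15 N) := by
  unfold B15
  apply ratio_PO 5 _ _ 0 0 _ (Or.inl rfl)
  intro i hi
  simp only [fl, List.map_cons, List.map_nil, List.sum_cons, List.sum_nil]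
  have := B15_fl N (5 ^ i) (Nat.le_self_pow (by omega) 5) (odd5 i)
  omega

lemma B15_unit (N m : ℕ) (hN : 1 ≤ N) (hm : 2 * N + 1 = 5 ^ m) : PO 5 0 (1 / B15 N) := by
  unfold B15
  rw [one_div_div]
  apply ratio_PO 5 _ _ 0 0 _ (Or.inl rfl)
  intro i hi
  simp only [fl, List.map_cons, List.map_nil, List.sum_cons, List.sum_nil]
  rcases Nat.lt_or_ge m i with h | h
  · have h5 : 5 ^ (m + 1) ≤ 5 ^ i := Nat.pow_le_pow_right (by norm_num) (by omega)
    rw [pow_succ, ← hm] at h5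
    rw [Nat.div_eq_of_lt (show 6 * N < 5 ^ i by omega)]
    exact Nat.zero_le _
  · obtain ⟨d, rfl⟩ : ∃ d, m = i + d := ⟨m - i, by omega⟩
    have hodd := odd5 d
    rw [pow_add] at hm
    obtain ⟨Q, hQ⟩ : ∃ Q, 5 ^ d = 2 * Q + 1 := ⟨5 ^ d / 2, by omega⟩
    rw [hQ] at hm
    have h9 : 5 ≤ 5 ^ i := Nat.le_self_pow (by omega) 5
    generalize 5 ^ i = q at *
    have hqz : (0 : ℤ) < q := by omega
    have hjz : 2 * (N : ℤ) + 1 = q * (2 * Q + 1) := by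
      have := congrArg (Nat.cast : ℕ → ℤ) hm
      push_cast at this
      linarith
    have h9z : (5 : ℤ) ≤ q := by omega
    apply Int.ofNat_le.1
    push_cast
    rw [zdiv (t := 6 * Q + 2) (X := 6 * (N : ℤ)) hqz (by linarith) (by linarith),
      zdiv (t := 3 * Q + 1) (X := 3 * (N : ℤ)) hqz (by linarith) (by linarith),
      zdiv (t := Q) (X := (N : ℤ)) hqz (by linarith) (by linarith),
      zdiv (t := 2 * Q + 1) (X := 2 * (N : ℤ) + 1) hqz (by linarith) (by linarith)]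
    linarith

lemma B15_half {k N : ℕ} (h : PO 5 k (B15 N)) : PO 5 k ((154 * (N : ℚ) + 15) * (B15 N / 2)) := by
  apply udiv5 (z := 2) (by omega)
  have e : ((2 : ℤ) : ℚ) * ((154 * (N : ℚ) + 15) * (B15 N / 2)) = ((154 * N + 15 : ℕ) : ℚ) * B15 N := by push_cast; ring
  rw [e]
  exact (PO.of_nat _).mul0 h

/-- going down -/
lemma down5 (N : ℕ) (hN : 1 ≤ N) (h5 : ¬ (5 : ℤ) ∣ N) (h1 : PO 5 1 (a15 (N + 1))) (h2 : PO 5 1 (B15 N)) : PO 5 1 (a15 N) := by
  apply udiv5 (z := N) h5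
  apply udiv5 (z := -32768) (by omega)
  have r := rec15 N hN
  have e : ((-32768 : ℤ) : ℚ) * (((N : ℤ) : ℚ) * a15 N) = ((2 * (2 * N + 3) : ℕ) : ℚ) * a15 (N + 1) - (154 * (N : ℚ) + 15) * (B15 N / 2) := by
    push_cast; linarith
  rw [e]
  exact ((PO.of_nat _).mul0 h1).sub (B15_half h2)

lemma up5 (j : ℕ) (hj : 1 ≤ j) : PO 5 1 (a15 (5 * j + 1)) := by
  have r := rec15 (5 * j) (by omega)
  have hB : PO 5 1 (B15 (5 * j)) := by
    apply B15_one _ (by omega)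
    rintro ⟨m, hm⟩
    rcases m with _ | m
    · simp at hm; omega
    · rw [pow_succ] at hm; omega
  apply udiv5 (z := 10 * j + 3) (by omega)
  apply udiv5 (z := 2) (by omega)
  have h1 := dvd5 (z := -32768 * (5 * j)) (x := a15 (5 * j)) ⟨-32768 * j, by ring⟩ (a15_int5 _ (by omega))
  have e : ((2 : ℤ) : ℚ) * (((10 * j + 3 : ℤ) : ℚ) * a15 (5 * j + 1)) = ((-32768 * (5 * j) : ℤ) : ℚ) * a15 (5 * j) + (154 * ((5 * j : ℕ) : ℚ) + 15) * (B15 (5 * j) / 2) := by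
    push_cast at r ⊢
    linarith
  rw [e]
  exact h1.add (B15_half hB)

lemma a15_1 : PO 5 1 (a15 1) := by
  have e : a15 1 = ((5 : ℤ) : ℚ) * (((4 : ℤ) : ℚ)⁻¹) := by
    unfold a15; norm_num [Nat.factorial]
  rw [e]
  exact dvd5 (dvd_refl _) (inv5 (by omega))

theorem Z5 : ∀ N : ℕ, 1 ≤ N → (¬ ∃ m, 2 * N + 1 = 5 ^ m) → PO 5 1 (a15 N) := by
  intro N
  induction N using Nat.strong_induction_on with
  | _ N ih =>
    intro hN hnp
    -- multiples of five up to `N + 3`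
    have hC : ∀ j, 1 ≤ j → j < N → PO 5 1 (a15 (5 * j)) := by
      intro j hj hjN
      apply C5 j hj
      by_cases h : ∃ m, 2 * j + 1 = 5 ^ m
      · right
        obtain ⟨m, hm⟩ := h
        rcases m with _ | m
        · simp at hm; omega
        · rw [pow_succ] at hm; omega
      · left; exact ih j hjN hj h
    have hB : ∀ M, 1 ≤ M → (2 * M + 1) % 5 ≠ 0 → PO 5 1 (B15 M) := by
      intro M hM h
      apply B15_one M hM
      rintro ⟨m, hm⟩
      rcases m with _ | m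
      · simp at hm; omega
      · rw [pow_succ] at hm; omega
    obtain ⟨j, i, hi, rfl⟩ : ∃ j i, i < 5 ∧ N = 5 * j + i := ⟨N / 5, N % 5, by omega, by omega⟩
    have hi' : i = 0 ∨ i = 1 ∨ i = 2 ∨ i = 3 ∨ i = 4 := by omega
    rcases hi' with rfl | rfl | rfl | rfl | rfl
    · exact hC j (by omega) (by omega)
    · rcases Nat.eq_zero_or_pos j with h0 | h0
      · subst h0; exact a15_1
      · exact up5 j h0
    · have h5 := hC (j + 1) (by omega) (by omega)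
      rw [show 5 * (j + 1) = 5 * j + 4 + 1 by ring] at h5
      have h4 := down5 (5 * j + 4) (by omega) (by omega) h5 (hB _ (by omega) (by omega))
      have h3 := down5 (5 * j + 3) (by omega) (by omega) h4 (hB _ (by omega) (by omega))
      exact down5 (5 * j + 2) (by omega) (by omega) h3 (B15_one _ (by omega) hnp)
    · have h5 := hC (j + 1) (by omega) (by omega)
      rw [show 5 * (j + 1) = 5 * j + 4 + 1 by ring] at h5
      have h4 := down5 (5 * j + 4) (by omega) (by omega) h5 (hB _ (by omega) (by omega))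
      exact down5 (5 * j + 3) (by omega) (by omega) h4 (hB _ (by omega) (by omega))
    · have h5 := hC (j + 1) (by omega) (by omega)
      rw [show 5 * (j + 1) = 5 * j + 4 + 1 by ring] at h5
      exact down5 (5 * j + 4) (by omega) (by omega) h5 (hB _ (by omega) (by omega))

theorem Z5_special (N m : ℕ) (hN : 1 ≤ N) (hm : 2 * N + 1 = 5 ^ m) : ¬ PO 5 1 (a15 N) := by
  intro h
  have hm1 : ∃ m', m = m' + 1 := by
    rcases m with _ | m
    · simp at hm; omega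
    · exact ⟨m, rfl⟩
  obtain ⟨m', rfl⟩ := hm1
  rw [pow_succ] at hm
  have hnext : PO 5 1 (a15 (N + 1)) := by
    apply Z5 (N + 1) (by omega)
    rintro ⟨m2, hm2⟩
    rcases m2 with _ | m2
    · simp at hm2
    · rw [pow_succ] at hm2; omega
  have r := rec15 N hN
  have hB : PO 5 1 (B15 N) := by
    apply udiv5 (z := 154 * N + 15) (by omega)
    have e : ((154 * N + 15 : ℤ) : ℚ) * B15 N = ((2 * (2 * (2 * N + 3)) : ℕ) : ℚ) * a15 (N + 1) - ((2 * (-32768 * N) : ℤ) : ℚ) * a15 N := by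
      push_cast; linarith
    rw [e]
    exact ((PO.of_nat _).mul0 hnext).sub ((PO.of_int _).mul0 h)
  have hu := B15_unit N (m' + 1) hN (by rw [pow_succ]; exact hm)
  have h1 := hB.mul0' hu
  have hne : B15 N ≠ 0 := div_ne_zero (fprod_ne _) (fprod_ne _)
  rw [mul_one_div_cancel hne] at h1
  unfold PO at h1
  norm_num at h1

end

end Pool.Agent.X14.LG
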