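import Mathlib
import Pool.Agent.X14.LG19

set_option autoImplicit false

/-! `(154k+15)`: the prime 2, the sign, conclusion. -/

namespace Pool.Agent.X14.LG

open Finset Pool.Agent.H434R2

noncomputable section

/-- the coefficient `(6j)!/((3j)! (j!)^3)` over the central binomial coefficient -/
lemma c15_eq (j : ℕ) : ((6 * j).factorial : ℚ) / (((3 * j).factorial : ℚ) * (j.factorial : ℚ) ^ 3) =
    (((3 * j).centralBinom : ℚ) * ((3 * j).choose j : ℚ)) * (j.centralBinom : ℚ) := by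
  rw [Nat.centralBinom_eq_two_mul_choose, Nat.centralBinom_eq_two_mul_choose, Nat.cast_choose ℚ (show 3 * j ≤ 2 * (3 * j) by omega),
    Nat.cast_choose ℚ (show j ≤ 3 * j by omega), Nat.cast_choose ℚ (show j ≤ 2 * j by omega), show 2 * (3 * j) - 3 * j = 3 * j by omega,
    show 3 * j - j = 2 * j by omega, show 2 * j - j = j by omega, show 2 * (3 * j) = 6 * j by ring]
  have h1 := fne j
  have h2 := fne (2 * j)
  have h3 := fne (3 * j)
  field_simp

lemma four_dvd (r : ℕ) (hr : 1 ≤ r) : haveI : Fact (Nat.Prime 2) := ⟨Nat.prime_two⟩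
    PO 2 0 (((3 * r).centralBinom : ℚ) * ((3 * r).choose r : ℚ) / 4) := by
  haveI : Fact (Nat.Prime 2) := ⟨Nat.prime_two⟩
  apply PO_of_val
  right
  have e : ((3 * r).centralBinom : ℚ) * ((3 * r).choose r : ℚ) / 4 = ((6 * r).factorial : ℚ) / ((3 * r).factorial : ℚ) / (((2 * r).factorial : ℚ) * (r.factorial : ℚ)) / ((4 : ℕ) : ℚ) := by
    rw [Nat.centralBinom_eq_two_mul_choose, Nat.cast_choose ℚ (show 3 * r ≤ 2 * (3 * r) by omega),
      Nat.cast_choose ℚ (show r ≤ 3 * r by omega), show 2 * (3 * r) - 3 * r = 3 * r by omega,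
      show 3 * r - r = 2 * r by omega, show 2 * (3 * r) = 6 * r by ring]
    have h1 := fne r
    have h2 := fne (2 * r)
    have h3 := fne (3 * r)
    push_cast
    field_simp
  have v6 : padicValNat 2 (6 * r).factorial = padicValNat 2 (3 * r).factorial + 3 * r := by
    rw [show 6 * r = 2 * (3 * r) by ring, padicValNat_factorial_mul]
  have v2 : padicValNat 2 (2 * r).factorial = padicValNat 2 r.factorial + r := padicValNat_factorial_mul _
  have v1 : padicValNat 2 r.factorial < r := by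
    have := sub_one_mul_padicValNat_factorial_lt_of_ne_zero (p := 2) (n := r) (by omega)
    simpa using this
  have v4 : padicValNat 2 4 = 2 := by
    rw [show 4 = 2 ^ 2 by norm_num, padicValNat.prime_pow]
  rw [e, padicValRat.div (div_ne_zero (div_ne_zero (fne _) (fne _)) (mul_ne_zero (fne _) (fne _))) (by norm_num),
    padicValRat.div (div_ne_zero (fne _) (fne _)) (mul_ne_zero (fne _) (fne _)), padicValRat.div (fne _) (fne _),
    padicValRat.mul (fne _) (fne _)]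
  simp only [padicValRat.of_nat]
  rw [v6, v2, v4]
  simp only [Nat.cast_add, Nat.cast_mul, Nat.cast_ofNat]
  omega

lemma a15_two (r : ℕ) (hr : 1 ≤ r) : haveI : Fact (Nat.Prime 2) := ⟨Nat.prime_two⟩
    PO 2 0 (a15 (r + 1)) := by
  haveI : Fact (Nat.Prime 2) := ⟨Nat.prime_two⟩
  have hc := Nat.succ_mul_centralBinom_succ r
  have hc2 := congrArg (Nat.cast : ℕ → ℚ) hc
  push_cast at hc2
  have h3 : (r.centralBinom : ℚ) ≠ 0 := by exact_mod_cast r.centralBinom_ne_zero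
  have e : a15 (r + 1) = ((∑ j ∈ range (r + 1), (154 * (j : ℚ) + 15) * ((((3 * j).centralBinom : ℚ) * ((3 * j).choose j : ℚ)) * (j.centralBinom : ℚ)) * (-32768) ^ (r - j)) /
      (4 * (r.centralBinom : ℚ))) * ((((2 * r + 1 : ℕ)) : ℚ)⁻¹ * (((2 * r + 3 : ℕ)) : ℚ)⁻¹) := by
    unfold a15
    have hs : ∑ j ∈ range (r + 1), (154 * (j : ℚ) + 15) * (((6 * j).factorial : ℚ) / (((3 * j).factorial : ℚ) * (j.factorial : ℚ) ^ 3)) * (-32768) ^ (r + 1 - 1 - j) =
        ∑ j ∈ range (r + 1), (154 * (j : ℚ) + 15) * ((((3 * j).centralBinom : ℚ) * ((3 * j).choose j : ℚ)) * (j.centralBinom : ℚ)) * (-32768) ^ (r - j) := by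
      apply sum_congr rfl
      intro k _
      rw [Nat.add_sub_cancel, c15_eq]
    rw [hs]
    have hd : 2 * ((r + 1 : ℕ) : ℚ) * (2 * ((r + 1 : ℕ) : ℚ) + 1) * ((2 * (r + 1)).choose (r + 1) : ℚ) =
        (4 * (r.centralBinom : ℚ)) * ((2 * r + 1) * (2 * r + 3)) := by
      rw [← Nat.centralBinom_eq_two_mul_choose]
      push_cast
      linear_combination (2 * (2 * (r : ℚ) + 3)) * hc2
    rw [hd]
    push_cast
    rw [div_mul_eq_div_div, div_eq_mul_inv _ ((2 * (r : ℚ) + 1) * (2 * r + 3)), mul_inv]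
  rw [e]
  refine PO.mul0' ?_ ((PO.inv_nat (by omega)).mul0 (PO.inv_nat (by omega)))
  rw [sum_div]
  apply PO.sum
  intro j hj
  obtain ⟨d, rfl⟩ : ∃ d, r = j + d := ⟨r - j, by have := mem_range.1 hj; omega⟩
  rw [show j + d - j = d by omega]
  rcases Nat.eq_zero_or_pos d with hd | hd
  · subst hd
    simp only [Nat.add_zero] at hr h3 ⊢
    have e2 : (154 * (j : ℚ) + 15) * ((((3 * j).centralBinom : ℚ) * ((3 * j).choose j : ℚ)) * (j.centralBinom : ℚ)) * (-32768) ^ 0 / (4 * (j.centralBinom : ℚ)) =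
        ((154 * j + 15 : ℕ) : ℚ) * (((3 * j).centralBinom : ℚ) * ((3 * j).choose j : ℚ) / 4) := by
      push_cast
      field_simp
    rw [e2]
    exact (PO.of_nat _).mul0 (four_dvd j hr)
  · obtain ⟨d', rfl⟩ : ∃ d', d = d' + 1 := ⟨d - 1, by omega⟩
    have e2 : (154 * (j : ℚ) + 15) * ((((3 * j).centralBinom : ℚ) * ((3 * j).choose j : ℚ)) * (j.centralBinom : ℚ)) * (-32768) ^ (d' + 1) / (4 * ((j + (d' + 1)).centralBinom : ℚ)) =
        (((-4096) * (-16384) ^ d' * (154 * j + 15) * ((3 * j).centralBinom * (3 * j).choose j) : ℤ) : ℚ) *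
        ((2 : ℚ) ^ (d' + 1) * (j.centralBinom : ℚ) / ((j + (d' + 1)).centralBinom : ℚ)) := by
      have e4 : (-32768 : ℚ) ^ (d' + 1) = (-16384) ^ d' * (2 ^ (d' + 1)) * (-16384) := by
        rw [pow_succ, pow_succ, show (-32768 : ℚ) = -16384 * 2 by norm_num, mul_pow]; ring
      rw [e4]
      push_cast
      field_simp
      ring
    rw [e2]
    exact (PO.of_int _).mul0 (two_cb j (d' + 1))

lemma a15_odd {p : ℕ} [hp : Fact p.Prime] (h2 : p ≠ 2) (r : ℕ) : PO p 0 (a15 (r + 1)) := by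
  rw [a15_eq, mul_sum]
  apply PO.sum
  intro k hk
  have hk' := mem_range.1 hk
  obtain ⟨a, rfl⟩ : ∃ a, r = a + k := ⟨r - k, by omega⟩
  have e : -(256 ^ (a + k)) / 2 * tt (a + k + 1) ((k : ℤ) + 1) = ((-(256 ^ (a + k)) : ℤ) : ℚ) * (2 : ℚ)⁻¹ * tt (a + k + 1) ((k : ℤ) + 1) := by
    push_cast; ring
  rw [e]
  exact ((PO.of_int _).mul0 (half_PO h2)).mul0 (tt_PO p h2 a k)

theorem a15_intz (r : ℕ) (hr : 1 ≤ r) : ∃ z : ℤ, a15 (r + 1) = z := by
  apply int_of_PO
  intro p hp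
  haveI : Fact p.Prime := ⟨hp⟩
  by_cases h2 : p = 2
  · subst h2; exact a15_two r hr
  · exact a15_odd h2 r

theorem a15_fifth (r : ℕ) (hr : 1 ≤ r) (h : ¬ ∃ m, 2 * (r + 1) + 1 = 5 ^ m) : ∃ z : ℤ, a15 (r + 1) / 5 = z := by
  apply int_of_PO
  intro p hp
  haveI : Fact p.Prime := ⟨hp⟩
  by_cases h5 : p = 5
  · subst h5
    have h1 := Z5 (r + 1) (by omega) h
    obtain ⟨x, hx1, hx2⟩ := PO.exists_rep h1
    rw [hx2]
    have e : ((5 : ℕ) : ℚ) ^ 1 * x / 5 = x := by push_cast; ring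
    rw [e]
    have := PO.norm_of_den hx1
    unfold PO
    simpa using this
  · have hz : PO p 0 (a15 (r + 1)) := by
      by_cases h2 : p = 2
      · subst h2; exact a15_two r hr
      · exact a15_odd h2 r
    have h55 : ¬ p ∣ 5 := fun h => h5 ((Nat.prime_dvd_prime_iff_eq hp Nat.prime_five).1 h)
    have e : a15 (r + 1) / 5 = a15 (r + 1) * ((5 : ℕ) : ℚ)⁻¹ := by push_cast; ring
    rw [e]
    exact hz.mul0 (PO.inv_nat h55)

theorem a15_nofifth (r m : ℕ) (hr : 1 ≤ r) (hm : 2 * (r + 1) + 1 = 5 ^ m) (z : ℤ) (hz : a15 (r + 1) = z) : ¬ (5 : ℤ) ∣ z := by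
  intro h
  apply Z5_special (r + 1) m (by omega) hm
  rw [hz]
  have := dvd5 h (PO.one (p := 5))
  rwa [mul_one] at this

/-! the sign -/

def u15 (k : ℕ) : ℚ := (154 * (k : ℚ) + 15) * (((6 * k).factorial : ℚ) / (((3 * k).factorial : ℚ) * (k.factorial : ℚ) ^ 3)) / 32768 ^ k

lemma u15_pos (k : ℕ) : 0 < u15 k := by
  unfold u15
  have h1 : (0 : ℚ) < ((6 * k).factorial : ℚ) := by exact_mod_cast Nat.factorial_pos _
  have h2 : (0 : ℚ) < (k.factorial : ℚ) := by exact_mod_cast Nat.factorial_pos _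
  have h3 : (0 : ℚ) < ((3 * k).factorial : ℚ) := by exact_mod_cast Nat.factorial_pos _
  positivity

lemma u15_succ (k : ℕ) : u15 (k + 1) ≤ u15 k / 8 := by
  have e : u15 (k + 1) = u15 k * ((154 * k + 169) * (6 * k + 1) * (6 * k + 3) * (6 * k + 5) / (4096 * (154 * k + 15) * (k + 1) ^ 3)) := by
    unfold u15
    rw [show 6 * (k + 1) = 6 * k + 1 + 1 + 1 + 1 + 1 + 1 by ring, show 3 * (k + 1) = 3 * k + 1 + 1 + 1 by ring]
    rw [Nat.factorial_succ (6 * k + 1 + 1 + 1 + 1 + 1), Nat.factorial_succ (6 * k + 1 + 1 + 1 + 1), Nat.factorial_succ (6 * k + 1 + 1 + 1),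
      Nat.factorial_succ (6 * k + 1 + 1), Nat.factorial_succ (6 * k + 1), Nat.factorial_succ (6 * k), Nat.factorial_succ (3 * k + 1 + 1),
      Nat.factorial_succ (3 * k + 1), Nat.factorial_succ (3 * k), Nat.factorial_succ k]
    have h1 := fne k
    have h2 := fne (3 * k)
    have h3 := fne (6 * k)
    have g1 : (k : ℚ) + 1 ≠ 0 := by positivity
    have g2 : 154 * (k : ℚ) + 15 ≠ 0 := by positivity
    have g3 : 3 * (k : ℚ) + 1 ≠ 0 := by positivity
    have g4 : 3 * (k : ℚ) + 1 + 1 ≠ 0 := by positivity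
    have g5 : 3 * (k : ℚ) + 1 + 1 + 1 ≠ 0 := by positivity
    push_cast
    rw [pow_succ (32768 : ℚ) k]
    field_simp
    ring
  rw [e, div_eq_mul_inv (u15 k) 8]
  apply mul_le_mul_of_nonneg_left _ (u15_pos k).le
  have hk : (0 : ℚ) ≤ k := by positivity
  rw [div_le_iff₀ (by positivity)]
  have h2 : (0 : ℚ) ≤ (8 : ℚ)⁻¹ * (4096 * (154 * k + 15) * (k + 1) ^ 3) - (154 * k + 169) * (6 * k + 1) * (6 * k + 3) * (6 * k + 5) := by
    ring_nf
    positivity
  linarith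

lemma u15_le (k : ℕ) : u15 k ≤ 15 / 8 ^ k := by
  induction k with
  | zero => simp [u15]
  | succ k ih =>
    have := u15_succ k
    rw [pow_succ, ← div_div]
    linarith

lemma S15_lower (n : ℕ) : 12 + 3 / 8 ^ n ≤ ∑ k ∈ range (n + 1), (-1) ^ k * u15 k := by
  induction n with
  | zero => simp [u15]; norm_num
  | succ n ih =>
    rw [sum_range_succ]
    have h1 := u15_le (n + 1)
    have h2 := u15_pos (n + 1)
    have h3 : -u15 (n + 1) ≤ (-1) ^ (n + 1) * u15 (n + 1) := by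
      rcases neg_one_pow_eq_or ℚ (n + 1) with h | h
      · rw [h]; linarith
      · rw [h]; linarith
    have h4 : (3 : ℚ) / 8 ^ n = 24 * (1 / 8 ^ (n + 1)) := by rw [pow_succ]; field_simp; norm_num
    have h5 : (15 : ℚ) / 8 ^ (n + 1) = 15 * (1 / 8 ^ (n + 1)) := by ring
    have h6 : (3 : ℚ) / 8 ^ (n + 1) = 3 * (1 / 8 ^ (n + 1)) := by ring
    have h7 : (0 : ℚ) < 1 / 8 ^ (n + 1) := by positivity
    linarith

theorem a15_sign (r : ℕ) : 0 < (-1) ^ r * a15 (r + 1) := by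
  unfold a15
  have e : (-1 : ℚ) ^ r * ((∑ j ∈ range (r + 1), (154 * (j : ℚ) + 15) * (((6 * j).factorial : ℚ) / (((3 * j).factorial : ℚ) * (j.factorial : ℚ) ^ 3)) * (-32768) ^ (r + 1 - 1 - j)) /
      (2 * ((r + 1 : ℕ) : ℚ) * (2 * ((r + 1 : ℕ) : ℚ) + 1) * ((2 * (r + 1)).choose (r + 1) : ℚ))) =
      32768 ^ r * (∑ k ∈ range (r + 1), (-1) ^ k * u15 k) / (2 * ((r + 1 : ℕ) : ℚ) * (2 * ((r + 1 : ℕ) : ℚ) + 1) * ((2 * (r + 1)).choose (r + 1) : ℚ)) := by
    rw [← mul_div_assoc]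
    congr 1
    rw [mul_sum, mul_sum]
    apply sum_congr rfl
    intro k hk
    have hk' := mem_range.1 hk
    obtain ⟨d, rfl⟩ : ∃ d, r = k + d := ⟨r - k, by omega⟩
    rw [show k + d + 1 - 1 - k = d by omega]
    unfold u15
    have e1 : (-32768 : ℚ) ^ d = (-1) ^ d * 32768 ^ d := by rw [← mul_pow]; norm_num
    have e2 : (-1 : ℚ) ^ d * (-1) ^ d = 1 := by rw [← mul_pow]; norm_num
    have h12 : (32768 : ℚ) ^ k ≠ 0 := by positivity
    rw [e1, pow_add, pow_add]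
    generalize ((6 * k).factorial : ℚ) / (((3 * k).factorial : ℚ) * (k.factorial : ℚ) ^ 3) = X
    have e6 : (32768 : ℚ) ^ k * 32768 ^ d * ((-1) ^ k * ((154 * (k : ℚ) + 15) * X / 32768 ^ k)) = 32768 ^ d * (-1) ^ k * ((154 * k + 15) * X) := by
      field_simp
    rw [e6]
    linear_combination ((-1) ^ k * (154 * (k : ℚ) + 15) * X * 32768 ^ d) * e2
  rw [e]
  have h1 := S15_lower r
  have h2 : (0 : ℚ) < 3 / 8 ^ r := by positivity
  have h3 : 0 < ∑ k ∈ range (r + 1), (-1) ^ k * u15 k := by linarith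
  exact div_pos (mul_pos (by positivity) h3) (a28_den r)

end

end Pool.Agent.X14.LG
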