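import Mathlib

set_option autoImplicit false

/-! A descent lemma for polynomials satisfying a `q`-difference equation modulo a power of a prime,
a Vandermonde argument, and relative primality of polynomials. -/

namespace Pool.Agent.X14.PA

open Finset Polynomial

section core

variable {R : Type*} [CommRing R] [IsDomain R]

lemma comp_lin (c : R) (p : R[X]) (d : R) : (p.comp (C c * X)).comp (C d * X) = p.comp (C (c * d) * X) := by
  rw [comp_assoc]
  congr 1
  simp only [mul_comp, C_comp, X_comp, map_mul]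
  ring

lemma dvd_comp_sub {π c : R} (h : π ∣ c - 1) (p : R[X]) : C π ∣ p.comp (C c * X) - p := by
  rw [C_dvd_iff_dvd_coeff]
  intro i
  rw [coeff_sub, comp_C_mul_X_coeff]
  have : p.coeff i * c ^ i - p.coeff i = p.coeff i * (c ^ i - 1) := by ring
  rw [this]
  exact Dvd.dvd.mul_left (h.trans (sub_one_dvd_pow_sub_one' c i)) _
  where
  sub_one_dvd_pow_sub_one' (c : R) (i : ℕ) : c - 1 ∣ c ^ i - 1 := by
    simpa using sub_dvd_pow_sub_pow c 1 i

lemma dvd_comp {π : R} {p : R[X]} (h : C π ∣ p) (r : R[X]) : C π ∣ p.comp r := by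
  obtain ⟨t, rfl⟩ := h
  exact ⟨t.comp r, by rw [mul_comp, C_comp]⟩

/-- the descent lemma, first order -/
theorem core_one {π q α α' : R} (hπ : Prime π) {n : ℕ} (hn : 0 < n) (hq : π ∣ q ^ (2 * n) - 1)
    (hW : ∀ i : ℕ, ¬ π ∣ 1 - α * q ^ (2 * i + 1)) (hW' : ∀ i : ℕ, ¬ π ∣ 1 - α' * q ^ (2 * i + 1)) (c : R) (N : R[X])
    (h : C π ∣ (1 - X) * (1 - C c * X) * N
      - (1 - C (α * q) * X) * (1 - C (α' * q) * X) * N.comp (C (q ^ 2) * X)) : C π ∣ N := by
  set u : R[X] := (1 - X) * (1 - C c * X) with hu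
  set w : R[X] := (1 - C (α * q) * X) * (1 - C (α' * q) * X) with hw
  have key : ∀ m : ℕ, C π ∣ (∏ i ∈ range m, u.comp (C (q ^ (2 * i)) * X)) * N
      - (∏ i ∈ range m, w.comp (C (q ^ (2 * i)) * X)) * N.comp (C (q ^ (2 * m)) * X) := by
    intro m
    induction m with
    | zero => simp
    | succ m ih =>
      have h1 := dvd_comp h (C (q ^ (2 * m)) * X)
      rw [sub_comp, mul_comp _ N, mul_comp w, comp_lin] at h1
      have e1 : q ^ 2 * q ^ (2 * m) = q ^ (2 * (m + 1)) := by rw [← pow_add]; congr 1; ring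
      rw [e1] at h1
      rw [prod_range_succ, prod_range_succ]
      have e2 : (∏ i ∈ range m, u.comp (C (q ^ (2 * i)) * X)) * u.comp (C (q ^ (2 * m)) * X) * N
          - (∏ i ∈ range m, w.comp (C (q ^ (2 * i)) * X)) * w.comp (C (q ^ (2 * m)) * X) * N.comp (C (q ^ (2 * (m + 1))) * X)
          = u.comp (C (q ^ (2 * m)) * X) * ((∏ i ∈ range m, u.comp (C (q ^ (2 * i)) * X)) * N
            - (∏ i ∈ range m, w.comp (C (q ^ (2 * i)) * X)) * N.comp (C (q ^ (2 * m)) * X))
          + (∏ i ∈ range m, w.comp (C (q ^ (2 * i)) * X)) * (u.comp (C (q ^ (2 * m)) * X) * N.comp (C (q ^ (2 * m)) * X)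
            - w.comp (C (q ^ (2 * m)) * X) * N.comp (C (q ^ (2 * (m + 1))) * X)) := by ring
      rw [e2]
      exact dvd_add (Dvd.dvd.mul_left ih _) (Dvd.dvd.mul_left h1 _)
  have h1 := key n
  have h2 := dvd_comp_sub hq N
  set U : R[X] := ∏ i ∈ range n, u.comp (C (q ^ (2 * i)) * X) with hU
  set W : R[X] := ∏ i ∈ range n, w.comp (C (q ^ (2 * i)) * X) with hWd
  have h3 : C π ∣ (U - W) * N := by
    have e3 : (U - W) * N = (U * N - W * N.comp (C (q ^ (2 * n)) * X)) + W * (N.comp (C (q ^ (2 * n)) * X) - N) := by ring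
    rw [e3]
    exact dvd_add h1 (Dvd.dvd.mul_left h2 _)
  have hp : Prime (C π) := prime_C_iff.2 hπ
  rcases hp.dvd_or_dvd h3 with h4 | h4
  · exfalso
    obtain ⟨t, ht⟩ := h4
    have h5 := congrArg (eval 1) ht
    rw [eval_sub, eval_mul, eval_C, hU, hWd, eval_prod, eval_prod] at h5
    have h6 : ∏ i ∈ range n, eval 1 (u.comp (C (q ^ (2 * i)) * X)) = 0 := by
      apply prod_eq_zero (mem_range.2 hn)
      simp [hu]
    rw [h6, zero_sub] at h5
    have h7 : π ∣ ∏ i ∈ range n, eval 1 (w.comp (C (q ^ (2 * i)) * X)) := ⟨-eval 1 t, by linear_combination -h5⟩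
    obtain ⟨i, hi, h8⟩ := (Prime.dvd_finset_prod_iff hπ _).1 h7
    have h9 : eval 1 (w.comp (C (q ^ (2 * i)) * X)) = (1 - α * q ^ (2 * i + 1)) * (1 - α' * q ^ (2 * i + 1)) := by
      simp only [hw, mul_comp, sub_comp, one_comp, C_comp, X_comp, eval_mul, eval_sub, eval_one, eval_C, eval_X]
      ring
    rw [h9] at h8
    rcases hπ.dvd_or_dvd h8 with h10 | h10
    · exact hW i h10
    · exact hW' i h10
  · exact h4

/-- the descent lemma -/
theorem core {π q α α' : R} (hπ : Prime π) {n : ℕ} (hn : 0 < n) (hq : π ∣ q ^ (2 * n) - 1)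
    (hW : ∀ i : ℕ, ¬ π ∣ 1 - α * q ^ (2 * i + 1)) (hW' : ∀ i : ℕ, ¬ π ∣ 1 - α' * q ^ (2 * i + 1)) (c : R) (e : ℕ) (N : R[X])
    (h : C (π ^ e) ∣ (1 - X) * (1 - C c * X) * N
      - (1 - C (α * q) * X) * (1 - C (α' * q) * X) * N.comp (C (q ^ 2) * X)) : C (π ^ e) ∣ N := by
  induction e generalizing N with
  | zero => simp
  | succ e ih =>
    have h1 : C π ∣ N := by
      apply core_one hπ hn hq hW hW' c N
      refine dvd_trans ?_ h
      exact ⟨C (π ^ e), by rw [← map_mul, ← pow_succ']⟩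
    obtain ⟨N', rfl⟩ := h1
    have h0 : (C π : R[X]) ≠ 0 := by
      rw [Ne, C_eq_zero]; exact hπ.ne_zero
    have h2 : C (π ^ e) ∣ (1 - X) * (1 - C c * X) * N'
      - (1 - C (α * q) * X) * (1 - C (α' * q) * X) * N'.comp (C (q ^ 2) * X) := by
      rw [mul_comp, C_comp, pow_succ', map_mul] at h
      have e1 : (1 - X) * (1 - C c * X) * (C π * N')
        - (1 - C (α * q) * X) * (1 - C (α' * q) * X) * (C π * N'.comp (C (q ^ 2) * X))
        = C π * ((1 - X) * (1 - C c * X) * N'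
        - (1 - C (α * q) * X) * (1 - C (α' * q) * X) * N'.comp (C (q ^ 2) * X)) := by ring
      rw [e1] at h
      exact (mul_dvd_mul_iff_left h0).1 h
    have h3 := ih N' h2
    rw [pow_succ', map_mul]
    exact mul_dvd_mul_left _ h3

end core

/-! ### Vandermonde -/

lemma vander {V : Type*} [AddCommGroup V] [Module ℚ V] {S : Set ℚ} (hS : S.Infinite) (c : ℕ → V) (m : ℕ)
    (h : ∀ x ∈ S, ∑ i ∈ range m, x ^ i • c i = 0) : ∀ i < m, c i = 0 := by
  intro i hi
  rw [← Module.forall_dual_apply_eq_zero_iff ℚ]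
  intro φ
  set p : ℚ[X] := ∑ i ∈ range m, C (φ (c i)) * X ^ i with hp
  have h1 : p = 0 := by
    apply Polynomial.eq_zero_of_infinite_isRoot
    refine hS.mono ?_
    intro x hx
    show p.eval x = 0
    rw [hp, eval_finset_sum]
    have h2 := congrArg φ (h x hx)
    rw [map_sum, map_zero] at h2
    rw [← h2]
    apply sum_congr rfl
    intro j _
    rw [map_smul, eval_mul, eval_C, eval_pow, eval_X, smul_eq_mul, mul_comm]
  have h3 : p.coeff i = φ (c i) := by
    rw [hp, finset_sum_coeff]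
    simp only [coeff_C_mul, coeff_X_pow, mul_ite, mul_one, mul_zero]
    rw [sum_ite_eq (range m) i]
    simp [hi]
  rw [← h3, h1, coeff_zero]

/-- divisibility of all coefficients from divisibility of infinitely many values -/
lemma dvd_of_values {A : Type*} [CommRing A] [Algebra ℚ A] {S : Set ℚ} (hS : S.Infinite) (π : A) (E : A[X])
    (h : ∀ x ∈ S, π ∣ E.eval (algebraMap ℚ A x)) : C π ∣ E := by
  rw [C_dvd_iff_dvd_coeff]
  have key : ∀ i < E.natDegree + 1, (Ideal.Quotient.mk (Ideal.span {π}) (E.coeff i)) = 0 := by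
    apply vander (V := A ⧸ Ideal.span {π}) hS (fun i => Ideal.Quotient.mk (Ideal.span {π}) (E.coeff i))
    intro x hx
    have h1 := h x hx
    rw [eval_eq_sum_range] at h1
    have h2 : Ideal.Quotient.mk (Ideal.span {π}) (∑ i ∈ range (E.natDegree + 1), E.coeff i * algebraMap ℚ A x ^ i) = 0 := by
      rw [Ideal.Quotient.eq_zero_iff_mem, Ideal.mem_span_singleton]; exact h1
    rw [map_sum] at h2
    rw [← h2]
    apply sum_congr rfl
    intro i _
    rw [map_mul, mul_comm, Algebra.smul_def]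
    congr 1
    rw [map_pow, map_pow]
    rfl
  intro i
  by_cases hi : i < E.natDegree + 1
  · have := key i hi
    rwa [Ideal.Quotient.eq_zero_iff_mem, Ideal.mem_span_singleton] at this
  · rw [coeff_eq_zero_of_natDegree_lt (by omega)]; exact dvd_zero _

end Pool.Agent.X14.PA
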