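import Mathlib

set_option autoImplicit false

/-! Telescoping recurrences `b -> q^2 b` for two parametric basic hypergeometric sums. -/

namespace Pool.Agent.X14.PA

open Finset

section rec

variable {F : Type*} [Field F]

def QQ (q β : F) (j : ℕ) : F := ∏ i ∈ range j, (β - q ^ (2 * i + 1))
def EE (q β : F) (j : ℕ) : F := ∏ i ∈ range j, (1 - β * q ^ (2 * i + 2))
def SS (q β : F) (j : ℕ) : F := ∏ i ∈ range j, (β - q ^ (i + 1))

def cL (q α : F) (j : ℕ) : F := ∏ i ∈ range j, ((1 - q ^ (2 * i + 1)) * (1 - α * q ^ (2 * i + 1)) * (α - q ^ (2 * i + 1)) /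
  ((1 - q ^ (2 * i + 2)) * (1 - α * q ^ (2 * i + 2)) * (α - q ^ (2 * i + 2))))

def cR (q α : F) (j : ℕ) : F := ∏ i ∈ range j, ((1 - q ^ (2 * i + 1)) * (1 - α * q ^ (2 * i + 1)) * (α - q ^ (2 * i + 1)) /
  (q ^ (i + 1) * (1 - q ^ (i + 1)) * (1 - α * q ^ (i + 1)) * (α - q ^ (i + 1))))

def tL (q α β : F) (j : ℕ) : F := (1 - q ^ (4 * j + 1)) / (1 - q) * cL q α j * (QQ q β j / EE q β j)
def tR (q α β : F) (j : ℕ) : F := (1 - q ^ (3 * j + 1)) / (1 - q) * cR q α j * (SS q β j / EE q β j)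

def rb (q α β : F) : F := (1 - α * β * q) * (α - β * q) / (α * (1 - β) * (1 - β * q ^ 2))

def gL (q α β : F) (m : ℕ) : F := -(β / ((1 - q) * (1 - β) * α)) * cL q α m *
  ((1 - q ^ (2 * m + 1)) * (1 - α * q ^ (2 * m + 1)) * (α - q ^ (2 * m + 1))) * (QQ q β m / EE q β (m + 1))

def gR (q α β : F) (m : ℕ) : F := (β / ((1 - q) * α)) * cR q α (m + 1) *
  ((1 - q ^ (2 * m + 3)) * (1 - α * q ^ (2 * m + 3)) * (α - q ^ (2 * m + 3))) * (SS q β m / EE q β (m + 2))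

variable {q α β : F}

lemma QQ_shift (j : ℕ) : QQ q (q ^ 2 * β) (j + 1) = q ^ (2 * j + 1) * (q * β - 1) * QQ q β j := by
  induction j with
  | zero => simp [QQ]; ring
  | succ j ih =>
    rw [QQ, prod_range_succ, ← QQ, ih]
    rw [QQ, QQ, prod_range_succ]
    ring

lemma EE_shift (j : ℕ) : EE q (q ^ 2 * β) j * (1 - β * q ^ 2) = EE q β (j + 1) := by
  rw [EE, EE, prod_range_succ']
  congr 1
  apply prod_congr rfl
  intro i _
  ring

lemma SS_shift (j : ℕ) : SS q (q ^ 2 * β) (j + 2) = q ^ (2 * j + 3) * (q * β - 1) * (β - 1) * SS q β j := by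
  induction j with
  | zero => simp [SS, prod_range_succ]; ring
  | succ j ih =>
    rw [SS, prod_range_succ, ← SS, ih]
    rw [SS, SS, prod_range_succ]
    ring

lemma EE_ne (hE : ∀ i : ℕ, 1 - β * q ^ (2 * i + 2) ≠ 0) (j : ℕ) : EE q β j ≠ 0 := prod_ne_zero_iff.2 (fun i _ => hE i)

lemma stepL (q α β y c Q E: F) (hα : α ≠ 0) (hq' : 1 - q ≠ 0) (hβ : 1 - β ≠ 0) (hE0 : 1 - β * q ^ 2 ≠ 0) (hE : E ≠ 0)
  (n2 : 1 - β * (y * q ^ 4) ≠ 0) (n3 : 1 - y * q ^ 2 ≠ 0) (n4 : 1 - α * (y * q ^ 2) ≠ 0) (n5 : α - y * q ^ 2 ≠ 0) :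
   -(β / ((1 - q) * (1 - β) * α)) * c * ((1 - y * q) * (1 - α * (y * q)) * (α - y * q)) * (Q / E) +
    ((1 - y ^ 2 * q ^ 5) / (1 - q) * (c * ((1 - y * q) * (1 - α * (y * q)) * (α - y * q) /
        ((1 - (y * q ^ 2)) * (1 - α * (y * q ^ 2)) * (α - (y * q ^ 2))))) * (Q * (β - y * q) / E) -
      (1 - α * β * q) * (α - β * q) / (α * (1 - β) * (1 - β * q ^ 2)) * ((1 - y ^ 2 * q ^ 5) / (1 - q) * (c * ((1 - y * q) * (1 - α * (y * q)) * (α - y * q) /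
        ((1 - (y * q ^ 2)) * (1 - α * (y * q ^ 2)) * (α - (y * q ^ 2))))) * (y * q * (q * β - 1) * Q / (E * (1 - β * (y * q ^ 4)) / (1 - β * q ^ 2))))) =
   -(β / ((1 - q) * (1 - β) * α)) * (c * ((1 - y * q) * (1 - α * (y * q)) * (α - y * q) /
        ((1 - (y * q ^ 2)) * (1 - α * (y * q ^ 2)) * (α - (y * q ^ 2))))) * ((1 - y * q ^ 3) * (1 - α * (y * q ^ 3)) * (α - y * q ^ 3)) * (Q * (β - y * q) / (E * (1 - β * (y * q ^ 4)))) := by
  have id : -(β * ((1 - (y * q ^ 2)) * (1 - α * (y * q ^ 2)) * (α - (y * q ^ 2))) * (1 - β * (y * q ^ 4))) +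
    α * (1 - β) * (1 - y ^ 2 * q ^ 5) * (β - y * q) * (1 - β * (y * q ^ 4)) - (1 - α * β * q) * (α - β * q) * (1 - y ^ 2 * q ^ 5) * y * q * (q * β - 1)
    + β * ((1 - y * q ^ 3) * (1 - α * (y * q ^ 3)) * (α - y * q ^ 3)) * (β - y * q) = 0 := by ring
  have hd : (1 - (y * q ^ 2)) * (1 - α * (y * q ^ 2)) * (α - (y * q ^ 2)) ≠ 0 :=
    mul_ne_zero (mul_ne_zero n3 n4) n5
  generalize (1 - (y * q ^ 2)) * (1 - α * (y * q ^ 2)) * (α - (y * q ^ 2)) = d at *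
  generalize (1 - y * q) * (1 - α * (y * q)) * (α - y * q) = N at *
  generalize (1 - y * q ^ 3) * (1 - α * (y * q ^ 3)) * (α - y * q ^ 3) = N' at *
  generalize 1 - β * (y * q ^ 4) = W at *
  generalize 1 - y ^ 2 * q ^ 5 = b at *
  rw [← sub_eq_zero]
  have e1 : (1 - α * β * q) * (α - β * q) / (α * (1 - β) * (1 - β * q ^ 2)) * (b / (1 - q) * (c * (N / d)) * (y * q * (q * β - 1) * Q / (E * W / (1 - β * q ^ 2))))
    = ((1 - α * β * q) * (α - β * q) / (α * (1 - β)) * (b / (1 - q) * (c * (N / d)) * (y * q * (q * β - 1) * Q / (E * W)))) := by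
    generalize (1 - α * β * q) * (α - β * q) = P
    generalize 1 - β * q ^ 2 = w at *
    generalize y * q * (q * β - 1) = P2
    generalize 1 - β = v at *
    field_simp
  rw [e1]
  have key : -(β / ((1 - q) * (1 - β) * α)) * c * N * (Q / E) + (b / (1 - q) * (c * (N / d)) * (Q * (β - y * q) / E) -
     ((1 - α * β * q) * (α - β * q) / (α * (1 - β)) * (b / (1 - q) * (c * (N / d)) * (y * q * (q * β - 1) * Q / (E * W))))) -
     -(β / ((1 - q) * (1 - β) * α)) * (c * (N / d)) * N' * (Q * (β - y * q) / (E * W)) = c * N * Q / ((1 - q) * (1 - β) * α * E * d * W) *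
     (-(β * d * W) + α * (1 - β) * b * (β - y * q) * W - (1 - α * β * q) * (α - β * q) * b * y * q * (q * β - 1) + β * N' * (β - y * q)) := by
    generalize (1 - α * β * q) * (α - β * q) = P
    generalize (q * β - 1) = P2
    generalize (β - y * q) = P3
    generalize 1 - q = v at *
    generalize 1 - β = v2 at *
    field_simp
    ring
  rw [key, id, mul_zero]

theorem recL (hq : q ≠ 0) (hq1 : ∀ k : ℕ, 1 - q ^ (k + 1) ≠ 0) (hα : α ≠ 0) (hβ : 1 - β ≠ 0)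
    (hE : ∀ i : ℕ, 1 - β * q ^ (2 * i + 2) ≠ 0) (m : ℕ)
    (h1 : ∀ k < 2 * m, 1 - α * q ^ (k + 1) ≠ 0) (h2 : ∀ k < 2 * m, α - q ^ (k + 1) ≠ 0) :
    (∑ j ∈ range (m + 1), tL q α β j) - rb q α β * ∑ j ∈ range (m + 1), tL q α (q ^ 2 * β) j = gL q α β m := by
  have hq' : 1 - q ≠ 0 := by simpa using hq1 0
  have hE0 : 1 - β * q ^ 2 ≠ 0 := by simpa using hE 0
  induction m with
  | zero =>
    simp only [zero_add, sum_range_one, tL, gL, rb, cL, QQ, EE, prod_range_zero, prod_range_one, mul_zero]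
    simp only [pow_one]
    have hE0' : 1 - q ^ 2 * β ≠ 0 := by rwa [mul_comm]
    field_simp
    ring
  | succ m ih =>
    rw [sum_range_succ, sum_range_succ _ (m + 1), mul_add]
    have ih' := ih (fun k hk => h1 k (by omega)) (fun k hk => h2 k (by omega))
    have e1 : (∑ j ∈ range (m + 1), tL q α β j) + tL q α β (m + 1) - (rb q α β * (∑ j ∈ range (m + 1), tL q α (q ^ 2 * β) j)
      + rb q α β * tL q α (q ^ 2 * β) (m + 1)) = gL q α β m + (tL q α β (m + 1) - rb q α β * tL q α (q ^ 2 * β) (m + 1)) := by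
      rw [← ih']; ring
    rw [e1]
    have hs := EE_shift (q := q) (β := β) (m + 1)
    have hEq : EE q (q ^ 2 * β) (m + 1) = EE q β (m + 2) / (1 - β * q ^ 2) := by
      rw [eq_div_iff hE0, hs]
    have c1 : cL q α (m + 1) = cL q α m * ((1 - q ^ (2 * m + 1)) * (1 - α * q ^ (2 * m + 1)) * (α - q ^ (2 * m + 1)) /
        ((1 - q ^ (2 * m + 2)) * (1 - α * q ^ (2 * m + 2)) * (α - q ^ (2 * m + 2)))) := by rw [cL, prod_range_succ, ← cL]
    have c2 : QQ q β (m + 1) = QQ q β m * (β - q ^ (2 * m + 1)) := by rw [QQ, prod_range_succ, ← QQ]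
    have c3 : EE q β (m + 2) = EE q β (m + 1) * (1 - β * q ^ (2 * (m + 1) + 2)) := by rw [EE, prod_range_succ, ← EE]
    have n1 := EE_ne hE (m + 1)
    have n2 : 1 - β * q ^ (2 * (m + 1) + 2) ≠ 0 := hE (m + 1)
    have n3 : 1 - q ^ (2 * m + 2) ≠ 0 := hq1 (2 * m + 1)
    have n4 : 1 - α * q ^ (2 * m + 2) ≠ 0 := h1 (2 * m + 1) (by omega)
    have n5 : α - q ^ (2 * m + 2) ≠ 0 := h2 (2 * m + 1) (by omega)
    rw [tL, tL, gL, gL, QQ_shift, hEq, c3, c2, c1, rb]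
    generalize cL q α m = c at *
    generalize QQ q β m = Q at *
    generalize EE q β (m + 1) = E at *
    have p1 : q ^ (2 * m + 1) = q ^ (2 * m) * q := by ring
    have p2 : q ^ (2 * m + 2) = q ^ (2 * m) * q ^ 2 := by ring
    have p3 : q ^ (2 * (m + 1) + 2) = q ^ (2 * m) * q ^ 4 := by ring
    have p4 : q ^ (4 * (m + 1) + 1) = (q ^ (2 * m)) ^ 2 * q ^ 5 := by ring
    have p5 : q ^ (2 * (m + 1) + 1) = q ^ (2 * m) * q ^ 3 := by ring
    rw [p3] at n2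
    rw [p2] at n3 n4 n5
    rw [p1, p2, p3, p4, p5]
    exact stepL q α β (q ^ (2 * m)) c Q E hα hq' hβ hE0 n1 n2 n3 n4 n5

lemma stepR (q α β y c Q E: F) (hq : q ≠ 0) (hα : α ≠ 0) (hq' : 1 - q ≠ 0) (hβ : 1 - β ≠ 0) (hE0 : 1 - β * q ^ 2 ≠ 0) (hE : E ≠ 0)
  (n2 : 1 - β * (y ^ 2 * q ^ 6) ≠ 0) (n3 : 1 - y * q ^ 2 ≠ 0) (n4 : 1 - α * (y * q ^ 2) ≠ 0) (n5 : α - y * q ^ 2 ≠ 0) (n6 : y ≠ 0):
   β / ((1 - q) * α) * c * ((1 - y ^ 2 * q ^ 3) * (1 - α * (y ^ 2 * q ^ 3)) * (α - y ^ 2 * q ^ 3)) * (Q / E) +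
    ((1 - y ^ 3 * q ^ 7) / (1 - q) * (c * ((1 - y ^ 2 * q ^ 3) * (1 - α * (y ^ 2 * q ^ 3)) * (α - y ^ 2 * q ^ 3) /
        ((y * q ^ 2) * (1 - (y * q ^ 2)) * (1 - α * (y * q ^ 2)) * (α - (y * q ^ 2))))) * (Q * (β - y * q) * (β - y * q ^ 2) / E) -
      (1 - α * β * q) * (α - β * q) / (α * (1 - β) * (1 - β * q ^ 2)) * ((1 - y ^ 3 * q ^ 7) / (1 - q) * (c * ((1 - y ^ 2 * q ^ 3) * (1 - α * (y ^ 2 * q ^ 3)) * (α - y ^ 2 * q ^ 3) /
        ((y * q ^ 2) * (1 - (y * q ^ 2)) * (1 - α * (y * q ^ 2)) * (α - (y * q ^ 2))))) * (y ^ 2 * q ^ 3 * (q * β - 1) * (β - 1) * Q / (E * (1 - β * (y ^ 2 * q ^ 6)) / (1 - β * q ^ 2))))) =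
   β / ((1 - q) * α) * (c * ((1 - y ^ 2 * q ^ 3) * (1 - α * (y ^ 2 * q ^ 3)) * (α - y ^ 2 * q ^ 3) /
        ((y * q ^ 2) * (1 - (y * q ^ 2)) * (1 - α * (y * q ^ 2)) * (α - (y * q ^ 2))))) * ((1 - y ^ 2 * q ^ 5) * (1 - α * (y ^ 2 * q ^ 5)) * (α - y ^ 2 * q ^ 5)) * (Q * (β - y * q) / (E * (1 - β * (y ^ 2 * q ^ 6)))) := by
  have id : β * ((y * q ^ 2) * (1 - (y * q ^ 2)) * (1 - α * (y * q ^ 2)) * (α - (y * q ^ 2))) * (1 - β * (y ^ 2 * q ^ 6)) +
    α * (1 - y ^ 3 * q ^ 7) * (β - y * q) * (β - y * q ^ 2) * (1 - β * (y ^ 2 * q ^ 6)) + (1 - α * β * q) * (α - β * q) * (1 - y ^ 3 * q ^ 7) * y ^ 2 * q ^ 3 * (q * β - 1)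
    - β * ((1 - y ^ 2 * q ^ 5) * (1 - α * (y ^ 2 * q ^ 5)) * (α - y ^ 2 * q ^ 5)) * (β - y * q) = 0 := by ring
  have hd : (y * q ^ 2) * (1 - (y * q ^ 2)) * (1 - α * (y * q ^ 2)) * (α - (y * q ^ 2)) ≠ 0 :=
    mul_ne_zero (mul_ne_zero (mul_ne_zero (mul_ne_zero n6 (pow_ne_zero _ hq)) n3) n4) n5
  generalize (y * q ^ 2) * (1 - (y * q ^ 2)) * (1 - α * (y * q ^ 2)) * (α - (y * q ^ 2)) = d at *
  generalize (1 - y ^ 2 * q ^ 3) * (1 - α * (y ^ 2 * q ^ 3)) * (α - y ^ 2 * q ^ 3) = N at *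
  generalize (1 - y ^ 2 * q ^ 5) * (1 - α * (y ^ 2 * q ^ 5)) * (α - y ^ 2 * q ^ 5) = N' at *
  generalize 1 - β * (y ^ 2 * q ^ 6) = W at *
  generalize 1 - y ^ 3 * q ^ 7 = b at *
  rw [← sub_eq_zero]
  have hβ' : β - 1 ≠ 0 := fun h => hβ (by linear_combination -h)
  have e1 : (1 - α * β * q) * (α - β * q) / (α * (1 - β) * (1 - β * q ^ 2)) * (b / (1 - q) * (c * (N / d)) * (y ^ 2 * q ^ 3 * (q * β - 1) * (β - 1) * Q / (E * W / (1 - β * q ^ 2))))
    = - ((1 - α * β * q) * (α - β * q) / α * (b / (1 - q) * (c * (N / d)) * (y ^ 2 * q ^ 3 * (q * β - 1) * Q / (E * W)))) := by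
    generalize (1 - α * β * q) * (α - β * q) = P
    generalize 1 - β * q ^ 2 = w at *
    generalize y ^ 2 * q ^ 3 * (q * β - 1) = P2
    have : β - 1 = - (1 - β) := by ring
    rw [this]
    generalize 1 - β = v at *
    field_simp
  rw [e1]
  have key : β / ((1 - q) * α) * c * N * (Q / E) + (b / (1 - q) * (c * (N / d)) * (Q * (β - y * q) * (β - y * q ^ 2) / E) -
     (-((1 - α * β * q) * (α - β * q) / α * (b / (1 - q) * (c * (N / d)) * (y ^ 2 * q ^ 3 * (q * β - 1) * Q / (E * W)))))) -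
     β / ((1 - q) * α) * (c * (N / d)) * N' * (Q * (β - y * q) / (E * W)) = c * N * Q / ((1 - q) * α * E * d * W) *
     (β * d * W + α * b * (β - y * q) * (β - y * q ^ 2) * W + (1 - α * β * q) * (α - β * q) * b * y ^ 2 * q ^ 3 * (q * β - 1) - β * N' * (β - y * q)) := by
    generalize 1 - q = v at *
    field_simp
    ring
  rw [key, id, mul_zero]

theorem recR (hq : q ≠ 0) (hq1 : ∀ k : ℕ, 1 - q ^ (k + 1) ≠ 0) (hα : α ≠ 0) (hβ : 1 - β ≠ 0)
    (hE : ∀ i : ℕ, 1 - β * q ^ (2 * i + 2) ≠ 0) (m : ℕ)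
    (h1 : ∀ k < m + 1, 1 - α * q ^ (k + 1) ≠ 0) (h2 : ∀ k < m + 1, α - q ^ (k + 1) ≠ 0) :
    (∑ j ∈ range (m + 2), tR q α β j) - rb q α β * ∑ j ∈ range (m + 2), tR q α (q ^ 2 * β) j = gR q α β m := by
  have hq' : 1 - q ≠ 0 := by simpa using hq1 0
  have hE0 : 1 - β * q ^ 2 ≠ 0 := by simpa using hE 0
  have hE1 : 1 - β * q ^ 4 ≠ 0 := by simpa using hE 1
  induction m with
  | zero =>
    have n1 : 1 - α * q ≠ 0 := by simpa using h1 0 (by omega)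
    have n2 : α - q ≠ 0 := by simpa using h2 0 (by omega)
    have t0 : ∀ b : F, tR q α b 0 = 1 := by
      intro b
      simp only [tR, cR, SS, EE, prod_range_zero, mul_zero, zero_add, pow_one, div_one, mul_one]
      exact div_self hq'
    have t1 : tR q α β 1 = (1 - q ^ 4) / (1 - q) * ((1 - q) * (1 - α * q) * (α - q) /
        (q * (1 - q) * (1 - α * q) * (α - q))) * ((β - q) / (1 - β * q ^ 2)) := by
      simp only [tR, cR, SS, EE, prod_range_one, mul_zero, zero_add, pow_one, mul_one]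
    have t2 : tR q α (q ^ 2 * β) 1 = (1 - q ^ 4) / (1 - q) * ((1 - q) * (1 - α * q) * (α - q) /
        (q * (1 - q) * (1 - α * q) * (α - q))) * ((q ^ 2 * β - q) / (1 - β * q ^ 4)) := by
      simp only [tR, cR, SS, EE, prod_range_one, mul_zero, zero_add, pow_one, mul_one]
      have : q ^ 2 * β * q ^ 2 = β * q ^ 4 := by ring
      rw [this]
    have g0 : gR q α β 0 = (β / ((1 - q) * α)) * ((1 - q) * (1 - α * q) * (α - q) /
        (q * (1 - q) * (1 - α * q) * (α - q))) *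
        ((1 - q ^ 3) * (1 - α * q ^ 3) * (α - q ^ 3)) * (1 / ((1 - β * q ^ 2) * (1 - β * q ^ 4))) := by
      simp only [gR, cR, SS, EE, prod_range_one, prod_range_zero, prod_range_succ, mul_zero, zero_add, pow_one, mul_one, one_mul]
    simp only [zero_add]
    rw [sum_range_succ, sum_range_one, sum_range_succ, sum_range_one]
    have cc : (1 - q) * (1 - α * q) * (α - q) / (q * (1 - q) * (1 - α * q) * (α - q)) = 1 / q := by
      generalize 1 - α * q = v at *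
      generalize α - q = w at *
      generalize 1 - q = u at *
      field_simp
    rw [t0, t0, t1, t2, g0, rb, cc]
    have hE0' : 1 - q ^ 2 * β ≠ 0 := by rwa [mul_comm]
    have hE1' : 1 - q ^ 4 * β ≠ 0 := by rwa [mul_comm]
    field_simp
    ring
  | succ m ih =>
    rw [sum_range_succ, sum_range_succ _ (m + 1 + 1), mul_add]
    have ih' := ih (fun k hk => h1 k (by omega)) (fun k hk => h2 k (by omega))
    have e1 : (∑ j ∈ range (m + 1 + 1), tR q α β j) + tR q α β (m + 1 + 1) - (rb q α β * (∑ j ∈ range (m + 1 + 1), tR q α (q ^ 2 * β) j)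
      + rb q α β * tR q α (q ^ 2 * β) (m + 1 + 1)) = gR q α β m + (tR q α β (m + 1 + 1) - rb q α β * tR q α (q ^ 2 * β) (m + 1 + 1)) := by
      rw [← ih']; ring
    rw [e1]
    have hs := EE_shift (q := q) (β := β) (m + 2)
    have hEq : EE q (q ^ 2 * β) (m + 2) = EE q β (m + 3) / (1 - β * q ^ 2) := by
      rw [eq_div_iff hE0, hs]
    have c1 : cR q α (m + 2) = cR q α (m + 1) * ((1 - q ^ (2 * (m + 1) + 1)) * (1 - α * q ^ (2 * (m + 1) + 1)) * (α - q ^ (2 * (m + 1) + 1)) /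
        (q ^ (m + 1 + 1) * (1 - q ^ (m + 1 + 1)) * (1 - α * q ^ (m + 1 + 1)) * (α - q ^ (m + 1 + 1)))) := by rw [cR, prod_range_succ, ← cR]
    have c2 : SS q β (m + 2) = SS q β m * (β - q ^ (m + 1)) * (β - q ^ (m + 1 + 1)) := by
      rw [SS, prod_range_succ, prod_range_succ, ← SS]
    have c2' : SS q β (m + 1) = SS q β m * (β - q ^ (m + 1)) := by
      rw [SS, prod_range_succ, ← SS]
    have c3 : EE q β (m + 3) = EE q β (m + 2) * (1 - β * q ^ (2 * (m + 2) + 2)) := by rw [EE, prod_range_succ, ← EE]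
    have n1 := EE_ne hE (m + 2)
    have n2 : 1 - β * q ^ (2 * (m + 2) + 2) ≠ 0 := hE (m + 2)
    have n3 : 1 - q ^ (m + 1 + 1) ≠ 0 := hq1 (m + 1)
    have n4 : 1 - α * q ^ (m + 1 + 1) ≠ 0 := h1 (m + 1) (by omega)
    have n5 : α - q ^ (m + 1 + 1) ≠ 0 := h2 (m + 1) (by omega)
    have n6 : q ^ (m + 1 + 1) ≠ 0 := pow_ne_zero _ hq
    show gR q α β m + (tR q α β (m + 2) - rb q α β * tR q α (q ^ 2 * β) (m + 2)) = gR q α β (m + 1)
    rw [tR, tR, gR, gR, SS_shift, hEq, show m + 1 + 2 = m + 3 by ring, c3, show m + 1 + 1 = m + 2 by ring, c2, c2', show 2 * m + 3 = 2 * (m + 1) + 1 by ring, c1, rb]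
    generalize cR q α (m + 1) = c at *
    generalize SS q β m = Q at *
    generalize EE q β (m + 2) = E at *
    have p1 : q ^ (m + 1) = q ^ m * q := by ring
    have p2 : q ^ (m + 1 + 1) = q ^ m * q ^ 2 := by ring
    have p3 : q ^ (2 * (m + 2) + 2) = (q ^ m) ^ 2 * q ^ 6 := by ring
    have p4 : q ^ (3 * (m + 2) + 1) = (q ^ m) ^ 3 * q ^ 7 := by ring
    have p5 : q ^ (2 * (m + 1) + 3) = (q ^ m) ^ 2 * q ^ 5 := by ring
    have p6 : q ^ (2 * (m + 1) + 1) = (q ^ m) ^ 2 * q ^ 3 := by ring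
    rw [p3] at n2
    rw [p2] at n3 n4 n5 n6
    rw [p1, p2, p3, p4, p5, p6]
    exact stepR q α β (q ^ m) c Q E hq hα hq' hβ hE0 n1 n2 n3 n4 n5 (pow_ne_zero _ hq)

end rec

end Pool.Agent.X14.PA
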