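import Pool.Agent.X14.PA2

set_option autoImplicit false

/-! The numerator and the denominator of `L_n - R_n` as polynomials in `q, a, b`. -/

namespace Pool.Agent.X14.PA

open Finset Polynomial

noncomputable section

/-- `[m]` as a polynomial in `q` -/
def br (m : ℕ) : ℚ[X] := ∑ i ∈ range m, X ^ i

/-- the data: `U j / V`, `W j / V` are the coefficients depending on `q` only -/
structure Dat (n : ℕ) where
  V : ℚ[X]
  U : ℕ → ℚ[X]
  W : ℕ → ℚ[X]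
  hU : ∀ j < n, U j * ∏ i ∈ range j, (1 - X ^ (2 * i + 2)) = V * ∏ i ∈ range j, (1 - X ^ (2 * i + 1))
  hW : ∀ j < n, W j * ∏ i ∈ range j, (X ^ (i + 1) * (1 - X ^ (i + 1))) = V * ∏ i ∈ range j, (1 - X ^ (2 * i + 1))

/-- linear polynomials in `a` over `ℚ[q]` -/
def xa (m : ℕ) : ℚ[X][X] := (1 - X * C (X ^ m)) * (X - C (X ^ m))

/-- linear polynomials in `b` over `ℚ[q][a]` -/
def yb (m : ℕ) : ℚ[X][X][X] := 1 - X * C (C (X ^ m))
def zb (m : ℕ) : ℚ[X][X][X] := X - C (C (X ^ m))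

def AL (s n j : ℕ) : ℚ[X][X] := ((∏ i ∈ range j, xa (2 * i + 1)) * ∏ i ∈ Ico j s, xa (2 * i + 2)) * ∏ i ∈ range (n - 1), xa (i + 1)
def AR (s n j : ℕ) : ℚ[X][X] := (∏ i ∈ range s, xa (2 * i + 2)) * ((∏ i ∈ range j, xa (2 * i + 1)) * ∏ i ∈ Ico j (n - 1), xa (i + 1))
def BL (n j : ℕ) : ℚ[X][X][X] := (∏ i ∈ range j, zb (2 * i + 1)) * ∏ i ∈ Ico j (n - 1), yb (2 * i + 2)
def BR (n j : ℕ) : ℚ[X][X][X] := (∏ i ∈ range j, zb (i + 1)) * ∏ i ∈ Ico j (n - 1), yb (2 * i + 2)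

def NN {n : ℕ} (s : ℕ) (𝒟 : Dat n) : ℚ[X][X][X] :=
  (∑ j ∈ range (s + 1), C (C (br (4 * j + 1) * 𝒟.U j)) * C (AL s n j) * BL n j)
  - ∑ j ∈ range n, C (C (br (3 * j + 1) * 𝒟.W j)) * C (AR s n j) * BR n j

def DD {n : ℕ} (s : ℕ) (𝒟 : Dat n) : ℚ[X][X][X] :=
  C (C 𝒟.V) * C ((∏ i ∈ range s, xa (2 * i + 2)) * ∏ i ∈ range (n - 1), xa (i + 1)) * ∏ i ∈ range (n - 1), yb (2 * i + 2)

section ev

variable {F : Type*} [Field F] (φ : ℚ[X] →+* F) (α β : F)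

/-- evaluation at `a = α`, `b = β` -/
def ev : ℚ[X][X][X] →+* F := eval₂RingHom (eval₂RingHom φ α) β

lemma ev_CC (p : ℚ[X]) : ev φ α β (C (C p)) = φ p := by simp [ev]
lemma ev_C (p : ℚ[X][X]) : ev φ α β (C p) = eval₂RingHom φ α p := by simp [ev]
lemma ev_xa (m : ℕ) : eval₂RingHom φ α (xa m) = (1 - α * φ X ^ m) * (α - φ X ^ m) := by
  simp only [xa, coe_eval₂RingHom, eval₂_mul, eval₂_sub, eval₂_one, eval₂_X, eval₂_pow, map_pow, eval₂_C]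
lemma ev_yb (m : ℕ) : ev φ α β (yb m) = 1 - β * φ X ^ m := by
  simp only [yb, ev, coe_eval₂RingHom, eval₂_mul, eval₂_sub, eval₂_one, eval₂_X, eval₂_pow, map_pow, eval₂_C]
lemma ev_zb (m : ℕ) : ev φ α β (zb m) = β - φ X ^ m := by
  simp only [zb, ev, coe_eval₂RingHom, eval₂_sub, eval₂_X, eval₂_pow, map_pow, eval₂_C]

lemma ev_sub (x y : ℚ[X][X][X]) : ev φ α β (x - y) = ev φ α β x - ev φ α β y := by
  simp only [ev, coe_eval₂RingHom, eval₂_sub]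

lemma ev_br (h1 : 1 - φ X ≠ 0) (m : ℕ) : φ (br m) = (1 - φ X ^ m) / (1 - φ X) := by
  rw [br, map_sum]
  simp only [map_pow]
  rw [geom_sum_eq (fun h => h1 (by rw [h]; ring)), ← neg_sub, ← neg_sub (1 : F) (φ X), neg_div_neg_eq]

lemma prod_swap {x y : ℕ → F} {j s : ℕ} (hj : j ≤ s) (hy : ∀ i < s, y i ≠ 0) :
    (∏ i ∈ range j, x i) * ∏ i ∈ Ico j s, y i = (∏ i ∈ range s, y i) * ∏ i ∈ range j, (x i / y i) := by
  rw [← prod_range_mul_prod_Ico y hj, prod_div_distrib]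
  have : ∏ i ∈ range j, y i ≠ 0 := prod_ne_zero_iff.2 (fun i hi => hy i (lt_of_lt_of_le (mem_range.1 hi) hj))
  field_simp

theorem ev_NN {n s : ℕ} (hn : n = 2 * s + 1) (𝒟 : Dat n) (hq : φ X ≠ 0) (hq1 : ∀ k : ℕ, 1 - φ X ^ (k + 1) ≠ 0)
    (h1 : ∀ k < n - 1, 1 - α * φ X ^ (k + 1) ≠ 0) (h2 : ∀ k < n - 1, α - φ X ^ (k + 1) ≠ 0)
    (hE : ∀ i : ℕ, 1 - β * φ X ^ (2 * i + 2) ≠ 0) :
    ev φ α β (NN s 𝒟) = ev φ α β (DD s 𝒟) * ((∑ j ∈ range (s + 1), tL (φ X) α β j) - ∑ j ∈ range n, tR (φ X) α β j) := by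
  have h1' : 1 - φ X ≠ 0 := by simpa using hq1 0
  have hxa : ∀ i < n - 1, (1 - α * φ X ^ (i + 1)) * (α - φ X ^ (i + 1)) ≠ 0 := fun i hi => mul_ne_zero (h1 i hi) (h2 i hi)
  have hxe : ∀ i < s, (1 - α * φ X ^ (2 * i + 2)) * (α - φ X ^ (2 * i + 2)) ≠ 0 := fun i hi => hxa (2 * i + 1) (by omega)
  have eD : ev φ α β (DD s 𝒟) = φ 𝒟.V * ((∏ i ∈ range s, ((1 - α * φ X ^ (2 * i + 2)) * (α - φ X ^ (2 * i + 2)))) *
      ∏ i ∈ range (n - 1), ((1 - α * φ X ^ (i + 1)) * (α - φ X ^ (i + 1)))) * ∏ i ∈ range (n - 1), (1 - β * φ X ^ (2 * i + 2)) := by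
    rw [DD, map_mul, map_mul, ev_CC, ev_C, map_mul, map_prod, map_prod, map_prod]
    simp only [ev_xa, ev_yb]
  have hUe : ∀ j < n, φ (𝒟.U j) = φ 𝒟.V * ∏ i ∈ range j, ((1 - φ X ^ (2 * i + 1)) / (1 - φ X ^ (2 * i + 2))) := by
    intro j hj
    have h := congrArg φ (𝒟.hU j hj)
    rw [map_mul, map_mul, map_prod, map_prod] at h
    simp only [map_sub, map_one, map_pow] at h
    rw [prod_div_distrib, ← mul_div_assoc, ← h, mul_div_cancel_right₀]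
    exact prod_ne_zero_iff.2 (fun i _ => hq1 (2 * i + 1))
  have hWe : ∀ j < n, φ (𝒟.W j) = φ 𝒟.V * ∏ i ∈ range j, ((1 - φ X ^ (2 * i + 1)) / (φ X ^ (i + 1) * (1 - φ X ^ (i + 1)))) := by
    intro j hj
    have h := congrArg φ (𝒟.hW j hj)
    rw [map_mul, map_mul, map_prod, map_prod] at h
    simp only [map_sub, map_one, map_pow, map_mul] at h
    rw [prod_div_distrib, ← mul_div_assoc, ← h, mul_div_cancel_right₀]
    exact prod_ne_zero_iff.2 (fun i _ => mul_ne_zero (pow_ne_zero _ hq) (hq1 i))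
  rw [NN, ev_sub, map_sum, map_sum, mul_sub, mul_sum, mul_sum]
  congr 1
  · apply sum_congr rfl
    intro j hj
    have hj' : j < s + 1 := mem_range.1 hj
    rw [map_mul, map_mul, ev_CC, ev_C, map_mul, hUe j (by omega), ev_br φ h1', AL, BL, map_mul, map_mul, map_mul,
      map_prod, map_prod, map_prod, map_prod, map_prod]
    simp only [ev_xa, ev_yb, ev_zb]
    rw [prod_swap (x := fun i => (1 - α * φ X ^ (2 * i + 1)) * (α - φ X ^ (2 * i + 1)))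
      (y := fun i => (1 - α * φ X ^ (2 * i + 2)) * (α - φ X ^ (2 * i + 2))) (by omega : j ≤ s) hxe,
      prod_swap (x := fun i => β - φ X ^ (2 * i + 1)) (y := fun i => 1 - β * φ X ^ (2 * i + 2)) (by omega : j ≤ n - 1) (fun i _ => hE i)]
    rw [eD, tL, cL, QQ, EE, ← prod_div_distrib]
    have e1 : ∏ i ∈ range j, ((1 - φ X ^ (2 * i + 1)) * (1 - α * φ X ^ (2 * i + 1)) * (α - φ X ^ (2 * i + 1)) /
      ((1 - φ X ^ (2 * i + 2)) * (1 - α * φ X ^ (2 * i + 2)) * (α - φ X ^ (2 * i + 2)))) =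
      (∏ i ∈ range j, ((1 - φ X ^ (2 * i + 1)) / (1 - φ X ^ (2 * i + 2)))) * ∏ i ∈ range j, ((1 - α * φ X ^ (2 * i + 1)) * (α - φ X ^ (2 * i + 1)) /
      ((1 - α * φ X ^ (2 * i + 2)) * (α - φ X ^ (2 * i + 2)))) := by
      rw [← prod_mul_distrib]
      apply prod_congr rfl
      intro i _
      rw [mul_assoc, mul_assoc, mul_div_mul_comm]
    rw [e1]
    ring
  · apply sum_congr rfl
    intro j hj
    have hj' : j < n := mem_range.1 hj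
    rw [map_mul, map_mul, ev_CC, ev_C, map_mul, hWe j hj', ev_br φ h1', AR, BR, map_mul, map_mul, map_mul,
      map_prod, map_prod, map_prod, map_prod, map_prod]
    simp only [ev_xa, ev_yb, ev_zb]
    rw [prod_swap (x := fun i => (1 - α * φ X ^ (2 * i + 1)) * (α - φ X ^ (2 * i + 1)))
      (y := fun i => (1 - α * φ X ^ (i + 1)) * (α - φ X ^ (i + 1))) (by omega : j ≤ n - 1) hxa,
      prod_swap (x := fun i => β - φ X ^ (i + 1)) (y := fun i => 1 - β * φ X ^ (2 * i + 2)) (by omega : j ≤ n - 1) (fun i _ => hE i)]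
    rw [eD, tR, cR, SS, EE, ← prod_div_distrib]
    have e1 : ∏ i ∈ range j, ((1 - φ X ^ (2 * i + 1)) * (1 - α * φ X ^ (2 * i + 1)) * (α - φ X ^ (2 * i + 1)) /
      (φ X ^ (i + 1) * (1 - φ X ^ (i + 1)) * (1 - α * φ X ^ (i + 1)) * (α - φ X ^ (i + 1)))) =
      (∏ i ∈ range j, ((1 - φ X ^ (2 * i + 1)) / (φ X ^ (i + 1) * (1 - φ X ^ (i + 1))))) * ∏ i ∈ range j, ((1 - α * φ X ^ (2 * i + 1)) * (α - φ X ^ (2 * i + 1)) /
      ((1 - α * φ X ^ (i + 1)) * (α - φ X ^ (i + 1)))) := by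
      rw [← prod_mul_distrib]
      apply prod_congr rfl
      intro i _
      rw [mul_assoc (1 - φ X ^ (2 * i + 1)), mul_assoc (φ X ^ (i + 1) * (1 - φ X ^ (i + 1))), mul_div_mul_comm]
    rw [e1]
    ring

end ev

end

end Pool.Agent.X14.PA
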