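import Pool.Agent.X14.QW

set_option autoImplicit false

/-! Tools for second order expansions modulo powers of cyclotomic polynomials. -/

namespace Pool.Agent.X14.QR

open Finset Polynomial Pool.Agent.X14.QL Pool.Agent.X14.QBlock

noncomputable section

section field

variable {F : Type*} [Field F]

/-- the coefficients of the finite `q`-binomial theorem, `(p^{-K}; p)_k / (p; p)_k` -/
def cb (p : F) (K k : ℕ) : F := ∏ j ∈ range k, ((1 - p ^ ((j : ℤ) - K)) / (1 - p ^ (j + 1)))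

lemma cb_zero_of_lt {p : F} {K k : ℕ} (h : K < k) : cb p K k = 0 := by
  unfold cb
  apply prod_eq_zero (mem_range.2 h)
  simp

lemma cb_rec {p : F} (hp0 : p ≠ 0) (hp : ∀ j : ℕ, 1 - p ^ (j + 1) ≠ 0) (K k : ℕ) :
    cb p (K + 1) (k + 1) = cb p K (k + 1) - p ^ (-(K : ℤ) - 1) * cb p K k := by
  have h1 : ∏ j ∈ range k, (1 - p ^ (((j + 1 : ℕ) : ℤ) - ((K + 1 : ℕ) : ℤ))) = ∏ j ∈ range k, (1 - p ^ ((j : ℤ) - K)) := by
    apply prod_congr rfl
    intro j _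
    congr 2
    push_cast; ring
  unfold cb
  rw [prod_div_distrib, prod_div_distrib, prod_div_distrib, prod_range_succ', h1, prod_range_succ (fun j => 1 - p ^ (j + 1)),
    prod_range_succ (fun j : ℕ => 1 - p ^ ((j : ℤ) - K))]
  have h2 : ∏ j ∈ range k, (1 - p ^ (j + 1)) ≠ 0 := prod_ne_zero_iff.2 (fun j _ => hp j)
  have h3 := hp k
  have h4 : p ^ ((k : ℤ) - K) = p ^ (-(K : ℤ) - 1) * p ^ (k + 1) := by
    rw [← zpow_natCast p (k + 1), ← zpow_add₀ hp0]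
    congr 1; push_cast; ring
  have h5 : p ^ (((0 : ℕ) : ℤ) - ((K + 1 : ℕ) : ℤ)) = p ^ (-(K : ℤ) - 1) := by
    congr 1; push_cast; ring
  rw [h4, h5]
  field_simp
  ring

/-- the finite `q`-binomial theorem -/
lemma cb_sum {p : F} (hp0 : p ≠ 0) (hp : ∀ j : ℕ, 1 - p ^ (j + 1) ≠ 0) (z : F) (K : ℕ) :
    ∑ k ∈ range (K + 1), cb p K k * z ^ k = ∏ i ∈ range K, (1 - z * p ^ (-(i : ℤ) - 1)) := by
  induction K with
  | zero => simp [cb]
  | succ K ih =>
    rw [prod_range_succ, ← ih, sum_range_succ' _ (K + 1)]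
    simp only [cb_rec hp0 hp]
    have h1 : ∑ k ∈ range (K + 1), cb p K (k + 1) * z ^ (k + 1) + cb p (K + 1) 0 * z ^ 0 = ∑ k ∈ range (K + 1), cb p K k * z ^ k := by
      have h2 : cb p (K + 1) 0 = cb p K 0 := by simp [cb]
      rw [h2, ← sum_range_succ' (fun k => cb p K k * z ^ k) (K + 1), sum_range_succ, cb_zero_of_lt (Nat.lt_succ_self K)]
      ring
    have h3 : ∑ k ∈ range (K + 1), (cb p K (k + 1) - p ^ (-(K : ℤ) - 1) * cb p K k) * z ^ (k + 1) =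
        ∑ k ∈ range (K + 1), cb p K (k + 1) * z ^ (k + 1) - z * p ^ (-(K : ℤ) - 1) * ∑ k ∈ range (K + 1), cb p K k * z ^ k := by
      rw [mul_sum, ← sum_sub_distrib]
      apply sum_congr rfl
      intro k _
      ring
    rw [h3]
    linear_combination h1

lemma cb_sum_zero {p : F} (hp0 : p ≠ 0) (hp : ∀ j : ℕ, 1 - p ^ (j + 1) ≠ 0) {K j : ℕ} (h0 : 0 < j) (h1 : j ≤ K) :
    ∑ k ∈ range (K + 1), cb p K k * (p ^ k) ^ j = 0 := by
  have h2 : ∀ k, (p ^ k) ^ j = (p ^ j) ^ k := fun k => by rw [← pow_mul, ← pow_mul, mul_comm]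
  simp only [h2]
  rw [cb_sum hp0 hp]
  apply prod_eq_zero (mem_range.2 (show j - 1 < K by omega))
  rw [← zpow_natCast p j, ← zpow_add₀ hp0]
  have : (j : ℤ) + (-((j - 1 : ℕ) : ℤ) - 1) = 0 := by omega
  rw [this, zpow_zero, sub_self]

/-- the same for polynomials -/
lemma cb_poly {p : F} (hp0 : p ≠ 0) (hp : ∀ j : ℕ, 1 - p ^ (j + 1) ≠ 0) {K : ℕ} (f : F[X]) (hf : f.natDegree < K) :
    ∑ k ∈ range (K + 1), cb p K k * (p ^ k * f.eval (p ^ k)) = 0 := by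
  have h1 : ∀ k, cb p K k * (p ^ k * f.eval (p ^ k)) = ∑ i ∈ range (f.natDegree + 1), f.coeff i * (cb p K k * (p ^ k) ^ (i + 1)) := by
    intro k
    rw [Polynomial.eval_eq_sum_range, mul_sum, mul_sum]
    apply sum_congr rfl
    intro i _
    ring
  simp only [h1]
  rw [sum_comm]
  apply sum_eq_zero
  intro i hi
  have := mem_range.1 hi
  rw [← mul_sum, cb_sum_zero hp0 hp (by omega) (by omega), mul_zero]

end field

/-! ### congruences -/

lemma qz_shift {n : ℕ} (hn0 : 0 < n) (z c : ℤ) : Eqm (cyclotomic n ℚ) 1 (q ^ (z + c * n)) (q ^ z) := by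
  have h1 : q ^ (z + c * n) - q ^ z = -(q ^ z * e (c * n)) := by
    unfold e
    rw [zpow_add₀ q_ne]; ring
  unfold Eqm
  rw [h1]
  exact (QO.mul_left (zmem hn0 z) (e_QO hn0 (dvd_mul_left _ _))).neg

lemma e_shift {n : ℕ} (hn0 : 0 < n) (z c : ℤ) : Eqm (cyclotomic n ℚ) 1 (e (z + c * n)) (e z) := by
  unfold e
  exact (Eqm.refl 1).sub (qz_shift hn0 z c)

lemma Eqm.inv_of {P : ℚ[X]} {k : ℕ} {x y : RatFunc ℚ} (h : Eqm P k x y) (hx : x⁻¹ ∈ Loc P) (hy : y⁻¹ ∈ Loc P)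
    (hx0 : x ≠ 0) (hy0 : y ≠ 0) : Eqm P k x⁻¹ y⁻¹ := by
  unfold Eqm at *
  have h1 := (QO.mul_left ((Loc P).mul_mem hx hy) h).neg
  convert h1 using 1
  field_simp
  ring

/-- `q^z / (1 - q^z)^2` -/
def hh (z : ℤ) : RatFunc ℚ := q ^ z * (e z)⁻¹ ^ 2

lemma hh_neg (z : ℤ) : hh (-z) = hh z := by
  unfold hh
  rw [e_neg]
  have h1 : q ^ z ≠ 0 := zpow_ne_zero z q_ne
  rw [zpow_neg, inv_neg, mul_inv, inv_inv]
  rcases eq_or_ne (e z) 0 with h | h
  · rw [h]; simp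
  · field_simp

lemma hh_mem {n : ℕ} (hn0 : 0 < n) {z : ℤ} (hz : ¬ (n : ℤ) ∣ z) : hh z ∈ Loc (cyclotomic n ℚ) :=
  (Loc _).mul_mem (zmem hn0 z) ((Loc _).pow_mem (e_inv hn0 hz) 2)

lemma hh_shift {n : ℕ} (hn0 : 0 < n) {z : ℤ} (hz : ¬ (n : ℤ) ∣ z) (c : ℤ) :
    Eqm (cyclotomic n ℚ) 1 (hh (z + c * n)) (hh z) := by
  have hz' : ¬ (n : ℤ) ∣ z + c * n := fun h => hz ((dvd_add_left (dvd_mul_left _ _)).1 h)
  have h0 : ∀ {w : ℤ}, ¬ (n : ℤ) ∣ w → e w ≠ 0 := fun hw => e_ne (fun h => hw (h ▸ dvd_zero _))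
  have h1 := Eqm.inv_of (e_shift hn0 z c) (e_inv hn0 hz') (e_inv hn0 hz) (h0 hz') (h0 hz)
  exact (qz_shift hn0 z c).mul (h1.pow (e_inv hn0 hz) 2) (zmem hn0 z) ((Loc _).pow_mem (e_inv hn0 hz) 2)

/-- the reflection -/
lemma hh_reflect {n : ℕ} (hn0 : 0 < n) {z : ℤ} (hz : ¬ (n : ℤ) ∣ z) (c : ℤ) :
    Eqm (cyclotomic n ℚ) 1 (hh (c * n - z)) (hh z) := by
  have h := hh_shift hn0 (z := -z) (by rwa [dvd_neg]) c
  rw [hh_neg] at h
  rwa [show c * (n : ℤ) - z = -z + c * n by ring]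

/-- power sums -/
lemma moment1 {n m : ℕ} (hc : Nat.Coprime n m) {s : ℕ} (h0 : 0 < s) (h1 : s < n) :
    QO (cyclotomic n ℚ) 1 (∑ k ∈ range n, q ^ (m * s * k)) := by
  have hnd : ¬ n ∣ m * s := by
    intro h
    have := Nat.le_of_dvd h0 (hc.dvd_of_dvd_mul_left h)
    omega
  have hne : 1 - q ^ (m * s) ≠ 0 := one_sub_ne (Nat.pos_of_ne_zero (fun h => hnd (h ▸ dvd_zero n)))
  have e1 : ∑ k ∈ range n, q ^ (m * s * k) = (1 - q ^ (m * s))⁻¹ * (1 - q ^ (m * s * n)) := by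
    have h2 := geom_sum_mul (q ^ (m * s)) n
    simp only [← pow_mul] at h2
    rw [eq_inv_mul_iff_mul_eq₀ hne]
    linear_combination -h2
  rw [e1]
  exact QO.mul_left (inv_one_sub_mem hnd) (QO_one_sub (dvd_mul_left _ _))

lemma poly_moment1 {n m : ℕ} (hc : Nat.Coprime n m) (f : (Loc (cyclotomic n ℚ))[X]) (hf : f.natDegree + 1 < n) :
    QO (cyclotomic n ℚ) 1 (∑ k ∈ range n, q ^ (m * k) * f.eval₂ (Loc (cyclotomic n ℚ)).subtype (q ^ (m * k))) := by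
  have e1 : ∑ k ∈ range n, q ^ (m * k) * f.eval₂ (Loc (cyclotomic n ℚ)).subtype (q ^ (m * k)) =
      ∑ i ∈ range (f.natDegree + 1), (f.coeff i : RatFunc ℚ) * ∑ k ∈ range n, q ^ (m * (i + 1) * k) := by
    simp only [Polynomial.eval₂_eq_sum_range, mul_sum]
    rw [sum_comm]
    apply sum_congr rfl
    intro i _
    apply sum_congr rfl
    intro k _
    have : q ^ (m * (i + 1) * k) = q ^ (m * k) * (q ^ (m * k)) ^ i := by
      rw [← pow_mul, ← pow_add]; congr 1; ring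
    rw [this, Subring.subtype_apply]
    ring
  rw [e1]
  apply QO.sum
  intro i hi
  have := mem_range.1 hi
  exact QO.mul_left (f.coeff i).2 (moment1 hc (by omega) (by omega))

/-- products of one-units -/
lemma prod_first {P : ℚ[X]} {k : ℕ} {ι : Type*} (s : Finset ι) (x : ι → RatFunc ℚ) (hx : ∀ i ∈ s, QO P k (x i)) :
    Eqm P (k + k) (∏ i ∈ s, (1 + x i)) (1 + ∑ i ∈ s, x i) := by
  classical
  induction s using Finset.induction_on with
  | empty => simpa using Eqm.refl (P := P) (k := k + k) (1 : RatFunc ℚ)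
  | insert a s ha ih =>
    rw [prod_insert ha, sum_insert ha]
    have h1 := hx a (mem_insert_self a s)
    have h2 := ih (fun i hi => hx i (mem_insert_of_mem hi))
    have hs : QO P k (∑ i ∈ s, x i) := QO.sum (fun i hi => hx i (mem_insert_of_mem hi))
    have h3 := (QO.mul_left ((Loc P).add_mem (Loc P).one_mem h1.mem) h2).add (QO.mul h1 hs)
    unfold Eqm
    convert h3 using 1
    ring

/-- `(1 + x)^d` to second order -/
lemma pow_second {P : ℚ[X]} {x : RatFunc ℚ} (hx : QO P 1 x) (d : ℕ) :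
    Eqm P 3 ((1 + x) ^ d) (1 + d * x + (d * (d - 1) / 2) * x ^ 2) := by
  have hx3 : QO P 3 (x * (x * x)) := hx.mul (hx.mul hx)
  induction d with
  | zero => simpa using Eqm.refl (P := P) (k := 3) 1
  | succ d ih =>
    rw [pow_succ]
    unfold Eqm at *
    have hm : (((d : ℚ) * (d - 1) / 2 : ℚ) : RatFunc ℚ) ∈ Loc P := rat_mem P _
    have h1 := (QO.mul_right ih ((Loc P).add_mem (Loc P).one_mem hx.mem)).add (QO.mul_left hm hx3)
    convert h1 using 1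
    push_cast
    ring

end

end Pool.Agent.X14.QR
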