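import Pool.Agent.X14.QBlock2

set_option autoImplicit false

/-! The weights occurring in the block decomposition. -/

namespace Pool.Agent.X14.QBlock

open Finset Polynomial Pool.Agent.X14.QL

noncomputable section

/-- `1 - M^2/c^2` -/
def wt (M c : ℤ) : ℚ := ((c : ℚ) ^ 2 - M ^ 2) / c ^ 2

lemma wt_ne {M c : ℤ} (hc : c ≠ 0) (h1 : c ≠ M) (h2 : c ≠ -M) : wt M c ≠ 0 := by
  unfold wt
  have hc' : (c : ℚ) ≠ 0 := by exact_mod_cast hc
  refine div_ne_zero ?_ (pow_ne_zero 2 hc')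
  have : (c : ℚ) ^ 2 - M ^ 2 = ((c - M : ℤ) : ℚ) * ((c + M : ℤ) : ℚ) := by push_cast; ring
  rw [this]
  have h3 : c - M ≠ 0 := sub_ne_zero.2 h1
  have h4 : c + M ≠ 0 := fun h => h2 (by omega)
  exact mul_ne_zero (by exact_mod_cast h3) (by exact_mod_cast h4)

variable {n s h : ℕ}

lemma rho_mem (hn : 0 < n) (hs : 0 < s) (hsn : Nat.Coprime s n) (M : ℤ) {a : ℤ} (ha : a ≠ 0) :
    rho s n M a ∈ Loc (cyclotomic n ℚ) := by
  by_cases h : (n : ℤ) ∣ a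
  · obtain ⟨c, rfl⟩ := h
    have hc : c ≠ 0 := by rintro rfl; simp at ha
    rw [mul_comm]
    exact (rho_mult hn hs M hc).mem (rat_mem _ _)
  · exact (rho_U hn hsn M h).mem

/-- the numerator weights -/
def Po (s n : ℕ) (M : ℤ) (k : ℕ) : RatFunc ℚ := ∏ j ∈ range k, rho s n M (2 * (j : ℤ) + 1)

/-- the even weights -/
def Pe (s n : ℕ) (M : ℤ) (k : ℕ) : RatFunc ℚ := ∏ j ∈ range k, rho s n M (2 * (j : ℤ) + 2)

/-- all weights -/
def Pa (s n : ℕ) (M : ℤ) (k : ℕ) : RatFunc ℚ := ∏ j ∈ range k, rho s n M ((j : ℤ) + 1)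

def wo (M : ℤ) (J : ℕ) : ℚ := ∏ i ∈ range J, wt M (2 * (i : ℤ) + 1)
def we (M : ℤ) (J : ℕ) : ℚ := ∏ i ∈ range J, wt M (2 * (i : ℤ) + 2)
def wa (M : ℤ) (J : ℕ) : ℚ := ∏ i ∈ range J, wt M ((i : ℤ) + 1)

lemma odd_not_dvd (hn : n = 2 * h + 1) {i t : ℕ} (ht : t < n) (hth : t ≠ h) :
    ¬ (n : ℤ) ∣ 2 * ((n * i + t : ℕ) : ℤ) + 1 := by
  intro hd
  have h1 : (n : ℤ) ∣ 2 * (t : ℤ) + 1 := by
    have : 2 * ((n * i + t : ℕ) : ℤ) + 1 = (n : ℤ) * (2 * i) + (2 * t + 1) := by push_cast; ring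
    rw [this] at hd
    exact (dvd_add_right (dvd_mul_right _ _)).1 hd
  have h2 : n ∣ 2 * t + 1 := by exact_mod_cast h1
  obtain ⟨c, hc⟩ := h2
  rcases c with _ | _ | c
  · omega
  · omega
  · have : n * 2 ≤ n * (c + 1 + 1) := Nat.mul_le_mul_left n (by omega)
    omega

lemma odd_eq (hn : n = 2 * h + 1) (i : ℕ) : 2 * ((n * i + h : ℕ) : ℤ) + 1 = (2 * (i : ℤ) + 1) * n := by
  rw [hn]; push_cast; ring

lemma even_not_dvd (hn : n = 2 * h + 1) {i t : ℕ} (ht : t < n) (hth : t ≠ n - 1) :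
    ¬ (n : ℤ) ∣ 2 * ((n * i + t : ℕ) : ℤ) + 2 := by
  intro hd
  have h1 : (n : ℤ) ∣ 2 * ((t : ℤ) + 1) := by
    have : 2 * ((n * i + t : ℕ) : ℤ) + 2 = (n : ℤ) * (2 * i) + 2 * (t + 1) := by push_cast; ring
    rw [this] at hd
    exact (dvd_add_right (dvd_mul_right _ _)).1 hd
  have h2 : n ∣ 2 * (t + 1) := by exact_mod_cast h1
  have h3 : Nat.Coprime n 2 := by rw [hn]; simp
  have h4 := Nat.le_of_dvd (by omega) (h3.dvd_of_dvd_mul_left h2)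
  omega

lemma even_eq (hn : 0 < n) (i : ℕ) : 2 * ((n * i + (n - 1) : ℕ) : ℤ) + 2 = (2 * (i : ℤ) + 2) * n := by
  push_cast [Nat.cast_sub hn]; ring

lemma all_not_dvd {i t : ℕ} (ht : t < n) (hth : t ≠ n - 1) :
    ¬ (n : ℤ) ∣ ((n * i + t : ℕ) : ℤ) + 1 := by
  intro hd
  have h1 : (n : ℤ) ∣ (t : ℤ) + 1 := by
    have : ((n * i + t : ℕ) : ℤ) + 1 = (n : ℤ) * i + (t + 1) := by push_cast; ring
    rw [this] at hd
    exact (dvd_add_right (dvd_mul_right _ _)).1 hd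
  have h2 : n ∣ t + 1 := by exact_mod_cast h1
  have h4 := Nat.le_of_dvd (by omega) h2
  omega

lemma all_eq (hn : 0 < n) (i : ℕ) : ((n * i + (n - 1) : ℕ) : ℤ) + 1 = ((i : ℤ) + 1) * n := by
  push_cast [Nat.cast_sub hn]; ring

lemma Po_eqm (hn : n = 2 * h + 1) (hs : 0 < s) (hsn : Nat.Coprime s n) (M : ℤ) (J : ℕ) {l : ℕ} (hl : l ≤ h) :
    Eqm (cyclotomic n ℚ) 2 (Po s n M (n * J + l)) (wo M J : ℚ) := by
  unfold Po wo
  push_cast
  apply prod_blocks_eqm (fun j => rho s n M (2 * (j : ℤ) + 1)) (fun i => ((wt M (2 * (i : ℤ) + 1) : ℚ) : RatFunc ℚ)) J (t0 := h) (by omega)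
  · intro i t ht htt
    exact rho_U (by omega) hsn M (odd_not_dvd hn ht htt)
  · intro i; exact rat_mem _ _
  · intro i
    rw [odd_eq hn]
    exact rho_mult (by omega) hs M (by omega)
  · exact hl

lemma Po_mem (hn : 0 < n) (hs : 0 < s) (hsn : Nat.Coprime s n) (M : ℤ) (k : ℕ) : Po s n M k ∈ Loc (cyclotomic n ℚ) :=
  (Loc _).prod_mem (fun j _ => rho_mem hn hs hsn M (by omega))

lemma Pe_eqm (hn : n = 2 * h + 1) (hs : 0 < s) (hsn : Nat.Coprime s n) (M : ℤ) (J : ℕ) {l : ℕ} (hl : l < n) :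
    Eqm (cyclotomic n ℚ) 2 (Pe s n M (n * J + l)) (we M J : ℚ) := by
  unfold Pe we
  push_cast
  apply prod_blocks_eqm (fun j => rho s n M (2 * (j : ℤ) + 2)) (fun i => ((wt M (2 * (i : ℤ) + 2) : ℚ) : RatFunc ℚ)) J (t0 := n - 1) (by omega)
  · intro i t ht htt
    exact rho_U (by omega) hsn M (even_not_dvd hn ht htt)
  · intro i; exact rat_mem _ _
  · intro i
    rw [even_eq (by omega)]
    exact rho_mult (by omega) hs M (by omega)
  · omega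

lemma Pa_eqm (hn : 0 < n) (hs : 0 < s) (hsn : Nat.Coprime s n) (M : ℤ) (J : ℕ) {l : ℕ} (hl : l < n) :
    Eqm (cyclotomic n ℚ) 2 (Pa s n M (n * J + l)) (wa M J : ℚ) := by
  unfold Pa wa
  push_cast
  apply prod_blocks_eqm (fun j => rho s n M ((j : ℤ) + 1)) (fun i => ((wt M ((i : ℤ) + 1) : ℚ) : RatFunc ℚ)) J (t0 := n - 1) (by omega)
  · intro i t ht htt
    exact rho_U (by omega) hsn M (all_not_dvd ht htt)
  · intro i; exact rat_mem _ _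
  · intro i
    rw [all_eq (by omega)]
    exact rho_mult (by omega) hs M (by omega)
  · omega

lemma wo_ne {M : ℤ} {J : ℕ} (hM : ∀ i : ℕ, i < J → 2 * (i : ℤ) + 1 ≠ M) (hM' : 0 < M) : wo M J ≠ 0 := by
  unfold wo
  rw [prod_ne_zero_iff]
  intro i hi
  exact wt_ne (by omega) (hM i (mem_range.1 hi)) (by omega)

lemma we_ne {μ : ℕ} (J : ℕ) : we (2 * (μ : ℤ) + 1) J ≠ 0 := by
  unfold we
  rw [prod_ne_zero_iff]
  intro i _
  exact wt_ne (by omega) (by omega) (by omega)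

lemma wa_ne {M : ℤ} {J : ℕ} (hM : (J : ℤ) < M) : wa M J ≠ 0 := by
  unfold wa
  rw [prod_ne_zero_iff]
  intro i hi
  have := mem_range.1 hi
  exact wt_ne (by omega) (by omega) (by omega)

/-- ratios at multiples of `n` -/
lemma e_ratio (hn : 0 < n) (hs : 0 < s) (c : ℤ) {d : ℤ} (hd : d ≠ 0) :
    Eqm (cyclotomic n ℚ) 1 (e (s * (c * n)) / e (s * (d * n))) ((c / d : ℚ) : RatFunc ℚ) := by
  obtain ⟨hx, hx0, hx1, hxi⟩ := x_props hn hs
  rw [e_Gz hn hs, e_Gz hn hs, mul_div_mul_left _ _ hx1]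
  have h1 := Gz_one hx hx0 hx1 hxi c
  have h2 := Gz_one hx hx0 hx1 hxi d
  exact h1.div (by norm_num) h2 (by exact_mod_cast hd)

/-- `∏ (1 - q^{s(2j+1)})/(1 - q^{s(2j+2)})` -/
def rr (s k : ℕ) : RatFunc ℚ := ∏ j ∈ range k, (e (s * (2 * (j : ℤ) + 1)) / e (s * (2 * (j : ℤ) + 2)))

lemma rr_mem (hn : n = 2 * h + 1) (hs : 0 < s) (hsn : Nat.Coprime s n) (J : ℕ) {l : ℕ} (hl : l < n) :
    rr s (n * J + l) ∈ Loc (cyclotomic n ℚ) ∧ (h < l → QO (cyclotomic n ℚ) 1 (rr s (n * J + l))) := by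
  have hn0 : 0 < n := by omega
  have := ratio_blocks (P := cyclotomic n ℚ) (n := n) (fun j => e (s * (2 * (j : ℤ) + 1))) (fun j => e (s * (2 * (j : ℤ) + 2)))
    (t0 := h) (t1 := n - 1) (l := l) J (by omega) (by omega) (fun j => e_mem hn0 _)
    (fun i t ht htt => e_inv hn0 (not_dvd_mul hsn (even_not_dvd hn ht htt)))
    (fun i => by
      rw [odd_eq hn, even_eq hn0]
      exact (e_ratio hn0 hs _ (by omega)).mem (rat_mem _ _)) (by omega)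
  refine ⟨this.1, fun hl' => this.2 hl' ?_⟩
  rw [odd_eq hn]
  exact e_QO hn0 (Dvd.dvd.mul_left (dvd_mul_left _ _) _)

/-- the value at `q = 1` -/
lemma rr_one (hs : 0 < s) (J : ℕ) :
    Eqm (cyclotomic 1 ℚ) 1 (rr s J) ((∏ i ∈ range J, ((2 * (i : ℚ) + 1) / (2 * i + 2)) : ℚ) : RatFunc ℚ) := by
  unfold rr
  rw [Rat.cast_prod]
  apply Eqm.prod
  · intro i _
    have := e_ratio (n := 1) one_pos hs (2 * (i : ℤ) + 1) (d := 2 * (i : ℤ) + 2) (by omega)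
    push_cast at this ⊢
    rwa [mul_one, mul_one] at this
  · intro i _; exact rat_mem _ _

end

end Pool.Agent.X14.QBlock
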