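import Pool.Agent.X14.PA3
import Pool.Agent.X14.QR1
import Pool.Agent.X14.QW

set_option autoImplicit false

/-! The boundary terms modulo cyclotomic polynomials. -/

namespace Pool.Agent.X14.PA

open Finset Polynomial Pool.Agent.X14.QL Pool.Agent.X14.QBlock Pool.Agent.X14.QR

noncomputable section

/-- nonzero units of `Loc P` -/
def Un (P : ℚ[X]) (x : RatFunc ℚ) : Prop := x ∈ Loc P ∧ x⁻¹ ∈ Loc P ∧ x ≠ 0

variable {P : ℚ[X]}

lemma Un.mul {x y : RatFunc ℚ} (h : Un P x) (h' : Un P y) : Un P (x * y) :=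
  ⟨(Loc P).mul_mem h.1 h'.1, by rw [mul_inv]; exact (Loc P).mul_mem h.2.1 h'.2.1, mul_ne_zero h.2.2 h'.2.2⟩

lemma Un.prod {ι : Type*} {s : Finset ι} {f : ι → RatFunc ℚ} (h : ∀ i ∈ s, Un P (f i)) : Un P (∏ i ∈ s, f i) := by
  refine ⟨(Loc P).prod_mem (fun i hi => (h i hi).1), ?_, prod_ne_zero_iff.2 (fun i hi => (h i hi).2.2)⟩
  rw [← prod_inv_distrib]
  exact (Loc P).prod_mem (fun i hi => (h i hi).2.1)

lemma Un.pow {x : RatFunc ℚ} (h : Un P x) (m : ℕ) : Un P (x ^ m) :=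
  ⟨(Loc P).pow_mem h.1 m, by rw [← inv_pow]; exact (Loc P).pow_mem h.2.1 m, pow_ne_zero _ h.2.2⟩

lemma Un.of_cop {p : ℚ[X]} (h : IsCoprime p P) (hp : p ≠ 0) : Un P (al p) := ⟨al_mem P p, inv_mem h, al_ne hp⟩

lemma Un.neg {x : RatFunc ℚ} (h : Un P x) : Un P (-x) :=
  ⟨(Loc P).neg_mem h.1, by rw [inv_neg]; exact (Loc P).neg_mem h.2.1, neg_ne_zero.2 h.2.2⟩

variable {d : ℕ}

lemma Un_q (hd : 1 < d) : Un (cyclotomic d ℚ) q := ⟨q_mem _, q_inv_mem hd, q_ne⟩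

lemma Un_e {b : ℕ} (hb : ¬ d ∣ b) : Un (cyclotomic d ℚ) (1 - q ^ b) :=
  ⟨one_sub_mem _ _, inv_one_sub_mem hb, one_sub_ne (Nat.pos_of_ne_zero (fun h => hb (h ▸ dvd_zero d)))⟩

lemma cop_of_root (hd : 0 < d) {p : ℚ[X]} (h : ∀ ζ : ℂ, ‖ζ‖ = 1 → aeval ζ p ≠ 0) : IsCoprime p (cyclotomic d ℚ) := by
  have hirr : Irreducible (cyclotomic d ℚ) := cyclotomic.irreducible_rat hd
  rw [isCoprime_comm]
  rcases EuclideanDomain.dvd_or_coprime (cyclotomic d ℚ) p hirr with h1 | h1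
  · exfalso
    have hζ : IsPrimitiveRoot (Complex.exp (2 * Real.pi * Complex.I / d)) d := Complex.isPrimitiveRoot_exp d hd.ne'
    set ζ := Complex.exp (2 * Real.pi * Complex.I / d) with hζd
    have h2 : aeval ζ (cyclotomic d ℚ) = 0 := by
      rw [aeval_def, eval₂_eq_eval_map, map_cyclotomic]
      have := hζ.isRoot_cyclotomic hd
      exact this
    obtain ⟨c, hc⟩ := h1
    apply h ζ (Complex.norm_eq_one_of_pow_eq_one hζ.pow_eq_one hd.ne')
    rw [hc, map_mul, h2, zero_mul]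
  · exact h1

lemma norm_lin {a : ℚ} (ha : 1 < a) {ζ : ℂ} (hζ : ‖ζ‖ = 1) : ((a : ℚ) : ℂ) ≠ ζ := by
  intro h
  have h1 := congrArg norm h
  rw [hζ] at h1
  have h2 : ‖((a : ℚ) : ℂ)‖ = (a : ℝ) := by
    rw [show ((a : ℚ) : ℂ) = ((a : ℝ) : ℂ) by push_cast; rfl, Complex.norm_real, Real.norm_eq_abs, abs_of_pos]
    exact_mod_cast (lt_trans one_pos ha)
  rw [h2] at h1
  have : (a : ℚ) = 1 := by exact_mod_cast h1
  linarith

lemma Un_lin (hd : 0 < d) {a : ℚ} (ha : 1 < a) (m : ℕ) : Un (cyclotomic d ℚ) (1 - al (C a) * q ^ m) := by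
  have h0 : (1 : RatFunc ℚ) - al (C a) * q ^ m = al (1 - C a * X ^ m) := by
    rw [map_sub, map_mul, map_pow, map_one, q_eq]
  rw [h0]
  have hc : IsCoprime (1 - C a * X ^ m : ℚ[X]) (cyclotomic d ℚ) := by
    apply cop_of_root hd
    intro ζ hζ h
    rw [map_sub, map_mul, map_pow, map_one, aeval_C, aeval_X] at h
    apply norm_lin ha (ζ := (ζ ^ m)⁻¹) (by rw [norm_inv, norm_pow, hζ]; simp)
    have : (algebraMap ℚ ℂ) a = ((a : ℚ) : ℂ) := rfl
    rw [this] at h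
    apply eq_inv_of_mul_eq_one_left
    linear_combination -h
  apply Un.of_cop hc
  intro h
  have := congrArg (eval 1) h
  simp at this
  linarith

lemma Un_lin' (hd : 0 < d) {a : ℚ} (ha : 1 < a) (m : ℕ) : Un (cyclotomic d ℚ) (al (C a) - q ^ m) := by
  have h0 : al (C a) - q ^ m = al (C a - X ^ m) := by
    rw [map_sub, map_pow, q_eq]
  rw [h0]
  have hc : IsCoprime (C a - X ^ m : ℚ[X]) (cyclotomic d ℚ) := by
    apply cop_of_root hd
    intro ζ hζ h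
    rw [map_sub, map_pow, aeval_C, aeval_X] at h
    apply norm_lin ha (ζ := ζ ^ m) (by rw [norm_pow, hζ]; simp)
    have : (algebraMap ℚ ℂ) a = ((a : ℚ) : ℂ) := rfl
    rw [this] at h
    linear_combination h
  apply Un.of_cop hc
  intro h
  have := congrArg (eval 1) h
  simp at this
  linarith

lemma Un_const {a : ℚ} (ha : a ≠ 0) : Un P (al (C a)) := by
  apply Un.of_cop
  · rw [isCoprime_comm]
    exact ⟨0, C a⁻¹, by rw [zero_mul, zero_add, ← C_mul, inv_mul_cancel₀ ha, C_1]⟩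
  · rwa [Ne, C_eq_zero]

lemma Un_one_sub_const {a : ℚ} (ha : 1 < a) : Un P (1 - al (C a)) := by
  have : (1 : RatFunc ℚ) - al (C a) = al (C (1 - a)) := by rw [map_sub, map_sub, map_one, map_one]
  rw [this]
  exact Un_const (by linarith)

/-! ### the first-order boundary -/

lemma rr_eq (j : ℕ) : rr 1 j = ∏ i ∈ range j, ((1 - q ^ (2 * i + 1)) / (1 - q ^ (2 * i + 2))) := by
  rw [rr]
  apply prod_congr rfl
  intro i _
  rw [show (((1 : ℕ) : ℤ) * (2 * (i : ℤ) + 1)) = ((2 * i + 1 : ℕ) : ℤ) by push_cast; ring,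
    show (((1 : ℕ) : ℤ) * (2 * (i : ℤ) + 2)) = ((2 * i + 2 : ℕ) : ℤ) by push_cast; ring, e_nat, e_nat]

lemma rr1_mem {h : ℕ} (hd : d = 2 * h + 1) (j : ℕ) : rr 1 j ∈ Loc (cyclotomic d ℚ) := by
  have := (rr_mem (s := 1) hd one_pos (Nat.coprime_one_left d) (j / d) (l := j % d) (Nat.mod_lt _ (by omega))).1
  rwa [Nat.div_add_mod] at this

lemma one_add_prod (j : ℕ) : (∏ i ∈ range j, (1 + q ^ (i + 1))) * (∏ i ∈ range j, (1 - q ^ (i + 1))) = ∏ i ∈ range j, (1 - q ^ (2 * i + 2)) := by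
  rw [← prod_mul_distrib]
  apply prod_congr rfl
  intro i _
  rw [show 2 * i + 2 = (i + 1) + (i + 1) by ring, pow_add]
  ring

lemma prodA_ne (j : ℕ) : ∏ i ∈ range j, (1 - q ^ (i + 1)) ≠ 0 := prod_ne_zero_iff.2 (fun i _ => one_sub_ne (by omega))
lemma prodE_ne (j : ℕ) : ∏ i ∈ range j, (1 - q ^ (2 * i + 2)) ≠ 0 := prod_ne_zero_iff.2 (fun i _ => one_sub_ne (by omega))

variable {n s : ℕ} {a b : ℚ}

/-- the part of the boundary left after removing `1 - q^n` -/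
def LL (s n : ℕ) (α β : RatFunc ℚ) : RatFunc ℚ := -(β / ((1 - q) * (1 - β) * α)) * cL q α s *
  ((1 - α * q ^ n) * (α - q ^ n)) * (QQ q β s / EE q β (s + 1))

lemma gL_eq (hn : n = 2 * s + 1) (α β : RatFunc ℚ) : gL q α β s = (1 - q ^ n) * LL s n α β := by
  rw [gL, LL, ← hn]; ring

lemma cL_split (α : RatFunc ℚ) (j : ℕ) : cL q α j = rr 1 j * ∏ i ∈ range j, ((1 - α * q ^ (2 * i + 1)) * (α - q ^ (2 * i + 1)) /
      ((1 - α * q ^ (2 * i + 2)) * (α - q ^ (2 * i + 2)))) := by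
  rw [cL, rr_eq, ← prod_mul_distrib]
  apply prod_congr rfl
  intro i _
  rw [mul_assoc, mul_assoc, mul_div_mul_comm]

lemma cR_split (α : RatFunc ℚ) (j : ℕ) : cR q α j = (∏ i ∈ range j, ((1 - q ^ (2 * i + 1)) / (q ^ (i + 1) * (1 - q ^ (i + 1))))) *
    ∏ i ∈ range j, ((1 - α * q ^ (2 * i + 1)) * (α - q ^ (2 * i + 1)) / ((1 - α * q ^ (i + 1)) * (α - q ^ (i + 1)))) := by
  rw [cR, ← prod_mul_distrib]
  apply prod_congr rfl
  intro i _
  rw [mul_assoc, mul_assoc (q ^ (i + 1) * (1 - q ^ (i + 1))), mul_div_mul_comm]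

lemma div_mem' {x y : RatFunc ℚ} (hx : x ∈ Loc P) (hy : Un P y) : x / y ∈ Loc P := by
  rw [div_eq_mul_inv]; exact (Loc P).mul_mem hx hy.2.1

lemma LL_mem {h : ℕ} (hd : d = 2 * h + 1) (hd1 : 1 < d) (ha : 1 < a) (hb : 1 < b) (n : ℕ) :
    LL s n (al (C a)) (al (C b)) ∈ Loc (cyclotomic d ℚ) := by
  have hd0 : 0 < d := by omega
  have h1q : Un (cyclotomic d ℚ) (1 - q) := by
    have := Un_e (d := d) (b := 1) (fun h => by have := Nat.le_of_dvd one_pos h; omega)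
    rwa [pow_one] at this
  unfold LL
  refine (Loc _).mul_mem ((Loc _).mul_mem ((Loc _).mul_mem ((Loc _).neg_mem ?_) ?_) ?_) ?_
  · apply div_mem' (al_mem _ _)
    exact (h1q.mul (Un_one_sub_const hb)).mul (Un_const (by linarith))
  · rw [cL_split]
    refine (Loc _).mul_mem (rr1_mem hd s) ((Loc _).prod_mem (fun i _ => div_mem' ?_ ((Un_lin hd0 ha _).mul (Un_lin' hd0 ha _))))
    exact ((Un_lin hd0 ha _).mul (Un_lin' hd0 ha _)).1
  · exact ((Un_lin hd0 ha _).mul (Un_lin' hd0 ha _)).1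
  · apply div_mem' ((Loc _).prod_mem (fun i _ => (Un_lin' hd0 hb _).1))
    exact Un.prod (fun i _ => Un_lin hd0 hb _)

/-- the other boundary -/
def RR (m : ℕ) (α β : RatFunc ℚ) : RatFunc ℚ := (β / ((1 - q) * α)) *
  (rr 1 (m + 2) * (∏ i ∈ range (m + 2), (1 + q ^ (i + 1))) * (∏ i ∈ range (m + 1), q ^ (i + 1))⁻¹ *
    ∏ i ∈ range (m + 1), ((1 - α * q ^ (2 * i + 1)) * (α - q ^ (2 * i + 1)) / ((1 - α * q ^ (i + 1)) * (α - q ^ (i + 1))))) *
  ((1 - α * q ^ (2 * m + 3)) * (α - q ^ (2 * m + 3))) * (SS q β m / EE q β (m + 2))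

lemma gR_eq (m : ℕ) (α β : RatFunc ℚ) : gR q α β m = (1 - q ^ (m + 2)) * RR m α β := by
  have h1 : (∏ i ∈ range (m + 1), ((1 - q ^ (2 * i + 1)) / (q ^ (i + 1) * (1 - q ^ (i + 1))))) * (1 - q ^ (2 * m + 3)) =
      (1 - q ^ (m + 2)) * (rr 1 (m + 2) * (∏ i ∈ range (m + 2), (1 + q ^ (i + 1))) * (∏ i ∈ range (m + 1), q ^ (i + 1))⁻¹) := by
    have h2 := one_add_prod (m + 2)
    have h3 := prodA_ne (m + 2)
    have h3' := prodA_ne (m + 1)
    have h4 := prodE_ne (m + 2)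
    have h5 : ∏ i ∈ range (m + 1), q ^ (i + 1) ≠ 0 := prod_ne_zero_iff.2 (fun i _ => pow_ne_zero _ q_ne)
    have h6 : ∏ i ∈ range (m + 2), (1 - q ^ (i + 1)) = (∏ i ∈ range (m + 1), (1 - q ^ (i + 1))) * (1 - q ^ (m + 2)) := by
      rw [prod_range_succ]
    have h7 : ∏ i ∈ range (m + 2), (1 - q ^ (2 * i + 1)) = (∏ i ∈ range (m + 1), (1 - q ^ (2 * i + 1))) * (1 - q ^ (2 * m + 3)) := by
      rw [prod_range_succ]; congr 3
    rw [rr_eq, prod_div_distrib, prod_div_distrib, prod_mul_distrib, ← h2, h7, h6]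
    rw [← h2, h6] at h4
    have h8 : ∏ i ∈ range (m + 2), (1 + q ^ (i + 1)) ≠ 0 := left_ne_zero_of_mul h4
    have h9 : 1 - q ^ (m + 2) ≠ 0 := one_sub_ne (by omega)
    generalize ∏ i ∈ range (m + 2), (1 + q ^ (i + 1)) = x1 at *
    generalize ∏ i ∈ range (m + 1), (1 - q ^ (i + 1)) = x2 at *
    generalize ∏ i ∈ range (m + 1), q ^ (i + 1) = x3 at *
    generalize ∏ i ∈ range (m + 1), (1 - q ^ (2 * i + 1)) = x4 at *
    generalize 1 - q ^ (m + 2) = x5 at *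
    field_simp
  rw [gR, RR, cR_split]
  linear_combination (β / ((1 - q) * α)) * (∏ i ∈ range (m + 1), ((1 - α * q ^ (2 * i + 1)) * (α - q ^ (2 * i + 1)) / ((1 - α * q ^ (i + 1)) * (α - q ^ (i + 1))))) *
    ((1 - α * q ^ (2 * m + 3)) * (α - q ^ (2 * m + 3))) * (SS q β m / EE q β (m + 2)) * h1

lemma RR_mem {h : ℕ} (hd : d = 2 * h + 1) (hd1 : 1 < d) (ha : 1 < a) (hb : 1 < b) (m : ℕ) :
    RR m (al (C a)) (al (C b)) ∈ Loc (cyclotomic d ℚ) := by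
  have hd0 : 0 < d := by omega
  have h1q : Un (cyclotomic d ℚ) (1 - q) := by
    have := Un_e (d := d) (b := 1) (fun h => by have := Nat.le_of_dvd one_pos h; omega)
    rwa [pow_one] at this
  have hq := Un_q hd1
  unfold RR
  refine (Loc _).mul_mem ((Loc _).mul_mem ((Loc _).mul_mem ?_ ?_) ?_) ?_
  · apply div_mem' (al_mem _ _)
    exact h1q.mul (Un_const (by linarith))
  · refine (Loc _).mul_mem ((Loc _).mul_mem ((Loc _).mul_mem (rr1_mem hd _) ?_) ?_) ?_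
    · exact (Loc _).prod_mem (fun i _ => (Loc _).add_mem (Loc _).one_mem ((Loc _).pow_mem hq.1 _))
    · exact (Un.prod (fun i _ => hq.pow _)).2.1
    · exact (Loc _).prod_mem (fun i _ => div_mem' ((Un_lin hd0 ha _).mul (Un_lin' hd0 ha _)).1 ((Un_lin hd0 ha _).mul (Un_lin' hd0 ha _)))
  · exact ((Un_lin hd0 ha _).mul (Un_lin' hd0 ha _)).1
  · apply div_mem' ((Loc _).prod_mem (fun i _ => (Un_lin' hd0 hb _).1))
    exact Un.prod (fun i _ => Un_lin hd0 hb _)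

/-- the boundary is divisible by `Φ_d` for every divisor `d > 1` of `n` -/
lemma bd_one {m : ℕ} (hn : n = 2 * s + 1) (hm : n = m + 2) (hdn : d ∣ n) (hd1 : 1 < d) (ha : 1 < a) (hb : 1 < b) :
    QO (cyclotomic d ℚ) 1 (gL q (al (C a)) (al (C b)) s - gR q (al (C a)) (al (C b)) m) := by
  obtain ⟨h, hh⟩ : ∃ h, d = 2 * h + 1 := by
    obtain ⟨c, hc⟩ := hdn
    have : d % 2 = 1 := by
      rcases Nat.mod_two_eq_zero_or_one d with h0 | h0
      · exfalso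
        have : n % 2 = 0 := by rw [hc, Nat.mul_mod, h0]; simp
        omega
      · exact h0
    exact ⟨d / 2, by omega⟩
  rw [gL_eq hn, gR_eq, ← hm]
  exact (QO.mul_right (QO_one_sub hdn) (LL_mem hh hd1 ha hb n)).sub (QO.mul_right (QO_one_sub hdn) (RR_mem hh hd1 ha hb m))

end

end Pool.Agent.X14.PA
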