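import Pool.Agent.X14.PA4

set_option autoImplicit false

/-! The boundary terms modulo `Φ_n ^ 2`. -/

namespace Pool.Agent.X14.PA

open Finset Polynomial Pool.Agent.X14.QL Pool.Agent.X14.QBlock Pool.Agent.X14.QR

noncomputable section

variable {n s : ℕ} {a b : ℚ}


lemma qn_eqm (n : ℕ) : Eqm (cyclotomic n ℚ) 1 (q ^ n) 1 := by
  have := (QO_one_sub (N := n) (dvd_refl n)).neg
  unfold Eqm
  rwa [neg_sub] at this

lemma q_shift (n m : ℕ) : Eqm (cyclotomic n ℚ) 1 (q ^ (n + m)) (q ^ m) := by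
  have := (qn_eqm n).mul (Eqm.refl (P := cyclotomic n ℚ) (k := 1) (q ^ m)) (Loc _).one_mem ((Loc _).pow_mem (q_mem _) m)
  rwa [one_mul, ← pow_add] at this

lemma q_mult (n c : ℕ) : Eqm (cyclotomic n ℚ) 1 (q ^ (n * c)) 1 := by
  have := (qn_eqm n).pow (Loc _).one_mem c
  rwa [one_pow, ← pow_mul] at this

/-- reflection of the three kinds of factors -/
lemma refl_one {m : ℕ} (hm : m ≤ n) (c : RatFunc ℚ) (hc : c ∈ Loc (cyclotomic n ℚ)) :
    Eqm (cyclotomic n ℚ) 1 (1 - c * q ^ (n - m)) (-q ^ (n - m) * (c - q ^ m)) ∧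
    Eqm (cyclotomic n ℚ) 1 (c - q ^ (n - m)) (-q ^ (n - m) * (1 - c * q ^ m)) := by
  have h1 : q ^ (n - m) * q ^ m = q ^ n := by rw [← pow_add]; congr 1; omega
  have h2 := qn_eqm n
  unfold Eqm at *
  constructor
  · have : 1 - c * q ^ (n - m) - -q ^ (n - m) * (c - q ^ m) = -(q ^ n - 1) := by
      rw [← h1]; ring
    rw [this]; exact h2.neg
  · have : c - q ^ (n - m) - -q ^ (n - m) * (1 - c * q ^ m) = -(c * (q ^ n - 1)) := by
      rw [← h1]; ring
    rw [this]; exact (QO.mul_left hc h2).neg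

/-- the common value of the two boundaries -/
def TT (α β : RatFunc ℚ) : RatFunc ℚ := -(β / ((1 - q) * (1 - β) * α)) * ((1 - α) * (α - 1)) * (q / (1 - β * q))

lemma mid_eqm (n : ℕ) {a : ℚ} : Eqm (cyclotomic n ℚ) 1 ((1 - al (C a) * q ^ n) * (al (C a) - q ^ n)) ((1 - al (C a)) * (al (C a) - 1)) := by
  have h2 := qn_eqm n
  have h3 : Eqm (cyclotomic n ℚ) 1 (1 - al (C a) * q ^ n) (1 - al (C a)) := by
    have := (Eqm.refl (P := cyclotomic n ℚ) (k := 1) 1).sub (h2.mul_left (al_mem (cyclotomic n ℚ) (C a)))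
    rwa [mul_one] at this
  have h4 : Eqm (cyclotomic n ℚ) 1 (al (C a) - q ^ n) (al (C a) - 1) := (Eqm.refl _).sub h2
  exact h3.mul h4 ((Loc _).sub_mem (Loc _).one_mem (al_mem _ _)) ((Loc _).sub_mem (al_mem _ _) (Loc _).one_mem)

lemma prod_q (f : ℕ → ℕ) (m : ℕ) : ∏ i ∈ range m, q ^ f i = q ^ (∑ i ∈ range m, f i) := by
  rw [prod_pow_eq_pow_sum]

/-- the product of the factors of the left boundary -/
lemma left_prod (hn : n = 2 * s + 1) (hs : 0 < s) (ha : 1 < a) (hb : 1 < b) :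
    Eqm (cyclotomic n ℚ) 1 (cL q (al (C a)) s * QQ q (al (C b)) s * (EE q (al (C b)) s)⁻¹) q := by
  have hn0 : 0 < n := by omega
  have hn1 : 1 < n := by omega
  set F : ℕ → RatFunc ℚ := fun m => (1 - q ^ m) * (1 - al (C a) * q ^ m) * (al (C a) - q ^ m) * (al (C b) - q ^ m) with hF
  set G : ℕ → RatFunc ℚ := fun m => (1 - q ^ m) * (1 - al (C a) * q ^ m) * (al (C a) - q ^ m) * (1 - al (C b) * q ^ m) with hG
  have hGU : ∀ i < s, Un (cyclotomic n ℚ) (G (2 * i + 2)) := by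
    intro i hi
    have h1 : ¬ n ∣ 2 * i + 2 := fun h => by have := Nat.le_of_dvd (by omega) h; omega
    exact (((Un_e h1).mul (Un_lin hn0 ha _)).mul (Un_lin' hn0 ha _)).mul (Un_lin hn0 hb _)
  have h1 : cL q (al (C a)) s * QQ q (al (C b)) s * (EE q (al (C b)) s)⁻¹ = (∏ i ∈ range s, F (2 * i + 1)) * (∏ i ∈ range s, G (2 * i + 2))⁻¹ := by
    rw [cL, QQ, EE, ← prod_inv_distrib, ← prod_inv_distrib, ← prod_mul_distrib, ← prod_mul_distrib, ← prod_mul_distrib]
    apply prod_congr rfl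
    intro i _
    simp only [hF, hG]
    rw [div_eq_mul_inv, mul_inv, mul_inv, mul_inv, mul_inv, mul_inv]
    ring
  have h2 : Eqm (cyclotomic n ℚ) 1 (∏ i ∈ range s, F (2 * i + 1)) (∏ i ∈ range s, (q ^ (4 * (n - (2 * i + 2))) * G (2 * i + 2))) := by
    rw [← prod_range_reflect]
    apply Eqm.prod
    · intro i hi
      have hi' := mem_range.1 hi
      have e1 : 2 * (s - 1 - i) + 1 = n - (2 * i + 2) := by omega
      rw [e1]
      have hm : 2 * i + 2 ≤ n := by omega
      have r1 := (refl_one hm 1 (Loc _).one_mem).1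
      have r2 := refl_one hm (al (C a)) (al_mem _ _)
      have r3 := (refl_one hm (al (C b)) (al_mem _ _)).2
      have m1 := (Loc (cyclotomic n ℚ)).neg_mem ((Loc (cyclotomic n ℚ)).pow_mem (q_mem _) (n - (2 * i + 2)))
      have m2 := (Loc (cyclotomic n ℚ)).pow_mem (q_mem (cyclotomic n ℚ)) (2 * i + 2)
      have ma := al_mem (cyclotomic n ℚ) (C a)
      have mb := al_mem (cyclotomic n ℚ) (C b)
      rw [one_mul] at r1
      have k1 := (Loc (cyclotomic n ℚ)).mul_mem m1 ((Loc (cyclotomic n ℚ)).sub_mem (Loc _).one_mem m2)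
      have k2 := (Loc (cyclotomic n ℚ)).mul_mem m1 ((Loc (cyclotomic n ℚ)).sub_mem ma m2)
      have k3 := (Loc (cyclotomic n ℚ)).mul_mem m1 ((Loc (cyclotomic n ℚ)).sub_mem (Loc _).one_mem ((Loc _).mul_mem ma m2))
      have k4 := (Loc (cyclotomic n ℚ)).mul_mem m1 ((Loc (cyclotomic n ℚ)).sub_mem (Loc _).one_mem ((Loc _).mul_mem mb m2))
      have t1 := r1.mul r2.1 k1 k2
      have t2 := t1.mul r2.2 ((Loc _).mul_mem k1 k2) k3
      have t3 := t2.mul r3 ((Loc _).mul_mem ((Loc _).mul_mem k1 k2) k3) k4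
      simp only [hF, hG]
      convert t3 using 1
      rw [show 4 * (n - (2 * i + 2)) = (n - (2 * i + 2)) * 4 by ring, pow_mul]
      ring
    · intro i hi
      exact (Loc _).mul_mem ((Loc _).pow_mem (q_mem _) _) (hGU i (mem_range.1 hi)).1
  have h2e : ∏ i ∈ range s, (q ^ (4 * (n - (2 * i + 2))) * G (2 * i + 2)) =
      q ^ (∑ i ∈ range s, 4 * (n - (2 * i + 2))) * ∏ i ∈ range s, G (2 * i + 2) := by
    rw [prod_mul_distrib, prod_q]
  rw [h2e] at h2
  have h3 : ∑ i ∈ range s, 4 * (n - (2 * i + 2)) = n * (2 * s - 1) + 1 := by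
    have : ∀ m ≤ s, ∑ i ∈ range m, 4 * (n - (2 * i + 2)) = 4 * m * (n - m - 1) := by
      intro m hm
      induction m with
      | zero => simp
      | succ m ih =>
        rw [sum_range_succ, ih (by omega)]
        obtain ⟨t, ht⟩ : ∃ t, n = 2 * m + 2 + t := ⟨n - (2 * m + 2), by omega⟩
        rw [show n - m - 1 = m + 1 + t by omega, show n - (2 * m + 2) = t by omega, show n - (m + 1) - 1 = m + t by omega]
        ring
    rw [this s le_rfl]
    obtain ⟨t, rfl⟩ : ∃ t, s = t + 1 := ⟨s - 1, by omega⟩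
    rw [hn, show 2 * (t + 1) + 1 - (t + 1) - 1 = t + 1 by omega, show 2 * (t + 1) - 1 = 2 * t + 1 by omega]
    ring
  rw [h3] at h2
  have hU := Un.prod (P := cyclotomic n ℚ) (s := range s) (f := fun i => G (2 * i + 2)) (fun i hi => hGU i (mem_range.1 hi))
  have h4 : Eqm (cyclotomic n ℚ) 1 (q ^ (n * (2 * s - 1) + 1)) q := by
    have := (q_mult n (2 * s - 1)).mul (Eqm.refl q) (Loc _).one_mem (q_mem _)
    rwa [one_mul, ← pow_succ] at this
  have h5 := h2.mul_left hU.2.1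
  rw [h1, mul_comm]
  refine h5.trans ?_
  have e2 : (∏ i ∈ range s, G (2 * i + 2))⁻¹ * (q ^ (n * (2 * s - 1) + 1) * ∏ i ∈ range s, G (2 * i + 2)) = q ^ (n * (2 * s - 1) + 1) := by
    have := hU.2.2
    field_simp
  rw [e2]
  exact h4

lemma LL_eqm (hn : n = 2 * s + 1) (hs : 0 < s) (ha : 1 < a) (hb : 1 < b) :
    Eqm (cyclotomic n ℚ) 1 (LL s n (al (C a)) (al (C b))) (TT (al (C a)) (al (C b))) := by
  have hn0 : 0 < n := by omega
  have h1q : Un (cyclotomic n ℚ) (1 - q) := by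
    have := Un_e (d := n) (b := 1) (fun h => by have := Nat.le_of_dvd one_pos h; omega)
    rwa [pow_one] at this
  have h1 := left_prod hn hs ha hb
  have hqn : Eqm (cyclotomic n ℚ) 1 (q ^ (2 * s + 2)) q := by
    have := q_shift n 1
    rwa [show n + 1 = 2 * s + 2 by omega, pow_one] at this
  have h2 : Eqm (cyclotomic n ℚ) 1 (1 - al (C b) * q ^ (2 * s + 2)) (1 - al (C b) * q) :=
    (Eqm.refl 1).sub (hqn.mul_left (al_mem _ _))
  have u1 := Un_lin (a := b) hn0 hb (2 * s + 2)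
  have u2 := Un_lin (a := b) hn0 hb 1
  rw [pow_one] at u2
  have h3 := Eqm.inv_of h2 u1.2.1 u2.2.1 u1.2.2 u2.2.2
  have h4 := mid_eqm n (a := a)
  have hk : -(al (C b) / ((1 - q) * (1 - al (C b)) * al (C a))) ∈ Loc (cyclotomic n ℚ) := by
    refine (Loc _).neg_mem (div_mem' (al_mem _ _) ?_)
    exact (h1q.mul (Un_one_sub_const hb)).mul (Un_const (by linarith))
  have m0 : (1 - al (C a)) * (al (C a) - 1) ∈ Loc (cyclotomic n ℚ) :=
    (Loc _).mul_mem ((Loc _).sub_mem (Loc _).one_mem (al_mem _ _)) ((Loc _).sub_mem (al_mem _ _) (Loc _).one_mem)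
  have h5 := ((h4.mul (h1.mul h3 (q_mem _) u2.2.1) m0 ((Loc _).mul_mem (q_mem _) u2.2.1))).mul_left hk
  have e1 : EE q (al (C b)) (s + 1) = EE q (al (C b)) s * (1 - al (C b) * q ^ (2 * s + 2)) := by rw [EE, prod_range_succ, ← EE]
  convert h5 using 1
  · rw [LL, e1, div_eq_mul_inv (QQ q (al (C b)) s), mul_inv]
    ring
  · rw [TT, div_eq_mul_inv q]
    ring

lemma prod_two {M : Type*} [CommMonoid M] (g : ℕ → M) (m : ℕ) : ∏ i ∈ range (2 * m), g i = ∏ i ∈ range m, (g (2 * i) * g (2 * i + 1)) := by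
  induction m with
  | zero => simp
  | succ m ih =>
    rw [show 2 * (m + 1) = 2 * m + 1 + 1 by ring, prod_range_succ, prod_range_succ, ih, prod_range_succ _ m]
    rw [mul_assoc]

/-- the `β`-part of the right boundary -/
lemma right_SS (hn : n = 2 * s + 1) (hs : 0 < s) (hb : 1 < b) :
    Eqm (cyclotomic n ℚ) 1 (SS q (al (C b)) (2 * s - 1) * ((1 - al (C b)) * (1 - al (C b) * q))) (-q * EE q (al (C b)) n) := by
  have hn0 : 0 < n := by omega
  have mb := al_mem (cyclotomic n ℚ) (C b)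
  set g : ℕ → RatFunc ℚ := fun m => 1 - al (C b) * q ^ m with hg
  have mg : ∀ m, g m ∈ Loc (cyclotomic n ℚ) := fun m => (Loc _).sub_mem (Loc _).one_mem ((Loc _).mul_mem mb ((Loc _).pow_mem (q_mem _) m))
  have hgs : ∀ m, Eqm (cyclotomic n ℚ) 1 (g (n + m)) (g m) := fun m => (Eqm.refl 1).sub ((q_shift n m).mul_left mb)
  have h1 : Eqm (cyclotomic n ℚ) 1 (SS q (al (C b)) (2 * s - 1)) (∏ i ∈ range (2 * s - 1), (-q ^ (i + 1) * g (n - (i + 1)))) := by
    apply Eqm.prod
    · intro i hi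
      have hi' := mem_range.1 hi
      have := (refl_one (n := n) (m := n - (i + 1)) (by omega) (al (C b)) mb).2
      rwa [show n - (n - (i + 1)) = i + 1 by omega] at this
    · intro i _
      exact (Loc _).mul_mem ((Loc _).neg_mem ((Loc _).pow_mem (q_mem _) _)) (mg _)
  have h2 : ∏ i ∈ range (2 * s - 1), (-q ^ (i + 1) * g (n - (i + 1))) = -q ^ (s * (2 * s - 1)) * ∏ i ∈ range (2 * s - 1), g (i + 2) := by
    rw [prod_mul_distrib]
    congr 1
    · have e1 : ∀ i ∈ range (2 * s - 1), -q ^ (i + 1) = (-1) * q ^ (i + 1) := fun i _ => by ring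
      rw [prod_congr rfl e1, prod_mul_distrib, prod_const, card_range, prod_q]
      have e2 : ∑ i ∈ range (2 * s - 1), (i + 1) = s * (2 * s - 1) := by
        have e3 := sum_range_id_mul_two (2 * s)
        have e4 : ∑ i ∈ range (2 * s), i = ∑ i ∈ range (2 * s - 1), (i + 1) := by
          obtain ⟨t, ht⟩ : ∃ t, 2 * s = t + 1 := ⟨2 * s - 1, by omega⟩
          rw [ht, sum_range_succ']; simp
        rw [e4] at e3
        have e5 : 2 * s * (2 * s - 1) = s * (2 * s - 1) * 2 := by ring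
        omega
      rw [e2]
      have : Odd (2 * s - 1) := ⟨s - 1, by omega⟩
      rw [this.neg_one_pow]; ring
    · rw [← prod_range_reflect]
      apply prod_congr rfl
      intro i hi
      have hi' := mem_range.1 hi
      congr 1; omega
  rw [h2] at h1
  have h3 : Eqm (cyclotomic n ℚ) 1 (q ^ (s * (2 * s - 1))) q := by
    have e1 : s * (2 * s - 1) = n * (s - 1) + 1 := by
      obtain ⟨t, rfl⟩ : ∃ t, s = t + 1 := ⟨s - 1, by omega⟩
      rw [hn, show t + 1 - 1 = t by omega, show 2 * (t + 1) - 1 = 2 * t + 1 by omega]; ring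
    rw [e1]
    have := (q_mult n (s - 1)).mul (Eqm.refl q) (Loc _).one_mem (q_mem _)
    rwa [one_mul, ← pow_succ] at this
  -- the product of all `g`
  have h4 : Eqm (cyclotomic n ℚ) 1 (EE q (al (C b)) n) ((∏ i ∈ range (2 * s - 1), g (i + 2)) * (g 0 * g 1)) := by
    have e1 : EE q (al (C b)) n = (∏ i ∈ range s, g (2 * i + 2)) * (g (n + 1) * ∏ i ∈ range s, g (n + (2 * i + 3))) := by
      rw [EE, ← prod_range_mul_prod_Ico _ (show s ≤ n by omega)]
      congr 1
      rw [prod_Ico_eq_prod_range, show n - s = s + 1 by omega, prod_range_succ', mul_comm]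
      congr 1
      · simp only [hg]; congr 3; omega
      · apply prod_congr rfl
        intro i _
        simp only [hg]; congr 3; omega
    have e2 : (∏ i ∈ range s, g (2 * i + 2)) * (g 1 * ∏ i ∈ range s, g (2 * i + 3)) = g 1 * ∏ i ∈ range (2 * s), g (i + 2) := by
      rw [prod_two, prod_mul_distrib]; ring
    have e3 : Eqm (cyclotomic n ℚ) 1 (EE q (al (C b)) n) (g 1 * ∏ i ∈ range (2 * s), g (i + 2)) := by
      rw [e1, ← e2]
      have a1 : Eqm (cyclotomic n ℚ) 1 (∏ i ∈ range s, g (n + (2 * i + 3))) (∏ i ∈ range s, g (2 * i + 3)) :=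
        Eqm.prod (fun i _ => hgs _) (fun i _ => mg _)
      have a2 := (hgs 1).mul a1 (mg 1) ((Loc _).prod_mem (fun i _ => mg _))
      exact a2.mul_left ((Loc _).prod_mem (fun i _ => mg _))
    refine e3.trans ?_
    obtain ⟨t, ht⟩ : ∃ t, 2 * s = t + 1 := ⟨2 * s - 1, by omega⟩
    rw [ht, show t + 1 - 1 = t by omega, prod_range_succ]
    have a3 : Eqm (cyclotomic n ℚ) 1 (g (t + 2)) (g 0) := by
      have := hgs 0
      rwa [show n + 0 = t + 2 by omega] at this
    have a4 := a3.mul_left ((Loc _).mul_mem (mg 1) ((Loc (cyclotomic n ℚ)).prod_mem (fun i (_ : i ∈ range t) => mg (i + 2))))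
    convert a4 using 1 <;> ring
  have m1 : ∏ i ∈ range (2 * s - 1), g (i + 2) ∈ Loc (cyclotomic n ℚ) := (Loc _).prod_mem (fun i _ => mg _)
  have g0 : g 0 = 1 - al (C b) := by simp [hg]
  have g1 : g 1 = 1 - al (C b) * q := by simp [hg]
  have h5 := (h1.trans ((h3.neg).mul (Eqm.refl _) ((Loc _).neg_mem (q_mem _)) m1)).mul (Eqm.refl (g 0 * g 1))
    ((Loc _).mul_mem ((Loc _).neg_mem (q_mem _)) m1) ((Loc _).mul_mem (mg 0) (mg 1))
  rw [g0, g1] at h5 h4
  refine h5.trans ?_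
  have h6 := (h4.symm).mul_left ((Loc _).neg_mem (q_mem (cyclotomic n ℚ)))
  rwa [← mul_assoc] at h6

/-- the `α`-part of the right boundary -/
lemma right_alpha (hn : n = 2 * s + 1) (hs : 0 < s) (ha : 1 < a) :
    ∃ y, gR q (al (C a)) (al (C b)) (2 * s - 1) = (1 - q ^ n) * ((al (C b) / ((1 - q) * al (C a))) * ((1 - al (C a) * q ^ n) * (al (C a) - q ^ n)) * y *
      (SS q (al (C b)) (2 * s - 1) / EE q (al (C b)) n)) ∧ Eqm (cyclotomic n ℚ) 1 y 1 := by
  have hn0 : 0 < n := by omega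
  have hn1 : 1 < n := by omega
  set f : ℕ → RatFunc ℚ := fun m => (1 - q ^ m) * (1 - al (C a) * q ^ m) * (al (C a) - q ^ m) with hf
  have fU : ∀ m, ¬ n ∣ m → Un (cyclotomic n ℚ) (f m) := fun m hm => ((Un_e hm).mul (Un_lin hn0 ha _)).mul (Un_lin' hn0 ha _)
  have hfs : ∀ m, Eqm (cyclotomic n ℚ) 1 (f (n + m)) (f m) := by
    intro m
    have h1 := q_shift n m
    have mq := (Loc (cyclotomic n ℚ)).pow_mem (q_mem _) m
    have ma := al_mem (cyclotomic n ℚ) (C a)
    have t1 : Eqm (cyclotomic n ℚ) 1 (1 - q ^ (n + m)) (1 - q ^ m) := (Eqm.refl 1).sub h1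
    have t2 : Eqm (cyclotomic n ℚ) 1 (1 - al (C a) * q ^ (n + m)) (1 - al (C a) * q ^ m) := (Eqm.refl 1).sub (h1.mul_left ma)
    have t3 : Eqm (cyclotomic n ℚ) 1 (al (C a) - q ^ (n + m)) (al (C a) - q ^ m) := (Eqm.refl _).sub h1
    have k1 := (Loc (cyclotomic n ℚ)).sub_mem (Loc _).one_mem mq
    have k2 := (Loc (cyclotomic n ℚ)).sub_mem (Loc _).one_mem ((Loc _).mul_mem ma mq)
    have k3 := (Loc (cyclotomic n ℚ)).sub_mem ma mq
    exact (t1.mul t2 k1 k2).mul t3 ((Loc _).mul_mem k1 k2) k3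
  refine ⟨(∏ i ∈ range s, f (n + (2 * i + 2))) * (∏ i ∈ range s, f (2 * i + 2))⁻¹ * (∏ i ∈ range (2 * s), q ^ (i + 1))⁻¹, ?_, ?_⟩
  · have e0 : cR q (al (C a)) (2 * s) * ((1 - q ^ (4 * s + 1)) * (1 - al (C a) * q ^ (4 * s + 1)) * (al (C a) - q ^ (4 * s + 1)))
      = (∏ i ∈ range n, f (2 * i + 1)) * (∏ i ∈ range (2 * s), f (i + 1))⁻¹ * (∏ i ∈ range (2 * s), q ^ (i + 1))⁻¹ := by
      have e1 : ∏ i ∈ range n, f (2 * i + 1) = (∏ i ∈ range (2 * s), f (2 * i + 1)) *
          ((1 - q ^ (4 * s + 1)) * (1 - al (C a) * q ^ (4 * s + 1)) * (al (C a) - q ^ (4 * s + 1))) := by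
        rw [hn, prod_range_succ]
        simp only [hf]
        rw [show 2 * (2 * s) + 1 = 4 * s + 1 by ring]
      rw [e1, cR, prod_div_distrib, div_eq_mul_inv]
      have e2 : ∏ i ∈ range (2 * s), (q ^ (i + 1) * (1 - q ^ (i + 1)) * (1 - al (C a) * q ^ (i + 1)) * (al (C a) - q ^ (i + 1))) =
          (∏ i ∈ range (2 * s), q ^ (i + 1)) * ∏ i ∈ range (2 * s), f (i + 1) := by
        rw [← prod_mul_distrib]
        apply prod_congr rfl
        intro i _
        simp only [hf]; ring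
      rw [e2, mul_inv]
      ring
    have e3 : ∏ i ∈ range n, f (2 * i + 1) = (∏ i ∈ range s, f (2 * i + 1)) * (f n * ∏ i ∈ range s, f (n + (2 * i + 2))) := by
      rw [← prod_range_mul_prod_Ico _ (show s ≤ n by omega)]
      congr 1
      rw [prod_Ico_eq_prod_range, show n - s = s + 1 by omega, prod_range_succ', mul_comm]
      congr 1
      · congr 1; omega
      · apply prod_congr rfl
        intro i _
        congr 1; omega
    have e4 : ∏ i ∈ range (2 * s), f (i + 1) = (∏ i ∈ range s, f (2 * i + 1)) * ∏ i ∈ range s, f (2 * i + 2) := by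
      rw [prod_two, prod_mul_distrib]
    have hne : ∏ i ∈ range s, f (2 * i + 1) ≠ 0 := by
      apply prod_ne_zero_iff.2
      intro i hi
      have hi' := mem_range.1 hi
      exact (fU _ (fun h => by have := Nat.le_of_dvd (by omega) h; omega)).2.2
    rw [gR, show 2 * s - 1 + 1 = 2 * s by omega, show 2 * (2 * s - 1) + 3 = 4 * s + 1 by omega, show 2 * s - 1 + 2 = n by omega]
    have e5 : (∏ i ∈ range n, f (2 * i + 1)) * (∏ i ∈ range (2 * s), f (i + 1))⁻¹ = f n * ((∏ i ∈ range s, f (n + (2 * i + 2))) * (∏ i ∈ range s, f (2 * i + 2))⁻¹) := by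
      rw [e3, e4, mul_inv]
      generalize ∏ i ∈ range s, f (2 * i + 1) = x1 at *
      field_simp
    rw [e5] at e0
    have e6 : f n = (1 - q ^ n) * ((1 - al (C a) * q ^ n) * (al (C a) - q ^ n)) := by simp only [hf]; ring
    rw [e6] at e0
    linear_combination (al (C b) / ((1 - q) * al (C a))) * (SS q (al (C b)) (2 * s - 1) / EE q (al (C b)) n) * e0
  · have u1 : Un (cyclotomic n ℚ) (∏ i ∈ range s, f (2 * i + 2)) := Un.prod (fun i hi => by
      have hi' := mem_range.1 hi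
      exact fU _ (fun h => by have := Nat.le_of_dvd (by omega) h; omega))
    have h1 : Eqm (cyclotomic n ℚ) 1 (∏ i ∈ range s, f (n + (2 * i + 2))) (∏ i ∈ range s, f (2 * i + 2)) :=
      Eqm.prod (fun i _ => hfs _) (fun i hi => by
        have hi' := mem_range.1 hi
        exact (fU _ (fun h => by have := Nat.le_of_dvd (by omega) h; omega)).1)
    have h2 := h1.mul_left u1.2.1
    rw [inv_mul_cancel₀ u1.2.2, mul_comm] at h2
    have h3 : Eqm (cyclotomic n ℚ) 1 (∏ i ∈ range (2 * s), q ^ (i + 1)) 1 := by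
      rw [prod_q]
      have e2 : ∑ i ∈ range (2 * s), (i + 1) = n * s := by
        have e3 := sum_range_id_mul_two (2 * s + 1)
        have e4 : ∑ i ∈ range (2 * s + 1), i = ∑ i ∈ range (2 * s), (i + 1) := by
          rw [sum_range_succ']; simp
        rw [e4] at e3
        have e5 : (2 * s + 1) * (2 * s + 1 - 1) = n * s * 2 := by
          rw [hn, show 2 * s + 1 - 1 = 2 * s by omega]; ring
        omega
      rw [e2]
      exact q_mult n s
    have u2 : Un (cyclotomic n ℚ) (∏ i ∈ range (2 * s), q ^ (i + 1)) := Un.prod (fun i _ => (Un_q hn1).pow _)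
    have h4 := Eqm.inv_of h3 u2.2.1 (by rw [inv_one]; exact (Loc _).one_mem) u2.2.2 one_ne_zero
    rw [inv_one] at h4
    have h5 := h2.mul h4 (Loc _).one_mem (Loc _).one_mem
    rwa [mul_one] at h5

/-- the boundary is divisible by `Φ_n ^ 2` -/
lemma bd_two (hn : n = 2 * s + 1) (hs : 0 < s) (ha : 1 < a) (hb : 1 < b) :
    QO (cyclotomic n ℚ) 2 (gL q (al (C a)) (al (C b)) s - gR q (al (C a)) (al (C b)) (2 * s - 1)) := by
  have hn0 : 0 < n := by omega
  have h1q : Un (cyclotomic n ℚ) (1 - q) := by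
    have := Un_e (d := n) (b := 1) (fun h => by have := Nat.le_of_dvd one_pos h; omega)
    rwa [pow_one] at this
  obtain ⟨y, hy, hy1⟩ := right_alpha (b := b) hn hs ha
  rw [gL_eq hn, hy, ← mul_sub]
  refine (QO_one_sub (dvd_refl n)).mul (k := 1) (l := 1) ?_
  have h1 := LL_eqm hn hs ha hb
  suffices h2 : Eqm (cyclotomic n ℚ) 1 ((al (C b) / ((1 - q) * al (C a))) * ((1 - al (C a) * q ^ n) * (al (C a) - q ^ n)) * y *
      (SS q (al (C b)) (2 * s - 1) / EE q (al (C b)) n)) (TT (al (C a)) (al (C b))) from h1.trans h2.symm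
  have uE : Un (cyclotomic n ℚ) (EE q (al (C b)) n) := Un.prod (fun i _ => Un_lin hn0 hb _)
  have u0 := Un_one_sub_const (P := cyclotomic n ℚ) hb
  have u2 := Un_lin (a := b) hn0 hb 1
  rw [pow_one] at u2
  have u3 := u0.mul u2
  have h3 := right_SS hn hs hb
  have h4 := h3.mul_left ((Loc _).mul_mem uE.2.1 u3.2.1)
  have e1 : (EE q (al (C b)) n)⁻¹ * ((1 - al (C b)) * (1 - al (C b) * q))⁻¹ * (SS q (al (C b)) (2 * s - 1) * ((1 - al (C b)) * (1 - al (C b) * q)))
      = SS q (al (C b)) (2 * s - 1) / EE q (al (C b)) n := by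
    have := u3.2.2
    have := uE.2.2
    generalize (1 - al (C b)) * (1 - al (C b) * q) = x at *
    generalize EE q (al (C b)) n = z at *
    field_simp
  have e2 : (EE q (al (C b)) n)⁻¹ * ((1 - al (C b)) * (1 - al (C b) * q))⁻¹ * (-q * EE q (al (C b)) n) = -q * ((1 - al (C b)) * (1 - al (C b) * q))⁻¹ := by
    have := uE.2.2
    generalize EE q (al (C b)) n = z at *
    field_simp
  rw [e1, e2] at h4
  have hk : al (C b) / ((1 - q) * al (C a)) ∈ Loc (cyclotomic n ℚ) := div_mem' (al_mem _ _) (h1q.mul (Un_const (by linarith)))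
  have m0 : (1 - al (C a)) * (al (C a) - 1) ∈ Loc (cyclotomic n ℚ) :=
    (Loc _).mul_mem ((Loc _).sub_mem (Loc _).one_mem (al_mem _ _)) ((Loc _).sub_mem (al_mem _ _) (Loc _).one_mem)
  have m1 : -q * ((1 - al (C b)) * (1 - al (C b) * q))⁻¹ ∈ Loc (cyclotomic n ℚ) := (Loc _).mul_mem ((Loc _).neg_mem (q_mem _)) u3.2.1
  have h5 := (((mid_eqm n (a := a)).mul hy1 m0 (Loc _).one_mem).mul h4 ((Loc _).mul_mem m0 (Loc _).one_mem) m1).mul_left hk
  convert h5 using 1
  · ring
  · rw [TT]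
    rw [div_eq_mul_inv, div_eq_mul_inv, div_eq_mul_inv, mul_inv, mul_inv, mul_inv, mul_inv]
    ring

end

end Pool.Agent.X14.PA
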