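import Pool.Agent.X14.PA1
import Pool.Agent.X14.PA5

set_option autoImplicit false

/-! Divisibility of the numerator. -/

namespace Pool.Agent.X14.PA

open Finset Polynomial Pool.Agent.X14.QL Pool.Agent.X14.QBlock Pool.Agent.X14.QR

noncomputable section

variable {n s : ℕ}

/-- the difference of the two sums -/
def Dl (s n : ℕ) (α β : RatFunc ℚ) : RatFunc ℚ := (∑ j ∈ range (s + 1), tL q α β j) - ∑ j ∈ range n, tR q α β j

lemma hq1 : ∀ k : ℕ, (1 : RatFunc ℚ) - q ^ (k + 1) ≠ 0 := fun k => one_sub_ne (by omega)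

lemma Dl_rec (hn : n = 2 * s + 1) (hs : 0 < s) {α β : RatFunc ℚ} (hα : α ≠ 0) (hβ : 1 - β ≠ 0)
    (hE : ∀ i : ℕ, 1 - β * q ^ (2 * i + 2) ≠ 0)
    (h1 : ∀ k < n - 1, 1 - α * q ^ (k + 1) ≠ 0) (h2 : ∀ k < n - 1, α - q ^ (k + 1) ≠ 0) :
    Dl s n α β - rb q α β * Dl s n α (q ^ 2 * β) = gL q α β s - gR q α β (2 * s - 1) := by
  have e1 := recL q_ne hq1 hα hβ hE s (fun k hk => h1 k (by omega)) (fun k hk => h2 k (by omega))
  have e2 := recR q_ne hq1 hα hβ hE (2 * s - 1) (fun k hk => h1 k (by omega)) (fun k hk => h2 k (by omega))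
  rw [show 2 * s - 1 + 2 = n by omega] at e2
  rw [Dl, Dl, ← e1, ← e2]
  ring

lemma Dl_q (hn : n = 2 * s + 1) (α : RatFunc ℚ) : Dl s n α q = 0 := by
  have h1 : ∀ j, tL q α q (j + 1) = 0 := by
    intro j
    have : QQ q q (j + 1) = 0 := prod_eq_zero (mem_range.2 (Nat.succ_pos j)) (by simp)
    rw [tL, this, zero_div, mul_zero]
  have h2 : ∀ j, tR q α q (j + 1) = 0 := by
    intro j
    have : SS q q (j + 1) = 0 := prod_eq_zero (mem_range.2 (Nat.succ_pos j)) (by simp)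
    rw [tR, this, zero_div, mul_zero]
  have h3 : tL q α q 0 = 1 := by
    have : (1 : RatFunc ℚ) - q ≠ 0 := by simpa using hq1 0
    simp [tL, cL, QQ, EE, div_self this]
  have h4 : tR q α q 0 = 1 := by
    have : (1 : RatFunc ℚ) - q ≠ 0 := by simpa using hq1 0
    simp [tR, cR, SS, EE, div_self this]
  rw [Dl, hn, sum_range_succ', sum_range_succ', sum_eq_zero (fun j _ => h1 j), sum_eq_zero (fun j _ => h2 j), h3, h4]
  ring

/-- the chain `b = q, q^3, q^5, ...` -/
lemma Dl_chain (hn : n = 2 * s + 1) (hs : 0 < s) {α : RatFunc ℚ} (hα : α ≠ 0)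
    (h1 : ∀ k < n - 1, 1 - α * q ^ (k + 1) ≠ 0) (h2 : ∀ k < n - 1, α - q ^ (k + 1) ≠ 0)
    (hr1 : ∀ m : ℕ, 1 - α * q ^ (2 * m + 2) ≠ 0) (hr2 : ∀ m : ℕ, α - q ^ (2 * m + 2) ≠ 0) (M : ℕ)
    (hB : ∀ m < M, gL q α (q ^ (2 * m + 1)) s - gR q α (q ^ (2 * m + 1)) (2 * s - 1) = 0) :
    ∀ m ≤ M, Dl s n α (q ^ (2 * m + 1)) = 0 := by
  intro m
  induction m with
  | zero => intro _; simpa using Dl_q hn α
  | succ m ih =>
    intro hm
    have h3 := ih (by omega)
    have hβ : (1 : RatFunc ℚ) - q ^ (2 * m + 1) ≠ 0 := hq1 _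
    have hE : ∀ i : ℕ, (1 : RatFunc ℚ) - q ^ (2 * m + 1) * q ^ (2 * i + 2) ≠ 0 := by
      intro i
      rw [← pow_add]
      exact one_sub_ne (by omega)
    have h4 := Dl_rec hn hs hα hβ hE h1 h2
    rw [hB m (by omega), h3, zero_sub, neg_eq_zero] at h4
    rcases mul_eq_zero.1 h4 with h5 | h5
    · exfalso
      rw [rb] at h5
      have e1 : 1 - α * q ^ (2 * m + 1) * q = 1 - α * q ^ (2 * m + 2) := by ring
      have e2 : α - q ^ (2 * m + 1) * q = α - q ^ (2 * m + 2) := by ring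
      rw [e1, e2] at h5
      refine div_ne_zero (mul_ne_zero (hr1 m) (hr2 m)) (mul_ne_zero (mul_ne_zero hα hβ) ?_) h5
      have := hE 0
      simpa using this
    · rw [show q ^ (2 * (m + 1) + 1) = q ^ 2 * q ^ (2 * m + 1) by ring]
      exact h5

lemma qpow_ne {i j : ℕ} (h : i ≠ j) : (q : RatFunc ℚ) ^ i ≠ q ^ j := by
  wlog hij : i < j generalizing i j with H
  · exact (H h.symm (by omega)).symm
  intro h'
  obtain ⟨d, rfl⟩ := Nat.exists_eq_add_of_lt hij
  rw [show i + d + 1 = i + (d + 1) by ring, pow_add] at h'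
  have h2 : q ^ i * (1 - q ^ (d + 1)) = 0 := by linear_combination h'
  rcases mul_eq_zero.1 h2 with h3 | h3
  · exact pow_ne_zero _ q_ne h3
  · exact hq1 d h3

/-- `a = q^{±n}`: the difference vanishes at all `b = q^{2m+1}` -/
lemma Dl_a (hn : n = 2 * s + 1) (hs : 0 < s) {α : RatFunc ℚ} (hα : α = q ^ n ∨ α * q ^ n = 1) (m : ℕ) :
    α ≠ 0 ∧ (∀ k < n - 1, 1 - α * q ^ (k + 1) ≠ 0) ∧ (∀ k < n - 1, α - q ^ (k + 1) ≠ 0) ∧ Dl s n α (q ^ (2 * m + 1)) = 0 := by
  have h0 : (1 - α * q ^ n) * (α - q ^ n) = 0 := by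
    rcases hα with h | h
    · rw [h]; ring
    · rw [h]; ring
  have key : ∀ k : ℕ, k ≠ n → 0 < k → 1 - α * q ^ k ≠ 0 ∧ α - q ^ k ≠ 0 := by
    intro k hk hk0
    rcases hα with h | h
    · rw [h, ← pow_add]
      exact ⟨one_sub_ne (by omega), sub_ne_zero.2 (qpow_ne hk.symm)⟩
    · constructor
      · intro h'
        apply qpow_ne hk
        have : α * q ^ k = 1 := by linear_combination -h'
        have hα0 : α ≠ 0 := by rintro rfl; simp at h
        have e : α * (q ^ k - q ^ n) = 0 := by linear_combination this - h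
        rcases mul_eq_zero.1 e with h3 | h3
        · exact absurd h3 hα0
        · exact sub_eq_zero.1 h3
      · intro h'
        have : α = q ^ k := sub_eq_zero.1 h'
        rw [this, ← pow_add] at h
        exact q_pow_ne_one (by omega) h
  have hα0 : α ≠ 0 := by
    rcases hα with h | h
    · rw [h]; exact pow_ne_zero _ q_ne
    · rintro rfl; simp at h
  have c1 : ∀ k < n - 1, 1 - α * q ^ (k + 1) ≠ 0 := fun k hk => (key (k + 1) (by omega) (by omega)).1
  have c2 : ∀ k < n - 1, α - q ^ (k + 1) ≠ 0 := fun k hk => (key (k + 1) (by omega) (by omega)).2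
  refine ⟨hα0, c1, c2, ?_⟩
  apply Dl_chain hn hs hα0 c1 c2 (fun m => (key (2 * m + 2) (by omega) (by omega)).1) (fun m => (key (2 * m + 2) (by omega) (by omega)).2) m
    _ m le_rfl
  intro i _
  have e1 : gL q α (q ^ (2 * i + 1)) s = 0 := by
    rw [gL, ← hn, mul_assoc (1 - q ^ n), h0]; ring
  have e2 : cR q α (2 * s - 1 + 1) = 0 := by
    rw [cR]
    apply prod_eq_zero (mem_range.2 (show s < 2 * s - 1 + 1 by omega))
    rw [← hn, mul_assoc (1 - q ^ n), h0]; simp
  rw [e1, gR, e2]; ring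

lemma const_key {a : ℚ} (ha : 1 < a) (k : ℕ) : 1 - al (C a) * q ^ k ≠ 0 ∧ al (C a) - q ^ k ≠ 0 :=
  ⟨(Un_lin (d := 1) one_pos ha k).2.2, (Un_lin' (d := 1) one_pos ha k).2.2⟩

lemma const_ne {a : ℚ} (ha : 1 < a) : al (C a) ≠ 0 ∧ 1 - al (C a) ≠ 0 := by
  refine ⟨(Un_const (P := 1) (by linarith)).2.2, (Un_one_sub_const (P := 1) ha).2.2⟩

/-- `b = q^n` -/
lemma Dl_b (hn : n = 2 * s + 1) (hs : 0 < s) {a : ℚ} (ha : 1 < a) : Dl s n (al (C a)) (q ^ n) = 0 := by
  rw [show q ^ n = q ^ (2 * s + 1) by rw [hn]]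
  apply Dl_chain hn hs (const_ne ha).1 (fun k _ => (const_key ha _).1) (fun k _ => (const_key ha _).2) (fun m => (const_key ha _).1)
    (fun m => (const_key ha _).2) s _ s le_rfl
  intro m hm
  have e1 : QQ q (q ^ (2 * m + 1)) s = 0 := prod_eq_zero (mem_range.2 hm) (by simp)
  have e2 : SS q (q ^ (2 * m + 1)) (2 * s - 1) = 0 := prod_eq_zero (mem_range.2 (show 2 * m < 2 * s - 1 by omega)) (by simp)
  rw [gL, gR, e1, e2]; simp

/-! ### from values to divisibility -/

lemma dvd_of_QO {P p : ℚ[X]} {k : ℕ} (h : QO P k (al p)) : P ^ k ∣ p := by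
  have := (QO.num_denom h).1
  rwa [RatFunc.num_algebraMap] at this

lemma ev_eq (a β : ℚ[X]) (N : ℚ[X][X][X]) : al ((N.map (evalRingHom a)).eval β) = ev al (al a) (al β) N := by
  rw [eval_map, ev]
  have h1 : eval₂RingHom al (al a) = al.comp (evalRingHom a) := by
    apply Polynomial.ringHom_ext
    · intro x; simp
    · simp
  rw [h1, coe_eval₂RingHom, hom_eval₂]

lemma ev_DD (𝒟 : Dat n) (α β : RatFunc ℚ) : ev al α β (DD s 𝒟) = al 𝒟.V * ((∏ i ∈ range s, ((1 - α * q ^ (2 * i + 2)) * (α - q ^ (2 * i + 2)))) *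
      ∏ i ∈ range (n - 1), ((1 - α * q ^ (i + 1)) * (α - q ^ (i + 1)))) * EE q β (n - 1) := by
  rw [DD, map_mul, map_mul, ev_CC, ev_C, map_mul, map_prod, map_prod, map_prod]
  simp only [ev_xa, ev_yb]
  rw [← q_eq]
  rfl

lemma ev_NN' (hn : n = 2 * s + 1) (𝒟 : Dat n) {α β : RatFunc ℚ}
    (h1 : ∀ k < n - 1, 1 - α * q ^ (k + 1) ≠ 0) (h2 : ∀ k < n - 1, α - q ^ (k + 1) ≠ 0)
    (hE : ∀ i : ℕ, 1 - β * q ^ (2 * i + 2) ≠ 0) :
    ev al α β (NN s 𝒟) = ev al α β (DD s 𝒟) * Dl s n α β := by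
  have := ev_NN al α β hn 𝒟 (by rw [← q_eq]; exact q_ne) (by rw [← q_eq]; exact hq1) (by rw [← q_eq]; exact h1)
    (by rw [← q_eq]; exact h2) (by rw [← q_eq]; exact hE)
  rwa [← q_eq] at this

/-- the two cases of the exponent -/
lemma main_dvd (hn : n = 2 * s + 1) (hs : 0 < s) (𝒟 : Dat n) {d e : ℕ} (hd1 : 1 < d) (hdn : d ∣ n)
    (hb : ∀ a b : ℚ, 1 < a → 1 < b → QO (cyclotomic d ℚ) e (gL q (al (C a)) (al (C b)) s - gR q (al (C a)) (al (C b)) (2 * s - 1))) :
    C (C (cyclotomic d ℚ ^ e)) ∣ NN s 𝒟 := by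
  have hd0 : 0 < d := by omega
  have hprime : Prime (cyclotomic d ℚ) := (cyclotomic.irreducible_rat hd0).prime
  have hinf : {x : ℚ | 1 < x}.Infinite := Set.Ioi_infinite 1
  have step : ∀ a : ℚ, 1 < a → C (cyclotomic d ℚ ^ e) ∣ (NN s 𝒟).map (evalRingHom (C a)) := by
    intro a ha
    set N := (NN s 𝒟).map (evalRingHom (C a)) with hN
    have hne : ∀ p : ℚ[X], IsCoprime p (cyclotomic d ℚ) → ¬ cyclotomic d ℚ ∣ p := by
      intro p hp h
      exact hprime.not_unit (hp.isUnit_of_dvd' h dvd_rfl)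
    apply core (α := C a) (α' := C a⁻¹) (q := X) hprime (n := n) (by omega) _ _ _ (X ^ (2 * n)) e N
    · apply dvd_of_values hinf
      intro b hb'
      have hb' : 1 < b := hb'
      rw [show (algebraMap ℚ ℚ[X]) b = C b from rfl]
      apply dvd_of_QO
      have hb0 := const_ne hb'
      have ha0 := const_ne ha
      have hE : ∀ i : ℕ, 1 - al (C b) * q ^ (2 * i + 2) ≠ 0 := fun i => (const_key hb' _).1
      have hE2 : ∀ i : ℕ, 1 - q ^ 2 * al (C b) * q ^ (2 * i + 2) ≠ 0 := by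
        intro i
        have := (const_key hb' (2 * i + 4)).1
        rwa [show q ^ 2 * al (C b) * q ^ (2 * i + 2) = al (C b) * q ^ (2 * i + 4) by ring]
      have k1 : ∀ k < n - 1, 1 - al (C a) * q ^ (k + 1) ≠ 0 := fun k _ => (const_key ha _).1
      have k2 : ∀ k < n - 1, al (C a) - q ^ (k + 1) ≠ 0 := fun k _ => (const_key ha _).2
      have v1 : al (N.eval (C b)) = ev al (al (C a)) (al (C b)) (NN s 𝒟) := ev_eq _ _ _
      have v2 : al ((N.comp (C (X ^ 2) * X)).eval (C b)) = ev al (al (C a)) (q ^ 2 * al (C b)) (NN s 𝒟) := by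
        rw [eval_comp, eval_mul, eval_C, eval_X, ev_eq, map_mul al, map_pow, ← q_eq]
      rw [ev_NN' hn 𝒟 k1 k2 hE, ev_DD] at v1
      rw [ev_NN' hn 𝒟 k1 k2 hE2, ev_DD] at v2
      have hrec := Dl_rec hn hs ha0.1 hb0.2 hE k1 k2
      set κ := al 𝒟.V * ((∏ i ∈ range s, ((1 - al (C a) * q ^ (2 * i + 2)) * (al (C a) - q ^ (2 * i + 2)))) *
        ∏ i ∈ range (n - 1), ((1 - al (C a) * q ^ (i + 1)) * (al (C a) - q ^ (i + 1)))) with hκ
      have hκm : κ ∈ Loc (cyclotomic d ℚ) := by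
        refine (Loc _).mul_mem (al_mem _ _) ((Loc _).mul_mem ?_ ?_)
        · exact (Loc _).prod_mem (fun i _ => ((Un_lin hd0 ha _).mul (Un_lin' hd0 ha _)).1)
        · exact (Loc _).prod_mem (fun i _ => ((Un_lin hd0 ha _).mul (Un_lin' hd0 ha _)).1)
      have hEs := EE_shift (q := (q : RatFunc ℚ)) (β := al (C b)) (n - 1)
      have hEn : EE q (al (C b)) (n - 1 + 1) = EE q (al (C b)) (n - 1) * (1 - al (C b) * q ^ (2 * n)) := by
        rw [EE, prod_range_succ, ← EE]
        congr 3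
        congr 1
        omega
      rw [hEn] at hEs
      have hval : al (((1 - X) * (1 - C (X ^ (2 * n)) * X) * N - (1 - C (C a * X) * X) * (1 - C (C a⁻¹ * X) * X) * N.comp (C (X ^ 2) * X)).eval (C b)) =
          κ * EE q (al (C b)) (n - 1) * ((1 - al (C b)) * (1 - al (C b) * q ^ (2 * n))) *
            (gL q (al (C a)) (al (C b)) s - gR q (al (C a)) (al (C b)) (2 * s - 1)) := by
        rw [← hrec]
        have hev1 : eval (C b) (1 : ℚ[X][X]) = 1 := eval_one
        simp only [eval_sub, eval_mul, hev1, eval_X, eval_C]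
        rw [map_sub al, map_mul al, map_mul al, map_mul al, map_mul al, v1, v2]
        simp only [map_sub, map_mul, map_one, map_pow]
        rw [← q_eq]
        have hi : al (C a⁻¹) = (al (C a))⁻¹ := by
          apply eq_inv_of_mul_eq_one_left
          rw [← map_mul, ← C_mul, inv_mul_cancel₀ (by linarith), C_1, map_one]
        rw [hi, rb]
        have hb2 : 1 - al (C b) * q ^ 2 ≠ 0 := by simpa using hE 0
        have hEs' : EE q (q ^ 2 * al (C b)) (n - 1) = EE q (al (C b)) (n - 1) * (1 - al (C b) * q ^ (2 * n)) / (1 - al (C b) * q ^ 2) := by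
          rw [eq_div_iff hb2, hEs]
        rw [hEs']
        have := hb0.2
        have := ha0.1
        generalize EE q (al (C b)) (n - 1) = x1 at *
        generalize Dl s n (al (C a)) (al (C b)) = x2 at *
        generalize Dl s n (al (C a)) (q ^ 2 * al (C b)) = x3 at *
        generalize κ = x4 at *
        generalize al (C b) = x5 at *
        generalize al (C a) = x6 at *
        generalize q ^ (2 * n) = x7 at *
        generalize (1 - x5 * q ^ 2) = x8 at *
        have f1 : 1 - x6⁻¹ * q * x5 = (x6 - x5 * q) * x6⁻¹ := by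
          rw [sub_mul, mul_inv_cancel₀ ha0.1]; ring
        have f2 : (1 - x5) * ((1 - x6 * x5 * q) * (x6 - x5 * q) / (x6 * (1 - x5) * x8)) = (1 - x6 * x5 * q) * (x6 - x5 * q) * x6⁻¹ * x8⁻¹ := by
          generalize 1 - x5 = x9 at *
          generalize (1 - x6 * x5 * q) * (x6 - x5 * q) = x10 at *
          rw [div_eq_mul_inv, mul_inv, mul_inv]
          have h9 : x9 * x9⁻¹ = 1 := mul_inv_cancel₀ hb0.2
          linear_combination x10 * x6⁻¹ * x8⁻¹ * h9
        rw [f1, div_eq_mul_inv (x1 * (1 - x5 * x7))]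
        linear_combination (x4 * x1 * (1 - x5 * x7) * x3) * f2
      rw [hval]
      refine QO.mul_left ?_ (hb a b ha hb')
      refine (Loc _).mul_mem ((Loc _).mul_mem hκm ?_) ((Loc _).mul_mem ?_ ?_)
      · exact (Loc _).prod_mem (fun i _ => (Un_lin hd0 hb' _).1)
      · exact (Loc _).sub_mem (Loc _).one_mem (al_mem _ _)
      · exact (Un_lin hd0 hb' _).1
    · have h1 : cyclotomic d ℚ ∣ X ^ d - 1 := cyclotomic.dvd_X_pow_sub_one d ℚ
      obtain ⟨c, hc⟩ := Dvd.dvd.mul_left hdn 2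
      rw [hc, pow_mul]
      have := sub_dvd_pow_sub_pow (X ^ d : ℚ[X]) 1 c
      rw [one_pow] at this
      exact h1.trans this
    · intro i
      apply hne
      apply cop_of_root hd0
      intro ζ hζ h
      rw [map_sub, map_mul, map_pow, map_one, aeval_C, aeval_X] at h
      apply norm_lin ha (ζ := (ζ ^ (2 * i + 1))⁻¹) (by rw [norm_inv, norm_pow, hζ]; simp)
      apply eq_inv_of_mul_eq_one_left
      have : (algebraMap ℚ ℂ) a = ((a : ℚ) : ℂ) := rfl
      rw [this] at h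
      linear_combination -h
    · intro i
      apply hne
      apply cop_of_root hd0
      intro ζ hζ h
      rw [map_sub, map_mul, map_pow, map_one, aeval_C, aeval_X] at h
      apply norm_lin ha (ζ := ζ ^ (2 * i + 1)) (by rw [norm_pow, hζ]; simp)
      have : (algebraMap ℚ ℂ) a⁻¹ = ((a : ℚ) : ℂ)⁻¹ := by
        rw [map_inv₀]; rfl
      rw [this] at h
      have ha' : ((a : ℚ) : ℂ) ≠ 0 := by
        have : a ≠ 0 := by linarith
        exact_mod_cast this
      field_simp at h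
      linear_combination h
  rw [C_dvd_iff_dvd_coeff]
  intro i
  apply dvd_of_values hinf
  intro a ha
  have h1 := step a ha
  rw [C_dvd_iff_dvd_coeff] at h1
  have h2 := h1 i
  rwa [coeff_map] at h2

end

end Pool.Agent.X14.PA
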