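import Pool.Agent.X14.PA6

set_option autoImplicit false

/-! The modulus divides the numerator and is prime to the denominator. -/

namespace Pool.Agent.X14.PA

open Finset Polynomial Pool.Agent.X14.QL Pool.Agent.X14.QBlock Pool.Agent.X14.QR

noncomputable section

instance ufd3 : UniqueFactorizationMonoid ℚ[X][X][X] := inferInstance
instance dec3 : DecompositionMonoid ℚ[X][X][X] := @UniqueFactorizationMonoid.instDecompositionMonoid _ _ ufd3
instance ufd2 : UniqueFactorizationMonoid ℚ[X][X] := inferInstance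
instance dec2 : DecompositionMonoid ℚ[X][X] := @UniqueFactorizationMonoid.instDecompositionMonoid _ _ ufd2

section rp

variable {R : Type*} [CommRing R] [IsDomain R]

lemma rp_C {x : R} (hx : x ≠ 0) {p : R[X]} (i : ℕ) (hp : IsUnit (p.coeff i)) : IsRelPrime (C x) p := by
  intro δ h1 h2
  have h3 : δ.natDegree = 0 := by
    have := natDegree_le_of_dvd h1 (by rwa [Ne, C_eq_zero])
    rw [natDegree_C] at this
    omega
  obtain ⟨y, rfl⟩ : ∃ y, δ = C y := ⟨δ.coeff 0, eq_C_of_natDegree_eq_zero h3⟩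
  rw [C_dvd_iff_dvd_coeff] at h2
  exact (isUnit_of_dvd_unit (h2 i) hp).map C

lemma rp_comb {x : R} (hx : x ≠ 0) {p p' u v : R[X]} (h : u * p + v * p' = C x) (i : ℕ) (hp : IsUnit (p.coeff i)) :
    IsRelPrime p p' := by
  intro δ h1 h2
  have h3 : δ ∣ C x := by rw [← h]; exact dvd_add (Dvd.dvd.mul_left h1 _) (Dvd.dvd.mul_left h2 _)
  exact rp_C hx i hp h3 h1

lemma rp_CC {x y : R} (hx : x ≠ 0) (h : IsRelPrime x y) : IsRelPrime (C x) (C y) := by
  intro δ h1 h2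
  have h3 : δ.natDegree = 0 := by
    have := natDegree_le_of_dvd h1 (by rwa [Ne, C_eq_zero])
    rw [natDegree_C] at this
    omega
  obtain ⟨z, rfl⟩ : ∃ z, δ = C z := ⟨δ.coeff 0, eq_C_of_natDegree_eq_zero h3⟩
  have e1 : z ∣ x := by
    rw [C_dvd_iff_dvd_coeff] at h1
    simpa using h1 0
  have e2 : z ∣ y := by
    rw [C_dvd_iff_dvd_coeff] at h2
    simpa using h2 0
  exact (h e1 e2).map C

end rp

lemma Xp_ne (m : ℕ) : (X ^ m : ℚ[X]) ≠ 0 := pow_ne_zero _ X_ne_zero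

lemma oneX_ne {m : ℕ} (hm : 0 < m) : (1 - X ^ m : ℚ[X]) ≠ 0 := by
  intro h
  have := congrArg (eval 2) h
  have h1 : eval (2 : ℚ) (1 : ℚ[X]) = 1 := eval_one
  simp only [eval_sub, h1, eval_pow, eval_X, eval_zero] at this
  have h2 : (1 : ℚ) < 2 ^ m := one_lt_pow₀ (by norm_num) hm.ne'
  linarith

lemma Xsub_ne {i j : ℕ} (h : i ≠ j) : (X ^ i - X ^ j : ℚ[X]) ≠ 0 := by
  intro h'
  have := congrArg natDegree (sub_eq_zero.1 h')
  rw [natDegree_X_pow, natDegree_X_pow] at this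
  exact h this

/-- the two linear factors in `a` -/
def la (m : ℕ) : ℚ[X][X] := 1 - X * C (X ^ m)
def ma (m : ℕ) : ℚ[X][X] := X - C (X ^ m)

lemma xa_eq (m : ℕ) : xa m = la m * ma m := rfl

lemma la_c0 (m : ℕ) : IsUnit ((la m).coeff 0) := by simp [la]
lemma ma_c1 (m : ℕ) : IsUnit ((ma m).coeff 1) := by
  rw [ma, coeff_sub, coeff_X_one, coeff_C, if_neg one_ne_zero, sub_zero]; exact isUnit_one

lemma rp_la_la {i j : ℕ} (h : i ≠ j) : IsRelPrime (la i) (la j) := by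
  apply rp_comb (Xsub_ne h.symm) (u := C (X ^ j)) (v := -(C (X ^ i) : ℚ[X][X])) _ 0 (la_c0 i)
  simp only [la, C_sub]; ring

lemma rp_ma_ma {i j : ℕ} (h : i ≠ j) : IsRelPrime (ma i) (ma j) := by
  apply rp_comb (Xsub_ne h.symm) (u := 1) (v := -1) _ 1 (ma_c1 i)
  simp only [ma, C_sub]; ring

lemma rp_la_ma {i j : ℕ} (h : 0 < i + j) : IsRelPrime (la i) (ma j) := by
  apply rp_comb (oneX_ne h) (u := 1) (v := C (X ^ i)) _ 0 (la_c0 i)
  simp only [la, ma, C_sub, pow_add, C_mul, C_1]; ring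

variable {n s : ℕ}

lemma yb_c0 (m : ℕ) : IsUnit ((yb m).coeff 0) := by simp [yb]
lemma zb_c1 (m : ℕ) : IsUnit ((zb m).coeff 1) := by
  rw [zb, coeff_sub, coeff_X_one, coeff_C, if_neg one_ne_zero, sub_zero]; exact isUnit_one

lemma rp_yb_zb {i j : ℕ} (h : 0 < i + j) : IsRelPrime (yb i) (zb j) := by
  have h1 : (C (1 - X ^ (i + j) : ℚ[X]) : ℚ[X][X]) ≠ 0 := by rw [Ne, C_eq_zero]; exact oneX_ne h
  apply rp_comb h1 (u := 1) (v := C (C (X ^ i))) _ 0 (yb_c0 i)
  simp only [yb, zb, C_sub, pow_add, C_mul, C_1]; ring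

/-- the modulus -/
def MM (n : ℕ) : ℚ[X][X][X] := C (C (br n * cyclotomic n ℚ)) * C (la n * ma n) * zb n

lemma br_ne (hn : 0 < n) : br n ≠ 0 := by
  intro h
  have := congrArg (eval 1) h
  simp [br, eval_finset_sum] at this
  omega

lemma brc_ne (hn : 0 < n) : br n * cyclotomic n ℚ ≠ 0 := mul_ne_zero (br_ne hn) (cyclotomic_ne_zero n ℚ)

lemma brc_dvd (hn : 1 < n) {x : ℚ[X]} (h1 : ∀ d, d ∣ n → 1 < d → cyclotomic d ℚ ∣ x) (h2 : cyclotomic n ℚ ^ 2 ∣ x) :
    br n * cyclotomic n ℚ ∣ x := by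
  have e1 : br n * cyclotomic n ℚ = ∏ d ∈ n.divisors.erase 1, cyclotomic d ℚ ^ (if d = n then 2 else 1) := by
    rw [br, ← prod_cyclotomic_eq_geom_sum (by omega) ℚ]
    have hmem : n ∈ n.divisors.erase 1 := by
      rw [mem_erase, Nat.mem_divisors]; exact ⟨by omega, dvd_refl n, by omega⟩
    rw [← mul_prod_erase _ _ hmem, ← mul_prod_erase _ (fun d => cyclotomic d ℚ ^ (if d = n then 2 else 1)) hmem]
    have : ∏ x ∈ (n.divisors.erase 1).erase n, cyclotomic x ℚ = ∏ x ∈ (n.divisors.erase 1).erase n, cyclotomic x ℚ ^ (if x = n then 2 else 1) := by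
      apply prod_congr rfl
      intro d hd
      rw [if_neg (mem_erase.1 hd).1, pow_one]
    rw [this, if_pos rfl]
    ring
  rw [e1]
  apply Finset.prod_dvd_of_coprime
  · intro d _ d' _ hdd
    exact (cyclotomic.isCoprime_rat hdd).pow
  · intro d hd
    rw [mem_erase, Nat.mem_divisors] at hd
    have hd1 : 1 < d := by
      have : 0 < d := Nat.pos_of_dvd_of_pos hd.2.1 (by omega)
      omega
    by_cases h : d = n
    · rw [if_pos h, h]; exact h2
    · rw [if_neg h, pow_one]; exact h1 d hd.2.1 hd1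

/-! ### linear factors -/

lemma lin_b (hn : n = 2 * s + 1) (hs : 0 < s) (𝒟 : Dat n) : zb n ∣ NN s 𝒟 := by
  rw [zb, dvd_iff_isRoot, IsRoot]
  apply eq_zero_of_infinite_isRoot
  have hinf : ((fun a : ℚ => (C a : ℚ[X])) '' {x : ℚ | 1 < x}).Infinite :=
    Set.Infinite.image (fun x _ y _ h => C_injective h) (Set.Ioi_infinite 1)
  refine hinf.mono ?_
  rintro _ ⟨a, ha, rfl⟩
  have ha : 1 < a := ha
  show eval (C a) (eval (C (X ^ n)) (NN s 𝒟)) = 0
  apply RatFunc.algebraMap_injective ℚ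
  rw [map_zero]
  have h1 : eval (C a) (eval (C (X ^ n)) (NN s 𝒟)) = ((NN s 𝒟).map (evalRingHom (C a))).eval (X ^ n) := by
    rw [eval_map]
    have := eval₂_at_apply (p := NN s 𝒟) (evalRingHom (C a)) (C (X ^ n))
    simp only [coe_evalRingHom, eval_C] at this
    exact this.symm
  have h2 := ev_eq (C a) (X ^ n) (NN s 𝒟)
  rw [← h1] at h2
  have hE : ∀ i : ℕ, 1 - (q : RatFunc ℚ) ^ n * q ^ (2 * i + 2) ≠ 0 := by
    intro i
    rw [← pow_add]; exact one_sub_ne (by omega)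
  have h3 : al (X ^ n) = q ^ n := by rw [map_pow, ← q_eq]
  rw [h3, ev_NN' hn 𝒟 (fun k _ => (const_key ha _).1) (fun k _ => (const_key ha _).2) hE, Dl_b hn hs ha, mul_zero] at h2
  exact h2

lemma map_a_zero (hn : n = 2 * s + 1) (hs : 0 < s) (𝒟 : Dat n) {α : RatFunc ℚ} (hα : α = q ^ n ∨ α * q ^ n = 1) :
    (NN s 𝒟).map (eval₂RingHom al α) = 0 := by
  apply eq_zero_of_infinite_isRoot
  have hinf : (Set.range (fun m : ℕ => (q : RatFunc ℚ) ^ (2 * m + 1))).Infinite := by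
    apply Set.infinite_range_of_injective
    intro x y h
    by_contra hxy
    exact qpow_ne (show 2 * x + 1 ≠ 2 * y + 1 by omega) h
  refine hinf.mono ?_
  rintro _ ⟨m, rfl⟩
  show eval (q ^ (2 * m + 1)) ((NN s 𝒟).map (eval₂RingHom al α)) = 0
  rw [eval_map]
  obtain ⟨_, h1, h2, h3⟩ := Dl_a hn hs hα m
  have hE : ∀ i : ℕ, 1 - (q : RatFunc ℚ) ^ (2 * m + 1) * q ^ (2 * i + 2) ≠ 0 := by
    intro i
    rw [← pow_add]; exact one_sub_ne (by omega)
  have h4 := ev_NN' hn 𝒟 h1 h2 hE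
  rw [h3, mul_zero] at h4
  exact h4

lemma coeff_a_zero (hn : n = 2 * s + 1) (hs : 0 < s) (𝒟 : Dat n) {α : RatFunc ℚ} (hα : α = q ^ n ∨ α * q ^ n = 1) (i : ℕ) :
    eval₂ al α ((NN s 𝒟).coeff i) = 0 := by
  have h := congrArg (fun p => coeff p i) (map_a_zero hn hs 𝒟 hα)
  simpa only [coeff_map, coeff_zero, coe_eval₂RingHom] using h

lemma dvd_ma (hn : n = 2 * s + 1) (hs : 0 < s) (𝒟 : Dat n) (i : ℕ) : ma n ∣ (NN s 𝒟).coeff i := by
  rw [ma, dvd_iff_isRoot, IsRoot]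
  apply RatFunc.algebraMap_injective ℚ
  rw [map_zero]
  have h1 := coeff_a_zero hn hs 𝒟 (Or.inl rfl) i
  have h2 := eval₂_at_apply (p := (NN s 𝒟).coeff i) al (X ^ n)
  rw [map_pow al, ← q_eq, h1] at h2
  exact h2.symm

lemma dvd_la_of {m : ℕ} {p : ℚ[X][X]} {α : RatFunc ℚ} (hα : α * q ^ m = 1) (h : eval₂ al α p = 0) : la m ∣ p := by
  set c : ℚ[X] := X ^ m with hc
  set N := p.natDegree with hN
  have hal : al c = q ^ m := by rw [hc, map_pow, ← q_eq]
  have h1 : (∑ i ∈ range (N + 1), p.coeff i * c ^ (N - i)) = 0 := by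
    apply RatFunc.algebraMap_injective ℚ
    rw [map_zero, map_sum]
    have e : ∀ i ∈ range (N + 1), algebraMap ℚ[X] (RatFunc ℚ) (p.coeff i * c ^ (N - i)) = (q ^ m) ^ N * (al (p.coeff i) * α ^ i) := by
      intro i hi
      have hi' := mem_range.1 hi
      rw [map_mul, map_pow]
      have : algebraMap ℚ[X] (RatFunc ℚ) c = q ^ m := hal
      rw [this]
      have e2 : (q ^ m) ^ N = (q ^ m) ^ (N - i) * (q ^ m) ^ i := by rw [← pow_add]; congr 1; omega
      have e3 : α ^ i * (q ^ m) ^ i = 1 := by rw [← mul_pow, hα, one_pow]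
      rw [e2]
      linear_combination -(al (p.coeff i) * (q ^ m) ^ (N - i)) * e3
    rw [sum_congr rfl e, ← mul_sum, ← eval₂_eq_sum_range, h, mul_zero]
  have h2 : la m ∣ C (c ^ N) * p := by
    have e : C (c ^ N) * p = ∑ i ∈ range (N + 1), C (p.coeff i * c ^ (N - i)) * ((C c * X) ^ i - 1) + C (∑ i ∈ range (N + 1), p.coeff i * c ^ (N - i)) := by
      rw [map_sum, ← sum_add_distrib]
      conv_lhs => rw [p.as_sum_range_C_mul_X_pow]
      rw [mul_sum]
      apply sum_congr rfl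
      intro i hi
      have hi' := mem_range.1 hi
      have e2 : c ^ N = c ^ (N - i) * c ^ i := by rw [← pow_add]; congr 1; omega
      rw [e2]
      simp only [C_mul, C_pow, mul_pow]
      ring
    rw [e, h1, map_zero, add_zero]
    apply dvd_sum
    intro i _
    apply Dvd.dvd.mul_left
    have := sub_dvd_pow_sub_pow (C c * X : ℚ[X][X]) 1 i
    rw [one_pow] at this
    refine dvd_trans ?_ this
    exact ⟨-1, by rw [la]; ring⟩
  have h3 : IsCoprime (la m) (C (c ^ N)) := by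
    rw [C_pow]
    apply IsCoprime.pow_right
    exact ⟨1, X, by rw [la]; ring⟩
  exact h3.dvd_of_dvd_mul_left h2

lemma dvd_la (hn : n = 2 * s + 1) (hs : 0 < s) (𝒟 : Dat n) (i : ℕ) : la n ∣ (NN s 𝒟).coeff i := by
  have h0 : (q ^ n : RatFunc ℚ)⁻¹ * q ^ n = 1 := inv_mul_cancel₀ (pow_ne_zero _ q_ne)
  exact dvd_la_of h0 (coeff_a_zero hn hs 𝒟 (Or.inr h0) i)

theorem MM_dvd (hn : n = 2 * s + 1) (hs : 0 < s) (𝒟 : Dat n) : MM n ∣ NN s 𝒟 := by
  have hn1 : 1 < n := by omega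
  have h1 : ∀ d, d ∣ n → 1 < d → C (C (cyclotomic d ℚ)) ∣ NN s 𝒟 := by
    intro d hd hd1
    have := main_dvd hn hs 𝒟 (e := 1) hd1 hd (fun a b ha hb => bd_one hn (by omega) hd hd1 ha hb)
    rwa [pow_one] at this
  have h2 : C (C (cyclotomic n ℚ ^ 2)) ∣ NN s 𝒟 :=
    main_dvd hn hs 𝒟 (e := 2) hn1 (dvd_refl n) (fun a b ha hb => bd_two hn hs ha hb)
  have h3 : C (C (br n * cyclotomic n ℚ)) ∣ NN s 𝒟 := by
    rw [C_dvd_iff_dvd_coeff]
    intro i
    rw [C_dvd_iff_dvd_coeff]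
    intro j
    apply brc_dvd hn1
    · intro d hd hd1
      have := h1 d hd hd1
      rw [C_dvd_iff_dvd_coeff] at this
      have := this i
      rw [C_dvd_iff_dvd_coeff] at this
      exact this j
    · have := h2
      rw [C_dvd_iff_dvd_coeff] at this
      have := this i
      rw [C_dvd_iff_dvd_coeff] at this
      exact this j
  have h4 : C (la n * ma n) ∣ NN s 𝒟 := by
    rw [C_dvd_iff_dvd_coeff]
    intro i
    exact (rp_la_ma (by omega)).mul_dvd (dvd_la hn hs 𝒟 i) (dvd_ma hn hs 𝒟 i)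
  have h5 := lin_b hn hs 𝒟
  have r1 : IsRelPrime (C (C (br n * cyclotomic n ℚ))) (C (la n * ma n)) := by
    have r2 : IsRelPrime (C (br n * cyclotomic n ℚ)) (la n * ma n) :=
      (rp_C (brc_ne (by omega)) 0 (la_c0 n)).mul_right (rp_C (brc_ne (by omega)) 1 (ma_c1 n))
    exact rp_CC (by rw [Ne, C_eq_zero]; exact brc_ne (by omega)) r2
  have hla : la n ≠ 0 := fun h => by have := la_c0 n; rw [h] at this; simp at this
  have hma : ma n ≠ 0 := fun h => by have := ma_c1 n; rw [h] at this; simp at this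
  have r3 : IsRelPrime (C (C (br n * cyclotomic n ℚ)) * C (la n * ma n)) (zb n) := by
    refine IsRelPrime.mul_left (α := ℚ[X][X][X]) ?_ ?_
    · exact rp_C (by rw [Ne, C_eq_zero]; exact brc_ne (by omega)) 1 (zb_c1 n)
    · exact rp_C (mul_ne_zero hla hma) 1 (zb_c1 n)
  exact IsRelPrime.mul_dvd (α := ℚ[X][X][X]) r3 (IsRelPrime.mul_dvd (α := ℚ[X][X][X]) r1 h3 h4) h5

/-- the denominator is prime to the modulus -/
theorem DD_rp (hn : n = 2 * s + 1) (𝒟 : Dat n) (hV0 : 𝒟.V ≠ 0) (hV : IsCoprime 𝒟.V (br n * cyclotomic n ℚ)) :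
    IsRelPrime (DD s 𝒟) (MM n) := by
  have hn0 : 0 < n := by omega
  have hla : ∀ m, la m ≠ 0 := fun m h => by have := la_c0 m; rw [h] at this; simp at this
  have hma : ∀ m, ma m ≠ 0 := fun m h => by have := ma_c1 m; rw [h] at this; simp at this
  have hbr := brc_ne hn0
  have hCbr : (C (br n * cyclotomic n ℚ) : ℚ[X][X]) ≠ 0 := by rw [Ne, C_eq_zero]; exact hbr
  have hCV : (C 𝒟.V : ℚ[X][X]) ≠ 0 := by rw [Ne, C_eq_zero]; exact hV0
  -- the products of linear factors in `a`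
  have hxa : ∀ m, 0 < m → m < n → IsRelPrime (xa m) (C (br n * cyclotomic n ℚ)) ∧ IsRelPrime (xa m) (la n) ∧ IsRelPrime (xa m) (ma n) := by
    intro m h0 h1
    rw [xa_eq]
    refine ⟨?_, ?_, ?_⟩
    · exact ((rp_C hbr 0 (la_c0 m)).symm).mul_left ((rp_C hbr 1 (ma_c1 m)).symm)
    · exact (rp_la_la (by omega)).mul_left (rp_la_ma (by omega)).symm
    · exact (rp_la_ma (by omega)).mul_left (rp_ma_ma (by omega))
  set A := (∏ i ∈ range s, xa (2 * i + 2)) * ∏ i ∈ range (n - 1), xa (i + 1) with hA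
  have hA0 : A ≠ 0 := by
    refine mul_ne_zero (prod_ne_zero_iff.2 (fun i _ => ?_)) (prod_ne_zero_iff.2 (fun i _ => ?_))
    · rw [xa_eq]; exact mul_ne_zero (hla _) (hma _)
    · rw [xa_eq]; exact mul_ne_zero (hla _) (hma _)
  have hAr : IsRelPrime A (C (br n * cyclotomic n ℚ)) ∧ IsRelPrime A (la n) ∧ IsRelPrime A (ma n) := by
    refine ⟨?_, ?_, ?_⟩
    · exact (IsRelPrime.prod_left (fun i hi => (hxa _ (by omega) (by have := mem_range.1 hi; omega)).1)).mul_left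
        (IsRelPrime.prod_left (fun i hi => (hxa _ (by omega) (by have := mem_range.1 hi; omega)).1))
    · exact (IsRelPrime.prod_left (fun i hi => (hxa _ (by omega) (by have := mem_range.1 hi; omega)).2.1)).mul_left
        (IsRelPrime.prod_left (fun i hi => (hxa _ (by omega) (by have := mem_range.1 hi; omega)).2.1))
    · exact (IsRelPrime.prod_left (fun i hi => (hxa _ (by omega) (by have := mem_range.1 hi; omega)).2.2)).mul_left
        (IsRelPrime.prod_left (fun i hi => (hxa _ (by omega) (by have := mem_range.1 hi; omega)).2.2))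
  have hlm : la n * ma n ≠ 0 := mul_ne_zero (hla n) (hma n)
  rw [DD, MM, ← hA]
  refine IsRelPrime.mul_left (α := ℚ[X][X][X]) (IsRelPrime.mul_left (α := ℚ[X][X][X]) ?_ ?_) (IsRelPrime.prod_left (α := ℚ[X][X][X]) (fun i _ => ?_))
  · refine IsRelPrime.mul_right (α := ℚ[X][X][X]) (IsRelPrime.mul_right (α := ℚ[X][X][X]) ?_ ?_) ?_
    · exact rp_CC hCV (rp_CC hV0 hV.isRelPrime)
    · apply rp_CC hCV
      exact (rp_C hV0 0 (la_c0 n)).mul_right (rp_C hV0 1 (ma_c1 n))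
    · exact rp_C hCV 1 (zb_c1 n)
  · refine IsRelPrime.mul_right (α := ℚ[X][X][X]) (IsRelPrime.mul_right (α := ℚ[X][X][X]) ?_ ?_) ?_
    · exact rp_CC hA0 hAr.1
    · exact rp_CC hA0 (hAr.2.1.mul_right hAr.2.2)
    · exact rp_C hA0 1 (zb_c1 n)
  · refine IsRelPrime.mul_right (α := ℚ[X][X][X]) (IsRelPrime.mul_right (α := ℚ[X][X][X]) ?_ ?_) ?_
    · exact (rp_C hCbr 0 (yb_c0 _)).symm
    · exact (rp_C hlm 0 (yb_c0 _)).symm
    · exact rp_yb_zb (by omega)

end

end Pool.Agent.X14.PA
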