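import Pool.Agent.X14.PA7

set_option autoImplicit false

/-! Existence of the data, and the generic point. -/

namespace Pool.Agent.X14.PA

open Finset Polynomial Pool.Agent.X14.QL Pool.Agent.X14.QBlock Pool.Agent.X14.QR

noncomputable section

lemma denom_cop {P : ℚ[X]} {x : RatFunc ℚ} (h : x ∈ Loc P) : IsCoprime x.denom P := by
  obtain ⟨a, b, h1, h2⟩ := h
  have h4 := mul_denom x
  have h5 : al (x.num * b) = al (a * x.denom) := by
    rw [map_mul, map_mul, ← h2, ← h4]; ring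
  have h6 : x.num * b = a * x.denom := al_inj h5
  have h8 : x.denom ∣ x.num * b := ⟨a, by rw [h6]; ring⟩
  have h9 : x.denom ∣ b := (RatFunc.isCoprime_num_denom x).symm.dvd_of_dvd_mul_left h8
  exact IsCoprime.of_isCoprime_of_dvd_left h1 h9

lemma odd_dvd {n s d : ℕ} (hn : n = 2 * s + 1) (hd : d ∣ n) : ∃ h, d = 2 * h + 1 := by
  obtain ⟨c, hc⟩ := hd
  have : d % 2 = 1 := by
    rcases Nat.mod_two_eq_zero_or_one d with h0 | h0
    · exfalso
      have : n % 2 = 0 := by rw [hc, Nat.mul_mod, h0]; simp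
      omega
    · exact h0
  exact ⟨d / 2, by omega⟩

theorem exists_dat {n s : ℕ} (hn : n = 2 * s + 1) (hs : 0 < s) : ∃ 𝒟 : Dat n, 𝒟.V ≠ 0 ∧ IsCoprime 𝒟.V (br n * cyclotomic n ℚ) := by
  classical
  set V' : ℚ[X] := ∏ j ∈ range n, (rr 1 j).denom with hV'
  have hu : ∀ j < n, ∃ u : ℚ[X], al u = al V' * rr 1 j := by
    intro j hj
    obtain ⟨t, ht⟩ := dvd_prod_of_mem (fun j => (rr 1 j).denom) (mem_range.2 hj)
    refine ⟨t * (rr 1 j).num, ?_⟩
    have e1 : V' = (rr 1 j).denom * t := ht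
    rw [e1, map_mul, map_mul, ← mul_denom]; ring
  choose! u hu using hu
  have hal1 : ∀ m : ℕ, al (X ^ m) = q ^ m := fun m => by rw [map_pow, ← q_eq]
  have hq : ∀ j : ℕ, al (∏ i ∈ range j, X ^ (i + 1)) = ∏ i ∈ range j, q ^ (i + 1) := by
    intro j; rw [map_prod]; exact prod_congr rfl (fun i _ => hal1 _)
  have hrr : ∀ j : ℕ, rr 1 j * ∏ i ∈ range j, (1 - q ^ (2 * i + 2)) = ∏ i ∈ range j, (1 - q ^ (2 * i + 1)) := by
    intro j
    rw [rr_eq, prod_div_distrib, div_mul_cancel₀ _ (prodE_ne j)]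
  have hodd : ∀ j : ℕ, al (∏ i ∈ range j, (1 - X ^ (2 * i + 1))) = ∏ i ∈ range j, (1 - q ^ (2 * i + 1)) := by
    intro j; rw [map_prod]; exact prod_congr rfl (fun i _ => by rw [map_sub, map_one, hal1])
  refine ⟨⟨V' * ∏ i ∈ range n, X ^ (i + 1), fun j => u j * ∏ i ∈ range n, X ^ (i + 1),
    fun j => u j * (∏ i ∈ range j, (1 + X ^ (i + 1))) * ∏ i ∈ Ico j n, X ^ (i + 1), ?_, ?_⟩, ?_, ?_⟩
  · intro j hj
    apply al_inj
    rw [map_mul, map_mul, map_mul, map_mul, hu j hj, hodd]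
    have e1 : al (∏ i ∈ range j, (1 - X ^ (2 * i + 2))) = ∏ i ∈ range j, (1 - q ^ (2 * i + 2)) := by
      rw [map_prod]; exact prod_congr rfl (fun i _ => by rw [map_sub, map_one, hal1])
    rw [e1]
    linear_combination (al V' * al (∏ i ∈ range n, X ^ (i + 1))) * hrr j
  · intro j hj
    apply al_inj
    have e0 : (∏ i ∈ range n, X ^ (i + 1) : ℚ[X]) = (∏ i ∈ range j, X ^ (i + 1)) * ∏ i ∈ Ico j n, X ^ (i + 1) :=
      (prod_range_mul_prod_Ico _ hj.le).symm
    rw [e0, prod_mul_distrib]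
    simp only [map_mul]
    rw [hu j hj, hodd]
    have e1 : al (∏ i ∈ range j, (1 - X ^ (i + 1))) = ∏ i ∈ range j, (1 - q ^ (i + 1)) := by
      rw [map_prod]; exact prod_congr rfl (fun i _ => by rw [map_sub, map_one, hal1])
    have e2 : al (∏ i ∈ range j, (1 + X ^ (i + 1))) = ∏ i ∈ range j, (1 + q ^ (i + 1)) := by
      rw [map_prod]; exact prod_congr rfl (fun i _ => by rw [map_add, map_one, hal1])
    rw [e1, e2]
    have h1 := one_add_prod j
    have h2 := hrr j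
    rw [← h1] at h2
    linear_combination (al V' * al (∏ i ∈ Ico j n, X ^ (i + 1)) * al (∏ i ∈ range j, X ^ (i + 1))) * h2
  · exact mul_ne_zero (prod_ne_zero_iff.2 (fun j _ => RatFunc.denom_ne_zero _)) (prod_ne_zero_iff.2 (fun i _ => pow_ne_zero _ X_ne_zero))
  · have key : ∀ d, d ∣ n → 1 < d → IsCoprime (V' * ∏ i ∈ range n, X ^ (i + 1)) (cyclotomic d ℚ) := by
      intro d hd hd1
      obtain ⟨h, hh⟩ := odd_dvd hn hd
      refine IsCoprime.mul_left (IsCoprime.prod_left (fun j _ => denom_cop (rr1_mem hh j))) (IsCoprime.prod_left (fun i _ => (cop_X hd1).pow_left))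
    apply IsCoprime.mul_right
    · rw [br, ← prod_cyclotomic_eq_geom_sum (by omega) ℚ]
      apply IsCoprime.prod_right
      intro d hd
      rw [mem_erase, Nat.mem_divisors] at hd
      have : 0 < d := Nat.pos_of_dvd_of_pos hd.2.1 (by omega)
      exact key d hd.2.1 (by omega)
    · exact key n (dvd_refl n) (by omega)

/-! ### the generic point -/

/-- polynomials in three variables -/
abbrev Mv : Type := MvPolynomial (Fin 3) ℚ

/-- the field of rational functions in `q, a, b` -/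
abbrev FF : Type := FractionRing Mv

/-- the isomorphism with iterated polynomials -/
def th : ℚ[X][X][X] →+* Mv :=
  eval₂RingHom (eval₂RingHom (eval₂RingHom MvPolynomial.C (MvPolynomial.X 0)) (MvPolynomial.X 1)) (MvPolynomial.X 2)

def ta : Mv →+* ℚ[X][X][X] :=
  MvPolynomial.eval₂Hom (S₁ := ℚ[X][X][X]) ((C : ℚ[X][X] →+* ℚ[X][X][X]).comp ((C : ℚ[X] →+* ℚ[X][X]).comp (C : ℚ →+* ℚ[X])))
    ![C (C X), C X, X]

lemma ta_th (x : ℚ[X][X][X]) : ta (th x) = x := by
  have h : (ta.comp th) = RingHom.id _ := by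
    apply Polynomial.ringHom_ext'
    · apply Polynomial.ringHom_ext'
      · apply Polynomial.ringHom_ext'
        · exact Subsingleton.elim _ _
        · simp [ta, th]
      · simp [ta, th]
    · simp [ta, th]
  exact congrArg (fun f => f x) h

lemma th_ta (x : Mv) : th (ta x) = x := by
  have h : (th.comp ta) = RingHom.id _ := by
    apply MvPolynomial.ringHom_ext
    · intro r; simp [ta, th]
    · intro i
      fin_cases i <;> simp [ta, th]
  exact congrArg (fun f => f x) h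

lemma th_inj {x y : ℚ[X][X][X]} (h : th x = th y) : x = y := by
  rw [← ta_th x, h, ta_th]

lemma th_rp {x y : ℚ[X][X][X]} (h : IsRelPrime x y) : IsRelPrime (th x) (th y) := by
  intro δ h1 h2
  have e1 := map_dvd ta h1
  have e2 := map_dvd ta h2
  rw [ta_th] at e1 e2
  have := (h e1 e2).map th
  rwa [th_ta] at this

/-- the inclusion -/
abbrev io : Mv →+* FF := algebraMap Mv FF

lemma io_inj {x y : Mv} (h : io x = io y) : x = y := IsFractionRing.injective Mv FF h

/-- the inclusion of iterated polynomials -/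
def am : ℚ[X][X][X] →+* FF := io.comp th

lemma am_eq (x : ℚ[X][X][X]) : am x = io (th x) := rfl

lemma am_inj {x y : ℚ[X][X][X]} (h : am x = am y) : x = y := th_inj (io_inj h)

lemma am_ne {x : ℚ[X][X][X]} (h : x ≠ 0) : am x ≠ 0 := fun h' => h (am_inj (by rw [h', map_zero]))

/-- rational functions of `q` -/
def ph : ℚ[X] →+* FF := (am.comp (C : ℚ[X][X] →+* ℚ[X][X][X])).comp (C : ℚ[X] →+* ℚ[X][X])

lemma ph_eq (x : ℚ[X]) : ph x = am (C (C x)) := rfl

lemma ev_gen (N : ℚ[X][X][X]) : ev ph (am (C X)) (am X) N = am N := by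
  have h : ev ph (am (C X)) (am X) = am := by
    apply Polynomial.ringHom_ext'
    · apply Polynomial.ringHom_ext'
      · apply RingHom.ext
        intro x
        simp only [RingHom.comp_apply, ev_CC, ph_eq]
      · simp only [RingHom.comp_apply, ev_C, coe_eval₂RingHom, eval₂_X]
    · simp only [ev, coe_eval₂RingHom, eval₂_X]
  rw [h]

lemma gen_q (m : ℕ) : ph X ^ m = am (C (C (X ^ m))) := by rw [← map_pow, ph_eq]

lemma yb_ne (m : ℕ) : yb m ≠ 0 := fun h => by have := yb_c0 m; rw [h] at this; simp at this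
lemma la_ne (m : ℕ) : la m ≠ 0 := fun h => by have := la_c0 m; rw [h] at this; simp at this
lemma ma_ne (m : ℕ) : ma m ≠ 0 := fun h => by have := ma_c1 m; rw [h] at this; simp at this

lemma am_sub (x y : ℚ[X][X][X]) : am (x - y) = am x - am y := map_sub am x y

lemma gen_e {m : ℕ} (hm : 0 < m) : 1 - ph X ^ m ≠ 0 := by
  have h1 : 1 - ph X ^ m = am (C (C (1 - X ^ m))) := by
    rw [gen_q, C_sub, C_sub, am_sub, C_1, C_1, map_one am]
  rw [h1]
  apply am_ne
  rw [Ne, C_eq_zero, C_eq_zero]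
  exact oneX_ne hm

lemma gen_la (m : ℕ) : 1 - am (C X) * ph X ^ m = am (C (la m)) := by
  rw [gen_q, la, C_sub, C_mul, C_1, am_sub, map_mul am, map_one am]

lemma gen_ma (m : ℕ) : am (C X) - ph X ^ m = am (C (ma m)) := by
  rw [gen_q, ma, C_sub, am_sub]

lemma gen_yb (m : ℕ) : 1 - am X * ph X ^ m = am (yb m) := by
  rw [gen_q, yb, am_sub, map_mul am, map_one am]

lemma prod_ne {R : Type*} [CommRing R] [IsDomain R] {f : ℕ → R} (h : ∀ i, f i ≠ 0) (m : ℕ) : ∏ i ∈ range m, f i ≠ 0 :=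
  prod_ne_zero_iff.2 (fun i _ => h i)

lemma DD_ne {n : ℕ} (s : ℕ) (𝒟 : Dat n) (h : 𝒟.V ≠ 0) : DD s 𝒟 ≠ 0 := by
  rw [DD]
  have h1 : ∏ i ∈ range (n - 1), yb (2 * i + 2) ≠ 0 := prod_ne (f := fun i => yb (2 * i + 2)) (fun i => yb_ne _) _
  refine mul_ne_zero (mul_ne_zero ?_ ?_) h1
  · rw [Ne, C_eq_zero, C_eq_zero]; exact h
  · rw [Ne, C_eq_zero]
    refine mul_ne_zero (prod_ne_zero_iff.2 (fun i _ => ?_)) (prod_ne_zero_iff.2 (fun i _ => ?_))
    · exact mul_ne_zero (la_ne _) (ma_ne _)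
    · exact mul_ne_zero (la_ne _) (ma_ne _)

theorem main_gen {n s : ℕ} (hn : n = 2 * s + 1) : ∃ Cc Dd : Mv, Dd ≠ 0 ∧ IsRelPrime Dd (th (MM n)) ∧
    (∑ j ∈ range (s + 1), tL (ph X) (am (C X)) (am X) j) - ∑ j ∈ range n, tR (ph X) (am (C X)) (am X) j =
      io (th (MM n)) * io Cc / io Dd := by
  rcases Nat.eq_zero_or_pos s with hs | hs
  · subst hs
    subst hn
    refine ⟨0, 1, one_ne_zero, fun δ h1 _ => isUnit_of_dvd_one h1, ?_⟩
    have h1 : (1 : FF) - ph X ≠ 0 := by simpa using gen_e (m := 1) one_pos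
    simp [tL, tR, cL, cR, QQ, SS, EE, div_self h1]
  · obtain ⟨𝒟, h⟩ := exists_dat hn hs
    have hrp := DD_rp hn 𝒟 h.1 h.2
    have h1 := ev_NN (s := s) ph (am (C X)) (am X) hn 𝒟 (by
      rw [ph_eq]
      exact am_ne (x := C (C X)) (by rw [Ne, C_eq_zero, C_eq_zero]; exact X_ne_zero)) (fun k => gen_e (Nat.succ_pos k))
      (fun k _ => by rw [gen_la]; exact am_ne (by rw [Ne, C_eq_zero]; exact la_ne _))
      (fun k _ => by rw [gen_ma]; exact am_ne (by rw [Ne, C_eq_zero]; exact ma_ne _))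
      (fun i => by rw [gen_yb]; exact am_ne (yb_ne _))
    rw [ev_gen, ev_gen] at h1
    obtain ⟨Cc, hC⟩ := MM_dvd hn hs 𝒟
    have hD := DD_ne s 𝒟 h.1
    refine ⟨th Cc, th (DD s 𝒟), fun h' => hD (th_inj (by rw [h', map_zero])), th_rp hrp, ?_⟩
    rw [← am_eq, ← am_eq, ← am_eq, eq_div_iff (am_ne hD), mul_comm, ← h1, hC, map_mul am]

end

end Pool.Agent.X14.PA
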