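import Pool.Agent.X14.QR1

set_option autoImplicit false

/-! Divisibility by `Φ_n^3` of the sums of `d`-th powers, `n ≡ -s (mod d)`. -/

namespace Pool.Agent.X14.QR

open Finset Polynomial Pool.Agent.X14.QL Pool.Agent.X14.QBlock

noncomputable section

/-- the hypotheses -/
structure Hyp (d r K n l : ℕ) (s : ℤ) : Prop where
  hn : 0 < n
  hr : (d : ℤ) * (r + 1) = n + s
  hK : K + r + 1 = n
  hl : 2 * (l : ℤ) = d - 2 - s
  hl0 : 0 < l
  hs : s % 2 = 1
  hd : 3 ≤ d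
  hcop : Nat.Coprime n d

/-- `(q^s; q^d)_k / (q^d; q^d)_k` -/
def tt (d : ℕ) (s : ℤ) (k : ℕ) : RatFunc ℚ := ∏ j ∈ range k, (e (s + d * j) * (e ((d : ℤ) * (j + 1)))⁻¹)

/-- the weight -/
def W (d l : ℕ) (s : ℤ) (k : ℕ) : RatFunc ℚ := e (s + 2 * (d : ℤ) * k) * q ^ ((d : ℤ) * l * k)

/-- the terms of the exactly summable series -/
def BB (d r n k : ℕ) : RatFunc ℚ :=
  ∏ j ∈ range k, (e ((d : ℤ) * (r + 1 + j) - d * n) * e ((d : ℤ) * (r + 1 + j)) ^ (d - 1) * (e ((d : ℤ) * (j + 1)))⁻¹ ^ d)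

/-- the ratios -/
def psi (d r n j : ℕ) : RatFunc ℚ :=
  e ((d : ℤ) * (r + 1 + j) - n) ^ d * (e ((d : ℤ) * (r + 1 + j)))⁻¹ ^ (d - 1) * (e ((d : ℤ) * (r + 1 + j) - d * n))⁻¹

def PP (d r k : ℕ) : RatFunc ℚ := ∏ i ∈ range r, e ((d : ℤ) * (k + i + 1))

def GG (d r k : ℕ) : RatFunc ℚ := ∑ j ∈ range k, hh ((d : ℤ) * (r + 1 + j))

def HS (d k : ℕ) : RatFunc ℚ := ∑ j ∈ range k, hh ((d : ℤ) * (j + 1))

lemma nd {n d : ℕ} (hc : Nat.Coprime n d) {a : ℤ} (h0 : 0 < a) (h1 : a < n) : ¬ (n : ℤ) ∣ (d : ℤ) * a := by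
  intro h
  have h2 : IsCoprime (n : ℤ) (d : ℤ) := Nat.isCoprime_iff_coprime.2 hc
  have h3 := Int.le_of_dvd h0 (h2.dvd_of_dvd_mul_left h)
  omega

lemma ne_of_nd {n : ℕ} {z : ℤ} (h : ¬ (n : ℤ) ∣ z) : e z ≠ 0 := e_ne (fun h' => h (h' ▸ dvd_zero _))

lemma QO.pow {P : ℚ[X]} {x : RatFunc ℚ} (h : QO P 1 x) (d : ℕ) : QO P d (x ^ d) := by
  induction d with
  | zero => simpa using of_mem (Loc P).one_mem
  | succ d ih => rw [pow_succ]; exact ih.mul h

lemma QO_prod {P : ℚ[X]} {ι : Type*} {s : Finset ι} {f : ι → RatFunc ℚ} (hf : ∀ i ∈ s, f i ∈ Loc P) {i : ι} (hi : i ∈ s)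
    (h : QO P 1 (f i)) : QO P 1 (∏ j ∈ s, f j) := by
  classical
  rw [← mul_prod_erase s f hi]
  exact QO.mul_right h ((Loc P).prod_mem (fun j hj => hf j (mem_of_mem_erase hj)))

lemma half_QO {x : RatFunc ℚ} {P : ℚ[X]} {k : ℕ} (h : QO P k (x + x)) : QO P k x := by
  have h1 := QO.mul_left (rat_mem P (1 / 2)) h
  convert h1 using 1
  push_cast
  ring

section
variable {d r K n l : ℕ} {s : ℤ}

lemma tt_pow (H : Hyp d r K n l s) {k : ℕ} (hk : k ≤ K) : tt d s k ^ d = BB d r n k * ∏ j ∈ range k, psi d r n j := by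
  unfold tt BB
  rw [← prod_pow, ← prod_mul_distrib]
  apply prod_congr rfl
  intro j hj
  have hj' := mem_range.1 hj
  have hK := H.hK
  have h1 : e ((d : ℤ) * (r + 1 + j)) ≠ 0 := ne_of_nd (nd H.hcop (by omega) (by omega))
  have h2 : e ((d : ℤ) * (r + 1 + j) - d * n) ≠ 0 := by
    apply e_ne
    have hd := H.hd
    rw [← mul_sub]
    apply mul_ne_zero
    · omega
    · omega
  have h3 : s + (d : ℤ) * j = (d : ℤ) * (r + 1 + j) - n := by
    have := H.hr
    linear_combination -this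
  unfold psi
  rw [h3]
  have hd1 : e ((d : ℤ) * (r + 1 + j)) ^ (d - 1) * (e ((d : ℤ) * (r + 1 + j)))⁻¹ ^ (d - 1) = 1 := by
    rw [← mul_pow, mul_inv_cancel₀ h1, one_pow]
  have hd2 : e ((d : ℤ) * (r + 1 + j) - d * n) * (e ((d : ℤ) * (r + 1 + j) - d * n))⁻¹ = 1 := mul_inv_cancel₀ h2
  rw [mul_pow]
  linear_combination -(e ((d : ℤ) * (r + 1 + j) - n) ^ d * (e ((d : ℤ) * (j + 1)))⁻¹ ^ d) *
    (e ((d : ℤ) * (r + 1 + j) - d * n) * (e ((d : ℤ) * (r + 1 + j) - d * n))⁻¹) * hd1 -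
    (e ((d : ℤ) * (r + 1 + j) - n) ^ d * (e ((d : ℤ) * (j + 1)))⁻¹ ^ d) * hd2

/-- `q^{-n} - 1` -/
def uu (n : ℕ) : RatFunc ℚ := q ^ (-(n : ℤ)) - 1

lemma uu_QO (hn : 0 < n) : QO (cyclotomic n ℚ) 1 (uu n) := by
  have := (e_QO (z := -(n : ℤ)) hn (by rw [dvd_neg])).neg
  unfold uu
  unfold e at this
  rwa [neg_sub] at this

lemma psi_eqm (hn : 0 < n) {j : ℕ} (hd : 1 ≤ d) (hz : ¬ (n : ℤ) ∣ (d : ℤ) * (r + 1 + j)) :
    Eqm (cyclotomic n ℚ) 3 (psi d r n j) (1 + (d * (d - 1) / 2) * uu n ^ 2 * hh ((d : ℤ) * (r + 1 + j))) := by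
  set z := (d : ℤ) * (r + 1 + j) with hzd
  have hv := ne_of_nd hz
  have hz2 : ¬ (n : ℤ) ∣ z - d * n := fun h => hz ((dvd_sub_left (dvd_mul_left _ _)).1 h)
  have hv2 := ne_of_nd hz2
  have hu := uu_QO hn
  have hvi := e_inv hn hz
  have hym := zmem hn z
  set u := uu n with hud
  set y := q ^ z with hyd
  have hx : QO (cyclotomic n ℚ) 1 (-(u * (y * (e z)⁻¹))) := (QO.mul_right hu ((Loc _).mul_mem hym hvi)).neg
  have h1 := pow_second hx d
  have h2 := pow_second hu d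
  have e1 : e (z - n) = e z * (1 + -(u * (y * (e z)⁻¹))) := by
    have : q ^ (z - n) = y * (1 + u) := by
      rw [sub_eq_add_neg, zpow_add₀ q_ne, hud, uu]; ring
    unfold e at hv ⊢
    rw [this]
    field_simp
    ring
  have e2 : e (z - d * n) = 1 - y * (1 + u) ^ d := by
    have : q ^ (z - d * n) = y * (1 + u) ^ d := by
      rw [hud, uu, add_sub_cancel, ← zpow_natCast, ← zpow_mul, ← zpow_add₀ q_ne]
      congr 1; ring
    unfold e
    rw [this]
  have hcm : (((d : ℚ) * (d - 1) / 2 : ℚ) : RatFunc ℚ) ∈ Loc (cyclotomic n ℚ) := rat_mem _ _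
  push_cast at hcm
  have hem := e_mem hn z
  have hhm := hh_mem hn hz
  have hu3 : QO (cyclotomic n ℚ) 3 (u * (u * u)) := hu.mul (hu.mul hu)
  -- the key congruence
  have h3 : Eqm (cyclotomic n ℚ) 3 (e z * (1 + -(u * (y * (e z)⁻¹))) ^ d)
      ((1 + (d * (d - 1) / 2) * u ^ 2 * hh z) * e (z - d * n)) := by
    have h4 := Eqm.mul_left hem h1
    have h5 : Eqm (cyclotomic n ℚ) 3 (e (z - d * n)) (1 - y * (1 + d * u + (d * (d - 1) / 2) * u ^ 2)) := by
      rw [e2]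
      exact (Eqm.refl 1).sub (Eqm.mul_left hym h2)
    have hA : (1 + (d * (d - 1) / 2) * u ^ 2 * hh z) ∈ Loc (cyclotomic n ℚ) :=
      (Loc _).add_mem (Loc _).one_mem ((Loc _).mul_mem ((Loc _).mul_mem hcm ((Loc _).pow_mem hu.mem 2)) hhm)
    have h6 := Eqm.mul_left hA h5
    refine h4.trans (Eqm.trans ?_ h6.symm)
    have hB : ((d * (d - 1) / 2) * hh z * y * (d + (d * (d - 1) / 2) * u)) ∈ Loc (cyclotomic n ℚ) :=
      (Loc _).mul_mem ((Loc _).mul_mem ((Loc _).mul_mem hcm hhm) hym)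
        ((Loc _).add_mem (nat_mem _ _) ((Loc _).mul_mem hcm hu.mem))
    have h7 := QO.mul_left hB hu3
    unfold Eqm
    convert h7 using 1
    have hy : y = 1 - e z := by unfold e; ring
    unfold hh
    rw [← hyd, hy]
    field_simp
    ring
  have h8 := QO.mul_right h3 (e_inv hn hz2)
  unfold Eqm
  convert h8 using 1
  unfold psi
  rw [← hzd, e1]
  have h9 : e z ^ d * (e z)⁻¹ ^ (d - 1) = e z := by
    obtain ⟨d', rfl⟩ : ∃ d', d = d' + 1 := ⟨d - 1, by omega⟩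
    rw [Nat.add_sub_cancel, pow_succ, mul_assoc, mul_comm (e z) _, ← mul_assoc, ← mul_pow, mul_inv_cancel₀ hv, one_pow, one_mul]
  have h10 : e (z - d * n) * (e (z - d * n))⁻¹ = 1 := mul_inv_cancel₀ hv2
  rw [mul_pow]
  linear_combination ((1 + -(u * (y * (e z)⁻¹))) ^ d * (e (z - d * n))⁻¹) * h9 +
    (1 + (d * (d - 1) / 2) * u ^ 2 * hh z) * h10

lemma BB_mem (H : Hyp d r K n l s) {k : ℕ} (hk : k < n) : BB d r n k ∈ Loc (cyclotomic n ℚ) := by
  apply (Loc _).prod_mem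
  intro j hj
  have := mem_range.1 hj
  exact (Loc _).mul_mem ((Loc _).mul_mem (e_mem H.hn _) ((Loc _).pow_mem (e_mem H.hn _) _))
    ((Loc _).pow_mem (e_inv H.hn (nd H.hcop (by omega) (by omega))) _)

lemma GG_mem (H : Hyp d r K n l s) {k : ℕ} (hk : k ≤ K) : GG d r k ∈ Loc (cyclotomic n ℚ) := by
  apply (Loc _).sum_mem
  intro j hj
  have := mem_range.1 hj
  have := H.hK
  exact hh_mem H.hn (nd H.hcop (by omega) (by omega))

lemma HS_mem (H : Hyp d r K n l s) {k : ℕ} (hk : k < n) : HS d k ∈ Loc (cyclotomic n ℚ) := by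
  apply (Loc _).sum_mem
  intro j hj
  have := mem_range.1 hj
  exact hh_mem H.hn (nd H.hcop (by omega) (by omega))

lemma W_mem (hn : 0 < n) (k : ℕ) : W d l s k ∈ Loc (cyclotomic n ℚ) := (Loc _).mul_mem (e_mem hn _) (zmem hn _)

lemma PP_mem (hn : 0 < n) (k : ℕ) : PP d r k ∈ Loc (cyclotomic n ℚ) := (Loc _).prod_mem (fun _ _ => e_mem hn _)

/-- second order expansion of the terms -/
lemma term_eqm (H : Hyp d r K n l s) {k : ℕ} (hk : k ≤ K) :
    Eqm (cyclotomic n ℚ) 3 (W d l s k * tt d s k ^ d)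
      (W d l s k * BB d r n k + (d * (d - 1) / 2) * uu n ^ 2 * (W d l s k * BB d r n k * GG d r k)) := by
  have hn := H.hn
  have hK := H.hK
  have hd := H.hd
  have hcm : (((d : ℚ) * (d - 1) / 2 : ℚ) : RatFunc ℚ) ∈ Loc (cyclotomic n ℚ) := rat_mem _ _
  push_cast at hcm
  have hnd : ∀ j ∈ range k, ¬ (n : ℤ) ∣ (d : ℤ) * (r + 1 + j) := by
    intro j hj
    have := mem_range.1 hj
    exact nd H.hcop (by omega) (by omega)
  have h1 : ∀ j ∈ range k, Eqm (cyclotomic n ℚ) 3 (psi d r n j - 1) ((d * (d - 1) / 2) * uu n ^ 2 * hh ((d : ℤ) * (r + 1 + j))) := by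
    intro j hj
    have := psi_eqm (r := r) hn (by omega : 1 ≤ d) (hnd j hj)
    unfold Eqm at *
    convert this using 1
    ring
  have h2 : ∀ j ∈ range k, QO (cyclotomic n ℚ) 2 ((d * (d - 1) / 2) * uu n ^ 2 * hh ((d : ℤ) * (r + 1 + j))) := by
    intro j hj
    exact QO.mul_right (QO.mul_left hcm (QO.pow (uu_QO hn) 2)) (hh_mem hn (hnd j hj))
  have h3 : ∀ j ∈ range k, QO (cyclotomic n ℚ) 2 (psi d r n j - 1) := by
    intro j hj
    have := QO.add ((h1 j hj).le (show 2 ≤ 3 by norm_num)) (h2 j hj)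
    rwa [sub_add_cancel] at this
  have h4 := (prod_first (range k) (fun j => psi d r n j - 1) h3).le (show 3 ≤ 2 + 2 by norm_num)
  simp only [add_sub_cancel] at h4
  have h5 := h4.trans ((Eqm.refl 1).add (Eqm.sum h1))
  have h6 := Eqm.mul_left ((Loc _).mul_mem (W_mem (d := d) (l := l) (s := s) hn k) (BB_mem H (show k < n by omega))) h5
  rw [tt_pow H hk]
  unfold Eqm at *
  convert h6 using 1
  unfold GG
  rw [← mul_sum]
  ring

/-- the exchange of the two products -/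
lemma prod_exch (d r k : ℕ) : (∏ j ∈ range k, e ((d : ℤ) * (r + 1 + j))) * PP d r 0 =
    (∏ j ∈ range k, e ((d : ℤ) * (j + 1))) * PP d r k := by
  have h6 := prod_range_add (fun i : ℕ => e ((d : ℤ) * (i + 1))) r k
  have h7 := prod_range_add (fun i : ℕ => e ((d : ℤ) * (i + 1))) k r
  rw [add_comm k, h6] at h7
  unfold PP
  have e1 : ∏ j ∈ range k, e ((d : ℤ) * (r + 1 + j)) = ∏ x ∈ range k, e ((d : ℤ) * (((r + x : ℕ) : ℤ) + 1)) := by
    apply prod_congr rfl
    intro j _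
    congr 2; push_cast; ring
  have e2 : ∏ i ∈ range r, e ((d : ℤ) * (((0 : ℕ) : ℤ) + i + 1)) = ∏ i ∈ range r, e ((d : ℤ) * (i + 1)) := by
    apply prod_congr rfl
    intro j _
    congr 2; push_cast; ring
  have e3 : ∏ i ∈ range r, e ((d : ℤ) * (k + i + 1)) = ∏ i ∈ range r, e ((d : ℤ) * (((k + i : ℕ) : ℤ) + 1)) := by
    apply prod_congr rfl
    intro j _
    congr 2
  rw [e1, e2, e3, mul_comm, h7]

lemma sum_exch (d r k : ℕ) : GG d r k + HS d r - HS d k = ∑ i ∈ range r, hh ((d : ℤ) * (k + i + 1)) := by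
  have h6 := sum_range_add (fun i : ℕ => hh ((d : ℤ) * (i + 1))) r k
  have h7 := sum_range_add (fun i : ℕ => hh ((d : ℤ) * (i + 1))) k r
  rw [add_comm k, h6] at h7
  unfold GG HS
  have e1 : ∑ j ∈ range k, hh ((d : ℤ) * (r + 1 + j)) = ∑ x ∈ range k, hh ((d : ℤ) * (((r + x : ℕ) : ℤ) + 1)) := by
    apply sum_congr rfl
    intro j _
    congr 2; push_cast; ring
  have e3 : ∑ i ∈ range r, hh ((d : ℤ) * (k + i + 1)) = ∑ i ∈ range r, hh ((d : ℤ) * (((k + i : ℕ) : ℤ) + 1)) := by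
    apply sum_congr rfl
    intro j _
    congr 2
  rw [e1, e3]
  linear_combination h7

lemma PP0_ne (hd : 0 < d) (k : ℕ) : PP d r k ≠ 0 := by
  unfold PP
  rw [prod_ne_zero_iff]
  intro i _
  apply e_ne
  positivity

lemma den_ne (hd : 0 < d) (k : ℕ) : ∏ j ∈ range k, e ((d : ℤ) * (j + 1)) ≠ 0 := by
  rw [prod_ne_zero_iff]
  intro i _
  apply e_ne
  positivity

/-- the exact sum -/
lemma exact (H : Hyp d r K n l s) : ∑ k ∈ range n, W d l s k * BB d r n k = 0 := by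
  have hd := H.hd
  have hd0 : 0 < d := by omega
  have hK := H.hK
  have hl0 := H.hl0
  have hp0 : (q ^ d : RatFunc ℚ) ≠ 0 := pow_ne_zero _ q_ne
  have hp : ∀ j : ℕ, 1 - (q ^ d : RatFunc ℚ) ^ (j + 1) ≠ 0 := by
    intro j
    rw [← pow_mul]
    exact one_sub_ne (by positivity)
  set f : (RatFunc ℚ)[X] := X ^ (l - 1) * (1 - C (q ^ s) * X ^ 2) * (∏ i ∈ range r, (1 - C (q ^ (d * (i + 1))) * X)) ^ (d - 1) with hf
  have hBB : ∀ k, BB d r n k * PP d r 0 ^ (d - 1) = cb (q ^ d) K k * PP d r k ^ (d - 1) := by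
    intro k
    have e1 : BB d r n k = cb (q ^ d) K k * ((∏ j ∈ range k, e ((d : ℤ) * (r + 1 + j))) * (∏ j ∈ range k, e ((d : ℤ) * (j + 1)))⁻¹) ^ (d - 1) := by
      unfold BB cb
      rw [← prod_inv_distrib, ← prod_mul_distrib, ← prod_pow, ← prod_mul_distrib]
      apply prod_congr rfl
      intro j _
      have e2 : e ((d : ℤ) * (r + 1 + j) - d * n) = 1 - (q ^ d) ^ ((j : ℤ) - K) := by
        unfold e
        rw [← zpow_natCast q d, ← zpow_mul]
        congr 2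
        have : (n : ℤ) = K + r + 1 := by exact_mod_cast hK.symm
        rw [this]; ring
      have e3 : e ((d : ℤ) * (j + 1)) = 1 - (q ^ d) ^ (j + 1) := by
        unfold e
        rw [← pow_mul, ← zpow_natCast]
        congr 2
      rw [e2, e3]
      obtain ⟨d', rfl⟩ : ∃ d', d = d' + 1 := ⟨d - 1, by omega⟩
      rw [Nat.add_sub_cancel, mul_pow, pow_succ (1 - (q ^ (d' + 1)) ^ (j + 1))⁻¹]
      ring
    have e4 := prod_exch d r k
    rw [e1, mul_assoc, ← mul_pow]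
    congr 2
    have h5 := den_ne hd0 k (d := d)
    field_simp
    linear_combination e4
  have hterm : ∀ k, W d l s k * BB d r n k * PP d r 0 ^ (d - 1) = cb (q ^ d) K k * ((q ^ d) ^ k * f.eval ((q ^ d) ^ k)) := by
    intro k
    rw [mul_assoc, hBB]
    have e5 : f.eval ((q ^ d) ^ k) = ((q ^ d) ^ k) ^ (l - 1) * e (s + 2 * (d : ℤ) * k) * PP d r k ^ (d - 1) := by
      rw [hf]
      simp only [Polynomial.eval_mul, Polynomial.eval_pow, Polynomial.eval_X, Polynomial.eval_sub, Polynomial.eval_one,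
        Polynomial.eval_C, Polynomial.eval_prod]
      congr 1
      · congr 1
        unfold e
        congr 1
        rw [← pow_mul, ← pow_mul, ← zpow_natCast q, ← zpow_add₀ q_ne]
        congr 1; push_cast; ring
      · congr 1
        unfold PP
        apply prod_congr rfl
        intro i _
        unfold e
        congr 1
        rw [← pow_mul, ← pow_add, ← zpow_natCast q]
        congr 1; push_cast; ring
    rw [e5]
    have e6 : q ^ ((d : ℤ) * l * k) = (q ^ d) ^ k * ((q ^ d) ^ k) ^ (l - 1) := by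
      obtain ⟨l', rfl⟩ : ∃ l', l = l' + 1 := ⟨l - 1, by omega⟩
      rw [Nat.add_sub_cancel, ← pow_mul, ← pow_mul, ← pow_add, ← zpow_natCast q]
      congr 1; push_cast; ring
    unfold W
    rw [e6]
    ring
  have hdeg : f.natDegree < K := by
    have h1 : f.natDegree ≤ (l - 1) + 2 + (d - 1) * r := by
      rw [hf]
      refine (natDegree_mul_le).trans (Nat.add_le_add ((natDegree_mul_le).trans (Nat.add_le_add ?_ ?_)) ?_)
      · exact natDegree_X_pow_le _
      · refine (natDegree_sub_le _ _).trans (max_le (by simp) ((natDegree_C_mul_le _ _).trans (natDegree_X_pow_le _)))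
      · refine (natDegree_pow_le).trans (Nat.mul_le_mul_left _ ?_)
        refine (natDegree_prod_le _ _).trans ?_
        have h2 : ∀ i ∈ range r, (1 - C (q ^ (d * (i + 1))) * X : (RatFunc ℚ)[X]).natDegree ≤ 1 := by
          intro i _
          refine (natDegree_sub_le _ _).trans (max_le (by simp) ((natDegree_C_mul_le _ _).trans natDegree_X_le))
        refine (sum_le_sum h2).trans ?_
        simp
    have h3 : ((l - 1 + 2 + (d - 1) * r : ℕ) : ℤ) < K := by
      have e1 : ((d - 1 : ℕ) : ℤ) = (d : ℤ) - 1 := by push_cast [Nat.cast_sub (show 1 ≤ d by omega)]; ring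
      have e2 : ((l - 1 : ℕ) : ℤ) = (l : ℤ) - 1 := by push_cast [Nat.cast_sub (show 1 ≤ l by omega)]; ring
      have h4 := H.hr
      have h5 := H.hl
      have h6 : (n : ℤ) = K + r + 1 := by exact_mod_cast hK.symm
      push_cast
      rw [e1, e2]
      nlinarith
    exact lt_of_le_of_lt h1 (by exact_mod_cast h3)
  have h1 := cb_poly hp0 hp f hdeg
  have hKn : K + 1 ≤ n := by omega
  have h2 : (∑ k ∈ range n, W d l s k * BB d r n k) * PP d r 0 ^ (d - 1) = 0 := by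
    rw [sum_mul]
    simp only [hterm]
    obtain ⟨m, hm⟩ := Nat.exists_eq_add_of_le hKn
    rw [hm, sum_range_add, h1, zero_add]
    apply sum_eq_zero
    intro k _
    rw [cb_zero_of_lt (by omega), zero_mul]
  exact (mul_eq_zero.1 h2).resolve_right (pow_ne_zero _ (PP0_ne hd0 0))

end

end

end Pool.Agent.X14.QR
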