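import Pool.Agent.X14.PA8
import Pool.Agent.X14.QR2

set_option autoImplicit false

/-! The specialisation `a = b = 1` and the blocks modulo `Φ_d`. -/

namespace Pool.Agent.X14.PA

open Finset Polynomial Pool.Agent.X14.QL Pool.Agent.X14.QBlock Pool.Agent.X14.QR

noncomputable section

variable {n s d h : ℕ}

lemma Un_one_e (hd1 : 1 < d) : Un (cyclotomic d ℚ) (1 - q) := by
  have := Un_e (d := d) (b := 1) (fun h => by have := Nat.le_of_dvd one_pos h; omega)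
  rwa [pow_one] at this

/-- modulo `Φ_n ^ 5` -/
theorem Dl_five (hn : n = 2 * s + 1) (hs : 0 < s) : QO (cyclotomic n ℚ) 5 (Dl s n 1 1) := by
  obtain ⟨𝒟, hV0, hV⟩ := exists_dat hn hs
  have hn1 : 1 < n := by omega
  have hq : ∀ k : ℕ, (1 : RatFunc ℚ) - 1 * q ^ (k + 1) ≠ 0 := fun k => by rw [one_mul]; exact hq1 k
  have h1 := ev_NN' (α := 1) (β := 1) hn 𝒟 (fun k _ => hq k) (fun k _ => hq1 k) (fun i => hq (2 * i + 1))
  obtain ⟨Cc, hC⟩ := MM_dvd hn hs 𝒟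
  have hCm : ev al 1 1 Cc ∈ Loc (cyclotomic n ℚ) := by
    have := ev_eq 1 1 Cc
    rw [map_one] at this
    rw [← this]
    exact al_mem _ _
  have hM : ev al 1 1 (MM n) = al (br n * cyclotomic n ℚ) * ((1 - q ^ n) * (1 - q ^ n)) * (1 - q ^ n) := by
    rw [MM, map_mul, map_mul, ev_CC, ev_C, ← xa_eq, ev_xa, ev_zb, ← q_eq, one_mul]
  have hbr : QO (cyclotomic n ℚ) 1 (al (br n)) := by
    have e1 : al (br n) = (1 - q ^ n) * (1 - q)⁻¹ := by
      have := ev_br al (by rw [← q_eq]; exact (Un_one_e hn1).2.2) n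
      rw [← q_eq] at this
      rw [this, div_eq_mul_inv]
    rw [e1]
    exact QO.mul_right (QO_one_sub (dvd_refl n)) (Un_one_e hn1).2.1
  have hcy : QO (cyclotomic n ℚ) 1 (al (cyclotomic n ℚ)) := QO.one_of_dvd dvd_rfl
  have he : QO (cyclotomic n ℚ) 1 (1 - q ^ n) := QO_one_sub (dvd_refl n)
  have hMQ : QO (cyclotomic n ℚ) 5 (ev al 1 1 (MM n)) := by
    rw [hM, map_mul]
    exact ((hbr.mul hcy).mul (he.mul he)).mul he
  have hNQ : QO (cyclotomic n ℚ) 5 (ev al 1 1 (NN s 𝒟)) := by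
    rw [hC, map_mul]
    exact QO.mul_right hMQ hCm
  have hDU : Un (cyclotomic n ℚ) (ev al 1 1 (DD s 𝒟)) := by
    have hnd : ∀ m, 0 < m → m < n → ¬ n ∣ m := fun m h0 h1 h => by have := Nat.le_of_dvd h0 h; omega
    have hnd2 : ∀ i, i < n - 1 → ¬ n ∣ 2 * i + 2 := by
      intro i hi h
      have h3 : n ∣ 2 * (i + 1) := by rwa [show 2 * (i + 1) = 2 * i + 2 by ring]
      have h4 : Nat.Coprime n 2 := by rw [hn]; simp
      exact hnd (i + 1) (by omega) (by omega) (h4.dvd_of_dvd_mul_left h3)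
    rw [ev_DD]
    refine Un.mul (Un.mul ?_ (Un.mul ?_ ?_)) ?_
    · exact Un.of_cop (IsCoprime.of_mul_right_right hV) hV0
    · refine Un.prod (fun i hi => ?_)
      have hi' := mem_range.1 hi
      rw [one_mul]
      have := Un_e (d := n) (b := 2 * i + 2) (hnd _ (by omega) (by omega))
      exact this.mul this
    · refine Un.prod (fun i hi => ?_)
      have hi' := mem_range.1 hi
      rw [one_mul]
      have := Un_e (d := n) (b := i + 1) (hnd _ (by omega) (by omega))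
      exact this.mul this
    · refine Un.prod (fun i hi => ?_)
      have hi' := mem_range.1 hi
      rw [one_mul]
      exact Un_e (hnd2 i hi')
  have h2 : Dl s n 1 1 = (ev al 1 1 (DD s 𝒟))⁻¹ * ev al 1 1 (NN s 𝒟) := by
    rw [h1, inv_mul_cancel_left₀ hDU.2.2]
  rw [h2]
  exact QO.mul_left hDU.2.1 hNQ

/-! ### the terms at `a = b = 1` -/

/-- terms of the first sum -/
def tA (j : ℕ) : RatFunc ℚ := (1 - q ^ (4 * j + 1)) / (1 - q) * rr 1 j ^ 4

/-- the extra factor of the second sum -/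
def yy (j : ℕ) : RatFunc ℚ := ∏ i ∈ range j, ((1 + q ^ (i + 1)) ^ 2 * (q ^ (i + 1))⁻¹)

/-- terms of the second sum -/
def tB (j : ℕ) : RatFunc ℚ := (1 - q ^ (3 * j + 1)) / (1 - q) * (rr 1 j ^ 3 * yy j)

lemma tL_one (j : ℕ) : tL q 1 1 j = tA j := by
  rw [tL, tA, mul_assoc]
  congr 1
  rw [cL, QQ, EE, rr_eq, ← prod_div_distrib, ← prod_mul_distrib, ← prod_pow]
  apply prod_congr rfl
  intro i _
  have h1 : (1 : RatFunc ℚ) - q ^ (2 * i + 2) ≠ 0 := hq1 (2 * i + 1)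
  rw [one_mul, one_mul]
  generalize (1 : RatFunc ℚ) - q ^ (2 * i + 2) = x at *
  generalize (1 : RatFunc ℚ) - q ^ (2 * i + 1) = y at *
  field_simp

lemma tR_one (j : ℕ) : tR q 1 1 j = tB j := by
  rw [tR, tB, mul_assoc]
  congr 1
  rw [cR, SS, EE, rr_eq, yy, ← prod_div_distrib, ← prod_mul_distrib, ← prod_pow, ← prod_mul_distrib]
  apply prod_congr rfl
  intro i _
  have h1 : (1 : RatFunc ℚ) - q ^ (2 * i + 2) = (1 - q ^ (i + 1)) * (1 + q ^ (i + 1)) := by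
    rw [show 2 * i + 2 = (i + 1) + (i + 1) by ring, pow_add]; ring
  have h2 : (1 : RatFunc ℚ) - q ^ (i + 1) ≠ 0 := hq1 i
  have h3 : (1 : RatFunc ℚ) + q ^ (i + 1) ≠ 0 := by
    intro h
    have h4 : (1 : RatFunc ℚ) - q ^ (2 * i + 1 + 1) = 0 := by
      rw [show 2 * i + 1 + 1 = 2 * i + 2 by ring, h1, h, mul_zero]
    exact hq1 _ h4
  have h4 : (q : RatFunc ℚ) ^ (i + 1) ≠ 0 := pow_ne_zero _ q_ne
  simp only [one_mul]
  rw [h1]
  clear h1
  generalize (1 : RatFunc ℚ) - q ^ (2 * i + 1) = y at *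
  generalize (1 : RatFunc ℚ) - q ^ (i + 1) = x at *
  generalize (1 : RatFunc ℚ) + q ^ (i + 1) = z at *
  generalize (q : RatFunc ℚ) ^ (i + 1) = w at *
  field_simp

lemma Dl_one : Dl s n 1 1 = (∑ j ∈ range (s + 1), tA j) - ∑ j ∈ range n, tB j := by
  rw [Dl]
  congr 1
  · exact sum_congr rfl (fun j _ => tL_one j)
  · exact sum_congr rfl (fun j _ => tR_one j)

/-! ### blocks -/

lemma f_shift (d m : ℕ) : Eqm (cyclotomic d ℚ) 1 (1 - q ^ (d + m)) (1 - q ^ m) := (Eqm.refl 1).sub (q_shift d m)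

lemma q_shift' (d c m : ℕ) : Eqm (cyclotomic d ℚ) 1 (q ^ (d * c + m)) (q ^ m) := by
  have := (q_mult d c).mul (Eqm.refl (q ^ m)) (Loc _).one_mem ((Loc _).pow_mem (q_mem _) m)
  rwa [one_mul, ← pow_add] at this

lemma f_shift' (d c m : ℕ) : Eqm (cyclotomic d ℚ) 1 (1 - q ^ (d * c + m)) (1 - q ^ m) := (Eqm.refl 1).sub (q_shift' d c m)

/-- the weights -/
def ww (J : ℕ) : ℚ := ∏ i ∈ range J, ((2 * (i : ℚ) + 1) / (2 * i + 2))

lemma nd_odd (hd : d = 2 * h + 1) {t : ℕ} (ht : t < h) : ¬ d ∣ 2 * t + 1 := fun hh => by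
  have := Nat.le_of_dvd (by omega) hh; omega

lemma nd_even (hd : d = 2 * h + 1) {t : ℕ} (ht : t < h) : ¬ d ∣ 2 * t + 2 := fun hh => by
  have := Nat.le_of_dvd (by omega) hh; omega

lemma nd_all (hd : d = 2 * h + 1) {t : ℕ} (ht : t < d - 1) : ¬ d ∣ t + 1 := fun hh => by
  have := Nat.le_of_dvd (by omega) hh; omega

lemma nd_even' (hd : d = 2 * h + 1) {t : ℕ} (ht : t < d - 1) : ¬ d ∣ 2 * t + 2 := by
  intro hh
  have h3 : d ∣ 2 * (t + 1) := by rwa [show 2 * (t + 1) = 2 * t + 2 by ring]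
  have h4 : Nat.Coprime d 2 := by rw [hd]; simp
  exact nd_all hd ht (h4.dvd_of_dvd_mul_left h3)

lemma nd_shift {c m : ℕ} (hm : ¬ d ∣ m) : ¬ d ∣ d * c + m := fun hh => hm ((Nat.dvd_add_right (dvd_mul_right d c)).1 hh)

/-- one block -/
lemma one_block (hd : d = 2 * h + 1) (hd1 : 1 < d) (i : ℕ) :
    Eqm (cyclotomic d ℚ) 1 (∏ t ∈ range d, ((1 - q ^ (2 * (d * i + t) + 1)) / (1 - q ^ (2 * (d * i + t) + 2))))
      (((2 * (i : ℚ) + 1) / (2 * i + 2) : ℚ) : RatFunc ℚ) := by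
  have hd0 : 0 < d := by omega
  set f : ℕ → RatFunc ℚ := fun m => 1 - q ^ m with hf
  have hU : ∀ m, ¬ d ∣ m → Un (cyclotomic d ℚ) (f m) := fun m hm => Un_e hm
  have e1 : ∏ t ∈ range d, f (2 * (d * i + t) + 1) = f (d * (2 * i + 1)) *
      ((∏ t ∈ range h, f (d * (2 * i) + (2 * t + 1))) * ∏ t ∈ range h, f (d * (2 * i + 1) + (2 * t + 2))) := by
    rw [← prod_range_mul_prod_Ico _ (show h ≤ d by omega), prod_Ico_eq_prod_range, show d - h = h + 1 by omega, prod_range_succ']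
    have a1 : ∏ t ∈ range h, f (2 * (d * i + t) + 1) = ∏ t ∈ range h, f (d * (2 * i) + (2 * t + 1)) :=
      prod_congr rfl (fun t _ => by congr 1; ring)
    have a2 : ∏ t ∈ range h, f (2 * (d * i + (h + (t + 1))) + 1) = ∏ t ∈ range h, f (d * (2 * i + 1) + (2 * t + 2)) :=
      prod_congr rfl (fun t _ => by
        congr 1
        have : d * (2 * i + 1) = 2 * (d * i) + d := by ring
        omega)
    have a3 : f (2 * (d * i + (h + 0)) + 1) = f (d * (2 * i + 1)) := by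
      congr 1
      have : d * (2 * i + 1) = 2 * (d * i) + d := by ring
      omega
    rw [a1, a2, a3]; ring
  have e2 : ∏ t ∈ range d, f (2 * (d * i + t) + 2) = f (d * (2 * i + 2)) *
      ((∏ t ∈ range h, f (d * (2 * i) + (2 * t + 2))) * ∏ t ∈ range h, f (d * (2 * i + 1) + (2 * t + 1))) := by
    rw [← prod_range_mul_prod_Ico _ (show h ≤ d by omega), prod_Ico_eq_prod_range, show d - h = h + 1 by omega, prod_range_succ]
    have a1 : ∏ t ∈ range h, f (2 * (d * i + t) + 2) = ∏ t ∈ range h, f (d * (2 * i) + (2 * t + 2)) :=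
      prod_congr rfl (fun t _ => by congr 1; ring)
    have a2 : ∏ t ∈ range h, f (2 * (d * i + (h + t)) + 2) = ∏ t ∈ range h, f (d * (2 * i + 1) + (2 * t + 1)) :=
      prod_congr rfl (fun t _ => by
        congr 1
        have : d * (2 * i + 1) = 2 * (d * i) + d := by ring
        omega)
    have a3 : f (2 * (d * i + (h + h)) + 2) = f (d * (2 * i + 2)) := by
      congr 1
      have : d * (2 * i + 2) = 2 * (d * i) + 2 * d := by ring
      omega
    rw [a1, a2, a3]; ring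
  rw [prod_div_distrib]
  change Eqm (cyclotomic d ℚ) 1 ((∏ t ∈ range d, f (2 * (d * i + t) + 1)) / ∏ t ∈ range d, f (2 * (d * i + t) + 2)) _
  rw [e1, e2, mul_div_mul_comm]
  have r0 := e_ratio (n := d) (s := 1) hd0 one_pos (2 * (i : ℤ) + 1) (d := 2 * (i : ℤ) + 2) (by omega)
  have r1 : e (((1 : ℕ) : ℤ) * ((2 * (i : ℤ) + 1) * (d : ℤ))) = f (d * (2 * i + 1)) := by
    rw [show ((1 : ℕ) : ℤ) * ((2 * (i : ℤ) + 1) * (d : ℤ)) = ((d * (2 * i + 1) : ℕ) : ℤ) by push_cast; ring, e_nat]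
  have r2 : e (((1 : ℕ) : ℤ) * ((2 * (i : ℤ) + 2) * (d : ℤ))) = f (d * (2 * i + 2)) := by
    rw [show ((1 : ℕ) : ℤ) * ((2 * (i : ℤ) + 2) * (d : ℤ)) = ((d * (2 * i + 2) : ℕ) : ℤ) by push_cast; ring, e_nat]
  rw [r1, r2] at r0
  have hu1 : Un (cyclotomic d ℚ) (∏ t ∈ range h, f (2 * t + 1)) := Un.prod (fun t ht => hU _ (nd_odd hd (mem_range.1 ht)))
  have hu2 : Un (cyclotomic d ℚ) (∏ t ∈ range h, f (2 * t + 2)) := Un.prod (fun t ht => hU _ (nd_even hd (mem_range.1 ht)))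
  have b1 : Eqm (cyclotomic d ℚ) 1 (∏ t ∈ range h, f (d * (2 * i) + (2 * t + 1))) (∏ t ∈ range h, f (2 * t + 1)) :=
    Eqm.prod (fun t _ => f_shift' d _ _) (fun t ht => (hU _ (nd_odd hd (mem_range.1 ht))).1)
  have b2 : Eqm (cyclotomic d ℚ) 1 (∏ t ∈ range h, f (d * (2 * i + 1) + (2 * t + 2))) (∏ t ∈ range h, f (2 * t + 2)) :=
    Eqm.prod (fun t _ => f_shift' d _ _) (fun t ht => (hU _ (nd_even hd (mem_range.1 ht))).1)
  have b3 : Eqm (cyclotomic d ℚ) 1 (∏ t ∈ range h, f (d * (2 * i) + (2 * t + 2))) (∏ t ∈ range h, f (2 * t + 2)) :=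
    Eqm.prod (fun t _ => f_shift' d _ _) (fun t ht => (hU _ (nd_even hd (mem_range.1 ht))).1)
  have b4 : Eqm (cyclotomic d ℚ) 1 (∏ t ∈ range h, f (d * (2 * i + 1) + (2 * t + 1))) (∏ t ∈ range h, f (2 * t + 1)) :=
    Eqm.prod (fun t _ => f_shift' d _ _) (fun t ht => (hU _ (nd_odd hd (mem_range.1 ht))).1)
  have c1 := b1.mul b2 hu1.1 hu2.1
  have c2 := b3.mul b4 hu2.1 hu1.1
  have hu3 : Un (cyclotomic d ℚ) ((∏ t ∈ range h, f (d * (2 * i) + (2 * t + 2))) * ∏ t ∈ range h, f (d * (2 * i + 1) + (2 * t + 1))) :=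
    (Un.prod (fun t ht => hU _ (nd_shift (nd_even hd (mem_range.1 ht))))).mul (Un.prod (fun t ht => hU _ (nd_shift (nd_odd hd (mem_range.1 ht)))))
  have hu4 := hu2.mul hu1
  have c3 := Eqm.inv_of c2 hu3.2.1 hu4.2.1 hu3.2.2 hu4.2.2
  have c4 := c1.mul c3 (hu1.mul hu2).1 hu4.2.1
  rw [mul_comm (∏ t ∈ range h, f (2 * t + 1)) (∏ t ∈ range h, f (2 * t + 2)), mul_inv_cancel₀ hu4.2.2] at c4
  have c5 := r0.mul c4 (rat_mem _ _) (Loc _).one_mem
  rw [mul_one] at c5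
  rw [div_eq_mul_inv ((∏ t ∈ range h, f (d * (2 * i) + (2 * t + 1))) * _)]
  convert c5 using 2
  push_cast
  ring

/-- the blocks of `rr` -/
lemma rr_block (hd : d = 2 * h + 1) (hd1 : 1 < d) (J : ℕ) {l : ℕ} (hl : l < d) :
    Eqm (cyclotomic d ℚ) 1 (rr 1 (d * J + l)) ((ww J : ℚ) * rr 1 l) := by
  rw [rr_eq, prod_range_blocks]
  have h1 : Eqm (cyclotomic d ℚ) 1 (∏ i ∈ range J, ∏ t ∈ range d, ((1 - q ^ (2 * (d * i + t) + 1)) / (1 - q ^ (2 * (d * i + t) + 2)))) (ww J : ℚ) := by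
    rw [ww, Rat.cast_prod]
    exact Eqm.prod (fun i _ => one_block hd hd1 i) (fun i _ => rat_mem _ _)
  have h2 : Eqm (cyclotomic d ℚ) 1 (∏ t ∈ range l, ((1 - q ^ (2 * (d * J + t) + 1)) / (1 - q ^ (2 * (d * J + t) + 2)))) (rr 1 l) := by
    rw [rr_eq]
    apply Eqm.prod
    · intro t ht
      have ht' := mem_range.1 ht
      rw [show 2 * (d * J + t) + 1 = d * (2 * J) + (2 * t + 1) by ring, show 2 * (d * J + t) + 2 = d * (2 * J) + (2 * t + 2) by ring,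
        div_eq_mul_inv, div_eq_mul_inv]
      have hnd := nd_even' hd (show t < d - 1 by omega)
      have u1 := Un_e (nd_shift (c := 2 * J) hnd)
      have u2 := Un_e hnd
      exact (f_shift' d _ _).mul (Eqm.inv_of (f_shift' d _ _) u1.2.1 u2.2.1 u1.2.2 u2.2.2) (one_sub_mem _ _) u2.2.1
    · intro t ht
      have ht' := mem_range.1 ht
      exact div_mem' (one_sub_mem _ _) (Un_e (nd_even' hd (by omega)))
  exact h1.mul h2 (rat_mem _ _) (rr1_mem hd l)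

/-- beyond the middle -/
lemma rr_beyond (hd : d = 2 * h + 1) {l : ℕ} (hl : l < d) (hl' : h < l) : QO (cyclotomic d ℚ) 1 (rr 1 l) := by
  have := (rr_mem (s := 1) hd one_pos (Nat.coprime_one_left d) 0 hl).2 hl'
  rwa [mul_zero, zero_add] at this

lemma one_add_Un (hd : d = 2 * h + 1) {i : ℕ} (hi : ¬ d ∣ 2 * i + 2) : Un (cyclotomic d ℚ) (1 + q ^ (i + 1)) := by
  have h1 : (1 : RatFunc ℚ) - q ^ (2 * i + 2) = (1 - q ^ (i + 1)) * (1 + q ^ (i + 1)) := by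
    rw [show 2 * i + 2 = (i + 1) + (i + 1) by ring, pow_add]; ring
  have h2 := Un_e hi
  have h3 : (1 : RatFunc ℚ) + q ^ (i + 1) ≠ 0 := fun h => h2.2.2 (by rw [h1, h, mul_zero])
  refine ⟨(Loc _).add_mem (Loc _).one_mem ((Loc _).pow_mem (q_mem _) _), ?_, h3⟩
  have h4 : (1 + q ^ (i + 1) : RatFunc ℚ)⁻¹ = (1 - q ^ (i + 1)) * (1 - q ^ (2 * i + 2))⁻¹ := by
    rw [h1, mul_inv, ← mul_assoc, mul_inv_cancel₀ (hq1 i), one_mul]
  rw [h4]
  exact (Loc _).mul_mem (one_sub_mem _ _) h2.2.1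

/-- the block of `yy` -/
lemma yy_full (hd : d = 2 * h + 1) (hd1 : 1 < d) : Eqm (cyclotomic d ℚ) 1 (yy d) ((4 : ℚ) : RatFunc ℚ) := by
  have hd0 : 0 < d := by omega
  -- the product of `1 + q^i`
  have h1 : Eqm (cyclotomic d ℚ) 1 (∏ i ∈ range (d - 1), (1 + q ^ (i + 1))) 1 := by
    have e1 := one_add_prod (d - 1)
    set f : ℕ → RatFunc ℚ := fun m => 1 - q ^ m with hf
    have e2 : Eqm (cyclotomic d ℚ) 1 (∏ i ∈ range (d - 1), f (2 * i + 2)) (∏ i ∈ range (d - 1), f (i + 1)) := by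
      have a0 : d - 1 = 2 * h := by omega
      rw [a0, prod_two (fun i => f (i + 1)) h, prod_mul_distrib, two_mul, prod_range_add]
      have a1 : Eqm (cyclotomic d ℚ) 1 (∏ i ∈ range h, f (2 * (h + i) + 2)) (∏ i ∈ range h, f (2 * i + 1)) := by
        apply Eqm.prod
        · intro i _
          have := f_shift d (2 * i + 1)
          rwa [show d + (2 * i + 1) = 2 * (h + i) + 2 by omega] at this
        · intro i _; exact one_sub_mem _ _
      have a2 := a1.mul_left ((Loc (cyclotomic d ℚ)).prod_mem (fun i (_ : i ∈ range h) => one_sub_mem (cyclotomic d ℚ) (2 * i + 2)))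
      convert a2 using 1
      rw [mul_comm]
    have u1 : Un (cyclotomic d ℚ) (∏ i ∈ range (d - 1), f (i + 1)) := Un.prod (fun i hi => Un_e (nd_all hd (mem_range.1 hi)))
    have e3 := e2.mul_left u1.2.1
    rw [inv_mul_cancel₀ u1.2.2] at e3
    have e4 : (∏ i ∈ range (d - 1), f (i + 1))⁻¹ * ∏ i ∈ range (d - 1), f (2 * i + 2) = ∏ i ∈ range (d - 1), (1 + q ^ (i + 1)) := by
      change _ * (∏ i ∈ range (d - 1), (1 - q ^ (2 * i + 2))) = _
      rw [← e1]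
      have : ∏ i ∈ range (d - 1), (1 - q ^ (i + 1)) ≠ 0 := u1.2.2
      change (∏ i ∈ range (d - 1), (1 - q ^ (i + 1)))⁻¹ * _ = _
      field_simp
    rwa [e4] at e3
  have h2 : Eqm (cyclotomic d ℚ) 1 (∏ i ∈ range d, (1 + q ^ (i + 1))) 2 := by
    obtain ⟨c, hc⟩ : ∃ c, d = c + 1 := ⟨d - 1, by omega⟩
    have e1 : ∏ i ∈ range d, (1 + q ^ (i + 1)) = (∏ i ∈ range (d - 1), (1 + q ^ (i + 1))) * (1 + q ^ d) := by
      rw [hc, prod_range_succ, show c + 1 - 1 = c by omega]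
    rw [e1]
    have e2 : Eqm (cyclotomic d ℚ) 1 (1 + q ^ d) (1 + 1) := (Eqm.refl 1).add (qn_eqm d)
    have := h1.mul e2 (Loc _).one_mem ((Loc _).add_mem (Loc _).one_mem (Loc _).one_mem)
    rwa [one_mul, one_add_one_eq_two] at this
  have h3 : Eqm (cyclotomic d ℚ) 1 (∏ i ∈ range d, (q ^ (i + 1))⁻¹) 1 := by
    rw [prod_inv_distrib, prod_q]
    have e2 : ∑ i ∈ range d, (i + 1) = d * (h + 1) := by
      have e3 := sum_range_id_mul_two (d + 1)
      have e4 : ∑ i ∈ range (d + 1), i = ∑ i ∈ range d, (i + 1) := by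
        rw [sum_range_succ']; simp
      rw [e4] at e3
      have e5 : (d + 1) * (d + 1 - 1) = d * (h + 1) * 2 := by
        rw [show d + 1 - 1 = d by omega, show d + 1 = 2 * (h + 1) by omega]; ring
      omega
    rw [e2]
    have u2 := (Un_q hd1).pow (d * (h + 1))
    have h4 := Eqm.inv_of (q_mult d (h + 1)) u2.2.1 (by rw [inv_one]; exact (Loc _).one_mem) u2.2.2 one_ne_zero
    rwa [inv_one] at h4
  have m2 : (2 : RatFunc ℚ) ∈ Loc (cyclotomic d ℚ) := by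
    have := nat_mem (cyclotomic d ℚ) 2; exact_mod_cast this
  rw [yy, prod_mul_distrib, prod_pow]
  have h4 := (h2.pow m2 2).mul h3 ((Loc _).pow_mem m2 2) (Loc _).one_mem
  convert h4 using 1
  push_cast
  norm_num

lemma yy_mem (hd1 : 1 < d) (j : ℕ) : yy j ∈ Loc (cyclotomic d ℚ) :=
  (Loc _).prod_mem (fun i _ => (Loc _).mul_mem ((Loc _).pow_mem ((Loc _).add_mem (Loc _).one_mem ((Loc _).pow_mem (q_mem _) _)) 2) ((Un_q hd1).pow _).2.1)

lemma yy_block (hd : d = 2 * h + 1) (hd1 : 1 < d) (J : ℕ) (l : ℕ) :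
    Eqm (cyclotomic d ℚ) 1 (yy (d * J + l)) (((4 : ℚ) ^ J : ℚ) * yy l) := by
  have key : ∀ c i, Eqm (cyclotomic d ℚ) 1 ((1 + q ^ (d * c + i + 1)) ^ 2 * (q ^ (d * c + i + 1))⁻¹) ((1 + q ^ (i + 1)) ^ 2 * (q ^ (i + 1))⁻¹) := by
    intro c i
    have h1 := q_shift' d c (i + 1)
    rw [← add_assoc] at h1
    have h2 : Eqm (cyclotomic d ℚ) 1 (1 + q ^ (d * c + i + 1)) (1 + q ^ (i + 1)) := (Eqm.refl 1).add h1
    have m1 : (1 + q ^ (i + 1) : RatFunc ℚ) ∈ Loc (cyclotomic d ℚ) := (Loc _).add_mem (Loc _).one_mem ((Loc _).pow_mem (q_mem _) _)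
    have u1 := (Un_q hd1).pow (d * c + i + 1)
    have u2 := (Un_q hd1).pow (i + 1)
    exact (h2.pow m1 2).mul (Eqm.inv_of h1 u1.2.1 u2.2.1 u1.2.2 u2.2.2) ((Loc _).pow_mem m1 2) u2.2.1
  have hm : ∀ i, (1 + q ^ (i + 1) : RatFunc ℚ) ^ 2 * (q ^ (i + 1))⁻¹ ∈ Loc (cyclotomic d ℚ) := fun i =>
    (Loc _).mul_mem ((Loc _).pow_mem ((Loc _).add_mem (Loc _).one_mem ((Loc _).pow_mem (q_mem _) _)) 2) ((Un_q hd1).pow _).2.1
  rw [yy, prod_range_blocks]
  have h1 : Eqm (cyclotomic d ℚ) 1 (∏ i ∈ range J, ∏ t ∈ range d, ((1 + q ^ (d * i + t + 1)) ^ 2 * (q ^ (d * i + t + 1))⁻¹)) (((4 : ℚ) ^ J : ℚ) : RatFunc ℚ) := by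
    have h2 : Eqm (cyclotomic d ℚ) 1 (∏ i ∈ range J, ∏ t ∈ range d, ((1 + q ^ (d * i + t + 1)) ^ 2 * (q ^ (d * i + t + 1))⁻¹)) (∏ i ∈ range J, yy d) := by
      apply Eqm.prod
      · intro i _
        exact Eqm.prod (fun t _ => key i t) (fun t _ => hm t)
      · intro i _; exact yy_mem hd1 d
    rw [prod_const, card_range] at h2
    have h3 := (yy_full hd hd1).pow (rat_mem _ _) J
    refine h2.trans ?_
    convert h3 using 1
    push_cast
    ring
  have h2 : Eqm (cyclotomic d ℚ) 1 (∏ t ∈ range l, ((1 + q ^ (d * J + t + 1)) ^ 2 * (q ^ (d * J + t + 1))⁻¹)) (yy l) :=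
    Eqm.prod (fun t _ => key J t) (fun t _ => hm t)
  exact h1.mul h2 (rat_mem _ _) (yy_mem hd1 l)

lemma tA_mem (hd : d = 2 * h + 1) (hd1 : 1 < d) (j : ℕ) : tA j ∈ Loc (cyclotomic d ℚ) :=
  (Loc _).mul_mem (div_mem' (one_sub_mem _ _) (Un_one_e hd1)) ((Loc _).pow_mem (rr1_mem hd j) 4)

lemma tB_mem (hd : d = 2 * h + 1) (hd1 : 1 < d) (j : ℕ) : tB j ∈ Loc (cyclotomic d ℚ) :=
  (Loc _).mul_mem (div_mem' (one_sub_mem _ _) (Un_one_e hd1)) ((Loc _).mul_mem ((Loc _).pow_mem (rr1_mem hd j) 3) (yy_mem hd1 j))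

lemma tA_block (hd : d = 2 * h + 1) (hd1 : 1 < d) (J : ℕ) {l : ℕ} (hl : l < d) :
    Eqm (cyclotomic d ℚ) 1 (tA (d * J + l)) (((ww J ^ 4 : ℚ) : RatFunc ℚ) * tA l) := by
  have h1 := rr_block hd hd1 J hl
  have m1 := (Loc (cyclotomic d ℚ)).mul_mem (rat_mem (cyclotomic d ℚ) (ww J)) (rr1_mem hd l)
  have h2 := h1.pow m1 4
  have h3 : Eqm (cyclotomic d ℚ) 1 ((1 - q ^ (4 * (d * J + l) + 1)) / (1 - q)) ((1 - q ^ (4 * l + 1)) / (1 - q)) := by
    rw [show 4 * (d * J + l) + 1 = d * (4 * J) + (4 * l + 1) by ring, div_eq_inv_mul, div_eq_inv_mul]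
    exact (f_shift' d _ _).mul_left (Un_one_e hd1).2.1
  have h4 := h3.mul h2 (div_mem' (one_sub_mem _ _) (Un_one_e hd1)) ((Loc _).pow_mem m1 4)
  rw [tA, tA]
  convert h4 using 1
  push_cast
  ring

lemma tB_block (hd : d = 2 * h + 1) (hd1 : 1 < d) (J : ℕ) {l : ℕ} (hl : l < d) :
    Eqm (cyclotomic d ℚ) 1 (tB (d * J + l)) (((ww J ^ 3 * 4 ^ J : ℚ) : RatFunc ℚ) * tB l) := by
  have h1 := rr_block hd hd1 J hl
  have m1 := (Loc (cyclotomic d ℚ)).mul_mem (rat_mem (cyclotomic d ℚ) (ww J)) (rr1_mem hd l)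
  have h2 := (h1.pow m1 3).mul (yy_block hd hd1 J l) ((Loc _).pow_mem m1 3) ((Loc _).mul_mem (rat_mem _ _) (yy_mem hd1 l))
  have h3 : Eqm (cyclotomic d ℚ) 1 ((1 - q ^ (3 * (d * J + l) + 1)) / (1 - q)) ((1 - q ^ (3 * l + 1)) / (1 - q)) := by
    rw [show 3 * (d * J + l) + 1 = d * (3 * J) + (3 * l + 1) by ring, div_eq_inv_mul, div_eq_inv_mul]
    exact (f_shift' d _ _).mul_left (Un_one_e hd1).2.1
  have h4 := h3.mul h2 (div_mem' (one_sub_mem _ _) (Un_one_e hd1)) ((Loc _).mul_mem ((Loc _).pow_mem m1 3) ((Loc _).mul_mem (rat_mem _ _) (yy_mem hd1 l)))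
  rw [tB, tB]
  convert h4 using 1
  push_cast
  ring

/-! ### antisymmetry of the first sum -/

lemma rr_succ (l : ℕ) : rr 1 (l + 1) = rr 1 l * ((1 - q ^ (2 * l + 1)) / (1 - q ^ (2 * l + 2))) := by
  rw [rr_eq, rr_eq, prod_range_succ]

lemma rr_mid (hd : d = 2 * h + 1) (hd1 : 1 < d) : Eqm (cyclotomic d ℚ) 1 (rr 1 h ^ 4) q := by
  have hd0 : 0 < d := by omega
  have hh : 0 < h := by omega
  set f : ℕ → RatFunc ℚ := fun m => 1 - q ^ m with hf
  have hU : ∀ i < h, Un (cyclotomic d ℚ) (f (2 * i + 2)) := fun i hi => Un_e (nd_even hd hi)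
  have h1 : rr 1 h ^ 4 = (∏ i ∈ range h, f (2 * i + 1) ^ 4) * (∏ i ∈ range h, f (2 * i + 2) ^ 4)⁻¹ := by
    rw [rr_eq, prod_div_distrib, div_pow, div_eq_mul_inv, prod_pow, prod_pow]
  have h2 : Eqm (cyclotomic d ℚ) 1 (∏ i ∈ range h, f (2 * i + 1) ^ 4) (∏ i ∈ range h, (q ^ (4 * (d - (2 * i + 2))) * f (2 * i + 2) ^ 4)) := by
    rw [← prod_range_reflect]
    apply Eqm.prod
    · intro i hi
      have hi' := mem_range.1 hi
      have e1 : 2 * (h - 1 - i) + 1 = d - (2 * i + 2) := by omega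
      rw [e1]
      have hm : 2 * i + 2 ≤ d := by omega
      have r1 := (refl_one hm 1 (Loc _).one_mem).1
      rw [one_mul] at r1
      have m1 := (Loc (cyclotomic d ℚ)).mul_mem ((Loc (cyclotomic d ℚ)).neg_mem ((Loc (cyclotomic d ℚ)).pow_mem (q_mem _) (d - (2 * i + 2)))) (one_sub_mem (cyclotomic d ℚ) (2 * i + 2))
      have t3 := r1.pow m1 4
      convert t3 using 1
      simp only [hf]
      rw [show 4 * (d - (2 * i + 2)) = (d - (2 * i + 2)) * 4 by ring, pow_mul]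
      ring
    · intro i hi
      exact (Loc _).mul_mem ((Loc _).pow_mem (q_mem _) _) ((Loc _).pow_mem (hU i (mem_range.1 hi)).1 4)
  have h2e : ∏ i ∈ range h, (q ^ (4 * (d - (2 * i + 2))) * f (2 * i + 2) ^ 4) =
      q ^ (∑ i ∈ range h, 4 * (d - (2 * i + 2))) * ∏ i ∈ range h, f (2 * i + 2) ^ 4 := by
    rw [prod_mul_distrib, prod_q]
  rw [h2e] at h2
  have h3 : ∑ i ∈ range h, 4 * (d - (2 * i + 2)) = d * (2 * h - 1) + 1 := by
    have : ∀ m ≤ h, ∑ i ∈ range m, 4 * (d - (2 * i + 2)) = 4 * m * (d - m - 1) := by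
      intro m hm
      induction m with
      | zero => simp
      | succ m ih =>
        rw [sum_range_succ, ih (by omega)]
        obtain ⟨t, ht⟩ : ∃ t, d = 2 * m + 2 + t := ⟨d - (2 * m + 2), by omega⟩
        rw [show d - m - 1 = m + 1 + t by omega, show d - (2 * m + 2) = t by omega, show d - (m + 1) - 1 = m + t by omega]
        ring
    rw [this h le_rfl]
    obtain ⟨t, rfl⟩ : ∃ t, h = t + 1 := ⟨h - 1, by omega⟩
    rw [hd, show 2 * (t + 1) + 1 - (t + 1) - 1 = t + 1 by omega, show 2 * (t + 1) - 1 = 2 * t + 1 by omega]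
    ring
  rw [h3] at h2
  have hUp := Un.prod (P := cyclotomic d ℚ) (s := range h) (f := fun i => f (2 * i + 2) ^ 4) (fun i hi => (hU i (mem_range.1 hi)).pow 4)
  have h4 : Eqm (cyclotomic d ℚ) 1 (q ^ (d * (2 * h - 1) + 1)) q := by
    have := (q_mult d (2 * h - 1)).mul (Eqm.refl q) (Loc _).one_mem (q_mem _)
    rwa [one_mul, ← pow_succ] at this
  have h5 := h2.mul_left hUp.2.1
  rw [h1, mul_comm]
  refine h5.trans ?_
  have e2 : (∏ i ∈ range h, f (2 * i + 2) ^ 4)⁻¹ * (q ^ (d * (2 * h - 1) + 1) * ∏ i ∈ range h, f (2 * i + 2) ^ 4) = q ^ (d * (2 * h - 1) + 1) := by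
    have := hUp.2.2
    field_simp
  rw [e2]
  exact h4

lemma rr_reflect (hd : d = 2 * h + 1) (hd1 : 1 < d) {l : ℕ} (hl : l ≤ h) :
    Eqm (cyclotomic d ℚ) 1 (rr 1 (h - l) ^ 4) (q ^ (4 * l + 1) * rr 1 l ^ 4) := by
  induction l with
  | zero =>
    have := rr_mid hd hd1
    simpa [rr] using this
  | succ l ih =>
    have ih' := ih (by omega)
    have e1 : rr 1 (h - l) = rr 1 (h - (l + 1)) * ((1 - q ^ (2 * (h - (l + 1)) + 1)) / (1 - q ^ (2 * (h - (l + 1)) + 2))) := by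
      rw [← rr_succ]; congr 1; omega
    have e2 : rr 1 (h - (l + 1)) = rr 1 (h - l) * ((1 - q ^ (2 * (h - (l + 1)) + 2)) * (1 - q ^ (2 * (h - (l + 1)) + 1))⁻¹) := by
      rw [e1]
      have n1 : (1 : RatFunc ℚ) - q ^ (2 * (h - (l + 1)) + 1) ≠ 0 := hq1 _
      have n2 : (1 : RatFunc ℚ) - q ^ (2 * (h - (l + 1)) + 2) ≠ 0 := hq1 (2 * (h - (l + 1)) + 1)
      generalize (1 : RatFunc ℚ) - q ^ (2 * (h - (l + 1)) + 1) = x at *
      generalize (1 : RatFunc ℚ) - q ^ (2 * (h - (l + 1)) + 2) = y at *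
      field_simp
    have a1 : 2 * (h - (l + 1)) + 2 = d - (2 * l + 1) := by omega
    have a2 : 2 * (h - (l + 1)) + 1 = d - (2 * l + 2) := by omega
    rw [a1, a2] at e2
    have r1 := (refl_one (n := d) (m := 2 * l + 1) (by omega) 1 (Loc _).one_mem).1
    have r2 := (refl_one (n := d) (m := 2 * l + 2) (by omega) 1 (Loc _).one_mem).1
    rw [one_mul] at r1 r2
    have u1 := Un_e (nd_odd hd (show l < h by omega))
    have u2 := Un_e (nd_even hd (show l < h by omega))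
    have uq1 := ((Un_q hd1).pow (d - (2 * l + 1))).neg
    have uq2 := ((Un_q hd1).pow (d - (2 * l + 2))).neg
    have u3 : Un (cyclotomic d ℚ) (1 - q ^ (d - (2 * l + 2))) := by
      apply Un_e
      intro hh
      have := Nat.le_of_dvd (by omega) hh; omega
    have r3 := Eqm.inv_of r2 u3.2.1 (uq2.mul u2).2.1 u3.2.2 (uq2.mul u2).2.2
    have r4 := r1.mul r3 (uq1.mul u1).1 (uq2.mul u2).2.1
    have e3 : -q ^ (d - (2 * l + 1)) * (1 - q ^ (2 * l + 1)) * (-q ^ (d - (2 * l + 2)) * (1 - q ^ (2 * l + 2)))⁻¹ =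
        q * ((1 - q ^ (2 * l + 1)) / (1 - q ^ (2 * l + 2))) := by
      have b1 : (q : RatFunc ℚ) ^ (d - (2 * l + 1)) = q * q ^ (d - (2 * l + 2)) := by
        rw [← pow_succ']; congr 1; omega
      rw [b1]
      have n1 := ((Un_q hd1).pow (d - (2 * l + 2))).2.2
      have n2 := u2.2.2
      generalize (q : RatFunc ℚ) ^ (d - (2 * l + 2)) = w at *
      generalize (1 : RatFunc ℚ) - q ^ (2 * l + 2) = y at *
      field_simp
    rw [e3] at r4
    have m1 : q * ((1 - q ^ (2 * l + 1)) / (1 - q ^ (2 * l + 2))) ∈ Loc (cyclotomic d ℚ) :=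
      (Loc _).mul_mem (q_mem _) (div_mem' u1.1 u2)
    have r5 := r4.pow m1 4
    have m2 : q ^ (4 * l + 1) * rr 1 l ^ 4 ∈ Loc (cyclotomic d ℚ) := (Loc _).mul_mem ((Loc _).pow_mem (q_mem _) _) ((Loc _).pow_mem (rr1_mem hd l) 4)
    have r6 := ih'.mul r5 m2 ((Loc _).pow_mem m1 4)
    rw [e2, mul_pow, rr_succ]
    convert r6 using 1
    ring

/-- `A_d ≡ 0` -/
lemma A_zero (hd : d = 2 * h + 1) (hd1 : 1 < d) : QO (cyclotomic d ℚ) 1 (∑ l ∈ range (h + 1), tA l) := by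
  have key : ∀ l ∈ range (h + 1), QO (cyclotomic d ℚ) 1 (tA (h - l) + tA l) := by
    intro l hl
    have hl' : l ≤ h := by have := mem_range.1 hl; omega
    have h1 := rr_reflect hd hd1 hl'
    have h2 : Eqm (cyclotomic d ℚ) 1 (1 - q ^ (4 * (h - l) + 1)) (-(q ^ (4 * l + 1))⁻¹ * (1 - q ^ (4 * l + 1))) := by
      have u1 := (Un_q hd1).pow (4 * l + 1)
      have h3 : Eqm (cyclotomic d ℚ) 1 (q ^ (4 * (h - l) + 1) * q ^ (4 * l + 1)) 1 := by
        rw [← pow_add, show 4 * (h - l) + 1 + (4 * l + 1) = d * 2 by omega]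
        exact q_mult d 2
      have h4 := (h3.mul_left u1.2.1).neg
      unfold Eqm at *
      have := u1.2.2
      convert h4 using 1
      field_simp
      ring
    have m1 : -(q ^ (4 * l + 1))⁻¹ * (1 - q ^ (4 * l + 1)) ∈ Loc (cyclotomic d ℚ) :=
      (Loc _).mul_mem ((Loc _).neg_mem ((Un_q hd1).pow _).2.1) (one_sub_mem _ _)
    have m2 : q ^ (4 * l + 1) * rr 1 l ^ 4 ∈ Loc (cyclotomic d ℚ) := (Loc _).mul_mem ((Loc _).pow_mem (q_mem _) _) ((Loc _).pow_mem (rr1_mem hd l) 4)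
    have h5 := (h2.mul h1 m1 m2).mul_left (Un_one_e hd1).2.1
    have h6 : Eqm (cyclotomic d ℚ) 1 (tA (h - l)) (-tA l) := by
      rw [tA, tA]
      convert h5 using 1
      · ring
      · have := ((Un_q hd1).pow (4 * l + 1)).2.2
        field_simp
    unfold Eqm at h6
    rwa [sub_neg_eq_add] at h6
  have h2 : QO (cyclotomic d ℚ) 1 ((∑ l ∈ range (h + 1), tA l) + ∑ l ∈ range (h + 1), tA l) := by
    have := QO.sum key
    rw [sum_add_distrib] at this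
    have e : ∑ l ∈ range (h + 1), tA (h - l) = ∑ l ∈ range (h + 1), tA l := by
      have := sum_range_reflect (fun l => tA l) (h + 1)
      simp only [show h + 1 - 1 = h by omega] at this
      exact this
    rwa [e] at this
  exact half_QO h2

lemma A_full (hd : d = 2 * h + 1) (hd1 : 1 < d) : QO (cyclotomic d ℚ) 1 (∑ l ∈ range d, tA l) := by
  rw [← sum_range_add_sum_Ico _ (show h + 1 ≤ d by omega)]
  refine (A_zero hd hd1).add (QO.sum (fun l hl => ?_))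
  rw [mem_Ico] at hl
  have h1 := rr_beyond hd hl.2 (by omega)
  have h2 : QO (cyclotomic d ℚ) 1 (rr 1 l ^ 4) := by
    rw [pow_succ]; exact QO.mul_left ((Loc _).pow_mem (rr1_mem hd l) 3) h1
  exact QO.mul_left (div_mem' (one_sub_mem _ _) (Un_one_e hd1)) h2

lemma B_full (hd : d = 2 * h + 1) (hd1 : 1 < d) : QO (cyclotomic d ℚ) 1 (∑ l ∈ range d, tB l) := by
  have h1 := (Dl_five hd (by omega)).le (show 1 ≤ 5 by norm_num)
  rw [Dl_one] at h1
  have h2 := (A_zero hd hd1).sub h1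
  rwa [sub_sub_cancel] at h2

/-- modulo `Φ_d` for every divisor `d > 1` of `n` -/
theorem Dl_all (hn : n = 2 * s + 1) (hdn : d ∣ n) (hd1 : 1 < d) : QO (cyclotomic d ℚ) 1 (Dl s n 1 1) := by
  obtain ⟨h, hd⟩ := odd_dvd hn hdn
  obtain ⟨N, hN⟩ := hdn
  obtain ⟨J0, hJ0⟩ : ∃ J0, N = 2 * J0 + 1 := by
    obtain ⟨J0, hJ⟩ := odd_dvd hn (show N ∣ n from ⟨d, by rw [hN]; ring⟩)
    exact ⟨J0, hJ⟩
  have hs : s + 1 = d * J0 + (h + 1) := by
    have e1 : d * N = 2 * (d * J0) + d := by rw [hJ0]; ring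
    omega
  rw [Dl_one]
  apply QO.sub
  · rw [hs, sum_range_add, sum_range_blocks]
    apply QO.add
    · apply QO.sum
      intro J _
      have h1 : Eqm (cyclotomic d ℚ) 1 (∑ l ∈ range d, tA (d * J + l)) (∑ l ∈ range d, (((ww J ^ 4 : ℚ) : RatFunc ℚ) * tA l)) :=
        Eqm.sum (fun l hl => tA_block hd hd1 J (mem_range.1 hl))
      rw [← mul_sum] at h1
      have h2 := QO.mul_left (rat_mem (cyclotomic d ℚ) (ww J ^ 4)) (A_full hd hd1)
      have := QO.add h1 h2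
      rwa [sub_add_cancel] at this
    · have h1 : Eqm (cyclotomic d ℚ) 1 (∑ l ∈ range (h + 1), tA (d * J0 + l)) (∑ l ∈ range (h + 1), (((ww J0 ^ 4 : ℚ) : RatFunc ℚ) * tA l)) :=
        Eqm.sum (fun l hl => tA_block hd hd1 J0 (by have := mem_range.1 hl; omega))
      rw [← mul_sum] at h1
      have h2 := QO.mul_left (rat_mem (cyclotomic d ℚ) (ww J0 ^ 4)) (A_zero hd hd1)
      have := QO.add h1 h2
      rwa [sub_add_cancel] at this
  · rw [hN, sum_range_blocks]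
    apply QO.sum
    intro J _
    have h1 : Eqm (cyclotomic d ℚ) 1 (∑ l ∈ range d, tB (d * J + l)) (∑ l ∈ range d, (((ww J ^ 3 * 4 ^ J : ℚ) : RatFunc ℚ) * tB l)) :=
      Eqm.sum (fun l hl => tB_block hd hd1 J (mem_range.1 hl))
    rw [← mul_sum] at h1
    have h2 := QO.mul_left (rat_mem (cyclotomic d ℚ) (ww J ^ 3 * 4 ^ J)) (B_full hd hd1)
    have := QO.add h1 h2
    rwa [sub_add_cancel] at this

end

end Pool.Agent.X14.PA
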