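import Pool.Agent.X14.PB1

set_option autoImplicit false

/-! Passing to `q = 1`. -/

namespace Pool.Agent.X14.PA

open Finset Polynomial Pool.Agent.X14.QL Pool.Agent.X14.QBlock Pool.Agent.X14.QR

noncomputable section

def bz (m : ℕ) : ℤ[X] := ∑ i ∈ range m, X ^ i
def fz (m : ℕ) : ℤ[X] := ∏ i ∈ range m, bz (i + 1)

lemma bz_add (n k : ℕ) : bz (n + k) = bz n + X ^ n * bz k := by
  rw [bz, sum_range_add, bz, bz, mul_sum]
  congr 1
  exact sum_congr rfl (fun i _ => by rw [pow_add])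

/-- Gaussian binomial coefficients are polynomials -/
lemma gz_exists (N : ℕ) : ∀ n k : ℕ, n + k = N → ∃ g : ℤ[X], g * (fz n * fz k) = fz (n + k) := by
  induction N with
  | zero =>
    intro n k h
    obtain ⟨rfl, rfl⟩ : n = 0 ∧ k = 0 := by omega
    exact ⟨1, by simp [fz]⟩
  | succ N ih =>
    intro n k h
    rcases Nat.eq_zero_or_pos n with hn | hn
    · subst hn
      exact ⟨1, by simp [fz]⟩
    rcases Nat.eq_zero_or_pos k with hk | hk
    · subst hk
      exact ⟨1, by simp [fz]⟩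
    obtain ⟨n, rfl⟩ : ∃ n', n = n' + 1 := ⟨n - 1, by omega⟩
    obtain ⟨k, rfl⟩ : ∃ k', k = k' + 1 := ⟨k - 1, by omega⟩
    obtain ⟨g1, h1⟩ := ih n (k + 1) (by omega)
    obtain ⟨g2, h2⟩ := ih (n + 1) k (by omega)
    refine ⟨g1 + X ^ (n + 1) * g2, ?_⟩
    have e1 : fz (n + 1 + (k + 1)) = fz (n + (k + 1)) * bz (n + 1 + (k + 1)) := by
      rw [show n + 1 + (k + 1) = n + (k + 1) + 1 by ring, fz, prod_range_succ, ← fz]
    have e2 : fz (n + 1) = fz n * bz (n + 1) := by rw [fz, prod_range_succ, ← fz]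
    have e3 : fz (k + 1) = fz k * bz (k + 1) := by rw [fz, prod_range_succ, ← fz]
    have e4 : fz (n + (k + 1)) = fz (n + 1 + k) := by congr 1; ring
    rw [e1, bz_add (n + 1) (k + 1), mul_add]
    nth_rewrite 2 [e4]
    rw [← h1, ← h2]
    rw [e3, e2]
    ring

/-- the evaluation of integer polynomials at `q` -/
def az : ℤ[X] →+* RatFunc ℚ := al.comp (mapRingHom (Int.castRingHom ℚ))

lemma az_X : az X = q := by simp [az, q_eq]

lemma az_mem (P : ℚ[X]) (x : ℤ[X]) : az x ∈ Loc P := al_mem P _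

lemma az_bz (m : ℕ) : az (bz m) = (1 - q ^ m) / (1 - q) := by
  have h1 : (1 : RatFunc ℚ) - q ≠ 0 := by simpa using hq1 0
  rw [bz, map_sum]
  simp only [map_pow, az_X]
  rw [geom_sum_eq (fun h => h1 (by rw [h]; ring)), ← neg_sub, ← neg_sub (1 : RatFunc ℚ) q, neg_div_neg_eq]

def adz (j : ℕ) : ℤ[X] := ∏ i ∈ range j, (1 + X ^ (i + 1))
def adc (j n : ℕ) : ℤ[X] := ∏ i ∈ Ico j n, (1 + X ^ (i + 1))
def xz (j : ℕ) : ℤ[X] := ∏ i ∈ range j, X ^ (i + 1)
def xc (j n : ℕ) : ℤ[X] := ∏ i ∈ Ico j n, X ^ (i + 1)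

lemma az_adz (j : ℕ) : az (adz j) = ∏ i ∈ range j, (1 + q ^ (i + 1)) := by
  rw [adz, map_prod]
  exact prod_congr rfl (fun i _ => by rw [map_add, map_one, map_pow, az_X])

lemma az_xz (j : ℕ) : az (xz j) = ∏ i ∈ range j, q ^ (i + 1) := by
  rw [xz, map_prod]
  exact prod_congr rfl (fun i _ => by rw [map_pow, az_X])

/-- a chosen Gaussian binomial coefficient -/
def gz (j : ℕ) : ℤ[X] := Classical.choose (gz_exists (j + j) j j rfl)

lemma gz_spec (j : ℕ) : gz j * (fz j * fz j) = fz (j + j) := Classical.choose_spec (gz_exists (j + j) j j rfl)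

lemma az_gz (j : ℕ) : az (gz j) = rr 1 j * az (adz j) ^ 2 := by
  have h1 : (1 : RatFunc ℚ) - q ≠ 0 := by simpa using hq1 0
  have h2 := congrArg az (gz_spec j)
  have h3 : ∀ m, az (fz m) = ∏ i ∈ range m, ((1 - q ^ (i + 1)) / (1 - q)) := by
    intro m
    rw [fz, map_prod]
    exact prod_congr rfl (fun i _ => az_bz _)
  rw [map_mul, map_mul, h3, h3, ← two_mul, prod_two] at h2
  have h4 : rr 1 j * az (adz j) ^ 2 * ((∏ i ∈ range j, ((1 - q ^ (i + 1)) / (1 - q))) * ∏ i ∈ range j, ((1 - q ^ (i + 1)) / (1 - q))) =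
      ∏ i ∈ range j, ((1 - q ^ (2 * i + 1)) / (1 - q) * ((1 - q ^ (2 * i + 1 + 1)) / (1 - q))) := by
    rw [az_adz, rr_eq, ← prod_pow, ← prod_mul_distrib, ← prod_mul_distrib, ← prod_mul_distrib]
    apply prod_congr rfl
    intro i _
    have h5 : (1 : RatFunc ℚ) - q ^ (2 * i + 2) = (1 - q ^ (i + 1)) * (1 + q ^ (i + 1)) := by
      rw [show 2 * i + 2 = (i + 1) + (i + 1) by ring, pow_add]; ring
    have h6 : (1 : RatFunc ℚ) - q ^ (2 * i + 2) ≠ 0 := hq1 (2 * i + 1)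
    rw [show 2 * i + 1 + 1 = 2 * i + 2 by ring]
    have h7 : (1 - q ^ (i + 1) : RatFunc ℚ) ^ 2 * (1 + q ^ (i + 1)) ^ 2 = (1 - q ^ (2 * i + 2)) ^ 2 := by rw [h5]; ring
    clear h5
    generalize (1 : RatFunc ℚ) - q ^ (2 * i + 2) = x at *
    generalize (1 : RatFunc ℚ) - q ^ (2 * i + 1) = y at *
    generalize (1 : RatFunc ℚ) - q ^ (i + 1) = u at *
    generalize (1 : RatFunc ℚ) + q ^ (i + 1) = v at *
    generalize (1 : RatFunc ℚ) - q = w at *
    field_simp
    linear_combination y * h7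
  have h5 : (∏ i ∈ range j, ((1 - q ^ (i + 1)) / (1 - q))) * (∏ i ∈ range j, ((1 - q ^ (i + 1)) / (1 - q))) ≠ (0 : RatFunc ℚ) := by
    have : ∏ i ∈ range j, ((1 - q ^ (i + 1)) / (1 - q)) ≠ (0 : RatFunc ℚ) := prod_ne_zero_iff.2 (fun i _ => div_ne_zero (hq1 i) h1)
    exact mul_ne_zero this this
  exact mul_right_cancel₀ h5 (h2.trans h4.symm)

/-- the integral numerator -/
def PP (s n : ℕ) : ℤ[X] := (∑ j ∈ range (s + 1), bz (4 * j + 1) * gz j ^ 4 * adc j n ^ 8 * xz n) -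
  ∑ j ∈ range n, bz (3 * j + 1) * gz j ^ 3 * adz j ^ 4 * adc j n ^ 8 * xc j n

lemma az_PP {n s : ℕ} (hn : n = 2 * s + 1) : az (PP s n) = az (adz n ^ 8 * xz n) * Dl s n 1 1 := by
  have had : ∀ j ≤ n, adz n = adz j * adc j n := fun j hj => (prod_range_mul_prod_Ico _ hj).symm
  have hx : ∀ j ≤ n, xz n = xz j * xc j n := fun j hj => (prod_range_mul_prod_Ico _ hj).symm
  rw [Dl_one, PP, map_sub, map_sum, map_sum, mul_sub, mul_sum, mul_sum]
  congr 1
  · apply sum_congr rfl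
    intro j hj
    have hj' := mem_range.1 hj
    rw [had j (by omega), tA]
    simp only [map_mul, map_pow, az_bz, az_gz]
    ring
  · apply sum_congr rfl
    intro j hj
    have hj' := mem_range.1 hj
    rw [had j (by omega), hx j (by omega), tB]
    simp only [map_mul, map_pow, az_bz, az_gz]
    have hy : yy j = az (adz j) ^ 2 * (az (xz j))⁻¹ := by
      rw [yy, prod_mul_distrib, az_adz, az_xz, ← prod_pow, prod_inv_distrib]
    rw [hy]
    have hxn : az (xz j) ≠ 0 := by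
      rw [az_xz]; exact prod_ne_zero_iff.2 (fun i _ => pow_ne_zero _ q_ne)
    generalize az (xz j) = x at *
    field_simp

lemma map_cyc (m : ℕ) : (cyclotomic m ℤ).map (Int.castRingHom ℚ) = cyclotomic m ℚ := map_cyclotomic_int m ℚ

/-- divisibility in `ℤ[X]` -/
theorem PP_dvd {p r : ℕ} (hp : p.Prime) (hp2 : p ≠ 2) {n s : ℕ} (hn : n = 2 * s + 1) (hr : n = p ^ (r + 1)) :
    (∏ j ∈ range (r + 1), cyclotomic (p ^ (j + 1)) ℤ) * cyclotomic n ℤ ^ 4 ∣ PP s n := by
  have hmon : ((∏ j ∈ range (r + 1), cyclotomic (p ^ (j + 1)) ℤ) * cyclotomic n ℤ ^ 4).Monic :=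
    (monic_prod_of_monic _ _ (fun j _ => cyclotomic.monic _ _)).mul ((cyclotomic.monic _ _).pow _)
  rw [← map_dvd_map (Int.castRingHom ℚ) Int.cast_injective hmon]
  have hp1 := hp.one_lt
  have hs : 0 < s := by
    have : 1 < n := by rw [hr]; exact Nat.one_lt_pow (by omega) hp1
    omega
  have hinj : ∀ i j : ℕ, p ^ (i + 1) = p ^ (j + 1) → i = j := fun i j h => by
    have := Nat.pow_right_injective hp1 h; omega
  have e1 : ((∏ j ∈ range (r + 1), cyclotomic (p ^ (j + 1)) ℤ) * cyclotomic n ℤ ^ 4).map (Int.castRingHom ℚ) =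
      ∏ j ∈ range (r + 1), cyclotomic (p ^ (j + 1)) ℚ ^ (if j = r then 5 else 1) := by
    rw [Polynomial.map_mul, Polynomial.map_prod, Polynomial.map_pow, map_cyc, prod_range_succ, prod_range_succ (fun j => cyclotomic (p ^ (j + 1)) ℚ ^ (if j = r then 5 else 1)),
      if_pos rfl, map_cyc, ← hr]
    have : ∏ x ∈ range r, Polynomial.map (Int.castRingHom ℚ) (cyclotomic (p ^ (x + 1)) ℤ) =
        ∏ x ∈ range r, cyclotomic (p ^ (x + 1)) ℚ ^ (if x = r then 5 else 1) := by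
      apply prod_congr rfl
      intro j hj
      have hj' := mem_range.1 hj
      rw [map_cyc, if_neg (by omega), pow_one]
    rw [this]
    ring
  rw [e1]
  apply Finset.prod_dvd_of_coprime
  · intro i _ j _ hij
    exact (cyclotomic.isCoprime_rat (fun h => hij (hinj i j h))).pow
  · intro j hj
    have hj' := mem_range.1 hj
    apply dvd_of_QO
    have e2 : al ((PP s n).map (Int.castRingHom ℚ)) = az (PP s n) := rfl
    rw [e2, az_PP hn]
    apply QO.mul_left (az_mem _ _)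
    by_cases hjr : j = r
    · rw [if_pos hjr, hjr, ← hr]
      exact Dl_five hn hs
    · rw [if_neg hjr]
      apply Dl_all hn
      · rw [hr]; exact pow_dvd_pow p (by omega)
      · exact Nat.one_lt_pow (by omega) hp1

lemma eval_bz (m : ℕ) : eval 1 (bz m) = m := by simp [bz, eval_finset_sum]

lemma eval_fz (m : ℕ) : eval 1 (fz m) = (m.factorial : ℤ) := by
  rw [fz, eval_prod]
  induction m with
  | zero => simp
  | succ m ih => rw [prod_range_succ, ih, eval_bz, Nat.factorial_succ]; push_cast; ring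

lemma eval_gz (j : ℕ) : eval 1 (gz j) = (j.centralBinom : ℤ) := by
  have h := congrArg (eval 1) (gz_spec j)
  rw [eval_mul, eval_mul, eval_fz, eval_fz] at h
  have h2 : (j.centralBinom : ℤ) * ((j.factorial : ℤ) * j.factorial) = ((j + j).factorial : ℤ) := by
    have := Nat.choose_mul_factorial_mul_factorial (show j ≤ 2 * j by omega)
    rw [show 2 * j - j = j by omega] at this
    rw [Nat.centralBinom, ← two_mul]
    exact_mod_cast (by rw [← this]; ring)
  have h3 : ((j.factorial : ℤ) * j.factorial) ≠ 0 := by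
    have := Nat.factorial_ne_zero j
    exact_mod_cast mul_ne_zero this this
  exact mul_right_cancel₀ h3 (h.trans h2.symm)

lemma eval_ad (j n : ℕ) : eval 1 (adc j n) = 2 ^ (n - j) := by
  rw [adc, eval_prod]
  simp only [eval_add, eval_one, eval_pow, eval_X, one_pow, prod_const, Nat.card_Ico]
  norm_num

lemma eval_adz (j : ℕ) : eval 1 (adz j) = 2 ^ j := by
  rw [adz, eval_prod]
  simp only [eval_add, eval_one, eval_pow, eval_X, one_pow, prod_const, card_range]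
  norm_num

lemma eval_xz (j : ℕ) : eval 1 (xz j) = 1 := by simp [xz, eval_prod]
lemma eval_xc (j n : ℕ) : eval 1 (xc j n) = 1 := by simp [xc, eval_prod]

lemma eval_PP {n s : ℕ} (hn : n = 2 * s + 1) : ((eval 1 (PP s n) : ℤ) : ℚ) = (2 : ℚ) ^ (8 * n) *
    ((∑ j ∈ range (s + 1), (4 * (j : ℚ) + 1) * ((j.centralBinom : ℚ) / 4 ^ j) ^ 4) -
      ∑ j ∈ range n, (3 * (j : ℚ) + 1) * ((j.centralBinom : ℚ) / 4 ^ j) ^ 3 * 2 ^ (2 * j)) := by
  rw [PP, eval_sub, eval_finset_sum, eval_finset_sum, mul_sub, mul_sum, mul_sum]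
  simp only [eval_mul, eval_pow, eval_bz, eval_gz, eval_ad, eval_adz, eval_xz, eval_xc, mul_one]
  push_cast
  congr 1
  · apply sum_congr rfl
    intro j hj
    have hj' := mem_range.1 hj
    obtain ⟨t, ht⟩ : ∃ t, n = j + t := ⟨n - j, by omega⟩
    rw [ht, show j + t - j = t by omega, div_pow, show 8 * (j + t) = 8 * j + 8 * t by ring, pow_add]
    have h4 : ((4 : ℚ) ^ j) ^ 4 = 2 ^ (8 * j) := by rw [show (4 : ℚ) = 2 ^ 2 by norm_num, ← pow_mul, ← pow_mul]; congr 1; ring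
    rw [h4]
    have : (2 : ℚ) ^ (8 * j) ≠ 0 := by positivity
    field_simp
    ring
  · apply sum_congr rfl
    intro j hj
    have hj' := mem_range.1 hj
    obtain ⟨t, ht⟩ : ∃ t, n = j + t := ⟨n - j, by omega⟩
    rw [ht, show j + t - j = t by omega, div_pow, show 8 * (j + t) = 4 * j + (4 * j + 8 * t) by ring, pow_add, pow_add]
    have h4 : ((4 : ℚ) ^ j) ^ 3 = 2 ^ (2 * j) * 2 ^ (4 * j) := by rw [show (4 : ℚ) = 2 ^ 2 by norm_num, ← pow_mul, ← pow_mul, ← pow_add]; congr 1; ring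
    rw [h4]
    have h5 : (2 : ℚ) ^ (4 * j) ≠ 0 := by positivity
    have h6 : (2 : ℚ) ^ (2 * j) ≠ 0 := by positivity
    field_simp
    ring

/-- the congruence -/
theorem main_padic {p r : ℕ} (hp : p.Prime) (hp2 : p ≠ 2) {n s : ℕ} (hn : n = 2 * s + 1) (hr : n = p ^ (r + 1)) :
    ∃ z : ℤ, (∑ j ∈ range (s + 1), (4 * (j : ℚ) + 1) * ((j.centralBinom : ℚ) / 4 ^ j) ^ 4) -
      (∑ j ∈ range n, (3 * (j : ℚ) + 1) * ((j.centralBinom : ℚ) / 4 ^ j) ^ 3 * 2 ^ (2 * j)) = (p : ℚ) ^ (r + 5) * (z / 2 ^ (8 * n)) := by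
  haveI : Fact p.Prime := ⟨hp⟩
  obtain ⟨c, hc⟩ := PP_dvd hp hp2 hn hr
  have h1 := congrArg (eval 1) hc
  rw [eval_mul, eval_mul, eval_prod, eval_pow] at h1
  simp only [eval_one_cyclotomic_prime_pow] at h1
  rw [hr, eval_one_cyclotomic_prime_pow, prod_const, card_range, ← hr] at h1
  have h2 := eval_PP hn
  rw [h1] at h2
  have h3 : (2 : ℚ) ^ (8 * n) ≠ 0 := by positivity
  refine ⟨eval 1 c, ?_⟩
  push_cast at h2
  rw [← mul_div_assoc, eq_div_iff h3]
  linear_combination -h2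

end

end Pool.Agent.X14.PA
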