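import Mathlib
import Pool.Agent.H434R2.ElevenD

set_option autoImplicit false

/-! A closed form for `Σ_{k<N} (3k+1) C(2k,k)^3 / 16^k`, `N` odd. -/

namespace Pool.Agent.X14.PC

open Finset Pool.Agent.H434R2

noncomputable section

def t (n : ℕ) : ℚ := (n.centralBinom : ℚ) ^ 3 / 16 ^ n

lemma t_succ (n : ℕ) : t (n + 1) * (2 * ((n : ℚ) + 1) ^ 3) = t n * (2 * n + 1) ^ 3 := by
  have h2 := Nat.succ_mul_centralBinom_succ n
  have h3 : ((n : ℚ) + 1) * ((n + 1).centralBinom : ℚ) = 2 * (2 * n + 1) * (n.centralBinom : ℚ) := by exact_mod_cast h2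
  have h4 : (((n : ℚ) + 1) * ((n + 1).centralBinom : ℚ)) ^ 3 = (2 * (2 * n + 1) * (n.centralBinom : ℚ)) ^ 3 := by rw [h3]
  unfold t
  rw [pow_succ (16 : ℚ) n]
  have : (16 : ℚ) ^ n ≠ 0 := by positivity
  field_simp
  linear_combination 2 * h4

def rho (n i : ℕ) : ℚ := -((2 * n + 2 * i + 1) * (n - 2 * i) * (n - 2 * i - 1)) / ((2 * n - 2 * i - 1) * (n + 2 * i + 1) * (n + 2 * i + 2))

def h (n j : ℕ) : ℚ := t n * ∏ i ∈ range j, rho n i

lemma h_succ (n j : ℕ) : h n (j + 1) = h n j * rho n j := by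
  rw [h, prod_range_succ, ← mul_assoc, ← h]

lemma odd_ne (a b : ℤ) : (2 * (a : ℚ) - 2 * b - 1) ≠ 0 := by
  intro hh
  have : (2 * a - 2 * b - 1 : ℤ) = 0 := by exact_mod_cast hh
  omega

lemma d1 (n j : ℕ) : (2 * (n : ℚ) - 2 * j - 1) ≠ 0 := by simpa using odd_ne n j
lemma d2 (n j : ℕ) : (2 * (n : ℚ) - 2 * j + 1) ≠ 0 := by
  have := odd_ne (n + 1) j
  push_cast at this
  intro hh; apply this; linear_combination hh
lemma d1' (n j : ℕ) : (2 * ((n : ℚ) - j) - 1) ≠ 0 := by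
  have := d1 n j
  intro hh; apply this; linear_combination hh
lemma d2' (n j : ℕ) : (2 * ((n : ℚ) - j) + 1) ≠ 0 := by
  have := d2 n j
  intro hh; apply this; linear_combination hh
lemma d3 (n j : ℕ) : ((n : ℚ) + 2 * j + 1) ≠ 0 := by positivity
lemma d4 (n j : ℕ) : ((n : ℚ) + 2 * j + 2) ≠ 0 := by positivity
lemma d5 (n j : ℕ) : ((n : ℚ) + 2 * j + 3) ≠ 0 := by positivity

lemma h_shift (n j : ℕ) : ((n : ℚ) + 1 - 2 * j) * h (n + 1) j * (2 * (n + 1) * (n + 2 * j + 1)) =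
    h n j * ((2 * n + 1) * (2 * n + 2 * j + 1) * (2 * n - 2 * j + 1)) := by
  induction j with
  | zero =>
    simp only [h, prod_range_zero, mul_one, Nat.cast_zero, mul_zero, sub_zero, add_zero]
    have := t_succ n
    have h1 : ((n : ℚ) + 1) ≠ 0 := by positivity
    linear_combination this
  | succ j ih =>
    rw [h_succ, h_succ]
    have e1 := d1 n j
    have e2 := d2 n j
    have e1' := d1' n j
    have e2' := d2' n j
    have e3 := d3 n j
    have e4 := d4 n j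
    have e5 := d5 n j
    have r1 : rho (n + 1) j = -((2 * n + 2 * j + 3) * (n + 1 - 2 * j) * (n - 2 * j)) / ((2 * n - 2 * j + 1) * (n + 2 * j + 2) * (n + 2 * j + 3)) := by
      rw [rho]; push_cast; congr 1 <;> ring
    have e6 : ((n : ℚ) + 1) ≠ 0 := by positivity
    have ih2 : ((n : ℚ) + 1 - 2 * j) * h (n + 1) j = h n j * ((2 * n + 1) * (2 * n + 2 * j + 1) * (2 * n - 2 * j + 1)) / (2 * (n + 1) * (n + 2 * j + 1)) := by
      rw [eq_div_iff (by positivity)]; exact ih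
    rw [r1, rho]
    push_cast
    have e7 : ((n : ℚ) + 1 - 2 * (j + 1)) * (h (n + 1) j * (-((2 * n + 2 * j + 3) * (n + 1 - 2 * j) * (n - 2 * j)) / ((2 * n - 2 * j + 1) * (n + 2 * j + 2) * (n + 2 * j + 3)))) * (2 * (n + 1) * (n + 2 * (j + 1) + 1))
      = (((n : ℚ) + 1 - 2 * j) * h (n + 1) j) * (((n : ℚ) - 1 - 2 * j) * (-((2 * n + 2 * j + 3) * (n - 2 * j)) / ((2 * n - 2 * j + 1) * (n + 2 * j + 2) * (n + 2 * j + 3))) * (2 * (n + 1) * (n + 2 * j + 3))) := by
      ring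
    rw [e7, ih2]
    generalize h n j = H
    rw [show (n : ℚ) + 2 * (↑j + 1) + 1 = n + 2 * j + 3 by ring] at *
    field_simp
    ring

def G (n j : ℕ) : ℚ := 4 * n ^ 2 * (n - 2 * j) / ((2 * n - 2 * j - 1) * (n + 2 * j + 1)) * h n j

lemma wz (n j : ℕ) : (3 * (n : ℚ) + 1) * h n j - (3 * n + 1) * h n (j + 1) = G (n + 1) j - G n j := by
  have e1 := d1 n j
  have e2 := d2 n j
  have e1' := d1' n j
  have e2' := d2' n j
  have e3 := d3 n j
  have e4 := d4 n j
  have e6 : ((n : ℚ) + 1) ≠ 0 := by positivity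
  have hs := h_shift n j
  have g1 : G (n + 1) j = h n j * (2 * (n + 1) * (2 * n + 1) * (2 * n + 2 * j + 1)) / ((n + 2 * j + 1) * (n + 2 * j + 2)) := by
    rw [G]
    push_cast
    rw [show 2 * ((n : ℚ) + 1) - 2 * j - 1 = 2 * n - 2 * j + 1 by ring, show (n : ℚ) + 1 + 2 * j + 1 = n + 2 * j + 2 by ring]
    rw [eq_div_iff (mul_ne_zero e3 e4)]
    generalize h (n + 1) j = H1 at *
    generalize h n j = H at *
    have e8 : 4 * ((n : ℚ) + 1) ^ 2 * (n + 1 - 2 * j) / ((2 * n - 2 * j + 1) * (n + 2 * j + 2)) * H1 * ((n + 2 * j + 1) * (n + 2 * j + 2))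
      = 2 * (n + 1) * (((n : ℚ) + 1 - 2 * j) * H1 * (2 * (n + 1) * (n + 2 * j + 1))) / (2 * n - 2 * j + 1) := by
      field_simp
      ring
    rw [e8, hs]
    field_simp
  rw [h_succ, g1, G, rho]
  generalize h n j = H
  field_simp
  ring

lemma h_zero {n j : ℕ} (hj : n < 2 * j) : h n j = 0 := by
  rw [h]
  have : ∏ i ∈ range j, rho n i = 0 := by
    apply prod_eq_zero (mem_range.2 (show n / 2 < j by omega))
    rw [rho]
    rcases Nat.even_or_odd' n with ⟨c, hc | hc⟩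
    · have : n / 2 = c := by omega
      rw [this, hc]; push_cast; ring
    · have : n / 2 = c := by omega
      rw [this, hc]; push_cast; ring
  rw [this, mul_zero]

lemma sum_G (n : ℕ) : ∑ k ∈ range (2 * n + 1), (3 * (k : ℚ) + 1) * t k = ∑ j ∈ range (n + 1), G (2 * n + 1) j := by
  have h1 : ∀ j, ∑ k ∈ range (2 * n + 1), ((3 * (k : ℚ) + 1) * h k j - (3 * k + 1) * h k (j + 1)) = G (2 * n + 1) j := by
    intro j
    rw [sum_congr rfl (fun k _ => wz k j), sum_range_sub (fun k => G k j)]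
    have : G 0 j = 0 := by rw [G]; simp
    rw [this, sub_zero]
  have h2 : ∑ j ∈ range (n + 1), ∑ k ∈ range (2 * n + 1), ((3 * (k : ℚ) + 1) * h k j - (3 * k + 1) * h k (j + 1)) =
      ∑ k ∈ range (2 * n + 1), (3 * (k : ℚ) + 1) * t k := by
    rw [sum_comm]
    apply sum_congr rfl
    intro k hk
    have hk' := mem_range.1 hk
    rw [sum_range_sub' (fun j => (3 * (k : ℚ) + 1) * h k j), h_zero (show k < 2 * (n + 1) by omega)]
    simp [h]
  rw [← h2]
  exact sum_congr rfl (fun j _ => h1 j)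

/-- the prefactor -/
def Pf (n : ℕ) : ℚ := ∏ i ∈ range (2 * n), (1 - vv n i ^ 2 / 4)

/-- the closed form of the other terms -/
def CF (n k : ℕ) : ℚ := -(1 / 2) * vv n k ^ 2 * ((∏ l ∈ range (2 * k + 1), (1 - 2 * vv n l)) * (∏ l ∈ range k, (1 + vv n l / 2)) *
  ∏ l ∈ range (k + 1), (1 - 3 / 2 * vv n l)⁻¹)

lemma G_ratio (i j : ℕ) : G (2 * (i + j + 1) + 1) j = G (2 * (i + j + 1) + 1) (j + 1) *
    (-((4 * i + 2 * j + 3) * (2 * i + 4 * j + 6) * (2 * i + 4 * j + 5)) / ((4 * i + 6 * j + 7) * (2 * i + 2) * (2 * i + 1))) := by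
  rw [G, G, h_succ, rho]
  push_cast
  generalize h (2 * (i + j + 1) + 1) j = H
  have g1 : 2 * (2 * ((i : ℚ) + j + 1) + 1) - 2 * j - 1 = 4 * i + 2 * j + 5 := by ring
  have g2 : 2 * ((i : ℚ) + j + 1) + 1 + 2 * j + 1 = 2 * i + 4 * j + 4 := by ring
  have g3 : 2 * (2 * ((i : ℚ) + j + 1) + 1) - 2 * (j + 1) - 1 = 4 * i + 2 * j + 3 := by ring
  have g4 : 2 * ((i : ℚ) + j + 1) + 1 + 2 * (j + 1) + 1 = 2 * i + 4 * j + 6 := by ring
  have g5 : 2 * ((i : ℚ) + j + 1) + 1 + 2 * j + 2 = 2 * i + 4 * j + 5 := by ring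
  have g6 : 2 * ((i : ℚ) + j + 1) + 1 - 2 * j = 2 * i + 3 := by ring
  have g7 : 2 * ((i : ℚ) + j + 1) + 1 - 2 * (j + 1) = 2 * i + 1 := by ring
  have g8 : 2 * (2 * ((i : ℚ) + j + 1) + 1) + 2 * j + 1 = 4 * i + 6 * j + 7 := by ring
  rw [g1, g2, g3, g4, g5, g6, g7, g8]
  field_simp
  ring

lemma vv_def (n i : ℕ) : vv n i = (2 * n + 1) / (i + 1) := rfl

lemma one_sub_ne (n l : ℕ) : 1 - 3 / 2 * vv n l ≠ 0 := by
  rw [vv_def]
  have h1 : ((l : ℚ) + 1) ≠ 0 := by positivity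
  intro hh
  have h2 : (2 * ((l : ℚ) + 1)) - 3 * (2 * n + 1) = 0 := by
    field_simp at hh
    linear_combination hh
  have h3 : (2 * ((l : ℤ) + 1) - 3 * (2 * n + 1)) = 0 := by exact_mod_cast h2
  omega

lemma CF_zero (j : ℕ) : CF (j + 1) 0 = -((2 * (j : ℚ) + 3) * (4 * j + 6) * (4 * j + 5)) / ((6 * j + 7) * 2 * 1) := by
  rw [CF]
  simp only [mul_zero, zero_add, prod_range_one, prod_range_zero, vv_def, mul_one, Nat.cast_zero, div_one]
  push_cast
  have h1 : (1 : ℚ) - 3 / 2 * (2 * (j + 1) + 1) = -((6 * j + 7) / 2) := by ring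
  rw [h1]
  field_simp
  ring

lemma CF_succ (k j : ℕ) : CF (k + 1 + j + 1) (k + 1) = CF (k + 1 + j + 1) k *
    (-((4 * (k + 1) + 2 * (j : ℚ) + 3) * (2 * (k + 1) + 4 * j + 6) * (2 * (k + 1) + 4 * j + 5)) / ((4 * (k + 1) + 6 * j + 7) * (2 * (k + 1) + 2) * (2 * (k + 1) + 1))) := by
  set n := k + 1 + j + 1 with hn
  have hnq : (n : ℚ) = k + j + 2 := by rw [hn]; push_cast; ring
  rw [CF, CF]
  have e1 : ∏ l ∈ range (2 * (k + 1) + 1), (1 - 2 * vv n l) = (∏ l ∈ range (2 * k + 1), (1 - 2 * vv n l)) * (1 - 2 * vv n (2 * k + 1)) * (1 - 2 * vv n (2 * k + 2)) := by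
    rw [show 2 * (k + 1) + 1 = 2 * k + 1 + 1 + 1 by ring, prod_range_succ, prod_range_succ]
  have e2 : ∏ l ∈ range (k + 1), (1 + vv n l / 2) = (∏ l ∈ range k, (1 + vv n l / 2)) * (1 + vv n k / 2) := prod_range_succ _ _
  have e3 : ∏ l ∈ range (k + 1 + 1), (1 - 3 / 2 * vv n l)⁻¹ = (∏ l ∈ range (k + 1), (1 - 3 / 2 * vv n l)⁻¹) * (1 - 3 / 2 * vv n (k + 1))⁻¹ := prod_range_succ _ _
  rw [e1, e2, e3]
  generalize ∏ l ∈ range (2 * k + 1), (1 - 2 * vv n l) = x1
  generalize ∏ l ∈ range k, (1 + vv n l / 2) = x2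
  generalize ∏ l ∈ range (k + 1), (1 - 3 / 2 * vv n l)⁻¹ = x3
  simp only [vv_def]
  push_cast
  rw [hnq]
  have h1 : (1 : ℚ) - 3 / 2 * ((2 * (k + j + 2) + 1) / (k + 1 + 1)) = -((4 * k + 6 * j + 11) / (2 * (k + 2))) := by
    field_simp
    ring
  rw [h1]
  field_simp
  ring

lemma cb_prod (m : ℕ) : (m.centralBinom : ℚ) / 4 ^ m = ∏ i ∈ range m, ((2 * (i : ℚ) + 1) / (2 * i + 2)) := by
  induction m with
  | zero => simp
  | succ m ih =>
    rw [prod_range_succ, ← ih]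
    have h2 := Nat.succ_mul_centralBinom_succ m
    have h3 : ((m : ℚ) + 1) * ((m + 1).centralBinom : ℚ) = 2 * (2 * m + 1) * (m.centralBinom : ℚ) := by exact_mod_cast h2
    have h5 : ((m : ℚ) + 1) ≠ 0 := by positivity
    have h6 : ((m + 1).centralBinom : ℚ) = 2 * (2 * m + 1) * (m.centralBinom : ℚ) / (m + 1) := by
      rw [eq_div_iff h5, ← h3]; ring
    rw [h6, pow_succ]
    field_simp
    ring

lemma prod_two' (g : ℕ → ℚ) (m : ℕ) : ∏ i ∈ range (2 * m), g i = ∏ i ∈ range m, (g (2 * i) * g (2 * i + 1)) := by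
  induction m with
  | zero => simp
  | succ m ih =>
    rw [show 2 * (m + 1) = 2 * m + 1 + 1 by ring, prod_range_succ, prod_range_succ, ih, prod_range_succ _ m]
    rw [mul_assoc]

lemma fact_rel (n : ℕ) : ((2 * n + 1).centralBinom : ℚ) * ∏ l ∈ range (2 * n), ((2 * n + 1 : ℚ) - l) =
    2 * (2 * n + 1) * ∏ l ∈ range (2 * n), ((2 * n + 1 : ℚ) + 1 + l) := by
  have hfc : ∀ m : ℕ, (m.factorial : ℚ) = ∏ i ∈ range m, ((i : ℚ) + 1) := by
    intro m
    rw [← prod_range_add_one_eq_factorial]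
    push_cast
    rfl
  have e1 : ∏ l ∈ range (2 * n), ((2 * n + 1 : ℚ) - l) = ((2 * n + 1).factorial : ℚ) := by
    rw [hfc, prod_range_succ', ← prod_range_reflect]
    push_cast
    rw [zero_add, mul_one]
    apply prod_congr rfl
    intro l hl
    have hl' := mem_range.1 hl
    rw [Nat.cast_sub (by omega), Nat.cast_sub (by omega)]
    push_cast; ring
  have e2 : ((2 * n + 1).factorial : ℚ) * ∏ l ∈ range (2 * n), ((2 * n + 1 : ℚ) + 1 + l) = ((4 * n + 1).factorial : ℚ) := by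
    have e6 := prod_range_add (fun i : ℕ => ((i : ℚ) + 1)) (2 * n + 1) (2 * n)
    rw [hfc (4 * n + 1), hfc (2 * n + 1), show 4 * n + 1 = (2 * n + 1) + 2 * n by ring, e6]
    congr 1
    apply prod_congr rfl
    intro l _
    push_cast
    ring
  have e3 : ((2 * n + 1).centralBinom : ℚ) * ((2 * n + 1).factorial * (2 * n + 1).factorial) = ((4 * n + 2).factorial : ℚ) := by
    have := Nat.choose_mul_factorial_mul_factorial (show 2 * n + 1 ≤ 2 * (2 * n + 1) by omega)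
    rw [show 2 * (2 * n + 1) - (2 * n + 1) = 2 * n + 1 by omega] at this
    rw [Nat.centralBinom, show 4 * n + 2 = 2 * (2 * n + 1) by ring, ← this]
    push_cast; ring
  have e4 : ((4 * n + 2).factorial : ℚ) = (4 * n + 2) * ((4 * n + 1).factorial : ℚ) := by
    rw [show 4 * n + 2 = 4 * n + 1 + 1 by ring, Nat.factorial_succ]; push_cast; ring
  have e5 : ((2 * n + 1).factorial : ℚ) ≠ 0 := by exact_mod_cast Nat.factorial_ne_zero _
  rw [e1]
  apply mul_right_cancel₀ e5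
  rw [e4, ← e2] at e3
  linear_combination e3

lemma h_diag (n : ℕ) : 2 * h (2 * n + 1) n = (2 * n + 1) * Pf n := by
  set a : ℚ := ∏ i ∈ range n, (2 * (i : ℚ) + 1) with ha
  set b : ℚ := ∏ i ∈ range n, (2 * (n : ℚ) + 3 + 2 * i) with hb
  set c : ℚ := ∏ i ∈ range n, (4 * (n : ℚ) + 3 + 2 * i) with hc
  set f : ℚ := ∏ i ∈ range (2 * n), (2 * (i : ℚ) + 2) with hf
  have hf0 : f ≠ 0 := prod_ne_zero_iff.2 (fun i _ => by positivity)
  have hb0 : b ≠ 0 := prod_ne_zero_iff.2 (fun i _ => by positivity)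
  -- the central binomial coefficient
  have hC : ((2 * n + 1).centralBinom : ℚ) / 4 ^ (2 * n + 1) = a * (2 * n + 1) * b / (f * (4 * n + 2)) := by
    rw [cb_prod, prod_div_distrib]
    congr 1
    · rw [show 2 * n + 1 = n + 1 + n by ring, prod_range_add, prod_range_succ]
      congr 1
      apply prod_congr rfl
      intro i _; push_cast; ring
    · rw [prod_range_succ]; push_cast; ring
  -- the product of rho
  have h1 : ∏ i ∈ range n, rho (2 * n + 1) i = (-1) ^ n * c / b * ((∏ l ∈ range (2 * n), ((2 * n + 1 : ℚ) - l)) / ∏ l ∈ range (2 * n), ((2 * n + 1 : ℚ) + 1 + l)) := by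
    have e1 : b = ∏ i ∈ range n, (4 * (n : ℚ) + 1 - 2 * i) := by
      rw [hb, ← prod_range_reflect]
      apply prod_congr rfl
      intro i hi
      have hi' := mem_range.1 hi
      rw [Nat.cast_sub (by omega), Nat.cast_sub (by omega)]
      push_cast; ring
    rw [e1, hc, prod_two', prod_two', ← prod_div_distrib]
    have e2 : ((-1 : ℚ)) ^ n = ∏ _i ∈ range n, (-1 : ℚ) := by simp
    rw [e2, ← prod_mul_distrib, ← prod_div_distrib, ← prod_mul_distrib]
    apply prod_congr rfl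
    intro i hi
    have hi' := mem_range.1 hi
    have hin : (i : ℚ) + 1 ≤ n := by exact_mod_cast hi'
    rw [rho]
    push_cast
    rw [div_mul_div_comm]
    congr 1 <;> ring
  have h2 := fact_rel n
  have hD2 : ∏ l ∈ range (2 * n), ((2 * n + 1 : ℚ) + 1 + l) ≠ 0 := prod_ne_zero_iff.2 (fun i _ => by positivity)
  have hPf : Pf n = (-1) ^ n * a ^ 2 * b * c / f ^ 2 := by
    rw [Pf]
    have e1 : ∀ i ∈ range (2 * n), (1 - vv n i ^ 2 / 4) = (2 * (i : ℚ) + 1 - 2 * n) * (2 * i + 2 * n + 3) / (2 * i + 2) ^ 2 := by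
      intro i _
      rw [vv_def]
      field_simp
      ring
    rw [prod_congr rfl e1, prod_div_distrib, prod_mul_distrib, prod_pow]
    congr 1
    have e2 : ∏ i ∈ range (2 * n), (2 * (i : ℚ) + 1 - 2 * n) = (-1) ^ n * a ^ 2 := by
      rw [two_mul n, prod_range_add, ← prod_range_reflect]
      have e3 : ∏ i ∈ range n, (2 * (((n - 1 - i : ℕ) : ℚ)) + 1 - 2 * n) = (-1) ^ n * a := by
        have e4 : ((-1 : ℚ)) ^ n = ∏ _i ∈ range n, (-1 : ℚ) := by simp
        rw [e4, ha, ← prod_mul_distrib]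
        apply prod_congr rfl
        intro i hi
        have hi' := mem_range.1 hi
        rw [Nat.cast_sub (by omega), Nat.cast_sub (by omega)]
        push_cast; ring
      rw [e3]
      have e5 : ∏ i ∈ range n, (2 * (((n + i : ℕ) : ℚ)) + 1 - 2 * n) = a := by
        rw [ha]
        apply prod_congr rfl
        intro i _
        push_cast; ring
      rw [e5]; ring
    have e6 : ∏ i ∈ range (2 * n), (2 * (i : ℚ) + 2 * n + 3) = b * c := by
      rw [two_mul n, prod_range_add]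
      congr 1
      · apply prod_congr rfl
        intro i _; ring
      · apply prod_congr rfl
        intro i _; push_cast; ring
    rw [e2, e6]; ring
  rw [h, h1, hPf, t]
  set D1 := ∏ l ∈ range (2 * n), ((2 * n + 1 : ℚ) - l)
  set D2 := ∏ l ∈ range (2 * n), ((2 * n + 1 : ℚ) + 1 + l)
  have e7 : (16 : ℚ) ^ (2 * n + 1) = (4 ^ (2 * n + 1)) ^ 2 := by
    rw [← pow_mul, mul_comm (2 * n + 1) 2, pow_mul]; norm_num
  rw [e7]
  set C := ((2 * n + 1).centralBinom : ℚ)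
  have hC0 : C = 4 ^ (2 * n + 1) * (a * (2 * n + 1) * b / (f * (4 * n + 2))) := by
    rw [← hC]; field_simp
  have e8 : 2 * (C ^ 3 / (4 ^ (2 * n + 1)) ^ 2 * ((-1) ^ n * c / b * (D1 / D2))) = 2 * ((C / 4 ^ (2 * n + 1)) ^ 2 * ((-1) ^ n * c / b) * (C * D1 / D2)) := by
    rw [div_pow]; ring
  rw [e8, h2, hC, mul_div_cancel_right₀ _ hD2]
  have h4 : (4 * (n : ℚ) + 2) = 2 * (2 * n + 1) := by ring
  rw [h4]
  have h5 : (2 * (n : ℚ) + 1) ≠ 0 := by positivity
  field_simp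

lemma G_diag (n : ℕ) : G (2 * n + 1) n = (2 * n + 1) * Pf n := by
  rw [← h_diag, G]
  push_cast
  have h1 : (2 * (n : ℚ) + 1 - 2 * n) = 1 := by ring
  have h2 : 2 * (2 * (n : ℚ) + 1) - 2 * n - 1 = 2 * n + 1 := by ring
  have h3 : 2 * (n : ℚ) + 1 + 2 * n + 1 = 2 * (2 * n + 1) := by ring
  rw [h1, h2, h3]
  have h5 : (2 * (n : ℚ) + 1) ≠ 0 := by positivity
  field_simp
  norm_num

lemma G_CF (n k : ℕ) (hk : k < n) : G (2 * n + 1) (n - 1 - k) = (2 * n + 1) * Pf n * CF n k := by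
  induction k with
  | zero =>
    obtain ⟨j, rfl⟩ : ∃ j, n = j + 1 := ⟨n - 1, by omega⟩
    have h1 := G_ratio 0 j
    rw [show 0 + j + 1 = j + 1 by ring] at h1
    rw [show j + 1 - 1 - 0 = j by omega, h1, G_diag, CF_zero]
    push_cast
    ring
  | succ k ih =>
    have ih' := ih (by omega)
    obtain ⟨j, hj⟩ : ∃ j, n = k + 1 + j + 1 := ⟨n - (k + 2), by omega⟩
    have h1 := G_ratio (k + 1) j
    have h2 := CF_succ k j
    rw [← hj] at h1 h2
    rw [show n - 1 - k = j + 1 by omega] at ih'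
    rw [show n - 1 - (k + 1) = j by omega, h1, ih', h2]
    push_cast
    ring

theorem closed (n : ℕ) : ∑ k ∈ range (2 * n + 1), (3 * (k : ℚ) + 1) * t k = (2 * n + 1) * Pf n * (1 + ∑ k ∈ range n, CF n k) := by
  rw [sum_G, sum_range_succ, G_diag, mul_add, mul_one, mul_sum, add_comm]
  congr 1
  rw [← sum_range_reflect]
  apply sum_congr rfl
  intro k hk
  exact G_CF n k (mem_range.1 hk)

end

end Pool.Agent.X14.PC
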