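import Mathlib
import Pool.Agent.X14.PC1
import Pool.Agent.H434R2.ElevenG

set_option autoImplicit false
set_option linter.unusedSectionVars false

/-! The closed form of `Σ_{k<N} (3k+1) C(2k,k)^3 / 16^k` modulo `p^4`. -/

namespace Pool.Agent.X14.PC

open Finset Pool.Agent.H434R2 Pool.Agent.H434R2.PO

noncomputable section

/-- partial sums -/
def TS (n m : ℕ) : ℚ := ∑ l ∈ range m, vv n l

def SSo (n : ℕ) : ℚ := ∑ k ∈ range n, vv n (2 * k + 1) ^ 2 * TS n (2 * k + 1)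
def SSe (n : ℕ) : ℚ := ∑ k ∈ range n, vv n (2 * k) ^ 2 * TS n (2 * k)
def E3 (n : ℕ) : ℚ := ∑ k ∈ range n, vv n (2 * k) ^ 3
def CC (n : ℕ) : ℚ := ∑ k ∈ range n, CF n k

lemma two_split (n : ℕ) (f : ℕ → ℚ) : ∑ i ∈ range (2 * n), f i = ∑ j ∈ range n, f (2 * j) + ∑ j ∈ range n, f (2 * j + 1) := by
  induction n with
  | zero => simp
  | succ n ih =>
    rw [show 2 * (n + 1) = 2 * n + 1 + 1 by ring, sum_range_succ, sum_range_succ, ih, sum_range_succ, sum_range_succ]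
    ring

lemma SS_split (n : ℕ) : SS n = SSe n + SSo n := by
  unfold SS SSe SSo TS
  exact two_split n _

lemma E3_eq (n : ℕ) : E3 n = QQ n 3 - PP n 3 / 8 := by
  unfold E3 QQ PP
  rw [two_split n (fun i => vv n i ^ 3)]
  have : ∑ j ∈ range n, vv n (2 * j + 1) ^ 3 = (∑ j ∈ range n, vv n j ^ 3) / 8 := by
    rw [sum_div]
    apply sum_congr rfl
    intro j _
    rw [vv_double]; ring
  rw [this]; ring

lemma Eo_eq (n : ℕ) : ∑ k ∈ range n, vv n k ^ 2 * TS n (2 * k + 1) = 4 * SSo n := by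
  unfold SSo
  rw [mul_sum]
  apply sum_congr rfl
  intro k _
  rw [vv_double]; ring

section

variable {p : ℕ} [hp : Fact p.Prime] {n : ℕ} (hv : ∀ i < 2 * n, PO p 1 (vv n i))

include hv

lemma TS_PO (m : ℕ) (hm : m ≤ 2 * n) : PO p 1 (TS n m) :=
  PO.sum _ _ (fun i hi => hv i (by have := mem_range.1 hi; omega))

lemma TS_refl (m : ℕ) (hm : m ≤ 2 * n) : PO p 2 (TS n m - TS n (2 * n - m)) := by
  have h1 : QQ n 1 = TS n (2 * n - m) + ∑ l ∈ range m, vv n (2 * n - 1 - l) := by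
    unfold QQ TS
    have e1 : ∑ i ∈ range (2 * n), vv n i ^ 1 = ∑ i ∈ range (2 * n - m + m), vv n i := by
      rw [Nat.sub_add_cancel hm]; simp
    rw [e1, sum_range_add]
    congr 1
    rw [← sum_range_reflect]
    apply sum_congr rfl
    intro l hl
    have hl' := mem_range.1 hl
    congr 1
    omega
  have h2 := R3b hv
  have e : TS n m - TS n (2 * n - m) = ∑ l ∈ range m, (vv n (2 * n - 1 - l) + vv n l) - QQ n 1 := by
    rw [h1, sum_add_distrib]
    unfold TS; ring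
  rw [e]
  refine PO.sub (PO.sum _ _ ?_) h2
  intro l hl
  have hl' := mem_range.1 hl
  rw [vv_refl n l (by omega)]
  exact rfl_one (hv l (by omega))

lemma SSo_refl : PO p 4 (SSo n - (SSe n + E3 n)) := by
  have e1 : SSe n + E3 n = ∑ k ∈ range n, vv n (2 * (n - 1 - k)) ^ 2 * TS n (2 * (n - 1 - k) + 1) := by
    rw [sum_range_reflect (fun k => vv n (2 * k) ^ 2 * TS n (2 * k + 1))]
    unfold SSe E3
    rw [← sum_add_distrib]
    apply sum_congr rfl
    intro k _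
    have : TS n (2 * k + 1) = TS n (2 * k) + vv n (2 * k) := by
      unfold TS; rw [sum_range_succ]
    rw [this]; ring
  rw [e1]
  unfold SSo
  apply PO.sum_sub
  intro k hk
  have hk' := mem_range.1 hk
  have h1 := vv_refl n (2 * (n - 1 - k)) (by omega)
  rw [show 2 * n - 1 - 2 * (n - 1 - k) = 2 * k + 1 by omega] at h1
  have h2 := TS_refl hv (2 * k + 1) (by omega)
  rw [show 2 * n - (2 * k + 1) = 2 * (n - 1 - k) + 1 by omega] at h2
  have h3 := rfl_sq (hv (2 * (n - 1 - k)) (by omega))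
  rw [← h1] at h3
  have h4 := TS_PO hv (2 * k + 1) (by omega)
  have e : vv n (2 * k + 1) ^ 2 * TS n (2 * k + 1) - vv n (2 * (n - 1 - k)) ^ 2 * TS n (2 * (n - 1 - k) + 1) =
      (vv n (2 * k + 1) ^ 2 - vv n (2 * (n - 1 - k)) ^ 2) * TS n (2 * k + 1) +
      vv n (2 * (n - 1 - k)) ^ 2 * (TS n (2 * k + 1) - TS n (2 * (n - 1 - k) + 1)) := by ring
  rw [e]
  exact (h3.mul h4).add (((hv (2 * (n - 1 - k)) (by omega)).pow 2).mul h2)

lemma inv_expand {x : ℚ} (hx : PO p 1 x) : PO p 2 ((1 - x)⁻¹ - 1 - x) := by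
  have h := PO.one_sub_ne hx
  have e : (1 - x)⁻¹ - 1 - x = x ^ 2 * (1 - x)⁻¹ := by
    field_simp; ring
  rw [e]
  exact (hx.pow 2).mul0' (inv_one_sub hx)

lemma two_mul_expand {P Q a b : ℚ} (hP : PO p 2 (P - 1 - a)) (hQ : PO p 2 (Q - 1 - b)) (ha : PO p 1 a) (hb : PO p 1 b) :
    PO p 2 (P * Q - 1 - (a + b)) := by
  have hQ0 : PO p 0 Q := by
    have e : Q = (Q - 1 - b) + (1 + b) := by ring
    rw [e]
    exact (hQ.mono (by norm_num)).add (one.add (hb.mono (by norm_num)))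
  have e : P * Q - 1 - (a + b) = (P - 1 - a) * Q + (1 + a) * (Q - 1 - b) + a * b := by ring
  rw [e]
  exact ((hP.mul0' hQ0).add ((one.add (ha.mono (by norm_num))).mul0 hQ)).add (ha.mul hb)

lemma CF_expand (h2 : p ≠ 2) (k : ℕ) (hk : k < n) :
    PO p 4 (CF n k - (-(1 / 2) * vv n k ^ 2 * (1 + (-2 * TS n (2 * k + 1) + 1 / 2 * TS n k + 3 / 2 * TS n (k + 1)))))
    ∧ PO p 2 (CF n k) := by
  have hh := half (p := p) h2
  have h1 := (prod_expand (p := p) (k := 2) (l := 1) (by norm_num) (range (2 * k + 1))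
      (fun l => 1 - 2 * vv n l) (fun l => -2 * vv n l)
      (fun l hl => by
        have : (1 - 2 * vv n l) - 1 - (-2 * vv n l) = 0 := by ring
        rw [this]; exact PO.zero 2)
      (fun l hl => (of_ofNat 2).neg.mul0 (hv l (by have := mem_range.1 hl; omega))))
  have h3 := (prod_expand (p := p) (k := 2) (l := 1) (by norm_num) (range k)
      (fun l => 1 + vv n l / 2) (fun l => 1 / 2 * vv n l)
      (fun l hl => by
        have : (1 + vv n l / 2) - 1 - (1 / 2 * vv n l) = 0 := by ring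
        rw [this]; exact PO.zero 2)
      (fun l hl => hh.mul0 (hv l (by have := mem_range.1 hl; omega))))
  have h32 : ∀ l ∈ range (k + 1), PO p 1 (3 / 2 * vv n l) := by
    intro l hl
    have e : 3 / 2 * vv n l = 3 * (1 / 2 * vv n l) := by ring
    rw [e]
    exact (of_ofNat 3).mul0 (hh.mul0 (hv l (by have := mem_range.1 hl; omega)))
  have h4 := (prod_expand (p := p) (k := 2) (l := 1) (by norm_num) (range (k + 1))
      (fun l => (1 - 3 / 2 * vv n l)⁻¹) (fun l => 3 / 2 * vv n l)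
      (fun l hl => inv_expand hv (h32 l hl))
      h32)
  rw [← mul_sum] at h1 h3 h4
  have h5 := two_mul_expand hv h1.1 h3.1 h1.2 h3.2
  have h6 := two_mul_expand hv h5 h4.1 (h1.2.add h3.2) h4.2
  have hv2 := (hv k (by omega)).pow 2
  set P := (∏ l ∈ range (2 * k + 1), (1 - 2 * vv n l)) * (∏ l ∈ range k, (1 + vv n l / 2)) * ∏ l ∈ range (k + 1), (1 - 3 / 2 * vv n l)⁻¹ with hP
  have ha := (h1.2.add h3.2).add h4.2
  have hP0 : PO p 0 P := by
    have e : P = (P - 1 - (-2 * ∑ i ∈ range (2 * k + 1), vv n i + 1 / 2 * ∑ i ∈ range k, vv n i + 3 / 2 * ∑ i ∈ range (k + 1), vv n i)) +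
        (1 + (-2 * ∑ i ∈ range (2 * k + 1), vv n i + 1 / 2 * ∑ i ∈ range k, vv n i + 3 / 2 * ∑ i ∈ range (k + 1), vv n i)) := by ring
    rw [e]
    exact (h6.mono (by norm_num)).add (one.add (ha.mono (by norm_num)))
  constructor
  · have e : CF n k - (-(1 / 2) * vv n k ^ 2 * (1 + (-2 * TS n (2 * k + 1) + 1 / 2 * TS n k + 3 / 2 * TS n (k + 1)))) =
      -(1 / 2) * (vv n k ^ 2 * (P - 1 - (-2 * ∑ i ∈ range (2 * k + 1), vv n i + 1 / 2 * ∑ i ∈ range k, vv n i + 3 / 2 * ∑ i ∈ range (k + 1), vv n i))) := by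
      unfold CF TS
      rw [← hP]; ring
    rw [e]
    exact hh.neg.mul0 (hv2.mul h6)
  · have e : CF n k = -(1 / 2) * (vv n k ^ 2 * P) := by
      unfold CF
      rw [← hP]; ring
    rw [e]
    exact hh.neg.mul0 (hv2.mul0' hP0)

lemma CC_expand (h2 : p ≠ 2) : PO p 4 (CC n - (-(1 / 2) * PP n 2 + 4 * SSo n - W12 n - 3 / 4 * PP n 3)) ∧ PO p 2 (CC n) := by
  constructor
  · have e : -(1 / 2) * PP n 2 + 4 * SSo n - W12 n - 3 / 4 * PP n 3 =
      ∑ k ∈ range n, (-(1 / 2) * vv n k ^ 2 * (1 + (-2 * TS n (2 * k + 1) + 1 / 2 * TS n k + 3 / 2 * TS n (k + 1)))) := by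
      rw [← Eo_eq]
      unfold PP W12
      rw [mul_sum, mul_sum, ← sum_add_distrib, ← sum_sub_distrib, ← sum_sub_distrib]
      apply sum_congr rfl
      intro k _
      have : TS n (k + 1) = TS n k + vv n k := by
        unfold TS; rw [sum_range_succ]
      rw [this]
      unfold TS
      ring
    rw [e]
    unfold CC
    exact PO.sum_sub _ _ _ (fun k hk => (CF_expand hv h2 k (mem_range.1 hk)).1)
  · exact PO.sum _ _ (fun k hk => (CF_expand hv h2 k (mem_range.1 hk)).2)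

lemma Pf_expand (h2 : p ≠ 2) : PO p 4 (Pf n - 1 + 1 / 4 * QQ n 2) ∧ PO p 2 (1 / 4 * QQ n 2) := by
  have h4 : PO p 0 (1 / 4 : ℚ) := by
    have : (1 / 4 : ℚ) = ((2 : ℚ)⁻¹) ^ 2 := by norm_num
    rw [this]; exact (inv_two h2).pow0 2
  have h1 := (prod_expand (p := p) (k := 4) (l := 2) (by norm_num) (range (2 * n))
      (fun l => 1 - vv n l ^ 2 / 4) (fun l => -(1 / 4) * vv n l ^ 2)
      (fun l hl => by
        have : (1 - vv n l ^ 2 / 4) - 1 - (-(1 / 4) * vv n l ^ 2) = 0 := by ring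
        rw [this]; exact PO.zero 4)
      (fun l hl => h4.neg.mul0 ((hv l (mem_range.1 hl)).pow 2)))
  rw [← mul_sum] at h1
  constructor
  · have e : Pf n - 1 + 1 / 4 * QQ n 2 = ∏ i ∈ range (2 * n), (1 - vv n i ^ 2 / 4) - 1 - -(1 / 4) * ∑ i ∈ range (2 * n), vv n i ^ 2 := by
      unfold Pf QQ; ring
    rw [e]; exact h1.1
  · have e : 1 / 4 * QQ n 2 = -(-(1 / 4) * ∑ i ∈ range (2 * n), vv n i ^ 2) := by
      unfold QQ; ring
    rw [e]; exact h1.2.neg

lemma total_mod (h2 : p ≠ 2) : PO p 4 (3 * (Pf n * (1 + CC n)) - (3 + 7 / 2 * SS n)) := by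
  obtain ⟨a1, a2⟩ := Pf_expand hv h2
  obtain ⟨c1, c2⟩ := CC_expand hv h2
  have r1 := R1 hv
  have r2 := SSo_refl hv
  have r3 := R3a hv
  have r4 := R4 hv
  have r5 := three_P2 hv h2
  have r6 := SS_P3 hv h2
  have s1 := SS_split n
  have s2 := E3_eq n
  have s3 := R5 n
  have hh := half (p := p) h2
  have h34 : PO p 0 (3 / 4 : ℚ) := by
    have : (3 / 4 : ℚ) = 3 * (1 / 2 * (1 / 2)) := by norm_num
    rw [this]; exact (of_ofNat 3).mul0 (hh.mul0 hh)
  have h32 : PO p 0 (3 / 2 : ℚ) := by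
    have : (3 / 2 : ℚ) = 3 * (1 / 2) := by norm_num
    rw [this]; exact (of_ofNat 3).mul0 hh
  obtain ⟨C0, hC0⟩ : ∃ C0 : ℚ, C0 = -(1 / 2) * PP n 2 + 4 * SSo n - W12 n - 3 / 4 * PP n 3 := ⟨_, rfl⟩
  rw [← hC0] at c1
  have hP0 : PO p 0 (1 - 1 / 4 * QQ n 2) := one.sub (a2.mono (by norm_num))
  have hC00 : PO p 2 C0 := by
    have e : C0 = CC n - (CC n - C0) := by ring
    rw [e]
    exact c2.sub (c1.mono (by norm_num))
  have key : 3 * (Pf n * (1 + CC n)) - (3 + 7 / 2 * SS n) =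
      3 * ((Pf n - 1 + 1 / 4 * QQ n 2) * (1 + CC n) + (1 - 1 / 4 * QQ n 2) * (CC n - C0) - (1 / 4 * QQ n 2) * C0)
      - (3 * PP n 2 + (7 / 2) * PP n 3) + (SS n + (1 / 2) * PP n 3) - 3 / 4 * (QQ n 2 - (2 * PP n 2 + 2 * PP n 3))
      + 6 * QQ n 3 + 6 * (SSo n - (SSe n + E3 n)) + 3 / 2 * (SS n - (W12 n - W21 n + PP n 1 * PP n 2)) := by
    have w1 : SSe n = SS n - SSo n := by rw [s1]; ring
    have w2 : W12 n + W21 n = PP n 1 * PP n 2 - PP n 3 := by rw [s3]; ring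
    rw [w1, s2, hC0]
    linear_combination (-3 / 2) * w2
  rw [key]
  have t1 := (of_ofNat (p := p) 3).mul0 (((a1.mul0' (one.add (c2.mono (by norm_num)))).add (hP0.mul0 c1)).sub (a2.mul hC00))
  exact (((((t1.sub r5).add r6).sub (h34.mul0 r1)).add ((of_ofNat 6).mul0 r3)).add ((of_ofNat 6).mul0 r2)).add (h32.mul0 r4)

end

theorem three_S (p : ℕ) [hp : Fact p.Prime] {n : ℕ} (hv : ∀ i < 2 * n, PO p 1 (vv n i)) (h2 : p ≠ 2) :
    ∃ e : ℚ, PO p 4 e ∧ 3 * ∑ k ∈ range (2 * n + 1), (3 * (k : ℚ) + 1) * t k = (2 * n + 1) * (3 + 7 / 2 * SS n + e) := by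
  refine ⟨3 * (Pf n * (1 + CC n)) - (3 + 7 / 2 * SS n), total_mod hv h2, ?_⟩
  rw [closed]
  unfold CC
  ring

end

end Pool.Agent.X14.PC
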