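import Mathlib
import Pool.Agent.X14.PC2
import Pool.Agent.X14.PB2

set_option autoImplicit false
set_option linter.unusedSectionVars false

/-! The congruence modulo `p^{r+4}` with the Bernoulli number. -/

namespace Pool.Agent.X14.PC

open Finset Pool.Agent.H434R2 Pool.Agent.H434R2.PO

noncomputable section

variable {p : ℕ} [hp : Fact p.Prime]

lemma hv_of {n a : ℕ} (hn : 2 * n + 1 = p ^ a) : ∀ i < 2 * n, PO p 1 (vv n i) := by
  intro i hi
  unfold vv
  have e : (2 * (n : ℚ) + 1) / (i + 1) = (p : ℚ) ^ a / ((i + 1 : ℕ) : ℚ) := by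
    have : (2 * (n : ℚ) + 1) = (p : ℚ) ^ a := by exact_mod_cast hn
    rw [this]; push_cast; rfl
  rw [e]
  apply H434R2.PO_ppow_div (s := a) (by ring)
  intro hd
  have := Nat.le_of_dvd (by omega) hd
  omega

/-- the cubic sums for `p^a` and for `p` agree modulo `p^4` -/
lemma PP3_reduce {n n' a : ℕ} (hn : 2 * n + 1 = p ^ (a + 1)) (hn' : 2 * n' + 1 = p) :
    PO p 4 (PP n 3 - PP n' 3) := by
  set q := p ^ a with hq
  have hq0 : 0 < q := by rw [hq]; exact pow_pos hp.out.pos _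
  have hN : 2 * n + 1 = p * q := by rw [hn, pow_succ, mul_comm]
  have hNQ : (2 * (n : ℚ) + 1) = (p : ℚ) * q := by exact_mod_cast hN
  have hpQ : (2 * (n' : ℚ) + 1) = (p : ℚ) := by exact_mod_cast hn'
  have himg : (range n).filter (fun i => q ∣ i + 1) = (range n').image (fun j => q * (j + 1) - 1) := by
    ext i
    simp only [mem_filter, mem_range, mem_image]
    constructor
    · rintro ⟨hi, t, ht⟩
      have ht0 : t ≠ 0 := by rintro rfl; omega
      refine ⟨t - 1, ?_, ?_⟩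
      · by_contra hc
        have h1 : n' + 1 ≤ t := by omega
        have h2 : q * (n' + 1) ≤ q * t := Nat.mul_le_mul_left _ h1
        have h3 : p * q = 2 * (q * n') + q := by rw [← hn']; ring
        have h4 : q * (n' + 1) = q * n' + q := by ring
        omega
      · have : t - 1 + 1 = t := by omega
        rw [this, ← ht]; omega
    · rintro ⟨j, hj, rfl⟩
      have h0 : 0 < q * (j + 1) := by positivity
      have e1 : q * (j + 1) - 1 + 1 = q * (j + 1) := by omega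
      refine ⟨?_, ?_⟩
      · have h2 : q * (j + 1) ≤ q * n' := Nat.mul_le_mul_left _ hj
        have h3 : p * q = 2 * (q * n') + q := by rw [← hn']; ring
        omega
      · rw [e1]; exact dvd_mul_right _ _
  have hinj : Set.InjOn (fun j => q * (j + 1) - 1) (range n' : Finset ℕ) := by
    intro x _ y _ hxy
    have hxy' : q * (x + 1) - 1 = q * (y + 1) - 1 := hxy
    have h1 : 0 < q * (x + 1) := by positivity
    have h2 : 0 < q * (y + 1) := by positivity
    have h3 : q * (x + 1) = q * (y + 1) := by omega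
    have := Nat.eq_of_mul_eq_mul_left hq0 h3
    omega
  have e1 : PP n' 3 = ∑ i ∈ (range n).filter (fun i => q ∣ i + 1), vv n i ^ 3 := by
    rw [himg, sum_image hinj]
    unfold PP
    apply sum_congr rfl
    intro j _
    congr 1
    unfold vv
    have h1 : 0 < q * (j + 1) := by positivity
    have h2 : (((q * (j + 1) - 1 : ℕ) : ℚ) + 1) = q * (j + 1) := by
      rw [Nat.cast_sub (by omega)]; push_cast; ring
    rw [h2, hNQ, hpQ]
    have h3 : (q : ℚ) ≠ 0 := by exact_mod_cast hq0.ne'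
    have h4 : ((j : ℚ) + 1) ≠ 0 := by positivity
    field_simp
  have e2 : PP n 3 - PP n' 3 = ∑ i ∈ (range n).filter (fun i => ¬ q ∣ i + 1), vv n i ^ 3 := by
    rw [e1]
    unfold PP
    rw [← sum_filter_add_sum_filter_not (range n) (fun i => q ∣ i + 1) (fun i => vv n i ^ 3)]
    ring
  rw [e2]
  apply PO.sum
  intro i hi
  rw [mem_filter] at hi
  have h1 : PO p 2 (vv n i) := by
    unfold vv
    have e : (2 * (n : ℚ) + 1) / (i + 1) = (p : ℚ) ^ (a + 1) / ((i + 1 : ℕ) : ℚ) := by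
      have : (2 * (n : ℚ) + 1) = (p : ℚ) ^ (a + 1) := by exact_mod_cast hn
      rw [this]; push_cast; rfl
    rw [e]
    exact H434R2.PO_ppow_div (s := a) (by ring) hi.2
  exact (h1.pow 3).mono (by norm_num)

lemma SS_p {n' : ℕ} (hn' : 2 * n' + 1 = p) (h2 : p ≠ 2) : PO p 4 (SS n' - (p : ℚ) ^ 3 * bernoulli (p - 3)) := by
  have hpQ : (2 * (n' : ℚ) + 1) = (p : ℚ) := by exact_mod_cast hn'
  have h := double_harmonic (p := p) h2
  have e : SS n' = (p : ℚ) ^ 3 * ∑ b ∈ range (p - 1), (1 / ((b : ℚ) + 1) ^ 2) * ∑ a ∈ range b, 1 / ((a : ℚ) + 1) := by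
    unfold SS
    have hr : 2 * n' = p - 1 := by omega
    rw [hr, mul_sum]
    apply sum_congr rfl
    intro b _
    have : ∑ a ∈ range b, vv n' a = (p : ℚ) * ∑ a ∈ range b, 1 / ((a : ℚ) + 1) := by
      rw [mul_sum]
      apply sum_congr rfl
      intro a _
      unfold vv
      rw [hpQ]; ring
    rw [this]
    unfold vv
    rw [hpQ, div_pow]
    ring
  rw [e, ← mul_sub]
  exact (PO.ppow (p := p) 3).mul h


lemma SS_bern {n b : ℕ} (hn : 2 * n + 1 = p ^ (b + 1)) (h2 : p ≠ 2) : PO p 4 (SS n - (p : ℚ) ^ 3 * bernoulli (p - 3)) := by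
  obtain ⟨n', hn'⟩ : ∃ n', 2 * n' + 1 = p := by
    obtain ⟨k, hk⟩ := hp.out.odd_of_ne_two h2
    exact ⟨k, hk.symm⟩
  have hv := hv_of (p := p) hn
  have hv' := hv_of (p := p) (n := n') (a := 1) (by rw [hn', pow_one])
  have m2 := SS_P3 hv h2
  have m3 := PP3_reduce (p := p) hn hn'
  have m4 := SS_P3 hv' h2
  have m5 := SS_p (p := p) hn' h2
  have key : SS n - (p : ℚ) ^ 3 * bernoulli (p - 3) =
      ((SS n + (1 / 2) * PP n 3) - (1 / 2) * (PP n 3 - PP n' 3)
        - (SS n' + (1 / 2) * PP n' 3) + (SS n' - (p : ℚ) ^ 3 * bernoulli (p - 3))) := by ring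
  rw [key]
  have hh := PO.half (p := p) h2
  exact ((m2.sub (hh.mul0 m3)).sub m4).add m5

theorem main_t (h2 : p ≠ 2) (h3 : p ≠ 3) (b : ℕ) :
    PO p (b + 5) (∑ k ∈ range (p ^ (b + 1)), (3 * (k : ℚ) + 1) * t k -
      ((p : ℚ) ^ (b + 1) + 7 / 6 * bernoulli (p - 3) * (p : ℚ) ^ (b + 1 + 3))) := by
  obtain ⟨n, hn⟩ : ∃ n, 2 * n + 1 = p ^ (b + 1) := by
    obtain ⟨k, hk⟩ := (hp.out.odd_of_ne_two h2).pow (n := b + 1)
    exact ⟨k, hk.symm⟩
  have hv := hv_of (p := p) hn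
  obtain ⟨e, he, hS⟩ := three_S p hv h2
  have hB := SS_bern (p := p) hn h2
  have hh := PO.half (p := p) h2
  have h13 : PO p 0 (1 / 3 : ℚ) := by
    have h : ¬ p ∣ 3 := fun h => h3 ((Nat.prime_dvd_prime_iff_eq hp.out Nat.prime_three).1 h)
    have := PO.inv_nat h
    rw [one_div]; exact_mod_cast this
  have hNQ : (2 * (n : ℚ) + 1) = (p : ℚ) ^ (b + 1) := by exact_mod_cast hn
  rw [hNQ, hn] at hS
  have key : ∑ k ∈ range (p ^ (b + 1)), (3 * (k : ℚ) + 1) * t k -
      ((p : ℚ) ^ (b + 1) + 7 / 6 * bernoulli (p - 3) * (p : ℚ) ^ (b + 1 + 3)) =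
      (p : ℚ) ^ (b + 1) * (7 * (1 / 2 * (1 / 3)) * (SS n - (p : ℚ) ^ 3 * bernoulli (p - 3)) + 1 / 3 * e) := by
    rw [pow_add (p : ℚ) (b + 1) 3]
    linear_combination (1 / 3) * hS
  rw [key]
  have h4 : PO p 4 (7 * (1 / 2 * (1 / 3)) * (SS n - (p : ℚ) ^ 3 * bernoulli (p - 3)) + 1 / 3 * e) :=
    (((PO.of_ofNat 7).mul0 (hh.mul0 h13)).mul0 hB).add (h13.mul0 he)
  have := (PO.ppow (p := p) (b + 1)).mul h4
  exact this

lemma t_eq (k : ℕ) : t k = ((k.centralBinom : ℚ) / 4 ^ k) ^ 3 * 2 ^ (2 * k) := by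
  unfold t
  have h1 : (16 : ℚ) ^ k = (4 ^ k) ^ 2 := by rw [← pow_mul, mul_comm k 2, pow_mul]; norm_num
  have h2 : (2 : ℚ) ^ (2 * k) = 4 ^ k := by rw [pow_mul]; norm_num
  rw [h1, h2]
  have : (4 : ℚ) ^ k ≠ 0 := by positivity
  field_simp

end

end Pool.Agent.X14.PC
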