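import Mathlib
import Pool.Agent.X14.PC3

set_option autoImplicit false
set_option linter.unusedSectionVars false

/-! A closed form for `Σ_{k≤n} (42k+5) C(2k,k)^3 / 4096^k`: with `N = 2n+1` it equals
`4 N C(2n,n) / 16^n * Σ_{k≤N} C(N/2,k)^2`. -/

namespace Pool.Agent.X14.PD

open Finset Pool.Agent.H434R2

noncomputable section

/-- generalised binomial coefficient -/
def cb (x : ℚ) (k : ℕ) : ℚ := ∏ j ∈ range k, ((x - j) / (j + 1))

lemma cb_zero (x : ℚ) : cb x 0 = 1 := by simp [cb]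

lemma cb_succ (x : ℚ) (k : ℕ) : cb x (k + 1) = cb x k * ((x - k) / (k + 1)) := by
  rw [cb, prod_range_succ, ← cb]

lemma cb_shift (x : ℚ) (k : ℕ) : cb (x + 1) (k + 1) = cb x k * ((x + 1) / (k + 1)) := by
  induction k with
  | zero => rw [cb_succ, cb_zero, cb_zero]; simp
  | succ k ih =>
    rw [cb_succ (x + 1) (k + 1), ih, cb_succ x k]
    have h1 : ((k : ℚ) + 1) ≠ 0 := by positivity
    have h2 : ((k : ℚ) + 1 + 1) ≠ 0 := by positivity
    push_cast
    field_simp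
    ring

lemma tele (x : ℚ) (K : ℕ) : ∑ k ∈ range (K + 1), ((x + 1) * cb (x + 1) k ^ 2 - 2 * (2 * x + 1) * cb x k ^ 2) =
    -(3 * x - 2 * K + 1) * cb x K ^ 2 := by
  induction K with
  | zero => simp [cb_zero]; ring
  | succ K ih =>
    rw [sum_range_succ, ih, cb_shift, cb_succ x K]
    have h1 : ((K : ℚ) + 1) ≠ 0 := by positivity
    push_cast
    field_simp
    ring

/-- the central binomial quotient `(-1)^n C(2n,n)/16^n` -/
def DD (n : ℕ) : ℚ := (-1) ^ n * (n.centralBinom : ℚ) / 16 ^ n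

lemma DD_succ (n : ℕ) : DD (n + 1) = -DD n * ((2 * n + 1) / (8 * (n + 1))) := by
  unfold DD
  have h := Nat.succ_mul_centralBinom_succ n
  have h2 := congrArg (Nat.cast : ℕ → ℚ) h
  push_cast at h2
  have h1 : ((n : ℚ) + 1) ≠ 0 := by positivity
  have h3 : ((n + 1).centralBinom : ℚ) = 2 * (2 * n + 1) * n.centralBinom / (n + 1) := by
    rw [eq_div_iff h1]; linarith
  rw [h3, pow_succ, pow_succ]
  field_simp
  ring

lemma cb_half (n : ℕ) : cb (n + 1 / 2) (2 * n + 1) = DD n / 2 := by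
  induction n with
  | zero => simp [cb, DD]
  | succ n ih =>
    have e1 : (((n + 1 : ℕ) : ℚ) + 1 / 2) = ((n : ℚ) + 1 / 2) + 1 := by push_cast; ring
    rw [e1, show 2 * (n + 1) + 1 = (2 * n + 1 + 1) + 1 by ring, cb_shift, cb_succ, ih, DD_succ]
    have h1 : ((n : ℚ) + 1) ≠ 0 := by positivity
    have h2 : (2 * (n : ℚ) + 3) ≠ 0 := by positivity
    push_cast
    have h3 : (2 * (n : ℚ) + 1 + 1) = 2 * (n + 1) := by ring
    have h4 : (2 * (n : ℚ) + 2 + 1) = 2 * n + 3 := by ring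
    rw [h4, h3]
    field_simp
    ring

/-- the sum of squares -/
def QS (n : ℕ) : ℚ := ∑ k ∈ range (2 * n + 2), cb (n + 1 / 2) k ^ 2

lemma QS_succ (n : ℕ) : ((n : ℚ) + 3 / 2) * QS (n + 1) = 4 * (n + 1) * QS n +
    DD n ^ 2 * ((2 * n + 1) ^ 2 * (42 * n + 47) / (512 * (n + 1) ^ 2)) := by
  have ht := tele ((n : ℚ) + 1 / 2) (2 * n + 3)
  rw [sum_sub_distrib, ← mul_sum, ← mul_sum] at ht
  have e1 : (((n + 1 : ℕ) : ℚ) + 1 / 2) = ((n : ℚ) + 1 / 2) + 1 := by push_cast; ring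
  have e2 : QS (n + 1) = ∑ k ∈ range (2 * n + 3 + 1), cb ((n : ℚ) + 1 / 2 + 1) k ^ 2 := by
    unfold QS
    rw [e1, show 2 * (n + 1) + 2 = 2 * n + 3 + 1 by ring]
  have e3 : ∑ k ∈ range (2 * n + 3 + 1), cb ((n : ℚ) + 1 / 2) k ^ 2 =
      QS n + cb ((n : ℚ) + 1 / 2) (2 * n + 2) ^ 2 + cb ((n : ℚ) + 1 / 2) (2 * n + 3) ^ 2 := by
    unfold QS
    rw [sum_range_succ, sum_range_succ]
  have h1 : ((n : ℚ) + 1) ≠ 0 := by positivity
  have h2 : (2 * (n : ℚ) + 3) ≠ 0 := by positivity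
  have c2 : cb ((n : ℚ) + 1 / 2) (2 * n + 2) = -DD n * (2 * n + 1) / (8 * (n + 1)) := by
    rw [show 2 * n + 2 = 2 * n + 1 + 1 by ring, cb_succ, cb_half]
    push_cast
    have h3 : (2 * (n : ℚ) + 1 + 1) = 2 * (n + 1) := by ring
    rw [h3]
    field_simp
    ring
  have c3 : cb ((n : ℚ) + 1 / 2) (2 * n + 3) = DD n * (2 * n + 1) / (16 * (n + 1)) := by
    rw [show 2 * n + 3 = 2 * n + 2 + 1 by ring, cb_succ, c2]
    push_cast
    have h3 : (2 * (n : ℚ) + 2 + 1) = 2 * n + 3 := by ring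
    rw [h3]
    field_simp
    ring
  rw [e3, c2, c3, ← e2] at ht
  have e4 : ((n : ℚ) + 3 / 2) * QS (n + 1) = 2 * (2 * ((n : ℚ) + 1 / 2) + 1) * (QS n +
      (-DD n * (2 * n + 1) / (8 * (n + 1))) ^ 2 + (DD n * (2 * n + 1) / (16 * (n + 1))) ^ 2) +
      -(3 * ((n : ℚ) + 1 / 2) - 2 * ((2 * n + 3 : ℕ) : ℚ) + 1) * (DD n * (2 * n + 1) / (16 * (n + 1))) ^ 2 := by
    linear_combination ht
  rw [e4]
  push_cast
  field_simp
  ring

theorem closed (n : ℕ) : ∑ k ∈ range (n + 1), (42 * (k : ℚ) + 5) * (k.centralBinom : ℚ) ^ 3 / 4096 ^ k =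
    4 * (2 * n + 1) * ((n.centralBinom : ℚ) / 16 ^ n) * QS n := by
  induction n with
  | zero => simp [QS, cb, sum_range_succ]; norm_num
  | succ n ih =>
    rw [sum_range_succ, ih]
    have h := QS_succ n
    have hc := Nat.succ_mul_centralBinom_succ n
    have hc2 := congrArg (Nat.cast : ℕ → ℚ) hc
    push_cast at hc2
    have h1 : ((n : ℚ) + 1) ≠ 0 := by positivity
    obtain ⟨c, hcc⟩ : ∃ c : ℚ, c = (n.centralBinom : ℚ) / 16 ^ n := ⟨_, rfl⟩
    have h3 : ((n + 1).centralBinom : ℚ) / 16 ^ (n + 1) = c * (2 * n + 1) / (8 * (n + 1)) := by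
      have h3' : ((n + 1).centralBinom : ℚ) = 2 * (2 * n + 1) * n.centralBinom / (n + 1) := by
        rw [eq_div_iff h1]; linarith
      rw [h3', hcc, pow_succ]
      field_simp
      ring
    have h4 : DD n ^ 2 = c ^ 2 := by
      unfold DD
      rw [hcc, div_pow, div_pow, mul_pow, ← pow_mul, mul_comm n 2, pow_mul]
      norm_num
    have h5 : (42 * ((n + 1 : ℕ) : ℚ) + 5) * ((n + 1).centralBinom : ℚ) ^ 3 / 4096 ^ (n + 1) =
        (42 * n + 47) * (((n + 1).centralBinom : ℚ) / 16 ^ (n + 1)) ^ 3 := by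
      have : (4096 : ℚ) = 16 ^ 3 := by norm_num
      rw [this, ← pow_mul, mul_comm 3 (n + 1), pow_mul, div_pow]
      push_cast
      ring
    rw [h5, h3, ← hcc]
    rw [h4] at h
    have h6 : QS (n + 1) = (4 * (n + 1) * QS n + c ^ 2 * ((2 * n + 1) ^ 2 * (42 * n + 47) / (512 * (n + 1) ^ 2))) / ((n : ℚ) + 3 / 2) := by
      rw [eq_div_iff (by positivity)]; linarith
    have h7 : ((n : ℚ) + 3 / 2) ≠ 0 := by positivity
    have h8 : (2 * (n : ℚ) + 3) ≠ 0 := by positivity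
    have h9 : ((n : ℚ) + 3 / 2) = (2 * n + 3) / 2 := by ring
    rw [h6, h9]
    push_cast
    field_simp
    ring

end

end Pool.Agent.X14.PD
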