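import Mathlib
import Pool.Agent.X14.PD1

set_option autoImplicit false
set_option linter.unusedSectionVars false

/-! The closed form modulo `p^4`. -/

namespace Pool.Agent.X14.PD

open Finset Pool.Agent.H434R2 Pool.Agent.H434R2.PO Pool.Agent.X14.PC

noncomputable section

lemma DD_prod (n : ℕ) : DD n = ∏ i ∈ range n, ((1 - vv n i / 2) ^ 2 / (1 - vv n i)) := by
  have h1 := prod_one_sub n n (by omega)
  have h2 := four_prod n
  have hne : ∀ i ∈ range n, (1 - vv n i) ≠ 0 := fun i hi => one_sub_vv_ne n i (by have := mem_range.1 hi; omega)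
  have hne' : ∀ i ∈ range n, (1 - vv n i / 2) ≠ 0 := fun i _ => one_sub_half_ne n i
  rw [prod_div_distrib] at h2
  have p1 : ∏ i ∈ range n, (1 - vv n i) ≠ 0 := prod_ne_zero_iff.2 hne
  have p2 : ∏ i ∈ range n, (1 - vv n i / 2) ≠ 0 := prod_ne_zero_iff.2 hne'
  rw [prod_div_distrib, prod_pow]
  unfold DD
  have e : (16 : ℚ) ^ n = (4 ^ n) ^ 2 := by rw [← pow_mul, mul_comm n 2, pow_mul]; norm_num
  have hc : (-1 : ℚ) ^ n * (n.centralBinom : ℚ) = ∏ i ∈ range n, (1 - vv n i) := by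
    rw [h1, Nat.centralBinom_eq_two_mul_choose]
  rw [hc, e, h2]
  field_simp

/-- the non-extreme terms -/
def EE (n : ℕ) : ℚ := ∑ b ∈ range (2 * n), vv n b ^ 2 / 4 * ∏ i ∈ range b, (1 - vv n i / 2) ^ 2

lemma cb_sq (n b : ℕ) : cb (n + 1 / 2) (b + 1) ^ 2 = ((2 * n + 1) / (b + 1)) ^ 2 / 4 * ∏ i ∈ range b, (1 - vv n i / 2) ^ 2 := by
  induction b with
  | zero => rw [cb_succ, cb_zero]; simp; ring
  | succ b ih =>
    rw [cb_succ, mul_pow, ih, prod_range_succ]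
    unfold vv
    have h1 : ((b : ℚ) + 1) ≠ 0 := by positivity
    have h2 : ((b : ℚ) + 1 + 1) ≠ 0 := by positivity
    push_cast
    field_simp
    ring

lemma QS_eq (n : ℕ) : QS n = 1 + EE n + DD n ^ 2 / 4 := by
  unfold QS
  rw [sum_range_succ, sum_range_succ', cb_zero, cb_half]
  unfold EE
  have : ∑ k ∈ range (2 * n), cb ((n : ℚ) + 1 / 2) (k + 1) ^ 2 = ∑ b ∈ range (2 * n), vv n b ^ 2 / 4 * ∏ i ∈ range b, (1 - vv n i / 2) ^ 2 := by
    apply sum_congr rfl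
    intro b _
    rw [cb_sq]
    rfl
  rw [this]; ring

section

variable {p : ℕ} [hp : Fact p.Prime] {n : ℕ} (hv : ∀ i < 2 * n, PO p 1 (vv n i))

lemma quarter (h2 : p ≠ 2) : PO p 0 (1 / 4 : ℚ) := by
  have : (1 / 4 : ℚ) = 1 / 2 * (1 / 2) := by norm_num
  rw [this]; exact (half h2).mul0 (half h2)

include hv

lemma DD_expand (h2 : p ≠ 2) : PO p 4 (DD n - 1 - (1 / 4 * PP n 2 + 1 / 4 * PP n 3)) ∧ PO p 2 (1 / 4 * PP n 2 + 1 / 4 * PP n 3) := by
  have h4 := quarter (p := p) h2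
  have hv' : ∀ i ∈ range n, PO p 1 (vv n i) := fun i hi => hv i (by have := mem_range.1 hi; omega)
  have h1 := (prod_expand (p := p) (k := 4) (l := 2) (by norm_num) (range n)
      (fun l => (1 - vv n l / 2) ^ 2 / (1 - vv n l)) (fun l => 1 / 4 * vv n l ^ 2 + 1 / 4 * vv n l ^ 3)
      (fun l hl => by
        have hx := hv' l hl
        have hne := PO.one_sub_ne hx
        have : (1 - vv n l / 2) ^ 2 / (1 - vv n l) - 1 - (1 / 4 * vv n l ^ 2 + 1 / 4 * vv n l ^ 3) =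
            1 / 4 * (vv n l ^ 4 * (1 - vv n l)⁻¹) := by
          field_simp; ring
        rw [this]
        exact h4.mul0 ((hx.pow 4).mul0' (inv_one_sub hx)))
      (fun l hl => (h4.mul0 ((hv' l hl).pow 2)).add ((h4.mul0 ((hv' l hl).pow 3)).mono (by norm_num))))
  rw [sum_add_distrib, ← mul_sum, ← mul_sum, ← DD_prod] at h1
  exact h1

lemma EE_expand (h2 : p ≠ 2) : PO p 4 (EE n - (1 / 4 * QQ n 2 - 1 / 4 * SS n)) ∧ PO p 2 (EE n) := by
  have h4 := quarter (p := p) h2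
  have hb : ∀ b ∈ range (2 * n), PO p 2 (∏ i ∈ range b, (1 - vv n i / 2) ^ 2 - 1 - -∑ i ∈ range b, vv n i) ∧ PO p 1 (-∑ i ∈ range b, vv n i) := by
    intro b hb
    have hv' : ∀ i ∈ range b, PO p 1 (vv n i) := fun i hi => hv i (by have := mem_range.1 hi; have := mem_range.1 hb; omega)
    have h1 := (prod_expand (p := p) (k := 2) (l := 1) (by norm_num) (range b)
      (fun l => (1 - vv n l / 2) ^ 2) (fun l => -vv n l)
      (fun l hl => by
        have hx := hv' l hl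
        have : (1 - vv n l / 2) ^ 2 - 1 - -vv n l = 1 / 4 * vv n l ^ 2 := by ring
        rw [this]
        exact h4.mul0 (hx.pow 2))
      (fun l hl => (hv' l hl).neg))
    rw [sum_neg_distrib] at h1
    exact h1
  constructor
  · have e : EE n - (1 / 4 * QQ n 2 - 1 / 4 * SS n) = ∑ b ∈ range (2 * n), 1 / 4 * (vv n b ^ 2 * (∏ i ∈ range b, (1 - vv n i / 2) ^ 2 - 1 - -∑ i ∈ range b, vv n i)) := by
      unfold EE QQ SS
      rw [mul_sum, mul_sum, ← sum_sub_distrib, ← sum_sub_distrib]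
      apply sum_congr rfl
      intro b _
      ring
    rw [e]
    apply PO.sum
    intro b hb'
    exact h4.mul0 (((hv b (mem_range.1 hb')).pow 2).mul (hb b hb').1)
  · unfold EE
    apply PO.sum
    intro b hb'
    have e : vv n b ^ 2 / 4 * ∏ i ∈ range b, (1 - vv n i / 2) ^ 2 = 1 / 4 * (vv n b ^ 2 * ((∏ i ∈ range b, (1 - vv n i / 2) ^ 2 - 1 - -∑ i ∈ range b, vv n i) + (1 + -∑ i ∈ range b, vv n i))) := by ring
    rw [e]
    refine h4.mul0 (((hv b (mem_range.1 hb')).pow 2).mul0' ?_)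
    exact ((hb b hb').1.mono (by norm_num)).add (one.add ((hb b hb').2.mono (by norm_num)))

lemma total (h2 : p ≠ 2) (h3 : p ≠ 3) : PO p 4 (4 * (DD n * QS n) - (5 + 1 / 4 * SS n)) := by
  obtain ⟨a1, a2⟩ := DD_expand hv h2
  obtain ⟨c1, c2⟩ := EE_expand hv h2
  have r3 := R3 hv h2
  have r5 := three_P2 hv h2
  have r6 := SS_P3 hv h2
  have hh := half (p := p) h2
  have h4 := quarter (p := p) h2
  have h13 : PO p 0 (1 / 3 : ℚ) := by
    have h : ¬ p ∣ 3 := fun h => h3 ((Nat.prime_dvd_prime_iff_eq hp.out Nat.prime_three).1 h)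
    have := PO.inv_nat h
    rw [one_div]; exact_mod_cast this
  -- `DD = 1 + d`, `d ≡ S/12`, `E ≡ -S/12`
  obtain ⟨d, hd⟩ : ∃ d : ℚ, DD n = 1 + d := ⟨DD n - 1, by ring⟩
  have hd2 : PO p 2 d := by
    have e : d = (DD n - 1 - (1 / 4 * PP n 2 + 1 / 4 * PP n 3)) + (1 / 4 * PP n 2 + 1 / 4 * PP n 3) := by rw [hd]; ring
    rw [e]; exact (a1.mono (by norm_num)).add a2
  have hd4 : PO p 4 (d - 1 / 12 * SS n) := by
    have e : d - 1 / 12 * SS n = (DD n - 1 - (1 / 4 * PP n 2 + 1 / 4 * PP n 3)) +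
        1 / 3 * (1 / 4) * (3 * PP n 2 + (7 / 2) * PP n 3) - 1 / 3 * (1 / 4) * (SS n + (1 / 2) * PP n 3) := by rw [hd]; ring
    rw [e]
    exact (a1.add ((h13.mul0 h4).mul0 r5)).sub ((h13.mul0 h4).mul0 r6)
  have hE4 : PO p 4 (EE n + 1 / 12 * SS n) := by
    have e : EE n + 1 / 12 * SS n = (EE n - (1 / 4 * QQ n 2 - 1 / 4 * SS n)) + 1 / 3 * (1 / 2) * ((3 / 2) * QQ n 2 - SS n) := by ring
    rw [e]
    exact c1.add ((h13.mul0 hh).mul0 r3)
  have key : 4 * (DD n * QS n) - (5 + 1 / 4 * SS n) =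
      7 * (d - 1 / 12 * SS n) + 4 * (EE n + 1 / 12 * SS n) + 4 * (d * EE n) + 3 * (d * d) + d * d * d := by
    rw [QS_eq, hd]; ring
  rw [key]
  have m1 := (of_ofNat (p := p) 7).mul0 hd4
  have m2 := (of_ofNat (p := p) 4).mul0 hE4
  have m3 := (of_ofNat (p := p) 4).mul0 (hd2.mul c2)
  have m4 := (of_ofNat (p := p) 3).mul0 (hd2.mul hd2)
  have m5 := ((hd2.mul hd2).mul0' (hd2.mono (by norm_num : 0 ≤ 2)))
  exact (((m1.add m2).add m3).add m4).add m5

lemma Q1_expand (h2 : p ≠ 2) (h3 : p ≠ 3) : PO p 4 (QQ n 1 + 1 / 3 * SS n) := by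
  have hh := half (p := p) h2
  have h13 : PO p 0 (1 / 3 : ℚ) := by
    have h : ¬ p ∣ 3 := fun h => h3 ((Nat.prime_dvd_prime_iff_eq hp.out Nat.prime_three).1 h)
    have := PO.inv_nat h
    rw [one_div]; exact_mod_cast this
  have r5 := three_P2 hv h2
  have r6 := SS_P3 hv h2
  have e1 : QQ n 1 + PP n 2 + PP n 3 = ∑ i ∈ range n, (-(vv n i ^ 4 * (1 - vv n i)⁻¹)) := by
    unfold QQ PP
    rw [pair_sum, ← sum_add_distrib, ← sum_add_distrib]
    apply sum_congr rfl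
    intro i hi
    have hi' := mem_range.1 hi
    have hx := hv i (by omega)
    have hne := PO.one_sub_ne hx
    rw [vv_refl n i (by omega)]
    unfold rfl'
    field_simp
    ring
  have e2 : PO p 4 (QQ n 1 + PP n 2 + PP n 3) := by
    rw [e1]
    apply PO.sum
    intro i hi
    have hi' := mem_range.1 hi
    have hx := hv i (by omega)
    exact ((hx.pow 4).mul0' (inv_one_sub hx)).neg
  have e : QQ n 1 + 1 / 3 * SS n = (QQ n 1 + PP n 2 + PP n 3) - 1 / 3 * (3 * PP n 2 + (7 / 2) * PP n 3) +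
      1 / 3 * (SS n + 1 / 2 * PP n 3) := by ring
  rw [e]
  exact (e2.sub (h13.mul0 r5)).add (h13.mul0 r6)

end

variable {p : ℕ} [hp : Fact p.Prime]

theorem main (h2 : p ≠ 2) (h3 : p ≠ 3) (b : ℕ) {n : ℕ} (hn : 2 * n + 1 = p ^ (b + 1)) :
    PO p 4 (1 / (p : ℚ) ^ (b + 1) * (∑ k ∈ range (n + 1), (42 * (k : ℚ) + 5) * (k.centralBinom : ℚ) ^ 3 / 4096 ^ k) -
      (-1) ^ n * (5 - 3 * p / 4 * ∑ j ∈ range (p - 1), 1 / ((j : ℚ) + 1))) := by
  obtain ⟨n', hn'⟩ : ∃ n', 2 * n' + 1 = p := by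
    obtain ⟨k, hk⟩ := hp.out.odd_of_ne_two h2
    exact ⟨k, hk.symm⟩
  have hv := hv_of (p := p) hn
  have hv' := hv_of (p := p) (n := n') (a := 1) (by rw [hn', pow_one])
  have t := total hv h2 h3
  have q := Q1_expand hv' h2 h3
  have m2 := SS_P3 hv h2
  have m3 := PP3_reduce (p := p) hn hn'
  have m4 := SS_P3 hv' h2
  have hh := PO.half (p := p) h2
  have h4 := quarter (p := p) h2
  have hNQ : (2 * (n : ℚ) + 1) = (p : ℚ) ^ (b + 1) := by exact_mod_cast hn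
  have hpQ : (2 * (n' : ℚ) + 1) = (p : ℚ) := by exact_mod_cast hn'
  have hp0 : (p : ℚ) ^ (b + 1) ≠ 0 := pow_ne_zero _ (by exact_mod_cast hp.out.ne_zero)
  have hQ : QQ n' 1 = p * ∑ j ∈ range (p - 1), 1 / ((j : ℚ) + 1) := by
    unfold QQ vv
    rw [show 2 * n' = p - 1 by omega, hpQ, mul_sum]
    apply sum_congr rfl
    intro j _
    rw [pow_one]; ring
  have hD : (n.centralBinom : ℚ) / 16 ^ n = (-1) ^ n * DD n := by
    unfold DD
    rw [mul_div_assoc, ← mul_assoc, ← pow_add, Even.neg_one_pow ⟨n, rfl⟩, one_mul]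
  have key : 1 / (p : ℚ) ^ (b + 1) * (∑ k ∈ range (n + 1), (42 * (k : ℚ) + 5) * (k.centralBinom : ℚ) ^ 3 / 4096 ^ k) -
      (-1) ^ n * (5 - 3 * p / 4 * ∑ j ∈ range (p - 1), 1 / ((j : ℚ) + 1)) =
      (-1) ^ n * ((4 * (DD n * QS n) - (5 + 1 / 4 * SS n)) + 3 * (1 / 4) * (QQ n' 1 + 1 / 3 * SS n') +
        1 / 4 * ((SS n + (1 / 2) * PP n 3) - (1 / 2) * (PP n 3 - PP n' 3) - (SS n' + (1 / 2) * PP n' 3))) := by
    rw [closed, hD, hNQ, hQ]
    field_simp
    ring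
  rw [key]
  have hs : PO p 0 ((-1 : ℚ) ^ n) := by
    have := (PO.one (p := p)).neg.pow0 n
    exact this
  exact hs.mul0 ((t.add (((of_ofNat 3).mul0 h4).mul0 q)).add (h4.mul0 ((m2.sub (hh.mul0 m3)).sub m4)))

end

end Pool.Agent.X14.PD
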