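import Pool.Agent.X14.SixKTerm

set_option autoImplicit false

/-! Sums of polynomials. -/

namespace Pool.Agent.X14

open Finset Pool.Agent.H434R2 Pool.Agent.H434R2.PO Polynomial

set_option linter.unusedSectionVars false

lemma alt_sum_poly {N : ℕ} (Q : ℤ[X]) (h : Q.natDegree < N) :
    ∑ k ∈ range (N + 1), (-1 : ℤ) ^ k * (N.choose k : ℤ) * Q.eval (k : ℤ) = 0 := by
  have h1 := congrFun (Polynomial.fwdDiff_iter_eq_zero_of_degree_lt h) 0
  rw [fwdDiff_iter_eq_sum_shift] at h1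
  simp only [Pi.zero_apply, zero_add, smul_eq_mul, nsmul_eq_mul, mul_one] at h1
  have h2 : ∑ k ∈ range (N + 1), (-1 : ℤ) ^ k * (N.choose k : ℤ) * Q.eval (k : ℤ) =
      (-1) ^ N * ∑ k ∈ range (N + 1), (-1 : ℤ) ^ (N - k) * (N.choose k : ℤ) * Q.eval (k : ℤ) := by
    rw [mul_sum]
    apply sum_congr rfl
    intro k hk
    have hk' : k ≤ N := by have := mem_range.1 hk; omega
    obtain ⟨l, rfl⟩ : ∃ l, N = k + l := ⟨N - k, by omega⟩
    rw [Nat.add_sub_cancel_left, ← mul_assoc, ← mul_assoc]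
    congr 2
    rw [← pow_add, show k + l + l = k + 2 * l by ring, pow_add, pow_mul]
    norm_num
  rw [h2, h1, mul_zero]

variable {p : ℕ} [hp : Fact p.Prime]

lemma sum_pow_PO {e : ℕ} (he : e + 2 ≤ p) : PO p 1 (∑ k ∈ range p, (k : ℚ) ^ e) := by
  rcases Nat.eq_zero_or_pos e with h0 | h0
  · subst h0
    simp only [pow_zero, sum_const, card_range, nsmul_eq_mul, mul_one]
    exact p_PO
  · have h := power_sum (p := p) e
    have hnd : ¬ p - 1 ∣ e := fun hd => by have := Nat.le_of_dvd h0 hd; omega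
    rw [if_neg hnd, sub_zero] at h
    have e1 : range p = range (p - 1 + 1) := by rw [Nat.sub_add_cancel hp.out.one_lt.le]
    rw [e1, sum_range_succ']
    simp only [Nat.cast_zero, zero_pow h0.ne', add_zero]
    push_cast
    exact h

lemma sum_poly_PO (Q : ℤ[X]) (h : Q.natDegree + 2 ≤ p) :
    PO p 1 (∑ k ∈ range p, ((Q.eval (k : ℤ) : ℤ) : ℚ)) := by
  have e : ∑ k ∈ range p, ((Q.eval (k : ℤ) : ℤ) : ℚ) =
      ∑ i ∈ range (Q.natDegree + 1), (Q.coeff i : ℚ) * ∑ k ∈ range p, (k : ℚ) ^ i := by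
    simp_rw [mul_sum]
    rw [sum_comm]
    apply sum_congr rfl
    intro k _
    rw [Polynomial.eval_eq_sum_range]
    push_cast
    rfl
  rw [e]
  apply PO.sum
  intro i hi
  exact PO.mul0 (of_int _) (sum_pow_PO (by have := mem_range.1 hi; omega))

/-- congruences of inverse squares -/
lemma inv_sq_sub {x : ℚ} (hx0 : x ≠ 0) (hx : PO p 0 x⁻¹) : PO p 1 (1 / ((p : ℚ) - x) ^ 2 - 1 / x ^ 2) := by
  have hy : PO p 1 ((p : ℚ) * x⁻¹) := p_PO.mul0' hx
  have h := one_sub_inv_pow (p := p) 2 le_rfl hy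
  have hne := one_sub_ne hy
  have e : 1 / ((p : ℚ) - x) ^ 2 - 1 / x ^ 2 =
      x⁻¹ ^ 2 * (((1 - (p : ℚ) * x⁻¹)⁻¹ ^ 2 - (1 + ((2 : ℕ) : ℚ) * ((p : ℚ) * x⁻¹))) + ((2 : ℕ) : ℚ) * ((p : ℚ) * x⁻¹)) := by
    have e1 : ((p : ℚ) - x) ^ 2 = x ^ 2 * (1 - (p : ℚ) * x⁻¹) ^ 2 := by field_simp; ring
    rw [e1, inv_pow, inv_pow]
    field_simp
    ring
  rw [e]
  exact PO.mul0 (hx.pow0 2) ((h.mono (by omega)).add (PO.mul0 (of_nat 2) hy))

/-- `(1 - x)^m = 1 - m x + C(m,2) x^2 + O(x^3)` -/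
lemma one_sub_pow_expand {k : ℕ} {x : ℚ} (hx : PO p k x) (m : ℕ) :
    PO p (3 * k) ((1 - x) ^ m - (1 - m * x + (m.choose 2 : ℚ) * x ^ 2)) := by
  induction m with
  | zero => simpa using PO.zero (p := p) (3 * k)
  | succ m ih =>
    have hx0 := hx.mono (Nat.zero_le k)
    have hc : ((m + 1).choose 2 : ℚ) = m + (m.choose 2 : ℚ) := by
      rw [Nat.choose_succ_succ' m 1]; push_cast; simp
    have e : (1 - x) ^ (m + 1) - (1 - ((m + 1 : ℕ) : ℚ) * x + ((m + 1).choose 2 : ℚ) * x ^ 2) =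
        ((1 - x) ^ m - (1 - m * x + (m.choose 2 : ℚ) * x ^ 2)) * (1 - x) - (m.choose 2 : ℚ) * x ^ 3 := by
      rw [hc]; push_cast; ring
    rw [e]
    refine (ih.mul0' (PO.one.sub hx0)).sub (PO.mul0 (of_nat _) ?_)
    have := hx.pow 3
    rwa [mul_comm] at this

end Pool.Agent.X14
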