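import Pool.Agent.X14.QPair

set_option autoImplicit false

/-! First-order expansions modulo `Φ_n^2`, and products over blocks. -/

namespace Pool.Agent.X14.QBlock

open Finset Polynomial Pool.Agent.X14.QL

noncomputable section

/-- `y ≡ r (1 + α ε) (mod P^2)` -/
def Ap (P : ℚ[X]) (ε y : RatFunc ℚ) (r α : ℚ) : Prop := Eqm P 2 y ((r : RatFunc ℚ) * (1 + (α : RatFunc ℚ) * ε))

variable {P : ℚ[X]} {ε y z : RatFunc ℚ} {r s α β : ℚ}

lemma Ap.mem (hε : QO P 1 ε) (h : Ap P ε y r α) : y ∈ Loc P :=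
  Eqm.mem h ((Loc P).mul_mem (rat_mem P r) ((Loc P).add_mem (Loc P).one_mem ((Loc P).mul_mem (rat_mem P α) hε.mem)))

lemma Ap.mul (hε : QO P 1 ε) (h : Ap P ε y r α) (h' : Ap P ε z s β) : Ap P ε (y * z) (r * s) (α + β) := by
  unfold Ap at *
  have m1 : ∀ t u : ℚ, (t : RatFunc ℚ) * (1 + (u : RatFunc ℚ) * ε) ∈ Loc P := fun t u =>
    (Loc P).mul_mem (rat_mem P t) ((Loc P).add_mem (Loc P).one_mem ((Loc P).mul_mem (rat_mem P u) hε.mem))
  have h1 := Eqm.mul h h' (m1 _ _) (m1 _ _)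
  refine h1.trans ?_
  have h2 : QO P 2 (ε * ε) := hε.mul hε
  have h3 := QO.mul_left (rat_mem P (r * s * α * β)) h2
  unfold Eqm
  convert h3 using 1
  push_cast
  ring

lemma Ap.one (P : ℚ[X]) (ε : RatFunc ℚ) : Ap P ε 1 1 0 := by
  unfold Ap
  push_cast
  rw [zero_mul, add_zero, mul_one]
  exact Eqm.refl _

lemma Ap.inv (hε : QO P 1 ε) (hr : r ≠ 0) (h : Ap P ε y r α) : Ap P ε y⁻¹ r⁻¹ (-α) := by
  have hr' : (r : RatFunc ℚ) ≠ 0 := by exact_mod_cast hr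
  have h1 : Eqm P 1 y (r : ℚ) := by
    refine (Eqm.le h (show 1 ≤ 2 by norm_num)).trans ?_
    unfold Eqm
    have := QO.mul_left (rat_mem P (r * α)) hε
    convert this using 1
    push_cast; ring
  have h2 := (h1.inv hr (by norm_num)).mem (rat_mem P _)
  -- y * (r⁻¹ (1 - α ε)) ≡ 1
  have h3 : Ap P ε (((r⁻¹ : ℚ) : RatFunc ℚ) * (1 + ((-α : ℚ) : RatFunc ℚ) * ε)) r⁻¹ (-α) := by unfold Ap; exact Eqm.refl _
  have h4 := Ap.mul hε h h3
  rw [mul_inv_cancel₀ hr, add_neg_cancel] at h4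
  unfold Ap at h4
  rw [Rat.cast_one, Rat.cast_zero, zero_mul, add_zero, mul_one] at h4
  rcases eq_or_ne y 0 with hy | hy
  · -- impossible, but harmless
    rw [hy, zero_mul] at h4
    unfold Ap
    rw [hy, inv_zero]
    have h5 : QO P 2 (1 : RatFunc ℚ) := by
      have := QO.neg h4
      rwa [zero_sub, neg_neg] at this
    have m1 : (((r⁻¹ : ℚ) : RatFunc ℚ) * (1 + ((-α : ℚ) : RatFunc ℚ) * ε)) ∈ Loc P :=
      (Loc P).mul_mem (rat_mem P _) ((Loc P).add_mem (Loc P).one_mem ((Loc P).mul_mem (rat_mem P _) hε.mem))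
    have h6 := (QO.mul_left m1 h5).neg
    unfold Eqm
    rwa [zero_sub, ← mul_one (((r⁻¹ : ℚ) : RatFunc ℚ) * (1 + ((-α : ℚ) : RatFunc ℚ) * ε))]
  · have h5 := (Eqm.mul_left h2 h4).symm
    rw [← mul_assoc, inv_mul_cancel₀ hy, one_mul, mul_one] at h5
    exact h5

lemma Ap.div (hε : QO P 1 ε) (hs : s ≠ 0) (h : Ap P ε y r α) (h' : Ap P ε z s β) : Ap P ε (y / z) (r / s) (α - β) := by
  rw [div_eq_mul_inv, div_eq_mul_inv, sub_eq_add_neg]
  exact h.mul hε (h'.inv hε hs)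

lemma Ap.eqm (h : Ap P ε y r 0) : Eqm P 2 y (r : ℚ) := by
  unfold Ap at h
  rwa [Rat.cast_zero, zero_mul, add_zero, mul_one] at h

lemma Ap.of_U {y : RatFunc ℚ} (h : U P 2 y) : Ap P ε y 1 0 := by
  unfold Ap
  rw [Rat.cast_zero, Rat.cast_one, zero_mul, add_zero, mul_one]
  exact h

lemma Ap.congr (h : Ap P ε y r α) (hr : r = s) (hα : α = β) : Ap P ε y s β := by rw [← hr, ← hα]; exact h

variable {n k h : ℕ}

lemma Ap_zpow {x : RatFunc ℚ} (hx : QO P 1 (x - 1)) (hx0 : x ≠ 0) (hxi : x⁻¹ ∈ Loc P) (z : ℤ) :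
    Ap P (x - 1) (x ^ z) 1 z := by
  unfold Ap
  have := zp hx hx0 hxi z
  push_cast
  rwa [one_mul]

lemma Ap_Gz {x : RatFunc ℚ} (hx : QO P 1 (x - 1)) (hx0 : x ≠ 0) (hx1 : 1 - x ≠ 0) (hxi : x⁻¹ ∈ Loc P) (z : ℤ) :
    Ap P (x - 1) (Gz x z) z (((z : ℚ) - 1) / 2) := by
  unfold Ap
  have := Gz_eqm hx hx0 hx1 hxi z
  convert this using 1
  push_cast
  ring

lemma Ap_one_add {x : RatFunc ℚ} (hx : QO P 1 (x - 1)) (hx0 : x ≠ 0) (hxi : x⁻¹ ∈ Loc P) (z : ℤ) :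
    Ap P (x - 1) (1 + x ^ z) 2 ((z : ℚ) / 2) := by
  unfold Ap
  have := (Eqm.refl (P := P) (k := 2) 1).add (zp hx hx0 hxi z)
  convert this using 1
  push_cast
  ring

/-! ### pairs -/

/-- the pair of factors at distance `s b` from `z n` -/
def PP (s n : ℕ) (z b : ℤ) : RatFunc ℚ := e (z * n + s * b) * e (z * n - s * b)

variable {s : ℕ}

lemma PP_ne (hsn : Nat.Coprime s n) (z : ℤ) {b : ℤ} (hb : ¬ (n : ℤ) ∣ b) : PP s n z b ≠ 0 := by
  have h0 : ¬ (n : ℤ) ∣ s * b := not_dvd_mul hsn hb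
  unfold PP
  refine mul_ne_zero (e_ne fun h => h0 ?_) (e_ne fun h => h0 ?_)
  · have : (s : ℤ) * b = -(z * n) := by linarith
    rw [this]; exact (dvd_mul_left _ _).neg_right
  · have : (s : ℤ) * b = z * n := by linarith
    rw [this]; exact dvd_mul_left _ _

lemma PP_U (hn : 0 < n) (hsn : Nat.Coprime s n) (z z' : ℤ) {b : ℤ} (hb : ¬ (n : ℤ) ∣ b) :
    U (cyclotomic n ℚ) 2 (PP s n z b / PP s n z' b * q ^ ((z' - z) * n)) := by
  have h0 : ¬ (n : ℤ) ∣ s * b := not_dvd_mul hsn hb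
  have hq := q_ne
  have hne := PP_ne hsn z' hb
  have hinv : (PP s n z' b)⁻¹ ∈ Loc (cyclotomic n ℚ) := by
    unfold PP
    rw [mul_inv]
    refine (Loc _).mul_mem (e_inv hn fun h => h0 ?_) (e_inv hn fun h => h0 ?_)
    · exact (dvd_add_right (dvd_mul_left _ _)).1 h
    · exact (dvd_sub_right (dvd_mul_left _ _)).1 h
  have e1 : PP s n z b * q ^ ((z' - z) * n) - PP s n z' b = -(e ((z' - z) * n) * e ((z' + z) * n)) := by
    have b1 : q ^ ((z' - z) * (n : ℤ)) = q ^ (z' * (n : ℤ)) / q ^ (z * (n : ℤ)) := by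
      rw [← zpow_sub₀ hq]; congr 1; ring
    have b2 : q ^ ((z' + z) * (n : ℤ)) = q ^ (z' * (n : ℤ)) * q ^ (z * (n : ℤ)) := by
      rw [← zpow_add₀ hq]; congr 1; ring
    unfold PP e
    rw [b1, b2, zpow_add₀ hq, zpow_sub₀ hq, zpow_add₀ hq, zpow_sub₀ hq]
    have a1 : q ^ (z * (n : ℤ)) ≠ 0 := zpow_ne_zero _ hq
    have a2 : q ^ (z' * (n : ℤ)) ≠ 0 := zpow_ne_zero _ hq
    have a3 : q ^ ((s : ℤ) * b) ≠ 0 := zpow_ne_zero _ hq
    field_simp
    ring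
  have h1 : QO (cyclotomic n ℚ) 2 (PP s n z b * q ^ ((z' - z) * n) - PP s n z' b) := by
    rw [e1]
    exact ((e_QO hn (dvd_mul_left _ _)).mul (e_QO hn (dvd_mul_left _ _))).neg
  have h3 := QO.mul_right h1 hinv
  unfold U
  convert h3 using 1
  field_simp

/-- signed products of pairs over `1 ≤ b ≤ h` -/
def DD (s n h : ℕ) (z : ℤ) : RatFunc ℚ :=
  ∏ b ∈ range h, (if b % 2 = 1 then PP s n z ((b : ℤ) + 1) else (PP s n z ((b : ℤ) + 1))⁻¹)

lemma small_not_dvd (hn : n = 2 * h + 1) {b : ℕ} (hb : b < h) : ¬ (n : ℤ) ∣ (b : ℤ) + 1 := by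
  intro hd
  have h1 : n ∣ b + 1 := by exact_mod_cast hd
  have := Nat.le_of_dvd (by omega) h1
  omega

lemma sign_prod {x : RatFunc ℚ} (hx : x ≠ 0) (m : ℕ) :
    ∏ b ∈ range (2 * m), (if b % 2 = 1 then x else x⁻¹) = 1 := by
  induction m with
  | zero => simp
  | succ m ih =>
    rw [show 2 * (m + 1) = 2 * m + 1 + 1 by ring, prod_range_succ, prod_range_succ, ih]
    rw [if_neg (by omega), if_pos (by omega), one_mul, inv_mul_cancel₀ hx]

lemma DD_U (hn : n = 2 * h + 1) (hh : h % 2 = 0) (hsn : Nat.Coprime s n) (z z' : ℤ) :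
    U (cyclotomic n ℚ) 2 (DD s n h z / DD s n h z') := by
  have hq : q ^ ((z' - z) * (n : ℤ)) ≠ 0 := zpow_ne_zero _ q_ne
  obtain ⟨m, hm⟩ : ∃ m, h = 2 * m := ⟨h / 2, by omega⟩
  have h1 : DD s n h z / DD s n h z' = ∏ b ∈ range h,
      ((if b % 2 = 1 then PP s n z ((b : ℤ) + 1) / PP s n z' ((b : ℤ) + 1) * q ^ ((z' - z) * (n : ℤ)) else
        (PP s n z ((b : ℤ) + 1) / PP s n z' ((b : ℤ) + 1) * q ^ ((z' - z) * (n : ℤ)))⁻¹)) := by
    have h2 := sign_prod hq m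
    rw [← hm] at h2
    rw [← mul_one (DD s n h z / DD s n h z'), ← h2]
    unfold DD
    rw [← prod_div_distrib, ← prod_mul_distrib]
    apply prod_congr rfl
    intro b _
    split_ifs
    · rfl
    · rw [mul_inv, inv_div, inv_div_inv]
  rw [h1]
  apply U.prod
  intro b hb
  rw [mem_range] at hb
  have h3 := PP_U (n := n) (by omega) hsn z z' (small_not_dvd hn hb)
  split_ifs
  · exact h3
  · exact h3.inv (by norm_num)

lemma DD_ne (hn : n = 2 * h + 1) (hsn : Nat.Coprime s n) (z : ℤ) : DD s n h z ≠ 0 := by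
  unfold DD
  rw [prod_ne_zero_iff]
  intro b hb
  rw [mem_range] at hb
  have := PP_ne (n := n) hsn z (small_not_dvd hn hb)
  split_ifs
  · exact this
  · exact inv_ne_zero this

/-- a product over `2h+1` consecutive indices, centred -/
lemma prod_centre {M : Type*} [CommMonoid M] (G : ℕ → M) (h : ℕ) :
    ∏ t ∈ range (2 * h + 1), G t = G h * ∏ b ∈ range h, (G (h + (b + 1)) * G (h - (b + 1))) := by
  rw [show 2 * h + 1 = h + 1 + h by ring, prod_range_add, prod_range_succ, ← prod_range_reflect, prod_mul_distrib]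
  have e1 : ∏ j ∈ range h, G (h - 1 - j) = ∏ b ∈ range h, G (h - (b + 1)) := by
    apply prod_congr rfl; intro j _; congr 1; omega
  have e2 : ∏ x ∈ range h, G (h + 1 + x) = ∏ b ∈ range h, G (h + (b + 1)) := by
    apply prod_congr rfl; intro j _; congr 1; omega
  rw [e1, e2, mul_comm (∏ b ∈ range h, G (h - (b + 1))), mul_assoc, mul_comm (∏ b ∈ range h, G (h - (b + 1)))]

end

end Pool.Agent.X14.QBlock
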