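import Pool.Agent.X14.QL

set_option autoImplicit false

/-! Block decomposition of `q`-sums modulo powers of cyclotomic polynomials. -/

namespace Pool.Agent.X14.QBlock

open Finset Polynomial Pool.Agent.X14.QL

noncomputable section

/-- congruence modulo `P ^ k` in `Loc P` -/
def Eqm (P : ℚ[X]) (k : ℕ) (x y : RatFunc ℚ) : Prop := QO P k (x - y)

variable {P : ℚ[X]} {k : ℕ}

lemma Eqm.refl (x : RatFunc ℚ) : Eqm P k x x := by
  unfold Eqm; rw [sub_self]; exact QO.zero k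

lemma Eqm.symm {x y : RatFunc ℚ} (h : Eqm P k x y) : Eqm P k y x := by
  unfold Eqm at *; rw [← neg_sub]; exact h.neg

lemma Eqm.trans {x y z : RatFunc ℚ} (h : Eqm P k x y) (h' : Eqm P k y z) : Eqm P k x z := by
  unfold Eqm at *
  have := h.add h'
  rwa [sub_add_sub_cancel] at this

lemma Eqm.le {l : ℕ} {x y : RatFunc ℚ} (h : Eqm P k x y) (hl : l ≤ k) : Eqm P l x y := QO.le h hl

lemma Eqm.add {x y z w : RatFunc ℚ} (h : Eqm P k x y) (h' : Eqm P k z w) : Eqm P k (x + z) (y + w) := by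
  unfold Eqm at *
  have := QO.add h h'
  rwa [show x - y + (z - w) = x + z - (y + w) by ring] at this

lemma Eqm.sub {x y z w : RatFunc ℚ} (h : Eqm P k x y) (h' : Eqm P k z w) : Eqm P k (x - z) (y - w) := by
  unfold Eqm at *
  have := QO.sub h h'
  rwa [show x - y - (z - w) = x - z - (y - w) by ring] at this

lemma Eqm.neg {x y : RatFunc ℚ} (h : Eqm P k x y) : Eqm P k (-x) (-y) := by
  unfold Eqm at *
  have := QO.neg h
  rwa [show -(x - y) = -x - -y by ring] at this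

lemma Eqm.mem {x y : RatFunc ℚ} (h : Eqm P k x y) (hy : y ∈ Loc P) : x ∈ Loc P := by
  have := (Loc P).add_mem (QO.mem h) hy
  rwa [sub_add_cancel] at this

lemma Eqm.mul {x y z w : RatFunc ℚ} (h : Eqm P k x y) (h' : Eqm P k z w) (hy : y ∈ Loc P) (hw : w ∈ Loc P) :
    Eqm P k (x * z) (y * w) := by
  have h1 := (QO.mul_right h (h'.mem hw)).add (QO.mul_left hy h')
  unfold Eqm
  rwa [show (x - y) * z + y * (z - w) = x * z - y * w by ring] at h1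

lemma Eqm.mul_left {x y c : RatFunc ℚ} (hc : c ∈ Loc P) (h : Eqm P k x y) : Eqm P k (c * x) (c * y) := by
  unfold Eqm at *
  rw [← mul_sub]; exact QO.mul_left hc h

lemma Eqm.sum {ι : Type*} {s : Finset ι} {f g : ι → RatFunc ℚ} (h : ∀ i ∈ s, Eqm P k (f i) (g i)) :
    Eqm P k (∑ i ∈ s, f i) (∑ i ∈ s, g i) := by
  unfold Eqm
  rw [← sum_sub_distrib]
  exact QO.sum h

lemma Eqm.prod {ι : Type*} {s : Finset ι} {f g : ι → RatFunc ℚ} (h : ∀ i ∈ s, Eqm P k (f i) (g i))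
    (hg : ∀ i ∈ s, g i ∈ Loc P) : Eqm P k (∏ i ∈ s, f i) (∏ i ∈ s, g i) := by
  classical
  induction s using Finset.induction_on with
  | empty => simpa using Eqm.refl (P := P) (k := k) 1
  | insert i s hi ih =>
    rw [prod_insert hi, prod_insert hi]
    exact (h i (mem_insert_self i s)).mul (ih (fun j hj => h j (mem_insert_of_mem hj))
      (fun j hj => hg j (mem_insert_of_mem hj))) (hg i (mem_insert_self i s))
      ((Loc P).prod_mem (fun j hj => hg j (mem_insert_of_mem hj)))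

lemma Eqm.pow {x y : RatFunc ℚ} (h : Eqm P k x y) (hy : y ∈ Loc P) (m : ℕ) : Eqm P k (x ^ m) (y ^ m) := by
  induction m with
  | zero => simpa using Eqm.refl (P := P) (k := k) 1
  | succ m ih =>
    rw [pow_succ, pow_succ]
    exact ih.mul h ((Loc P).pow_mem hy m) hy

lemma U_iff {x : RatFunc ℚ} : U P k x ↔ Eqm P k x 1 := Iff.rfl

lemma rat_mem (P : ℚ[X]) (r : ℚ) : (r : RatFunc ℚ) ∈ Loc P := by
  have : (r : RatFunc ℚ) = al (C r) := by
    rw [show (r : RatFunc ℚ) = algebraMap ℚ (RatFunc ℚ) r from (eq_ratCast (algebraMap ℚ (RatFunc ℚ)) r).symm]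
    exact IsScalarTower.algebraMap_apply ℚ ℚ[X] (RatFunc ℚ) r
  rw [this]; exact al_mem P _

lemma nat_mem (P : ℚ[X]) (r : ℕ) : (r : RatFunc ℚ) ∈ Loc P := by
  have := rat_mem P (r : ℚ); rwa [Rat.cast_natCast] at this

lemma int_mem (P : ℚ[X]) (r : ℤ) : (r : RatFunc ℚ) ∈ Loc P := by
  have := rat_mem P (r : ℚ); rwa [Rat.cast_intCast] at this

/-- inverse of an element congruent to a nonzero rational number -/
lemma Eqm.inv {x : RatFunc ℚ} {r : ℚ} (hr : r ≠ 0) (hk : 0 < k) (h : Eqm P k x r) :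
    Eqm P k x⁻¹ ((r⁻¹ : ℚ) : RatFunc ℚ) := by
  have hr' : (r : RatFunc ℚ) ≠ 0 := by exact_mod_cast hr
  have h1 : U P k (((r⁻¹ : ℚ) : RatFunc ℚ) * x) := by
    have := Eqm.mul_left (rat_mem P r⁻¹) h
    rw [Rat.cast_inv, inv_mul_cancel₀ hr'] at this
    rw [Rat.cast_inv]; exact this
  have h2 := h1.inv hk
  have h3 := Eqm.mul_left (rat_mem P r⁻¹) h2
  rw [mul_one, mul_inv, Rat.cast_inv, inv_inv, ← mul_assoc, inv_mul_cancel₀ hr', one_mul] at h3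
  rw [Rat.cast_inv]; exact h3

lemma Eqm.div {x y : RatFunc ℚ} {r s : ℚ} (hk : 0 < k) (h : Eqm P k x r) (h' : Eqm P k y s) (hs : s ≠ 0) :
    Eqm P k (x / y) ((r / s : ℚ) : RatFunc ℚ) := by
  rw [div_eq_mul_inv, div_eq_mul_inv, Rat.cast_mul]
  exact h.mul (h'.inv hs hk) (rat_mem P r) (rat_mem P _)

/-! ### the elements `1 - q^z` -/

/-- `1 - q^z` for an integer `z` -/
def e (z : ℤ) : RatFunc ℚ := 1 - q ^ z

lemma e_nat (b : ℕ) : e (b : ℤ) = 1 - q ^ b := by unfold e; rw [zpow_natCast]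

lemma e_neg (z : ℤ) : e (-z) = -((q ^ z)⁻¹ * e z) := by
  unfold e
  rw [zpow_neg]
  have : q ^ z ≠ 0 := zpow_ne_zero z q_ne
  field_simp
  ring

lemma e_ne {z : ℤ} (hz : z ≠ 0) : e z ≠ 0 := by
  rcases Int.natAbs_eq z with h | h
  · rw [h, e_nat]; exact one_sub_ne (Int.natAbs_pos.2 hz)
  · rw [h, e_neg, e_nat]
    exact neg_ne_zero.2 (mul_ne_zero (inv_ne_zero (zpow_ne_zero _ q_ne)) (one_sub_ne (Int.natAbs_pos.2 hz)))

variable {n : ℕ}

lemma cop_X' (hn : 0 < n) : IsCoprime (X : ℚ[X]) (cyclotomic n ℚ) := by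
  obtain ⟨c, hc⟩ := cyclotomic.dvd_X_pow_sub_one n ℚ
  obtain ⟨m, rfl⟩ : ∃ m, n = m + 1 := ⟨n - 1, by omega⟩
  refine ⟨X ^ m, -c, ?_⟩
  rw [pow_succ] at hc
  linear_combination hc

lemma zmem (hn : 0 < n) (z : ℤ) : q ^ z ∈ Loc (cyclotomic n ℚ) := by
  have h1 : q⁻¹ ∈ Loc (cyclotomic n ℚ) := by rw [q_eq]; exact inv_mem (cop_X' hn)
  rcases Int.natAbs_eq z with h | h
  · rw [h, zpow_natCast]; exact (Loc _).pow_mem (q_mem _) _
  · rw [h, zpow_neg, zpow_natCast, ← inv_pow]; exact (Loc _).pow_mem h1 _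

lemma e_mem (hn : 0 < n) (z : ℤ) : e z ∈ Loc (cyclotomic n ℚ) :=
  (Loc _).sub_mem (Loc _).one_mem (zmem hn z)

lemma e_inv (hn : 0 < n) {z : ℤ} (hz : ¬ (n : ℤ) ∣ z) : (e z)⁻¹ ∈ Loc (cyclotomic n ℚ) := by
  have hd : ¬ n ∣ z.natAbs := by rwa [← Int.natCast_dvd]
  rcases Int.natAbs_eq z with h | h
  · rw [h, e_nat]; exact inv_one_sub_mem hd
  · rw [h, e_neg, e_nat, inv_neg, mul_inv, inv_inv]
    exact (Loc _).neg_mem ((Loc _).mul_mem (zmem hn _) (inv_one_sub_mem hd))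

lemma e_QO (hn : 0 < n) {z : ℤ} (hz : (n : ℤ) ∣ z) : QO (cyclotomic n ℚ) 1 (e z) := by
  have hd : n ∣ z.natAbs := by rwa [← Int.natCast_dvd]
  rcases Int.natAbs_eq z with h | h
  · rw [h, e_nat]; exact QO_one_sub hd
  · rw [h, e_neg, e_nat]
    have h1 : (q ^ ((z.natAbs : ℕ) : ℤ))⁻¹ ∈ Loc (cyclotomic n ℚ) := by
      rw [← zpow_neg]; exact zmem hn _
    exact (QO.mul_left h1 (QO_one_sub hd)).neg

/-! ### powers of `x = q^{sn}` -/

/-- `x ^ z ≡ 1 + z (x - 1)` -/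
lemma zp {x : RatFunc ℚ} (hx : QO P 1 (x - 1)) (hx0 : x ≠ 0) (hxi : x⁻¹ ∈ Loc P) (z : ℤ) :
    Eqm P 2 (x ^ z) (1 + z * (x - 1)) := by
  have hxm : x ∈ Loc P := by
    have := (Loc P).add_mem hx.mem (Loc P).one_mem
    rwa [sub_add_cancel] at this
  have hx2 : QO P 2 ((x - 1) * (x - 1)) := hx.mul hx
  induction z using Int.induction_on with
  | zero => simpa using Eqm.refl (P := P) (k := 2) 1
  | succ i ih =>
    rw [zpow_add_one₀ hx0]
    unfold Eqm at *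
    have h1 := (QO.mul_right ih hxm).add (QO.mul_left (int_mem P i) hx2)
    push_cast at h1 ⊢
    convert h1 using 1
    ring
  | pred i ih =>
    rw [zpow_sub_one₀ hx0]
    unfold Eqm at *
    have h1 := (QO.mul_right ih hxi).add (QO.mul_left ((Loc P).mul_mem ((Loc P).add_mem (nat_mem P i) (Loc P).one_mem) hxi) hx2)
    push_cast at h1 ⊢
    convert h1 using 1
    field_simp
    ring

/-- `(1 - x^z)/(1 - x)` -/
def Gz (x : RatFunc ℚ) (z : ℤ) : RatFunc ℚ := (1 - x ^ z) / (1 - x)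

lemma Gz_eqm {x : RatFunc ℚ} (hx : QO P 1 (x - 1)) (hx0 : x ≠ 0) (hx1 : 1 - x ≠ 0) (hxi : x⁻¹ ∈ Loc P) (z : ℤ) :
    Eqm P 2 (Gz x z) (z + z * (z - 1) / 2 * (x - 1)) := by
  have hx2 : QO P 2 ((x - 1) * (x - 1)) := hx.mul hx
  induction z using Int.induction_on with
  | zero => unfold Gz; simpa using Eqm.refl (P := P) (k := 2) 0
  | succ i ih =>
    have h1 : Gz x ((i : ℤ) + 1) = Gz x i + x ^ (i : ℤ) := by
      unfold Gz
      rw [zpow_add_one₀ hx0]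
      field_simp
      ring
    rw [h1]
    have h2 := ih.add (zp hx hx0 hxi i)
    convert h2 using 1
    push_cast
    ring
  | pred i ih =>
    have h1 : Gz x (-(i : ℤ) - 1) = Gz x (-(i : ℤ)) - x ^ (-(i : ℤ) - 1) := by
      unfold Gz
      have : x ^ (-(i : ℤ)) = x ^ (-(i : ℤ) - 1) * x := by
        rw [← zpow_add_one₀ hx0]; congr 1; ring
      rw [this]
      field_simp
      ring
    rw [h1]
    have h2 := ih.sub (zp hx hx0 hxi (-(i : ℤ) - 1))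
    convert h2 using 1
    push_cast
    ring

lemma Gz_one {x : RatFunc ℚ} (hx : QO P 1 (x - 1)) (hx0 : x ≠ 0) (hx1 : 1 - x ≠ 0) (hxi : x⁻¹ ∈ Loc P) (z : ℤ) :
    Eqm P 1 (Gz x z) ((z : ℚ) : RatFunc ℚ) := by
  have h := (Gz_eqm hx hx0 hx1 hxi z).le (show 1 ≤ 2 by norm_num)
  refine h.trans ?_
  unfold Eqm
  have hm : ((z * (z - 1) / 2 : ℚ) : RatFunc ℚ) ∈ Loc P := rat_mem P _
  have := QO.mul_left hm hx
  convert this using 1
  push_cast
  ring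

lemma Gz_mem {x : RatFunc ℚ} (hx : QO P 1 (x - 1)) (hx0 : x ≠ 0) (hx1 : 1 - x ≠ 0) (hxi : x⁻¹ ∈ Loc P) (z : ℤ) :
    Gz x z ∈ Loc P := (Gz_one hx hx0 hx1 hxi z).mem (rat_mem P _)

lemma Gz_inv_mem {x : RatFunc ℚ} (hx : QO P 1 (x - 1)) (hx0 : x ≠ 0) (hx1 : 1 - x ≠ 0) (hxi : x⁻¹ ∈ Loc P) {z : ℤ}
    (hz : z ≠ 0) : (Gz x z)⁻¹ ∈ Loc P :=
  ((Gz_one hx hx0 hx1 hxi z).inv (by exact_mod_cast hz) (by norm_num)).mem (rat_mem P _)

/-- the ratio of the deformed factors to the original ones, at a multiple of `n` -/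
lemma ratio_mult {x : RatFunc ℚ} (hx : QO P 1 (x - 1)) (hx0 : x ≠ 0) (hx1 : 1 - x ≠ 0) (hxi : x⁻¹ ∈ Loc P)
    {c : ℤ} (M : ℤ) (hc : c ≠ 0) (hxc : 1 - x ^ c ≠ 0) :
    Eqm P 2 (Gz x (c + M) * Gz x (c - M) / Gz x c ^ 2) ((((c : ℚ) ^ 2 - M ^ 2) / c ^ 2 : ℚ) : RatFunc ℚ) := by
  have hx2 : QO P 2 ((x - 1) * (x - 1)) := hx.mul hx
  have hG0 : Gz x c ≠ 0 := div_ne_zero hxc hx1
  have hcK : (c : RatFunc ℚ) ≠ 0 := by exact_mod_cast hc
  have hxm := hx.mem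
  have am : ∀ z : ℤ, ((z : RatFunc ℚ) + z * (z - 1) / 2 * (x - 1)) ∈ Loc P := by
    intro z
    have h1 : (((z : ℚ) * (z - 1) / 2 : ℚ) : RatFunc ℚ) ∈ Loc P := rat_mem P _
    push_cast at h1
    exact (Loc P).add_mem (int_mem P z) ((Loc P).mul_mem h1 hxm)
  have hA := Gz_eqm hx hx0 hx1 hxi (c + M)
  have hB := Gz_eqm hx hx0 hx1 hxi (c - M)
  have hC := Gz_eqm hx hx0 hx1 hxi c
  have h1 := hA.mul hB (am _) (am _)
  have h2 := (hC.mul hC (am _) (am _)).mul_left (rat_mem P (((c : ℚ) ^ 2 - M ^ 2) / c ^ 2))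
  have h3 : QO P 2 ((((-(((c : ℚ) ^ 2 - M ^ 2) * M ^ 2 / 4) : ℚ)) : RatFunc ℚ) * ((x - 1) * (x - 1))) :=
    QO.mul_left (rat_mem P _) hx2
  have h4 := (h1.sub h2).trans (y := (((c + M : ℤ) : RatFunc ℚ) + ((c + M : ℤ) : RatFunc ℚ) * (((c + M : ℤ) : RatFunc ℚ) - 1) / 2 * (x - 1)) *
      (((c - M : ℤ) : RatFunc ℚ) + ((c - M : ℤ) : RatFunc ℚ) * (((c - M : ℤ) : RatFunc ℚ) - 1) / 2 * (x - 1)) -
      ((((c : ℚ) ^ 2 - M ^ 2) / c ^ 2 : ℚ) : RatFunc ℚ) * (((c : RatFunc ℚ) + c * (c - 1) / 2 * (x - 1)) * ((c : RatFunc ℚ) + c * (c - 1) / 2 * (x - 1)))) (z := 0) (by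
      unfold Eqm
      rw [sub_zero]
      convert h3 using 1
      push_cast
      field_simp
      ring)
  have h5 := QO.mul_right h4 ((Loc P).pow_mem (Gz_inv_mem hx hx0 hx1 hxi hc) 2)
  unfold Eqm
  convert h5 using 1
  rw [sub_zero]
  field_simp

variable {s : ℕ}

/-- the ratio of the deformed factors to the original ones -/
def rho (s n : ℕ) (M : ℤ) (a : ℤ) : RatFunc ℚ :=
  e (s * (a + M * n)) * e (s * (a - M * n)) / e (s * a) ^ 2

lemma not_dvd_mul (hs : Nat.Coprime s n) {a : ℤ} (ha : ¬ (n : ℤ) ∣ a) : ¬ (n : ℤ) ∣ s * a := by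
  intro h
  apply ha
  have h1 : IsCoprime (n : ℤ) (s : ℤ) := (Nat.isCoprime_iff_coprime.2 hs).symm
  exact h1.dvd_of_dvd_mul_left h

lemma rho_U (hn : 0 < n) (hs : Nat.Coprime s n) (M : ℤ) {a : ℤ} (ha : ¬ (n : ℤ) ∣ a) :
    U (cyclotomic n ℚ) 2 (rho s n M a) := by
  have h0 : ¬ (n : ℤ) ∣ s * a := not_dvd_mul hs ha
  have hne : e (s * a) ≠ 0 := e_ne (fun h => h0 (h ▸ dvd_zero _))
  have hq := q_ne
  have h1 : QO (cyclotomic n ℚ) 2 (-(q ^ ((s : ℤ) * a) * q ^ (-((s : ℤ) * (M * n)))) * (e (s * (M * n)) * e (s * (M * n)))) := by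
    have hd : QO (cyclotomic n ℚ) 1 (e (s * (M * n))) := e_QO hn (Dvd.dvd.mul_left (dvd_mul_left _ _) _)
    exact QO.mul_left ((Loc _).neg_mem ((Loc _).mul_mem (zmem hn _) (zmem hn _))) (hd.mul hd)
  have h2 := QO.mul_right h1 ((Loc _).pow_mem (e_inv hn h0) 2)
  unfold U rho
  convert h2 using 1
  have e1 : e (s * (a + M * n)) * e (s * (a - M * n)) - e (s * a) ^ 2 =
      -(q ^ ((s : ℤ) * a) * q ^ (-((s : ℤ) * (M * n)))) * (e (s * (M * n)) * e (s * (M * n))) := by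
    unfold e
    rw [show (s : ℤ) * (a + M * n) = s * a + s * (M * n) by ring,
      show (s : ℤ) * (a - M * n) = s * a - s * (M * n) by ring, zpow_add₀ hq, zpow_sub₀ hq, zpow_neg]
    have hx : q ^ ((s : ℤ) * (M * n)) ≠ 0 := zpow_ne_zero _ hq
    field_simp
    ring
  rw [← e1]
  field_simp

lemma x_props (hn : 0 < n) (hs : 0 < s) : QO (cyclotomic n ℚ) 1 (q ^ (s * n) - 1) ∧ q ^ (s * n) ≠ 0 ∧
    1 - q ^ (s * n) ≠ 0 ∧ (q ^ (s * n))⁻¹ ∈ Loc (cyclotomic n ℚ) := by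
  refine ⟨?_, pow_ne_zero _ q_ne, one_sub_ne (Nat.mul_pos hs hn), ?_⟩
  · have := (QO_one_sub (N := n) (b := s * n) (dvd_mul_left _ _)).neg
    rwa [neg_sub] at this
  · have := zmem hn (-((s * n : ℕ) : ℤ))
    rwa [zpow_neg, zpow_natCast] at this

lemma e_Gz (hn : 0 < n) (hs : 0 < s) (z : ℤ) : e (s * (z * n)) = (1 - q ^ (s * n)) * Gz (q ^ (s * n)) z := by
  have h1 := (x_props hn hs).2.2.1
  have h2 : q ^ ((s : ℤ) * (z * n)) = (q ^ (s * n)) ^ z := by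
    rw [← zpow_natCast q (s * n), ← zpow_mul]; congr 1; push_cast; ring
  unfold e Gz
  rw [h2, mul_div_cancel₀ _ h1]

lemma rho_mult (hn : 0 < n) (hs : 0 < s) (M : ℤ) {c : ℤ} (hc : c ≠ 0) :
    Eqm (cyclotomic n ℚ) 2 (rho s n M (c * n)) ((((c : ℚ) ^ 2 - M ^ 2) / c ^ 2 : ℚ) : RatFunc ℚ) := by
  obtain ⟨hx, hx0, hx1, hxi⟩ := x_props hn hs
  have h3 : 1 - (q ^ (s * n)) ^ c ≠ 0 := by
    have h4 := e_Gz hn hs c
    have h5 : e (s * (c * n)) ≠ 0 := e_ne (by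
      have : (n : ℤ) ≠ 0 := by exact_mod_cast hn.ne'
      have h8 : (s : ℤ) ≠ 0 := by exact_mod_cast hs.ne'
      exact mul_ne_zero h8 (mul_ne_zero hc this))
    intro h6
    apply h5
    rw [h4]; unfold Gz; rw [h6]; simp
  have h := ratio_mult hx hx0 hx1 hxi M hc h3
  convert h using 1
  unfold rho
  rw [← add_mul, ← sub_mul, e_Gz hn hs, e_Gz hn hs, e_Gz hn hs]
  have hG0 : Gz (q ^ (s * n)) c ≠ 0 := div_ne_zero h3 hx1
  field_simp

end

end Pool.Agent.X14.QBlock
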