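import Pool.Agent.X14.QBlock

set_option autoImplicit false

/-! Block decomposition of `q`-sums modulo powers of cyclotomic polynomials: sums over blocks. -/

namespace Pool.Agent.X14.QBlock

open Finset Polynomial Pool.Agent.X14.QL

noncomputable section

lemma sum_range_blocks {M : Type*} [AddCommMonoid M] (n c : ℕ) (g : ℕ → M) :
    ∑ j ∈ range (n * c), g j = ∑ m ∈ range c, ∑ j ∈ range n, g (n * m + j) := by
  induction c with
  | zero => simp
  | succ c ih =>
    rw [Nat.mul_succ, Finset.sum_range_add, ih, sum_range_succ]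

lemma prod_range_blocks {M : Type*} [CommMonoid M] (n J l : ℕ) (f : ℕ → M) :
    ∏ j ∈ range (n * J + l), f j = (∏ i ∈ range J, ∏ t ∈ range n, f (n * i + t)) * ∏ t ∈ range l, f (n * J + t) := by
  rw [prod_range_add]
  congr 1
  induction J with
  | zero => simp
  | succ c ih =>
    rw [Nat.mul_succ, Finset.prod_range_add, ih, prod_range_succ]

variable {P : ℚ[X]} {k n : ℕ}

lemma prod_one_block (f : ℕ → RatFunc ℚ) {t0 : ℕ} (ht0 : t0 < n) (hU : ∀ t, t < n → t ≠ t0 → U P k (f t))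
    {y : RatFunc ℚ} (hy : y ∈ Loc P) (h0 : Eqm P k (f t0) y) : Eqm P k (∏ t ∈ range n, f t) y := by
  rw [← mul_prod_erase _ _ (mem_range.2 ht0)]
  have h1 : U P k (∏ t ∈ (range n).erase t0, f t) := by
    apply U.prod
    intro t ht
    rw [mem_erase, mem_range] at ht
    exact hU t ht.2 ht.1
  have := h0.mul (U_iff.1 h1) hy (Loc P).one_mem
  rwa [mul_one] at this

lemma prod_blocks_eqm (f y : ℕ → RatFunc ℚ) {t0 l : ℕ} (J : ℕ) (ht0 : t0 < n)
    (hU : ∀ i t, t < n → t ≠ t0 → U P k (f (n * i + t))) (hy : ∀ i, y i ∈ Loc P)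
    (h0 : ∀ i, Eqm P k (f (n * i + t0)) (y i)) (hl : l ≤ t0) :
    Eqm P k (∏ j ∈ range (n * J + l), f j) (∏ i ∈ range J, y i) := by
  rw [prod_range_blocks]
  have h1 : Eqm P k (∏ i ∈ range J, ∏ t ∈ range n, f (n * i + t)) (∏ i ∈ range J, y i) :=
    Eqm.prod (fun i _ => prod_one_block (fun t => f (n * i + t)) ht0 (fun t ht htt => hU i t ht htt) (hy i) (h0 i))
      (fun i _ => hy i)
  have h2 : U P k (∏ t ∈ range l, f (n * J + t)) := by
    apply U.prod
    intro t ht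
    rw [mem_range] at ht
    exact hU J t (by omega) (by omega)
  have := h1.mul (U_iff.1 h2) ((Loc P).prod_mem (fun i _ => hy i)) (Loc P).one_mem
  rwa [mul_one] at this

lemma ratio_blocks (f g : ℕ → RatFunc ℚ) {t0 t1 l : ℕ} (J : ℕ) (ht0 : t0 < n) (ht1 : t1 < n)
    (hf : ∀ j, f j ∈ Loc P) (hg : ∀ i t, t < n → t ≠ t1 → (g (n * i + t))⁻¹ ∈ Loc P)
    (h01 : ∀ i, f (n * i + t0) / g (n * i + t1) ∈ Loc P) (hl : l ≤ t1) :
    (∏ j ∈ range (n * J + l), f j / g j) ∈ Loc P ∧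
      (t0 < l → QO P 1 (f (n * J + t0)) → QO P 1 (∏ j ∈ range (n * J + l), f j / g j)) := by
  have h1 : (∏ i ∈ range J, ∏ t ∈ range n, f (n * i + t) / g (n * i + t)) ∈ Loc P := by
    apply (Loc P).prod_mem
    intro i _
    rw [prod_div_distrib, ← mul_prod_erase _ _ (mem_range.2 ht0),
      ← mul_prod_erase _ (fun t => g (n * i + t)) (mem_range.2 ht1), mul_div_mul_comm]
    refine (Loc P).mul_mem (h01 i) ?_
    rw [div_eq_mul_inv]
    refine (Loc P).mul_mem ((Loc P).prod_mem (fun t _ => hf _)) ?_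
    rw [← prod_inv_distrib]
    apply (Loc P).prod_mem
    intro t ht
    rw [mem_erase, mem_range] at ht
    exact hg i t ht.2 ht.1
  have h2 : (∏ t ∈ range l, (g (n * J + t))⁻¹) ∈ Loc P := by
    apply (Loc P).prod_mem
    intro t ht
    rw [mem_range] at ht
    exact hg J t (by omega) (by omega)
  have h3 : ∏ j ∈ range (n * J + l), f j / g j = (∏ i ∈ range J, ∏ t ∈ range n, f (n * i + t) / g (n * i + t)) *
      ((∏ t ∈ range l, f (n * J + t)) * ∏ t ∈ range l, (g (n * J + t))⁻¹) := by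
    rw [prod_range_blocks, ← prod_mul_distrib]
    simp only [div_eq_mul_inv]
  rw [h3]
  constructor
  · exact (Loc P).mul_mem h1 ((Loc P).mul_mem ((Loc P).prod_mem (fun t _ => hf _)) h2)
  · intro hl0 hq
    refine QO.mul_left h1 (QO.mul_right ?_ h2)
    rw [← mul_prod_erase _ _ (mem_range.2 hl0)]
    exact QO.mul_right hq ((Loc P).prod_mem (fun t _ => hf _))

/-- the sum over the blocks -/
lemma block_main {term W : ℕ → RatFunc ℚ} {h μ : ℕ} {w : ℕ → ℚ}
    (ht : ∀ J l, l < n → term (n * J + l) ∈ Loc P) (ht2 : ∀ J l, h < l → l < n → QO P k (term (n * J + l)))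
    (hW : ∀ J l, J ≤ μ → l < n → W (n * J + l) ∈ Loc P)
    (hWl : ∀ J l, J ≤ μ → l ≤ h → l < n → Eqm P k (W (n * J + l)) (w J)) :
    Eqm P k (∑ j ∈ range (n * (μ + 1)), term j * W j)
      (∑ J ∈ range (μ + 1), (w J : RatFunc ℚ) * ∑ l ∈ range n, term (n * J + l)) := by
  rw [sum_range_blocks]
  apply Eqm.sum
  intro J hJ
  rw [mem_range] at hJ
  rw [mul_sum]
  apply Eqm.sum
  intro l hl
  rw [mem_range] at hl
  rw [mul_comm (w J : RatFunc ℚ)]
  rcases Nat.lt_or_ge h l with h1 | h1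
  · unfold Eqm
    rw [← mul_sub]
    exact QO.mul_right (ht2 J l h1 hl) ((Loc P).sub_mem (hW J l (by omega) hl) (rat_mem P _))
  · exact Eqm.mul_left (ht J l hl) (hWl J l (by omega) h1 hl)

/-- solving the triangular system -/
lemma tri {B V : ℕ → RatFunc ℚ} {C : RatFunc ℚ} {w : ℕ → ℕ → ℚ} {b v : ℕ → ℚ}
    (h1 : ∀ μ, Eqm P k (∑ J ∈ range (μ + 1), (w μ J : RatFunc ℚ) * B J) (V μ))
    (h2 : ∀ μ, ∑ J ∈ range (μ + 1), w μ J * b J = v μ)
    (h3 : ∀ μ, Eqm P k (V μ) (C * (v μ : ℚ))) (h4 : ∀ μ, w μ μ ≠ 0) :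
    ∀ J, Eqm P k (B J) (C * (b J : ℚ)) := by
  intro J
  induction J using Nat.strong_induction_on with
  | _ J ih =>
    have a1 := (h1 J).trans (h3 J)
    rw [← h2 J, sum_range_succ, sum_range_succ] at a1
    have a2 : Eqm P k (∑ i ∈ range J, (w J i : RatFunc ℚ) * B i) (∑ i ∈ range J, (w J i : RatFunc ℚ) * (C * (b i : ℚ))) := by
      apply Eqm.sum
      intro i hi
      exact Eqm.mul_left (rat_mem P _) (ih i (mem_range.1 hi))
    have a3 := a1.sub a2
    have a4 := Eqm.mul_left (rat_mem P (w J J)⁻¹) a3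
    have hw : (w J J : RatFunc ℚ) ≠ 0 := by exact_mod_cast h4 J
    have e1 : ((w J J)⁻¹ : ℚ) * ((∑ i ∈ range J, (w J i : RatFunc ℚ) * B i + (w J J : RatFunc ℚ) * B J) -
        ∑ i ∈ range J, (w J i : RatFunc ℚ) * B i) = B J := by
      push_cast
      field_simp
      ring
    have e2 : (((w J J)⁻¹ : ℚ) : RatFunc ℚ) * (C * ((∑ i ∈ range J, w J i * b i + w J J * b J : ℚ) : RatFunc ℚ) -
        ∑ i ∈ range J, (w J i : RatFunc ℚ) * (C * (b i : ℚ))) = C * (b J : ℚ) := by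
      have : ∑ i ∈ range J, (w J i : RatFunc ℚ) * (C * (b i : ℚ)) = C * ((∑ i ∈ range J, w J i * b i : ℚ) : RatFunc ℚ) := by
        push_cast
        rw [mul_sum]
        apply sum_congr rfl
        intro i _
        ring
      rw [this]
      push_cast
      field_simp
      ring
    rw [e1, e2] at a4
    exact a4

/-- a rational number divisible by `Φ_1` is zero -/
lemma const_zero {r : ℚ} (h : QO (cyclotomic 1 ℚ) 1 (r : RatFunc ℚ)) : r = 0 := by
  by_contra hr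
  have hr' : (r : RatFunc ℚ) ≠ 0 := by exact_mod_cast hr
  have h1 := QO.mul_left (rat_mem _ r⁻¹) h
  rw [Rat.cast_inv, inv_mul_cancel₀ hr'] at h1
  have h2 := h1.num_denom.1
  rw [RatFunc.num_one, pow_one, cyclotomic_one] at h2
  have h3 := isUnit_of_dvd_one h2
  have h4 := natDegree_eq_zero_of_isUnit h3
  have h5 : (X - 1 : ℚ[X]).natDegree = 1 := by
    have := natDegree_X_sub_C (1 : ℚ); rwa [C_1] at this
  omega

/-- the classical identity obtained from the `q`-identity at `q = 1` -/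
lemma eval_one {term W : ℕ → RatFunc ℚ} {V : RatFunc ℚ} {μ : ℕ} {w b : ℕ → ℚ} {v : ℚ}
    (h0 : ∑ j ∈ range (μ + 1), term j * W j = V)
    (h1 : ∀ j, j ≤ μ → Eqm (cyclotomic 1 ℚ) 1 (term j) (b j)) (h2 : ∀ j, j ≤ μ → Eqm (cyclotomic 1 ℚ) 1 (W j) (w j))
    (h3 : Eqm (cyclotomic 1 ℚ) 1 V v) : ∑ j ∈ range (μ + 1), w j * b j = v := by
  have h4 : Eqm (cyclotomic 1 ℚ) 1 V ((∑ j ∈ range (μ + 1), w j * b j : ℚ) : RatFunc ℚ) := by
    rw [← h0]
    push_cast
    apply Eqm.sum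
    intro j hj
    have hj' := mem_range.1 hj
    rw [mul_comm (w j : RatFunc ℚ)]
    exact (h1 j (by omega)).mul (h2 j (by omega)) (rat_mem _ _) (rat_mem _ _)
  have h5 := h4.symm.trans h3
  unfold Eqm at h5
  have h6 : QO (cyclotomic 1 ℚ) 1 ((∑ j ∈ range (μ + 1), w j * b j - v : ℚ) : RatFunc ℚ) := by
    rwa [Rat.cast_sub]
  exact sub_eq_zero.1 (const_zero h6)

end

end Pool.Agent.X14.QBlock
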