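import Mathlib

set_option autoImplicit false

/-! The terminating balanced very well poised `8φ7` sum (Jackson). -/

namespace Pool.Agent.X14.QJ

open Finset

section
set_option linter.unusedSectionVars false
variable {K : Type*} [Field K]

/-- the products `(a, 1/b, 1/c, 1/d, a²bcd q^{m+1}, q^{-m}; q)_k / (q, abq, acq, adq, q^{-m}/(abcd), a q^{m+1}; q)_k q^k` -/
def jk (q a b c d : K) (m k : ℕ) : K :=
  ∏ j ∈ range k, ((1 - a * q ^ j) * ((b - q ^ j) * (c - q ^ j) * (d - q ^ j)) * (q ^ m - q ^ j) *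
      (1 - a * (a * b * c * d * q ^ (m + 1 + j))) * (a * q)) /
    ((1 - q ^ (j + 1)) * ((1 - a * b * q ^ (j + 1)) * (1 - a * c * q ^ (j + 1)) * (1 - a * d * q ^ (j + 1))) *
      (a * b * c * d * q ^ m - q ^ j) * (1 - a * q ^ (m + 1 + j)))

variable {q a b c d : K}

lemma jk_succ (m k : ℕ) : jk q a b c d m (k + 1) = jk q a b c d m k *
    (((1 - a * q ^ k) * ((b - q ^ k) * (c - q ^ k) * (d - q ^ k)) * (q ^ m - q ^ k) *
      (1 - a * (a * b * c * d * q ^ (m + 1 + k))) * (a * q)) /
    ((1 - q ^ (k + 1)) * ((1 - a * b * q ^ (k + 1)) * (1 - a * c * q ^ (k + 1)) * (1 - a * d * q ^ (k + 1))) *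
      (a * b * c * d * q ^ m - q ^ k) * (1 - a * q ^ (m + 1 + k)))) := by
  unfold jk; rw [prod_range_succ]

lemma jk_zero_of_lt {m k : ℕ} (h : m < k) : jk q a b c d m k = 0 := by
  unfold jk
  apply prod_eq_zero (mem_range.2 h)
  simp

lemma jk_shift (hq : q ≠ 0) (ha : ∀ k : ℕ, 1 - a * q ^ (k + 1) ≠ 0)
    (hl : ∀ i j : ℕ, a * b * c * d * q ^ i - q ^ j ≠ 0) (hal : ∀ i : ℕ, 1 - a * (a * b * c * d * q ^ i) ≠ 0) (m k : ℕ) :
    jk q a b c d (m + 1) k * ((q ^ (m + 1) - q ^ k) * (1 - a * q ^ (m + 1 + k))) *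
        ((a * b * c * d * q ^ (m + 1) - 1) * (1 - a * (a * b * c * d * q ^ (m + 1)))) =
      jk q a b c d m k * ((q ^ (m + 1) - 1) * (1 - a * q ^ (m + 1))) *
        ((a * b * c * d * q ^ (m + 1) - q ^ k) * (1 - a * (a * b * c * d * q ^ (m + 1 + k)))) := by
  induction k with
  | zero => simp [jk]
  | succ k ih =>
    rw [jk_succ, jk_succ]
    have h1 : 1 - a * q ^ (m + 1 + k) ≠ 0 := by
      have := ha (m + k); rwa [show m + k + 1 = m + 1 + k by ring] at this
    have h2 : 1 - a * q ^ (m + 1 + 1 + k) ≠ 0 := by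
      have := ha (m + 1 + k); rwa [show m + 1 + k + 1 = m + 1 + 1 + k by ring] at this
    have h3 := hl m k
    have h4 := hl (m + 1) k
    have h5 := hal (m + 1 + k)
    have h6 : a * b * c * d * q ^ (m + 1) - q ^ (k + 1) = q * (a * b * c * d * q ^ m - q ^ k) := by ring
    have h7 : q ^ (m + 1) - q ^ (k + 1) = q * (q ^ m - q ^ k) := by ring
    have h8 : m + 1 + (k + 1) = m + 1 + 1 + k := by ring
    rw [h6, h7, h8]
    set Z := (1 - q ^ (k + 1)) * ((1 - a * b * q ^ (k + 1)) * (1 - a * c * q ^ (k + 1)) * (1 - a * d * q ^ (k + 1))) with hZ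
    set N := (1 - a * q ^ k) * ((b - q ^ k) * (c - q ^ k) * (d - q ^ k)) with hN
    set L := a * b * c * d with hL
    by_cases hZ0 : Z = 0
    · rw [hZ0]; simp
    generalize hA1 : 1 - a * q ^ (m + 1 + k) = A1 at *
    generalize hA2 : 1 - a * q ^ (m + 1 + 1 + k) = A2 at *
    generalize hB1 : L * q ^ m - q ^ k = B1 at *
    generalize hB2 : L * q ^ (m + 1) - q ^ k = B2 at *
    generalize hC1 : 1 - a * (L * q ^ (m + 1 + k)) = C1 at *
    generalize hC2 : 1 - a * (L * q ^ (m + 1 + 1 + k)) = C2 at *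
    generalize jk q a b c d (m + 1) k = v at *
    generalize jk q a b c d m k = u at *
    generalize hD1 : q ^ (m + 1) - q ^ k = D1 at *
    generalize hD2 : q ^ m - q ^ k = D2 at *
    generalize (L * q ^ (m + 1) - 1) * (1 - a * (L * q ^ (m + 1))) = W1 at *
    generalize (q ^ (m + 1) - 1) * (1 - a * q ^ (m + 1)) = W2 at *
    have e1 : v * (N * D1 * C2 * (a * q) / (Z * B2 * A2)) * (q * D2 * A2) * W1 =
        (v * (D1 * A1) * W1) * (N * C2 * (a * q) * (q * D2)) / (Z * B2 * A1) := by
      field_simp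
    rw [e1, ih]
    field_simp

/-- Jackson's sum -/
theorem jackson (hq : q ≠ 0) (hq1 : ∀ k : ℕ, 1 - q ^ (k + 1) ≠ 0) (ha : ∀ k : ℕ, 1 - a * q ^ (k + 1) ≠ 0)
    (hb : ∀ k : ℕ, 1 - a * b * q ^ (k + 1) ≠ 0) (hc : ∀ k : ℕ, 1 - a * c * q ^ (k + 1) ≠ 0)
    (hd : ∀ k : ℕ, 1 - a * d * q ^ (k + 1) ≠ 0)
    (hl : ∀ i j : ℕ, a * b * c * d * q ^ i - q ^ j ≠ 0) (hal : ∀ i : ℕ, 1 - a * (a * b * c * d * q ^ i) ≠ 0) (m : ℕ) :
    ∑ k ∈ range (m + 1), (1 - a * q ^ (2 * k)) * jk q a b c d m k =
      (1 - a) * ∏ j ∈ range m, ((1 - a * q ^ (j + 1)) * (1 - a * b * c * q ^ (j + 1)) * (1 - a * b * d * q ^ (j + 1)) *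
          (1 - a * c * d * q ^ (j + 1))) /
        ((1 - a * b * q ^ (j + 1)) * (1 - a * c * q ^ (j + 1)) * (1 - a * d * q ^ (j + 1)) * (1 - a * b * c * d * q ^ (j + 1))) := by
  induction m with
  | zero => simp [jk]
  | succ m ih =>
    rw [prod_range_succ, ← mul_assoc, ← ih]
    have hm := hq1 m
    have hbm := hb m
    have hcm := hc m
    have hdm := hd m
    have ham := ha m
    have hlm := hl (m + 1) 0
    rw [pow_zero] at hlm
    have halm := hal (m + 1)
    have hm' : q ^ (m + 1) - 1 ≠ 0 := by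
      intro h; apply hm; rw [← neg_sub, h, neg_zero]
    have hlm' : 1 - a * b * c * d * q ^ (m + 1) ≠ 0 := by
      intro h; apply hlm; rw [← neg_sub, h, neg_zero]
    -- telescoping
    have tel : ∀ k : ℕ, ∑ i ∈ range k, ((1 - a * q ^ (2 * i)) * jk q a b c d (m + 1) i -
        ((1 - a * q ^ (2 * i)) * jk q a b c d m i) * (((1 - a * q ^ (m + 1)) * (1 - a * b * c * q ^ (m + 1)) *
            (1 - a * b * d * q ^ (m + 1)) * (1 - a * c * d * q ^ (m + 1))) /
          ((1 - a * b * q ^ (m + 1)) * (1 - a * c * q ^ (m + 1)) * (1 - a * d * q ^ (m + 1)) *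
            (1 - a * b * c * d * q ^ (m + 1))))) =
        -(jk q a b c d (m + 1) k * ((1 - q ^ k) * (1 - a * b * q ^ k) * (1 - a * c * q ^ k) * (1 - a * d * q ^ k) *
            (1 - a * q ^ (m + 1 + k)) * (q ^ (m + 1) * (1 - a * (a * b * c * d * (q ^ (m + 1) * q ^ (m + 1)))) * (q ^ k)⁻¹)) /
          ((1 - a * (a * b * c * d * q ^ (m + 1 + k))) *
            ((1 - q ^ (m + 1)) * (1 - a * b * q ^ (m + 1)) * (1 - a * c * q ^ (m + 1)) * (1 - a * d * q ^ (m + 1))))) := by
      intro k
      induction k with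
      | zero => simp
      | succ k ihk =>
        rw [sum_range_succ, ihk]
        have hs := jk_shift hq ha hl hal m k
        have hx : q ^ k ≠ 0 := pow_ne_zero k hq
        have hlk := hl (m + 1) k
        have halk := hal (m + 1 + k)
        have hv : jk q a b c d m k = jk q a b c d (m + 1) k * ((q ^ (m + 1) - q ^ k) * (1 - a * q ^ (m + 1 + k))) *
              ((a * b * c * d * q ^ (m + 1) - 1) * (1 - a * (a * b * c * d * q ^ (m + 1)))) /
            ((q ^ (m + 1) - 1) * (1 - a * q ^ (m + 1)) *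
              ((a * b * c * d * q ^ (m + 1) - q ^ k) * (1 - a * (a * b * c * d * q ^ (m + 1 + k))))) := by
          rw [hs, eq_div_iff (mul_ne_zero (mul_ne_zero hm' ham) (mul_ne_zero hlk halk))]
          ring
        rw [hv, jk_succ]
        have h1 := hq1 k
        have h2 := hb k
        have h2c := hc k
        have h3 := hd k
        have h4 : 1 - a * q ^ (m + 1 + 1 + k) ≠ 0 := by
          have := ha (m + 1 + k); rwa [show m + 1 + k + 1 = m + 1 + 1 + k by ring] at this
        have h5 := hal (m + 1 + 1 + k)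
        have e2 : q ^ (2 * k) = q ^ k * q ^ k := by rw [two_mul, pow_add]
        have e3 : q ^ (m + 1 + k) = q ^ (m + 1) * q ^ k := pow_add _ _ _
        have e4 : q ^ (m + 1 + (k + 1)) = q ^ (m + 1) * (q ^ k * q) := by rw [pow_add, pow_succ q k]
        have e5 : q ^ (m + 1 + 1 + k) = q ^ (m + 1) * (q ^ k * q) := by
          rw [← e4]; congr 1; ring
        have e6 : q ^ (k + 1) = q ^ k * q := pow_succ _ _
        rw [e5] at h4 h5
        rw [e3] at halk
        rw [e6] at h1 h2 h3 h2c
        rw [e2, e3, e4, e5, e6]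
        generalize jk q a b c d (m + 1) k = v
        clear hs hv ihk ih e2 e3 e4 e5 e6
        generalize q ^ (m + 1) = Q at *
        generalize q ^ k = x at *
        have r1 : v * ((1 - a * x) * ((b - x) * (c - x) * (d - x)) * (Q - x) * (1 - a * (a * b * c * d * (Q * (x * q)))) * (a * q) /
              ((1 - x * q) * ((1 - a * b * (x * q)) * (1 - a * c * (x * q)) * (1 - a * d * (x * q))) *
                (a * b * c * d * Q - x) * (1 - a * (Q * (x * q))))) *
            ((1 - x * q) * (1 - a * b * (x * q)) * (1 - a * c * (x * q)) * (1 - a * d * (x * q)) * (1 - a * (Q * (x * q))) *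
              (Q * (1 - a * (a * b * c * d * (Q * Q))) * (x * q)⁻¹)) /
            ((1 - a * (a * b * c * d * (Q * (x * q)))) * ((1 - Q) * (1 - a * b * Q) * (1 - a * c * Q) * (1 - a * d * Q))) =
            v * ((1 - a * x) * ((b - x) * (c - x) * (d - x)) * (Q - x) * a * (Q * (1 - a * (a * b * c * d * (Q * Q)))) * x⁻¹) /
              ((a * b * c * d * Q - x) * ((1 - Q) * (1 - a * b * Q) * (1 - a * c * Q) * (1 - a * d * Q))) := by
          generalize (1 - Q) * (1 - a * b * Q) * (1 - a * c * Q) * (1 - a * d * Q) = Y1 at *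
          generalize (1 - a * (a * b * c * d * (Q * (x * q)))) = Y2 at *
          generalize (a * b * c * d * Q - x) = Y3 at *
          generalize (1 - a * (Q * (x * q))) = Y4 at *
          generalize (1 - a * b * (x * q)) = Y5 at *
          generalize (1 - a * c * (x * q)) = Y6 at *
          generalize (1 - a * d * (x * q)) = Y7 at *
          generalize (1 - x * q) = Y8 at *
          rw [mul_inv]
          field_simp
        rw [r1]
        have key : (1 - a * (x * x)) * x * (((1 - Q) * (1 - a * b * Q) * (1 - a * c * Q) * (1 - a * d * Q)) *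
              ((a * b * c * d * Q - x) * (1 - a * (a * b * c * d * (Q * x)))) -
              (Q - x) * (1 - a * (Q * x)) * (1 - a * (a * b * c * d * Q)) * ((1 - a * b * c * Q) * (1 - a * b * d * Q) * (1 - a * c * d * Q))) =
            (Q * (1 - a * (a * b * c * d * (Q * Q)))) * ((1 - x) * (1 - a * b * x) * (1 - a * c * x) * (1 - a * d * x) *
              (1 - a * (Q * x)) * (a * b * c * d * Q - x) -
              a * (1 - a * x) * ((b - x) * (c - x) * (d - x)) * (Q - x) * (1 - a * (a * b * c * d * (Q * x)))) := by ring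
        have e7 : Q - 1 = -(1 - Q) := by ring
        have e8 : a * b * c * d * Q - 1 = -(1 - a * b * c * d * Q) := by ring
        have hY : (1 - Q) * (1 - a * b * Q) * (1 - a * c * Q) * (1 - a * d * Q) ≠ 0 :=
          mul_ne_zero (mul_ne_zero (mul_ne_zero hm hbm) hcm) hdm
        rw [e7, e8]
        have r2 : (1 - a * (x * x)) * (v * ((Q - x) * (1 - a * (Q * x))) * (-(1 - a * b * c * d * Q) * (1 - a * (a * b * c * d * Q))) /
              (-(1 - Q) * (1 - a * Q) * ((a * b * c * d * Q - x) * (1 - a * (a * b * c * d * (Q * x)))))) *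
            ((1 - a * Q) * (1 - a * b * c * Q) * (1 - a * b * d * Q) * (1 - a * c * d * Q) /
              ((1 - a * b * Q) * (1 - a * c * Q) * (1 - a * d * Q) * (1 - a * b * c * d * Q))) =
            v * ((1 - a * (x * x)) * ((Q - x) * (1 - a * (Q * x)) * (1 - a * (a * b * c * d * Q)) *
              ((1 - a * b * c * Q) * (1 - a * b * d * Q) * (1 - a * c * d * Q)))) /
              (((1 - Q) * (1 - a * b * Q) * (1 - a * c * Q) * (1 - a * d * Q)) *
                ((a * b * c * d * Q - x) * (1 - a * (a * b * c * d * (Q * x))))) := by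
          clear key r1 hY
          generalize (1 - a * b * c * d * Q) = u0 at *
          generalize (1 - Q) = u1 at *
          generalize (1 - a * b * Q) = u2 at *
          generalize (1 - a * d * Q) = u3 at *
          generalize (1 - a * c * Q) = u5 at *
          generalize (1 - a * Q) = u4 at *
          generalize (a * b * c * d * Q - x) = u6 at *
          generalize (1 - a * (a * b * c * d * (Q * x))) = u7 at *
          field_simp
        rw [r2]
        generalize (1 - Q) * (1 - a * b * Q) * (1 - a * c * Q) * (1 - a * d * Q) = Y at *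
        generalize (Q * (1 - a * (a * b * c * d * (Q * Q)))) = Z at *
        generalize ((1 - a * b * c * Q) * (1 - a * b * d * Q) * (1 - a * c * d * Q)) = T at *
        generalize (1 - a * (a * b * c * d * Q)) = T2 at *
        generalize (1 - a * (a * b * c * d * (Q * x))) = u7 at *
        generalize (a * b * c * d * Q - x) = u6 at *
        field_simp
        linear_combination v * key
    have h := tel (m + 2)
    rw [jk_zero_of_lt (by omega), zero_mul, zero_div, neg_zero, sum_sub_distrib, ← sum_mul, sub_eq_zero] at h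
    rw [h, sum_range_succ _ (m + 1), jk_zero_of_lt (by omega : m < m + 1), mul_zero, add_zero]

end

end Pool.Agent.X14.QJ
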