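import Pool.Agent.X14.QW
import Pool.Agent.X14.QJ

set_option autoImplicit false

/-! Very well poised sums in base `q^4` deformed by two pairs of parameters. -/

namespace Pool.Agent.X14.QBlock

open Finset Polynomial Pool.Agent.X14.QL

noncomputable section

variable {n : ℕ}

/-- `(q;q^4)_k/(q^4;q^4)_k` -/
def X4 (k : ℕ) : RatFunc ℚ := ∏ j ∈ range k, (e (4 * (j : ℤ) + 1) / e (4 * (j : ℤ) + 4))

/-- `(q^2;q^4)_k/(q^3;q^4)_k` -/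
def Y4 (k : ℕ) : RatFunc ℚ := ∏ j ∈ range k, (e (4 * (j : ℤ) + 2) / e (4 * (j : ℤ) + 3))

/-- the numerator weights -/
def N4 (n : ℕ) (M : ℤ) (k : ℕ) : RatFunc ℚ := ∏ j ∈ range k, rho 1 n M (4 * (j : ℤ) + 1)

/-- the denominator weights -/
def D4 (n : ℕ) (M : ℤ) (k : ℕ) : RatFunc ℚ := ∏ j ∈ range k, rho 1 n M (4 * (j : ℤ) + 4)

/-- the weights -/
def W4 (n : ℕ) (M : ℤ) (k : ℕ) : RatFunc ℚ := N4 n M k / D4 n M k

/-- the terms -/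
def T4 (k : ℕ) : RatFunc ℚ := e (8 * (k : ℤ) + 1) * (q ^ (4 * k) * X4 k ^ 5 * Y4 k)

lemma W4_zero {M : ℤ} {m k : ℕ} (hm : M * n = 4 * m + 1) (hk : m < k) : W4 n M k = 0 := by
  unfold W4 N4
  rw [prod_eq_zero (mem_range.2 hk), zero_div]
  unfold rho
  rw [hm]
  have : e (((1 : ℕ) : ℤ) * (4 * (m : ℤ) + 1 - (4 * m + 1))) = 0 := by
    unfold e; simp
  rw [this]; simp

lemma W4_one (k : ℕ) : W4 n 0 k = 1 := by
  unfold W4 N4 D4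
  have h : ∀ a : ℤ, a ≠ 0 → rho 1 n 0 a = 1 := by
    intro a ha
    unfold rho
    have := e_ne ha
    push_cast
    rw [zero_mul, add_zero, sub_zero, one_mul]
    field_simp
  rw [prod_congr rfl (fun j _ => h _ (by omega)), prod_congr rfl (fun j _ => h _ (by omega))]
  simp

lemma factor4 {M M' : ℤ} {m : ℕ} (hm : M * n = 4 * m + 1) (hM' : ∀ j : ℤ, j ≠ 0 → M' * n ≠ 4 * j) (j : ℕ) :
    (((1 - q * (q ^ 4) ^ j) * ((q ^ (-1 - M' * n) - (q ^ 4) ^ j) * (q ^ (-1 + M' * n) - (q ^ 4) ^ j) * (q ^ (-2 : ℤ) - (q ^ 4) ^ j)) *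
      ((q ^ 4) ^ m - (q ^ 4) ^ j) *
      (1 - q * (q * q ^ (-1 - M' * n) * q ^ (-1 + M' * n) * q ^ (-2 : ℤ) * (q ^ 4) ^ (m + 1 + j))) * (q * q ^ 4)) /
    ((1 - (q ^ 4) ^ (j + 1)) * ((1 - q * q ^ (-1 - M' * n) * (q ^ 4) ^ (j + 1)) * (1 - q * q ^ (-1 + M' * n) * (q ^ 4) ^ (j + 1)) *
        (1 - q * q ^ (-2 : ℤ) * (q ^ 4) ^ (j + 1))) *
      (q * q ^ (-1 - M' * n) * q ^ (-1 + M' * n) * q ^ (-2 : ℤ) * (q ^ 4) ^ m - (q ^ 4) ^ j) * (1 - q * (q ^ 4) ^ (m + 1 + j)))) =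
    q ^ 4 * (e (4 * (j : ℤ) + 1) / e (4 * (j : ℤ) + 4)) ^ 5 * (e (4 * (j : ℤ) + 2) / e (4 * (j : ℤ) + 3)) *
      (rho 1 n M (4 * (j : ℤ) + 1) / rho 1 n M (4 * (j : ℤ) + 4)) * (rho 1 n M' (4 * (j : ℤ) + 1) / rho 1 n M' (4 * (j : ℤ) + 4)) := by
  have hq := q_ne
  unfold rho
  rw [hm]
  push_cast
  simp only [one_mul]
  have n1 : e (4 * (j : ℤ) + 1) ≠ 0 := e_ne (by omega)
  have n3 : e (4 * (j : ℤ) + 3) ≠ 0 := e_ne (by omega)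
  have n4 : e (4 * (j : ℤ) + 4) ≠ 0 := e_ne (by omega)
  have n5 : e (4 * (j : ℤ) + 4 + (4 * m + 1)) ≠ 0 := e_ne (by omega)
  have n6 : e (4 * (j : ℤ) + 4 - (4 * m + 1)) ≠ 0 := e_ne (by omega)
  have n7 : e (4 * (j : ℤ) + 4 + M' * n) ≠ 0 := e_ne (fun h => hM' (-(j + 1)) (by omega) (by linarith))
  have n8 : e (4 * (j : ℤ) + 4 - M' * n) ≠ 0 := e_ne (fun h => hM' (j + 1) (by omega) (by linarith))
  have c0 : ∀ i : ℕ, (q ^ 4) ^ i = q ^ (4 * (i : ℤ)) := by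
    intro i
    rw [← pow_mul, ← zpow_natCast]; congr 1
  have f1 : 1 - q * (q ^ 4) ^ j = e (4 * (j : ℤ) + 1) := by
    unfold e
    rw [c0, add_comm, zpow_add₀ hq, zpow_one]
  have f2 : q ^ (-1 - M' * n) - (q ^ 4) ^ j = q ^ (-1 - M' * n) * e (4 * (j : ℤ) + 1 + M' * n) := by
    unfold e
    have : q ^ (4 * (j : ℤ)) = q ^ (-1 - M' * n) * q ^ (4 * (j : ℤ) + 1 + M' * n) := by
      rw [← zpow_add₀ hq]; congr 1; ring
    rw [c0, this]; ring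
  have f3 : q ^ (-1 + M' * n) - (q ^ 4) ^ j = q ^ (-1 + M' * n) * e (4 * (j : ℤ) + 1 - M' * n) := by
    unfold e
    have : q ^ (4 * (j : ℤ)) = q ^ (-1 + M' * n) * q ^ (4 * (j : ℤ) + 1 - M' * n) := by
      rw [← zpow_add₀ hq]; congr 1; ring
    rw [c0, this]; ring
  have f4 : q ^ (-2 : ℤ) - (q ^ 4) ^ j = q ^ (-2 : ℤ) * e (4 * (j : ℤ) + 2) := by
    unfold e
    have : q ^ (4 * (j : ℤ)) = q ^ (-2 : ℤ) * q ^ (4 * (j : ℤ) + 2) := by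
      rw [← zpow_add₀ hq]; congr 1; ring
    rw [c0, this]; ring
  have f5 : (q ^ 4) ^ m - (q ^ 4) ^ j = q ^ (4 * (m : ℤ)) * e (4 * (j : ℤ) + 1 - (4 * m + 1)) := by
    unfold e
    have : q ^ (4 * (j : ℤ)) = q ^ (4 * (m : ℤ)) * q ^ (4 * (j : ℤ) + 1 - (4 * m + 1)) := by
      rw [← zpow_add₀ hq]; congr 1; ring
    rw [c0, c0, this]; ring
  have f6 : 1 - q * (q * q ^ (-1 - M' * n) * q ^ (-1 + M' * n) * q ^ (-2 : ℤ) * (q ^ 4) ^ (m + 1 + j)) =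
      e (4 * (j : ℤ) + 1 + (4 * m + 1)) := by
    unfold e
    have : q ^ (4 * (j : ℤ) + 1 + (4 * m + 1)) = q ^ (1 : ℤ) * (q ^ (1 : ℤ) * q ^ (-1 - M' * n) * q ^ (-1 + M' * n) * q ^ (-2 : ℤ) *
        q ^ (4 * ((m + 1 + j : ℕ) : ℤ))) := by
      rw [← zpow_add₀ hq, ← zpow_add₀ hq, ← zpow_add₀ hq, ← zpow_add₀ hq, ← zpow_add₀ hq]; congr 1; push_cast; ring
    rw [c0, this, zpow_one]
  have g1 : 1 - (q ^ 4) ^ (j + 1) = e (4 * (j : ℤ) + 4) := by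
    unfold e
    rw [c0]; push_cast; rw [mul_add]; norm_num
  have g2 : 1 - q * q ^ (-1 - M' * n) * (q ^ 4) ^ (j + 1) = e (4 * (j : ℤ) + 4 - M' * n) := by
    unfold e
    have : q ^ (4 * (j : ℤ) + 4 - M' * n) = q ^ (1 : ℤ) * q ^ (-1 - M' * n) * q ^ (4 * ((j + 1 : ℕ) : ℤ)) := by
      rw [← zpow_add₀ hq, ← zpow_add₀ hq]; congr 1; push_cast; ring
    rw [c0, this, zpow_one]
  have g3 : 1 - q * q ^ (-1 + M' * n) * (q ^ 4) ^ (j + 1) = e (4 * (j : ℤ) + 4 + M' * n) := by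
    unfold e
    have : q ^ (4 * (j : ℤ) + 4 + M' * n) = q ^ (1 : ℤ) * q ^ (-1 + M' * n) * q ^ (4 * ((j + 1 : ℕ) : ℤ)) := by
      rw [← zpow_add₀ hq, ← zpow_add₀ hq]; congr 1; push_cast; ring
    rw [c0, this, zpow_one]
  have g4 : 1 - q * q ^ (-2 : ℤ) * (q ^ 4) ^ (j + 1) = e (4 * (j : ℤ) + 3) := by
    unfold e
    have : q ^ (4 * (j : ℤ) + 3) = q ^ (1 : ℤ) * q ^ (-2 : ℤ) * q ^ (4 * ((j + 1 : ℕ) : ℤ)) := by
      rw [← zpow_add₀ hq, ← zpow_add₀ hq]; congr 1; push_cast; ring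
    rw [c0, this, zpow_one]
  have g5 : q * q ^ (-1 - M' * n) * q ^ (-1 + M' * n) * q ^ (-2 : ℤ) * (q ^ 4) ^ m - (q ^ 4) ^ j =
      q ^ (4 * (m : ℤ) - 3) * e (4 * (j : ℤ) + 4 - (4 * m + 1)) := by
    unfold e
    have h1 : q ^ (4 * (m : ℤ) - 3) = q ^ (1 : ℤ) * q ^ (-1 - M' * n) * q ^ (-1 + M' * n) * q ^ (-2 : ℤ) * q ^ (4 * (m : ℤ)) := by
      rw [← zpow_add₀ hq, ← zpow_add₀ hq, ← zpow_add₀ hq, ← zpow_add₀ hq]; congr 1; ring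
    have h2 : q ^ (4 * (j : ℤ)) = q ^ (4 * (m : ℤ) - 3) * q ^ (4 * (j : ℤ) + 4 - (4 * m + 1)) := by
      rw [← zpow_add₀ hq]; congr 1; ring
    rw [c0, c0, h2, h1, zpow_one]; ring
  have g6 : 1 - q * (q ^ 4) ^ (m + 1 + j) = e (4 * (j : ℤ) + 4 + (4 * m + 1)) := by
    unfold e
    have : q ^ (4 * (j : ℤ) + 4 + (4 * m + 1)) = q ^ (1 : ℤ) * q ^ (4 * ((m + 1 + j : ℕ) : ℤ)) := by
      rw [← zpow_add₀ hq]; congr 1; push_cast; ring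
    rw [c0, this, zpow_one]
  have hp : q ^ (-1 - M' * n) * q ^ (-1 + M' * n) * q ^ (-2 : ℤ) * q ^ (4 * (m : ℤ)) * (q * q ^ 4) = q ^ 4 * q ^ (4 * (m : ℤ) - 3) := by
    have h1 : q * q ^ 4 = q ^ (5 : ℤ) := by norm_cast; ring
    have h2 : q ^ 4 = q ^ (4 : ℤ) := by norm_cast
    rw [h1, h2, ← zpow_add₀ hq, ← zpow_add₀ hq, ← zpow_add₀ hq, ← zpow_add₀ hq, ← zpow_add₀ hq]; congr 1; ring
  rw [f1, f2, f3, f4, f5, f6, g1, g2, g3, g4, g5, g6]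
  clear f1 f2 f3 f4 f5 f6 g1 g2 g3 g4 g5 g6 hM' hm c0
  have z1 : q ^ (4 * (m : ℤ) - 3) ≠ 0 := zpow_ne_zero _ hq
  generalize e (4 * (j : ℤ) + 1) = o at *
  generalize e (4 * (j : ℤ) + 4) = v at *
  generalize e (4 * (j : ℤ) + 3) = w at *
  generalize e (4 * (j : ℤ) + 2) = u at *
  generalize e (4 * (j : ℤ) + 1 + (4 * m + 1)) = op at *
  generalize e (4 * (j : ℤ) + 1 - (4 * m + 1)) = om at *
  generalize e (4 * (j : ℤ) + 4 + (4 * m + 1)) = vp at *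
  generalize e (4 * (j : ℤ) + 4 - (4 * m + 1)) = vm at *
  generalize e (4 * (j : ℤ) + 1 + M' * n) = op' at *
  generalize e (4 * (j : ℤ) + 1 - M' * n) = om' at *
  generalize e (4 * (j : ℤ) + 4 + M' * n) = vp' at *
  generalize e (4 * (j : ℤ) + 4 - M' * n) = vm' at *
  generalize q ^ (-1 - M' * n) = a1 at *
  generalize q ^ (-1 + M' * n) = a2 at *
  generalize q ^ (-2 : ℤ) = a3 at *
  generalize q ^ (4 * (m : ℤ)) = a4 at *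
  generalize q ^ (4 * (m : ℤ) - 3) = a5 at *
  have e1 : o * (a1 * op' * (a2 * om') * (a3 * u)) * (a4 * om) * op * (q * q ^ 4) = (q ^ 4 * a5) * (o * op' * om' * u * om * op) := by
    rw [← hp]; ring
  rw [e1]
  field_simp

lemma jk_eq {M M' : ℤ} {m : ℕ} (hm : M * n = 4 * m + 1) (hM' : ∀ j : ℤ, j ≠ 0 → M' * n ≠ 4 * j) (k : ℕ) :
    QJ.jk (q ^ 4) q (q ^ (-1 - M' * n)) (q ^ (-1 + M' * n)) (q ^ (-2 : ℤ)) m k =
      q ^ (4 * k) * X4 k ^ 5 * Y4 k * W4 n M k * W4 n M' k := by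
  induction k with
  | zero => simp [QJ.jk, X4, Y4, W4, N4, D4]
  | succ k ih =>
    have h1 : ∀ M : ℤ, W4 n M (k + 1) = W4 n M k * (rho 1 n M (4 * (k : ℤ) + 1) / rho 1 n M (4 * (k : ℤ) + 4)) := by
      intro M
      unfold W4 N4 D4
      rw [prod_range_succ, prod_range_succ, mul_div_mul_comm]
    have h2 : X4 (k + 1) = X4 k * (e (4 * (k : ℤ) + 1) / e (4 * (k : ℤ) + 4)) := by
      unfold X4; rw [prod_range_succ]
    have h3 : Y4 (k + 1) = Y4 k * (e (4 * (k : ℤ) + 2) / e (4 * (k : ℤ) + 3)) := by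
      unfold Y4; rw [prod_range_succ]
    rw [QJ.jk_succ, ih, factor4 hm hM' k, h1, h1, h2, h3, Nat.mul_succ, pow_add]
    ring

/-- the evaluation of the deformed sum -/
theorem pair4 {M M' : ℤ} {m : ℕ} (hm : M * n = 4 * m + 1) (hM' : ∀ j : ℤ, j ≠ 0 → M' * n ≠ 4 * j) {K : ℕ} (hK : m < K) :
    ∑ k ∈ range K, T4 k * W4 n M k * W4 n M' k =
      e (4 * m + 1) * ∏ j ∈ range m, ((e (4 * (j : ℤ) + 2 - M' * n) * e (4 * (j : ℤ) + 2 + M' * n)) /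
        (e (4 * (j : ℤ) + 4 - M' * n) * e (4 * (j : ℤ) + 4 + M' * n))) := by
  have hq := q_ne
  have c0 : ∀ i : ℕ, (q ^ 4) ^ i = q ^ (4 * (i : ℤ)) := by
    intro i
    rw [← pow_mul, ← zpow_natCast]; congr 1
  have k1 : ∀ j : ℕ, 1 - q * q ^ (-1 - M' * n) * (q ^ 4) ^ (j + 1) = e (4 * (j : ℤ) + 4 - M' * n) := by
    intro j
    unfold e
    have : q ^ (4 * (j : ℤ) + 4 - M' * n) = q ^ (1 : ℤ) * q ^ (-1 - M' * n) * q ^ (4 * ((j + 1 : ℕ) : ℤ)) := by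
      rw [← zpow_add₀ hq, ← zpow_add₀ hq]; congr 1; push_cast; ring
    rw [c0, this, zpow_one]
  have k2 : ∀ j : ℕ, 1 - q * q ^ (-1 + M' * n) * (q ^ 4) ^ (j + 1) = e (4 * (j : ℤ) + 4 + M' * n) := by
    intro j
    unfold e
    have : q ^ (4 * (j : ℤ) + 4 + M' * n) = q ^ (1 : ℤ) * q ^ (-1 + M' * n) * q ^ (4 * ((j + 1 : ℕ) : ℤ)) := by
      rw [← zpow_add₀ hq, ← zpow_add₀ hq]; congr 1; push_cast; ring
    rw [c0, this, zpow_one]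
  have k3 : ∀ j : ℕ, 1 - q * q ^ (-2 : ℤ) * (q ^ 4) ^ (j + 1) = e (4 * (j : ℤ) + 3) := by
    intro j
    unfold e
    have : q ^ (4 * (j : ℤ) + 3) = q ^ (1 : ℤ) * q ^ (-2 : ℤ) * q ^ (4 * ((j + 1 : ℕ) : ℤ)) := by
      rw [← zpow_add₀ hq, ← zpow_add₀ hq]; congr 1; push_cast; ring
    rw [c0, this, zpow_one]
  have k4 : ∀ j : ℕ, 1 - q * (q ^ 4) ^ (j + 1) = e (4 * (j : ℤ) + 5) := by
    intro j
    unfold e
    have : q ^ (4 * (j : ℤ) + 5) = q ^ (1 : ℤ) * q ^ (4 * ((j + 1 : ℕ) : ℤ)) := by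
      rw [← zpow_add₀ hq]; congr 1; push_cast; ring
    rw [c0, this, zpow_one]
  have k5 : ∀ j : ℕ, 1 - q * q ^ (-1 - M' * n) * q ^ (-1 + M' * n) * (q ^ 4) ^ (j + 1) = e (4 * (j : ℤ) + 3) := by
    intro j
    unfold e
    have : q ^ (4 * (j : ℤ) + 3) = q ^ (1 : ℤ) * q ^ (-1 - M' * n) * q ^ (-1 + M' * n) * q ^ (4 * ((j + 1 : ℕ) : ℤ)) := by
      rw [← zpow_add₀ hq, ← zpow_add₀ hq, ← zpow_add₀ hq]; congr 1; push_cast; ring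
    rw [c0, this, zpow_one]
  have k6 : ∀ j : ℕ, 1 - q * q ^ (-1 - M' * n) * q ^ (-2 : ℤ) * (q ^ 4) ^ (j + 1) = e (4 * (j : ℤ) + 2 - M' * n) := by
    intro j
    unfold e
    have : q ^ (4 * (j : ℤ) + 2 - M' * n) = q ^ (1 : ℤ) * q ^ (-1 - M' * n) * q ^ (-2 : ℤ) * q ^ (4 * ((j + 1 : ℕ) : ℤ)) := by
      rw [← zpow_add₀ hq, ← zpow_add₀ hq, ← zpow_add₀ hq]; congr 1; push_cast; ring
    rw [c0, this, zpow_one]
  have k7 : ∀ j : ℕ, 1 - q * q ^ (-1 + M' * n) * q ^ (-2 : ℤ) * (q ^ 4) ^ (j + 1) = e (4 * (j : ℤ) + 2 + M' * n) := by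
    intro j
    unfold e
    have : q ^ (4 * (j : ℤ) + 2 + M' * n) = q ^ (1 : ℤ) * q ^ (-1 + M' * n) * q ^ (-2 : ℤ) * q ^ (4 * ((j + 1 : ℕ) : ℤ)) := by
      rw [← zpow_add₀ hq, ← zpow_add₀ hq, ← zpow_add₀ hq]; congr 1; push_cast; ring
    rw [c0, this, zpow_one]
  have k8 : ∀ j : ℕ, 1 - q * q ^ (-1 - M' * n) * q ^ (-1 + M' * n) * q ^ (-2 : ℤ) * (q ^ 4) ^ (j + 1) = e (4 * (j : ℤ) + 1) := by
    intro j
    unfold e
    have : q ^ (4 * (j : ℤ) + 1) = q ^ (1 : ℤ) * q ^ (-1 - M' * n) * q ^ (-1 + M' * n) * q ^ (-2 : ℤ) * q ^ (4 * ((j + 1 : ℕ) : ℤ)) := by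
      rw [← zpow_add₀ hq, ← zpow_add₀ hq, ← zpow_add₀ hq, ← zpow_add₀ hq]; congr 1; push_cast; ring
    rw [c0, this, zpow_one]
  have hsum := QJ.jackson (q := q ^ 4) (a := q) (b := q ^ (-1 - M' * n)) (c := q ^ (-1 + M' * n)) (d := q ^ (-2 : ℤ)) (pow_ne_zero _ hq)
    (fun k => by rw [← pow_mul]; exact one_sub_ne (by positivity))
    (fun k => by rw [k4]; exact e_ne (by omega))
    (fun k => by rw [k1]; exact e_ne (fun h => hM' (k + 1) (by omega) (by linarith)))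
    (fun k => by rw [k2]; exact e_ne (fun h => hM' (-(k + 1)) (by omega) (by linarith)))
    (fun k => by rw [k3]; exact e_ne (by omega))
    (fun i j => by
      have h1 : q * q ^ (-1 - M' * n) * q ^ (-1 + M' * n) * q ^ (-2 : ℤ) * (q ^ 4) ^ i - (q ^ 4) ^ j =
          q ^ (4 * (i : ℤ) - 3) * e (4 * (j : ℤ) - 4 * i + 3) := by
        unfold e
        have h1 : q ^ (4 * (i : ℤ) - 3) = q ^ (1 : ℤ) * q ^ (-1 - M' * n) * q ^ (-1 + M' * n) * q ^ (-2 : ℤ) * q ^ (4 * (i : ℤ)) := by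
          rw [← zpow_add₀ hq, ← zpow_add₀ hq, ← zpow_add₀ hq, ← zpow_add₀ hq]; congr 1; ring
        have h2 : q ^ (4 * (j : ℤ)) = q ^ (4 * (i : ℤ) - 3) * q ^ (4 * (j : ℤ) - 4 * i + 3) := by
          rw [← zpow_add₀ hq]; congr 1; ring
        rw [c0, c0, h2, h1, zpow_one]; ring
      rw [h1]
      exact mul_ne_zero (zpow_ne_zero _ hq) (e_ne (by omega)))
    (fun i => by
      have h1 : 1 - q * (q * q ^ (-1 - M' * n) * q ^ (-1 + M' * n) * q ^ (-2 : ℤ) * (q ^ 4) ^ i) = e (4 * (i : ℤ) - 2) := by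
        unfold e
        have : q ^ (4 * (i : ℤ) - 2) = q ^ (1 : ℤ) * (q ^ (1 : ℤ) * q ^ (-1 - M' * n) * q ^ (-1 + M' * n) * q ^ (-2 : ℤ) * q ^ (4 * (i : ℤ))) := by
          rw [← zpow_add₀ hq, ← zpow_add₀ hq, ← zpow_add₀ hq, ← zpow_add₀ hq, ← zpow_add₀ hq]; congr 1; ring
        rw [c0, this, zpow_one]
      rw [h1]
      exact e_ne (by omega)) m
  have hres : ∑ k ∈ range K, T4 k * W4 n M k * W4 n M' k =
      ∑ k ∈ range (m + 1), (1 - q * (q ^ 4) ^ (2 * k)) *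
        QJ.jk (q ^ 4) q (q ^ (-1 - M' * n)) (q ^ (-1 + M' * n)) (q ^ (-2 : ℤ)) m k := by
    rw [← Finset.sum_subset (range_subset_range.2 (show m + 1 ≤ K by omega))]
    · apply sum_congr rfl
      intro k _
      rw [jk_eq hm hM' k]
      have : 1 - q * (q ^ 4) ^ (2 * k) = e (8 * (k : ℤ) + 1) := by
        unfold e
        rw [c0, add_comm, zpow_add₀ hq, zpow_one]; congr 3; push_cast; ring
      rw [this]
      unfold T4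
      ring
    · intro k _ hk
      rw [mem_range, not_lt] at hk
      rw [W4_zero hm (by omega)]; ring
  rw [hres, hsum]
  have hR : ∏ j ∈ range m, ((1 - q * (q ^ 4) ^ (j + 1)) * (1 - q * q ^ (-1 - M' * n) * q ^ (-1 + M' * n) * (q ^ 4) ^ (j + 1)) *
          (1 - q * q ^ (-1 - M' * n) * q ^ (-2 : ℤ) * (q ^ 4) ^ (j + 1)) *
          (1 - q * q ^ (-1 + M' * n) * q ^ (-2 : ℤ) * (q ^ 4) ^ (j + 1))) /
        ((1 - q * q ^ (-1 - M' * n) * (q ^ 4) ^ (j + 1)) * (1 - q * q ^ (-1 + M' * n) * (q ^ 4) ^ (j + 1)) *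
          (1 - q * q ^ (-2 : ℤ) * (q ^ 4) ^ (j + 1)) *
          (1 - q * q ^ (-1 - M' * n) * q ^ (-1 + M' * n) * q ^ (-2 : ℤ) * (q ^ 4) ^ (j + 1))) =
      ((∏ j ∈ range m, e (4 * (j : ℤ) + 5)) / ∏ j ∈ range m, e (4 * (j : ℤ) + 1)) *
        ∏ j ∈ range m, ((e (4 * (j : ℤ) + 2 - M' * n) * e (4 * (j : ℤ) + 2 + M' * n)) /
        (e (4 * (j : ℤ) + 4 - M' * n) * e (4 * (j : ℤ) + 4 + M' * n))) := by
    rw [← prod_div_distrib, ← prod_mul_distrib]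
    apply prod_congr rfl
    intro j _
    rw [k1, k2, k3, k4, k5, k6, k7, k8]
    have n1 : e (4 * (j : ℤ) + 1) ≠ 0 := e_ne (by omega)
    have n3 : e (4 * (j : ℤ) + 3) ≠ 0 := e_ne (by omega)
    have n7 : e (4 * (j : ℤ) + 4 + M' * n) ≠ 0 := e_ne (fun h => hM' (-(j + 1)) (by omega) (by linarith))
    have n8 : e (4 * (j : ℤ) + 4 - M' * n) ≠ 0 := e_ne (fun h => hM' (j + 1) (by omega) (by linarith))
    field_simp
  rw [hR, ← mul_assoc]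
  congr 1
  have h3 : (1 - q) * ∏ j ∈ range m, e (4 * (j : ℤ) + 5) = e (4 * m + 1) * ∏ j ∈ range m, e (4 * (j : ℤ) + 1) := by
    have h3 : ∏ j ∈ range (m + 1), e (4 * (j : ℤ) + 1) = e (4 * m + 1) * ∏ j ∈ range m, e (4 * (j : ℤ) + 1) := by
      rw [prod_range_succ, mul_comm]
    rw [← h3, prod_range_succ', mul_comm]
    have h9 : e (4 * ((0 : ℕ) : ℤ) + 1) = 1 - q := by unfold e; norm_num
    rw [h9]
    congr 1
  have h4 : ∏ j ∈ range m, e (4 * (j : ℤ) + 1) ≠ 0 := by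
    rw [prod_ne_zero_iff]
    intro j _
    exact e_ne (by omega)
  rw [← mul_div_assoc, h3, mul_div_cancel_right₀ _ h4]

end

end Pool.Agent.X14.QBlock
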