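import Pool.Agent.X14.QE1

set_option autoImplicit false
set_option linter.unusedSectionVars false

/-! Blocks of very well poised sums in base `q^4`. -/

namespace Pool.Agent.X14.QBlock

open Finset Polynomial Pool.Agent.X14.QL

noncomputable section

/-- the inverse of `1 - q^z`, `n ∣ z`, has a simple pole at `Φ_n` -/
lemma pole {n : ℕ} (hn : 0 < n) {c : ℤ} (hc : c ≠ 0) :
    al (cyclotomic n ℚ) * (e (c * n))⁻¹ ∈ Loc (cyclotomic n ℚ) := by
  obtain ⟨hx, hx0, hx1, hxi⟩ := x_props (s := 1) hn one_pos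
  rw [one_mul] at hx hx0 hx1 hxi
  have h1 := e_Gz (s := 1) hn one_pos c
  rw [Nat.cast_one, one_mul, one_mul] at h1
  have h2 := Gz_inv_mem hx hx0 hx1 hxi hc
  rw [h1, mul_inv, ← mul_assoc]
  refine (Loc _).mul_mem ?_ h2
  obtain ⟨Ψ, hΨ⟩ := cyclotomic.dvd_X_pow_sub_one n ℚ
  have hsep : (cyclotomic n ℚ * Ψ).Separable := by
    rw [← hΨ]
    exact separable_X_pow_sub_C (1 : ℚ) (by exact_mod_cast hn.ne') one_ne_zero
  have hcop := hsep.isCoprime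
  have h3 := inv_mem hcop.symm
  rw [one_sub_eq, hΨ, map_mul]
  have h4 : al (cyclotomic n ℚ) ≠ 0 := al_ne (cyclotomic_ne_zero n ℚ)
  have h5 : al (cyclotomic n ℚ) * (-(al (cyclotomic n ℚ) * al Ψ))⁻¹ = -(al Ψ)⁻¹ := by
    rw [inv_neg, mul_inv, mul_neg, ← mul_assoc, mul_inv_cancel₀ h4, one_mul]
  rw [h5]
  exact (Loc _).neg_mem h3

variable {n M0 t : ℕ}

lemma odd_of (h0 : M0 * n = 4 * t + 1) : n % 2 = 1 := by
  have h1 : (M0 * n) % 2 = 1 := by omega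
  exact (Nat.odd_mul.1 (Nat.odd_iff.2 h1)).2 |> Nat.odd_iff.1

lemma res_unique (hn : n % 2 = 1) {x y c i : ℕ} (hx : x < n) (hy : y < n) (hxc : n ∣ 4 * x + c)
    (hyc : (n : ℤ) ∣ 4 * ((n * i + y : ℕ) : ℤ) + c) : y = x := by
  have h1 : (n : ℤ) ∣ 4 * (y : ℤ) + c := by
    have : 4 * ((n * i + y : ℕ) : ℤ) + c = (n : ℤ) * (4 * i) + (4 * y + c) := by push_cast; ring
    rw [this] at hyc
    exact (dvd_add_right (dvd_mul_right _ _)).1 hyc
  have h2 : (n : ℤ) ∣ 4 * (x : ℤ) + c := by exact_mod_cast hxc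
  have h3 : (n : ℤ) ∣ 4 * ((y : ℤ) - x) := by
    have := dvd_sub h1 h2
    rwa [show 4 * (y : ℤ) + c - (4 * x + c) = 4 * ((y : ℤ) - x) by ring] at this
  have h4 : IsCoprime (n : ℤ) 4 := by
    have h5 : Nat.Coprime n 4 := by
      have : Nat.Coprime n 2 := Nat.Coprime.symm ((Nat.Prime.coprime_iff_not_dvd Nat.prime_two).2 (by omega))
      exact Nat.Coprime.pow_right 2 this
    exact_mod_cast Nat.isCoprime_iff_coprime.2 h5
  have h5 := h4.dvd_of_dvd_mul_left h3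
  obtain ⟨z, hz⟩ := h5
  have h6 : z = 0 := by
    by_contra hz0
    rcases lt_or_gt_of_ne hz0 with h | h
    · nlinarith
    · nlinarith
  rw [h6, mul_zero] at hz
  omega

section
variable (h0 : M0 * n = 4 * t + 1) (hM0 : M0 < 4)
include h0 hM0

lemma t_lt : t < n := by
  have : M0 * n ≤ 3 * n := Nat.mul_le_mul_right n (by omega)
  omega

lemma M0_odd : M0 % 2 = 1 := by
  have h1 : (M0 * n) % 2 = 1 := by omega
  exact (Nat.odd_mul.1 (Nat.odd_iff.2 h1)).1 |> Nat.odd_iff.1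

lemma eq1 (i : ℕ) : 4 * ((n * i + t : ℕ) : ℤ) + 1 = (4 * (i : ℤ) + M0) * n := by
  have : (M0 : ℤ) * n = 4 * t + 1 := by exact_mod_cast h0
  push_cast
  linear_combination -this

lemma nd1 {i y : ℕ} (hy : y < n) (hyt : y ≠ t) : ¬ (n : ℤ) ∣ 4 * ((n * i + y : ℕ) : ℤ) + 1 := by
  intro h
  exact hyt (res_unique (c := 1) (odd_of h0) (t_lt h0 hM0) hy ⟨M0, by rw [← h0, mul_comm]⟩ (by exact_mod_cast h))

end

lemma eq4 (hn : 0 < n) (i : ℕ) : 4 * ((n * i + (n - 1) : ℕ) : ℤ) + 4 = (4 * (i : ℤ) + 4) * n := by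
  push_cast [Nat.cast_sub hn]
  ring

lemma nd4 (hn : n % 2 = 1) {i y : ℕ} (hy : y < n) (hyt : y ≠ n - 1) : ¬ (n : ℤ) ∣ 4 * ((n * i + y : ℕ) : ℤ) + 4 := by
  intro h
  exact hyt (res_unique (c := 4) hn (by omega) hy ⟨4, by omega⟩ (by exact_mod_cast h))

lemma eq2 {h : ℕ} (hn : n = 2 * h + 1) (i : ℕ) : 4 * ((n * i + h : ℕ) : ℤ) + 2 = (4 * (i : ℤ) + 2) * n := by
  have : (n : ℤ) = 2 * h + 1 := by exact_mod_cast hn
  push_cast
  linear_combination -2 * this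

lemma nd2 {h : ℕ} (hn : n = 2 * h + 1) {i y : ℕ} (hy : y < n) (hyt : y ≠ h) : ¬ (n : ℤ) ∣ 4 * ((n * i + y : ℕ) : ℤ) + 2 := by
  intro h'
  exact hyt (res_unique (c := 2) (by omega) (by omega) hy ⟨2, by omega⟩ (by exact_mod_cast h'))

/-- the residue of the poles -/
lemma exists_t3 (h0 : M0 * n = 4 * t + 1) (hM0 : M0 < 4) : ∃ t3 : ℕ, (4 - M0) * n = 4 * t3 + 3 := by
  have h1 := M0_odd h0 hM0
  have h2 : (4 - M0) * n + M0 * n = 4 * n := by rw [← add_mul]; congr 1; omega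
  have h3 : n ≠ 0 := by rintro rfl; omega
  refine ⟨n - 1 - t, ?_⟩
  have := t_lt h0 hM0
  omega

lemma eq3 {t3 : ℕ} (h3 : (4 - M0) * n = 4 * t3 + 3) (hM0 : M0 < 4) (i : ℕ) :
    4 * ((n * i + t3 : ℕ) : ℤ) + 3 = (4 * (i : ℤ) + (4 - M0)) * n := by
  have : ((4 - M0 : ℕ) : ℤ) * n = 4 * t3 + 3 := by exact_mod_cast h3
  rw [Nat.cast_sub (by omega)] at this
  push_cast at this ⊢
  linear_combination -this

lemma nd3 {t3 : ℕ} (hn : n % 2 = 1) (h3 : (4 - M0) * n = 4 * t3 + 3) (ht3 : t3 < n) {i y : ℕ} (hy : y < n) (hyt : y ≠ t3) :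
    ¬ (n : ℤ) ∣ 4 * ((n * i + y : ℕ) : ℤ) + 3 := by
  intro h
  exact hyt (res_unique (c := 3) hn ht3 hy ⟨4 - M0, by rw [← h3, mul_comm]⟩ (by exact_mod_cast h))

lemma ratio_mem {n : ℕ} (hn0 : 0 < n) (c : ℤ) {d : ℤ} (hd : d ≠ 0) :
    e (c * n) / e (d * n) ∈ Loc (cyclotomic n ℚ) := by
  have h1 := e_ratio (n := n) (s := 1) hn0 one_pos c (d := d) hd
  rw [Nat.cast_one, one_mul, one_mul] at h1
  exact h1.mem (rat_mem _ _)

lemma X4_mem (h0 : M0 * n = 4 * t + 1) (hM0 : M0 < 4) (J : ℕ) {l : ℕ} (hl : l < n) :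
    X4 (n * J + l) ∈ Loc (cyclotomic n ℚ) ∧ (t < l → QO (cyclotomic n ℚ) 1 (X4 (n * J + l))) := by
  have hn0 : 0 < n := by omega
  have := ratio_blocks (P := cyclotomic n ℚ) (n := n) (fun j => e (4 * (j : ℤ) + 1)) (fun j => e (4 * (j : ℤ) + 4))
    (t0 := t) (t1 := n - 1) (l := l) J (t_lt h0 hM0) (by omega) (fun j => e_mem hn0 _)
    (fun i y hy hyt => e_inv hn0 (nd4 (odd_of h0) hy hyt))
    (fun i => by
      rw [eq1 h0 hM0, eq4 hn0]
      exact ratio_mem hn0 _ (by omega)) (by omega)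
  refine ⟨this.1, fun hl' => this.2 hl' ?_⟩
  rw [eq1 h0 hM0]
  exact e_QO hn0 (dvd_mul_left _ _)

lemma Z4_mem {h : ℕ} (hn : n = 2 * h + 1) (J : ℕ) {l : ℕ} (hl : l < n) :
    (∏ j ∈ range (n * J + l), (e (4 * (j : ℤ) + 2) / e (4 * (j : ℤ) + 4))) ∈ Loc (cyclotomic n ℚ) := by
  have hn0 : 0 < n := by omega
  have := ratio_blocks (P := cyclotomic n ℚ) (n := n) (fun j => e (4 * (j : ℤ) + 2)) (fun j => e (4 * (j : ℤ) + 4))
    (t0 := h) (t1 := n - 1) (l := l) J (by omega) (by omega) (fun j => e_mem hn0 _)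
    (fun i y hy hyt => e_inv hn0 (nd4 (by omega) hy hyt))
    (fun i => by
      rw [eq2 hn, eq4 hn0]
      exact ratio_mem hn0 _ (by omega)) (by omega)
  exact this.1

lemma Y4_mem (h0 : M0 * n = 4 * t + 1) (hM0 : M0 < 4) (J : ℕ) {l : ℕ} (hl : l < n) :
    al (cyclotomic n ℚ) * Y4 (n * J + l) ∈ Loc (cyclotomic n ℚ) := by
  have hn0 : 0 < n := by omega
  have hodd := odd_of h0
  obtain ⟨h, hh⟩ : ∃ h, n = 2 * h + 1 := ⟨n / 2, by omega⟩
  obtain ⟨t3, h3⟩ := exists_t3 h0 hM0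
  have hM1 := M0_odd h0 hM0
  have ht3 : t3 < n := by
    have : (4 - M0) * n ≤ 3 * n := Nat.mul_le_mul_right n (by omega)
    omega
  have hfull : (∏ i ∈ range J, ∏ y ∈ range n, (e (4 * ((n * i + y : ℕ) : ℤ) + 2) / e (4 * ((n * i + y : ℕ) : ℤ) + 3))) ∈
      Loc (cyclotomic n ℚ) := by
    apply (Loc _).prod_mem
    intro i _
    rw [prod_div_distrib, ← mul_prod_erase _ (fun y => e (4 * ((n * i + y : ℕ) : ℤ) + 2)) (mem_range.2 (show h < n by omega)),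
      ← mul_prod_erase _ (fun y => e (4 * ((n * i + y : ℕ) : ℤ) + 3)) (mem_range.2 ht3), mul_div_mul_comm]
    refine (Loc _).mul_mem ?_ ?_
    · rw [eq2 hh, eq3 h3 hM0]
      exact ratio_mem hn0 _ (by omega)
    · rw [div_eq_mul_inv]
      refine (Loc _).mul_mem ((Loc _).prod_mem (fun y _ => e_mem hn0 _)) ?_
      rw [← prod_inv_distrib]
      apply (Loc _).prod_mem
      intro y hy
      rw [mem_erase, mem_range] at hy
      exact e_inv hn0 (nd3 hodd h3 ht3 hy.2 hy.1)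
  have hlast : al (cyclotomic n ℚ) * (∏ y ∈ range l, (e (4 * ((n * J + y : ℕ) : ℤ) + 3))⁻¹) ∈ Loc (cyclotomic n ℚ) := by
    rcases Nat.lt_or_ge t3 l with hlt | hge
    · rw [← mul_prod_erase _ _ (mem_range.2 hlt), ← mul_assoc]
      refine (Loc _).mul_mem ?_ ((Loc _).prod_mem ?_)
      · rw [eq3 h3 hM0]
        exact pole hn0 (by omega)
      · intro y hy
        rw [mem_erase, mem_range] at hy
        exact e_inv hn0 (nd3 hodd h3 ht3 (by omega) hy.1)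
    · refine (Loc _).mul_mem (al_mem _ _) ((Loc _).prod_mem ?_)
      intro y hy
      rw [mem_range] at hy
      exact e_inv hn0 (nd3 hodd h3 ht3 (by omega) (by omega))
  unfold Y4
  rw [prod_range_blocks]
  have e1 : ∏ y ∈ range l, (e (4 * ((n * J + y : ℕ) : ℤ) + 2) / e (4 * ((n * J + y : ℕ) : ℤ) + 3)) =
      (∏ y ∈ range l, e (4 * ((n * J + y : ℕ) : ℤ) + 2)) * ∏ y ∈ range l, (e (4 * ((n * J + y : ℕ) : ℤ) + 3))⁻¹ := by
    rw [← prod_mul_distrib]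
    apply prod_congr rfl
    intro y _
    rw [div_eq_mul_inv]
  rw [e1]
  have h5 := (Loc _).mul_mem (((Loc _).mul_mem hfull ((Loc _).prod_mem (fun y (_ : y ∈ range l) => e_mem hn0 (4 * ((n * J + y : ℕ) : ℤ) + 2))))) hlast
  convert h5 using 1
  ring

lemma T4_mem (h0 : M0 * n = 4 * t + 1) (hM0 : M0 < 4) (J : ℕ) {l : ℕ} (hl : l < n) :
    al (cyclotomic n ℚ) * T4 (n * J + l) ∈ Loc (cyclotomic n ℚ) ∧
      (t < l → QO (cyclotomic n ℚ) 5 (al (cyclotomic n ℚ) * T4 (n * J + l))) := by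
  have hn0 : 0 < n := by omega
  obtain ⟨h1, h2⟩ := X4_mem h0 hM0 J hl
  have h3 := Y4_mem h0 hM0 J hl
  have h4 : e (8 * ((n * J + l : ℕ) : ℤ) + 1) * q ^ (4 * (n * J + l)) ∈ Loc (cyclotomic n ℚ) :=
    (Loc _).mul_mem (e_mem hn0 _) ((Loc _).pow_mem (q_mem _) _)
  have h5 : al (cyclotomic n ℚ) * T4 (n * J + l) = (e (8 * ((n * J + l : ℕ) : ℤ) + 1) * q ^ (4 * (n * J + l))) *
      (al (cyclotomic n ℚ) * Y4 (n * J + l)) * X4 (n * J + l) ^ 5 := by
    unfold T4; ring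
  rw [h5]
  refine ⟨(Loc _).mul_mem ((Loc _).mul_mem h4 h3) ((Loc _).pow_mem h1 5), fun hl' => ?_⟩
  have h6 := h2 hl'
  have h7 : X4 (n * J + l) ^ 5 = X4 (n * J + l) * X4 (n * J + l) * X4 (n * J + l) * X4 (n * J + l) * X4 (n * J + l) := by ring
  rw [h7]
  exact QO.mul_left ((Loc _).mul_mem h4 h3) ((((h6.mul h6).mul h6).mul h6).mul h6)

/-- the rational weights -/
def w4 (M0 μ J : ℕ) : ℚ :=
  (∏ i ∈ range J, wt (4 * (μ : ℤ) + M0) (4 * (i : ℤ) + M0)) / ∏ i ∈ range J, wt (4 * (μ : ℤ) + M0) (4 * (i : ℤ) + 4)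

lemma N4_eqm (h0 : M0 * n = 4 * t + 1) (hM0 : M0 < 4) (M : ℤ) (J : ℕ) {l : ℕ} (hl : l ≤ t) :
    Eqm (cyclotomic n ℚ) 2 (N4 n M (n * J + l)) ((∏ i ∈ range J, wt M (4 * (i : ℤ) + M0) : ℚ) : RatFunc ℚ) := by
  have ht := t_lt h0 hM0
  have hn0 : 0 < n := by omega
  have hM1 := M0_odd h0 hM0
  rw [Rat.cast_prod]
  unfold N4
  refine prod_blocks_eqm _ (fun i => ((wt M (4 * (i : ℤ) + M0) : ℚ) : RatFunc ℚ)) J ht ?_ (fun i => rat_mem _ _) ?_ hl
  · intro i y hy hyt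
    exact rho_U hn0 (Nat.coprime_one_left n) M (nd1 h0 hM0 hy hyt)
  · intro i
    rw [eq1 h0 hM0]
    have := rho_mult (s := 1) hn0 one_pos M (c := 4 * (i : ℤ) + M0) (by omega)
    unfold wt
    exact this

lemma D4_eqm (hodd : n % 2 = 1) (M : ℤ) (J : ℕ) {l : ℕ} (hl : l < n) :
    Eqm (cyclotomic n ℚ) 2 (D4 n M (n * J + l)) ((∏ i ∈ range J, wt M (4 * (i : ℤ) + 4) : ℚ) : RatFunc ℚ) := by
  have hn0 : 0 < n := by omega
  rw [Rat.cast_prod]
  unfold D4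
  refine prod_blocks_eqm (t0 := n - 1) _ (fun i => ((wt M (4 * (i : ℤ) + 4) : ℚ) : RatFunc ℚ)) J (by omega) ?_ (fun i => rat_mem _ _) ?_ (by omega)
  · intro i y hy hyt
    exact rho_U hn0 (Nat.coprime_one_left n) M (nd4 hodd hy hyt)
  · intro i
    rw [eq4 hn0]
    have := rho_mult (s := 1) hn0 one_pos M (c := 4 * (i : ℤ) + 4) (by omega)
    unfold wt
    exact this

lemma den_ne {M : ℤ} (hM : M % 2 = 1) (J : ℕ) : (∏ i ∈ range J, wt M (4 * (i : ℤ) + 4)) ≠ 0 := by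
  rw [prod_ne_zero_iff]
  intro i _
  exact wt_ne (by omega) (by omega) (by omega)

lemma num_ne (hM1 : M0 % 2 = 1) (μ : ℕ) : (∏ i ∈ range μ, wt (4 * (μ : ℤ) + M0) (4 * (i : ℤ) + M0)) ≠ 0 := by
  rw [prod_ne_zero_iff]
  intro i hi
  rw [mem_range] at hi
  exact wt_ne (by omega) (by omega) (by omega)

lemma W4_eqm (h0 : M0 * n = 4 * t + 1) (hM0 : M0 < 4) (μ J : ℕ) {l : ℕ} (hl : l ≤ t) :
    Eqm (cyclotomic n ℚ) 2 (W4 n (4 * μ + M0) (n * J + l)) (w4 M0 μ J) := by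
  have ht := t_lt h0 hM0
  have hM1 := M0_odd h0 hM0
  unfold W4 w4
  exact (N4_eqm h0 hM0 _ J hl).div (by norm_num) (D4_eqm (odd_of h0) _ J (by omega)) (den_ne (by omega) J)

lemma W4_mem (h0 : M0 * n = 4 * t + 1) (hM0 : M0 < 4) (μ J : ℕ) {l : ℕ} (hl : l < n) :
    W4 n (4 * μ + M0) (n * J + l) ∈ Loc (cyclotomic n ℚ) := by
  have hM1 := M0_odd h0 hM0
  have hn0 : 0 < n := by omega
  unfold W4
  rw [div_eq_mul_inv]
  refine (Loc _).mul_mem ?_ (((D4_eqm (odd_of h0) _ J hl).inv (den_ne (by omega) J) (by norm_num)).mem (rat_mem _ _))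
  unfold N4
  exact (Loc _).prod_mem (fun j _ => rho_mem hn0 one_pos (Nat.coprime_one_left n) _ (by omega))

/-- the blocks vanish modulo `Φ_n` -/
theorem blocks4 (h0 : M0 * n = 4 * t + 1) (hM0 : M0 < 4) (J : ℕ) :
    QO (cyclotomic n ℚ) 1 (∑ l ∈ range n, T4 (n * J + l)) := by
  have ht := t_lt h0 hM0
  have hn0 : 0 < n := by omega
  have hM1 := M0_odd h0 hM0
  have hodd := odd_of h0
  obtain ⟨h, hh⟩ : ∃ h, n = 2 * h + 1 := ⟨n / 2, by omega⟩
  have hal : al (cyclotomic n ℚ) ≠ 0 := al_ne (cyclotomic_ne_zero n ℚ)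
  have hB := tri (P := cyclotomic n ℚ) (k := 2) (C := 0) (w := w4 M0) (b := fun _ => 0) (v := fun _ => 0)
    (V := fun μ => al (cyclotomic n ℚ) * (e (4 * ((n * μ + t : ℕ) : ℤ) + 1) *
      ∏ j ∈ range (n * μ + t), ((e (4 * (j : ℤ) + 2 - 0 * n) * e (4 * (j : ℤ) + 2 + 0 * n)) /
        (e (4 * (j : ℤ) + 4 - 0 * n) * e (4 * (j : ℤ) + 4 + 0 * n)))))
    (B := fun J => ∑ l ∈ range n, al (cyclotomic n ℚ) * T4 (n * J + l)) ?_ (fun μ => by simp) ?_ ?_ J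
  · unfold Eqm at hB
    rw [zero_mul, sub_zero, ← mul_sum] at hB
    obtain ⟨y, hy, hy'⟩ := hB
    refine ⟨y, hy, ?_⟩
    rw [pow_one]
    apply mul_left_cancel₀ hal
    rw [hy']; ring
  · intro μ
    have h1 := block_main (P := cyclotomic n ℚ) (k := 2) (n := n) (term := fun k => al (cyclotomic n ℚ) * T4 k)
      (W := W4 n (4 * μ + M0)) (h := t) (μ := μ) (w := w4 M0 μ)
      (fun J l hl => (T4_mem h0 hM0 J hl).1) (fun J l hl hl' => ((T4_mem h0 hM0 J hl').2 hl).le (by norm_num))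
      (fun J l hJ hl => W4_mem h0 hM0 μ J hl) (fun J l hJ hl _ => W4_eqm h0 hM0 μ J hl)
    have h2 := pair4 (n := n) (M := 4 * μ + M0) (M' := 0) (m := n * μ + t) (K := n * (μ + 1))
      (by have := eq1 h0 hM0 μ; push_cast at this ⊢; linarith) (fun j hj h => by omega) (by rw [Nat.mul_succ]; omega)
    have h3 : ∑ j ∈ range (n * (μ + 1)), al (cyclotomic n ℚ) * T4 j * W4 n (4 * μ + M0) j =
        al (cyclotomic n ℚ) * ∑ k ∈ range (n * (μ + 1)), T4 k * W4 n (4 * μ + M0) k * W4 n 0 k := by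
      rw [mul_sum]
      apply sum_congr rfl
      intro j _
      rw [W4_one]; ring
    rw [h3, h2] at h1
    exact h1.symm
  · intro μ
    have e0 : (0 : RatFunc ℚ) * (((0 : ℚ) : RatFunc ℚ)) = 0 := zero_mul _
    unfold Eqm
    rw [e0, sub_zero]
    have h1 : (∏ j ∈ range (n * μ + t), ((e (4 * (j : ℤ) + 2 - 0 * n) * e (4 * (j : ℤ) + 2 + 0 * n)) /
        (e (4 * (j : ℤ) + 4 - 0 * n) * e (4 * (j : ℤ) + 4 + 0 * n)))) ∈ Loc (cyclotomic n ℚ) := by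
      have h2 := Z4_mem hh μ ht
      have h3 := (Loc _).mul_mem h2 h2
      rw [← prod_mul_distrib] at h3
      convert h3 using 1
      apply prod_congr rfl
      intro j _
      rw [zero_mul, sub_zero, add_zero, sub_zero, add_zero, mul_div_mul_comm]
    have h2 : QO (cyclotomic n ℚ) 1 (al (cyclotomic n ℚ)) := ⟨1, (Loc _).one_mem, by ring⟩
    have h3 : QO (cyclotomic n ℚ) 1 (e (4 * ((n * μ + t : ℕ) : ℤ) + 1)) := by
      rw [eq1 h0 hM0]; exact e_QO hn0 (dvd_mul_left _ _)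
    exact h2.mul (QO.mul_right h3 h1)
  · intro μ
    unfold w4
    exact div_ne_zero (num_ne hM1 μ) (den_ne (by omega) μ)

/-- the first block modulo `Φ_n^3` when `n ≡ 3 (mod 4)` -/
theorem first4 (h0 : 3 * n = 4 * t + 1) : QO (cyclotomic n ℚ) 3 (∑ k ∈ range n, T4 k) := by
  have hM0 : 3 < 4 := by norm_num
  have ht := t_lt h0 hM0
  have hn0 : 0 < n := by omega
  have hodd := odd_of h0
  obtain ⟨h, hh⟩ : ∃ h, n = 2 * h + 1 := ⟨n / 2, by omega⟩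
  have hal : al (cyclotomic n ℚ) ≠ 0 := al_ne (cyclotomic_ne_zero n ℚ)
  have hm3 : (3 : ℤ) * n = 4 * (t : ℤ) + 1 := by exact_mod_cast h0
  have hht : h < t := by omega
  have hM3 : ∀ j : ℤ, j ≠ 0 → (3 : ℤ) * n ≠ 4 * j := by
    intro j _ hj; rw [hm3] at hj; omega
  have hV : ∀ M' : ℤ, QO (cyclotomic n ℚ) 3 (e (4 * t + 1) * ∏ j ∈ range t, ((e (4 * (j : ℤ) + 2 - M' * n) *
      e (4 * (j : ℤ) + 2 + M' * n)) / (e (4 * (j : ℤ) + 4 - M' * n) * e (4 * (j : ℤ) + 4 + M' * n)))) := by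
    intro M'
    have hd : ∀ j < t, (e (4 * (j : ℤ) + 4 - M' * n) * e (4 * (j : ℤ) + 4 + M' * n))⁻¹ ∈ Loc (cyclotomic n ℚ) := by
      intro j hj
      have h1 : ¬ (n : ℤ) ∣ 4 * (j : ℤ) + 4 := by
        have := nd4 hodd (i := 0) (y := j) (by omega) (by omega)
        rwa [mul_zero, zero_add] at this
      rw [mul_inv]
      refine (Loc _).mul_mem (e_inv hn0 (fun h => h1 ?_)) (e_inv hn0 (fun h => h1 ?_))
      · have := dvd_add h (dvd_mul_left (n : ℤ) M')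
        rwa [sub_add_cancel] at this
      · have := dvd_sub h (dvd_mul_left (n : ℤ) M')
        rwa [add_sub_cancel_right] at this
    have hP : QO (cyclotomic n ℚ) 2 (∏ j ∈ range t, ((e (4 * (j : ℤ) + 2 - M' * n) *
      e (4 * (j : ℤ) + 2 + M' * n)) / (e (4 * (j : ℤ) + 4 - M' * n) * e (4 * (j : ℤ) + 4 + M' * n)))) := by
      rw [← mul_prod_erase _ _ (mem_range.2 hht)]
      have h2 : 4 * (h : ℤ) + 2 = 2 * n := by omega
      refine QO.mul_right ?_ ((Loc _).prod_mem ?_)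
      · rw [div_eq_mul_inv]
        refine QO.mul_right ?_ (hd h hht)
        rw [h2]
        exact (e_QO hn0 (by rw [← sub_mul]; exact dvd_mul_left _ _)).mul (e_QO hn0 (by rw [← add_mul]; exact dvd_mul_left _ _))
      · intro j hj
        rw [mem_erase, mem_range] at hj
        rw [div_eq_mul_inv]
        exact (Loc _).mul_mem ((Loc _).mul_mem (e_mem hn0 _) (e_mem hn0 _)) (hd j hj.2)
    have h3 : QO (cyclotomic n ℚ) 1 (e (4 * (t : ℤ) + 1)) := by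
      rw [← hm3]; exact e_QO hn0 (dvd_mul_left _ _)
    exact h3.mul hP
  have p0 := pair4 (n := n) (M := 3) (M' := 0) (m := t) (K := n) hm3 (fun j hj h => by omega) ht
  have p3 := pair4 (n := n) (M := 3) (M' := 3) (m := t) (K := n) hm3 hM3 ht
  have q0 := hV 0
  have q3 := hV 3
  rw [← p0] at q0
  rw [← p3] at q3
  have key : QO (cyclotomic n ℚ) 3 (∑ k ∈ range n, T4 k * (1 - W4 n 3 k) ^ 2) := by
    apply QO.sum
    intro k hk
    rw [mem_range] at hk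
    rcases Nat.lt_or_ge t k with h1 | h1
    · rw [W4_zero hm3 h1, sub_zero, one_pow, mul_one]
      have h2 := (T4_mem h0 hM0 0 hk).2 h1
      rw [mul_zero, zero_add] at h2
      obtain ⟨y, hy, hy'⟩ := h2
      refine ⟨al (cyclotomic n ℚ) * y, (Loc _).mul_mem (al_mem _ _) hy, ?_⟩
      apply mul_left_cancel₀ hal
      rw [hy']; ring
    · have h2 := (T4_mem h0 hM0 0 hk).1
      have h3 := W4_eqm h0 hM0 0 0 h1
      rw [mul_zero, zero_add] at h2 h3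
      have h4 : (w4 3 0 0 : ℚ) = 1 := by simp [w4]
      rw [h4] at h3
      have h5 : QO (cyclotomic n ℚ) 2 (1 - W4 n 3 k) := by
        have := h3.symm
        unfold Eqm at this
        push_cast at this
        convert this using 3
      obtain ⟨y, hy, hy'⟩ := h5
      refine ⟨al (cyclotomic n ℚ) * T4 k * y ^ 2, (Loc _).mul_mem h2 ((Loc _).pow_mem hy 2), ?_⟩
      rw [hy']; ring
  have hfin : ∑ k ∈ range n, T4 k = ∑ k ∈ range n, T4 k * (1 - W4 n 3 k) ^ 2 +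
      ((∑ k ∈ range n, T4 k * W4 n 3 k * W4 n 0 k + ∑ k ∈ range n, T4 k * W4 n 3 k * W4 n 0 k) -
        ∑ k ∈ range n, T4 k * W4 n 3 k * W4 n 3 k) := by
    rw [← sum_add_distrib, ← sum_sub_distrib, ← sum_add_distrib]
    apply sum_congr rfl
    intro k _
    rw [W4_one]; ring
  rw [hfin]
  exact key.add ((q0.add q0).sub q3)

end

end Pool.Agent.X14.QBlock
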