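import Pool.Agent.X14.QE2

set_option autoImplicit false
set_option linter.unusedSectionVars false

/-! Very well poised sums in base `q^4` with first parameter `q^{-1}`, deformed by two pairs of parameters. -/

namespace Pool.Agent.X14.QBlock

open Finset Polynomial Pool.Agent.X14.QL

noncomputable section

variable {n : ℕ}

/-- `(q^{-1};q^4)_k/(q^4;q^4)_k` -/
def X5 (k : ℕ) : RatFunc ℚ := ∏ j ∈ range k, (e (4 * (j : ℤ) - 1) / e (4 * (j : ℤ) + 4))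

/-- `(q^2;q^4)_k/(q;q^4)_k` -/
def Y5 (k : ℕ) : RatFunc ℚ := ∏ j ∈ range k, (e (4 * (j : ℤ) + 2) / e (4 * (j : ℤ) + 1))

/-- the numerator weights -/
def N5 (n : ℕ) (M : ℤ) (k : ℕ) : RatFunc ℚ := ∏ j ∈ range k, rho 1 n M (4 * (j : ℤ) - 1)

/-- the weights -/
def W5 (n : ℕ) (M : ℤ) (k : ℕ) : RatFunc ℚ := N5 n M k / D4 n M k

/-- the terms -/
def T5 (k : ℕ) : RatFunc ℚ := e (8 * (k : ℤ) - 1) * (q ^ (8 * k) * X5 k ^ 5 * Y5 k)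

lemma W5_zero {M : ℤ} {m k : ℕ} (hm : M * n = 4 * m - 1) (hk : m < k) : W5 n M k = 0 := by
  unfold W5 N5
  rw [prod_eq_zero (mem_range.2 hk), zero_div]
  unfold rho
  rw [hm]
  have : e (((1 : ℕ) : ℤ) * (4 * (m : ℤ) - 1 - (4 * m - 1))) = 0 := by
    unfold e; simp
  rw [this]; simp

lemma W5_one (k : ℕ) : W5 n 0 k = 1 := by
  unfold W5 N5 D4
  have h : ∀ a : ℤ, a ≠ 0 → rho 1 n 0 a = 1 := by
    intro a ha
    unfold rho
    have := e_ne ha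
    push_cast
    rw [zero_mul, add_zero, sub_zero, one_mul]
    field_simp
  rw [prod_congr rfl (fun j _ => h _ (by omega)), prod_congr rfl (fun j _ => h _ (by omega))]
  simp

lemma qz_mul (a b : ℤ) : q ^ a * q ^ b = q ^ (a + b) := (zpow_add₀ q_ne a b).symm

lemma q4z (i : ℕ) : (q ^ 4) ^ i = q ^ (4 * (i : ℤ)) := by
  rw [← pow_mul, ← zpow_natCast]; congr 1

/-- `q^a - q^b = q^a (1 - q^{b-a})` -/
lemma sub_e (a b : ℤ) : q ^ a - q ^ b = q ^ a * e (b - a) := by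
  unfold e
  rw [mul_sub, mul_one, qz_mul]; congr 2; ring

lemma sub_e' {a b c : ℤ} (h : c = b - a) : q ^ a - q ^ b = q ^ a * e c := by
  rw [h]; exact sub_e a b

lemma one_e {x : RatFunc ℚ} {c : ℤ} (h : x = q ^ c) : 1 - x = e c := by
  rw [h]; rfl

/-- the general factor: the third parameter is `q^{-s}` -/
lemma factor5 {M M' : ℤ} {m : ℕ} (s : ℤ) (j : ℕ) :
    (((1 - q ^ (-1 : ℤ) * (q ^ 4) ^ j) * ((q ^ (1 - M' * n) - (q ^ 4) ^ j) * (q ^ (1 + M' * n) - (q ^ 4) ^ j) * (q ^ (-s) - (q ^ 4) ^ j)) *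
      ((q ^ 4) ^ m - (q ^ 4) ^ j) *
      (1 - q ^ (-1 : ℤ) * (q ^ (-1 : ℤ) * q ^ (1 - M' * n) * q ^ (1 + M' * n) * q ^ (-s) * (q ^ 4) ^ (m + 1 + j))) * (q ^ (-1 : ℤ) * q ^ 4)) /
    ((1 - (q ^ 4) ^ (j + 1)) * ((1 - q ^ (-1 : ℤ) * q ^ (1 - M' * n) * (q ^ 4) ^ (j + 1)) * (1 - q ^ (-1 : ℤ) * q ^ (1 + M' * n) * (q ^ 4) ^ (j + 1)) *
        (1 - q ^ (-1 : ℤ) * q ^ (-s) * (q ^ 4) ^ (j + 1))) *
      (q ^ (-1 : ℤ) * q ^ (1 - M' * n) * q ^ (1 + M' * n) * q ^ (-s) * (q ^ 4) ^ m - (q ^ 4) ^ j) * (1 - q ^ (-1 : ℤ) * (q ^ 4) ^ (m + 1 + j)))) =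
    q ^ 4 * ((e (4 * (j : ℤ) - 1) * (e (4 * (j : ℤ) - 1 + M' * n) * e (4 * (j : ℤ) - 1 - M' * n)) * e (4 * (j : ℤ) + s) *
        e (4 * (j : ℤ) - 4 * m) * e (4 * (j : ℤ) + 4 - s + 4 * m)) /
      (e (4 * (j : ℤ) + 4) * (e (4 * (j : ℤ) + 4 - M' * n) * e (4 * (j : ℤ) + 4 + M' * n)) * e (4 * (j : ℤ) + 3 - s) *
        e (4 * (j : ℤ) - 1 + s - 4 * m) * e (4 * (j : ℤ) + 3 + 4 * m))) := by
  have hq := q_ne
  have f1 : 1 - q ^ (-1 : ℤ) * (q ^ 4) ^ j = e (4 * (j : ℤ) - 1) := one_e (by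
    rw [q4z, qz_mul, show (-1 : ℤ) + 4 * (j : ℤ) = 4 * j - 1 by ring])
  have f2 : q ^ (1 - M' * n) - (q ^ 4) ^ j = q ^ (1 - M' * n) * e (4 * (j : ℤ) - 1 + M' * n) := by
    rw [q4z]; exact sub_e' (by ring)
  have f3 : q ^ (1 + M' * n) - (q ^ 4) ^ j = q ^ (1 + M' * n) * e (4 * (j : ℤ) - 1 - M' * n) := by
    rw [q4z]; exact sub_e' (by ring)
  have f4 : q ^ (-s) - (q ^ 4) ^ j = q ^ (-s) * e (4 * (j : ℤ) + s) := by
    rw [q4z]; exact sub_e' (by ring)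
  have f5 : (q ^ 4) ^ m - (q ^ 4) ^ j = q ^ (4 * (m : ℤ)) * e (4 * (j : ℤ) - 4 * m) := by
    rw [q4z, q4z]; exact sub_e' (by ring)
  have f6 : 1 - q ^ (-1 : ℤ) * (q ^ (-1 : ℤ) * q ^ (1 - M' * n) * q ^ (1 + M' * n) * q ^ (-s) * (q ^ 4) ^ (m + 1 + j)) =
      e (4 * (j : ℤ) + 4 - s + 4 * m) := one_e (by
        rw [q4z, qz_mul, qz_mul, qz_mul, qz_mul, qz_mul]; congr 1; push_cast; ring)
  have g1 : 1 - (q ^ 4) ^ (j + 1) = e (4 * (j : ℤ) + 4) := one_e (by rw [q4z, show 4 * ((j + 1 : ℕ) : ℤ) = 4 * j + 4 by push_cast; ring])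
  have g2 : 1 - q ^ (-1 : ℤ) * q ^ (1 - M' * n) * (q ^ 4) ^ (j + 1) = e (4 * (j : ℤ) + 4 - M' * n) := one_e (by
    rw [q4z, qz_mul, qz_mul]; congr 1; push_cast; ring)
  have g3 : 1 - q ^ (-1 : ℤ) * q ^ (1 + M' * n) * (q ^ 4) ^ (j + 1) = e (4 * (j : ℤ) + 4 + M' * n) := one_e (by
    rw [q4z, qz_mul, qz_mul]; congr 1; push_cast; ring)
  have g4 : 1 - q ^ (-1 : ℤ) * q ^ (-s) * (q ^ 4) ^ (j + 1) = e (4 * (j : ℤ) + 3 - s) := one_e (by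
    rw [q4z, qz_mul, qz_mul]; congr 1; push_cast; ring)
  have g5 : q ^ (-1 : ℤ) * q ^ (1 - M' * n) * q ^ (1 + M' * n) * q ^ (-s) * (q ^ 4) ^ m - (q ^ 4) ^ j =
      q ^ (4 * (m : ℤ) + 1 - s) * e (4 * (j : ℤ) - 1 + s - 4 * m) := by
    have : q ^ (-1 : ℤ) * q ^ (1 - M' * n) * q ^ (1 + M' * n) * q ^ (-s) * (q ^ 4) ^ m = q ^ (4 * (m : ℤ) + 1 - s) := by
      rw [q4z, qz_mul, qz_mul, qz_mul, qz_mul]; congr 1; ring
    rw [this, q4z]; exact sub_e' (by ring)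
  have g6 : 1 - q ^ (-1 : ℤ) * (q ^ 4) ^ (m + 1 + j) = e (4 * (j : ℤ) + 3 + 4 * m) := one_e (by
    rw [q4z, qz_mul]; congr 1; push_cast; ring)
  have hp : q ^ (1 - M' * n) * q ^ (1 + M' * n) * q ^ (-s) * q ^ (4 * (m : ℤ)) * (q ^ (-1 : ℤ) * q ^ 4) = q ^ 4 * q ^ (4 * (m : ℤ) + 1 - s) := by
    rw [qz_mul, qz_mul, qz_mul]
    have : q ^ (4 * (m : ℤ) + 1 - s) = q ^ (1 - M' * n + (1 + M' * n) + -s + 4 * m) * q ^ (-1 : ℤ) := by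
      rw [qz_mul]; congr 1; ring
    rw [this]; ring
  rw [f1, f2, f3, f4, f5, f6, g1, g2, g3, g4, g5, g6]
  have z1 : q ^ (4 * (m : ℤ) + 1 - s) ≠ 0 := zpow_ne_zero _ hq
  have e1 : e (4 * (j : ℤ) - 1) * (q ^ (1 - M' * n) * e (4 * (j : ℤ) - 1 + M' * n) * (q ^ (1 + M' * n) * e (4 * (j : ℤ) - 1 - M' * n)) *
      (q ^ (-s) * e (4 * (j : ℤ) + s))) * (q ^ (4 * (m : ℤ)) * e (4 * (j : ℤ) - 4 * m)) * e (4 * (j : ℤ) + 4 - s + 4 * m) * (q ^ (-1 : ℤ) * q ^ 4) =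
      (q ^ 4 * (e (4 * (j : ℤ) - 1) * (e (4 * (j : ℤ) - 1 + M' * n) * e (4 * (j : ℤ) - 1 - M' * n)) * e (4 * (j : ℤ) + s) *
        e (4 * (j : ℤ) - 4 * m) * e (4 * (j : ℤ) + 4 - s + 4 * m))) * q ^ (4 * (m : ℤ) + 1 - s) := by
    linear_combination (e (4 * (j : ℤ) - 1) * (e (4 * (j : ℤ) - 1 + M' * n) * e (4 * (j : ℤ) - 1 - M' * n)) * e (4 * (j : ℤ) + s) *
        e (4 * (j : ℤ) - 4 * m) * e (4 * (j : ℤ) + 4 - s + 4 * m)) * hp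
  rw [e1]
  have e2 : e (4 * (j : ℤ) + 4) * (e (4 * (j : ℤ) + 4 - M' * n) * e (4 * (j : ℤ) + 4 + M' * n) * e (4 * (j : ℤ) + 3 - s)) *
      (q ^ (4 * (m : ℤ) + 1 - s) * e (4 * (j : ℤ) - 1 + s - 4 * m)) * e (4 * (j : ℤ) + 3 + 4 * m) =
      (e (4 * (j : ℤ) + 4) * (e (4 * (j : ℤ) + 4 - M' * n) * e (4 * (j : ℤ) + 4 + M' * n)) * e (4 * (j : ℤ) + 3 - s) *
        e (4 * (j : ℤ) - 1 + s - 4 * m) * e (4 * (j : ℤ) + 3 + 4 * m)) * q ^ (4 * (m : ℤ) + 1 - s) := by ring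
  rw [e2, mul_div_mul_right _ _ z1, mul_div_assoc]

section
variable {M M' : ℤ} {m : ℕ} (hm : M * n = 4 * m - 1) (hM' : ∀ j : ℤ, j ≠ 0 → M' * n ≠ 4 * j)
include hm hM'

lemma W5_succ (M : ℤ) (k : ℕ) : W5 n M (k + 1) = W5 n M k * (rho 1 n M (4 * (k : ℤ) - 1) / rho 1 n M (4 * (k : ℤ) + 4)) := by
  unfold W5 N5 D4
  rw [prod_range_succ, prod_range_succ, mul_div_mul_comm]

/-- the first summable series -/
lemma jk5a (k : ℕ) :
    QJ.jk (q ^ 4) (q ^ (-1 : ℤ)) (q ^ (1 - M' * n)) (q ^ (1 + M' * n)) (q ^ (-6 : ℤ)) m k * (e 2 * e (-3)) =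
      q ^ (4 * k) * X5 k ^ 5 * Y5 k * W5 n M k * W5 n M' k * (e (4 * (k : ℤ) + 2) * e (4 * (k : ℤ) - 3)) := by
  induction k with
  | zero => simp [QJ.jk, X5, Y5, W5, N5, D4]
  | succ k ih =>
    have h2 : X5 (k + 1) = X5 k * (e (4 * (k : ℤ) - 1) / e (4 * (k : ℤ) + 4)) := by
      unfold X5; rw [prod_range_succ]
    have h3 : Y5 (k + 1) = Y5 k * (e (4 * (k : ℤ) + 2) / e (4 * (k : ℤ) + 1)) := by
      unfold Y5; rw [prod_range_succ]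
    rw [QJ.jk_succ, factor5 (n := n) (M := M) (M' := M') 6 k, mul_right_comm, ih, W5_succ hm hM', W5_succ hm hM', h2, h3, Nat.mul_succ, pow_add]
    unfold rho
    rw [hm]
    push_cast
    simp only [one_mul]
    have r1 : 4 * ((k : ℤ) + 1) + 2 = 4 * k + 6 := by ring
    have r2 : 4 * ((k : ℤ) + 1) - 3 = 4 * k + 1 := by ring
    have r3 : 4 * (k : ℤ) - 1 + (4 * m - 1) = 4 * k + 4 - 6 + 4 * m := by ring
    have r4 : 4 * (k : ℤ) - 1 - (4 * m - 1) = 4 * k - 4 * m := by ring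
    have r5 : 4 * (k : ℤ) + 4 + (4 * m - 1) = 4 * k + 3 + 4 * m := by ring
    have r6 : 4 * (k : ℤ) + 4 - (4 * m - 1) = 4 * k - 1 + 6 - 4 * m := by ring
    have r7 : 4 * (k : ℤ) + 3 - 6 = 4 * k - 3 := by ring
    rw [r1, r2, r3, r4, r5, r6, r7]
    have n1 : e (4 * (k : ℤ) - 1) ≠ 0 := e_ne (by omega)
    have n2 : e (4 * (k : ℤ) + 1) ≠ 0 := e_ne (by omega)
    have n3 : e (4 * (k : ℤ) - 3) ≠ 0 := e_ne (by omega)
    have n4 : e (4 * (k : ℤ) + 4) ≠ 0 := e_ne (by omega)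
    have n5 : e (4 * (k : ℤ) + 3 + 4 * m) ≠ 0 := e_ne (by omega)
    have n6 : e (4 * (k : ℤ) - 1 + 6 - 4 * m) ≠ 0 := e_ne (by omega)
    have n7 : e (4 * (k : ℤ) + 4 + M' * n) ≠ 0 := e_ne (fun h => hM' (-(k + 1)) (by omega) (by linarith))
    have n8 : e (4 * (k : ℤ) + 4 - M' * n) ≠ 0 := e_ne (fun h => hM' (k + 1) (by omega) (by linarith))
    clear r1 r2 r3 r4 r5 r6 r7 ih h2 h3 hM' hm
    generalize e (4 * (k : ℤ) - 1) = a1 at *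
    generalize e (4 * (k : ℤ) + 1) = a2 at *
    generalize e (4 * (k : ℤ) - 3) = a3 at *
    generalize e (4 * (k : ℤ) + 4) = a4 at *
    generalize e (4 * (k : ℤ) + 3 + 4 * m) = a5 at *
    generalize e (4 * (k : ℤ) - 1 + 6 - 4 * m) = a6 at *
    generalize e (4 * (k : ℤ) + 4 + M' * n) = a7 at *
    generalize e (4 * (k : ℤ) + 4 - M' * n) = a8 at *
    generalize e (4 * (k : ℤ) + 4 - 6 + 4 * m) = b1 at *
    generalize e (4 * (k : ℤ) - 4 * m) = b2 at *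
    generalize e (4 * (k : ℤ) - 1 + M' * n) = b3 at *
    generalize e (4 * (k : ℤ) - 1 - M' * n) = b4 at *
    generalize e (4 * (k : ℤ) + 2) = b5 at *
    generalize e (4 * (k : ℤ) + 6) = b6 at *
    have key : (b5 * a3) * (a1 * (b3 * b4) * b6 * b2 * b1 / (a4 * (a8 * a7) * a3 * a6 * a5)) =
        (a1 / a4) ^ 5 * (b5 / a2) * ((b1 * b2 / a1 ^ 2) / (a5 * a6 / a4 ^ 2)) * ((b3 * b4 / a1 ^ 2) / (a7 * a8 / a4 ^ 2)) * (b6 * a2) := by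
      field_simp
    generalize X5 k = X at *
    generalize Y5 k = Y at *
    generalize W5 n M k = W at *
    generalize W5 n M' k = W' at *
    have hL : ∀ F : RatFunc ℚ, q ^ (4 * k) * X ^ 5 * Y * W * W' * (b5 * a3) * (q ^ 4 * F) = q ^ (4 * k) * X ^ 5 * Y * W * W' * q ^ 4 * ((b5 * a3) * F) := by
      intro F; ring
    rw [hL, key, mul_pow]
    generalize (a1 / a4) ^ 5 = Z1 at *
    generalize (b5 / a2) = Z2 at *
    generalize ((b1 * b2 / a1 ^ 2) / (a5 * a6 / a4 ^ 2)) = Z3 at *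
    generalize ((b3 * b4 / a1 ^ 2) / (a7 * a8 / a4 ^ 2)) = Z4 at *
    ring

/-- the second summable series -/
lemma jk5b (k : ℕ) :
    QJ.jk (q ^ 4) (q ^ (-1 : ℤ)) (q ^ (1 - M' * n)) (q ^ (1 + M' * n)) (q ^ (-2 : ℤ)) m k * (e (M * n - 1) * e (-(M * n))) =
      q ^ (4 * k) * X5 k ^ 5 * Y5 k * W5 n M k * W5 n M' k * (e (4 * (k : ℤ) - 1 + M * n) * e (4 * (k : ℤ) - M * n)) := by
  induction k with
  | zero =>
    have : e (-1 + M * (n : ℤ)) = e (M * n - 1) := by congr 1; ring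
    simp [QJ.jk, X5, Y5, W5, N5, D4, this]
  | succ k ih =>
    have h2 : X5 (k + 1) = X5 k * (e (4 * (k : ℤ) - 1) / e (4 * (k : ℤ) + 4)) := by
      unfold X5; rw [prod_range_succ]
    have h3 : Y5 (k + 1) = Y5 k * (e (4 * (k : ℤ) + 2) / e (4 * (k : ℤ) + 1)) := by
      unfold Y5; rw [prod_range_succ]
    rw [QJ.jk_succ, factor5 (n := n) (M := M) (M' := M') 2 k, mul_right_comm, ih, W5_succ hm hM', W5_succ hm hM', h2, h3, Nat.mul_succ, pow_add]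
    unfold rho
    rw [hm]
    push_cast
    simp only [one_mul]
    have r1 : 4 * ((k : ℤ) + 1) - 1 + (4 * m - 1) = 4 * k + 2 + 4 * m := by ring
    have r2 : 4 * ((k : ℤ) + 1) - (4 * m - 1) = 4 * k + 5 - 4 * m := by ring
    have r3 : 4 * (k : ℤ) - 1 + (4 * m - 1) = 4 * k - 2 + 4 * m := by ring
    have r4 : 4 * (k : ℤ) - 1 - (4 * m - 1) = 4 * k - 4 * m := by ring
    have r5 : 4 * (k : ℤ) + 4 + (4 * m - 1) = 4 * k + 3 + 4 * m := by ring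
    have r6 : 4 * (k : ℤ) + 4 - (4 * m - 1) = 4 * k + 5 - 4 * m := by ring
    have r7 : 4 * (k : ℤ) + 3 - 2 = 4 * k + 1 := by ring
    have r8 : 4 * (k : ℤ) + 4 - 2 + 4 * m = 4 * k + 2 + 4 * m := by ring
    have r9 : 4 * (k : ℤ) - 1 + 2 - 4 * m = 4 * k + 1 - 4 * m := by ring
    have r10 : 4 * (k : ℤ) - (4 * m - 1) = 4 * k + 1 - 4 * m := by ring
    rw [r1, r2, r3, r4, r5, r6, r7, r8, r9, r10]
    have n1 : e (4 * (k : ℤ) - 1) ≠ 0 := e_ne (by omega)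
    have n2 : e (4 * (k : ℤ) + 1) ≠ 0 := e_ne (by omega)
    have n4 : e (4 * (k : ℤ) + 4) ≠ 0 := e_ne (by omega)
    have n5 : e (4 * (k : ℤ) + 3 + 4 * m) ≠ 0 := e_ne (by omega)
    have n6 : e (4 * (k : ℤ) + 5 - 4 * m) ≠ 0 := e_ne (by omega)
    have n9 : e (4 * (k : ℤ) + 1 - 4 * m) ≠ 0 := e_ne (by omega)
    have n7 : e (4 * (k : ℤ) + 4 + M' * n) ≠ 0 := e_ne (fun h => hM' (-(k + 1)) (by omega) (by linarith))
    have n8 : e (4 * (k : ℤ) + 4 - M' * n) ≠ 0 := e_ne (fun h => hM' (k + 1) (by omega) (by linarith))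
    clear r1 r2 r3 r4 r5 r6 r7 r8 r9 r10 ih h2 h3 hM' hm
    generalize e (4 * (k : ℤ) - 1) = a1 at *
    generalize e (4 * (k : ℤ) + 1) = a2 at *
    generalize e (4 * (k : ℤ) + 4) = a4 at *
    generalize e (4 * (k : ℤ) + 3 + 4 * m) = a5 at *
    generalize e (4 * (k : ℤ) + 5 - 4 * m) = a6 at *
    generalize e (4 * (k : ℤ) + 4 + M' * n) = a7 at *
    generalize e (4 * (k : ℤ) + 4 - M' * n) = a8 at *
    generalize e (4 * (k : ℤ) + 1 - 4 * m) = a9 at *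
    generalize e (4 * (k : ℤ) + 2 + 4 * m) = b1 at *
    generalize e (4 * (k : ℤ) - 2 + 4 * m) = b7 at *
    generalize e (4 * (k : ℤ) - 4 * m) = b2 at *
    generalize e (4 * (k : ℤ) - 1 + M' * n) = b3 at *
    generalize e (4 * (k : ℤ) - 1 - M' * n) = b4 at *
    generalize e (4 * (k : ℤ) + 2) = b5 at *
    have key : (b7 * a9) * (a1 * (b3 * b4) * b5 * b2 * b1 / (a4 * (a8 * a7) * a2 * a9 * a5)) =
        (a1 / a4) ^ 5 * (b5 / a2) * ((b7 * b2 / a1 ^ 2) / (a5 * a6 / a4 ^ 2)) * ((b3 * b4 / a1 ^ 2) / (a7 * a8 / a4 ^ 2)) * (b1 * a6) := by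
      field_simp
    generalize X5 k = X at *
    generalize Y5 k = Y at *
    generalize W5 n M k = W at *
    generalize W5 n M' k = W' at *
    have hL : ∀ F : RatFunc ℚ, q ^ (4 * k) * X ^ 5 * Y * W * W' * (b7 * a9) * (q ^ 4 * F) = q ^ (4 * k) * X ^ 5 * Y * W * W' * q ^ 4 * ((b7 * a9) * F) := by
      intro F; ring
    rw [hL, key, mul_pow]
    generalize (a1 / a4) ^ 5 = Z1 at *
    generalize (b5 / a2) = Z2 at *
    generalize ((b7 * b2 / a1 ^ 2) / (a5 * a6 / a4 ^ 2)) = Z3 at *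
    generalize ((b3 * b4 / a1 ^ 2) / (a7 * a8 / a4 ^ 2)) = Z4 at *
    ring

end

end

end Pool.Agent.X14.QBlock
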