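import Pool.Agent.X14.QF1

set_option autoImplicit false
set_option linter.unusedSectionVars false

/-! Evaluation of the deformed sums. -/

namespace Pool.Agent.X14.QBlock

open Finset Polynomial Pool.Agent.X14.QL

noncomputable section

variable {n : ℕ}

/-- a telescoping product -/
lemma tele (a : ℤ) (ha : a % 4 ≠ 0) (m : ℕ) :
    ∏ j ∈ range m, (e (4 * (j : ℤ) + (a + 4)) / e (4 * (j : ℤ) + a)) = e (4 * m + a) / e a := by
  induction m with
  | zero =>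
    have : e a ≠ 0 := e_ne (by omega)
    simp [this]
  | succ m ih =>
    rw [prod_range_succ, ih]
    have h1 : e a ≠ 0 := e_ne (by omega)
    have h2 : e (4 * (m : ℤ) + a) ≠ 0 := e_ne (by omega)
    have h3 : 4 * ((m + 1 : ℕ) : ℤ) + a = 4 * m + (a + 4) := by push_cast; ring
    rw [h3]
    field_simp

/-- the products in the evaluation -/
def PI (s : ℤ) (n : ℕ) (M' : ℤ) (m : ℕ) : RatFunc ℚ :=
  ∏ j ∈ range m, ((e (4 * (j : ℤ) + s - M' * n) * e (4 * (j : ℤ) + s + M' * n)) /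
    (e (4 * (j : ℤ) + 4 - M' * n) * e (4 * (j : ℤ) + 4 + M' * n)))

section
variable {M M' : ℤ} {m : ℕ} (hm : M * n = 4 * m - 1) (hM' : ∀ j : ℤ, j ≠ 0 → M' * n ≠ 4 * j)
include hm hM'

/-- Jackson's sum for the two series -/
lemma sum5 (s : ℤ) (hs : s % 4 = 2) :
    ∑ k ∈ range (m + 1), e (8 * (k : ℤ) - 1) *
        QJ.jk (q ^ 4) (q ^ (-1 : ℤ)) (q ^ (1 - M' * n)) (q ^ (1 + M' * n)) (q ^ (-s)) m k =
      e (-1) * ((e (4 * m + 1) / e 1) * ((∏ j ∈ range m, (e (4 * (j : ℤ) + 3) / e (4 * (j : ℤ) + 5 - s))) *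
        (∏ j ∈ range m, (e (4 * (j : ℤ) + 1) / e (4 * (j : ℤ) + 3 - s))) * PI (4 - s) n M' m)) := by
  have hq := q_ne
  have k1 : ∀ j : ℕ, 1 - q ^ (-1 : ℤ) * q ^ (1 - M' * n) * (q ^ 4) ^ (j + 1) = e (4 * (j : ℤ) + 4 - M' * n) := fun j => one_e (by
    rw [q4z, qz_mul, qz_mul]; congr 1; push_cast; ring)
  have k2 : ∀ j : ℕ, 1 - q ^ (-1 : ℤ) * q ^ (1 + M' * n) * (q ^ 4) ^ (j + 1) = e (4 * (j : ℤ) + 4 + M' * n) := fun j => one_e (by
    rw [q4z, qz_mul, qz_mul]; congr 1; push_cast; ring)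
  have k3 : ∀ j : ℕ, 1 - q ^ (-1 : ℤ) * q ^ (-s) * (q ^ 4) ^ (j + 1) = e (4 * (j : ℤ) + 3 - s) := fun j => one_e (by
    rw [q4z, qz_mul, qz_mul]; congr 1; push_cast; ring)
  have k4 : ∀ j : ℕ, 1 - q ^ (-1 : ℤ) * (q ^ 4) ^ (j + 1) = e (4 * (j : ℤ) + 3) := fun j => one_e (by
    rw [q4z, qz_mul]; congr 1; push_cast; ring)
  have k5 : ∀ j : ℕ, 1 - q ^ (-1 : ℤ) * q ^ (1 - M' * n) * q ^ (1 + M' * n) * (q ^ 4) ^ (j + 1) = e (4 * (j : ℤ) + 5) := fun j => one_e (by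
    rw [q4z, qz_mul, qz_mul, qz_mul]; congr 1; push_cast; ring)
  have k6 : ∀ j : ℕ, 1 - q ^ (-1 : ℤ) * q ^ (1 - M' * n) * q ^ (-s) * (q ^ 4) ^ (j + 1) = e (4 * (j : ℤ) + (4 - s) - M' * n) := fun j => one_e (by
    rw [q4z, qz_mul, qz_mul, qz_mul]; congr 1; push_cast; ring)
  have k7 : ∀ j : ℕ, 1 - q ^ (-1 : ℤ) * q ^ (1 + M' * n) * q ^ (-s) * (q ^ 4) ^ (j + 1) = e (4 * (j : ℤ) + (4 - s) + M' * n) := fun j => one_e (by
    rw [q4z, qz_mul, qz_mul, qz_mul]; congr 1; push_cast; ring)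
  have k8 : ∀ j : ℕ, 1 - q ^ (-1 : ℤ) * q ^ (1 - M' * n) * q ^ (1 + M' * n) * q ^ (-s) * (q ^ 4) ^ (j + 1) = e (4 * (j : ℤ) + 5 - s) := fun j => one_e (by
    rw [q4z, qz_mul, qz_mul, qz_mul, qz_mul]; congr 1; push_cast; ring)
  have hsum := QJ.jackson (q := q ^ 4) (a := q ^ (-1 : ℤ)) (b := q ^ (1 - M' * n)) (c := q ^ (1 + M' * n)) (d := q ^ (-s)) (pow_ne_zero _ hq)
    (fun k => by rw [← pow_mul]; exact one_sub_ne (by positivity))
    (fun k => by rw [k4]; exact e_ne (by omega))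
    (fun k => by rw [k1]; exact e_ne (fun h => hM' (k + 1) (by omega) (by linarith)))
    (fun k => by rw [k2]; exact e_ne (fun h => hM' (-(k + 1)) (by omega) (by linarith)))
    (fun k => by rw [k3]; exact e_ne (by omega))
    (fun i j => by
      have h1 : q ^ (-1 : ℤ) * q ^ (1 - M' * n) * q ^ (1 + M' * n) * q ^ (-s) * (q ^ 4) ^ i = q ^ (4 * (i : ℤ) + 1 - s) := by
        rw [q4z, qz_mul, qz_mul, qz_mul, qz_mul]; congr 1; ring
      rw [h1, q4z, sub_e]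
      exact mul_ne_zero (zpow_ne_zero _ hq) (e_ne (by omega)))
    (fun i => by
      have h1 : 1 - q ^ (-1 : ℤ) * (q ^ (-1 : ℤ) * q ^ (1 - M' * n) * q ^ (1 + M' * n) * q ^ (-s) * (q ^ 4) ^ i) = e (4 * (i : ℤ) - s) :=
        one_e (by rw [q4z, qz_mul, qz_mul, qz_mul, qz_mul, qz_mul]; congr 1; ring)
      rw [h1]
      exact e_ne (by omega)) m
  have h1 : ∀ k : ℕ, 1 - q ^ (-1 : ℤ) * (q ^ 4) ^ (2 * k) = e (8 * (k : ℤ) - 1) := fun k => one_e (by
    rw [q4z, qz_mul]; congr 1; push_cast; ring)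
  simp only [h1] at hsum
  rw [hsum]
  have h2 : (1 - q ^ (-1 : ℤ)) = e (-1) := rfl
  rw [h2]
  congr 1
  have h3 := tele 1 (by norm_num) m
  rw [← h3]
  unfold PI
  rw [← prod_mul_distrib, ← prod_mul_distrib, ← prod_mul_distrib]
  apply prod_congr rfl
  intro j _
  rw [k1, k2, k3, k4, k5, k6, k7, k8]
  have n1 : e (4 * (j : ℤ) + 1) ≠ 0 := e_ne (by omega)
  have n2 : e (4 * (j : ℤ) + 5 - s) ≠ 0 := e_ne (by omega)
  have n3 : e (4 * (j : ℤ) + 3 - s) ≠ 0 := e_ne (by omega)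
  have n7 : e (4 * (j : ℤ) + 4 + M' * n) ≠ 0 := e_ne (fun h => hM' (-(j + 1)) (by omega) (by linarith))
  have n8 : e (4 * (j : ℤ) + 4 - M' * n) ≠ 0 := e_ne (fun h => hM' (j + 1) (by omega) (by linarith))
  norm_num
  field_simp

/-- the evaluation of the deformed sum -/
theorem pair5 {K : ℕ} (hK : m < K) :
    (∑ k ∈ range K, T5 k * W5 n M k * W5 n M' k) * (q ^ (M * n - 1) * (e (3 - M * n) * e (-2 - M * n))) =
      e 2 * e (M * n) * (e (M * n + 2) / e 1) * e (M * n - 2) * PI (-2) n M' m -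
        e (M * n - 1) * e (-(M * n)) * (e (-1) * (e (M * n + 2) / e 1)) * PI 2 n M' m := by
  have s1 := sum5 hm hM' 6 (by norm_num)
  have s2 := sum5 hm hM' 2 (by norm_num)
  have e3 : ∏ j ∈ range m, (e (4 * (j : ℤ) + 3) / e (4 * (j : ℤ) + 5 - 6)) = e (M * n) / e (-1) := by
    have := tele (-1) (by norm_num) m
    rw [show 4 * (m : ℤ) + -1 = M * n by linarith] at this
    rw [← this]
    apply prod_congr rfl
    intro j _
    congr 2; ring
  have e4 : ∏ j ∈ range m, (e (4 * (j : ℤ) + 1) / e (4 * (j : ℤ) + 3 - 6)) = e (M * n - 2) / e (-3) := by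
    have := tele (-3) (by norm_num) m
    rw [show 4 * (m : ℤ) + -3 = M * n - 2 by linarith] at this
    rw [← this]
    apply prod_congr rfl
    intro j _
    congr 2; ring
  have e5 : ∏ j ∈ range m, (e (4 * (j : ℤ) + 3) / e (4 * (j : ℤ) + 5 - 2)) = 1 := by
    apply prod_eq_one
    intro j _
    rw [show 4 * (j : ℤ) + 5 - 2 = 4 * j + 3 by ring]
    exact div_self (e_ne (by omega))
  have e6 : ∏ j ∈ range m, (e (4 * (j : ℤ) + 1) / e (4 * (j : ℤ) + 3 - 2)) = 1 := by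
    apply prod_eq_one
    intro j _
    rw [show 4 * (j : ℤ) + 3 - 2 = 4 * j + 1 by ring]
    exact div_self (e_ne (by omega))
  rw [e3, e4, show (4 : ℤ) - 6 = -2 by norm_num] at s1
  rw [e5, e6, show (4 : ℤ) - 2 = 2 by norm_num] at s2
  have hres : ∑ k ∈ range K, T5 k * W5 n M k * W5 n M' k = ∑ k ∈ range (m + 1), T5 k * W5 n M k * W5 n M' k := by
    rw [← Finset.sum_subset (range_subset_range.2 (show m + 1 ≤ K by omega))]
    intro k _ hk
    rw [mem_range, not_lt] at hk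
    rw [W5_zero hm (by omega)]; ring
  have hpt : ∀ k : ℕ, T5 k * W5 n M k * W5 n M' k * (q ^ (M * n - 1) * (e (3 - M * n) * e (-2 - M * n))) =
      e (8 * (k : ℤ) - 1) * QJ.jk (q ^ 4) (q ^ (-1 : ℤ)) (q ^ (1 - M' * n)) (q ^ (1 + M' * n)) (q ^ (-6 : ℤ)) m k * (e 2 * e (-3)) -
      e (8 * (k : ℤ) - 1) * QJ.jk (q ^ 4) (q ^ (-1 : ℤ)) (q ^ (1 - M' * n)) (q ^ (1 + M' * n)) (q ^ (-2 : ℤ)) m k *
        (e (M * n - 1) * e (-(M * n))) := by
    intro k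
    rw [mul_assoc (e (8 * (k : ℤ) - 1)), jk5a hm hM' k, mul_assoc (e (8 * (k : ℤ) - 1)), jk5b hm hM' k]
    have hid : q ^ (4 * k) * (q ^ (M * n - 1) * (e (3 - M * n) * e (-2 - M * n))) =
        e (4 * (k : ℤ) + 2) * e (4 * (k : ℤ) - 3) - e (4 * (k : ℤ) - 1 + M * n) * e (4 * (k : ℤ) - M * n) := by
      have hq := q_ne
      unfold e
      have w1 : q ^ (4 * k) = q ^ (4 * (k : ℤ)) := by rw [← zpow_natCast]; congr 1
      rw [w1]
      simp only [zpow_add₀ hq, zpow_sub₀ hq, zpow_neg, zpow_one]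
      have hx : q ^ (M * (n : ℤ)) ≠ 0 := zpow_ne_zero _ hq
      have h2 : (q : RatFunc ℚ) ^ (2 : ℤ) = q ^ 2 := by norm_cast
      have h3 : (q : RatFunc ℚ) ^ (3 : ℤ) = q ^ 3 := by norm_cast
      rw [h2, h3]
      generalize q ^ (M * (n : ℤ)) = x at *
      generalize q ^ (4 * (k : ℤ)) = y at *
      generalize q = z at *
      field_simp
      ring
    have h8 : q ^ (8 * k) = q ^ (4 * k) * q ^ (4 * k) := by rw [← pow_add]; congr 1; ring
    unfold T5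
    rw [h8]
    linear_combination (e (8 * (k : ℤ) - 1) * (q ^ (4 * k) * X5 k ^ 5 * Y5 k * W5 n M k * W5 n M' k)) * hid
  have h9 : 4 * (m : ℤ) + 1 = M * n + 2 := by linarith
  rw [h9] at s1 s2
  rw [hres, sum_mul, sum_congr rfl (fun k _ => hpt k), sum_sub_distrib, ← sum_mul, ← sum_mul, s1, s2]
  have n1 : e (-1) ≠ 0 := e_ne (by omega)
  have n3 : e (-3) ≠ 0 := e_ne (by omega)
  field_simp

end

/-- the relation between the two products when `M' = 0` -/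
lemma PI_rel (m : ℕ) : PI (-2) n 0 m * e (4 * m - 2) ^ 2 = PI 2 n 0 m * e (-2) ^ 2 := by
  unfold PI
  induction m with
  | zero => simp
  | succ m ih =>
    rw [prod_range_succ, prod_range_succ]
    simp only [zero_mul, sub_zero, add_zero] at ih ⊢
    have h1 : 4 * ((m + 1 : ℕ) : ℤ) - 2 = 4 * m + 2 := by push_cast; ring
    have h2 : 4 * (m : ℤ) + -2 = 4 * m - 2 := by ring
    rw [h1, h2] at *
    have n4 : e (4 * (m : ℤ) + 4) ≠ 0 := e_ne (by omega)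
    linear_combination (e (4 * (m : ℤ) + 2) ^ 2 / (e (4 * (m : ℤ) + 4) * e (4 * (m : ℤ) + 4))) * ih

/-- the evaluation with one pair of parameters -/
theorem single5 {M : ℤ} {m : ℕ} (hm : M * n = 4 * m - 1) (h3 : M * n ≠ 3) {K : ℕ} (hK : m < K) :
    (∑ k ∈ range K, T5 k * W5 n M k) * e (M * n - 1) ^ 2 =
      e (M * n) * PI 2 n 0 m * (-q⁻¹ * (1 + q ^ (2 * (M * n))) + (q + 1 - 2 * q⁻¹ + q⁻¹ ^ 2 + q⁻¹ ^ 3) * q ^ (M * n)) := by
  have hq := q_ne
  have hp := pair5 (M' := 0) hm (fun j hj h => by omega) hK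
  simp only [W5_one, mul_one] at hp
  have hr := PI_rel (n := n) m
  rw [show 4 * (m : ℤ) - 2 = M * n - 1 by linarith] at hr
  have hD : q ^ (M * n - 1) * (e (3 - M * n) * e (-2 - M * n)) ≠ 0 :=
    mul_ne_zero (zpow_ne_zero _ hq) (mul_ne_zero (e_ne (by omega)) (e_ne (by omega)))
  apply mul_right_cancel₀ hD
  rw [mul_right_comm, hp]
  have h4 : e 2 * e (M * n) * (e (M * n + 2) / e 1) * e (M * n - 2) * PI (-2) n 0 m * e (M * n - 1) ^ 2 =
      e 2 * e (M * n) * (e (M * n + 2) / e 1) * e (M * n - 2) * (PI 2 n 0 m * e (-2) ^ 2) := by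
    rw [← hr]; ring
  rw [sub_mul, h4]
  have n1 : e 1 ≠ 0 := e_ne (by omega)
  generalize PI 2 n 0 m = Z at *
  clear hp hr h4 hD
  unfold e at *
  rw [show 2 * (M * (n : ℤ)) = M * n + M * n by ring]
  simp only [zpow_add₀ hq, zpow_sub₀ hq, zpow_neg, zpow_one] at *
  have hx : q ^ (M * (n : ℤ)) ≠ 0 := zpow_ne_zero _ hq
  have h2 : (q : RatFunc ℚ) ^ (2 : ℤ) = q ^ 2 := by norm_cast
  have h3 : (q : RatFunc ℚ) ^ (3 : ℤ) = q ^ 3 := by norm_cast
  rw [h2, h3]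
  generalize q ^ (M * (n : ℤ)) = x at *
  generalize q = z at *
  field_simp
  ring

end

end Pool.Agent.X14.QBlock
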