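import Pool.Agent.X14.QF2

set_option autoImplicit false
set_option linter.unusedSectionVars false

/-! Blocks of very well poised sums in base `q^4` with first parameter `q^{-1}`. -/

namespace Pool.Agent.X14.QBlock

open Finset Polynomial Pool.Agent.X14.QL

noncomputable section

variable {n M0 t : ℕ}

lemma res_unique' (hn : n % 2 = 1) {x y i : ℕ} {c : ℤ} (hx : x < n) (hy : y < n) (hxc : (n : ℤ) ∣ 4 * (x : ℤ) + c)
    (hyc : (n : ℤ) ∣ 4 * ((n * i + y : ℕ) : ℤ) + c) : y = x := by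
  have h1 : (n : ℤ) ∣ 4 * (y : ℤ) + c := by
    have : 4 * ((n * i + y : ℕ) : ℤ) + c = (n : ℤ) * (4 * i) + (4 * y + c) := by push_cast; ring
    rw [this] at hyc
    exact (dvd_add_right (dvd_mul_right _ _)).1 hyc
  have h3 : (n : ℤ) ∣ 4 * ((y : ℤ) - x) := by
    have := dvd_sub h1 hxc
    rwa [show 4 * (y : ℤ) + c - (4 * x + c) = 4 * ((y : ℤ) - x) by ring] at this
  have h4 : IsCoprime (n : ℤ) 4 := by
    have h5 : Nat.Coprime n 4 := by
      have : Nat.Coprime n 2 := Nat.Coprime.symm ((Nat.Prime.coprime_iff_not_dvd Nat.prime_two).2 (by omega))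
      exact Nat.Coprime.pow_right 2 this
    exact_mod_cast Nat.isCoprime_iff_coprime.2 h5
  have h5 := h4.dvd_of_dvd_mul_left h3
  obtain ⟨z, hz⟩ := h5
  have h6 : z = 0 := by
    by_contra hz0
    rcases lt_or_gt_of_ne hz0 with h | h
    · nlinarith
    · nlinarith
  rw [h6, mul_zero] at hz
  omega

lemma odd_of5 (h0 : M0 * n + 1 = 4 * t) : n % 2 = 1 := by
  have h1 : (M0 * n) % 2 = 1 := by omega
  exact (Nat.odd_mul.1 (Nat.odd_iff.2 h1)).2 |> Nat.odd_iff.1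

lemma M0_odd5 (h0 : M0 * n + 1 = 4 * t) : M0 % 2 = 1 := by
  have h1 : (M0 * n) % 2 = 1 := by omega
  exact (Nat.odd_mul.1 (Nat.odd_iff.2 h1)).1 |> Nat.odd_iff.1

section
variable (h0 : M0 * n + 1 = 4 * t) (hM0 : M0 < 4) (hn1 : 1 < n)
include h0 hM0 hn1

lemma t_lt5 : t < n := by
  have : M0 * n ≤ 3 * n := Nat.mul_le_mul_right n (by omega)
  omega

lemma eq5 (i : ℕ) : 4 * ((n * i + t : ℕ) : ℤ) - 1 = (4 * (i : ℤ) + M0) * n := by
  have : (M0 : ℤ) * n + 1 = 4 * t := by exact_mod_cast h0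
  push_cast
  linear_combination -this

lemma nd5 {i y : ℕ} (hy : y < n) (hyt : y ≠ t) : ¬ (n : ℤ) ∣ 4 * ((n * i + y : ℕ) : ℤ) - 1 := by
  intro h
  have : (M0 : ℤ) * n + 1 = 4 * t := by exact_mod_cast h0
  exact hyt (res_unique' (i := i) (c := -1) (odd_of5 h0) (t_lt5 h0 hM0 hn1) hy ⟨M0, by linarith⟩ (by rw [← sub_eq_add_neg]; exact h))

/-- the residue of the poles -/
lemma eqp5 (i : ℕ) : 4 * ((n * i + (n - t) : ℕ) : ℤ) + 1 = (4 * (i : ℤ) + (4 - M0)) * n := by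
  have h1 : (M0 : ℤ) * n + 1 = 4 * t := by exact_mod_cast h0
  have h2 := t_lt5 h0 hM0 hn1
  rw [Nat.cast_add, Nat.cast_mul, Nat.cast_sub h2.le]
  linear_combination h1

lemma ndp5 {i y : ℕ} (hy : y < n) (hyt : y ≠ n - t) : ¬ (n : ℤ) ∣ 4 * ((n * i + y : ℕ) : ℤ) + 1 := by
  intro h
  have h1 : (M0 : ℤ) * n + 1 = 4 * t := by exact_mod_cast h0
  have h2 := t_lt5 h0 hM0 hn1
  have h3 : 0 < t := by omega
  refine hyt (res_unique' (c := 1) (odd_of5 h0) (by omega) hy ⟨4 - M0, ?_⟩ h)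
  rw [Nat.cast_sub h2.le]
  linarith

lemma X5_mem (J : ℕ) {l : ℕ} (hl : l < n) :
    X5 (n * J + l) ∈ Loc (cyclotomic n ℚ) ∧ (t < l → QO (cyclotomic n ℚ) 1 (X5 (n * J + l))) := by
  have hn0 : 0 < n := by omega
  have := ratio_blocks (P := cyclotomic n ℚ) (n := n) (fun j => e (4 * (j : ℤ) - 1)) (fun j => e (4 * (j : ℤ) + 4))
    (t0 := t) (t1 := n - 1) (l := l) J (t_lt5 h0 hM0 hn1) (by omega) (fun j => e_mem hn0 _)
    (fun i y hy hyt => e_inv hn0 (nd4 (odd_of5 h0) hy hyt))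
    (fun i => by
      rw [eq5 h0 hM0 hn1, eq4 hn0]
      exact ratio_mem hn0 _ (by omega)) (by omega)
  refine ⟨this.1, fun hl' => this.2 hl' ?_⟩
  rw [eq5 h0 hM0 hn1]
  exact e_QO hn0 (dvd_mul_left _ _)

lemma Y5_mem (J : ℕ) {l : ℕ} (hl : l < n) :
    al (cyclotomic n ℚ) * Y5 (n * J + l) ∈ Loc (cyclotomic n ℚ) := by
  have hn0 : 0 < n := by omega
  have hodd := odd_of5 h0
  obtain ⟨h, hh⟩ : ∃ h, n = 2 * h + 1 := ⟨n / 2, by omega⟩
  have hM1 := M0_odd5 h0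
  have h2 := t_lt5 h0 hM0 hn1
  have h3 : 0 < t := by omega
  have ht3 : n - t < n := by omega
  have hfull : (∏ i ∈ range J, ∏ y ∈ range n, (e (4 * ((n * i + y : ℕ) : ℤ) + 2) / e (4 * ((n * i + y : ℕ) : ℤ) + 1))) ∈
      Loc (cyclotomic n ℚ) := by
    apply (Loc _).prod_mem
    intro i _
    rw [prod_div_distrib, ← mul_prod_erase _ (fun y => e (4 * ((n * i + y : ℕ) : ℤ) + 2)) (mem_range.2 (show h < n by omega)),
      ← mul_prod_erase _ (fun y => e (4 * ((n * i + y : ℕ) : ℤ) + 1)) (mem_range.2 ht3), mul_div_mul_comm]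
    refine (Loc _).mul_mem ?_ ?_
    · rw [eq2 hh, eqp5 h0 hM0 hn1]
      exact ratio_mem hn0 _ (by omega)
    · rw [div_eq_mul_inv]
      refine (Loc _).mul_mem ((Loc _).prod_mem (fun y _ => e_mem hn0 _)) ?_
      rw [← prod_inv_distrib]
      apply (Loc _).prod_mem
      intro y hy
      rw [mem_erase, mem_range] at hy
      exact e_inv hn0 (ndp5 h0 hM0 hn1 hy.2 hy.1)
  have hlast : al (cyclotomic n ℚ) * (∏ y ∈ range l, (e (4 * ((n * J + y : ℕ) : ℤ) + 1))⁻¹) ∈ Loc (cyclotomic n ℚ) := by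
    rcases Nat.lt_or_ge (n - t) l with hlt | hge
    · rw [← mul_prod_erase _ _ (mem_range.2 hlt), ← mul_assoc]
      refine (Loc _).mul_mem ?_ ((Loc _).prod_mem ?_)
      · rw [eqp5 h0 hM0 hn1]
        exact pole hn0 (by omega)
      · intro y hy
        rw [mem_erase, mem_range] at hy
        exact e_inv hn0 (ndp5 h0 hM0 hn1 (by omega) hy.1)
    · refine (Loc _).mul_mem (al_mem _ _) ((Loc _).prod_mem ?_)
      intro y hy
      rw [mem_range] at hy
      exact e_inv hn0 (ndp5 h0 hM0 hn1 (by omega) (by omega))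
  unfold Y5
  rw [prod_range_blocks]
  have e1 : ∏ y ∈ range l, (e (4 * ((n * J + y : ℕ) : ℤ) + 2) / e (4 * ((n * J + y : ℕ) : ℤ) + 1)) =
      (∏ y ∈ range l, e (4 * ((n * J + y : ℕ) : ℤ) + 2)) * ∏ y ∈ range l, (e (4 * ((n * J + y : ℕ) : ℤ) + 1))⁻¹ := by
    rw [← prod_mul_distrib]
    apply prod_congr rfl
    intro y _
    rw [div_eq_mul_inv]
  rw [e1]
  have h5 := (Loc _).mul_mem (((Loc _).mul_mem hfull ((Loc _).prod_mem (fun y (_ : y ∈ range l) => e_mem hn0 (4 * ((n * J + y : ℕ) : ℤ) + 2))))) hlast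
  convert h5 using 1
  ring

lemma T5_mem (J : ℕ) {l : ℕ} (hl : l < n) :
    al (cyclotomic n ℚ) * T5 (n * J + l) ∈ Loc (cyclotomic n ℚ) ∧
      (t < l → QO (cyclotomic n ℚ) 5 (al (cyclotomic n ℚ) * T5 (n * J + l))) := by
  have hn0 : 0 < n := by omega
  obtain ⟨h1, h2⟩ := X5_mem h0 hM0 hn1 J hl
  have h3 := Y5_mem h0 hM0 hn1 J hl
  have h4 : e (8 * ((n * J + l : ℕ) : ℤ) - 1) * q ^ (8 * (n * J + l)) ∈ Loc (cyclotomic n ℚ) :=
    (Loc _).mul_mem (e_mem hn0 _) ((Loc _).pow_mem (q_mem _) _)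
  have h5 : al (cyclotomic n ℚ) * T5 (n * J + l) = (e (8 * ((n * J + l : ℕ) : ℤ) - 1) * q ^ (8 * (n * J + l))) *
      (al (cyclotomic n ℚ) * Y5 (n * J + l)) * X5 (n * J + l) ^ 5 := by
    unfold T5; ring
  rw [h5]
  refine ⟨(Loc _).mul_mem ((Loc _).mul_mem h4 h3) ((Loc _).pow_mem h1 5), fun hl' => ?_⟩
  have h6 := h2 hl'
  have h7 : X5 (n * J + l) ^ 5 = X5 (n * J + l) * X5 (n * J + l) * X5 (n * J + l) * X5 (n * J + l) * X5 (n * J + l) := by ring
  rw [h7]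
  exact QO.mul_left ((Loc _).mul_mem h4 h3) ((((h6.mul h6).mul h6).mul h6).mul h6)

lemma N5_eqm (M : ℤ) (J : ℕ) {l : ℕ} (hl : l ≤ t) :
    Eqm (cyclotomic n ℚ) 2 (N5 n M (n * J + l)) ((∏ i ∈ range J, wt M (4 * (i : ℤ) + M0) : ℚ) : RatFunc ℚ) := by
  have ht := t_lt5 h0 hM0 hn1
  have hn0 : 0 < n := by omega
  have hM1 := M0_odd5 h0
  rw [Rat.cast_prod]
  unfold N5
  refine prod_blocks_eqm _ (fun i => ((wt M (4 * (i : ℤ) + M0) : ℚ) : RatFunc ℚ)) J ht ?_ (fun i => rat_mem _ _) ?_ hl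
  · intro i y hy hyt
    exact rho_U hn0 (Nat.coprime_one_left n) M (nd5 h0 hM0 hn1 hy hyt)
  · intro i
    rw [eq5 h0 hM0 hn1]
    have := rho_mult (s := 1) hn0 one_pos M (c := 4 * (i : ℤ) + M0) (by omega)
    unfold wt
    exact this

lemma W5_eqm (μ J : ℕ) {l : ℕ} (hl : l ≤ t) :
    Eqm (cyclotomic n ℚ) 2 (W5 n (4 * μ + M0) (n * J + l)) (w4 M0 μ J) := by
  have ht := t_lt5 h0 hM0 hn1
  have hM1 := M0_odd5 h0
  unfold W5 w4
  exact (N5_eqm h0 hM0 hn1 _ J hl).div (by norm_num) (D4_eqm (odd_of5 h0) _ J (by omega)) (den_ne (by omega) J)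

lemma W5_mem (μ J : ℕ) {l : ℕ} (hl : l < n) :
    W5 n (4 * μ + M0) (n * J + l) ∈ Loc (cyclotomic n ℚ) := by
  have hM1 := M0_odd5 h0
  have hn0 : 0 < n := by omega
  unfold W5
  rw [div_eq_mul_inv]
  refine (Loc _).mul_mem ?_ (((D4_eqm (odd_of5 h0) _ J hl).inv (den_ne (by omega) J) (by norm_num)).mem (rat_mem _ _))
  unfold N5
  exact (Loc _).prod_mem (fun j _ => rho_mem hn0 one_pos (Nat.coprime_one_left n) _ (by omega))

/-- the deformed sums vanish modulo `Φ_n` -/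
lemma V5_QO (μ : ℕ) : QO (cyclotomic n ℚ) 1 (∑ k ∈ range (n * (μ + 1)), T5 k * W5 n (4 * μ + M0) k) := by
  have ht := t_lt5 h0 hM0 hn1
  have hn0 : 0 < n := by omega
  have hM1 := M0_odd5 h0
  have hodd := odd_of5 h0
  obtain ⟨h, hh⟩ : ∃ h, n = 2 * h + 1 := ⟨n / 2, by omega⟩
  have hmz : (4 * (μ : ℤ) + M0) * n = 4 * ((n * μ + t : ℕ) : ℤ) - 1 := (eq5 h0 hM0 hn1 μ).symm
  by_cases h3 : (4 * (μ : ℤ) + M0) * n = 3
  · -- `n = 3`, `M = 1`
    have hmt : n * μ + t = 1 := by omega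
    have h5 : (4 * μ + M0) * n = 3 := by exact_mod_cast h3
    have h6 : n = 3 ∧ 4 * μ + M0 = 1 := by
      have h7 : n ∣ 3 := ⟨4 * μ + M0, by rw [← h5, mul_comm]⟩
      have h8 := (Nat.dvd_prime Nat.prime_three).1 h7
      have h9 : n = 3 := by omega
      refine ⟨h9, ?_⟩
      rw [h9] at h5; omega
    have h7 : μ = 0 := by omega
    have h8 : M0 = 1 := by omega
    obtain ⟨h9, -⟩ := h6
    subst h9 h7 h8
    have hz : W5 3 (4 * ((0 : ℕ) : ℤ) + ((1 : ℕ) : ℤ)) 2 = 0 := W5_zero (m := 1) (by norm_num) (by norm_num)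
    have n1 : e 1 ≠ 0 := e_ne (by omega)
    have n4 : e 4 ≠ 0 := e_ne (by omega)
    have n7 : e 7 ≠ 0 := e_ne (by omega)
    have n9 : e (-1) ≠ 0 := e_ne (by omega)
    have hsum : ∑ k ∈ range (3 * (0 + 1)), T5 k * W5 3 (4 * ((0 : ℕ) : ℤ) + ((1 : ℕ) : ℤ)) k = e 6 * (e (-1) * e 2 * ((e 4)⁻¹) ^ 2) := by
      rw [show 3 * (0 + 1) = 3 by norm_num, sum_range_succ, sum_range_succ, sum_range_succ, sum_range_zero, hz]
      have hE : e (-4) = -(q ^ (-4 : ℤ) * e 4) := by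
        have := e_neg 4
        rwa [← zpow_neg] at this
      have hE1 : e (-1) = -(q ^ (-1 : ℤ) * e 1) := by
        have := e_neg 1
        rwa [← zpow_neg] at this
      simp only [T5, W5, N5, D4, X5, Y5, rho, prod_range_zero, prod_range_one]
      norm_num
      rw [hE]
      rw [hE1] at n9 ⊢
      have hq := q_ne
      have p1 : e 1 = 1 - q := by unfold e; rw [zpow_one]
      have p2 : e 2 = 1 - q ^ 2 := by unfold e; norm_cast
      have p4 : e 4 = 1 - q ^ 4 := by unfold e; norm_cast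
      have p6 : e 6 = 1 - q ^ 6 := by unfold e; norm_cast
      have p7 : e 7 = 1 - q ^ 7 := by unfold e; norm_cast
      rw [p1] at n1
      rw [p4] at n4
      rw [p7] at n7
      rw [p1, p2, p4, p6, p7]
      have z1 : q ^ (-1 : ℤ) = q⁻¹ := zpow_neg_one q
      have z4 : q ^ (-4 : ℤ) = (q ^ 4)⁻¹ := by rw [zpow_neg]; norm_cast
      rw [z1, z4]
      clear hE hE1 hz p1 p2 p4 p6 p7 z1 z4 n9 h3 hmz h5 hmt h0 hh hodd
      generalize q = x at *
      field_simp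
      ring
    rw [hsum]
    refine QO.mul_right (e_QO (by norm_num) (by norm_num)) ?_
    exact (Loc _).mul_mem ((Loc _).mul_mem (e_mem (by norm_num) _) (e_mem (by norm_num) _))
      ((Loc _).pow_mem (e_inv (by norm_num) (by norm_num)) 2)
  · have hs := single5 (n := n) (M := 4 * (μ : ℤ) + M0) (m := n * μ + t) hmz h3 (K := n * (μ + 1)) (by rw [Nat.mul_succ]; omega)
    have hnd : ¬ (n : ℤ) ∣ (4 * (μ : ℤ) + M0) * n - 1 := by
      intro hd
      have h5 := dvd_sub (dvd_mul_left (n : ℤ) (4 * (μ : ℤ) + M0)) hd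
      rw [sub_sub_cancel] at h5
      have := Int.le_of_dvd one_pos h5
      omega
    have hne : e ((4 * (μ : ℤ) + M0) * n - 1) ≠ 0 := e_ne (fun h => hnd (h ▸ dvd_zero _))
    have hPI : PI 2 n 0 (n * μ + t) ∈ Loc (cyclotomic n ℚ) := by
      have h2 := Z4_mem hh μ ht
      have h3 := (Loc _).mul_mem h2 h2
      rw [← prod_mul_distrib] at h3
      unfold PI
      convert h3 using 1
      apply prod_congr rfl
      intro j _
      rw [zero_mul, sub_zero, add_zero, sub_zero, add_zero, mul_div_mul_comm]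
    have hqi : q⁻¹ ∈ Loc (cyclotomic n ℚ) := q_inv_mem hn1
    have hq := q_mem (cyclotomic n ℚ)
    have h2m : (2 : RatFunc ℚ) ∈ Loc (cyclotomic n ℚ) := by
      have := nat_mem (cyclotomic n ℚ) 2; exact_mod_cast this
    have hlast : (-q⁻¹ * (1 + q ^ (2 * ((4 * (μ : ℤ) + M0) * n))) + (q + 1 - 2 * q⁻¹ + q⁻¹ ^ 2 + q⁻¹ ^ 3) * q ^ ((4 * (μ : ℤ) + M0) * n)) ∈
        Loc (cyclotomic n ℚ) := by
      refine (Loc _).add_mem ((Loc _).mul_mem ((Loc _).neg_mem hqi) ((Loc _).add_mem (Loc _).one_mem (zmem hn0 _))) ?_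
      refine (Loc _).mul_mem ?_ (zmem hn0 _)
      exact (Loc _).add_mem ((Loc _).add_mem ((Loc _).sub_mem ((Loc _).add_mem hq (Loc _).one_mem) ((Loc _).mul_mem h2m hqi))
        ((Loc _).pow_mem hqi 2)) ((Loc _).pow_mem hqi 3)
    have hR : QO (cyclotomic n ℚ) 1 ((∑ k ∈ range (n * (μ + 1)), T5 k * W5 n (4 * μ + M0) k) * e ((4 * (μ : ℤ) + M0) * n - 1) ^ 2) := by
      rw [hs]
      exact QO.mul_right (QO.mul_right (e_QO hn0 (dvd_mul_left _ _)) hPI) hlast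
    have h9 := QO.mul_right hR ((Loc _).pow_mem (e_inv hn0 hnd) 2)
    convert h9 using 1
    field_simp

/-- the blocks vanish modulo `Φ_n` -/
theorem blocks5 (J : ℕ) : QO (cyclotomic n ℚ) 1 (∑ l ∈ range n, T5 (n * J + l)) := by
  have ht := t_lt5 h0 hM0 hn1
  have hn0 : 0 < n := by omega
  have hM1 := M0_odd5 h0
  have hal : al (cyclotomic n ℚ) ≠ 0 := al_ne (cyclotomic_ne_zero n ℚ)
  have hB := tri (P := cyclotomic n ℚ) (k := 2) (C := 0) (w := w4 M0) (b := fun _ => 0) (v := fun _ => 0)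
    (V := fun μ => al (cyclotomic n ℚ) * ∑ k ∈ range (n * (μ + 1)), T5 k * W5 n (4 * μ + M0) k)
    (B := fun J => ∑ l ∈ range n, al (cyclotomic n ℚ) * T5 (n * J + l)) ?_ (fun μ => by simp) ?_ ?_ J
  · unfold Eqm at hB
    rw [zero_mul, sub_zero, ← mul_sum] at hB
    obtain ⟨y, hy, hy'⟩ := hB
    refine ⟨y, hy, ?_⟩
    rw [pow_one]
    apply mul_left_cancel₀ hal
    rw [hy']; ring
  · intro μ
    have h1 := block_main (P := cyclotomic n ℚ) (k := 2) (n := n) (term := fun k => al (cyclotomic n ℚ) * T5 k)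
      (W := W5 n (4 * μ + M0)) (h := t) (μ := μ) (w := w4 M0 μ)
      (fun J l hl => (T5_mem h0 hM0 hn1 J hl).1) (fun J l hl hl' => ((T5_mem h0 hM0 hn1 J hl').2 hl).le (by norm_num))
      (fun J l hJ hl => W5_mem h0 hM0 hn1 μ J hl) (fun J l hJ hl _ => W5_eqm h0 hM0 hn1 μ J hl)
    have h3 : ∑ j ∈ range (n * (μ + 1)), al (cyclotomic n ℚ) * T5 j * W5 n (4 * μ + M0) j =
        al (cyclotomic n ℚ) * ∑ k ∈ range (n * (μ + 1)), T5 k * W5 n (4 * μ + M0) k := by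
      rw [mul_sum]
      apply sum_congr rfl
      intro j _
      ring
    rw [h3] at h1
    exact h1.symm
  · intro μ
    have e0 : (0 : RatFunc ℚ) * (((0 : ℚ) : RatFunc ℚ)) = 0 := zero_mul _
    unfold Eqm
    rw [e0, sub_zero]
    have h2 : QO (cyclotomic n ℚ) 1 (al (cyclotomic n ℚ)) := ⟨1, (Loc _).one_mem, by ring⟩
    exact h2.mul (V5_QO h0 hM0 hn1 μ)
  · intro μ
    unfold w4
    exact div_ne_zero (num_ne hM1 μ) (den_ne (by omega) μ)

end

/-- the first block modulo `Φ_n^3` when `n ≡ 1 (mod 4)` -/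
theorem first5 (h0 : 3 * n + 1 = 4 * t) (hn1 : 1 < n) : QO (cyclotomic n ℚ) 3 (∑ k ∈ range n, T5 k) := by
  have hM0 : 3 < 4 := by norm_num
  have ht := t_lt5 h0 hM0 hn1
  have hn0 : 0 < n := by omega
  have hodd := odd_of5 h0
  obtain ⟨h, hh⟩ : ∃ h, n = 2 * h + 1 := ⟨n / 2, by omega⟩
  have hal : al (cyclotomic n ℚ) ≠ 0 := al_ne (cyclotomic_ne_zero n ℚ)
  have hm3 : (3 : ℤ) * n = 4 * (t : ℤ) - 1 := by
    have : ((3 * n + 1 : ℕ) : ℤ) = ((4 * t : ℕ) : ℤ) := by rw [h0]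
    push_cast at this; linarith
  have hn5 : 5 ≤ n := by omega
  have hht : h + 1 < t := by omega
  have hM3 : ∀ j : ℤ, j ≠ 0 → (3 : ℤ) * n ≠ 4 * j := by
    intro j _ hj; rw [hm3] at hj; omega
  have hnd : ∀ c : ℤ, 0 < c → c < 5 → ∀ z : ℤ, ¬ (n : ℤ) ∣ c + z * n := by
    intro c hc1 hc2 z hd
    have h5 := (dvd_add_left (dvd_mul_left (n : ℤ) z)).1 hd
    have := Int.le_of_dvd hc1 h5
    omega
  have hP : ∀ (s M' : ℤ) (j0 : ℕ), j0 < t → 4 * (j0 : ℤ) + s = 2 * n → QO (cyclotomic n ℚ) 2 (PI s n M' t) := by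
    intro s M' j0 hj0 hs
    have hd : ∀ j < t, (e (4 * (j : ℤ) + 4 - M' * n) * e (4 * (j : ℤ) + 4 + M' * n))⁻¹ ∈ Loc (cyclotomic n ℚ) := by
      intro j hj
      have h1 : ¬ (n : ℤ) ∣ 4 * (j : ℤ) + 4 := by
        have := nd4 hodd (i := 0) (y := j) (by omega) (by omega)
        rwa [mul_zero, zero_add] at this
      rw [mul_inv]
      refine (Loc _).mul_mem (e_inv hn0 (fun h => h1 ?_)) (e_inv hn0 (fun h => h1 ?_))
      · have := dvd_add h (dvd_mul_left (n : ℤ) M')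
        rwa [sub_add_cancel] at this
      · have := dvd_sub h (dvd_mul_left (n : ℤ) M')
        rwa [add_sub_cancel_right] at this
    unfold PI
    rw [← mul_prod_erase _ _ (mem_range.2 hj0)]
    refine QO.mul_right ?_ ((Loc _).prod_mem ?_)
    · rw [div_eq_mul_inv]
      refine QO.mul_right ?_ (hd j0 hj0)
      rw [hs]
      exact (e_QO hn0 (by rw [← sub_mul]; exact dvd_mul_left _ _)).mul (e_QO hn0 (by rw [← add_mul]; exact dvd_mul_left _ _))
    · intro j hj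
      rw [mem_erase, mem_range] at hj
      rw [div_eq_mul_inv]
      exact (Loc _).mul_mem ((Loc _).mul_mem (e_mem hn0 _) (e_mem hn0 _)) (hd j hj.2)
  have hDinv : (q ^ (3 * (n : ℤ) - 1) * (e (3 - 3 * n) * e (-2 - 3 * n)))⁻¹ ∈ Loc (cyclotomic n ℚ) := by
    rw [mul_inv, mul_inv]
    refine (Loc _).mul_mem ?_ ((Loc _).mul_mem (e_inv hn0 ?_) (e_inv hn0 ?_))
    · rw [← zpow_neg]; exact zmem hn0 _
    · have := hnd 3 (by norm_num) (by norm_num) (-3)
      intro h; apply this; rw [show 3 + -3 * (n : ℤ) = 3 - 3 * n by ring]; exact h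
    · have := hnd 2 (by norm_num) (by norm_num) 3
      intro h; apply this
      have := (dvd_neg (a := (n : ℤ))).2 h
      rwa [show -(-2 - 3 * (n : ℤ)) = 2 + 3 * n by ring] at this
  have hDne : q ^ (3 * (n : ℤ) - 1) * (e (3 - 3 * n) * e (-2 - 3 * n)) ≠ 0 :=
    mul_ne_zero (zpow_ne_zero _ q_ne) (mul_ne_zero (e_ne (by omega)) (e_ne (by omega)))
  have h1i : (e 1)⁻¹ ∈ Loc (cyclotomic n ℚ) := e_inv hn0 (by
    have := hnd 1 (by norm_num) (by norm_num) 0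
    rwa [zero_mul, add_zero] at this)
  have hV : ∀ M' : ℤ, (∀ j : ℤ, j ≠ 0 → M' * n ≠ 4 * j) →
      QO (cyclotomic n ℚ) 3 (∑ k ∈ range n, T5 k * W5 n 3 k * W5 n M' k) := by
    intro M' hM'
    have hp := pair5 (n := n) (M := 3) (M' := M') (m := t) (K := n) hm3 hM' ht
    have q1 : QO (cyclotomic n ℚ) 3 (e 2 * e (3 * n) * (e (3 * n + 2) / e 1) * e (3 * n - 2) * PI (-2) n M' t) := by
      have a1 : QO (cyclotomic n ℚ) 1 (e 2 * e (3 * n) * (e (3 * n + 2) / e 1) * e (3 * n - 2)) := by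
        rw [div_eq_mul_inv]
        exact QO.mul_right (QO.mul_right (QO.mul_left (e_mem hn0 _) (e_QO hn0 (dvd_mul_left _ _)))
          ((Loc _).mul_mem (e_mem hn0 _) h1i)) (e_mem hn0 _)
      exact a1.mul (hP (-2) M' (h + 1) hht (by push_cast; omega))
    have q2 : QO (cyclotomic n ℚ) 3 (e (3 * n - 1) * e (-(3 * n)) * (e (-1) * (e (3 * n + 2) / e 1)) * PI 2 n M' t) := by
      have a1 : QO (cyclotomic n ℚ) 1 (e (3 * n - 1) * e (-(3 * n)) * (e (-1) * (e (3 * n + 2) / e 1))) := by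
        rw [div_eq_mul_inv]
        exact QO.mul_right (QO.mul_left (e_mem hn0 _) (e_QO hn0 ((dvd_neg).2 (dvd_mul_left _ _))))
          ((Loc _).mul_mem (e_mem hn0 _) ((Loc _).mul_mem (e_mem hn0 _) h1i))
      exact a1.mul (hP 2 M' h (by omega) (by omega))
    have q3 := q1.sub q2
    rw [← hp] at q3
    have q4 := QO.mul_right q3 hDinv
    rwa [mul_assoc, mul_inv_cancel₀ hDne, mul_one] at q4
  have q0 := hV 0 (fun j hj h => by omega)
  have q3 := hV 3 hM3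
  have key : QO (cyclotomic n ℚ) 3 (∑ k ∈ range n, T5 k * (1 - W5 n 3 k) ^ 2) := by
    apply QO.sum
    intro k hk
    rw [mem_range] at hk
    rcases Nat.lt_or_ge t k with h1 | h1
    · rw [W5_zero hm3 h1, sub_zero, one_pow, mul_one]
      have h2 := (T5_mem h0 hM0 hn1 0 hk).2 h1
      rw [mul_zero, zero_add] at h2
      obtain ⟨y, hy, hy'⟩ := h2
      refine ⟨al (cyclotomic n ℚ) * y, (Loc _).mul_mem (al_mem _ _) hy, ?_⟩
      apply mul_left_cancel₀ hal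
      rw [hy']; ring
    · have h2 := (T5_mem h0 hM0 hn1 0 hk).1
      have h3 := W5_eqm h0 hM0 hn1 0 0 h1
      rw [mul_zero, zero_add] at h2 h3
      have h4 : (w4 3 0 0 : ℚ) = 1 := by simp [w4]
      rw [h4] at h3
      have h5 : QO (cyclotomic n ℚ) 2 (1 - W5 n 3 k) := by
        have := h3.symm
        unfold Eqm at this
        push_cast at this
        convert this using 3
      obtain ⟨y, hy, hy'⟩ := h5
      refine ⟨al (cyclotomic n ℚ) * T5 k * y ^ 2, (Loc _).mul_mem h2 ((Loc _).pow_mem hy 2), ?_⟩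
      rw [hy']; ring
  have hfin : ∑ k ∈ range n, T5 k = ∑ k ∈ range n, T5 k * (1 - W5 n 3 k) ^ 2 +
      ((∑ k ∈ range n, T5 k * W5 n 3 k * W5 n 0 k + ∑ k ∈ range n, T5 k * W5 n 3 k * W5 n 0 k) -
        ∑ k ∈ range n, T5 k * W5 n 3 k * W5 n 3 k) := by
    rw [← sum_add_distrib, ← sum_sub_distrib, ← sum_add_distrib]
    apply sum_congr rfl
    intro k _
    rw [W5_one]; ring
  rw [hfin]
  exact key.add ((q0.add q0).sub q3)

end

end Pool.Agent.X14.QBlock
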