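import Pool.Agent.X14.QF1

set_option autoImplicit false
set_option linter.unusedSectionVars false

/-! A cubic-type terminating sum with linear factor `1 - q^{8k+1}`. -/

namespace Pool.Agent.X14.QBlock

open Finset Polynomial Pool.Agent.X14.QL

noncomputable section

/-- the deformed products, `N = 2m+1` -/
def u8 (m k : ℕ) : RatFunc ℚ :=
  ∏ j ∈ range k, (e (2 * (j : ℤ) - 2 * m) * e (2 * (j : ℤ) + 2 + 2 * m) * e (4 * (j : ℤ) + 1) * e (4 * (j : ℤ) + 3) * q ^ (4 * j + 2)) /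
    (e (4 * (j : ℤ) + 2) * e (4 * (j : ℤ) + 4) * e (6 * (j : ℤ) + 5 - 2 * m) * e (6 * (j : ℤ) + 7 + 2 * m))

lemma u8_succ (m k : ℕ) : u8 m (k + 1) = u8 m k *
    ((e (2 * (k : ℤ) - 2 * m) * e (2 * (k : ℤ) + 2 + 2 * m) * e (4 * (k : ℤ) + 1) * e (4 * (k : ℤ) + 3) * q ^ (4 * k + 2)) /
    (e (4 * (k : ℤ) + 2) * e (4 * (k : ℤ) + 4) * e (6 * (k : ℤ) + 5 - 2 * m) * e (6 * (k : ℤ) + 7 + 2 * m))) := by
  unfold u8; rw [prod_range_succ]

lemma e_zero : e 0 = 0 := by unfold e; simp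

lemma u8_zero_of_lt {m k : ℕ} (h : m < k) : u8 m k = 0 := by
  unfold u8
  apply prod_eq_zero (mem_range.2 h)
  rw [show 2 * (m : ℤ) - 2 * m = 0 by ring, e_zero]
  simp

/-- comparison of `m` and `m + 3` -/
lemma u8_shift (m k : ℕ) :
    u8 (m + 3) k * (e (2 * k - 6 - 2 * m) * e (2 * k - 4 - 2 * m) * e (2 * k - 2 - 2 * m) * e (6 * k + 7 + 2 * m)) *
        (e (2 + 2 * m) * e (4 + 2 * m) * e (6 + 2 * m) * e (-1 - 2 * m)) =
      u8 m k * (e (2 * k + 2 + 2 * m) * e (2 * k + 4 + 2 * m) * e (2 * k + 6 + 2 * m) * e (6 * k - 1 - 2 * m)) *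
        (e (-6 - 2 * m) * e (-4 - 2 * m) * e (-2 - 2 * m) * e (7 + 2 * m)) := by
  induction k with
  | zero =>
    simp only [u8, prod_range_zero, Nat.cast_zero, mul_zero, zero_add, one_mul, zero_sub]
    ring
  | succ k ih =>
    rw [u8_succ, u8_succ]
    push_cast
    have r1 : 2 * (k : ℤ) - 2 * (m + 3) = 2 * k - 6 - 2 * m := by ring
    have r2 : 2 * (k : ℤ) + 2 + 2 * (m + 3) = 2 * k + 8 + 2 * m := by ring
    have r3 : 6 * (k : ℤ) + 5 - 2 * (m + 3) = 6 * k - 1 - 2 * m := by ring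
    have r4 : 6 * (k : ℤ) + 7 + 2 * (m + 3) = 6 * k + 13 + 2 * m := by ring
    have r5 : 2 * ((k : ℤ) + 1) - 6 - 2 * m = 2 * k - 4 - 2 * m := by ring
    have r6 : 2 * ((k : ℤ) + 1) - 4 - 2 * m = 2 * k - 2 - 2 * m := by ring
    have r7 : 2 * ((k : ℤ) + 1) - 2 - 2 * m = 2 * k - 2 * m := by ring
    have r8 : 6 * ((k : ℤ) + 1) + 7 + 2 * m = 6 * k + 13 + 2 * m := by ring
    have r9 : 2 * ((k : ℤ) + 1) + 2 + 2 * m = 2 * k + 4 + 2 * m := by ring
    have r10 : 2 * ((k : ℤ) + 1) + 4 + 2 * m = 2 * k + 6 + 2 * m := by ring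
    have r11 : 2 * ((k : ℤ) + 1) + 6 + 2 * m = 2 * k + 8 + 2 * m := by ring
    have r12 : 6 * ((k : ℤ) + 1) - 1 - 2 * m = 6 * k + 5 - 2 * m := by ring
    rw [r1, r2, r3, r4, r5, r6, r7, r8, r9, r10, r11, r12]
    have n1 : e (4 * (k : ℤ) + 2) ≠ 0 := e_ne (by omega)
    have n2 : e (4 * (k : ℤ) + 4) ≠ 0 := e_ne (by omega)
    have n3 : e (6 * (k : ℤ) - 1 - 2 * m) ≠ 0 := e_ne (by omega)
    have n4 : e (6 * (k : ℤ) + 13 + 2 * m) ≠ 0 := e_ne (by omega)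
    have n5 : e (6 * (k : ℤ) + 5 - 2 * m) ≠ 0 := e_ne (by omega)
    have n6 : e (6 * (k : ℤ) + 7 + 2 * m) ≠ 0 := e_ne (by omega)
    have n7 : e (2 * (k : ℤ) + 2 + 2 * m) ≠ 0 := e_ne (by omega)
    clear r1 r2 r3 r4 r5 r6 r7 r8 r9 r10 r11 r12
    generalize e (4 * (k : ℤ) + 2) = a1 at *
    generalize e (4 * (k : ℤ) + 4) = a2 at *
    generalize e (6 * (k : ℤ) - 1 - 2 * m) = a3 at *
    generalize e (6 * (k : ℤ) + 13 + 2 * m) = a4 at *
    generalize e (6 * (k : ℤ) + 5 - 2 * m) = a5 at *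
    generalize e (6 * (k : ℤ) + 7 + 2 * m) = a6 at *
    generalize e (2 * (k : ℤ) + 2 + 2 * m) = a7 at *
    generalize e (4 * (k : ℤ) + 1) = b1 at *
    generalize e (4 * (k : ℤ) + 3) = b2 at *
    generalize e (2 * (k : ℤ) - 6 - 2 * m) = b3 at *
    generalize e (2 * (k : ℤ) - 4 - 2 * m) = b4 at *
    generalize e (2 * (k : ℤ) - 2 - 2 * m) = b5 at *
    generalize e (2 * (k : ℤ) - 2 * m) = b6 at *
    generalize e (2 * (k : ℤ) + 4 + 2 * m) = b7 at *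
    generalize e (2 * (k : ℤ) + 6 + 2 * m) = b8 at *
    generalize e (2 * (k : ℤ) + 8 + 2 * m) = b9 at *
    generalize e (2 + 2 * (m : ℤ)) * e (4 + 2 * m) * e (6 + 2 * m) * e (-1 - 2 * m) = C1 at *
    generalize e (-6 - 2 * (m : ℤ)) * e (-4 - 2 * m) * e (-2 - 2 * m) * e (7 + 2 * m) = C2 at *
    generalize q ^ (4 * k + 2) = Q at *
    generalize u8 (m + 3) k = v at *
    generalize u8 m k = u at *
    have e1 : v * (b3 * b9 * b1 * b2 * Q / (a1 * a2 * a3 * a4)) * (b4 * b5 * b6 * a4) * C1 =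
        (v * (b3 * b4 * b5 * a6) * C1) * (b9 * b1 * b2 * Q * b6 / (a1 * a2 * a3 * a6)) := by
      field_simp
    rw [e1, ih]
    field_simp

/-- the telescoping identity -/
theorem tele8 (m K : ℕ) :
    ∑ k ∈ range K, e (8 * (k : ℤ) + 1) * (q ^ (-8 - 4 * (m : ℤ)) * (e (2 + 2 * m) * e (4 + 2 * m) * e (6 + 2 * m) * e (-1 - 2 * m)) * u8 (m + 3) k -
        (e (-6 - 2 * m) * e (-4 - 2 * m) * e (-2 - 2 * m) * e (7 + 2 * m)) * u8 m k) =
      u8 (m + 3) K * (e (2 + 2 * m) * e (4 + 2 * m) * e (6 + 2 * m) * e (-1 - 2 * m)) * e (-8 - 4 * m) *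
        (e (4 * K - 2) * e (4 * K) * e (6 * K + 7 + 2 * m)) / (e (2 * K + 2 + 2 * m) * e (2 * K + 4 + 2 * m) * e (2 * K + 6 + 2 * m)) := by
  induction K with
  | zero => simp [e_zero]
  | succ k ih =>
    rw [sum_range_succ, ih, u8_succ]
    have hs := u8_shift m k
    have n7 : e (2 * (k : ℤ) + 2 + 2 * m) ≠ 0 := e_ne (by omega)
    have n8 : e (2 * (k : ℤ) + 4 + 2 * m) ≠ 0 := e_ne (by omega)
    have n9 : e (2 * (k : ℤ) + 6 + 2 * m) ≠ 0 := e_ne (by omega)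
    have n10 : e (2 * (k : ℤ) + 8 + 2 * m) ≠ 0 := e_ne (by omega)
    have n3 : e (6 * (k : ℤ) - 1 - 2 * m) ≠ 0 := e_ne (by omega)
    have n1 : e (4 * (k : ℤ) + 2) ≠ 0 := e_ne (by omega)
    have n2 : e (4 * (k : ℤ) + 4) ≠ 0 := e_ne (by omega)
    have n4 : e (6 * (k : ℤ) + 13 + 2 * m) ≠ 0 := e_ne (by omega)
    have hu : (e (-6 - 2 * (m : ℤ)) * e (-4 - 2 * m) * e (-2 - 2 * m) * e (7 + 2 * m)) * u8 m k =
        u8 (m + 3) k * (e (2 * k - 6 - 2 * m) * e (2 * k - 4 - 2 * m) * e (2 * k - 2 - 2 * m) * e (6 * k + 7 + 2 * m)) *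
        (e (2 + 2 * m) * e (4 + 2 * m) * e (6 + 2 * m) * e (-1 - 2 * m)) /
        (e (2 * k + 2 + 2 * m) * e (2 * k + 4 + 2 * m) * e (2 * k + 6 + 2 * m) * e (6 * k - 1 - 2 * m)) := by
      rw [hs]
      field_simp
    rw [hu]
    push_cast
    have r1 : 2 * (k : ℤ) - 2 * (m + 3) = 2 * k - 6 - 2 * m := by ring
    have r2 : 2 * (k : ℤ) + 2 + 2 * (m + 3) = 2 * k + 8 + 2 * m := by ring
    have r3 : 6 * (k : ℤ) + 5 - 2 * (m + 3) = 6 * k - 1 - 2 * m := by ring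
    have r4 : 6 * (k : ℤ) + 7 + 2 * (m + 3) = 6 * k + 13 + 2 * m := by ring
    have r8 : 6 * ((k : ℤ) + 1) + 7 + 2 * m = 6 * k + 13 + 2 * m := by ring
    have r9 : 2 * ((k : ℤ) + 1) + 2 + 2 * m = 2 * k + 4 + 2 * m := by ring
    have r10 : 2 * ((k : ℤ) + 1) + 4 + 2 * m = 2 * k + 6 + 2 * m := by ring
    have r11 : 2 * ((k : ℤ) + 1) + 6 + 2 * m = 2 * k + 8 + 2 * m := by ring
    have r12 : 4 * ((k : ℤ) + 1) - 2 = 4 * k + 2 := by ring
    have r13 : 4 * ((k : ℤ) + 1) = 4 * k + 4 := by ring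
    rw [r1, r2, r3, r4, r8, r9, r10, r11, r12, r13]
    -- the polynomial identity
    have key : e (8 * (k : ℤ) + 1) * (q ^ (-8 - 4 * (m : ℤ)) * (e (2 * k + 2 + 2 * m) * e (2 * k + 4 + 2 * m) * e (2 * k + 6 + 2 * m) * e (6 * k - 1 - 2 * m)) -
          e (2 * k - 6 - 2 * m) * e (2 * k - 4 - 2 * m) * e (2 * k - 2 - 2 * m) * e (6 * k + 7 + 2 * m)) =
        e (-8 - 4 * m) * (q ^ (4 * k + 2) * e (2 * k + 2 + 2 * m) * e (4 * k + 1) * e (4 * k + 3) * e (2 * k - 6 - 2 * m) -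
          e (4 * k - 2) * e (4 * k) * e (6 * k - 1 - 2 * m) * e (6 * k + 7 + 2 * m)) := by
      have hq := q_ne
      have h0 : ∀ z : ℤ, e z = 1 - q ^ z := fun z => rfl
      have w1 : q ^ (4 * k + 2) = q ^ (4 * (k : ℤ) + 2) := by rw [← zpow_natCast]; congr 1
      rw [w1]
      obtain ⟨x, hx⟩ : ∃ x, x = q ^ (k : ℤ) := ⟨_, rfl⟩
      obtain ⟨y, hy⟩ : ∃ y, y = q ^ (m : ℤ) := ⟨_, rfl⟩
      have hx0 : x ≠ 0 := by rw [hx]; exact zpow_ne_zero _ hq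
      have hy0 : y ≠ 0 := by rw [hy]; exact zpow_ne_zero _ hq
      have hk : ∀ (a c : ℕ), q ^ ((a : ℤ) * k + c) = x ^ a * q ^ c := by
        intro a c
        rw [zpow_add₀ hq, zpow_natCast, hx, ← zpow_natCast (q ^ (k : ℤ)), ← zpow_mul]; congr 2; ring
      have t1 : q ^ (8 * (k : ℤ) + 1) = x ^ 8 * q := by have := hk 8 1; push_cast at this; rw [this]; ring
      have t2 : q ^ (4 * (k : ℤ) + 2) = x ^ 4 * q ^ 2 := by have := hk 4 2; push_cast at this; exact this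
      have t3 : q ^ (4 * (k : ℤ) + 1) = x ^ 4 * q := by have := hk 4 1; push_cast at this; rw [this]; ring
      have t4 : q ^ (4 * (k : ℤ) + 3) = x ^ 4 * q ^ 3 := by have := hk 4 3; push_cast at this; exact this
      have t5 : q ^ (4 * (k : ℤ)) = x ^ 4 := by have := hk 4 0; push_cast at this; rw [add_zero] at this; rw [this]; ring
      have t6 : q ^ (4 * (k : ℤ) - 2) = x ^ 4 * (q ^ 2)⁻¹ := by
        rw [zpow_sub₀ hq, t5, div_eq_mul_inv]; norm_cast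
      have t7 : q ^ (-8 - 4 * (m : ℤ)) = (q ^ 8)⁻¹ * (y ^ 4)⁻¹ := by
        rw [zpow_sub₀ hq, hy, ← zpow_natCast (q ^ (m : ℤ)) 4, ← zpow_mul, show (-8 : ℤ) = -((8 : ℕ) : ℤ) by norm_num, zpow_neg, zpow_natCast,
          show (m : ℤ) * ((4 : ℕ) : ℤ) = 4 * m by push_cast; ring, div_eq_mul_inv]
      have t8 : ∀ c : ℕ, q ^ (2 * (k : ℤ) + c + 2 * m) = x ^ 2 * q ^ c * y ^ 2 := by
        intro c
        have := hk 2 c
        push_cast at this
        rw [zpow_add₀ hq, this, hy, ← zpow_natCast (q ^ (m : ℤ)) 2, ← zpow_mul]; congr 2; push_cast; ring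
      have t9 : ∀ c : ℕ, q ^ (2 * (k : ℤ) - c - 2 * m) = x ^ 2 * (q ^ c)⁻¹ * (y ^ 2)⁻¹ := by
        intro c
        have h2 := hk 2 0
        push_cast at h2
        rw [add_zero, pow_zero, mul_one] at h2
        rw [zpow_sub₀ hq, zpow_sub₀ hq, h2, hy, ← zpow_natCast (q ^ (m : ℤ)) 2, ← zpow_mul, zpow_natCast,
          show (m : ℤ) * ((2 : ℕ) : ℤ) = 2 * m by push_cast; ring]
        rw [div_eq_mul_inv, div_eq_mul_inv]
      have t10 : q ^ (6 * (k : ℤ) + 7 + 2 * m) = x ^ 6 * q ^ 7 * y ^ 2 := by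
        have := hk 6 7
        push_cast at this
        rw [zpow_add₀ hq, this, hy, ← zpow_natCast (q ^ (m : ℤ)) 2, ← zpow_mul]; congr 2; push_cast; ring
      have t11 : q ^ (6 * (k : ℤ) - 1 - 2 * m) = x ^ 6 * q⁻¹ * (y ^ 2)⁻¹ := by
        have h2 := hk 6 0
        push_cast at h2
        rw [add_zero, pow_zero, mul_one] at h2
        rw [zpow_sub₀ hq, zpow_sub₀ hq, h2, hy, ← zpow_natCast (q ^ (m : ℤ)) 2, ← zpow_mul, zpow_one,
          show (m : ℤ) * ((2 : ℕ) : ℤ) = 2 * m by push_cast; ring]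
        rw [div_eq_mul_inv, div_eq_mul_inv]
      have a1 := t8 2
      have a2 := t8 4
      have a3 := t8 6
      have b1 := t9 6
      have b2 := t9 4
      have b3 := t9 2
      push_cast at a1 a2 a3 b1 b2 b3
      simp only [h0, t1, t2, t3, t4, t5, t6, t7, t10, t11, a1, a2, a3, b1, b2, b3]
      clear t1 t2 t3 t4 t5 t6 t7 t8 t9 t10 t11 a1 a2 a3 b1 b2 b3 hk w1 h0 hx hy hu hs ih
      generalize q = z at *
      field_simp
      ring
    have n1' := n1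
    generalize e (4 * (k : ℤ) + 2) = a1 at *
    generalize e (4 * (k : ℤ) + 4) = a2 at *
    generalize e (6 * (k : ℤ) - 1 - 2 * m) = a3 at *
    generalize e (6 * (k : ℤ) + 13 + 2 * m) = a4 at *
    generalize e (6 * (k : ℤ) + 7 + 2 * m) = a6 at *
    generalize e (2 * (k : ℤ) + 2 + 2 * m) = a7 at *
    generalize e (4 * (k : ℤ) + 1) = b1 at *
    generalize e (4 * (k : ℤ) + 3) = b2 at *
    generalize e (2 * (k : ℤ) - 6 - 2 * m) = b3 at *
    generalize e (2 * (k : ℤ) - 4 - 2 * m) = b4 at *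
    generalize e (2 * (k : ℤ) - 2 - 2 * m) = b5 at *
    generalize e (2 * (k : ℤ) + 4 + 2 * m) = b7 at *
    generalize e (2 * (k : ℤ) + 6 + 2 * m) = b8 at *
    generalize e (2 * (k : ℤ) + 8 + 2 * m) = b9 at *
    generalize e (2 + 2 * (m : ℤ)) * e (4 + 2 * m) * e (6 + 2 * m) * e (-1 - 2 * m) = C1 at *
    generalize q ^ (4 * k + 2) = Q at *
    generalize u8 (m + 3) k = v at *
    generalize e (-8 - 4 * (m : ℤ)) = E8 at *
    generalize q ^ (-8 - 4 * (m : ℤ)) = Q8 at *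
    generalize e (4 * (k : ℤ) - 2) = d1 at *
    generalize e (4 * (k : ℤ)) = d2 at *
    generalize e (8 * (k : ℤ) + 1) = d3 at *
    clear hu hs ih
    have hA : v * (b3 * b9 * b1 * b2 * Q / (a1 * a2 * a3 * a4)) * C1 * E8 * (a1 * a2 * a4) / (b7 * b8 * b9) =
        v * C1 * (E8 * (Q * a7 * b1 * b2 * b3)) / (a7 * b7 * b8 * a3) := by
      field_simp
    have hB : v * C1 * E8 * (d1 * d2 * a6) / (a7 * b7 * b8) = v * C1 * (E8 * (d1 * d2 * a3 * a6)) / (a7 * b7 * b8 * a3) := by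
      field_simp
    have hC : d3 * (Q8 * C1 * v - v * (b3 * b4 * b5 * a6) * C1 / (a7 * b7 * b8 * a3)) =
        v * C1 * (d3 * (Q8 * (a7 * b7 * b8 * a3) - b3 * b4 * b5 * a6)) / (a7 * b7 * b8 * a3) := by
      field_simp
    rw [hA, hB, hC, key, ← add_div]
    congr 1
    ring

/-- the deformed sum -/
def V8 (m : ℕ) : RatFunc ℚ := ∑ k ∈ range (m + 1), e (8 * (k : ℤ) + 1) * u8 m k

lemma V8_eq {m K : ℕ} (h : m < K) : ∑ k ∈ range K, e (8 * (k : ℤ) + 1) * u8 m k = V8 m := by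
  unfold V8
  rw [← Finset.sum_subset (range_subset_range.2 (show m + 1 ≤ K by omega))]
  intro k _ hk
  rw [mem_range, not_lt] at hk
  rw [u8_zero_of_lt (by omega), mul_zero]

lemma V8_step (m : ℕ) : V8 (m + 3) * e (2 * m + 1) = q ^ (-3 : ℤ) * e (2 * m + 7) * V8 m := by
  have h := tele8 m (m + 4)
  rw [u8_zero_of_lt (show m + 3 < m + 4 by omega), zero_mul, zero_mul, zero_mul, zero_div] at h
  have h1 : ∑ k ∈ range (m + 4), e (8 * (k : ℤ) + 1) * (q ^ (-8 - 4 * (m : ℤ)) * (e (2 + 2 * m) * e (4 + 2 * m) * e (6 + 2 * m) * e (-1 - 2 * m)) * u8 (m + 3) k -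
        (e (-6 - 2 * m) * e (-4 - 2 * m) * e (-2 - 2 * m) * e (7 + 2 * m)) * u8 m k) =
      q ^ (-8 - 4 * (m : ℤ)) * (e (2 + 2 * m) * e (4 + 2 * m) * e (6 + 2 * m) * e (-1 - 2 * m)) * V8 (m + 3) -
        (e (-6 - 2 * m) * e (-4 - 2 * m) * e (-2 - 2 * m) * e (7 + 2 * m)) * V8 m := by
    rw [← V8_eq (show m + 3 < m + 4 by omega), ← V8_eq (show m < m + 4 by omega), mul_sum, mul_sum, ← sum_sub_distrib]
    apply sum_congr rfl
    intro k _
    ring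
  rw [h1] at h
  have hq := q_ne
  have r1 : e (-1 - 2 * (m : ℤ)) = -(q ^ (-1 - 2 * (m : ℤ)) * e (2 * m + 1)) := by
    have := e_neg (2 * (m : ℤ) + 1)
    rw [← zpow_neg] at this
    rw [show -1 - 2 * (m : ℤ) = -(2 * m + 1) by ring, this]
  have r2 : e (-2 - 2 * (m : ℤ)) = -(q ^ (-2 - 2 * (m : ℤ)) * e (2 + 2 * m)) := by
    have := e_neg (2 + 2 * (m : ℤ))
    rw [← zpow_neg] at this
    rw [show -2 - 2 * (m : ℤ) = -(2 + 2 * m) by ring, this]
  have r3 : e (-4 - 2 * (m : ℤ)) = -(q ^ (-4 - 2 * (m : ℤ)) * e (4 + 2 * m)) := by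
    have := e_neg (4 + 2 * (m : ℤ))
    rw [← zpow_neg] at this
    rw [show -4 - 2 * (m : ℤ) = -(4 + 2 * m) by ring, this]
  have r4 : e (-6 - 2 * (m : ℤ)) = -(q ^ (-6 - 2 * (m : ℤ)) * e (6 + 2 * m)) := by
    have := e_neg (6 + 2 * (m : ℤ))
    rw [← zpow_neg] at this
    rw [show -6 - 2 * (m : ℤ) = -(6 + 2 * m) by ring, this]
  rw [r1, r2, r3, r4, show 7 + 2 * (m : ℤ) = 2 * m + 7 by ring] at h
  have n1 : e (2 + 2 * (m : ℤ)) ≠ 0 := e_ne (by omega)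
  have n2 : e (4 + 2 * (m : ℤ)) ≠ 0 := e_ne (by omega)
  have n3 : e (6 + 2 * (m : ℤ)) ≠ 0 := e_ne (by omega)
  have hz : q ^ (-9 - 6 * (m : ℤ)) ≠ 0 := zpow_ne_zero _ hq
  have p1 : q ^ (-8 - 4 * (m : ℤ)) * q ^ (-1 - 2 * (m : ℤ)) = q ^ (-9 - 6 * (m : ℤ)) := by rw [qz_mul]; congr 1; ring
  have p2 : q ^ (-6 - 2 * (m : ℤ)) * q ^ (-4 - 2 * (m : ℤ)) * q ^ (-2 - 2 * (m : ℤ)) = q ^ (-9 - 6 * (m : ℤ)) * q ^ (-3 : ℤ) := by
    rw [qz_mul, qz_mul, qz_mul]; congr 1; ring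
  have hC : q ^ (-9 - 6 * (m : ℤ)) * (e (2 + 2 * m) * e (4 + 2 * m) * e (6 + 2 * m)) ≠ 0 :=
    mul_ne_zero hz (mul_ne_zero (mul_ne_zero n1 n2) n3)
  apply mul_left_cancel₀ hC
  linear_combination (e (2 + 2 * m) * e (4 + 2 * m) * e (6 + 2 * m)) * (-(e (2 * m + 1) * V8 (m + 3)) * p1 + (e (2 * m + 7) * V8 m) * p2) - h

/-- the closed form up to a rational constant -/
theorem V8_closed : ∀ m : ℕ, ∃ c : ℚ, V8 m = (c : RatFunc ℚ) * q ^ (-(m : ℤ)) * e (2 * m + 1)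
  | 0 => ⟨1, by simp [V8, u8]⟩
  | 1 => ⟨0, by
      have n1 : e 2 ≠ 0 := e_ne (by omega)
      have n2 : e 4 ≠ 0 := e_ne (by omega)
      have n3 : e 3 ≠ 0 := e_ne (by omega)
      have n4 : e 9 ≠ 0 := e_ne (by omega)
      have hE : e (-2) = -((q ^ 2)⁻¹ * e 2) := by
        have := e_neg 2
        rw [this]; norm_cast
      have hq := q_ne
      simp only [V8, u8, sum_range_succ, sum_range_zero, prod_range_succ, prod_range_zero]
      norm_num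
      rw [hE]
      field_simp
      ring⟩
  | 2 => ⟨-1, by
      have n1 : e 2 ≠ 0 := e_ne (by omega)
      have n2 : e 4 ≠ 0 := e_ne (by omega)
      have n5 : e 1 ≠ 0 := e_ne (by omega)
      have n6 : e 11 ≠ 0 := e_ne (by omega)
      have n7 : e 6 ≠ 0 := e_ne (by omega)
      have n8 : e 8 ≠ 0 := e_ne (by omega)
      have n9 : e 7 ≠ 0 := e_ne (by omega)
      have n10 : e 17 ≠ 0 := e_ne (by omega)
      have hE : e (-2) = -((q ^ 2)⁻¹ * e 2) := by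
        have := e_neg 2
        rw [this]; norm_cast
      have hE4 : e (-4) = -((q ^ 4)⁻¹ * e 4) := by
        have := e_neg 4
        rw [this]; norm_cast
      have hq := q_ne
      have z2 : q ^ (-2 : ℤ) = (q ^ 2)⁻¹ := by rw [zpow_neg]; norm_cast
      simp only [V8, u8, sum_range_succ, sum_range_zero, prod_range_succ, prod_range_zero]
      norm_num
      rw [hE, hE4]
      have p1 : e 1 = 1 - q := by unfold e; rw [zpow_one]
      have p : ∀ a : ℕ, e (a : ℤ) = 1 - q ^ a := fun a => by unfold e; rw [zpow_natCast]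
      have p2 : e 2 = 1 - q ^ 2 := by exact_mod_cast p 2
      have p3 : e 3 = 1 - q ^ 3 := by exact_mod_cast p 3
      have p4 : e 4 = 1 - q ^ 4 := by exact_mod_cast p 4
      have p5 : e 5 = 1 - q ^ 5 := by exact_mod_cast p 5
      have p6 : e 6 = 1 - q ^ 6 := by exact_mod_cast p 6
      have p7 : e 7 = 1 - q ^ 7 := by exact_mod_cast p 7
      have p8 : e 8 = 1 - q ^ 8 := by exact_mod_cast p 8
      have p9 : e 9 = 1 - q ^ 9 := by exact_mod_cast p 9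
      have p11 : e 11 = 1 - q ^ 11 := by exact_mod_cast p 11
      have p17 : e 17 = 1 - q ^ 17 := by exact_mod_cast p 17
      rw [p1] at n5
      rw [p2] at n1
      rw [p4] at n2
      rw [p11] at n6
      rw [p6] at n7
      rw [p8] at n8
      rw [p7] at n9
      rw [p17] at n10
      simp only [p1, p2, p3, p4, p5, p6, p7, p8, p9, p11, p17]
      clear p p1 p2 p3 p4 p5 p6 p7 p8 p9 p11 p17 hE hE4 z2
      generalize q = z at *
      field_simp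
      ring⟩
  | m + 3 => by
      obtain ⟨c, hc⟩ := V8_closed m
      refine ⟨c, ?_⟩
      have h := V8_step m
      have n1 : e (2 * (m : ℤ) + 1) ≠ 0 := e_ne (by omega)
      apply mul_right_cancel₀ n1
      rw [h, hc]
      have h1 : q ^ (-((m + 3 : ℕ) : ℤ)) = q ^ (-3 : ℤ) * q ^ (-(m : ℤ)) := by rw [qz_mul]; congr 1; push_cast; ring
      have h2 : 2 * ((m + 3 : ℕ) : ℤ) + 1 = 2 * m + 7 := by push_cast; ring
      rw [h1, h2]
      ring

end

end Pool.Agent.X14.QBlock
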