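import Pool.Agent.X14.QG1
import Pool.Agent.X14.QF3

set_option autoImplicit false
set_option linter.unusedSectionVars false

/-! Exact orders at cyclotomic polynomials, and blocks of the sum with linear factor `1 - q^{8k+1}`. -/

namespace Pool.Agent.X14.QBlock

open Finset Polynomial Pool.Agent.X14.QL

noncomputable section

/-- `x` has order exactly `c` at `P` -/
def Vv (P : ℚ[X]) (c : ℤ) (x : RatFunc ℚ) : Prop := ∃ u, u ∈ Loc P ∧ u⁻¹ ∈ Loc P ∧ x = al P ^ c * u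

section
variable {P : ℚ[X]} (hP : P ≠ 0)
include hP

lemma Vv.mul {a b : ℤ} {x y : RatFunc ℚ} (h : Vv P a x) (h' : Vv P b y) : Vv P (a + b) (x * y) := by
  obtain ⟨u, h1, h2, rfl⟩ := h
  obtain ⟨v, h3, h4, rfl⟩ := h'
  refine ⟨u * v, (Loc P).mul_mem h1 h3, by rw [mul_inv]; exact (Loc P).mul_mem h2 h4, ?_⟩
  rw [zpow_add₀ (al_ne hP)]; ring

lemma Vv.one : Vv P 0 1 := ⟨1, (Loc P).one_mem, by rw [inv_one]; exact (Loc P).one_mem, by simp⟩

lemma Vv.inv {a : ℤ} {x : RatFunc ℚ} (h : Vv P a x) : Vv P (-a) x⁻¹ := by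
  obtain ⟨u, h1, h2, rfl⟩ := h
  refine ⟨u⁻¹, h2, by rwa [inv_inv], ?_⟩
  rw [mul_inv, zpow_neg]

lemma Vv.div {a b : ℤ} {x y : RatFunc ℚ} (h : Vv P a x) (h' : Vv P b y) : Vv P (a - b) (x / y) := by
  rw [div_eq_mul_inv, sub_eq_add_neg]
  exact Vv.mul hP h (Vv.inv hP h')

lemma Vv.pow {a : ℤ} {x : RatFunc ℚ} (h : Vv P a x) (m : ℕ) : Vv P (m * a) (x ^ m) := by
  induction m with
  | zero => simpa using Vv.one hP
  | succ m ih =>
    rw [pow_succ]
    have := Vv.mul hP ih h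
    convert this using 1
    push_cast; ring

lemma Vv.prod {m : ℕ} {a : ℕ → ℤ} {x : ℕ → RatFunc ℚ} (h : ∀ j, j < m → Vv P (a j) (x j)) :
    Vv P (∑ j ∈ range m, a j) (∏ j ∈ range m, x j) := by
  induction m with
  | zero => simpa using Vv.one hP
  | succ m ih =>
    rw [sum_range_succ, prod_range_succ]
    exact Vv.mul hP (ih (fun j hj => h j (by omega))) (h m (by omega))

omit hP in
lemma Vv.QO {a : ℤ} {x : RatFunc ℚ} (h : Vv P a x) {k : ℕ} (hk : (k : ℤ) ≤ a) : QO P k x := by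
  obtain ⟨u, h1, -, rfl⟩ := h
  obtain ⟨b, hb⟩ : ∃ b : ℕ, a = k + b := ⟨(a - k).toNat, by omega⟩
  refine ⟨al P ^ b * u, (Loc P).mul_mem ((Loc P).pow_mem (al_mem P P) _) h1, ?_⟩
  have : al P ^ a = al P ^ k * al P ^ b := by
    rw [hb, ← pow_add, ← zpow_natCast]; congr 1
  rw [this]; ring

omit hP in
lemma Vv.mem {a : ℤ} {x : RatFunc ℚ} (h : Vv P a x) (ha : 0 ≤ a) : x ∈ Loc P :=
  (Vv.QO h (k := 0) (by exact_mod_cast ha)).mem

end

/-- the order of `1 - q^z` -/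
lemma Vv_one_sub {d : ℕ} (hd : 0 < d) {z : ℕ} (hz : 0 < z) :
    Vv (cyclotomic d ℚ) (if d ∣ z then 1 else 0) (1 - q ^ z) := by
  have hal : al (cyclotomic d ℚ) ≠ 0 := al_ne (cyclotomic_ne_zero d ℚ)
  split_ifs with h
  · obtain ⟨y, hy, hy'⟩ := QO_one_sub (N := d) h
    obtain ⟨c, rfl⟩ := h
    have hc : 0 < c := Nat.pos_of_mul_pos_left hz |> fun h => by
      rcases Nat.eq_zero_or_pos c with h0 | h0
      · subst h0; simp at hz
      · exact h0
    have h1 := pole (n := d) hd (c := (c : ℤ)) (by omega)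
    have h2 : e ((c : ℤ) * d) = 1 - q ^ (d * c) := by
      rw [show (c : ℤ) * d = ((d * c : ℕ) : ℤ) by push_cast; ring, e_nat]
    rw [h2, hy', pow_one, mul_inv, ← mul_assoc, mul_inv_cancel₀ hal, one_mul] at h1
    exact ⟨y, hy, h1, by rw [hy', pow_one, zpow_one]⟩
  · exact ⟨1 - q ^ z, one_sub_mem _ _, inv_one_sub_mem h, by simp⟩

/-- `(q^s;q^s)_m` -/
def pp (s m : ℕ) : RatFunc ℚ := ∏ j ∈ range m, (1 - q ^ (s * (j + 1)))

lemma pp_ne {s : ℕ} (hs : 0 < s) (m : ℕ) : pp s m ≠ 0 :=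
  prod_ne_zero_iff.2 (fun _ _ => one_sub_ne (by positivity))

lemma pp_succ (s m : ℕ) : pp s (m + 1) = pp s m * (1 - q ^ (s * (m + 1))) := by
  unfold pp; rw [prod_range_succ]

/-- the order of `(q^s;q^s)_m` -/
lemma Vv_pp {d s : ℕ} (hd : 0 < d) (hs : 0 < s) (m : ℕ) :
    Vv (cyclotomic d ℚ) ((m / (d / Nat.gcd d s) : ℕ) : ℤ) (pp s m) := by
  have h := Vv.prod (cyclotomic_ne_zero d ℚ) (m := m) (a := fun j => if d ∣ s * (j + 1) then 1 else 0)
    (x := fun j => 1 - q ^ (s * (j + 1))) (fun j _ => Vv_one_sub hd (by positivity))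
  have h1 : (∑ j ∈ range m, (if d ∣ s * (j + 1) then (1 : ℤ) else 0)) = ((m / (d / Nat.gcd d s) : ℕ) : ℤ) := by
    have h2 : ∀ j : ℕ, d ∣ s * (j + 1) ↔ (d / Nat.gcd d s) ∣ (j + 1) := by
      intro j
      have hg : 0 < Nat.gcd d s := Nat.gcd_pos_of_pos_left s hd
      obtain ⟨d', hd'⟩ := Nat.gcd_dvd_left d s
      obtain ⟨s', hs'⟩ := Nat.gcd_dvd_right d s
      have e1 : d / Nat.gcd d s = d' := Nat.div_eq_of_eq_mul_right hg hd'
      have e2 : s / Nat.gcd d s = s' := Nat.div_eq_of_eq_mul_right hg hs'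
      have hc : Nat.Coprime d' s' := by
        have := Nat.coprime_div_gcd_div_gcd hg
        rwa [e1, e2] at this
      rw [e1]
      constructor
      · intro hh
        have hh' : Nat.gcd d s * d' ∣ Nat.gcd d s * (s' * (j + 1)) := by
          rw [← hd', ← mul_assoc, ← hs']; exact hh
        exact hc.dvd_of_dvd_mul_left ((Nat.mul_dvd_mul_iff_left hg).1 hh')
      · intro hh
        have hh' : Nat.gcd d s * d' ∣ Nat.gcd d s * (s' * (j + 1)) := Nat.mul_dvd_mul_left _ (Dvd.dvd.mul_left hh _)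
        rw [← hd', ← mul_assoc, ← hs'] at hh'
        exact hh'
    simp only [h2]
    rw [Finset.sum_ite, sum_const_zero, add_zero, sum_const, nsmul_eq_mul, mul_one, Nat.card_multiples]
  rw [h1] at h
  exact h

/-- the undeformed products -/
def t8 (k : ℕ) : RatFunc ℚ := q ^ (2 * k ^ 2) * (pp 1 (4 * k) * pp 1 (2 * k) ^ 2 / (pp 2 k ^ 2 * pp 2 (2 * k) ^ 2 * pp 6 k ^ 2))

lemma t8_succ (k : ℕ) : t8 (k + 1) = t8 k *
    ((e (2 * (k : ℤ) + 1) ^ 2 * e (4 * (k : ℤ) + 1) * e (4 * (k : ℤ) + 3) * q ^ (4 * k + 2)) /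
    (e (4 * (k : ℤ) + 2) * e (4 * (k : ℤ) + 4) * e (6 * (k : ℤ) + 6) ^ 2)) := by
  have f : ∀ a b : ℕ, e ((a : ℤ) * k + b) = 1 - q ^ (a * k + b) := by
    intro a b
    rw [show (a : ℤ) * k + b = ((a * k + b : ℕ) : ℤ) by push_cast; ring, e_nat]
  have f1 := f 2 1
  have f2 := f 4 1
  have f3 := f 4 3
  have f4 := f 4 2
  have f5 := f 4 4
  have f6 := f 6 6
  push_cast at f1 f2 f3 f4 f5 f6
  rw [f1, f2, f3, f4, f5, f6]
  unfold t8
  have g1 : pp 1 (4 * (k + 1)) = pp 1 (4 * k) * ((1 - q ^ (4 * k + 1)) * (1 - q ^ (4 * k + 2)) * (1 - q ^ (4 * k + 3)) * (1 - q ^ (4 * k + 4))) := by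
    rw [show 4 * (k + 1) = 4 * k + 1 + 1 + 1 + 1 by ring, pp_succ, pp_succ, pp_succ, pp_succ]
    simp only [one_mul]
    ring
  have g2 : pp 1 (2 * (k + 1)) = pp 1 (2 * k) * ((1 - q ^ (2 * k + 1)) * (1 - q ^ (2 * k + 2))) := by
    rw [show 2 * (k + 1) = 2 * k + 1 + 1 by ring, pp_succ, pp_succ]
    simp only [one_mul]
    ring
  have g3 : pp 2 (k + 1) = pp 2 k * (1 - q ^ (2 * k + 2)) := by
    rw [pp_succ]; congr 3
  have g4 : pp 2 (2 * (k + 1)) = pp 2 (2 * k) * ((1 - q ^ (4 * k + 2)) * (1 - q ^ (4 * k + 4))) := by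
    rw [show 2 * (k + 1) = 2 * k + 1 + 1 by ring, pp_succ, pp_succ, show 2 * (2 * k + 1) = 4 * k + 2 by ring,
      show 2 * (2 * k + 1 + 1) = 4 * k + 4 by ring]
    ring
  have g5 : pp 6 (k + 1) = pp 6 k * (1 - q ^ (6 * k + 6)) := by
    rw [pp_succ]; congr 3
  rw [g1, g2, g3, g4, g5]
  have n1 := pp_ne (s := 2) (by norm_num) k
  have n2 := pp_ne (s := 2) (by norm_num) (2 * k)
  have n3 := pp_ne (s := 6) (by norm_num) k
  have n4 : (1 - q ^ (2 * k + 2)) ≠ 0 := one_sub_ne (by omega)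
  have n5 : (1 - q ^ (4 * k + 2)) ≠ 0 := one_sub_ne (by omega)
  have n6 : (1 - q ^ (4 * k + 4)) ≠ 0 := one_sub_ne (by omega)
  have n7 : (1 - q ^ (6 * k + 6)) ≠ 0 := one_sub_ne (by omega)
  have hq : q ^ (2 * (k + 1) ^ 2) = q ^ (2 * k ^ 2) * q ^ (4 * k + 2) := by rw [← pow_add]; congr 1; ring
  rw [hq]
  generalize (1 - q ^ (2 * k + 2)) = b1 at *
  generalize (1 - q ^ (4 * k + 2)) = b2 at *
  generalize (1 - q ^ (4 * k + 4)) = b3 at *
  generalize (1 - q ^ (6 * k + 6)) = b4 at *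
  generalize (1 - q ^ (4 * k + 1)) = b5 at *
  generalize (1 - q ^ (4 * k + 3)) = b6 at *
  generalize (1 - q ^ (2 * k + 1)) = b7 at *
  generalize q ^ (4 * k + 2) = Q at *
  generalize q ^ (2 * k ^ 2) = Q2 at *
  field_simp

/-- the denominator weights -/
def D8 (n : ℕ) (M : ℤ) (k : ℕ) : RatFunc ℚ := ∏ j ∈ range k, rho 1 n M (6 * (j : ℤ) + 6)

lemma u8_eq {n : ℕ} {M : ℤ} {m : ℕ} (hm : M * n = 2 * m + 1) (k : ℕ) :
    u8 m k = t8 k * (Po 1 n M k / D8 n M k) := by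
  induction k with
  | zero => simp [u8, t8, Po, D8, pp]
  | succ k ih =>
    have h1 : Po 1 n M (k + 1) / D8 n M (k + 1) = Po 1 n M k / D8 n M k * (rho 1 n M (2 * (k : ℤ) + 1) / rho 1 n M (6 * (k : ℤ) + 6)) := by
      unfold Po D8
      rw [prod_range_succ, prod_range_succ, mul_div_mul_comm]
    rw [u8_succ, t8_succ, ih, h1]
    unfold rho
    rw [hm]
    push_cast
    simp only [one_mul]
    have r1 : 2 * (k : ℤ) + 1 + (2 * m + 1) = 2 * k + 2 + 2 * m := by ring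
    have r2 : 2 * (k : ℤ) + 1 - (2 * m + 1) = 2 * k - 2 * m := by ring
    have r3 : 6 * (k : ℤ) + 6 + (2 * m + 1) = 6 * k + 7 + 2 * m := by ring
    have r4 : 6 * (k : ℤ) + 6 - (2 * m + 1) = 6 * k + 5 - 2 * m := by ring
    rw [r1, r2, r3, r4]
    have n1 : e (2 * (k : ℤ) + 1) ≠ 0 := e_ne (by omega)
    have n2 : e (6 * (k : ℤ) + 6) ≠ 0 := e_ne (by omega)
    have n3 : e (6 * (k : ℤ) + 7 + 2 * m) ≠ 0 := e_ne (by omega)
    have n4 : e (6 * (k : ℤ) + 5 - 2 * m) ≠ 0 := e_ne (by omega)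
    have n5 : e (4 * (k : ℤ) + 2) ≠ 0 := e_ne (by omega)
    have n6 : e (4 * (k : ℤ) + 4) ≠ 0 := e_ne (by omega)
    clear r1 r2 r3 r4 ih h1
    generalize e (2 * (k : ℤ) + 1) = a1 at *
    generalize e (6 * (k : ℤ) + 6) = a2 at *
    generalize e (6 * (k : ℤ) + 7 + 2 * m) = a3 at *
    generalize e (6 * (k : ℤ) + 5 - 2 * m) = a4 at *
    generalize e (4 * (k : ℤ) + 2) = a5 at *
    generalize e (4 * (k : ℤ) + 4) = a6 at *
    generalize e (2 * (k : ℤ) + 2 + 2 * m) = b1 at *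
    generalize e (2 * (k : ℤ) - 2 * m) = b2 at *
    generalize e (4 * (k : ℤ) + 1) = b3 at *
    generalize e (4 * (k : ℤ) + 3) = b4 at *
    generalize q ^ (4 * k + 2) = Q at *
    generalize Po 1 n M k / D8 n M k = W at *
    generalize t8 k = T at *
    field_simp

/-- the terms -/
def T8 (k : ℕ) : RatFunc ℚ := e (8 * (k : ℤ) + 1) * t8 k

section
variable {n h : ℕ} (hn : n = 2 * h + 1) (h3 : n % 3 ≠ 0) (hn1 : 1 < n)
include hn h3 hn1

lemma gcd_two : Nat.gcd n 2 = 1 := by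
  have : Nat.Coprime 2 n := (Nat.Prime.coprime_iff_not_dvd Nat.prime_two).2 (by omega)
  exact this.symm

lemma gcd_six : Nat.gcd n 6 = 1 := by
  have h1 : Nat.Coprime 2 n := (Nat.Prime.coprime_iff_not_dvd Nat.prime_two).2 (by omega)
  have h2 : Nat.Coprime 3 n := (Nat.Prime.coprime_iff_not_dvd Nat.prime_three).2 (by omega)
  exact (Nat.Coprime.mul_left h1 h2).symm

lemma t8_V (k : ℕ) : Vv (cyclotomic n ℚ) (((4 * k / n : ℕ) : ℤ) - 4 * ((k / n : ℕ) : ℤ)) (t8 k) := by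
  have hn0 : 0 < n := by omega
  have hP := cyclotomic_ne_zero n ℚ
  have g2 := gcd_two hn h3 hn1
  have g6 := gcd_six hn h3 hn1
  have v1 : ∀ m, Vv (cyclotomic n ℚ) ((m / n : ℕ) : ℤ) (pp 1 m) := fun m => by
    have := Vv_pp (d := n) (s := 1) hn0 one_pos m
    rwa [Nat.gcd_one_right, Nat.div_one] at this
  have v2 : ∀ m, Vv (cyclotomic n ℚ) ((m / n : ℕ) : ℤ) (pp 2 m) := fun m => by
    have := Vv_pp (d := n) (s := 2) hn0 (by norm_num) m
    rwa [g2, Nat.div_one] at this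
  have v6 : ∀ m, Vv (cyclotomic n ℚ) ((m / n : ℕ) : ℤ) (pp 6 m) := fun m => by
    have := Vv_pp (d := n) (s := 6) hn0 (by norm_num) m
    rwa [g6, Nat.div_one] at this
  have vq : Vv (cyclotomic n ℚ) 0 (q ^ (2 * k ^ 2)) :=
    ⟨q ^ (2 * k ^ 2), (Loc _).pow_mem (q_mem _) _, by rw [← inv_pow]; exact (Loc _).pow_mem (q_inv_mem hn1) _, by simp⟩
  have := Vv.mul hP vq (Vv.div hP (Vv.mul hP (v1 (4 * k)) (Vv.pow hP (v1 (2 * k)) 2))
    (Vv.mul hP (Vv.mul hP (Vv.pow hP (v2 k) 2) (Vv.pow hP (v2 (2 * k)) 2)) (Vv.pow hP (v6 k) 2)))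
  unfold t8
  convert this using 1
  push_cast
  ring

lemma T8_mem (J : ℕ) {l : ℕ} (hl : l < n) : T8 (n * J + l) ∈ Loc (cyclotomic n ℚ) ∧
    (n ≤ 4 * l → QO (cyclotomic n ℚ) 1 (T8 (n * J + l))) := by
  have hn0 : 0 < n := by omega
  have hv := t8_V hn h3 hn1 (n * J + l)
  have e1 : (n * J + l) / n = J := by
    rw [Nat.mul_add_div hn0, Nat.div_eq_of_lt hl, add_zero]
  have e2 : 4 * (n * J + l) / n = 4 * J + 4 * l / n := by
    rw [show 4 * (n * J + l) = n * (4 * J) + 4 * l by ring, Nat.mul_add_div hn0]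
  rw [e1, e2] at hv
  have e3 : (((4 * J + 4 * l / n : ℕ) : ℤ) - 4 * (J : ℤ)) = ((4 * l / n : ℕ) : ℤ) := by
    rw [Nat.cast_add, Nat.cast_mul]; push_cast; ring
  rw [e3] at hv
  unfold T8
  refine ⟨(Loc _).mul_mem (e_mem hn0 _) (Vv.mem hv (Int.natCast_nonneg _)), fun h4 => QO.mul_left (e_mem hn0 _) (Vv.QO hv ?_)⟩
  have : 1 ≤ 4 * l / n := (Nat.one_le_div_iff hn0).2 h4
  exact_mod_cast this

lemma nd6 {i y : ℕ} (hy : y < n) (hyt : y ≠ n - 1) : ¬ (n : ℤ) ∣ 6 * ((n * i + y : ℕ) : ℤ) + 6 := by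
  intro hd
  have h1 : (n : ℤ) ∣ 6 * ((y : ℤ) + 1) := by
    have : 6 * ((n * i + y : ℕ) : ℤ) + 6 = (n : ℤ) * (6 * i) + 6 * (y + 1) := by push_cast; ring
    rw [this] at hd
    exact (dvd_add_right (dvd_mul_right _ _)).1 hd
  have h2 : n ∣ 6 * (y + 1) := by exact_mod_cast h1
  have h4 : Nat.Coprime n 6 := gcd_six hn h3 hn1
  have h5 := h4.dvd_of_dvd_mul_left h2
  have h6 := Nat.le_of_dvd (by omega) h5
  omega

lemma eq6 (i : ℕ) : 6 * ((n * i + (n - 1) : ℕ) : ℤ) + 6 = (6 * (i : ℤ) + 6) * n := by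
  push_cast [Nat.cast_sub (show 1 ≤ n by omega)]
  ring

lemma D8_eqm (M : ℤ) (J : ℕ) {l : ℕ} (hl : l < n) :
    Eqm (cyclotomic n ℚ) 2 (D8 n M (n * J + l)) ((∏ i ∈ range J, wt M (6 * (i : ℤ) + 6) : ℚ) : RatFunc ℚ) := by
  have hn0 : 0 < n := by omega
  rw [Rat.cast_prod]
  unfold D8
  refine prod_blocks_eqm (t0 := n - 1) _ (fun i => ((wt M (6 * (i : ℤ) + 6) : ℚ) : RatFunc ℚ)) J (by omega) ?_ (fun i => rat_mem _ _) ?_ (by omega)
  · intro i y hy hyt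
    exact rho_U hn0 (Nat.coprime_one_left n) M (nd6 hn h3 hn1 hy hyt)
  · intro i
    rw [eq6 hn h3 hn1]
    have := rho_mult (s := 1) hn0 one_pos M (c := 6 * (i : ℤ) + 6) (by omega)
    unfold wt
    exact this

omit hn h3 hn1 in
lemma den8_ne {M : ℤ} (hM : M % 2 = 1) (J : ℕ) : (∏ i ∈ range J, wt M (6 * (i : ℤ) + 6)) ≠ 0 := by
  rw [prod_ne_zero_iff]
  intro i _
  exact wt_ne (by omega) (by omega) (by omega)

/-- the blocks vanish modulo `Φ_n` -/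
theorem blocks8 (J : ℕ) : QO (cyclotomic n ℚ) 1 (∑ l ∈ range n, T8 (n * J + l)) := by
  have hn0 : 0 < n := by omega
  have hB := tri (P := cyclotomic n ℚ) (k := 1) (C := 0)
    (w := fun μ J => wo (2 * (μ : ℤ) + 1) J / ∏ i ∈ range J, wt (2 * (μ : ℤ) + 1) (6 * (i : ℤ) + 6)) (b := fun _ => 0) (v := fun _ => 0)
    (V := fun μ => V8 (n * μ + h))
    (B := fun J => ∑ l ∈ range n, T8 (n * J + l)) ?_ (fun μ => by simp) ?_ ?_ J
  · unfold Eqm at hB
    rwa [zero_mul, sub_zero] at hB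
  · intro μ
    have h1 := block_main (P := cyclotomic n ℚ) (k := 1) (n := n) (term := T8)
      (W := fun k => Po 1 n (2 * μ + 1) k / D8 n (2 * μ + 1) k) (h := h) (μ := μ)
      (w := fun J => wo (2 * (μ : ℤ) + 1) J / ∏ i ∈ range J, wt (2 * (μ : ℤ) + 1) (6 * (i : ℤ) + 6))
      (fun J l hl => (T8_mem hn h3 hn1 J hl).1) (fun J l hl hl' => (T8_mem hn h3 hn1 J hl').2 (by omega))
      (fun J l hJ hl => by
        rw [div_eq_mul_inv]
        exact (Loc _).mul_mem (Po_mem hn0 one_pos (Nat.coprime_one_left n) _ _)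
          (((D8_eqm hn h3 hn1 _ J hl).inv (den8_ne (by omega) J) (by norm_num)).mem (rat_mem _ _)))
      (fun J l hJ hl hl' => ((Po_eqm hn one_pos (Nat.coprime_one_left n) _ J hl).div (by norm_num)
        (D8_eqm hn h3 hn1 _ J hl') (den8_ne (by omega) J)).le (by norm_num))
    have hm : (2 * (μ : ℤ) + 1) * n = 2 * ((n * μ + h : ℕ) : ℤ) + 1 := by
      have : (n : ℤ) = 2 * h + 1 := by exact_mod_cast hn
      push_cast
      linear_combination this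
    have h2 : ∑ j ∈ range (n * (μ + 1)), T8 j * (Po 1 n (2 * μ + 1) j / D8 n (2 * μ + 1) j) = V8 (n * μ + h) := by
      rw [← V8_eq (show n * μ + h < n * (μ + 1) by rw [Nat.mul_succ]; omega)]
      apply sum_congr rfl
      intro j _
      rw [u8_eq hm]
      unfold T8
      ring
    rw [h2] at h1
    exact h1.symm
  · intro μ
    have e0 : (0 : RatFunc ℚ) * (((0 : ℚ) : RatFunc ℚ)) = 0 := zero_mul _
    unfold Eqm
    rw [e0, sub_zero]
    obtain ⟨c, hc⟩ := V8_closed (n * μ + h)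
    have hm : 2 * ((n * μ + h : ℕ) : ℤ) + 1 = (2 * (μ : ℤ) + 1) * n := by
      have : (n : ℤ) = 2 * h + 1 := by exact_mod_cast hn
      push_cast
      linear_combination -this
    rw [hc, hm]
    exact QO.mul_left ((Loc _).mul_mem (rat_mem _ _) (zmem hn0 _)) (e_QO hn0 (dvd_mul_left _ _))
  · intro μ
    exact div_ne_zero (wo_ne (fun i hi => by omega) (by omega)) (den8_ne (by omega) μ)

/-- initial sums -/
theorem psum8 {N : ℕ} (hN : n ≤ 3 * (N % n)) : QO (cyclotomic n ℚ) 1 (∑ k ∈ range (N + 1), T8 k) := by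
  have hn0 : 0 < n := by omega
  set J := N / n with hJ
  set r := N % n with hr
  have hNr : N = n * J + r := (Nat.div_add_mod N n).symm
  have hrn : r < n := Nat.mod_lt _ hn0
  have e1 : ∑ k ∈ range (n * (J + 1)), T8 k = ∑ k ∈ range (N + 1), T8 k + ∑ k ∈ Ico (N + 1) (n * (J + 1)), T8 k := by
    rw [range_eq_Ico, range_eq_Ico, sum_Ico_consecutive _ (Nat.zero_le _)]
    rw [Nat.mul_succ]; omega
  have e2 : QO (cyclotomic n ℚ) 1 (∑ k ∈ range (n * (J + 1)), T8 k) := by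
    rw [sum_range_blocks]
    exact QO.sum (fun J _ => blocks8 hn h3 hn1 J)
  have e3 : QO (cyclotomic n ℚ) 1 (∑ k ∈ Ico (N + 1) (n * (J + 1)), T8 k) := by
    apply QO.sum
    intro k hk
    rw [mem_Ico, Nat.mul_succ] at hk
    obtain ⟨l, hl⟩ : ∃ l, k = n * J + l := ⟨k - n * J, by omega⟩
    rw [hl]
    exact (T8_mem hn h3 hn1 J (by omega)).2 (by omega)
  have := e2.sub e3
  rwa [e1, add_sub_cancel_right] at this

end

end

end Pool.Agent.X14.QBlock
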