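import Pool.Agent.X14.QG2
import Pool.Agent.X14.PB2

set_option autoImplicit false
set_option linter.unusedSectionVars false

/-! Orders of the terms of `F_n` and factorisation of Gaussian binomials. -/

namespace Pool.Agent.X14.QBlock

open Finset Polynomial Pool.Agent.X14.QL
open Pool.Agent.X14.PA (bz fz az)

noncomputable section

/-- the factor depending on `n` -/
def Cn (n : ℕ) : RatFunc ℚ := pp 2 n ^ 2 * pp 2 (2 * n) ^ 2 * pp 6 n ^ 2 / (pp 1 n ^ 4 * pp 1 (2 * n) ^ 2)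

lemma div_gcd {d g : ℕ} (hg : g ∣ d) (hg0 : 0 < g) (m : ℕ) : m / (d / g) = g * m / d := by
  obtain ⟨e, rfl⟩ := hg
  rw [Nat.mul_div_cancel_left _ hg0, Nat.mul_div_mul_left _ _ hg0]

lemma gcd_mod (d a : ℕ) : Nat.gcd d a = Nat.gcd (d % a) a := by
  rw [Nat.gcd_comm, Nat.gcd_rec]

lemma pp_V {d s g : ℕ} (hd : 0 < d) (hs : 0 < s) (hg : Nat.gcd d s = g) (m : ℕ) :
    Vv (cyclotomic d ℚ) ((g * m / d : ℕ) : ℤ) (pp s m) := by
  have h := Vv_pp (d := d) hd hs m
  have hg0 : 0 < g := by rw [← hg]; exact Nat.gcd_pos_of_pos_left s hd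
  rw [hg, div_gcd (by rw [← hg]; exact Nat.gcd_dvd_left d s) hg0] at h
  exact h

lemma Cn_V {d g2 g6 : ℕ} (hd : 0 < d) (h2 : Nat.gcd d 2 = g2) (h6 : Nat.gcd d 6 = g6) (n : ℕ) :
    Vv (cyclotomic d ℚ) (2 * ((g2 * n / d : ℕ) : ℤ) + 2 * ((g2 * (2 * n) / d : ℕ) : ℤ) + 2 * ((g6 * n / d : ℕ) : ℤ) -
      (4 * ((n / d : ℕ) : ℤ) + 2 * ((2 * n / d : ℕ) : ℤ))) (Cn n) := by
  have hP := cyclotomic_ne_zero d ℚ
  have v1 : ∀ m, Vv (cyclotomic d ℚ) ((m / d : ℕ) : ℤ) (pp 1 m) := fun m => by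
    have := pp_V (d := d) (s := 1) hd one_pos (Nat.gcd_one_right d) m
    rwa [one_mul] at this
  have v2 := fun m => pp_V (d := d) (s := 2) hd (by norm_num) h2 m
  have v6 := fun m => pp_V (d := d) (s := 6) hd (by norm_num) h6 m
  have := Vv.div hP (Vv.mul hP (Vv.mul hP (Vv.pow hP (v2 n) 2) (Vv.pow hP (v2 (2 * n)) 2)) (Vv.pow hP (v6 n) 2))
    (Vv.mul hP (Vv.pow hP (v1 n) 4) (Vv.pow hP (v1 (2 * n)) 2))
  unfold Cn
  convert this using 1
  push_cast
  ring

lemma t8_V' {d g2 g6 : ℕ} (hd : 1 < d) (h2 : Nat.gcd d 2 = g2) (h6 : Nat.gcd d 6 = g6) (k : ℕ) :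
    Vv (cyclotomic d ℚ) (((4 * k / d : ℕ) : ℤ) + 2 * ((2 * k / d : ℕ) : ℤ) -
      (2 * ((g2 * k / d : ℕ) : ℤ) + 2 * ((g2 * (2 * k) / d : ℕ) : ℤ) + 2 * ((g6 * k / d : ℕ) : ℤ))) (t8 k) := by
  have hd0 : 0 < d := by omega
  have hP := cyclotomic_ne_zero d ℚ
  have v1 : ∀ m, Vv (cyclotomic d ℚ) ((m / d : ℕ) : ℤ) (pp 1 m) := fun m => by
    have := pp_V (d := d) (s := 1) hd0 one_pos (Nat.gcd_one_right d) m
    rwa [one_mul] at this
  have v2 := fun m => pp_V (d := d) (s := 2) hd0 (by norm_num) h2 m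
  have v6 := fun m => pp_V (d := d) (s := 6) hd0 (by norm_num) h6 m
  have vq : Vv (cyclotomic d ℚ) 0 (q ^ (2 * k ^ 2)) :=
    ⟨q ^ (2 * k ^ 2), (Loc _).pow_mem (q_mem _) _, by rw [← inv_pow]; exact (Loc _).pow_mem (q_inv_mem hd) _, by simp⟩
  have := Vv.mul hP vq (Vv.div hP (Vv.mul hP (v1 (4 * k)) (Vv.pow hP (v1 (2 * k)) 2))
    (Vv.mul hP (Vv.mul hP (Vv.pow hP (v2 k) 2) (Vv.pow hP (v2 (2 * k)) 2)) (Vv.pow hP (v6 k) 2)))
  unfold t8
  convert this using 1
  push_cast
  ring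

/-- the terms vanish at `Φ_d` when `gcd(d,6) ≠ 1` and `n mod d ≥ d/3` -/
lemma term_noncop {d n k : ℕ} (hd : 1 < d) (hk : k ≤ n) (hr : d ≤ 3 * (n % d)) (hc : d % 2 = 0 ∨ d % 3 = 0) :
    QO (cyclotomic d ℚ) 1 (t8 k * Cn n) := by
  have hd0 : 0 < d := by omega
  have hP := cyclotomic_ne_zero d ℚ
  have hmul : ∀ {a b : ℕ}, a ≤ b → a / d ≤ b / d := fun h => Nat.div_le_div_right h
  have hn : ∀ s : ℕ, s * n / d = s * (n / d) + s * (n % d) / d := by
    intro s
    conv_lhs => rw [← Nat.div_add_mod n d]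
    rw [show s * (d * (n / d) + n % d) = d * (s * (n / d)) + s * (n % d) by ring, Nat.mul_add_div hd0]
  have h4n : 4 * (n / d) + 1 ≤ 4 * n / d := by
    rw [hn 4]
    have : 1 ≤ 4 * (n % d) / d := (Nat.one_le_div_iff hd0).2 (by omega)
    omega
  rcases Nat.lt_or_ge 0 (d % 2) with h2 | h2
  · -- `d` odd, divisible by 3
    have h3 : d % 3 = 0 := by omega
    have g2 : Nat.gcd d 2 = 1 := by rw [gcd_mod, show d % 2 = 1 by omega]; norm_num
    have g6 : Nat.gcd d 6 = 3 := by rw [gcd_mod, show d % 6 = 3 by omega]; norm_num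
    have v := Vv.mul hP (t8_V' hd g2 g6 k) (Cn_V hd0 g2 g6 n)
    refine Vv.QO v ?_
    have hkk : ∀ s : ℕ, s * k / d = s * (k / d) + s * (k % d) / d := by
      intro s
      conv_lhs => rw [← Nat.div_add_mod k d]
      rw [show s * (d * (k / d) + k % d) = d * (s * (k / d)) + s * (k % d) by ring, Nat.mul_add_div hd0]
    have a1 := hkk 4
    have a2 := hkk 3
    have a3 := hn 3
    have b1 : 1 ≤ 3 * (n % d) / d := (Nat.one_le_div_iff hd0).2 hr
    have b2 : 3 * (k % d) / d ≤ 2 := by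
      have : 3 * (k % d) < 3 * d := by have := Nat.mod_lt k hd0; omega
      have := Nat.div_lt_of_lt_mul (by rw [mul_comm d 3]; exact this : 3 * (k % d) < d * 3)
      omega
    have b3 : k / d ≤ n / d := hmul hk
    have b6 := Nat.zero_le (4 * (k % d) / d)
    simp only [one_mul]
    rcases Nat.lt_or_ge (k / d) (n / d) with hlt | hge
    · omega
    · have heq : k / d = n / d := le_antisymm b3 hge
      have hmod : k % d ≤ n % d := by
        have e1 := Nat.div_add_mod k d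
        have e2 := Nat.div_add_mod n d
        rw [heq] at e1
        omega
      have b4 : 3 * (k % d) / d ≤ 3 * (n % d) / d := hmul (by omega)
      rcases Nat.lt_or_ge (4 * (k % d)) d with h4 | h4
      · have b5 : 3 * (k % d) / d = 0 := Nat.div_eq_of_lt (by omega)
        omega
      · have b5 : 1 ≤ 4 * (k % d) / d := (Nat.one_le_div_iff hd0).2 h4
        omega
  · have g2 : Nat.gcd d 2 = 2 := by rw [gcd_mod, show d % 2 = 0 by omega]; norm_num
    rcases Nat.lt_or_ge 0 (d % 3) with h3 | h3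
    · have g6 : Nat.gcd d 6 = 2 := by
        rcases (by omega : d % 6 = 2 ∨ d % 6 = 4) with h | h
        · rw [gcd_mod, h]; norm_num
        · rw [gcd_mod, h]; norm_num
      have v := Vv.mul hP (t8_V' hd g2 g6 k) (Cn_V hd0 g2 g6 n)
      refine Vv.QO v ?_
      rw [show 2 * (2 * k) = 4 * k by ring, show 2 * (2 * n) = 4 * n by ring]
      have c1 : 4 * k / d ≤ 4 * n / d := hmul (by omega)
      have c2 : 2 * k / d ≤ 2 * n / d := hmul (by omega)
      omega
    · have g6 : Nat.gcd d 6 = 6 := by rw [gcd_mod, show d % 6 = 0 by omega]; norm_num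
      have v := Vv.mul hP (t8_V' hd g2 g6 k) (Cn_V hd0 g2 g6 n)
      refine Vv.QO v ?_
      rw [show 2 * (2 * k) = 4 * k by ring, show 2 * (2 * n) = 4 * n by ring]
      have c1 : 4 * k / d ≤ 4 * n / d := hmul (by omega)
      have c2 : 6 * k / d ≤ 6 * n / d := hmul (by omega)
      omega

/-- the sum vanishes at `Φ_d` when `n mod d ≥ d/3` -/
theorem sum_QO {d n : ℕ} (hd : 1 < d) (hr : d ≤ 3 * (n % d)) :
    QO (cyclotomic d ℚ) 1 ((∑ k ∈ range (n + 1), T8 k) * Cn n) := by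
  have hd0 : 0 < d := by omega
  by_cases hc : d % 2 = 0 ∨ d % 3 = 0
  · rw [sum_mul]
    apply QO.sum
    intro k hk
    rw [mem_range] at hk
    unfold T8
    rw [mul_assoc]
    exact QO.mul_left (e_mem hd0 _) (term_noncop hd (by omega) hr hc)
  · have h2 : d % 2 ≠ 0 := fun h => hc (Or.inl h)
    have h3 : d % 3 ≠ 0 := fun h => hc (Or.inr h)
    obtain ⟨h, hh⟩ : ∃ h, d = 2 * h + 1 := ⟨d / 2, by omega⟩
    refine QO.mul_right (psum8 hh h3 hd hr) ?_
    have v := Cn_V hd0 (gcd_two hh h3 hd) (gcd_six hh h3 hd) n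
    refine Vv.mem v ?_
    simp only [one_mul]
    omega

/-! ### Gaussian binomials -/

/-- the factorisation of the `q`-factorial -/
lemma fz_map {m B : ℕ} (hB : m < B) :
    (fz m).map (Int.castRingHom ℚ) = ∏ d ∈ Ico 2 B, cyclotomic d ℚ ^ (m / d) := by
  unfold fz
  rw [Polynomial.map_prod]
  have h1 : ∀ i ∈ range m, (bz (i + 1)).map (Int.castRingHom ℚ) = ∏ d ∈ Ico 2 B, (if d ∣ i + 1 then cyclotomic d ℚ else 1) := by
    intro i hi
    rw [mem_range] at hi
    have e1 : (bz (i + 1)).map (Int.castRingHom ℚ) = ∑ j ∈ range (i + 1), (X : ℚ[X]) ^ j := by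
      unfold bz; simp [Polynomial.map_sum]
    rw [e1, ← prod_cyclotomic_eq_geom_sum (by omega : 0 < i + 1) ℚ, ← prod_filter]
    apply prod_congr
    · ext d
      simp only [mem_erase, Nat.mem_divisors, mem_filter, mem_Ico]
      constructor
      · rintro ⟨h1, h2, -⟩
        have h3 := Nat.pos_of_dvd_of_pos h2 (by omega)
        have h4 := Nat.le_of_dvd (by omega) h2
        exact ⟨⟨by omega, by omega⟩, h2⟩
      · rintro ⟨⟨h1, h2⟩, h3⟩
        exact ⟨by omega, h3, by omega⟩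
    · intro d _; rfl
  rw [prod_congr rfl h1, prod_comm]
  apply prod_congr rfl
  intro d _
  rw [prod_ite, prod_const, prod_const_one, mul_one, Nat.card_multiples]

lemma fz_monic (m : ℕ) : (fz m).Monic := by
  unfold fz
  exact monic_prod_of_monic _ _ (fun i _ => monic_geom_sum_X (by omega))

/-- the factorisation of a Gaussian binomial -/
lemma gauss_map {g : ℤ[X]} {a b B : ℕ} (hg : g * (fz a * fz b) = fz (a + b)) (hB : a + b < B) :
    g.map (Int.castRingHom ℚ) = ∏ d ∈ Ico 2 B, cyclotomic d ℚ ^ ((a + b) / d - a / d - b / d) := by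
  have h1 := congrArg (Polynomial.map (Int.castRingHom ℚ)) hg
  rw [Polynomial.map_mul, Polynomial.map_mul, fz_map (show a < B by omega), fz_map (show b < B by omega), fz_map hB] at h1
  have h2 : (∏ d ∈ Ico 2 B, cyclotomic d ℚ ^ (a / d)) * (∏ d ∈ Ico 2 B, cyclotomic d ℚ ^ (b / d)) ≠ 0 := by
    apply mul_ne_zero <;> exact prod_ne_zero_iff.2 (fun d _ => pow_ne_zero _ (cyclotomic_ne_zero d ℚ))
  apply mul_right_cancel₀ h2
  rw [h1, ← prod_mul_distrib, ← prod_mul_distrib]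
  apply prod_congr rfl
  intro d hd
  rw [← pow_add, ← pow_add]
  congr 1
  have h3 : a / d + b / d ≤ (a + b) / d := Nat.div_add_div_le_add_div
  omega

/-- divisibility by a Gaussian binomial -/
theorem gauss_dvd {A g : ℤ[X]} {a b : ℕ} (hg : g * (fz a * fz b) = fz (a + b))
    (h : ∀ d, 1 < d → (a + b) / d - a / d - b / d ≠ 0 → QO (cyclotomic d ℚ) 1 (az A)) : g ∣ A := by
  have hmon : g.Monic := Monic.of_mul_monic_right ((fz_monic a).mul (fz_monic b)) (by rw [hg]; exact fz_monic _)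
  rw [← Polynomial.map_dvd_map (Int.castRingHom ℚ) Int.cast_injective hmon]
  rw [gauss_map hg (Nat.lt_succ_self (a + b))]
  apply Finset.prod_dvd_of_coprime
  · intro i _ j _ hij
    exact (cyclotomic.isCoprime_rat hij).pow
  · intro d hd
    rw [mem_Ico] at hd
    by_cases h0 : (a + b) / d - a / d - b / d = 0
    · rw [h0, pow_zero]; exact one_dvd _
    · have h1 : (a + b) / d - a / d - b / d = 1 := by
        have hd0 : 0 < d := by omega
        have e1 := Nat.div_add_mod a d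
        have e2 := Nat.div_add_mod b d
        have e3 := Nat.mod_lt a hd0
        have e4 := Nat.mod_lt b hd0
        have h2 : (a + b) / d < a / d + b / d + 2 := by
          rw [Nat.div_lt_iff_lt_mul hd0]
          calc a + b = (d * (a / d) + a % d) + (d * (b / d) + b % d) := by rw [e1, e2]
            _ < (a / d + b / d + 2) * d := by nlinarith
        omega
      rw [h1, pow_one]
      have h2 := (h d (by omega) h0).num_denom.1
      have h3 : az A = al (A.map (Int.castRingHom ℚ)) := rfl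
      rw [h3, RatFunc.num_algebraMap, pow_one] at h2
      exact h2

end

end Pool.Agent.X14.QBlock
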