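import Mathlib

set_option autoImplicit false

/-! The terminating very well poised `6φ5` sum. -/

namespace Pool.Agent.X14.QWP

open Finset

section
set_option linter.unusedSectionVars false
variable {K : Type*} [Field K]

/-- the products `(a, 1/b, 1/d, q^{-m}; q)_k / (q, a q b, a q d, a q^{m+1}; q)_k (a b d q^{m+1})^k` -/
def wp (q a b d : K) (m k : ℕ) : K :=
  ∏ j ∈ range k, ((1 - a * q ^ j) * (b - q ^ j) * (d - q ^ j) * (q ^ m - q ^ j) * (a * q)) /
    ((1 - q ^ (j + 1)) * (1 - a * b * q ^ (j + 1)) * (1 - a * d * q ^ (j + 1)) * (1 - a * q ^ (m + 1 + j)))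

variable {q a b d : K}

lemma wp_succ (m k : ℕ) : wp q a b d m (k + 1) = wp q a b d m k *
    (((1 - a * q ^ k) * (b - q ^ k) * (d - q ^ k) * (q ^ m - q ^ k) * (a * q)) /
    ((1 - q ^ (k + 1)) * (1 - a * b * q ^ (k + 1)) * (1 - a * d * q ^ (k + 1)) * (1 - a * q ^ (m + 1 + k)))) := by
  unfold wp; rw [prod_range_succ]

lemma wp_zero_of_lt {m k : ℕ} (h : m < k) : wp q a b d m k = 0 := by
  unfold wp
  apply prod_eq_zero (mem_range.2 h)
  simp

lemma wp_shift (hq : q ≠ 0) (ha : ∀ k : ℕ, 1 - a * q ^ (k + 1) ≠ 0) (m k : ℕ) :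
    wp q a b d (m + 1) k * ((q ^ (m + 1) - q ^ k) * (1 - a * q ^ (m + 1 + k))) =
      wp q a b d m k * (q ^ k * (q ^ (m + 1) - 1) * (1 - a * q ^ (m + 1))) := by
  induction k with
  | zero => simp [wp]
  | succ k ih =>
    rw [wp_succ, wp_succ]
    have h1 : 1 - a * q ^ (m + 1 + k) ≠ 0 := by
      have := ha (m + k); rwa [show m + k + 1 = m + 1 + k by ring] at this
    have h2 : 1 - a * q ^ (m + 1 + 1 + k) ≠ 0 := by
      have := ha (m + 1 + k); rwa [show m + 1 + k + 1 = m + 1 + 1 + k by ring] at this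
    set Z := (1 - q ^ (k + 1)) * (1 - a * b * q ^ (k + 1)) * (1 - a * d * q ^ (k + 1)) with hZ
    set N := (1 - a * q ^ k) * (b - q ^ k) * (d - q ^ k) with hN
    calc wp q a b d (m + 1) k * (N * (q ^ (m + 1) - q ^ k) * (a * q) / (Z * (1 - a * q ^ (m + 1 + 1 + k)))) *
          ((q ^ (m + 1) - q ^ (k + 1)) * (1 - a * q ^ (m + 1 + (k + 1))))
        = wp q a b d (m + 1) k * ((q ^ (m + 1) - q ^ k) * (1 - a * q ^ (m + 1 + k))) *
          (N * (a * q) * (q ^ (m + 1) - q ^ (k + 1)) / Z) * ((1 - a * q ^ (m + 1 + (k + 1))) / ((1 - a * q ^ (m + 1 + k)) * (1 - a * q ^ (m + 1 + 1 + k)))) := by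
          field_simp
      _ = wp q a b d m k * (q ^ k * (q ^ (m + 1) - 1) * (1 - a * q ^ (m + 1))) *
          (N * (a * q) * (q ^ (m + 1) - q ^ (k + 1)) / Z) * (1 / (1 - a * q ^ (m + 1 + k))) := by
          rw [ih]
          congr 1
          rw [show m + 1 + (k + 1) = m + 1 + 1 + k by ring]
          field_simp
      _ = _ := by
          have e : q ^ (m + 1) - q ^ (k + 1) = q * (q ^ m - q ^ k) := by ring
          rw [e, pow_succ q k]
          have : ∀ x : K, x / (Z * (1 - a * q ^ (m + 1 + k))) = x / Z * (1 / (1 - a * q ^ (m + 1 + k))) := by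
            intro x; rw [← div_div]; ring
          rw [this]
          ring

/-- the terminating very well poised `6φ5` -/
theorem wp_sum (hq : q ≠ 0) (hq1 : ∀ k : ℕ, 1 - q ^ (k + 1) ≠ 0) (ha : ∀ k : ℕ, 1 - a * q ^ (k + 1) ≠ 0)
    (hb : ∀ k : ℕ, 1 - a * b * q ^ (k + 1) ≠ 0) (hd : ∀ k : ℕ, 1 - a * d * q ^ (k + 1) ≠ 0) (m : ℕ) :
    ∑ k ∈ range (m + 1), (1 - a * q ^ (2 * k)) * wp q a b d m k =
      (1 - a) * ∏ j ∈ range m, ((1 - a * q ^ (j + 1)) * (1 - a * b * d * q ^ (j + 1))) /
        ((1 - a * b * q ^ (j + 1)) * (1 - a * d * q ^ (j + 1))) := by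
  induction m with
  | zero => simp [wp]
  | succ m ih =>
    rw [prod_range_succ, ← mul_assoc, ← ih]
    have hm := hq1 m
    have hbm := hb m
    have hdm := hd m
    have ham := ha m
    have hm' : q ^ (m + 1) - 1 ≠ 0 := by
      intro h; apply hm; rw [← neg_sub, h, neg_zero]
    -- telescoping
    have tel : ∀ k : ℕ, ∑ i ∈ range k, ((1 - a * q ^ (2 * i)) * wp q a b d (m + 1) i -
        ((1 - a * q ^ (2 * i)) * wp q a b d m i) * (((1 - a * q ^ (m + 1)) * (1 - a * b * d * q ^ (m + 1))) /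
          ((1 - a * b * q ^ (m + 1)) * (1 - a * d * q ^ (m + 1))))) =
        -(wp q a b d (m + 1) k * ((1 - q ^ k) * (1 - a * b * q ^ k) * (1 - a * d * q ^ k) * (1 - a * q ^ (m + 1 + k)) *
            (q ^ (m + 1) * (q ^ k)⁻¹)) /
          ((1 - q ^ (m + 1)) * (1 - a * b * q ^ (m + 1)) * (1 - a * d * q ^ (m + 1)))) := by
      intro k
      induction k with
      | zero => simp
      | succ k ihk =>
        rw [sum_range_succ, ihk]
        have hs := wp_shift (b := b) (d := d) hq ha m k
        have hx : q ^ k ≠ 0 := pow_ne_zero k hq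
        have hv : wp q a b d m k = wp q a b d (m + 1) k * ((q ^ (m + 1) - q ^ k) * (1 - a * q ^ (m + 1 + k))) /
            (q ^ k * (q ^ (m + 1) - 1) * (1 - a * q ^ (m + 1))) := by
          rw [hs, eq_div_iff (mul_ne_zero (mul_ne_zero hx hm') ham)]
        rw [hv, wp_succ]
        have h1 := hq1 k
        have h2 := hb k
        have h3 := hd k
        have h4 : 1 - a * q ^ (m + 1 + 1 + k) ≠ 0 := by
          have := ha (m + 1 + k); rwa [show m + 1 + k + 1 = m + 1 + 1 + k by ring] at this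
        have e2 : q ^ (2 * k) = q ^ k * q ^ k := by rw [two_mul, pow_add]
        have e3 : q ^ (m + 1 + k) = q ^ (m + 1) * q ^ k := pow_add _ _ _
        have e4 : q ^ (m + 1 + (k + 1)) = q ^ (m + 1) * (q ^ k * q) := by rw [pow_add, pow_succ q k]
        have e5 : q ^ (m + 1 + 1 + k) = q ^ (m + 1) * (q ^ k * q) := by
          rw [← e4]; congr 1; ring
        have e6 : q ^ (k + 1) = q ^ k * q := pow_succ _ _
        rw [e5] at h4
        rw [e6] at h1 h2 h3
        rw [e2, e3, e4, e5, e6]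
        generalize wp q a b d (m + 1) k = v
        clear hs hv ihk ih e2 e3 e4 e5 e6
        generalize q ^ (m + 1) = Q at *
        generalize q ^ k = x at *
        have r1 : v * ((1 - a * x) * (b - x) * (d - x) * (Q - x) * (a * q) /
              ((1 - x * q) * (1 - a * b * (x * q)) * (1 - a * d * (x * q)) * (1 - a * (Q * (x * q))))) *
            ((1 - x * q) * (1 - a * b * (x * q)) * (1 - a * d * (x * q)) * (1 - a * (Q * (x * q))) * (Q * (x * q)⁻¹)) =
            v * ((1 - a * x) * (b - x) * (d - x) * (Q - x) * a * Q * x⁻¹) := by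
          have h5 : (1 - x * q) * (1 - a * b * (x * q)) * (1 - a * d * (x * q)) * (1 - a * (Q * (x * q))) ≠ 0 :=
            mul_ne_zero (mul_ne_zero (mul_ne_zero h1 h2) h3) h4
          generalize (1 - x * q) * (1 - a * b * (x * q)) * (1 - a * d * (x * q)) * (1 - a * (Q * (x * q))) = Y at *
          rw [mul_inv]
          field_simp
        rw [r1]
        have r2 : (1 - a * (x * x)) * (v * ((Q - x) * (1 - a * (Q * x))) / (x * (Q - 1) * (1 - a * Q))) *
            ((1 - a * Q) * (1 - a * b * d * Q) / ((1 - a * b * Q) * (1 - a * d * Q))) =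
            -(v * ((1 - a * (x * x)) * (Q - x) * (1 - a * (Q * x)) * (1 - a * b * d * Q)) /
              (x * ((1 - Q) * (1 - a * b * Q) * (1 - a * d * Q)))) := by
          have e7 : Q - 1 = -(1 - Q) := by ring
          rw [e7]
          generalize (1 - Q) = u1 at *
          generalize (1 - a * b * Q) = u2 at *
          generalize (1 - a * d * Q) = u3 at *
          generalize (1 - a * Q) = u4 at *
          have hu1 : -u1 ≠ 0 := neg_ne_zero.2 hm
          field_simp
        rw [r2]
        have hW : (1 - Q) * (1 - a * b * Q) * (1 - a * d * Q) ≠ 0 := mul_ne_zero (mul_ne_zero hm hbm) hdm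
        have key : -((1 - x) * (1 - a * b * x) * (1 - a * d * x) * (1 - a * (Q * x)) * Q) +
            (1 - a * (x * x)) * x * ((1 - Q) * (1 - a * b * Q) * (1 - a * d * Q)) +
            (1 - a * (x * x)) * (Q - x) * (1 - a * (Q * x)) * (1 - a * b * d * Q) =
            -((1 - a * x) * (b - x) * (d - x) * (Q - x) * a * Q) := by ring
        generalize (1 - Q) * (1 - a * b * Q) * (1 - a * d * Q) = W at *
        field_simp
        linear_combination v * key
    have h := tel (m + 2)
    rw [wp_zero_of_lt (by omega), zero_mul, zero_div, neg_zero, sum_sub_distrib, ← sum_mul, sub_eq_zero] at h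
    rw [h, sum_range_succ _ (m + 1), wp_zero_of_lt (by omega : m < m + 1), mul_zero, add_zero]

end

end Pool.Agent.X14.QWP
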