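import Pool.Agent.X14.QW
import Pool.Agent.X14.QWP

set_option autoImplicit false

/-! Very well poised sums deformed by a pair of parameters `q^{±N}`. -/

namespace Pool.Agent.X14.QBlock

open Finset Polynomial Pool.Agent.X14.QL

noncomputable section

variable {n s h : ℕ}

/-- the deformed weights -/
def WW (s n : ℕ) (M : ℤ) (k : ℕ) : RatFunc ℚ := Po s n M k / Pe s n M k

/-- the factors of the remaining parameter -/
def bb (s : ℕ) (b : RatFunc ℚ) (k : ℕ) : RatFunc ℚ :=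
  ∏ j ∈ range k, ((b - q ^ ((s : ℤ) * (2 * j))) / (1 - b * q ^ ((s : ℤ) * (2 * j + 3))))

lemma WW_zero {μ m : ℕ} {k : ℕ} (hm : (2 * (μ : ℤ) + 1) * n = 2 * m + 1) (hk : m < k) :
    WW s n (2 * μ + 1) k = 0 := by
  unfold WW Po
  rw [prod_eq_zero (mem_range.2 hk), zero_div]
  unfold rho
  rw [hm]
  have : e ((s : ℤ) * (2 * (m : ℤ) + 1 - (2 * m + 1))) = 0 := by
    unfold e; simp
  rw [this]; simp

lemma factor (hs : 0 < s) {μ m : ℕ} (hm : (2 * (μ : ℤ) + 1) * n = 2 * m + 1) (b : RatFunc ℚ) (j : ℕ) :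
    ((1 - q ^ s * (q ^ (2 * s)) ^ j) * (b - (q ^ (2 * s)) ^ j) * (q ^ ((s : ℤ) * (-2 - 2 * m)) - (q ^ (2 * s)) ^ j) *
      ((q ^ (2 * s)) ^ m - (q ^ (2 * s)) ^ j) * (q ^ s * q ^ (2 * s))) /
    ((1 - (q ^ (2 * s)) ^ (j + 1)) * (1 - q ^ s * b * (q ^ (2 * s)) ^ (j + 1)) *
      (1 - q ^ s * q ^ ((s : ℤ) * (-2 - 2 * m)) * (q ^ (2 * s)) ^ (j + 1)) * (1 - q ^ s * (q ^ (2 * s)) ^ (m + 1 + j))) =
    q ^ s * (e (s * (2 * (j : ℤ) + 1)) / e (s * (2 * (j : ℤ) + 2))) ^ 3 *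
      (rho s n (2 * μ + 1) (2 * (j : ℤ) + 1) / rho s n (2 * μ + 1) (2 * (j : ℤ) + 2)) *
      ((b - q ^ ((s : ℤ) * (2 * j))) / (1 - b * q ^ ((s : ℤ) * (2 * j + 3)))) := by
  have hq := q_ne
  unfold rho
  rw [hm]
  have hs' : (s : ℤ) ≠ 0 := by exact_mod_cast hs.ne'
  have n1 : e (s * (2 * (j : ℤ) + 1)) ≠ 0 := e_ne (mul_ne_zero hs' (by omega))
  have n2 : e (s * (2 * (j : ℤ) + 2)) ≠ 0 := e_ne (mul_ne_zero hs' (by omega))
  have n3 : e (s * (2 * (j : ℤ) + 2 + (2 * m + 1))) ≠ 0 := e_ne (mul_ne_zero hs' (by omega))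
  have n4 : e (s * (2 * (j : ℤ) + 2 - (2 * m + 1))) ≠ 0 := e_ne (mul_ne_zero hs' (by omega))
  have c0 : ∀ i : ℕ, (q ^ (2 * s)) ^ i = q ^ ((s : ℤ) * (2 * i)) := by
    intro i
    rw [← pow_mul, ← zpow_natCast]; congr 1; push_cast; ring
  have cs : q ^ s = q ^ (s : ℤ) := (zpow_natCast q s).symm
  have c2s : q ^ (2 * s) = q ^ ((s : ℤ) * 2) := by rw [← zpow_natCast]; congr 1; push_cast; ring
  have f1 : 1 - q ^ s * (q ^ (2 * s)) ^ j = e (s * (2 * (j : ℤ) + 1)) := by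
    unfold e
    rw [c0, cs, ← zpow_add₀ hq]; congr 2; ring
  have f2 : q ^ ((s : ℤ) * (-2 - 2 * m)) - (q ^ (2 * s)) ^ j =
      q ^ ((s : ℤ) * (-2 - 2 * m)) * e (s * (2 * (j : ℤ) + 1 + (2 * m + 1))) := by
    have h9 : q ^ ((s : ℤ) * (2 * j)) = q ^ ((s : ℤ) * (-2 - 2 * m)) * q ^ ((s : ℤ) * (2 * (j : ℤ) + 1 + (2 * m + 1))) := by
      rw [← zpow_add₀ hq]; congr 1; ring
    unfold e
    rw [c0, h9]; ring
  have f3 : (q ^ (2 * s)) ^ m - (q ^ (2 * s)) ^ j = q ^ ((s : ℤ) * (2 * m)) * e (s * (2 * (j : ℤ) + 1 - (2 * m + 1))) := by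
    have h9 : q ^ ((s : ℤ) * (2 * j)) = q ^ ((s : ℤ) * (2 * m)) * q ^ ((s : ℤ) * (2 * (j : ℤ) + 1 - (2 * m + 1))) := by
      rw [← zpow_add₀ hq]; congr 1; ring
    unfold e
    rw [c0, c0, h9]; ring
  have f4 : 1 - (q ^ (2 * s)) ^ (j + 1) = e (s * (2 * (j : ℤ) + 2)) := by
    unfold e
    rw [c0]; push_cast; rw [mul_add]; norm_num
  have f5 : 1 - q ^ s * q ^ ((s : ℤ) * (-2 - 2 * m)) * (q ^ (2 * s)) ^ (j + 1) = e (s * (2 * (j : ℤ) + 2 - (2 * m + 1))) := by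
    unfold e
    rw [c0, cs, ← zpow_add₀ hq, ← zpow_add₀ hq]; congr 2; push_cast; ring
  have f6 : 1 - q ^ s * (q ^ (2 * s)) ^ (m + 1 + j) = e (s * (2 * (j : ℤ) + 2 + (2 * m + 1))) := by
    unfold e
    rw [c0, cs, ← zpow_add₀ hq]; congr 2; push_cast; ring
  have f7 : 1 - q ^ s * b * (q ^ (2 * s)) ^ (j + 1) = 1 - b * q ^ ((s : ℤ) * (2 * j + 3)) := by
    rw [c0, cs, mul_comm (q ^ (s : ℤ)) b, mul_assoc, ← zpow_add₀ hq]; congr 3; push_cast; ring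
  have f8 : q ^ ((s : ℤ) * (-2 - 2 * m)) * q ^ ((s : ℤ) * (2 * m)) * q ^ (2 * s) = 1 := by
    rw [c2s, ← zpow_add₀ hq, ← zpow_add₀ hq]
    rw [show (s : ℤ) * (-2 - 2 * m) + s * (2 * m) + s * 2 = 0 by ring, zpow_zero]
  rw [f1, f2, f3, f4, f5, f6, f7, c0 j]
  generalize e (s * (2 * (j : ℤ) + 1)) = o at *
  generalize e (s * (2 * (j : ℤ) + 2)) = v at *
  generalize e (s * (2 * (j : ℤ) + 1 + (2 * m + 1))) = op at *
  generalize e (s * (2 * (j : ℤ) + 1 - (2 * m + 1))) = om at *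
  generalize e (s * (2 * (j : ℤ) + 2 + (2 * m + 1))) = vp at *
  generalize e (s * (2 * (j : ℤ) + 2 - (2 * m + 1))) = vm at *
  generalize (1 - b * q ^ ((s : ℤ) * (2 * j + 3))) = bd at *
  generalize (b - q ^ ((s : ℤ) * (2 * j))) = bn at *
  have e1 : o * bn * (q ^ ((s : ℤ) * (-2 - 2 * m)) * op) * (q ^ ((s : ℤ) * (2 * m)) * om) * (q ^ s * q ^ (2 * s)) =
      q ^ s * o * bn * op * om := by
    linear_combination (q ^ s * o * bn * op * om) * f8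
  rw [e1]
  by_cases hb : bd = 0
  · rw [hb]; simp
  · field_simp

lemma term_eq (hs : 0 < s) {μ m : ℕ} (hm : (2 * (μ : ℤ) + 1) * n = 2 * m + 1) (b : RatFunc ℚ) (k : ℕ) :
    QWP.wp (q ^ (2 * s)) (q ^ s) b (q ^ ((s : ℤ) * (-2 - 2 * m))) m k =
      q ^ (s * k) * rr s k ^ 3 * WW s n (2 * μ + 1) k * bb s b k := by
  induction k with
  | zero => simp [QWP.wp, rr, WW, Po, Pe, bb]
  | succ k ih =>
    have h1 : WW s n (2 * μ + 1) (k + 1) = WW s n (2 * μ + 1) k *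
        (rho s n (2 * μ + 1) (2 * (k : ℤ) + 1) / rho s n (2 * μ + 1) (2 * (k : ℤ) + 2)) := by
      unfold WW Po Pe
      rw [prod_range_succ, prod_range_succ, mul_div_mul_comm]
    have h2 : rr s (k + 1) = rr s k * (e (s * (2 * (k : ℤ) + 1)) / e (s * (2 * (k : ℤ) + 2))) := by
      unfold rr; rw [prod_range_succ]
    have h3 : bb s b (k + 1) = bb s b k * ((b - q ^ ((s : ℤ) * (2 * k))) / (1 - b * q ^ ((s : ℤ) * (2 * k + 3)))) := by
      unfold bb; rw [prod_range_succ]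
    rw [QWP.wp_succ, ih, factor hs hm b k, h1, h2, h3, Nat.mul_succ, pow_add]
    ring

/-- the evaluation of the deformed sum -/
theorem pair_sum (hs : 0 < s) {μ m : ℕ} (hm : (2 * (μ : ℤ) + 1) * n = 2 * m + 1) {b : RatFunc ℚ}
    (hb : ∀ k : ℕ, 1 - b * q ^ ((s : ℤ) * (2 * k + 3)) ≠ 0) {K : ℕ} (hK : m < K) :
    ∑ k ∈ range K, e (s * (4 * (k : ℤ) + 1)) * (q ^ (s * k) * rr s k ^ 3 * WW s n (2 * μ + 1) k * bb s b k) =
      (-1) ^ m * q ^ (s * m ^ 2) * e (s * (2 * m + 1)) *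
        ∏ j ∈ range m, ((1 - b * q ^ ((s : ℤ) * (2 * j + 2 - (2 * m + 1)))) / (1 - b * q ^ ((s : ℤ) * (2 * j + 3)))) := by
  have hq := q_ne
  have hs' : (s : ℤ) ≠ 0 := by exact_mod_cast hs.ne'
  have cs : q ^ s = q ^ (s : ℤ) := (zpow_natCast q s).symm
  have c0 : ∀ i : ℕ, (q ^ (2 * s)) ^ i = q ^ ((s : ℤ) * (2 * i)) := by
    intro i
    rw [← pow_mul, ← zpow_natCast]; congr 1; push_cast; ring
  have b1 : ∀ k : ℕ, 1 - q ^ s * b * (q ^ (2 * s)) ^ (k + 1) = 1 - b * q ^ ((s : ℤ) * (2 * k + 3)) := by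
    intro k
    rw [c0, cs, mul_comm (q ^ (s : ℤ)) b, mul_assoc, ← zpow_add₀ hq]; congr 3; push_cast; ring
  have b2 : ∀ k : ℕ, 1 - q ^ s * q ^ ((s : ℤ) * (-2 - 2 * m)) * (q ^ (2 * s)) ^ (k + 1) = e (s * (2 * (k : ℤ) + 2 - (2 * m + 1))) := by
    intro k
    unfold e
    rw [c0, cs, ← zpow_add₀ hq, ← zpow_add₀ hq]; congr 2; push_cast; ring
  have b3 : ∀ k : ℕ, 1 - q ^ s * (q ^ (2 * s)) ^ (k + 1) = e (s * (2 * (k : ℤ) + 3)) := by
    intro k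
    unfold e
    rw [c0, cs, ← zpow_add₀ hq]; congr 2; push_cast; ring
  have b4 : ∀ k : ℕ, 1 - q ^ s * b * q ^ ((s : ℤ) * (-2 - 2 * m)) * (q ^ (2 * s)) ^ (k + 1) =
      1 - b * q ^ ((s : ℤ) * (2 * k + 2 - (2 * m + 1))) := by
    intro k
    have : q ^ s * b * q ^ ((s : ℤ) * (-2 - 2 * m)) * (q ^ (2 * s)) ^ (k + 1) =
        b * (q ^ (s : ℤ) * q ^ ((s : ℤ) * (-2 - 2 * m)) * (q ^ (2 * s)) ^ (k + 1)) := by rw [cs]; ring
    rw [this, c0, ← zpow_add₀ hq, ← zpow_add₀ hq]; congr 3; push_cast; ring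
  have hsum := QWP.wp_sum (q := q ^ (2 * s)) (a := q ^ s) (b := b) (d := q ^ ((s : ℤ) * (-2 - 2 * m))) (pow_ne_zero _ hq)
    (fun k => by rw [← pow_mul]; exact one_sub_ne (by positivity))
    (fun k => by rw [b3]; exact e_ne (mul_ne_zero hs' (by omega)))
    (fun k => by rw [b1]; exact hb k)
    (fun k => by rw [b2]; exact e_ne (mul_ne_zero hs' (by omega))) m
  -- restrict the sum
  have hres : ∑ k ∈ range K, e (s * (4 * (k : ℤ) + 1)) * (q ^ (s * k) * rr s k ^ 3 * WW s n (2 * μ + 1) k * bb s b k) =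
      ∑ k ∈ range (m + 1), (1 - q ^ s * (q ^ (2 * s)) ^ (2 * k)) * QWP.wp (q ^ (2 * s)) (q ^ s) b (q ^ ((s : ℤ) * (-2 - 2 * m))) m k := by
    rw [← Finset.sum_subset (range_subset_range.2 (show m + 1 ≤ K by omega))]
    · apply sum_congr rfl
      intro k _
      rw [term_eq hs hm b k]
      congr 1
      unfold e
      rw [c0, cs, ← zpow_add₀ hq]; congr 2; push_cast; ring
    · intro k _ hk
      rw [mem_range, not_lt] at hk
      rw [WW_zero hm (by omega)]; ring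
  rw [hres, hsum]
  -- the right-hand side
  have hR : ∏ j ∈ range m, ((1 - q ^ s * (q ^ (2 * s)) ^ (j + 1)) * (1 - q ^ s * b * q ^ ((s : ℤ) * (-2 - 2 * m)) * (q ^ (2 * s)) ^ (j + 1))) /
        ((1 - q ^ s * b * (q ^ (2 * s)) ^ (j + 1)) * (1 - q ^ s * q ^ ((s : ℤ) * (-2 - 2 * m)) * (q ^ (2 * s)) ^ (j + 1))) =
      ((∏ j ∈ range m, e (s * (2 * (j : ℤ) + 3))) / ∏ j ∈ range m, e (s * (2 * (j : ℤ) + 2 - (2 * m + 1)))) *
        ∏ j ∈ range m, ((1 - b * q ^ ((s : ℤ) * (2 * j + 2 - (2 * m + 1)))) / (1 - b * q ^ ((s : ℤ) * (2 * j + 3)))) := by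
    rw [← prod_div_distrib, ← prod_mul_distrib]
    apply prod_congr rfl
    intro j _
    rw [b1, b2, b3, b4]
    rw [mul_comm (1 - b * q ^ ((s : ℤ) * (2 * j + 3))), mul_div_mul_comm]
  rw [hR]
  have h1 : ∏ j ∈ range m, e (s * (2 * (j : ℤ) + 2 - (2 * m + 1))) =
      (-1) ^ m * (q ^ (s * m ^ 2))⁻¹ * ∏ j ∈ range m, e (s * (2 * (j : ℤ) + 1)) := by
    rw [← prod_range_reflect]
    have : ∀ i ∈ range m, e (s * (2 * ((m - 1 - i : ℕ) : ℤ) + 2 - (2 * m + 1))) =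
        -((q ^ (s * (2 * i + 1)))⁻¹ * e (s * (2 * (i : ℤ) + 1))) := by
      intro i hi
      rw [mem_range] at hi
      rw [← zpow_natCast q (s * (2 * i + 1))]
      have h2 : (((s * (2 * i + 1) : ℕ)) : ℤ) = s * (2 * (i : ℤ) + 1) := by push_cast; ring
      rw [h2, ← e_neg]
      congr 1
      rw [Nat.cast_sub (by omega), Nat.cast_sub (by omega)]; push_cast; ring
    rw [prod_congr rfl this]
    clear this hR hsum hres hm hK b2 b4
    induction m with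
    | zero => simp
    | succ m ih =>
      rw [prod_range_succ, ih, prod_range_succ (fun j => e (s * (2 * (j : ℤ) + 1)))]
      have h3 : q ^ (s * (m + 1) ^ 2) = q ^ (s * m ^ 2) * q ^ (s * (2 * m + 1)) := by
        rw [← pow_add]; congr 1; ring
      rw [h3, mul_inv, pow_succ]
      ring
  have h2 : e s * ∏ j ∈ range m, e (s * (2 * (j : ℤ) + 3)) = e (s * (2 * m + 1)) * ∏ j ∈ range m, e (s * (2 * (j : ℤ) + 1)) := by
    have h3 : ∏ j ∈ range (m + 1), e (s * (2 * (j : ℤ) + 1)) = e (s * (2 * m + 1)) * ∏ j ∈ range m, e (s * (2 * (j : ℤ) + 1)) := by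
      rw [prod_range_succ, mul_comm]
    rw [← h3, prod_range_succ']
    rw [mul_comm]
    have h9 : e (s * (2 * ((0 : ℕ) : ℤ) + 1)) = e s := by congr 1; push_cast; ring
    rw [h9]
    congr 1
  have h4 : ∏ j ∈ range m, e (s * (2 * (j : ℤ) + 1)) ≠ 0 := by
    rw [prod_ne_zero_iff]
    intro j _
    exact e_ne (mul_ne_zero hs' (by omega))
  have h5 : q ^ (s * m ^ 2) ≠ 0 := pow_ne_zero _ hq
  rw [h1]
  have h6 : (1 - q ^ s) = e s := by unfold e; rw [cs]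
  rw [h6, ← mul_assoc]
  congr 1
  have h7 : ((-1 : RatFunc ℚ) ^ m) * (-1) ^ m = 1 := by rw [← mul_pow]; simp
  rw [← mul_div_assoc, h2]
  have h8 : ((-1 : RatFunc ℚ) ^ m) ≠ 0 := pow_ne_zero _ (by norm_num)
  rw [div_eq_iff (mul_ne_zero (mul_ne_zero h8 (inv_ne_zero h5)) h4)]
  field_simp
  linear_combination -(e (s * (2 * m + 1))) * h7

end

end Pool.Agent.X14.QBlock
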