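import Pool.Agent.X14.QWat
import Pool.Agent.X14.QAndrews
import Pool.Agent.X14.QPair

set_option autoImplicit false

/-! A deformed sum evaluated by Watson's transformation and Andrews' sum. -/

namespace Pool.Agent.X14.QBlock

open Finset Polynomial Pool.Agent.X14.QL

noncomputable section

variable {n h : ℕ}

/-- the terms -/
def T5 (k : ℕ) : RatFunc ℚ := (-1) ^ k * q ^ k * (rr 1 k ^ 4 * rr 2 k)

lemma ratio_id {K : Type*} [Field K] {z x y : K} (hz : z ≠ 0) (hy : y ≠ 0) (h1 : 1 - z * x ≠ 0) (h2 : 1 - z ^ 2 * x ≠ 0)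
    (h3 : 1 + z ^ 2 * x ≠ 0) (h4 : 1 - z ^ 3 * x * y ≠ 0) (h5 : y - z * x ≠ 0) :
    ((1 - z * x) * (-z⁻¹ - x) * (z⁻¹ - x) * (y - x) * (z * z ^ 2) /
      ((1 - z ^ 2 * x) * (1 + z ^ 2 * x) * (1 - z ^ 2 * x) * (1 - z ^ 3 * x * y))) *
      ((z⁻¹ - x) * ((z ^ 2 * y)⁻¹ - x) * (z * z ^ 2) / ((1 - z ^ 2 * x) * (1 - z * x / y))) =
    -z * ((1 - z * x) / (1 - z ^ 2 * x)) ^ 4 * ((1 - z ^ 2 * x ^ 2) / (1 - z ^ 4 * x ^ 2)) *
      (((1 - z ^ 2 * x * y) * (1 - x / y) / (1 - z * x) ^ 2) /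
        ((1 - z ^ 3 * x * y) * (1 - z * x / y) / (1 - z ^ 2 * x) ^ 2)) := by
  have e1 : 1 - z ^ 4 * x ^ 2 = (1 - z ^ 2 * x) * (1 + z ^ 2 * x) := by ring
  have e2 : 1 - z * x / y = (y - z * x) / y := by field_simp
  have e3 : 1 - x / y = (y - x) / y := by field_simp
  have e4 : (z ^ 2 * y)⁻¹ - x = (1 - z ^ 2 * x * y) / (z ^ 2 * y) := by field_simp
  have e5 : z⁻¹ - x = (1 - z * x) / z := by field_simp
  have e6 : -z⁻¹ - x = -(1 + z * x) / z := by field_simp; ring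
  have e7 : 1 - z ^ 2 * x ^ 2 = (1 - z * x) * (1 + z * x) := by ring
  rw [e1, e2, e3, e4, e5, e6, e7]
  generalize 1 - z * x = a1 at *
  generalize 1 - z ^ 2 * x = a2 at *
  generalize 1 + z ^ 2 * x = a3 at *
  generalize 1 - z ^ 3 * x * y = a4 at *
  generalize y - z * x = a5 at *
  generalize 1 - z ^ 2 * x * y = a6 at *
  generalize 1 + z * x = a7 at *
  field_simp

lemma comb4 {K : Type*} [Field K] (W w1 R1 r1 R2 r2 Q z P1 p1 P2 p2 : K) :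
    (W * w1) * ((R1 * r1) * (R2 * r2) * (Q * z) / ((P1 * p1) * (P2 * p2))) =
      (W * (R1 * R2 * Q / (P1 * P2))) * (w1 * (r1 * r2 * z / (p1 * p2))) := by
  simp only [div_eq_mul_inv, mul_inv]; ring

lemma x_id (k : ℕ) : (q ^ 2) ^ k = q ^ (2 * k) := (pow_mul q 2 k).symm

lemma e_nat' {z : ℤ} {b : ℕ} (h : z = b) : e z = 1 - q ^ b := by rw [h, e_nat]

lemma term5 {μ m : ℕ} (hm : (2 * (μ : ℤ) + 1) * n = 2 * m + 1) (k : ℕ) :
    QWP.wp (q ^ 2) q (-q⁻¹) q⁻¹ m k *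
      (QWat.R (q ^ 2) q⁻¹ k * QWat.R (q ^ 2) (q ^ (2 * m + 2))⁻¹ k * (q * q ^ 2) ^ k /
        (QWat.P (q ^ 2) (q * q ^ 2 * q⁻¹) k * QWat.P (q ^ 2) (q * q ^ 2 * (q ^ (2 * m + 2))⁻¹) k)) =
      T5 k * WW 1 n (2 * μ + 1) k := by
  have hq := q_ne
  induction k with
  | zero => simp [QWP.wp, rr, WW, Po, Pe, T5, QWat.R, QWat.P]
  | succ k ih =>
    have g1 : WW 1 n (2 * μ + 1) (k + 1) = WW 1 n (2 * μ + 1) k *
        (rho 1 n (2 * μ + 1) (2 * (k : ℤ) + 1) / rho 1 n (2 * μ + 1) (2 * (k : ℤ) + 2)) := by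
      unfold WW Po Pe
      rw [prod_range_succ, prod_range_succ, mul_div_mul_comm]
    have g2 : ∀ s : ℕ, rr s (k + 1) = rr s k * (e (s * (2 * (k : ℤ) + 1)) / e (s * (2 * (k : ℤ) + 2))) := by
      intro s; unfold rr; rw [prod_range_succ]
    have g3 : T5 (k + 1) = T5 k * (-q * (e ((1 : ℕ) * (2 * (k : ℤ) + 1)) / e ((1 : ℕ) * (2 * (k : ℤ) + 2))) ^ 4 *
        (e ((2 : ℕ) * (2 * (k : ℤ) + 1)) / e ((2 : ℕ) * (2 * (k : ℤ) + 2)))) := by
      unfold T5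
      rw [g2, g2, pow_succ, pow_succ, mul_pow]
      ring
    set x : RatFunc ℚ := q ^ (2 * k) with hx
    set y : RatFunc ℚ := q ^ (2 * m) with hy
    have hy0 : y ≠ 0 := pow_ne_zero _ hq
    have hx0 : x ≠ 0 := pow_ne_zero _ hq
    have c1 : e ((1 : ℕ) * (2 * (k : ℤ) + 1)) = 1 - q * x := by
      rw [e_nat' (b := 2 * k + 1) (by push_cast; ring), pow_succ]; ring
    have c2 : e ((1 : ℕ) * (2 * (k : ℤ) + 2)) = 1 - q ^ 2 * x := by
      rw [e_nat' (b := 2 * k + 2) (by push_cast; ring), pow_add]; ring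
    have c3 : e ((2 : ℕ) * (2 * (k : ℤ) + 1)) = 1 - q ^ 2 * x ^ 2 := by
      rw [e_nat' (b := 4 * k + 2) (by push_cast; ring), hx]; ring
    have c4 : e ((2 : ℕ) * (2 * (k : ℤ) + 2)) = 1 - q ^ 4 * x ^ 2 := by
      rw [e_nat' (b := 4 * k + 4) (by push_cast; ring), hx]; ring
    have c5 : rho 1 n (2 * μ + 1) (2 * (k : ℤ) + 1) = (1 - q ^ 2 * x * y) * (1 - x / y) / (1 - q * x) ^ 2 := by
      unfold rho
      rw [hm, c1]
      congr 2
      · rw [e_nat' (b := 2 * k + 2 * m + 2) (by push_cast; ring), hx, hy]; ring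
      · unfold e
        rw [show (((1 : ℕ) : ℤ) * (2 * (k : ℤ) + 1 - (2 * m + 1))) = ((2 * k : ℕ) : ℤ) - ((2 * m : ℕ) : ℤ) by push_cast; ring,
          zpow_sub₀ hq, zpow_natCast, zpow_natCast]
    have c6 : rho 1 n (2 * μ + 1) (2 * (k : ℤ) + 2) = (1 - q ^ 3 * x * y) * (1 - q * x / y) / (1 - q ^ 2 * x) ^ 2 := by
      unfold rho
      rw [hm, c2]
      congr 2
      · rw [e_nat' (b := 2 * k + 2 * m + 3) (by push_cast; ring), hx, hy]; ring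
      · unfold e
        rw [show (((1 : ℕ) : ℤ) * (2 * (k : ℤ) + 2 - (2 * m + 1))) = ((2 * k + 1 : ℕ) : ℤ) - ((2 * m : ℕ) : ℤ) by push_cast; ring,
          zpow_sub₀ hq, zpow_natCast, zpow_natCast, pow_succ q (2 * k)]
        rw [← hx, ← hy]; ring
    have n1 : 1 - q * x ≠ 0 := by rw [← c1]; exact e_ne (by omega)
    have n2 : 1 - q ^ 2 * x ≠ 0 := by rw [← c2]; exact e_ne (by omega)
    have n3 : 1 + q ^ 2 * x ≠ 0 := by
      have h9 : 1 - q ^ 4 * x ^ 2 ≠ 0 := by rw [← c4]; exact e_ne (by omega)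
      intro h0
      apply h9
      linear_combination (1 - q ^ 2 * x) * h0
    have n4 : 1 - q ^ 3 * x * y ≠ 0 := by
      have := one_sub_ne (j := 2 * k + 2 * m + 3) (by omega)
      rwa [show q ^ (2 * k + 2 * m + 3) = q ^ 3 * x * y by rw [hx, hy]; ring] at this
    have n5 : y - q * x ≠ 0 := by
      have h9 : e (2 * (k : ℤ) + 1 - 2 * m) ≠ 0 := e_ne (by omega)
      intro h0
      apply h9
      unfold e
      rw [show (2 * (k : ℤ) + 1 - 2 * m) = ((2 * k + 1 : ℕ) : ℤ) - ((2 * m : ℕ) : ℤ) by push_cast; ring,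
        zpow_sub₀ hq, zpow_natCast, zpow_natCast, pow_succ q (2 * k), ← hx, ← hy]
      field_simp
      linear_combination h0
    rw [QWP.wp_succ, QWat.R_succ, QWat.R_succ, QWat.P_succ, QWat.P_succ, pow_succ (q * q ^ 2), g1, g3, c1, c2, c3, c4, c5, c6]
    have key := ratio_id (z := q) (x := x) (y := y) hq hy0 n1 n2 n3 n4 n5
    have d0 : (q ^ 2) ^ k = x := x_id k
    have d1 : (q ^ 2) ^ (k + 1) = q ^ 2 * x := by rw [pow_succ, d0]; ring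
    have d2 : (q ^ 2) ^ m = y := x_id m
    have d3 : (q ^ 2) ^ (m + 1 + k) = q ^ 2 * x * y := by
      rw [x_id, hx, hy]; ring
    have d4 : q ^ (2 * m + 2) = q ^ 2 * y := by rw [pow_add, ← hy]; ring
    rw [d0, d1, d2, d3]
    rw [d4] at ih ⊢
    have d5 : 1 - q * -q⁻¹ * (q ^ 2 * x) = 1 + q ^ 2 * x := by field_simp; ring
    have d6 : 1 - q * q⁻¹ * (q ^ 2 * x) = 1 - q ^ 2 * x := by field_simp
    have d7 : 1 - q * (q ^ 2 * x * y) = 1 - q ^ 3 * x * y := by ring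
    have d8 : 1 - q * q ^ 2 * q⁻¹ * x = 1 - q ^ 2 * x := by field_simp
    have d9 : 1 - q * q ^ 2 * (q ^ 2 * y)⁻¹ * x = 1 - q * x / y := by field_simp
    rw [d5, d6, d7, d8, d9]
    have e1 : T5 k * (-q * ((1 - q * x) / (1 - q ^ 2 * x)) ^ 4 * ((1 - q ^ 2 * x ^ 2) / (1 - q ^ 4 * x ^ 2))) *
        (WW 1 n (2 * μ + 1) k * (((1 - q ^ 2 * x * y) * (1 - x / y) / (1 - q * x) ^ 2) /
        ((1 - q ^ 3 * x * y) * (1 - q * x / y) / (1 - q ^ 2 * x) ^ 2))) = (T5 k * WW 1 n (2 * μ + 1) k) *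
        (-q * ((1 - q * x) / (1 - q ^ 2 * x)) ^ 4 * ((1 - q ^ 2 * x ^ 2) / (1 - q ^ 4 * x ^ 2)) *
          (((1 - q ^ 2 * x * y) * (1 - x / y) / (1 - q * x) ^ 2) /
          ((1 - q ^ 3 * x * y) * (1 - q * x / y) / (1 - q ^ 2 * x) ^ 2))) := by ring
    rw [e1, ← key, ← ih]
    exact comb4 _ _ _ _ _ _ _ _ _ _ _ _

lemma prod_neg_e (m : ℕ) (c : ℕ) :
    ∏ i ∈ range m, e (-(((2 * i + c : ℕ) : ℤ))) = (-1) ^ m * (q ^ (m * (m - 1) + c * m))⁻¹ * ∏ i ∈ range m, (1 - q ^ (2 * i + c)) := by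
  induction m with
  | zero => simp
  | succ m ih =>
    rw [prod_range_succ, prod_range_succ (fun i => 1 - q ^ (2 * i + c)), ih, e_neg, e_nat, zpow_natCast]
    have h3 : q ^ ((m + 1) * (m + 1 - 1) + c * (m + 1)) = q ^ (m * (m - 1) + c * m) * q ^ (2 * m + c) := by
      rw [← pow_add]; congr 1
      rcases m with _ | m
      · simp
      · simp only [Nat.add_sub_cancel]; ring
    rw [h3, mul_inv, pow_succ]
    ring

lemma PE (m c : ℕ) {x : RatFunc ℚ} (hx : x * q ^ (2 * m + c) = q ^ 2) : QWat.P (q ^ 2) x m =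
    (-1) ^ m * (q ^ (m * (m - 1) + c * m))⁻¹ * ∏ i ∈ range m, (1 - q ^ (2 * i + c)) := by
  rw [← prod_neg_e]
  unfold QWat.P
  rw [← prod_range_reflect]
  apply prod_congr rfl
  intro i hi
  rw [mem_range] at hi
  unfold e
  rw [zpow_neg, zpow_natCast, x_id]
  congr 1
  have hq := q_ne
  have h1 : q ^ (2 * m + c) = q ^ (2 * (m - 1 - i)) * q ^ (2 * i + c) * q ^ 2 := by rw [← pow_add, ← pow_add]; congr 1; omega
  rw [h1] at hx
  have h2 : x * q ^ (2 * (m - 1 - i)) * q ^ (2 * i + c) = 1 := by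
    apply mul_right_cancel₀ (pow_ne_zero 2 hq)
    linear_combination hx
  exact eq_inv_of_mul_eq_one_left h2

/-- the terms of the `4φ3` -/
lemma andrews_term {m : ℕ} (j : ℕ) (hj : j ≤ m) :
    QWat.R (q ^ 2) q⁻¹ j * QWat.R (q ^ 2) (q ^ (2 * m + 2))⁻¹ j * QWat.P (q ^ 2) (q * q ^ 2 * q⁻¹ * (q ^ (2 * m + 2))⁻¹) (m - j) *
        (q * q ^ 2) ^ j * QWat.P (q ^ 2) (q * q ^ 2 * -q⁻¹ * q⁻¹) j /
      (QWat.P (q ^ 2) (q ^ 2) j * QWat.P (q ^ 2) (q * q ^ 2 * -q⁻¹) j * QWat.P (q ^ 2) (q * q ^ 2 * q⁻¹) j * QWat.P (q ^ 2) (q ^ 2) (m - j)) =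
      (-1) ^ m * (q ^ (m * (m - 1) + 2 * m))⁻¹ * QAndrews.F (q ^ 2) m j := by
  have hq := q_ne
  have hq1 : ∀ k : ℕ, 1 - (q ^ 2) ^ (k + 1) ≠ 0 := fun k => by rw [x_id]; exact one_sub_ne (by omega)
  set u : RatFunc ℚ := q * q ^ 2 * q⁻¹ * (q ^ (2 * m + 2))⁻¹ with hu
  induction j with
  | zero =>
    have h1 : u * q ^ (2 * m + 2) = q ^ 2 := by
      have := pow_ne_zero (2 * m + 2) hq
      rw [hu]; field_simp
    rw [Nat.sub_zero, PE m 2 h1]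
    have h2 : QWat.P (q ^ 2) (q ^ 2) m = ∏ i ∈ range m, (1 - q ^ (2 * i + 2)) := by
      unfold QWat.P
      apply prod_congr rfl
      intro i _
      rw [x_id]; ring
    have h3 : QWat.P (q ^ 2) (q ^ 2) m ≠ 0 := QWat.Pq_ne hq1 m
    rw [h2] at h3 ⊢
    simp only [QWat.R, QWat.P, QAndrews.F, range_zero, prod_empty, pow_zero, one_mul, mul_one]
    rw [mul_div_assoc, div_self h3, mul_one]
  | succ j ih =>
    have ih' := ih (by omega)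
    obtain ⟨M, hM⟩ : ∃ M, m = j + 1 + M := Nat.exists_eq_add_of_le hj
    have s1 : m - (j + 1) = M := by omega
    have s2 : m - j = M + 1 := by omega
    rw [s2, QWat.P_succ u, QWat.Pq_succ M] at ih'
    rw [s1, QWat.R_succ, QWat.R_succ, QWat.P_succ (q * q ^ 2 * -q⁻¹ * q⁻¹), QWat.P_succ (q ^ 2), QWat.P_succ (q * q ^ 2 * -q⁻¹), QWat.P_succ (q * q ^ 2 * q⁻¹),
      QAndrews.F_succ, pow_succ (q * q ^ 2)]
    set x : RatFunc ℚ := q ^ (2 * j) with hx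
    set w : RatFunc ℚ := q ^ (2 * M) with hw
    have hx0 : x ≠ 0 := pow_ne_zero _ hq
    have hw0 : w ≠ 0 := pow_ne_zero _ hq
    have d0 : (q ^ 2) ^ j = x := x_id j
    have d1 : (q ^ 2) ^ M = w := x_id M
    have d2 : (q ^ 2) ^ (M + 1) = q ^ 2 * w := by rw [pow_succ, d1]; ring
    have d3 : (q ^ 2) ^ m = q ^ 2 * x * w := by rw [x_id, hM, hx, hw]; ring
    have d4 : (q ^ 2) ^ (m + 1 + j) = q ^ 4 * x ^ 2 * w := by rw [x_id, hM, hx, hw]; ring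
    have d5 : (q ^ 2) ^ (2 * j + 1) = q ^ 2 * x ^ 2 := by rw [x_id, hx]; ring
    have d6 : (q ^ 2) ^ (j + 1) = q ^ 2 * x := by rw [pow_succ, d0]; ring
    have d7 : (q ^ 2) ^ (2 * j + 2) = q ^ 4 * x ^ 2 := by rw [x_id, hx]; ring
    have d8 : (q ^ (2 * m + 2))⁻¹ = (q ^ 4 * x * w)⁻¹ := by congr 1; rw [hM, hx, hw]; ring
    have d9 : u = (q ^ 2 * x * w)⁻¹ := by rw [hu, d8]; field_simp
    have n1 : 1 - q ^ 2 * x ≠ 0 := by have := hq1 j; rwa [d6] at this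
    have n2 : 1 - q ^ 4 * x ^ 2 ≠ 0 := by have := hq1 (2 * j + 1); rwa [show 2 * j + 1 + 1 = 2 * j + 2 by ring, d7] at this
    have n3 : 1 - q ^ 2 * w ≠ 0 := by have := hq1 M; rwa [d2] at this
    have n4 : 1 + q ^ 2 * x ≠ 0 := by
      intro h0
      apply n2
      linear_combination (1 - q ^ 2 * x) * h0
    rw [d0, d3, d4, d5, d6, d7]
    rw [d1, d2, d9] at ih'
    rw [d9]
    have m1 := QWat.Pq_ne hq1 M
    have m2 := QWat.Pq_ne hq1 j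
    have m3 : QWat.P (q ^ 2) (q * q ^ 2 * -q⁻¹) j ≠ 0 := QWat.P_ne (fun i => by
      have h9 : 1 - q ^ (4 * i + 4) ≠ 0 := one_sub_ne (by omega)
      intro h0
      apply h9
      have h8 : 1 + q ^ (2 * i + 2) = 0 := by
        rw [← h0, x_id]; field_simp; ring
      linear_combination (1 - q ^ (2 * i + 2)) * h8) j
    have m4 : QWat.P (q ^ 2) (q * q ^ 2 * q⁻¹) j ≠ 0 := QWat.P_ne (fun i => by
      have h9 : 1 - q ^ (2 * i + 2) ≠ 0 := one_sub_ne (by omega)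
      intro h0
      apply h9
      rw [← h0, x_id]; field_simp; ring) j
    have f1 : 1 - q * q ^ 2 * -q⁻¹ * x = 1 + q ^ 2 * x := by field_simp; ring
    have f2 : 1 - q * q ^ 2 * q⁻¹ * x = 1 - q ^ 2 * x := by field_simp
    have f3 : 1 - q * q ^ 2 * -q⁻¹ * q⁻¹ * x = 1 + q * x := by field_simp; ring
    have f4 : 1 - (q ^ 2 * x * w)⁻¹ * w = -(1 - q ^ 2 * x) / (q ^ 2 * x) := by field_simp; ring
    rw [f4] at ih'
    rw [f1, f2, f3]
    have f5 : q⁻¹ - x = (1 - q * x) / q := by field_simp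
    have f6 : (q ^ (2 * m + 2))⁻¹ - x = (1 - q ^ 4 * x ^ 2 * w) / (q ^ 4 * x * w) := by
      rw [d8]; field_simp
    rw [f5, f6]
    generalize QWat.P (q ^ 2) (q ^ 2) M = z1 at *
    generalize QWat.P (q ^ 2) (q ^ 2) j = z2 at *
    generalize QWat.P (q ^ 2) (q * q ^ 2 * -q⁻¹) j = z3 at *
    generalize QWat.P (q ^ 2) (q * q ^ 2 * q⁻¹) j = z4 at *
    generalize QWat.P (q ^ 2) (q * q ^ 2 * -q⁻¹ * q⁻¹) j = z5 at *
    generalize QWat.P (q ^ 2) (q ^ 2 * x * w)⁻¹ M = z6 at *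
    generalize QWat.R (q ^ 2) q⁻¹ j = z7 at *
    generalize QWat.R (q ^ 2) (q ^ (2 * m + 2))⁻¹ j = z8 at *
    generalize (q * q ^ 2) ^ j = z9 at *
    generalize QAndrews.F (q ^ 2) m j = z10 at *
    generalize (-1) ^ m * (q ^ (m * (m - 1) + 2 * m))⁻¹ = z11 at *
    have ih2 : z11 * z10 = z7 * z8 * (z6 * (-(1 - q ^ 2 * x) / (q ^ 2 * x))) * z9 * z5 / (z2 * z3 * z4 * (z1 * (1 - q ^ 2 * w))) := ih'.symm
    rw [← mul_assoc z11, ih2]
    have g1 : 1 - q ^ 4 * x ^ 2 = (1 - q ^ 2 * x) * (1 + q ^ 2 * x) := by ring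
    have g2 : 1 - q ^ 2 * x ^ 2 = (1 - q * x) * (1 + q * x) := by ring
    have g3 : q ^ 2 * x * w - x = -(x * (1 - q ^ 2 * w)) := by ring
    rw [g1, g2, g3]
    generalize 1 - q ^ 2 * x = a1 at *
    generalize 1 + q ^ 2 * x = a2 at *
    generalize 1 - q * x = a3 at *
    generalize 1 + q * x = a4 at *
    generalize 1 - q ^ 2 * w = a5 at *
    generalize 1 - q ^ 4 * x ^ 2 * w = a6 at *
    field_simp

/-- the evaluation of the deformed sum -/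
theorem exact5 {μ m : ℕ} (hm : (2 * (μ : ℤ) + 1) * n = 2 * m + 1) {K : ℕ} (hK : m < K) :
    ∑ k ∈ range K, e (4 * (k : ℤ) + 1) * (T5 k * WW 1 n (2 * μ + 1) k) =
      (q ^ m)⁻¹ * e (2 * (m : ℤ) + 1) * QAndrews.S (q ^ 2) m := by
  have hq := q_ne
  have hq1 : ∀ k : ℕ, 1 - (q ^ 2) ^ (k + 1) ≠ 0 := fun k => by rw [x_id]; exact one_sub_ne (by omega)
  have ha : ∀ k : ℕ, 1 - q * (q ^ 2) ^ (k + 1) ≠ 0 := fun k => by
    have := one_sub_ne (j := 2 * (k + 1) + 1) (by omega)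
    rwa [pow_succ, ← x_id, mul_comm] at this
  have hB : ∀ k : ℕ, 1 - q * -q⁻¹ * (q ^ 2) ^ (k + 1) ≠ 0 := fun k => by
    have h9 : 1 - q ^ (4 * k + 4) ≠ 0 := one_sub_ne (by omega)
    intro h0
    apply h9
    have h8 : 1 + q ^ (2 * (k + 1)) = 0 := by
      rw [← h0, x_id]; field_simp; ring
    linear_combination (1 - q ^ (2 * (k + 1))) * h8
  have hC : ∀ k : ℕ, 1 - q * q⁻¹ * (q ^ 2) ^ (k + 1) ≠ 0 := fun k => by
    rw [mul_inv_cancel₀ hq, one_mul]; exact hq1 k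
  have hE : ∀ k : ℕ, 1 - q * (q ^ (2 * m + 2))⁻¹ * (q ^ 2) ^ (k + 1) ≠ 0 := fun k => by
    have h9 : e (2 * (k : ℤ) + 1 - 2 * m) ≠ 0 := e_ne (by omega)
    intro h0
    apply h9
    rw [← h0]
    unfold e
    rw [x_id, show (2 * (k : ℤ) + 1 - 2 * m) = ((2 * (k + 1) + 1 : ℕ) : ℤ) - ((2 * m + 2 : ℕ) : ℤ) by push_cast; ring,
      zpow_sub₀ hq, zpow_natCast, zpow_natCast]
    ring
  have hW := QWat.watson (q := q ^ 2) (a := q) (B := -q⁻¹) (C := q⁻¹) (D := q⁻¹) (E := (q ^ (2 * m + 2))⁻¹) (pow_ne_zero 2 hq) hq1 ha hB hC hC hE m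
  have h1 : ∑ k ∈ range K, e (4 * (k : ℤ) + 1) * (T5 k * WW 1 n (2 * μ + 1) k) =
      ∑ k ∈ range (m + 1), (1 - q * (q ^ 2) ^ (2 * k)) * QWP.wp (q ^ 2) q (-q⁻¹) q⁻¹ m k *
        (QWat.R (q ^ 2) q⁻¹ k * QWat.R (q ^ 2) (q ^ (2 * m + 2))⁻¹ k * (q * q ^ 2) ^ k /
        (QWat.P (q ^ 2) (q * q ^ 2 * q⁻¹) k * QWat.P (q ^ 2) (q * q ^ 2 * (q ^ (2 * m + 2))⁻¹) k)) := by
    rw [← Finset.sum_subset (range_subset_range.2 (show m + 1 ≤ K by omega))]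
    · apply sum_congr rfl
      intro k _
      rw [mul_assoc, term5 hm k]
      congr 1
      rw [e_nat' (b := 4 * k + 1) (by push_cast; ring), x_id]
      ring
    · intro k _ hk
      rw [mem_range, not_lt] at hk
      rw [WW_zero hm (by omega)]; ring
  rw [h1, hW]
  have h2 : ∑ j ∈ range (m + 1), QWat.R (q ^ 2) q⁻¹ j * QWat.R (q ^ 2) (q ^ (2 * m + 2))⁻¹ j *
        QWat.P (q ^ 2) (q * q ^ 2 * q⁻¹ * (q ^ (2 * m + 2))⁻¹) (m - j) *
        (q * q ^ 2) ^ j * QWat.P (q ^ 2) (q * q ^ 2 * -q⁻¹ * q⁻¹) j /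
      (QWat.P (q ^ 2) (q ^ 2) j * QWat.P (q ^ 2) (q * q ^ 2 * -q⁻¹) j * QWat.P (q ^ 2) (q * q ^ 2 * q⁻¹) j * QWat.P (q ^ 2) (q ^ 2) (m - j)) =
      (-1) ^ m * (q ^ (m * (m - 1) + 2 * m))⁻¹ * QAndrews.S (q ^ 2) m := by
    unfold QAndrews.S
    rw [mul_sum]
    apply sum_congr rfl
    intro j hj
    exact andrews_term j (by have := mem_range.1 hj; omega)
  rw [h2]
  have h3 : (q * q ^ 2 * (q ^ (2 * m + 2))⁻¹) * q ^ (2 * m + 1) = q ^ 2 := by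
    have := pow_ne_zero (2 * m + 2) hq
    rw [pow_succ q (2 * m + 1)]
    have := pow_ne_zero (2 * m + 1) hq
    field_simp
  rw [PE m 1 h3]
  have h4 : q * q ^ 2 * q⁻¹ = q ^ 2 := by field_simp
  rw [h4]
  have h5 : (1 - q) * QWat.P (q ^ 2) (q * q ^ 2) m = e (2 * (m : ℤ) + 1) * ∏ i ∈ range m, (1 - q ^ (2 * i + 1)) := by
    have e1 : e (2 * (m : ℤ) + 1) = 1 - q ^ (2 * m + 1) := e_nat' (by push_cast; ring)
    rw [e1, mul_comm (1 - q ^ (2 * m + 1)), ← prod_range_succ (fun i => 1 - q ^ (2 * i + 1)), prod_range_succ']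
    unfold QWat.P
    rw [mul_comm]
    congr 1
    · apply prod_congr rfl
      intro i _
      rw [x_id]; ring
    · simp
  have h6 : QWat.P (q ^ 2) (q ^ 2) m ≠ 0 := QWat.Pq_ne hq1 m
  have h7 : ∏ i ∈ range m, (1 - q ^ (2 * i + 1)) ≠ 0 := by
    rw [prod_ne_zero_iff]; intro i _; exact one_sub_ne (by omega)
  have h8 : q ^ (m * (m - 1) + 2 * m) = q ^ (m * (m - 1) + 1 * m) * q ^ m := by rw [← pow_add]; congr 1; ring
  rw [h8]
  have n1 : q ^ (m * (m - 1) + 1 * m) ≠ 0 := pow_ne_zero _ hq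
  have n2 : q ^ m ≠ 0 := pow_ne_zero _ hq
  have n3 : ((-1 : RatFunc ℚ) ^ m) ≠ 0 := pow_ne_zero _ (by norm_num)
  generalize QWat.P (q ^ 2) (q ^ 2) m = z1 at *
  generalize ∏ i ∈ range m, (1 - q ^ (2 * i + 1)) = z2 at *
  generalize q ^ (m * (m - 1) + 1 * m) = z3 at *
  generalize q ^ m = z4 at *
  generalize ((-1 : RatFunc ℚ) ^ m) = z5 at *
  generalize QWat.P (q ^ 2) (q * q ^ 2) m = z6 at *
  generalize e (2 * (m : ℤ) + 1) = z7 at *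
  generalize QAndrews.S (q ^ 2) m = z8 at *
  have e2 : (1 - q) * (z1 * z6 / (z1 * (z5 * z3⁻¹ * z2))) * (z5 * (z3 * z4)⁻¹ * z8) =
      ((1 - q) * z6) * (z1 / (z1 * (z5 * z3⁻¹ * z2))) * (z5 * (z3 * z4)⁻¹ * z8) := by ring
  rw [e2, h5]
  field_simp

end

end Pool.Agent.X14.QBlock
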