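import Pool.Agent.X14.QAp

set_option autoImplicit false

/-! The sums of `q^k (1+q^{4k+1})/(1+q) ((q^2;q^4)_k/(q^4;q^4)_k)^3`. -/

namespace Pool.Agent.X14.QLiu

open Finset Polynomial Pool.Agent.X14.QL Pool.Agent.X14.QBlock

noncomputable section

lemma one_add_ne : (1 + q : RatFunc ℚ) ≠ 0 := by
  intro h
  apply one_sub_ne (j := 2) (by norm_num)
  have : (1 - q ^ 2 : RatFunc ℚ) = (1 - q) * (1 + q) := by ring
  rw [this, h, mul_zero]

lemma one_add_inv {n : ℕ} (hn : n % 2 = 1) : (1 + q : RatFunc ℚ)⁻¹ ∈ Loc (cyclotomic n ℚ) := by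
  have h1 : (1 + q : RatFunc ℚ) = al (cyclotomic 2 ℚ) := by
    rw [cyclotomic_two, map_add, map_one, ← q_eq, add_comm]
  rw [h1]
  exact inv_mem (cyclotomic.isCoprime_rat (by omega))

/-- the terms -/
def term (k : ℕ) : RatFunc ℚ := q ^ k * ((1 + q ^ (4 * k + 1)) / (1 + q)) * rr 2 k ^ 3

/-- signed factors -/
def g (i : ℕ) : RatFunc ℚ := if i % 2 = 1 then e (2 * (i : ℤ) + 1) else (e (2 * (i : ℤ) + 1))⁻¹

/-- products of signed factors -/
def FF (K : ℕ) : RatFunc ℚ := ∏ i ∈ range K, g i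

lemma FF_eq (m : ℕ) : FF (2 * m + 1) = (∏ j ∈ range m, e (4 * (j : ℤ) + 3)) / (∏ j ∈ range m, e (4 * (j : ℤ) + 5)) / (1 - q) := by
  induction m with
  | zero =>
    unfold FF g
    simp [e]
  | succ m ih =>
    have h1 : FF (2 * (m + 1) + 1) = FF (2 * m + 1) * g (2 * m + 1) * g (2 * m + 2) := by
      unfold FF
      rw [show 2 * (m + 1) + 1 = 2 * m + 1 + 1 + 1 by ring, prod_range_succ, prod_range_succ]
    have h2 : g (2 * m + 1) = e (4 * (m : ℤ) + 3) := by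
      unfold g
      rw [if_pos (by omega)]; congr 1; push_cast; ring
    have h3 : g (2 * m + 2) = (e (4 * (m : ℤ) + 5))⁻¹ := by
      unfold g
      rw [if_neg (by omega)]; congr 2; push_cast; ring
    rw [h1, h2, h3, ih, prod_range_succ, prod_range_succ]
    have h4 : e (4 * (m : ℤ) + 5) ≠ 0 := e_ne (by omega)
    have h5 : ∏ j ∈ range m, e (4 * (j : ℤ) + 5) ≠ 0 := by
      rw [prod_ne_zero_iff]; intro j _; exact e_ne (by omega)
    have h6 : (1 - q : RatFunc ℚ) ≠ 0 := by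
      have := one_sub_ne (j := 1) one_pos; rwa [pow_one] at this
    field_simp

/-- the evaluation -/
def V (n h μ : ℕ) : RatFunc ℚ :=
  q ^ (-(h : ℤ)) * (q ^ n) ^ (-(μ : ℤ)) * ((1 + (q ^ n) ^ (2 * (μ : ℤ) + 1)) / (1 + q)) *
    (1 - (q ^ n) ^ (2 * (μ : ℤ) + 1)) * FF (n * (2 * μ + 1))

lemma exact (n μ h : ℕ) (hn : n = 2 * h + 1) :
    ∑ k ∈ range (n * (μ + 1)), term k * WW 2 n (2 * μ + 1) k = V n h μ := by
  set m := n * μ + h with hm
  have hmz : (2 * (μ : ℤ) + 1) * n = 2 * m + 1 := by rw [hm, hn]; push_cast; ring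
  have hK : m < n * (μ + 1) := by rw [hm, Nat.mul_succ]; omega
  have hq := q_ne
  have hb0 : ∀ z : ℤ, q⁻¹ * q ^ z = q ^ (z - 1) := by
    intro z; rw [zpow_sub_one₀ hq]; ring
  have hs := pair_sum (s := 2) (by norm_num) hmz (b := q⁻¹) (fun k => by
    rw [hb0]; exact e_ne (by push_cast; omega)) hK
  have h6 : (1 - q : RatFunc ℚ) ≠ 0 := by
    have := one_sub_ne (j := 1) one_pos; rwa [pow_one] at this
  have h7 := one_add_ne
  have hb : ∀ k : ℕ, bb 2 q⁻¹ k * (q ^ k * (1 - q ^ (4 * k + 1))) = 1 - q := by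
    intro k
    induction k with
    | zero => simp [bb]
    | succ k ih =>
      have h3 : bb 2 q⁻¹ (k + 1) = bb 2 q⁻¹ k * (q⁻¹ * (1 - q ^ (4 * k + 1)) / (1 - q ^ (4 * k + 5))) := by
        unfold bb
        rw [prod_range_succ]
        congr 1
        rw [hb0]
        have a1 : q ^ (((2 : ℕ) : ℤ) * (2 * (k : ℤ) + 3) - 1) = q ^ (4 * k + 5) := by
          rw [← zpow_natCast]; congr 1; push_cast; ring
        have a2 : q ^ (((2 : ℕ) : ℤ) * (2 * (k : ℤ))) = q⁻¹ * q ^ (4 * k + 1) := by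
          rw [← zpow_natCast q (4 * k + 1), hb0]; congr 1; push_cast; ring
        rw [a1, a2]; ring
      have a3 : (1 - q ^ (4 * k + 5) : RatFunc ℚ) ≠ 0 := one_sub_ne (by omega)
      rw [h3, ← ih, show 4 * (k + 1) + 1 = 4 * k + 5 by ring, pow_succ q k]
      field_simp
  have h1 : (1 - q ^ 2 : RatFunc ℚ) ≠ 0 := one_sub_ne (j := 2) (by norm_num)
  have hl : (∑ k ∈ range (n * (μ + 1)), term k * WW 2 n (2 * μ + 1) k) * (1 - q ^ 2) =
      ∑ k ∈ range (n * (μ + 1)), e (((2 : ℕ) : ℤ) * (4 * (k : ℤ) + 1)) * (q ^ (2 * k) * rr 2 k ^ 3 * WW 2 n (2 * μ + 1) k * bb 2 q⁻¹ k) := by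
    rw [sum_mul]
    apply sum_congr rfl
    intro k _
    have h3 := hb k
    have a1 : e (((2 : ℕ) : ℤ) * (4 * (k : ℤ) + 1)) = (1 - q ^ (4 * k + 1)) * (1 + q ^ (4 * k + 1)) := by
      have : (((2 : ℕ) : ℤ) * (4 * (k : ℤ) + 1)) = ((2 * (4 * k + 1) : ℕ) : ℤ) := by push_cast; ring
      rw [this, e_nat, mul_comm 2, pow_mul]; ring
    rw [a1]
    unfold term
    have a2 : (1 - q ^ 2 : RatFunc ℚ) = (1 - q) * (1 + q) := by ring
    rw [a2, two_mul k, pow_add]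
    field_simp
    rw [← h3]
    ring
  apply mul_right_cancel₀ h1
  rw [hl, hs]
  unfold V
  have h8 : (n * (2 * μ + 1) : ℕ) = 2 * m + 1 := by
    have : ((n * (2 * μ + 1) : ℕ) : ℤ) = ((2 * m + 1 : ℕ) : ℤ) := by push_cast; linarith
    exact_mod_cast this
  have h9 : (q ^ n) ^ (2 * (μ : ℤ) + 1) = q ^ (2 * m + 1) := by
    rw [← h8, pow_mul, ← zpow_natCast (q ^ n) (2 * μ + 1)]; congr 1
  have h10 : q ^ (-(h : ℤ)) * (q ^ n) ^ (-(μ : ℤ)) = (q ^ m)⁻¹ := by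
    rw [zpow_neg, zpow_neg, zpow_natCast, zpow_natCast, ← pow_mul, ← mul_inv, ← pow_add, hm]
    congr 2; ring
  rw [h8, FF_eq, h9, h10]
  -- numerator product
  have h11 : ∏ j ∈ range m, ((1 - q⁻¹ * q ^ (((2 : ℕ) : ℤ) * (2 * (j : ℤ) + 2 - (2 * m + 1)))) / (1 - q⁻¹ * q ^ (((2 : ℕ) : ℤ) * (2 * (j : ℤ) + 3)))) =
      ((-1) ^ m * (q ^ (2 * m ^ 2 + m))⁻¹ * ∏ j ∈ range m, e (4 * (j : ℤ) + 3)) / ∏ j ∈ range m, e (4 * (j : ℤ) + 5) := by
    rw [prod_div_distrib]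
    congr 1
    · rw [← prod_range_reflect]
      have : ∀ i ∈ range m, (1 - q⁻¹ * q ^ (((2 : ℕ) : ℤ) * (2 * ((m - 1 - i : ℕ) : ℤ) + 2 - (2 * m + 1)))) =
          -((q ^ (4 * i + 3))⁻¹ * e (4 * (i : ℤ) + 3)) := by
        intro i hi
        rw [mem_range] at hi
        have h2 : (((4 * i + 3 : ℕ)) : ℤ) = 4 * (i : ℤ) + 3 := by push_cast; ring
        rw [← zpow_natCast q (4 * i + 3), h2, ← e_neg, hb0]
        unfold e
        congr 2
        rw [Nat.cast_sub (by omega), Nat.cast_sub (by omega)]; push_cast; ring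
      rw [prod_congr rfl this]
      clear this h8 h9 h10 hl hs hmz hK hm
      induction m with
      | zero => simp
      | succ m ih =>
        rw [prod_range_succ, ih, prod_range_succ (fun j => e (4 * (j : ℤ) + 3))]
        have h3 : q ^ (2 * (m + 1) ^ 2 + (m + 1)) = q ^ (2 * m ^ 2 + m) * q ^ (4 * m + 3) := by
          rw [← pow_add]; congr 1; ring
        rw [h3, mul_inv, pow_succ]
        ring
    · apply prod_congr rfl
      intro j _
      rw [hb0]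
      unfold e
      congr 2; push_cast; ring
  rw [h11]
  have h12 : e (((2 : ℕ) : ℤ) * (2 * (m : ℤ) + 1)) = (1 - q ^ (2 * m + 1)) * (1 + q ^ (2 * m + 1)) := by
    have : (((2 : ℕ) : ℤ) * (2 * (m : ℤ) + 1)) = ((2 * (2 * m + 1) : ℕ) : ℤ) := by push_cast; ring
    rw [this, e_nat, mul_comm 2 (2 * m + 1), pow_mul]; ring
  rw [h12]
  have h13 : ((-1 : RatFunc ℚ) ^ m) * (-1) ^ m = 1 := by rw [← mul_pow]; simp
  have h14 : q ^ (2 * m ^ 2 + m) = q ^ (2 * m ^ 2) * q ^ m := pow_add _ _ _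
  have h15 : q ^ (2 * m ^ 2) ≠ 0 := pow_ne_zero _ hq
  have h16 : q ^ m ≠ 0 := pow_ne_zero _ hq
  have a2 : (1 - q ^ 2 : RatFunc ℚ) = (1 - q) * (1 + q) := by ring
  rw [h14, a2]
  generalize ∏ j ∈ range m, e (4 * (j : ℤ) + 3) = A
  generalize ∏ j ∈ range m, e (4 * (j : ℤ) + 5) = B
  generalize q ^ (2 * m + 1) = y
  generalize q ^ (2 * m ^ 2) = z at *
  generalize q ^ m = w at *
  have h17 : (-1 : RatFunc ℚ) ^ m * z * ((1 - y) * (1 + y)) * ((-1) ^ m * (z * w)⁻¹ * A / B) =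
      ((-1 : RatFunc ℚ) ^ m * (-1) ^ m) * ((1 - y) * (1 + y) * w⁻¹ * (A / B)) := by
    field_simp
  rw [h17, h13]
  field_simp

variable {n h : ℕ}

lemma g_centre (hn : n = 2 * h + 1) (J : ℕ) :
    ∏ t ∈ range n, g (n * J + t) = g (n * J + h) * ∏ b ∈ range h, (g (n * J + (h + (b + 1))) * g (n * J + (h - (b + 1)))) := by
  conv_lhs => rw [show n = 2 * h + 1 from hn]
  rw [prod_centre (fun t => g ((2 * h + 1) * J + t)) h, ← hn]

lemma g_pair (hn : n = 2 * h + 1) (J : ℕ) {b : ℕ} (hb : b < h) :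
    g (n * J + (h + (b + 1))) * g (n * J + (h - (b + 1))) =
      if (J + h + b + 1) % 2 = 1 then PP 2 n (2 * (J : ℤ) + 1) ((b : ℤ) + 1) else (PP 2 n (2 * (J : ℤ) + 1) ((b : ℤ) + 1))⁻¹ := by
  have e1 : (2 * ((n * J + (h + (b + 1)) : ℕ) : ℤ) + 1) = (2 * (J : ℤ) + 1) * n + (2 : ℕ) * ((b : ℤ) + 1) := by
    rw [hn]; push_cast; ring
  have e2 : (2 * ((n * J + (h - (b + 1)) : ℕ) : ℤ) + 1) = (2 * (J : ℤ) + 1) * n - (2 : ℕ) * ((b : ℤ) + 1) := by
    rw [hn]; push_cast [Nat.cast_sub (show b + 1 ≤ h by omega)]; ring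
  have p0 : (n * J) % 2 = J % 2 := by rw [Nat.mul_mod, show n % 2 = 1 by omega, one_mul, Nat.mod_mod]
  unfold g PP
  rw [e1, e2]
  by_cases hp : (J + h + b + 1) % 2 = 1
  · rw [if_pos (by omega), if_pos (by omega), if_pos hp]
  · rw [if_neg (by omega), if_neg (by omega), if_neg hp, mul_inv]

lemma g_mid (hn : n = 2 * h + 1) (J : ℕ) :
    g (n * J + h) = if (J + h) % 2 = 1 then e ((2 * (J : ℤ) + 1) * n) else (e ((2 * (J : ℤ) + 1) * n))⁻¹ := by
  have e1 : (2 * ((n * J + h : ℕ) : ℤ) + 1) = (2 * (J : ℤ) + 1) * n := by rw [hn]; push_cast; ring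
  have p0 : (n * J) % 2 = J % 2 := by rw [Nat.mul_mod, show n % 2 = 1 by omega, one_mul, Nat.mod_mod]
  unfold g
  rw [e1]
  by_cases hp : (J + h) % 2 = 1
  · rw [if_pos (by omega), if_pos hp]
  · rw [if_neg (by omega), if_neg hp]

lemma block_even (hn : n = 2 * h + 1) (hh : h % 2 = 0) (J : ℕ) (hJ : J % 2 = 0) :
    ∏ t ∈ range n, g (n * J + t) = (e ((2 * (J : ℤ) + 1) * n))⁻¹ * (DD 2 n h (2 * (J : ℤ) + 1))⁻¹ := by
  rw [g_centre hn, g_mid hn, if_neg (by omega)]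
  congr 1
  unfold DD
  rw [← prod_inv_distrib]
  apply prod_congr rfl
  intro b hb
  rw [g_pair hn J (mem_range.1 hb)]
  by_cases hp : b % 2 = 1
  · rw [if_neg (by omega), if_pos hp]
  · rw [if_pos (by omega), if_neg hp, inv_inv]

lemma block_odd (hn : n = 2 * h + 1) (hh : h % 2 = 0) (J : ℕ) (hJ : J % 2 = 1) :
    ∏ t ∈ range n, g (n * J + t) = e ((2 * (J : ℤ) + 1) * n) * DD 2 n h (2 * (J : ℤ) + 1) := by
  rw [g_centre hn, g_mid hn, if_pos (by omega)]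
  congr 1
  unfold DD
  apply prod_congr rfl
  intro b hb
  rw [g_pair hn J (mem_range.1 hb)]
  by_cases hp : b % 2 = 1
  · rw [if_pos (by omega), if_pos hp]
  · rw [if_neg (by omega), if_neg hp]

lemma cop2 (hn : n = 2 * h + 1) : Nat.Coprime 2 n := by rw [hn]; simp

lemma FF_blocks (n J : ℕ) (l : ℕ) : FF (n * J + l) = (∏ i ∈ range J, ∏ t ∈ range n, g (n * i + t)) * ∏ t ∈ range l, g (n * J + t) := by
  unfold FF
  exact prod_range_blocks n J l g

lemma FF_step (n μ : ℕ) : FF (n * (2 * (μ + 1) + 1)) = FF (n * (2 * μ + 1)) *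
    ((∏ t ∈ range n, g (n * (2 * μ + 1) + t)) * ∏ t ∈ range n, g (n * (2 * μ + 2) + t)) := by
  have h1 := FF_blocks n (2 * (μ + 1) + 1) 0
  have h2 := FF_blocks n (2 * μ + 1) 0
  rw [add_zero, range_zero, prod_empty, mul_one] at h1 h2
  rw [h1, h2, show 2 * (μ + 1) + 1 = 2 * μ + 1 + 1 + 1 by ring, prod_range_succ, prod_range_succ]
  ring

/-- the classical values -/
def v (μ : ℕ) : ℚ := (2 * μ + 1) * ∏ j ∈ range μ, ((4 * (j : ℚ) + 3) / (4 * j + 5))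

lemma v_ne (μ : ℕ) : v μ ≠ 0 := by
  unfold v
  refine mul_ne_zero (by positivity) ?_
  rw [prod_ne_zero_iff]
  intro j _
  positivity

lemma DD_mem (hn : n = 2 * h + 1) {s : ℕ} (hsn : Nat.Coprime s n) (z : ℤ) :
    DD s n h z ∈ Loc (cyclotomic n ℚ) ∧ (DD s n h z)⁻¹ ∈ Loc (cyclotomic n ℚ) := by
  have h1 : ∀ b : ℕ, b < h → PP s n z ((b : ℤ) + 1) ∈ Loc (cyclotomic n ℚ) ∧ (PP s n z ((b : ℤ) + 1))⁻¹ ∈ Loc (cyclotomic n ℚ) := by
    intro b hb
    have h0 : ¬ (n : ℤ) ∣ s * ((b : ℤ) + 1) := not_dvd_mul hsn (small_not_dvd hn hb)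
    unfold PP
    rw [mul_inv]
    refine ⟨(Loc _).mul_mem (e_mem (by omega) _) (e_mem (by omega) _),
      (Loc _).mul_mem (e_inv (by omega) fun h => h0 ?_) (e_inv (by omega) fun h => h0 ?_)⟩
    · exact (dvd_add_right (dvd_mul_left _ _)).1 h
    · exact (dvd_sub_right (dvd_mul_left _ _)).1 h
  unfold DD
  constructor
  · apply (Loc _).prod_mem
    intro b hb
    have := h1 b (mem_range.1 hb)
    split_ifs
    · exact this.1
    · exact this.2
  · rw [← prod_inv_distrib]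
    apply (Loc _).prod_mem
    intro b hb
    have := h1 b (mem_range.1 hb)
    split_ifs
    · exact this.2
    · rw [inv_inv]; exact this.1

/-- value of `V` at `μ = 0` -/
lemma V_zero (hn : n = 2 * h + 1) (hh : h % 2 = 0) :
    V n h 0 = q ^ (-(h : ℤ)) * ((1 + q ^ n) / (1 + q)) * (DD 2 n h 1)⁻¹ := by
  unfold V
  have h1 : FF (n * (2 * 0 + 1)) = (e (n : ℤ))⁻¹ * (DD 2 n h 1)⁻¹ := by
    have h2 := FF_blocks n 1 0
    rw [add_zero, range_zero, prod_empty, mul_one, prod_range_one, block_even hn hh 0 (by norm_num)] at h2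
    simpa using h2
  rw [h1]
  have h3 : e (n : ℤ) ≠ 0 := e_ne (by omega)
  have h4 : (1 - (q ^ n) ^ (2 * ((0 : ℕ) : ℤ) + 1)) = e (n : ℤ) := by
    unfold e
    rw [zpow_natCast]
    simp
  rw [h4]
  simp only [Nat.cast_zero, neg_zero, zpow_zero, mul_one, mul_zero, zero_add, zpow_one]
  field_simp

lemma V_step (hn : n = 2 * h + 1) (hh : h % 2 = 0) (μ : ℕ) :
    V n h (μ + 1) = V n h μ * ((q ^ n) ^ (-1 : ℤ) * ((1 + (q ^ n) ^ (2 * (μ : ℤ) + 3)) / (1 + (q ^ n) ^ (2 * (μ : ℤ) + 1))) *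
      (Gz (q ^ n) (2 * (μ : ℤ) + 3) / Gz (q ^ n) (2 * (μ : ℤ) + 1)) * (Gz (q ^ n) (4 * (μ : ℤ) + 3) / Gz (q ^ n) (4 * (μ : ℤ) + 5)) *
      (DD 2 n h (4 * (μ : ℤ) + 3) / DD 2 n h (4 * (μ : ℤ) + 5))) := by
  have hn0 : 0 < n := by omega
  obtain ⟨hx, hx0, hx1, hxi⟩ := x_props (n := n) (s := 1) hn0 one_pos
  rw [one_mul] at hx hx0 hx1 hxi
  have eG : ∀ z : ℤ, e (z * n) = (1 - q ^ n) * Gz (q ^ n) z := by
    intro z
    have := e_Gz (n := n) (s := 1) hn0 one_pos z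
    push_cast at this
    rwa [one_mul, one_mul] at this
  have hz : ∀ z : ℤ, 1 - (q ^ n) ^ z = (1 - q ^ n) * Gz (q ^ n) z := by
    intro z; unfold Gz; rw [mul_div_cancel₀ _ hx1]
  have hGne : ∀ z : ℤ, z ≠ 0 → Gz (q ^ n) z ≠ 0 := by
    intro z hz0 h0
    have h1 := eG z
    rw [h0, mul_zero] at h1
    have h2 : (n : ℤ) ≠ 0 := by omega
    exact e_ne (mul_ne_zero hz0 h2) h1
  have h1p : ∀ z : ℤ, z ≠ 0 → 1 + (q ^ n) ^ z ≠ 0 := by
    intro z hz0 h0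
    have h1 : 1 - (q ^ n) ^ (2 * z) = (1 - (q ^ n) ^ z) * (1 + (q ^ n) ^ z) := by
      rw [two_mul, zpow_add₀ hx0]; ring
    rw [h0, mul_zero, hz] at h1
    exact mul_ne_zero hx1 (hGne _ (by omega)) h1
  unfold V
  rw [FF_step, block_odd hn hh (2 * μ + 1) (by omega), block_even hn hh (2 * μ + 2) (by omega)]
  have c1 : (2 * ((2 * μ + 1 : ℕ) : ℤ) + 1) = 4 * (μ : ℤ) + 3 := by push_cast; ring
  have c2 : (2 * ((2 * μ + 2 : ℕ) : ℤ) + 1) = 4 * (μ : ℤ) + 5 := by push_cast; ring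
  have c3 : (2 * ((μ + 1 : ℕ) : ℤ) + 1) = 2 * (μ : ℤ) + 3 := by push_cast; ring
  have c4 : (q ^ n) ^ (-((μ + 1 : ℕ) : ℤ)) = (q ^ n) ^ (-(μ : ℤ)) * (q ^ n) ^ (-1 : ℤ) := by
    rw [← zpow_add₀ hx0]; congr 1; push_cast; ring
  rw [c1, c2, c3, c4, eG, eG, hz, hz]
  have g1 := hGne (2 * (μ : ℤ) + 1) (by omega)
  have g3 := hGne (4 * (μ : ℤ) + 5) (by omega)
  have p1 := h1p (2 * (μ : ℤ) + 1) (by omega)
  have d2 := DD_ne (n := n) (s := 2) hn (cop2 hn) (4 * (μ : ℤ) + 5)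
  have oa := one_add_ne
  generalize DD 2 n h (4 * (μ : ℤ) + 5) = D2 at *
  generalize DD 2 n h (4 * (μ : ℤ) + 3) = D1 at *
  generalize Gz (q ^ n) (4 * (μ : ℤ) + 5) = G2 at *
  generalize Gz (q ^ n) (4 * (μ : ℤ) + 3) = G1 at *
  generalize Gz (q ^ n) (2 * (μ : ℤ) + 3) = G4 at *
  generalize Gz (q ^ n) (2 * (μ : ℤ) + 1) = G3 at *
  generalize (1 + (q ^ n) ^ (2 * (μ : ℤ) + 1)) = P1 at *
  generalize (1 + (q ^ n) ^ (2 * (μ : ℤ) + 3)) = P2 at *
  generalize (q ^ n) ^ (-(μ : ℤ)) = X1 at *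
  generalize (q ^ n) ^ (-1 : ℤ) = X2 at *
  generalize (1 - q ^ n : RatFunc ℚ) = x1 at *
  field_simp

lemma V_eqm (hn : n = 2 * h + 1) (hh : h % 2 = 0) (μ : ℕ) :
    V n h μ ∈ Loc (cyclotomic n ℚ) ∧ Eqm (cyclotomic n ℚ) 2 (V n h μ) (V n h 0 * (v μ : ℚ)) := by
  have hn0 : 0 < n := by omega
  obtain ⟨hx, hx0, hx1, hxi⟩ := x_props (n := n) (s := 1) hn0 one_pos
  rw [one_mul] at hx hx0 hx1 hxi
  have h0 : V n h 0 ∈ Loc (cyclotomic n ℚ) := by
    rw [V_zero hn hh, div_eq_mul_inv]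
    exact (Loc _).mul_mem ((Loc _).mul_mem (zmem hn0 _) ((Loc _).mul_mem ((Loc _).add_mem (Loc _).one_mem ((Loc _).pow_mem (q_mem _) _))
      (one_add_inv (by omega)))) (DD_mem hn (cop2 hn) _).2
  induction μ with
  | zero =>
    refine ⟨h0, ?_⟩
    unfold v
    simp only [Nat.cast_zero, mul_zero, zero_add, range_zero, prod_empty, mul_one, Rat.cast_one]
    exact Eqm.refl _
  | succ μ ih =>
    obtain ⟨m1, m2⟩ := ih
    have hT : Eqm (cyclotomic n ℚ) 2 ((q ^ n) ^ (-1 : ℤ) * ((1 + (q ^ n) ^ (2 * (μ : ℤ) + 3)) / (1 + (q ^ n) ^ (2 * (μ : ℤ) + 1))) *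
      (Gz (q ^ n) (2 * (μ : ℤ) + 3) / Gz (q ^ n) (2 * (μ : ℤ) + 1)) * (Gz (q ^ n) (4 * (μ : ℤ) + 3) / Gz (q ^ n) (4 * (μ : ℤ) + 5)) *
      (DD 2 n h (4 * (μ : ℤ) + 3) / DD 2 n h (4 * (μ : ℤ) + 5))) ((v (μ + 1) / v μ : ℚ) : RatFunc ℚ) := by
      have t1 := Ap_zpow hx hx0 hxi (-1)
      have t2 := (Ap_one_add hx hx0 hxi (2 * (μ : ℤ) + 3)).div hx (by norm_num) (Ap_one_add hx hx0 hxi (2 * (μ : ℤ) + 1))
      have t3 := (Ap_Gz hx hx0 hx1 hxi (2 * (μ : ℤ) + 3)).div hx (s := ((2 * (μ : ℤ) + 1 : ℤ) : ℚ)) (by positivity) (Ap_Gz hx hx0 hx1 hxi (2 * (μ : ℤ) + 1))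
      have t4 := (Ap_Gz hx hx0 hx1 hxi (4 * (μ : ℤ) + 3)).div hx (s := ((4 * (μ : ℤ) + 5 : ℤ) : ℚ)) (by positivity) (Ap_Gz hx hx0 hx1 hxi (4 * (μ : ℤ) + 5))
      have t5 := Ap.of_U (ε := q ^ n - 1) (DD_U (s := 2) hn hh (cop2 hn) (4 * (μ : ℤ) + 3) (4 * (μ : ℤ) + 5))
      have t := (((t1.mul hx t2).mul hx t3).mul hx t4).mul hx t5
      refine Ap.eqm (t.congr ?_ ?_)
      · unfold v
        rw [prod_range_succ]
        have : ∏ j ∈ range μ, ((4 * (j : ℚ) + 3) / (4 * j + 5)) ≠ 0 := by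
          rw [prod_ne_zero_iff]; intro j _; positivity
        push_cast
        field_simp
        ring
      · push_cast; ring
    rw [V_step hn hh]
    refine ⟨(Loc _).mul_mem m1 (hT.mem (rat_mem _ _)), ?_⟩
    have h5 := m2.mul hT ((Loc _).mul_mem h0 (rat_mem _ _)) (rat_mem _ _)
    have h6 : (v (μ + 1) : ℚ) = v μ * (v (μ + 1) / v μ) := by field_simp [v_ne]
    rw [h6]
    push_cast at h5 ⊢
    convert h5 using 1
    ring

/-- for `n ≡ 3 (mod 4)` the values vanish modulo `Φ_n^2` -/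
lemma V_QO (hn : n = 2 * h + 1) (hh : h % 2 = 1) (μ : ℕ) : QO (cyclotomic n ℚ) 2 (V n h μ) := by
  have hn0 : 0 < n := by omega
  have hp : ∀ J b : ℕ, b < h → g (n * J + (h + (b + 1))) * g (n * J + (h - (b + 1))) ∈ Loc (cyclotomic n ℚ) := by
    intro J b hb
    rw [g_pair hn J hb]
    have h0 : ¬ (n : ℤ) ∣ (2 : ℕ) * ((b : ℤ) + 1) := not_dvd_mul (cop2 hn) (small_not_dvd hn hb)
    have m2 : (PP 2 n (2 * (J : ℤ) + 1) ((b : ℤ) + 1))⁻¹ ∈ Loc (cyclotomic n ℚ) := by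
      unfold PP
      rw [mul_inv]
      refine (Loc _).mul_mem (e_inv hn0 fun h => h0 ?_) (e_inv hn0 fun h => h0 ?_)
      · exact (dvd_add_right (dvd_mul_left _ _)).1 h
      · exact (dvd_sub_right (dvd_mul_left _ _)).1 h
    split_ifs
    · unfold PP; exact (Loc _).mul_mem (e_mem hn0 _) (e_mem hn0 _)
    · exact m2
  have hb : ∀ J : ℕ, (∏ b ∈ range h, (g (n * J + (h + (b + 1))) * g (n * J + (h - (b + 1))))) ∈ Loc (cyclotomic n ℚ) :=
    fun J => (Loc _).prod_mem (fun b hb' => hp J b (mem_range.1 hb'))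
  have hF : QO (cyclotomic n ℚ) 1 (FF (n * (2 * μ + 1))) := by
    induction μ with
    | zero =>
      have h2 := FF_blocks n 1 0
      rw [add_zero, range_zero, prod_empty, mul_one, prod_range_one, g_centre hn, g_mid hn, if_pos (by omega)] at h2
      rw [mul_zero, zero_add, mul_one, h2]
      exact QO.mul_right (QO.mul_right (e_QO hn0 (dvd_mul_left _ _)) (hb 0)) (Loc _).one_mem
    | succ μ ih =>
      rw [FF_step]
      refine QO.mul_right ih ?_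
      rw [g_centre hn, g_centre hn, g_mid hn, g_mid hn, if_neg (by omega), if_pos (by omega), mul_mul_mul_comm]
      refine (Loc _).mul_mem ?_ ((Loc _).mul_mem (hb _) (hb _))
      have h3 := e_ratio (n := n) (s := 1) hn0 one_pos (2 * ((2 * μ + 2 : ℕ) : ℤ) + 1) (d := 2 * ((2 * μ + 1 : ℕ) : ℤ) + 1) (by omega)
      have h4 := h3.mem (rat_mem _ _)
      rw [div_eq_inv_mul] at h4
      simpa using h4
  unfold V
  have hx : QO (cyclotomic n ℚ) 1 (1 - (q ^ n) ^ (2 * (μ : ℤ) + 1)) := by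
    have : 1 - (q ^ n) ^ (2 * (μ : ℤ) + 1) = e ((2 * (μ : ℤ) + 1) * n) := by
      unfold e
      rw [← zpow_natCast q n, ← zpow_mul, mul_comm]
    rw [this]
    exact e_QO hn0 (dvd_mul_left _ _)
  have h5 : (1 + (q ^ n) ^ (2 * (μ : ℤ) + 1)) / (1 + q) ∈ Loc (cyclotomic n ℚ) := by
    rw [div_eq_mul_inv]
    refine (Loc _).mul_mem ((Loc _).add_mem (Loc _).one_mem ?_) (one_add_inv (by omega))
    rw [← zpow_natCast q n, ← zpow_mul]; exact zmem hn0 _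
  have h6 : (q ^ n) ^ (-(μ : ℤ)) ∈ Loc (cyclotomic n ℚ) := by
    rw [← zpow_natCast q n, ← zpow_mul]; exact zmem hn0 _
  exact (QO.mul_left ((Loc _).mul_mem ((Loc _).mul_mem (zmem hn0 _) h6) h5) hx).mul hF

/-- the rational weights -/
def w (μ J : ℕ) : ℚ := wo (2 * (μ : ℤ) + 1) J / we (2 * (μ : ℤ) + 1) J

lemma WW_eqm (hn : n = 2 * h + 1) (μ J : ℕ) {l : ℕ} (hl : l ≤ h) :
    Eqm (cyclotomic n ℚ) 2 (WW 2 n (2 * μ + 1) (n * J + l)) (w μ J) := by
  unfold WW w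
  exact (Po_eqm hn (by norm_num) (cop2 hn) _ J hl).div (by norm_num)
    (Pe_eqm hn (by norm_num) (cop2 hn) _ J (by omega)) (we_ne J)

lemma WW_mem (hn : n = 2 * h + 1) (μ J : ℕ) {l : ℕ} (hl : l < n) :
    WW 2 n (2 * μ + 1) (n * J + l) ∈ Loc (cyclotomic n ℚ) := by
  unfold WW
  rw [div_eq_mul_inv]
  exact (Loc _).mul_mem (Po_mem (by omega) (by norm_num) (cop2 hn) _ _)
    (((Pe_eqm hn (by norm_num) (cop2 hn) _ J hl).inv (we_ne J) (by norm_num)).mem (rat_mem _ _))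

lemma term_mem (hn : n = 2 * h + 1) (J : ℕ) {l : ℕ} (hl : l < n) :
    term (n * J + l) ∈ Loc (cyclotomic n ℚ) ∧ (h < l → QO (cyclotomic n ℚ) 2 (term (n * J + l))) := by
  obtain ⟨h1, h2⟩ := rr_mem (s := 2) hn (by norm_num) (cop2 hn) J hl
  have h3 : q ^ (n * J + l) * ((1 + q ^ (4 * (n * J + l) + 1)) / (1 + q)) ∈ Loc (cyclotomic n ℚ) := by
    rw [div_eq_mul_inv]
    exact (Loc _).mul_mem ((Loc _).pow_mem (q_mem _) _) ((Loc _).mul_mem ((Loc _).add_mem (Loc _).one_mem ((Loc _).pow_mem (q_mem _) _))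
      (one_add_inv (by omega)))
  refine ⟨(Loc _).mul_mem h3 ((Loc _).pow_mem h1 3), fun hl' => ?_⟩
  have h4 := h2 hl'
  unfold term
  rw [show rr 2 (n * J + l) ^ 3 = rr 2 (n * J + l) * rr 2 (n * J + l) * rr 2 (n * J + l) by ring]
  exact QO.mul_left h3 (QO.mul_right (h4.mul h4) h1)

/-- the classical terms -/
def b (J : ℕ) : ℚ := (∏ i ∈ range J, ((2 * (i : ℚ) + 1) / (2 * i + 2))) ^ 3

lemma q_pow_one (N : ℕ) : Eqm (cyclotomic 1 ℚ) 1 (q ^ N) 1 := by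
  have h := (x_props (n := 1) (s := 1) one_pos one_pos).1
  rw [one_mul, pow_one] at h
  have := Eqm.pow (P := cyclotomic 1 ℚ) (k := 1) (x := q) (y := 1) h (Loc _).one_mem N
  rwa [one_pow] at this

lemma term_one (J : ℕ) : Eqm (cyclotomic 1 ℚ) 1 (term J) (b J : ℚ) := by
  unfold term b
  have h1 := (rr_one (s := 2) (by norm_num) J).pow (rat_mem _ _) 3
  have h2 : Eqm (cyclotomic 1 ℚ) 1 ((1 + q ^ (4 * J + 1)) / (1 + q)) 1 := by
    have h3 := (q_pow_one (4 * J + 1)).sub (q_pow_one 1)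
    rw [sub_self, pow_one] at h3
    have h4 := QO.mul_right h3 (one_add_inv (n := 1) (by norm_num))
    unfold Eqm at *
    convert h4 using 1
    have := one_add_ne
    field_simp
    ring
  have h5 := ((q_pow_one J).mul h2 (Loc _).one_mem (Loc _).one_mem).mul h1 (by rw [mul_one]; exact (Loc _).one_mem) ((Loc _).pow_mem (rat_mem _ _) 3)
  push_cast at h5 ⊢
  simpa using h5

lemma classical (μ : ℕ) : ∑ J ∈ range (μ + 1), w μ J * b J = v μ := by
  have h0 := exact 1 μ 0 (by norm_num)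
  rw [one_mul] at h0
  refine eval_one h0 (fun j _ => term_one j) (fun j _ => ?_) ?_
  · have := (WW_eqm (n := 1) (h := 0) (by norm_num) μ j (l := 0) le_rfl).le (show 1 ≤ 2 by norm_num)
    rwa [one_mul, add_zero] at this
  · have h1 := (V_eqm (n := 1) (h := 0) (by norm_num) (by norm_num) μ).2.le (show 1 ≤ 2 by norm_num)
    have h2 : V 1 0 0 = 1 := by
      rw [V_zero (by norm_num) (by norm_num)]
      have := one_add_ne
      unfold DD
      simp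
      exact this
    rwa [h2, one_mul] at h1

/-- the blocks, `n ≡ 1 (mod 4)` -/
theorem blocks (hn : n = 2 * h + 1) (hh : h % 2 = 0) (J : ℕ) :
    Eqm (cyclotomic n ℚ) 2 (∑ l ∈ range n, term (n * J + l)) (V n h 0 * (b J : ℚ)) := by
  refine tri (w := w) (b := b) (v := v) (V := V n h)
    (B := fun J => ∑ l ∈ range n, term (n * J + l)) ?_ classical (fun μ => (V_eqm hn hh μ).2) ?_ J
  · intro μ
    have h1 := block_main (P := cyclotomic n ℚ) (k := 2) (n := n) (term := term) (W := WW 2 n (2 * μ + 1)) (h := h) (μ := μ) (w := w μ)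
      (fun J l hl => (term_mem hn J hl).1) (fun J l hl hl' => (term_mem hn J hl').2 hl)
      (fun J l _ hl => WW_mem hn μ J hl) (fun J l _ hl _ => WW_eqm hn μ J hl)
    rw [exact n μ h hn] at h1
    exact h1.symm
  · intro μ
    unfold w
    exact div_ne_zero (wo_ne (fun i hi => by omega) (by omega)) (we_ne μ)

/-- the blocks, `n ≡ 3 (mod 4)` -/
theorem blocks_zero (hn : n = 2 * h + 1) (hh : h % 2 = 1) (J : ℕ) :
    QO (cyclotomic n ℚ) 2 (∑ l ∈ range n, term (n * J + l)) := by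
  have := tri (P := cyclotomic n ℚ) (k := 2) (C := 0) (w := w) (b := b) (v := v) (V := V n h)
    (B := fun J => ∑ l ∈ range n, term (n * J + l)) ?_ classical (fun μ => by
      unfold Eqm; rw [zero_mul, sub_zero]; exact V_QO hn hh μ) ?_ J
  · unfold Eqm at this
    rwa [zero_mul, sub_zero] at this
  · intro μ
    have h1 := block_main (P := cyclotomic n ℚ) (k := 2) (n := n) (term := term) (W := WW 2 n (2 * μ + 1)) (h := h) (μ := μ) (w := w μ)
      (fun J l hl => (term_mem hn J hl).1) (fun J l hl hl' => (term_mem hn J hl').2 hl)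
      (fun J l _ hl => WW_mem hn μ J hl) (fun J l _ hl _ => WW_eqm hn μ J hl)
    rw [exact n μ h hn] at h1
    exact h1.symm
  · intro μ
    unfold w
    exact div_ne_zero (wo_ne (fun i hi => by omega) (by omega)) (we_ne μ)

end

end Pool.Agent.X14.QLiu
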