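import Pool.Agent.X14.QH1
import Pool.Agent.X14.QLiu

set_option autoImplicit false

/-! Block analysis modulo the cube of a cyclotomic polynomial. -/

namespace Pool.Agent.X14.QBlock

open Finset Polynomial Pool.Agent.X14.QL

noncomputable section

variable {n h : ℕ}

/-- `q^a/(1 - q^a)^2` -/
def gg (a : ℤ) : RatFunc ℚ := q ^ a * ((e a)⁻¹) ^ 2

lemma gg_mem (hn : 0 < n) {a : ℤ} (ha : ¬ (n : ℤ) ∣ a) : gg a ∈ Loc (cyclotomic n ℚ) :=
  (Loc _).mul_mem (zmem hn _) ((Loc _).pow_mem (e_inv hn ha) 2)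

lemma gg_neg (a : ℤ) : gg (-a) = gg a := by
  by_cases h0 : a = 0
  · subst h0; simp
  unfold gg
  rw [e_neg]
  have h1 : q ^ a ≠ 0 := zpow_ne_zero _ q_ne
  have h2 := e_ne h0
  rw [zpow_neg]
  field_simp

/-- `q^{a + cn} ≡ q^a` -/
lemma q_shift (hn : 0 < n) (a c : ℤ) : Eqm (cyclotomic n ℚ) 1 (q ^ (a + c * n)) (q ^ a) := by
  have h1 : QO (cyclotomic n ℚ) 1 (-(q ^ a * e (c * n))) := (QO.mul_left (zmem hn a) (e_QO hn (dvd_mul_left _ _))).neg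
  unfold Eqm
  convert h1 using 1
  unfold e
  rw [zpow_add₀ q_ne]
  ring

lemma e_shift (hn : 0 < n) (a c : ℤ) : Eqm (cyclotomic n ℚ) 1 (e (a + c * n)) (e a) := by
  unfold e
  exact (Eqm.refl 1).sub (q_shift hn a c)

lemma inv_eqm {P : ℚ[X]} {k : ℕ} {x y : RatFunc ℚ} (h : Eqm P k x y) (hx : x⁻¹ ∈ Loc P) (hy : y⁻¹ ∈ Loc P) (hx0 : x ≠ 0) (hy0 : y ≠ 0) :
    Eqm P k x⁻¹ y⁻¹ := by
  have h1 := QO.mul_left ((Loc P).mul_mem hx hy) h.symm
  unfold Eqm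
  convert h1 using 1
  field_simp

lemma gg_shift (hn : 0 < n) {a : ℤ} (c : ℤ) (ha : ¬ (n : ℤ) ∣ a) : Eqm (cyclotomic n ℚ) 1 (gg (a + c * n)) (gg a) := by
  have ha' : ¬ (n : ℤ) ∣ a + c * n := by
    intro h; apply ha
    exact (Int.dvd_add_left (dvd_mul_left _ _)).1 h
  have h0 : a ≠ 0 := fun h => ha (h ▸ dvd_zero _)
  have h0' : a + c * n ≠ 0 := fun h => ha' (h ▸ dvd_zero _)
  unfold gg
  refine (q_shift hn a c).mul ((inv_eqm (e_shift hn a c) (e_inv hn ha') (e_inv hn ha) (e_ne h0') (e_ne h0)).pow (e_inv hn ha) 2)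
    (zmem hn _) ((Loc _).pow_mem (e_inv hn ha) 2)

/-- the deformation factor modulo `Φ^3` -/
lemma rho_three (hn : 0 < n) (M : ℤ) {a : ℤ} (ha : ¬ (n : ℤ) ∣ a) :
    Eqm (cyclotomic n ℚ) 3 (rho 1 n M a) (1 - (M : RatFunc ℚ) ^ 2 * e n ^ 2 * gg a) := by
  have hne : e a ≠ 0 := e_ne (fun h => ha (h ▸ dvd_zero _))
  have hq := q_ne
  obtain ⟨hx, hx0, hx1, hxi⟩ := x_props (n := n) (s := 1) hn one_pos
  have e1 : rho 1 n M a = 1 - q ^ (-(M * n)) * e (M * n) ^ 2 * gg a := by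
    unfold rho gg e
    push_cast
    rw [one_mul, one_mul, one_mul, zpow_add₀ hq, zpow_sub₀ hq, zpow_neg]
    have hx : q ^ (M * (n : ℤ)) ≠ 0 := zpow_ne_zero _ hq
    unfold e at hne
    field_simp
    ring
  have e2 : e (M * n) = e n * Gz (q ^ n) M := by
    have := e_Gz (n := n) (s := 1) hn one_pos M
    push_cast at this
    rw [one_mul, one_mul] at this
    rw [this, e_nat]
  rw [one_mul] at hx hx0 hx1 hxi
  have h1 := Gz_one hx hx0 hx1 hxi M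
  have h2 : Eqm (cyclotomic n ℚ) 1 (q ^ (-(M * n))) 1 := by
    have := q_shift hn 0 (-M)
    rwa [zero_add, zpow_zero, neg_mul] at this
  have h3 : Eqm (cyclotomic n ℚ) 1 (q ^ (-(M * n)) * Gz (q ^ n) M ^ 2) ((M : RatFunc ℚ) ^ 2) := by
    have := h2.mul (h1.pow (rat_mem _ _) 2) (Loc _).one_mem ((Loc _).pow_mem (rat_mem _ _) 2)
    simpa using this
  have h4 : QO (cyclotomic n ℚ) 1 (e n) := e_QO hn (dvd_refl _)
  have h5 : QO (cyclotomic n ℚ) 3 ((e n * e n) * (q ^ (-(M * n)) * Gz (q ^ n) M ^ 2 - (M : RatFunc ℚ) ^ 2)) := (h4.mul h4).mul h3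
  have h6 := (QO.mul_right h5 (gg_mem hn ha)).neg
  unfold Eqm
  convert h6 using 1
  rw [e1, e2]
  ring

/-- the first order corrections -/
def sg (l : ℕ) : RatFunc ℚ := ∑ t ∈ range l, (gg (2 * (t : ℤ) + 1) - gg (2 * (t : ℤ) + 2))

lemma odd_nd (hn : n = 2 * h + 1) {t : ℕ} (ht : t < h) : ¬ (n : ℤ) ∣ 2 * (t : ℤ) + 1 := by
  have := odd_not_dvd hn (i := 0) (t := t) (by omega) (by omega)
  simpa using this

lemma even_nd (hn : n = 2 * h + 1) {t : ℕ} (ht : t < h) : ¬ (n : ℤ) ∣ 2 * (t : ℤ) + 2 := by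
  have := even_not_dvd hn (i := 0) (t := t) (by omega) (by omega)
  simpa using this

lemma sg_mem (hn : n = 2 * h + 1) {l : ℕ} (hl : l ≤ h) : sg l ∈ Loc (cyclotomic n ℚ) := by
  unfold sg
  apply (Loc _).sum_mem
  intro t ht
  have := mem_range.1 ht
  exact (Loc _).sub_mem (gg_mem (by omega) (odd_nd hn (by omega))) (gg_mem (by omega) (even_nd hn (by omega)))

/-- reflection -/
lemma gg_reflect (hn : n = 2 * h + 1) {t : ℕ} (ht : t < h) :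
    Eqm (cyclotomic n ℚ) 1 (gg (2 * ((h - 1 - t : ℕ) : ℤ) + 1)) (gg (2 * (t : ℤ) + 2)) ∧
    Eqm (cyclotomic n ℚ) 1 (gg (2 * ((h - 1 - t : ℕ) : ℤ) + 2)) (gg (2 * (t : ℤ) + 1)) := by
  have hn0 : 0 < n := by omega
  have c1 : 2 * ((h - 1 - t : ℕ) : ℤ) + 1 = -(2 * (t : ℤ) + 2) + 1 * n := by
    rw [Nat.cast_sub (by omega), Nat.cast_sub (by omega), hn]; push_cast; ring
  have c2 : 2 * ((h - 1 - t : ℕ) : ℤ) + 2 = -(2 * (t : ℤ) + 1) + 1 * n := by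
    rw [Nat.cast_sub (by omega), Nat.cast_sub (by omega), hn]; push_cast; ring
  have d1 := even_nd hn ht
  have d2 := odd_nd hn ht
  constructor
  · rw [c1, ← gg_neg (2 * (t : ℤ) + 2)]
    exact gg_shift hn0 1 (by rwa [Int.dvd_neg])
  · rw [c2, ← gg_neg (2 * (t : ℤ) + 1)]
    exact gg_shift hn0 1 (by rwa [Int.dvd_neg])

lemma sg_tail (hn : n = 2 * h + 1) : ∀ l, l ≤ h → Eqm (cyclotomic n ℚ) 1 (sg (h - l)) (sg h + sg l) := by
  intro l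
  induction l with
  | zero =>
    intro _
    have : sg 0 = 0 := by simp [sg]
    rw [this, add_zero, Nat.sub_zero]
    exact Eqm.refl _
  | succ l ih =>
    intro hl
    have h1 := ih (by omega)
    have h2 : sg (h - l) = sg (h - (l + 1)) + (gg (2 * ((h - 1 - l : ℕ) : ℤ) + 1) - gg (2 * ((h - 1 - l : ℕ) : ℤ) + 2)) := by
      have e1 : h - l = (h - (l + 1)) + 1 := by omega
      have e2 : h - 1 - l = h - (l + 1) := by omega
      rw [e2]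
      unfold sg
      rw [e1, sum_range_succ]
    have h3 : sg (l + 1) = sg l + (gg (2 * (l : ℤ) + 1) - gg (2 * (l : ℤ) + 2)) := by
      unfold sg; rw [sum_range_succ]
    obtain ⟨g1, g2⟩ := gg_reflect hn (t := l) (by omega)
    rw [h2] at h1
    have h4 := (h1.sub (g1.sub g2))
    rw [h3]
    convert h4 using 1
    · ring
    · ring

lemma sg_half (hn : n = 2 * h + 1) : QO (cyclotomic n ℚ) 1 (sg h) := by
  have h1 := sg_tail hn h le_rfl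
  rw [Nat.sub_self] at h1
  have h0 : sg 0 = 0 := by simp [sg]
  rw [h0] at h1
  have h2 := QO.mul_left (rat_mem (cyclotomic n ℚ) (1 / 2)) h1.symm
  convert h2 using 1
  push_cast
  ring

/-- the corrections are symmetric -/
lemma sg_sym (hn : n = 2 * h + 1) {l : ℕ} (hl : l ≤ h) : Eqm (cyclotomic n ℚ) 1 (sg (h - l)) (sg l) := by
  have h1 := sg_tail hn l hl
  have h2 := (sg_half hn)
  have h3 : Eqm (cyclotomic n ℚ) 1 (sg h + sg l) (sg l) := by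
    unfold Eqm; rwa [add_sub_cancel_right]
  exact h1.trans h3

lemma WW1_eqm (hn : n = 2 * h + 1) (μ J : ℕ) {l : ℕ} (hl : l ≤ h) :
    Eqm (cyclotomic n ℚ) 2 (WW 1 n (2 * μ + 1) (n * J + l)) (QLiu.w μ J) := by
  unfold WW QLiu.w
  exact (Po_eqm hn one_pos (Nat.coprime_one_left n) _ J hl).div (by norm_num)
    (Pe_eqm hn one_pos (Nat.coprime_one_left n) _ J (by omega)) (we_ne J)

lemma WW1_mem (hn : n = 2 * h + 1) (μ J : ℕ) {l : ℕ} (hl : l < n) :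
    WW 1 n (2 * μ + 1) (n * J + l) ∈ Loc (cyclotomic n ℚ) := by
  unfold WW
  rw [div_eq_mul_inv]
  exact (Loc _).mul_mem (Po_mem (by omega) one_pos (Nat.coprime_one_left n) _ _)
    (((Pe_eqm hn one_pos (Nat.coprime_one_left n) _ J hl).inv (we_ne J) (by norm_num)).mem (rat_mem _ _))

/-- the weights inside a block modulo `Φ^3` -/
lemma WW_three (hn : n = 2 * h + 1) (μ J : ℕ) : ∀ l, l ≤ h →
    Eqm (cyclotomic n ℚ) 3 (WW 1 n (2 * μ + 1) (n * J + l))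
      (WW 1 n (2 * μ + 1) (n * J) * (1 - ((2 * μ + 1 : ℤ) : RatFunc ℚ) ^ 2 * e n ^ 2 * sg l)) := by
  have hn0 : 0 < n := by omega
  intro l
  induction l with
  | zero =>
    intro _
    have : sg 0 = 0 := by simp [sg]
    rw [this, mul_zero, sub_zero, mul_one, add_zero]
    exact Eqm.refl _
  | succ l ih =>
    intro hl
    have h1 := ih (by omega)
    set X : RatFunc ℚ := ((2 * μ + 1 : ℤ) : RatFunc ℚ) ^ 2 * e n ^ 2 with hX
    have he : QO (cyclotomic n ℚ) 1 (e n) := e_QO hn0 (dvd_refl _)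
    have hX2 : QO (cyclotomic n ℚ) 2 X := by
      have := QO.mul_left ((Loc (cyclotomic n ℚ)).pow_mem (int_mem _ (2 * μ + 1)) 2) (he.mul he)
      rw [hX, pow_two (e n)]
      exact this
    have d1 : ¬ (n : ℤ) ∣ 2 * (l : ℤ) + 1 := odd_nd hn (by omega)
    have d2 : ¬ (n : ℤ) ∣ 2 * (l : ℤ) + 2 := even_nd hn (by omega)
    have c1 : 2 * ((n * J + l : ℕ) : ℤ) + 1 = (2 * (l : ℤ) + 1) + (2 * J : ℤ) * n := by push_cast; ring
    have c2 : 2 * ((n * J + l : ℕ) : ℤ) + 2 = (2 * (l : ℤ) + 2) + (2 * J : ℤ) * n := by push_cast; ring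
    have d1' : ¬ (n : ℤ) ∣ 2 * ((n * J + l : ℕ) : ℤ) + 1 := odd_not_dvd hn (by omega) (by omega)
    have d2' : ¬ (n : ℤ) ∣ 2 * ((n * J + l : ℕ) : ℤ) + 2 := even_not_dvd hn (by omega) (by omega)
    have r1 : Eqm (cyclotomic n ℚ) 3 (rho 1 n (2 * μ + 1) (2 * ((n * J + l : ℕ) : ℤ) + 1)) (1 - X * gg (2 * (l : ℤ) + 1)) := by
      have a1 := rho_three hn0 (2 * μ + 1) d1'
      have a2 : Eqm (cyclotomic n ℚ) 1 (gg (2 * ((n * J + l : ℕ) : ℤ) + 1)) (gg (2 * (l : ℤ) + 1)) := by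
        rw [c1]; exact gg_shift hn0 _ d1
      have a3 : QO (cyclotomic n ℚ) 3 (-(X * (gg (2 * ((n * J + l : ℕ) : ℤ) + 1) - gg (2 * (l : ℤ) + 1)))) := (hX2.mul a2).neg
      refine a1.trans ?_
      unfold Eqm
      convert a3 using 1
      rw [← hX]; ring
    have r2 : Eqm (cyclotomic n ℚ) 3 (rho 1 n (2 * μ + 1) (2 * ((n * J + l : ℕ) : ℤ) + 2)) (1 - X * gg (2 * (l : ℤ) + 2)) := by
      have a1 := rho_three hn0 (2 * μ + 1) d2'
      have a2 : Eqm (cyclotomic n ℚ) 1 (gg (2 * ((n * J + l : ℕ) : ℤ) + 2)) (gg (2 * (l : ℤ) + 2)) := by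
        rw [c2]; exact gg_shift hn0 _ d2
      have a3 : QO (cyclotomic n ℚ) 3 (-(X * (gg (2 * ((n * J + l : ℕ) : ℤ) + 2) - gg (2 * (l : ℤ) + 2)))) := (hX2.mul a2).neg
      refine a1.trans ?_
      unfold Eqm
      convert a3 using 1
      rw [← hX]; ring
    have m1 := gg_mem hn0 d1
    have m2 := gg_mem hn0 d2
    have u2 := rho_U hn0 (Nat.coprime_one_left n) (2 * μ + 1) d2'
    have i2 : (rho 1 n (2 * μ + 1) (2 * ((n * J + l : ℕ) : ℤ) + 2))⁻¹ ∈ Loc (cyclotomic n ℚ) := (u2.inv (by norm_num)).mem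
    have n2 : rho 1 n (2 * μ + 1) (2 * ((n * J + l : ℕ) : ℤ) + 2) ≠ 0 := by
      intro h0
      unfold U at u2
      rw [h0, zero_sub] at u2
      have h3 := (u2.neg).le (show 1 ≤ 2 by norm_num)
      rw [neg_neg] at h3
      rcases Nat.lt_or_ge 1 n with h4 | h4
      · have h5 := h3.num_denom.1
        rw [RatFunc.num_one, pow_one] at h5
        exact (cyclotomic.irreducible_rat hn0).not_isUnit (isUnit_of_dvd_one h5)
      · have h5 := h3.num_denom.1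
        rw [RatFunc.num_one, pow_one] at h5
        exact (cyclotomic.irreducible_rat hn0).not_isUnit (isUnit_of_dvd_one h5)
    set ro := rho 1 n (2 * μ + 1) (2 * ((n * J + l : ℕ) : ℤ) + 1) with hro
    set re := rho 1 n (2 * μ + 1) (2 * ((n * J + l : ℕ) : ℤ) + 2) with hre
    set go := gg (2 * (l : ℤ) + 1) with hgo
    set ge := gg (2 * (l : ℤ) + 2) with hge
    have r3 : Eqm (cyclotomic n ℚ) 3 (ro / re) (1 - X * (go - ge)) := by
      have a1 : QO (cyclotomic n ℚ) 3 (ro - re * (1 - X * (go - ge))) := by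
        have b1 : QO (cyclotomic n ℚ) 3 ((re - (1 - X * ge)) * (1 - X * (go - ge))) :=
          QO.mul_right r2 ((Loc _).sub_mem (Loc _).one_mem ((Loc _).mul_mem hX2.mem ((Loc _).sub_mem m1 m2)))
        have b2 : QO (cyclotomic n ℚ) 3 ((X * X) * (ge * (go - ge))) :=
          (QO.mul_right (hX2.mul hX2) ((Loc _).mul_mem m2 ((Loc _).sub_mem m1 m2))).le (by norm_num)
        have b3 := ((show QO (cyclotomic n ℚ) 3 (ro - (1 - X * go)) from r1).sub b1).sub b2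
        convert b3 using 1
        ring
      have a2 := QO.mul_right a1 i2
      unfold Eqm
      convert a2 using 1
      field_simp
    have g1 : WW 1 n (2 * μ + 1) (n * J + (l + 1)) = WW 1 n (2 * μ + 1) (n * J + l) * (ro / re) := by
      rw [← add_assoc]
      unfold WW Po Pe
      rw [prod_range_succ, prod_range_succ, mul_div_mul_comm]
    have g2 : sg (l + 1) = sg l + (go - ge) := by unfold sg; rw [sum_range_succ]
    have mW : WW 1 n (2 * μ + 1) (n * J) ∈ Loc (cyclotomic n ℚ) := by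
      have := WW1_mem hn μ J (l := 0) (by omega)
      rwa [add_zero] at this
    have mS := sg_mem hn (l := l) (by omega)
    have f1 := h1.mul r3 ((Loc _).mul_mem mW ((Loc _).sub_mem (Loc _).one_mem ((Loc _).mul_mem hX2.mem mS)))
      ((Loc _).sub_mem (Loc _).one_mem ((Loc _).mul_mem hX2.mem ((Loc _).sub_mem m1 m2)))
    rw [g1, g2]
    refine f1.trans ?_
    have f2 : QO (cyclotomic n ℚ) 3 ((X * X) * (WW 1 n (2 * μ + 1) (n * J) * (sg l * (go - ge)))) :=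
      (QO.mul_right (hX2.mul hX2) ((Loc _).mul_mem mW ((Loc _).mul_mem mS ((Loc _).sub_mem m1 m2)))).le (by norm_num)
    unfold Eqm
    convert f2 using 1
    ring

/-- an antisymmetric sum vanishes modulo `Φ` -/
lemma anti_sum {P : ℚ[X]} {f : ℕ → RatFunc ℚ} {h : ℕ} (hf : ∀ l, l ≤ h → Eqm P 1 (f (h - l)) (-f l)) :
    QO P 1 (∑ l ∈ range (h + 1), f l) := by
  have h1 : Eqm P 1 (∑ l ∈ range (h + 1), f (h - l)) (∑ l ∈ range (h + 1), -f l) :=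
    Eqm.sum (fun l hl => hf l (by have := mem_range.1 hl; omega))
  have h2 : ∑ l ∈ range (h + 1), f (h - l) = ∑ l ∈ range (h + 1), f l := by
    have := sum_range_reflect f (h + 1)
    simpa using this
  rw [h2, sum_neg_distrib] at h1
  have h3 := QO.mul_left (rat_mem P (1 / 2)) h1
  convert h3 using 1
  push_cast
  ring

/-- ratio of consecutive terms -/
def f5 (k : ℕ) : RatFunc ℚ := -q * (e ((1 : ℕ) * (2 * (k : ℤ) + 1)) / e ((1 : ℕ) * (2 * (k : ℤ) + 2))) ^ 4 *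
  (e ((2 : ℕ) * (2 * (k : ℤ) + 1)) / e ((2 : ℕ) * (2 * (k : ℤ) + 2)))

lemma T5_succ (k : ℕ) : T5 (k + 1) = T5 k * f5 k := by
  have g2 : ∀ s : ℕ, rr s (k + 1) = rr s k * (e (s * (2 * (k : ℤ) + 1)) / e (s * (2 * (k : ℤ) + 2))) := by
    intro s; unfold rr; rw [prod_range_succ]
  unfold T5 f5
  rw [g2, g2, pow_succ, pow_succ, mul_pow]
  ring

/-- ratios of units modulo `Φ` -/
lemma rat_shift {s : ℕ} (hn : n = 2 * h + 1) (hs : 0 < s) (hsn : Nat.Coprime s n) (J : ℕ) {t : ℕ} (ht : t < h) :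
    Eqm (cyclotomic n ℚ) 1 (e (s * (2 * ((n * J + t : ℕ) : ℤ) + 1)) / e (s * (2 * ((n * J + t : ℕ) : ℤ) + 2)))
      (e (s * (2 * (t : ℤ) + 1)) / e (s * (2 * (t : ℤ) + 2))) := by
  have hn0 : 0 < n := by omega
  have c1 : (s : ℤ) * (2 * ((n * J + t : ℕ) : ℤ) + 1) = s * (2 * (t : ℤ) + 1) + (s * (2 * J) : ℤ) * n := by push_cast; ring
  have c2 : (s : ℤ) * (2 * ((n * J + t : ℕ) : ℤ) + 2) = s * (2 * (t : ℤ) + 2) + (s * (2 * J) : ℤ) * n := by push_cast; ring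
  have d2 : ¬ (n : ℤ) ∣ s * (2 * (t : ℤ) + 2) := not_dvd_mul hsn (even_nd hn ht)
  have d2' : ¬ (n : ℤ) ∣ s * (2 * ((n * J + t : ℕ) : ℤ) + 2) := not_dvd_mul hsn (even_not_dvd hn (by omega) (by omega))
  have n2 : e (s * (2 * (t : ℤ) + 2)) ≠ 0 := e_ne (fun h0 => d2 (h0 ▸ dvd_zero _))
  have n2' : e (s * (2 * ((n * J + t : ℕ) : ℤ) + 2)) ≠ 0 := e_ne (fun h0 => d2' (h0 ▸ dvd_zero _))
  rw [div_eq_mul_inv, div_eq_mul_inv]
  have a1 : Eqm (cyclotomic n ℚ) 1 (e (s * (2 * ((n * J + t : ℕ) : ℤ) + 1))) (e (s * (2 * (t : ℤ) + 1))) := by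
    rw [c1]; exact e_shift hn0 _ _
  have a2 : Eqm (cyclotomic n ℚ) 1 (e (s * (2 * ((n * J + t : ℕ) : ℤ) + 2))) (e (s * (2 * (t : ℤ) + 2))) := by
    rw [c2]; exact e_shift hn0 _ _
  exact a1.mul (inv_eqm a2 (e_inv hn0 d2') (e_inv hn0 d2) n2' n2) (e_mem hn0 _) (e_inv hn0 d2)

lemma rat_memb {s : ℕ} (hn : n = 2 * h + 1) (hsn : Nat.Coprime s n) {t : ℕ} (ht : t < h) :
    e (s * (2 * (t : ℤ) + 1)) / e (s * (2 * (t : ℤ) + 2)) ∈ Loc (cyclotomic n ℚ) := by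
  have hn0 : 0 < n := by omega
  rw [div_eq_mul_inv]
  exact (Loc _).mul_mem (e_mem hn0 _) (e_inv hn0 (not_dvd_mul hsn (even_nd hn ht)))

lemma rat_reflect {s : ℕ} (hn : n = 2 * h + 1) (hs : 0 < s) (hsn : Nat.Coprime s n) {t : ℕ} (ht : t < h) :
    Eqm (cyclotomic n ℚ) 1 (e (s * (2 * ((h - 1 - t : ℕ) : ℤ) + 1)) / e (s * (2 * ((h - 1 - t : ℕ) : ℤ) + 2)))
      ((q ^ (s : ℤ))⁻¹ * (e (s * (2 * (t : ℤ) + 2)) / e (s * (2 * (t : ℤ) + 1)))) := by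
  have hn0 : 0 < n := by omega
  have hq := q_ne
  have c1 : (s : ℤ) * (2 * ((h - 1 - t : ℕ) : ℤ) + 1) = -(s * (2 * (t : ℤ) + 2)) + (s : ℤ) * n := by
    rw [Nat.cast_sub (by omega), Nat.cast_sub (by omega), hn]; push_cast; ring
  have c2 : (s : ℤ) * (2 * ((h - 1 - t : ℕ) : ℤ) + 2) = -(s * (2 * (t : ℤ) + 1)) + (s : ℤ) * n := by
    rw [Nat.cast_sub (by omega), Nat.cast_sub (by omega), hn]; push_cast; ring
  have d1 : ¬ (n : ℤ) ∣ s * (2 * (t : ℤ) + 1) := not_dvd_mul hsn (odd_nd hn ht)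
  have d1' : ¬ (n : ℤ) ∣ -(s * (2 * (t : ℤ) + 1)) := by rwa [Int.dvd_neg]
  have d1'' : ¬ (n : ℤ) ∣ s * (2 * ((h - 1 - t : ℕ) : ℤ) + 2) := by
    rw [c2]; intro h0; exact d1' ((Int.dvd_add_left (dvd_mul_left _ _)).1 h0)
  have n1 : e (s * (2 * (t : ℤ) + 1)) ≠ 0 := e_ne (fun h0 => d1 (h0 ▸ dvd_zero _))
  have n1' : e (-(s * (2 * (t : ℤ) + 1))) ≠ 0 := e_ne (fun h0 => d1' (h0 ▸ dvd_zero _))
  have n1'' : e (s * (2 * ((h - 1 - t : ℕ) : ℤ) + 2)) ≠ 0 := e_ne (fun h0 => d1'' (h0 ▸ dvd_zero _))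
  have a1 : Eqm (cyclotomic n ℚ) 1 (e (s * (2 * ((h - 1 - t : ℕ) : ℤ) + 1))) (e (-(s * (2 * (t : ℤ) + 2)))) := by
    rw [c1]; exact e_shift hn0 _ _
  have a2 : Eqm (cyclotomic n ℚ) 1 (e (s * (2 * ((h - 1 - t : ℕ) : ℤ) + 2))) (e (-(s * (2 * (t : ℤ) + 1)))) := by
    rw [c2]; exact e_shift hn0 _ _
  have a3 := a1.mul (inv_eqm a2 (e_inv hn0 d1'') (e_inv hn0 d1') n1'' n1') (e_mem hn0 _) (e_inv hn0 d1')
  rw [div_eq_mul_inv]
  convert a3 using 1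
  rw [e_neg, e_neg]
  have e1 : q ^ ((s : ℤ) * (2 * (t : ℤ) + 2)) = q ^ (s : ℤ) * q ^ ((s : ℤ) * (2 * (t : ℤ) + 1)) := by
    rw [← zpow_add₀ hq]; congr 1; ring
  have z1 : q ^ (s : ℤ) ≠ 0 := zpow_ne_zero _ hq
  have z2 : q ^ ((s : ℤ) * (2 * (t : ℤ) + 1)) ≠ 0 := zpow_ne_zero _ hq
  rw [e1]
  field_simp

lemma f5_shift (hn : n = 2 * h + 1) (J : ℕ) {t : ℕ} (ht : t < h) : Eqm (cyclotomic n ℚ) 1 (f5 (n * J + t)) (f5 t) := by
  have a1 := rat_shift (s := 1) hn one_pos (Nat.coprime_one_left n) J ht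
  have a2 := rat_shift (s := 2) hn (by norm_num) (QLiu.cop2 hn) J ht
  have m1 := rat_memb (s := 1) hn (Nat.coprime_one_left n) ht
  have m2 := rat_memb (s := 2) hn (QLiu.cop2 hn) ht
  unfold f5
  have mq : -q ∈ Loc (cyclotomic n ℚ) := (Loc _).neg_mem (q_mem _)
  exact ((Eqm.refl (-q)).mul (a1.pow m1 4) mq ((Loc _).pow_mem m1 4)).mul a2 ((Loc _).mul_mem mq ((Loc _).pow_mem m1 4)) m2

lemma f5_mem (hn : n = 2 * h + 1) {t : ℕ} (ht : t < h) : f5 t ∈ Loc (cyclotomic n ℚ) := by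
  have m1 := rat_memb (s := 1) hn (Nat.coprime_one_left n) ht
  have m2 := rat_memb (s := 2) hn (QLiu.cop2 hn) ht
  unfold f5
  exact (Loc _).mul_mem ((Loc _).mul_mem ((Loc _).neg_mem (q_mem _)) ((Loc _).pow_mem m1 4)) m2

lemma f5_reflect (hn : n = 2 * h + 1) {t : ℕ} (ht : t < h) :
    Eqm (cyclotomic n ℚ) 1 (f5 t * f5 (h - 1 - t)) ((q ^ 4)⁻¹) := by
  have hn0 : 0 < n := by omega
  have hq := q_ne
  have a1 := rat_reflect (s := 1) hn one_pos (Nat.coprime_one_left n) ht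
  have a2 := rat_reflect (s := 2) hn (by norm_num) (QLiu.cop2 hn) ht
  have d1 : ¬ (n : ℤ) ∣ ((1 : ℕ) : ℤ) * (2 * (t : ℤ) + 1) := not_dvd_mul (Nat.coprime_one_left n) (odd_nd hn ht)
  have d2 : ¬ (n : ℤ) ∣ ((2 : ℕ) : ℤ) * (2 * (t : ℤ) + 1) := not_dvd_mul (QLiu.cop2 hn) (odd_nd hn ht)
  have zi : ∀ z : ℤ, (q ^ z)⁻¹ ∈ Loc (cyclotomic n ℚ) := fun z => by rw [← zpow_neg]; exact zmem hn0 _
  have m1 : (q ^ (((1 : ℕ) : ℤ)))⁻¹ * (e ((1 : ℕ) * (2 * (t : ℤ) + 2)) / e ((1 : ℕ) * (2 * (t : ℤ) + 1))) ∈ Loc (cyclotomic n ℚ) := by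
    rw [div_eq_mul_inv]
    exact (Loc _).mul_mem (zi _) ((Loc _).mul_mem (e_mem hn0 _) (e_inv hn0 d1))
  have m2 : (q ^ (((2 : ℕ) : ℤ)))⁻¹ * (e ((2 : ℕ) * (2 * (t : ℤ) + 2)) / e ((2 : ℕ) * (2 * (t : ℤ) + 1))) ∈ Loc (cyclotomic n ℚ) := by
    rw [div_eq_mul_inv]
    exact (Loc _).mul_mem (zi _) ((Loc _).mul_mem (e_mem hn0 _) (e_inv hn0 d2))
  have mq : -q ∈ Loc (cyclotomic n ℚ) := (Loc _).neg_mem (q_mem _)
  have a3 := ((Eqm.refl (P := cyclotomic n ℚ) (k := 1) (-q)).mul (a1.pow m1 4) mq ((Loc _).pow_mem m1 4)).mul a2 ((Loc _).mul_mem mq ((Loc _).pow_mem m1 4)) m2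
  have a4 := Eqm.mul_left (f5_mem hn ht) a3
  have e1 : f5 (h - 1 - t) = -q * (e ((1 : ℕ) * (2 * ((h - 1 - t : ℕ) : ℤ) + 1)) / e ((1 : ℕ) * (2 * ((h - 1 - t : ℕ) : ℤ) + 2))) ^ 4 *
      (e ((2 : ℕ) * (2 * ((h - 1 - t : ℕ) : ℤ) + 1)) / e ((2 : ℕ) * (2 * ((h - 1 - t : ℕ) : ℤ) + 2))) := rfl
  rw [e1]
  convert a4 using 1
  unfold f5
  have n1 : e ((1 : ℕ) * (2 * (t : ℤ) + 1)) ≠ 0 := e_ne (fun h0 => d1 (h0 ▸ dvd_zero _))
  have n2 : e ((1 : ℕ) * (2 * (t : ℤ) + 2)) ≠ 0 := e_ne (by push_cast; omega)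
  have n3 : e ((2 : ℕ) * (2 * (t : ℤ) + 1)) ≠ 0 := e_ne (fun h0 => d2 (h0 ▸ dvd_zero _))
  have n4 : e ((2 : ℕ) * (2 * (t : ℤ) + 2)) ≠ 0 := e_ne (by push_cast; omega)
  rw [zpow_natCast, zpow_natCast]
  generalize e ((1 : ℕ) * (2 * (t : ℤ) + 1)) = a1 at *
  generalize e ((1 : ℕ) * (2 * (t : ℤ) + 2)) = a2 at *
  generalize e ((2 : ℕ) * (2 * (t : ℤ) + 1)) = a3 at *
  generalize e ((2 : ℕ) * (2 * (t : ℤ) + 2)) = a4 at *
  field_simp

end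

end Pool.Agent.X14.QBlock
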