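import Pool.Agent.X14.QH2
import Pool.Agent.Results.MP_c25fd9_nt.AllOneModFour

set_option autoImplicit false

/-! Block sums modulo the cube of a cyclotomic polynomial. -/

namespace Pool.Agent.X14.QBlock

open Finset Polynomial Pool.Agent.X14.QL
open Pool.Agent.Results.MP_c25fd9_nt

noncomputable section

variable {n h : ℕ}

/-- products of the ratios -/
def U5 (l : ℕ) : RatFunc ℚ := ∏ t ∈ range l, f5 t

lemma U5_mem (hn : n = 2 * h + 1) {l : ℕ} (hl : l ≤ h) : U5 l ∈ Loc (cyclotomic n ℚ) :=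
  (Loc _).prod_mem (fun t ht => f5_mem hn (by have := mem_range.1 ht; omega))

lemma T5_mem (hn : n = 2 * h + 1) (J : ℕ) {l : ℕ} (hl : l < n) :
    T5 (n * J + l) ∈ Loc (cyclotomic n ℚ) ∧ (h < l → QO (cyclotomic n ℚ) 4 (T5 (n * J + l))) := by
  obtain ⟨h1, h2⟩ := rr_mem (s := 1) hn one_pos (Nat.coprime_one_left n) J hl
  obtain ⟨h3, h4⟩ := rr_mem (s := 2) hn (by norm_num) (QLiu.cop2 hn) J hl
  have hm : (-1 : RatFunc ℚ) ^ (n * J + l) * q ^ (n * J + l) ∈ Loc (cyclotomic n ℚ) :=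
    (Loc _).mul_mem ((Loc _).pow_mem ((Loc _).neg_mem (Loc _).one_mem) _) ((Loc _).pow_mem (q_mem _) _)
  refine ⟨(Loc _).mul_mem hm ((Loc _).mul_mem ((Loc _).pow_mem h1 4) h3), fun hl' => ?_⟩
  unfold T5
  have h5 : QO (cyclotomic n ℚ) 4 (rr 1 (n * J + l) ^ 4) := by
    have := ((h2 hl').mul (h2 hl')).mul ((h2 hl').mul (h2 hl'))
    convert this using 1
    ring
  exact QO.mul_left hm (QO.mul_right h5 h3)

lemma T5_block (hn : n = 2 * h + 1) (J : ℕ) : ∀ l, l ≤ h → Eqm (cyclotomic n ℚ) 1 (T5 (n * J + l)) (T5 (n * J) * U5 l) := by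
  intro l
  induction l with
  | zero => intro _; simpa [U5] using Eqm.refl _
  | succ l ih =>
    intro hl
    have h1 := ih (by omega)
    have m0 : T5 (n * J) ∈ Loc (cyclotomic n ℚ) := by
      have := (T5_mem hn J (l := 0) (by omega)).1
      rwa [add_zero] at this
    rw [← add_assoc, T5_succ]
    have h2 := h1.mul (f5_shift hn J (t := l) (by omega)) ((Loc _).mul_mem m0 (U5_mem hn (by omega))) (f5_mem hn (by omega))
    convert h2 using 1
    unfold U5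
    rw [prod_range_succ]; ring

lemma U5_half (hn : n = 2 * h + 1) (hh : h % 2 = 0) : Eqm (cyclotomic n ℚ) 1 (U5 h) (q ^ (-(2 * h) : ℤ)) := by
  have hn0 : 0 < n := by omega
  obtain ⟨g, hg⟩ : ∃ g, h = g + g := ⟨h / 2, by omega⟩
  have e1 : U5 h = ∏ t ∈ range g, (f5 t * f5 (h - 1 - t)) := by
    unfold U5
    conv_lhs => rw [hg]
    rw [prod_range_add, prod_mul_distrib]
    congr 1
    rw [← prod_range_reflect]
    apply prod_congr rfl
    intro t ht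
    have := mem_range.1 ht
    congr 1
    omega
  rw [e1]
  have m4 : (q ^ 4)⁻¹ ∈ Loc (cyclotomic n ℚ) := by
    have := zmem hn0 (-4)
    rwa [zpow_neg, show (4 : ℤ) = ((4 : ℕ) : ℤ) by norm_num, zpow_natCast] at this
  have h2 := Eqm.prod (P := cyclotomic n ℚ) (k := 1) (s := range g) (f := fun t => f5 t * f5 (h - 1 - t)) (g := fun _ => (q ^ 4)⁻¹)
    (fun t ht => f5_reflect hn (by have := mem_range.1 ht; omega)) (fun _ _ => m4)
  convert h2 using 1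
  rw [prod_const, card_range, ← inv_pow, ← pow_mul, zpow_neg, inv_pow]
  congr 1
  rw [← zpow_natCast]
  congr 1
  rw [hg]; push_cast; ring

lemma U5_reflect (hn : n = 2 * h + 1) (hh : h % 2 = 0) : ∀ l, l ≤ h →
    Eqm (cyclotomic n ℚ) 1 (U5 l) (q ^ (2 * (h : ℤ) - 4 * l) * U5 (h - l)) := by
  have hn0 : 0 < n := by omega
  have hq := q_ne
  intro l
  induction l with
  | zero =>
    intro _
    rw [Nat.sub_zero]
    have h1 := (Eqm.mul_left (zmem hn0 (2 * (h : ℤ) - 4 * (0 : ℕ))) (U5_half hn hh)).symm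
    convert h1 using 1
    rw [← zpow_add₀ hq]
    have : 2 * (h : ℤ) - 4 * ((0 : ℕ) : ℤ) + -(2 * h) = 0 := by push_cast; ring
    rw [this, zpow_zero]
    simp [U5]
  | succ l ih =>
    intro hl
    have h1 := ih (by omega)
    have e1 : U5 (l + 1) = U5 l * f5 l := by unfold U5; rw [prod_range_succ]
    have e2 : U5 (h - l) = U5 (h - (l + 1)) * f5 (h - 1 - l) := by
      have a1 : h - l = (h - (l + 1)) + 1 := by omega
      have a2 : h - 1 - l = h - (l + 1) := by omega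
      rw [a2]
      unfold U5
      rw [a1, prod_range_succ]
    rw [e1]
    have h2 := h1.mul (Eqm.refl (f5 l)) ((Loc _).mul_mem (zmem hn0 _) (U5_mem hn (by omega))) (f5_mem hn (by omega))
    refine h2.trans ?_
    have h3 := Eqm.mul_left ((Loc _).mul_mem (zmem hn0 (2 * (h : ℤ) - 4 * l)) (U5_mem hn (l := h - (l + 1)) (by omega))) (f5_reflect hn (t := l) (by omega))
    rw [e2]
    convert h3 using 1
    · ring
    · have : q ^ (2 * (h : ℤ) - 4 * l) = q ^ (2 * (h : ℤ) - 4 * ((l + 1 : ℕ) : ℤ)) * q ^ 4 := by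
        rw [← zpow_natCast q 4, ← zpow_add₀ hq]; congr 1; push_cast; ring
      rw [this]
      have := pow_ne_zero 4 hq
      field_simp

/-- the terms -/
def tt (k : ℕ) : RatFunc ℚ := e (4 * (k : ℤ) + 1) * T5 k

lemma tt_anti (hn : n = 2 * h + 1) (hh : h % 2 = 0) (J : ℕ) {l : ℕ} (hl : l ≤ h) :
    Eqm (cyclotomic n ℚ) 1 (tt (n * J + (h - l))) (-tt (n * J + l)) := by
  have hn0 : 0 < n := by omega
  have hq := q_ne
  have m0 : T5 (n * J) ∈ Loc (cyclotomic n ℚ) := by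
    have := (T5_mem hn J (l := 0) (by omega)).1
    rwa [add_zero] at this
  have mU := U5_mem hn (l := h - l) (by omega)
  have mU' := U5_mem hn (l := l) hl
  unfold tt
  -- left side
  have c1 : 4 * ((n * J + (h - l) : ℕ) : ℤ) + 1 = -(4 * (l : ℤ) + 1) + (4 * J + 2 : ℤ) * n := by
    push_cast [Nat.cast_sub hl]; rw [hn]; push_cast; ring
  have c2 : 4 * ((n * J + l : ℕ) : ℤ) + 1 = (4 * (l : ℤ) + 1) + (4 * J : ℤ) * n := by push_cast; ring
  have a1 : Eqm (cyclotomic n ℚ) 1 (e (4 * ((n * J + (h - l) : ℕ) : ℤ) + 1)) (e (-(4 * (l : ℤ) + 1))) := by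
    rw [c1]; exact e_shift hn0 _ _
  have a2 : Eqm (cyclotomic n ℚ) 1 (e (4 * ((n * J + l : ℕ) : ℤ) + 1)) (e (4 * (l : ℤ) + 1)) := by
    rw [c2]; exact e_shift hn0 _ _
  have b1 := a1.mul (T5_block hn J (h - l) (by omega)) (e_mem hn0 _) ((Loc _).mul_mem m0 mU)
  have b2 := (a2.mul (T5_block hn J l hl) (e_mem hn0 _) ((Loc _).mul_mem m0 mU')).trans
    (Eqm.mul_left (e_mem hn0 _) (Eqm.mul_left m0 (U5_reflect hn hh l hl)))
  refine b1.trans (Eqm.symm ?_)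
  refine b2.neg.trans ?_
  have b3 : Eqm (cyclotomic n ℚ) 1 (q ^ (2 * (h : ℤ) - 4 * l)) (q ^ (-(4 * (l : ℤ) + 1))) := by
    have := q_shift hn0 (-(4 * (l : ℤ) + 1)) 1
    rwa [show -(4 * (l : ℤ) + 1) + 1 * n = 2 * (h : ℤ) - 4 * l by rw [hn]; push_cast; ring] at this
  have b4 := Eqm.mul_left ((Loc _).neg_mem ((Loc _).mul_mem (e_mem hn0 (4 * (l : ℤ) + 1)) ((Loc _).mul_mem m0 mU))) b3
  convert b4 using 1
  · ring
  · rw [e_neg, zpow_neg]
    have : q ^ (4 * (l : ℤ) + 1) ≠ 0 := zpow_ne_zero _ hq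
    field_simp

/-- the block sums vanish modulo `Φ` -/
lemma BB_QO (hn : n = 2 * h + 1) (hh : h % 2 = 0) (J : ℕ) : QO (cyclotomic n ℚ) 1 (∑ l ∈ range (h + 1), tt (n * J + l)) :=
  anti_sum (fun _ hl => tt_anti hn hh J hl)

lemma CC_QO (hn : n = 2 * h + 1) (hh : h % 2 = 0) (J : ℕ) : QO (cyclotomic n ℚ) 1 (∑ l ∈ range (h + 1), tt (n * J + l) * sg l) := by
  have hn0 : 0 < n := by omega
  apply anti_sum
  intro l hl
  have m1 : tt (n * J + l) ∈ Loc (cyclotomic n ℚ) := (Loc _).mul_mem (e_mem hn0 _) (T5_mem hn J (by omega)).1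
  have h1 := (tt_anti hn hh J hl).mul (sg_sym hn hl) ((Loc _).neg_mem m1) (sg_mem hn hl)
  convert h1 using 1
  ring

lemma tt_mem (hn : n = 2 * h + 1) (J : ℕ) {l : ℕ} (hl : l < n) :
    tt (n * J + l) ∈ Loc (cyclotomic n ℚ) ∧ (h < l → QO (cyclotomic n ℚ) 3 (tt (n * J + l))) := by
  have hn0 : 0 < n := by omega
  obtain ⟨h1, h2⟩ := T5_mem hn J hl
  exact ⟨(Loc _).mul_mem (e_mem hn0 _) h1, fun hl' => (QO.mul_left (e_mem hn0 _) (h2 hl')).le (by norm_num)⟩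

/-- the sum over the blocks modulo `Φ^3` -/
lemma main3 (hn : n = 2 * h + 1) (hh : h % 2 = 0) (μ : ℕ) :
    Eqm (cyclotomic n ℚ) 3 (∑ k ∈ range (n * (μ + 1)), e (4 * (k : ℤ) + 1) * (T5 k * WW 1 n (2 * μ + 1) k))
      (∑ J ∈ range (μ + 1), (QLiu.w μ J : RatFunc ℚ) * ∑ l ∈ range n, tt (n * J + l)) := by
  have hn0 : 0 < n := by omega
  rw [sum_range_blocks]
  apply Eqm.sum
  intro J hJ
  have hsplit : ∀ f : ℕ → RatFunc ℚ, ∑ l ∈ range n, f l = ∑ l ∈ range (h + 1), f l + ∑ l ∈ range h, f (h + 1 + l) := by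
    intro f
    rw [← sum_range_add]; congr 2; omega
  have mW : WW 1 n (2 * μ + 1) (n * J) ∈ Loc (cyclotomic n ℚ) := by
    have := WW1_mem hn μ J (l := 0) (by omega)
    rwa [add_zero] at this
  have hW2 : Eqm (cyclotomic n ℚ) 2 (WW 1 n (2 * μ + 1) (n * J)) (QLiu.w μ J) := by
    have := WW1_eqm hn μ J (l := 0) (by omega)
    rwa [add_zero] at this
  set M : RatFunc ℚ := ((2 * μ + 1 : ℤ) : RatFunc ℚ) with hM
  have mM : M ∈ Loc (cyclotomic n ℚ) := int_mem _ _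
  have he : QO (cyclotomic n ℚ) 1 (e n) := e_QO hn0 (dvd_refl _)
  rw [hsplit, hsplit (fun l => tt (n * J + l))]
  have t1 : QO (cyclotomic n ℚ) 3 (∑ l ∈ range h, e (4 * ((n * J + (h + 1 + l) : ℕ) : ℤ) + 1) * (T5 (n * J + (h + 1 + l)) * WW 1 n (2 * μ + 1) (n * J + (h + 1 + l)))) := by
    apply QO.sum
    intro l hl
    have hl' := mem_range.1 hl
    have h1 := (tt_mem hn J (l := h + 1 + l) (by omega)).2 (by omega)
    have h2 := WW1_mem hn μ J (l := h + 1 + l) (by omega)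
    have h3 := QO.mul_right h1 h2
    unfold tt at h3
    rwa [mul_assoc] at h3
  have t2 : QO (cyclotomic n ℚ) 3 (∑ l ∈ range h, tt (n * J + (h + 1 + l))) := by
    apply QO.sum
    intro l hl
    have hl' := mem_range.1 hl
    exact (tt_mem hn J (l := h + 1 + l) (by omega)).2 (by omega)
  have t3 : Eqm (cyclotomic n ℚ) 3 (∑ l ∈ range (h + 1), e (4 * ((n * J + l : ℕ) : ℤ) + 1) * (T5 (n * J + l) * WW 1 n (2 * μ + 1) (n * J + l)))
      (∑ l ∈ range (h + 1), tt (n * J + l) * (WW 1 n (2 * μ + 1) (n * J) * (1 - M ^ 2 * e n ^ 2 * sg l))) := by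
    apply Eqm.sum
    intro l hl
    have hl' := mem_range.1 hl
    have h1 := WW_three hn μ J l (by omega)
    have h2 := Eqm.mul_left (tt_mem hn J (l := l) (by omega)).1 h1
    convert h2 using 1
    unfold tt
    ring
  have e1 : ∑ l ∈ range (h + 1), tt (n * J + l) * (WW 1 n (2 * μ + 1) (n * J) * (1 - M ^ 2 * e n ^ 2 * sg l)) =
      WW 1 n (2 * μ + 1) (n * J) * (∑ l ∈ range (h + 1), tt (n * J + l)) -
        (M ^ 2 * WW 1 n (2 * μ + 1) (n * J)) * ((e n * e n) * ∑ l ∈ range (h + 1), tt (n * J + l) * sg l) := by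
    rw [mul_sum, mul_sum, mul_sum, ← sum_sub_distrib]
    apply sum_congr rfl
    intro l _
    ring
  have t4 : QO (cyclotomic n ℚ) 3 ((M ^ 2 * WW 1 n (2 * μ + 1) (n * J)) * ((e n * e n) * ∑ l ∈ range (h + 1), tt (n * J + l) * sg l)) :=
    QO.mul_left ((Loc _).mul_mem ((Loc _).pow_mem mM 2) mW) ((he.mul he).mul (CC_QO hn hh J))
  have t5 : QO (cyclotomic n ℚ) 3 ((WW 1 n (2 * μ + 1) (n * J) - (QLiu.w μ J : RatFunc ℚ)) * (∑ l ∈ range (h + 1), tt (n * J + l))) :=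
    QO.mul hW2 (BB_QO hn hh J)
  have t6 := QO.mul_left (rat_mem (cyclotomic n ℚ) (QLiu.w μ J)) t2
  rw [e1] at t3
  have t7 := ((QO.add t3 t1).sub t4).add (t5.sub t6)
  unfold Eqm
  convert t7 using 1
  push_cast
  ring

/-- the values -/
def V5 (n h μ : ℕ) : RatFunc ℚ := (q ^ (n * μ + h))⁻¹ * e ((2 * (μ : ℤ) + 1) * n) * AllOneModFour.V n h μ

lemma exact5' (n μ h : ℕ) (hn : n = 2 * h + 1) :
    ∑ k ∈ range (n * (μ + 1)), e (4 * (k : ℤ) + 1) * (T5 k * WW 1 n (2 * μ + 1) k) = V5 n h μ := by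
  have hmz : (2 * (μ : ℤ) + 1) * n = 2 * ((n * μ + h : ℕ) : ℤ) + 1 := by rw [hn]; push_cast; ring
  have hK : n * μ + h < n * (μ + 1) := by rw [Nat.mul_succ]; omega
  rw [exact5 hmz hK]
  unfold V5 AllOneModFour.V
  rw [hmz]

/-- the common factor -/
def C5 (n h : ℕ) : RatFunc ℚ := e n * ((q ^ h)⁻¹ * AllOneModFour.V n h 0)

lemma V5_eqm (hn : n = 2 * h + 1) (hh : h % 2 = 0) (μ : ℕ) :
    Eqm (cyclotomic n ℚ) 3 (V5 n h μ) (C5 n h * (((2 * (μ : ℚ) + 1) * AllOneModFour.v μ : ℚ) : RatFunc ℚ)) := by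
  have hn0 : 0 < n := by omega
  obtain ⟨hx, hx0, hx1, hxi⟩ := x_props (n := n) (s := 1) hn0 one_pos
  rw [one_mul] at hx hx0 hx1 hxi
  have hV := AllOneModFour.V_eqm hn hh μ
  have hV0 := AllOneModFour.V_zero (n := n) hh
  have hD := (QLiu.DD_mem hn (s := 2) (QLiu.cop2 hn) 0).2
  have he : QO (cyclotomic n ℚ) 1 (e n) := e_QO hn0 (dvd_refl _)
  have e2 : e ((2 * (μ : ℤ) + 1) * n) = e n * Gz (q ^ n) (2 * μ + 1) := by
    have := e_Gz (n := n) (s := 1) hn0 one_pos (2 * μ + 1)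
    push_cast at this
    rw [one_mul, one_mul] at this
    rw [this, e_nat]
  have e3 : (q ^ (n * μ + h))⁻¹ = (q ^ h)⁻¹ * (q ^ n) ^ (-(μ : ℤ)) := by
    rw [zpow_neg, zpow_natCast, pow_add, pow_mul, mul_inv]; ring
  -- the scalar factor
  have t1 := Ap_zpow hx hx0 hxi (-(μ : ℤ))
  have t2 := Ap_Gz hx hx0 hx1 hxi (2 * μ + 1)
  have t3 : Eqm (cyclotomic n ℚ) 2 ((q ^ n) ^ (-(μ : ℤ)) * Gz (q ^ n) (2 * μ + 1)) ((2 * (μ : ℚ) + 1 : ℚ) : RatFunc ℚ) := by
    refine Ap.eqm ((t1.mul hx t2).congr ?_ ?_)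
    · push_cast; ring
    · push_cast; ring
  have mh : (q ^ h)⁻¹ ∈ Loc (cyclotomic n ℚ) := by
    rw [← zpow_natCast, ← zpow_neg]; exact zmem hn0 _
  have t4 := t3.mul hV (rat_mem _ _) ((Loc _).mul_mem hD (rat_mem _ _))
  have t5 := QO.mul_left mh (he.mul t4)
  unfold Eqm V5 C5
  convert t5 using 1
  rw [e2, e3, hV0]
  push_cast
  ring

/-- the classical terms -/
def b5 (J : ℕ) : ℚ := (-1) ^ J * (4 * J + 1) * (∏ i ∈ range J, ((2 * (i : ℚ) + 1) / (2 * i + 2))) ^ 5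

lemma tt_one (J : ℕ) : Eqm (cyclotomic 1 ℚ) 1 ((e 1)⁻¹ * tt J) (b5 J : ℚ) := by
  obtain ⟨hx, hx0, hx1, hxi⟩ := x_props (n := 1) (s := 1) one_pos one_pos
  have h1 := (rr_one (s := 1) one_pos J).pow (rat_mem _ _) 4
  have h2 := rr_one (s := 2) (by norm_num) J
  have h3 := Gz_one hx hx0 hx1 hxi (4 * J + 1)
  have e1 : (e 1)⁻¹ * e (4 * (J : ℤ) + 1) = Gz (q ^ (1 * 1)) (4 * J + 1) := by
    have := e_Gz (n := 1) (s := 1) one_pos one_pos (4 * J + 1)
    push_cast at this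
    rw [one_mul, mul_one] at this
    have h9 : (1 : RatFunc ℚ) - q ^ (1 * 1) = e 1 := by unfold e; norm_num
    have h8 : e 1 ≠ 0 := e_ne (by norm_num)
    rw [this]
    simp only [mul_one] at h9 ⊢
    rw [h9, ← mul_assoc, inv_mul_cancel₀ h8, one_mul]
  have h4 : Eqm (cyclotomic 1 ℚ) 1 ((-1 : RatFunc ℚ) ^ J * q ^ J) ((-1) ^ J * 1) :=
    Eqm.mul_left ((Loc _).pow_mem ((Loc _).neg_mem (Loc _).one_mem) _) (QLiu.q_pow_one J)
  have m4 : (-1 : RatFunc ℚ) ^ J * 1 ∈ Loc (cyclotomic 1 ℚ) := (Loc _).mul_mem ((Loc _).pow_mem ((Loc _).neg_mem (Loc _).one_mem) _) (Loc _).one_mem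
  have h5 := h4.mul (h1.mul h2 ((Loc _).pow_mem (rat_mem _ _) 4) (rat_mem _ _)) m4 ((Loc _).mul_mem ((Loc _).pow_mem (rat_mem _ _) 4) (rat_mem _ _))
  have h6 := h3.mul h5 (rat_mem _ _) ((Loc _).mul_mem m4 ((Loc _).mul_mem ((Loc _).pow_mem (rat_mem _ _) 4) (rat_mem _ _)))
  unfold tt T5 b5
  convert h6 using 1
  · rw [← mul_assoc, e1]
  · push_cast; ring

lemma classical5 (μ : ℕ) : ∑ J ∈ range (μ + 1), QLiu.w μ J * b5 J = (2 * (μ : ℚ) + 1) * AllOneModFour.v μ := by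
  have h0 := exact5' 1 μ 0 (by norm_num)
  rw [one_mul] at h0
  have h1 : ∑ j ∈ range (μ + 1), ((e 1)⁻¹ * tt j) * WW 1 1 (2 * μ + 1) j = (e 1)⁻¹ * V5 1 0 μ := by
    rw [← h0, mul_sum]
    apply sum_congr rfl
    intro j _
    unfold tt; ring
  refine eval_one h1 (fun j _ => tt_one j) (fun j _ => ?_) ?_
  · have := (WW1_eqm (n := 1) (h := 0) (by norm_num) μ j (l := 0) le_rfl).le (show 1 ≤ 2 by norm_num)
    rwa [one_mul, add_zero] at this
  · have a1 := (AllOneModFour.V_eqm (n := 1) (h := 0) (by norm_num) (by norm_num) μ).le (show 1 ≤ 2 by norm_num)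
    have a2 : (DD 2 1 0 0) = 1 := by unfold DD; simp
    rw [a2, inv_one, one_mul] at a1
    obtain ⟨hx, hx0, hx1, hxi⟩ := x_props (n := 1) (s := 1) one_pos one_pos
    have a3 := Gz_one hx hx0 hx1 hxi (2 * μ + 1)
    have a4 : Eqm (cyclotomic 1 ℚ) 1 ((q ^ (1 * μ + 0))⁻¹) 1 := by
      have := q_shift (n := 1) one_pos 0 (-(μ : ℤ))
      rw [zero_add, zpow_zero] at this
      convert this using 1
      rw [← zpow_natCast, ← zpow_neg]; congr 1; push_cast; ring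
    have a5 := (a4.mul a3 (Loc _).one_mem (rat_mem _ _)).mul a1 (by rw [one_mul]; exact rat_mem _ _) (rat_mem _ _)
    have e2 : (e 1)⁻¹ * e ((2 * (μ : ℤ) + 1) * ((1 : ℕ) : ℤ)) = Gz (q ^ (1 * 1)) (2 * μ + 1) := by
      have := e_Gz (n := 1) (s := 1) one_pos one_pos (2 * μ + 1)
      push_cast at this
      rw [one_mul] at this
      have h9 : (1 : RatFunc ℚ) - q ^ (1 * 1) = e 1 := by unfold e; norm_num
      have h8 : e 1 ≠ 0 := e_ne (by norm_num)
      push_cast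
      rw [this]
      simp only [mul_one] at h9 ⊢
      rw [h9, ← mul_assoc, inv_mul_cancel₀ h8, one_mul]
    unfold V5
    convert a5 using 1
    · rw [← e2]; ring
    · push_cast; ring

/-- the blocks modulo `Φ^3` -/
theorem blocks5' (hn : n = 2 * h + 1) (hh : h % 2 = 0) (J : ℕ) :
    Eqm (cyclotomic n ℚ) 3 (∑ l ∈ range n, tt (n * J + l)) (C5 n h * (b5 J : ℚ)) := by
  refine tri (w := QLiu.w) (b := b5) (v := fun μ => (2 * (μ : ℚ) + 1) * AllOneModFour.v μ) (V := V5 n h)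
    (B := fun J => ∑ l ∈ range n, tt (n * J + l)) ?_ classical5 (V5_eqm hn hh) ?_ J
  · intro μ
    have h1 := main3 hn hh μ
    rw [exact5' n μ h hn] at h1
    exact h1.symm
  · intro μ
    unfold QLiu.w
    exact div_ne_zero (wo_ne (fun i hi => by omega) (by omega)) (we_ne μ)

end

end Pool.Agent.X14.QBlock
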