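import Mathlib

set_option autoImplicit false

/-! Rational functions with denominators coprime to a polynomial `P`, and divisibility by powers
of `P`. -/

namespace Pool.Agent.X14.QL

open Finset Polynomial

noncomputable section

/-- the inclusion of polynomials -/
abbrev al : ℚ[X] →+* RatFunc ℚ := algebraMap ℚ[X] (RatFunc ℚ)

lemma al_ne {a : ℚ[X]} (h : a ≠ 0) : al a ≠ 0 :=
  (map_ne_zero_iff _ (RatFunc.algebraMap_injective ℚ)).2 h

lemma al_inj {a b : ℚ[X]} (h : al a = al b) : a = b := RatFunc.algebraMap_injective ℚ h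

lemma mul_denom (e : RatFunc ℚ) : e * al e.denom = al e.num := by
  have h4 : e = al e.num / al e.denom := (RatFunc.num_div_denom e).symm
  rw [eq_div_iff (al_ne (RatFunc.denom_ne_zero e))] at h4
  exact h4

/-- rational functions with denominator coprime to `P` -/
def Loc (P : ℚ[X]) : Subring (RatFunc ℚ) where
  carrier := {e | ∃ a b : ℚ[X], IsCoprime b P ∧ e * al b = al a}
  mul_mem' := by
    rintro x y ⟨a, b, h1, h2⟩ ⟨c, d, h3, h4⟩
    refine ⟨a * c, b * d, h1.mul_left h3, ?_⟩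
    rw [map_mul, map_mul, ← h2, ← h4]; ring
  one_mem' := ⟨1, 1, isCoprime_one_left, by simp⟩
  add_mem' := by
    rintro x y ⟨a, b, h1, h2⟩ ⟨c, d, h3, h4⟩
    refine ⟨a * d + c * b, b * d, h1.mul_left h3, ?_⟩
    rw [map_mul, map_add, map_mul, map_mul, ← h2, ← h4]; ring
  zero_mem' := ⟨0, 1, isCoprime_one_left, by simp⟩
  neg_mem' := by
    rintro x ⟨a, b, h1, h2⟩
    refine ⟨-a, b, h1, ?_⟩
    rw [map_neg, ← h2]; ring

variable {P : ℚ[X]}

lemma al_mem (P a : ℚ[X]) : al a ∈ Loc P := ⟨a, 1, isCoprime_one_left, by simp⟩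

lemma inv_mem {b : ℚ[X]} (h : IsCoprime b P) : (al b)⁻¹ ∈ Loc P := by
  rcases eq_or_ne b 0 with h0 | h0
  · subst h0; simp [(Loc P).zero_mem]
  · refine ⟨1, b, h, ?_⟩
    rw [inv_mul_cancel₀ (al_ne h0), map_one]

/-- divisible by `P ^ k` in `Loc P` -/
def QO (P : ℚ[X]) (k : ℕ) (x : RatFunc ℚ) : Prop := ∃ y ∈ Loc P, x = al P ^ k * y

lemma QO.mem {k : ℕ} {x : RatFunc ℚ} (h : QO P k x) : x ∈ Loc P := by
  obtain ⟨y, hy, rfl⟩ := h
  exact (Loc P).mul_mem ((Loc P).pow_mem (al_mem P P) k) hy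

lemma of_mem {x : RatFunc ℚ} (h : x ∈ Loc P) : QO P 0 x := ⟨x, h, by simp⟩

lemma QO.zero (k : ℕ) : QO P k 0 := ⟨0, (Loc P).zero_mem, by simp⟩

lemma QO.add {k : ℕ} {x y : RatFunc ℚ} (h : QO P k x) (h' : QO P k y) : QO P k (x + y) := by
  obtain ⟨a, ha, rfl⟩ := h
  obtain ⟨b, hb, rfl⟩ := h'
  exact ⟨a + b, (Loc P).add_mem ha hb, by ring⟩

lemma QO.neg {k : ℕ} {x : RatFunc ℚ} (h : QO P k x) : QO P k (-x) := by
  obtain ⟨a, ha, rfl⟩ := h
  exact ⟨-a, (Loc P).neg_mem ha, by ring⟩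

lemma QO.sub {k : ℕ} {x y : RatFunc ℚ} (h : QO P k x) (h' : QO P k y) : QO P k (x - y) := by
  rw [sub_eq_add_neg]; exact h.add h'.neg

lemma QO.mul {k l : ℕ} {x y : RatFunc ℚ} (h : QO P k x) (h' : QO P l y) : QO P (k + l) (x * y) := by
  obtain ⟨a, ha, rfl⟩ := h
  obtain ⟨b, hb, rfl⟩ := h'
  exact ⟨a * b, (Loc P).mul_mem ha hb, by rw [pow_add]; ring⟩

lemma QO.mul_left {k : ℕ} {x y : RatFunc ℚ} (h : x ∈ Loc P) (h' : QO P k y) : QO P k (x * y) := by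
  have := (of_mem h).mul h'
  rwa [zero_add] at this

lemma QO.mul_right {k : ℕ} {x y : RatFunc ℚ} (h' : QO P k y) (h : x ∈ Loc P) : QO P k (y * x) := by
  rw [mul_comm]; exact h'.mul_left h

lemma QO.le {k l : ℕ} {x : RatFunc ℚ} (h : QO P k x) (hl : l ≤ k) : QO P l x := by
  obtain ⟨y, hy, rfl⟩ := h
  obtain ⟨m, rfl⟩ := Nat.exists_eq_add_of_le hl
  exact ⟨al P ^ m * y, (Loc P).mul_mem ((Loc P).pow_mem (al_mem P P) m) hy, by rw [pow_add]; ring⟩

lemma QO.sum {ι : Type*} {k : ℕ} {s : Finset ι} {f : ι → RatFunc ℚ} (h : ∀ i ∈ s, QO P k (f i)) :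
    QO P k (∑ i ∈ s, f i) := by
  classical
  induction s using Finset.induction_on with
  | empty => simpa using QO.zero k
  | insert i s hi ih =>
    rw [sum_insert hi]
    exact (h i (mem_insert_self i s)).add (ih (fun j hj => h j (mem_insert_of_mem hj)))

lemma QO.dvd {k : ℕ} {a : ℚ[X]} (h : P ^ k ∣ a) : QO P k (al a) := by
  obtain ⟨c, rfl⟩ := h
  exact ⟨al c, al_mem P c, by rw [map_mul, map_pow]⟩

lemma QO.one_of_dvd {a : ℚ[X]} (h : P ∣ a) : QO P 1 (al a) := QO.dvd (by rwa [pow_one])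

/-- the numerator and denominator of an element divisible by `P ^ k` -/
lemma QO.num_denom {k : ℕ} {e : RatFunc ℚ} (h : QO P k e) :
    P ^ k ∣ e.num ∧ IsCoprime e.denom (P ^ k) := by
  obtain ⟨y, ⟨a, b, h1, h2⟩, he⟩ := h
  have h3 : e * al b = al (P ^ k * a) := by
    rw [he, map_mul, map_pow, mul_assoc, h2]
  have h4 := mul_denom e
  have h5 : al (e.num * b) = al (P ^ k * (a * e.denom)) := by
    rw [map_mul, ← mul_assoc, map_mul _ _ e.denom, ← h3, ← h4]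
    ring
  have h6 : e.num * b = P ^ k * (a * e.denom) := al_inj h5
  constructor
  · have h7 : P ^ k ∣ e.num * b := ⟨_, h6⟩
    exact (h1.symm.pow_left).dvd_of_dvd_mul_right h7
  · have h8 : e.denom ∣ e.num * b := ⟨P ^ k * a, by rw [h6]; ring⟩
    have h9 : e.denom ∣ b := (RatFunc.isCoprime_num_denom e).symm.dvd_of_dvd_mul_left h8
    exact (IsCoprime.of_isCoprime_of_dvd_left h1 h9).pow_right

/-! ### one-units -/

/-- congruent to one modulo `P ^ k` -/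
def U (P : ℚ[X]) (k : ℕ) (x : RatFunc ℚ) : Prop := QO P k (x - 1)

lemma U.one (k : ℕ) : U P k 1 := by unfold U; rw [sub_self]; exact QO.zero k

lemma U.mem {k : ℕ} {x : RatFunc ℚ} (h : U P k x) : x ∈ Loc P := by
  have := (Loc P).add_mem (QO.mem h) (Loc P).one_mem
  rwa [sub_add_cancel] at this

lemma U.mul {k : ℕ} {x y : RatFunc ℚ} (h : U P k x) (h' : U P k y) : U P k (x * y) := by
  have h1 : QO P k ((x - 1) * y + (y - 1)) := (QO.mul_right h h'.mem).add h'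
  have e : x * y - 1 = (x - 1) * y + (y - 1) := by ring
  unfold U; rw [e]; exact h1

lemma U.inv {k : ℕ} (hk : 0 < k) {x : RatFunc ℚ} (h : U P k x) : U P k x⁻¹ := by
  rcases eq_or_ne x 0 with h0 | h0
  · subst h0; rw [inv_zero]; exact h
  obtain ⟨y, ⟨a, b, h1, h2⟩, he⟩ := h
  have hm : x⁻¹ ∈ Loc P := by
    refine ⟨b, b + P ^ k * a, ?_, ?_⟩
    · obtain ⟨l, rfl⟩ : ∃ l, k = l + 1 := ⟨k - 1, by omega⟩
      rw [pow_succ, mul_comm (P ^ l) P, mul_assoc]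
      exact h1.add_mul_left_left (P ^ l * a)
    · have e1 : al (b + P ^ k * a) = x * al b := by
        rw [map_add, map_mul, map_pow, ← h2, ← mul_assoc, ← he]; ring
      rw [e1, ← mul_assoc, inv_mul_cancel₀ h0, one_mul]
  have e : x⁻¹ - 1 = -(x⁻¹ * (x - 1)) := by field_simp; ring
  unfold U; rw [e, he]
  have h5 : QO P k (al P ^ k * y) := ⟨y, ⟨a, b, h1, h2⟩, rfl⟩
  exact (QO.mul_left hm h5).neg

lemma U.prod {ι : Type*} {k : ℕ} {s : Finset ι} {f : ι → RatFunc ℚ} (h : ∀ i ∈ s, U P k (f i)) :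
    U P k (∏ i ∈ s, f i) := by
  classical
  induction s using Finset.induction_on with
  | empty => simpa using U.one k
  | insert i s hi ih =>
    rw [prod_insert hi]
    exact (h i (mem_insert_self i s)).mul (ih (fun j hj => h j (mem_insert_of_mem hj)))

/-! ### `q` and cyclotomic polynomials -/

/-- `q` -/
def q : RatFunc ℚ := RatFunc.X

lemma q_eq : q = al X := (RatFunc.algebraMap_X).symm

lemma q_ne : q ≠ 0 := RatFunc.X_ne_zero

lemma q_pow_ne_one {j : ℕ} (hj : 0 < j) : q ^ j ≠ 1 := by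
  intro h
  rw [q_eq, ← map_pow, ← map_one al] at h
  have h1 := al_inj h
  have h2 := congrArg natDegree h1
  rw [natDegree_X_pow, natDegree_one] at h2
  omega

lemma one_sub_ne {j : ℕ} (hj : 0 < j) : 1 - q ^ j ≠ 0 := by
  intro h
  exact q_pow_ne_one hj (sub_eq_zero.1 h).symm

lemma q_mem (P : ℚ[X]) : q ∈ Loc P := by rw [q_eq]; exact al_mem P X

/-- `Φ_N` is coprime to `X^b - 1` if `N ∤ b` -/
lemma cop_cyc {N b : ℕ} (hb : ¬ N ∣ b) : IsCoprime (X ^ b - 1 : ℚ[X]) (cyclotomic N ℚ) := by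
  have hb0 : 0 < b := Nat.pos_of_ne_zero (fun h => hb (h ▸ dvd_zero N))
  rw [← prod_cyclotomic_eq_X_pow_sub_one hb0 ℚ]
  apply IsCoprime.prod_left
  intro d hd
  apply cyclotomic.isCoprime_rat
  rintro rfl
  exact hb (Nat.dvd_of_mem_divisors hd)

lemma cop_X {N : ℕ} (hN : 1 < N) : IsCoprime (X : ℚ[X]) (cyclotomic N ℚ) := by
  have h1 : (cyclotomic N ℚ) ∣ X ^ N - 1 := cyclotomic.dvd_X_pow_sub_one N ℚ
  obtain ⟨c, hc⟩ := h1
  obtain ⟨m, rfl⟩ : ∃ m, N = m + 1 := ⟨N - 1, by omega⟩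
  refine ⟨X ^ m, -c, ?_⟩
  rw [pow_succ] at hc
  linear_combination hc

lemma q_inv_mem {N : ℕ} (hN : 1 < N) : q⁻¹ ∈ Loc (cyclotomic N ℚ) := by
  rw [q_eq]; exact inv_mem (cop_X hN)

lemma one_sub_eq (b : ℕ) : 1 - q ^ b = -al (X ^ b - 1) := by
  rw [map_sub, map_pow, map_one, ← q_eq]; ring

lemma inv_one_sub_mem {N b : ℕ} (hb : ¬ N ∣ b) : (1 - q ^ b)⁻¹ ∈ Loc (cyclotomic N ℚ) := by
  rw [one_sub_eq, inv_neg]
  exact (Loc _).neg_mem (inv_mem (cop_cyc hb))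

lemma one_sub_mem (P : ℚ[X]) (b : ℕ) : 1 - q ^ b ∈ Loc P :=
  (Loc P).sub_mem (Loc P).one_mem ((Loc P).pow_mem (q_mem P) b)

/-- `1 - q^b` is divisible by `Φ_N` if `N ∣ b` -/
lemma QO_one_sub {N b : ℕ} (hb : N ∣ b) : QO (cyclotomic N ℚ) 1 (1 - q ^ b) := by
  rw [one_sub_eq]
  exact (QO.one_of_dvd ((cyclotomic.dvd_X_pow_sub_one N ℚ).trans (by
    obtain ⟨c, rfl⟩ := hb
    rw [pow_mul]
    have := sub_dvd_pow_sub_pow (X ^ N : ℚ[X]) 1 c
    rwa [one_pow] at this))).neg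

end

end Pool.Agent.X14.QL
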