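import Mathlib

set_option autoImplicit false

/-! A transformation of the little `q`-Legendre polynomials. -/

namespace Pool.Agent.X14.QLeg

open Finset

section
set_option linter.unusedSectionVars false
variable {K : Type*} [Field K] {Q : K}

/-- terms of the `q`-Chu–Vandermonde sum -/
def qcv (Q b c : K) (N l : ℕ) : K :=
  ∏ j ∈ range l, ((1 - Q ^ j / Q ^ N) * (1 - b * Q ^ j) * Q) / ((1 - Q ^ (j + 1)) * (1 - c * Q ^ j))

lemma qcv_succ (b c : K) (N l : ℕ) : qcv Q b c N (l + 1) = qcv Q b c N l *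
    (((1 - Q ^ l / Q ^ N) * (1 - b * Q ^ l) * Q) / ((1 - Q ^ (l + 1)) * (1 - c * Q ^ l))) := by
  unfold qcv; rw [prod_range_succ]

lemma qcv_zero_of_lt (hQ0 : Q ≠ 0) {b c : K} {N l : ℕ} (h : N < l) : qcv Q b c N l = 0 := by
  unfold qcv
  apply prod_eq_zero (mem_range.2 h)
  rw [div_self (pow_ne_zero _ hQ0)]; simp

lemma qcv_shift (hQ0 : Q ≠ 0) (hQ : ∀ j : ℕ, 0 < j → Q ^ j ≠ 1) (b c : K) (N l : ℕ) :
    qcv Q b c (N + 1) l * (Q ^ l - Q ^ (N + 1)) = qcv Q b c N l * (1 - Q ^ (N + 1)) := by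
  induction l with
  | zero => simp [qcv]
  | succ l ih =>
    rw [qcv_succ, qcv_succ]
    have e : qcv Q b c N l * (((1 - Q ^ l / Q ^ N) * (1 - b * Q ^ l) * Q) / ((1 - Q ^ (l + 1)) * (1 - c * Q ^ l))) * (1 - Q ^ (N + 1)) =
        (qcv Q b c N l * (1 - Q ^ (N + 1))) * (((1 - Q ^ l / Q ^ N) * (1 - b * Q ^ l) * Q) / ((1 - Q ^ (l + 1)) * (1 - c * Q ^ l))) := by ring
    rw [e, ← ih]
    have hN := pow_ne_zero N hQ0
    have hN1 := pow_ne_zero (N + 1) hQ0
    have e2 : (1 - Q ^ l / Q ^ (N + 1)) * (Q ^ (l + 1) - Q ^ (N + 1)) = (Q ^ l - Q ^ (N + 1)) * (1 - Q ^ l / Q ^ N) := by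
      rw [pow_succ Q N, pow_succ Q l]
      field_simp
      ring
    have e3 : ∀ v x y z t : K, v * ((x * y * z) / t) * (Q ^ (l + 1) - Q ^ (N + 1)) = v * (((x * (Q ^ (l + 1) - Q ^ (N + 1))) * y * z) / t) := by
      intros; ring
    rw [e3, e2]
    ring

/-- the terminating `q`-Chu–Vandermonde sum -/
theorem qcv_sum (hQ0 : Q ≠ 0) (hQ : ∀ j : ℕ, 0 < j → Q ^ j ≠ 1) (b c : K) (hc : ∀ j : ℕ, 1 - c * Q ^ j ≠ 0) (N : ℕ) :
    ∑ l ∈ range (N + 1), qcv Q b c N l = ∏ j ∈ range N, (b - c * Q ^ j) / (1 - c * Q ^ j) := by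
  induction N with
  | zero => simp [qcv]
  | succ N ih =>
    rw [prod_range_succ, ← ih]
    have hN : 1 - Q ^ (N + 1) ≠ 0 := sub_ne_zero.2 (hQ (N + 1) (by omega)).symm
    have hcN := hc N
    have tel : ∀ m : ℕ, ∑ l ∈ range m, (qcv Q b c (N + 1) l - qcv Q b c N l * ((b - c * Q ^ N) / (1 - c * Q ^ N))) =
        -(qcv Q b c (N + 1) m * ((1 - Q ^ m) * (Q - c * Q ^ m) * Q ^ N / (Q ^ m * ((1 - Q ^ (N + 1)) * (1 - c * Q ^ N))))) := by
      intro m
      induction m with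
      | zero => simp
      | succ m ihm =>
        rw [sum_range_succ, ihm]
        have hs := qcv_shift hQ0 hQ b c N m
        have hv : qcv Q b c N m = qcv Q b c (N + 1) m * (Q ^ m - Q ^ (N + 1)) / (1 - Q ^ (N + 1)) := by
          rw [hs]; field_simp
        rw [hv, qcv_succ]
        have hm : 1 - Q ^ (m + 1) ≠ 0 := sub_ne_zero.2 (hQ (m + 1) (by omega)).symm
        have hcm := hc m
        have hQm := pow_ne_zero m hQ0
        have hQN := pow_ne_zero N hQ0
        generalize qcv Q b c (N + 1) m = v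
        rw [pow_succ Q m] at hm ⊢
        rw [pow_succ Q N] at hN ⊢
        generalize Q ^ m = M at *
        generalize Q ^ N = NN at *
        have hN' : 1 - Q * NN ≠ 0 := by rwa [mul_comm]
        have hm' : 1 - Q * M ≠ 0 := by rwa [mul_comm]
        have hcN' : 1 - NN * c ≠ 0 := by rwa [mul_comm]
        have hcm' : 1 - M * c ≠ 0 := by rwa [mul_comm]
        field_simp
        ring
    have h := tel (N + 2)
    rw [qcv_zero_of_lt hQ0 (by omega), zero_mul, neg_zero, sum_sub_distrib, ← sum_mul, sub_eq_zero] at h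
    rw [h, sum_range_succ _ (N + 1), qcv_zero_of_lt hQ0 (by omega : N < N + 1), add_zero]

/-- the coefficient of `x^i` in `(x;Q)_k` -/
def B (Q : K) : ℕ → ℕ → K
  | 0, 0 => 1
  | 0, _ + 1 => 0
  | k + 1, 0 => B Q k 0
  | k + 1, i + 1 => B Q k (i + 1) - Q ^ k * B Q k i

/-- `(Q;Q)_k` -/
def qf (Q : K) (k : ℕ) : K := ∏ j ∈ range k, (1 - Q ^ (j + 1))

lemma qf_succ (k : ℕ) : qf Q (k + 1) = qf Q k * (1 - Q ^ (k + 1)) := by unfold qf; rw [prod_range_succ]

lemma qf_ne (hQ : ∀ j : ℕ, 0 < j → Q ^ j ≠ 1) (k : ℕ) : qf Q k ≠ 0 := by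
  unfold qf
  apply prod_ne_zero_iff.2
  intro j _
  exact sub_ne_zero.2 (hQ (j + 1) (by omega)).symm

lemma B_zero_of_lt : ∀ (k i : ℕ), k < i → B Q k i = 0 := by
  intro k
  induction k with
  | zero =>
    intro i hi
    rcases i with _ | i
    · omega
    · rfl
  | succ k ih =>
    intro i hi
    rcases i with _ | i
    · omega
    · unfold B
      rw [ih (i + 1) (by omega), ih i (by omega)]; ring

lemma B_zero_right (k : ℕ) : B Q k 0 = 1 := by
  induction k with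
  | zero => rfl
  | succ k ih => unfold B; exact ih

/-- closed form -/
lemma B_eq (hQ0 : Q ≠ 0) (hQ : ∀ j : ℕ, 0 < j → Q ^ j ≠ 1) : ∀ (l i : ℕ),
    B Q (i + l) i * (qf Q i * qf Q l) = (∏ j ∈ range i, (-Q ^ j)) * qf Q (i + l) := by
  intro l
  induction l with
  | zero =>
    intro i
    induction i with
    | zero => simp [B, qf]
    | succ i ih =>
      have e : B Q (i + 1 + 0) (i + 1) = B Q i (i + 1) - Q ^ i * B Q i i := rfl
      rw [e, B_zero_of_lt i (i + 1) (by omega), prod_range_succ]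
      rw [add_zero] at ih ⊢
      have h0 : qf Q 0 = 1 := by simp [qf]
      rw [h0, mul_one] at ih ⊢
      rw [qf_succ]
      linear_combination (-(Q ^ i) * (1 - Q ^ (i + 1))) * ih
  | succ l ihl =>
    intro i
    induction i with
    | zero =>
      rw [B_zero_right]; simp [qf]
    | succ i ihi =>
      have e : B Q (i + 1 + (l + 1)) (i + 1) = B Q (i + 1 + l) (i + 1) - Q ^ (i + 1 + l) * B Q (i + (l + 1)) i := by
        have : i + 1 + l = i + (l + 1) := by ring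
        rw [← this]; rfl
      have h1 := ihl (i + 1)
      have h2 := ihi
      have e2 : i + (l + 1) = i + 1 + l := by ring
      rw [e, show i + 1 + (l + 1) = (i + 1 + l) + 1 by ring, qf_succ (i + 1 + l), qf_succ l]
      rw [e2] at h2 ⊢
      rw [prod_range_succ] at h1 ⊢
      rw [qf_succ i] at h1 ⊢
      rw [qf_succ l] at h2
      set P := ∏ j ∈ range i, (-Q ^ j)
      have e3 : Q ^ (i + 1 + l) = Q ^ i * Q ^ (l + 1) := by rw [← pow_add]; congr 1; ring
      have e4 : Q ^ (i + 1 + l + 1) = Q ^ (i + 1) * Q ^ (l + 1) := by rw [← pow_add]; congr 1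
      rw [e4, e3]
      linear_combination (1 - Q ^ (l + 1)) * h1 - (Q ^ i * Q ^ (l + 1) * (1 - Q ^ (i + 1))) * h2

/-- the coefficients `c_k(u)` -/
def cc (Q u : K) (n k : ℕ) : K :=
  ∏ j ∈ range k, ((1 - u * Q ^ j / Q ^ n) * (1 - Q ^ (n + 1 + j) / u)) / (1 - Q ^ (j + 1)) ^ 2

/-- coefficient of `x^i` in `∑_k c_k Q^k (x;Q)_k` -/
def TT (Q u : K) (n p i : ℕ) : K := ∑ k ∈ range p, cc Q u n k * Q ^ k * B Q k i

lemma cc_zero (hQ0 : Q ≠ 0) {n k : ℕ} (h : n < k) : cc Q 1 n k = 0 := by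
  unfold cc
  apply prod_eq_zero (mem_range.2 h)
  rw [one_mul, div_self (pow_ne_zero _ hQ0)]; simp

lemma cc_reflect (hQ0 : Q ≠ 0) {n n' p : ℕ} (hp : p = n + n' + 1) (k : ℕ) : cc Q (Q ^ p) n k = cc Q 1 n' k := by
  unfold cc
  apply prod_congr rfl
  intro j _
  have h1 := pow_ne_zero n hQ0
  have h2 := pow_ne_zero n' hQ0
  have h3 := pow_ne_zero p hQ0
  have e1 : Q ^ p * Q ^ j / Q ^ n = Q ^ (n' + 1 + j) / 1 := by
    rw [div_one, div_eq_iff h1, ← pow_add, ← pow_add]; congr 1; omega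
  have e2 : Q ^ (n + 1 + j) / Q ^ p = 1 * Q ^ j / Q ^ n' := by
    rw [one_mul, div_eq_div_iff h3 h2, ← pow_add, ← pow_add]; congr 1; omega
  rw [e1, e2]
  congr 1
  rw [mul_comm]

/-- the transformation -/
theorem transform (hQ0 : Q ≠ 0) (hQ : ∀ j : ℕ, 0 < j → Q ^ j ≠ 1) {n p : ℕ} (hn : n < p) (i : ℕ) :
    TT Q 1 n p i = (-1) ^ n * (∏ j ∈ range (n + 1), Q ^ j) * cc Q 1 n i := by
  unfold TT
  have e0 : ∑ k ∈ range p, cc Q 1 n k * Q ^ k * B Q k i = ∑ k ∈ range (n + 1), cc Q 1 n k * Q ^ k * B Q k i := by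
    symm
    apply Finset.sum_subset
    · intro x hx; rw [mem_range] at *; omega
    · intro x _ hx
      rw [mem_range, not_lt] at hx
      rw [cc_zero hQ0 (by omega)]; ring
  rw [e0]
  rcases Nat.lt_or_ge n i with hlt | hge
  · rw [cc_zero hQ0 hlt, mul_zero]
    apply sum_eq_zero
    intro k hk
    rw [B_zero_of_lt k i (by have := mem_range.1 hk; omega), mul_zero]
  · obtain ⟨N, rfl⟩ : ∃ N, n = i + N := ⟨n - i, by omega⟩
    rw [show i + N + 1 = i + (N + 1) by ring, sum_range_add]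
    have e1 : ∑ k ∈ range i, cc Q 1 (i + N) k * Q ^ k * B Q k i = 0 := by
      apply sum_eq_zero
      intro k hk
      rw [B_zero_of_lt k i (mem_range.1 hk), mul_zero]
    rw [e1, zero_add]
    have hcne : ∀ j : ℕ, 1 - Q ^ (i + 1) * Q ^ j ≠ 0 := by
      intro j
      rw [← pow_add]
      exact sub_ne_zero.2 (hQ _ (by omega)).symm
    have hqcv := qcv_sum hQ0 hQ (Q ^ (i + N + 1 + i)) (Q ^ (i + 1)) hcne N
    have e2 : ∀ l ∈ range (N + 1), cc Q 1 (i + N) (i + l) * Q ^ (i + l) * B Q (i + l) i =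
        (cc Q 1 (i + N) i * Q ^ i * ∏ j ∈ range i, (-Q ^ j)) * qcv Q (Q ^ (i + N + 1 + i)) (Q ^ (i + 1)) N l := by
      intro l _
      have hB := B_eq hQ0 hQ l i
      have hqi := qf_ne hQ i
      have hql := qf_ne hQ l
      have hB2 : B Q (i + l) i = (∏ j ∈ range i, (-Q ^ j)) * (qf Q (i + l) / (qf Q i * qf Q l)) := by
        rw [← mul_div_assoc, eq_div_iff (mul_ne_zero hqi hql)]
        exact hB
      have hq : qf Q (i + l) / (qf Q i * qf Q l) = ∏ j ∈ range l, (1 - Q ^ (i + 1) * Q ^ j) / (1 - Q ^ (j + 1)) := by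
        have : qf Q (i + l) = qf Q i * ∏ j ∈ range l, (1 - Q ^ (i + 1) * Q ^ j) := by
          unfold qf
          rw [prod_range_add]
          congr 1
          apply prod_congr rfl
          intro j _
          rw [← pow_add]
          congr 2
          ring
        rw [this, prod_div_distrib, mul_div_mul_left _ _ hqi]
        rfl
      have hc : cc Q 1 (i + N) (i + l) = cc Q 1 (i + N) i * ∏ j ∈ range l,
          ((1 - Q ^ j / Q ^ N) * (1 - Q ^ (i + N + 1 + i) * Q ^ j)) / (1 - Q ^ (i + 1) * Q ^ j) ^ 2 := by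
        unfold cc
        rw [prod_range_add]
        congr 1
        apply prod_congr rfl
        intro j _
        have h1 : 1 * Q ^ (i + j) / Q ^ (i + N) = Q ^ j / Q ^ N := by
          rw [one_mul, pow_add, pow_add, mul_div_mul_left _ _ (pow_ne_zero i hQ0)]
        have h2 : Q ^ (i + N + 1 + (i + j)) / 1 = Q ^ (i + N + 1 + i) * Q ^ j := by
          rw [div_one, ← pow_add]; congr 1; ring
        have h3 : Q ^ (i + j + 1) = Q ^ (i + 1) * Q ^ j := by rw [← pow_add]; congr 1; ring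
        rw [h1, h2, h3]
      have hQl : Q ^ (i + l) = Q ^ i * ∏ j ∈ range l, Q := by rw [pow_add]; simp
      rw [hB2, hq, hc, hQl]
      unfold qcv
      have hprod : (∏ j ∈ range l, ((1 - Q ^ j / Q ^ N) * (1 - Q ^ (i + N + 1 + i) * Q ^ j)) / (1 - Q ^ (i + 1) * Q ^ j) ^ 2) *
          (∏ j ∈ range l, Q) * (∏ j ∈ range l, (1 - Q ^ (i + 1) * Q ^ j) / (1 - Q ^ (j + 1))) =
          ∏ j ∈ range l, ((1 - Q ^ j / Q ^ N) * (1 - Q ^ (i + N + 1 + i) * Q ^ j) * Q) / ((1 - Q ^ (j + 1)) * (1 - Q ^ (i + 1) * Q ^ j)) := by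
        rw [← prod_mul_distrib, ← prod_mul_distrib]
        apply prod_congr rfl
        intro j _
        have h1 := hcne j
        have h2 : 1 - Q ^ (j + 1) ≠ 0 := sub_ne_zero.2 (hQ (j + 1) (by omega)).symm
        field_simp
      rw [← hprod]
      ring
    rw [sum_congr rfl e2, ← mul_sum, hqcv]
    -- the product
    have e3 : ∏ j ∈ range N, (Q ^ (i + N + 1 + i) - Q ^ (i + 1) * Q ^ j) / (1 - Q ^ (i + 1) * Q ^ j) =
        (-1) ^ N * ∏ j ∈ range N, Q ^ (i + 1 + j) := by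
      rw [prod_div_distrib]
      have h1 : ∏ j ∈ range N, (Q ^ (i + N + 1 + i) - Q ^ (i + 1) * Q ^ j) =
          (∏ j ∈ range N, (-1 * Q ^ (i + 1 + j))) * ∏ j ∈ range N, (1 - Q ^ (i + 1) * Q ^ j) := by
        rw [← Finset.prod_range_reflect (fun j => (1 - Q ^ (i + 1) * Q ^ j)), ← prod_mul_distrib]
        apply prod_congr rfl
        intro j hj
        have hj' := mem_range.1 hj
        have a1 : Q ^ (i + N + 1 + i) = Q ^ (i + 1 + j) * Q ^ (i + 1 + (N - 1 - j)) := by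
          rw [← pow_add]; congr 1; omega
        rw [a1, ← pow_add, ← pow_add]
        ring
      have h2 : ∏ j ∈ range N, (1 - Q ^ (i + 1) * Q ^ j) ≠ 0 := prod_ne_zero_iff.2 (fun j _ => hcne j)
      rw [h1, mul_div_assoc, div_self h2, mul_one, prod_mul_distrib]
      simp
    rw [e3]
    have e4 : ∏ j ∈ range (i + N + 1), Q ^ j = (∏ j ∈ range i, Q ^ j) * Q ^ i * ∏ j ∈ range N, Q ^ (i + 1 + j) := by
      rw [show i + N + 1 = (i + 1) + N by ring, prod_range_add, prod_range_succ]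
    have e5 : ∏ j ∈ range i, (-Q ^ j) = (-1) ^ i * ∏ j ∈ range i, Q ^ j := by
      have : ∀ j : ℕ, -Q ^ j = -1 * Q ^ j := by intro j; ring
      simp_rw [this]
      rw [prod_mul_distrib]; simp
    rw [show i + (N + 1) = i + N + 1 by ring, e4, e5, pow_add]
    ring

end

end Pool.Agent.X14.QLeg
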