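import Pool.Agent.X14.QLeg

set_option autoImplicit false

/-! Rational functions with denominators coprime to `[p]`. -/

namespace Pool.Agent.X14.QLoc

open Finset Polynomial Pool.Agent.X14.QLeg

noncomputable section

/-- the `q`-integer `[p] = 1 + q + ⋯ + q^{p-1}` -/
def qint (p : ℕ) : ℚ[X] := ∑ i ∈ range p, X ^ i

lemma alg_ne {a : ℚ[X]} (h : a ≠ 0) : algebraMap ℚ[X] (RatFunc ℚ) a ≠ 0 :=
  (map_ne_zero_iff _ (RatFunc.algebraMap_injective ℚ)).2 h

lemma mul_denom (e : RatFunc ℚ) :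
    e * algebraMap ℚ[X] (RatFunc ℚ) e.denom = algebraMap ℚ[X] (RatFunc ℚ) e.num := by
  have h4 : e = algebraMap ℚ[X] (RatFunc ℚ) e.num / algebraMap ℚ[X] (RatFunc ℚ) e.denom := (RatFunc.num_div_denom e).symm
  rw [eq_div_iff (alg_ne (RatFunc.denom_ne_zero e))] at h4
  exact h4

/-- rational functions with denominator coprime to `[p]` -/
def O (p : ℕ) : Subring (RatFunc ℚ) where
  carrier := {e | ∃ a b : ℚ[X], IsCoprime b (qint p) ∧ e * algebraMap ℚ[X] (RatFunc ℚ) b = algebraMap ℚ[X] (RatFunc ℚ) a}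
  mul_mem' := by
    rintro x y ⟨a, b, h1, h2⟩ ⟨c, d, h3, h4⟩
    refine ⟨a * c, b * d, h1.mul_left h3, ?_⟩
    rw [map_mul, map_mul, ← h2, ← h4]; ring
  one_mem' := ⟨1, 1, isCoprime_one_left, by simp⟩
  add_mem' := by
    rintro x y ⟨a, b, h1, h2⟩ ⟨c, d, h3, h4⟩
    refine ⟨a * d + c * b, b * d, h1.mul_left h3, ?_⟩
    rw [map_mul, map_add, map_mul, map_mul, ← h2, ← h4]; ring
  zero_mem' := ⟨0, 1, isCoprime_one_left, by simp⟩
  neg_mem' := by
    rintro x ⟨a, b, h1, h2⟩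
    refine ⟨-a, b, h1, ?_⟩
    rw [map_neg, ← h2]; ring

lemma alg_mem (p : ℕ) (a : ℚ[X]) : algebraMap ℚ[X] (RatFunc ℚ) a ∈ O p := ⟨a, 1, isCoprime_one_left, by simp⟩

lemma inv_mem {p : ℕ} {b : ℚ[X]} (h : IsCoprime b (qint p)) : (algebraMap ℚ[X] (RatFunc ℚ) b)⁻¹ ∈ O p := by
  rcases eq_or_ne b 0 with h0 | h0
  · subst h0; simp [(O p).zero_mem]
  · refine ⟨1, b, h, ?_⟩
    rw [inv_mul_cancel₀ (alg_ne h0), map_one]

/-- divisibility of the numerator -/
lemma num_dvd {p k : ℕ} {e y : RatFunc ℚ} (hy : y ∈ O p) (he : e = algebraMap ℚ[X] (RatFunc ℚ) (qint p) ^ k * y) :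
    (qint p) ^ k ∣ e.num := by
  obtain ⟨a, b, h1, h2⟩ := hy
  have h3 : e * algebraMap ℚ[X] (RatFunc ℚ) b = algebraMap ℚ[X] (RatFunc ℚ) ((qint p) ^ k * a) := by
    rw [he, map_mul, map_pow, mul_assoc, h2]
  have h4 := mul_denom e
  have h5 : algebraMap ℚ[X] (RatFunc ℚ) (e.num * b) = algebraMap ℚ[X] (RatFunc ℚ) ((qint p) ^ k * (a * e.denom)) := by
    rw [map_mul, ← mul_assoc, map_mul _ _ e.denom, ← h3, ← h4]
    ring
  have h6 : e.num * b = (qint p) ^ k * (a * e.denom) := RatFunc.algebraMap_injective ℚ h5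
  have h7 : (qint p) ^ k ∣ e.num * b := ⟨_, h6⟩
  exact (h1.symm.pow_left).dvd_of_dvd_mul_right h7

/-- conversely -/
lemma of_num_dvd {p k : ℕ} (hk : 0 < k) {e : RatFunc ℚ} (hp : Irreducible (qint p)) (h : (qint p) ^ k ∣ e.num) :
    ∃ y ∈ O p, e = algebraMap ℚ[X] (RatFunc ℚ) (qint p) ^ k * y := by
  obtain ⟨a, ha⟩ := h
  have hd := alg_ne (RatFunc.denom_ne_zero e)
  have h4 : e = algebraMap ℚ[X] (RatFunc ℚ) e.num / algebraMap ℚ[X] (RatFunc ℚ) e.denom := (RatFunc.num_div_denom e).symm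
  refine ⟨algebraMap ℚ[X] (RatFunc ℚ) a / algebraMap ℚ[X] (RatFunc ℚ) e.denom, ⟨a, e.denom, ?_, ?_⟩, ?_⟩
  · have hc := RatFunc.isCoprime_num_denom e
    rw [ha] at hc
    have h5 : IsCoprime ((qint p) ^ k) e.denom := IsCoprime.of_mul_left_left hc
    exact ((IsCoprime.pow_left_iff hk).1 h5).symm
  · field_simp
  · conv_lhs => rw [h4, ha]
    rw [map_mul, map_pow]
    ring

/-- `q` -/
def q : RatFunc ℚ := RatFunc.X

lemma q_eq : q = algebraMap ℚ[X] (RatFunc ℚ) X := (RatFunc.algebraMap_X).symm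

lemma q_ne : q ≠ 0 := RatFunc.X_ne_zero

lemma q_pow_ne_one {j : ℕ} (hj : 0 < j) : q ^ j ≠ 1 := by
  intro h
  rw [q_eq, ← map_pow, ← map_one (algebraMap ℚ[X] (RatFunc ℚ))] at h
  have h1 := RatFunc.algebraMap_injective ℚ h
  have h2 := congrArg natDegree h1
  rw [natDegree_X_pow, natDegree_one] at h2
  omega

lemma qint_irr {p : ℕ} (hp : p.Prime) : Irreducible (qint p) := by
  have : Fact p.Prime := ⟨hp⟩
  have := cyclotomic.irreducible_rat hp.pos
  rw [cyclotomic_prime] at this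
  exact this

lemma qint_mul (p : ℕ) : (X - 1) * qint p = (X : ℚ[X]) ^ p - 1 := mul_geom_sum X p

lemma qint_mul' (p : ℕ) : algebraMap ℚ[X] (RatFunc ℚ) (qint p) * (q - 1) = q ^ p - 1 := by
  have := congrArg (algebraMap ℚ[X] (RatFunc ℚ)) (qint_mul p)
  rw [map_mul, map_sub, map_sub, map_pow, map_one, ← q_eq] at this
  rw [← this]; ring

/-- `X` is coprime to `[p]` -/
lemma cop_X {p : ℕ} (hp : 0 < p) : IsCoprime (X : ℚ[X]) (qint p) := by
  obtain ⟨n, rfl⟩ : ∃ n, p = n + 1 := ⟨p - 1, by omega⟩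
  unfold qint
  rw [sum_range_succ']
  refine ⟨-∑ i ∈ range n, X ^ i, 1, ?_⟩
  have : ∑ k ∈ range n, (X : ℚ[X]) ^ (k + 1) = (∑ i ∈ range n, X ^ i) * X := by
    rw [sum_mul]; apply sum_congr rfl; intro i _; ring
  rw [this]; ring

lemma cop_X_sub_one {p : ℕ} (hp : 0 < p) : IsCoprime (X - 1 : ℚ[X]) (qint p) := by
  have h1 : Irreducible (X - 1 : ℚ[X]) := by
    have := irreducible_X_sub_C (1 : ℚ)
    rwa [C_1] at this
  rw [h1.coprime_iff_not_dvd]
  intro h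
  have h2 : (qint p).eval 1 = 0 := by
    obtain ⟨c, hc⟩ := h
    rw [hc]; simp
  unfold qint at h2
  rw [eval_finset_sum] at h2
  simp at h2
  omega

/-- `X^d - 1` is coprime to `[p]` if `p ∤ d` -/
lemma cop_pow {p d : ℕ} (hp : p.Prime) (hd : ¬ p ∣ d) : IsCoprime (X ^ d - 1 : ℚ[X]) (qint p) := by
  obtain ⟨e, he⟩ : ∃ e, d * e % p = 1 := by
    have hc : Nat.Coprime d p := ((Nat.Prime.coprime_iff_not_dvd hp).2 hd).symm
    have := Nat.exists_mul_mod_eq_one_of_coprime hc hp.one_lt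
    obtain ⟨m, _, hm⟩ := this
    exact ⟨m, hm⟩
  obtain ⟨k, hk⟩ : ∃ k, d * e = 1 + p * k := ⟨d * e / p, by have := Nat.mod_add_div (d * e) p; omega⟩
  have h1 : (X ^ d - 1 : ℚ[X]) ∣ X ^ (d * e) - 1 := by
    rw [pow_mul]
    have := sub_dvd_pow_sub_pow (X ^ d : ℚ[X]) 1 e
    rwa [one_pow] at this
  refine IsCoprime.of_isCoprime_of_dvd_left ?_ h1
  obtain ⟨c, hc⟩ : (qint p) ∣ (X : ℚ[X]) ^ (p * k) - 1 := by
    have h2 : (X ^ p - 1 : ℚ[X]) ∣ X ^ (p * k) - 1 := by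
      rw [pow_mul]
      have := sub_dvd_pow_sub_pow (X ^ p : ℚ[X]) 1 k
      rwa [one_pow] at this
    refine dvd_trans ?_ h2
    rw [← qint_mul]; exact dvd_mul_left _ _
  have e1 : (X : ℚ[X]) ^ (d * e) - 1 = (X - 1) + qint p * (X * c) := by
    rw [hk, pow_add, pow_one]
    linear_combination X * hc
  rw [e1]
  exact (cop_X_sub_one hp.pos).add_mul_left_left (X * c)

lemma q_mem (p : ℕ) : q ∈ O p := by rw [q_eq]; exact alg_mem p X

lemma q_inv_mem {p : ℕ} (hp : 0 < p) : q⁻¹ ∈ O p := by rw [q_eq]; exact inv_mem (cop_X hp)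

lemma inv_one_sub_mem {p d : ℕ} (hp : p.Prime) (hd : ¬ p ∣ d) : (1 - q ^ d)⁻¹ ∈ O p := by
  have h := (O p).neg_mem (inv_mem (cop_pow hp hd))
  rw [map_sub, map_pow, map_one, ← q_eq] at h
  have e : (1 - q ^ d)⁻¹ = -(q ^ d - 1)⁻¹ := by rw [← neg_sub, inv_neg]
  rw [e]; exact h

/-- if `p ∣ N` then `q^N - 1` is divisible by `[p]` -/
lemma dvd_q_pow {p N : ℕ} (h : p ∣ N) : ∃ y ∈ O p, q ^ N - 1 = algebraMap ℚ[X] (RatFunc ℚ) (qint p) * y := by
  obtain ⟨k, rfl⟩ := h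
  refine ⟨(q - 1) * ∑ i ∈ range k, (q ^ p) ^ i, ?_, ?_⟩
  · exact (O p).mul_mem ((O p).sub_mem (q_mem p) (O p).one_mem)
      ((O p).sum_mem (fun i _ => (O p).pow_mem ((O p).pow_mem (q_mem p) p) i))
  · rw [← mul_assoc, qint_mul', pow_mul]
    have := mul_geom_sum (q ^ p) k
    rw [this]

/-! ### functions given by polynomials over `O` at three points -/

def TriF (p : ℕ) (w v : RatFunc ℚ) (f : RatFunc ℚ → RatFunc ℚ) : Prop :=
  ∃ P : Polynomial (O p), P.eval₂ (O p).subtype 1 = f 1 ∧ P.eval₂ (O p).subtype w = f w ∧ P.eval₂ (O p).subtype v = f v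

variable {p : ℕ} {w v : RatFunc ℚ} {f f' : RatFunc ℚ → RatFunc ℚ}

lemma TriF.const {c : RatFunc ℚ} (hc : c ∈ O p) : TriF p w v (fun _ => c) :=
  ⟨C ⟨c, hc⟩, by simp, by simp, by simp⟩

lemma TriF.id : TriF p w v (fun u => u) := ⟨X, by simp, by simp, by simp⟩

lemma TriF.add (h : TriF p w v f) (h' : TriF p w v f') : TriF p w v (fun u => f u + f' u) := by
  obtain ⟨P, h1, h2, h3⟩ := h
  obtain ⟨P', h1', h2', h3'⟩ := h'
  exact ⟨P + P', by rw [eval₂_add, h1, h1'], by rw [eval₂_add, h2, h2'], by rw [eval₂_add, h3, h3']⟩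

lemma TriF.mul (h : TriF p w v f) (h' : TriF p w v f') : TriF p w v (fun u => f u * f' u) := by
  obtain ⟨P, h1, h2, h3⟩ := h
  obtain ⟨P', h1', h2', h3'⟩ := h'
  exact ⟨P * P', by rw [eval₂_mul, h1, h1'], by rw [eval₂_mul, h2, h2'], by rw [eval₂_mul, h3, h3']⟩

lemma TriF.sub (h : TriF p w v f) (h' : TriF p w v f') : TriF p w v (fun u => f u - f' u) := by
  have := h.add ((TriF.const (p := p) (w := w) (v := v) ((O p).neg_mem (O p).one_mem)).mul h')
  simpa [sub_eq_add_neg] using this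

lemma TriF.pow (h : TriF p w v f) (n : ℕ) : TriF p w v (fun u => f u ^ n) := by
  induction n with
  | zero => simpa using TriF.const (p := p) (w := w) (v := v) (O p).one_mem
  | succ n ih =>
    have := ih.mul h
    simpa [pow_succ] using this

lemma TriF.prod {s : Finset ℕ} {F : ℕ → RatFunc ℚ → RatFunc ℚ} (h : ∀ j ∈ s, TriF p w v (F j)) :
    TriF p w v (fun u => ∏ j ∈ s, F j u) := by
  induction s using Finset.induction_on with
  | empty => simpa using TriF.const (p := p) (w := w) (v := v) (O p).one_mem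
  | insert i s hi ih =>
    have h1 := (h i (mem_insert_self i s)).mul (ih (fun j hj => h j (mem_insert_of_mem hj)))
    simpa [prod_insert hi] using h1

lemma TriF.sum {s : Finset ℕ} {F : ℕ → RatFunc ℚ → RatFunc ℚ} (h : ∀ j ∈ s, TriF p w v (F j)) :
    TriF p w v (fun u => ∑ j ∈ s, F j u) := by
  induction s using Finset.induction_on with
  | empty => simpa using TriF.const (p := p) (w := w) (v := v) (O p).zero_mem
  | insert i s hi ih =>
    have h1 := (h i (mem_insert_self i s)).add (ih (fun j hj => h j (mem_insert_of_mem hj)))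
    simpa [sum_insert hi] using h1

lemma TriF.inv (hw : w ∈ O p) (hv : v ∈ O p) (hw' : w⁻¹ ∈ O p) (hv' : v⁻¹ ∈ O p) (hw0 : w ≠ 0) (hv0 : v ≠ 0) :
    TriF p w v (fun u => u⁻¹) := by
  have h1 : TriF p w v (fun u => (w⁻¹ * v⁻¹) * (u ^ 2 - (1 + w + v) * u + (w + v + w * v))) := by
    refine TriF.mul (TriF.const ((O p).mul_mem hw' hv')) (TriF.add (TriF.sub (TriF.id.pow 2) (TriF.mul (TriF.const ?_) TriF.id)) (TriF.const ?_))
    · exact (O p).add_mem ((O p).add_mem (O p).one_mem hw) hv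
    · exact (O p).add_mem ((O p).add_mem hw hv) ((O p).mul_mem hw hv)
  obtain ⟨P, a1, a2, a3⟩ := h1
  refine ⟨P, ?_, ?_, ?_⟩
  · rw [a1]; field_simp; ring
  · rw [a2]; field_simp; ring
  · rw [a3]; field_simp; ring

/-- a function vanishing at `1` and `w` -/
lemma TriF.vanish (h : TriF p w v f) (hw : w ∈ O p) (hv : v ∈ O p) (hw1 : w ≠ 1) (h1 : f 1 = 0) (h2 : f w = 0) :
    ∃ y ∈ O p, f v = (v - 1) * (v - w) * y := by
  obtain ⟨P, a1, a2, a3⟩ := h
  have key : ∀ x : O p, P.eval₂ (O p).subtype (x : RatFunc ℚ) = ((P.eval x : O p) : RatFunc ℚ) := by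
    intro x
    exact eval₂_at_apply (O p).subtype x
  set w' : O p := ⟨w, hw⟩
  set v' : O p := ⟨v, hv⟩
  have b1 : P.eval (1 : O p) = 0 := by
    have := key 1
    apply Subtype.ext
    rw [← this]
    show eval₂ (O p).subtype (1 : RatFunc ℚ) P = 0
    rw [a1, h1]
  have b2 : P.eval w' = 0 := by
    have := key w'
    apply Subtype.ext
    rw [← this]
    show eval₂ (O p).subtype w P = 0
    rw [a2, h2]
  obtain ⟨P1, hP1⟩ := dvd_iff_isRoot.2 (show P.IsRoot 1 from b1)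
  have b3 : P1.eval w' = 0 := by
    rw [hP1, eval_mul] at b2
    rcases mul_eq_zero.1 b2 with h5 | h5
    · exfalso
      apply hw1
      rw [eval_sub, eval_X, eval_C, sub_eq_zero] at h5
      exact congrArg Subtype.val h5
    · exact h5
  obtain ⟨P2, hP2⟩ := dvd_iff_isRoot.2 (show P1.IsRoot w' from b3)
  refine ⟨((P2.eval v' : O p) : RatFunc ℚ), (P2.eval v').2, ?_⟩
  rw [← a3]
  have := key v'
  show eval₂ (O p).subtype ((v' : O p) : RatFunc ℚ) P = _
  rw [this, hP1, hP2]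
  simp only [eval_mul, eval_sub, eval_X, eval_C]
  push_cast
  ring

end

end Pool.Agent.X14.QLoc
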