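import Pool.Agent.X14.QLoc

set_option autoImplicit false

/-! The congruence mod `[p]^2` between the two truncated sums. -/

namespace Pool.Agent.X14.QMain

open Finset Polynomial Pool.Agent.X14.QLeg Pool.Agent.X14.QLoc

noncomputable section

/-- `c_k` -/
def c (m r k : ℕ) : RatFunc ℚ :=
  ∏ j ∈ range k, ((1 - q ^ ((r : ℤ) + j * m)) * (1 - q ^ ((m : ℤ) - r + j * m))) / (1 - q ^ ((j + 1) * m)) ^ 2

/-- `S(x)` -/
def S (p m r : ℕ) : (RatFunc ℚ)[X] := ∑ k ∈ range p, C (c m r k) * X ^ k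

/-- `T(x)` -/
def T (p m r : ℕ) : (RatFunc ℚ)[X] :=
  ∑ k ∈ range p, C (c m r k * q ^ (m * k)) * ∏ j ∈ range k, (1 - X * C (q ^ (j * m)))

/-- the congruence `A ≡ 0 (mod [p]^2)` -/
def CongZero (p : ℕ) (A : (RatFunc ℚ)[X]) : Prop := ∀ i : ℕ, (qint p) ^ 2 ∣ (A.coeff i).num

lemma coeff_prod (Q : RatFunc ℚ) : ∀ k i : ℕ, (∏ j ∈ range k, (1 - X * C (Q ^ j))).coeff i = B Q k i := by
  intro k
  induction k with
  | zero =>
    intro i
    rcases i with _ | i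
    · simp [B]
    · simp [B, coeff_one]
  | succ k ih =>
    intro i
    rw [prod_range_succ]
    have e : (∏ j ∈ range k, (1 - X * C (Q ^ j))) * (1 - X * C (Q ^ k)) =
        (∏ j ∈ range k, (1 - X * C (Q ^ j))) - C (Q ^ k) * ((∏ j ∈ range k, (1 - X * C (Q ^ j))) * X) := by ring
    rw [e, coeff_sub, coeff_C_mul]
    rcases i with _ | i
    · rw [ih 0]; simp [B]
    · rw [coeff_mul_X, ih, ih]
      rfl

lemma S_coeff (p m r i : ℕ) : (S p m r).coeff i = if i < p then c m r i else 0 := by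
  unfold S
  rw [finset_sum_coeff]
  simp only [coeff_C_mul_X_pow]
  rw [Finset.sum_ite_eq]
  simp only [mem_range]

lemma T_coeff (p m r i : ℕ) : (T p m r).coeff i = ∑ k ∈ range p, c m r k * (q ^ m) ^ k * B (q ^ m) k i := by
  unfold T
  rw [finset_sum_coeff]
  apply sum_congr rfl
  intro k _
  rw [coeff_C_mul, ← coeff_prod, pow_mul]
  have e : ∀ j : ℕ, (1 - X * C (q ^ (j * m)) : (RatFunc ℚ)[X]) = 1 - X * C ((q ^ m) ^ j) := by
    intro j
    rw [← pow_mul, mul_comm j m]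
  simp_rw [e]

lemma c_eq {m r n k : ℕ} : c m r k = cc (q ^ m) (q ^ (r + n * m)) n k := by
  unfold c cc
  apply prod_congr rfl
  intro j _
  have hq := q_ne
  have e1 : q ^ ((r : ℤ) + j * m) = q ^ (r + n * m) * (q ^ m) ^ j / (q ^ m) ^ n := by
    rw [eq_div_iff (pow_ne_zero _ (pow_ne_zero _ hq)), ← pow_mul, ← pow_mul, ← pow_add, ← zpow_natCast, ← zpow_natCast,
      ← zpow_add₀ hq]
    congr 1; push_cast; ring
  have e2 : q ^ ((m : ℤ) - r + j * m) = (q ^ m) ^ (n + 1 + j) / q ^ (r + n * m) := by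
    rw [eq_div_iff (pow_ne_zero _ hq), ← pow_mul, ← zpow_natCast, ← zpow_natCast, ← zpow_add₀ hq]
    congr 1; push_cast; ring
  have e3 : q ^ ((j + 1) * m) = (q ^ m) ^ (j + 1) := by rw [← pow_mul, mul_comm]
  rw [e1, e2, e3]

/-- value at `x = 1` -/
lemma T_eval (p m r : ℕ) (hp : 0 < p) : (T p m r).eval 1 = 1 := by
  unfold T
  rw [eval_finset_sum]
  obtain ⟨P, rfl⟩ : ∃ P, p = P + 1 := ⟨p - 1, by omega⟩
  rw [sum_range_succ']
  have e1 : ∑ k ∈ range P, (C (c m r (k + 1) * q ^ (m * (k + 1))) * ∏ j ∈ range (k + 1), (1 - X * C (q ^ (j * m)))).eval 1 = 0 := by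
    apply sum_eq_zero
    intro k _
    rw [prod_range_succ', eval_mul, eval_mul]
    simp
  rw [e1, zero_add]
  simp [c]

lemma sum_prod_pow (Q : RatFunc ℚ) (n : ℕ) : ∏ j ∈ range (n + 1), Q ^ j = Q ^ (n * (n + 1) / 2) := by
  rw [Finset.prod_pow_eq_pow_sum]
  congr 1
  have := Finset.sum_range_id_mul_two (n + 1)
  rw [Nat.add_sub_cancel] at this
  rw [← Nat.div_eq_of_eq_mul_left (by norm_num) this.symm, mul_comm]

/-- the exponent -/
def fexp (p m r n : ℕ) : ℤ := ((r : ℤ) + n * m) * ((n : ℤ) - ((p - 1) / 2 : ℕ)) - m * ((n * (n + 1) / 2 : ℕ) : ℤ)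

theorem holds {p m r n : ℕ} (hp : p.Prime) (h2 : p ≠ 2) (hm : 1 ≤ m) (hpm : ¬ p ∣ m) (hn : n < p) (hnr : p ∣ r + n * m) :
    ∀ i : ℕ, ∃ y ∈ O p, (S p m r - C ((-1) ^ n * q ^ (fexp p m r n)) * T p m r).coeff i =
      algebraMap ℚ[X] (RatFunc ℚ) (qint p) ^ 2 * y := by
  intro i
  have hq := q_ne
  set Q : RatFunc ℚ := q ^ m with hQdef
  have hQ0 : Q ≠ 0 := pow_ne_zero _ hq
  have hQ : ∀ j : ℕ, 0 < j → Q ^ j ≠ 1 := by
    intro j hj
    rw [hQdef, ← pow_mul]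
    exact q_pow_ne_one (Nat.mul_pos hm hj)
  set v : RatFunc ℚ := q ^ (r + n * m) with hv
  set w : RatFunc ℚ := Q ^ p with hw
  obtain ⟨h, hh⟩ : ∃ h, p = 2 * h + 1 := by
    rcases hp.eq_two_or_odd' with h | h
    · exact absurd h h2
    · exact h
  have hh2 : (p - 1) / 2 = h := by omega
  obtain ⟨n', hn'⟩ : ∃ n', p = n + n' + 1 := ⟨p - 1 - n, by omega⟩
  rw [coeff_sub, coeff_C_mul, S_coeff, T_coeff]
  have hT : ∑ k ∈ range p, c m r k * Q ^ k * B Q k i = TT Q v n p i := by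
    unfold TT
    apply sum_congr rfl
    intro k _
    rw [c_eq (n := n)]
  rw [hT]
  by_cases hi : i < p
  swap
  · rw [if_neg hi]
    refine ⟨0, (O p).zero_mem, ?_⟩
    have : TT Q v n p i = 0 := by
      unfold TT
      apply sum_eq_zero
      intro k hk
      rw [B_zero_of_lt k i (by have := mem_range.1 hk; omega), mul_zero]
    rw [this]; ring
  rw [if_pos hi, c_eq (n := n)]
  have hv0 : v ≠ 0 := pow_ne_zero _ hq
  have hw0 : w ≠ 0 := pow_ne_zero _ hQ0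
  have hqO := q_mem p
  have hqiO := q_inv_mem (p := p) hp.pos
  have hQO : Q ∈ O p := (O p).pow_mem hqO m
  have hQiO : Q⁻¹ ∈ O p := by rw [hQdef, ← inv_pow]; exact (O p).pow_mem hqiO m
  have hvO : v ∈ O p := (O p).pow_mem hqO _
  have hviO : v⁻¹ ∈ O p := by rw [hv, ← inv_pow]; exact (O p).pow_mem hqiO _
  have hwO : w ∈ O p := (O p).pow_mem hQO _
  have hwiO : w⁻¹ ∈ O p := by rw [hw, ← inv_pow]; exact (O p).pow_mem hQiO _
  have hw1 : w ≠ 1 := hQ p hp.pos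
  have hinv : TriF p w v (fun u => u⁻¹) := TriF.inv hwO hvO hwiO hviO hw0 hv0
  have hcc : ∀ k < p, TriF p w v (fun u => cc Q u n k) := by
    intro k hk
    have h1 : TriF p w v (fun u => ∏ j ∈ range k, ((1 - (Q ^ j * Q⁻¹ ^ n) * u) * (1 - Q ^ (n + 1 + j) * u⁻¹) * ((1 - Q ^ (j + 1))⁻¹ ^ 2))) := by
      apply TriF.prod
      intro j hj
      have hj' := mem_range.1 hj
      refine TriF.mul (TriF.mul ?_ ?_) ?_
      · exact TriF.sub (TriF.const (O p).one_mem) (TriF.mul (TriF.const ((O p).mul_mem ((O p).pow_mem hQO j) ((O p).pow_mem hQiO n))) TriF.id)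
      · exact TriF.sub (TriF.const (O p).one_mem) (TriF.mul (TriF.const ((O p).pow_mem hQO _)) hinv)
      · refine TriF.const ((O p).pow_mem ?_ 2)
        rw [hQdef, ← pow_mul]
        apply inv_one_sub_mem hp
        intro hd
        rcases (Nat.Prime.dvd_mul hp).1 hd with h5 | h5
        · exact hpm h5
        · have := Nat.le_of_dvd (by omega) h5; omega
    have e : (fun u => cc Q u n k) = (fun u => ∏ j ∈ range k, ((1 - (Q ^ j * Q⁻¹ ^ n) * u) * (1 - Q ^ (n + 1 + j) * u⁻¹) * ((1 - Q ^ (j + 1))⁻¹ ^ 2))) := by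
      funext u
      unfold cc
      apply prod_congr rfl
      intro j _
      rw [inv_pow, inv_pow, div_eq_mul_inv, div_eq_mul_inv, div_eq_mul_inv]
      ring
    rw [e]; exact h1
  have hBO : ∀ k i : ℕ, B Q k i ∈ O p := by
    intro k
    induction k with
    | zero =>
      intro i
      rcases i with _ | i
      · exact (O p).one_mem
      · exact (O p).zero_mem
    | succ k ih =>
      intro i
      rcases i with _ | i
      · exact ih 0
      · exact (O p).sub_mem (ih _) ((O p).mul_mem ((O p).pow_mem hQO k) (ih _))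
  have hTT : TriF p w v (fun u => TT Q u n p i) := by
    unfold TT
    apply TriF.sum
    intro k hk
    exact TriF.mul (TriF.mul (hcc k (mem_range.1 hk)) (TriF.const ((O p).pow_mem hQO k))) (TriF.const (hBO k i))
  set A : RatFunc ℚ := (-1) ^ n * (∏ j ∈ range (n + 1), Q ^ j)⁻¹ with hA
  have hprod0 : ∏ j ∈ range (n + 1), Q ^ j ≠ 0 := prod_ne_zero_iff.2 (fun j _ => pow_ne_zero _ hQ0)
  have hAO : A ∈ O p := by
    refine (O p).mul_mem ((O p).pow_mem ((O p).neg_mem (O p).one_mem) n) ?_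
    rw [sum_prod_pow, ← inv_pow]
    exact (O p).pow_mem hQiO _
  have hE : TriF p w v (fun u => cc Q u n i - A * (u ^ n * u⁻¹ ^ h) * TT Q u n p i) :=
    TriF.sub (hcc i hi) (TriF.mul (TriF.mul (TriF.const hAO) (TriF.mul (TriF.id.pow n) (hinv.pow h))) hTT)
  have hE1 : cc Q 1 n i - A * (1 ^ n * (1 : RatFunc ℚ)⁻¹ ^ h) * TT Q 1 n p i = 0 := by
    rw [transform hQ0 hQ hn i, hA, inv_one, one_pow, one_pow]
    have h5 : ((-1 : RatFunc ℚ) ^ n) * (-1) ^ n = 1 := by rw [← mul_pow]; norm_num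
    have h6 : (∏ j ∈ range (n + 1), Q ^ j)⁻¹ * ∏ j ∈ range (n + 1), Q ^ j = 1 := inv_mul_cancel₀ hprod0
    linear_combination (-(cc Q 1 n i)) * h5 - (cc Q 1 n i) * ((-1 : RatFunc ℚ) ^ n * (-1) ^ n) * h6
  have hE2 : cc Q w n i - A * (w ^ n * w⁻¹ ^ h) * TT Q w n p i = 0 := by
    have hcw : ∀ k, cc Q w n k = cc Q 1 n' k := fun k => cc_reflect hQ0 hn' k
    have hTw : TT Q w n p i = TT Q 1 n' p i := by
      unfold TT
      apply sum_congr rfl
      intro k _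
      rw [hcw]
    rw [hcw, hTw, transform hQ0 hQ (show n' < p by omega) i, hA]
    have hwh : w ^ h ≠ 0 := pow_ne_zero _ hw0
    have h5 : ((-1 : RatFunc ℚ) ^ n) * (-1) ^ n' = 1 := by
      rw [← pow_add]
      have : n + n' = 2 * h := by omega
      rw [this, pow_mul]; norm_num
    have h6 : w ^ n * ∏ j ∈ range (n' + 1), Q ^ j = w ^ h * ∏ j ∈ range (n + 1), Q ^ j := by
      have b1 : w ^ n = Q ^ (p * n) := (pow_mul Q p n).symm
      have b2 : w ^ h = Q ^ (p * h) := (pow_mul Q p h).symm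
      rw [sum_prod_pow, sum_prod_pow, b1, b2, ← pow_add, ← pow_add]
      congr 1
      have a1 : n * (n + 1) / 2 * 2 = n * (n + 1) := Nat.div_mul_cancel (Nat.even_mul_succ_self n).two_dvd
      have a2 : n' * (n' + 1) / 2 * 2 = n' * (n' + 1) := Nat.div_mul_cancel (Nat.even_mul_succ_self n').two_dvd
      have a3 : 2 * h = n + n' := by omega
      apply Nat.eq_of_mul_eq_mul_right (show 0 < 2 by norm_num)
      rw [add_mul, add_mul, a1, a2]
      have a4 : p * h * 2 = p * (n + n') := by rw [← a3]; ring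
      rw [a4, hn']
      ring
    have h7 : w⁻¹ ^ h * w ^ h = 1 := by rw [inv_pow]; exact inv_mul_cancel₀ hwh
    have h8 : (∏ j ∈ range (n + 1), Q ^ j)⁻¹ * ∏ j ∈ range (n + 1), Q ^ j = 1 := inv_mul_cancel₀ hprod0
    set c0 := cc Q 1 n' i
    set P1 := ∏ j ∈ range (n + 1), Q ^ j
    set P2 := ∏ j ∈ range (n' + 1), Q ^ j
    have e : c0 - (-1) ^ n * P1⁻¹ * (w ^ n * w⁻¹ ^ h) * ((-1) ^ n' * P2 * c0) =
        c0 * (1 - ((-1) ^ n * (-1) ^ n') * (P1⁻¹ * (w⁻¹ ^ h * (w ^ n * P2)))) := by ring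
    rw [e, h5, h6]
    have e2 : P1⁻¹ * (w⁻¹ ^ h * (w ^ h * P1)) = (w⁻¹ ^ h * w ^ h) * (P1⁻¹ * P1) := by ring
    rw [e2, h7, h8]; ring
  obtain ⟨y, hy, hyv⟩ := TriF.vanish hE hwO hvO hw1 hE1 hE2
  -- the exponent
  have hexp : A * (v ^ n * v⁻¹ ^ h) = (-1) ^ n * q ^ (fexp p m r n) := by
    rw [hA, mul_assoc]
    congr 1
    rw [sum_prod_pow, hQdef, hv, inv_pow, ← pow_mul, ← pow_mul, ← pow_mul, ← zpow_natCast, ← zpow_natCast, ← zpow_natCast,
      ← zpow_neg, ← zpow_neg, ← zpow_add₀ hq, ← zpow_add₀ hq]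
    congr 1
    unfold fexp
    rw [hh2]
    push_cast
    ring
  rw [← hexp, hyv]
  obtain ⟨y1, hy1, e1⟩ := dvd_q_pow (p := p) (N := r + n * m) hnr
  obtain ⟨y2, hy2, e2⟩ := dvd_q_pow (p := p) (N := m * p) (dvd_mul_left p m)
  have e3 : v - 1 = algebraMap ℚ[X] (RatFunc ℚ) (qint p) * y1 := e1
  have e4 : v - w = algebraMap ℚ[X] (RatFunc ℚ) (qint p) * (y1 - y2) := by
    have : w - 1 = algebraMap ℚ[X] (RatFunc ℚ) (qint p) * y2 := by rw [hw, hQdef, ← pow_mul]; exact e2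
    linear_combination e3 - this
  refine ⟨y1 * (y1 - y2) * y, (O p).mul_mem ((O p).mul_mem hy1 ((O p).sub_mem hy1 hy2)) hy, ?_⟩
  rw [e3, e4]
  ring

/-- a polynomial all of whose coefficients are divisible has divisible value at `1` -/
lemma eval_one_mem {p : ℕ} {A : (RatFunc ℚ)[X]} (h : ∀ i : ℕ, ∃ y ∈ O p, A.coeff i = algebraMap ℚ[X] (RatFunc ℚ) (qint p) ^ 2 * y) :
    ∃ y ∈ O p, A.eval 1 = algebraMap ℚ[X] (RatFunc ℚ) (qint p) ^ 2 * y := by
  choose y hy1 hy2 using h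
  refine ⟨∑ i ∈ range (A.natDegree + 1), y i, (O p).sum_mem (fun i _ => hy1 i), ?_⟩
  rw [eval_eq_sum_range, mul_sum]
  apply sum_congr rfl
  intro i _
  rw [one_pow, mul_one, hy2]

lemma not_dvd_pow {p d : ℕ} (hp : p.Prime) (hd : 0 < d) {y : RatFunc ℚ} (hy : y ∈ O p)
    (h : q ^ d - 1 = algebraMap ℚ[X] (RatFunc ℚ) (qint p) ^ 2 * y) : False := by
  obtain ⟨a, b, h1, h2⟩ := hy
  have h3 : algebraMap ℚ[X] (RatFunc ℚ) ((X ^ d - 1) * b) = algebraMap ℚ[X] (RatFunc ℚ) ((qint p) ^ 2 * a) := by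
    rw [map_mul, map_mul, map_pow _ (qint p), ← h2, map_sub, map_pow, map_one, ← q_eq, h]
    ring
  have h4 := RatFunc.algebraMap_injective ℚ h3
  have h5 : (qint p) ^ 2 ∣ (X ^ d - 1 : ℚ[X]) := by
    have : (qint p) ^ 2 ∣ (X ^ d - 1) * b := ⟨_, h4⟩
    exact (h1.symm.pow_left).dvd_of_dvd_mul_right this
  have hsq : Squarefree (X ^ d - 1 : ℚ[X]) := by
    apply Separable.squarefree
    have := separable_X_pow_sub_C (1 : ℚ) (n := d) (by exact_mod_cast hd.ne') one_ne_zero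
    rwa [C_1] at this
  have h6 := hsq (qint p) (by rwa [← sq])
  exact (qint_irr hp).not_isUnit h6

/-- uniqueness -/
theorem unique {p m r n : ℕ} (hp : p.Prime) {f f' : ℤ}
    (h : ∀ i : ℕ, ∃ y ∈ O p, (S p m r - C ((-1) ^ n * q ^ f) * T p m r).coeff i = algebraMap ℚ[X] (RatFunc ℚ) (qint p) ^ 2 * y)
    (h' : ∀ i : ℕ, ∃ y ∈ O p, (S p m r - C ((-1) ^ n * q ^ f') * T p m r).coeff i = algebraMap ℚ[X] (RatFunc ℚ) (qint p) ^ 2 * y) :
    f = f' := by
  have key : ∀ f f' : ℤ, f' < f → (∀ i : ℕ, ∃ y ∈ O p, (S p m r - C ((-1) ^ n * q ^ f) * T p m r).coeff i = algebraMap ℚ[X] (RatFunc ℚ) (qint p) ^ 2 * y) →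
      (∀ i : ℕ, ∃ y ∈ O p, (S p m r - C ((-1) ^ n * q ^ f') * T p m r).coeff i = algebraMap ℚ[X] (RatFunc ℚ) (qint p) ^ 2 * y) → False := by
    intro f f' hlt h h'
    obtain ⟨y, hy, e⟩ := eval_one_mem h
    obtain ⟨y', hy', e'⟩ := eval_one_mem h'
    rw [eval_sub, eval_mul, eval_C, T_eval p m r hp.pos, mul_one] at e e'
    obtain ⟨d, hd⟩ : ∃ d : ℕ, f = f' + d := ⟨(f - f').toNat, by omega⟩
    have hd0 : 0 < d := by omega
    have hq := q_ne
    have hneg : ((-1 : RatFunc ℚ) ^ n) * (-1) ^ n = 1 := by rw [← mul_pow]; norm_num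
    have hf : q ^ f = q ^ f' * q ^ d := by rw [hd, zpow_add₀ hq, zpow_natCast]
    have hinv : (q ^ f')⁻¹ ∈ O p := by
      rcases Int.eq_nat_or_neg f' with ⟨k, hk | hk⟩
      · rw [hk, zpow_natCast, ← inv_pow]; exact (O p).pow_mem (q_inv_mem hp.pos) k
      · rw [hk, zpow_neg, inv_inv, zpow_natCast]; exact (O p).pow_mem (q_mem p) k
    apply not_dvd_pow hp hd0 (y := (-1) ^ n * (q ^ f')⁻¹ * (y' - y))
      ((O p).mul_mem ((O p).mul_mem ((O p).pow_mem ((O p).neg_mem (O p).one_mem) n) hinv) ((O p).sub_mem hy' hy))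
    have hqf : q ^ f' ≠ 0 := zpow_ne_zero _ hq
    have e5 : algebraMap ℚ[X] (RatFunc ℚ) (qint p) ^ 2 * (y' - y) = (-1) ^ n * q ^ f' * (q ^ d - 1) := by
      rw [hf] at e
      linear_combination e - e'
    have e6 : (q ^ f')⁻¹ * q ^ f' = 1 := inv_mul_cancel₀ hqf
    calc q ^ d - 1 = ((-1 : RatFunc ℚ) ^ n * (-1) ^ n) * ((q ^ f')⁻¹ * q ^ f') * (q ^ d - 1) := by rw [hneg, e6]; ring
      _ = (-1) ^ n * (q ^ f')⁻¹ * ((-1) ^ n * q ^ f' * (q ^ d - 1)) := by ring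
      _ = _ := by rw [← e5]; ring
  rcases lt_trichotomy f f' with h1 | h1 | h1
  · exact (key f' f h1 h' h).elim
  · exact h1
  · exact (key f f' h1 h h').elim

/-- the congruence holds exactly for the exponent `fexp` -/
theorem main {p m r n : ℕ} (hp : p.Prime) (h2 : p ≠ 2) (hm : 1 ≤ m) (hpm : ¬ p ∣ m) (hn : n < p) (hnr : p ∣ r + n * m) (f : ℤ) :
    CongZero p (S p m r - C ((-1) ^ n * q ^ f) * T p m r) ↔ f = fexp p m r n := by
  constructor
  · intro h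
    exact unique hp (fun i => of_num_dvd (by norm_num) (qint_irr hp) (h i)) (holds hp h2 hm hpm hn hnr)
  · rintro rfl
    intro i
    obtain ⟨y, hy, e⟩ := holds hp h2 hm hpm hn hnr i
    exact num_dvd hy e

/-- the residue -/
lemma res_spec {p m r : ℕ} (hp : p.Prime) (hpm : ¬ p ∣ m) :
    (-(r : ZMod p) * (m : ZMod p)⁻¹).val < p ∧ p ∣ r + (-(r : ZMod p) * (m : ZMod p)⁻¹).val * m := by
  have : Fact p.Prime := ⟨hp⟩
  refine ⟨ZMod.val_lt _, ?_⟩
  rw [← ZMod.natCast_eq_zero_iff]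
  push_cast
  rw [ZMod.natCast_zmod_val]
  have hm0 : (m : ZMod p) ≠ 0 := by rw [Ne, ZMod.natCast_eq_zero_iff]; exact hpm
  field_simp
  ring

/-- the residue is determined -/
lemma res_unique {p m r n : ℕ} (hp : p.Prime) (hpm : ¬ p ∣ m) (hn : n < p) (hnr : p ∣ r + n * m) :
    (-(r : ZMod p) * (m : ZMod p)⁻¹).val = n := by
  have : Fact p.Prime := ⟨hp⟩
  have hm0 : (m : ZMod p) ≠ 0 := by rw [Ne, ZMod.natCast_eq_zero_iff]; exact hpm
  have h1 : (r : ZMod p) + n * m = 0 := by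
    have := (ZMod.natCast_eq_zero_iff (r + n * m) p).2 hnr
    push_cast at this; exact this
  have h2 : -(r : ZMod p) * (m : ZMod p)⁻¹ = n := by
    rw [← div_eq_mul_inv, div_eq_iff hm0]
    linear_combination -h1
  rw [h2, ZMod.val_natCast, Nat.mod_eq_of_lt hn]

end

end Pool.Agent.X14.QMain
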