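import Pool.Agent.X14.QR2

set_option autoImplicit false

/-! Divisibility by `Φ_n^3` of the sums of `d`-th powers: the second order term. -/

namespace Pool.Agent.X14.QR

open Finset Polynomial Pool.Agent.X14.QL Pool.Agent.X14.QBlock

noncomputable section

variable {d r K n l : ℕ} {s : ℤ}

/-- the polynomial terms -/
def FF (d r l : ℕ) (s : ℤ) (k : ℕ) : RatFunc ℚ := W d l s k * PP d r k ^ d

lemma FF_mem (hn : 0 < n) (k : ℕ) : FF d r l s k ∈ Loc (cyclotomic n ℚ) :=
  (Loc _).mul_mem (W_mem hn k) ((Loc _).pow_mem (PP_mem hn k) _)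

/-- the terms of the exactly summable series modulo `Φ` -/
lemma BB_eqm (H : Hyp d r K n l s) {k : ℕ} (hk : k < n) :
    Eqm (cyclotomic n ℚ) 1 (BB d r n k) (PP d r k ^ d * (PP d r 0)⁻¹ ^ d) := by
  have hd := H.hd
  have e1 : PP d r k ^ d * (PP d r 0)⁻¹ ^ d = ∏ j ∈ range k, (e ((d : ℤ) * (r + 1 + j)) * e ((d : ℤ) * (r + 1 + j)) ^ (d - 1) * (e ((d : ℤ) * (j + 1)))⁻¹ ^ d) := by
    have h1 := prod_exch d r k
    have h2 := den_ne (show 0 < d by omega) k
    have h3 := PP0_ne (r := r) (show 0 < d by omega) 0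
    have h4 : ∏ j ∈ range k, (e ((d : ℤ) * (r + 1 + j)) * e ((d : ℤ) * (r + 1 + j)) ^ (d - 1) * (e ((d : ℤ) * (j + 1)))⁻¹ ^ d) =
        ((∏ j ∈ range k, e ((d : ℤ) * (r + 1 + j))) * (∏ j ∈ range k, e ((d : ℤ) * (j + 1)))⁻¹) ^ d := by
      rw [← prod_inv_distrib, ← prod_mul_distrib, ← prod_pow]
      apply prod_congr rfl
      intro j _
      rw [mul_pow, ← pow_succ', Nat.sub_add_cancel (by omega)]
    rw [h4, ← mul_pow]
    congr 1
    field_simp
    linear_combination -h1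
  rw [e1]
  unfold BB
  apply Eqm.prod
  · intro j hj
    have := mem_range.1 hj
    have h1 := e_shift H.hn ((d : ℤ) * (r + 1 + j)) (-(d : ℤ))
    have h2 : (d : ℤ) * (r + 1 + j) + -(d : ℤ) * n = (d : ℤ) * (r + 1 + j) - d * n := by ring
    rw [h2] at h1
    have hm := (Loc _).pow_mem (e_inv H.hn (nd H.hcop (a := (j : ℤ) + 1) (by omega) (by omega))) d
    exact (h1.mul (Eqm.refl _) (e_mem H.hn _) ((Loc _).pow_mem (e_mem H.hn _) _)).mul (Eqm.refl _)
      ((Loc _).mul_mem (e_mem H.hn _) ((Loc _).pow_mem (e_mem H.hn _) _)) hm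
  · intro j hj
    have := mem_range.1 hj
    exact (Loc _).mul_mem ((Loc _).mul_mem (e_mem H.hn _) ((Loc _).pow_mem (e_mem H.hn _) _))
      ((Loc _).pow_mem (e_inv H.hn (nd H.hcop (by omega) (by omega))) _)

lemma PP0_inv (H : Hyp d r K n l s) : (PP d r 0)⁻¹ ∈ Loc (cyclotomic n ℚ) := by
  unfold PP
  rw [← prod_inv_distrib]
  apply (Loc _).prod_mem
  intro i hi
  have := mem_range.1 hi
  have := H.hK
  exact e_inv H.hn (nd H.hcop (by push_cast; omega) (by push_cast; omega))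

/-- `PP` vanishes modulo `Φ` beyond `K` -/
lemma PP_QO (H : Hyp d r K n l s) {k : ℕ} (hk : K < k) (hkn : k < n) : QO (cyclotomic n ℚ) 1 (PP d r k) := by
  have := H.hK
  apply QO_prod (fun i _ => e_mem H.hn _) (i := n - k - 1) (mem_range.2 (by omega))
  apply e_QO H.hn
  have : (k : ℤ) + ((n - k - 1 : ℕ) : ℤ) + 1 = n := by omega
  rw [this]
  exact dvd_mul_left _ _

/-- the polynomial with the values `PP` -/
def pp (d r n : ℕ) (hn : 0 < n) : (Loc (cyclotomic n ℚ))[X] :=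
  ∏ i ∈ range r, (1 - C ⟨q ^ (d * (i + 1)), (Loc _).pow_mem (q_mem _) _⟩ * X)

lemma pp_eval (hn : 0 < n) (k : ℕ) :
    (pp d r n hn).eval₂ (Loc (cyclotomic n ℚ)).subtype (q ^ (d * k)) = PP d r k := by
  unfold pp PP
  rw [Polynomial.eval₂_finsetProd]
  apply prod_congr rfl
  intro i _
  rw [Polynomial.eval₂_sub, Polynomial.eval₂_one, Polynomial.eval₂_mul, Polynomial.eval₂_C, Polynomial.eval₂_X, Subring.subtype_apply]
  unfold e
  congr 1
  rw [← pow_add, ← zpow_natCast q]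
  congr 1; push_cast; ring

lemma lin_deg {R : Type*} [Ring R] (a : R) : (1 - C a * X : R[X]).natDegree ≤ 1 :=
  (natDegree_sub_le _ _).trans (max_le (by simp) ((natDegree_C_mul_le _ _).trans natDegree_X_le))

lemma pp_deg (hn : 0 < n) : (pp d r n hn).natDegree ≤ r := by
  unfold pp
  refine (natDegree_prod_le _ _).trans ?_
  refine (sum_le_sum (fun i _ => lin_deg _)).trans ?_
  simp

lemma W_eq (hl0 : 0 < l) (k : ℕ) : W d l s k = q ^ (d * k) * ((q ^ (d * k)) ^ (l - 1) * (1 - q ^ s * (q ^ (d * k)) ^ 2)) := by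
  obtain ⟨l', rfl⟩ : ∃ l', l = l' + 1 := ⟨l - 1, by omega⟩
  unfold W e
  have h1 : q ^ (s + 2 * (d : ℤ) * k) = q ^ s * (q ^ (d * k)) ^ 2 := by
    rw [zpow_add₀ q_ne, ← pow_mul, ← zpow_natCast q (d * k * 2)]
    congr 2; push_cast; ring
  have h2 : q ^ ((d : ℤ) * ((l' + 1 : ℕ) : ℤ) * k) = q ^ (d * k) * (q ^ (d * k)) ^ l' := by
    rw [← pow_mul, ← pow_add, ← zpow_natCast q]
    congr 1; push_cast; ring
  rw [h1, h2, Nat.add_sub_cancel]
  ring

/-- `∑ F ≡ 0` -/
lemma sum_FF (H : Hyp d r K n l s) : QO (cyclotomic n ℚ) 1 (∑ k ∈ range (K + 1), FF d r l s k) := by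
  have hn := H.hn
  have hd := H.hd
  have hK := H.hK
  have hl0 := H.hl0
  set f : (Loc (cyclotomic n ℚ))[X] := X ^ (l - 1) * (1 - C ⟨q ^ s, zmem hn s⟩ * X ^ 2) * pp d r n hn ^ d with hf
  have hdeg : f.natDegree + 1 < n := by
    have h1 : f.natDegree ≤ (l - 1) + 2 + d * r := by
      rw [hf]
      refine (natDegree_mul_le).trans (Nat.add_le_add ((natDegree_mul_le).trans (Nat.add_le_add (natDegree_X_pow_le _) ?_)) ?_)
      · exact (natDegree_sub_le _ _).trans (max_le (by simp) ((natDegree_C_mul_le _ _).trans (natDegree_X_pow_le _)))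
      · exact (natDegree_pow_le).trans (Nat.mul_le_mul_left _ (pp_deg hn))
    have h3 : ((l - 1 + 2 + d * r : ℕ) : ℤ) + 1 < n := by
      have e2 : ((l - 1 : ℕ) : ℤ) = (l : ℤ) - 1 := by push_cast [Nat.cast_sub (show 1 ≤ l by omega)]; ring
      have h4 := H.hr
      have h5 := H.hl
      push_cast
      rw [e2]
      nlinarith
    have h4 : l - 1 + 2 + d * r + 1 < n := by exact_mod_cast h3
    omega
  have h1 := poly_moment1 H.hcop f hdeg
  have h2 : ∀ k, q ^ (d * k) * f.eval₂ (Loc (cyclotomic n ℚ)).subtype (q ^ (d * k)) = FF d r l s k := by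
    intro k
    rw [hf]
    unfold FF
    rw [W_eq hl0]
    simp only [Polynomial.eval₂_mul, Polynomial.eval₂_pow, Polynomial.eval₂_X, Polynomial.eval₂_sub, Polynomial.eval₂_one,
      Polynomial.eval₂_C, Subring.subtype_apply, pp_eval]
    ring
  simp only [h2] at h1
  obtain ⟨m, hm⟩ := Nat.exists_eq_add_of_le (show K + 1 ≤ n by omega)
  have h3 : ∑ k ∈ range n, FF d r l s k = ∑ k ∈ range (K + 1), FF d r l s k + ∑ k ∈ range m, FF d r l s (K + 1 + k) := by
    conv_lhs => rw [hm]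
    exact sum_range_add _ _ _
  have h4 : QO (cyclotomic n ℚ) 1 (∑ k ∈ range m, FF d r l s (K + 1 + k)) := by
    apply QO.sum
    intro k hk
    have := mem_range.1 hk
    unfold FF
    exact QO.mul_left (W_mem hn _) ((QO.pow (PP_QO H (by omega) (by omega)) d).le (by omega))
  have h5 := h1.sub h4
  rw [h3] at h5
  rwa [add_sub_cancel_right] at h5

/-- the polynomials `p^i X F / (1 - p^i X)^2` -/
def gg (d r l n : ℕ) (s : ℤ) (hn : 0 < n) (i : ℕ) : (Loc (cyclotomic n ℚ))[X] :=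
  C ⟨q ^ (d * (i + 1)), (Loc _).pow_mem (q_mem _) _⟩ * (X ^ l * (1 - C ⟨q ^ s, zmem hn s⟩ * X ^ 2) * (pp d r n hn ^ (d - 2) *
    (∏ j ∈ (range r).erase i, (1 - C ⟨q ^ (d * (j + 1)), (Loc _).pow_mem (q_mem _) _⟩ * X)) ^ 2))

lemma gg_deg (hn : 0 < n) {i : ℕ} (hi : i < r) : (gg d r l n s hn i).natDegree ≤ l + 2 + ((d - 2) * r + 2 * (r - 1)) := by
  unfold gg
  refine (natDegree_C_mul_le _ _).trans ?_
  refine (natDegree_mul_le).trans (Nat.add_le_add ((natDegree_mul_le).trans (Nat.add_le_add (natDegree_X_pow_le _) ?_)) ?_)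
  · exact (natDegree_sub_le _ _).trans (max_le (by simp) ((natDegree_C_mul_le _ _).trans (natDegree_X_pow_le _)))
  · refine (natDegree_mul_le).trans (Nat.add_le_add ?_ ?_)
    · exact (natDegree_pow_le).trans (Nat.mul_le_mul_left _ (pp_deg hn))
    · refine (natDegree_pow_le).trans (Nat.mul_le_mul_left _ ?_)
      refine (natDegree_prod_le _ _).trans ?_
      refine (sum_le_sum (fun i _ => lin_deg _)).trans ?_
      simp [card_erase_of_mem (mem_range.2 hi)]

lemma gg_eval (hn : 0 < n) (hl0 : 0 < l) (i k : ℕ) :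
    q ^ (d * k) * (gg d r l n s hn i).eval₂ (Loc (cyclotomic n ℚ)).subtype (q ^ (d * k)) =
      W d l s k * q ^ ((d : ℤ) * (k + i + 1)) * (PP d r k ^ (d - 2) * (∏ j ∈ (range r).erase i, e ((d : ℤ) * (k + j + 1))) ^ 2) := by
  unfold gg
  have h1 : (∏ j ∈ (range r).erase i, (1 - C ⟨q ^ (d * (j + 1)), (Loc (cyclotomic n ℚ)).pow_mem (q_mem _) _⟩ * X) : (Loc (cyclotomic n ℚ))[X]).eval₂
      (Loc (cyclotomic n ℚ)).subtype (q ^ (d * k)) = ∏ j ∈ (range r).erase i, e ((d : ℤ) * (k + j + 1)) := by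
    rw [Polynomial.eval₂_finsetProd]
    apply prod_congr rfl
    intro i _
    rw [Polynomial.eval₂_sub, Polynomial.eval₂_one, Polynomial.eval₂_mul, Polynomial.eval₂_C, Polynomial.eval₂_X, Subring.subtype_apply]
    unfold e
    congr 1
    rw [← pow_add, ← zpow_natCast q]
    congr 1; push_cast; ring
  simp only [Polynomial.eval₂_mul, Polynomial.eval₂_pow, Polynomial.eval₂_X, Polynomial.eval₂_sub, Polynomial.eval₂_one,
    Polynomial.eval₂_C, Subring.subtype_apply, pp_eval, h1]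
  have h2 : q ^ ((d : ℤ) * (k + i + 1)) = q ^ (d * k) * q ^ (d * (i + 1)) := by
    rw [← pow_add, ← zpow_natCast q]
    congr 1; push_cast; ring
  rw [W_eq hl0, h2]
  obtain ⟨l', rfl⟩ : ∃ l', l = l' + 1 := ⟨l - 1, by omega⟩
  rw [Nat.add_sub_cancel]
  ring

/-- the polynomial argument -/
lemma sum_poly (H : Hyp d r K n l s) :
    QO (cyclotomic n ℚ) 1 (∑ k ∈ range (K + 1), FF d r l s k * (GG d r k + HS d r - HS d k)) := by
  have hn := H.hn
  have hd := H.hd
  have hK := H.hK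
  have hl0 := H.hl0
  simp only [sum_exch, mul_sum]
  rw [sum_comm]
  apply QO.sum
  intro i hi
  have hi' := mem_range.1 hi
  have hdeg : (gg d r l n s hn i).natDegree + 1 < n := by
    have h1 := gg_deg (d := d) (l := l) (s := s) hn hi'
    have h3 : ((l + 2 + ((d - 2) * r + 2 * (r - 1)) : ℕ) : ℤ) + 1 < n := by
      have e1 : ((d - 2 : ℕ) : ℤ) = (d : ℤ) - 2 := by push_cast [Nat.cast_sub (show 2 ≤ d by omega)]; ring
      have e2 : ((r - 1 : ℕ) : ℤ) = (r : ℤ) - 1 := by push_cast [Nat.cast_sub (show 1 ≤ r by omega)]; ring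
      have h4 := H.hr
      have h5 := H.hl
      push_cast
      rw [e1, e2]
      nlinarith
    have h4 : l + 2 + ((d - 2) * r + 2 * (r - 1)) + 1 < n := by exact_mod_cast h3
    omega
  have h1 := poly_moment1 H.hcop (gg d r l n s hn i) hdeg
  obtain ⟨m, hm⟩ := Nat.exists_eq_add_of_le (show K + 1 ≤ n by omega)
  have h3 : ∑ k ∈ range n, q ^ (d * k) * (gg d r l n s hn i).eval₂ (Loc (cyclotomic n ℚ)).subtype (q ^ (d * k)) =
      ∑ k ∈ range (K + 1), FF d r l s k * hh ((d : ℤ) * (k + i + 1)) +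
      ∑ k ∈ range m, q ^ (d * (K + 1 + k)) * (gg d r l n s hn i).eval₂ (Loc (cyclotomic n ℚ)).subtype (q ^ (d * (K + 1 + k))) := by
    have hrg : range n = range (K + 1 + m) := congrArg range hm
    rw [hrg, sum_range_add]
    congr 1
    apply sum_congr rfl
    intro k hk
    have hk' := mem_range.1 hk
    rw [gg_eval hn hl0]
    have hne : e ((d : ℤ) * (k + i + 1)) ≠ 0 := by
      apply ne_of_nd (n := n)
      apply nd H.hcop
      · omega
      · omega
    have h5 : PP d r k = e ((d : ℤ) * (k + i + 1)) * ∏ j ∈ (range r).erase i, e ((d : ℤ) * (k + j + 1)) := by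
      unfold PP
      exact (mul_prod_erase (range r) (fun j : ℕ => e ((d : ℤ) * (k + j + 1))) hi).symm
    unfold FF hh
    have h6 : PP d r k ^ d = PP d r k ^ (d - 2) * PP d r k ^ 2 := by
      rw [← pow_add]; congr 1; omega
    have h7 : PP d r k ^ 2 * (e ((d : ℤ) * (k + i + 1)))⁻¹ ^ 2 = (∏ j ∈ (range r).erase i, e ((d : ℤ) * (k + j + 1))) ^ 2 := by
      rw [h5, mul_pow]
      field_simp
    rw [h6]
    linear_combination -(W d l s k * q ^ ((d : ℤ) * (k + i + 1)) * PP d r k ^ (d - 2)) * h7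
  have h4 : QO (cyclotomic n ℚ) 1 (∑ k ∈ range m, q ^ (d * (K + 1 + k)) *
      (gg d r l n s hn i).eval₂ (Loc (cyclotomic n ℚ)).subtype (q ^ (d * (K + 1 + k)))) := by
    apply QO.sum
    intro k hk
    have := mem_range.1 hk
    rw [gg_eval hn hl0]
    refine QO.mul_left ((Loc _).mul_mem (W_mem hn _) (zmem hn _)) (QO.mul_right ?_ ?_)
    · exact (QO.pow (PP_QO H (by omega) (by omega)) (d - 2)).le (by omega)
    · exact (Loc _).pow_mem ((Loc _).prod_mem (fun _ _ => e_mem hn _)) _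
  have h5 := h1.sub h4
  rw [h3] at h5
  rwa [add_sub_cancel_right] at h5

/-- reflection of the harmonic sums -/
lemma GG_reflect (H : Hyp d r K n l s) {k : ℕ} (hk : k ≤ K) :
    Eqm (cyclotomic n ℚ) 1 (GG d r (K - k)) (HS d K - HS d k) := by
  obtain ⟨m, rfl⟩ := Nat.exists_eq_add_of_le hk
  have hn := H.hn
  have hK := H.hK
  rw [Nat.add_sub_cancel_left]
  have h1 : HS d (k + m) - HS d k = ∑ j ∈ range m, hh ((d : ℤ) * ((k + (m - 1 - j) : ℕ) + 1)) := by
    unfold HS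
    rw [sum_range_add, add_sub_cancel_left, ← sum_range_reflect]
  rw [h1]
  unfold GG
  apply Eqm.sum
  intro j hj
  have hj' := mem_range.1 hj
  have h2 := hh_reflect hn (z := (d : ℤ) * ((k + (m - 1 - j) : ℕ) + 1)) (nd H.hcop (by omega) (by omega)) d
  convert h2 using 2
  have h3 : (n : ℤ) = k + m + r + 1 := by exact_mod_cast hK.symm
  have h4 : ((k + (m - 1 - j) : ℕ) : ℤ) = k + (m - 1 - j) := by omega
  rw [h3, h4]
  ring

lemma q_half (hn : 0 < n) {h : ℕ} (hh : n = 2 * h) : Eqm (cyclotomic n ℚ) 1 (q ^ (h : ℤ)) (-1) := by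
  have h1 : QO (cyclotomic n ℚ) 1 (e (n : ℤ)) := e_QO hn dvd_rfl
  have hnd : ¬ (n : ℤ) ∣ (h : ℤ) := by
    intro hd
    have := Int.le_of_dvd (by omega) hd
    omega
  have h2 := QO.mul_right h1 (e_inv hn hnd)
  have h3 := ne_of_nd hnd
  unfold Eqm
  convert h2 using 1
  have h4 : e (n : ℤ) = e (h : ℤ) * (1 + q ^ (h : ℤ)) := by
    have : (n : ℤ) = h + h := by omega
    unfold e
    rw [this, zpow_add₀ q_ne]
    ring
  rw [h4]
  field_simp
  ring

/-- the sign -/
lemma sign (H : Hyp d r K n l s) (hdo : d % 2 = 1) {E : ℤ} (k : ℤ) (hE : 2 * E = -(n : ℤ) * (n + 2 * s - d) - 2 * (d * k * n)) :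
    Eqm (cyclotomic n ℚ) 1 ((-1) ^ (r * d + 1) * q ^ E) 1 := by
  have hn := H.hn
  have hr := H.hr
  have hs := H.hs
  have hpar : ((r : ℤ) + 1) % 2 = ((n : ℤ) + 1) % 2 := by
    have h1 : ((d : ℤ) * (r + 1)) % 2 = ((r : ℤ) + 1) % 2 := by
      rw [Int.mul_emod]
      have : (d : ℤ) % 2 = 1 := by omega
      rw [this]; omega
    omega
  rcases Nat.mod_two_eq_zero_or_one n with hn2 | hn2
  · -- n even
    obtain ⟨h, hh⟩ : ∃ h, n = 2 * h := ⟨n / 2, by omega⟩
    obtain ⟨o, ho⟩ : ∃ o : ℤ, (n : ℤ) + 2 * s - d = 2 * o + 1 := ⟨((n : ℤ) + 2 * s - d - 1) / 2, by omega⟩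
    have hr2 : r % 2 = 0 := by omega
    have hE' : E = h + (-(d : ℤ) * k - o - 1) * n := by
      rw [ho] at hE
      have : (n : ℤ) = 2 * h := by exact_mod_cast hh
      rw [this] at hE ⊢
      linarith
    have hsg : ((-1 : RatFunc ℚ)) ^ (r * d + 1) = -1 := by
      apply Odd.neg_one_pow
      obtain ⟨c, hc⟩ : ∃ c, r = 2 * c := ⟨r / 2, by omega⟩
      exact ⟨c * d, by rw [hc]; ring⟩
    rw [hsg, hE']
    have h1 := (qz_shift hn (h : ℤ) (-(d : ℤ) * k - o - 1)).trans (q_half hn hh)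
    have h2 := Eqm.mul_left ((Loc (cyclotomic n ℚ)).neg_mem (Loc _).one_mem) h1
    rwa [neg_mul_neg, one_mul] at h2
  · -- n odd
    obtain ⟨o, ho⟩ : ∃ o : ℤ, (n : ℤ) + 2 * s - d = 2 * o := ⟨((n : ℤ) + 2 * s - d) / 2, by omega⟩
    have hr2 : r % 2 = 1 := by omega
    have hE' : E = 0 + (-(d : ℤ) * k - o) * n := by
      rw [ho] at hE
      linarith
    have hsg : ((-1 : RatFunc ℚ)) ^ (r * d + 1) = 1 := by
      apply Even.neg_one_pow
      obtain ⟨c, hc⟩ : ∃ c, r = 2 * c + 1 := ⟨r / 2, by omega⟩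
      obtain ⟨c', hc'⟩ : ∃ c', d = 2 * c' + 1 := ⟨d / 2, by omega⟩
      exact ⟨2 * c * c' + c + c' + 1, by rw [hc, hc']; ring⟩
    rw [hsg, hE', one_mul]
    have h1 := qz_shift hn 0 (-(d : ℤ) * k - o)
    rwa [zpow_zero] at h1

/-- reflection of the terms -/
lemma FF_reflect (H : Hyp d r K n l s) (hdo : d % 2 = 1) {k : ℕ} (hk : k ≤ K) :
    Eqm (cyclotomic n ℚ) 1 (FF d r l s (K - k)) (FF d r l s k) := by
  have hn := H.hn
  have hK := H.hK
  have hr := H.hr
  have hl := H.hl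
  have hnZ : (n : ℤ) = K + r + 1 := by exact_mod_cast hK.symm
  have hkc : ((K - k : ℕ) : ℤ) = (K : ℤ) - k := by omega
  -- the product
  have h1 : Eqm (cyclotomic n ℚ) 1 (PP d r (K - k)) (∏ i ∈ range r, (-(q ^ (-((d : ℤ) * (k + i + 1))) * e ((d : ℤ) * (k + i + 1))))) := by
    unfold PP
    rw [← prod_range_reflect (fun i : ℕ => e ((d : ℤ) * (((K - k : ℕ) : ℤ) + i + 1)))]
    apply Eqm.prod
    · intro i hi
      have := mem_range.1 hi
      have h2 := e_shift hn (-((d : ℤ) * (k + i + 1))) d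
      rw [e_neg, ← zpow_neg] at h2
      convert h2 using 2
      have h4 : ((r - 1 - i : ℕ) : ℤ) = r - 1 - i := by omega
      rw [hkc, h4, hnZ]
      ring
    · intro i _
      exact (Loc _).neg_mem ((Loc _).mul_mem (zmem hn _) (e_mem hn _))
  have h2 : ∏ i ∈ range r, (-(q ^ (-((d : ℤ) * (k + i + 1))) * e ((d : ℤ) * (k + i + 1)))) =
      (-1) ^ r * q ^ (-∑ i ∈ range r, (d : ℤ) * (k + i + 1)) * PP d r k := by
    have h3 : ∏ i ∈ range r, q ^ (-((d : ℤ) * (k + i + 1))) = q ^ (-∑ i ∈ range r, (d : ℤ) * (k + i + 1)) := by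
      clear h1 hr hl hK hnZ H
      induction r with
      | zero => simp
      | succ r ih =>
        rw [prod_range_succ, sum_range_succ, ih, ← zpow_add₀ q_ne]
        congr 1; ring
    unfold PP
    rw [← h3, ← card_range r, ← prod_const, card_range, ← prod_mul_distrib, ← prod_mul_distrib]
    apply prod_congr rfl
    intro i _
    ring
  rw [h2] at h1
  -- the weight
  have h5 : Eqm (cyclotomic n ℚ) 1 (W d l s (K - k)) (-(q ^ (-(s + 2 * (d : ℤ) * k)) * e (s + 2 * (d : ℤ) * k)) * q ^ (-((l : ℤ) * s) - (d : ℤ) * l * k)) := by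
    unfold W
    have h6 := e_shift hn (-(s + 2 * (d : ℤ) * k)) (2 * ((d : ℤ) - 1))
    rw [e_neg, ← zpow_neg] at h6
    have h7 := qz_shift hn (-((l : ℤ) * s) - (d : ℤ) * l * k) ((l : ℤ) * (d - 1))
    have h8 : -(s + 2 * (d : ℤ) * k) + 2 * ((d : ℤ) - 1) * n = s + 2 * (d : ℤ) * ((K - k : ℕ) : ℤ) := by
      rw [hkc]
      linear_combination (2 * (d : ℤ)) * hnZ + 2 * hr
    have h9 : -((l : ℤ) * s) - (d : ℤ) * l * k + (l : ℤ) * (d - 1) * n = (d : ℤ) * l * ((K - k : ℕ) : ℤ) := by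
      rw [hkc]
      linear_combination ((l : ℤ) * (d : ℤ)) * hnZ + (l : ℤ) * hr
    rw [h8] at h6
    rw [h9] at h7
    exact h6.mul h7 ((Loc _).neg_mem ((Loc _).mul_mem (zmem hn _) (e_mem hn _))) (zmem hn _)
  -- together
  have hPm : (-1) ^ r * q ^ (-∑ i ∈ range r, (d : ℤ) * (k + i + 1)) * PP d r k ∈ Loc (cyclotomic n ℚ) :=
    (Loc _).mul_mem ((Loc _).mul_mem ((Loc _).pow_mem ((Loc _).neg_mem (Loc _).one_mem) _) (zmem hn _)) (PP_mem hn k)
  have h10 := h5.mul (h1.pow hPm d) ((Loc _).mul_mem ((Loc _).neg_mem ((Loc _).mul_mem (zmem hn _) (e_mem hn _))) (zmem hn _)) ((Loc _).pow_mem hPm d)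
  have hA : 2 * ∑ i ∈ range r, (d : ℤ) * (k + i + 1) = (d : ℤ) * (r * (2 * k + r + 1)) := by
    clear h1 h2 hPm h10 hr hl hK hnZ H
    induction r with
    | zero => simp
    | succ r ih =>
      rw [sum_range_succ, mul_add, ih]
      push_cast; ring
  set A := ∑ i ∈ range r, (d : ℤ) * (k + i + 1) with hAd
  have h11 : -(q ^ (-(s + 2 * (d : ℤ) * k)) * e (s + 2 * (d : ℤ) * k)) * q ^ (-((l : ℤ) * s) - (d : ℤ) * l * k) *
      ((-1) ^ r * q ^ (-A) * PP d r k) ^ d = ((-1) ^ (r * d + 1) * q ^ (-(s + 2 * (d : ℤ) * k) + (-((l : ℤ) * s) - (d : ℤ) * l * k) + (-A) * d - (d : ℤ) * l * k)) *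
      FF d r l s k := by
    unfold FF W
    rw [mul_pow, mul_pow, ← pow_mul, ← zpow_natCast (q ^ (-A)) d, ← zpow_mul, pow_succ,
      sub_eq_add_neg (-(s + 2 * (d : ℤ) * k) + (-((l : ℤ) * s) - (d : ℤ) * l * k) + (-A) * d), zpow_add₀ q_ne, zpow_add₀ q_ne, zpow_add₀ q_ne]
    have h12 : q ^ (-((d : ℤ) * l * k)) * q ^ ((d : ℤ) * l * k) = 1 := by
      rw [← zpow_add₀ q_ne, neg_add_cancel, zpow_zero]
    linear_combination (-(q ^ (-(s + 2 * (d : ℤ) * k)) * e (s + 2 * (d : ℤ) * k)) * q ^ (-((l : ℤ) * s) - (d : ℤ) * l * k) *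
      ((-1) ^ (r * d) * q ^ (-A * d) * PP d r k ^ d)) * (-h12)
  have hE : 2 * (-(s + 2 * (d : ℤ) * k) + (-((l : ℤ) * s) - (d : ℤ) * l * k) + (-A) * d - (d : ℤ) * l * k) =
      -(n : ℤ) * (n + 2 * s - d) - 2 * (d * k * n) := by
    have e1 : (d : ℤ) * r = n + s - d := by linear_combination hr
    have e2 : 2 * ((-A) * d) = -(((d : ℤ) * r) * (2 * (d * k) + d * r + d)) := by
      linear_combination (-(d : ℤ)) * hA
    rw [mul_sub, mul_add, mul_add, e2, e1]
    have e3 : (l : ℤ) * 2 = d - 2 - s := by linear_combination hl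
    linear_combination (-s - 2 * ((d : ℤ) * k)) * e3
  have h13 := sign H hdo k hE
  rw [h11] at h10
  have h14 := Eqm.mul h13 (Eqm.refl (FF d r l s k)) (Loc _).one_mem (FF_mem hn k)
  rw [one_mul] at h14
  exact h10.trans h14

/-- the second order term vanishes -/
lemma second (H : Hyp d r K n l s) (hdo : d % 2 = 1) :
    QO (cyclotomic n ℚ) 1 (∑ k ∈ range (K + 1), FF d r l s k * GG d r k) := by
  have hn := H.hn
  have hK := H.hK
  have h1 : Eqm (cyclotomic n ℚ) 1 (∑ k ∈ range (K + 1), FF d r l s k * GG d r k)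
      (∑ k ∈ range (K + 1), FF d r l s k * (HS d K - HS d k)) := by
    rw [← sum_range_reflect]
    apply Eqm.sum
    intro k hk
    have hk' := mem_range.1 hk
    rw [Nat.add_sub_cancel]
    exact (FF_reflect H hdo (by omega)).mul (GG_reflect H (by omega)) (FF_mem hn k)
      ((Loc _).sub_mem (HS_mem H (by omega)) (HS_mem H (by omega)))
  have h2 := sum_poly H
  have h3 := sum_FF H
  apply half_QO
  have h4 := (QO.add h1 h2).add (QO.mul_left ((Loc _).sub_mem (HS_mem H (k := K) (by omega)) (HS_mem H (k := r) (by omega))) h3)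
  convert h4 using 1
  rw [mul_sum, ← sum_sub_distrib, ← sum_add_distrib, ← sum_add_distrib, ← sum_add_distrib]
  apply sum_congr rfl
  intro k _
  ring

/-- the main theorem -/
theorem main (H : Hyp d r K n l s) (hdo : d % 2 = 1) :
    QO (cyclotomic n ℚ) 3 (∑ k ∈ range n, W d l s k * tt d s k ^ d) := by
  have hn := H.hn
  have hK := H.hK
  have hd := H.hd
  have hcm : (((d : ℚ) * (d - 1) / 2 : ℚ) : RatFunc ℚ) ∈ Loc (cyclotomic n ℚ) := rat_mem _ _
  push_cast at hcm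
  obtain ⟨m, hm⟩ := Nat.exists_eq_add_of_le (show K + 1 ≤ n by omega)
  have h1 : ∑ k ∈ range n, W d l s k * tt d s k ^ d = ∑ k ∈ range (K + 1), W d l s k * tt d s k ^ d +
      ∑ k ∈ range m, W d l s (K + 1 + k) * tt d s (K + 1 + k) ^ d := by
    conv_lhs => rw [hm]
    exact sum_range_add _ _ _
  have h2 : QO (cyclotomic n ℚ) 3 (∑ k ∈ range m, W d l s (K + 1 + k) * tt d s (K + 1 + k) ^ d) := by
    apply QO.sum
    intro k hk
    have hk' := mem_range.1 hk
    refine QO.mul_left (W_mem hn _) ((QO.pow ?_ d).le hd)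
    unfold tt
    apply QO_prod (i := K)
    · intro j hj
      have := mem_range.1 hj
      exact (Loc _).mul_mem (e_mem hn _) (e_inv hn (nd H.hcop (by omega) (by omega)))
    · exact mem_range.2 (by omega)
    · refine QO.mul_right (e_QO hn ?_) (e_inv hn (nd H.hcop (by omega) (by omega)))
      have hnZ : (n : ℤ) = K + r + 1 := by exact_mod_cast hK.symm
      refine ⟨(d : ℤ) - 1, ?_⟩
      linear_combination (-(d : ℤ)) * hnZ - H.hr
  have h3 : Eqm (cyclotomic n ℚ) 3 (∑ k ∈ range (K + 1), W d l s k * tt d s k ^ d)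
      (∑ k ∈ range (K + 1), (W d l s k * BB d r n k + (d * (d - 1) / 2) * uu n ^ 2 * (W d l s k * BB d r n k * GG d r k))) := by
    apply Eqm.sum
    intro k hk
    have hk' := mem_range.1 hk
    exact term_eqm H (by omega)
  have h4 : ∑ k ∈ range (K + 1), W d l s k * BB d r n k = 0 := by
    have h5 := exact H
    rw [hm, sum_range_add] at h5
    rw [← h5, ← hm]
    symm
    apply add_eq_left.2
    apply sum_eq_zero
    intro k hk
    have hk' := mem_range.1 hk
    have : BB d r n (K + 1 + k) = 0 := by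
      unfold BB
      apply prod_eq_zero (i := K) (mem_range.2 (by omega))
      have hnZ : (n : ℤ) = K + r + 1 := by exact_mod_cast hK.symm
      have : (d : ℤ) * (r + 1 + K) - d * n = 0 := by rw [hnZ]; ring
      rw [this]
      simp [e]
    rw [this, mul_zero]
  have h6 : QO (cyclotomic n ℚ) 1 (∑ k ∈ range (K + 1), W d l s k * BB d r n k * GG d r k) := by
    have h7 : Eqm (cyclotomic n ℚ) 1 (∑ k ∈ range (K + 1), W d l s k * BB d r n k * GG d r k)
        (∑ k ∈ range (K + 1), (PP d r 0)⁻¹ ^ d * (FF d r l s k * GG d r k)) := by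
      apply Eqm.sum
      intro k hk
      have hk' := mem_range.1 hk
      have h8 := ((Eqm.mul_left (W_mem (d := d) (l := l) (s := s) hn k) (BB_eqm H (show k < n by omega))).mul (Eqm.refl (GG d r k))
        ((Loc _).mul_mem (W_mem hn k) ((Loc _).mul_mem ((Loc _).pow_mem (PP_mem hn k) _) ((Loc _).pow_mem (PP0_inv H) _))) (GG_mem H (by omega)))
      convert h8 using 1
      unfold FF
      ring
    rw [← mul_sum] at h7
    have h9 := QO.mul_left ((Loc _).pow_mem (PP0_inv H) d) (second H hdo)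
    have h10 := QO.add h7 h9
    rwa [sub_add_cancel] at h10
  have h11 : QO (cyclotomic n ℚ) 3 (∑ k ∈ range (K + 1), (W d l s k * BB d r n k + (d * (d - 1) / 2) * uu n ^ 2 * (W d l s k * BB d r n k * GG d r k))) := by
    rw [sum_add_distrib, h4, zero_add, ← mul_sum]
    exact (QO.mul_left hcm (QO.pow (uu_QO hn) 2)).mul h6
  have h12 := QO.add h3 h11
  rw [sub_add_cancel] at h12
  rw [h1]
  exact h12.add h2

end

end Pool.Agent.X14.QR
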