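import Pool.Agent.X14.QR3

set_option autoImplicit false

/-! The deformed sum modulo `Φ` as a polynomial in the deformation parameter. -/

namespace Pool.Agent.X14.QR

open Finset Polynomial Pool.Agent.X14.QL Pool.Agent.X14.QBlock

noncomputable section

section ring

variable {B : Type*} [CommRing B]

/-- a polynomial with constant coefficient one is regular -/
lemma reg_of_one {f g : B[X]} (h : f.coeff 0 = 1) (hfg : g * f = 0) : g = 0 := by
  have h1 : IsUnit (f : PowerSeries B) := by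
    rw [PowerSeries.isUnit_iff_constantCoeff]
    have : PowerSeries.constantCoeff (f : PowerSeries B) = f.coeff 0 := by simp
    rw [this, h]
    exact isUnit_one
  have h2 : (g : PowerSeries B) * (f : PowerSeries B) = 0 := by
    rw [← Polynomial.coe_mul, hfg, Polynomial.coe_zero]
  have h3 : (g : PowerSeries B) = 0 := (h1.mul_left_eq_zero).1 h2
  exact Polynomial.coe_eq_zero_iff.1 h3

/-- the linear factors -/
def la (x : B) (i : ℕ) : B[X] := 1 - C (x ^ i) * X

/-- the sum of the polynomials -/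
lemma poly_zero (x : B) {n r l d : ℕ} (hx : x ^ n = 1) (hl0 : 0 < l) (hdeg : l + 2 + d * r < 2 * n) (hln : l ≤ n)
    (hmom : ∀ j, 0 < j → j < 2 * n → j ≠ n → ∑ k ∈ range n, (x ^ k) ^ j = 0)
    (hsum : ∑ k ∈ range n, (1 - x ^ (r + 1) * (x ^ k) ^ 2) * (x ^ k) ^ l * (∏ i ∈ range r, (1 - x ^ (i + 1) * x ^ k)) ^ d = 0) :
    ∑ k ∈ range n, (1 - C (x ^ (r + 1) * (x ^ k) ^ 2) * X ^ 2) * C ((x ^ k) ^ l) * (∏ i ∈ range r, la x (k + i + 1)) ^ d = 0 := by
  classical
  set f : B[X] := X ^ l * (1 - C (x ^ (r + 1)) * X ^ 2) * (∏ i ∈ range r, (1 - C (x ^ (i + 1)) * X)) ^ d with hf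
  have hfdeg : f.natDegree ≤ l + 2 + d * r := by
    rw [hf]
    refine (natDegree_mul_le).trans (Nat.add_le_add ((natDegree_mul_le).trans (Nat.add_le_add (natDegree_X_pow_le _) ?_)) ?_)
    · exact (natDegree_sub_le _ _).trans (max_le (by simp) ((natDegree_C_mul_le _ _).trans (natDegree_X_pow_le _)))
    · refine (natDegree_pow_le).trans (Nat.mul_le_mul_left _ ?_)
      refine (natDegree_prod_le _ _).trans ?_
      refine (sum_le_sum (fun i _ => lin_deg _)).trans ?_
      simp
  have hf0 : ∀ j, j < l → f.coeff j = 0 := by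
    intro j hj
    rw [hf, mul_assoc, coeff_X_pow_mul', if_neg (by omega)]
  have hf1 : ∀ j, 2 * n ≤ j → f.coeff j = 0 := fun j hj => coeff_eq_zero_of_natDegree_lt (by omega)
  have hcoef : ∀ j, f.coeff j * ∑ k ∈ range n, (x ^ k) ^ j = if j = n then f.coeff n * n else 0 := by
    intro j
    rcases lt_or_ge j l with h1 | h1
    · rw [hf0 j h1, zero_mul]
      split_ifs with h2
      · rw [← h2, hf0 j h1, zero_mul]
      · rfl
    rcases lt_or_ge j (2 * n) with h2 | h2
    · split_ifs with h3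
      · rw [h3]
        congr 1
        have : ∀ k ∈ range n, (x ^ k) ^ n = 1 := by
          intro k _
          rw [← pow_mul, mul_comm, pow_mul, hx, one_pow]
        rw [sum_congr rfl this]
        simp
      · rw [hmom j (by omega) h2 h3, mul_zero]
    · rw [hf1 j h2, zero_mul, if_neg]
      omega
  -- the coefficient at `n`
  have hn0 : f.coeff n * n = 0 := by
    have h1 : ∑ k ∈ range n, f.eval (x ^ k) = ∑ j ∈ range (f.natDegree + 1), (f.coeff j * ∑ k ∈ range n, (x ^ k) ^ j) := by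
      simp only [Polynomial.eval_eq_sum_range]
      rw [sum_comm]
      apply sum_congr rfl
      intro j _
      rw [mul_sum]
    have h2 : ∑ k ∈ range n, f.eval (x ^ k) = 0 := by
      rw [← hsum]
      apply sum_congr rfl
      intro k _
      rw [hf]
      simp only [Polynomial.eval_mul, Polynomial.eval_pow, Polynomial.eval_X, Polynomial.eval_sub, Polynomial.eval_one,
        Polynomial.eval_C, Polynomial.eval_prod]
      ring
    rw [h2] at h1
    simp only [hcoef] at h1
    rw [sum_ite_eq'] at h1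
    rcases lt_or_ge n (f.natDegree + 1) with h3 | h3
    · rw [if_pos (mem_range.2 h3)] at h1
      exact h1.symm
    · rw [coeff_eq_zero_of_natDegree_lt (by omega), zero_mul]
  -- the whole polynomial
  have h1 : X ^ l * ∑ k ∈ range n, (1 - C (x ^ (r + 1) * (x ^ k) ^ 2) * X ^ 2) * C ((x ^ k) ^ l) * (∏ i ∈ range r, la x (k + i + 1)) ^ d =
      ∑ k ∈ range n, f.comp (C (x ^ k) * X) := by
    rw [mul_sum]
    apply sum_congr rfl
    intro k _
    rw [hf]
    simp only [mul_comp, pow_comp, X_comp, sub_comp, one_comp, C_comp, Polynomial.prod_comp, la]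
    have h2 : ∏ i ∈ range r, (1 - C (x ^ (i + 1)) * (C (x ^ k) * X)) = ∏ i ∈ range r, (1 - C (x ^ (k + i + 1)) * X : B[X]) := by
      apply prod_congr rfl
      intro i _
      rw [← mul_assoc, ← C_mul, ← pow_add]
      congr 4
      ring
    rw [h2]
    simp only [mul_pow, C_mul, C_pow]
    ring
  have h2 : ∑ k ∈ range n, f.comp (C (x ^ k) * X) = 0 := by
    ext j
    rw [finset_sum_coeff]
    simp only [comp_C_mul_X_coeff, coeff_zero]
    rw [← mul_sum, hcoef, hn0, ite_self]
  rw [h2] at h1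
  have h3 : IsRegular (X ^ l : B[X]) := (monic_X_pow l).isRegular
  have h4 := h3.left (a₁ := ∑ k ∈ range n, (1 - C (x ^ (r + 1) * (x ^ k) ^ 2) * X ^ 2) * C ((x ^ k) ^ l) * (∏ i ∈ range r, la x (k + i + 1)) ^ d) (a₂ := 0)
  apply h4
  simpa using h1

/-- exchange -/
lemma la_exch (x : B) (r k m : ℕ) : (∏ i ∈ range r, la x (i + 1)) * ((∏ j ∈ range k, la x (r + 1 + j)) * ∏ j ∈ range m, la x (k + j + 1)) =
    (∏ i ∈ range (k + m), la x (i + 1)) * ∏ i ∈ range r, la x (k + i + 1) := by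
  have h6 := prod_range_add (fun i : ℕ => la x (i + 1)) r k
  have h7 := prod_range_add (fun i : ℕ => la x (i + 1)) k r
  have h8 := prod_range_add (fun i : ℕ => la x (i + 1)) k m
  rw [add_comm k r, h6] at h7
  have e1 : ∏ j ∈ range k, la x (r + 1 + j) = ∏ j ∈ range k, la x (r + j + 1) := by
    apply prod_congr rfl
    intro j _
    congr 1; ring
  rw [e1, h8]
  linear_combination (∏ j ∈ range m, la x (k + j + 1)) * h7

/-- the deformed sum vanishes in `B` -/
lemma deform_zero (x : B) {n r l d : ℕ} (hx : x ^ n = 1) (hl0 : 0 < l) (hdeg : l + 2 + d * r < 2 * n) (hln : l ≤ n)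
    (hmom : ∀ j, 0 < j → j < 2 * n → j ≠ n → ∑ k ∈ range n, (x ^ k) ^ j = 0)
    (hsum : ∑ k ∈ range n, (1 - x ^ (r + 1) * (x ^ k) ^ 2) * (x ^ k) ^ l * (∏ i ∈ range r, (1 - x ^ (i + 1) * x ^ k)) ^ d = 0) :
    ∑ k ∈ range n, (1 - C (x ^ (r + 1) * (x ^ k) ^ 2) * X ^ 2) * C ((x ^ k) ^ l) *
      ((∏ j ∈ range k, la x (r + 1 + j)) ^ d * (∏ j ∈ range (n - 1 - k), la x (k + j + 1)) ^ d) = 0 := by
  have h1 := poly_zero x hx hl0 hdeg hln hmom hsum
  have h2 : (∑ k ∈ range n, (1 - C (x ^ (r + 1) * (x ^ k) ^ 2) * X ^ 2) * C ((x ^ k) ^ l) *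
      ((∏ j ∈ range k, la x (r + 1 + j)) ^ d * (∏ j ∈ range (n - 1 - k), la x (k + j + 1)) ^ d)) * (∏ i ∈ range r, la x (i + 1)) ^ d =
      (∑ k ∈ range n, (1 - C (x ^ (r + 1) * (x ^ k) ^ 2) * X ^ 2) * C ((x ^ k) ^ l) * (∏ i ∈ range r, la x (k + i + 1)) ^ d) *
        (∏ i ∈ range (n - 1), la x (i + 1)) ^ d := by
    rw [sum_mul, sum_mul]
    apply sum_congr rfl
    intro k hk
    have hk' := mem_range.1 hk
    have h3 := la_exch x r k (n - 1 - k)
    rw [show k + (n - 1 - k) = n - 1 by omega] at h3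
    have h4 := congrArg (· ^ d) h3
    simp only [mul_pow] at h4
    linear_combination ((1 - C (x ^ (r + 1) * (x ^ k) ^ 2) * X ^ 2) * C ((x ^ k) ^ l)) * h4
  rw [h1, zero_mul] at h2
  refine reg_of_one ?_ h2
  rw [coeff_zero_eq_eval_zero, eval_pow, eval_prod]
  simp [la]

end ring

end

end Pool.Agent.X14.QR
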