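import Pool.Agent.X14.QR4

set_option autoImplicit false

/-! The case `2n ≡ -s (mod d)`: the deformed sum is divisible by `Φ` coefficientwise. -/

namespace Pool.Agent.X14.QR

open Finset Polynomial Pool.Agent.X14.QL Pool.Agent.X14.QBlock

noncomputable section

/-- the hypotheses -/
structure Hyp2 (d r K n l : ℕ) (s : ℤ) : Prop where
  hn : 0 < n
  hr : (d : ℤ) * (r + 1) = 2 * n + s
  hK : K + r + 1 = n
  hl : 2 * (l : ℤ) = d - 2 - s
  hl0 : 0 < l
  hs : s % 2 = 1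
  hd : 5 ≤ d
  hdo : d % 2 = 1
  hcop : Nat.Coprime n d

variable {d r K n l : ℕ} {s : ℤ}

lemma qE_even (hn : 0 < n) {E M : ℤ} (h : 2 * E = M * n) (hM : M % 2 = 0) : Eqm (cyclotomic n ℚ) 1 (q ^ E) 1 := by
  obtain ⟨c, hc⟩ : ∃ c, M = 2 * c := ⟨M / 2, by omega⟩
  have h1 := qz_shift hn 0 c
  rw [zpow_zero] at h1
  have : E = 0 + c * n := by rw [hc] at h; linarith
  rwa [this]

lemma qE_odd (hn : 0 < n) {E M : ℤ} (h : 2 * E = M * n) (hM : M % 2 = 1) : Eqm (cyclotomic n ℚ) 1 (q ^ E) (-1) := by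
  have hne : (n : ℤ) % 2 = 0 := by
    have h1 : (M * n) % 2 = 0 := by rw [← h]; omega
    rw [Int.mul_emod, hM] at h1
    omega
  obtain ⟨h', hh⟩ : ∃ h', n = 2 * h' := ⟨n / 2, by omega⟩
  obtain ⟨c, hc⟩ : ∃ c, M = 2 * c + 1 := ⟨M / 2, by omega⟩
  have h1 := (qz_shift hn (h' : ℤ) c).trans (q_half hn hh)
  have : E = h' + c * n := by
    rw [hc] at h
    have h2 : (n : ℤ) = 2 * h' := by exact_mod_cast hh
    rw [h2] at h ⊢
    linarith
  rwa [this]

/-- reflection of the products -/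
lemma PP_reflect (hn : 0 < n) (hK : K + r + 1 = n) {k : ℕ} (hk : k ≤ K) : Eqm (cyclotomic n ℚ) 1 (PP d r (K - k))
    ((-1) ^ r * q ^ (-∑ i ∈ range r, (d : ℤ) * (k + i + 1)) * PP d r k) := by
  have hnZ : (n : ℤ) = K + r + 1 := by exact_mod_cast hK.symm
  have hkc : ((K - k : ℕ) : ℤ) = (K : ℤ) - k := by omega
  have h1 : Eqm (cyclotomic n ℚ) 1 (PP d r (K - k)) (∏ i ∈ range r, (-(q ^ (-((d : ℤ) * (k + i + 1))) * e ((d : ℤ) * (k + i + 1))))) := by
    unfold PP
    rw [← prod_range_reflect (fun i : ℕ => e ((d : ℤ) * (((K - k : ℕ) : ℤ) + i + 1)))]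
    apply Eqm.prod
    · intro i hi
      have := mem_range.1 hi
      have h2 := e_shift hn (-((d : ℤ) * (k + i + 1))) d
      rw [e_neg, ← zpow_neg] at h2
      convert h2 using 2
      have h4 : ((r - 1 - i : ℕ) : ℤ) = r - 1 - i := by omega
      rw [hkc, h4, hnZ]
      ring
    · intro i _
      exact (Loc _).neg_mem ((Loc _).mul_mem (zmem hn _) (e_mem hn _))
  have h2 : ∏ i ∈ range r, (-(q ^ (-((d : ℤ) * (k + i + 1))) * e ((d : ℤ) * (k + i + 1)))) =
      (-1) ^ r * q ^ (-∑ i ∈ range r, (d : ℤ) * (k + i + 1)) * PP d r k := by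
    have h3 : ∏ i ∈ range r, q ^ (-((d : ℤ) * (k + i + 1))) = q ^ (-∑ i ∈ range r, (d : ℤ) * (k + i + 1)) := by
      clear h1 hK hnZ
      induction r with
      | zero => simp
      | succ r ih =>
        rw [prod_range_succ, sum_range_succ, ih, ← zpow_add₀ q_ne]
        congr 1; ring
    unfold PP
    rw [← h3, ← card_range r, ← prod_const, card_range, ← prod_mul_distrib, ← prod_mul_distrib]
    apply prod_congr rfl
    intro i _
    ring
  rwa [h2] at h1

/-- antisymmetry of the terms -/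
lemma FF_reflect2 (H : Hyp2 d r K n l s) {k : ℕ} (hk : k ≤ K) :
    Eqm (cyclotomic n ℚ) 1 (FF d r l s (K - k)) (-FF d r l s k) := by
  have hn := H.hn
  have hK := H.hK
  have hr := H.hr
  have hl := H.hl
  have hs := H.hs
  have hdo := H.hdo
  have hnZ : (n : ℤ) = K + r + 1 := by exact_mod_cast hK.symm
  have hkc : ((K - k : ℕ) : ℤ) = (K : ℤ) - k := by omega
  have h1 := PP_reflect (d := d) hn hK hk
  -- the weight
  have h5 : Eqm (cyclotomic n ℚ) 1 (W d l s (K - k)) (-(q ^ (-(s + 2 * (d : ℤ) * k)) * e (s + 2 * (d : ℤ) * k)) * q ^ (-((l : ℤ) * s) - (d : ℤ) * l * k)) := by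
    unfold W
    have h6 := e_shift hn (-(s + 2 * (d : ℤ) * k)) (2 * ((d : ℤ) - 2))
    rw [e_neg, ← zpow_neg] at h6
    have h7 := qz_shift hn (-((l : ℤ) * s) - (d : ℤ) * l * k) ((l : ℤ) * (d - 2))
    have h8 : -(s + 2 * (d : ℤ) * k) + 2 * ((d : ℤ) - 2) * n = s + 2 * (d : ℤ) * ((K - k : ℕ) : ℤ) := by
      rw [hkc]
      linear_combination (2 * (d : ℤ)) * hnZ + 2 * hr
    have h9 : -((l : ℤ) * s) - (d : ℤ) * l * k + (l : ℤ) * (d - 2) * n = (d : ℤ) * l * ((K - k : ℕ) : ℤ) := by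
      rw [hkc]
      linear_combination ((l : ℤ) * (d : ℤ)) * hnZ + (l : ℤ) * hr
    rw [h8] at h6
    rw [h9] at h7
    exact h6.mul h7 ((Loc _).neg_mem ((Loc _).mul_mem (zmem hn _) (e_mem hn _))) (zmem hn _)
  -- together
  have hPm : (-1) ^ r * q ^ (-∑ i ∈ range r, (d : ℤ) * (k + i + 1)) * PP d r k ∈ Loc (cyclotomic n ℚ) :=
    (Loc _).mul_mem ((Loc _).mul_mem ((Loc _).pow_mem ((Loc _).neg_mem (Loc _).one_mem) _) (zmem hn _)) (PP_mem hn k)
  have h10 := h5.mul (h1.pow hPm d) ((Loc _).mul_mem ((Loc _).neg_mem ((Loc _).mul_mem (zmem hn _) (e_mem hn _))) (zmem hn _)) ((Loc _).pow_mem hPm d)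
  have hA : 2 * ∑ i ∈ range r, (d : ℤ) * (k + i + 1) = (d : ℤ) * (r * (2 * k + r + 1)) := by
    clear h1 hPm h10 hr hl hK hnZ H
    induction r with
    | zero => simp
    | succ r ih =>
      rw [sum_range_succ, mul_add, ih]
      push_cast; ring
  set A := ∑ i ∈ range r, (d : ℤ) * (k + i + 1) with hAd
  have hr2 : r % 2 = 0 := by
    have h1 : ((d : ℤ) * (r + 1)) % 2 = ((r : ℤ) + 1) % 2 := by
      rw [Int.mul_emod]
      have : (d : ℤ) % 2 = 1 := by omega
      rw [this]; omega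
    omega
  have hsg : ((-1 : RatFunc ℚ)) ^ (r * d) = 1 := by
    apply Even.neg_one_pow
    obtain ⟨c, hc⟩ : ∃ c, r = 2 * c := ⟨r / 2, by omega⟩
    exact ⟨c * d, by rw [hc]; ring⟩
  have h11 : -(q ^ (-(s + 2 * (d : ℤ) * k)) * e (s + 2 * (d : ℤ) * k)) * q ^ (-((l : ℤ) * s) - (d : ℤ) * l * k) *
      ((-1) ^ r * q ^ (-A) * PP d r k) ^ d = (q ^ (-(s + 2 * (d : ℤ) * k) + (-((l : ℤ) * s) - (d : ℤ) * l * k) + (-A) * d - (d : ℤ) * l * k)) *
      (-FF d r l s k) := by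
    unfold FF W
    rw [mul_pow, mul_pow, ← pow_mul, ← zpow_natCast (q ^ (-A)) d, ← zpow_mul, hsg,
      sub_eq_add_neg (-(s + 2 * (d : ℤ) * k) + (-((l : ℤ) * s) - (d : ℤ) * l * k) + (-A) * d), zpow_add₀ q_ne, zpow_add₀ q_ne, zpow_add₀ q_ne]
    have h12 : q ^ (-((d : ℤ) * l * k)) * q ^ ((d : ℤ) * l * k) = 1 := by
      rw [← zpow_add₀ q_ne, neg_add_cancel, zpow_zero]
    linear_combination ((q ^ (-(s + 2 * (d : ℤ) * k)) * e (s + 2 * (d : ℤ) * k)) * q ^ (-((l : ℤ) * s) - (d : ℤ) * l * k) *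
      (q ^ (-A * d) * PP d r k ^ d)) * (h12)
  have hE : 2 * (-(s + 2 * (d : ℤ) * k) + (-((l : ℤ) * s) - (d : ℤ) * l * k) + (-A) * d - (d : ℤ) * l * k) =
      (-2 * (2 * n + 2 * s - d + 2 * (d * k))) * n := by
    have e1 : (d : ℤ) * r = 2 * n + s - d := by linear_combination hr
    have e2 : 2 * ((-A) * d) = -(((d : ℤ) * r) * (2 * (d * k) + d * r + d)) := by
      linear_combination (-(d : ℤ)) * hA
    rw [mul_sub, mul_add, mul_add, e2, e1]
    have e3 : (l : ℤ) * 2 = d - 2 - s := by linear_combination hl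
    linear_combination (-s - 2 * ((d : ℤ) * k)) * e3
  have h13 := qE_even hn hE (by omega)
  rw [h11] at h10
  have h14 := Eqm.mul h13 (Eqm.refl (-FF d r l s k)) (Loc _).one_mem ((Loc _).neg_mem (FF_mem hn k))
  rw [one_mul] at h14
  exact h10.trans h14

lemma PP_QO2 (H : Hyp2 d r K n l s) {k : ℕ} (hk : K < k) (hkn : k < n) : QO (cyclotomic n ℚ) 1 (PP d r k) := by
  have := H.hK
  apply QO_prod (fun i _ => e_mem H.hn _) (i := n - k - 1) (mem_range.2 (by omega))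
  apply e_QO H.hn
  have : (k : ℤ) + ((n - k - 1 : ℕ) : ℤ) + 1 = n := by omega
  rw [this]
  exact dvd_mul_left _ _

lemma sum_FF2 (H : Hyp2 d r K n l s) : QO (cyclotomic n ℚ) 1 (∑ k ∈ range n, FF d r l s k) := by
  have hn := H.hn
  have hd := H.hd
  have hK := H.hK
  obtain ⟨m, hm⟩ := Nat.exists_eq_add_of_le (show K + 1 ≤ n by omega)
  have h3 : ∑ k ∈ range n, FF d r l s k = ∑ k ∈ range (K + 1), FF d r l s k + ∑ k ∈ range m, FF d r l s (K + 1 + k) := by
    conv_lhs => rw [hm]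
    exact sum_range_add _ _ _
  have h4 : QO (cyclotomic n ℚ) 1 (∑ k ∈ range m, FF d r l s (K + 1 + k)) := by
    apply QO.sum
    intro k hk
    have := mem_range.1 hk
    unfold FF
    exact QO.mul_left (W_mem hn _) ((QO.pow (PP_QO2 H (by omega) (by omega)) d).le (by omega))
  have h5 : Eqm (cyclotomic n ℚ) 1 (∑ k ∈ range (K + 1), FF d r l s k) (∑ k ∈ range (K + 1), -FF d r l s k) := by
    rw [← sum_range_reflect]
    apply Eqm.sum
    intro k hk
    have hk' := mem_range.1 hk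
    rw [Nat.add_sub_cancel]
    exact FF_reflect2 H (by omega)
  rw [sum_neg_distrib] at h5
  unfold Eqm at h5
  rw [sub_neg_eq_add] at h5
  rw [h3]
  exact (half_QO h5).add h4

/-- the ideal generated by `Φ` -/
def II (n : ℕ) : Ideal (Loc (cyclotomic n ℚ)) where
  carrier := {a | QO (cyclotomic n ℚ) 1 (a : RatFunc ℚ)}
  add_mem' := fun {a b} ha hb => by
    show QO _ 1 ((a + b : Loc (cyclotomic n ℚ)) : RatFunc ℚ)
    rw [Subring.coe_add]
    exact QO.add ha hb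
  zero_mem' := by
    show QO _ 1 ((0 : Loc (cyclotomic n ℚ)) : RatFunc ℚ)
    rw [Subring.coe_zero]
    exact QO.zero 1
  smul_mem' := fun c x hx => by
    show QO _ 1 ((c • x : Loc (cyclotomic n ℚ)) : RatFunc ℚ)
    rw [smul_eq_mul, Subring.coe_mul]
    exact QO.mul_left c.2 hx

lemma mem_II {a : Loc (cyclotomic n ℚ)} : a ∈ II n ↔ QO (cyclotomic n ℚ) 1 (a : RatFunc ℚ) := Iff.rfl

/-- the residue map -/
def pr (n : ℕ) : Loc (cyclotomic n ℚ) →+* Loc (cyclotomic n ℚ) ⧸ II n := Ideal.Quotient.mk (II n)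

lemma pr_eq_zero {a : Loc (cyclotomic n ℚ)} : pr n a = 0 ↔ QO (cyclotomic n ℚ) 1 (a : RatFunc ℚ) := by
  unfold pr
  rw [Ideal.Quotient.eq_zero_iff_mem, mem_II]

lemma pr_eq {a b : Loc (cyclotomic n ℚ)} (h : Eqm (cyclotomic n ℚ) 1 (a : RatFunc ℚ) (b : RatFunc ℚ)) : pr n a = pr n b := by
  rw [← sub_eq_zero, ← map_sub, pr_eq_zero, AddSubgroupClass.coe_sub]
  exact h

/-- powers of `q` as elements of the ring -/
def qa (hn : 0 < n) (z : ℤ) : Loc (cyclotomic n ℚ) := ⟨q ^ z, zmem hn z⟩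

lemma qa_add (hn : 0 < n) (z w : ℤ) : qa hn (z + w) = qa hn z * qa hn w := by
  apply Subtype.ext
  show q ^ (z + w) = q ^ z * q ^ w
  exact zpow_add₀ q_ne z w

lemma qa_pow (hn : 0 < n) (z : ℤ) (k : ℕ) : qa hn (z * k) = qa hn z ^ k := by
  apply Subtype.ext
  show q ^ (z * k) = ((qa hn z ^ k : Loc (cyclotomic n ℚ)) : RatFunc ℚ)
  rw [Subring.coe_pow, zpow_mul, zpow_natCast]
  rfl

lemma pr_shift (hn : 0 < n) (z c : ℤ) : pr n (qa hn (z + c * n)) = pr n (qa hn z) := pr_eq (qz_shift hn z c)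

/-- the linear factors -/
def lz (hn : 0 < n) (z : ℤ) : (Loc (cyclotomic n ℚ))[X] := 1 - C (qa hn z) * X

/-- the deformed sum, with denominators cleared -/
def NN (d l : ℕ) (s : ℤ) (hn : 0 < n) : (Loc (cyclotomic n ℚ))[X] :=
  ∑ k ∈ range n, (1 - C (qa hn (s + 2 * (d : ℤ) * k)) * X ^ 2) * C (qa hn ((d : ℤ) * l * k)) *
    ((∏ j ∈ range k, lz hn (s + (d : ℤ) * j)) ^ d * (∏ j ∈ range (n - 1 - k), lz hn ((d : ℤ) * (k + j + 1))) ^ d)

lemma moment1' (m : ℕ) {s : ℕ} (hnd : ¬ n ∣ m * s) : QO (cyclotomic n ℚ) 1 (∑ k ∈ range n, q ^ (m * s * k)) := by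
  have hne : 1 - q ^ (m * s) ≠ 0 := one_sub_ne (Nat.pos_of_ne_zero (fun h => hnd (h ▸ dvd_zero n)))
  have e1 : ∑ k ∈ range n, q ^ (m * s * k) = (1 - q ^ (m * s))⁻¹ * (1 - q ^ (m * s * n)) := by
    have h2 := geom_sum_mul (q ^ (m * s)) n
    simp only [← pow_mul] at h2
    rw [eq_inv_mul_iff_mul_eq₀ hne]
    linear_combination -h2
  rw [e1]
  exact QO.mul_left (inv_one_sub_mem hnd) (QO_one_sub (dvd_mul_left _ _))

/-- the deformed sum vanishes modulo `Φ` -/
lemma NN_zero (H : Hyp2 d r K n l s) : (NN d l s H.hn).map (pr n) = 0 := by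
  have hn := H.hn
  have hK := H.hK
  have hr := H.hr
  have hl := H.hl
  have hd := H.hd
  set x := pr n (qa hn (d : ℤ)) with hx
  have hpow : ∀ k : ℕ, pr n (qa hn ((d : ℤ) * k)) = x ^ k := by
    intro k
    rw [qa_pow, map_pow]
  have hxn : x ^ n = 1 := by
    rw [← hpow]
    have h1 := pr_shift hn 0 (d : ℤ)
    rw [zero_add] at h1
    rw [h1]
    have : qa hn 0 = 1 := by
      apply Subtype.ext
      show q ^ (0 : ℤ) = _
      rw [zpow_zero]; rfl
    rw [this, map_one]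
  have hdegZ : (l : ℤ) + 2 + d * r = 2 * n - l := by linarith
  have hdeg : l + 2 + d * r < 2 * n := by
    have h1 := H.hl0
    have : ((l + 2 + d * r : ℕ) : ℤ) < ((2 * n : ℕ) : ℤ) := by push_cast; omega
    exact_mod_cast this
  have hmom : ∀ j, 0 < j → j < 2 * n → j ≠ n → ∑ k ∈ range n, (x ^ k) ^ j = 0 := by
    intro j h0 h1 h2
    have hnd : ¬ n ∣ d * j := by
      intro h
      obtain ⟨c, hc⟩ := H.hcop.dvd_of_dvd_mul_left h
      rcases c with _ | _ | c
      · omega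
      · omega
      · have : n * 2 ≤ n * (c + 1 + 1) := Nat.mul_le_mul_left n (by omega)
        omega
    have h3 := moment1' (n := n) d hnd
    have h4 : ∑ k ∈ range n, (x ^ k) ^ j = pr n (∑ k ∈ range n, qa hn ((d : ℤ) * ((j * k : ℕ) : ℤ))) := by
      rw [map_sum]
      apply sum_congr rfl
      intro k _
      rw [hpow, ← pow_mul, mul_comm]
    rw [h4, pr_eq_zero]
    convert h3 using 1
    rw [AddSubmonoidClass.coe_finsetSum]
    apply sum_congr rfl
    intro k _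
    show q ^ ((d : ℤ) * ((j * k : ℕ) : ℤ)) = _
    rw [← zpow_natCast q]
    congr 1; push_cast; ring
  have hx1 : ∀ i : ℕ, ∀ c : ℤ, pr n (qa hn ((d : ℤ) * i + c * n)) = x ^ i := by
    intro i c
    rw [pr_shift, hpow]
  have hsum : ∑ k ∈ range n, (1 - x ^ (r + 1) * (x ^ k) ^ 2) * (x ^ k) ^ l * (∏ i ∈ range r, (1 - x ^ (i + 1) * x ^ k)) ^ d = 0 := by
    have h1 := sum_FF2 H
    have h4 : ∑ k ∈ range n, (1 - x ^ (r + 1) * (x ^ k) ^ 2) * (x ^ k) ^ l * (∏ i ∈ range r, (1 - x ^ (i + 1) * x ^ k)) ^ d =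
        pr n (∑ k ∈ range n, (1 - qa hn (s + 2 * (d : ℤ) * k)) * qa hn ((d : ℤ) * l * k) * (∏ i ∈ range r, (1 - qa hn ((d : ℤ) * (k + i + 1)))) ^ d) := by
      rw [map_sum]
      apply sum_congr rfl
      intro k _
      rw [map_mul, map_mul, map_sub, map_one, map_pow, map_prod]
      congr 1
      · congr 1
        · congr 1
          have := hx1 (r + 1 + k * 2) (-2)
          rw [show (d : ℤ) * ((r + 1 + k * 2 : ℕ) : ℤ) + -2 * n = s + 2 * (d : ℤ) * k by push_cast; linarith] at this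
          rw [this]; ring
        · have := hpow (k * l)
          rw [show (d : ℤ) * ((k * l : ℕ) : ℤ) = (d : ℤ) * l * k by push_cast; ring] at this
          rw [this, pow_mul]
      · congr 1
        apply prod_congr rfl
        intro i _
        rw [map_sub, map_one]
        have := hpow (i + 1 + k)
        rw [show (d : ℤ) * ((i + 1 + k : ℕ) : ℤ) = (d : ℤ) * (k + i + 1) by push_cast; ring] at this
        rw [this]; ring
    rw [h4, pr_eq_zero]
    convert h1 using 1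
    rw [AddSubmonoidClass.coe_finsetSum]
    apply sum_congr rfl
    intro k _
    rw [Subring.coe_mul, Subring.coe_mul, Subring.coe_pow, SubmonoidClass.coe_finsetProd]
    rfl
  have h1 := deform_zero x hxn H.hl0 hdeg (by omega) hmom hsum
  rw [← h1]
  unfold NN lz la
  rw [Polynomial.map_sum]
  apply sum_congr rfl
  intro k _
  simp only [Polynomial.map_mul, Polynomial.map_sub, Polynomial.map_one, Polynomial.map_C, Polynomial.map_X, Polynomial.map_pow,
    Polynomial.map_prod]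
  have a1 : pr n (qa hn (s + 2 * (d : ℤ) * k)) = x ^ (r + 1) * (x ^ k) ^ 2 := by
    have := hx1 (r + 1 + k * 2) (-2)
    rw [show (d : ℤ) * ((r + 1 + k * 2 : ℕ) : ℤ) + -2 * n = s + 2 * (d : ℤ) * k by push_cast; linarith] at this
    rw [this]; ring
  have a2 : pr n (qa hn ((d : ℤ) * l * k)) = (x ^ k) ^ l := by
    have := hpow (k * l)
    rw [show (d : ℤ) * ((k * l : ℕ) : ℤ) = (d : ℤ) * l * k by push_cast; ring] at this
    rw [this, pow_mul]
  have a3 : ∀ j : ℕ, pr n (qa hn (s + (d : ℤ) * j)) = x ^ (r + 1 + j) := by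
    intro j
    have := hx1 (r + 1 + j) (-2)
    rwa [show (d : ℤ) * ((r + 1 + j : ℕ) : ℤ) + -2 * n = s + (d : ℤ) * j by push_cast; linarith] at this
  have a4 : ∀ j : ℕ, pr n (qa hn ((d : ℤ) * (k + j + 1))) = x ^ (k + j + 1) := by
    intro j
    have := hpow (k + j + 1)
    rwa [show (d : ℤ) * ((k + j + 1 : ℕ) : ℤ) = (d : ℤ) * (k + j + 1) by push_cast; ring] at this
  rw [a1, a2]
  simp only [a3, a4]

end

end Pool.Agent.X14.QR
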