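import Pool.Agent.X14.QR5

set_option autoImplicit false

/-! The case `2n ≡ -s (mod d)`: the functional equation and the conclusion from the value at `δ = 1`. -/

namespace Pool.Agent.X14.QR

open Finset Polynomial Pool.Agent.X14.QL Pool.Agent.X14.QBlock

noncomputable section

variable {d r K n l : ℕ} {s : ℤ}

/-- the deformed ratios -/
def rt (d : ℕ) (s : ℤ) (n : ℕ) (δ : ℤ) (k : ℕ) : RatFunc ℚ :=
  ∏ j ∈ range k, (e (s + (d : ℤ) * j + δ * n) * (e ((d : ℤ) * (j + 1) + δ * n))⁻¹)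

/-- the deformed terms -/
def sg (d l : ℕ) (s : ℤ) (n : ℕ) (δ : ℤ) (k : ℕ) : RatFunc ℚ :=
  e (s + 2 * (d : ℤ) * k + 2 * δ * n) * q ^ ((d : ℤ) * l * k) * rt d s n δ k ^ d

def GS (d l : ℕ) (s : ℤ) (n : ℕ) (δ : ℤ) : RatFunc ℚ := ∑ k ∈ range n, sg d l s n δ k

def GK (d l : ℕ) (s : ℤ) (n K : ℕ) (δ : ℤ) : RatFunc ℚ := ∑ k ∈ range (K + 1), sg d l s n δ k

lemma nd_shift {z : ℤ} (hz : ¬ (n : ℤ) ∣ z) (c : ℤ) : ¬ (n : ℤ) ∣ z + c * n :=
  fun h => hz ((dvd_add_left (dvd_mul_left _ _)).1 h)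

lemma rt_mem (H : Hyp2 d r K n l s) (δ : ℤ) {k : ℕ} (hk : k < n) : rt d s n δ k ∈ Loc (cyclotomic n ℚ) := by
  apply (Loc _).prod_mem
  intro j hj
  have := mem_range.1 hj
  exact (Loc _).mul_mem (e_mem H.hn _) (e_inv H.hn (nd_shift (nd H.hcop (by omega) (by omega)) δ))

lemma rt_QO (H : Hyp2 d r K n l s) (δ : ℤ) {k : ℕ} (hk : K < k) (hkn : k < n) :
    QO (cyclotomic n ℚ) 1 (rt d s n δ k) := by
  have hn := H.hn
  have hK := H.hK
  apply QO_prod (i := K)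
  · intro j hj
    have := mem_range.1 hj
    exact (Loc _).mul_mem (e_mem H.hn _) (e_inv H.hn (nd_shift (nd H.hcop (by omega) (by omega)) δ))
  · exact mem_range.2 hk
  · refine QO.mul_right (e_QO hn ?_) (e_inv hn (nd_shift (nd H.hcop (by omega) (by omega)) δ))
    have hnZ : (n : ℤ) = K + r + 1 := by exact_mod_cast hK.symm
    refine ⟨(d : ℤ) - 2 + δ, ?_⟩
    linear_combination (-(d : ℤ)) * hnZ - H.hr

lemma sg_mem (H : Hyp2 d r K n l s) (δ : ℤ) {k : ℕ} (hk : k < n) : sg d l s n δ k ∈ Loc (cyclotomic n ℚ) :=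
  (Loc _).mul_mem ((Loc _).mul_mem (e_mem H.hn _) (zmem H.hn _)) ((Loc _).pow_mem (rt_mem H δ hk) _)

lemma GS_GK (H : Hyp2 d r K n l s) (δ : ℤ) : Eqm (cyclotomic n ℚ) 4 (GS d l s n δ) (GK d l s n K δ) := by
  have hn := H.hn
  have hd := H.hd
  have hK := H.hK
  obtain ⟨m, hm⟩ := Nat.exists_eq_add_of_le (show K + 1 ≤ n by omega)
  have h3 : GS d l s n δ - GK d l s n K δ = ∑ k ∈ range m, sg d l s n δ (K + 1 + k) := by
    unfold GS GK
    have hrg : range n = range (K + 1 + m) := congrArg range hm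
    rw [hrg, sum_range_add, add_sub_cancel_left]
  unfold Eqm
  rw [h3]
  apply QO.sum
  intro k hk
  have := mem_range.1 hk
  unfold sg
  exact QO.mul_left ((Loc _).mul_mem (e_mem hn _) (zmem hn _)) ((QO.pow (rt_QO H δ (by omega) (by omega)) d).le (by omega))

/-- reflection of the ratios -/
lemma rt_reflect (H : Hyp2 d r K n l s) (δ : ℤ) {k : ℕ} (hk : k ≤ K) :
    rt d s n δ (K - k) = rt d s n δ K * q ^ (((d : ℤ) - s) * k) * rt d s n (2 - d - δ) k := by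
  obtain ⟨m, rfl⟩ := Nat.exists_eq_add_of_le hk
  have hn := H.hn
  have hK := H.hK
  have hr := H.hr
  have hnZ : (n : ℤ) = k + m + r + 1 := by exact_mod_cast hK.symm
  rw [Nat.add_sub_cancel_left]
  have h1 : rt d s n δ (k + m) = rt d s n δ m * ∏ i ∈ range k,
      (e (s + (d : ℤ) * ((m + (k - 1 - i) : ℕ) : ℤ) + δ * n) * (e ((d : ℤ) * (((m + (k - 1 - i) : ℕ) : ℤ) + 1) + δ * n))⁻¹) := by
    unfold rt
    rw [add_comm k m, prod_range_add]
    congr 1
    rw [← prod_range_reflect]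
  have h2 : q ^ (((d : ℤ) - s) * k) = ∏ i ∈ range k, q ^ ((d : ℤ) - s) := by
    rw [prod_const, card_range, ← zpow_natCast, ← zpow_mul]
  rw [h1, h2]
  unfold rt
  rw [mul_assoc, mul_assoc, ← prod_mul_distrib, ← prod_mul_distrib]
  symm
  rw [mul_eq_left₀]
  · apply prod_eq_one
    intro i hi
    have hi' := mem_range.1 hi
    have hidx : ((m + (k - 1 - i) : ℕ) : ℤ) = m + k - 1 - i := by omega
    rw [hidx]
    set a := (d : ℤ) * (i + 1) + (2 - d - δ) * n with ha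
    set b := s + (d : ℤ) * i + (2 - d - δ) * n with hb
    have e1 : s + (d : ℤ) * ((m : ℤ) + k - 1 - i) + δ * n = -a := by
      rw [ha]; linear_combination -(d : ℤ) * hnZ - hr
    have e2 : (d : ℤ) * ((m : ℤ) + k - 1 - i + 1) + δ * n = -b := by
      rw [hb]; linear_combination -(d : ℤ) * hnZ - hr
    have hnda : ¬ (n : ℤ) ∣ a := nd_shift (nd H.hcop (by omega) (by omega)) _
    have hndb : ¬ (n : ℤ) ∣ b := by
      have h3 : b = (d : ℤ) * (r + 1 + i) + (-(d : ℤ) - δ) * n := by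
        rw [hb]; linear_combination -hr
      rw [h3]
      exact nd_shift (nd H.hcop (by omega) (by omega)) _
    have ha0 := ne_of_nd hnda
    have hb0 := ne_of_nd hndb
    have hq1 : q ^ a ≠ 0 := zpow_ne_zero _ q_ne
    have hq2 : q ^ b ≠ 0 := zpow_ne_zero _ q_ne
    have h4 : q ^ b * q ^ ((d : ℤ) - s) = q ^ a := by
      rw [← zpow_add₀ q_ne]
      congr 1
      rw [ha, hb]; ring
    rw [e1, e2, e_neg, e_neg]
    field_simp
    linear_combination h4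
  · -- nonvanishing
    rw [prod_ne_zero_iff]
    intro j hj
    have := mem_range.1 hj
    refine mul_ne_zero ?_ (inv_ne_zero (ne_of_nd (nd_shift (nd H.hcop (by omega) (by omega)) _)))
    have h3 : s + (d : ℤ) * j + δ * n = (d : ℤ) * (r + 1 + j) + (δ - 2) * n := by linear_combination -hr
    rw [h3]
    exact ne_of_nd (nd_shift (nd H.hcop (by omega) (by omega)) _)

/-- the constant of the functional equation -/
def Cc (d l : ℕ) (s : ℤ) (n K : ℕ) (δ : ℤ) : RatFunc ℚ :=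
  rt d s n δ K ^ d * q ^ (-s - 2 * (2 - d - δ) * n + (d : ℤ) * l * K)

lemma sg_reflect (H : Hyp2 d r K n l s) (δ : ℤ) {k : ℕ} (hk : k ≤ K) :
    sg d l s n δ (K - k) = -(Cc d l s n K δ * sg d l s n (2 - d - δ) k) := by
  have hK := H.hK
  have hr := H.hr
  have hl := H.hl
  have hnZ : (n : ℤ) = K + r + 1 := by exact_mod_cast hK.symm
  have hkc : ((K - k : ℕ) : ℤ) = (K : ℤ) - k := by omega
  unfold sg Cc
  rw [rt_reflect H δ hk, hkc]
  have e1 : s + 2 * (d : ℤ) * (K - k) + 2 * δ * n = -(s + 2 * (d : ℤ) * k + 2 * (2 - d - δ) * n) := by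
    linear_combination (-2 * (d : ℤ)) * hnZ - 2 * hr
  rw [e1, e_neg, ← zpow_neg, mul_pow, mul_pow, ← zpow_natCast (q ^ (((d : ℤ) - s) * k)) d, ← zpow_mul]
  have e2 : q ^ (-(s + 2 * (d : ℤ) * k + 2 * (2 - d - δ) * n)) * q ^ ((d : ℤ) * l * (K - k)) * q ^ (((d : ℤ) - s) * k * d) =
      q ^ (-s - 2 * (2 - d - δ) * n + (d : ℤ) * l * K) * q ^ ((d : ℤ) * l * k) := by
    rw [← zpow_add₀ q_ne, ← zpow_add₀ q_ne, ← zpow_add₀ q_ne]
    congr 1
    linear_combination (-((d : ℤ) * k)) * hl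
  linear_combination (-(e (s + 2 * (d : ℤ) * k + 2 * (2 - d - δ) * n) * rt d s n δ K ^ d * rt d s n (2 - d - δ) k ^ d)) * e2

lemma GK_reflect (H : Hyp2 d r K n l s) (δ : ℤ) :
    GK d l s n K δ = -(Cc d l s n K δ * GK d l s n K (2 - d - δ)) := by
  unfold GK
  rw [← sum_range_reflect, mul_sum, ← sum_neg_distrib]
  apply sum_congr rfl
  intro k hk
  have hk' := mem_range.1 hk
  rw [Nat.add_sub_cancel]
  exact sg_reflect H δ (by omega)

lemma Cc_mem (H : Hyp2 d r K n l s) (δ : ℤ) : Cc d l s n K δ ∈ Loc (cyclotomic n ℚ) := by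
  have := H.hK
  exact (Loc _).mul_mem ((Loc _).pow_mem (rt_mem H δ (by omega)) _) (zmem H.hn _)

lemma Cc_U (H : Hyp2 d r K n l s) : U (cyclotomic n ℚ) 1 (Cc d l s n K 0) := by
  have hn := H.hn
  have hK := H.hK
  have hr := H.hr
  have hl := H.hl
  have hs := H.hs
  have hdo := H.hdo
  have hnZ : (n : ℤ) = K + r + 1 := by exact_mod_cast hK.symm
  have h1 : Eqm (cyclotomic n ℚ) 1 (rt d s n 0 K) (∏ i ∈ range K, (-q ^ (-((d : ℤ) * (i + 1))))) := by
    have h2 : rt d s n 0 K = ∏ i ∈ range K, (e (s + (d : ℤ) * ((K - 1 - i : ℕ) : ℤ) + 0 * n) * (e ((d : ℤ) * (i + 1) + 0 * n))⁻¹) := by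
      unfold rt
      rw [prod_mul_distrib, prod_mul_distrib]
      congr 1
      rw [← prod_range_reflect (fun i : ℕ => e (s + (d : ℤ) * (i : ℤ) + 0 * n))]
    rw [h2]
    apply Eqm.prod
    · intro i hi
      have hi' := mem_range.1 hi
      have hidx : ((K - 1 - i : ℕ) : ℤ) = K - 1 - i := by omega
      rw [hidx]
      have h3 := e_shift hn (-((d : ℤ) * (i + 1))) ((d : ℤ) - 2)
      rw [e_neg, ← zpow_neg] at h3
      have e1 : -((d : ℤ) * (i + 1)) + ((d : ℤ) - 2) * n = s + (d : ℤ) * ((K : ℤ) - 1 - i) + 0 * n := by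
        linear_combination (d : ℤ) * hnZ + hr
      rw [e1] at h3
      have hnd := nd H.hcop (a := (i : ℤ) + 1) (by omega) (by omega)
      have h4 := h3.mul (Eqm.refl (e ((d : ℤ) * (i + 1)))⁻¹) ((Loc _).neg_mem ((Loc _).mul_mem (zmem hn _) (e_mem hn _))) (e_inv hn hnd)
      rw [zero_mul, add_zero, add_zero] at *
      convert h4 using 1
      have h5 := ne_of_nd hnd
      field_simp
    · intro i _
      exact (Loc _).neg_mem (zmem hn _)
  have h3 : ∏ i ∈ range K, (-q ^ (-((d : ℤ) * (i + 1)))) = (-1) ^ K * q ^ (-∑ i ∈ range K, (d : ℤ) * (i + 1)) := by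
    clear h1 hK hnZ H
    induction K with
    | zero => simp
    | succ K ih =>
      rw [prod_range_succ, sum_range_succ, ih, neg_add, zpow_add₀ q_ne, pow_succ]
      ring
  have hA : 2 * ∑ i ∈ range K, (d : ℤ) * (i + 1) = (d : ℤ) * K * (K + 1) := by
    clear h1 hK hnZ H h3
    induction K with
    | zero => simp
    | succ K ih =>
      rw [sum_range_succ, mul_add, ih]
      push_cast; ring
  rw [h3] at h1
  set A := ∑ i ∈ range K, (d : ℤ) * (i + 1) with hAd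
  have hm : (-1) ^ K * q ^ (-A) ∈ Loc (cyclotomic n ℚ) :=
    (Loc _).mul_mem ((Loc _).pow_mem ((Loc _).neg_mem (Loc _).one_mem) _) (zmem hn _)
  have h4 := (h1.pow hm d).mul (Eqm.refl (q ^ (-s - 2 * (2 - d - 0) * n + (d : ℤ) * l * K))) ((Loc _).pow_mem hm _) (zmem hn _)
  have h5 : ((-1) ^ K * q ^ (-A)) ^ d * q ^ (-s - 2 * (2 - d - 0) * n + (d : ℤ) * l * K) =
      (-1) ^ (K * d) * q ^ (-A * d + (-s - 2 * (2 - d - 0) * n + (d : ℤ) * l * K)) := by
    rw [mul_pow, ← pow_mul, ← zpow_natCast (q ^ (-A)) d, ← zpow_mul, zpow_add₀ q_ne (-A * d)]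
    ring
  rw [h5] at h4
  have hD : (d : ℤ) * K = (d - 2) * n - s := by linear_combination -(d : ℤ) * hnZ - hr
  have hE : 2 * (-A * d + (-s - 2 * (2 - d - 0) * n + (d : ℤ) * l * K)) = (((d : ℤ) - 2) * (2 - d * K)) * n := by
    have e1 : 2 * (-A * d) = -((d : ℤ) * K * (d * K + d)) := by linear_combination (-(d : ℤ)) * hA
    rw [mul_add, e1]
    have e2 : (l : ℤ) * 2 = d - 2 - s := by linear_combination hl
    linear_combination ((d : ℤ) * K) * e2 + (-((d : ℤ) * K + 2)) * hD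
  have hKp : ((d : ℤ) * K) % 2 = (K : ℤ) % 2 := by
    rw [Int.mul_emod]
    have : (d : ℤ) % 2 = 1 := by omega
    rw [this]; omega
  unfold Cc
  rw [U_iff]
  refine h4.trans ?_
  have hM : (((d : ℤ) - 2) * (2 - d * K)) % 2 = (K : ℤ) % 2 := by
    rw [Int.mul_emod]
    have h6 : ((d : ℤ) - 2) % 2 = 1 := by omega
    rw [h6]
    omega
  rcases Nat.mod_two_eq_zero_or_one K with hK2 | hK2
  · have hsg : ((-1 : RatFunc ℚ)) ^ (K * d) = 1 := by
      apply Even.neg_one_pow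
      obtain ⟨c, hc⟩ : ∃ c, K = 2 * c := ⟨K / 2, by omega⟩
      exact ⟨c * d, by rw [hc]; ring⟩
    rw [hsg, one_mul]
    exact qE_even hn hE (by omega)
  · have hsg : ((-1 : RatFunc ℚ)) ^ (K * d) = -1 := by
      apply Odd.neg_one_pow
      obtain ⟨c, hc⟩ : ∃ c, K = 2 * c + 1 := ⟨K / 2, by omega⟩
      obtain ⟨c', hc'⟩ : ∃ c', d = 2 * c' + 1 := ⟨d / 2, by omega⟩
      exact ⟨2 * c * c' + c + c', by rw [hc, hc']; ring⟩
    rw [hsg]
    have h6 := Eqm.mul_left ((Loc (cyclotomic n ℚ)).neg_mem (Loc _).one_mem) (qE_odd hn hE (by omega))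
    rwa [neg_mul_neg, one_mul] at h6

/-! ### the uniformiser -/

lemma uni (hn : 0 < n) : ∃ w : RatFunc ℚ, w ∈ Loc (cyclotomic n ℚ) ∧ w⁻¹ ∈ Loc (cyclotomic n ℚ) ∧
    q ^ (n : ℤ) - 1 = al (cyclotomic n ℚ) * w ∧ w ≠ 0 := by
  have h1 : (X : ℚ[X]) ^ n - 1 = cyclotomic n ℚ * ∏ i ∈ n.properDivisors, cyclotomic i ℚ := by
    rw [← prod_cyclotomic_eq_X_pow_sub_one hn ℚ, ← Nat.insert_self_properDivisors (Nat.pos_iff_ne_zero.1 hn),
      prod_insert Nat.self_notMem_properDivisors]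
  have h2 : IsCoprime (∏ i ∈ n.properDivisors, cyclotomic i ℚ) (cyclotomic n ℚ) := by
    apply IsCoprime.prod_left
    intro i hi
    apply cyclotomic.isCoprime_rat
    rintro rfl
    exact Nat.self_notMem_properDivisors hi
  refine ⟨al (∏ i ∈ n.properDivisors, cyclotomic i ℚ), al_mem _ _, inv_mem h2, ?_, ?_⟩
  · rw [← map_mul, ← h1, map_sub, map_pow, map_one, ← q_eq, zpow_natCast]
  · apply al_ne
    rw [prod_ne_zero_iff]
    intro i _
    exact cyclotomic_ne_zero i ℚ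

/-- cancellation of the uniformiser -/
lemma cancel_z (hn : 0 < n) {k : ℕ} {x : RatFunc ℚ} (h : QO (cyclotomic n ℚ) (k + 1) ((q ^ (n : ℤ) - 1) * x)) :
    QO (cyclotomic n ℚ) k x := by
  obtain ⟨w, hw, hwi, h1, hw0⟩ := uni hn
  obtain ⟨y, hy, h2⟩ := h
  refine ⟨y * w⁻¹, (Loc _).mul_mem hy hwi, ?_⟩
  have h3 : al (cyclotomic n ℚ) ≠ 0 := al_ne (cyclotomic_ne_zero n ℚ)
  have h4 : al (cyclotomic n ℚ) * (w * x) = al (cyclotomic n ℚ) * (al (cyclotomic n ℚ) ^ k * y) := by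
    rw [h1] at h2
    rw [← mul_assoc, h2, pow_succ]; ring
  have h5 := mul_left_cancel₀ h3 h4
  have h6 : x = w⁻¹ * (al (cyclotomic n ℚ) ^ k * y) := by
    rw [← h5, ← mul_assoc, inv_mul_cancel₀ hw0, one_mul]
  rw [h6]; ring

/-- `q^{δ n} - 1` -/
def zd (n : ℕ) (δ : ℤ) : RatFunc ℚ := q ^ (δ * n) - 1

lemma zd_eq (δ : ℤ) : zd n δ = (q ^ (1 * n)) ^ δ - 1 := by
  unfold zd
  rw [one_mul, ← zpow_natCast q n, ← zpow_mul, mul_comm]

lemma zd_eqm (hn : 0 < n) (δ : ℤ) : Eqm (cyclotomic n ℚ) 2 (zd n δ) (δ * zd n 1) := by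
  obtain ⟨hx, hx0, hx1, hxi⟩ := x_props (n := n) (s := 1) hn one_pos
  have h1 := zp hx hx0 hxi δ
  rw [zd_eq, zd_eq 1, zpow_one]
  unfold Eqm at *
  convert h1 using 1
  ring

lemma zd_QO (hn : 0 < n) (δ : ℤ) : QO (cyclotomic n ℚ) 1 (zd n δ) := by
  have := (e_QO (z := δ * n) hn (dvd_mul_left _ _)).neg
  unfold zd
  unfold e at this
  rwa [neg_sub] at this

/-- the algebraic conclusion -/
lemma concl (hn : 0 < n) (hd : 0 < d) {a0 a1 a2 κ : RatFunc ℚ} (h0 : a0 ∈ Loc (cyclotomic n ℚ)) (h1 : a1 ∈ Loc (cyclotomic n ℚ))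
    (h2 : a2 ∈ Loc (cyclotomic n ℚ)) (hκ : U (cyclotomic n ℚ) 1 κ)
    (hA : QO (cyclotomic n ℚ) 3 (a0 + zd n 1 * (a1 + zd n 1 * a2)))
    (hB : QO (cyclotomic n ℚ) 3 (a0 + zd n (1 - d) * (a1 + zd n (1 - d) * a2)))
    (hC : QO (cyclotomic n ℚ) 3 (a0 + κ * (a0 + zd n (2 - d) * (a1 + zd n (2 - d) * a2)))) :
    QO (cyclotomic n ℚ) 3 a0 := by
  obtain ⟨hx, hx0, hx1, hxi⟩ := x_props (n := n) (s := 1) hn one_pos
  set z := zd n 1 with hz
  set z' := zd n (1 - d) with hz'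
  set z2 := zd n (2 - d) with hz2
  have hzq := zd_QO (n := n) hn 1
  have hzq' := zd_QO (n := n) hn (1 - d)
  have hzq2 := zd_QO (n := n) hn (2 - d)
  rw [← hz] at hzq
  rw [← hz'] at hzq'
  rw [← hz2] at hzq2
  -- the difference of the parameters
  have hG := Gz_inv_mem hx hx0 hx1 hxi (z := -(d : ℤ)) (by omega)
  have hG0 : Gz (q ^ (1 * n)) (-(d : ℤ)) ≠ 0 := by
    intro h
    unfold Gz at h
    rcases div_eq_zero_iff.1 h with h | h
    · have h3 : (q ^ (1 * n)) ^ (-(d : ℤ)) = q ^ (-((d * n : ℕ) : ℤ)) := by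
        rw [one_mul, ← zpow_natCast q n, ← zpow_mul]; congr 1; push_cast; ring
      rw [h3] at h
      exact e_ne (z := -((d * n : ℕ) : ℤ)) (by have := Nat.mul_pos hd hn; omega) h
    · exact hx1 h
  have hdiff : z' - z = q ^ (n : ℤ) * (q ^ (n : ℤ) - 1) * Gz (q ^ (1 * n)) (-(d : ℤ)) := by
    have h3 : (q ^ (1 * n)) ^ (-(d : ℤ)) = q ^ (-(d : ℤ) * n) := by
      rw [one_mul, ← zpow_natCast q n, ← zpow_mul]; congr 1; ring
    have h4 : q ^ ((1 - (d : ℤ)) * n) = q ^ (n : ℤ) * q ^ (-(d : ℤ) * n) := by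
      rw [← zpow_add₀ q_ne]; congr 1; ring
    rw [hz', hz]
    unfold zd Gz
    rw [h3, h4, one_mul, one_mul, ← zpow_natCast q n]
    rw [one_mul, ← zpow_natCast q n] at hx1
    field_simp
    ring
  -- first
  set y := a1 + a2 * (z' + z) with hy
  have hy2 : QO (cyclotomic n ℚ) 2 y := by
    apply cancel_z hn
    have h3 := QO.sub hB hA
    have h4 : a0 + z' * (a1 + z' * a2) - (a0 + z * (a1 + z * a2)) = (z' - z) * y := by rw [hy]; ring
    rw [h4, hdiff] at h3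
    have h5 := QO.mul_left ((Loc _).mul_mem hG (zmem hn (-(n : ℤ)))) h3
    convert h5 using 1
    have h6 : q ^ (-(n : ℤ)) * q ^ (n : ℤ) = 1 := by rw [← zpow_add₀ q_ne, neg_add_cancel, zpow_zero]
    have h7 : (Gz (q ^ (1 * n)) (-(d : ℤ)))⁻¹ * Gz (q ^ (1 * n)) (-(d : ℤ)) = 1 := inv_mul_cancel₀ hG0
    linear_combination (-(q ^ (n : ℤ) - 1) * y) * h6 * 1 - ((q ^ (-(n : ℤ)) * q ^ (n : ℤ)) * (q ^ (n : ℤ) - 1) * y) * h7
  set b := a2 * ((1 - d) * z ^ 2) with hb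
  have hdm : (1 - (d : RatFunc ℚ)) ∈ Loc (cyclotomic n ℚ) := (Loc _).sub_mem (Loc _).one_mem (nat_mem _ _)
  have hzz : QO (cyclotomic n ℚ) 2 (z ^ 2) := QO.pow hzq 2
  have hb2 : QO (cyclotomic n ℚ) 2 b := QO.mul_left h2 (QO.mul_left hdm hzz)
  have hm1 : (1 : ℤ) - d = ((1 - d : ℤ)) := rfl
  have hz'e : Eqm (cyclotomic n ℚ) 2 z' ((1 - d) * z) := by
    have := zd_eqm (n := n) hn (1 - d)
    push_cast at this
    exact this
  have hz2e : Eqm (cyclotomic n ℚ) 2 z2 ((2 - d) * z) := by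
    have := zd_eqm (n := n) hn (2 - d)
    push_cast at this
    exact this
  have ha0 : Eqm (cyclotomic n ℚ) 3 a0 b := by
    have h3 := QO.sub hA (QO.mul hzq hy2)
    have h4 : QO (cyclotomic n ℚ) 3 (a2 * (z * (z' - (1 - d) * z))) := QO.mul_left h2 (QO.mul hzq hz'e)
    have h5 := QO.add h3 h4
    unfold Eqm
    convert h5 using 1
    rw [hb, hy]; ring
  have hE2 : Eqm (cyclotomic n ℚ) 3 (a0 + z2 * (a1 + z2 * a2)) b := by
    have h3 := QO.add hA (QO.mul (QO.sub hzq2 hzq) hy2)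
    have hu1 : QO (cyclotomic n ℚ) 2 (z2 - z - (1 - d) * z) := by
      have := hz2e
      unfold Eqm at this
      convert this using 1
      ring
    have hu2 : QO (cyclotomic n ℚ) 2 (z2 - z' - z) := by
      have := QO.sub hz2e hz'e
      convert this using 1
      ring
    have h4 := QO.mul_left h2 (QO.mul hu1 (QO.sub hzq2 hzq'))
    have h5 := QO.mul_left h2 (QO.mul (QO.mul_left hdm hzq) hu2)
    have h6 := QO.add (QO.add h3 h4) h5
    unfold Eqm
    convert h6 using 1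
    rw [hb, hy]; ring
  have hE2q : QO (cyclotomic n ℚ) 2 (a0 + z2 * (a1 + z2 * a2)) := by
    have := QO.add (hE2.le (show 2 ≤ 3 by norm_num)) hb2
    rwa [sub_add_cancel] at this
  have h3 : QO (cyclotomic n ℚ) 3 ((κ - 1) * (a0 + z2 * (a1 + z2 * a2))) := QO.mul hκ hE2q
  have h4 := QO.sub (QO.sub (QO.sub hC h3) ha0) hE2
  have h5 : QO (cyclotomic n ℚ) 3 (b + b) := by
    convert h4 using 1
    ring
  have h6 := QO.add ha0 (half_QO h5)
  rwa [sub_add_cancel] at h6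

end

end Pool.Agent.X14.QR
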