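import Pool.Agent.X14.QR6

set_option autoImplicit false

/-! The case `2n ≡ -s (mod d)`: from `δ = 1` to `δ = 0`. -/

namespace Pool.Agent.X14.QR

open Finset Polynomial Pool.Agent.X14.QL Pool.Agent.X14.QBlock

noncomputable section

variable {d r K n l : ℕ} {s : ℤ}

/-- the common denominator -/
def Dn (d n : ℕ) (δ : ℤ) : RatFunc ℚ := ∏ j ∈ range (n - 1), e ((d : ℤ) * (j + 1) + δ * n)

lemma lz_eval (hn : 0 < n) (z w : ℤ) : (((lz hn z).eval (qa hn w) : Loc (cyclotomic n ℚ)) : RatFunc ℚ) = e (z + w) := by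
  unfold lz
  rw [eval_sub, Polynomial.eval_one, eval_mul, eval_C, eval_X, ← qa_add]
  rfl

lemma NN_eval (H : Hyp2 d r K n l s) (δ : ℤ) :
    (((NN d l s H.hn).eval (qa H.hn (δ * n)) : Loc (cyclotomic n ℚ)) : RatFunc ℚ) = Dn d n δ ^ d * GS d l s n δ := by
  have hn := H.hn
  unfold NN GS
  rw [eval_finsetSum, AddSubmonoidClass.coe_finsetSum, mul_sum]
  apply sum_congr rfl
  intro k hk
  have hk' := mem_range.1 hk
  simp only [eval_mul, eval_sub, Polynomial.eval_one, eval_C, eval_pow, eval_X, eval_prod, Subring.coe_mul, Subring.coe_pow,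
    SubmonoidClass.coe_finsetProd, lz_eval, AddSubgroupClass.coe_sub, Subring.coe_one]
  have h1 : ((qa hn (s + 2 * (d : ℤ) * k) : Loc (cyclotomic n ℚ)) : RatFunc ℚ) * ((qa hn (δ * n) : Loc (cyclotomic n ℚ)) : RatFunc ℚ) ^ 2 =
      q ^ (s + 2 * (d : ℤ) * k + 2 * δ * n) := by
    show q ^ (s + 2 * (d : ℤ) * k) * (q ^ (δ * n)) ^ 2 = _
    rw [← zpow_natCast (q ^ (δ * n)) 2, ← zpow_mul, ← zpow_add₀ q_ne]
    congr 1; push_cast; ring
  have h2 : ((qa hn ((d : ℤ) * l * k) : Loc (cyclotomic n ℚ)) : RatFunc ℚ) = q ^ ((d : ℤ) * l * k) := rfl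
  rw [h1, h2]
  have h3 : Dn d n δ = (∏ j ∈ range k, e ((d : ℤ) * (j + 1) + δ * n)) * ∏ j ∈ range (n - 1 - k), e ((d : ℤ) * (k + j + 1) + δ * n) := by
    unfold Dn
    obtain ⟨m, hm⟩ : ∃ m, n - 1 = k + m := ⟨n - 1 - k, by omega⟩
    rw [hm, Nat.add_sub_cancel_left, prod_range_add]
    congr 1
  have h4 : (∏ j ∈ range k, e ((d : ℤ) * (j + 1) + δ * n)) * rt d s n δ k = ∏ j ∈ range k, e (s + (d : ℤ) * j + δ * n) := by
    unfold rt
    rw [← prod_mul_distrib]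
    apply prod_congr rfl
    intro j hj
    have := mem_range.1 hj
    have h5 := ne_of_nd (nd_shift (nd H.hcop (a := (j : ℤ) + 1) (by omega) (by omega)) δ)
    field_simp
  unfold sg
  rw [h3, mul_pow, ← h4, mul_pow]
  unfold e
  ring

lemma Dn_ne (hcop : Nat.Coprime n d) (δ : ℤ) : Dn d n δ ≠ 0 := by
  unfold Dn
  rw [prod_ne_zero_iff]
  intro j hj
  have := mem_range.1 hj
  exact ne_of_nd (nd_shift (nd hcop (by omega) (by omega)) δ)

lemma Dn_mem (hn : 0 < n) (δ : ℤ) : Dn d n δ ∈ Loc (cyclotomic n ℚ) := (Loc _).prod_mem (fun _ _ => e_mem hn _)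

lemma Dn_inv (hn : 0 < n) (hcop : Nat.Coprime n d) (δ : ℤ) : (Dn d n δ)⁻¹ ∈ Loc (cyclotomic n ℚ) := by
  unfold Dn
  rw [← prod_inv_distrib]
  apply (Loc _).prod_mem
  intro j hj
  have := mem_range.1 hj
  exact e_inv hn (nd_shift (nd hcop (by omega) (by omega)) δ)

lemma Dn_U (hn : 0 < n) (hcop : Nat.Coprime n d) (δ δ' : ℤ) : U (cyclotomic n ℚ) 1 (Dn d n δ * (Dn d n δ')⁻¹) := by
  unfold Dn
  rw [← prod_inv_distrib, ← prod_mul_distrib]
  apply U.prod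
  intro j hj
  have := mem_range.1 hj
  have hnd := nd hcop (a := (j : ℤ) + 1) (by omega) (by omega)
  have h1 := (e_shift hn ((d : ℤ) * (j + 1)) δ).trans (e_shift hn ((d : ℤ) * (j + 1)) δ').symm
  have h2 := QO.mul_right h1 (e_inv hn (nd_shift hnd δ'))
  have h3 := ne_of_nd (nd_shift hnd δ')
  unfold U
  convert h2 using 1
  field_simp

lemma U_pow {P : ℚ[X]} {k : ℕ} {x : RatFunc ℚ} (h : U P k x) (m : ℕ) : U P k (x ^ m) := by
  induction m with
  | zero => rw [pow_zero]; exact U.one k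
  | succ m ih => rw [pow_succ]; exact ih.mul h

/-- cancellation of `Φ` -/
lemma cancel_P {k : ℕ} {x : RatFunc ℚ} (h : QO (cyclotomic n ℚ) (k + 1) (al (cyclotomic n ℚ) * x)) :
    QO (cyclotomic n ℚ) k x := by
  obtain ⟨y, hy, h2⟩ := h
  have h3 : al (cyclotomic n ℚ) ≠ 0 := al_ne (cyclotomic_ne_zero n ℚ)
  refine ⟨y, hy, mul_left_cancel₀ h3 ?_⟩
  rw [h2, pow_succ]; ring

/-- polynomials with vanishing residue -/
lemma divides {f : (Loc (cyclotomic n ℚ))[X]} (h : f.map (pr n) = 0) :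
    ∃ g : (Loc (cyclotomic n ℚ))[X], f = C (⟨al (cyclotomic n ℚ), al_mem _ _⟩ : Loc (cyclotomic n ℚ)) * g := by
  have h1 : C (⟨al (cyclotomic n ℚ), al_mem _ _⟩ : Loc (cyclotomic n ℚ)) ∣ f := by
    rw [Polynomial.C_dvd_iff_dvd_coeff]
    intro i
    have h2 : pr n (f.coeff i) = 0 := by rw [← coeff_map, h, coeff_zero]
    obtain ⟨y, hy, h3⟩ := pr_eq_zero.1 h2
    refine ⟨⟨y, hy⟩, Subtype.ext ?_⟩
    rw [h3, pow_one]; rfl
  obtain ⟨g, hg⟩ := h1
  exact ⟨g, hg⟩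

/-- Taylor expansion at one -/
lemma taylor (f : (Loc (cyclotomic n ℚ))[X]) (hn : 0 < n) :
    ∃ a0 a1 a2 : RatFunc ℚ, a0 ∈ Loc (cyclotomic n ℚ) ∧ a1 ∈ Loc (cyclotomic n ℚ) ∧ a2 ∈ Loc (cyclotomic n ℚ) ∧
      ∀ δ : ℤ, Eqm (cyclotomic n ℚ) 3 ((f.eval (qa hn (δ * n)) : Loc (cyclotomic n ℚ)) : RatFunc ℚ) (a0 + zd n δ * (a1 + zd n δ * a2)) := by
  set g := f.comp (1 + X) with hg
  refine ⟨(g.coeff 0 : RatFunc ℚ), (g.divX.coeff 0 : RatFunc ℚ), (g.divX.divX.coeff 0 : RatFunc ℚ), (g.coeff 0).2, (g.divX.coeff 0).2,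
    (g.divX.divX.coeff 0).2, fun δ => ?_⟩
  have h1 := divX_mul_X_add g
  have h2 := divX_mul_X_add g.divX
  have h3 := divX_mul_X_add g.divX.divX
  set z : Loc (cyclotomic n ℚ) := qa hn (δ * n) - 1 with hz
  have e0 : f.eval (qa hn (δ * n)) = g.eval z := by
    rw [hg, eval_comp, eval_add, Polynomial.eval_one, eval_X, hz, add_sub_cancel]
  have e1 : g.eval z = g.coeff 0 + z * (g.divX.coeff 0 + z * (g.divX.divX.coeff 0 + z * (g.divX.divX.divX.eval z))) := by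
    conv_lhs => rw [← h1]
    rw [eval_add, eval_mul, eval_X, eval_C]
    conv_lhs => rw [← h2]
    rw [eval_add, eval_mul, eval_X, eval_C]
    conv_lhs => rw [← h3]
    rw [eval_add, eval_mul, eval_X, eval_C]
    ring
  have hzc : (z : RatFunc ℚ) = zd n δ := by
    rw [hz, AddSubgroupClass.coe_sub, Subring.coe_one]; rfl
  have hq := QO.pow (zd_QO (n := n) hn δ) 3
  have h4 := QO.mul_right hq (g.divX.divX.divX.eval z).2
  unfold Eqm
  convert h4 using 1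
  rw [e0, e1]
  simp only [Subring.coe_add, Subring.coe_mul, hzc]
  ring

/-- the step from `δ = 1` to `δ = 0` -/
theorem step (H : Hyp2 d r K n l s) (hF : QO (cyclotomic n ℚ) 4 (GS d l s n 1)) : QO (cyclotomic n ℚ) 4 (GS d l s n 0) := by
  have hn := H.hn
  have hd := H.hd
  obtain ⟨N1, hN1⟩ := divides (NN_zero H)
  obtain ⟨a0, a1, a2, h0, h1, h2, hT⟩ := taylor N1 hn
  have hev : ∀ δ : ℤ, al (cyclotomic n ℚ) * ((N1.eval (qa hn (δ * n)) : Loc (cyclotomic n ℚ)) : RatFunc ℚ) = Dn d n δ ^ d * GS d l s n δ := by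
    intro δ
    rw [← NN_eval H δ, hN1, eval_mul, eval_C, Subring.coe_mul]
  set v : ℤ → RatFunc ℚ := fun δ => ((N1.eval (qa hn (δ * n)) : Loc (cyclotomic n ℚ)) : RatFunc ℚ) with hv
  have hDp : ∀ δ : ℤ, Dn d n δ ^ d ∈ Loc (cyclotomic n ℚ) := fun δ => (Loc _).pow_mem (Dn_mem hn δ) _
  have toA : ∀ {δ : ℤ}, QO (cyclotomic n ℚ) 4 (GS d l s n δ) → QO (cyclotomic n ℚ) 3 (a0 + zd n δ * (a1 + zd n δ * a2)) := by
    intro δ hG
    have h3 := QO.mul_left (hDp δ) hG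
    rw [← hev δ] at h3
    have h4 := QO.sub (cancel_P h3) (hT δ)
    rwa [sub_sub_cancel] at h4
  have hA := toA hF
  have hG1 : QO (cyclotomic n ℚ) 4 (GK d l s n K 1) := by
    have := QO.sub hF (GS_GK H 1)
    rwa [sub_sub_cancel] at this
  have hB : QO (cyclotomic n ℚ) 3 (a0 + zd n (1 - d) * (a1 + zd n (1 - d) * a2)) := by
    apply toA
    have h3 := GK_reflect H (1 - d)
    rw [show (2 : ℤ) - d - (1 - d) = 1 by ring] at h3
    have h4 : QO (cyclotomic n ℚ) 4 (GK d l s n K (1 - d)) := by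
      rw [h3]
      exact (QO.mul_left (Cc_mem H _) hG1).neg
    have h5 := QO.add (GS_GK H (1 - d)) h4
    rwa [sub_add_cancel] at h5
  -- the functional equation
  set κ := Cc d l s n K 0 * (Dn d n 0 * (Dn d n (2 - d))⁻¹) ^ d with hκd
  have hκ : U (cyclotomic n ℚ) 1 κ := by
    exact (Cc_U H).mul (U_pow (Dn_U hn H.hcop 0 (2 - d)) d)
  have hC : QO (cyclotomic n ℚ) 3 (a0 + κ * (a0 + zd n (2 - d) * (a1 + zd n (2 - d) * a2))) := by
    have h3 := GK_reflect H 0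
    rw [sub_zero] at h3
    have h4 : QO (cyclotomic n ℚ) 4 (GS d l s n 0 + Cc d l s n K 0 * GS d l s n (2 - d)) := by
      have h5 := QO.add (GS_GK H 0) (QO.mul_left (Cc_mem H 0) (GS_GK H (2 - d)))
      convert h5 using 1
      rw [h3]; ring
    have h6 := QO.mul_left (hDp 0) h4
    have h7 : Dn d n 0 ^ d * (GS d l s n 0 + Cc d l s n K 0 * GS d l s n (2 - d)) =
        al (cyclotomic n ℚ) * (v 0 + κ * v (2 - d)) := by
      have e1 := hev 0
      have e2 := hev (2 - d)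
      have e3 : (Dn d n (2 - d))⁻¹ ^ d * Dn d n (2 - d) ^ d = 1 := by
        rw [← mul_pow, inv_mul_cancel₀ (Dn_ne H.hcop _), one_pow]
      have e1' : al (cyclotomic n ℚ) * v 0 = Dn d n 0 ^ d * GS d l s n 0 := e1
      have e2' : al (cyclotomic n ℚ) * v (2 - d) = Dn d n (2 - d) ^ d * GS d l s n (2 - d) := e2
      rw [mul_add, mul_add, e1', hκd, mul_pow]
      linear_combination (-(Cc d l s n K 0 * (Dn d n 0 ^ d * (Dn d n (2 - d))⁻¹ ^ d))) * e2' -
        (Cc d l s n K 0 * Dn d n 0 ^ d * GS d l s n (2 - d)) * e3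
    rw [h7] at h6
    have h8 := cancel_P h6
    have hκm : κ ∈ Loc (cyclotomic n ℚ) := hκ.mem
    have h9 := QO.sub h8 (QO.add (hT 0) (QO.mul_left hκm (hT (2 - d))))
    convert h9 using 1
    have hz0 : zd n 0 = 0 := by unfold zd; simp
    rw [hz0]
    simp only [hv]
    ring
  have h3 := concl hn (show 0 < d by omega) h0 h1 h2 hκ hA hB hC
  -- back
  have hz0 : zd n 0 = 0 := by unfold zd; simp
  have h4 : QO (cyclotomic n ℚ) 3 (v 0) := by
    have h5 := QO.add (hT 0) h3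
    rw [hz0] at h5
    convert h5 using 1
    simp only [hv]
    ring
  have h5 : QO (cyclotomic n ℚ) (1 + 3) (al (cyclotomic n ℚ) * v 0) := by
    refine QO.mul ⟨1, (Loc _).one_mem, by simp⟩ h4
  rw [show al (cyclotomic n ℚ) * v 0 = Dn d n 0 ^ d * GS d l s n 0 from hev 0] at h5
  have h6 := QO.mul_left ((Loc _).pow_mem (Dn_inv hn H.hcop 0) d) h5
  rw [← mul_assoc, ← mul_pow, inv_mul_cancel₀ (Dn_ne H.hcop _), one_pow, one_mul] at h6
  exact h6

end

end Pool.Agent.X14.QR
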