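import Pool.Agent.X14.QR7

set_option autoImplicit false

/-! The case `2n ≡ -s (mod d)`: third order expansion at `δ = 1`. -/

namespace Pool.Agent.X14.QR

open Finset Polynomial Pool.Agent.X14.QL Pool.Agent.X14.QBlock

noncomputable section

variable {d r K n l : ℕ} {s : ℤ}

/-- `(1 + x)^d` to third order -/
lemma pow_third {P : ℚ[X]} {x : RatFunc ℚ} (hx : QO P 1 x) (d : ℕ) :
    Eqm P 4 ((1 + x) ^ d) (1 + d * x + (d * (d - 1) / 2) * x ^ 2 + (d * (d - 1) * (d - 2) / 6) * x ^ 3) := by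
  have hx4 : QO P 4 ((x * x) * (x * x)) := (hx.mul hx).mul (hx.mul hx)
  induction d with
  | zero => simpa using Eqm.refl (P := P) (k := 4) 1
  | succ d ih =>
    rw [pow_succ]
    unfold Eqm at *
    have hm : (((d : ℚ) * (d - 1) * (d - 2) / 6 : ℚ) : RatFunc ℚ) ∈ Loc P := rat_mem P _
    have h1 := (QO.mul_right ih ((Loc P).add_mem (Loc P).one_mem hx.mem)).add (QO.mul_left hm hx4)
    convert h1 using 1
    push_cast
    ring

/-- `q^z (1 + q^z) / (1 - q^z)^3` -/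
def h3 (z : ℤ) : RatFunc ℚ := q ^ z * (1 + q ^ z) * (e z)⁻¹ ^ 3

lemma h3_mem (hn : 0 < n) {z : ℤ} (hz : ¬ (n : ℤ) ∣ z) : h3 z ∈ Loc (cyclotomic n ℚ) :=
  (Loc _).mul_mem ((Loc _).mul_mem (zmem hn z) ((Loc _).add_mem (Loc _).one_mem (zmem hn z))) ((Loc _).pow_mem (e_inv hn hz) 3)

lemma h3_neg (z : ℤ) : h3 (-z) = -h3 z := by
  unfold h3
  rw [e_neg]
  have h1 : q ^ z ≠ 0 := zpow_ne_zero z q_ne
  rw [zpow_neg, inv_neg, mul_inv, inv_inv]
  rcases eq_or_ne (e z) 0 with h | h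
  · rw [h]; simp
  · field_simp
    ring

lemma h3_shift (hn0 : 0 < n) {z : ℤ} (hz : ¬ (n : ℤ) ∣ z) (c : ℤ) :
    Eqm (cyclotomic n ℚ) 1 (h3 (z + c * n)) (h3 z) := by
  have hz' : ¬ (n : ℤ) ∣ z + c * n := nd_shift hz c
  have h1 := Eqm.inv_of (e_shift hn0 z c) (e_inv hn0 hz') (e_inv hn0 hz) (ne_of_nd hz') (ne_of_nd hz)
  have h2 := qz_shift hn0 z c
  have h1m := (Loc (cyclotomic n ℚ)).add_mem (Loc _).one_mem (zmem hn0 z)
  exact (h2.mul ((Eqm.refl 1).add h2) (zmem hn0 z) h1m).mul (h1.pow (e_inv hn0 hz) 3)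
    ((Loc _).mul_mem (zmem hn0 z) h1m) ((Loc _).pow_mem (e_inv hn0 hz) 3)

lemma h3_reflect (hn0 : 0 < n) {z : ℤ} (hz : ¬ (n : ℤ) ∣ z) (c : ℤ) :
    Eqm (cyclotomic n ℚ) 1 (h3 (c * n - z)) (-h3 z) := by
  have h := h3_shift hn0 (z := -z) (by rwa [dvd_neg]) c
  rw [h3_neg] at h
  rwa [show c * (n : ℤ) - z = -z + c * n by ring]

/-- the ratio -/
def ps (d n : ℕ) (a z : ℤ) : RatFunc ℚ := e (z + a * n) ^ d * (e z)⁻¹ ^ (d - 1) * (e (z + a * d * n))⁻¹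

lemma ps_eqm (hn : 0 < n) {a z : ℤ} (hd : 1 ≤ d) (hz : ¬ (n : ℤ) ∣ z) :
    Eqm (cyclotomic n ℚ) 4 (ps d n a z) (1 + (d * (d - 1) / 2) * (zd n a ^ 2 - zd n a ^ 3) * hh z +
      ((d ^ 3 - d) / 6) * zd n a ^ 3 * h3 z) := by
  have hv := ne_of_nd hz
  have hz2 : ¬ (n : ℤ) ∣ z + a * d * n := nd_shift hz _
  have hv2 := ne_of_nd hz2
  have hu := zd_QO (n := n) hn a
  have hvi := e_inv hn hz
  have hym := zmem hn z
  set u := zd n a with hud
  set y := q ^ z with hyd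
  have hx : QO (cyclotomic n ℚ) 1 (-(u * (y * (e z)⁻¹))) := (QO.mul_right hu ((Loc _).mul_mem hym hvi)).neg
  have h1 := pow_third hx d
  have h2 := pow_third hu d
  have e1 : e (z + a * n) = e z * (1 + -(u * (y * (e z)⁻¹))) := by
    have : q ^ (z + a * n) = y * (1 + u) := by
      rw [zpow_add₀ q_ne, hud, zd]; ring
    unfold e at hv ⊢
    rw [this]
    field_simp
    ring
  have e2 : e (z + a * d * n) = 1 - y * (1 + u) ^ d := by
    have : q ^ (z + a * d * n) = y * (1 + u) ^ d := by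
      rw [hud, zd, add_sub_cancel, ← zpow_natCast, ← zpow_mul, ← zpow_add₀ q_ne]
      congr 1; ring
    unfold e
    rw [this]
  have hcm : (((d : ℚ) * (d - 1) / 2 : ℚ) : RatFunc ℚ) ∈ Loc (cyclotomic n ℚ) := rat_mem _ _
  push_cast at hcm
  have hcm3 : (((d : ℚ) * (d - 1) * (d - 2) / 6 : ℚ) : RatFunc ℚ) ∈ Loc (cyclotomic n ℚ) := rat_mem _ _
  push_cast at hcm3
  have hal : ((((d : ℚ) ^ 3 - d) / 6 : ℚ) : RatFunc ℚ) ∈ Loc (cyclotomic n ℚ) := rat_mem _ _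
  push_cast at hal
  have hem := e_mem hn z
  have hhm := hh_mem hn hz
  have h3m := h3_mem hn hz
  have hum := hu.mem
  have hu4 : QO (cyclotomic n ℚ) 4 ((u * u) * (u * u)) := (hu.mul hu).mul (hu.mul hu)
  have hA : (1 + (d * (d - 1) / 2) * (u ^ 2 - u ^ 3) * hh z + ((d ^ 3 - d) / 6) * u ^ 3 * h3 z) ∈ Loc (cyclotomic n ℚ) :=
    (Loc _).add_mem ((Loc _).add_mem (Loc _).one_mem ((Loc _).mul_mem ((Loc _).mul_mem hcm ((Loc _).sub_mem ((Loc _).pow_mem hum 2) ((Loc _).pow_mem hum 3))) hhm))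
      ((Loc _).mul_mem ((Loc _).mul_mem hal ((Loc _).pow_mem hum 3)) h3m)
  -- the key congruence
  have h3' : Eqm (cyclotomic n ℚ) 4 (e z * (1 + -(u * (y * (e z)⁻¹))) ^ d)
      ((1 + (d * (d - 1) / 2) * (u ^ 2 - u ^ 3) * hh z + ((d ^ 3 - d) / 6) * u ^ 3 * h3 z) * e (z + a * d * n)) := by
    have h4 := Eqm.mul_left hem h1
    have h5 : Eqm (cyclotomic n ℚ) 4 (e (z + a * d * n)) (1 - y * (1 + d * u + (d * (d - 1) / 2) * u ^ 2 + (d * (d - 1) * (d - 2) / 6) * u ^ 3)) := by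
      rw [e2]
      exact (Eqm.refl 1).sub (Eqm.mul_left hym h2)
    have h6 := Eqm.mul_left hA h5
    refine h4.trans (Eqm.trans ?_ h6.symm)
    have hB : ((d * (d - 1) / 2) * hh z * y * ((d * (d - 1) / 2) * (1 - u) + (d * (d - 1) * (d - 2) / 6) * (u - u ^ 2) - d) +
        ((d ^ 3 - d) / 6) * h3 z * y * (d + (d * (d - 1) / 2) * u + (d * (d - 1) * (d - 2) / 6) * u ^ 2)) ∈ Loc (cyclotomic n ℚ) := by
      refine (Loc _).add_mem ((Loc _).mul_mem ((Loc _).mul_mem ((Loc _).mul_mem hcm hhm) hym) ?_)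
        ((Loc _).mul_mem ((Loc _).mul_mem ((Loc _).mul_mem hal h3m) hym) ?_)
      · exact (Loc _).sub_mem ((Loc _).add_mem ((Loc _).mul_mem hcm ((Loc _).sub_mem (Loc _).one_mem hum))
          ((Loc _).mul_mem hcm3 ((Loc _).sub_mem hum ((Loc _).pow_mem hum 2)))) (nat_mem _ _)
      · exact (Loc _).add_mem ((Loc _).add_mem (nat_mem _ _) ((Loc _).mul_mem hcm hum)) ((Loc _).mul_mem hcm3 ((Loc _).pow_mem hum 2))
    have h7 := QO.mul_left hB hu4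
    unfold Eqm
    convert h7 using 1
    have hy : y = 1 - e z := by unfold e; ring
    unfold hh h3
    rw [← hyd, hy]
    field_simp
    ring
  have h8 := QO.mul_right h3' (e_inv hn hz2)
  unfold Eqm
  convert h8 using 1
  unfold ps
  rw [e1]
  have h9 : e z ^ d * (e z)⁻¹ ^ (d - 1) = e z := by
    obtain ⟨d', rfl⟩ : ∃ d', d = d' + 1 := ⟨d - 1, by omega⟩
    rw [Nat.add_sub_cancel, pow_succ, mul_assoc, mul_comm (e z) _, ← mul_assoc, ← mul_pow, mul_inv_cancel₀ hv, one_pow, one_mul]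
  have h10 : e (z + a * d * n) * (e (z + a * d * n))⁻¹ = 1 := mul_inv_cancel₀ hv2
  rw [mul_pow]
  linear_combination ((1 + -(u * (y * (e z)⁻¹))) ^ d * (e (z + a * d * n))⁻¹) * h9 +
    (1 + (d * (d - 1) / 2) * (u ^ 2 - u ^ 3) * hh z + ((d ^ 3 - d) / 6) * u ^ 3 * h3 z) * h10

end

end Pool.Agent.X14.QR
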