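import Pool.Agent.X14.QR8

set_option autoImplicit false

/-! The case `2n ≡ -s (mod d)`: the exact sums. -/

namespace Pool.Agent.X14.QR

open Finset Polynomial Pool.Agent.X14.QL Pool.Agent.X14.QBlock

noncomputable section

section field

variable {F : Type*} [Field F]

/-- symmetry of the coefficients -/
lemma cb_symm {p : F} (hp0 : p ≠ 0) (hp : ∀ j : ℕ, 1 - p ^ (j + 1) ≠ 0) (k m : ℕ) :
    cb p (k + m) m * ∏ j ∈ range k, (-p ^ ((j : ℤ) - (k + m))) = cb p (k + m) k * ∏ j ∈ range m, (-p ^ ((j : ℤ) - (k + m))) := by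
  have key : ∀ a b : ℕ, a + b = k + m → cb p (k + m) a * ((∏ j ∈ range a, (1 - p ^ (j + 1))) * ∏ j ∈ range b, (1 - p ^ (j + 1))) =
      (∏ j ∈ range a, (-p ^ ((j : ℤ) - (k + m)))) * ∏ j ∈ range (k + m), (1 - p ^ (j + 1)) := by
    intro a b hab
    have h1 : ∏ j ∈ range (k + m), (1 - p ^ (j + 1)) = (∏ j ∈ range b, (1 - p ^ (j + 1))) * ∏ j ∈ range a, (1 - p ^ (b + (a - 1 - j) + 1)) := by
      rw [← hab, add_comm a b, prod_range_add]
      congr 1
      rw [← prod_range_reflect]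
    have h2 : cb p (k + m) a * ∏ j ∈ range a, (1 - p ^ (j + 1)) = ∏ j ∈ range a, (1 - p ^ ((j : ℤ) - ((k + m : ℕ) : ℤ))) := by
      unfold cb
      rw [← prod_mul_distrib]
      apply prod_congr rfl
      intro j _
      exact div_mul_cancel₀ _ (hp j)
    have h3 : ∏ j ∈ range a, (1 - p ^ ((j : ℤ) - ((k + m : ℕ) : ℤ))) = (∏ j ∈ range a, (-p ^ ((j : ℤ) - (k + m)))) *
        ∏ j ∈ range a, (1 - p ^ (b + (a - 1 - j) + 1)) := by
      rw [← prod_mul_distrib]
      apply prod_congr rfl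
      intro j hj
      have hj' := mem_range.1 hj
      have h4 : p ^ ((j : ℤ) - (k + m)) * p ^ (b + (a - 1 - j) + 1) = 1 := by
        rw [← zpow_natCast p (b + (a - 1 - j) + 1), ← zpow_add₀ hp0]
        have : (j : ℤ) - (k + m) + ((b + (a - 1 - j) + 1 : ℕ) : ℤ) = 0 := by omega
        rw [this, zpow_zero]
      push_cast
      linear_combination -h4
    rw [h1, ← mul_assoc, h2, h3]
    ring
  have hA := key k m rfl
  have hB := key m k (add_comm m k)
  have n1 : ∏ j ∈ range k, (1 - p ^ (j + 1)) ≠ 0 := prod_ne_zero_iff.2 (fun j _ => hp j)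
  have n2 : ∏ j ∈ range m, (1 - p ^ (j + 1)) ≠ 0 := prod_ne_zero_iff.2 (fun j _ => hp j)
  apply mul_left_cancel₀ (mul_ne_zero n1 n2)
  linear_combination (∏ j ∈ range k, (-p ^ ((j : ℤ) - (k + m)))) * hB - (∏ j ∈ range m, (-p ^ ((j : ℤ) - (k + m)))) * hA

/-- the two windows -/
lemma two_windows {p : F} {T : ℕ → F} {n K r : ℕ} (h2 : (2 : F) ≠ 0) (hK : K + r + 1 = n)
    (hsum : ∑ k ∈ range (n + K + 1), T k = 0) (hsym : ∀ k, k ≤ n + K → T (n + K - k) = T k)
    (hmid : ∀ k, K < k → k < n → T k = 0) : ∑ k ∈ range (K + 1), T (n + k) = 0 := by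
  have h1 : ∑ k ∈ range (n + K + 1), T k = ∑ k ∈ range n, T k + ∑ k ∈ range (K + 1), T (n + k) := by
    rw [add_assoc, sum_range_add]
  have h3 : ∑ k ∈ range n, T k = ∑ k ∈ range (K + 1), T k := by
    obtain ⟨m, hm⟩ := Nat.exists_eq_add_of_le (show K + 1 ≤ n by omega)
    rw [hm, sum_range_add, add_eq_left]
    apply sum_eq_zero
    intro k hk
    have := mem_range.1 hk
    exact hmid _ (by omega) (by omega)
  have h4 : ∑ k ∈ range (K + 1), T k = ∑ k ∈ range (K + 1), T (n + k) := by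
    rw [← sum_range_reflect]
    apply sum_congr rfl
    intro k hk
    have := mem_range.1 hk
    have h5 := hsym (n + k) (by omega)
    rw [← h5]
    congr 1
    omega
  rw [h1, h3, h4] at hsum
  have h5 : (2 : F) * ∑ k ∈ range (K + 1), T (n + k) = 0 := by rw [two_mul]; exact hsum
  exact (mul_eq_zero.1 h5).resolve_left h2

end field

variable {d r K n l : ℕ} {s : ℤ}

/-- the product at integers -/
def PZ (d r : ℕ) (m : ℤ) : RatFunc ℚ := ∏ i ∈ range r, e ((d : ℤ) * (m + i + 1))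

/-- the numerators -/
def FZ (d r l : ℕ) (m : ℤ) : RatFunc ℚ := e ((d : ℤ) * (r + 1) + 2 * d * m) * q ^ ((d : ℤ) * l * m) * PZ d r m ^ (d - 1)

lemma PZ_reflect (m : ℤ) : PZ d r (-(r + 1) - m) = (-1) ^ r * q ^ (-∑ i ∈ range r, (d : ℤ) * (m + i + 1)) * PZ d r m := by
  have h1 : PZ d r (-(r + 1) - m) = ∏ i ∈ range r, (-(q ^ (-((d : ℤ) * (m + i + 1))) * e ((d : ℤ) * (m + i + 1)))) := by
    unfold PZ
    rw [← prod_range_reflect (fun i : ℕ => e ((d : ℤ) * ((-((r : ℤ) + 1) - m) + i + 1)))]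
    apply prod_congr rfl
    intro i hi
    have := mem_range.1 hi
    have h4 : ((r - 1 - i : ℕ) : ℤ) = r - 1 - i := by omega
    rw [h4, zpow_neg, ← e_neg]
    congr 1
    ring
  have h3 : ∏ i ∈ range r, q ^ (-((d : ℤ) * (m + i + 1))) = q ^ (-∑ i ∈ range r, (d : ℤ) * (m + i + 1)) := by
    clear h1
    induction r with
    | zero => simp
    | succ r ih =>
      rw [prod_range_succ, sum_range_succ, ih, ← zpow_add₀ q_ne]
      congr 1; ring
  rw [h1, ← h3]
  unfold PZ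
  rw [← card_range r, ← prod_const, card_range, ← prod_mul_distrib, ← prod_mul_distrib]
  apply prod_congr rfl
  intro i _
  ring

lemma sumA (m : ℤ) : 2 * ∑ i ∈ range r, (d : ℤ) * (m + i + 1) = (d : ℤ) * (r * (2 * m + r + 1)) := by
  induction r with
  | zero => simp
  | succ r ih =>
    rw [sum_range_succ, mul_add, ih]
    push_cast; ring

lemma r_even (H : Hyp2 d r K n l s) : r % 2 = 0 := by
  have hr := H.hr
  have hs := H.hs
  have hdo := H.hdo
  have h1 : ((d : ℤ) * (r + 1)) % 2 = ((r : ℤ) + 1) % 2 := by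
    rw [Int.mul_emod]
    have : (d : ℤ) % 2 = 1 := by omega
    rw [this]; omega
  omega

lemma FZ_reflect (H : Hyp2 d r K n l s) (m : ℤ) {E : ℤ} (hE : 2 * E = -((d : ℤ) * (2 * m + r + 1) * (n + K + 1))) :
    FZ d r l (-(r + 1) - m) = -(q ^ E * FZ d r l m) := by
  have hr2 := r_even H
  have hsg : ((-1 : RatFunc ℚ)) ^ r = 1 := by
    apply Even.neg_one_pow
    exact ⟨r / 2, by omega⟩
  have hA := sumA (d := d) (r := r) m
  unfold FZ
  rw [PZ_reflect, hsg, one_mul]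
  set A := ∑ i ∈ range r, (d : ℤ) * (m + i + 1) with hAd
  have e1 : (d : ℤ) * (r + 1) + 2 * d * (-(r + 1) - m) = -((d : ℤ) * (r + 1) + 2 * d * m) := by ring
  rw [e1, e_neg, ← zpow_neg, mul_pow, ← zpow_natCast (q ^ (-A)) (d - 1), ← zpow_mul]
  have hd1 : ((d - 1 : ℕ) : ℤ) = (d : ℤ) - 1 := by have := H.hd; push_cast [Nat.cast_sub (show 1 ≤ d by omega)]; ring
  have e2 : q ^ (-((d : ℤ) * (r + 1) + 2 * d * m)) * q ^ ((d : ℤ) * l * (-(r + 1) - m)) * q ^ (-A * ((d - 1 : ℕ) : ℤ)) =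
      q ^ E * q ^ ((d : ℤ) * l * m) := by
    rw [← zpow_add₀ q_ne, ← zpow_add₀ q_ne, ← zpow_add₀ q_ne]
    congr 1
    rw [hd1]
    have hr := H.hr
    have hl := H.hl
    have hnZ : (n : ℤ) = K + r + 1 := by exact_mod_cast H.hK.symm
    have h5 : 2 * (1 + (l : ℤ)) + (d - 1) * r = n + K + 1 := by linarith
    have h6 : 2 * (-((d : ℤ) * (r + 1) + 2 * d * m) + (d : ℤ) * l * (-(r + 1) - m) + -A * ((d : ℤ) - 1)) = 2 * (E + (d : ℤ) * l * m) := by
      rw [mul_add 2 E, hE, ← h5]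
      linear_combination (-((d : ℤ) - 1)) * hA
    linarith
  linear_combination (-(e ((d : ℤ) * (r + 1) + 2 * d * m) * PZ d r m ^ (d - 1))) * e2

/-- the terms of the two-window sum -/
def TZ (d r l n K : ℕ) (k : ℕ) : RatFunc ℚ := cb (q ^ d) (n + K) k * FZ d r l ((k : ℤ) - n)

lemma hp0 (d : ℕ) : (q ^ d : RatFunc ℚ) ≠ 0 := pow_ne_zero _ q_ne

lemma hp1 (hd : 0 < d) : ∀ j : ℕ, 1 - (q ^ d : RatFunc ℚ) ^ (j + 1) ≠ 0 := by
  intro j
  rw [← pow_mul]
  exact one_sub_ne (by positivity)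

lemma TZ_symm (H : Hyp2 d r K n l s) {k : ℕ} (hk : k ≤ n + K) : TZ d r l n K (n + K - k) = TZ d r l n K k := by
  obtain ⟨m, hm⟩ := Nat.exists_eq_add_of_le hk
  have hd := H.hd
  have hK := H.hK
  have hr2 := r_even H
  have h1 := cb_symm (hp0 d) (hp1 (show 0 < d by omega)) k m
  have hg : ∀ a : ℕ, ∏ j ∈ range a, (-(q ^ d : RatFunc ℚ) ^ ((j : ℤ) - (k + m))) =
      (-1) ^ a * q ^ (∑ j ∈ range a, (d : ℤ) * (j - (k + m))) := by
    intro a
    induction a with
    | zero => simp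
    | succ a ih =>
      rw [prod_range_succ, sum_range_succ, ih, zpow_add₀ q_ne, pow_succ, ← zpow_natCast q d, ← zpow_mul]
      ring
  have hs : ∀ a : ℕ, 2 * ∑ j ∈ range a, (d : ℤ) * (j - (k + m)) = (d : ℤ) * (a * (a - 1 - 2 * (k + m))) := by
    intro a
    induction a with
    | zero => simp
    | succ a ih =>
      rw [sum_range_succ, mul_add, ih]
      push_cast; ring
  rw [hg, hg] at h1
  have hsm := hs m
  have hsk := hs k
  set A := ∑ j ∈ range k, (d : ℤ) * (j - (k + m)) with hA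
  set B := ∑ j ∈ range m, (d : ℤ) * (j - (k + m)) with hB
  have hsub : n + K - k = m := by omega
  unfold TZ
  rw [hsub, hm]
  have h2 : ((m : ℕ) : ℤ) - n = -(r + 1) - ((k : ℤ) - n) := by omega
  have hE : 2 * (A - B) = -((d : ℤ) * (2 * ((k : ℤ) - n) + r + 1) * (n + K + 1)) := by
    rw [mul_sub, hsk, hsm]
    have e1 : (m : ℤ) = n + K - k := by omega
    have e2 : (r : ℤ) = n - K - 1 := by omega
    rw [e1, e2]
    ring
  rw [h2, FZ_reflect H ((k : ℤ) - n) hE]
  -- parity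
  have hpar : (k + m) % 2 = 1 := by omega
  have h3 : ((-1 : RatFunc ℚ)) ^ k * (-1) ^ m = -1 := by
    rw [← pow_add]
    exact Odd.neg_one_pow ⟨(k + m) / 2, by omega⟩
  have h4 : ((-1 : RatFunc ℚ)) ^ k * (-1) ^ k = 1 := by
    rw [← pow_add]
    exact Even.neg_one_pow ⟨k, rfl⟩
  have h5 : q ^ (A - B) * q ^ B = q ^ A := by rw [← zpow_add₀ q_ne]; congr 1; ring
  have hqB : q ^ B ≠ 0 := zpow_ne_zero _ q_ne
  have h6 : cb (q ^ d) (k + m) m * q ^ (A - B) = -cb (q ^ d) (k + m) k := by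
    apply mul_right_cancel₀ hqB
    linear_combination (-1) ^ k * h1 + (cb (q ^ d) (k + m) m) * h5 - (cb (q ^ d) (k + m) m * q ^ A) * h4 +
      (cb (q ^ d) (k + m) k * q ^ B) * h3
  linear_combination (-(FZ d r l ((k : ℤ) - n))) * h6

/-- the polynomial with the values `PZ` -/
def pz (d r n : ℕ) : (RatFunc ℚ)[X] := ∏ i ∈ range r, (1 - C (q ^ ((d : ℤ) * (i + 1) - d * n)) * X)

lemma pz_eval (k : ℕ) : (pz d r n).eval ((q ^ d) ^ k) = PZ d r ((k : ℤ) - n) := by
  unfold pz PZ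
  rw [eval_prod]
  apply prod_congr rfl
  intro i _
  rw [eval_sub, Polynomial.eval_one, eval_mul, eval_C, eval_X]
  unfold e
  congr 1
  rw [← pow_mul, ← zpow_natCast q, ← zpow_add₀ q_ne]
  congr 1; push_cast; ring

lemma pz_deg : (pz d r n).natDegree ≤ r := by
  unfold pz
  refine (natDegree_prod_le _ _).trans ?_
  refine (sum_le_sum (fun i _ => lin_deg _)).trans ?_
  simp

/-- the weight polynomial -/
def wz (d r l n : ℕ) : (RatFunc ℚ)[X] := C (q ^ (-((d : ℤ) * l * n))) * X ^ (l - 1) * (1 - C (q ^ ((d : ℤ) * (r + 1) - 2 * d * n)) * X ^ 2)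

lemma wz_eval (hl0 : 0 < l) (k : ℕ) : (q ^ d) ^ k * (wz d r l n).eval ((q ^ d) ^ k) =
    e ((d : ℤ) * (r + 1) + 2 * d * ((k : ℤ) - n)) * q ^ ((d : ℤ) * l * ((k : ℤ) - n)) := by
  unfold wz
  rw [eval_mul, eval_mul, eval_C, eval_sub, Polynomial.eval_one, eval_mul, eval_C, eval_pow, eval_X, eval_pow, eval_X]
  obtain ⟨l', rfl⟩ : ∃ l', l = l' + 1 := ⟨l - 1, by omega⟩
  rw [Nat.add_sub_cancel]
  have h1 : q ^ ((d : ℤ) * (r + 1) - 2 * d * n) * ((q ^ d) ^ k) ^ 2 = q ^ ((d : ℤ) * (r + 1) + 2 * d * ((k : ℤ) - n)) := by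
    rw [← pow_mul, ← pow_mul, ← zpow_natCast q, ← zpow_add₀ q_ne]
    congr 1; push_cast; ring
  have h2 : q ^ ((d : ℤ) * ((l' + 1 : ℕ) : ℤ) * ((k : ℤ) - n)) = q ^ (-((d : ℤ) * ((l' + 1 : ℕ) : ℤ) * n)) * ((q ^ d) ^ k * ((q ^ d) ^ k) ^ l') := by
    rw [← pow_mul, ← pow_mul, ← pow_add, ← zpow_natCast q, ← zpow_add₀ q_ne]
    congr 1; push_cast; ring
  rw [h1, h2]
  unfold e
  ring

lemma wz_deg : (wz d r l n).natDegree ≤ (l - 1) + 2 := by
  unfold wz
  refine (natDegree_mul_le).trans (Nat.add_le_add ?_ ?_)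
  · exact (natDegree_C_mul_le _ _).trans (natDegree_X_pow_le _)
  · exact (natDegree_sub_le _ _).trans (max_le (by simp) ((natDegree_C_mul_le _ _).trans (natDegree_X_pow_le _)))

/-- the first exact sum -/
lemma exact1 (H : Hyp2 d r K n l s) : ∑ k ∈ range (K + 1), TZ d r l n K (n + k) = 0 := by
  have hd := H.hd
  have hK := H.hK
  have hl0 := H.hl0
  apply two_windows (p := q ^ d) (r := r) two_ne_zero hK
  · have h1 := cb_poly (hp0 d) (hp1 (show 0 < d by omega)) (K := n + K) (wz d r l n * pz d r n ^ (d - 1)) (by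
      have h2 : (wz d r l n * pz d r n ^ (d - 1)).natDegree ≤ (l - 1) + 2 + (d - 1) * r :=
        (natDegree_mul_le).trans (Nat.add_le_add wz_deg ((natDegree_pow_le).trans (Nat.mul_le_mul_left _ pz_deg)))
      have h3 : ((l - 1 + 2 + (d - 1) * r : ℕ) : ℤ) < ((n + K : ℕ) : ℤ) := by
        have e1 : ((d - 1 : ℕ) : ℤ) = (d : ℤ) - 1 := by push_cast [Nat.cast_sub (show 1 ≤ d by omega)]; ring
        have e2 : ((l - 1 : ℕ) : ℤ) = (l : ℤ) - 1 := by push_cast [Nat.cast_sub (show 1 ≤ l by omega)]; ring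
        have h4 := H.hr
        have h5 := H.hl
        have h6 : (n : ℤ) = K + r + 1 := by exact_mod_cast hK.symm
        push_cast
        rw [e1, e2]
        nlinarith
      exact lt_of_le_of_lt h2 (by exact_mod_cast h3))
    rw [← h1]
    apply sum_congr rfl
    intro k _
    unfold TZ FZ
    rw [eval_mul, eval_pow, pz_eval, ← wz_eval hl0]
    ring
  · intro k hk
    exact TZ_symm H hk
  · intro k h1 h2
    unfold TZ FZ
    have : PZ d r ((k : ℤ) - n) = 0 := by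
      unfold PZ
      apply prod_eq_zero (i := n - 1 - k) (mem_range.2 (by omega))
      have : ((k : ℤ) - n) + ((n - 1 - k : ℕ) : ℤ) + 1 = 0 := by omega
      rw [this, mul_zero]
      simp [e]
    rw [this, zero_pow (by omega)]
    ring

/-- the second exact sum -/
lemma exact2 (H : Hyp2 d r K n l s) :
    ∑ k ∈ range (K + 1), TZ d r l n K (n + k) * ∑ i ∈ range r, hh ((d : ℤ) * (k + i + 1)) = 0 := by
  have hd := H.hd
  have hK := H.hK
  have hl0 := H.hl0
  set T : ℕ → RatFunc ℚ := fun k => TZ d r l n K k * ∑ i ∈ range r, hh ((d : ℤ) * (((k : ℤ) - n) + i + 1)) with hT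
  have h0 : ∑ k ∈ range (K + 1), TZ d r l n K (n + k) * ∑ i ∈ range r, hh ((d : ℤ) * (k + i + 1)) = ∑ k ∈ range (K + 1), T (n + k) := by
    apply sum_congr rfl
    intro k _
    rw [hT]
    simp only
    congr 1
    apply sum_congr rfl
    intro i _
    congr 2
    push_cast; ring
  have hPZ0 : ∀ k : ℕ, K < k → k < n → PZ d r ((k : ℤ) - n) = 0 := by
    intro k h1 h2
    unfold PZ
    apply prod_eq_zero (i := n - 1 - k) (mem_range.2 (by omega))
    have : ((k : ℤ) - n) + ((n - 1 - k : ℕ) : ℤ) + 1 = 0 := by omega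
    rw [this, mul_zero]
    simp [e]
  rw [h0]
  apply two_windows (p := q ^ d) (r := r) two_ne_zero hK
  · rw [hT]
    simp only [mul_sum]
    rw [sum_comm]
    apply sum_eq_zero
    intro i hi
    have hi' := mem_range.1 hi
    set er : (RatFunc ℚ)[X] := ∏ j ∈ (range r).erase i, (1 - C (q ^ ((d : ℤ) * (j + 1) - d * n)) * X) with her
    have hdeg : (wz d r l n * C (q ^ ((d : ℤ) * (i + 1) - d * n)) * X * (pz d r n ^ (d - 3) * er ^ 2)).natDegree < n + K := by
      have h1 : er.natDegree ≤ r - 1 := by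
        rw [her]
        refine (natDegree_prod_le _ _).trans ?_
        refine (sum_le_sum (fun i _ => lin_deg _)).trans ?_
        simp [card_erase_of_mem hi]
      have h2 : (wz d r l n * C (q ^ ((d : ℤ) * (i + 1) - d * n)) * X * (pz d r n ^ (d - 3) * er ^ 2)).natDegree ≤
          ((l - 1) + 2 + 0 + 1) + ((d - 3) * r + 2 * (r - 1)) := by
        refine (natDegree_mul_le).trans (Nat.add_le_add ((natDegree_mul_le).trans (Nat.add_le_add ((natDegree_mul_le).trans (Nat.add_le_add wz_deg ?_)) natDegree_X_le)) ?_)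
        · simp
        · exact (natDegree_mul_le).trans (Nat.add_le_add ((natDegree_pow_le).trans (Nat.mul_le_mul_left _ pz_deg))
            ((natDegree_pow_le).trans (Nat.mul_le_mul_left _ h1)))
      have h3 : (((l - 1) + 2 + 0 + 1 + ((d - 3) * r + 2 * (r - 1)) : ℕ) : ℤ) < ((n + K : ℕ) : ℤ) := by
        have e1 : ((d - 3 : ℕ) : ℤ) = (d : ℤ) - 3 := by push_cast [Nat.cast_sub (show 3 ≤ d by omega)]; ring
        have e2 : ((l - 1 : ℕ) : ℤ) = (l : ℤ) - 1 := by push_cast [Nat.cast_sub (show 1 ≤ l by omega)]; ring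
        have e3 : ((r - 1 : ℕ) : ℤ) = (r : ℤ) - 1 := by push_cast [Nat.cast_sub (show 1 ≤ r by omega)]; ring
        have h4 := H.hr
        have h5 := H.hl
        have h6 : (n : ℤ) = K + r + 1 := by exact_mod_cast hK.symm
        push_cast
        rw [e1, e2, e3]
        nlinarith
      exact lt_of_le_of_lt h2 (by exact_mod_cast h3)
    have h1 := cb_poly (hp0 d) (hp1 (show 0 < d by omega)) (K := n + K) _ hdeg
    rw [← h1]
    apply sum_congr rfl
    intro k _
    rw [eval_mul, eval_mul, eval_mul, eval_mul, eval_pow, eval_pow, pz_eval, eval_C, eval_X]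
    have h2 : er.eval ((q ^ d) ^ k) = ∏ j ∈ (range r).erase i, e ((d : ℤ) * (((k : ℤ) - n) + j + 1)) := by
      rw [her, eval_prod]
      apply prod_congr rfl
      intro i _
      rw [eval_sub, Polynomial.eval_one, eval_mul, eval_C, eval_X]
      unfold e
      congr 1
      rw [← pow_mul, ← zpow_natCast q, ← zpow_add₀ q_ne]
      congr 1; push_cast; ring
    have h3 : PZ d r ((k : ℤ) - n) = e ((d : ℤ) * (((k : ℤ) - n) + i + 1)) * ∏ j ∈ (range r).erase i, e ((d : ℤ) * (((k : ℤ) - n) + j + 1)) := by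
      unfold PZ
      exact (mul_prod_erase (range r) (fun j : ℕ => e ((d : ℤ) * (((k : ℤ) - n) + j + 1))) hi).symm
    have h4 : q ^ ((d : ℤ) * (i + 1) - d * n) * (q ^ d) ^ k = q ^ ((d : ℤ) * (((k : ℤ) - n) + i + 1)) := by
      rw [← pow_mul, ← zpow_natCast q, ← zpow_add₀ q_ne]
      congr 1; push_cast; ring
    have h5 : PZ d r ((k : ℤ) - n) ^ (d - 1) * (e ((d : ℤ) * (((k : ℤ) - n) + i + 1)))⁻¹ ^ 2 =
        PZ d r ((k : ℤ) - n) ^ (d - 3) * (∏ j ∈ (range r).erase i, e ((d : ℤ) * (((k : ℤ) - n) + j + 1))) ^ 2 := by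
      rcases eq_or_ne (e ((d : ℤ) * (((k : ℤ) - n) + i + 1))) 0 with h6 | h6
      · rw [h3, h6, zero_mul, zero_pow (by omega), zero_mul]
        rcases Nat.eq_zero_or_pos (d - 3) with h7 | h7
        · omega
        · rw [zero_pow (by omega), zero_mul]
      · have h7 : PZ d r ((k : ℤ) - n) ^ (d - 1) = PZ d r ((k : ℤ) - n) ^ (d - 3) * PZ d r ((k : ℤ) - n) ^ 2 := by
          rw [← pow_add]; congr 1; omega
        rw [h7, mul_assoc]
        congr 1
        rw [h3, mul_pow]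
        field_simp
    rw [h2]
    unfold TZ FZ hh
    have h6 := wz_eval (d := d) (r := r) (n := n) hl0 k
    linear_combination (cb (q ^ d) (n + K) k * e ((d : ℤ) * (r + 1) + 2 * d * ((k : ℤ) - n)) * q ^ ((d : ℤ) * l * ((k : ℤ) - n)) *
      q ^ ((d : ℤ) * (((k : ℤ) - n) + i + 1))) * h5 - (cb (q ^ d) (n + K) k * q ^ ((d : ℤ) * (i + 1) - d * n) * (q ^ d) ^ k *
      (PZ d r ((k : ℤ) - n) ^ (d - 3) * (∏ j ∈ (range r).erase i, e ((d : ℤ) * (((k : ℤ) - n) + j + 1))) ^ 2)) * h6 -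
      (cb (q ^ d) (n + K) k * e ((d : ℤ) * (r + 1) + 2 * d * ((k : ℤ) - n)) * q ^ ((d : ℤ) * l * ((k : ℤ) - n)) *
      (PZ d r ((k : ℤ) - n) ^ (d - 3) * (∏ j ∈ (range r).erase i, e ((d : ℤ) * (((k : ℤ) - n) + j + 1))) ^ 2)) * h4
  · intro k hk
    rw [hT]
    simp only
    rw [TZ_symm H hk]
    congr 1
    rw [← sum_range_reflect]
    apply sum_congr rfl
    intro i hi
    have hi' := mem_range.1 hi
    rw [← hh_neg]
    congr 1
    have e1 : ((n + K - k : ℕ) : ℤ) = n + K - k := by omega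
    have e2 : ((r - 1 - i : ℕ) : ℤ) = r - 1 - i := by omega
    have h6 : (n : ℤ) = K + r + 1 := by exact_mod_cast hK.symm
    rw [e1, e2, h6]
    ring
  · intro k h1 h2
    rw [hT]
    simp only
    unfold TZ FZ
    rw [hPZ0 k h1 h2, zero_pow (by omega)]
    ring

end

end Pool.Agent.X14.QR
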