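import Pool.Agent.X14.QWP

set_option autoImplicit false

/-! Saalschütz' sum, Bailey's lemma and Watson's transformation of a terminating very well poised
`8φ7`. -/

namespace Pool.Agent.X14.QWat

open Finset Pool.Agent.X14.QWP

section
set_option linter.unusedSectionVars false
variable {K : Type*} [Field K]

/-- `(x; q)_k` -/
def P (q x : K) (k : ℕ) : K := ∏ j ∈ range k, (1 - x * q ^ j)

/-- `x^k (1/x; q)_k` -/
def R (q x : K) (k : ℕ) : K := ∏ j ∈ range k, (x - q ^ j)

variable {q : K}

lemma P_zero (x : K) : P q x 0 = 1 := by simp [P]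
lemma R_zero (x : K) : R q x 0 = 1 := by simp [R]
lemma P_succ (x : K) (k : ℕ) : P q x (k + 1) = P q x k * (1 - x * q ^ k) := by unfold P; rw [prod_range_succ]
lemma R_succ (x : K) (k : ℕ) : R q x (k + 1) = R q x k * (x - q ^ k) := by unfold R; rw [prod_range_succ]

lemma P_add (x : K) (k l : ℕ) : P q x (k + l) = P q x k * P q (x * q ^ k) l := by
  unfold P
  rw [prod_range_add]
  congr 1
  apply prod_congr rfl
  intro j _
  rw [pow_add]; ring

lemma R_add (hq : q ≠ 0) (x : K) (k l : ℕ) : R q x (k + l) = R q x k * ((q ^ k) ^ l * R q (x / q ^ k) l) := by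
  induction l with
  | zero => simp [R_zero]
  | succ l ih =>
    have h := pow_ne_zero k hq
    rw [← add_assoc, R_succ, ih, R_succ, pow_succ, pow_add]
    field_simp

lemma P_ne {x : K} (h : ∀ k : ℕ, 1 - x * q ^ k ≠ 0) (k : ℕ) : P q x k ≠ 0 := by
  unfold P; rw [prod_ne_zero_iff]; intro j _; exact h j

lemma Pq_ne (hq1 : ∀ k : ℕ, 1 - q ^ (k + 1) ≠ 0) (k : ℕ) : P q q k ≠ 0 :=
  P_ne (fun j => by have := hq1 j; rwa [pow_succ, mul_comm] at this) k

lemma Pq_succ (k : ℕ) : P q q (k + 1) = P q q k * (1 - q ^ (k + 1)) := by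
  rw [P_succ, pow_succ, mul_comm q]

/-- the terms of the balanced `3φ2` -/
def t (q A D E : K) (N i : ℕ) : K :=
  R q D i * R q E i * A ^ i * P q (A * D * E) (N - i) / (P q q i * P q A i * P q q (N - i))

variable {A D E : K}

lemma t_up (hq1 : ∀ k : ℕ, 1 - q ^ (k + 1) ≠ 0) (i M : ℕ) :
    t q A D E (i + M + 1) i * (1 - q ^ (M + 1)) = t q A D E (i + M) i * (1 - A * D * E * q ^ M) := by
  unfold t
  rw [show i + M + 1 - i = M + 1 by omega, show i + M - i = M by omega, Pq_succ, P_succ]
  have h1 := hq1 M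
  have h2 := Pq_ne hq1 M
  generalize 1 - q ^ (M + 1) = s1 at *
  generalize 1 - A * D * E * q ^ M = s2 at *
  field_simp

lemma t_right (hq1 : ∀ k : ℕ, 1 - q ^ (k + 1) ≠ 0) (hA : ∀ k : ℕ, 1 - A * q ^ k ≠ 0) (i M : ℕ) :
    t q A D E (i + 1 + M) (i + 1) * ((1 - q ^ (i + 1)) * (1 - A * q ^ i) * (1 - A * D * E * q ^ M)) =
      t q A D E (i + 1 + M) i * ((D - q ^ i) * (E - q ^ i) * A * (1 - q ^ (M + 1))) := by
  unfold t
  rw [show i + 1 + M - (i + 1) = M by omega, show i + 1 + M - i = M + 1 by omega, Pq_succ, Pq_succ, P_succ A, P_succ (A * D * E), R_succ, R_succ, pow_succ A]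
  have h1 := hq1 M
  have h3 := hq1 i
  have h2 := Pq_ne hq1 M
  have h4 := Pq_ne hq1 i
  have h5 := P_ne hA i
  have h6 := hA i
  generalize 1 - q ^ (M + 1) = s1 at *
  generalize 1 - q ^ (i + 1) = s3 at *
  generalize 1 - A * D * E * q ^ M = s2 at *
  generalize 1 - A * q ^ i = s4 at *
  field_simp

lemma tele (hq1 : ∀ k : ℕ, 1 - q ^ (k + 1) ≠ 0) (hA : ∀ k : ℕ, 1 - A * q ^ k ≠ 0) (N : ℕ) :
    ∀ n M : ℕ, n + M = N → ∑ i ∈ range (n + 1), ((1 - q ^ (N + 1)) * (1 - A * q ^ N) * t q A D E (N + 1) i -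
      (1 - A * D * q ^ N) * (1 - A * E * q ^ N) * t q A D E N i) =
      -(q ^ M * t q A D E N n * (A * (D - q ^ n) * (E - q ^ n))) := by
  intro n
  induction n with
  | zero =>
    intro M hM
    rw [zero_add] at hM
    subst hM
    rw [sum_range_one]
    have h1 := t_up (A := A) (D := D) (E := E) hq1 0 M
    rw [zero_add] at h1
    have h2 := hq1 M
    have h3 : (1 - q ^ (M + 1)) * (1 - A * q ^ M) * t q A D E (M + 1) 0 = (1 - A * q ^ M) * (t q A D E M 0 * (1 - A * D * E * q ^ M)) := by
      rw [← h1]; ring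
    rw [h3, pow_zero]
    ring
  | succ n ih =>
    intro M hM
    have h1 := ih (M + 1) (by omega)
    rw [sum_range_succ, h1]
    have h2 := t_up (A := A) (D := D) (E := E) hq1 (n + 1) M
    have h3 := t_right (D := D) (E := E) hq1 hA n M
    rw [hM] at h2 h3
    have h4 := hq1 M
    have hN : q ^ N = q ^ n * q * q ^ M := by rw [← hM, pow_add, pow_succ]
    apply mul_right_cancel₀ h4
    have e1 : q ^ (M + 1) * t q A D E N n * (A * (D - q ^ n) * (E - q ^ n)) * (1 - q ^ (M + 1)) =
        q ^ (M + 1) * (t q A D E N (n + 1) * ((1 - q ^ (n + 1)) * (1 - A * q ^ n) * (1 - A * D * E * q ^ M))) := by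
      rw [h3]; ring
    have e2 : (-(q ^ (M + 1) * t q A D E N n * (A * (D - q ^ n) * (E - q ^ n))) +
        ((1 - q ^ (N + 1)) * (1 - A * q ^ N) * t q A D E (N + 1) (n + 1) -
          (1 - A * D * q ^ N) * (1 - A * E * q ^ N) * t q A D E N (n + 1))) * (1 - q ^ (M + 1)) =
        -(q ^ (M + 1) * (t q A D E N (n + 1) * ((1 - q ^ (n + 1)) * (1 - A * q ^ n) * (1 - A * D * E * q ^ M)))) +
        ((1 - q ^ (N + 1)) * (1 - A * q ^ N) * (t q A D E N (n + 1) * (1 - A * D * E * q ^ M)) -
          (1 - A * D * q ^ N) * (1 - A * E * q ^ N) * t q A D E N (n + 1) * (1 - q ^ (M + 1))) := by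
      rw [← e1, ← h2]; ring
    rw [e2, pow_succ q N, hN, pow_succ q M, pow_succ q n]
    ring

/-- Saalschütz' sum -/
theorem saal (hq1 : ∀ k : ℕ, 1 - q ^ (k + 1) ≠ 0) (hA : ∀ k : ℕ, 1 - A * q ^ k ≠ 0) (N : ℕ) :
    ∑ i ∈ range (N + 1), t q A D E N i = P q (A * D) N * P q (A * E) N / (P q q N * P q A N) := by
  induction N with
  | zero => simp [t, P_zero, R_zero]
  | succ N ih =>
    have h1 := tele (D := D) (E := E) hq1 hA N N 0 (by omega)
    rw [sum_sub_distrib, ← mul_sum, ← mul_sum, ih] at h1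
    have h2 : t q A D E (N + 1) (N + 1) * ((1 - q ^ (N + 1)) * (1 - A * q ^ N)) = t q A D E N N * (A * (D - q ^ N) * (E - q ^ N)) := by
      unfold t
      rw [Nat.sub_self, Nat.sub_self, P_zero, P_zero, Pq_succ, P_succ A, R_succ, R_succ, pow_succ A]
      have h3 := hq1 N
      have h4 := Pq_ne hq1 N
      have h5 := P_ne hA N
      have h6 := hA N
      generalize 1 - q ^ (N + 1) = s1 at *
      generalize 1 - A * q ^ N = s4 at *
      field_simp
    have h3 := hq1 N
    have h4 := Pq_ne hq1 N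
    have h5 := P_ne hA N
    have h6 := hA N
    rw [sum_range_succ]
    have h8 : ((1 - q ^ (N + 1)) * (1 - A * q ^ N)) * (∑ i ∈ range (N + 1), t q A D E (N + 1) i + t q A D E (N + 1) (N + 1)) =
        (1 - A * D * q ^ N) * (1 - A * E * q ^ N) * (P q (A * D) N * P q (A * E) N / (P q q N * P q A N)) := by
      rw [pow_zero, one_mul] at h1
      linear_combination h1 + h2
    apply mul_left_cancel₀ (mul_ne_zero h3 h6)
    rw [h8, P_succ (A * D), P_succ (A * E), Pq_succ, P_succ A]
    generalize 1 - q ^ (N + 1) = s1 at *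
    generalize 1 - A * q ^ N = s4 at *
    generalize 1 - A * D * q ^ N = s5 at *
    generalize 1 - A * E * q ^ N = s6 at *
    field_simp

variable {a B C : K}

/-- Bailey's lemma -/
theorem bailey (hq : q ≠ 0) (hq1 : ∀ k : ℕ, 1 - q ^ (k + 1) ≠ 0) (ha : ∀ k : ℕ, 1 - a * q ^ (k + 1) ≠ 0)
    (hD : ∀ k : ℕ, 1 - a * D * q ^ (k + 1) ≠ 0) (hE : ∀ k : ℕ, 1 - a * E * q ^ (k + 1) ≠ 0)
    {α β : ℕ → K} (N : ℕ) (hβ : ∀ j, β j = ∑ k ∈ range (j + 1), α k / (P q q (j - k) * P q (a * q) (j + k))) :
    ∑ k ∈ range (N + 1), R q D k * R q E k * (a * q) ^ k * α k /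
        (P q (a * q * D) k * P q (a * q * E) k * (P q q (N - k) * P q (a * q) (N + k))) =
      ∑ j ∈ range (N + 1), R q D j * R q E j * P q (a * q * D * E) (N - j) * (a * q) ^ j * β j /
        (P q q (N - j) * (P q (a * q * D) N * P q (a * q * E) N)) := by
  have hDn : ∀ k, P q (a * q * D) k ≠ 0 := P_ne (fun k => by
    have := hD k; rwa [show a * D * q ^ (k + 1) = a * q * D * q ^ k by ring] at this)
  have hEn : ∀ k, P q (a * q * E) k ≠ 0 := P_ne (fun k => by
    have := hE k; rwa [show a * E * q ^ (k + 1) = a * q * E * q ^ k by ring] at this)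
  have han : ∀ k, P q (a * q) k ≠ 0 := P_ne (fun k => by
    have := ha k; rwa [show a * q ^ (k + 1) = a * q * q ^ k by ring] at this)
  have h1 : ∀ j ∈ range (N + 1), R q D j * R q E j * P q (a * q * D * E) (N - j) * (a * q) ^ j * β j /
        (P q q (N - j) * (P q (a * q * D) N * P q (a * q * E) N)) =
      ∑ k ∈ range (j + 1), R q D j * R q E j * P q (a * q * D * E) (N - j) * (a * q) ^ j *
        (α k / (P q q (j - k) * P q (a * q) (j + k))) / (P q q (N - j) * (P q (a * q * D) N * P q (a * q * E) N)) := by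
    intro j _
    rw [hβ j, mul_sum, sum_div]
  rw [sum_congr rfl h1]
  rw [Finset.sum_comm' (t' := range (N + 1)) (s' := fun k => Ico k (N + 1))
    (by intro j k; simp only [mem_range, mem_Ico]; omega)]
  apply sum_congr rfl
  intro k hk
  have hkN : k ≤ N := by have := mem_range.1 hk; omega
  rw [sum_Ico_eq_sum_range, show N + 1 - k = (N - k) + 1 by omega]
  have hK : q ^ k ≠ 0 := pow_ne_zero _ hq
  have hA : ∀ i : ℕ, 1 - (a * q * q ^ (2 * k)) * q ^ i ≠ 0 := by
    intro i
    have := ha (2 * k + i)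
    rwa [show a * q ^ (2 * k + i + 1) = (a * q * q ^ (2 * k)) * q ^ i by ring] at this
  have hs := saal (D := D / q ^ k) (E := E / q ^ k) hq1 hA (N - k)
  have h2 : ∀ i ∈ range (N - k + 1), R q D (k + i) * R q E (k + i) * P q (a * q * D * E) (N - (k + i)) * (a * q) ^ (k + i) *
        (α k / (P q q (k + i - k) * P q (a * q) (k + i + k))) / (P q q (N - (k + i)) * (P q (a * q * D) N * P q (a * q * E) N)) =
      (R q D k * R q E k * (a * q) ^ k * α k / (P q (a * q) (2 * k) * (P q (a * q * D) N * P q (a * q * E) N))) *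
        t q (a * q * q ^ (2 * k)) (D / q ^ k) (E / q ^ k) (N - k) i := by
    intro i hi
    unfold t
    rw [R_add hq, R_add hq, show k + i - k = i by omega, show k + i + k = 2 * k + i by ring, P_add (a * q) (2 * k) i,
      show N - (k + i) = N - k - i by omega]
    have e1 : a * q * q ^ (2 * k) * (D / q ^ k) * (E / q ^ k) = a * q * D * E := by
      rw [show q ^ (2 * k) = q ^ k * q ^ k by ring]
      field_simp
    have e2 : (a * q * q ^ (2 * k)) ^ i = (a * q) ^ i * (q ^ k) ^ i * (q ^ k) ^ i := by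
      rw [show q ^ (2 * k) = q ^ k * q ^ k by ring, ← mul_assoc, mul_pow, mul_pow]
    rw [e1, e2, pow_add (a * q) k i]
    have n1 := han (2 * k)
    have n2 := hDn N
    have n3 := hEn N
    have n4 := Pq_ne hq1 i
    have n5 := Pq_ne hq1 (N - k - i)
    have n6 := P_ne hA i
    generalize P q (a * q * q ^ (2 * k)) i = z1 at *
    generalize P q (a * q) (2 * k) = z2 at *
    generalize P q (a * q * D) N = z3 at *
    generalize P q (a * q * E) N = z4 at *
    generalize P q q i = z5 at *
    generalize P q q (N - k - i) = z6 at *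
    generalize R q (D / q ^ k) i = z7 at *
    generalize R q (E / q ^ k) i = z8 at *
    generalize (q ^ k) ^ i = z9 at *
    field_simp
  rw [sum_congr rfl h2, ← mul_sum, hs]
  have e3 : a * q * q ^ (2 * k) * (D / q ^ k) = a * q * D * q ^ k := by
    rw [show q ^ (2 * k) = q ^ k * q ^ k by ring]
    field_simp
  have e4 : a * q * q ^ (2 * k) * (E / q ^ k) = a * q * E * q ^ k := by
    rw [show q ^ (2 * k) = q ^ k * q ^ k by ring]
    field_simp
  have e5 : P q (a * q * D) N = P q (a * q * D) k * P q (a * q * D * q ^ k) (N - k) := by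
    rw [← P_add, Nat.add_sub_cancel' hkN]
  have e6 : P q (a * q * E) N = P q (a * q * E) k * P q (a * q * E * q ^ k) (N - k) := by
    rw [← P_add, Nat.add_sub_cancel' hkN]
  have e7 : P q (a * q) (N + k) = P q (a * q) (2 * k) * P q (a * q * q ^ (2 * k)) (N - k) := by
    rw [← P_add]; congr 1; omega
  have n2 := hDn N
  have n3 := hEn N
  rw [e5] at n2
  rw [e6] at n3
  rw [e3, e4, e5, e6, e7]
  have n1 := han (2 * k)
  have n5 := Pq_ne hq1 (N - k)
  have n6 := P_ne hA (N - k)
  generalize P q (a * q * q ^ (2 * k)) (N - k) = z1 at *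
  generalize P q (a * q) (2 * k) = z2 at *
  generalize P q (a * q * D) k = z3 at *
  generalize P q (a * q * E) k = z4 at *
  generalize P q (a * q * D * q ^ k) (N - k) = z5 at *
  generalize P q (a * q * E * q ^ k) (N - k) = z6 at *
  generalize P q q (N - k) = z7 at *
  have n7 := (mul_ne_zero_iff.1 n2).1
  have n8 := (mul_ne_zero_iff.1 n2).2
  have n9 := (mul_ne_zero_iff.1 n3).1
  have n10 := (mul_ne_zero_iff.1 n3).2
  field_simp

lemma wp_diag (hq : q ≠ 0) (hq1 : ∀ k : ℕ, 1 - q ^ (k + 1) ≠ 0) (ha : ∀ k : ℕ, 1 - a * q ^ (k + 1) ≠ 0) (k M : ℕ) :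
    wp q a B C (k + M) k / (P q q (k + M) * P q (a * q) (k + M)) =
      (wp q a B C k k * P q (a * q) (2 * k) / (P q q k * P q (a * q) k)) / (P q q M * P q (a * q) (k + M + k)) := by
  have han : ∀ k, P q (a * q) k ≠ 0 := P_ne (fun k => by
    have := ha k; rwa [show a * q ^ (k + 1) = a * q * q ^ k by ring] at this)
  induction M with
  | zero =>
    rw [add_zero, P_zero, one_mul, ← two_mul]
    have n1 := han (2 * k)
    have n2 := han k
    have n3 := Pq_ne hq1 k
    field_simp
  | succ M ih =>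
    have h1 := wp_shift (b := B) (d := C) hq ha (k + M) k
    have h2 : q ^ (k + M + 1) - q ^ k = q ^ k * (q ^ (M + 1) - 1) := by ring
    rw [h2] at h1
    have hk : q ^ k ≠ 0 := pow_ne_zero _ hq
    have h3 : wp q a B C (k + M + 1) k * ((1 - q ^ (M + 1)) * (1 - a * q ^ (k + M + 1 + k))) =
        wp q a B C (k + M) k * ((1 - q ^ (k + M + 1)) * (1 - a * q ^ (k + M + 1))) := by
      apply mul_left_cancel₀ hk
      linear_combination -h1
    have n1 := han (k + M)
    have n2 := Pq_ne hq1 (k + M)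
    have n3 := Pq_ne hq1 M
    have n4 := han (k + M + k)
    have n5 := hq1 M
    have n6 := hq1 (k + M)
    have n7 := ha (k + M)
    have n8 := ha (k + M + k)
    have n9 := han k
    have n10 := Pq_ne hq1 k
    have n11 := han (2 * k)
    have c1 : ∀ j, P q (a * q) (j + 1) = P q (a * q) j * (1 - a * q ^ (j + 1)) := by
      intro j; rw [P_succ]; congr 2; ring
    rw [← add_assoc, Pq_succ, c1, Pq_succ M, show k + M + 1 + k = k + M + k + 1 by ring, c1 (k + M + k)]
    rw [show k + M + 1 + k = k + M + k + 1 by ring] at h3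
    have e1 : wp q a B C (k + M + 1) k = wp q a B C (k + M) k * ((1 - q ^ (k + M + 1)) * (1 - a * q ^ (k + M + 1))) /
        ((1 - q ^ (M + 1)) * (1 - a * q ^ (k + M + k + 1))) := by
      rw [eq_div_iff (mul_ne_zero n5 n8)]; exact h3
    have e2 : wp q a B C (k + M) k = (wp q a B C k k * P q (a * q) (2 * k) / (P q q k * P q (a * q) k)) / (P q q M * P q (a * q) (k + M + k)) *
        (P q q (k + M) * P q (a * q) (k + M)) := by
      rw [← ih]; field_simp
    rw [e1, e2]
    generalize (wp q a B C k k * P q (a * q) (2 * k) / (P q q k * P q (a * q) k)) = W at *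
    generalize P q (a * q) (k + M + k) = z1 at *
    generalize P q q (k + M) = z2 at *
    generalize P q (a * q) (k + M) = z3 at *
    generalize P q q M = z4 at *
    generalize 1 - q ^ (M + 1) = z5 at *
    generalize 1 - q ^ (k + M + 1) = z6 at *
    generalize 1 - a * q ^ (k + M + 1) = z7 at *
    generalize 1 - a * q ^ (k + M + k + 1) = z8 at *
    field_simp

/-- Watson's transformation of a terminating very well poised `8φ7` -/
theorem watson (hq : q ≠ 0) (hq1 : ∀ k : ℕ, 1 - q ^ (k + 1) ≠ 0) (ha : ∀ k : ℕ, 1 - a * q ^ (k + 1) ≠ 0)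
    (hB : ∀ k : ℕ, 1 - a * B * q ^ (k + 1) ≠ 0) (hC : ∀ k : ℕ, 1 - a * C * q ^ (k + 1) ≠ 0)
    (hD : ∀ k : ℕ, 1 - a * D * q ^ (k + 1) ≠ 0) (hE : ∀ k : ℕ, 1 - a * E * q ^ (k + 1) ≠ 0) (N : ℕ) :
    ∑ k ∈ range (N + 1), (1 - a * q ^ (2 * k)) * wp q a B C N k *
        (R q D k * R q E k * (a * q) ^ k / (P q (a * q * D) k * P q (a * q * E) k)) =
      (1 - a) * (P q q N * P q (a * q) N / (P q (a * q * D) N * P q (a * q * E) N)) *
        ∑ j ∈ range (N + 1), R q D j * R q E j * P q (a * q * D * E) (N - j) * (a * q) ^ j * P q (a * q * B * C) j /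
          (P q q j * P q (a * q * B) j * P q (a * q * C) j * P q q (N - j)) := by
  have hBn : ∀ k, P q (a * q * B) k ≠ 0 := P_ne (fun k => by
    have := hB k; rwa [show a * B * q ^ (k + 1) = a * q * B * q ^ k by ring] at this)
  have hCn : ∀ k, P q (a * q * C) k ≠ 0 := P_ne (fun k => by
    have := hC k; rwa [show a * C * q ^ (k + 1) = a * q * C * q ^ k by ring] at this)
  have hDn : ∀ k, P q (a * q * D) k ≠ 0 := P_ne (fun k => by
    have := hD k; rwa [show a * D * q ^ (k + 1) = a * q * D * q ^ k by ring] at this)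
  have hEn : ∀ k, P q (a * q * E) k ≠ 0 := P_ne (fun k => by
    have := hE k; rwa [show a * E * q ^ (k + 1) = a * q * E * q ^ k by ring] at this)
  have han : ∀ k, P q (a * q) k ≠ 0 := P_ne (fun k => by
    have := ha k; rwa [show a * q ^ (k + 1) = a * q * q ^ k by ring] at this)
  set α : ℕ → K := fun k => (1 - a * q ^ (2 * k)) * (wp q a B C k k * P q (a * q) (2 * k) / (P q q k * P q (a * q) k)) with hα
  have hw : ∀ n k, k ≤ n → α k / (P q q (n - k) * P q (a * q) (n + k)) =
      (1 - a * q ^ (2 * k)) * wp q a B C n k / (P q q n * P q (a * q) n) := by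
    intro n k hk
    obtain ⟨M, rfl⟩ := Nat.exists_eq_add_of_le hk
    have := wp_diag (B := B) (C := C) hq hq1 ha k M
    have e0 : α k = (1 - a * q ^ (2 * k)) * (wp q a B C k k * P q (a * q) (2 * k) / (P q q k * P q (a * q) k)) := rfl
    rw [show k + M - k = M by omega, e0, mul_div_assoc, mul_div_assoc (1 - a * q ^ (2 * k)) (wp q a B C (k + M) k), this]
  set β : ℕ → K := fun n => ∑ k ∈ range (n + 1), α k / (P q q (n - k) * P q (a * q) (n + k)) with hβ
  have hb : ∀ n, β n = (1 - a) * P q (a * q * B * C) n / (P q q n * P q (a * q * B) n * P q (a * q * C) n) := by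
    intro n
    have h1 : β n = (∑ k ∈ range (n + 1), (1 - a * q ^ (2 * k)) * wp q a B C n k) / (P q q n * P q (a * q) n) := by
      rw [hβ, sum_div]
      apply sum_congr rfl
      intro k hk
      exact hw n k (by have := mem_range.1 hk; omega)
    have h2 : ∏ j ∈ range n, ((1 - a * q ^ (j + 1)) * (1 - a * B * C * q ^ (j + 1))) / ((1 - a * B * q ^ (j + 1)) * (1 - a * C * q ^ (j + 1))) =
        P q (a * q) n * P q (a * q * B * C) n / (P q (a * q * B) n * P q (a * q * C) n) := by
      unfold P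
      rw [prod_div_distrib, prod_mul_distrib, prod_mul_distrib]
      congr 1
      · congr 1
        · exact prod_congr rfl (fun j _ => by ring)
        · exact prod_congr rfl (fun j _ => by ring)
      · congr 1
        · exact prod_congr rfl (fun j _ => by ring)
        · exact prod_congr rfl (fun j _ => by ring)
    rw [h1, wp_sum hq hq1 ha hB hC n, h2]
    have n1 := han n
    have n2 := Pq_ne hq1 n
    have n3 := hBn n
    have n4 := hCn n
    field_simp
  have hmain := bailey (α := α) (β := β) hq hq1 ha hD hE N (fun j => rfl)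
  have h3 : ∑ k ∈ range (N + 1), R q D k * R q E k * (a * q) ^ k * α k /
        (P q (a * q * D) k * P q (a * q * E) k * (P q q (N - k) * P q (a * q) (N + k))) =
      (∑ k ∈ range (N + 1), (1 - a * q ^ (2 * k)) * wp q a B C N k *
        (R q D k * R q E k * (a * q) ^ k / (P q (a * q * D) k * P q (a * q * E) k))) / (P q q N * P q (a * q) N) := by
    rw [sum_div]
    apply sum_congr rfl
    intro k hk
    have h4 := hw N k (by have := mem_range.1 hk; omega)
    have e1 : R q D k * R q E k * (a * q) ^ k * α k /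
        (P q (a * q * D) k * P q (a * q * E) k * (P q q (N - k) * P q (a * q) (N + k))) =
        R q D k * R q E k * (a * q) ^ k / (P q (a * q * D) k * P q (a * q * E) k) * (α k / (P q q (N - k) * P q (a * q) (N + k))) := by
      rw [div_mul_div_comm]
    rw [e1, h4]
    ring
  rw [h3] at hmain
  have n1 := han N
  have n2 := Pq_ne hq1 N
  rw [div_eq_iff (mul_ne_zero n2 n1)] at hmain
  rw [hmain, mul_sum, sum_mul]
  apply sum_congr rfl
  intro j _
  rw [hb j]
  have n3 := hBn j
  have n4 := hCn j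
  have n5 := Pq_ne hq1 j
  have n6 := Pq_ne hq1 (N - j)
  have n7 := hDn N
  have n8 := hEn N
  generalize P q (a * q * B) j = z1 at *
  generalize P q (a * q * C) j = z2 at *
  generalize P q q j = z3 at *
  generalize P q q (N - j) = z4 at *
  generalize P q (a * q * D) N = z5 at *
  generalize P q (a * q * E) N = z6 at *
  generalize P q q N = z7 at *
  generalize P q (a * q) N = z8 at *
  field_simp

end

end Pool.Agent.X14.QWat
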