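import Mathlib

set_option autoImplicit false

/-! The terminating very well poised `5F4` sum. -/

namespace Pool.Agent.X14

open Finset

section
set_option linter.unusedSectionVars false
variable {K : Type*} [Field K]

/-- the products `(a)_k (b)_k (c)_k (-n)_k / (k! (1+a-b)_k (1+a-c)_k (1+a+n)_k)` -/
def vwp (a b c : K) (n k : ℕ) : K :=
  ∏ j ∈ range k, ((a + j) * (b + j) * (c + j) * ((j : K) - n)) /
    (((j : K) + 1) * (1 + a - b + j) * (1 + a - c + j) * (1 + a + n + j))

variable [CharZero K] {a b c : K}

lemma vwp_succ (n k : ℕ) : vwp a b c n (k + 1) = vwp a b c n k *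
    (((a + k) * (b + k) * (c + k) * ((k : K) - n)) /
    (((k : K) + 1) * (1 + a - b + k) * (1 + a - c + k) * (1 + a + n + k))) := by
  unfold vwp; rw [prod_range_succ]

lemma vwp_zero_of_lt {n k : ℕ} (h : n < k) : vwp a b c n k = 0 := by
  unfold vwp
  apply prod_eq_zero (mem_range.2 h)
  simp

lemma vwp_shift (ha : ∀ k : ℕ, 1 + a + k ≠ 0) (n k : ℕ) :
    vwp a b c (n + 1) k * (((n : K) + 1 - k) * (1 + a + n + k)) = vwp a b c n k * (((n : K) + 1) * (1 + a + n)) := by
  induction k with
  | zero => simp [vwp]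
  | succ k ih =>
    rw [vwp_succ, vwp_succ]
    have h1 : 1 + a + n + k ≠ 0 := by have := ha (n + k); push_cast at this; rwa [← add_assoc] at this
    have h2 : 1 + a + (n + 1) + k ≠ 0 := by
      have := ha (n + 1 + k); push_cast at this; rwa [← add_assoc] at this
    have e : vwp a b c n k * (((a + k) * (b + k) * (c + k) * ((k : K) - n)) /
        (((k : K) + 1) * (1 + a - b + k) * (1 + a - c + k) * (1 + a + n + k))) * (((n : K) + 1) * (1 + a + n)) =
        (vwp a b c n k * (((n : K) + 1) * (1 + a + n))) * (((a + k) * (b + k) * (c + k) * ((k : K) - n)) /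
        (((k : K) + 1) * (1 + a - b + k) * (1 + a - c + k) * (1 + a + n + k))) := by ring
    rw [e, ← ih]
    push_cast
    have hk : ((k : K) + 1) ≠ 0 := by exact_mod_cast Nat.succ_ne_zero k
    set v := vwp a b c (n + 1) k
    set Q := (1 + a - b + (k : K)) * (1 + a - c + (k : K)) with hQ
    have e1 : ∀ x y : K, x / (((k : K) + 1) * (1 + a - b + k) * (1 + a - c + k) * y) = x / y / (((k : K) + 1) * Q) := by
      intro x y
      rw [div_div, hQ]; congr 1; ring
    rw [e1, e1]
    have e2 : ((a + k) * (b + k) * (c + k) * ((k : K) - (n + 1))) / (1 + a + (n + 1) + k) * (1 + a + n + (k + 1)) =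
        (a + k) * (b + k) * (c + k) * ((k : K) - (n + 1)) := by
      rw [div_mul_eq_mul_div, div_eq_iff h2]; ring
    have e3 : ((a + k) * (b + k) * (c + k) * ((k : K) - n)) / (1 + a + n + k) * (1 + a + n + k) =
        (a + k) * (b + k) * (c + k) * ((k : K) - n) := by
      field_simp
    calc v * ((a + k) * (b + k) * (c + k) * ((k : K) - (n + 1)) / (1 + a + (n + 1) + k) / (((k : K) + 1) * Q)) *
          (((n : K) + 1 - (k + 1)) * (1 + a + n + (k + 1)))
        = v * ((n : K) - k) * ((((a + k) * (b + k) * (c + k) * ((k : K) - (n + 1))) / (1 + a + (n + 1) + k) * (1 + a + n + (k + 1))) / (((k : K) + 1) * Q)) := by ring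
      _ = v * ((n : K) - k) * (((a + k) * (b + k) * (c + k) * ((k : K) - (n + 1))) / (((k : K) + 1) * Q)) := by rw [e2]
      _ = v * ((n : K) + 1 - k) * (((a + k) * (b + k) * (c + k) * ((k : K) - n)) / (((k : K) + 1) * Q)) := by ring
      _ = v * ((n : K) + 1 - k) * ((((a + k) * (b + k) * (c + k) * ((k : K) - n)) / (1 + a + n + k) * (1 + a + n + k)) / (((k : K) + 1) * Q)) := by rw [e3]
      _ = _ := by ring

/-- the terminating very well poised `5F4` -/
theorem vwp_sum (ha : ∀ k : ℕ, 1 + a + k ≠ 0) (hb : ∀ k : ℕ, 1 + a - b + k ≠ 0)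
    (hc : ∀ k : ℕ, 1 + a - c + k ≠ 0) (n : ℕ) :
    ∑ k ∈ range (n + 1), (a + 2 * k) * vwp a b c n k =
      a * ∏ j ∈ range n, ((1 + a + j) * (1 + a - b - c + j)) / ((1 + a - b + j) * (1 + a - c + j)) := by
  induction n with
  | zero => simp [vwp]
  | succ n ih =>
    rw [prod_range_succ, ← mul_assoc, ← ih]
    have hn : ((n : K) + 1) ≠ 0 := by exact_mod_cast Nat.succ_ne_zero n
    have hbn := hb n
    have hcn := hc n
    have han := ha n
    -- telescoping
    have tel : ∀ m : ℕ, ∑ k ∈ range m, ((a + 2 * k) * vwp a b c (n + 1) k -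
        ((a + 2 * k) * vwp a b c n k) * (((1 + a + n) * (1 + a - b - c + n)) / ((1 + a - b + n) * (1 + a - c + n)))) =
        -(vwp a b c (n + 1) m * ((m : K) * (m + a - b) * (m + a - c) * (n + 1 + a + m)) /
          (((n : K) + 1) * (1 + a - b + n) * (1 + a - c + n))) := by
      intro m
      induction m with
      | zero => simp
      | succ m ihm =>
        rw [sum_range_succ, ihm]
        have hs := vwp_shift (b := b) (c := c) ha n m
        have hv : vwp a b c n m = vwp a b c (n + 1) m * (((n : K) + 1 - m) * (1 + a + n + m)) / (((n : K) + 1) * (1 + a + n)) := by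
          rw [hs]; field_simp
        rw [hv, vwp_succ]
        have hm : ((m : K) + 1) ≠ 0 := by exact_mod_cast Nat.succ_ne_zero m
        have hbm := hb m
        have hcm := hc m
        have h2 : 1 + a + (n + 1) + m ≠ 0 := by
          have := ha (n + 1 + m); push_cast at this; rwa [← add_assoc] at this
        push_cast
        set v := vwp a b c (n + 1) m
        field_simp
        ring
    have h := tel (n + 2)
    rw [vwp_zero_of_lt (by omega), zero_mul, zero_div, neg_zero, sum_sub_distrib, ← sum_mul, sub_eq_zero] at h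
    rw [h, sum_range_succ _ (n + 1), vwp_zero_of_lt (by omega : n < n + 1), mul_zero, add_zero]

end

end Pool.Agent.X14
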