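import Pool.Agent.X14.Base
import Pool.Agent.X14.VWP

set_option autoImplicit false

/-! Reflection lemmas and the `(6k ± 1)` sums. -/

namespace Pool.Agent.X14

open Finset Pool.Agent.H434R2 Pool.Agent.H434R2.PO

set_option linter.unusedSectionVars false

variable {p : ℕ} [hp : Fact p.Prime]

lemma inv_int {z : ℤ} (h : ¬ (p : ℤ) ∣ z) : PO p 0 ((z : ℚ)⁻¹) :=
  inv_of_norm ((padicNorm.int_eq_one_iff z).2 h)

lemma PO_of_dvd {z : ℤ} {k : ℕ} (h : (p : ℤ) ^ k ∣ z) : PO p k (z : ℚ) := by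
  obtain ⟨y, rfl⟩ := h
  push_cast
  exact (ppow k).mul0' (of_int y)

/-- first order expansion of a product -/
lemma prod_one_add {ι : Type*} {k : ℕ} (s : Finset ι) (u : ι → ℚ) (hu : ∀ i ∈ s, PO p k (u i)) :
    PO p (2 * k) (∏ i ∈ s, (1 + u i) - (1 + ∑ i ∈ s, u i)) := by
  classical
  induction s using Finset.induction_on with
  | empty => simpa using PO.zero (p := p) (2 * k)
  | insert i s hi ih =>
    have hui := hu i (mem_insert_self i s)
    have ih' := ih (fun j hj => hu j (mem_insert_of_mem hj))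
    have hS : PO p k (∑ j ∈ s, u j) := PO.sum _ _ (fun j hj => hu j (mem_insert_of_mem hj))
    rw [prod_insert hi, sum_insert hi]
    have e : (1 + u i) * ∏ j ∈ s, (1 + u j) - (1 + (u i + ∑ j ∈ s, u j)) =
        (1 + u i) * (∏ j ∈ s, (1 + u j) - (1 + ∑ j ∈ s, u j)) + u i * ∑ j ∈ s, u j := by
      ring
    rw [e]
    have h4 : PO p (2 * k) (u i * ∑ j ∈ s, u j) := by have := hui.mul hS; rwa [← two_mul] at this
    exact (PO.mul0 (PO.one.add (hui.mono (Nat.zero_le k))) ih').add h4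

lemma sum_tail {M k : ℕ} (hk : k ≤ M) (f : ℕ → ℚ) :
    ∑ j ∈ range M, f j = ∑ j ∈ range (M - k), f j + ∑ i ∈ range k, f (M - 1 - i) := by
  obtain ⟨l, rfl⟩ : ∃ l, M = l + k := ⟨M - k, by omega⟩
  rw [Nat.add_sub_cancel, sum_range_add, ← Finset.sum_range_reflect _ k]
  congr 1
  apply sum_congr rfl
  intro j hj
  have := mem_range.1 hj
  congr 1
  omega

lemma prod_tail {M k : ℕ} (hk : k ≤ M) (f : ℕ → ℚ) :
    ∏ j ∈ range M, f j = (∏ j ∈ range (M - k), f j) * ∏ i ∈ range k, f (M - 1 - i) := by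
  obtain ⟨l, rfl⟩ : ∃ l, M = l + k := ⟨M - k, by omega⟩
  rw [Nat.add_sub_cancel, prod_range_add, ← Finset.prod_range_reflect _ k]
  congr 1
  apply prod_congr rfl
  intro j hj
  have := mem_range.1 hj
  congr 1
  omega

/-- reflection of partial sums -/
lemma sum_sym (h2 : p ≠ 2) {M : ℕ} {f : ℕ → ℚ} (h : ∀ j < M, PO p 1 (f (M - 1 - j) + f j)) {k : ℕ} (hk : k ≤ M) :
    PO p 1 (∑ j ∈ range (M - k), f j - ∑ j ∈ range k, f j) := by
  have key : ∀ k ≤ M, PO p 1 (∑ i ∈ range k, f (M - 1 - i) + ∑ i ∈ range k, f i) := by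
    intro k hk
    rw [← sum_add_distrib]
    exact PO.sum _ _ (fun j hj => h j (by have := mem_range.1 hj; omega))
  have hM : PO p 1 (∑ j ∈ range M, f j) := by
    have h1 := key M le_rfl
    have h3 := sum_tail (le_refl M) f
    rw [Nat.sub_self, range_zero, sum_empty, zero_add] at h3
    rw [← h3] at h1
    have e : ∑ j ∈ range M, f j = 1 / 2 * (∑ j ∈ range M, f j + ∑ j ∈ range M, f j) := by ring
    rw [e]
    exact PO.mul0 (half h2) h1
  have h4 := sum_tail hk f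
  have e : ∑ j ∈ range (M - k), f j - ∑ j ∈ range k, f j =
      ∑ j ∈ range M, f j - (∑ i ∈ range k, f (M - 1 - i) + ∑ i ∈ range k, f i) := by
    rw [h4]; ring
  rw [e]
  exact hM.sub (key k hk)

/-- reflection of partial products -/
lemma prod_sym {m : ℕ} {f : ℕ → ℚ} (h0 : ∀ j < 2 * m, PO p 0 (f j))
    (h : ∀ j < 2 * m, PO p 1 (f (2 * m - 1 - j) * f j - 1)) {k : ℕ} (hk : k ≤ 2 * m) :
    PO p 1 (∏ j ∈ range (2 * m - k), f j - ∏ j ∈ range k, f j) := by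
  have key : ∀ k ≤ 2 * m, PO p 1 ((∏ i ∈ range k, f (2 * m - 1 - i)) * (∏ i ∈ range k, f i) - 1) := by
    intro k hk
    rw [← prod_mul_distrib]
    exact prod_one _ _ (fun j hj => h j (by have := mem_range.1 hj; omega))
  have hM : PO p 1 (∏ j ∈ range (2 * m), f j - 1) := by
    have h1 := key m (by omega)
    have h3 := prod_tail (M := 2 * m) (k := m) (by omega) f
    rw [show 2 * m - m = m by omega] at h3
    rw [h3, mul_comm]
    exact h1
  have h4 := prod_tail hk f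
  have hA : PO p 0 (∏ j ∈ range (2 * m - k), f j) := by
    have : ∀ s : Finset ℕ, (∀ j ∈ s, j < 2 * m) → PO p 0 (∏ j ∈ s, f j) := by
      intro s
      induction s using Finset.induction_on with
      | empty => intro _; simpa using PO.one (p := p)
      | insert i s hi ih =>
        intro hs
        rw [prod_insert hi]
        exact (h0 i (hs i (mem_insert_self i s))).mul0 (ih (fun j hj => hs j (mem_insert_of_mem hj)))
    exact this _ (fun j hj => by have := mem_range.1 hj; omega)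
  have hB : PO p 0 (∏ j ∈ range k, f j) := by
    have : ∀ s : Finset ℕ, (∀ j ∈ s, j < 2 * m) → PO p 0 (∏ j ∈ s, f j) := by
      intro s
      induction s using Finset.induction_on with
      | empty => intro _; simpa using PO.one (p := p)
      | insert i s hi ih =>
        intro hs
        rw [prod_insert hi]
        exact (h0 i (hs i (mem_insert_self i s))).mul0 (ih (fun j hj => hs j (mem_insert_of_mem hj)))
    exact this _ (fun j hj => by have := mem_range.1 hj; omega)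
  set A := ∏ j ∈ range (2 * m - k), f j
  set B := ∏ j ∈ range k, f j
  set C := ∏ i ∈ range k, f (2 * m - 1 - i)
  have e : A - B = B * (∏ j ∈ range (2 * m), f j - 1) - A * (C * B - 1) := by
    rw [h4]; ring
  rw [e]
  exact (PO.mul0 hB hM).sub (PO.mul0 hA (key k hk))

lemma prod_int {s : Finset ℕ} {f : ℕ → ℚ} (h : ∀ j ∈ s, PO p 0 (f j)) : PO p 0 (∏ j ∈ s, f j) := by
  induction s using Finset.induction_on with
  | empty => simpa using PO.one (p := p)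
  | insert i s hi ih =>
    rw [prod_insert hi]
    exact (h i (mem_insert_self i s)).mul0 (ih (fun j hj => h j (mem_insert_of_mem hj)))

/-! ### the `(6k + ε)` sums -/

/-- the factors -/
def rr (ε : ℤ) (j : ℕ) : ℚ :=
  (((3 * j + ε) ^ 3 * (6 * j + 3) : ℤ) : ℚ) / (((3 * (j + 1)) ^ 3 * (6 * j + 3 + 2 * ε) : ℤ) : ℚ)

/-- the deformed factors -/
def rx (ε : ℤ) (P : ℚ) (j : ℕ) : ℚ :=
  ((3 * (j : ℚ) + ε) * ((3 * (j : ℚ) + ε) ^ 2 - P ^ 2) * (6 * j + 3)) /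
    ((3 * ((j : ℚ) + 1)) * ((3 * ((j : ℚ) + 1)) ^ 2 - P ^ 2) * (6 * j + 3 + 2 * ε))

/-- the exact evaluation -/
lemma exact_sum {ε : ℤ} (hε : ε = 1 ∨ ε = -1) {M : ℕ} {P : ℚ} (hP : P = 3 * M + ε) :
    ∑ k ∈ range (M + 1), (6 * (k : ℚ) + ε) * ∏ j ∈ range k, rx ε P j = P := by
  have hε2 : (ε : ℚ) ^ 2 = 1 := by rcases hε with h | h <;> rw [h] <;> norm_num
  have hε0 : (ε : ℚ) ≠ 0 := by rcases hε with h | h <;> rw [h] <;> norm_num
  have hz : ∀ z : ℤ, ¬ (3 : ℤ) ∣ z → (z : ℚ) ≠ 0 := by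
    intro z hz h
    apply hz
    have : z = 0 := by exact_mod_cast h
    rw [this]; exact dvd_zero _
  have ha : ∀ k : ℕ, 1 + (ε : ℚ) / 3 + k ≠ 0 := by
    intro k h
    apply hz (3 * (k + 1) + ε)
    · rcases hε with h | h <;> rw [h] <;> omega
    · push_cast; linarith
  have hb : ∀ k : ℕ, 1 + (ε : ℚ) / 3 - ((ε : ℚ) + P) / 3 + k ≠ 0 := by
    intro k h
    apply hz (3 * (k + 1) - (3 * M + ε))
    · rcases hε with h | h <;> rw [h] <;> omega
    · rw [hP] at h; push_cast; linarith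
  have hc : ∀ k : ℕ, 1 + (ε : ℚ) / 3 - 1 / 2 + k ≠ 0 := by
    intro k h
    apply hz (6 * k + 3 + 2 * ε)
    · rcases hε with h | h <;> rw [h] <;> omega
    · push_cast; linarith
  have h := vwp_sum ha hb hc M
  have e1 : ∀ k ∈ range (M + 1), (6 * (k : ℚ) + ε) * ∏ j ∈ range k, rx ε P j =
      3 * (((ε : ℚ) / 3 + 2 * k) * vwp ((ε : ℚ) / 3) (((ε : ℚ) + P) / 3) (1 / 2) M k) := by
    intro k _
    have e2 : ∏ j ∈ range k, rx ε P j = vwp ((ε : ℚ) / 3) (((ε : ℚ) + P) / 3) (1 / 2) M k := by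
      unfold vwp rx
      apply prod_congr rfl
      intro j _
      have h1 := ha (M + j)
      have h2 := hb j
      have h3 := hc j
      have hj : ((j : ℚ) + 1) ≠ 0 := by positivity
      have h1' : 3 * ((j : ℚ) + 1) + P ≠ 0 := by
        rw [hP]; intro h; apply h1; push_cast; linarith
      have h2' : 3 * ((j : ℚ) + 1) - P ≠ 0 := by
        intro h; apply h2; linarith
      have h3' : 6 * (j : ℚ) + 3 + 2 * ε ≠ 0 := by
        intro h; apply h3; linarith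
      have e3 : (3 * ((j : ℚ) + 1)) ^ 2 - P ^ 2 = (3 * ((j : ℚ) + 1) + P) * (3 * ((j : ℚ) + 1) - P) := by ring
      have e4 : 1 + (ε : ℚ) / 3 + M + j = (3 * ((j : ℚ) + 1) + P) / 3 := by rw [hP]; ring
      have e5 : 1 + (ε : ℚ) / 3 - ((ε : ℚ) + P) / 3 + j = (3 * ((j : ℚ) + 1) - P) / 3 := by ring
      have e6 : 1 + (ε : ℚ) / 3 - 1 / 2 + j = (6 * (j : ℚ) + 3 + 2 * ε) / 6 := by ring
      have e7 : (j : ℚ) - M = (3 * j + ε - P) / 3 := by rw [hP]; ring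
      rw [e3, e4, e5, e6, e7]
      field_simp
      ring
    rw [e2]; ring
  rw [sum_congr rfl e1, ← mul_sum, h]
  have e8 : ∏ j ∈ range M, ((1 + (ε : ℚ) / 3 + j) * (1 + (ε : ℚ) / 3 - ((ε : ℚ) + P) / 3 - 1 / 2 + j)) /
      ((1 + (ε : ℚ) / 3 - ((ε : ℚ) + P) / 3 + j) * (1 + (ε : ℚ) / 3 - 1 / 2 + j)) = ε * P := by
    rw [prod_div_distrib, prod_mul_distrib, prod_mul_distrib]
    have hC : ∏ j ∈ range M, (1 + (ε : ℚ) / 3 - ((ε : ℚ) + P) / 3 + j) = ∏ j ∈ range M, (-1 * ((ε : ℚ) / 3 + j)) := by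
      rw [← Finset.prod_range_reflect]
      apply prod_congr rfl
      intro j hj
      have hj' := mem_range.1 hj
      rw [Nat.cast_sub (by omega), Nat.cast_sub (by omega), hP]
      push_cast; ring
    have hB : ∏ j ∈ range M, (1 + (ε : ℚ) / 3 - ((ε : ℚ) + P) / 3 - 1 / 2 + j) =
        ∏ j ∈ range M, (-1 * (1 + (ε : ℚ) / 3 - 1 / 2 + j)) := by
      rw [← Finset.prod_range_reflect]
      apply prod_congr rfl
      intro j hj
      have hj' := mem_range.1 hj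
      rw [Nat.cast_sub (by omega), Nat.cast_sub (by omega), hP]
      push_cast; ring
    have hA : ∏ j ∈ range M, (1 + (ε : ℚ) / 3 + j) = (∏ j ∈ range M, ((ε : ℚ) / 3 + j)) * (ε * P) := by
      have : ∀ m : ℕ, (ε : ℚ) / 3 * ∏ j ∈ range m, (1 + (ε : ℚ) / 3 + j) = (∏ j ∈ range m, ((ε : ℚ) / 3 + j)) * ((ε : ℚ) / 3 + m) := by
        intro m
        induction m with
        | zero => simp
        | succ m ih =>
          rw [prod_range_succ, prod_range_succ, ← mul_assoc, ih]; push_cast; ring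
      have h1 := this M
      have h2 : (ε : ℚ) / 3 + M = ε / 3 * (ε * P) := by
        rw [hP]
        have : (ε : ℚ) / 3 * (ε * (3 * M + ε)) = (ε ^ 2) * (3 * M + ε) / 3 := by ring
        rw [this, hε2]; ring
      rw [h2] at h1
      have h3 : (ε : ℚ) / 3 ≠ 0 := by positivity
      apply mul_left_cancel₀ h3
      rw [h1]; ring
    have hprodD : ∏ j ∈ range M, (1 + (ε : ℚ) / 3 - 1 / 2 + j) ≠ 0 := prod_ne_zero_iff.2 (fun j _ => hc j)
    have hprodE : ∏ j ∈ range M, ((ε : ℚ) / 3 + j) ≠ 0 := by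
      apply prod_ne_zero_iff.2
      intro j _ h
      apply hz (3 * j + ε)
      · rcases hε with h | h <;> rw [h] <;> omega
      · push_cast; linarith
    rw [hC, hB, hA, prod_mul_distrib, prod_mul_distrib]
    simp only [prod_const, card_range]
    have h5 : ((-1 : ℚ)) ^ M ≠ 0 := by positivity
    generalize ∏ j ∈ range M, (1 + (ε : ℚ) / 3 - 1 / 2 + j) = D at *
    generalize ∏ j ∈ range M, ((ε : ℚ) / 3 + j) = E at *
    field_simp
  rw [e8]
  have : 3 * ((ε : ℚ) / 3 * (ε * P)) = ε ^ 2 * P := by ring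
  rw [this, hε2, one_mul]

lemma frac_aux (N1 N2 : ℚ) {a b c d : ℚ} (ha : a ≠ 0) (hb : b ≠ 0) (hc : c ≠ 0) (hd : d ≠ 0) :
    N1 * (a⁻¹ ^ 3 * b⁻¹) * (N2 * (c⁻¹ ^ 3 * d⁻¹)) - 1 =
      (N1 * N2 - a ^ 3 * b * (c ^ 3 * d)) * ((a⁻¹ ^ 3 * b⁻¹) * (c⁻¹ ^ 3 * d⁻¹)) := by
  field_simp

/-- the congruence for the `(6k + ε)` sums -/
theorem main_sum {ε : ℤ} (hε : ε = 1 ∨ ε = -1) {m : ℕ} (hP : (p : ℤ) = 6 * m + ε) :
    PO p 3 (∑ k ∈ range (2 * m + 1), (6 * (k : ℚ) + ε) * ∏ j ∈ range k, rr ε j - p) := by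
  have hp1 := hp.out.one_lt
  have h2 : p ≠ 2 := by
    rintro rfl
    rcases hε with rfl | rfl <;> omega
  have hPQ : (p : ℚ) = 3 * ((2 * m : ℕ) : ℚ) + ε := by
    have : ((p : ℤ) : ℚ) = ((6 * m + ε : ℤ) : ℚ) := by rw [hP]
    push_cast at this ⊢
    linarith
  have hexact := exact_sum hε hPQ
  -- units
  have hsmall : ∀ z : ℤ, z ≠ 0 → -(p : ℤ) < z → z < p → ¬ (p : ℤ) ∣ z := by
    intro z h0 h1 h3 hd
    obtain ⟨y, hy⟩ := hd
    have hpp : (0 : ℤ) < p := by exact_mod_cast hp.out.pos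
    rcases lt_trichotomy y 0 with hy0 | hy0 | hy0
    · have : (p : ℤ) * y ≤ (p : ℤ) * (-1) := mul_le_mul_of_nonneg_left (by omega) hpp.le
      omega
    · rw [hy0, mul_zero] at hy; exact h0 hy
    · have : (p : ℤ) * 1 ≤ (p : ℤ) * y := mul_le_mul_of_nonneg_left (by omega) hpp.le
      omega
  have u1 : ∀ j < 2 * m, ¬ (p : ℤ) ∣ 3 * j + ε := by
    intro j hj
    apply hsmall
    · rcases hε with rfl | rfl <;> omega
    · rcases hε with rfl | rfl <;> omega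
    · rcases hε with rfl | rfl <;> omega
  have u2 : ∀ j < 2 * m, ¬ (p : ℤ) ∣ 3 * (j + 1) := by
    intro j hj hd
    rcases (Nat.prime_iff_prime_int.1 hp.out).dvd_or_dvd hd with h | h
    · have : ¬ (p : ℤ) ∣ 3 := by
        intro h3
        have h4 : p ∣ 3 := by exact_mod_cast h3
        have := Nat.le_of_dvd (by norm_num) h4
        rcases hε with rfl | rfl <;> omega
      exact this h
    · refine hsmall _ ?_ ?_ ?_ h
      · omega
      · omega
      · rcases hε with rfl | rfl <;> omega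
  have u3 : ∀ j < 2 * m, ¬ (p : ℤ) ∣ 6 * j + 3 + 2 * ε := by
    intro j hj hd
    obtain ⟨y, hy⟩ := hd
    have hpp : (0 : ℤ) < p := by exact_mod_cast hp.out.pos
    have hlt : 6 * (j : ℤ) + 3 + 2 * ε < 2 * p := by
      rcases hε with rfl | rfl <;> omega
    have hgt : 0 < 6 * (j : ℤ) + 3 + 2 * ε := by
      rcases hε with rfl | rfl <;> omega
    have y1 : 0 < y := by
      by_contra h
      have : (p : ℤ) * y ≤ 0 := mul_nonpos_of_nonneg_of_nonpos hpp.le (by omega)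
      omega
    have y2 : y < 2 := by
      by_contra h
      have : (p : ℤ) * 2 ≤ (p : ℤ) * y := mul_le_mul_of_nonneg_left (by omega) hpp.le
      omega
    have y3 : y = 1 := by omega
    rw [y3, mul_one, hP] at hy
    rcases hε with h | h <;> rw [h] at hy <;> omega
  have i1 : ∀ j < 2 * m, PO p 0 ((3 * (j : ℚ) + ε)⁻¹) := by
    intro j hj
    have := inv_int (p := p) (u1 j hj)
    push_cast at this; exact this
  have i2 : ∀ j < 2 * m, PO p 0 ((3 * ((j : ℚ) + 1))⁻¹) := by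
    intro j hj
    have := inv_int (p := p) (u2 j hj)
    push_cast at this; exact this
  have i3 : ∀ j < 2 * m, PO p 0 ((6 * (j : ℚ) + 3 + 2 * ε)⁻¹) := by
    intro j hj
    have := inv_int (p := p) (u3 j hj)
    push_cast at this; exact this
  have n1 : ∀ j < 2 * m, (3 * (j : ℚ) + ε) ≠ 0 := by
    intro j hj h
    apply u1 j hj
    have : (3 * (j : ℤ) + ε) = 0 := by exact_mod_cast h
    rw [this]; exact dvd_zero _
  have n3 : ∀ j < 2 * m, (6 * (j : ℚ) + 3 + 2 * ε) ≠ 0 := by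
    intro j hj h
    apply u3 j hj
    have : (6 * (j : ℤ) + 3 + 2 * ε) = 0 := by exact_mod_cast h
    rw [this]; exact dvd_zero _
  -- the factors
  have hr : ∀ j, rr ε j = ((3 * (j : ℚ) + ε) ^ 3 * (6 * j + 3)) * ((3 * ((j : ℚ) + 1))⁻¹ ^ 3 * (6 * (j : ℚ) + 3 + 2 * ε)⁻¹) := by
    intro j
    unfold rr
    push_cast
    rw [div_eq_mul_inv, mul_inv, inv_pow]
  have r0 : ∀ j < 2 * m, PO p 0 (rr ε j) := by
    intro j hj
    rw [hr]
    refine PO.mul0 ?_ (((i2 j hj).pow0 3).mul0 (i3 j hj))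
    have := of_int (p := p) ((3 * j + ε) ^ 3 * (6 * j + 3))
    push_cast at this; exact this
  have rsym : ∀ j < 2 * m, PO p 1 (rr ε (2 * m - 1 - j) * rr ε j - 1) := by
    intro j hj
    have hj' : 2 * m - 1 - j < 2 * m := by omega
    have c1 : (((2 * m - 1 - j : ℕ) : ℤ)) = 2 * m - 1 - j := by omega
    have ha : PO p 1 (((((3 * ((2 * m - 1 - j : ℕ) : ℤ) + ε) ^ 3 * (6 * ((2 * m - 1 - j : ℕ) : ℤ) + 3)) * ((3 * (j : ℤ) + ε) ^ 3 * (6 * j + 3)) -
        ((3 * (((2 * m - 1 - j : ℕ) : ℤ) + 1)) ^ 3 * (6 * ((2 * m - 1 - j : ℕ) : ℤ) + 3 + 2 * ε)) *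
          ((3 * ((j : ℤ) + 1)) ^ 3 * (6 * j + 3 + 2 * ε)) : ℤ)) : ℚ) := by
      apply PO_of_dvd
      rw [pow_one, ← ZMod.intCast_zmod_eq_zero_iff_dvd, c1]
      have hm6 : (6 * (m : ZMod p)) = -(ε : ZMod p) := by
        have h5 : ((p : ℤ) : ZMod p) = ((6 * m + ε : ℤ) : ZMod p) := by rw [hP]
        push_cast at h5
        rw [ZMod.natCast_self] at h5
        linear_combination -h5
      push_cast
      have e1 : (3 * (2 * (m : ZMod p) - 1 - j) + ε) = -(3 * ((j : ZMod p) + 1)) := by linear_combination hm6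
      have e2 : (6 * (2 * (m : ZMod p) - 1 - j) + 3) = -(6 * j + 3 + 2 * ε) := by linear_combination 2 * hm6
      have e3 : (3 * ((2 * (m : ZMod p) - 1 - j) + 1)) = -(3 * (j : ZMod p) + ε) := by linear_combination hm6
      have e4 : (6 * (2 * (m : ZMod p) - 1 - j) + 3 + 2 * ε) = -(6 * j + 3) := by linear_combination 2 * hm6
      rw [e4, e1, e2, e3]
      ring
    have hu : PO p 0 ((((3 * ((2 * m - 1 - j : ℕ) : ℚ) + 3)⁻¹ ^ 3 * (6 * ((2 * m - 1 - j : ℕ) : ℚ) + 3 + 2 * ε)⁻¹)) *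
        ((3 * ((j : ℚ) + 1))⁻¹ ^ 3 * (6 * (j : ℚ) + 3 + 2 * ε)⁻¹)) := by
      have h5 := i2 _ hj'
      rw [mul_add, mul_one] at h5
      exact (((h5.pow0 3).mul0 (i3 _ hj'))).mul0 (((i2 j hj).pow0 3).mul0 (i3 j hj))
    have e : rr ε (2 * m - 1 - j) * rr ε j - 1 =
        ((((3 * ((2 * m - 1 - j : ℕ) : ℤ) + ε) ^ 3 * (6 * ((2 * m - 1 - j : ℕ) : ℤ) + 3)) * ((3 * (j : ℤ) + ε) ^ 3 * (6 * j + 3)) -
        ((3 * (((2 * m - 1 - j : ℕ) : ℤ) + 1)) ^ 3 * (6 * ((2 * m - 1 - j : ℕ) : ℤ) + 3 + 2 * ε)) *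
          ((3 * ((j : ℤ) + 1)) ^ 3 * (6 * j + 3 + 2 * ε)) : ℤ) : ℚ) *
        ((((3 * ((2 * m - 1 - j : ℕ) : ℚ) + 3)⁻¹ ^ 3 * (6 * ((2 * m - 1 - j : ℕ) : ℚ) + 3 + 2 * ε)⁻¹)) *
        ((3 * ((j : ℚ) + 1))⁻¹ ^ 3 * (6 * (j : ℚ) + 3 + 2 * ε)⁻¹)) := by
      rw [hr, hr]
      have h6 := n3 _ hj'
      have h7 := n3 _ hj
      have h8 : 3 * ((((2 * m - 1 - j : ℕ) : ℚ)) + 1) ≠ 0 := by positivity
      have h9 : 3 * ((j : ℚ) + 1) ≠ 0 := by positivity
      have h12 := frac_aux ((3 * (((2 * m - 1 - j : ℕ) : ℚ)) + ε) ^ 3 * (6 * (((2 * m - 1 - j : ℕ) : ℚ)) + 3))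
        ((3 * (j : ℚ) + ε) ^ 3 * (6 * j + 3)) h8 h6 h9 h7
      have h13 : 3 * ((((2 * m - 1 - j : ℕ) : ℚ)) + 1) = 3 * (((2 * m - 1 - j : ℕ) : ℚ)) + 3 := by ring
      rw [h13] at h12 ⊢
      rw [h12]
      push_cast
      rw [h13]
    rw [e]
    exact ha.mul0' hu
  have wsym : ∀ k ≤ 2 * m, PO p 1 (∏ j ∈ range (2 * m - k), rr ε j - ∏ j ∈ range k, rr ε j) :=
    fun k hk => prod_sym r0 rsym hk
  -- the second order coefficients
  set f : ℕ → ℚ := fun j => 1 / (3 * ((j : ℚ) + 1)) ^ 2 - 1 / (3 * (j : ℚ) + ε) ^ 2 with hf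
  have fsym : ∀ j < 2 * m, PO p 1 (f (2 * m - 1 - j) + f j) := by
    intro j hj
    have hj' : 2 * m - 1 - j < 2 * m := by omega
    have c1 : (((2 * m - 1 - j : ℕ) : ℚ)) = 2 * m - 1 - j := by
      rw [Nat.cast_sub (by omega), Nat.cast_sub (by omega)]; push_cast; ring
    have e1 : 3 * ((((2 * m - 1 - j : ℕ) : ℚ)) + 1) = (p : ℚ) - (3 * j + ε) := by
      rw [c1, hPQ]; push_cast; ring
    have e2 : 3 * (((2 * m - 1 - j : ℕ) : ℚ)) + ε = (p : ℚ) - 3 * ((j : ℚ) + 1) := by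
      rw [c1, hPQ]; push_cast; ring
    have key : ∀ x : ℚ, x ≠ 0 → PO p 0 x⁻¹ → PO p 1 (1 / ((p : ℚ) - x) ^ 2 - 1 / x ^ 2) := by
      intro x hx0 hx
      have hy : PO p 1 ((p : ℚ) * x⁻¹) := p_PO.mul0' hx
      have h := one_sub_inv_pow (p := p) 2 le_rfl hy
      have hne := one_sub_ne hy
      have e : 1 / ((p : ℚ) - x) ^ 2 - 1 / x ^ 2 =
          x⁻¹ ^ 2 * (((1 - (p : ℚ) * x⁻¹)⁻¹ ^ 2 - (1 + ((2 : ℕ) : ℚ) * ((p : ℚ) * x⁻¹))) + ((2 : ℕ) : ℚ) * ((p : ℚ) * x⁻¹)) := by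
        have e1 : ((p : ℚ) - x) ^ 2 = x ^ 2 * (1 - (p : ℚ) * x⁻¹) ^ 2 := by field_simp; ring
        rw [e1, inv_pow, inv_pow]
        field_simp
        ring
      rw [e]
      exact PO.mul0 (hx.pow0 2) ((h.mono (by omega)).add (PO.mul0 (of_nat 2) hy))
    have e3 : f (2 * m - 1 - j) + f j = (1 / ((p : ℚ) - (3 * j + ε)) ^ 2 - 1 / (3 * (j : ℚ) + ε) ^ 2) -
        (1 / ((p : ℚ) - 3 * ((j : ℚ) + 1)) ^ 2 - 1 / (3 * ((j : ℚ) + 1)) ^ 2) := by
      simp only [hf]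
      rw [e1, e2]; ring
    rw [e3]
    exact (key _ (n1 j hj) (i1 j hj)).sub (key _ (by positivity) (i2 j hj))
  have esym : ∀ k ≤ 2 * m, PO p 1 (∑ j ∈ range (2 * m - k), f j - ∑ j ∈ range k, f j) :=
    fun k hk => sum_sym h2 fsym hk
  have f0 : ∀ j < 2 * m, PO p 0 (f j) := by
    intro j hj
    simp only [hf]
    rw [one_div, one_div, ← inv_pow, ← inv_pow]
    exact ((i2 j hj).pow0 2).sub ((i1 j hj).pow0 2)
  have w0 : ∀ k ≤ 2 * m, PO p 0 (∏ j ∈ range k, rr ε j) :=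
    fun k hk => prod_int (fun j hj => r0 j (by have := mem_range.1 hj; omega))
  have s0 : ∀ k ≤ 2 * m, PO p 0 (∑ j ∈ range k, f j) :=
    fun k hk => PO.sum _ _ (fun j hj => f0 j (by have := mem_range.1 hj; omega))
  -- the second order sum
  have hT : PO p 1 (∑ k ∈ range (2 * m + 1), (6 * (k : ℚ) + ε) * ((∏ j ∈ range k, rr ε j) * ∑ j ∈ range k, f j)) := by
    set g : ℕ → ℚ := fun k => (6 * (k : ℚ) + ε) * ((∏ j ∈ range k, rr ε j) * ∑ j ∈ range k, f j) with hg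
    have e1 : ∑ k ∈ range (2 * m + 1), g k = 1 / 2 * ∑ k ∈ range (2 * m + 1), (g (2 * m + 1 - 1 - k) + g k) := by
      rw [sum_add_distrib, Finset.sum_range_reflect g (2 * m + 1)]; ring
    rw [e1]
    refine PO.mul0 (half h2) (PO.sum _ _ ?_)
    intro k hk
    have hk' : k ≤ 2 * m := by have := mem_range.1 hk; omega
    rw [show 2 * m + 1 - 1 - k = 2 * m - k by omega]
    simp only [hg]
    have c1 : ((2 * m - k : ℕ) : ℚ) = 2 * m - k := by rw [Nat.cast_sub hk']; push_cast; ring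
    have e2 : 6 * ((2 * m - k : ℕ) : ℚ) + ε = 2 * p - (6 * k + ε) := by
      rw [c1, hPQ]; push_cast; ring
    rw [e2]
    have hw := wsym k hk'
    have hs := esym k hk'
    have hw0 := w0 k hk'
    have hw1 := w0 (2 * m - k) (by omega)
    have hs0 := s0 k hk'
    have hs1 := s0 (2 * m - k) (by omega)
    set A := ∏ j ∈ range (2 * m - k), rr ε j
    set B := ∏ j ∈ range k, rr ε j
    set C := ∑ j ∈ range (2 * m - k), f j
    set D := ∑ j ∈ range k, f j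
    have e3 : (2 * (p : ℚ) - (6 * k + ε)) * (A * C) + (6 * k + ε) * (B * D) =
        (p : ℚ) * (2 * (A * C)) - ((6 * k + ε : ℤ) : ℚ) * ((A - B) * C + B * (C - D)) := by
      push_cast; ring
    rw [e3]
    refine PO.sub (p_PO.mul0' (PO.mul0 ?_ (hw1.mul0 hs1))) (PO.mul0 (of_int _) ?_)
    · exact_mod_cast of_nat (p := p) 2
    · exact (hw.mul0' hs1).add (PO.mul0 hw0 hs)
  -- expansion
  have hexp : ∀ k ≤ 2 * m, PO p 4 (∏ j ∈ range k, rx ε p j - (∏ j ∈ range k, rr ε j) * (1 + (p : ℚ) ^ 2 * ∑ j ∈ range k, f j)) := by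
    intro k hk
    -- `rx = rr * (1 + u)`
    set u : ℕ → ℚ := fun j => (1 - (p : ℚ) ^ 2 * (3 * (j : ℚ) + ε)⁻¹ ^ 2) * (1 - (p : ℚ) ^ 2 * (3 * ((j : ℚ) + 1))⁻¹ ^ 2)⁻¹ - 1 with hu
    have hy : ∀ j < 2 * m, PO p 2 ((p : ℚ) ^ 2 * (3 * (j : ℚ) + ε)⁻¹ ^ 2) :=
      fun j hj => (ppow 2).mul0' ((i1 j hj).pow0 2)
    have hz : ∀ j < 2 * m, PO p 2 ((p : ℚ) ^ 2 * (3 * ((j : ℚ) + 1))⁻¹ ^ 2) :=
      fun j hj => (ppow 2).mul0' ((i2 j hj).pow0 2)
    have hrx : ∀ j < 2 * m, rx ε p j = rr ε j * (1 + u j) := by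
      intro j hj
      have hz1 := one_sub_ne ((hz j hj).mono (by omega))
      have hn1 := n1 j hj
      have hn3 := n3 j hj
      have hn2 : (3 * ((j : ℚ) + 1)) ≠ 0 := by positivity
      simp only [hu]
      rw [hr]
      unfold rx
      have e1 : (3 * (j : ℚ) + ε) ^ 2 - (p : ℚ) ^ 2 = (3 * (j : ℚ) + ε) ^ 2 * (1 - (p : ℚ) ^ 2 * (3 * (j : ℚ) + ε)⁻¹ ^ 2) := by
        generalize (3 * (j : ℚ) + ε) = X at *
        field_simp
      have e2 : (3 * ((j : ℚ) + 1)) ^ 2 - (p : ℚ) ^ 2 = (3 * ((j : ℚ) + 1)) ^ 2 * (1 - (p : ℚ) ^ 2 * (3 * ((j : ℚ) + 1))⁻¹ ^ 2) := by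
        generalize (3 * ((j : ℚ) + 1)) = X at *
        field_simp
      rw [e1, e2]
      generalize (1 - (p : ℚ) ^ 2 * (3 * (j : ℚ) + ε)⁻¹ ^ 2) = A at *
      generalize (1 - (p : ℚ) ^ 2 * (3 * ((j : ℚ) + 1))⁻¹ ^ 2) = B at *
      generalize (3 * (j : ℚ) + ε) = X at *
      generalize (6 * (j : ℚ) + 3 + 2 * ε) = Y at *
      generalize (3 * ((j : ℚ) + 1)) = Z at *
      field_simp
      ring
    have hu2 : ∀ j < 2 * m, PO p 4 (u j - (p : ℚ) ^ 2 * f j) := by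
      intro j hj
      have hz1 := one_sub_ne ((hz j hj).mono (by omega))
      have hzi := inv_one_sub ((hz j hj).mono (show 1 ≤ 2 by omega))
      have e1 : u j - (p : ℚ) ^ 2 * f j =
          (((p : ℚ) ^ 2 * (3 * ((j : ℚ) + 1))⁻¹ ^ 2) * (((p : ℚ) ^ 2 * (3 * ((j : ℚ) + 1))⁻¹ ^ 2) - ((p : ℚ) ^ 2 * (3 * (j : ℚ) + ε)⁻¹ ^ 2))) *
          (1 - (p : ℚ) ^ 2 * (3 * ((j : ℚ) + 1))⁻¹ ^ 2)⁻¹ := by
        simp only [hu, hf]
        rw [one_div, one_div, ← inv_pow, ← inv_pow]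
        generalize (3 * ((j : ℚ) + 1))⁻¹ = z at *
        generalize (3 * (j : ℚ) + ε)⁻¹ = y at *
        field_simp
        ring
      rw [e1]
      exact ((hz j hj).mul ((hz j hj).sub (hy j hj))).mul0' hzi
    have hu1 : ∀ j < 2 * m, PO p 2 (u j) := by
      intro j hj
      have e1 : u j = (u j - (p : ℚ) ^ 2 * f j) + (p : ℚ) ^ 2 * f j := by ring
      rw [e1]
      exact ((hu2 j hj).mono (by omega)).add ((ppow 2).mul0' (f0 j hj))
    have e2 : ∏ j ∈ range k, rx ε p j = (∏ j ∈ range k, rr ε j) * ∏ j ∈ range k, (1 + u j) := by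
      rw [← prod_mul_distrib]
      apply prod_congr rfl
      intro j hj
      exact hrx j (by have := mem_range.1 hj; omega)
    rw [e2]
    have h1 := prod_one_add (p := p) (range k) u (k := 2) (fun j hj => hu1 j (by have := mem_range.1 hj; omega))
    have e3 : (∏ j ∈ range k, rr ε j) * ∏ j ∈ range k, (1 + u j) - (∏ j ∈ range k, rr ε j) * (1 + (p : ℚ) ^ 2 * ∑ j ∈ range k, f j) =
        (∏ j ∈ range k, rr ε j) * ((∏ j ∈ range k, (1 + u j) - (1 + ∑ j ∈ range k, u j)) +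
        ∑ j ∈ range k, (u j - (p : ℚ) ^ 2 * f j)) := by
      have e4 : ∑ j ∈ range k, (u j - (p : ℚ) ^ 2 * f j) = ∑ j ∈ range k, u j - (p : ℚ) ^ 2 * ∑ j ∈ range k, f j := by
        rw [Finset.mul_sum, ← Finset.sum_sub_distrib]
      rw [e4]; ring
    rw [e3]
    exact PO.mul0 (w0 k hk) (h1.add (PO.sum _ _ (fun j hj => hu2 j (by have := mem_range.1 hj; omega))))
  -- conclusion
  have e : ∑ k ∈ range (2 * m + 1), (6 * (k : ℚ) + ε) * ∏ j ∈ range k, rr ε j - p =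
      -(∑ k ∈ range (2 * m + 1), ((6 * k + ε : ℤ) : ℚ) * (∏ j ∈ range k, rx ε p j -
        (∏ j ∈ range k, rr ε j) * (1 + (p : ℚ) ^ 2 * ∑ j ∈ range k, f j))) -
      (p : ℚ) ^ 2 * ∑ k ∈ range (2 * m + 1), (6 * (k : ℚ) + ε) * ((∏ j ∈ range k, rr ε j) * ∑ j ∈ range k, f j) := by
    have h5 : (p : ℚ) = ∑ k ∈ range (2 * m + 1), (6 * (k : ℚ) + ε) * ∏ j ∈ range k, rx ε p j := hexact.symm
    have h6 : ∑ k ∈ range (2 * m + 1), (6 * (k : ℚ) + ε) * ∏ j ∈ range k, rr ε j - p =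
        ∑ k ∈ range (2 * m + 1), (6 * (k : ℚ) + ε) * ∏ j ∈ range k, rr ε j -
        ∑ k ∈ range (2 * m + 1), (6 * (k : ℚ) + ε) * ∏ j ∈ range k, rx ε p j := by rw [hexact]
    rw [h6, mul_sum, ← sum_sub_distrib, ← sum_neg_distrib, ← sum_sub_distrib]
    apply sum_congr rfl
    intro k _
    push_cast
    ring
  rw [e]
  refine PO.sub (PO.sum _ _ ?_).neg ?_
  · intro k hk
    exact PO.mul0 (of_int _) ((hexp k (by have := mem_range.1 hk; omega)).mono (by omega))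
  · exact (ppow 2).mul (k := 1) hT

end Pool.Agent.X14
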