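import Pool.Agent.X14.SixK

set_option autoImplicit false

namespace Pool.Agent.X14

open Finset Pool.Agent.H434R2 Pool.Agent.H434R2.PO

/-- rising factorial -/
def poch (a : ℚ) (k : ℕ) : ℚ := ∏ j ∈ range k, (a + j)

lemma sixk_term {ε : ℤ} (hε : ε = 1 ∨ ε = -1) (k : ℕ) :
    poch (ε / 3) k ^ 4 * ((2 * k).factorial : ℚ) / ((k.factorial : ℚ) ^ 4 * poch (2 * ε / 3) (2 * k)) =
      ∏ j ∈ range k, rr ε j := by
  induction k with
  | zero => simp [poch]
  | succ k ih =>
    rw [prod_range_succ, ← ih]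
    unfold poch rr
    rw [prod_range_succ, show 2 * (k + 1) = 2 * k + 1 + 1 by ring, prod_range_succ _ (2 * k + 1), prod_range_succ _ (2 * k),
      Nat.factorial_succ, Nat.factorial_succ (2 * k), Nat.factorial_succ k]
    have hk1 : (k : ℚ) + 1 ≠ 0 := by positivity
    have hkf : (k.factorial : ℚ) ≠ 0 := by positivity
    have hz : ∀ z : ℤ, ¬ (3 : ℤ) ∣ z → (z : ℚ) ≠ 0 := by
      intro z hz h
      apply hz
      have : z = 0 := by exact_mod_cast h
      rw [this]; exact dvd_zero _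
    have hP : ∏ j ∈ range (2 * k), (2 * (ε : ℚ) / 3 + j) ≠ 0 := by
      apply prod_ne_zero_iff.2
      intro j _ h
      apply hz (3 * j + 2 * ε)
      · rcases hε with h | h <;> rw [h] <;> omega
      · push_cast; linarith
    have h1 : (3 * (k : ℚ) + ε) ≠ 0 := by
      intro h
      apply hz (3 * k + ε)
      · rcases hε with h | h <;> rw [h] <;> omega
      · push_cast; linarith
    have h2 : (6 * (k : ℚ) + 3 + 2 * ε) ≠ 0 := by
      intro h
      apply hz (6 * k + 3 + 2 * ε)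
      · rcases hε with h | h <;> rw [h] <;> omega
      · push_cast; linarith
    push_cast
    have e1 : 2 * (ε : ℚ) / 3 + 2 * (k : ℚ) = 2 * (3 * k + ε) / 3 := by ring
    have e2 : 2 * (ε : ℚ) / 3 + (2 * (k : ℚ) + 1) = (6 * k + 3 + 2 * ε) / 3 := by ring
    have e3 : (ε : ℚ) / 3 + (k : ℚ) = (3 * k + ε) / 3 := by ring
    rw [e1, e2, e3]
    generalize ∏ j ∈ range (2 * k), (2 * (ε : ℚ) / 3 + j) = A at *
    generalize ∏ x ∈ range k, ((ε : ℚ) / 3 + x) = B at *
    generalize (3 * (k : ℚ) + ε) = X at *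
    generalize (6 * (k : ℚ) + 3 + 2 * ε) = Y at *
    field_simp
    ring

variable {p : ℕ} [hp : Fact p.Prime]

lemma not_dvd_den {k : ℕ} {x : ℚ} (h : PO p k x) : ¬ p ∣ (x / (p : ℚ) ^ k).den := by
  obtain ⟨r, hr, rfl⟩ := exists_rep h
  have hp0 : (p : ℚ) ^ k ≠ 0 := pow_ne_zero _ (by exact_mod_cast hp.out.ne_zero)
  rw [mul_div_cancel_left₀ _ hp0]
  intro hd
  have := Nat.dvd_gcd hd (dvd_refl p)
  rw [hr] at this
  exact hp.out.one_lt.ne' (Nat.dvd_one.1 this)

end Pool.Agent.X14
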