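import Mathlib

set_option autoImplicit false

/-! Algebra for sums of generalized central trinomial coefficients. -/

namespace Pool.Agent.X14.TK

open Finset Polynomial

noncomputable section

/-- the generalized central trinomial coefficient: the coefficient of `x ^ n` in `(x ^ 2 + b x + c) ^ n` -/
def T (b c : ℤ) (n : ℕ) : ℤ := ((X ^ 2 + C b * X + C c : ℤ[X]) ^ n).coeff n

lemma T_expand (d k : ℤ) (m : ℕ) : T (d + 2 * k) (k ^ 2) m =
    ∑ i ∈ range (m + 1), (m.choose i : ℤ) * d ^ (m - i) * k ^ i * (i.centralBinom : ℤ) := by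
  have e : (X ^ 2 + C (d + 2 * k) * X + C (k ^ 2) : ℤ[X]) = (X + C k) ^ 2 + C d * X := by
    simp only [map_add, map_mul, map_pow]
    have : (C (2 : ℤ) : ℤ[X]) = 2 := rfl
    rw [this]; ring
  rw [T, e, add_pow, finsetSum_coeff]
  apply sum_congr rfl
  intro i hi
  have him : i ≤ m := by have := mem_range.1 hi; omega
  have e2 : ((X + C k) ^ 2) ^ i * (C d * X) ^ (m - i) * ((m.choose i : ℕ) : ℤ[X]) =
      (C (d ^ (m - i) * (m.choose i : ℤ)) * (X + C k) ^ (2 * i)) * X ^ (m - i) := by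
    rw [← pow_mul, mul_pow, map_mul, map_pow]
    have : (C ((m.choose i : ℕ) : ℤ) : ℤ[X]) = ((m.choose i : ℕ) : ℤ[X]) := by simp
    rw [this]; ring
  rw [e2, coeff_mul_X_pow', if_pos (by omega), coeff_C_mul, show m - (m - i) = i by omega, coeff_X_add_C_pow,
    show 2 * i - i = i by omega, Nat.centralBinom]
  ring

/-- signed binomial coefficients -/
def aa (n j : ℕ) : ℚ := (-1) ^ j * ((n + j).choose (2 * j) : ℚ)

/-- the expansion coefficients at the singular point -/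
def vv (n k : ℕ) : ℚ := (-1) ^ n * ((2 * n + 1 + k).choose (2 * k + 1) : ℚ)

lemma ch2 (N m : ℕ) : ((N + 1).choose (m + 2) : ℚ) * (((m : ℚ) + 2) * (m + 1)) = (N.choose m : ℚ) * (((N : ℚ) + 1) * (N - m)) := by
  have h1 : ((N + 1).choose (m + 2) : ℚ) * (m + 2) = (N + 1) * (N.choose (m + 1) : ℚ) := by
    have := Nat.add_one_mul_choose_eq N (m + 1)
    have h : (((N + 1) * N.choose (m + 1) : ℕ) : ℚ) = (((N + 1).choose (m + 2) * (m + 2) : ℕ) : ℚ) := by exact_mod_cast this
    push_cast at h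
    linear_combination -h
  have h2 : (N.choose (m + 1) : ℚ) * (m + 1) = (N.choose m : ℚ) * (N - m) := by
    rcases le_or_gt m N with h | h
    · have := Nat.choose_succ_right_eq N m
      have h3 : ((N.choose (m + 1) * (m + 1) : ℕ) : ℚ) = ((N.choose m * (N - m) : ℕ) : ℚ) := by exact_mod_cast this
      push_cast [Nat.cast_sub h] at h3
      exact h3
    · rw [Nat.choose_eq_zero_of_lt h, Nat.choose_eq_zero_of_lt (by omega : N < m + 1)]
      simp
  linear_combination (m + 1) * h1 + (N + 1) * h2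

lemma cb_succ (k : ℕ) : ((k : ℚ) + 1) * ((k + 1).centralBinom : ℚ) = 2 * (2 * k + 1) * (k.centralBinom : ℚ) := by
  have := Nat.succ_mul_centralBinom_succ k
  exact_mod_cast this

lemma cb_ne (k : ℕ) : (k.centralBinom : ℚ) ≠ 0 := by exact_mod_cast (Nat.centralBinom_pos k).ne'

/-- the half-range base -/
lemma aa_eq (n j : ℕ) : aa n j * 16 ^ j = (j.centralBinom : ℚ) * ∏ i ∈ range j, (1 - (2 * (n : ℚ) + 1) ^ 2 / (2 * (i : ℚ) + 1) ^ 2) := by
  induction j with
  | zero => simp [aa]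
  | succ j ih =>
    have h1 := ch2 (n + j) (2 * j)
    rw [show n + j + 1 = n + (j + 1) by ring, show 2 * j + 2 = 2 * (j + 1) by ring] at h1
    have h2 : aa n (j + 1) * ((2 * j + 2) * (2 * j + 1)) = -(aa n j * ((n + j + 1) * (n - j))) := by
      rw [aa, aa, pow_succ]
      push_cast at h1
      linear_combination (-(-1 : ℚ) ^ j) * h1
    have h3 := cb_succ j
    have c1 : (2 * (j : ℚ) + 2) ≠ 0 := by positivity
    have c2 : (2 * (j : ℚ) + 1) ≠ 0 := by positivity
    have c3 : ((j : ℚ) + 1) ≠ 0 := by positivity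
    have h4 : aa n (j + 1) = -(aa n j * ((n + j + 1) * (n - j))) / ((2 * j + 2) * (2 * j + 1)) := by
      rw [eq_div_iff (mul_ne_zero c1 c2)]; exact h2
    have h5 : ((j + 1).centralBinom : ℚ) = 2 * (2 * j + 1) * (j.centralBinom : ℚ) / (j + 1) := by
      rw [eq_div_iff c3]; linear_combination h3
    rw [prod_range_succ, h4, h5, pow_succ]
    have e : -(aa n j * (((n : ℚ) + j + 1) * (n - j))) / ((2 * j + 2) * (2 * j + 1)) * (16 ^ j * 16) =
      (aa n j * 16 ^ j) * (-16 * (((n : ℚ) + j + 1) * (n - j)) / ((2 * j + 2) * (2 * j + 1))) := by ring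
    rw [e, ih]
    generalize ∏ i ∈ range j, (1 - (2 * (n : ℚ) + 1) ^ 2 / (2 * (i : ℚ) + 1) ^ 2) = P
    field_simp
    ring

lemma vv_eq (n k : ℕ) : vv n k * (k.centralBinom : ℚ) * (2 * k + 1) = (-1) ^ (n + k) * (2 * n + 1) *
    ∏ i ∈ range k, (1 - (2 * (n : ℚ) + 1) ^ 2 / ((i : ℚ) + 1) ^ 2) := by
  induction k with
  | zero => simp [vv]
  | succ k ih =>
    have h1 := ch2 (2 * n + 1 + k) (2 * k + 1)
    rw [show 2 * n + 1 + k + 1 = 2 * n + 1 + (k + 1) by ring, show 2 * k + 1 + 2 = 2 * (k + 1) + 1 by ring] at h1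
    have h2 : vv n (k + 1) * ((2 * k + 3) * (2 * k + 2)) = vv n k * ((2 * n + k + 2) * (2 * n - k)) := by
      rw [vv, vv]
      push_cast at h1
      linear_combination ((-1 : ℚ) ^ n) * h1
    have h3 := cb_succ k
    have c1 : (2 * (k : ℚ) + 2) ≠ 0 := by positivity
    have c2 : (2 * (k : ℚ) + 3) ≠ 0 := by positivity
    have c3 : ((k : ℚ) + 1) ≠ 0 := by positivity
    have c4 : (2 * (k : ℚ) + 1) ≠ 0 := by positivity
    have h4 : vv n (k + 1) = vv n k * ((2 * n + k + 2) * (2 * n - k)) / ((2 * k + 3) * (2 * k + 2)) := by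
      rw [eq_div_iff (mul_ne_zero c2 c1)]; exact h2
    have h5 : ((k + 1).centralBinom : ℚ) = 2 * (2 * k + 1) * (k.centralBinom : ℚ) / (k + 1) := by
      rw [eq_div_iff c3]; linear_combination h3
    rw [prod_range_succ, h4, h5, ← add_assoc n k 1, pow_succ]
    have e : vv n k * ((2 * (n : ℚ) + k + 2) * (2 * n - k)) / ((2 * k + 3) * (2 * k + 2)) * (2 * (2 * k + 1) * (k.centralBinom : ℚ) / (k + 1)) *
      (2 * ((k + 1 : ℕ) : ℚ) + 1) = (vv n k * (k.centralBinom : ℚ) * (2 * k + 1)) * (2 * ((2 * (n : ℚ) + k + 2) * (2 * n - k)) / ((2 * k + 2) * (k + 1))) := by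
      push_cast
      rw [show (2 * ((k : ℚ) + 1) + 1) = 2 * k + 3 by ring]
      field_simp
    rw [e, ih]
    generalize ∏ i ∈ range k, (1 - (2 * (n : ℚ) + 1) ^ 2 / ((i : ℚ) + 1) ^ 2) = P
    field_simp
    ring

/-! ### The Chebyshev expansion -/

section cheb

variable {R : Type*} [CommRing R]

def vs (w : R) (n N : ℕ) : R := ∑ j ∈ range N, (-1) ^ j * ((n + j).choose (2 * j) : R) * w ^ (2 * j)

lemma vs_ext (w : R) {n N : ℕ} (h : n + 1 ≤ N) : vs w n N = vs w n (n + 1) := by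
  rw [vs, vs]
  symm
  apply sum_subset
  · intro x hx; simp only [mem_range] at *; omega
  · intro x _ hx
    simp only [mem_range, not_lt] at hx
    rw [Nat.choose_eq_zero_of_lt (by omega)]
    simp

lemma vs_rec (w : R) (n : ℕ) : vs w (n + 2) (n + 3) = (2 - w ^ 2) * vs w (n + 1) (n + 2) - vs w n (n + 1) := by
  have e1 : vs w (n + 1) (n + 3) = vs w (n + 1) (n + 2) := vs_ext w (by omega)
  have e2 : vs w n (n + 3) = vs w n (n + 1) := vs_ext w (by omega)
  have key : vs w (n + 2) (n + 3) + vs w n (n + 3) - 2 * vs w (n + 1) (n + 3) + w ^ 2 * vs w (n + 1) (n + 2) = 0 := by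
    simp only [vs]
    rw [sum_range_succ' _ (n + 2), sum_range_succ' _ (n + 2), sum_range_succ' _ (n + 2)]
    simp only [mul_sum]
    have h : ∀ j : ℕ, (-1 : R) ^ (j + 1) * ((n + 2 + (j + 1)).choose (2 * (j + 1)) : R) * w ^ (2 * (j + 1)) +
        (-1) ^ (j + 1) * ((n + (j + 1)).choose (2 * (j + 1)) : R) * w ^ (2 * (j + 1)) -
        2 * ((-1) ^ (j + 1) * ((n + 1 + (j + 1)).choose (2 * (j + 1)) : R) * w ^ (2 * (j + 1))) +
        w ^ 2 * ((-1) ^ j * ((n + 1 + j).choose (2 * j) : R) * w ^ (2 * j)) = 0 := by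
      intro j
      have p1 : (n + 2 + (j + 1)).choose (2 * (j + 1)) = (n + 2 + j).choose (2 * j + 1) + (n + 2 + j).choose (2 * (j + 1)) := by
        rw [show n + 2 + (j + 1) = (n + 2 + j) + 1 by ring, show 2 * (j + 1) = (2 * j + 1) + 1 by ring, Nat.choose_succ_succ']
      have p2 : (n + 1 + (j + 1)).choose (2 * (j + 1)) = (n + 1 + j).choose (2 * j + 1) + (n + 1 + j).choose (2 * (j + 1)) := by
        rw [show n + 1 + (j + 1) = (n + 1 + j) + 1 by ring, show 2 * (j + 1) = (2 * j + 1) + 1 by ring, Nat.choose_succ_succ']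
      have p3 : (n + 2 + j).choose (2 * j + 1) = (n + 1 + j).choose (2 * j) + (n + 1 + j).choose (2 * j + 1) := by
        rw [show n + 2 + j = (n + 1 + j) + 1 by ring, Nat.choose_succ_succ']
      have p4 : (n + 2 + j).choose (2 * (j + 1)) = (n + 1 + (j + 1)).choose (2 * (j + 1)) := by
        rw [show n + 2 + j = n + 1 + (j + 1) by ring]
      have p5 : (n + (j + 1)).choose (2 * (j + 1)) = (n + 1 + j).choose (2 * (j + 1)) := by
        rw [show n + (j + 1) = n + 1 + j by ring]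
      rw [p1, p4, p5, p3, p2]
      push_cast
      ring
    have h' := Finset.sum_congr (rfl : range (n + 2) = range (n + 2)) (fun j (_ : j ∈ range (n + 2)) => h j)
    rw [sum_const_zero] at h'
    simp only [sum_add_distrib, sum_sub_distrib] at h'
    simp only [mul_zero, pow_zero, Nat.choose_zero_right, Nat.cast_one, mul_one]
    simp only [← mul_sum] at h' ⊢
    linear_combination h'
  rw [e1, e2] at key
  linear_combination key

lemma Qrec_coeff (m k : ℕ) : ((m + 2 + 1 + (k + 1)).choose (2 * (k + 1) + 1) : ℤ) =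
    2 * ((m + 1 + 1 + (k + 1)).choose (2 * (k + 1) + 1) : ℤ) + ((m + 1 + 1 + k).choose (2 * k + 1) : ℤ) -
      ((m + 1 + (k + 1)).choose (2 * (k + 1) + 1) : ℤ) := by
  have p1 : (m + 2 + 1 + (k + 1)).choose (2 * (k + 1) + 1) = (m + 3 + k).choose (2 * (k + 1)) + (m + 3 + k).choose (2 * (k + 1) + 1) := by
    rw [show m + 2 + 1 + (k + 1) = (m + 3 + k) + 1 by ring, Nat.choose_succ_succ']
  have p2 : (m + 1 + 1 + (k + 1)).choose (2 * (k + 1) + 1) = (m + 3 + k).choose (2 * (k + 1) + 1) := by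
    rw [show m + 1 + 1 + (k + 1) = m + 3 + k by ring]
  have p3 : (m + 3 + k).choose (2 * (k + 1) + 1) = (m + 2 + k).choose (2 * (k + 1)) + (m + 2 + k).choose (2 * (k + 1) + 1) := by
    rw [show m + 3 + k = (m + 2 + k) + 1 by ring, Nat.choose_succ_succ']
  have p4 : (m + 3 + k).choose (2 * (k + 1)) = (m + 2 + k).choose (2 * k + 1) + (m + 2 + k).choose (2 * (k + 1)) := by
    rw [show m + 3 + k = (m + 2 + k) + 1 by ring, show 2 * (k + 1) = (2 * k + 1) + 1 by ring, Nat.choose_succ_succ']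
  have p5 : (m + 1 + (k + 1)).choose (2 * (k + 1) + 1) = (m + 2 + k).choose (2 * (k + 1) + 1) := by
    rw [show m + 1 + (k + 1) = m + 2 + k by ring]
  have p6 : (m + 1 + 1 + k).choose (2 * k + 1) = (m + 2 + k).choose (2 * k + 1) := by
    rw [show m + 1 + 1 + k = m + 2 + k by ring]
  rw [p1, p2, p5, p6, p4, p3]
  push_cast
  ring

end cheb

def Qp (m : ℕ) : ℚ[X] := ∑ k ∈ range (m + 1), C ((m + 1 + k).choose (2 * k + 1) : ℚ) * X ^ k

lemma Qp_coeff (m k : ℕ) : (Qp m).coeff k = ((m + 1 + k).choose (2 * k + 1) : ℚ) := by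
  rw [Qp, finsetSum_coeff]
  simp only [coeff_C_mul, coeff_X_pow, mul_ite, mul_one, mul_zero]
  rw [sum_ite_eq]
  split_ifs with h
  · rfl
  · simp only [mem_range, not_lt] at h
    rw [Nat.choose_eq_zero_of_lt (by omega)]
    simp

lemma Qp_rec (m : ℕ) : Qp (m + 2) = (X + C 2) * Qp (m + 1) - Qp m := by
  ext k
  rw [coeff_sub, add_mul, coeff_add, coeff_C_mul, Qp_coeff, Qp_coeff, Qp_coeff]
  rcases k with _ | k
  · simp
    ring
  · rw [coeff_X_mul, Qp_coeff]
    have h := Qrec_coeff m k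
    have h' : ((m + 2 + 1 + (k + 1)).choose (2 * (k + 1) + 1) : ℚ) =
      2 * ((m + 1 + 1 + (k + 1)).choose (2 * (k + 1) + 1) : ℚ) + ((m + 1 + 1 + k).choose (2 * k + 1) : ℚ) -
      ((m + 1 + (k + 1)).choose (2 * (k + 1) + 1) : ℚ) := by exact_mod_cast h
    rw [h']
    ring

lemma vs_Qp (n : ℕ) : vs (X + C 2 : ℚ[X]) n (n + 1) = (-1) ^ n * Qp (2 * n) := by
  have h0 : vs (X + C 2 : ℚ[X]) 0 1 = (-1) ^ 0 * Qp (2 * 0) := by
    simp [vs, Qp]
  have h1 : vs (X + C 2 : ℚ[X]) 1 2 = (-1) ^ 1 * Qp (2 * 1) := by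
    have e0 : Qp 0 = 1 := by simp [Qp]
    have e1 : Qp 1 = X + C 2 := by
      have c2 : (C (2 : ℚ) : ℚ[X]) = 2 := rfl
      rw [c2]
      simp [Qp, sum_range_succ]
      ring
    have e2 : Qp 2 = (X + C 2) * (X + C 2) - 1 := by
      have := Qp_rec 0
      rw [e0, e1] at this
      exact this
    rw [mul_one, e2, vs, sum_range_succ, sum_range_one]
    simp
    ring
  have key : ∀ n, vs (X + C 2 : ℚ[X]) n (n + 1) = (-1) ^ n * Qp (2 * n) ∧
      vs (X + C 2 : ℚ[X]) (n + 1) (n + 1 + 1) = (-1) ^ (n + 1) * Qp (2 * (n + 1)) := by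
    intro n
    induction n with
    | zero => exact ⟨h0, h1⟩
    | succ n ih =>
      refine ⟨ih.2, ?_⟩
      have r := vs_rec (X + C 2 : ℚ[X]) n
      have i1 := ih.1
      have i2 := ih.2
      rw [show n + 1 + 1 + 1 = n + 3 by ring, show n + 1 + 1 = n + 2 by ring, r, i1]
      rw [show n + 1 + 1 = n + 2 by ring] at i2
      rw [i2]
      have q1 := Qp_rec (2 * n)
      have q2 := Qp_rec (2 * n + 1)
      have q3 := Qp_rec (2 * n + 2)
      rw [show 2 * (n + 2) = 2 * n + 2 + 2 by ring, show 2 * (n + 1) = 2 * n + 2 by ring, q3]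
      rw [show 2 * n + 1 + 2 = 2 * n + 2 + 1 by ring, show 2 * n + 1 + 1 = 2 * n + 2 by ring] at q2
      rw [q2]
      have e : Qp (2 * n) = (X + C 2) * Qp (2 * n + 1) - Qp (2 * n + 2) := by rw [q1]; ring
      rw [e, pow_succ, pow_add]
      ring
  exact (key n).1

/-- coefficient form of the Chebyshev expansion -/
theorem vv_sum (n k : ℕ) : ∑ j ∈ range (n + 1), aa n j * (2 ^ (2 * j - k) * ((2 * j).choose k : ℚ)) = vv n k := by
  have h := congrArg (fun f => coeff f k) (vs_Qp n)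
  simp only [vs] at h
  rw [finsetSum_coeff] at h
  have e1 : ((-1 : ℚ[X]) ^ n * Qp (2 * n)).coeff k = vv n k := by
    have : (-1 : ℚ[X]) ^ n = C ((-1 : ℚ) ^ n) := by simp
    rw [this, coeff_C_mul, Qp_coeff, vv]
  rw [e1] at h
  rw [← h]
  apply sum_congr rfl
  intro j _
  have : (-1 : ℚ[X]) ^ j * ((n + j).choose (2 * j) : ℚ[X]) = C (aa n j) := by
    rw [aa]; simp
  rw [this, coeff_C_mul, coeff_X_add_C_pow]

/-- exchanging the sums -/
lemma half_swap (u : ℕ → ℚ) (κ : ℤ) (n : ℕ) : ∑ j ∈ range (n + 1), u j * (T (2 + 2 * κ) (κ ^ 2) (2 * j) : ℚ) =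
    ∑ k ∈ range (2 * n + 1), (κ : ℚ) ^ k * (k.centralBinom : ℚ) * ∑ j ∈ range (n + 1), u j * (2 ^ (2 * j - k) * ((2 * j).choose k : ℚ)) := by
  simp only [mul_sum]
  rw [sum_comm]
  apply sum_congr rfl
  intro j hj
  have hj' := mem_range.1 hj
  rw [T_expand]
  push_cast
  rw [mul_sum]
  have hsub : range (2 * j + 1) ⊆ range (2 * n + 1) := by
    intro x hx; simp only [mem_range] at *; omega
  rw [← sum_subset hsub]
  · apply sum_congr rfl
    intro i _
    ring
  · intro x _ hx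
    simp only [mem_range, not_lt] at hx
    rw [Nat.choose_eq_zero_of_lt (by omega)]
    simp

end

end Pool.Agent.X14.TK
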