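import Pool.Agent.X14.SixK
import Pool.Agent.X14.TK1

set_option autoImplicit false

/-! `p`-adic evaluation of sums of generalized central trinomial coefficients. -/

namespace Pool.Agent.X14.TK

open Finset Polynomial Pool.Agent.H434R2 Pool.Agent.H434R2.PO

noncomputable section

set_option linter.unusedSectionVars false

variable {p : ℕ} [hp : Fact p.Prime]

section

variable {n : ℕ}

lemma p_cast (hn : p = 2 * n + 1) : (p : ℚ) = 2 * n + 1 := by rw [hn]; push_cast; ring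

lemma inv_odd (hn : p = 2 * n + 1) {k : ℕ} (hk : k < 2 * n + 1) (hkn : k ≠ n) : PO p 0 ((2 * (k : ℚ) + 1)⁻¹) := by
  have : PO p 0 (((2 * k + 1 : ℕ) : ℚ)⁻¹) := by
    apply inv_nat
    rintro ⟨c, hc⟩
    rcases Nat.lt_or_ge c 2 with h | h
    · interval_cases c
      · omega
      · omega
    · have : p * 2 ≤ p * c := Nat.mul_le_mul_left p h
      omega
  push_cast at this
  exact this

lemma p_div_odd (hn : p = 2 * n + 1) {k : ℕ} (hk : k < 2 * n + 1) : PO p 0 ((p : ℚ) / (2 * k + 1)) := by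
  rcases eq_or_ne k n with h | h
  · rw [h, ← p_cast hn, div_self (by exact_mod_cast hp.out.ne_zero)]
    exact one
  · rw [div_eq_mul_inv]
    exact (of_nat p).mul0 (inv_odd hn hk h)

lemma p_div_odd1 (hn : p = 2 * n + 1) {k : ℕ} (hk : k < 2 * n + 1) (hkn : k ≠ n) : PO p 1 ((p : ℚ) / (2 * k + 1)) := by
  rw [div_eq_mul_inv]
  exact p_PO.mul0' (inv_odd hn hk hkn)

lemma inv_16 (h2 : p ≠ 2) (k : ℕ) : PO p 0 (((16 : ℚ) ^ k)⁻¹) := by
  have : ((16 : ℚ) ^ k)⁻¹ = ((2 : ℚ)⁻¹ ^ 4) ^ k := by rw [← inv_pow]; norm_num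
  rw [this]
  have hh := half (p := p) h2
  rw [one_div] at hh
  exact (hh.pow0 4).pow0 k

lemma aa_int (j : ℕ) : PO p 0 (aa n j) := by
  have : aa n j = (((-1) ^ j * ((n + j).choose (2 * j) : ℤ) : ℤ) : ℚ) := by rw [aa]; push_cast; rfl
  rw [this]; exact of_int _

lemma prod_odd_PO (hn : p = 2 * n + 1) {j : ℕ} (hj : j ≤ n) :
    PO p 2 (∏ i ∈ range j, (1 - (2 * (n : ℚ) + 1) ^ 2 / (2 * (i : ℚ) + 1) ^ 2) - 1) := by
  apply prod_one
  intro i hi
  have hi' := mem_range.1 hi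
  rw [← p_cast hn]
  have e : (1 - (p : ℚ) ^ 2 / (2 * (i : ℚ) + 1) ^ 2) - 1 = -((p : ℚ) ^ 2 * ((2 * (i : ℚ) + 1)⁻¹) ^ 2) := by
    rw [inv_pow, div_eq_mul_inv]; ring
  rw [e]
  exact ((ppow 2).mul0' ((inv_odd hn (by omega) (by omega)).pow0 2)).neg

lemma prod_PO (hn : p = 2 * n + 1) {k : ℕ} (hk : k < p) :
    PO p 2 (∏ i ∈ range k, (1 - (2 * (n : ℚ) + 1) ^ 2 / ((i : ℚ) + 1) ^ 2) - 1) := by
  apply prod_one
  intro i hi
  have hi' := mem_range.1 hi
  rw [← p_cast hn]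
  have e : (1 - (p : ℚ) ^ 2 / ((i : ℚ) + 1) ^ 2) - 1 = -((p : ℚ) ^ 2 * (((i : ℚ) + 1)⁻¹) ^ 2) := by
    rw [inv_pow, div_eq_mul_inv]; ring
  rw [e]
  exact ((ppow 2).mul0' ((inv_succ (by omega)).pow0 2)).neg

/-- the base congruence -/
lemma base (hn : p = 2 * n + 1) {j : ℕ} (hj : j ≤ n) : PO p 2 ((j.centralBinom : ℚ) / 16 ^ j - aa n j) := by
  have h2 : p ≠ 2 := by omega
  have h := aa_eq n j
  have e : (j.centralBinom : ℚ) / 16 ^ j - aa n j = -((j.centralBinom : ℚ) * ((16 : ℚ) ^ j)⁻¹ *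
      (∏ i ∈ range j, (1 - (2 * (n : ℚ) + 1) ^ 2 / (2 * (i : ℚ) + 1) ^ 2) - 1)) := by
    have h16 : ((16 : ℚ) ^ j) ≠ 0 := by positivity
    have h3 : aa n j = (j.centralBinom : ℚ) * (∏ i ∈ range j, (1 - (2 * (n : ℚ) + 1) ^ 2 / (2 * (i : ℚ) + 1) ^ 2)) * ((16 : ℚ) ^ j)⁻¹ := by
      rw [← h]; field_simp
    rw [h3, div_eq_mul_inv]; ring
  rw [e]
  exact ((((of_nat _).mul0 (inv_16 h2 j))).mul0 (prod_odd_PO hn hj)).neg

/-- the master sum -/
def hh (n : ℕ) (x : ℚ) : ℚ := ∑ k ∈ range (2 * n + 1), (2 * (n : ℚ) + 1) / (2 * k + 1) * x ^ k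

lemma main_half (hn : p = 2 * n + 1) (κ : ℤ) :
    PO p 2 ((∑ k ∈ range (2 * n + 1), (κ : ℚ) ^ k * (k.centralBinom : ℚ) * vv n k) - (-1) ^ n * hh n (-(κ : ℚ))) := by
  rw [hh, mul_sum]
  apply PO.sum_sub
  intro k hk
  have hk' := mem_range.1 hk
  have h := vv_eq n k
  have c : (2 * (k : ℚ) + 1) ≠ 0 := by positivity
  have e : (κ : ℚ) ^ k * (k.centralBinom : ℚ) * vv n k - (-1) ^ n * ((2 * (n : ℚ) + 1) / (2 * k + 1) * (-(κ : ℚ)) ^ k) =
      (((-1) ^ n * (-κ) ^ k : ℤ) : ℚ) * ((p : ℚ) / (2 * k + 1)) * (∏ i ∈ range k, (1 - (2 * (n : ℚ) + 1) ^ 2 / ((i : ℚ) + 1) ^ 2) - 1) := by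
    rw [p_cast hn]
    have h3 : vv n k * (k.centralBinom : ℚ) = (-1) ^ (n + k) * (2 * n + 1) *
      (∏ i ∈ range k, (1 - (2 * (n : ℚ) + 1) ^ 2 / ((i : ℚ) + 1) ^ 2)) / (2 * k + 1) := by
      rw [eq_div_iff c]; exact h
    have e1 : (κ : ℚ) ^ k * (k.centralBinom : ℚ) * vv n k = (κ : ℚ) ^ k * (vv n k * (k.centralBinom : ℚ)) := by ring
    rw [e1, h3]
    push_cast
    rw [neg_pow (κ : ℚ) k, pow_add]
    ring
  rw [e]
  exact ((of_int _).mul0 (p_div_odd hn hk')).mul0 (prod_PO hn (by omega))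

/-- half-range sums of `T` -/
theorem half_main (hn : p = 2 * n + 1) (κ : ℤ) :
    PO p 2 ((∑ j ∈ range (n + 1), (j.centralBinom : ℚ) / 16 ^ j * (T (2 + 2 * κ) (κ ^ 2) (2 * j) : ℚ)) - (-1) ^ n * hh n (-(κ : ℚ))) := by
  have h1 := main_half hn κ
  have h2 : PO p 2 ((∑ j ∈ range (n + 1), (j.centralBinom : ℚ) / 16 ^ j * (T (2 + 2 * κ) (κ ^ 2) (2 * j) : ℚ)) -
      ∑ j ∈ range (n + 1), aa n j * (T (2 + 2 * κ) (κ ^ 2) (2 * j) : ℚ)) := by
    apply PO.sum_sub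
    intro j hj
    have hj' := mem_range.1 hj
    rw [← sub_mul]
    exact (base hn (by omega)).mul0' (of_int _)
  have h3 := half_swap (aa n) κ n
  simp only [vv_sum] at h3
  rw [h3] at h2
  have := h2.add h1
  rwa [sub_add_sub_cancel] at this

/-! ### Binomial evaluation of `hh` -/

/-- odd and even parts of `(1 + sqrt x) ^ m` -/
def Od (x : ℤ) (m : ℕ) : ℤ := ∑ k ∈ range (m + 1), (m.choose (2 * k + 1) : ℤ) * x ^ k
def Ev (x : ℤ) (m : ℕ) : ℤ := ∑ k ∈ range (m + 1), (m.choose (2 * k) : ℤ) * x ^ k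

lemma Od_ext (x : ℤ) {m N : ℕ} (h : m < 2 * N + 1) : ∑ k ∈ range N, (m.choose (2 * k + 1) : ℤ) * x ^ k = Od x m := by
  rw [Od]
  rcases le_total N (m + 1) with h1 | h1
  · apply sum_subset
    · intro y hy; simp only [mem_range] at *; omega
    · intro y _ hy
      simp only [mem_range, not_lt] at hy
      rw [Nat.choose_eq_zero_of_lt (by omega)]; simp
  · symm
    apply sum_subset
    · intro y hy; simp only [mem_range] at *; omega
    · intro y _ hy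
      simp only [mem_range, not_lt] at hy
      rw [Nat.choose_eq_zero_of_lt (by omega)]; simp

lemma Ev_ext (x : ℤ) {m N : ℕ} (h : m < 2 * N) : ∑ k ∈ range N, (m.choose (2 * k) : ℤ) * x ^ k = Ev x m := by
  rw [Ev]
  rcases le_total N (m + 1) with h1 | h1
  · apply sum_subset
    · intro y hy; simp only [mem_range] at *; omega
    · intro y _ hy
      simp only [mem_range, not_lt] at hy
      rw [Nat.choose_eq_zero_of_lt (by omega)]; simp
  · symm
    apply sum_subset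
    · intro y hy; simp only [mem_range] at *; omega
    · intro y _ hy
      simp only [mem_range, not_lt] at hy
      rw [Nat.choose_eq_zero_of_lt (by omega)]; simp

lemma Od_succ (x : ℤ) (m : ℕ) : Od x (m + 1) = Od x m + Ev x m := by
  rw [← Od_ext x (N := m + 1) (show m + 1 < 2 * (m + 1) + 1 by omega), ← Od_ext x (N := m + 1) (show m < 2 * (m + 1) + 1 by omega),
    ← Ev_ext x (N := m + 1) (show m < 2 * (m + 1) by omega), ← sum_add_distrib]
  apply sum_congr rfl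
  intro k _
  rw [Nat.choose_succ_succ']
  push_cast
  ring

lemma Ev_succ (x : ℤ) (m : ℕ) : Ev x (m + 1) = Ev x m + x * Od x m := by
  rw [← Ev_ext x (N := m + 2) (show m + 1 < 2 * (m + 2) by omega), ← Ev_ext x (N := m + 2) (show m < 2 * (m + 2) by omega),
    ← Od_ext x (N := m + 1) (show m < 2 * (m + 1) + 1 by omega), sum_range_succ', sum_range_succ' _ (m + 1), mul_sum]
  simp only [mul_zero, Nat.choose_zero_right, pow_zero]
  have : ∀ k : ℕ, ((m + 1).choose (2 * (k + 1)) : ℤ) * x ^ (k + 1) = (m.choose (2 * (k + 1)) : ℤ) * x ^ (k + 1) +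
      x * ((m.choose (2 * k + 1) : ℤ) * x ^ k) := by
    intro k
    rw [show 2 * (k + 1) = (2 * k + 1) + 1 by ring, Nat.choose_succ_succ']
    push_cast
    ring
  simp only [this, sum_add_distrib]
  ring

/-- binomials `C(p - 1, m)` -/
lemma choose_pred (m : ℕ) (hm : m < p) : PO p 1 (((p - 1).choose m : ℚ) - (-1) ^ m) := by
  induction m with
  | zero => simp; exact PO.zero 1
  | succ m ih =>
    have h1 := ih (by omega)
    have h2 : (p.choose (m + 1) : ℚ) = ((p - 1).choose m : ℚ) + ((p - 1).choose (m + 1) : ℚ) := by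
      have : p = (p - 1) + 1 := by have := hp.out.pos; omega
      conv_lhs => rw [this]
      rw [Nat.choose_succ_succ']
      push_cast; rfl
    have h3 : PO p 1 ((p.choose (m + 1) : ℚ)) := by
      have hd : p ∣ p.choose (m + 1) := hp.out.dvd_choose_self (by omega) (by omega)
      obtain ⟨c, hc⟩ := hd
      rw [hc]
      push_cast
      exact p_PO.mul0' (of_nat c)
    have e : ((p - 1).choose (m + 1) : ℚ) - (-1) ^ (m + 1) = (p.choose (m + 1) : ℚ) - (((p - 1).choose m : ℚ) - (-1) ^ m) := by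
      rw [h2, pow_succ]; ring
    rw [e]
    exact h3.sub h1

lemma choose_p {m : ℕ} (hm0 : 0 < m) (hm : m < p) : PO p 2 ((p.choose m : ℚ) + (-1) ^ m * ((p : ℚ) / m)) := by
  obtain ⟨k, rfl⟩ : ∃ k, m = k + 1 := ⟨m - 1, by omega⟩
  have h1 := choose_pred (p := p) k (by omega)
  have h2 : (p.choose (k + 1) : ℚ) * (k + 1) = p * ((p - 1).choose k : ℚ) := by
    have h := Nat.add_one_mul_choose_eq (p - 1) k
    have : p - 1 + 1 = p := by have := hp.out.pos; omega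
    rw [this] at h
    have h' : ((p * (p - 1).choose k : ℕ) : ℚ) = ((p.choose (k + 1) * (k + 1) : ℕ) : ℚ) := by exact_mod_cast h
    push_cast at h'
    linear_combination -h'
  have c : ((k : ℚ) + 1) ≠ 0 := by positivity
  have e : (p.choose (k + 1) : ℚ) + (-1) ^ (k + 1) * ((p : ℚ) / ((k + 1 : ℕ) : ℚ)) =
      p * (((k : ℚ) + 1)⁻¹) * (((p - 1).choose k : ℚ) - (-1) ^ k) := by
    have : (p.choose (k + 1) : ℚ) = p * ((p - 1).choose k : ℚ) * ((k : ℚ) + 1)⁻¹ := by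
      rw [← div_eq_mul_inv, eq_div_iff c]; exact h2
    rw [this, div_eq_mul_inv, pow_succ]
    push_cast
    ring
  rw [e]
  exact (p_PO.mul0' (inv_succ (by omega))).mul h1

/-- the evaluation of `hh` at integers -/
lemma hh_eval (hn : p = 2 * n + 1) (x : ℤ) : PO p 2 (hh n x - ((Od x p : ℚ) - (x : ℚ) ^ n * ((Ev x p : ℚ) - 1))) := by
  have e1 : hh n x = (∑ k ∈ range n, (p : ℚ) / (2 * k + 1) * (x : ℚ) ^ k) + (x : ℚ) ^ n +
      ∑ i ∈ range n, (p : ℚ) / (2 * ((n + 1 + i : ℕ) : ℚ) + 1) * (x : ℚ) ^ (n + 1 + i) := by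
    rw [hh, show 2 * n + 1 = (n + 1) + n by ring, sum_range_add, sum_range_succ, ← p_cast hn, ]
    rw [div_self (by exact_mod_cast hp.out.ne_zero), one_mul]
  have e2 : (Od x p : ℚ) = (∑ k ∈ range n, (p.choose (2 * k + 1) : ℚ) * (x : ℚ) ^ k) + (x : ℚ) ^ n := by
    have h := Od_ext x (m := p) (N := n + 1) (by omega)
    rw [← h, sum_range_succ, ← hn, Nat.choose_self]
    push_cast
    ring
  have e3 : (Ev x p : ℚ) - 1 = ∑ i ∈ range n, (p.choose (2 * (i + 1)) : ℚ) * (x : ℚ) ^ (i + 1) := by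
    have h := Ev_ext x (m := p) (N := n + 1) (by omega)
    rw [← h, sum_range_succ']
    push_cast
    simp
  have e4 : hh n x - ((Od x p : ℚ) - (x : ℚ) ^ n * ((Ev x p : ℚ) - 1)) =
      (∑ k ∈ range n, ((p : ℚ) / (2 * k + 1) - (p.choose (2 * k + 1) : ℚ)) * (x : ℚ) ^ k) +
      ∑ i ∈ range n, ((p : ℚ) / (2 * ((n + 1 + i : ℕ) : ℚ) + 1) + (p.choose (2 * (i + 1)) : ℚ)) * (x : ℚ) ^ (n + 1 + i) := by
    rw [e1, e2, e3, mul_sum]
    simp only [sub_mul, add_mul, sum_sub_distrib, sum_add_distrib]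
    have : ∀ i, (x : ℚ) ^ n * ((p.choose (2 * (i + 1)) : ℚ) * (x : ℚ) ^ (i + 1)) = (p.choose (2 * (i + 1)) : ℚ) * (x : ℚ) ^ (n + 1 + i) := by
      intro i; rw [show n + 1 + i = n + (i + 1) by ring, pow_add]; ring
    simp only [this]
    ring
  rw [e4]
  apply PO.add
  · apply PO.sum
    intro k hk
    have hk' := mem_range.1 hk
    have h := choose_p (p := p) (m := 2 * k + 1) (by omega) (by omega)
    have e : (p : ℚ) / (2 * k + 1) - (p.choose (2 * k + 1) : ℚ) = -((p.choose (2 * k + 1) : ℚ) + (-1) ^ (2 * k + 1) * ((p : ℚ) / ((2 * k + 1 : ℕ) : ℚ))) := by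
      rw [pow_succ, pow_mul]; push_cast; ring
    rw [e]
    exact (h.neg).mul0' ((of_int x).pow0 k)
  · apply PO.sum
    intro i hi
    have hi' := mem_range.1 hi
    have h := choose_p (p := p) (m := 2 * (i + 1)) (by omega) (by omega)
    have h3 := inv_odd hn (k := n + 1 + i) (by omega) (by omega)
    have h4 : PO p 0 ((((2 * (i + 1) : ℕ) : ℚ))⁻¹) := by
      apply inv_nat
      intro hd
      have := Nat.le_of_dvd (by omega) hd
      omega
    have c1 : (2 * ((n + 1 + i : ℕ) : ℚ) + 1) ≠ 0 := by positivity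
    have c2 : (((2 * (i + 1) : ℕ) : ℚ)) ≠ 0 := by positivity
    have e : ((p : ℚ) / (2 * ((n + 1 + i : ℕ) : ℚ) + 1) + (p.choose (2 * (i + 1)) : ℚ)) =
        ((p.choose (2 * (i + 1)) : ℚ) + (-1) ^ (2 * (i + 1)) * ((p : ℚ) / ((2 * (i + 1) : ℕ) : ℚ))) -
        (p : ℚ) ^ 2 * ((2 * ((n + 1 + i : ℕ) : ℚ) + 1)⁻¹ * (((2 * (i + 1) : ℕ) : ℚ))⁻¹) := by
      have : (2 * ((n + 1 + i : ℕ) : ℚ) + 1) = p + ((2 * (i + 1) : ℕ) : ℚ) := by
        rw [p_cast hn]; push_cast; ring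
      rw [pow_mul]
      rw [this] at c1 ⊢
      generalize ((2 * (i + 1) : ℕ) : ℚ) = y at *
      field_simp
      ring
    rw [e]
    exact (h.sub ((ppow 2).mul0' (h3.mul0 h4))).mul0' ((of_int x).pow0 _)

/-! ### special values -/

lemma Od_neg_one (hn : p = 2 * n + 1) : Od (-1) p = (-1) ^ n * Ev (-1) p := by
  rw [← Od_ext (-1) (m := p) (N := n + 1) (by omega), ← Ev_ext (-1) (m := p) (N := n + 1) (by omega), ← sum_range_reflect, mul_sum]
  apply sum_congr rfl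
  intro k hk
  have hk' := mem_range.1 hk
  have h1 : p.choose (2 * (n + 1 - 1 - k) + 1) = p.choose (2 * k) := by
    rw [← Nat.choose_symm (show 2 * k ≤ p by omega)]
    congr 1
    omega
  rw [h1]
  have h2 : (-1 : ℤ) ^ (n + 1 - 1 - k) = (-1) ^ n * (-1) ^ k := by
    have : (-1 : ℤ) ^ n = (-1) ^ (n + 1 - 1 - k) * (-1) ^ k := by rw [← pow_add]; congr 1; omega
    rw [this, mul_assoc, ← mul_pow]; simp
  rw [h2]
  ring

lemma hh_neg_one (hn : p = 2 * n + 1) : PO p 2 (hh n (-1) - (-1) ^ n) := by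
  have h := hh_eval hn (-1)
  have h2 := Od_neg_one hn
  have h3 : (Od (-1) p : ℚ) = (-1) ^ n * (Ev (-1) p : ℚ) := by rw [h2]; push_cast; rfl
  rw [h3] at h
  have e : hh n (-1) - (-1) ^ n = hh n ((-1 : ℤ) : ℚ) - ((-1) ^ n * (Ev (-1) p : ℚ) - (((-1 : ℤ) : ℚ)) ^ n * ((Ev (-1) p : ℚ) - 1)) := by
    push_cast; ring
  rw [e]; exact h

lemma EvOd_four (m : ℕ) : Ev 4 m + 2 * Od 4 m = 3 ^ m ∧ Ev 4 m - 2 * Od 4 m = (-1) ^ m := by
  induction m with
  | zero => simp [Ev, Od]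
  | succ m ih =>
    rw [Ev_succ, Od_succ, pow_succ, pow_succ, ← ih.1, ← ih.2]
    constructor <;> ring

lemma EvOd_three (m : ℕ) : Ev (-3) (m + 3) = -8 * Ev (-3) m ∧ Od (-3) (m + 3) = -8 * Od (-3) m := by
  have a1 := Ev_succ (-3) m
  have a2 := Ev_succ (-3) (m + 1)
  have a3 := Ev_succ (-3) (m + 2)
  have b1 := Od_succ (-3) m
  have b2 := Od_succ (-3) (m + 1)
  have b3 := Od_succ (-3) (m + 2)
  constructor
  · rw [a3, a2, b2, a1, b1]; ring
  · rw [b3, a2, b2, a1, b1]; ring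

lemma EvOd_three' (q r : ℕ) : Ev (-3) (3 * q + r) = (-8) ^ q * Ev (-3) r ∧ Od (-3) (3 * q + r) = (-8) ^ q * Od (-3) r := by
  induction q with
  | zero => simp
  | succ q ih =>
    rw [show 3 * (q + 1) + r = 3 * q + r + 3 by ring, (EvOd_three _).1, (EvOd_three _).2, ih.1, ih.2, pow_succ]
    constructor <;> ring

/-- `(p / 3)` -/
def chi3 (p : ℕ) : ℤ := if p % 3 = 1 then 1 else -1

lemma chi3_sq (p : ℕ) : chi3 p ^ 2 = 1 := by
  unfold chi3; split_ifs <;> norm_num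

lemma EvOd_p (hn : p = 2 * n + 1) (h3 : p ≠ 3) : Ev (-3) p = 2 ^ (2 * n) ∧ Od (-3) p = chi3 p * 2 ^ (2 * n) := by
  have hd : ¬ 3 ∣ p := fun h => h3 ((Nat.prime_dvd_prime_iff_eq Nat.prime_three hp.out).1 h).symm
  have e1 : Ev (-3) 1 = 1 := by simp [Ev, sum_range_succ]
  have o1 : Od (-3) 1 = 1 := by simp [Od, sum_range_succ]
  have e2 : Ev (-3) 2 = -2 := by rw [Ev_succ, e1, o1]; norm_num
  have o2 : Od (-3) 2 = 2 := by rw [Od_succ, e1, o1]; norm_num
  rcases (by omega : p % 3 = 1 ∨ p % 3 = 2) with h | h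
  · have hq : p = 3 * (p / 3) + 1 := by omega
    have hev : Even (p / 3) := by
      rw [Nat.even_iff]; omega
    have h8 : (-8 : ℤ) ^ (p / 3) = 2 ^ (2 * n) := by
      rw [hev.neg_pow, show (8 : ℤ) = 2 ^ 3 by norm_num, ← pow_mul]
      congr 1; omega
    have c : chi3 p = 1 := by unfold chi3; rw [if_pos h]
    rw [c]
    constructor
    · conv_lhs => rw [hq]
      rw [(EvOd_three' _ _).1, e1, h8, mul_one]
    · conv_lhs => rw [hq]
      rw [(EvOd_three' _ _).2, o1, h8]; ring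
  · have hq : p = 3 * (p / 3) + 2 := by omega
    have hodd : Odd (p / 3) := by
      rw [Nat.odd_iff]; omega
    have h8 : (-8 : ℤ) ^ (p / 3) * 2 = -(2 ^ (2 * n)) := by
      rw [hodd.neg_pow, show (8 : ℤ) = 2 ^ 3 by norm_num, ← pow_mul, neg_mul, ← pow_succ]
      congr 2; omega
    have c : chi3 p = -1 := by unfold chi3; rw [if_neg (by omega)]
    rw [c]
    constructor
    · conv_lhs => rw [hq]
      rw [(EvOd_three' _ _).1, e2]; linear_combination -h8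
    · conv_lhs => rw [hq]
      rw [(EvOd_three' _ _).2, o2]; linear_combination h8

/-- Fermat for odd and even parts -/
lemma Od_mod (hn : p = 2 * n + 1) (x : ℤ) : PO p 1 ((Od x p : ℚ) - (x : ℚ) ^ n) := by
  have h := Od_ext x (m := p) (N := n + 1) (by omega)
  rw [← h, sum_range_succ, ← hn, Nat.choose_self]
  push_cast
  rw [one_mul, add_sub_cancel_right]
  apply PO.sum
  intro k hk
  have hk' := mem_range.1 hk
  have hd : p ∣ p.choose (2 * k + 1) := hp.out.dvd_choose_self (by omega) (by omega)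
  obtain ⟨c, hc⟩ := hd
  rw [hc]
  push_cast
  exact (p_PO.mul0' (of_nat c)).mul0' ((of_int x).pow0 k)

lemma Ev_mod (hn : p = 2 * n + 1) (x : ℤ) : PO p 1 ((Ev x p : ℚ) - 1) := by
  have h := Ev_ext x (m := p) (N := n + 1) (by omega)
  rw [← h, sum_range_succ']
  push_cast
  simp only [Nat.choose_zero_right, pow_zero, Nat.cast_one, mul_one, add_sub_cancel_right]
  apply PO.sum
  intro k hk
  have hk' := mem_range.1 hk
  have hd : p ∣ p.choose (2 * (k + 1)) := hp.out.dvd_choose_self (by omega) (by omega)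
  obtain ⟨c, hc⟩ := hd
  rw [hc]
  push_cast
  exact (p_PO.mul0' (of_nat c)).mul0' ((of_int x).pow0 _)

lemma two_mod (hn : p = 2 * n + 1) (h3 : p ≠ 3) : PO p 1 ((2 : ℚ) ^ (2 * n) - 1) := by
  have h := Ev_mod hn (-3)
  rw [(EvOd_p hn h3).1] at h
  push_cast at h
  exact h

lemma neg3_mod (hn : p = 2 * n + 1) (h3 : p ≠ 3) : PO p 1 ((-3 : ℚ) ^ n - chi3 p) := by
  have h := Od_mod hn (-3)
  rw [(EvOd_p hn h3).2] at h
  push_cast at h
  have h2 := two_mod hn h3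
  have e : (-3 : ℚ) ^ n - chi3 p = -(((chi3 p : ℚ) * 2 ^ (2 * n)) - (-3) ^ n) + (chi3 p : ℚ) * (2 ^ (2 * n) - 1) := by ring
  rw [e]
  exact h.neg.add ((of_int _).mul0 h2)

lemma hh_neg_three (hn : p = 2 * n + 1) (h3 : p ≠ 3) : PO p 2 (hh n (-3) - chi3 p) := by
  have h := hh_eval hn (-3)
  have h2 := two_mod hn h3
  have h4 := neg3_mod hn h3
  rw [(EvOd_p hn h3).1, (EvOd_p hn h3).2] at h
  push_cast at h
  have e : hh n (-3) - chi3 p = (hh n (-3) - ((chi3 p : ℚ) * 2 ^ (2 * n) - (-3) ^ n * (2 ^ (2 * n) - 1))) -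
      ((-3) ^ n - (chi3 p : ℚ)) * (2 ^ (2 * n) - 1) := by ring
  rw [e]
  exact h.sub (h4.mul h2)

lemma hh_four (hn : p = 2 * n + 1) (h3 : p ≠ 3) : PO p 2 (hh n 4 - (7 - 3 ^ p) / 4) := by
  have h := hh_eval hn 4
  have h2 := two_mod hn h3
  have h4 := EvOd_four p
  have h5 : (-1 : ℤ) ^ p = -1 := by
    rw [hn, pow_succ, pow_mul]; simp
  rw [h5] at h4
  have hE : (Ev 4 p : ℚ) = ((3 : ℚ) ^ p - 1) / 2 := by
    have : ((Ev 4 p + 2 * Od 4 p : ℤ) : ℚ) = ((3 ^ p : ℤ) : ℚ) := by rw [h4.1]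
    have h' : ((Ev 4 p - 2 * Od 4 p : ℤ) : ℚ) = ((-1 : ℤ) : ℚ) := by rw [h4.2]
    push_cast at this h'
    linear_combination (this + h') / 2
  have hO : (Od 4 p : ℚ) = ((3 : ℚ) ^ p + 1) / 4 := by
    have : ((Ev 4 p + 2 * Od 4 p : ℤ) : ℚ) = ((3 ^ p : ℤ) : ℚ) := by rw [h4.1]
    have h' : ((Ev 4 p - 2 * Od 4 p : ℤ) : ℚ) = ((-1 : ℤ) : ℚ) := by rw [h4.2]
    push_cast at this h'
    linear_combination (this - h') / 4
  have hEm := Ev_mod hn 4
  push_cast at h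
  have e4 : (4 : ℚ) ^ n = 2 ^ (2 * n) := by rw [pow_mul]; norm_num
  have e : hh n 4 - (7 - 3 ^ p) / 4 = (hh n 4 - ((Od 4 p : ℚ) - 4 ^ n * ((Ev 4 p : ℚ) - 1))) - (2 ^ (2 * n) - 1) * ((Ev 4 p : ℚ) - 1) := by
    rw [e4, hO, hE]; ring
  rw [e]
  exact h.sub (h2.mul hEm)

end

end

end Pool.Agent.X14.TK
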