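import Pool.Agent.X14.TK2

set_option autoImplicit false

/-! The Catalan-weighted sum. -/

namespace Pool.Agent.X14.TK

open Finset Polynomial Pool.Agent.H434R2 Pool.Agent.H434R2.PO

noncomputable section

set_option linter.unusedSectionVars false

/-- Catalan-weighted coefficients -/
def gg (n k : ℕ) : ℚ := ∑ j ∈ range (n + 1), (aa n j / (j + 1)) * (2 ^ (2 * j - k) * ((2 * j).choose k : ℚ))

lemma gg_rec (n k : ℕ) : 2 * ((k : ℚ) + 1) * gg n (k + 1) + (k + 2) * gg n k = 2 * vv n k := by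
  rw [gg, gg, ← vv_sum, mul_sum, mul_sum, mul_sum, ← sum_add_distrib]
  apply sum_congr rfl
  intro j _
  have c : ((j : ℚ) + 1) ≠ 0 := by positivity
  rcases lt_trichotomy k (2 * j) with h | h | h
  · have h1 := Nat.choose_succ_right_eq (2 * j) k
    have h2 : ((2 * j).choose (k + 1) : ℚ) * (k + 1) = ((2 * j).choose k : ℚ) * (2 * j - k) := by
      have h3 : (((2 * j).choose (k + 1) * (k + 1) : ℕ) : ℚ) = (((2 * j).choose k * (2 * j - k) : ℕ) : ℚ) := by exact_mod_cast h1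
      push_cast [Nat.cast_sub h.le] at h3
      exact h3
    have h4 : (2 : ℚ) ^ (2 * j - k) = 2 * 2 ^ (2 * j - (k + 1)) := by
      rw [← pow_succ']; congr 1; omega
    rw [h4]
    field_simp
    linear_combination (aa n j) * h2
  · subst h
    rw [Nat.choose_eq_zero_of_lt (show 2 * j < 2 * j + 1 by omega)]
    push_cast
    field_simp
    ring
  · rw [Nat.choose_eq_zero_of_lt (show 2 * j < k + 1 by omega), Nat.choose_eq_zero_of_lt h]
    simp

/-- three-term recurrence -/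
lemma pi_rec (n k : ℕ) : ((k : ℚ) + 2) * (((k : ℚ) + 2) * (((k + 2).centralBinom : ℚ) * gg n (k + 2)) +
      (3 * k + 5) * (((k + 1).centralBinom : ℚ) * gg n (k + 1)) + (2 * k + 1) * ((k.centralBinom : ℚ) * gg n k)) =
    2 * (-1) ^ (n + k) * (2 * n + 1) ^ 3 / (k + 1) ^ 2 * ∏ i ∈ range k, (1 - (2 * (n : ℚ) + 1) ^ 2 / ((i : ℚ) + 1) ^ 2) := by
  have g1 := gg_rec n k
  have g2 := gg_rec n (k + 1)
  have m1 := cb_succ k
  have m2 := cb_succ (k + 1)
  have v1 := vv_eq n k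
  have v2 := vv_eq n (k + 1)
  rw [prod_range_succ, ← add_assoc n k 1, pow_succ] at v2
  push_cast at g2 m2 v2
  rw [show k + 1 + 1 = k + 2 by ring] at g2 m2
  have c : ((k : ℚ) + 1) ≠ 0 := by positivity
  generalize ∏ i ∈ range k, (1 - (2 * (n : ℚ) + 1) ^ 2 / ((i : ℚ) + 1) ^ 2) = P at *
  set M0 := (k.centralBinom : ℚ)
  set M1 := ((k + 1).centralBinom : ℚ)
  set M2 := ((k + 2).centralBinom : ℚ)
  have t1 : ((k : ℚ) + 2) * M2 = 2 * (2 * k + 3) * M1 := by linear_combination m2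
  have t2 : 2 * (2 * (k : ℚ) + 1) * M0 = (k + 1) * M1 := by linear_combination -m1
  have t3 : 2 * (2 * (k : ℚ) + 3) * M1 * vv n (k + 1) = 2 * ((-1) ^ (n + k) * -1 * (2 * n + 1) * (P * (1 - (2 * n + 1) ^ 2 / (k + 1) ^ 2))) := by
    rw [← v2]; ring
  have t4 : (k + 1) * M1 * vv n k = 2 * ((-1) ^ (n + k) * (2 * n + 1) * P) := by
    rw [← v1]; linear_combination -vv n k * t2
  have e : ((k : ℚ) + 2) * (((k : ℚ) + 2) * (M2 * gg n (k + 2)) + (3 * k + 5) * (M1 * gg n (k + 1)) + (2 * k + 1) * (M0 * gg n k)) =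
      2 * (2 * k + 3) * M1 * vv n (k + 1) + (k + 1) * M1 * vv n k := by
    linear_combination (k + 2) * gg n (k + 2) * t1 + (k + 2) / 2 * gg n k * t2 + (2 * k + 3) * M1 * g2 + (k + 1) / 2 * M1 * g1
  rw [e, t3, t4]
  field_simp
  ring

/-- auxiliary sum at `-4` -/
lemma Vp_four (n : ℕ) : ∑ j ∈ range (n + 1), aa n j * 4 ^ j = (-1) ^ n * (2 * n + 1) := by
  have h := vv_sum n 0
  simp only [tsub_zero, Nat.choose_zero_right, Nat.cast_one, mul_one, vv, mul_zero, add_zero, zero_add, Nat.choose_one_right] at h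
  push_cast at h
  rw [← h]
  apply sum_congr rfl
  intro j _
  rw [pow_mul]; norm_num

lemma gg_zero (n : ℕ) : 4 * ((n : ℚ) * (n + 1)) * gg n 0 = 2 * ((-1) ^ n * (2 * n + 1) - 1) := by
  have h := Vp_four n
  rw [sum_range_succ'] at h
  have h0 : aa n 0 * 4 ^ 0 = 1 := by simp [aa]
  rw [h0] at h
  have h1 : 4 * ((n : ℚ) * (n + 1)) * gg n 0 = 2 * ∑ j ∈ range n, aa n (j + 1) * 4 ^ (j + 1) := by
    have e : gg n 0 = ∑ j ∈ range (n + 1), (aa n j / (j + 1)) * 4 ^ j := by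
      rw [gg]
      apply sum_congr rfl
      intro j _
      rw [tsub_zero, Nat.choose_zero_right, pow_mul]; norm_num
    rw [e, mul_sum, mul_sum]
    have key : ∀ N : ℕ, ∑ j ∈ range N, 4 * ((n : ℚ) * (n + 1)) * (aa n j / (j + 1) * 4 ^ j) =
        (∑ j ∈ range N, 2 * (aa n (j + 1) * 4 ^ (j + 1))) - 4 * (N : ℚ) * aa n N * 4 ^ N := by
      intro N
      induction N with
      | zero => simp
      | succ N ih =>
        rw [sum_range_succ, sum_range_succ, ih]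
        have h1 := ch2 (n + N) (2 * N)
        rw [show n + N + 1 = n + (N + 1) by ring, show 2 * N + 2 = 2 * (N + 1) by ring] at h1
        have h2 : aa n (N + 1) * ((2 * N + 2) * (2 * N + 1)) = -(aa n N * ((n + N + 1) * (n - N))) := by
          rw [aa, aa, pow_succ]
          push_cast at h1
          linear_combination (-(-1 : ℚ) ^ N) * h1
        have c : ((N : ℚ) + 1) ≠ 0 := by positivity
        push_cast
        rw [pow_succ]
        field_simp
        linear_combination (4 * (4 : ℚ) ^ N) * h2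
    rw [key (n + 1), sum_range_succ]
    have z : aa n (n + 1) = 0 := by
      rw [aa, Nat.choose_eq_zero_of_lt (by omega)]; simp
    rw [z]
    ring
  rw [h1]
  linear_combination 2 * h

/-! ### the comparison polynomial -/

def rr (n i : ℕ) : ℚ := 2 * (-1) ^ (n + i) * (i + 1) * ((2 * (n : ℚ) + 1) / (2 * i + 3))

def Rs (n : ℕ) : ℚ[X] := ∑ i ∈ range (2 * n), C (rr n i) * X ^ i

def Ps (n : ℕ) : ℚ[X] := C 2 * (X + C 1) * (Rs n).comp (C 2 * X + C 1)

lemma geo2 (N : ℕ) : (1 + X : ℚ[X]) ^ 2 * ∑ i ∈ range N, C (((-1 : ℚ)) ^ i * (i + 1)) * X ^ i =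
    1 - C ((-1 : ℚ) ^ N * (N + 1)) * X ^ N + C ((-1 : ℚ) ^ (N + 1) * N) * X ^ (N + 1) := by
  induction N with
  | zero => simp
  | succ N ih =>
    rw [sum_range_succ, mul_add, ih]
    simp only [map_mul, map_pow, map_neg, map_one, map_add, map_natCast, Nat.cast_add, Nat.cast_one]
    ring

lemma Rs_ode (n : ℕ) : C 2 * X * derivative (Rs n) + C 3 * Rs n =
    C (2 * (-1) ^ n * (2 * (n : ℚ) + 1)) * ∑ i ∈ range (2 * n), C (((-1 : ℚ)) ^ i * (i + 1)) * X ^ i := by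
  rw [Rs, derivative_sum, mul_sum, mul_sum, mul_sum, ← sum_add_distrib]
  apply sum_congr rfl
  intro i _
  have c : (2 * (i : ℚ) + 3) ≠ 0 := by positivity
  have e : C 2 * X * derivative (C (rr n i) * X ^ i) + C 3 * (C (rr n i) * X ^ i) = C ((2 * i + 3) * rr n i) * X ^ i := by
    rw [derivative_C_mul_X_pow]
    rcases i with _ | i
    · simp
    · rw [Nat.add_sub_cancel]
      simp only [map_mul, map_add, map_natCast]
      rw [pow_succ]
      ring
  have e2 : (2 * (i : ℚ) + 3) * rr n i = (2 * (-1) ^ n * (2 * (n : ℚ) + 1)) * ((-1) ^ i * (i + 1)) := by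
    rw [rr, pow_add]
    field_simp
  rw [e, e2, map_mul, mul_assoc]

lemma Ps_ode (n : ℕ) : (X + C 1) * (C 2 * X + C 1) * derivative (Ps n) + (X + C 2) * Ps n =
    C ((-1) ^ n * (2 * (n : ℚ) + 1)) * (1 - C (2 * (n : ℚ) + 1) * (C 2 * X + C 1) ^ (2 * n) - C (2 * (n : ℚ)) * (C 2 * X + C 1) ^ (2 * n + 1)) := by
  have h := congrArg (fun f => f.comp (C 2 * X + C 1 : ℚ[X])) (Rs_ode n)
  have g := congrArg (fun f => f.comp (C 2 * X + C 1 : ℚ[X])) (geo2 (2 * n))
  simp only [add_comp, mul_comp, C_comp, X_comp, pow_comp, one_comp, sub_comp] at h g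
  set S : ℚ[X] := C 2 * X + C 1 with hS
  set W : ℚ[X] := (∑ i ∈ range (2 * n), C (((-1 : ℚ)) ^ i * (i + 1)) * X ^ i).comp S with hW
  have hd : derivative (Ps n) = C 2 * (Rs n).comp S + C 2 * (X + C 1) * (C 2 * (derivative (Rs n)).comp S) := by
    rw [Ps, derivative_mul, derivative_comp]
    have d1 : derivative (C 2 * (X + C 1) : ℚ[X]) = C 2 := by
      simp
    have d2 : derivative S = C 2 := by rw [hS]; simp
    rw [d1, d2]
  rw [hd, Ps, ← hS]
  have hX : (X + C 1 : ℚ[X]) * C 2 = 1 + S := by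
    rw [hS]
    have c2 : (C (2 : ℚ) : ℚ[X]) = 2 := rfl
    have c1 : (C (1 : ℚ) : ℚ[X]) = 1 := rfl
    rw [c2, c1]; ring
  have e1 : (-1 : ℚ) ^ (2 * n) = 1 := by rw [pow_mul]; simp
  have e2 : (-1 : ℚ) ^ (2 * n + 1) = -1 := by rw [pow_succ, e1]; simp
  rw [e1, e2] at g
  push_cast at g
  have e3 : C (2 * (-1) ^ n * (2 * (n : ℚ) + 1)) = C 2 * C ((-1) ^ n * (2 * (n : ℚ) + 1)) := by rw [← map_mul]; congr 1; ring
  rw [e3] at h
  have c2 : (C (2 : ℚ) : ℚ[X]) = 2 := rfl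
  have c3 : (C (3 : ℚ) : ℚ[X]) = 3 := rfl
  have c1 : (C (1 : ℚ) : ℚ[X]) = 1 := rfl
  have e4 : (C (1 * (2 * (n : ℚ) + 1)) : ℚ[X]) = C (2 * (n : ℚ) + 1) := by rw [one_mul]
  have e5 : (C (-1 * (2 * (n : ℚ))) : ℚ[X]) = -C (2 * (n : ℚ)) := by rw [neg_one_mul, map_neg]
  rw [e4, e5] at g
  rw [c2, c1] at hX
  rw [c2, c3] at h
  rw [c2, c1]
  generalize C ((-1) ^ n * (2 * (n : ℚ) + 1)) = A at *
  generalize C (2 * (n : ℚ) + 1) = B at *
  generalize C (2 * (n : ℚ)) = D at *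
  have hX' : S = 2 * X + 1 := by rw [hS, c2, c1]
  have g' : (1 + S) ^ 2 * W = 1 - B * S ^ (2 * n) - D * S ^ (2 * n + 1) := by linear_combination g
  rw [← g']
  have h' : 2 * S * (derivative (Rs n)).comp S + 3 * (Rs n).comp S = 2 * A * W := h
  generalize (derivative (Rs n)).comp S = R1 at *
  generalize (Rs n).comp S = R0 at *
  rw [hX'] at h' ⊢
  linear_combination (2 * (X + 1) ^ 2) * h'

lemma Ps_natDegree {n : ℕ} (hn : 0 < n) : (Ps n).natDegree < 2 * n + 1 := by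
  have h1 : (Rs n).natDegree ≤ 2 * n - 1 := by
    rw [Rs]
    apply natDegree_sum_le_of_forall_le
    intro i hi
    have hi' := mem_range.1 hi
    exact (natDegree_C_mul_X_pow_le _ _).trans (by omega)
  have h2 : (C 2 * X + C 1 : ℚ[X]).natDegree ≤ 1 := natDegree_linear_le
  have h3 : ((Rs n).comp (C 2 * X + C 1)).natDegree ≤ 2 * n - 1 := by
    refine natDegree_comp_le.trans ?_
    calc (Rs n).natDegree * (C 2 * X + C 1 : ℚ[X]).natDegree ≤ (2 * n - 1) * 1 := Nat.mul_le_mul h1 h2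
      _ = 2 * n - 1 := by ring
  have h4 : (C 2 * (X + C 1) : ℚ[X]).natDegree ≤ 1 := by
    refine (natDegree_C_mul_le _ _).trans ?_
    rw [natDegree_X_add_C]
  rw [Ps]
  refine lt_of_le_of_lt natDegree_mul_le ?_
  omega

lemma Ps_eval {n : ℕ} (hn : 0 < n) : ∑ k ∈ range (2 * n + 1), (Ps n).coeff k = 4 * eval 3 (Rs n) := by
  have h := eval_eq_sum_range' (Ps_natDegree hn) (1 : ℚ)
  simp only [one_pow, mul_one] at h
  rw [← h, Ps, eval_mul, eval_comp]
  simp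
  norm_num

lemma Ps_zero (n : ℕ) : (Ps n).coeff 0 = 2 * eval 1 (Rs n) := by
  rw [coeff_zero_eq_eval_zero, Ps, eval_mul, eval_comp]
  simp

/-- coefficient form of the differential equation -/
lemma Ps_rec (n k : ℕ) : ((k : ℚ) + 2) * (Ps n).coeff (k + 2) + (3 * k + 5) * (Ps n).coeff (k + 1) + (2 * k + 1) * (Ps n).coeff k =
    -((-1) ^ n * (2 * (n : ℚ) + 1)) * ((2 * (n : ℚ) + 1) * (2 ^ (k + 1) * ((2 * n).choose (k + 1) : ℚ)) + 2 * n * (2 ^ (k + 1) * ((2 * n + 1).choose (k + 1) : ℚ))) := by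
  have h := congrArg (fun f => coeff f (k + 1)) (Ps_ode n)
  have cf : ∀ m, ((C 2 * X + C 1 : ℚ[X]) ^ m).coeff (k + 1) = 2 ^ (k + 1) * (m.choose (k + 1) : ℚ) := by
    intro m
    have : (C 2 * X + C 1 : ℚ[X]) ^ m = ((X + C 1 : ℚ[X]) ^ m).comp (C 2 * X) := by
      rw [pow_comp]; simp
    rw [this, comp_C_mul_X_coeff, coeff_X_add_C_pow, one_pow, one_mul]
    ring
  simp only [coeff_C_mul, coeff_sub, coeff_one] at h
  rw [cf, cf] at h
  simp only [Nat.succ_ne_zero, if_false] at h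
  have e : (X + C 1) * (C 2 * X + C 1) * derivative (Ps n) + (X + C 2) * Ps n =
      C 2 * (X * (X * derivative (Ps n))) + C 3 * (X * derivative (Ps n)) + derivative (Ps n) + X * Ps n + C 2 * Ps n := by
    have c2 : (C (2 : ℚ) : ℚ[X]) = 2 := rfl
    have c3 : (C (3 : ℚ) : ℚ[X]) = 3 := rfl
    have c1 : (C (1 : ℚ) : ℚ[X]) = 1 := rfl
    rw [c1, c2, c3]; ring
  rw [e] at h
  simp only [coeff_add, coeff_C_mul, coeff_X_mul, coeff_derivative] at h
  have h2 : (X * derivative (Ps n)).coeff k = k * (Ps n).coeff k := by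
    rcases k with _ | k
    · simp
    · rw [coeff_X_mul, coeff_derivative]; push_cast; ring
  rw [h2] at h
  push_cast at h
  linear_combination h

lemma Ps_rec0 {n : ℕ} : (Ps n).coeff 1 + 2 * (Ps n).coeff 0 = (-1) ^ n * (2 * (n : ℚ) + 1) * (1 - (2 * n + 1) - 2 * n) := by
  have h := congrArg (fun f => coeff f 0) (Ps_ode n)
  have e : (X + C 1) * (C 2 * X + C 1) * derivative (Ps n) + (X + C 2) * Ps n =
      C 2 * (X * (X * derivative (Ps n))) + C 3 * (X * derivative (Ps n)) + derivative (Ps n) + X * Ps n + C 2 * Ps n := by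
    have c2 : (C (2 : ℚ) : ℚ[X]) = 2 := rfl
    have c3 : (C (3 : ℚ) : ℚ[X]) = 3 := rfl
    have c1 : (C (1 : ℚ) : ℚ[X]) = 1 := rfl
    rw [c1, c2, c3]; ring
  rw [e] at h
  simp only [coeff_add, coeff_C_mul, coeff_sub, coeff_one_zero, coeff_derivative] at h
  simp only [coeff_zero_eq_eval_zero, eval_mul, eval_X, eval_pow, eval_add, eval_C, zero_mul, mul_zero, zero_add, one_pow, mul_one] at h
  push_cast at h
  simp only [coeff_zero_eq_eval_zero]
  linear_combination h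

/-- evaluation of `Rs` -/
lemma Rs_eval (n : ℕ) (s : ℚ) : s * eval s (Rs n) = (-1) ^ n * ((2 * n + 1) * s * (∑ i ∈ range (2 * n), (-s) ^ i) + hh n (-s) - (2 * n + 1)) := by
  have h1 : hh n (-s) = (2 * (n : ℚ) + 1) + ∑ i ∈ range (2 * n), (2 * (n : ℚ) + 1) / (2 * i + 3) * (-s) ^ (i + 1) := by
    rw [hh, sum_range_succ']
    simp only [Nat.cast_zero, mul_zero, zero_add, div_one, pow_zero, mul_one]
    rw [add_comm]
    congr 1
    apply sum_congr rfl
    intro i _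
    push_cast
    rw [show (2 * ((i : ℚ) + 1) + 1) = 2 * i + 3 by ring]
  rw [h1, Rs, eval_finsetSum, mul_sum]
  have e : ∀ i : ℕ, s * eval s (C (rr n i) * X ^ i) = (-1) ^ n * ((2 * n + 1) * s * (-s) ^ i + (2 * (n : ℚ) + 1) / (2 * i + 3) * (-s) ^ (i + 1)) := by
    intro i
    rw [eval_mul, eval_C, eval_pow, eval_X, rr]
    have c : (2 * (i : ℚ) + 3) ≠ 0 := by positivity
    rw [neg_pow s i, neg_pow s (i + 1), pow_add, pow_succ s i, pow_succ (-1 : ℚ) i]
    field_simp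
    ring
  simp only [e]
  rw [← mul_sum, sum_add_distrib, ← mul_sum]
  ring

variable {p : ℕ} [hp : Fact p.Prime]

section

variable {n : ℕ}

lemma rr_int (hn : p = 2 * n + 1) {i : ℕ} (hi : i < 2 * n) : PO p 0 (rr n i) := by
  have h := p_div_odd hn (k := i + 1) (by omega)
  have e : rr n i = ((2 * (-1) ^ (n + i) * (i + 1) : ℤ) : ℚ) * ((p : ℚ) / (2 * ((i + 1 : ℕ) : ℚ) + 1)) := by
    rw [rr, p_cast hn]; push_cast; rw [show (2 * ((i : ℚ) + 1) + 1) = 2 * i + 3 by ring]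
  rw [e]
  exact (of_int _).mul0 h

lemma gg_zero_mod (hn : p = 2 * n + 1) (hn0 : 0 < n) : PO p 2 (gg n 0 - (2 - 2 * (-1) ^ n * p)) := by
  have h := gg_zero n
  have hp' := p_cast hn
  have h2 : ((p : ℚ) ^ 2 - 1) * gg n 0 = 2 * ((-1) ^ n * p - 1) := by
    rw [hp']; linear_combination h
  have hu : PO p 0 ((1 - (p : ℚ) ^ 2)⁻¹) := by
    apply inv_one_sub
    exact (ppow 2).mono (by norm_num)
  have hne : (1 - (p : ℚ) ^ 2) ≠ 0 := by
    apply one_sub_ne (p := p)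
    exact (ppow 2).mono (by norm_num)
  have e : gg n 0 - (2 - 2 * (-1) ^ n * p) = (p : ℚ) ^ 2 * (((2 * (1 - (-1) ^ n * p : ℤ) : ℤ) : ℚ) * (1 - (p : ℚ) ^ 2)⁻¹) := by
    have : gg n 0 = 2 * (1 - (-1) ^ n * p) * (1 - (p : ℚ) ^ 2)⁻¹ := by
      rw [← div_eq_mul_inv, eq_div_iff hne]; linear_combination -h2
    rw [this]
    push_cast
    field_simp
    ring
  rw [e]
  exact (ppow 2).mul0' ((of_int _).mul0 hu)

lemma sum_alt (n : ℕ) : ∑ i ∈ range (2 * n), (-(1 : ℚ)) ^ i = 0 := by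
  induction n with
  | zero => simp
  | succ n ih => rw [show 2 * (n + 1) = 2 * n + 1 + 1 by ring, sum_range_succ, sum_range_succ, ih, pow_succ]; ring

lemma Rs_one (hn : p = 2 * n + 1) : PO p 2 (eval 1 (Rs n) - (1 - (-1) ^ n * p)) := by
  have h := Rs_eval n 1
  rw [sum_alt] at h
  have h1 := hh_neg_one hn
  have e : eval 1 (Rs n) - (1 - (-1) ^ n * p) = (((-1) ^ n : ℤ) : ℚ) * (hh n (-1) - (-1) ^ n) := by
    have s : ((-1 : ℚ) ^ n) * (-1) ^ n = 1 := by rw [← mul_pow]; simp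
    rw [p_cast hn]
    push_cast
    linear_combination h + s
  rw [e]
  exact (of_int _).mul0 h1

lemma Rs_three (hn : p = 2 * n + 1) (h3 : p ≠ 3) : PO p 2 (eval 3 (Rs n) - (-1) ^ n * (chi3 p - p) / 3) := by
  have h := Rs_eval n 3
  have h1 := hh_neg_three hn h3
  have hg : (∑ i ∈ range (2 * n), (-(3 : ℚ)) ^ i) * 4 = 1 - (-3) ^ (2 * n) := by
    have := geom_sum_mul (-(3 : ℚ)) (2 * n)
    linear_combination -this
  have h9 : PO p 1 ((-3 : ℚ) ^ (2 * n) - 1) := by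
    have h4 := neg3_mod hn h3
    have e : (-3 : ℚ) ^ (2 * n) - 1 = ((-3 : ℚ) ^ n - chi3 p) * (((-3) ^ n + chi3 p : ℤ) : ℚ) := by
      have := chi3_sq p
      have h' : (chi3 p : ℚ) ^ 2 = 1 := by exact_mod_cast this
      push_cast
      rw [mul_comm 2 n, pow_mul]
      linear_combination h'
    rw [e]
    exact h4.mul0' (of_int _)
  have h2 : p ≠ 2 := by omega
  have i3 : PO p 0 ((3 : ℚ)⁻¹) := by
    have := inv_nat (p := p) (m := 3) (by
      intro hd
      exact h3 ((Nat.prime_dvd_prime_iff_eq hp.out Nat.prime_three).1 hd))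
    simpa using this
  have i4 : PO p 0 ((4 : ℚ)⁻¹) := by
    have hh := half (p := p) h2
    have : (4 : ℚ)⁻¹ = (1 / 2) * (1 / 2) := by norm_num
    rw [this]; exact hh.mul0 hh
  have e : eval 3 (Rs n) - (-1) ^ n * (chi3 p - p) / 3 = (((-1) ^ n : ℤ) : ℚ) * (3⁻¹ * (hh n (-3) - chi3 p)) -
      (((-1) ^ n : ℤ) : ℚ) * (4⁻¹ * ((p : ℚ) * ((-3 : ℚ) ^ (2 * n) - 1))) := by
    rw [p_cast hn]
    push_cast
    linear_combination h / 3 + (-1) ^ n * (2 * n + 1) / 4 * hg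
  rw [e]
  exact ((of_int _).mul0 (i3.mul0 h1)).sub ((of_int _).mul0 (i4.mul0 (p_PO.mul h9)))

/-- the comparison -/
lemma delta (hn : p = 2 * n + 1) (hn0 : 0 < n) (k : ℕ) : k + 1 < p →
    PO p 2 ((k.centralBinom : ℚ) * gg n k - (Ps n).coeff k) ∧ PO p 2 (((k + 1).centralBinom : ℚ) * gg n (k + 1) - (Ps n).coeff (k + 1)) := by
  have hp' := p_cast hn
  have h2 : p ≠ 2 := by omega
  have d0 : PO p 2 (((0 : ℕ).centralBinom : ℚ) * gg n 0 - (Ps n).coeff 0) := by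
    rw [Ps_zero]
    have e : ((0 : ℕ).centralBinom : ℚ) * gg n 0 - 2 * eval 1 (Rs n) = (gg n 0 - (2 - 2 * (-1) ^ n * p)) - ((2 : ℤ) : ℚ) * (eval 1 (Rs n) - (1 - (-1) ^ n * p)) := by
      simp; ring
    rw [e]
    exact (gg_zero_mod hn hn0).sub ((of_int 2).mul0 (Rs_one hn))
  induction k with
  | zero =>
    intro _
    refine ⟨d0, ?_⟩
    have g := gg_rec n 0
    have r := Ps_rec0 (n := n)
    have v : vv n 0 = (-1) ^ n * (2 * n + 1) := by simp [vv]
    rw [v] at g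
    have c1 : ((0 + 1).centralBinom : ℚ) = 2 := by
      rw [show Nat.centralBinom (0 + 1) = 2 from rfl]; norm_num
    have e : ((0 + 1).centralBinom : ℚ) * gg n (0 + 1) - (Ps n).coeff (0 + 1) =
        (p : ℚ) ^ 2 * ((2 * (-1) ^ n : ℤ) : ℚ) - ((2 : ℤ) : ℚ) * (((0 : ℕ).centralBinom : ℚ) * gg n 0 - (Ps n).coeff 0) := by
      rw [c1, hp']
      simp only [Nat.cast_zero, zero_add, mul_one] at g
      simp only [zero_add, Nat.centralBinom_zero, Nat.cast_one, one_mul]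
      push_cast
      linear_combination g - r
    rw [e]
    exact ((ppow 2).mul0' (of_int _)).sub ((of_int 2).mul0 d0)
  | succ k ih =>
    intro hk
    obtain ⟨h0, h1⟩ := ih (by omega)
    refine ⟨h1, ?_⟩
    have g := pi_rec n k
    have r := Ps_rec n k
    have c2 : ((k : ℚ) + 2) ≠ 0 := by positivity
    have i1 : PO p 0 (((k : ℚ) + 1)⁻¹) := inv_succ (by omega)
    have i2 : PO p 0 (((k : ℚ) + 2)⁻¹) := by
      have := inv_succ (p := p) (b := k + 1) (by omega)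
      push_cast at this
      rwa [show (k : ℚ) + 1 + 1 = k + 2 by ring] at this
    have hprod := prod_PO hn (k := k) (by omega)
    have hch : PO p 1 (((2 * n + 1).choose (k + 1) : ℚ)) := by
      rw [← hn]
      have hd : p ∣ p.choose (k + 1) := hp.out.dvd_choose_self (by omega) (by omega)
      obtain ⟨c, hc⟩ := hd
      rw [hc]
      push_cast
      exact p_PO.mul0' (of_nat c)
    set P := ∏ i ∈ range k, (1 - (2 * (n : ℚ) + 1) ^ 2 / ((i : ℚ) + 1) ^ 2) with hP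
    have hPi : PO p 0 P := by
      have := (hprod.mono (Nat.zero_le 2)).add (one (p := p))
      rwa [sub_add_cancel] at this
    have e : ((k + 1 + 1).centralBinom : ℚ) * gg n (k + 1 + 1) - (Ps n).coeff (k + 1 + 1) =
        (((k : ℚ) + 2)⁻¹) * ((p : ℚ) ^ 2 * (((2 * (-1) ^ (n + k) * p : ℤ) : ℚ) * ((((k : ℚ) + 2)⁻¹) * ((((k : ℚ) + 1)⁻¹) ^ 2 * P)))
          + (p : ℚ) * ((p : ℚ) * ((((-1) ^ n * 2 ^ (k + 1) * ((2 * n).choose (k + 1) : ℤ) : ℤ)) : ℚ))
          + (p : ℚ) * (((2 * n).choose 1 * 2 ^ (k + 1) * (-1) ^ n : ℤ) : ℚ) * (((2 * n + 1).choose (k + 1) : ℚ))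
          - ((3 * k + 5 : ℕ) : ℚ) * (((k + 1).centralBinom : ℚ) * gg n (k + 1) - (Ps n).coeff (k + 1))
          - ((2 * k + 1 : ℕ) : ℚ) * ((k.centralBinom : ℚ) * gg n k - (Ps n).coeff k)) := by
      have g' : ((k : ℚ) + 2) * (((k + 2).centralBinom : ℚ) * gg n (k + 2)) +
        (3 * k + 5) * (((k + 1).centralBinom : ℚ) * gg n (k + 1)) + (2 * k + 1) * ((k.centralBinom : ℚ) * gg n k) =
        (((k : ℚ) + 2)⁻¹) * (2 * (-1) ^ (n + k) * (2 * n + 1) ^ 3 / (k + 1) ^ 2 * P) := by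
        rw [← g]; field_simp
      rw [show k + 1 + 1 = k + 2 by ring]
      apply mul_left_cancel₀ c2
      rw [← mul_assoc ((k : ℚ) + 2) (((k : ℚ) + 2)⁻¹), mul_inv_cancel₀ c2, one_mul, Nat.choose_one_right]
      push_cast
      rw [hp']
      rw [div_eq_mul_inv, ← inv_pow] at g'
      linear_combination g' - r
    rw [e]
    refine i2.mul0 (PO.sub (PO.sub (PO.add (PO.add ?_ ?_) ?_) ?_) ?_)
    · exact (ppow 2).mul0' ((of_int _).mul0 (i2.mul0 ((i1.pow0 2).mul0 hPi)))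
    · exact p_PO.mul (p_PO.mul0' (of_int _))
    · exact (p_PO.mul0' (of_int _)).mul hch
    · exact (of_nat _).mul0 h1
    · exact (of_nat _).mul0 h0

/-- the Catalan-weighted sum, first form -/
lemma cat_main (hn : p = 2 * n + 1) (hn0 : 0 < n) (h3 : p ≠ 3) :
    PO p 2 ((∑ k ∈ range (2 * n + 1), (k.centralBinom : ℚ) * gg n k) - 4 / 3 * ((-1) ^ n * (chi3 p - p))) := by
  have h1 : PO p 2 ((∑ k ∈ range (2 * n + 1), (k.centralBinom : ℚ) * gg n k) - ∑ k ∈ range (2 * n + 1), (Ps n).coeff k) := by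
    apply PO.sum_sub
    intro k hk
    have hk' := mem_range.1 hk
    rcases Nat.lt_or_ge (k + 1) p with h | h
    · exact (delta hn hn0 k h).1
    · have hk2 : k = (2 * n - 1) + 1 := by omega
      rw [hk2]
      exact (delta hn hn0 (2 * n - 1) (by omega)).2
  rw [Ps_eval hn0] at h1
  have h2 := Rs_three hn h3
  have h4 := h1.add ((of_int (4 : ℤ)).mul0 h2)
  have e : (∑ k ∈ range (2 * n + 1), (k.centralBinom : ℚ) * gg n k) - 4 * eval 3 (Rs n) +
    ((4 : ℤ) : ℚ) * (eval 3 (Rs n) - (-1) ^ n * (chi3 p - p) / 3) =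
    (∑ k ∈ range (2 * n + 1), (k.centralBinom : ℚ) * gg n k) - 4 / 3 * ((-1) ^ n * (chi3 p - p)) := by
    push_cast; ring
  rwa [e] at h4

/-- the Catalan-weighted sum -/
theorem cat_half (hn : p = 2 * n + 1) (hn0 : 0 < n) (h3 : p ≠ 3) :
    PO p 2 ((∑ j ∈ range (n + 1), (j.centralBinom : ℚ) / (j + 1) / 16 ^ j * (T 4 1 (2 * j) : ℚ)) - 4 / 3 * ((-1) ^ n * (chi3 p - p))) := by
  have h1 := cat_main hn hn0 h3
  have h2 : PO p 2 ((∑ j ∈ range (n + 1), (j.centralBinom : ℚ) / (j + 1) / 16 ^ j * (T 4 1 (2 * j) : ℚ)) -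
      ∑ j ∈ range (n + 1), (aa n j / (j + 1)) * (T 4 1 (2 * j) : ℚ)) := by
    apply PO.sum_sub
    intro j hj
    have hj' := mem_range.1 hj
    have e : (j.centralBinom : ℚ) / (j + 1) / 16 ^ j * (T 4 1 (2 * j) : ℚ) - (aa n j / (j + 1)) * (T 4 1 (2 * j) : ℚ) =
        ((j.centralBinom : ℚ) / 16 ^ j - aa n j) * ((((j : ℚ) + 1)⁻¹) * (T 4 1 (2 * j) : ℚ)) := by
      rw [div_eq_mul_inv, div_eq_mul_inv, div_eq_mul_inv, div_eq_mul_inv]; ring
    rw [e]
    exact (base hn (by omega)).mul0' ((inv_succ (by omega)).mul0 (of_int _))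
  have h3' := half_swap (fun j => aa n j / (j + 1)) 1 n
  have e1 : (2 + 2 * 1 : ℤ) = 4 := by norm_num
  have e2 : (1 : ℤ) ^ 2 = 1 := by norm_num
  rw [e1, e2] at h3'
  rw [h3'] at h2
  have e3 : ∑ k ∈ range (2 * n + 1), ((1 : ℤ) : ℚ) ^ k * (k.centralBinom : ℚ) * ∑ j ∈ range (n + 1), (aa n j / (j + 1)) * (2 ^ (2 * j - k) * ((2 * j).choose k : ℚ)) =
      ∑ k ∈ range (2 * n + 1), (k.centralBinom : ℚ) * gg n k := by
    apply sum_congr rfl
    intro k _
    rw [gg]; push_cast; ring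
  rw [e3] at h2
  have := h2.add h1
  rwa [sub_add_sub_cancel] at this

end

end

end Pool.Agent.X14.TK
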