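import Pool.Agent.X14.TK3

set_option autoImplicit false

/-! The full-range sum. -/

namespace Pool.Agent.X14.TK

open Finset Polynomial Pool.Agent.H434R2 Pool.Agent.H434R2.PO

noncomputable section

set_option linter.unusedSectionVars false

lemma col_sum (i m : ℕ) : ∑ j ∈ range (m + 1), (j.centralBinom : ℚ) * (j.choose i : ℚ) / 4 ^ j =
    (2 * (m : ℚ) + 1) / (2 * i + 1) * ((m.centralBinom : ℚ) * (m.choose i : ℚ) / 4 ^ m) := by
  have ci : (2 * (i : ℚ) + 1) ≠ 0 := by positivity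
  induction m with
  | zero =>
    rcases i with _ | i
    · simp
    · simp
  | succ m ih =>
    rw [sum_range_succ, ih]
    have h1 := cb_succ m
    have h2 : ((m + 1).choose i : ℚ) * (m + 1 - i) = (m + 1) * (m.choose i : ℚ) := by
      rcases le_or_gt i (m + 1) with h | h
      · have := Nat.choose_mul_succ_eq m i
        have h3 : ((m.choose i * (m + 1) : ℕ) : ℚ) = (((m + 1).choose i * (m + 1 - i) : ℕ) : ℚ) := by exact_mod_cast this
        push_cast [Nat.cast_sub h] at h3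
        linear_combination -h3
      · rw [Nat.choose_eq_zero_of_lt h, Nat.choose_eq_zero_of_lt (by omega : m < i)]
        simp
    have c1 : ((m : ℚ) + 1) ≠ 0 := by positivity
    have h3 : (m.choose i : ℚ) = ((m + 1).choose i : ℚ) * (m + 1 - i) / (m + 1) := by
      rw [eq_div_iff c1]; linear_combination -h2
    have h4 : ((m + 1).centralBinom : ℚ) = 2 * (2 * m + 1) * (m.centralBinom : ℚ) / (m + 1) := by
      rw [eq_div_iff c1]; linear_combination h1
    rw [h3, h4, pow_succ]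
    push_cast
    field_simp
    ring

/-- the exact form of the full-range sum -/
lemma full_exact (n : ℕ) : ∑ j ∈ range (2 * n + 1), (T 1 1 j : ℚ) * (j.centralBinom : ℚ) / 12 ^ j =
    ∑ i ∈ range (2 * n + 1), (i.centralBinom : ℚ) * (-(1 / 3 : ℚ)) ^ i * ((2 * (n : ℚ) + 1) / (2 * i + 1)) *
      (((2 * n + 1).centralBinom : ℚ) / 2) * ((2 * n).choose i : ℚ) * ((16 : ℚ) ^ n)⁻¹ := by
  have e1 : ∀ j ∈ range (2 * n + 1), (T 1 1 j : ℚ) * (j.centralBinom : ℚ) / 12 ^ j =
      ∑ i ∈ range (2 * n + 1), (i.centralBinom : ℚ) * (-(1 / 3 : ℚ)) ^ i * ((j.centralBinom : ℚ) * (j.choose i : ℚ) / 4 ^ j) := by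
    intro j hj
    have hj' := mem_range.1 hj
    have h := T_expand 3 (-1) j
    rw [show (3 + 2 * -1 : ℤ) = 1 by norm_num, show ((-1 : ℤ)) ^ 2 = 1 by norm_num] at h
    rw [h]
    push_cast
    rw [sum_mul, sum_div]
    have hsub : range (j + 1) ⊆ range (2 * n + 1) := by
      intro x hx; simp only [mem_range] at *; omega
    rw [← sum_subset hsub]
    · apply sum_congr rfl
      intro i hi
      have hi' := mem_range.1 hi
      have e3 : (12 : ℚ) ^ j = 4 ^ j * (3 ^ (j - i) * 3 ^ i) := by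
        rw [← pow_add, show j - i + i = j by omega, ← mul_pow]; norm_num
      rw [e3, neg_pow (1 / 3 : ℚ) i, one_div, inv_pow]
      have c3 : (3 : ℚ) ^ (j - i) ≠ 0 := by positivity
      field_simp
    · intro x _ hx
      simp only [mem_range, not_lt] at hx
      rw [Nat.choose_eq_zero_of_lt (by omega)]
      simp
  rw [sum_congr rfl e1, sum_comm]
  apply sum_congr rfl
  intro i _
  rw [← mul_sum, col_sum]
  have h := cb_succ (2 * n)
  have e4 : (4 : ℚ) ^ (2 * n) = 16 ^ n := by rw [pow_mul]; norm_num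
  rw [e4]
  push_cast at h
  have e5 : (2 * (2 * (n : ℚ)) + 1) * ((2 * n).centralBinom : ℚ) = (2 * n + 1) * (((2 * n + 1).centralBinom : ℚ) / 2) := by
    linear_combination -h / 2
  have ci : (2 * (i : ℚ) + 1) ≠ 0 := by positivity
  push_cast
  have e6 : (2 * (2 * (n : ℚ)) + 1) / (2 * i + 1) * (((2 * n).centralBinom : ℚ) * ((2 * n).choose i : ℚ) / 16 ^ n) =
      ((2 * (2 * (n : ℚ)) + 1) * ((2 * n).centralBinom : ℚ)) * (((2 * n).choose i : ℚ) / (2 * i + 1) * (16 ^ n)⁻¹) := by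
    rw [div_eq_mul_inv _ ((16 : ℚ) ^ n)]; ring
  rw [e6, e5]
  ring

/-! ### the companion Chebyshev sum -/

def en (n i : ℕ) : ℚ := ((n + i).choose (2 * i) : ℚ) + 2 * ((n + i).choose (2 * i + 1) : ℚ)

lemma en_rec (n i : ℕ) : en (n + 2) (i + 1) + en n (i + 1) - 2 * en (n + 1) (i + 1) = en (n + 1) i := by
  have p1 : (n + 2 + (i + 1)).choose (2 * (i + 1)) = (n + 2 + i).choose (2 * i + 1) + (n + 2 + i).choose (2 * (i + 1)) := by
    rw [show n + 2 + (i + 1) = (n + 2 + i) + 1 by ring, show 2 * (i + 1) = (2 * i + 1) + 1 by ring, Nat.choose_succ_succ']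
  have p2 : (n + 1 + (i + 1)).choose (2 * (i + 1)) = (n + 1 + i).choose (2 * i + 1) + (n + 1 + i).choose (2 * (i + 1)) := by
    rw [show n + 1 + (i + 1) = (n + 1 + i) + 1 by ring, show 2 * (i + 1) = (2 * i + 1) + 1 by ring, Nat.choose_succ_succ']
  have p3 : (n + 2 + i).choose (2 * i + 1) = (n + 1 + i).choose (2 * i) + (n + 1 + i).choose (2 * i + 1) := by
    rw [show n + 2 + i = (n + 1 + i) + 1 by ring, Nat.choose_succ_succ']
  have p4 : (n + 2 + i).choose (2 * (i + 1)) = (n + 1 + (i + 1)).choose (2 * (i + 1)) := by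
    rw [show n + 2 + i = n + 1 + (i + 1) by ring]
  have p5 : (n + (i + 1)).choose (2 * (i + 1)) = (n + 1 + i).choose (2 * (i + 1)) := by
    rw [show n + (i + 1) = n + 1 + i by ring]
  have q1 : (n + 2 + (i + 1)).choose (2 * (i + 1) + 1) = (n + 1 + (i + 1)).choose (2 * (i + 1)) + (n + 1 + (i + 1)).choose (2 * (i + 1) + 1) := by
    rw [show n + 2 + (i + 1) = (n + 1 + (i + 1)) + 1 by ring, Nat.choose_succ_succ']
  have q2 : (n + 1 + (i + 1)).choose (2 * (i + 1) + 1) = (n + 1 + i).choose (2 * (i + 1)) + (n + 1 + i).choose (2 * (i + 1) + 1) := by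
    rw [show n + 1 + (i + 1) = (n + 1 + i) + 1 by ring, Nat.choose_succ_succ']
  have q5 : (n + (i + 1)).choose (2 * (i + 1) + 1) = (n + 1 + i).choose (2 * (i + 1) + 1) := by
    rw [show n + (i + 1) = n + 1 + i by ring]
  simp only [en]
  rw [q1, q5, q2, p1, p4, p5, p3, p2]
  push_cast
  ring

lemma en_eq (n i : ℕ) : en n i = (2 * (n : ℚ) + 1) / (2 * i + 1) * ((n + i).choose (2 * i) : ℚ) := by
  have c : (2 * (i : ℚ) + 1) ≠ 0 := by positivity
  have h : ((n + i).choose (2 * i + 1) : ℚ) * (2 * i + 1) = ((n + i).choose (2 * i) : ℚ) * (n - i) := by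
    rcases le_or_gt (2 * i) (n + i) with h | h
    · have := Nat.choose_succ_right_eq (n + i) (2 * i)
      have h3 : (((n + i).choose (2 * i + 1) * (2 * i + 1) : ℕ) : ℚ) = (((n + i).choose (2 * i) * (n + i - 2 * i) : ℕ) : ℚ) := by exact_mod_cast this
      push_cast [Nat.cast_sub h] at h3
      linear_combination h3
    · rw [Nat.choose_eq_zero_of_lt h, Nat.choose_eq_zero_of_lt (by omega : n + i < 2 * i + 1)]
      simp
  rw [en]
  field_simp
  linear_combination 2 * h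

def WW (n : ℕ) (z : ℚ) : ℚ := ∑ i ∈ range (n + 1), en n i * z ^ i

lemma WW_ext (n N : ℕ) (z : ℚ) (h : n + 1 ≤ N) : ∑ i ∈ range N, en n i * z ^ i = WW n z := by
  rw [WW]
  symm
  apply sum_subset
  · intro x hx; simp only [mem_range] at *; omega
  · intro x _ hx
    simp only [mem_range, not_lt] at hx
    rw [en, Nat.choose_eq_zero_of_lt (by omega), Nat.choose_eq_zero_of_lt (by omega)]
    simp

lemma WW_rec (n : ℕ) (z : ℚ) : WW (n + 2) z = (2 + z) * WW (n + 1) z - WW n z := by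
  have h2 := WW_ext n (n + 3) z (by omega)
  have h1 := WW_ext (n + 1) (n + 3) z (by omega)
  have h1' := WW_ext (n + 1) (n + 2) z (by omega)
  have h0 := WW_ext (n + 2) (n + 3) z (by omega)
  rw [sum_range_succ' _ (n + 2)] at h2 h1 h0
  have key : ∀ i : ℕ, en (n + 2) (i + 1) * z ^ (i + 1) + en n (i + 1) * z ^ (i + 1) - 2 * (en (n + 1) (i + 1) * z ^ (i + 1)) =
      z * (en (n + 1) i * z ^ i) := by
    intro i
    rw [← en_rec n i]; ring
  have hs := Finset.sum_congr (rfl : range (n + 2) = range (n + 2)) (fun i (_ : i ∈ range (n + 2)) => key i)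
  rw [sum_sub_distrib, sum_add_distrib, ← mul_sum, ← mul_sum, h1'] at hs
  have z0 : ∀ m, en m 0 = 2 * m + 1 := by
    intro m; simp [en]; ring
  rw [z0] at h2 h1 h0
  push_cast at h2 h1 h0
  linear_combination hs + 2 * h1 - h0 - h2

lemma WW_closed (n : ℕ) : WW n (-(16 / 3)) = (3 * (-3) ^ n + (-(1 / 3)) ^ n) / 4 := by
  have key : ∀ n, WW n (-(16 / 3)) = (3 * (-3) ^ n + (-(1 / 3)) ^ n) / 4 ∧
      WW (n + 1) (-(16 / 3)) = (3 * (-3) ^ (n + 1) + (-(1 / 3)) ^ (n + 1)) / 4 := by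
    intro n
    induction n with
    | zero =>
      constructor
      · simp [WW, en]; norm_num
      · simp [WW, en, sum_range_succ]; norm_num
    | succ n ih =>
      refine ⟨ih.2, ?_⟩
      rw [show n + 1 + 1 = n + 2 by ring, WW_rec, ih.1, ih.2, pow_succ, pow_succ, pow_add, pow_add]
      ring
  exact (key n).1

variable {p : ℕ} [hp : Fact p.Prime]

section

variable {n : ℕ}

lemma cb_p : PO p 2 ((p.centralBinom : ℚ) - 2) := by
  have h := Nat.sum_range_choose_sq p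
  obtain ⟨m, hm⟩ : ∃ m, p = m + 1 := ⟨p - 1, by have := hp.out.pos; omega⟩
  rw [sum_range_succ, ← Nat.centralBinom_eq_two_mul_choose, Nat.choose_self] at h
  have h2 : ∑ x ∈ range p, p.choose x ^ 2 = ∑ x ∈ range m, p.choose (x + 1) ^ 2 + 1 := by
    conv_lhs => rw [show range p = range (m + 1) by rw [hm]]
    rw [sum_range_succ']
    simp
  rw [h2] at h
  have e : (p.centralBinom : ℚ) - 2 = ∑ x ∈ range m, (p.choose (x + 1) : ℚ) ^ 2 := by
    rw [← h]; push_cast; ring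
  rw [e]
  apply PO.sum
  intro k hk
  have hk' := mem_range.1 hk
  have hd : p ∣ p.choose (k + 1) := hp.out.dvd_choose_self (by omega) (by omega)
  obtain ⟨c, hc⟩ := hd
  rw [hc]
  push_cast
  rw [mul_pow]
  exact (ppow 2).mul0' ((of_nat c).pow0 2)

lemma cb_big {i : ℕ} (h1 : p ≤ 2 * i) (h2 : i < p) : PO p 1 (i.centralBinom : ℚ) := by
  have hd : p ∣ i.centralBinom := by
    rw [Nat.centralBinom_eq_two_mul_choose, two_mul]
    exact hp.out.dvd_choose_add h2 h2 (by omega)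
  obtain ⟨c, hc⟩ := hd
  rw [hc]; push_cast
  exact p_PO.mul0' (of_nat c)

lemma inv_three (h3 : p ≠ 3) : PO p 0 ((1 / 3 : ℚ)) := by
  have := inv_nat (p := p) (m := 3) (by
    intro hd
    exact h3 ((Nat.prime_dvd_prime_iff_eq hp.out Nat.prime_three).1 hd))
  simpa using this

lemma full_reduce (hn : p = 2 * n + 1) (h3 : p ≠ 3) :
    PO p 2 ((∑ j ∈ range (2 * n + 1), (T 1 1 j : ℚ) * (j.centralBinom : ℚ) / 12 ^ j) - WW n (-(16 / 3))) := by
  have h2 : p ≠ 2 := by omega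
  rw [full_exact, show 2 * n + 1 = (n + 1) + n by ring, sum_range_add, add_sub_right_comm, ← show 2 * n + 1 = (n + 1) + n by ring]
  have hcb : PO p 2 ((((2 * n + 1).centralBinom : ℚ) / 2) - 1) := by
    have h := cb_p (p := p)
    have hh := half (p := p) h2
    rw [← hn]
    have e : (p.centralBinom : ℚ) / 2 - 1 = 1 / 2 * ((p.centralBinom : ℚ) - 2) := by ring
    rw [e]; exact hh.mul0 h
  have hcb0 : PO p 0 (((2 * n + 1).centralBinom : ℚ) / 2) := by
    have := (hcb.mono (Nat.zero_le 2)).add (one (p := p))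
    rwa [sub_add_cancel] at this
  have i3 := inv_three (p := p) h3
  have i16 := inv_16 (p := p) h2 n
  have h16 : PO p 1 (((16 : ℚ) ^ n)⁻¹ - 1) := by
    have ht := two_mod hn h3
    have e : ((16 : ℚ) ^ n)⁻¹ - 1 = -(((16 : ℚ) ^ n)⁻¹ * (((2 : ℚ) ^ (2 * n) - 1) * ((2 ^ (2 * n) + 1 : ℤ) : ℚ))) := by
      have c : ((16 : ℚ) ^ n) ≠ 0 := by positivity
      have e4 : (16 : ℚ) ^ n = 2 ^ (2 * n) * 2 ^ (2 * n) := by rw [← mul_pow, pow_mul]; norm_num
      push_cast
      field_simp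
      rw [e4]; ring
    rw [e]
    exact (i16.mul0 (ht.mul0' (of_int _))).neg
  apply PO.add
  · rw [WW]
    apply PO.sum_sub
    intro i hi
    have hi' := mem_range.1 hi
    have hb := base hn (j := i) (by omega)
    have hA : PO p 0 ((i.centralBinom : ℚ) / 16 ^ i) := by
      have := (hb.mono (Nat.zero_le 2)).add (aa_int (p := p) (n := n) i)
      rwa [sub_add_cancel] at this
    have c16 : ((16 : ℚ) ^ i) ≠ 0 := by positivity
    have c16n : ((16 : ℚ) ^ n) ≠ 0 := by positivity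
    rcases Nat.lt_or_ge i n with h | h
    · have hch := choose_pred (p := p) i (by omega)
      rw [show p - 1 = 2 * n by omega] at hch
      have e : (i.centralBinom : ℚ) * (-(1 / 3 : ℚ)) ^ i * ((2 * (n : ℚ) + 1) / (2 * i + 1)) *
          (((2 * n + 1).centralBinom : ℚ) / 2) * ((2 * n).choose i : ℚ) * ((16 : ℚ) ^ n)⁻¹ - en n i * (-(16 / 3)) ^ i =
          ((p : ℚ) / (2 * i + 1)) * ((((16 ^ i : ℤ) : ℚ) * (1 / 3) ^ i) *
            (((i.centralBinom : ℚ) / 16 ^ i - aa n i) * (((-1) ^ i : ℤ) * (((2 * n + 1).centralBinom : ℚ) / 2) * ((2 * n).choose i : ℚ) * ((16 : ℚ) ^ n)⁻¹) +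
            aa n i * (((-1) ^ i : ℤ) * (((2 * n + 1).centralBinom : ℚ) / 2) * ((16 : ℚ) ^ n)⁻¹ * (((2 * n).choose i : ℚ) - (-1) ^ i) +
              ((((2 * n + 1).centralBinom : ℚ) / 2) - 1) * ((16 : ℚ) ^ n)⁻¹ + (((16 : ℚ) ^ n)⁻¹ - 1)))) := by
        have s : ((-1 : ℚ) ^ i) * (-1) ^ i = 1 := by rw [← mul_pow]; simp
        rw [en_eq, p_cast hn, aa, neg_pow (1 / 3 : ℚ) i, neg_pow (16 / 3 : ℚ) i]
        have e3 : (16 / 3 : ℚ) ^ i = 16 ^ i * (1 / 3) ^ i := by rw [← mul_pow]; norm_num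
        rw [e3]
        push_cast
        generalize ((16 : ℚ) ^ n)⁻¹ = u
        have hx : (i.centralBinom : ℚ) = (i.centralBinom : ℚ) / 16 ^ i * 16 ^ i := by field_simp
        rw [hx, mul_div_cancel_right₀ _ c16]
        generalize (i.centralBinom : ℚ) / 16 ^ i = x
        generalize ((2 * n + 1).centralBinom : ℚ) / 2 = y
        generalize ((2 * n).choose i : ℚ) = w
        generalize ((n + i).choose (2 * i) : ℚ) = v
        generalize (2 * (n : ℚ) + 1) / (2 * i + 1) = r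
        generalize (1 / 3 : ℚ) ^ i = t
        generalize (16 : ℚ) ^ i = z
        linear_combination (r * z * t * (-1) ^ i * v * y * u) * s
      rw [e]
      have hs : PO p 0 ((((-1) ^ i : ℤ) : ℚ)) := of_int _
      refine (p_div_odd1 hn (by omega) (by omega)).mul (((of_int _).mul0 (i3.pow0 i)).mul0 (PO.add ?_ ((aa_int i).mul0 (PO.add (PO.add ?_ ?_) h16))))
      · exact (hb.mono (by norm_num)).mul0' (((hs.mul0 hcb0).mul0 (of_nat _)).mul0 i16)
      · exact ((hs.mul0 hcb0).mul0 i16).mul0 hch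
      · exact (hcb.mono (by norm_num)).mul0' i16
    · have hin : i = n := by omega
      subst hin
      have haa : aa i i = (-1) ^ i := by
        rw [aa, show i + i = 2 * i by ring, Nat.choose_self]; simp
      rw [haa] at hb
      have e : (i.centralBinom : ℚ) * (-(1 / 3 : ℚ)) ^ i * ((2 * (i : ℚ) + 1) / (2 * i + 1)) *
          (((2 * i + 1).centralBinom : ℚ) / 2) * ((2 * i).choose i : ℚ) * ((16 : ℚ) ^ i)⁻¹ - en i i * (-(16 / 3)) ^ i =
          (((-1) ^ i * 16 ^ i : ℤ) : ℚ) * (1 / 3) ^ i * (((i.centralBinom : ℚ) / 16 ^ i - (-1) ^ i) * ((i.centralBinom : ℚ) / 16 ^ i + ((-1) ^ i : ℤ)) * (((2 * i + 1).centralBinom : ℚ) / 2) +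
            ((((2 * i + 1).centralBinom : ℚ) / 2) - 1)) := by
        have s : ((-1 : ℚ) ^ i) * (-1) ^ i = 1 := by rw [← mul_pow]; simp
        have ci : (2 * (i : ℚ) + 1) ≠ 0 := by positivity
        rw [en_eq, show i + i = 2 * i by ring, Nat.choose_self, div_self ci, ← Nat.centralBinom_eq_two_mul_choose, neg_pow (1 / 3 : ℚ) i, neg_pow (16 / 3 : ℚ) i]
        have e3 : (16 / 3 : ℚ) ^ i = 16 ^ i * (1 / 3) ^ i := by rw [← mul_pow]; norm_num
        rw [e3]
        push_cast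
        have hx : (i.centralBinom : ℚ) = (i.centralBinom : ℚ) / 16 ^ i * 16 ^ i := by field_simp
        rw [hx, mul_div_cancel_right₀ _ c16]
        generalize (i.centralBinom : ℚ) / 16 ^ i = x
        generalize ((2 * i + 1).centralBinom : ℚ) / 2 = y
        generalize (1 / 3 : ℚ) ^ i = t
        have hz : ((16 : ℚ) ^ i) * ((16 : ℚ) ^ i)⁻¹ = 1 := mul_inv_cancel₀ c16
        generalize ((16 : ℚ) ^ i)⁻¹ = u at *
        generalize (16 : ℚ) ^ i = z at *
        linear_combination (x ^ 2 * z * t * (-1) ^ i * y) * hz + ((-1) ^ i * z * t * y) * s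
      rw [e]
      have hs : PO p 0 ((((-1) ^ i : ℤ) : ℚ)) := of_int _
      refine ((of_int _).mul0 (i3.pow0 i)).mul0 (PO.add ?_ hcb)
      exact (hb.mul0' (hA.add hs)).mul0' hcb0
  · apply PO.sum
    intro i hi
    have hi' := mem_range.1 hi
    have h1 := p_div_odd1 hn (k := n + 1 + i) (by omega) (by omega)
    have h4 := cb_big (p := p) (i := n + 1 + i) (by omega) (by omega)
    rw [p_cast hn] at h1
    have i3' : PO p 0 ((-(1 / 3 : ℚ)) ^ (n + 1 + i)) := (i3.neg).pow0 _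
    exact ((((h4.mul0' i3').mul h1).mul0' hcb0).mul0' (of_nat _)).mul0' i16

lemma WW_mod (hn : p = 2 * n + 1) (h3 : p ≠ 3) : PO p 2 (WW n (-(16 / 3)) - (3 + 3 ^ (p - 1)) / 4 * chi3 p) := by
  have h2 : p ≠ 2 := by omega
  have hX := neg3_mod hn h3
  have i3 := inv_three (p := p) h3
  have hh := half (p := p) h2
  rw [WW_closed, show p - 1 = 2 * n by omega]
  have e1 : (-(1 / 3 : ℚ)) ^ n * (-3) ^ n = 1 := by rw [← mul_pow]; norm_num
  have e2 : (3 : ℚ) ^ (2 * n) = ((-3) ^ n) ^ 2 := by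
    rw [← pow_mul, mul_comm n 2, pow_mul, pow_mul]; norm_num
  have e3 : (chi3 p : ℚ) ^ 2 = 1 := by exact_mod_cast chi3_sq p
  have e : (3 * (-3) ^ n + (-(1 / 3)) ^ n) / 4 - (3 + 3 ^ (2 * n)) / 4 * (chi3 p : ℚ) =
      -((1 / 2) * (1 / 2) * (-(1 / 3 : ℚ)) ^ n * (chi3 p : ℚ) * ((((-3) ^ n - (chi3 p : ℚ)) * ((-3) ^ n - (chi3 p : ℚ))) * (((-3) ^ n - chi3 p : ℤ) : ℚ))) := by
    rw [e2]
    push_cast
    generalize (-(1 / 3 : ℚ)) ^ n = u at *
    generalize ((-3 : ℚ)) ^ n = X at *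
    generalize (chi3 p : ℚ) = ε at *
    linear_combination (-(3 * X) / 4 + 3 / 4 * ε + X ^ 2 * ε / 4) * e1 + (u * (3 * X * ε - 3 * X ^ 2 - ε ^ 2 - 1) / 4) * e3
  rw [e]
  have h4 := hX.mul hX
  exact ((((hh.mul0 hh).mul0 (i3.neg.pow0 n)).mul0 (of_int _)).mul0 (h4.mul0' (of_int _))).neg

/-- the full-range sum -/
theorem full_main (hn : p = 2 * n + 1) (h3 : p ≠ 3) :
    PO p 2 ((∑ j ∈ range p, (T 1 1 j : ℚ) * (j.centralBinom : ℚ) / 12 ^ j) - (3 + 3 ^ (p - 1)) / 4 * chi3 p) := by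
  have h1 := full_reduce hn h3
  rw [← hn] at h1
  have := h1.add (WW_mod hn h3)
  rwa [sub_add_sub_cancel] at this

end

end

end Pool.Agent.X14.TK
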